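import Pool.Agent.CRT.Defs

/-!
# CRT, row K5d: in the limits of the critical walks the time is, up to constants, a function of the curve (helper34)

* `clClk_of` : `ClClk` from `TK`, `ClTime`, `MassB` and the upper bound of the numbers of walks.
-/

set_option autoImplicit false

open Set Filter Topology MeasureTheory
open scoped ENNReal

namespace Pool.Agent.CRT

open Pool.Agent.NTS.Res
open Pool.Agent.NPR

/-! ### scaling -/

lemma dist_sc {c : ℝ} (hc : 0 < c) (γ : CI) (p q : unitInterval) : dist (sc c γ p) (sc c γ q) = c * dist (γ p) (γ q) := by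
  show dist ((c : ℂ) * γ p) ((c : ℂ) * γ q) = _
  rw [dist_eq_norm, dist_eq_norm, ← mul_sub, norm_mul, Complex.norm_of_nonneg hc.le]

lemma pcs_sc {c : ℝ} (hc : 0 < c) (s : ℝ) (γ : CI) (a b : unitInterval) : pcs s (sc c γ) a b = pcs (s / c) γ a b := by
  have e : ∀ k, PcOk s (sc c γ) a b k ↔ PcOk (s / c) γ a b k := by
    intro k
    have h : ∀ p q : unitInterval, dist (sc c γ p) (sc c γ q) ≤ s ↔ dist (γ p) (γ q) ≤ s / c := by
      intro p q
      rw [dist_sc hc, le_div_iff₀ hc, mul_comm]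
    unfold PcOk
    simp only [h]
  unfold pcs
  simp only [e]

lemma vb_sc {c : ℝ} (hc : 0 < c) (ρ : ℝ) (γ : CI) (u : unitInterval) : vb ρ (sc c γ) u = c * vb (ρ / c) γ u := by
  unfold vb
  simp only [pcs_sc hc]
  rw [intervalIntegral.integral_comp_div (fun x => (pcs x γ 0 u : ℝ)) hc.ne', smul_eq_mul]
  rw [show 2 * ρ / c = 2 * (ρ / c) by ring]

lemma CK.sc_cont (c : ℝ) : Continuous (sc c) := continuous_const_smul (c : ℂ)

/-! ### the measure of a set of times in a range -/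

/-- the point of the walk -/
noncomputable def Ph (R : ℝ) (n : ℕ) (γ : CI) : CI × ℝ := (sc (size n / R) γ, (n : ℝ) / R ^ (4 / 3 : ℝ))

lemma Ph_meas (R : ℝ) (n : ℕ) : Measurable (Ph R n) := by
  have : Continuous (Ph R n) := (CK.sc_cont _).prodMk continuous_const
  exact this.measurable

lemma CK.cl_apply (R : ℝ) {E : Set (CI × ℝ)} (hE : MeasurableSet E) :
    cl R E = ∑' n : ℕ, ENNReal.ofReal (aN n / cR R) * law n ({γ | Ph R n γ ∈ E} ∩ inB R n) := by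
  unfold cl
  rw [Measure.sum_apply _ hE]
  refine tsum_congr fun n => ?_
  rw [Measure.smul_apply, smul_eq_mul]
  congr 1
  have h : Measurable fun γ : CI => (sc (size n / R) γ, (n : ℝ) / R ^ (4 / 3 : ℝ)) := Ph_meas R n
  rw [Measure.map_apply h hE, Measure.restrict_apply (h hE)]
  rfl

/-- the numbers of steps in a range have bounded weight -/
lemma range_le (hB : MassB) (hA : ∃ C : ℝ, ∀ n : ℕ, 1 ≤ n → aN n ≤ C * (n : ℝ) ^ (11 / 32 : ℝ)) :
    ∃ K R1 : ℝ, 0 < K ∧ 0 < R1 ∧ ∀ R Lam dl e : ℝ, R1 ≤ R → 0 < Lam → 0 < dl → 0 ≤ e → ∀ E : Set (CI × ℝ), MeasurableSet E →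
      (∀ n : ℕ, dl * R ^ (4 / 3 : ℝ) ≤ n → (n : ℝ) ≤ Lam * R ^ (4 / 3 : ℝ) → law n {γ | Ph R n γ ∈ E} ≤ ENNReal.ofReal e) →
      (∀ x ∈ E, dl ≤ x.2 ∧ x.2 ≤ Lam) → cl R E ≤ ENNReal.ofReal (e * (K * Lam ^ (43 / 32 : ℝ))) := by
  obtain ⟨c, C, R0, hc, hR0, hcC⟩ := hB
  obtain ⟨A, hA⟩ := hA
  obtain ⟨A', hA'⟩ : ∃ A', A' = max A 1 := ⟨_, rfl⟩
  have hA0 : 0 < A' := by
    rw [hA']
    exact lt_of_lt_of_le one_pos (le_max_right _ _)
  refine ⟨A' / c, R0, by positivity, hR0, fun R Lam dl e hR hLam hdl he E hE hn hx => ?_⟩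
  have hR' : 0 < R := hR0.trans_le hR
  have hRp : 0 < R ^ (4 / 3 : ℝ) := Real.rpow_pos_of_pos hR' _
  obtain ⟨L, hL⟩ : ∃ L, L = Lam * R ^ (4 / 3 : ℝ) := ⟨_, rfl⟩
  have hL0 : 0 < L := by
    rw [hL]
    positivity
  have hcR : 0 < cR R := lt_of_lt_of_le (by positivity) (hcC R hR).1
  rw [CK.cl_apply R hE]
  have hzero : ∀ n ∉ Finset.Icc 1 ⌊L⌋₊, ENNReal.ofReal (aN n / cR R) * law n ({γ | Ph R n γ ∈ E} ∩ inB R n) = 0 := by
    intro n hn'
    have : {γ : CI | Ph R n γ ∈ E} = ∅ := by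
      rw [eq_empty_iff_forall_notMem]
      intro γ hγ
      obtain ⟨h1, h2⟩ := hx _ hγ
      have h1' : dl ≤ (n : ℝ) / R ^ (4 / 3 : ℝ) := h1
      have h2' : (n : ℝ) / R ^ (4 / 3 : ℝ) ≤ Lam := h2
      rw [div_le_iff₀ hRp, ← hL] at h2'
      have h3 : n ≤ ⌊L⌋₊ := Nat.le_floor h2'
      have h4 : (0 : ℝ) < n := by
        rw [le_div_iff₀ hRp] at h1'
        have : 0 < dl * R ^ (4 / 3 : ℝ) := by positivity
        linarith
      have h5 : 1 ≤ n := by exact_mod_cast h4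
      exact hn' (Finset.mem_Icc.2 ⟨h5, h3⟩)
    rw [this, empty_inter, measure_empty, mul_zero]
  rw [tsum_eq_sum hzero]
  have hterm : ∀ n ∈ Finset.Icc 1 ⌊L⌋₊, ENNReal.ofReal (aN n / cR R) * law n ({γ | Ph R n γ ∈ E} ∩ inB R n) ≤
      ENNReal.ofReal (A' * L ^ (11 / 32 : ℝ) / cR R * e) := by
    intro n hn'
    obtain ⟨h1, h2⟩ := Finset.mem_Icc.1 hn'
    have h3 : (n : ℝ) ≤ L := (Nat.cast_le.2 h2).trans (Nat.floor_le hL0.le)
    have h4 : aN n ≤ A' * L ^ (11 / 32 : ℝ) := by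
      refine (hA n h1).trans ?_
      have h5 : (n : ℝ) ^ (11 / 32 : ℝ) ≤ L ^ (11 / 32 : ℝ) := Real.rpow_le_rpow (Nat.cast_nonneg _) h3 (by norm_num)
      have h6 : A ≤ A' := by
        rw [hA']
        exact le_max_left _ _
      exact mul_le_mul h6 h5 (by positivity) hA0.le
    have h7 : law n ({γ | Ph R n γ ∈ E} ∩ inB R n) ≤ ENNReal.ofReal e := by
      by_cases h8 : dl * R ^ (4 / 3 : ℝ) ≤ n
      · exact (measure_mono inter_subset_left).trans (hn n h8 (by rw [← hL]; exact h3))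
      · have : {γ : CI | Ph R n γ ∈ E} = ∅ := by
          rw [eq_empty_iff_forall_notMem]
          intro γ hγ
          have h9 : dl ≤ (n : ℝ) / R ^ (4 / 3 : ℝ) := (hx _ hγ).1
          rw [le_div_iff₀ hRp] at h9
          exact h8 h9
        rw [this, empty_inter, measure_empty]
        exact zero_le
    rw [ENNReal.ofReal_mul (by positivity)]
    refine mul_le_mul' (ENNReal.ofReal_le_ofReal ?_) h7
    exact div_le_div_of_nonneg_right h4 hcR.le
  refine (Finset.sum_le_card_nsmul _ _ _ hterm).trans ?_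
  rw [Nat.card_Icc, Nat.add_sub_cancel, nsmul_eq_mul, ← ENNReal.ofReal_natCast, ← ENNReal.ofReal_mul (Nat.cast_nonneg _)]
  refine ENNReal.ofReal_le_ofReal ?_
  have h1 : (⌊L⌋₊ : ℝ) ≤ L := Nat.floor_le hL0.le
  have h2 : L * L ^ (11 / 32 : ℝ) = L ^ (43 / 32 : ℝ) := by
    rw [← Real.rpow_one_add' hL0.le (by norm_num)]
    norm_num
  have h3 : L ^ (43 / 32 : ℝ) = Lam ^ (43 / 32 : ℝ) * R ^ (43 / 24 : ℝ) := by
    rw [hL, Real.mul_rpow hLam.le hRp.le, ← Real.rpow_mul hR'.le]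
    norm_num
  calc (⌊L⌋₊ : ℝ) * (A' * L ^ (11 / 32 : ℝ) / cR R * e) ≤ L * (A' * L ^ (11 / 32 : ℝ) / cR R * e) :=
        mul_le_mul_of_nonneg_right h1 (by positivity)
    _ = A' * (L * L ^ (11 / 32 : ℝ)) * e / cR R := by ring
    _ = A' * Lam ^ (43 / 32 : ℝ) * e * (R ^ (43 / 24 : ℝ) / cR R) := by
        rw [h2, h3]
        ring
    _ ≤ A' * Lam ^ (43 / 32 : ℝ) * e * (1 / c) := by
        refine mul_le_mul_of_nonneg_left ?_ (by positivity)
        rw [div_le_div_iff₀ hcR hc]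
        linarith [(hcC R hR).1]
    _ = _ := by ring

/-! ### portmanteau -/

lemma open_cl {R0 : ℝ} (hP : ∀ R, R0 ≤ R → IsProbabilityMeasure (cl R)) {r : ℕ → ℝ} (hr : Tendsto r atTop atTop)
    {M : Measure (CI × ℝ)} (hM : IsProbabilityMeasure M) (hlim : ClTo r M) {O : Set (CI × ℝ)} (hO : IsOpen O)
    {c : ℝ≥0∞} (h : ∃ᶠ k in atTop, cl (r k) O ≤ c) : M O ≤ c := by
  obtain ⟨P, hPd⟩ : ∃ P : ℕ → ProbabilityMeasure (CI × ℝ), P = fun k => ⟨cl (max (r k) R0), hP _ (le_max_right _ _)⟩ :=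
    ⟨_, rfl⟩
  have hev : ∀ᶠ k in atTop, (P k : Measure (CI × ℝ)) = cl (r k) := by
    filter_upwards [hr.eventually_ge_atTop R0] with k hk
    rw [hPd]
    show cl (max (r k) R0) = cl (r k)
    rw [max_eq_left hk]
  have ht : Tendsto P atTop (𝓝 (⟨M, hM⟩ : ProbabilityMeasure (CI × ℝ))) := by
    refine ProbabilityMeasure.tendsto_iff_forall_integral_tendsto.2 fun f => ?_
    refine (hlim f).congr' ?_
    filter_upwards [hev] with k hk
    rw [hk]
  have h1 := ProbabilityMeasure.le_liminf_measure_open_of_tendsto ht hO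
  refine h1.trans ?_
  refine liminf_le_of_frequently_le' ?_
  exact (h.and_eventually hev).mono fun k hk => by
    rw [hk.2]
    exact hk.1

/-! ### one scale -/

/-- the times in the open interval -/
def Ti (dl Lam : ℝ) : Set (CI × ℝ) := {x | dl < x.2 ∧ x.2 < Lam}

lemma Ti_open (dl Lam : ℝ) : IsOpen (Ti dl Lam) :=
  (isOpen_lt continuous_const continuous_snd).inter (isOpen_lt continuous_snd continuous_const)

/-- the bad set of one scale -/
def Bo (dl Lam ρ κ e : ℝ) : Set (CI × ℝ) := {x | (dl < x.2 ∧ x.2 < Lam) ∧ 2 * e * x.2 < |κ * vb ρ x.1 1 - x.2|}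

lemma vb_cont1 {ρ : ℝ} (hρ : 0 < ρ) : Continuous fun x : CI × ℝ => vb ρ x.1 1 := (vb_cont hρ 1).comp continuous_fst

lemma Bo_open {dl Lam ρ κ e : ℝ} (hρ : 0 < ρ) : IsOpen (Bo dl Lam ρ κ e) :=
  (Ti_open dl Lam).inter (isOpen_lt (continuous_const.mul continuous_snd)
    ((continuous_const.mul (vb_cont1 hρ)).sub continuous_snd).abs)

/-- **one scale**: the constant of the limit -/
theorem one_scale {R0 : ℝ} (hP : ∀ R, R0 ≤ R → IsProbabilityMeasure (cl R)) {r : ℕ → ℝ} (hr : Tendsto r atTop atTop)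
    {M : Measure (CI × ℝ)} (hM : IsProbabilityMeasure M) (hlim : ClTo r M) {dl Lam ρ e e' : ℝ} (hρ : 0 < ρ)
    (hdl : 0 < dl) (he0 : 0 < e) (he : e ≤ 1 / 4) (hee' : e' ≤ e)
    (hU : ENNReal.ofReal (1 / 4) < M (Ti dl Lam))
    (hk : ∀ᶠ k in atTop, ∃ κ : ℝ, 0 < κ ∧
      cl (r k) {x | (dl ≤ x.2 ∧ x.2 ≤ Lam) ∧ e' * x.2 < |κ * vb ρ x.1 1 - x.2|} ≤ ENNReal.ofReal e) :
    ∃ κ : ℝ, 0 < κ ∧ M (Bo dl Lam ρ κ e) ≤ ENNReal.ofReal e := by
  -- a bound of the clock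
  obtain ⟨B, hB0, hB⟩ : ∃ B : ℝ, 0 < B ∧ ENNReal.ofReal (1 / 4) < M {x | x ∈ Ti dl Lam ∧ vb ρ x.1 1 < B} := by
    have hmono : Monotone fun i : ℕ => {x : CI × ℝ | x ∈ Ti dl Lam ∧ vb ρ x.1 1 < (i : ℝ)} := by
      intro i j hij x hx
      have : (i : ℝ) ≤ j := by exact_mod_cast hij
      exact ⟨hx.1, hx.2.trans_le this⟩
    have hun : ⋃ i : ℕ, {x : CI × ℝ | x ∈ Ti dl Lam ∧ vb ρ x.1 1 < (i : ℝ)} = Ti dl Lam := by
      ext x
      simp only [mem_iUnion, mem_ofPred_eq]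
      refine ⟨fun ⟨_, h, _⟩ => h, fun h => ?_⟩
      obtain ⟨i, hi⟩ := exists_nat_gt (vb ρ x.1 1)
      exact ⟨i, h, hi⟩
    have h1 := tendsto_measure_iUnion_atTop (μ := M) hmono
    rw [hun] at h1
    obtain ⟨i, hi1, hi2⟩ := (((tendsto_order.1 h1).1 _ hU).and (eventually_ge_atTop 1)).exists
    have hi3 : (0 : ℝ) < i := by exact_mod_cast hi2
    exact ⟨i, hi3, hi1⟩
  have hUo : IsOpen {x : CI × ℝ | x ∈ Ti dl Lam ∧ vb ρ x.1 1 < B} :=
    (Ti_open dl Lam).inter (isOpen_lt (vb_cont1 hρ) continuous_const)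
  have hev : ∀ᶠ k in atTop, ENNReal.ofReal (1 / 4) < cl (r k) {x | x ∈ Ti dl Lam ∧ vb ρ x.1 1 < B} := by
    by_contra hcon
    have hf : ∃ᶠ k in atTop, cl (r k) {x | x ∈ Ti dl Lam ∧ vb ρ x.1 1 < B} ≤ ENNReal.ofReal (1 / 4) := by
      rw [not_eventually] at hcon
      exact hcon.mono fun k hk => not_lt.1 hk
    exact absurd (open_cl hP hr hM hlim hUo hf) (not_le.2 hB)
  -- the constants
  obtain ⟨k0, hk0⟩ := eventually_atTop.1 (hk.and hev)
  choose! κ hκ0 hκ using fun k (h : k0 ≤ k) => (hk0 k h).1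
  have hgood : ∀ k, k0 ≤ k → κ k ∈ Icc (dl / (2 * B)) (2 * Lam / ρ) := by
    intro k hkk
    have h1 := (hk0 k hkk).2
    obtain ⟨x, hx1, hx2⟩ : ∃ x, x ∈ {x : CI × ℝ | x ∈ Ti dl Lam ∧ vb ρ x.1 1 < B} ∧
        x ∉ {x : CI × ℝ | (dl ≤ x.2 ∧ x.2 ≤ Lam) ∧ e' * x.2 < |κ k * vb ρ x.1 1 - x.2|} := by
      by_contra hcon
      push Not at hcon
      have h2 : cl (r k) {x : CI × ℝ | x ∈ Ti dl Lam ∧ vb ρ x.1 1 < B} ≤ ENNReal.ofReal e :=
        (measure_mono fun x hx => hcon x hx).trans (hκ k hkk)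
      have h3 : ENNReal.ofReal e ≤ ENNReal.ofReal (1 / 4) := ENNReal.ofReal_le_ofReal he
      exact absurd (h1.trans_le (h2.trans h3)) (lt_irrefl _)
    obtain ⟨⟨hx3, hx4⟩, hx5⟩ := hx1
    have hx6 : |κ k * vb ρ x.1 1 - x.2| ≤ e' * x.2 := by
      by_contra hcon
      exact hx2 ⟨⟨hx3.le, hx4.le⟩, not_le.1 hcon⟩
    rw [abs_le] at hx6
    have hκk := hκ0 k hkk
    have hvb := vb_ge hρ x.1 1
    have hx20 : 0 < x.2 := hdl.trans hx3
    have h5 : e' * x.2 ≤ 1 / 4 * x.2 := mul_le_mul_of_nonneg_right (hee'.trans he) hx20.le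
    constructor
    · rw [div_le_iff₀ (by positivity)]
      have h6 : κ k * vb ρ x.1 1 ≤ κ k * B := mul_le_mul_of_nonneg_left hx5.le hκk.le
      linarith [hx6.1]
    · rw [le_div_iff₀ hρ]
      have h6 : κ k * ρ ≤ κ k * vb ρ x.1 1 := mul_le_mul_of_nonneg_left hvb hκk.le
      linarith [hx6.2]
  obtain ⟨κ0, hκ01, φ, hφ, hφl⟩ := isCompact_Icc.tendsto_subseq' (x := κ)
    (s := Icc (dl / (2 * B)) (2 * Lam / ρ)) ((eventually_ge_atTop k0).mono hgood).frequently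
  have hκ00 : 0 < κ0 := lt_of_lt_of_le (by positivity) hκ01.1
  refine ⟨κ0, hκ00, ?_⟩
  refine open_cl hP (hr.comp hφ.tendsto_atTop) hM (fun f => (hlim f).comp hφ.tendsto_atTop) (Bo_open hρ) ?_
  refine Eventually.frequently ?_
  have h7 : ∀ᶠ i in atTop, |κ (φ i) - κ0| < e / 4 * κ0 := by
    have := (Metric.tendsto_atTop.1 hφl) (e / 4 * κ0) (by positivity)
    obtain ⟨N, hN⟩ := this
    filter_upwards [eventually_ge_atTop N] with i hi
    have := hN i hi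
    rwa [Real.dist_eq] at this
  filter_upwards [h7, hφ.tendsto_atTop.eventually_ge_atTop k0] with i hi1 hi2
  refine (measure_mono ?_).trans (hκ _ hi2)
  rintro x ⟨⟨hx1, hx2⟩, hx3⟩
  refine ⟨⟨hx1.le, hx2.le⟩, ?_⟩
  by_contra hcon
  rw [not_lt] at hcon
  have hx20 : 0 < x.2 := hdl.trans hx1
  have hv := vb_pos hρ x.1 1
  obtain ⟨a, ha⟩ : ∃ a, a = κ (φ i) := ⟨_, rfl⟩
  rw [← ha] at hcon hi1
  obtain ⟨v, hvd⟩ : ∃ v, v = vb ρ x.1 1 := ⟨_, rfl⟩
  rw [← hvd] at hcon hx3 hv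
  rw [abs_lt] at hi1
  have h8 : e' * x.2 ≤ e * x.2 := mul_le_mul_of_nonneg_right hee' hx20.le
  have h9 : a * v ≤ (1 + e) * x.2 := by
    have := (abs_le.1 hcon).2
    linarith
  have h10 : κ0 ≤ 2 * a := by nlinarith [hi1.1]
  have h11 : |κ0 * v - a * v| ≤ e * x.2 := by
    rw [← sub_mul, abs_mul, abs_of_pos hv]
    have h12 : |κ0 - a| ≤ e / 4 * κ0 := by
      rw [abs_le]
      constructor <;> linarith [hi1.1, hi1.2]
    have h13 : |κ0 - a| * v ≤ e / 4 * κ0 * v := mul_le_mul_of_nonneg_right h12 hv.le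
    have h14 : e / 4 * κ0 * v ≤ e / 4 * (2 * a) * v :=
      mul_le_mul_of_nonneg_right (mul_le_mul_of_nonneg_left h10 (by positivity)) hv.le
    have h15 : e / 4 * (2 * a) * v = e / 2 * (a * v) := by ring
    have h16 : e / 2 * (a * v) ≤ e / 2 * ((1 + e) * x.2) := mul_le_mul_of_nonneg_left h9 (by positivity)
    have h17 : e / 2 * ((1 + e) * x.2) ≤ e * x.2 := by nlinarith [mul_pos he0 hx20]
    linarith
  have h18 : |κ0 * v - x.2| ≤ |κ0 * v - a * v| + |a * v - x.2| := abs_sub_le _ _ _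
  linarith

/-- **K5d** -/
theorem clClk_of (hTK : TK) (hT : ClTime) (hB : MassB)
    (hA : ∃ C : ℝ, ∀ n : ℕ, 1 ≤ n → aN n ≤ C * (n : ℝ) ^ (11 / 32 : ℝ))
    (hP : ∃ R0 : ℝ, ∀ R, R0 ≤ R → IsProbabilityMeasure (cl R)) : ClClk := by
  obtain ⟨R0, hP⟩ := hP
  obtain ⟨K, R1, hK, hR1, hrange⟩ := range_le hB hA
  obtain ⟨⟨c, C, t0, -, hC, -, hT1⟩, hT2⟩ := hT
  -- the times
  have hpw : ∀ j : ℕ, (0 : ℝ) < (1 / 2) ^ j := fun j => by positivity
  choose! T hT0 hT3 using hT2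
  obtain ⟨dl, hdld⟩ : ∃ dl : ℕ → ℝ, dl = fun j => min (1 / 2) ((1 / 2) ^ j / C) := ⟨_, rfl⟩
  have hdl0 : ∀ j, 0 < dl j := fun j => by
    rw [hdld]
    exact lt_min (by norm_num) (by positivity)
  have hdl1 : ∀ j, dl j ≤ 1 / 2 := fun j => by
    rw [hdld]
    exact min_le_left _ _
  have hdl2 : ∀ j, C * dl j ≤ (1 / 2) ^ j := fun j => by
    have : dl j ≤ (1 / 2) ^ j / C := by
      rw [hdld]
      exact min_le_right _ _
    rw [le_div_iff₀ hC] at this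
    linarith
  obtain ⟨Lam, hLamd⟩ : ∃ Lam : ℕ → ℝ, Lam = fun j => T ((1 / 2) ^ j) + 1 := ⟨_, rfl⟩
  have hLam1 : ∀ j, 1 < Lam j := fun j => by
    rw [hLamd]
    have := hT0 _ (hpw j)
    show 1 < T ((1 / 2) ^ j) + 1
    linarith
  have hdlLam : ∀ j, dl j < Lam j := fun j => by linarith [hdl1 j, hLam1 j]
  -- the precision
  obtain ⟨e', he'd⟩ : ∃ e' : ℕ → ℝ, e' = fun j => (1 / 2) ^ j / (1 + K * Lam j ^ (43 / 32 : ℝ)) := ⟨_, rfl⟩
  have hq : ∀ j, 0 < K * Lam j ^ (43 / 32 : ℝ) := fun j => by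
    have := hLam1 j
    positivity
  have he'0 : ∀ j, 0 < e' j := fun j => by
    rw [he'd]
    have := hq j
    positivity
  have he'1 : ∀ j, e' j ≤ (1 / 2) ^ j := fun j => by
    rw [he'd]
    have := hq j
    exact div_le_self (hpw j).le (by linarith)
  have he'2 : ∀ j, e' j * (K * Lam j ^ (43 / 32 : ℝ)) ≤ (1 / 2) ^ j := fun j => by
    rw [he'd]
    have h1 := hq j
    show (1 / 2) ^ j / (1 + K * Lam j ^ (43 / 32 : ℝ)) * (K * Lam j ^ (43 / 32 : ℝ)) ≤ (1 / 2) ^ j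
    rw [div_mul_eq_mul_div, div_le_iff₀ (by linarith)]
    nlinarith [hpw j]
  choose ρ0 hρ00 hρ0 using fun j => hTK (e' j) (dl j) (Lam j) (he'0 j) (hdl0 j) (hdlLam j)
  obtain ⟨ρ, hρd⟩ : ∃ ρ : ℕ → ℝ, ρ = fun j => min (ρ0 j) (1 / ((j : ℝ) + 1)) := ⟨_, rfl⟩
  have hρp : ∀ j, 0 < ρ j := fun j => by
    rw [hρd]
    exact lt_min (hρ00 j) (by positivity)
  have hρl : ∀ j, ρ j ≤ ρ0 j := fun j => by
    rw [hρd]
    exact min_le_left _ _
  refine ⟨ρ, hρp, ?_, fun r M hr hM hlim => ?_⟩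
  · refine squeeze_zero (fun j => (hρp j).le) (fun j => ?_) tendsto_one_div_add_atTop_nhds_zero_nat
    rw [hρd]
    exact min_le_right _ _
  obtain ⟨hx0, hx1, -⟩ := hT1 r M hr hM hlim
  -- small times
  have hsmall : ∀ j, M {x | x.2 ≤ dl j} ≤ ENNReal.ofReal ((1 / 2) ^ j) := by
    intro j
    have hmono : Monotone fun i : ℕ => {x : CI × ℝ | x.2 ∈ Icc (dl j / ((i : ℝ) + 2)) (dl j)} := by
      intro i i' hii x hx
      have : (i : ℝ) ≤ i' := by exact_mod_cast hii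
      exact ⟨(div_le_div_of_nonneg_left (hdl0 j).le (by positivity) (by linarith)).trans hx.1, hx.2⟩
    have hun : {x : CI × ℝ | 0 < x.2 ∧ x.2 ≤ dl j} ⊆
        ⋃ i : ℕ, {x : CI × ℝ | x.2 ∈ Icc (dl j / ((i : ℝ) + 2)) (dl j)} := by
      intro x hx
      obtain ⟨i, hi⟩ := exists_nat_gt (dl j / x.2)
      refine mem_iUnion.2 ⟨i, ?_, hx.2⟩
      rw [div_lt_iff₀ hx.1] at hi
      rw [div_le_iff₀ (by positivity)]
      nlinarith [hx.1]
    have h1 : M {x : CI × ℝ | 0 < x.2 ∧ x.2 ≤ dl j} ≤ ENNReal.ofReal ((1 / 2) ^ j) := by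
      refine (measure_mono hun).trans ?_
      rw [hmono.measure_iUnion]
      refine iSup_le fun i => ?_
      have hi : 0 < dl j / ((i : ℝ) + 2) := div_pos (hdl0 j) (by positivity)
      have hi2 : dl j / ((i : ℝ) + 2) < dl j := div_lt_self (hdl0 j) (by
        have : (0 : ℝ) ≤ i := Nat.cast_nonneg i
        linarith)
      refine (hx1 _ _ hi hi2).trans (ENNReal.ofReal_le_ofReal ?_)
      have h2 : dl j ^ (11 / 32 : ℝ) ≤ 1 :=
        Real.rpow_le_one (hdl0 j).le (by linarith [hdl1 j]) (by norm_num)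
      have h3 : dl j - dl j / ((i : ℝ) + 2) ≤ dl j := by linarith
      have h3' : 0 ≤ dl j - dl j / ((i : ℝ) + 2) := by linarith
      have h4 : C * dl j ^ (11 / 32 : ℝ) * (dl j - dl j / ((i : ℝ) + 2)) ≤ C * 1 * dl j :=
        mul_le_mul (mul_le_mul_of_nonneg_left h2 hC.le) h3 h3' (by positivity)
      linarith [hdl2 j]
    refine le_trans (measure_mono_ae ?_) h1
    filter_upwards [hx0] with x hx hx2
    exact ⟨hx, hx2⟩
  have hbig : ∀ j, M {x | T ((1 / 2) ^ j) < x.2} ≤ ENNReal.ofReal ((1 / 2) ^ j) := fun j =>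
    hT3 _ (hpw j) r M hr hM hlim
  -- the constants
  have hκ : ∀ j : ℕ, ∃ κ : ℝ, 0 < κ ∧ (3 ≤ j → M (Bo (dl j) (Lam j) (ρ j) κ ((1 / 2) ^ j)) ≤ ENNReal.ofReal ((1 / 2) ^ j)) := by
    intro j
    by_cases hj : 3 ≤ j
    · have hj8 : ((1 : ℝ) / 2) ^ j ≤ 1 / 8 := by
        calc ((1 : ℝ) / 2) ^ j ≤ (1 / 2) ^ 3 := pow_le_pow_of_le_one (by norm_num) (by norm_num) hj
          _ = 1 / 8 := by norm_num
      have hU : ENNReal.ofReal (1 / 4) < M (Ti (dl j) (Lam j)) := by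
        have h1 : (univ : Set (CI × ℝ)) ⊆ Ti (dl j) (Lam j) ∪ ({x | x.2 ≤ dl j} ∪ {x | T ((1 / 2) ^ j) < x.2}) := by
          intro x _
          rcases le_or_gt x.2 (dl j) with h2 | h2
          · exact Or.inr (Or.inl h2)
          · rcases lt_or_ge (T ((1 / 2) ^ j)) x.2 with h3 | h3
            · exact Or.inr (Or.inr h3)
            · refine Or.inl ⟨h2, ?_⟩
              rw [hLamd]
              show x.2 < T ((1 / 2) ^ j) + 1
              linarith
        have h2 := (measure_mono (μ := M) h1).trans ((measure_union_le _ _).trans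
          (add_le_add le_rfl ((measure_union_le _ _).trans (add_le_add (hsmall j) (hbig j)))))
        rw [measure_univ, ← ENNReal.ofReal_add (hpw j).le (hpw j).le] at h2
        by_contra hcon
        rw [not_lt] at hcon
        have h3 := h2.trans (add_le_add hcon le_rfl)
        rw [← ENNReal.ofReal_add (by norm_num) (by positivity), ← ENNReal.ofReal_one] at h3
        have h4 := (ENNReal.ofReal_le_ofReal_iff (by positivity)).1 h3
        linarith
      obtain ⟨κ, hκ0, hκ1⟩ := one_scale hP hr hM hlim (dl := dl j) (Lam := Lam j) (ρ := ρ j) (e := (1 / 2) ^ j)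
        (e' := e' j) (hρp j) (hdl0 j) (hpw j) (by linarith) (he'1 j) hU (by
          obtain ⟨R2, hR2, hR2'⟩ := hρ0 j (ρ j) (hρp j) (hρl j)
          filter_upwards [hr.eventually_ge_atTop (max R2 R1)] with k hk
          have hk2 : R2 ≤ r k := (le_max_left _ _).trans hk
          have hk1 : R1 ≤ r k := (le_max_right _ _).trans hk
          have hR0 : 0 < r k := hR1.trans_le hk1
          have hRp : 0 < r k ^ (4 / 3 : ℝ) := Real.rpow_pos_of_pos hR0 _
          obtain ⟨ka, hka, hka'⟩ := hR2' (r k) hk2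
          refine ⟨ka * r k / r k ^ (4 / 3 : ℝ), by positivity, ?_⟩
          have hmeas : MeasurableSet {x : CI × ℝ | (dl j ≤ x.2 ∧ x.2 ≤ Lam j) ∧
              e' j * x.2 < |ka * r k / r k ^ (4 / 3 : ℝ) * vb (ρ j) x.1 1 - x.2|} := by
            refine MeasurableSet.inter ?_ ?_
            · exact (measurableSet_le measurable_const measurable_snd).inter
                (measurableSet_le measurable_snd measurable_const)
            · have hv := (vb_cont1 (hρp j)).measurable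
              exact measurableSet_lt (measurable_snd.const_mul _) ((hv.const_mul _).sub measurable_snd).abs
          refine (hrange (r k) (Lam j) (dl j) (e' j) hk1 (by linarith [hLam1 j]) (hdl0 j) (he'0 j).le _ hmeas ?_
            fun x hx => hx.1).trans (ENNReal.ofReal_le_ofReal (he'2 j))
          intro n hn1 hn2
          refine (measure_mono ?_).trans (hka' n hn1 hn2)
          intro γ hγ
          have hn0 : (0 : ℝ) < n := lt_of_lt_of_le (mul_pos (hdl0 j) hRp) hn1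
          have hn1' : 1 ≤ n := by exact_mod_cast hn0
          have hs := NTSF.size_pos hn1'
          have h5 : e' j * ((n : ℝ) / r k ^ (4 / 3 : ℝ)) <
              |ka * r k / r k ^ (4 / 3 : ℝ) * vb (ρ j) (sc (size n / r k) γ) 1 - (n : ℝ) / r k ^ (4 / 3 : ℝ)| := hγ.2
          rw [vb_sc (div_pos hs hR0)] at h5
          have h6 : ka * r k / r k ^ (4 / 3 : ℝ) * (size n / r k * vb (ρ j / (size n / r k)) γ 1) -
              (n : ℝ) / r k ^ (4 / 3 : ℝ) =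
              (ka * (size n * vb (ρ j * r k / size n) γ 1) - n) / r k ^ (4 / 3 : ℝ) := by
            rw [show ρ j / (size n / r k) = ρ j * r k / size n by field_simp]
            field_simp
          rw [h6, abs_div, abs_of_pos hRp, lt_div_iff₀ hRp] at h5
          have h7 : e' j * ((n : ℝ) / r k ^ (4 / 3 : ℝ)) * r k ^ (4 / 3 : ℝ) = e' j * n := by field_simp
          rw [h7] at h5
          exact h5)
      exact ⟨κ, hκ0, fun _ => hκ1⟩
    · exact ⟨1, one_pos, fun h => absurd h hj⟩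
  choose κ hκ0 hκ1 using hκ
  refine ⟨κ, hκ0, ?_⟩
  -- Borel - Cantelli
  obtain ⟨Z, hZ⟩ : ∃ Z : ℕ → Set (CI × ℝ), Z = fun j => {x | x.2 ≤ dl j} ∪ ({x | T ((1 / 2) ^ j) < x.2} ∪
    Bo (dl j) (Lam j) (ρ j) (κ j) ((1 / 2) ^ j)) := ⟨_, rfl⟩
  have hZ1 : ∀ j, M (Z (j + 3)) ≤ ENNReal.ofReal (3 * (1 / 2) ^ j) := by
    intro j
    have h1 : M (Z (j + 3)) ≤ ENNReal.ofReal ((1 / 2) ^ (j + 3)) + (ENNReal.ofReal ((1 / 2) ^ (j + 3)) +
        ENNReal.ofReal ((1 / 2) ^ (j + 3))) := by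
      rw [hZ]
      exact (measure_union_le _ _).trans (add_le_add (hsmall _) ((measure_union_le _ _).trans
        (add_le_add (hbig _) (hκ1 _ (by omega)))))
    rw [← ENNReal.ofReal_add (hpw _).le (hpw _).le, ← ENNReal.ofReal_add (hpw _).le (by positivity)] at h1
    refine h1.trans (ENNReal.ofReal_le_ofReal ?_)
    have h2 : ((1 : ℝ) / 2) ^ (j + 3) ≤ (1 / 2) ^ j := pow_le_pow_of_le_one (by norm_num) (by norm_num) (by omega)
    linarith
  have hbc : ∀ᵐ x ∂M, ∀ᶠ j in atTop, x ∉ Z (j + 3) := by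
    refine ae_eventually_notMem (ne_top_of_le_ne_top ?_ (ENNReal.tsum_le_tsum hZ1))
    rw [← ENNReal.ofReal_tsum_of_nonneg (fun j => by positivity) (summable_geometric_two.mul_left 3)]
    exact ENNReal.ofReal_ne_top
  filter_upwards [hbc] with x hx
  rw [← tendsto_add_atTop_iff_nat 3]
  rw [tendsto_iff_dist_tendsto_zero]
  have ht : Tendsto (fun j : ℕ => 2 * ((1 : ℝ) / 2) ^ (j + 3) * x.2) atTop (𝓝 0) := by
    have h1 : Tendsto (fun j : ℕ => ((1 : ℝ) / 2) ^ j) atTop (𝓝 0) :=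
      tendsto_pow_atTop_nhds_zero_of_lt_one (by norm_num) (by norm_num)
    have h2 := (((tendsto_add_atTop_iff_nat 3).2 h1).const_mul 2).mul_const x.2
    simpa using h2
  refine squeeze_zero' (Eventually.of_forall fun j => dist_nonneg) ?_ ht
  filter_upwards [hx] with j hj
  rw [hZ] at hj
  have h1 : ¬ x.2 ≤ dl (j + 3) := fun h => hj (Or.inl h)
  have h2 : ¬ T ((1 / 2) ^ (j + 3)) < x.2 := fun h => hj (Or.inr (Or.inl h))
  have h3 : x ∉ Bo (dl (j + 3)) (Lam (j + 3)) (ρ (j + 3)) (κ (j + 3)) ((1 / 2) ^ (j + 3)) :=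
    fun h => hj (Or.inr (Or.inr h))
  rw [Real.dist_eq]
  by_contra hcon
  rw [not_le] at hcon
  refine h3 ⟨⟨not_le.1 h1, ?_⟩, hcon⟩
  rw [hLamd]
  show x.2 < T ((1 / 2) ^ (j + 3)) + 1
  linarith

end Pool.Agent.CRT
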