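import Pool.Agent.CRT.ClClk
import Pool.Agent.NTS.ExDefs

/-!
# CRT, row K5b (helper90): the curves of the limits of the critical walks are good

* `soft` : from the simple limits: the walks with a near touch (times at distance `≥ h`, points at distance `≤ d`) are few;
* `mix_small` : an open set of curves with a small measure for all the numbers of steps in a range has a small measure for the
  limits of the critical walks;
* **`clGood_of`** : `ClGood` from `ClkU`, `ClTime`, `MassB`, `ClPr` and the simple limits.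
-/

set_option autoImplicit false

noncomputable section

open Set Filter Topology MeasureTheory
open scoped ENNReal

namespace Pool.Agent.CRT

open Pool.Agent.NTS.Res
open Pool.Agent.NPR

/-! ### near touches -/

/-- the curves with a near touch -/
def Cs (h d : ℝ) : Set CI := {γ | ∃ p r : unitInterval, (p : ℝ) + h ≤ r ∧ dist (γ p) (γ r) ≤ d}

/-- the same, open -/
def Os (h d : ℝ) : Set CI := {γ | ∃ p r : unitInterval, (p : ℝ) + h ≤ r ∧ dist (γ p) (γ r) < d}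

lemma Cs_mono {h d d' : ℝ} (hd : d ≤ d') : Cs h d ⊆ Cs h d' := fun _ ⟨p, r, h1, h2⟩ => ⟨p, r, h1, h2.trans hd⟩

lemma Os_sub {h d : ℝ} : Os h d ⊆ Cs h d := fun _ ⟨p, r, h1, h2⟩ => ⟨p, r, h1, h2.le⟩

lemma ev_cont : Continuous fun x : CI × (unitInterval × unitInterval) => dist (x.1 x.2.1) (x.1 x.2.2) := by
  refine Continuous.dist ?_ ?_
  · exact continuous_eval.comp (continuous_fst.prodMk (continuous_fst.comp continuous_snd))
  · exact continuous_eval.comp (continuous_fst.prodMk (continuous_snd.comp continuous_snd))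

lemma Cs_closed (h d : ℝ) : IsClosed (Cs h d) := by
  have e : Cs h d = Prod.fst '' {x : CI × (unitInterval × unitInterval) | (x.2.1 : ℝ) + h ≤ x.2.2 ∧
      dist (x.1 x.2.1) (x.1 x.2.2) ≤ d} := by
    ext γ
    constructor
    · rintro ⟨p, r, h1, h2⟩
      exact ⟨(γ, (p, r)), ⟨h1, h2⟩, rfl⟩
    · rintro ⟨⟨γ', p, r⟩, ⟨h1, h2⟩, rfl⟩
      exact ⟨p, r, h1, h2⟩
  rw [e]
  refine isClosedMap_fst_of_compactSpace _ (IsClosed.inter ?_ ?_)
  · exact isClosed_le ((continuous_subtype_val.comp (continuous_fst.comp continuous_snd)).add continuous_const)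
      (continuous_subtype_val.comp (continuous_snd.comp continuous_snd))
  · exact isClosed_le ev_cont continuous_const

lemma Os_open (h d : ℝ) : IsOpen (Os h d) := by
  have e : Os h d = ⋃ p : unitInterval, ⋃ r : unitInterval, ⋃ _ : (p : ℝ) + h ≤ r, {γ : CI | dist (γ p) (γ r) < d} := by
    ext γ
    unfold Os
    simp only [mem_iUnion, mem_ofPred_eq, exists_prop]
  rw [e]
  refine isOpen_iUnion fun p => isOpen_iUnion fun r => isOpen_iUnion fun _ => ?_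
  exact isOpen_lt ((continuous_eval_const p).dist (continuous_eval_const r)) continuous_const

lemma Cs_inter {h : ℝ} {γ : CI} (hγ : ∀ i : ℕ, γ ∈ Cs h (1 / ((i : ℝ) + 1))) (hh : 0 < h) : ¬ Function.Injective γ := by
  intro hinj
  let K : Set (unitInterval × unitInterval) := {q | (q.1 : ℝ) + h ≤ q.2}
  have hK : IsCompact K := (isClosed_le ((continuous_subtype_val.comp continuous_fst).add continuous_const)
    (continuous_subtype_val.comp continuous_snd)).isCompact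
  obtain ⟨p0, r0, h0, -⟩ := hγ 0
  obtain ⟨q, hq, hmin⟩ := hK.exists_isMinOn ⟨(p0, r0), h0⟩ (f := fun q => dist (γ q.1) (γ q.2))
    (by fun_prop : Continuous fun q : unitInterval × unitInterval => dist (γ q.1) (γ q.2)).continuousOn
  have h1 : ∀ i : ℕ, dist (γ q.1) (γ q.2) ≤ 1 / ((i : ℝ) + 1) := by
    intro i
    obtain ⟨p, r, h2, h3⟩ := hγ i
    have h4 : dist (γ q.1) (γ q.2) ≤ dist (γ p) (γ r) := hmin (a := (p, r)) h2
    exact h4.trans h3
  have h2 : dist (γ q.1) (γ q.2) ≤ 0 :=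
    ge_of_tendsto' tendsto_one_div_add_atTop_nhds_zero_nat h1
  have h3 := hinj (dist_le_zero.1 h2)
  have h4 : (q.1 : ℝ) + h ≤ q.2 := hq
  rw [h3] at h4
  linarith

theorem soft (hsub : ∀ φ : ℕ → ℕ, StrictMono φ → ∃ ψ : ℕ → ℕ, StrictMono ψ ∧ ∃ ν : Measure C(unitInterval, ℂ),
      IsProbabilityMeasure ν ∧ LawTo (fun k => φ (ψ k)) ν)
    (hinj : ∀ (φ : ℕ → ℕ) (ν : Measure C(unitInterval, ℂ)), Tendsto φ atTop atTop → IsProbabilityMeasure ν → LawTo φ ν →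
      ∀ᵐ γ : C(unitInterval, ℂ) ∂ν, Function.Injective γ) {h ε : ℝ} (hh : 0 < h) (hε : 0 < ε) :
    ∃ (d : ℝ) (n0 : ℕ), 0 < d ∧ ∀ n : ℕ, n0 ≤ n → law n (Cs h d) ≤ ENNReal.ofReal ε := by
  by_contra hcon
  push Not at hcon
  have h1 : ∀ k : ℕ, ∃ᶠ n in atTop, ENNReal.ofReal ε < law n (Cs h (1 / ((k : ℝ) + 1))) := by
    intro k
    rw [frequently_atTop]
    intro n0
    obtain ⟨n, hn, hn2⟩ := hcon (1 / ((k : ℝ) + 1)) n0 (by positivity)
    exact ⟨n, hn, hn2⟩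
  obtain ⟨φ, hφ, h2⟩ := extraction_forall_of_frequently h1
  obtain ⟨ψ, hψ, ν, hν, hlim⟩ := hsub φ hφ
  have hlim2 := (NTSF.lawTo_iff ⟨ν, hν⟩).1 hlim
  have hprob : ∀ n, IsProbabilityMeasure (law n) := NTSF.law_prob
  have h3 : ∀ i : ℕ, ENNReal.ofReal ε ≤ ν (Cs h (1 / ((i : ℝ) + 1))) := by
    intro i
    have h4 : ν (Cs h (1 / ((i : ℝ) + 1)))ᶜ ≤ 1 - ENNReal.ofReal ε := by
      refine NTF.open_le hlim2 (Cs_closed _ _).isOpen_compl ?_
      filter_upwards [eventually_ge_atTop i] with k hk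
      have h5 : ENNReal.ofReal ε ≤ law (φ (ψ k)) (Cs h (1 / ((i : ℝ) + 1))) := by
        refine (h2 (ψ k)).le.trans (measure_mono (Cs_mono ?_))
        have h6 : (i : ℝ) ≤ ψ k := by exact_mod_cast hk.trans (hψ.id_le k)
        exact one_div_le_one_div_of_le (by positivity) (by linarith)
      show law (φ (ψ k)) (Cs h (1 / ((i : ℝ) + 1)))ᶜ ≤ 1 - ENNReal.ofReal ε
      rw [prob_compl_eq_one_sub (Cs_closed _ _).measurableSet]
      exact tsub_le_tsub_left h5 1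
    have h5 : ENNReal.ofReal ε ≤ 1 := (h2 0).le.trans prob_le_one
    have h6 := prob_compl_eq_one_sub (μ := ν) (Cs_closed h (1 / ((i : ℝ) + 1))).measurableSet.compl
    rw [compl_compl] at h6
    rw [h6, ← ENNReal.sub_sub_cancel ENNReal.one_ne_top h5]
    exact tsub_le_tsub_left h4 1
  have h4 : ENNReal.ofReal ε ≤ ν (⋂ i : ℕ, Cs h (1 / ((i : ℝ) + 1))) := by
    have hanti : Antitone fun i : ℕ => Cs h (1 / ((i : ℝ) + 1)) := by
      intro i j hij
      refine Cs_mono ?_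
      have h6 : (i : ℝ) ≤ j := by exact_mod_cast hij
      exact one_div_le_one_div_of_le (by positivity) (by linarith)
    have h5 := tendsto_measure_iInter_atTop (μ := ν)
      (fun i : ℕ => (Cs_closed h (1 / ((i : ℝ) + 1))).measurableSet.nullMeasurableSet)
      hanti ⟨0, measure_ne_top _ _⟩
    exact ge_of_tendsto' h5 h3
  have h5 : ν (⋂ i : ℕ, Cs h (1 / ((i : ℝ) + 1))) = 0 := by
    have h6 := hinj _ ν (hφ.tendsto_atTop.comp hψ.tendsto_atTop) hν hlim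
    refine measure_mono_null (fun γ hγ => ?_) (ae_iff.1 h6)
    exact Cs_inter (fun i => mem_iInter.1 hγ i) hh
  rw [h5] at h4
  exact absurd h4 (not_le.2 (ENNReal.ofReal_pos.2 hε))

/-! ### mixtures -/

lemma small_time {C : ℝ} (hC : 0 < C) {M : Measure (CI × ℝ)} (hx0 : ∀ᵐ x ∂M, 0 < x.2)
    (hx1 : ∀ a b : ℝ, 0 < a → a < b → M {x | x.2 ∈ Icc a b} ≤ ENNReal.ofReal (C * b ^ (11 / 32 : ℝ) * (b - a)))
    {dl : ℝ} (hdl : 0 < dl) (hdl1 : dl ≤ 1) : M {x | x.2 ≤ dl} ≤ ENNReal.ofReal (C * dl) := by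
  have hmono : Monotone fun i : ℕ => {x : CI × ℝ | x.2 ∈ Icc (dl / ((i : ℝ) + 2)) dl} := by
    intro i i' hii x hx
    have : (i : ℝ) ≤ i' := by exact_mod_cast hii
    exact ⟨(div_le_div_of_nonneg_left hdl.le (by positivity) (by linarith)).trans hx.1, hx.2⟩
  have hun : {x : CI × ℝ | 0 < x.2 ∧ x.2 ≤ dl} ⊆ ⋃ i : ℕ, {x : CI × ℝ | x.2 ∈ Icc (dl / ((i : ℝ) + 2)) dl} := by
    intro x hx
    obtain ⟨i, hi⟩ := exists_nat_gt (dl / x.2)
    refine mem_iUnion.2 ⟨i, ?_, hx.2⟩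
    rw [div_lt_iff₀ hx.1] at hi
    rw [div_le_iff₀ (by positivity)]
    nlinarith [hx.1]
  have h1 : M {x : CI × ℝ | 0 < x.2 ∧ x.2 ≤ dl} ≤ ENNReal.ofReal (C * dl) := by
    refine (measure_mono hun).trans ?_
    rw [hmono.measure_iUnion]
    refine iSup_le fun i => ?_
    have hi : 0 < dl / ((i : ℝ) + 2) := div_pos hdl (by positivity)
    have hi2 : dl / ((i : ℝ) + 2) < dl := div_lt_self hdl (by
      have : (0 : ℝ) ≤ i := Nat.cast_nonneg i
      linarith)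
    refine (hx1 _ _ hi hi2).trans (ENNReal.ofReal_le_ofReal ?_)
    have h2 : dl ^ (11 / 32 : ℝ) ≤ 1 := Real.rpow_le_one hdl.le hdl1 (by norm_num)
    have h3 : dl - dl / ((i : ℝ) + 2) ≤ dl := by linarith
    have h3' : 0 ≤ dl - dl / ((i : ℝ) + 2) := by linarith
    have h4 : C * dl ^ (11 / 32 : ℝ) * (dl - dl / ((i : ℝ) + 2)) ≤ C * 1 * dl :=
      mul_le_mul (mul_le_mul_of_nonneg_left h2 hC.le) h3 h3' (by positivity)
    linarith
  refine le_trans (measure_mono_ae ?_) h1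
  filter_upwards [hx0] with x hx hx2
  exact ⟨hx, hx2⟩

/-- **mixtures** -/
theorem mix_small (hT : ClTime) (hB : MassB) (hA : ∃ C : ℝ, ∀ n : ℕ, 1 ≤ n → aN n ≤ C * (n : ℝ) ^ (11 / 32 : ℝ))
    (hP : ClPr) {ε : ℝ} (hε : 0 < ε) : ∃ dl Lam e : ℝ, 0 < dl ∧ dl < Lam ∧ 0 < e ∧ e ≤ ε ∧
      ∀ (r : ℕ → ℝ) (M : Measure (CI × ℝ)), Tendsto r atTop atTop → IsProbabilityMeasure M → ClTo r M →
      ∀ O : Set CI, IsOpen O → (∀ᶠ k in atTop, ∀ n : ℕ, dl * r k ^ (4 / 3 : ℝ) ≤ n → (n : ℝ) ≤ Lam * r k ^ (4 / 3 : ℝ) →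
        law n {γ | sc (size n / r k) γ ∈ O} ≤ ENNReal.ofReal e) → M {x | x.1 ∈ O} ≤ ENNReal.ofReal ε := by
  obtain ⟨K, R1, hK, hR1, hrange⟩ := range_le hB hA
  obtain ⟨⟨c, C, t0, -, hC, -, hT1⟩, hT2⟩ := hT
  obtain ⟨T, hT0, hT3⟩ := hT2 (ε / 3) (by positivity)
  obtain ⟨dl, hdl0, hdl1, hdl2⟩ : ∃ dl : ℝ, 0 < dl ∧ dl ≤ 1 / 2 ∧ C * dl ≤ ε / 3 :=
    ⟨min (1 / 2) (ε / 3 / C), lt_min (by norm_num) (by positivity), min_le_left _ _, by
      have := min_le_right (1 / 2) (ε / 3 / C)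
      rw [le_div_iff₀ hC] at this
      linarith⟩
  have hq : 0 < K * (T + 1) ^ (43 / 32 : ℝ) := by positivity
  obtain ⟨e, he, he1, he2⟩ : ∃ e : ℝ, 0 < e ∧ e ≤ ε ∧ e * (K * (T + 1) ^ (43 / 32 : ℝ)) ≤ ε / 3 := by
    refine ⟨ε / 3 / (1 + K * (T + 1) ^ (43 / 32 : ℝ)), by positivity, ?_, ?_⟩
    · exact (div_le_self (by positivity) (by linarith)).trans (by linarith)
    · rw [div_mul_eq_mul_div, div_le_iff₀ (by linarith)]
      nlinarith
  refine ⟨dl, T + 1, e, hdl0, by linarith, he, he1, fun r M hr hM hlim O hO hk => ?_⟩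
  obtain ⟨hx0, hx1, -⟩ := hT1 r M hr hM hlim
  have a1 : M {x | x.2 ≤ dl} ≤ ENNReal.ofReal (ε / 3) :=
    (small_time hC hx0 hx1 hdl0 (by linarith)).trans (ENNReal.ofReal_le_ofReal hdl2)
  have a2 : M {x | T < x.2} ≤ ENNReal.ofReal (ε / 3) := hT3 r M hr hM hlim
  have hPr : ∀ R : ℝ, 1 ≤ R → IsProbabilityMeasure (cl R) := fun R hR => (hP R (by linarith)).1
  have hOo : IsOpen {x : CI × ℝ | x ∈ Ti dl (T + 1) ∧ x.1 ∈ O} :=
    (Ti_open dl (T + 1)).inter (hO.preimage continuous_fst)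
  have a3 : M {x : CI × ℝ | x ∈ Ti dl (T + 1) ∧ x.1 ∈ O} ≤ ENNReal.ofReal (ε / 3) := by
    refine open_cl hPr hr hM hlim hOo (Eventually.frequently ?_)
    filter_upwards [hk, hr.eventually_ge_atTop R1] with k hk1 hk2
    refine (hrange (r k) (T + 1) dl e hk2 (by linarith) hdl0 he.le _ hOo.measurableSet (fun n hn1 hn2 => ?_)
      fun x hx => ⟨hx.1.1.le, hx.1.2.le⟩).trans (ENNReal.ofReal_le_ofReal he2)
    exact (measure_mono fun γ hγ => hγ.2).trans (hk1 n hn1 hn2)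
  have hsub : {x : CI × ℝ | x.1 ∈ O} ⊆ {x : CI × ℝ | x ∈ Ti dl (T + 1) ∧ x.1 ∈ O} ∪
      ({x | x.2 ≤ dl} ∪ {x | T < x.2}) := by
    intro x hx
    rcases le_or_gt x.2 dl with h2 | h2
    · exact Or.inr (Or.inl h2)
    · rcases lt_or_ge T x.2 with h3 | h3
      · exact Or.inr (Or.inr h3)
      · exact Or.inl ⟨⟨h2, by linarith⟩, hx⟩
  refine (measure_mono hsub).trans ((measure_union_le _ _).trans ((add_le_add a3
    ((measure_union_le _ _).trans (add_le_add a1 a2))).trans ?_))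
  rw [← ENNReal.ofReal_add (by positivity) (by positivity), ← ENNReal.ofReal_add (by positivity) (by positivity)]
  exact ENNReal.ofReal_le_ofReal (by linarith)

/-! ### the row -/

lemma Bd_sc {c : ℝ} (hc : 0 < c) {ρ ε : ℝ} {γ : CI} (h : sc c γ ∈ Bd ρ ε) : γ ∈ Bd (ρ / c) ε := by
  obtain ⟨u, hu⟩ := h
  refine ⟨u, ?_⟩
  rw [vb_sc hc, vb_sc hc] at hu
  have e1 : ε * (c * vb (ρ / c) γ 1) = c * (ε * vb (ρ / c) γ 1) := by ring
  have e2 : c * vb (ρ / c) γ u - u * (c * vb (ρ / c) γ 1) = c * (vb (ρ / c) γ u - u * vb (ρ / c) γ 1) := by ring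
  rw [e1, e2, abs_mul, abs_of_pos hc] at hu
  exact lt_of_mul_lt_mul_left hu hc.le

lemma Bd_mono {ρ ε ε' : ℝ} (hρ : 0 < ρ) (h : ε ≤ ε') : Bd ρ ε' ⊆ Bd ρ ε := fun γ ⟨u, hu⟩ =>
  ⟨u, (mul_le_mul_of_nonneg_right h (vb_pos hρ γ 1).le).trans_lt hu⟩

theorem clGood_of (hU : ClkU) (hT : ClTime) (hB : MassB)
    (hA : ∃ C : ℝ, ∀ n : ℕ, 1 ≤ n → aN n ≤ C * (n : ℝ) ^ (11 / 32 : ℝ)) (hP : ClPr)
    (hinj : ∀ (φ : ℕ → ℕ) (ν : Measure C(unitInterval, ℂ)), Tendsto φ atTop atTop → IsProbabilityMeasure ν → LawTo φ ν →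
      ∀ᵐ γ : C(unitInterval, ℂ) ∂ν, Function.Injective γ) (hE : NTSF.ConclE False) : ClGood := by
  obtain ⟨c1, C1, hc1, hsz, -, -, -, hsub, -⟩ := hE
  have hpw : ∀ j : ℕ, (0 : ℝ) < (1 / 2) ^ j := fun j => by positivity
  have hC1 : 0 < C1 := by
    have h1 := hsz 1 le_rfl
    simp only [Nat.cast_one, Real.one_rpow, mul_one] at h1
    linarith
  -- the sizes in the range
  have hsz2 : ∀ (dl Lam R : ℝ) (n : ℕ), 0 < dl → 0 < R → dl * R ^ (4 / 3 : ℝ) ≤ n → (n : ℝ) ≤ Lam * R ^ (4 / 3 : ℝ) →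
      1 ≤ n ∧ c1 * dl ^ (3 / 4 : ℝ) ≤ size n / R ∧ size n / R ≤ C1 * Lam ^ (3 / 4 : ℝ) := by
    intro dl Lam R n hdl hR h1 h2
    have hRp : 0 < R ^ (4 / 3 : ℝ) := Real.rpow_pos_of_pos hR _
    have hn0 : (0 : ℝ) < n := lt_of_lt_of_le (by positivity) h1
    have hn1 : 1 ≤ n := by exact_mod_cast hn0
    have hLam : 0 < Lam := by
      by_contra h3
      have : Lam * R ^ (4 / 3 : ℝ) ≤ 0 := mul_nonpos_of_nonpos_of_nonneg (not_lt.1 h3) hRp.le
      linarith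
    obtain ⟨h3, h4⟩ := hsz n hn1
    have e : ∀ x : ℝ, 0 < x → (x * R ^ (4 / 3 : ℝ)) ^ (3 / 4 : ℝ) = x ^ (3 / 4 : ℝ) * R := by
      intro x hx
      rw [Real.mul_rpow hx.le hRp.le, ← Real.rpow_mul hR.le]
      norm_num
    refine ⟨hn1, ?_, ?_⟩
    · rw [le_div_iff₀ hR]
      have h5 := Real.rpow_le_rpow (by positivity) h1 (by norm_num : (0 : ℝ) ≤ 3 / 4)
      rw [e dl hdl] at h5
      calc c1 * dl ^ (3 / 4 : ℝ) * R = c1 * (dl ^ (3 / 4 : ℝ) * R) := by ring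
        _ ≤ c1 * (n : ℝ) ^ (3 / 4 : ℝ) := mul_le_mul_of_nonneg_left h5 hc1.le
        _ ≤ size n := h3
    · rw [div_le_iff₀ hR]
      have h5 := Real.rpow_le_rpow hn0.le h2 (by norm_num : (0 : ℝ) ≤ 3 / 4)
      rw [e Lam hLam] at h5
      calc size n ≤ C1 * (n : ℝ) ^ (3 / 4 : ℝ) := h4
        _ ≤ C1 * (Lam ^ (3 / 4 : ℝ) * R) := mul_le_mul_of_nonneg_left h5 hC1.le
        _ = C1 * Lam ^ (3 / 4 : ℝ) * R := by ring
  -- the scales
  choose dl Lam e hdl hdlLam he he1 hmix using fun j : ℕ => mix_small hT hB hA hP (hpw j)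
  have hLam : ∀ j, 0 < Lam j := fun j => (hdl j).trans (hdlLam j)
  choose ρ0 hρ0 hρ0' using fun j : ℕ => hU (e j) (he j)
  obtain ⟨ρ, hρd⟩ : ∃ ρ : ℕ → ℝ, ρ = fun j => ρ0 j * (c1 * dl j ^ (3 / 4 : ℝ)) := ⟨_, rfl⟩
  have hdp : ∀ j, 0 < c1 * dl j ^ (3 / 4 : ℝ) := fun j => mul_pos hc1 (Real.rpow_pos_of_pos (hdl j) _)
  have hLp : ∀ j, 0 < C1 * Lam j ^ (3 / 4 : ℝ) := fun j => mul_pos hC1 (Real.rpow_pos_of_pos (hLam j) _)
  have hρ : ∀ j, 0 < ρ j := fun j => by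
    rw [hρd]
    exact mul_pos (hρ0 j) (hdp j)
  refine ⟨ρ, hρ, fun r M hr hM hlim => ?_⟩
  have hr43 : Tendsto (fun k => r k ^ (4 / 3 : ℝ)) atTop atTop :=
    (tendsto_rpow_atTop (by norm_num : (0 : ℝ) < 4 / 3)).comp hr
  -- the clock
  have b1 : ∀ j, M {x | x.1 ∈ Bd (ρ j) ((1 / 2) ^ j)} ≤ ENNReal.ofReal ((1 / 2) ^ j) := by
    intro j
    obtain ⟨n0, hn0⟩ := hρ0' j (ρ j / (C1 * Lam j ^ (3 / 4 : ℝ))) (div_pos (hρ j) (hLp j))
    refine hmix j r M hr hM hlim _ (open_clk (hρ j)) ?_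
    filter_upwards [hr.eventually_gt_atTop 0, (hr43.const_mul_atTop (hdl j)).eventually_ge_atTop (n0 : ℝ)] with k hk1 hk2
    intro n hn1 hn2
    obtain ⟨h1, h2, h3⟩ := hsz2 (dl j) (Lam j) (r k) n (hdl j) hk1 hn1 hn2
    have hq : 0 < size n / r k := (hdp j).trans_le h2
    have hρq : 0 < ρ j / (size n / r k) := div_pos (hρ j) hq
    have hn0n : n0 ≤ n := by exact_mod_cast hk2.trans hn1
    refine (measure_mono (fun γ hγ => Bd_mono hρq (he1 j) (Bd_sc hq hγ))).trans (hn0 _ n ?_ ?_ hn0n)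
    · exact div_le_div_of_nonneg_left (hρ j).le hq h3
    · rw [div_le_iff₀ hq, hρd]
      exact mul_le_mul_of_nonneg_left h2 (hρ0 j).le
  have a1 : ∀ᵐ x ∂M, x.1 ∈ Gc ρ := by
    have h1 : ∀ᵐ x ∂M, ∀ᶠ j in atTop, x ∉ {x : CI × ℝ | x.1 ∈ Bd (ρ j) ((1 / 2) ^ j)} := by
      refine ae_eventually_notMem (ne_top_of_le_ne_top ?_ (ENNReal.tsum_le_tsum b1))
      rw [← ENNReal.ofReal_tsum_of_nonneg (fun j => by positivity) summable_geometric_two]
      exact ENNReal.ofReal_ne_top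
    filter_upwards [h1] with x hx
    exact hx
  -- the start
  have a2 : ∀ᵐ x ∂M, x.1 0 = 0 := by
    have hPr : ∀ R : ℝ, 1 ≤ R → IsProbabilityMeasure (cl R) := fun R hR => (hP R (by linarith)).1
    have hO : IsOpen {x : CI × ℝ | ¬ x.1 0 = 0} := by
      have : Continuous fun x : CI × ℝ => x.1 0 := (continuous_eval_const (0 : unitInterval)).comp continuous_fst
      exact isOpen_ne_fun this continuous_const
    rw [ae_iff, ← nonpos_iff_eq_zero]
    refine open_cl hPr hr hM hlim hO (Eventually.frequently ?_)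
    filter_upwards [hr.eventually_gt_atTop 0] with k hk
    have h1 := (hP (r k) hk).2.2
    rw [nonpos_iff_eq_zero]
    refine measure_mono_null (fun x hx => ?_) (ae_iff.1 h1)
    exact fun h2 => hx h2.2
  -- near touches
  have b3 : ∀ i : ℕ, M {x | ∃ p q : unitInterval, (p : ℝ) + 1 / ((i : ℝ) + 1) ≤ q ∧ x.1 p = x.1 q} = 0 := by
    intro i
    rw [← nonpos_iff_eq_zero]
    refine ENNReal.le_of_forall_pos_le_add fun ε hε _ => ?_
    rw [zero_add]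
    obtain ⟨dl', Lam', e', hdl', hdlLam', he', he1', hmix'⟩ := mix_small hT hB hA hP (ε := (ε : ℝ)) (by exact_mod_cast hε)
    obtain ⟨d, n0, hd, hn0⟩ := soft hsub hinj (h := 1 / ((i : ℝ) + 1)) (by positivity) he'
    have hdp' : 0 < c1 * dl' ^ (3 / 4 : ℝ) := mul_pos hc1 (Real.rpow_pos_of_pos hdl' _)
    have h1 := hmix' r M hr hM hlim (Os (1 / ((i : ℝ) + 1)) (d * (c1 * dl' ^ (3 / 4 : ℝ)))) (Os_open _ _) (by
      filter_upwards [hr.eventually_gt_atTop 0, (hr43.const_mul_atTop hdl').eventually_ge_atTop (n0 : ℝ)] with k hk1 hk2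
      intro n hn1 hn2
      obtain ⟨h1, h2, h3⟩ := hsz2 dl' Lam' (r k) n hdl' hk1 hn1 hn2
      have hq : 0 < size n / r k := hdp'.trans_le h2
      have hn0n : n0 ≤ n := by exact_mod_cast hk2.trans hn1
      refine (measure_mono fun γ hγ => ?_).trans (hn0 n hn0n)
      obtain ⟨p, q, h4, h5⟩ := hγ
      refine ⟨p, q, h4, ?_⟩
      rw [dist_sc hq] at h5
      have h6 : d * (c1 * dl' ^ (3 / 4 : ℝ)) ≤ d * (size n / r k) := mul_le_mul_of_nonneg_left h2 hd.le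
      have h7 : size n / r k * dist (γ p) (γ q) < size n / r k * d := by linarith
      exact (lt_of_mul_lt_mul_left h7 hq.le).le)
    rw [ENNReal.ofReal_coe_nnreal] at h1
    refine (measure_mono fun x hx => ?_).trans h1
    obtain ⟨p, q, h2, h3⟩ := hx
    exact ⟨p, q, h2, by rw [h3, dist_self]; positivity⟩
  have a3 : ∀ᵐ x ∂M, Function.Injective x.1 := by
    have h1 : M (⋃ i : ℕ, {x | ∃ p q : unitInterval, (p : ℝ) + 1 / ((i : ℝ) + 1) ≤ q ∧ x.1 p = x.1 q}) = 0 :=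
      measure_iUnion_null b3
    rw [ae_iff]
    refine measure_mono_null (fun x hx => ?_) h1
    have hx' : ¬ Function.Injective x.1 := hx
    unfold Function.Injective at hx'
    push Not at hx'
    obtain ⟨p, q, hpq, hne⟩ := hx'
    have aux : ∀ p q : unitInterval, p < q → x.1 p = x.1 q →
        x ∈ ⋃ i : ℕ, {x : CI × ℝ | ∃ p q : unitInterval, (p : ℝ) + 1 / ((i : ℝ) + 1) ≤ q ∧ x.1 p = x.1 q} := by
      intro p q hlt hpq
      have h2 : (0 : ℝ) < (q : ℝ) - p := sub_pos.2 (by exact_mod_cast hlt)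
      obtain ⟨i, hi⟩ := exists_nat_one_div_lt h2
      exact mem_iUnion.2 ⟨i, p, q, by linarith, hpq⟩
    rcases lt_or_gt_of_ne hne with h2 | h2
    · exact aux p q h2 hpq
    · exact aux q p h2 hpq.symm
  filter_upwards [a1, a2, a3] with x h1 h2 h3
  exact ⟨h3, h2, h1⟩

end Pool.Agent.CRT

end
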