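import Pool.Agent.CRT.Defs
import Pool.Agent.NPR.Fast
import Pool.Agent.NTS.FactsW
import Pool.Agent.NTS.Fin
import Pool.Agent.NTS.ResultV3
import Pool.Agent.NTS.LevyLow
import Pool.Agent.EN.LowCX
import Pool.Agent.NTA.FinXAll
import Pool.Agent.FIS.ModZY
import Pool.Agent.FIS.LevyZ

/-!
# CRT, row K2: masses of the walks that stay in a ball (helper42)

* `aN_bounds` : the number of the walks with n steps;
* `summable_wR`, **`massB`** : the critical weight of the walks in the ball of the radius R is of the order R ^ (43 / 24);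
* **`massT`** : the walks with more than Lam R ^ (4 / 3) steps have a small share.
-/

set_option autoImplicit false

open MeasureTheory Filter Topology

namespace CRT

namespace Mass

open Finset

open HexObs hiding pos curve

open HexObs.TS HexObs.SDN HexObs.NTW HexObs.NPR

open Pool.Agent.NTS.Res

open NTF (sw JJ)

open NTSF (card_saw rot pos_sw norm_rot' lvl_le_norm size_nonneg size_pos law_apply law_prob curve_apply saw_card_pos)

open NTSF.Mod (curve_node)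

open Pool.Agent.CRT

open scoped ENNReal Classical

/-! ### 1. Numbers -/

theorem aN_bounds : ∃ c C : ℝ, 0 < c ∧ 0 < C ∧ ∀ n : ℕ, 1 ≤ n →
    c * (n : ℝ) ^ (11 / 32 : ℝ) ≤ ((saw n).card : ℝ) * fug ^ n ∧
    ((saw n).card : ℝ) * fug ^ n ≤ C * (n : ℝ) ^ (11 / 32 : ℝ) := by
  obtain ⟨c, C, hc, hC, h⟩ := TPC.an_const TPC.xUp TPC.xLow
  have hx := xc_pos
  have hmu : muB = 1 / xc := le_antisymm muB_le le_muB
  refine ⟨c, C, hc, hC, fun n hn => ?_⟩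
  have e1 := NTSF.gf_SawN n hn
  rw [PHWDict.gf_SawN] at e1
  have h1 : (2 : ℝ) * aB n = 3 * cS n := by exact_mod_cast aB_eq hn
  have h0 : 0 ≤ (cS n : ℝ) * xc ^ n := by positivity
  have hf : 0 ≤ fug := by
    rw [NTSF.fug_eq]
    exact hx.le
  have h0' : 0 ≤ 2 / 3 * (((saw n).card : ℝ) * fug ^ n) := by positivity
  have e2 : (cS n : ℝ) * xc ^ n = 2 / 3 * (((saw n).card : ℝ) * fug ^ n) := by
    have := congrArg ENNReal.toReal e1
    rwa [ENNReal.toReal_ofReal h0, ENNReal.toReal_ofReal h0'] at this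
  have h3 : muB ^ n * xc ^ n = 1 := by
    rw [hmu, ← mul_pow, one_div, inv_mul_cancel₀ hx.ne', one_pow]
  have e3 : ((saw n).card : ℝ) * fug ^ n = (aB n : ℝ) * xc ^ n := by
    have : (aB n : ℝ) = 3 / 2 * cS n := by linarith
    rw [this]
    linarith
  have hxn : 0 < xc ^ n := by positivity
  rw [e3]
  constructor
  · calc c * (n : ℝ) ^ (11 / 32 : ℝ) = c * (muB ^ n * (n : ℝ) ^ ((11 : ℝ) / 32)) * xc ^ n := by
          have : c * (muB ^ n * (n : ℝ) ^ ((11 : ℝ) / 32)) * xc ^ n = c * (n : ℝ) ^ ((11 : ℝ) / 32) * (muB ^ n * xc ^ n) := by ring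
          rw [this, h3, mul_one]
      _ ≤ _ := mul_le_mul_of_nonneg_right (h n hn).1 hxn.le
  · calc (aB n : ℝ) * xc ^ n ≤ C * (muB ^ n * (n : ℝ) ^ ((11 : ℝ) / 32)) * xc ^ n :=
          mul_le_mul_of_nonneg_right (h n hn).2 hxn.le
      _ = C * (n : ℝ) ^ ((11 : ℝ) / 32) * (muB ^ n * xc ^ n) := by ring
      _ = _ := by rw [h3, mul_one]

/-- the number of the walks with a property, in units of the critical weight -/
noncomputable def wB (R : ℝ) (n : ℕ) : ℝ :=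
  (((saw n).filter fun s => ∀ k, k ≤ n → ‖Pool.Agent.NTS.Res.pos s k‖ < R).card : ℝ) * fug ^ n

lemma fug_nonneg : 0 ≤ fug := by
  rw [NTSF.fug_eq]
  exact xc_pos.le

lemma wB_nonneg (R : ℝ) (n : ℕ) : 0 ≤ wB R n := mul_nonneg (Nat.cast_nonneg _) (pow_nonneg fug_nonneg n)

/-- **the dictionary** -/
lemma wB_gf {R : ℝ} {n : ℕ} (hn : 0 < n) : ENNReal.ofReal (wB R n) =
    ENNReal.ofReal (3 / 2) * gf {t | t ∈ SawN n ∧ ∀ k, k ≤ n → ‖Pool.Agent.NTS.Res.pos (sw n t) k‖ < R} := by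
  have h1 := card_saw hn (fun s => ∀ k, k ≤ n → ‖Pool.Agent.NTS.Res.pos s k‖ < R) (fun s => by simp only [norm_rot'])
  rw [NTF.gf_card (n := n) (fun t ht => ht.1.1)]
  obtain ⟨N, hN⟩ : ∃ N : ℕ, N = {t | t ∈ SawN n ∧ ∀ k, k ≤ n → ‖Pool.Agent.NTS.Res.pos (sw n t) k‖ < R}.ncard := ⟨_, rfl⟩
  rw [← hN] at h1 ⊢
  have h2 : (2 : ℝ) * (((saw n).filter fun s => ∀ k, k ≤ n → ‖Pool.Agent.NTS.Res.pos s k‖ < R).card : ℝ) = 3 * (N : ℝ) := by
    exact_mod_cast h1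
  rw [← ENNReal.ofReal_natCast, ← ENNReal.ofReal_mul (Nat.cast_nonneg _), ← ENNReal.ofReal_mul (by norm_num)]
  congr 1
  unfold wB
  rw [NTSF.fug_eq]
  have h3 : (((saw n).filter fun s => ∀ k, k ≤ n → ‖Pool.Agent.NTS.Res.pos s k‖ < R).card : ℝ) = 3 / 2 * (N : ℝ) := by
    linarith
  rw [h3]
  ring

lemma row_le {R : ℝ} {K : ℕ} (hK : R ≤ 2 ^ K) {v : Pt} (hv : ‖JJ v‖ < R) (dir : Bool) : |row dir v| ≤ 2 ^ K := by
  have h1 := lvl_le_norm dir v
  have h2 : |((lvl dir v : ℤ) : ℝ)| < 2 * 2 ^ K := by linarith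
  have h3 : |lvl dir v| < 2 * 2 ^ K := by
    have : ((|lvl dir v| : ℤ) : ℝ) < ((2 * 2 ^ K : ℤ) : ℝ) := by
      push_cast
      exact h2
    exact_mod_cast this
  rw [abs_lt] at h3
  have hp : (0 : ℤ) < 2 ^ K := by positivity
  unfold row
  rw [abs_le]
  constructor <;> omega

lemma word_WL {R : ℝ} {K n : ℕ} (hK : R ≤ 2 ^ K) {t : List Bool} (ht : t ∈ SawN n)
    (h : ∀ k, k ≤ n → ‖Pool.Agent.NTS.Res.pos (sw n t) k‖ < R) : t ∈ WL K ∧ t.length = n := by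
  refine ⟨⟨ht.2, fun i hi dir => ?_⟩, ht.1⟩
  rw [ht.1] at hi
  have h1 := h i hi
  rw [pos_sw n t i hi] at h1
  exact row_le hK h1 dir

lemma exists_scale {R : ℝ} (hR : 1 ≤ R) : ∃ K : ℕ, R ≤ 2 ^ K ∧ (2 : ℝ) ^ K ≤ 2 * R := by
  obtain ⟨n, h1, h2⟩ := exists_nat_pow_near hR (by norm_num : (1 : ℝ) < 2)
  exact ⟨n + 1, h2.le, by rw [pow_succ]; linarith⟩

lemma wB_zero (R : ℝ) : wB R 0 ≤ 1 := by
  unfold wB
  rw [pow_zero, mul_one]
  have h : (((saw 0).filter fun s => ∀ k, k ≤ 0 → ‖Pool.Agent.NTS.Res.pos s k‖ < R).card : ℝ) ≤ ((1 : ℕ) : ℝ) := by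
    refine Nat.cast_le.2 ((card_le_univ _).trans ?_)
    simp
  rw [Nat.cast_one] at h
  convert h

lemma scale_pow {R : ℝ} (hR : 1 ≤ R) {K : ℕ} (h : (2 : ℝ) ^ K ≤ 2 * R) :
    (2 : ℝ) ^ (43 / 24 * (K : ℝ)) ≤ 4 * R ^ (43 / 24 : ℝ) := by
  have e : (2 : ℝ) ^ (43 / 24 * (K : ℝ)) = ((2 : ℝ) ^ K) ^ (43 / 24 : ℝ) := by
    rw [mul_comm, Real.rpow_mul (by norm_num), Real.rpow_natCast]
  rw [e]
  refine (Real.rpow_le_rpow (by positivity) h (by norm_num)).trans ?_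
  rw [Real.mul_rpow (by norm_num) (by linarith)]
  refine mul_le_mul_of_nonneg_right ?_ (by positivity)
  calc (2 : ℝ) ^ (43 / 24 : ℝ) ≤ 2 ^ (2 : ℝ) := Real.rpow_le_rpow_of_exponent_le (by norm_num) (by norm_num)
    _ = 4 := by norm_num

/-- the critical weight of the ball, from above -/
theorem up_E : ∃ C : ℝ, 0 < C ∧ ∀ R : ℝ, 1 ≤ R → ∑' n, ENNReal.ofReal (wB R n) ≤ ENNReal.ofReal (C * R ^ (43 / 24 : ℝ)) := by
  obtain ⟨C1, hC1, hT⟩ := NTA.tot_WL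
  obtain ⟨C2, hC2, hF⟩ := Fast.FK_up
  refine ⟨1 + 3 / 2 * (C1 * (C2 * 4)), by positivity, fun R hR => ?_⟩
  obtain ⟨K, hK1, hK2⟩ := exists_scale hR
  have h1 : ∀ n, ENNReal.ofReal (wB R n) ≤ (if n = 0 then 1 else 0) +
      ENNReal.ofReal (3 / 2) * gf {t | t ∈ WL K ∧ t.length = n} := by
    intro n
    rcases Nat.eq_zero_or_pos n with hn | hn
    · rw [if_pos hn, hn]
      refine le_add_right ?_
      rw [← ENNReal.ofReal_one]
      exact ENNReal.ofReal_le_ofReal (wB_zero R)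
    · rw [wB_gf hn]
      refine le_add_left (mul_le_mul' le_rfl (gf_mono fun t ht => word_WL hK1 ht.1 ht.2))
  refine (ENNReal.tsum_le_tsum h1).trans ?_
  rw [ENNReal.tsum_add, tsum_ite_eq, ENNReal.tsum_mul_left, ← NTF.gf_lengths]
  have h2 : gf (WL K) ≤ ENNReal.ofReal (C1 * (C2 * 4) * R ^ (43 / 24 : ℝ)) := by
    refine (hT K).trans ((mul_le_mul' le_rfl (hF K)).trans ?_)
    rw [← ENNReal.ofReal_mul (by linarith)]
    refine ENNReal.ofReal_le_ofReal ?_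
    have h3 := scale_pow hR hK2
    calc C1 * (C2 * 2 ^ (43 / 24 * (K : ℝ))) ≤ C1 * (C2 * (4 * R ^ (43 / 24 : ℝ))) := by gcongr
      _ = _ := by ring
  have hR' : 1 ≤ R ^ (43 / 24 : ℝ) := Real.one_le_rpow hR (by norm_num)
  refine (add_le_add_right (mul_le_mul' le_rfl h2) _).trans ?_
  rw [← ENNReal.ofReal_mul (by norm_num), ← ENNReal.ofReal_one, ← ENNReal.ofReal_add (by norm_num) (by positivity)]
  refine ENNReal.ofReal_le_ofReal ?_
  nlinarith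

/-- the long walks of the ball -/
theorem long_E : ∀ ε : ℝ, 0 < ε → ∃ Λ : ℝ, 0 < Λ ∧ ∀ R : ℝ, 1 ≤ R →
    ∑' n : ℕ, (if Λ * R ^ (4 / 3 : ℝ) < (n : ℝ) then ENNReal.ofReal (wB R n) else 0) ≤
      ENNReal.ofReal (ε * R ^ (43 / 24 : ℝ)) := by
  intro ε hε
  obtain ⟨C2, hC2, hF⟩ := Fast.FK_up
  obtain ⟨M, hM, hmu⟩ := VF.mUp VF.sharpZ
  obtain ⟨a, ha⟩ := Fast.long_mass 0 (ε / (3 / 2 * (C2 * 4))) (by positivity)
  refine ⟨M * 2 ^ (4 / 3 * ((a : ℝ) + 1)), by positivity, fun R hR => ?_⟩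
  obtain ⟨K, hK1, hK2⟩ := exists_scale hR
  have hR0 : 0 < R := by linarith
  have hm : PW.mZ (2 ^ (K + a)) ≤ M * 2 ^ (4 / 3 * ((a : ℝ) + 1)) * R ^ (4 / 3 : ℝ) := by
    refine (hmu (K + a)).trans ?_
    have e : (2 : ℝ) ^ (4 / 3 * ((K + a : ℕ) : ℝ)) = ((2 : ℝ) ^ K) ^ (4 / 3 : ℝ) * 2 ^ (4 / 3 * (a : ℝ)) := by
      rw [← Real.rpow_natCast 2 K, ← Real.rpow_mul (by norm_num), ← Real.rpow_add (by norm_num)]
      congr 1
      push_cast
      ring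
    have h3 : ((2 : ℝ) ^ K) ^ (4 / 3 : ℝ) ≤ 2 ^ (4 / 3 : ℝ) * R ^ (4 / 3 : ℝ) := by
      rw [← Real.mul_rpow (by norm_num) hR0.le]
      exact Real.rpow_le_rpow (by positivity) hK2 (by norm_num)
    have e2 : (2 : ℝ) ^ (4 / 3 * ((a : ℝ) + 1)) = 2 ^ (4 / 3 : ℝ) * 2 ^ (4 / 3 * (a : ℝ)) := by
      rw [← Real.rpow_add (by norm_num)]
      congr 1
      ring
    rw [e, e2]
    have h4 : (0 : ℝ) < 2 ^ (4 / 3 * (a : ℝ)) := by positivity
    calc M * (((2 : ℝ) ^ K) ^ (4 / 3 : ℝ) * 2 ^ (4 / 3 * (a : ℝ))) ≤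
        M * (2 ^ (4 / 3 : ℝ) * R ^ (4 / 3 : ℝ) * 2 ^ (4 / 3 * (a : ℝ))) := by gcongr
      _ = _ := by ring
  have h1 : ∀ n : ℕ, (if M * 2 ^ (4 / 3 * ((a : ℝ) + 1)) * R ^ (4 / 3 : ℝ) < (n : ℝ) then ENNReal.ofReal (wB R n) else 0) ≤
      ENNReal.ofReal (3 / 2) * gf {t | t ∈ {t | t ∈ WL K ∧ PW.mZ (2 ^ (K + a)) ≤ (t.length : ℝ)} ∧ t.length = n} := by
    intro n
    split_ifs with h
    · have hn : 0 < n := by
        have : (0 : ℝ) < n := lt_of_le_of_lt (by positivity) h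
        exact_mod_cast this
      rw [wB_gf hn]
      refine mul_le_mul' le_rfl (gf_mono fun t ht => ?_)
      obtain ⟨h2, h3⟩ := word_WL hK1 ht.1 ht.2
      refine ⟨⟨h2, ?_⟩, h3⟩
      rw [h3]
      exact hm.trans h.le
    · exact zero_le
  refine (ENNReal.tsum_le_tsum h1).trans ?_
  rw [ENNReal.tsum_mul_left, ← NTF.gf_lengths]
  refine (mul_le_mul' le_rfl ((ha K).trans (mul_le_mul' le_rfl (hF K)))).trans ?_
  rw [← ENNReal.ofReal_mul (by positivity), ← ENNReal.ofReal_mul (by norm_num)]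
  refine ENNReal.ofReal_le_ofReal ?_
  have h3 := scale_pow hR hK2
  calc 3 / 2 * (ε / (3 / 2 * (C2 * 4)) * (C2 * 2 ^ (43 / 24 * (K : ℝ)))) ≤
      3 / 2 * (ε / (3 / 2 * (C2 * 4)) * (C2 * (4 * R ^ (43 / 24 : ℝ)))) := by gcongr
    _ = ε * R ^ (43 / 24 : ℝ) := by field_simp

/-! ### 2. The curve -/

lemma curve_lt {n : ℕ} (hn : 1 ≤ n) (s : Fin n → Fin 3) {R : ℝ} (hR : 0 < R) :
    curve s ∈ inB R n ↔ ∀ k, k ≤ n → ‖Pool.Agent.NTS.Res.pos s k‖ < R := by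
  have hs := size_pos hn
  have hn0 : (0 : ℝ) < n := by exact_mod_cast hn
  constructor
  · intro h k hk
    have hu : (k : ℝ) / n ∈ unitInterval := ⟨by positivity, by
      rw [div_le_one hn0]
      exact_mod_cast hk⟩
    have h1 := curve_node hn s (a := k) (u := ⟨(k : ℝ) / n, hu⟩) rfl
    have h2 := (curve s).norm_coe_le_norm ⟨(k : ℝ) / n, hu⟩
    rw [h1, norm_div, Complex.norm_of_nonneg hs.le, div_le_iff₀ hs] at h2
    exact h2.trans_lt h
  · intro h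
    show ‖curve s‖ * size n < R
    rw [← lt_div_iff₀ hs, ContinuousMap.norm_lt_iff _ (by positivity)]
    intro u
    obtain ⟨i, a, hi, ha, ha1, -, -, e⟩ := curve_apply hn s u
    rw [e, norm_div, Complex.norm_of_nonneg hs.le]
    refine div_lt_div_of_pos_right ?_ hs
    have h1 := h i hi.le
    have h2 := h (i + 1) hi
    refine (norm_add_le _ _).trans_lt ?_
    rw [norm_mul, norm_mul, Complex.norm_of_nonneg (by linarith), Complex.norm_of_nonneg ha]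
    rcases eq_or_lt_of_le ha with h3 | h3
    · rw [← h3]
      simpa using h1
    · nlinarith [mul_lt_mul_of_pos_left h2 h3, mul_le_mul_of_nonneg_left h1.le (by linarith : (0 : ℝ) ≤ 1 - a)]

/-- **the weights of the curves are the weights of the walks** -/
lemma wR_eq {n : ℕ} (hn : 1 ≤ n) {R : ℝ} (hR : 0 < R) : wR R n = wB R n := by
  have h0 := saw_card_pos n
  unfold wR aN wB
  rw [law_apply, ENNReal.toReal_mul, ENNReal.toReal_inv, ENNReal.toReal_natCast, ENNReal.toReal_natCast]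
  have e : ((saw n).filter fun s => curve s ∈ inB R n) =
      (saw n).filter fun s => ∀ k, k ≤ n → ‖Pool.Agent.NTS.Res.pos s k‖ < R :=
    filter_congr fun s _ => curve_lt hn s hR
  rw [e]
  field_simp

lemma wR_nonneg (R : ℝ) (n : ℕ) : 0 ≤ wR R n :=
  mul_nonneg (mul_nonneg (Nat.cast_nonneg _) (pow_nonneg fug_nonneg n)) ENNReal.toReal_nonneg

lemma wR_zero (R : ℝ) : wR R 0 ≤ 1 := by
  unfold wR aN
  have h1 : ((saw 0).card : ℝ) ≤ 1 := by
    have h : ((saw 0).card : ℝ) ≤ ((1 : ℕ) : ℝ) := Nat.cast_le.2 ((card_le_univ _).trans (by simp))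
    rwa [Nat.cast_one] at h
  have := law_prob 0
  have h2 : (law 0 (inB R 0)).toReal ≤ 1 := by
    have : law 0 (inB R 0) ≤ 1 := prob_le_one
    exact ENNReal.toReal_le_of_le_ofReal (by norm_num) (by rwa [ENNReal.ofReal_one])
  rw [pow_zero, mul_one]
  exact mul_le_one₀ h1 ENNReal.toReal_nonneg h2

lemma wR_le {n : ℕ} {R : ℝ} (hR : 0 < R) : wR R n ≤ wB R n + if n = 0 then 1 else 0 := by
  rcases Nat.eq_zero_or_pos n with hn | hn
  · rw [hn, if_pos rfl]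
    linarith [wR_zero R, wB_nonneg R 0]
  · rw [wR_eq hn hR, if_neg hn.ne', add_zero]

lemma up_R : ∃ C : ℝ, 0 < C ∧ ∀ R : ℝ, 1 ≤ R → ∑' n, ENNReal.ofReal (wR R n) ≤ ENNReal.ofReal (C * R ^ (43 / 24 : ℝ)) := by
  obtain ⟨C, hC, h⟩ := up_E
  refine ⟨C + 1, by positivity, fun R hR => ?_⟩
  have hR' : 1 ≤ R ^ (43 / 24 : ℝ) := Real.one_le_rpow hR (by norm_num)
  have h1 : ∀ n, ENNReal.ofReal (wR R n) ≤ ENNReal.ofReal (wB R n) + if n = 0 then 1 else 0 := by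
    intro n
    refine (ENNReal.ofReal_le_ofReal (wR_le (by linarith))).trans ?_
    refine (ENNReal.ofReal_add_le).trans (add_le_add_right (le_of_eq ?_) _)
    split_ifs <;> simp
  refine (ENNReal.tsum_le_tsum h1).trans ?_
  rw [ENNReal.tsum_add, tsum_ite_eq]
  refine (add_le_add_left (h R hR) _).trans ?_
  rw [← ENNReal.ofReal_one, ← ENNReal.ofReal_add (by positivity) (by norm_num)]
  refine ENNReal.ofReal_le_ofReal ?_
  nlinarith

theorem summable_wR {R : ℝ} (hR : 1 ≤ R) : Summable fun n => wR R n := by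
  obtain ⟨C, hC, h⟩ := up_R
  have h1 := ENNReal.summable_toReal ((h R hR).trans_lt ENNReal.ofReal_lt_top).ne
  refine h1.congr fun n => ?_
  exact ENNReal.toReal_ofReal (wR_nonneg R n)

/-- **K2, M3** -/
theorem massT : MassT := by
  intro ε hε
  obtain ⟨Lam, hLam, h⟩ := long_E ε hε
  refine ⟨Lam, 1, hLam, one_pos, fun R hR => ?_⟩
  have hR0 : 0 < R := by linarith
  have h0 : ∀ n : ℕ, 0 ≤ (if Lam * R ^ (4 / 3 : ℝ) < (n : ℝ) then wR R n else 0) := by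
    intro n
    split_ifs
    · exact wR_nonneg R n
    · exact le_rfl
  have hsum : Summable fun n : ℕ => if Lam * R ^ (4 / 3 : ℝ) < (n : ℝ) then wR R n else 0 := by
    refine Summable.of_nonneg_of_le h0 (fun n => ?_) (summable_wR hR)
    split_ifs
    · exact le_rfl
    · exact wR_nonneg R n
  have hp : 0 ≤ ε * R ^ (43 / 24 : ℝ) := by positivity
  rw [← ENNReal.ofReal_le_ofReal_iff hp, ENNReal.ofReal_tsum_of_nonneg h0 hsum]
  refine le_trans (ENNReal.tsum_le_tsum fun n => ?_) (h R hR)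
  split_ifs with h1
  · have hn : 0 < n := by
      have : (0 : ℝ) < n := lt_of_le_of_lt (by positivity) h1
      exact_mod_cast this
    rw [wR_eq hn hR0]
  · rw [ENNReal.ofReal_zero]

/-- half of the walks stay in a ball of the order of the size -/
lemma half_in : ∃ M : ℝ, 1 ≤ M ∧ ∀ (n : ℕ) (R : ℝ), 1 ≤ n → M * (n : ℝ) ^ (3 / 4 : ℝ) < R → 1 / 2 * aN n ≤ wR R n := by
  have hres := NTSF.Mod.result_v3 (VF.mLow VF.sharpZ) (let ⟨C, _, h⟩ := VF.mUp VF.sharpZ; ⟨C, h⟩) HexObs.EN.factsX_M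
    NTSF.finE HexObs.FIS.moduX_M HexObs.FIS.moduY_M HexObs.FIS.levyX_M HexObs.EN.lowCX_M
  obtain ⟨⟨c, C, hc, hsz⟩, hpr, -, htight, -⟩ := hres
  rw [isTightMeasureSet_iff_exists_isCompact_measure_compl_le] at htight
  obtain ⟨K, hK, hK'⟩ := htight (ENNReal.ofReal (1 / 2)) (by simp)
  obtain ⟨M, hM⟩ := hK.isBounded.exists_norm_le
  refine ⟨max 1 (max M 0 * max C 0), le_max_left _ _, fun n R hn hR => ?_⟩
  have hn' : (0 : ℝ) ≤ (n : ℝ) ^ (3 / 4 : ℝ) := by positivity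
  have hsub : (inB R n)ᶜ ⊆ Kᶜ := by
    rw [Set.compl_subset_compl]
    intro γ hγ
    have h1 := hM γ hγ
    have h2 := (hsz n hn).2
    show ‖γ‖ * size n < R
    refine lt_of_le_of_lt ?_ hR
    calc ‖γ‖ * size n ≤ max M 0 * (max C 0 * (n : ℝ) ^ (3 / 4 : ℝ)) :=
          mul_le_mul (h1.trans (le_max_left _ _)) (h2.trans (mul_le_mul_of_nonneg_right (le_max_left _ _) hn'))
            (size_nonneg n) (le_max_right _ _)
      _ = (max M 0 * max C 0) * (n : ℝ) ^ (3 / 4 : ℝ) := by ring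
      _ ≤ _ := mul_le_mul_of_nonneg_right (le_max_right _ _) hn'
  have hlaw : law n (inB R n)ᶜ ≤ ENNReal.ofReal (1 / 2) := (measure_mono hsub).trans (hK' _ ⟨n, hn, rfl⟩)
  have := hpr n
  have h1 : 1 ≤ law n (inB R n) + law n (inB R n)ᶜ := by
    have h := measure_union_le (μ := law n) (inB R n) (inB R n)ᶜ
    rw [Set.union_compl_self, measure_univ] at h
    exact h
  have h2 : 1 / 2 ≤ (law n (inB R n)).toReal := by
    have h3 : (law n (inB R n)) ≠ ⊤ := measure_ne_top _ _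
    have h4 : (law n (inB R n)ᶜ) ≠ ⊤ := measure_ne_top _ _
    have h5 := ENNReal.toReal_mono (ENNReal.add_ne_top.2 ⟨h3, h4⟩) h1
    rw [ENNReal.toReal_one, ENNReal.toReal_add h3 h4] at h5
    have h6 : (law n (inB R n)ᶜ).toReal ≤ 1 / 2 := ENNReal.toReal_le_of_le_ofReal (by norm_num) hlaw
    linarith
  unfold wR
  have h7 : 0 ≤ aN n := mul_nonneg (Nat.cast_nonneg _) (pow_nonneg fug_nonneg n)
  nlinarith

lemma low_R : ∃ c R0 : ℝ, 0 < c ∧ 1 ≤ R0 ∧ ∀ R : ℝ, R0 ≤ R → c * R ^ (43 / 24 : ℝ) ≤ cR R := by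
  obtain ⟨M, hM, hhalf⟩ := half_in
  obtain ⟨c, C, hc, hC, ha⟩ := aN_bounds
  have hM0 : 0 < M := by linarith
  refine ⟨1 / 8 * c * (1 / 2) ^ (11 / 32 : ℝ) * (1 / (2 * M)) ^ (43 / 24 : ℝ), 2 * M * 4, by positivity, by linarith, fun R hR => ?_⟩
  have hR0 : 0 < R := by linarith
  have hR1 : 1 ≤ R := by linarith
  obtain ⟨x, hx⟩ : ∃ x : ℝ, x = (R / (2 * M)) ^ (4 / 3 : ℝ) := ⟨_, rfl⟩
  have hy : 4 ≤ R / (2 * M) := by
    rw [le_div_iff₀ (by positivity)]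
    linarith
  have hx4 : 4 ≤ x := by
    rw [hx]
    calc (4 : ℝ) ≤ R / (2 * M) := hy
      _ = (R / (2 * M)) ^ (1 : ℝ) := (Real.rpow_one _).symm
      _ ≤ _ := Real.rpow_le_rpow_of_exponent_le (by linarith) (by norm_num)
  have hterm : ∀ n ∈ Finset.Ioc ⌊x / 2⌋₊ ⌊x⌋₊, 1 / 2 * (c * (x / 2) ^ (11 / 32 : ℝ)) ≤ wR R n := by
    intro n hn
    rw [Finset.mem_Ioc] at hn
    have h1 : x / 2 < n := (Nat.lt_floor_add_one _).trans_le (by exact_mod_cast hn.1)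
    have h2 : (n : ℝ) ≤ x := (Nat.cast_le.2 hn.2).trans (Nat.floor_le (by linarith))
    have hn1 : 1 ≤ n := by
      have : (0 : ℝ) < n := by linarith
      exact_mod_cast this
    have h3 : M * (n : ℝ) ^ (3 / 4 : ℝ) < R := by
      have h4 : (n : ℝ) ^ (3 / 4 : ℝ) ≤ R / (2 * M) := by
        calc (n : ℝ) ^ (3 / 4 : ℝ) ≤ x ^ (3 / 4 : ℝ) := Real.rpow_le_rpow (by positivity) h2 (by norm_num)
          _ = R / (2 * M) := by
            rw [hx, ← Real.rpow_mul (by positivity)]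
            norm_num
      calc M * (n : ℝ) ^ (3 / 4 : ℝ) ≤ M * (R / (2 * M)) := mul_le_mul_of_nonneg_left h4 hM0.le
        _ = R / 2 := by field_simp
        _ < R := by linarith
    refine le_trans ?_ (hhalf n R hn1 h3)
    refine mul_le_mul_of_nonneg_left (le_trans ?_ (ha n hn1).1) (by norm_num)
    exact mul_le_mul_of_nonneg_left (Real.rpow_le_rpow (by linarith) h1.le (by norm_num)) hc.le
  have hsum := (summable_wR hR1).sum_le_tsum (Finset.Ioc ⌊x / 2⌋₊ ⌊x⌋₊) (fun n _ => wR_nonneg R n)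
  have hcard : x / 4 ≤ ((Finset.Ioc ⌊x / 2⌋₊ ⌊x⌋₊).card : ℝ) := by
    rw [Nat.card_Ioc]
    have h1 : ⌊x / 2⌋₊ ≤ ⌊x⌋₊ := Nat.floor_mono (by linarith)
    rw [Nat.cast_sub h1]
    have h2 := Nat.floor_le (show 0 ≤ x / 2 by linarith)
    have h3 := Nat.lt_floor_add_one x
    linarith
  refine le_trans ?_ (le_trans (Finset.card_nsmul_le_sum _ _ _ hterm) hsum)
  rw [nsmul_eq_mul]
  have hx0 : 0 < x := by linarith
  have e1 : x / 4 * (1 / 2 * (c * (x / 2) ^ (11 / 32 : ℝ))) = 1 / 8 * c * (1 / 2) ^ (11 / 32 : ℝ) * x ^ (43 / 32 : ℝ) := by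
    have h1 : x ^ (43 / 32 : ℝ) = x * x ^ (11 / 32 : ℝ) := by
      rw [show (43 / 32 : ℝ) = 1 + 11 / 32 by norm_num, Real.rpow_add hx0, Real.rpow_one]
    have h2 : (x / 2) ^ (11 / 32 : ℝ) = (1 / 2) ^ (11 / 32 : ℝ) * x ^ (11 / 32 : ℝ) := by
      rw [← Real.mul_rpow (by norm_num) hx0.le]
      congr 1
      ring
    rw [h1, h2]
    ring
  have e2 : x ^ (43 / 32 : ℝ) = (1 / (2 * M)) ^ (43 / 24 : ℝ) * R ^ (43 / 24 : ℝ) := by
    rw [hx, ← Real.rpow_mul (by positivity), ← Real.mul_rpow (by positivity) hR0.le]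
    norm_num
    congr 1
    ring
  calc 1 / 8 * c * (1 / 2) ^ (11 / 32 : ℝ) * (1 / (2 * M)) ^ (43 / 24 : ℝ) * R ^ (43 / 24 : ℝ) =
      x / 4 * (1 / 2 * (c * (x / 2) ^ (11 / 32 : ℝ))) := by
        rw [e1, e2]
        ring
    _ ≤ _ := mul_le_mul_of_nonneg_right hcard (by positivity)

/-- **K2, M2** -/
theorem massB : MassB := by
  obtain ⟨c, R0, hc, hR0, hl⟩ := low_R
  obtain ⟨C, hC, hu⟩ := up_R
  refine ⟨c, C, R0, hc, by linarith, fun R hR => ⟨hl R hR, ?_⟩⟩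
  have hR1 : 1 ≤ R := hR0.trans hR
  have h1 := hu R hR1
  rw [← ENNReal.ofReal_tsum_of_nonneg (fun n => wR_nonneg R n) (summable_wR hR1),
    ENNReal.ofReal_le_ofReal_iff (by positivity)] at h1
  exact h1

end Mass

end CRT
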