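import Pool.Agent.CRT.ClTight
import Pool.Agent.CRT.Mass

/-!
# CRT, row K5a, no hypothesis (helper41)
-/

set_option autoImplicit false

namespace Pool.Agent.CRT

/-- **K5a** -/
theorem clTight : ClTight := by
  obtain ⟨c, C, -, h1, -, -, hT, -, -⟩ := NTSF.finE
  exact Tg.clTight_of CRT.Mass.massB CRT.Mass.massT ⟨C, fun n hn => (h1 n hn).2⟩ hT

end Pool.Agent.CRT
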