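import Pool.Agent.NPR.ClkOfZ

/-!
# CRT, row K3': the clock of the walks, uniformly for the scales in a compact range (helper34)

* `clkU_of` : from `MainN`.
-/

set_option autoImplicit false

open Set Filter Topology MeasureTheory
open scoped ENNReal

namespace Pool.Agent.CRT

open Pool.Agent.NPR
open HexObs hiding pos curve
open HexObs.TIW HexObs.TS HexObs.SDN HexObs.NPR
open NTF (JJ JJ_norm JJ_sub JJ_neg JJ_add Hd Hd_iff sw)
open Pool.Agent.NTS.Res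
open NTSF (rot om om_norm pos_rot rot_mem curve_eq)

/-- **K3'**: the clock of the walks, uniformly for the scales in a compact range -/
def ClkU' : Prop := ∀ ε : ℝ, 0 < ε → ∃ ρ0 : ℝ, 0 < ρ0 ∧ ∀ ρ1 : ℝ, 0 < ρ1 → ∃ n0 : ℕ, ∀ (ρ : ℝ) (n : ℕ), ρ1 ≤ ρ → ρ ≤ ρ0 →
  n0 ≤ n → law n (Bd ρ ε) ≤ ENNReal.ofReal ε

theorem clkU_of' (hE : NTSF.ConclE False) (hup : ∃ C : ℝ, ∀ k : ℕ, PW.mZ (2 ^ k) ≤ C * (2 : ℝ) ^ (4 / 3 * (k : ℝ)))
    (hN : MainN) : ClkU' := by
  classical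
  intro ε hε
  obtain ⟨c, C, hc, hsz, -, hhol, -⟩ := hE
  obtain ⟨C', hup⟩ := hup
  have hC : 0 < C := by
    have h1 := (hsz 1 le_rfl).2
    have h2 := NTSF.size_pos (n := 1) le_rfl
    rw [Nat.cast_one, Real.one_rpow, mul_one] at h1
    linarith
  have hC' : 0 < C' := by
    have h1 := hup 0
    rw [Nat.cast_zero, mul_zero, Real.rpow_zero, mul_one] at h1
    exact (PW.mZ_pos (by norm_num)).trans_le h1
  obtain ⟨e, he⟩ : ∃ e, e = min (ε / 12) (1 / 6) := ⟨_, rfl⟩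
  have he0 : 0 < e := by
    rw [he]
    exact lt_min (by positivity) (by norm_num)
  have he1 : e ≤ ε / 12 := by
    rw [he]
    exact min_le_left _ _
  have he2 : e ≤ 1 / 6 := by
    rw [he]
    exact min_le_right _ _
  obtain ⟨d, n1, hN⟩ := hN e he0
  obtain ⟨M, hM⟩ := hhol (1 / 2) (by norm_num) (by norm_num) (ε / 2) (by positivity)
  obtain ⟨b, hb⟩ : ∃ b : ℝ, b = (1 / C') ^ (3 / 4 : ℝ) / 2 := ⟨_, rfl⟩
  have hb0 : 0 < b := by
    rw [hb]
    positivity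
  refine ⟨b / (C * 2 ^ d), by positivity, fun ρ1 hρ1 => ?_⟩
  obtain ⟨N, hNN⟩ : ∃ N : ℕ, N = ⌈((M : ℝ) / (ρ1 / 2)) ^ 2⌉₊ + 1 := ⟨_, rfl⟩
  obtain ⟨S, hS⟩ : ∃ S : ℝ, S = max (4 / ρ1) (4 * N / (e * ρ1)) := ⟨_, rfl⟩
  have ht : Tendsto (fun n : ℕ => (n : ℝ) ^ (3 / 4 : ℝ)) atTop atTop :=
    (tendsto_rpow_atTop (by norm_num)).comp tendsto_natCast_atTop_atTop
  obtain ⟨n0, hn0⟩ := Filter.eventually_atTop.1 (((ht.eventually_ge_atTop (S / c)).and
    (eventually_ge_atTop (max n1 1))).and ((tendsto_natCast_atTop_atTop (R := ℝ)).eventually_ge_atTop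
      (max (1 / e) (PW.mZ (2 ^ 0)))))
  refine ⟨n0, fun ρ n hρ1ρ hρ0 hn => ?_⟩
  rw [le_div_iff₀ (by positivity)] at hρ0
  have hρ : 0 < ρ := hρ1.trans_le hρ1ρ
  obtain ⟨⟨h1, h2⟩, h3⟩ := hn0 n hn
  have hnn1 : n1 ≤ n := le_of_max_le_left h2
  have hn1 : 1 ≤ n := le_of_max_le_right h2
  have hn0' : (0 : ℝ) < n := by exact_mod_cast hn1
  have hs := NTSF.size_pos hn1
  have hen : 1 ≤ e * n := by
    have := le_of_max_le_left h3
    rw [div_le_iff₀ he0] at this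
    linarith
  have hSn : S ≤ size n := by
    rw [div_le_iff₀ hc] at h1
    have := (hsz n hn1).1
    linarith
  have hs41 : 4 ≤ ρ1 * size n := by
    have : 4 / ρ1 ≤ size n := (by rw [hS]; exact le_max_left _ _ : 4 / ρ1 ≤ S).trans hSn
    rw [div_le_iff₀ hρ1] at this
    linarith
  have hρs : ρ1 * size n ≤ ρ * size n := mul_le_mul_of_nonneg_right hρ1ρ hs.le
  have hs4 : 4 ≤ ρ * size n := hs41.trans hρs
  have hsN : 4 * N ≤ e * ρ * size n := by
    have : 4 * N / (e * ρ1) ≤ size n := (by rw [hS]; exact le_max_right _ _ : 4 * N / (e * ρ1) ≤ S).trans hSn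
    rw [div_le_iff₀ (by positivity)] at this
    have h9 : e * (ρ1 * size n) ≤ e * (ρ * size n) := mul_le_mul_of_nonneg_left hρs he0.le
    linarith
  obtain ⟨k, hk⟩ := sc_ex0 (le_of_max_le_right h3)
  obtain ⟨r, hr⟩ : ∃ r, r = ⌊ρ * size n⌋₊ := ⟨_, rfl⟩
  have hr1 : (r : ℝ) ≤ ρ * size n := by
    rw [hr]
    exact Nat.floor_le (by positivity)
  have hr2 : ρ * size n < r + 1 := by
    rw [hr]
    exact Nat.lt_floor_add_one _
  have hr3 : 2 ≤ r := by
    have : (1 : ℝ) < r := by linarith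
    exact_mod_cast this
  have hrd : r * 2 ^ d ≤ 2 ^ k := by
    have h4 : (n : ℝ) ≤ C' * (2 : ℝ) ^ (4 / 3 * ((k + 1 : ℕ) : ℝ)) := hk.2.le.trans (hup (k + 1))
    have h5 : (1 / C') * (n : ℝ) ≤ (2 : ℝ) ^ (4 / 3 * ((k + 1 : ℕ) : ℝ)) := by
      rw [one_div_mul_eq_div, div_le_iff₀ hC']
      linarith
    have h6 := Real.rpow_le_rpow (by positivity) h5 (show (0 : ℝ) ≤ 3 / 4 by norm_num)
    have h43 : ((2 : ℝ) ^ (4 / 3 * ((k + 1 : ℕ) : ℝ))) ^ (3 / 4 : ℝ) = 2 ^ (k + 1) := by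
      rw [← Real.rpow_mul (by norm_num), ← Real.rpow_natCast]
      congr 1
      ring
    rw [h43, Real.mul_rpow (by positivity) hn0'.le, pow_succ] at h6
    have h7 : b * (n : ℝ) ^ (3 / 4 : ℝ) ≤ 2 ^ k := by
      rw [hb]
      linarith
    have h8 : (r : ℝ) * 2 ^ d ≤ 2 ^ k := by
      refine le_trans ?_ h7
      have hp : 0 ≤ (n : ℝ) ^ (3 / 4 : ℝ) := by positivity
      calc (r : ℝ) * 2 ^ d ≤ (ρ * size n) * 2 ^ d := mul_le_mul_of_nonneg_right hr1 (by positivity)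
        _ ≤ (ρ * (C * (n : ℝ) ^ (3 / 4 : ℝ))) * 2 ^ d :=
            mul_le_mul_of_nonneg_right (mul_le_mul_of_nonneg_left (hsz n hn1).2 hρ.le) (by positivity)
        _ = (ρ * (C * 2 ^ d)) * (n : ℝ) ^ (3 / 4 : ℝ) := by ring
        _ ≤ _ := mul_le_mul_of_nonneg_right hρ0 hp
    exact_mod_cast h8
  have hR1 : 1 ≤ ρ * size n := by linarith
  have haf : AF r (Vm (ρ * size n)) := af_Vm hR1 hr1 hr2 (by omega)
  obtain ⟨ka, hka, hP⟩ := hN r _ _ hr3 haf haf (Vm_rev hR1) k n hnn1 hk hrd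
  obtain ⟨X, hX⟩ : ∃ X : Set (List Bool), X = {t | ¬ ∀ x y : ℕ, x ≤ y → y ≤ t.length →
    |ka * Vm (ρ * size n) (wd t x y) - ((y : ℝ) - x)| ≤ e * n} := ⟨_, rfl⟩
  rw [← hX] at hP
  -- the two parts
  have hsub : Bd ρ ε ⊆ {γ : C(unitInterval, ℂ) | ¬ HolderWith M (1 / 2) γ} ∪
      {γ : C(unitInterval, ℂ) | γ ∈ Bd ρ ε ∧ Hd M (1 / 2) γ} := by
    intro γ hγ
    by_cases h : HolderWith M (1 / 2) γ
    · right
      have h9 := Hd_iff.1 h
      refine ⟨hγ, ?_⟩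
      have e9 : (((1 / 2 : NNReal)) : ℝ) = 1 / 2 := by norm_num
      rwa [e9] at h9
    · left
      exact h
  refine (measure_mono hsub).trans ((measure_union_le _ _).trans ?_)
  have hε2 : ENNReal.ofReal ε = ENNReal.ofReal (ε / 2) + ENNReal.ofReal (ε / 2) := by
    rw [← ENNReal.ofReal_add (by positivity) (by positivity)]
    congr 1
    ring
  rw [hε2]
  refine add_le_add (hM n hn1) (NTSF.law_le (by positivity) ?_)
  obtain ⟨P, hPd⟩ : ∃ P : (Fin n → Fin 3) → Prop, P = fun s => curve s ∈ Bd ρ ε ∧ Hd M (1 / 2) (curve s) := ⟨_, rfl⟩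
  have hPr : ∀ s, P (rot s) ↔ P s := by
    intro s
    rw [hPd]
    exact and_congr (bd_rot s ρ ε) (hd_rot s M (1 / 2))
  have c1 := NTSF.card_saw (n := n) hn1 P hPr
  have c2 : 2 * (saw n).card = 3 * cS n := by
    have := NTSF.card_saw (n := n) hn1 (fun _ => True) (fun _ => Iff.rfl)
    rw [Finset.filter_true_of_mem (fun _ _ => trivial)] at this
    rw [this]
    congr 2
    ext t
    exact ⟨fun h => h.1, fun h => ⟨h, trivial⟩⟩
  have c3 : {t | t ∈ SawN n ∧ P (sw n t)}.ncard ≤ {t | t ∈ SawN n ∧ t ∈ X}.ncard := by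
    refine Set.ncard_le_ncard ?_ ((List.finite_length_eq Bool n).subset fun t h => h.1.1)
    rintro t ⟨h4, h5⟩
    refine ⟨h4, ?_⟩
    rw [hX]
    intro h6
    rw [hPd] at h5
    obtain ⟨⟨v, hv⟩, h7⟩ := h5
    have htl : t.length = n := h4.1
    refine absurd ?_ (not_le.2 hv)
    refine (clk_one hn1 htl hρ (by linarith) he0 he2 hka hen (fun j hj => ?_) ?_ v).trans ?_
    · have := h6 0 j (Nat.zero_le _) (by omega)
      rwa [Nat.cast_zero, sub_zero, show wd t 0 j = t.take j from rfl] at this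
    · -- the boundary term
      have h8 := hd_pcs (γ := curve (sw n t)) (M := M) (s := ρ1 / 2) (NNReal.coe_nonneg M) (by positivity) h7
      have h9 := Vz_le_pcs hn1 (sw n t) (v := 1) (σ := ρ1 / 2) le_rfl (by positivity) (by
        rw [div_self hn0'.ne']
        exact le_rfl)
      have h10 := Vz_anti (x := ρ1 / 2 * size n + 2) (x' := ρ * size n) (z := fun j => pos (sw n t) j) (a := 0) (b := n)
        (by linarith) (by linarith) (Nat.zero_le _) (pos_step1 le_rfl)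
      have h11 : Vz (ρ * size n) (fun j => pos (sw n t) j) 0 n ≤ N := by
        rw [hNN]
        exact h10.trans (h9.trans h8)
      have h12 : (Vz (ρ * size n) (fun j => pos (sw n t) j) 0 n : ℝ) ≤ N := by exact_mod_cast h11
      rw [div_mul_eq_mul_div, div_le_iff₀ hs]
      linarith
    · refine mul_le_mul_of_nonneg_right (by linarith) (vb_pos hρ _ _).le
  have c4 : ({t | t ∈ SawN n ∧ t ∈ X}.ncard : ℝ) ≤ e * cS n := by
    have h4 : (0 : ℝ) < cS n := by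
      have h5 : 0 < (saw n).card := (NTSF.saw_nonempty n).card_pos
      have h6 : 0 < cS n := by omega
      exact_mod_cast h6
    have h5 : ({t | t ∈ SawN n ∧ t ∈ X}.ncard : ℝ) / cS n ≤ e := hP
    rwa [div_le_iff₀ h4] at h5
  have c5 : (((saw n).filter P).card : ℝ) ≤ ε / 2 * ((saw n).card : ℝ) := by
    have d1 : (2 : ℝ) * (((saw n).filter P).card : ℝ) = 3 * ({t | t ∈ SawN n ∧ P (sw n t)}.ncard : ℝ) := by
      exact_mod_cast c1
    have d2 : (2 : ℝ) * ((saw n).card : ℝ) = 3 * (cS n : ℝ) := by exact_mod_cast c2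
    have d3 : ({t | t ∈ SawN n ∧ P (sw n t)}.ncard : ℝ) ≤ ({t | t ∈ SawN n ∧ t ∈ X}.ncard : ℝ) := by exact_mod_cast c3
    have d4 : (0 : ℝ) ≤ cS n := Nat.cast_nonneg _
    have d5 : e * (cS n : ℝ) ≤ ε / 2 * cS n := mul_le_mul_of_nonneg_right (by linarith) d4
    have d6 : ε / 2 * (2 * ((saw n).card : ℝ)) = ε / 2 * (3 * (cS n : ℝ)) := by rw [d2]
    linarith
  refine le_trans (le_of_eq ?_) c5
  rw [hPd]
  congr 2

/-- **the clock of the walks, uniformly for the scales in a compact range** -/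
theorem clkU_of (h : MainN) : ClkU' :=
  clkU_of' NTSF.finE (let ⟨C, _, h⟩ := VF.mUp VF.sharpZ; ⟨C, h⟩) h

end Pool.Agent.CRT
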