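import Mathlib

/-!
# CRT (helper45): weak convergence, lemmas
-/

set_option autoImplicit false

open Set Filter Topology MeasureTheory
open scoped ENNReal

namespace Pool.Agent.CRT

section

variable {Ω : Type*} [MeasurableSpace Ω] [TopologicalSpace Ω] [OpensMeasurableSpace Ω] [HasOuterApproxClosed Ω]

/-- weak convergence -/
def WTo (μs : ℕ → Measure Ω) (μ : Measure Ω) : Prop :=
  ∀ f : BoundedContinuousFunction Ω ℝ, Tendsto (fun k => ∫ x, f x ∂(μs k)) atTop (𝓝 (∫ x, f x ∂μ))

/-- a probability measure -/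
def pmk (μ : Measure Ω) (h : IsProbabilityMeasure μ) : ProbabilityMeasure Ω := ⟨μ, h⟩

lemma WTo.pm {μs : ℕ → Measure Ω} {μ : Measure Ω} [hs : ∀ k, IsProbabilityMeasure (μs k)] [h : IsProbabilityMeasure μ]
    (hw : WTo μs μ) : Tendsto (fun k => pmk (μs k) (hs k)) atTop (𝓝 (pmk μ h)) := by
  rw [ProbabilityMeasure.tendsto_iff_forall_integral_tendsto]
  exact hw

lemma WTo.open_le {μs : ℕ → Measure Ω} {μ : Measure Ω} [hs : ∀ k, IsProbabilityMeasure (μs k)] [h : IsProbabilityMeasure μ]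
    (hw : WTo μs μ) {U : Set Ω} (hU : IsOpen U) {c : ℝ≥0∞} (hc : ∃ᶠ k in atTop, μs k U ≤ c) : μ U ≤ c := by
  have h1 := ProbabilityMeasure.le_liminf_measure_open_of_tendsto (WTo.pm hw) hU
  refine h1.trans ?_
  exact liminf_le_of_frequently_le' hc

lemma WTo.le_closed {μs : ℕ → Measure Ω} {μ : Measure Ω} [hs : ∀ k, IsProbabilityMeasure (μs k)] [h : IsProbabilityMeasure μ]
    (hw : WTo μs μ) {F : Set Ω} (hF : IsClosed F) {c : ℝ≥0∞} (hc : ∃ᶠ k in atTop, c ≤ μs k F) : c ≤ μ F := by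
  have h1 := ProbabilityMeasure.limsup_measure_closed_le_of_tendsto (WTo.pm hw) hF
  refine le_trans ?_ h1
  exact le_limsup_of_frequently_le' hc

lemma WTo.null {μs : ℕ → Measure Ω} {μ : Measure Ω} [hs : ∀ k, IsProbabilityMeasure (μs k)] [h : IsProbabilityMeasure μ]
    (hw : WTo μs μ) {E : Set Ω} (h0 : μ (frontier E) = 0) : Tendsto (fun k => μs k E) atTop (𝓝 (μ E)) :=
  ProbabilityMeasure.tendsto_measure_of_null_frontier_of_tendsto' (WTo.pm hw) h0

/-- limits of upper bounds -/
lemma WTo.open_lim {μs : ℕ → Measure Ω} {μ : Measure Ω} [hs : ∀ k, IsProbabilityMeasure (μs k)] [h : IsProbabilityMeasure μ]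
    (hw : WTo μs μ) {U : Set Ω} (hU : IsOpen U) {c : ℕ → ℝ≥0∞} {l : ℝ≥0∞} (hl : Tendsto c atTop (𝓝 l))
    (hc : ∀ᶠ k in atTop, μs k U ≤ c k) : μ U ≤ l := by
  have h1 := ProbabilityMeasure.le_liminf_measure_open_of_tendsto (WTo.pm hw) hU
  refine h1.trans ?_
  rw [← hl.liminf_eq]
  exact liminf_le_liminf hc

/-- limits of lower bounds -/
lemma WTo.closed_lim {μs : ℕ → Measure Ω} {μ : Measure Ω} [hs : ∀ k, IsProbabilityMeasure (μs k)] [h : IsProbabilityMeasure μ]
    (hw : WTo μs μ) {F : Set Ω} (hF : IsClosed F) {c : ℕ → ℝ≥0∞} {l : ℝ≥0∞} (hl : Tendsto c atTop (𝓝 l))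
    (hc : ∀ᶠ k in atTop, c k ≤ μs k F) : l ≤ μ F := by
  have h1 := ProbabilityMeasure.limsup_measure_closed_le_of_tendsto (WTo.pm hw) hF
  refine le_trans ?_ h1
  rw [← hl.limsup_eq]
  exact limsup_le_limsup hc

/-- set integrals over continuity sets -/
theorem WTo.setInt {μs : ℕ → Measure Ω} {μ : Measure Ω} [hs : ∀ k, IsProbabilityMeasure (μs k)] [h : IsProbabilityMeasure μ]
    (hw : WTo μs μ) {E : Set Ω} (h0 : μ (frontier E) = 0) (f : BoundedContinuousFunction Ω ℝ) :
    Tendsto (fun k => ∫ x in E, f x ∂(μs k)) atTop (𝓝 (∫ x in E, f x ∂μ)) := by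
  have hm := WTo.null hw h0
  have hmr : Tendsto (fun k => (μs k E).toReal) atTop (𝓝 (μ E).toReal) :=
    (ENNReal.tendsto_toReal (measure_ne_top _ _)).comp hm
  rcases eq_or_ne (μ E) 0 with hz | hz
  · have e1 : ∫ x in E, f x ∂μ = 0 := by
      rw [Measure.restrict_eq_zero.2 hz, integral_zero_measure]
    rw [e1]
    rw [hz, ENNReal.toReal_zero] at hmr
    have h3 := hmr.const_mul ‖f‖
    rw [mul_zero] at h3
    refine squeeze_zero_norm (fun k => ?_) h3
    have h2 := norm_setIntegral_le_of_norm_le_const (μ := μs k) (s := E) (f := fun x => f x) (C := ‖f‖)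
      (measure_lt_top _ _) fun x _ => f.norm_coe_le_norm x
    exact h2
  · -- normalised restrictions
    have hpos : ∀ᶠ k in atTop, μs k E ≠ 0 := hm.eventually_ne hz
    obtain ⟨N, hN⟩ := eventually_atTop.1 hpos
    obtain ⟨νs, hνs⟩ : ∃ νs : ℕ → Measure Ω, νs = fun k => (μs (k + N) E)⁻¹ • (μs (k + N)).restrict E := ⟨_, rfl⟩
    have hνp : ∀ k, IsProbabilityMeasure (νs k) := fun k => by
      rw [hνs]
      refine ⟨?_⟩
      simp only [Measure.smul_apply, Measure.restrict_apply_univ, smul_eq_mul]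
      exact ENNReal.inv_mul_cancel (hN _ (Nat.le_add_left _ _)) (measure_ne_top _ _)
    obtain ⟨ν, hν⟩ : ∃ ν : Measure Ω, ν = (μ E)⁻¹ • μ.restrict E := ⟨_, rfl⟩
    have hν1 : IsProbabilityMeasure ν := by
      rw [hν]
      refine ⟨?_⟩
      simp only [Measure.smul_apply, Measure.restrict_apply_univ, smul_eq_mul]
      exact ENNReal.inv_mul_cancel hz (measure_ne_top _ _)
    have hlim : Tendsto (fun k => pmk (νs k) (hνp k)) atTop (𝓝 (pmk ν hν1)) := by
      refine tendsto_of_forall_isOpen_le_liminf' fun G hG => ?_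
      have hG1 : μ (E ∩ G) = μ (interior E ∩ G) := by
        refine le_antisymm ?_ (measure_mono (inter_subset_inter_left _ interior_subset))
        have h3 : E ∩ G ⊆ (interior E ∩ G) ∪ frontier E := by
          rintro x ⟨h4, h5⟩
          by_cases h6 : x ∈ interior E
          · exact Or.inl ⟨h6, h5⟩
          · exact Or.inr ⟨subset_closure h4, h6⟩
        calc μ (E ∩ G) ≤ μ ((interior E ∩ G) ∪ frontier E) := measure_mono h3
          _ ≤ μ (interior E ∩ G) + μ (frontier E) := measure_union_le _ _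
          _ = μ (interior E ∩ G) := by rw [h0, add_zero]
      have h3 := ProbabilityMeasure.le_liminf_measure_open_of_tendsto (WTo.pm hw) (isOpen_interior.inter hG : IsOpen (interior E ∩ G))
      have h3' : μ (E ∩ G) ≤ liminf (fun k => μs (k + N) (interior E ∩ G)) atTop := by
        rw [hG1]
        refine h3.trans (le_of_eq ?_)
        exact (liminf_nat_add (fun k => μs k (interior E ∩ G)) N).symm
      have hinv : Tendsto (fun k => (μs (k + N) E)⁻¹) atTop (𝓝 (μ E)⁻¹) :=
        (tendsto_inv_iff.2 hm).comp (tendsto_add_atTop_nat N)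
      show ν G ≤ liminf (fun k => νs k G) atTop
      rw [hν, hνs]
      simp only [Measure.smul_apply, smul_eq_mul]
      rw [Measure.restrict_apply hG.measurableSet, inter_comm G E]
      simp only [Measure.restrict_apply hG.measurableSet]
      have h5 : ∀ k, (μs (k + N) E)⁻¹ * μs (k + N) (interior E ∩ G) ≤ (μs (k + N) E)⁻¹ * μs (k + N) (G ∩ E) := fun k =>
        mul_le_mul_right (measure_mono (by
          rw [inter_comm G E]
          exact inter_subset_inter_left _ interior_subset)) _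
      refine le_trans ?_ (liminf_le_liminf (Eventually.of_forall h5))
      have h6 : (μ E)⁻¹ * μ (E ∩ G) ≤ (μ E)⁻¹ * liminf (fun k => μs (k + N) (interior E ∩ G)) atTop := mul_le_mul_right h3' _
      refine h6.trans ?_
      have h7 := ENNReal.le_liminf_mul (f := atTop) (u := fun k => (μs (k + N) E)⁻¹) (v := fun k => μs (k + N) (interior E ∩ G))
      rw [hinv.liminf_eq] at h7
      exact h7
    rw [ProbabilityMeasure.tendsto_iff_forall_integral_tendsto] at hlim
    have h8 := hlim f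
    have e3 : ∀ k, ∫ x, f x ∂(νs k) = ((μs (k + N) E).toReal)⁻¹ * ∫ x in E, f x ∂(μs (k + N)) := fun k => by
      rw [hνs]
      simp only
      rw [integral_smul_measure, ENNReal.toReal_inv, smul_eq_mul]
    have e4 : ∫ x, f x ∂ν = ((μ E).toReal)⁻¹ * ∫ x in E, f x ∂μ := by
      rw [hν, integral_smul_measure, ENNReal.toReal_inv, smul_eq_mul]
    have h9 : Tendsto (fun k => ((μs (k + N) E).toReal)⁻¹ * ∫ x in E, f x ∂(μs (k + N))) atTop
        (𝓝 (((μ E).toReal)⁻¹ * ∫ x in E, f x ∂μ)) := by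
      rw [← e4]
      refine h8.congr fun k => ?_
      exact e3 k
    have h10 := (hmr.comp (tendsto_add_atTop_nat N)).mul h9
    have hr0 : (μ E).toReal ≠ 0 := ENNReal.toReal_ne_zero.2 ⟨hz, measure_ne_top _ _⟩
    rw [mul_inv_cancel_left₀ hr0] at h10
    refine (tendsto_add_atTop_iff_nat N).1 (h10.congr fun k => ?_)
    have hr1 : (μs (k + N) E).toReal ≠ 0 := ENNReal.toReal_ne_zero.2 ⟨hN _ (Nat.le_add_left _ _), measure_ne_top _ _⟩
    exact mul_inv_cancel_left₀ hr1 _

end

end Pool.Agent.CRT
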