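import Pool.Agent.CRT.Defs
import Pool.Agent.CRT.Weak
import Pool.Agent.NTA.FinXAll
import Pool.Agent.NTS.MergeTop

/-!
# CRT, row K8f (helper22): from the limit of the critical walks to Q1
-/

set_option autoImplicit false

open Set Filter Topology MeasureTheory
open scoped ENNReal

namespace Pool.Agent.CRT

open Pool.Agent.NTS.Res
open Pool.Agent.NPR

section

variable {Ω : Type*} [MeasurableSpace Ω] [TopologicalSpace Ω] [OpensMeasurableSpace Ω] [HasOuterApproxClosed Ω]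

/-- set integrals over moving sets -/
theorem WTo.mov {μs : ℕ → Measure Ω} {μ : Measure Ω} [hs : ∀ k, IsProbabilityMeasure (μs k)] [h : IsProbabilityMeasure μ]
    (hw : WTo μs μ) {E : Set Ω} (h0 : μ (frontier E) = 0) {Es : ℕ → Set Ω}
    (hA : ∀ ε : ℝ≥0∞, 0 < ε → ∃ A, IsClosed A ∧ μ A < ε ∧ ∀ᶠ k in atTop, Es k \ A = E \ A)
    (f : BoundedContinuousFunction Ω ℝ) :
    Tendsto (fun k => ∫ x in Es k, f x ∂(μs k)) atTop (𝓝 (∫ x in E, f x ∂μ)) := by
  have h1 := WTo.setInt hw h0 f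
  have h2 : Tendsto (fun k => ∫ x in Es k, f x ∂(μs k) - ∫ x in E, f x ∂(μs k)) atTop (𝓝 0) := by
    rw [Metric.tendsto_atTop]
    intro ε hε
    obtain ⟨c, hc⟩ : ∃ c : ℝ, c = ε / (2 * ‖f‖ + 1) := ⟨_, rfl⟩
    have hc0 : 0 < c := by rw [hc]; positivity
    obtain ⟨A, hAc, hAm, hAe⟩ := hA (ENNReal.ofReal c) (by simpa using hc0)
    have h3 : ∀ᶠ k in atTop, μs k A < ENNReal.ofReal c := by
      by_contra hcon
      have h4 : ∃ᶠ k in atTop, ENNReal.ofReal c ≤ μs k A := by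
        refine (not_eventually.1 hcon).mono fun k hk => ?_
        exact not_lt.1 hk
      exact absurd (WTo.le_closed hw hAc h4) (not_le.2 hAm)
    obtain ⟨N, hN⟩ := eventually_atTop.1 (h3.and hAe)
    refine ⟨N, fun k hk => ?_⟩
    obtain ⟨h5, h6⟩ := hN k hk
    have hi : ∀ S : Set Ω, IntegrableOn (fun x => f x) S (μs k) := fun S => (f.integrable (μs k)).integrableOn
    rw [dist_zero_right, ← integral_inter_add_diff hAc.measurableSet (hi (Es k)), ← integral_inter_add_diff hAc.measurableSet (hi E), h6]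
    have h7 : ∀ S : Set Ω, ‖∫ x in S ∩ A, f x ∂(μs k)‖ ≤ ‖f‖ * c := by
      intro S
      have h8 := norm_setIntegral_le_of_norm_le_const (μ := μs k) (s := S ∩ A) (f := fun x => f x) (C := ‖f‖)
        (measure_lt_top _ _) fun x _ => f.norm_coe_le_norm x
      refine h8.trans (mul_le_mul_of_nonneg_left ?_ (norm_nonneg _))
      have h9 : μs k (S ∩ A) ≤ ENNReal.ofReal c := (measure_mono inter_subset_right).trans h5.le
      calc (μs k).real (S ∩ A) ≤ (ENNReal.ofReal c).toReal := ENNReal.toReal_mono ENNReal.ofReal_ne_top h9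
        _ = c := ENNReal.toReal_ofReal hc0.le
    have h10 := h7 (Es k)
    have h11 := h7 E
    have h12 : ‖f‖ * c + ‖f‖ * c < ε := by
      rw [hc]
      have h13 : 0 ≤ ‖f‖ := norm_nonneg _
      have h14 : ‖f‖ * (ε / (2 * ‖f‖ + 1)) + ‖f‖ * (ε / (2 * ‖f‖ + 1)) = ε * (2 * ‖f‖ / (2 * ‖f‖ + 1)) := by ring
      rw [h14]
      have h15 : 2 * ‖f‖ / (2 * ‖f‖ + 1) < 1 := by
        rw [div_lt_one (by positivity)]
        linarith
      nlinarith
    refine lt_of_le_of_lt ?_ h12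
    have e1 : ∫ x in Es k ∩ A, f x ∂(μs k) + ∫ x in E \ A, f x ∂(μs k) -
        (∫ x in E ∩ A, f x ∂(μs k) + ∫ x in E \ A, f x ∂(μs k)) =
        ∫ x in Es k ∩ A, f x ∂(μs k) - ∫ x in E ∩ A, f x ∂(μs k) := by ring
    rw [e1]
    exact (norm_sub_le _ _).trans (add_le_add h10 h11)
  have h3 := h2.add h1
  rw [zero_add] at h3
  refine h3.congr fun k => ?_
  ring

end

/-! ### windows -/

/-- the window of the times in `[t, (1 + d) t)` -/
def Wi (t d : ℝ) : Set (CI × ℝ) := {x | t ≤ x.2 ∧ x.2 < (1 + d) * t}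

lemma Wi_eq (t d : ℝ) : Wi t d = Prod.snd ⁻¹' (Ico t ((1 + d) * t)) := rfl

lemma Wi_meas (t d : ℝ) : MeasurableSet (Wi t d) := measurable_snd measurableSet_Ico

/-- the time of `M` has a density bounded on compact sets of (0, oo) -/
def TD (M : Measure (CI × ℝ)) (C : ℝ) : Prop :=
  ∀ a b : ℝ, 0 < a → a < b → M {x | x.2 ∈ Icc a b} ≤ ENNReal.ofReal (C * b ^ (11 / 32 : ℝ) * (b - a))

lemma TD.atom {M : Measure (CI × ℝ)} {C : ℝ} (hC0 : 0 ≤ C) (h : TD M C) {t : ℝ} (ht : 0 < t) : M {x | x.2 = t} = 0 := by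
  have h1 : ∀ n : ℕ, M {x | x.2 = t} ≤ ENNReal.ofReal (C * (2 * t) ^ (11 / 32 : ℝ) * (t / (n + 1))) := by
    intro n
    have hn : (0 : ℝ) < t / (n + 1) := by positivity
    have hn1 : t / ((n : ℝ) + 1) ≤ t := div_le_self ht.le (by linarith [Nat.cast_nonneg (α := ℝ) n])
    refine (measure_mono fun x hx => ?_).trans ((h t (t + t / (n + 1)) ht (by linarith)).trans ?_)
    · have hx' : x.2 = t := hx
      show x.2 ∈ Icc t (t + t / (n + 1))
      rw [hx']
      exact ⟨le_rfl, by linarith⟩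
    · refine ENNReal.ofReal_le_ofReal ?_
      rw [add_sub_cancel_left]
      refine mul_le_mul_of_nonneg_right (mul_le_mul_of_nonneg_left ?_ hC0) hn.le
      exact Real.rpow_le_rpow (by positivity) (by linarith) (by norm_num)
  have h2 : Tendsto (fun n : ℕ => ENNReal.ofReal (C * (2 * t) ^ (11 / 32 : ℝ) * (t / (n + 1)))) atTop (𝓝 0) := by
    rw [← ENNReal.ofReal_zero]
    refine ENNReal.tendsto_ofReal ?_
    have h3 := (tendsto_one_div_add_atTop_nhds_zero_nat (𝕜 := ℝ)).const_mul (C * (2 * t) ^ (11 / 32 : ℝ) * t)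
    rw [mul_zero] at h3
    refine h3.congr fun n => ?_
    ring
  exact le_antisymm (ge_of_tendsto' h2 h1) zero_le

lemma TD.front {M : Measure (CI × ℝ)} {C : ℝ} (hC0 : 0 ≤ C) (h : TD M C) {t d : ℝ} (ht : 0 < t) (hd : 0 < d) :
    M (frontier (Wi t d)) = 0 := by
  have h1 : t < (1 + d) * t := by nlinarith
  have h2 : frontier (Wi t d) ⊆ {x | x.2 = t} ∪ {x | x.2 = (1 + d) * t} := by
    rw [Wi_eq]
    refine (Continuous.frontier_preimage_subset continuous_snd _).trans ?_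
    rw [frontier_Ico h1]
    rintro x (hx | hx)
    · exact Or.inl hx
    · exact Or.inr hx
  refine measure_mono_null h2 (measure_union_null (h.atom hC0 ht) (h.atom hC0 (ht.trans h1)))

/-- the moving windows -/
lemma TD.mov {M : Measure (CI × ℝ)} {C : ℝ} (hC0 : 0 ≤ C) (h : TD M C) {t d : ℝ} (ht : 0 < t) (hd : 0 < d) {ts : ℕ → ℝ}
    (hts : Tendsto ts atTop (𝓝 t)) (ε : ℝ≥0∞) (hε : 0 < ε) :
    ∃ A, IsClosed A ∧ M A < ε ∧ ∀ᶠ k in atTop, Wi (ts k) d \ A = Wi t d \ A := by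
  obtain ⟨t2, ht2⟩ : ∃ t2, t2 = (1 + d) * t := ⟨_, rfl⟩
  have h12 : t < t2 := by rw [ht2]; nlinarith
  obtain ⟨K, hK⟩ : ∃ K : ℝ, K = C * (2 * t2) ^ (11 / 32 : ℝ) := ⟨_, rfl⟩
  have hK0 : 0 ≤ K := by
    rw [hK]
    have : 0 < t2 := ht.trans h12
    positivity
  have h1 : ∃ δ : ℝ, 0 < δ ∧ δ < t / 2 ∧ ENNReal.ofReal (K * (2 * δ)) + ENNReal.ofReal (K * (2 * δ)) < ε := by
    have h2 : Tendsto (fun n : ℕ => ENNReal.ofReal (K * (2 * (1 / ((n : ℝ) + 1)))) +
        ENNReal.ofReal (K * (2 * (1 / ((n : ℝ) + 1))))) atTop (𝓝 0) := by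
      have h3 : Tendsto (fun n : ℕ => ENNReal.ofReal (K * (2 * (1 / ((n : ℝ) + 1))))) atTop (𝓝 0) := by
        rw [← ENNReal.ofReal_zero]
        refine ENNReal.tendsto_ofReal ?_
        have h4 := (tendsto_one_div_add_atTop_nhds_zero_nat (𝕜 := ℝ)).const_mul (K * 2)
        rw [mul_zero] at h4
        exact h4.congr fun n => by ring
      have h5 := h3.add h3
      rwa [add_zero] at h5
    have h6 := (h2.eventually (gt_mem_nhds hε)).and
      ((tendsto_one_div_add_atTop_nhds_zero_nat (𝕜 := ℝ)).eventually (gt_mem_nhds (by positivity : 0 < t / 2)))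
    obtain ⟨n, hn1, hn2⟩ := h6.exists
    exact ⟨1 / ((n : ℝ) + 1), by positivity, hn2, hn1⟩
  obtain ⟨δ, hδ0, hδt, hδ⟩ := h1
  refine ⟨{x | x.2 ∈ Icc (t - δ) (t + δ)} ∪ {x | x.2 ∈ Icc (t2 - δ) (t2 + δ)},
    (isClosed_Icc.preimage continuous_snd).union (isClosed_Icc.preimage continuous_snd), ?_, ?_⟩
  · refine lt_of_le_of_lt (measure_union_le _ _) (lt_of_le_of_lt (add_le_add ?_ ?_) hδ)
    · refine (h _ _ (by linarith) (by linarith)).trans (ENNReal.ofReal_le_ofReal ?_)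
      have e1 : t + δ - (t - δ) = 2 * δ := by ring
      rw [e1, hK]
      refine mul_le_mul_of_nonneg_right (mul_le_mul_of_nonneg_left ?_ hC0) (by positivity)
      exact Real.rpow_le_rpow (by linarith) (by linarith) (by norm_num)
    · refine (h _ _ (by linarith) (by linarith)).trans (ENNReal.ofReal_le_ofReal ?_)
      have e1 : t2 + δ - (t2 - δ) = 2 * δ := by ring
      rw [e1, hK]
      refine mul_le_mul_of_nonneg_right (mul_le_mul_of_nonneg_left ?_ hC0) (by positivity)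
      exact Real.rpow_le_rpow (by linarith) (by linarith) (by norm_num)
  · have h7 : ∀ᶠ k in atTop, |ts k - t| < δ / (1 + d) := by
      have := Metric.tendsto_nhds.1 hts (δ / (1 + d)) (by positivity)
      simpa [Real.dist_eq] using this
    filter_upwards [h7] with k hk
    have h8 : |ts k - t| < δ := lt_of_lt_of_le hk (div_le_self hδ0.le (by linarith))
    have h9 : |(1 + d) * ts k - t2| < δ := by
      rw [ht2, ← mul_sub, abs_mul, abs_of_pos (by linarith : (0 : ℝ) < 1 + d)]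
      rwa [lt_div_iff₀' (by linarith)] at hk
    rw [abs_lt] at h8 h9
    ext x
    simp only [Wi, mem_diff, mem_setOf_eq, mem_union, mem_Icc, not_or, not_and, not_le]
    rw [← ht2]
    constructor
    · rintro ⟨⟨a1, a2⟩, a3, a4⟩
      refine ⟨⟨?_, ?_⟩, a3, a4⟩
      · by_contra hc
        have := a3 (by linarith)
        linarith
      · by_contra hc
        have := a4 (by linarith)
        linarith
    · rintro ⟨⟨a1, a2⟩, a3, a4⟩
      refine ⟨⟨?_, ?_⟩, a3, a4⟩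
      · by_contra hc
        have := a3 (by linarith)
        linarith
      · by_contra hc
        have := a4 (by linarith)
        linarith

/-! ### the scaled curves -/

lemma sc_norm (c : ℝ) (γ : CI) : ‖sc c γ‖ = |c| * ‖γ‖ := by
  unfold sc
  rw [norm_smul, Complex.norm_real, Real.norm_eq_abs]

lemma QK.sc_sc (a b : ℝ) (γ : CI) : sc a (sc b γ) = sc (a * b) γ := by
  unfold sc
  rw [smul_smul, ← Complex.ofReal_mul]

lemma sc_dist (c : ℝ) (γ γ' : CI) : dist (sc c γ) (sc c γ') = |c| * dist γ γ' := by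
  unfold sc
  have h : (c : ℂ) • γ - (c : ℂ) • γ' = (c : ℂ) • (γ - γ') := by
    ext u
    simp [mul_sub]
  rw [dist_eq_norm, dist_eq_norm, h, norm_smul, Complex.norm_real, Real.norm_eq_abs]

lemma QK.sc_cont (c : ℝ) : Continuous (sc c) := continuous_const_smul _

/-- a bounded function of the curve, scaled -/
noncomputable def bF (f : CI → ℝ) (hf : Continuous f) (h1 : ∀ γ, |f γ| ≤ 1) (c : ℝ) : BoundedContinuousFunction (CI × ℝ) ℝ :=
  BoundedContinuousFunction.ofNormedAddCommGroup (fun x => f (sc c x.1)) (hf.comp ((QK.sc_cont c).comp continuous_fst)) 1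
    fun x => h1 _

/-- a bounded function of the curve -/
noncomputable def bf (f : CI → ℝ) (hf : Continuous f) (h1 : ∀ γ, |f γ| ≤ 1) : BoundedContinuousFunction CI ℝ :=
  BoundedContinuousFunction.ofNormedAddCommGroup f hf 1 fun x => h1 _

/-- the inequality of `WinN` for fixed constants -/
def WinI (ε d Lam : ℝ) : Prop := ∃ n0 : ℕ, ∀ n : ℕ, n0 ≤ n → ∀ f : CI → ℝ, LipschitzWith 1 f → (∀ γ, |f γ| ≤ 1) →
    |∫ x, {x : CI × ℝ | (n : ℝ) / (Lam * size n) ^ (4 / 3 : ℝ) ≤ x.2 ∧ x.2 < (1 + d) * n / (Lam * size n) ^ (4 / 3 : ℝ)}.indicator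
        (fun x => f (sc Lam x.1)) x ∂(cl (Lam * size n)) -
      (cl (Lam * size n) {x | (n : ℝ) / (Lam * size n) ^ (4 / 3 : ℝ) ≤ x.2 ∧
        x.2 < (1 + d) * n / (Lam * size n) ^ (4 / 3 : ℝ)}).toReal * ∫ γ, f γ ∂(law n)| ≤
    ε * (cl (Lam * size n) {x | (n : ℝ) / (Lam * size n) ^ (4 / 3 : ℝ) ≤ x.2 ∧
        x.2 < (1 + d) * n / (Lam * size n) ^ (4 / 3 : ℝ)}).toReal

/-- the integral over the window of `M` -/
noncomputable def Im (M : Measure (CI × ℝ)) (t d Lam : ℝ) (f : CI → ℝ) : ℝ := ∫ x in Wi t d, f (sc Lam x.1) ∂M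

/-- `WinN` in the limit -/
theorem lim_ineq (hP : ClPr) {M : Measure (CI × ℝ)} [IsProbabilityMeasure M] {φ : ℕ → ℕ}
    (hM : ∀ σ : ℝ, 0 < σ → ClTo (fun k => σ * size (φ k)) M) {C : ℝ} (hC0 : 0 ≤ C) (hC : TD M C) {ε d Lam : ℝ} (hd : 0 < d)
    (hL : 0 < Lam) (hW : WinI ε d Lam) (hφ : Tendsto φ atTop atTop) {ν : Measure CI} (hl : LawTo φ ν) {θ : ℝ}
    (hθ0 : 0 < θ) (hθ : Tendsto (fun k => (φ k : ℝ) / size (φ k) ^ (4 / 3 : ℝ)) atTop (𝓝 θ)) {f : CI → ℝ}
    (hf : LipschitzWith 1 f) (hf1 : ∀ γ, |f γ| ≤ 1) :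
    |Im M (θ / Lam ^ (4 / 3 : ℝ)) d Lam f - (M (Wi (θ / Lam ^ (4 / 3 : ℝ)) d)).toReal * ∫ γ, f γ ∂ν| ≤
      ε * (M (Wi (θ / Lam ^ (4 / 3 : ℝ)) d)).toReal := by
  obtain ⟨n0, hn0⟩ := hW
  obtain ⟨N, hN⟩ := eventually_atTop.1 (hφ.eventually_ge_atTop (max n0 1))
  obtain ⟨φ', hφ'⟩ : ∃ φ' : ℕ → ℕ, φ' = fun k => φ (k + N) := ⟨_, rfl⟩
  have hge : ∀ k, n0 ≤ φ' k ∧ 1 ≤ φ' k := fun k => by
    have := hN (k + N) (by omega)
    rw [hφ']
    exact ⟨(le_max_left _ _).trans this, (le_max_right _ _).trans this⟩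
  have hφ'' : Tendsto φ' atTop atTop := by
    rw [hφ']
    exact hφ.comp (tendsto_add_atTop_nat N)
  have hsz : ∀ k, 0 < size (φ' k) := fun k => NTSF.size_pos (hge k).2
  obtain ⟨r, hr⟩ : ∃ r : ℕ → ℝ, r = fun k => Lam * size (φ' k) := ⟨_, rfl⟩
  have hr0 : ∀ k, 0 < r k := fun k => by rw [hr]; exact mul_pos hL (hsz k)
  have hprob : ∀ k, IsProbabilityMeasure (cl (r k)) := fun k => (hP (r k) (hr0 k)).1
  have hw : WTo (fun k => cl (r k)) M := by
    intro g
    have := ((hM Lam hL) g).comp (tendsto_add_atTop_nat N)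
    rw [hr, hφ']
    exact this
  obtain ⟨t, ht⟩ : ∃ t, t = θ / Lam ^ (4 / 3 : ℝ) := ⟨_, rfl⟩
  have hLp : 0 < Lam ^ (4 / 3 : ℝ) := Real.rpow_pos_of_pos hL _
  have ht0 : 0 < t := by rw [ht]; positivity
  obtain ⟨ts, hts⟩ : ∃ ts : ℕ → ℝ, ts = fun k => (φ' k : ℝ) / (r k) ^ (4 / 3 : ℝ) := ⟨_, rfl⟩
  have htt : Tendsto ts atTop (𝓝 t) := by
    have h1 : Tendsto (fun k => ((φ' k : ℝ) / size (φ' k) ^ (4 / 3 : ℝ)) / Lam ^ (4 / 3 : ℝ)) atTop (𝓝 t) := by
      rw [ht]
      have h2 := hθ.comp (tendsto_add_atTop_nat N)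
      rw [hφ']
      exact h2.div_const _
    refine h1.congr fun k => ?_
    rw [hts, hr]
    simp only
    rw [Real.mul_rpow hL.le (hsz k).le, div_div, mul_comm (size (φ' k) ^ (4 / 3 : ℝ))]
  have hfr := hC.front hC0 ht0 hd
  have hmov := fun ε hε => hC.mov hC0 ht0 hd htt ε hε
  have h1 := WTo.mov hw hfr hmov (bF f hf.continuous hf1 Lam)
  have h2 := WTo.mov hw hfr hmov (bF (fun _ => 1) continuous_const (fun _ => by simp) 1)
  have e2 : ∀ (μ : Measure (CI × ℝ)) [IsProbabilityMeasure μ] (E : Set (CI × ℝ)),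
      ∫ x in E, bF (fun _ => 1) continuous_const (fun _ => by simp) 1 x ∂μ = (μ E).toReal := by
    intro μ _ E
    have : ∀ x : CI × ℝ, bF (fun _ => 1) continuous_const (fun _ => by simp) 1 x = 1 := fun _ => rfl
    simp only [this]
    rw [setIntegral_const, smul_eq_mul, mul_one]
    rfl
  have h2' : Tendsto (fun k => (cl (r k) (Wi (ts k) d)).toReal) atTop (𝓝 (M (Wi t d)).toReal) := by
    rw [← e2 M]
    refine h2.congr fun k => ?_
    haveI := hprob k
    exact e2 (cl (r k)) _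
  have h3 : Tendsto (fun k => ∫ γ, f γ ∂(law (φ' k))) atTop (𝓝 (∫ γ, f γ ∂ν)) := by
    have := (hl (bf f hf.continuous hf1)).comp (tendsto_add_atTop_nat N)
    rw [hφ']
    exact this
  have h4 : Tendsto (fun k => |∫ x in Wi (ts k) d, bF f hf.continuous hf1 Lam x ∂(cl (r k)) -
      (cl (r k) (Wi (ts k) d)).toReal * ∫ γ, f γ ∂(law (φ' k))|) atTop
      (𝓝 |∫ x in Wi t d, bF f hf.continuous hf1 Lam x ∂M - (M (Wi t d)).toReal * ∫ γ, f γ ∂ν|) :=
    (h1.sub (h2'.mul h3)).abs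
  have h5 := h2'.const_mul ε
  rw [← ht]
  refine le_of_tendsto_of_tendsto' h4 h5 fun k => ?_
  have h6 := hn0 (φ' k) (hge k).1 f hf hf1
  have e3 : {x : CI × ℝ | (φ' k : ℝ) / (Lam * size (φ' k)) ^ (4 / 3 : ℝ) ≤ x.2 ∧
      x.2 < (1 + d) * (φ' k) / (Lam * size (φ' k)) ^ (4 / 3 : ℝ)} = Wi (ts k) d := by
    rw [hts, hr]
    unfold Wi
    simp only [mul_div_assoc]
  rw [e3, integral_indicator (Wi_meas _ _)] at h6
  have e4 : Lam * size (φ' k) = r k := by rw [hr]
  rw [e4] at h6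
  exact h6

/-- the window inequality for `M` -/
def LI (M : Measure (CI × ℝ)) (ν : Measure CI) (ϑ : ℝ) : Prop := ∀ ε d Lam : ℝ, 0 < d → 0 < Lam → WinI ε d Lam →
  ∀ f : CI → ℝ, LipschitzWith 1 f → (∀ γ, |f γ| ≤ 1) →
    |Im M (ϑ / Lam ^ (4 / 3 : ℝ)) d Lam f - (M (Wi (ϑ / Lam ^ (4 / 3 : ℝ)) d)).toReal * ∫ γ, f γ ∂ν| ≤
      ε * (M (Wi (ϑ / Lam ^ (4 / 3 : ℝ)) d)).toReal

/-- the unit of time -/
lemma unit_pre {c : ℝ} (hc : 0 < c) (t d : ℝ) : (fun x : CI × ℝ => (x.1, c * x.2)) ⁻¹' Wi t d = Wi (t / c) d := by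
  ext x
  simp only [Wi, mem_preimage, mem_setOf_eq]
  rw [div_le_iff₀ hc, ← mul_div_assoc, lt_div_iff₀ hc, mul_comm x.2]

lemma unit_meas (c : ℝ) : Measurable fun x : CI × ℝ => (x.1, c * x.2) :=
  (continuous_fst.prodMk (continuous_const.mul continuous_snd)).measurable

theorem lI_of (hP : ClPr) {M : Measure (CI × ℝ)} [IsProbabilityMeasure M] {φ : ℕ → ℕ} {c : ℝ} (hc : 0 < c)
    (hM : ∀ σ : ℝ, 0 < σ → ClTo (fun k => σ * size (φ k)) (M.map fun x => (x.1, c * x.2))) {C : ℝ} (hC0 : 0 ≤ C)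
    (hC : TD (M.map fun x => (x.1, c * x.2)) C) (hφ : Tendsto φ atTop atTop) {ν : Measure CI} (hl : LawTo φ ν) {θ : ℝ}
    (hθ0 : 0 < θ) (hθ : Tendsto (fun k => (φ k : ℝ) / size (φ k) ^ (4 / 3 : ℝ)) atTop (𝓝 θ)) : LI M ν (θ / c) := by
  intro ε d Lam hd hL hW f hf hf1
  haveI : IsProbabilityMeasure (M.map fun x : CI × ℝ => (x.1, c * x.2)) :=
    Measure.isProbabilityMeasure_map (unit_meas c).aemeasurable
  have h1 := lim_ineq hP hM hC0 hC hd hL hW hφ hl hθ0 hθ hf hf1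
  have e1 : ∀ t, (M.map fun x : CI × ℝ => (x.1, c * x.2)) (Wi t d) = M (Wi (t / c) d) := fun t => by
    rw [Measure.map_apply (unit_meas c) (Wi_meas _ _), unit_pre hc]
  have e2 : ∀ t, Im (M.map fun x : CI × ℝ => (x.1, c * x.2)) t d Lam f = Im M (t / c) d Lam f := fun t => by
    unfold Im
    have hg : Continuous fun x : CI × ℝ => f (sc Lam x.1) := hf.continuous.comp ((QK.sc_cont Lam).comp continuous_fst)
    rw [setIntegral_map (f := fun x : CI × ℝ => f (sc Lam x.1)) (Wi_meas _ _) hg.aestronglyMeasurable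
      (unit_meas c).aemeasurable, unit_pre hc]
  rw [e1, e2] at h1
  have e3 : θ / Lam ^ (4 / 3 : ℝ) / c = θ / c / Lam ^ (4 / 3 : ℝ) := by ring
  rw [e3] at h1
  exact h1

/-- restriction to a smaller ball -/
theorem res_int {M : Measure (CI × ℝ)} (hR : ∀ lam : ℝ, 0 < lam → lam < 1 →
      (M.restrict {x | ‖x.1‖ < lam}).map (fun x => (sc (1 / lam) x.1, x.2 / lam ^ (4 / 3 : ℝ))) =
      ENNReal.ofReal (lam ^ (43 / 24 : ℝ)) • M) {lam t d Lam : ℝ} (h0 : 0 < lam) (h1 : lam < 1) {f : CI → ℝ}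
    (hf : Continuous f) :
    lam ^ (43 / 24 : ℝ) * Im M (t / lam ^ (4 / 3 : ℝ)) d Lam f =
      ∫ x in Wi t d ∩ {x | ‖x.1‖ < lam}, f (sc (Lam / lam) x.1) ∂M := by
  have hlp : 0 < lam ^ (4 / 3 : ℝ) := Real.rpow_pos_of_pos h0 _
  obtain ⟨T, hT⟩ : ∃ T : CI × ℝ → CI × ℝ, T = fun x => (sc (1 / lam) x.1, x.2 / lam ^ (4 / 3 : ℝ)) := ⟨_, rfl⟩
  have hTc : Continuous T := by
    rw [hT]
    exact ((QK.sc_cont _).comp continuous_fst).prodMk (continuous_snd.div_const _)
  have hR' : (M.restrict {x | ‖x.1‖ < lam}).map T = ENNReal.ofReal (lam ^ (43 / 24 : ℝ)) • M := by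
    rw [hT]
    exact hR lam h0 h1
  have hS : MeasurableSet {x : CI × ℝ | ‖x.1‖ < lam} := (isOpen_lt (continuous_norm.comp continuous_fst) continuous_const).measurableSet
  have e1 : ∫ x in Wi (t / lam ^ (4 / 3 : ℝ)) d, f (sc Lam x.1) ∂((M.restrict {x | ‖x.1‖ < lam}).map T) =
      lam ^ (43 / 24 : ℝ) * Im M (t / lam ^ (4 / 3 : ℝ)) d Lam f := by
    rw [hR', Measure.restrict_smul, integral_smul_measure, ENNReal.toReal_ofReal (by positivity), smul_eq_mul]
    rfl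
  have hg : Continuous fun x : CI × ℝ => f (sc Lam x.1) := hf.comp ((QK.sc_cont Lam).comp continuous_fst)
  rw [← e1, setIntegral_map (f := fun x : CI × ℝ => f (sc Lam x.1)) (Wi_meas _ _) hg.aestronglyMeasurable
    hTc.measurable.aemeasurable, Measure.restrict_restrict (hTc.measurable (Wi_meas _ _))]
  have e2 : T ⁻¹' Wi (t / lam ^ (4 / 3 : ℝ)) d = Wi t d := by
    ext x
    rw [hT]
    simp only [Wi, mem_preimage, mem_setOf_eq]
    rw [div_le_div_iff_of_pos_right hlp, ← mul_div_assoc, div_lt_div_iff_of_pos_right hlp]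
  rw [e2]
  refine integral_congr_ae (Eventually.of_forall fun x => ?_)
  rw [hT]
  simp only
  rw [QK.sc_sc, mul_one_div]

/-- a cutoff of the norm -/
noncomputable def chN (A : ℝ) (γ : CI) : ℝ := min 1 (max 0 (‖γ‖ - A))

lemma chN_01 (A : ℝ) (γ : CI) : 0 ≤ chN A γ ∧ chN A γ ≤ 1 := ⟨le_min zero_le_one (le_max_left _ _), min_le_left _ _⟩

lemma chN_lip (A : ℝ) : LipschitzWith 1 (chN A) := by
  have h1 : LipschitzWith 1 fun γ : CI => ‖γ‖ - A := by
    refine LipschitzWith.of_dist_le_mul fun x y => ?_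
    rw [Real.dist_eq, dist_eq_norm, NNReal.coe_one, one_mul]
    have : ‖x‖ - A - (‖y‖ - A) = ‖x‖ - ‖y‖ := by ring
    rw [this]
    exact abs_norm_sub_norm_le x y
  exact (h1.const_max 0).const_min 1

lemma chN_tend {ν : Measure CI} [IsProbabilityMeasure ν] : Tendsto (fun A : ℝ => ∫ γ, chN A γ ∂ν) atTop (𝓝 0) := by
  have h1 : Tendsto (fun A : ℝ => ∫ γ, chN A γ ∂ν) atTop (𝓝 (∫ _γ : CI, (0 : ℝ) ∂ν)) := by
    refine tendsto_integral_filter_of_dominated_convergence (fun _ => 1) ?_ ?_ (integrable_const 1) ?_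
    · exact Eventually.of_forall fun A => (chN_lip A).continuous.aestronglyMeasurable
    · refine Eventually.of_forall fun A => Eventually.of_forall fun γ => ?_
      rw [Real.norm_eq_abs, abs_of_nonneg (chN_01 A γ).1]
      exact (chN_01 A γ).2
    · refine Eventually.of_forall fun γ => ?_
      refine tendsto_const_nhds.congr' ?_
      filter_upwards [eventually_ge_atTop ‖γ‖] with A hA
      unfold chN
      rw [max_eq_left (by linarith), min_eq_right zero_le_one]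
  simpa using h1

/-- **two weak limits of the laws of `X_n` differ by a scaling** -/
theorem key (hW : WinN) {M : Measure (CI × ℝ)} [IsProbabilityMeasure M]
    (hR : ∀ lam : ℝ, 0 < lam → lam < 1 →
      (M.restrict {x | ‖x.1‖ < lam}).map (fun x => (sc (1 / lam) x.1, x.2 / lam ^ (4 / 3 : ℝ))) =
      ENNReal.ofReal (lam ^ (43 / 24 : ℝ)) • M)
    {t0 : ℝ} (ht0 : 0 < t0) (hpos : ∀ a b : ℝ, 0 < a → a < b → b ≤ t0 → 0 < M {x | x.2 ∈ Ioo a b}) {ν ν' : Measure CI}
    [hν : IsProbabilityMeasure ν] [hν' : IsProbabilityMeasure ν'] {θ θ' : ℝ} (hθ0 : 0 < θ) (hθ0' : 0 < θ')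
    (hI : LI M ν θ) (hI' : LI M ν' θ') :
    ν' = ν.map (sc ((θ' / θ) ^ (3 / 4 : ℝ))) := by
  obtain ⟨s, hs⟩ : ∃ s, s = (θ' / θ) ^ (3 / 4 : ℝ) := ⟨_, rfl⟩
  have hs0 : 0 < s := by rw [hs]; positivity
  have hs43 : s ^ (4 / 3 : ℝ) = θ' / θ := by
    rw [hs, ← Real.rpow_mul (by positivity)]
    norm_num
  rw [← hs]
  have hmap : IsProbabilityMeasure (ν.map (sc s)) := Measure.isProbabilityMeasure_map (QK.sc_cont s).measurable.aemeasurable
  have hmain : (⟨ν', hν'⟩ : ProbabilityMeasure CI) = ⟨ν.map (sc s), hmap⟩ := by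
    refine NTSF.eq_of_lip fun f hf01 ⟨Lf, hLf⟩ => ?_
    show ∫ z, f z ∂ν' = ∫ z, f z ∂(ν.map (sc s))
    rw [integral_map (QK.sc_cont s).measurable.aemeasurable hLf.continuous.aestronglyMeasurable]
    -- the constant
    obtain ⟨K, hK⟩ : ∃ K : ℝ, K = 1 + Lf + Lf * s := ⟨_, rfl⟩
    have hK1 : 1 ≤ K := by
      rw [hK]
      have := Lf.coe_nonneg
      have : 0 ≤ (Lf : ℝ) * s := by positivity
      linarith
    have hK0 : 0 < K := by linarith
    have hlip : ∀ g : CI → ℝ, (∀ x y, |g x - g y| ≤ K * dist x y) → (∀ x, |g x| ≤ 1) →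
        LipschitzWith 1 (fun x => g x / K) ∧ ∀ x, |g x / K| ≤ 1 := by
      intro g h1 h2
      refine ⟨LipschitzWith.of_dist_le_mul fun x y => ?_, fun x => ?_⟩
      · rw [Real.dist_eq, NNReal.coe_one, one_mul, ← sub_div, abs_div, abs_of_pos hK0, div_le_iff₀ hK0, mul_comm]
        exact h1 x y
      · rw [abs_div, abs_of_pos hK0, div_le_one hK0]
        exact (h2 x).trans hK1
    have hfK : ∀ x y, |f x - f y| ≤ K * dist x y := by
      intro x y
      have h1 := hLf.dist_le_mul x y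
      rw [Real.dist_eq] at h1
      refine h1.trans (mul_le_mul_of_nonneg_right ?_ dist_nonneg)
      rw [hK]
      have : 0 ≤ (Lf : ℝ) * s := by positivity
      linarith
    have hfsK : ∀ x y, |f (sc s x) - f (sc s y)| ≤ K * dist x y := by
      intro x y
      have h1 := hLf.dist_le_mul (sc s x) (sc s y)
      rw [Real.dist_eq, sc_dist, abs_of_pos hs0, ← mul_assoc] at h1
      refine h1.trans (mul_le_mul_of_nonneg_right ?_ dist_nonneg)
      rw [hK]
      have := Lf.coe_nonneg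
      linarith
    have hfa : ∀ x, |f x| ≤ 1 := fun x => by
      rw [abs_of_nonneg (hf01 x).1]
      exact (hf01 x).2
    have hfs : Continuous fun γ => f (sc s γ) := hLf.continuous.comp (QK.sc_cont s)
    -- the estimate
    have hest : ∀ ε : ℝ, 0 < ε → |∫ γ, f (sc s γ) ∂ν - ∫ γ, f γ ∂ν'| ≤ (2 * K + 4) * ε := by
      intro ε hε
      obtain ⟨d, hd, hWd⟩ := hW ε hε
      obtain ⟨L0, hL0, hWL⟩ := hWd d hd le_rfl
      have hpow : Tendsto (fun Lam : ℝ => Lam ^ (4 / 3 : ℝ)) atTop atTop := tendsto_rpow_atTop (by norm_num)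
      have ev1 : ∀ᶠ Lam : ℝ in atTop, (1 + d) * θ / t0 ≤ Lam ^ (4 / 3 : ℝ) := hpow.eventually_ge_atTop _
      have ev2 : ∀ᶠ Lam : ℝ in atTop, ∫ γ, chN (1 / 2 * Lam - 1) γ ∂ν ≤ ε := by
        have h1 : Tendsto (fun Lam : ℝ => 1 / 2 * Lam - 1) atTop atTop :=
          tendsto_atTop_add_const_right _ _ (tendsto_id.const_mul_atTop (by norm_num))
        exact ((chN_tend (ν := ν)).comp h1).eventually_le_const hε
      have ev3 : ∀ᶠ Lam : ℝ in atTop, L0 ≤ 1 / 2 * s * Lam :=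
        (tendsto_id.const_mul_atTop (by positivity : (0 : ℝ) < 1 / 2 * s)).eventually_ge_atTop _
      obtain ⟨Lam, hL1, hL2, hL3, hL4⟩ := ((eventually_ge_atTop L0).and (ev1.and (ev2.and ev3))).exists
      have hLam : 0 < Lam := lt_of_lt_of_le hL0 hL1
      obtain ⟨Lam', hLam'⟩ : ∃ Lam', Lam' = 1 / 2 * s * Lam := ⟨_, rfl⟩
      have hLam'0 : 0 < Lam' := by rw [hLam']; positivity
      rw [← hLam'] at hL4
      obtain ⟨t, ht⟩ : ∃ t, t = θ / Lam ^ (4 / 3 : ℝ) := ⟨_, rfl⟩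
      have hLp : 0 < Lam ^ (4 / 3 : ℝ) := Real.rpow_pos_of_pos hLam _
      have htpos : 0 < t := by rw [ht]; positivity
      have hhalf : (0 : ℝ) < (1 / 2) ^ (4 / 3 : ℝ) := by positivity
      have ht' : θ' / Lam' ^ (4 / 3 : ℝ) = t / (1 / 2) ^ (4 / 3 : ℝ) := by
        rw [hLam', Real.mul_rpow (by positivity) hLam.le, Real.mul_rpow (by norm_num) hs0.le, hs43, ht]
        field_simp
      obtain ⟨m, hm⟩ : ∃ m, m = (M (Wi t d)).toReal := ⟨_, rfl⟩
      have hm0 : 0 < m := by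
        rw [hm]
        refine ENNReal.toReal_pos ?_ (measure_ne_top _ _)
        have h1 : (1 + d) * t ≤ t0 := by
          rw [ht, ← mul_div_assoc, div_le_iff₀ hLp]
          rw [div_le_iff₀ ht0] at hL2
          linarith
        have h2 := hpos t ((1 + d) * t) htpos (by nlinarith) h1
        have h3 : {x : CI × ℝ | x.2 ∈ Ioo t ((1 + d) * t)} ⊆ Wi t d := fun x hx => ⟨hx.1.le, hx.2⟩
        exact (lt_of_lt_of_le h2 (measure_mono h3)).ne'
      obtain ⟨m', hm'⟩ : ∃ m', m' = (M (Wi (t / (1 / 2) ^ (4 / 3 : ℝ)) d)).toReal := ⟨_, rfl⟩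
      have hm'0 : 0 ≤ m' := by rw [hm']; exact ENNReal.toReal_nonneg
      -- the two windows
      have hA : ∀ g : CI → ℝ, (∀ x y, |g x - g y| ≤ K * dist x y) → (∀ x, |g x| ≤ 1) →
          |Im M t d Lam g - m * ∫ γ, g γ ∂ν| ≤ ε * K * m := by
        intro g h1 h2
        obtain ⟨h3, h4⟩ := hlip g h1 h2
        have h5 := hI ε d Lam hd hLam (hWL Lam hL1) _ h3 h4
        rw [← ht, ← hm] at h5
        have e1 : Im M t d Lam (fun x => g x / K) = Im M t d Lam g / K := by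
          unfold Im
          exact integral_div _ _
        rw [e1, integral_div, ← mul_div_assoc, ← sub_div, abs_div, abs_of_pos hK0, div_le_iff₀ hK0] at h5
        linarith
      have hB : |Im M (t / (1 / 2) ^ (4 / 3 : ℝ)) d Lam' f - m' * ∫ γ, f γ ∂ν'| ≤ ε * K * m' := by
        obtain ⟨h3, h4⟩ := hlip f hfK hfa
        have h5 := hI' ε d Lam' hd hLam'0 (hWL Lam' hL4) _ h3 h4
        rw [ht', ← hm'] at h5
        have e1 : Im M (t / (1 / 2) ^ (4 / 3 : ℝ)) d Lam' (fun x => f x / K) = Im M (t / (1 / 2) ^ (4 / 3 : ℝ)) d Lam' f / K := by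
          unfold Im
          exact integral_div _ _
        rw [e1, integral_div, ← mul_div_assoc, ← sub_div, abs_div, abs_of_pos hK0, div_le_iff₀ hK0] at h5
        linarith
      obtain ⟨p, hp⟩ : ∃ p : ℝ, p = (1 / 2 : ℝ) ^ (43 / 24 : ℝ) := ⟨_, rfl⟩
      have hp0 : 0 < p := by rw [hp]; positivity
      obtain ⟨Bs, hBs⟩ : ∃ Bs : Set (CI × ℝ), Bs = {x | ‖x.1‖ < 1 / 2} := ⟨_, rfl⟩
      have hBm : MeasurableSet Bs := by
        rw [hBs]
        exact (isOpen_lt (continuous_norm.comp continuous_fst) continuous_const).measurableSet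
      obtain ⟨e, he⟩ : ∃ e, e = (M (Wi t d \ Bs)).toReal := ⟨_, rfl⟩
      have he0 : 0 ≤ e := by rw [he]; exact ENNReal.toReal_nonneg
      have hcut : m = (M (Wi t d ∩ Bs)).toReal + e := by
        rw [hm, he, ← ENNReal.toReal_add (measure_ne_top _ _) (measure_ne_top _ _), measure_inter_add_diff _ hBm]
      have hcts : ∀ {g : CI → ℝ}, Continuous g → (∀ x, |g x| ≤ 1) → ∀ c : ℝ, Integrable (fun x : CI × ℝ => g (sc c x.1)) M := by
        intro g hg h1 c
        refine Integrable.of_bound (hg.comp ((QK.sc_cont c).comp continuous_fst)).aestronglyMeasurable 1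
          (Eventually.of_forall fun x => ?_)
        rw [Real.norm_eq_abs]
        exact h1 _
      have hE : e ≤ 2 * ε * m := by
        have h1 : e ≤ Im M t d Lam (chN (1 / 2 * Lam - 1)) := by
          have h2 : ∫ x in Wi t d \ Bs, (1 : ℝ) ∂M ≤ ∫ x in Wi t d, chN (1 / 2 * Lam - 1) (sc Lam x.1) ∂M := by
            have h3 : ∫ x in Wi t d \ Bs, (1 : ℝ) ∂M ≤ ∫ x in Wi t d \ Bs, chN (1 / 2 * Lam - 1) (sc Lam x.1) ∂M := by
              refine setIntegral_mono_on (integrable_const _).integrableOn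
                ((hcts (chN_lip _).continuous (fun x => by
                  rw [abs_of_nonneg (chN_01 _ x).1]
                  exact (chN_01 _ x).2) Lam).integrableOn) ((Wi_meas _ _).diff hBm) fun x hx => ?_
              have h4 : 1 / 2 ≤ ‖x.1‖ := by
                have := hx.2
                rw [hBs] at this
                exact not_lt.1 this
              unfold chN
              rw [sc_norm, abs_of_pos hLam]
              refine le_min le_rfl (le_max_of_le_right ?_)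
              nlinarith
            refine h3.trans (setIntegral_mono_set ((hcts (chN_lip _).continuous (fun x => by
                  rw [abs_of_nonneg (chN_01 _ x).1]
                  exact (chN_01 _ x).2) Lam).integrableOn) (Eventually.of_forall fun x => (chN_01 _ _).1)
                  (Eventually.of_forall fun x hx => hx.1))
          rw [setIntegral_const, smul_eq_mul, mul_one] at h2
          rw [he]
          exact h2
        obtain ⟨h5, h6⟩ : LipschitzWith 1 (chN (1 / 2 * Lam - 1)) ∧ ∀ x, |chN (1 / 2 * Lam - 1) x| ≤ 1 :=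
          ⟨chN_lip _, fun x => by
            rw [abs_of_nonneg (chN_01 _ x).1]
            exact (chN_01 _ x).2⟩
        have h7 := hI ε d Lam hd hLam (hWL Lam hL1) _ h5 h6
        rw [← ht, ← hm] at h7
        have h8 := (abs_le.1 h7).2
        have h9 : m * ∫ γ, chN (1 / 2 * Lam - 1) γ ∂ν ≤ m * ε := mul_le_mul_of_nonneg_left hL3 hm0.le
        linarith
      -- restriction
      have hq : Lam' / (1 / 2) = s * Lam := by
        rw [hLam']
        ring
      have hres := res_int hR (t := t) (d := d) (Lam := Lam') (by norm_num : (0 : ℝ) < 1 / 2) (by norm_num) hLf.continuous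
      rw [hq, ← hp, ← hBs] at hres
      have hres1 := res_int hR (t := t) (d := d) (Lam := Lam') (by norm_num : (0 : ℝ) < 1 / 2) (by norm_num)
        (continuous_const : Continuous fun _ : CI => (1 : ℝ))
      rw [← hp, ← hBs] at hres1
      have hone : p * m' = m - e := by
        have e1 : Im M (t / (1 / 2) ^ (4 / 3 : ℝ)) d Lam' (fun _ => 1) = m' := by
          unfold Im
          rw [setIntegral_const, smul_eq_mul, mul_one, hm']
          rfl
        rw [e1, setIntegral_const, smul_eq_mul, mul_one] at hres1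
        rw [hres1, hcut]
        simp [Measure.real]
      have hsplit : |Im M t d Lam (fun γ => f (sc s γ)) - p * Im M (t / (1 / 2) ^ (4 / 3 : ℝ)) d Lam' f| ≤ e := by
        have e1 : Im M t d Lam (fun γ => f (sc s γ)) = ∫ x in Wi t d ∩ Bs, f (sc (s * Lam) x.1) ∂M +
            ∫ x in Wi t d \ Bs, f (sc (s * Lam) x.1) ∂M := by
          rw [integral_inter_add_diff hBm ((hcts hLf.continuous hfa (s * Lam)).integrableOn)]
          unfold Im
          simp only [QK.sc_sc]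
        rw [e1, hres, add_sub_cancel_left]
        have h1 := norm_setIntegral_le_of_norm_le_const (μ := M) (s := Wi t d \ Bs)
          (f := fun x : CI × ℝ => f (sc (s * Lam) x.1)) (C := 1) (measure_lt_top _ _) fun x _ => hfa _
        rw [one_mul] at h1
        rw [he]
        exact h1
      have h1 := hA (fun γ => f (sc s γ)) hfsK fun x => hfa _
      have hint' : |∫ γ, f γ ∂ν'| ≤ 1 := by
        have := norm_integral_le_of_norm_le_const (μ := ν') (f := f) (C := 1) (Eventually.of_forall hfa)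
        simpa using this
      have h2 : |m * ∫ γ, f (sc s γ) ∂ν - m * ∫ γ, f γ ∂ν'| ≤ (2 * K + 4) * ε * m := by
        obtain ⟨a1, ha1⟩ : ∃ a1, a1 = ∫ γ, f (sc s γ) ∂ν := ⟨_, rfl⟩
        obtain ⟨a2, ha2⟩ : ∃ a2, a2 = ∫ γ, f γ ∂ν' := ⟨_, rfl⟩
        obtain ⟨i1, hi1⟩ : ∃ i1, i1 = Im M t d Lam (fun γ => f (sc s γ)) := ⟨_, rfl⟩
        obtain ⟨i2, hi2⟩ : ∃ i2, i2 = Im M (t / (1 / 2) ^ (4 / 3 : ℝ)) d Lam' f := ⟨_, rfl⟩
        rw [← ha1, ← hi1] at h1
        rw [← ha2, ← hi2] at hB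
        rw [← hi1, ← hi2] at hsplit
        rw [← ha2] at hint'
        rw [← ha1, ← ha2]
        have h3 : p * |i2 - m' * a2| ≤ p * (ε * K * m') := mul_le_mul_of_nonneg_left hB hp0.le
        have h4 : p * (ε * K * m') ≤ ε * K * m := by
          have : p * (ε * K * m') = ε * K * (p * m') := by ring
          rw [this, hone]
          exact mul_le_mul_of_nonneg_left (by linarith) (by positivity)
        have h5 : |p * i2 - p * m' * a2| ≤ ε * K * m := by
          have : p * i2 - p * m' * a2 = p * (i2 - m' * a2) := by ring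
          rw [this, abs_mul, abs_of_pos hp0]
          exact h3.trans h4
        have h6 : |e * a2| ≤ e := by
          rw [abs_mul, abs_of_nonneg he0]
          nlinarith
        have h7 : m * a1 - m * a2 = -(i1 - m * a1) + (i1 - p * i2) + (p * i2 - p * m' * a2) - e * a2 := by
          rw [hone]
          ring
        rw [h7]
        have h8 := abs_sub (-(i1 - m * a1) + (i1 - p * i2) + (p * i2 - p * m' * a2)) (e * a2)
        have h9 := abs_add_le (-(i1 - m * a1) + (i1 - p * i2)) (p * i2 - p * m' * a2)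
        have h10 := abs_add_le (-(i1 - m * a1)) (i1 - p * i2)
        rw [abs_neg] at h10
        nlinarith
      have h3 : m * |∫ γ, f (sc s γ) ∂ν - ∫ γ, f γ ∂ν'| ≤ m * ((2 * K + 4) * ε) := by
        rw [← abs_of_pos hm0, ← abs_mul, abs_of_pos hm0, mul_sub]
        linarith
      exact le_of_mul_le_mul_left h3 hm0
    have h1 : |∫ γ, f (sc s γ) ∂ν - ∫ γ, f γ ∂ν'| ≤ 0 := by
      refine le_of_forall_pos_le_add fun η hη => ?_
      have h2 := hest (η / (2 * K + 4)) (by positivity)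
      rw [mul_div_cancel₀ _ (by positivity : (2 * K + 4) ≠ 0)] at h2
      linarith
    have h2 := abs_nonpos_iff.1 h1
    linarith
  exact congrArg (fun μ : ProbabilityMeasure CI => (μ : Measure CI)) hmain

/-- **K8f**: from the limit of the critical walks to Q1 -/
theorem qOf (hP : ClPr) (hW : WinN) (hT : ClTime) : QOf := by
  rintro M ⟨hMp, hM, hR, -⟩
  obtain ⟨⟨c, C, t0, hc, hC, ht0, hT1⟩, -⟩ := hT
  have hmp : ∀ c0 : ℝ, IsProbabilityMeasure (M.map fun x : CI × ℝ => (x.1, c0 * x.2)) := fun c0 =>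
    Measure.isProbabilityMeasure_map (unit_meas c0).aemeasurable
  obtain ⟨c1, C1, hc1, hsz, -, -, -, hsub, hlim⟩ := NTSF.finE
  have hst : Tendsto size atTop atTop := by
    have h1 : Tendsto (fun n : ℕ => c1 * (n : ℝ) ^ (3 / 4 : ℝ)) atTop atTop :=
      ((tendsto_rpow_atTop (by norm_num)).comp tendsto_natCast_atTop_atTop).const_mul_atTop hc1
    refine tendsto_atTop_mono' _ ?_ h1
    filter_upwards [eventually_ge_atTop 1] with n hn
    exact (hsz n hn).1
  -- positivity of the windows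
  obtain ⟨u0, hu0, hpos⟩ : ∃ u0 : ℝ, 0 < u0 ∧ ∀ a b : ℝ, 0 < a → a < b → b ≤ u0 → 0 < M {x | x.2 ∈ Ioo a b} := by
    obtain ⟨φ, hφ, c0, hc0, h1⟩ := hM (fun k : ℕ => (k : ℝ)) tendsto_natCast_atTop_atTop
    obtain ⟨-, -, h3⟩ := hT1 _ _ ((tendsto_natCast_atTop_atTop.comp hφ.tendsto_atTop).const_mul_atTop one_pos) (hmp c0) (h1 1 one_pos)
    refine ⟨t0 / c0, by positivity, fun a b ha hab hb => ?_⟩
    have h4 := h3 (c0 * a) (c0 * b) (by positivity) (by nlinarith) (by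
      rw [le_div_iff₀ hc0] at hb
      linarith)
    have hms : MeasurableSet {x : CI × ℝ | x.2 ∈ Ioo (c0 * a) (c0 * b)} := measurable_snd measurableSet_Ioo
    rw [Measure.map_apply (unit_meas c0) hms] at h4
    have h5 : (fun x : CI × ℝ => (x.1, c0 * x.2)) ⁻¹' {x | x.2 ∈ Ioo (c0 * a) (c0 * b)} = {x | x.2 ∈ Ioo a b} := by
      ext x
      simp only [mem_preimage, mem_setOf_eq, mem_Ioo]
      rw [mul_lt_mul_iff_right₀ hc0, mul_lt_mul_iff_right₀ hc0]
    rw [h5] at h4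
    refine lt_of_lt_of_le ?_ h4
    rw [ENNReal.ofReal_pos]
    have : 0 < c0 * b - c0 * a := by nlinarith
    positivity
  -- the limits of the normalisation
  have hθb : ∀ n : ℕ, 1 ≤ n → (n : ℝ) / size n ^ (4 / 3 : ℝ) ∈ Icc ((C1 ^ (4 / 3 : ℝ))⁻¹) ((c1 ^ (4 / 3 : ℝ))⁻¹) := by
    intro n hn
    obtain ⟨h1, h2⟩ := hsz n hn
    have hn0 : (0 : ℝ) < n := by exact_mod_cast hn
    have hs := NTSF.size_pos hn
    have hC1 : 0 < C1 := by
      by_contra hcon
      have h3 : C1 * (n : ℝ) ^ (3 / 4 : ℝ) ≤ 0 := mul_nonpos_of_nonpos_of_nonneg (not_lt.1 hcon) (by positivity)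
      linarith
    have e1 : ((n : ℝ) ^ (3 / 4 : ℝ)) ^ (4 / 3 : ℝ) = n := by
      rw [← Real.rpow_mul hn0.le]
      norm_num
    have h3 : c1 ^ (4 / 3 : ℝ) * n ≤ size n ^ (4 / 3 : ℝ) := by
      have h5 : (c1 * (n : ℝ) ^ (3 / 4 : ℝ)) ^ (4 / 3 : ℝ) ≤ size n ^ (4 / 3 : ℝ) :=
        Real.rpow_le_rpow (by positivity) h1 (by norm_num)
      rwa [Real.mul_rpow hc1.le (by positivity), e1] at h5
    have h4 : size n ^ (4 / 3 : ℝ) ≤ C1 ^ (4 / 3 : ℝ) * n := by
      have h5 : size n ^ (4 / 3 : ℝ) ≤ (C1 * (n : ℝ) ^ (3 / 4 : ℝ)) ^ (4 / 3 : ℝ) := Real.rpow_le_rpow hs.le h2 (by norm_num)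
      rwa [Real.mul_rpow hC1.le (by positivity), e1] at h5
    have hsp : 0 < size n ^ (4 / 3 : ℝ) := Real.rpow_pos_of_pos hs _
    constructor
    · rw [inv_eq_one_div, div_le_div_iff₀ (by positivity) hsp]
      linarith
    · rw [inv_eq_one_div, div_le_div_iff₀ hsp (by positivity)]
      linarith
  have hc1p : 0 < (c1 ^ (4 / 3 : ℝ))⁻¹ := by positivity
  have hC1p : 0 < (C1 ^ (4 / 3 : ℝ))⁻¹ := by
    have h1 := (hsz 1 le_rfl)
    have h2 : 0 < C1 := by
      have h3 := h1.1.trans h1.2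
      simp only [Nat.cast_one, Real.one_rpow, mul_one] at h3
      linarith
    positivity
  have hθs : ∀ φ : ℕ → ℕ, Tendsto φ atTop atTop → ∃ ψ : ℕ → ℕ, StrictMono ψ ∧ ∃ θ : ℝ, 0 < θ ∧
      Tendsto (fun k => (φ (ψ k) : ℝ) / size (φ (ψ k)) ^ (4 / 3 : ℝ)) atTop (𝓝 θ) := by
    intro φ hφ
    obtain ⟨N, hN⟩ := eventually_atTop.1 (hφ.eventually_ge_atTop 1)
    obtain ⟨θ, hθ, ψ, hψ, hlimθ⟩ := isCompact_Icc.tendsto_subseq (x := fun k => (φ (k + N) : ℝ) / size (φ (k + N)) ^ (4 / 3 : ℝ))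
      (fun k => hθb _ (hN (k + N) (by omega)))
    exact ⟨fun k => ψ k + N, fun a b hab => Nat.add_lt_add_right (hψ hab) N, θ, lt_of_lt_of_le hC1p hθ.1, hlimθ⟩
  -- two limits are equal
  have huniq : ∀ (φ φ' : ℕ → ℕ) (ν ν' : Measure CI), Tendsto φ atTop atTop → Tendsto φ' atTop atTop →
      IsProbabilityMeasure ν → IsProbabilityMeasure ν' → LawTo φ ν → LawTo φ' ν' → ν' = ν := by
    intro φ φ' ν ν' hφ hφ' hν hν' hl hl'
    have hget : ∀ (φ : ℕ → ℕ) (ν : Measure CI), Tendsto φ atTop atTop → LawTo φ ν → ∃ θ : ℝ, 0 < θ ∧ LI M ν θ := by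
      intro φ ν hφ hl
      obtain ⟨ψ, hψ, θ, hθ0, hθ⟩ := hθs φ hφ
      have h1 : Tendsto (fun k => size (φ (ψ k))) atTop atTop := hst.comp (hφ.comp hψ.tendsto_atTop)
      obtain ⟨ρ, hρ, c0, hc0, h2⟩ := hM _ h1
      have h3 : Tendsto (fun k => φ (ψ (ρ k))) atTop atTop := hφ.comp (hψ.tendsto_atTop.comp hρ.tendsto_atTop)
      obtain ⟨-, h4, -⟩ := hT1 _ _ ((hst.comp h3).const_mul_atTop one_pos) (hmp c0) (h2 1 one_pos)
      refine ⟨θ / c0, by positivity, lI_of (φ := fun k => φ (ψ (ρ k))) hP hc0 h2 hC.le h4 h3 ?_ hθ0 (hθ.comp hρ.tendsto_atTop)⟩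
      exact fun f => (hl f).comp (hψ.tendsto_atTop.comp hρ.tendsto_atTop)
    obtain ⟨θ, hθ0, hI⟩ := hget φ ν hφ hl
    obtain ⟨θ', hθ0', hI'⟩ := hget φ' ν' hφ' hl'
    have hk := key hW hR hu0 hpos hθ0 hθ0' hI hI'
    have h2 := (hlim φ ν hφ hν hl).2
    have h2' := (hlim φ' ν' hφ' hν' hl').2
    obtain ⟨s, hs⟩ : ∃ s, s = (θ' / θ) ^ (3 / 4 : ℝ) := ⟨_, rfl⟩
    have hs0 : 0 < s := by rw [hs]; positivity
    rw [← hs] at hk
    have hcont : Continuous fun γ : CI => ‖γ 1‖ ^ 2 := ((continuous_eval_const (1 : unitInterval)).norm).pow 2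
    rw [hk, integral_map (QK.sc_cont s).measurable.aemeasurable hcont.aestronglyMeasurable] at h2'
    have e1 : ∀ γ : CI, ‖(sc s γ) 1‖ ^ 2 = s ^ 2 * ‖γ 1‖ ^ 2 := by
      intro γ
      have : (sc s γ) 1 = (s : ℂ) * γ 1 := rfl
      rw [this, norm_mul, Complex.norm_real, Real.norm_eq_abs, mul_pow, sq_abs]
    simp only [e1] at h2'
    rw [integral_const_mul, h2, mul_one] at h2'
    have hs1 : s = 1 := by nlinarith
    rw [hk, hs1]
    have e2 : sc 1 = (id : CI → CI) := by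
      funext γ
      unfold sc
      rw [Complex.ofReal_one, one_smul]
      rfl
    rw [e2, Measure.map_id]
  -- the conclusion
  obtain ⟨ψ0, hψ0, ν0, hν0, hl0⟩ := hsub (fun n => n) strictMono_id
  refine ⟨ν0, hν0, fun f => ?_⟩
  refine tendsto_of_subseq_tendsto fun ns hns => ?_
  obtain ⟨φ1, hφ1, hφ2⟩ := strictMono_subseq_of_tendsto_atTop hns
  obtain ⟨ψ, hψ, ν, hν, hl⟩ := hsub (ns ∘ φ1) hφ2
  have t0' : Tendsto (fun k => ψ0 k) atTop atTop := hψ0.tendsto_atTop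
  have t1 : Tendsto (fun k => (ns ∘ φ1) (ψ k)) atTop atTop := (hφ2.comp hψ).tendsto_atTop
  have e : ν = ν0 := huniq _ _ ν0 ν t0' t1 hν0 hν hl0 hl
  refine ⟨fun k => φ1 (ψ k), ?_⟩
  have := hl f
  rwa [e] at this

end Pool.Agent.CRT
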