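import Pool.Agent.CRT.Defs
import Pool.Agent.NPR.RegA

/-!
# CRT, row K9 (helper69): Q1 gives the regular variation of the size

* `regSt_of_tk` : the law of large numbers for the clock with one constant for two numbers of steps, from `TK`;
* **`regSz_of`** : `RegSz` from `TK`, the bounds of the size and the simplicity of the limits.
-/

set_option autoImplicit false

open Set Filter Topology MeasureTheory
open scoped ENNReal

namespace Pool.Agent.CRT

open Pool.Agent.NTS.Res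
open Pool.Agent.NPR Pool.Agent.NPR.Reg

lemma size_inf {c C : ℝ} (hc : 0 < c) (hS : SzB c C) : Tendsto size atTop atTop := by
  have ht : Tendsto (fun n : ℕ => c * (n : ℝ) ^ (3 / 4 : ℝ)) atTop atTop :=
    ((tendsto_rpow_atTop (by norm_num)).comp tendsto_natCast_atTop_atTop).const_mul_atTop hc
  refine tendsto_atTop_mono' _ ?_ ht
  filter_upwards [eventually_ge_atTop 1] with n hn
  exact (hS n hn).1

theorem regSt_of_tk {c C : ℝ} (hc : 0 < c) (hS : SzB c C) (h : TK) : RegSt := by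
  intro ε D hε
  have hC : 0 < C := by
    have h1 := (hS 1 le_rfl).2
    have h2 := NTSF.size_pos (n := 1) le_rfl
    rw [Nat.cast_one, Real.one_rpow, mul_one] at h1
    linarith
  obtain ⟨dl, hdl⟩ : ∃ dl : ℝ, dl = 1 / C ^ (4 / 3 : ℝ) := ⟨_, rfl⟩
  have hdl0 : 0 < dl := by
    rw [hdl]
    positivity
  obtain ⟨Lam, hLam⟩ : ∃ Lam : ℝ, Lam = (|D| + 1) / c ^ (4 / 3 : ℝ) + dl := ⟨_, rfl⟩
  have hD1 : 0 < |D| + 1 := by positivity
  have hLd : dl < Lam := by
    rw [hLam]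
    have : 0 < (|D| + 1) / c ^ (4 / 3 : ℝ) := by positivity
    linarith
  obtain ⟨ρ0, hρ0, h1⟩ := h ε dl Lam hε hdl0 hLd
  refine ⟨ρ0, hρ0, fun ρ hρ hρρ => ?_⟩
  obtain ⟨R0, hR0, h2⟩ := h1 ρ hρ hρρ
  obtain ⟨n0, hn0⟩ := Filter.eventually_atTop.1 (((size_inf hc hS).eventually_ge_atTop R0).and (eventually_ge_atTop 1))
  refine ⟨n0, fun n n' hn hnn hD => ?_⟩
  obtain ⟨hR, hn1⟩ := hn0 n hn
  have hn1' : 1 ≤ n' := hn1.trans hnn
  have hnp : (0 : ℝ) < n := by exact_mod_cast hn1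
  have hnp' : (0 : ℝ) < n' := by exact_mod_cast hn1'
  have hsz := NTSF.size_pos hn1
  have hsz' := NTSF.size_pos hn1'
  obtain ⟨ka, hka, h3⟩ := h2 (size n) hR
  -- the numbers of steps are in the range
  have q43 : ∀ x : ℝ, 0 < x → (x ^ (3 / 4 : ℝ)) ^ (4 / 3 : ℝ) = x := by
    intro x hx
    rw [← Real.rpow_mul hx.le]
    norm_num
  have u1 : size n ^ (4 / 3 : ℝ) ≤ C ^ (4 / 3 : ℝ) * n := by
    have := Real.rpow_le_rpow hsz.le (hS n hn1).2 (show (0 : ℝ) ≤ 4 / 3 by norm_num)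
    rwa [Real.mul_rpow hC.le (by positivity), q43 _ hnp] at this
  have u2 : c ^ (4 / 3 : ℝ) * n ≤ size n ^ (4 / 3 : ℝ) := by
    have := Real.rpow_le_rpow (by positivity) (hS n hn1).1 (show (0 : ℝ) ≤ 4 / 3 by norm_num)
    rwa [Real.mul_rpow hc.le (by positivity), q43 _ hnp] at this
  have hQ : 0 < size n ^ (4 / 3 : ℝ) := by positivity
  have r1 : dl * size n ^ (4 / 3 : ℝ) ≤ n := by
    rw [hdl, one_div_mul_eq_div, div_le_iff₀ (by positivity)]
    linarith
  have hnn' : (n : ℝ) ≤ n' := by exact_mod_cast hnn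
  have r1' : dl * size n ^ (4 / 3 : ℝ) ≤ n' := r1.trans hnn'
  have r2' : (n' : ℝ) ≤ Lam * size n ^ (4 / 3 : ℝ) := by
    have h4 : (n' : ℝ) ≤ (|D| + 1) * n := by
      refine hD.trans (mul_le_mul_of_nonneg_right ?_ hnp.le)
      have := le_abs_self D
      linarith
    have h5 : (n : ℝ) ≤ size n ^ (4 / 3 : ℝ) / c ^ (4 / 3 : ℝ) := by
      rw [le_div_iff₀ (by positivity)]
      linarith
    calc (n' : ℝ) ≤ (|D| + 1) * n := h4
      _ ≤ (|D| + 1) * (size n ^ (4 / 3 : ℝ) / c ^ (4 / 3 : ℝ)) := mul_le_mul_of_nonneg_left h5 hD1.le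
      _ = (|D| + 1) / c ^ (4 / 3 : ℝ) * size n ^ (4 / 3 : ℝ) := by ring
      _ ≤ Lam * size n ^ (4 / 3 : ℝ) := by
          refine mul_le_mul_of_nonneg_right ?_ hQ.le
          rw [hLam]
          linarith
  have r2 : (n : ℝ) ≤ Lam * size n ^ (4 / 3 : ℝ) := hnn'.trans r2'
  refine ⟨ka * (ρ * size n), by positivity, ?_, ?_⟩
  · have h4 := h3 n r1 r2
    have e1 : ρ * size n / size n = ρ := mul_div_cancel_right₀ _ hsz.ne'
    rw [e1] at h4
    have e2 : {γ : CI | ε * n < |ka * (ρ * size n) * Vr ρ γ - n|} = {γ | ε * n < |ka * (size n * vb ρ γ 1) - n|} := by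
      ext γ
      have : ka * (ρ * size n) * Vr ρ γ = ka * (size n * vb ρ γ 1) := by
        unfold Vr
        field_simp
      show ε * n < |ka * (ρ * size n) * Vr ρ γ - n| ↔ ε * n < |ka * (size n * vb ρ γ 1) - n|
      rw [this]
    rw [e2]
    exact ENNReal.toReal_le_of_le_ofReal hε.le h4
  · have h4 := h3 n' r1' r2'
    have e2 : {γ : CI | ε * n' < |ka * (ρ * size n) * Vr (ρ * size n / size n') γ - n'|} =
        {γ | ε * n' < |ka * (size n' * vb (ρ * size n / size n') γ 1) - n'|} := by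
      ext γ
      have : ka * (ρ * size n) * Vr (ρ * size n / size n') γ = ka * (size n' * vb (ρ * size n / size n') γ 1) := by
        unfold Vr
        have h5 : ρ * size n ≠ 0 := by positivity
        field_simp
      show ε * n' < |ka * (ρ * size n) * Vr (ρ * size n / size n') γ - n'| ↔
        ε * n' < |ka * (size n' * vb (ρ * size n / size n') γ 1) - n'|
      rw [this]
    rw [e2]
    exact ENNReal.toReal_le_of_le_ofReal hε.le h4

/-- a simple limit does not end near its start -/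
lemma exists_eta {ν : Measure CI} [IsProbabilityMeasure ν] (h : ∀ᵐ γ : CI ∂ν, Function.Injective γ) :
    ∃ η : ℝ, 0 < η ∧ ν.real {γ : CI | dist (γ 0) (γ 1) < η} < 1 / 2 := by
  have hanti : Antitone fun k : ℕ => {γ : CI | dist (γ 0) (γ 1) < 1 / ((k : ℝ) + 1)} := by
    intro a b hab γ hγ
    have h1 : (a : ℝ) ≤ b := by exact_mod_cast hab
    have h2 := one_div_le_one_div_of_le (by positivity : (0 : ℝ) < (a : ℝ) + 1) (by linarith : (a : ℝ) + 1 ≤ b + 1)
    exact lt_of_lt_of_le hγ h2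
  have hm : ∀ k : ℕ, NullMeasurableSet {γ : CI | dist (γ 0) (γ 1) < 1 / ((k : ℝ) + 1)} ν := by
    intro k
    refine (IsOpen.measurableSet ?_).nullMeasurableSet
    exact isOpen_lt ((ContinuousEvalConst.continuous_eval_const 0).dist (ContinuousEvalConst.continuous_eval_const 1))
      continuous_const
  have h1 := tendsto_measure_iInter_atTop (μ := ν) hm hanti ⟨0, measure_ne_top _ _⟩
  have h2 : ν (⋂ k : ℕ, {γ : CI | dist (γ 0) (γ 1) < 1 / ((k : ℝ) + 1)}) = 0 := by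
    have h5 : (⋂ k : ℕ, {γ : CI | dist (γ 0) (γ 1) < 1 / ((k : ℝ) + 1)}) ⊆ {γ : CI | ¬ Function.Injective γ} := by
      intro γ hγ hinj
      rw [mem_iInter] at hγ
      have h3 : dist (γ 0) (γ 1) ≤ 0 :=
        ge_of_tendsto' tendsto_one_div_add_atTop_nhds_zero_nat fun k => (hγ k).le
      exact absurd (hinj (dist_le_zero.1 h3)) (by norm_num)
    exact measure_mono_null h5 (ae_iff.1 h)
  rw [h2] at h1
  have h3 : Tendsto (fun k : ℕ => ν.real {γ : CI | dist (γ 0) (γ 1) < 1 / ((k : ℝ) + 1)}) atTop (𝓝 0) :=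
    (ENNReal.tendsto_toReal ENNReal.zero_ne_top).comp h1
  obtain ⟨k, hk⟩ := (h3.eventually (gt_mem_nhds (show (0 : ℝ) < 1 / 2 by norm_num))).exists
  exact ⟨1 / ((k : ℝ) + 1), by positivity, hk⟩

/-- **K9** -/
theorem regSz_of {c C : ℝ} (hc : 0 < c) (hS : SzB c C)
    (hinj : ∀ (φ : ℕ → ℕ) (ν : Measure C(unitInterval, ℂ)), Tendsto φ atTop atTop → IsProbabilityMeasure ν → LawTo φ ν →
      ∀ᵐ γ : C(unitInterval, ℂ) ∂ν, Function.Injective γ) (h : TK) : RegSz := by
  rintro ⟨ν, hν, hl⟩ lam hlam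
  obtain ⟨η, hη0, hη⟩ := exists_eta (hinj (fun n => n) ν tendsto_id hν hl)
  exact reg_floor hν hl (regSt_of_tk hc hS h) hη0 hη hc hS hlam

end Pool.Agent.CRT
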