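import Pool.Agent.CRT.Defs
import Pool.Agent.NTS.Law

/-!
# CRT, row K8g (helper5): from the limit of the critical walks to the regular variation of the numbers of walks

`rvOf` : `RvOf` from `WinA`, `ClTime` and the upper bound of the size.
-/

set_option autoImplicit false

open Set Filter Topology MeasureTheory
open scoped ENNReal

namespace Pool.Agent.CRT

open Pool.Agent.NTS.Res

namespace RvK

/-! ### 1. The mass of a window of times -/

/-- the ramp from `u` to `u + δ` -/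
noncomputable def rp (u δ t : ℝ) : ℝ := max 0 (min 1 ((t - u) / δ))

lemma rp_cont (u δ : ℝ) : Continuous (rp u δ) := by
  unfold rp
  fun_prop

lemma rp_nn (u δ t : ℝ) : 0 ≤ rp u δ t := le_max_left _ _

lemma rp_le (u δ t : ℝ) : rp u δ t ≤ 1 := max_le zero_le_one (min_le_left _ _)

lemma rp_lo {u δ t : ℝ} (hδ : 0 < δ) (h : t ≤ u) : rp u δ t = 0 := by
  unfold rp
  refine max_eq_left ((min_le_right _ _).trans ?_)
  exact div_nonpos_of_nonpos_of_nonneg (by linarith) hδ.le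

lemma rp_hi {u δ t : ℝ} (hδ : 0 < δ) (h : u + δ ≤ t) : rp u δ t = 1 := by
  unfold rp
  rw [min_eq_left, max_eq_right zero_le_one]
  rw [le_div_iff₀ hδ]
  linarith

lemma rp_anti {u u' δ t : ℝ} (hδ : 0 < δ) (h : u ≤ u') : rp u' δ t ≤ rp u δ t := by
  unfold rp
  refine max_le_max le_rfl (min_le_min le_rfl ?_)
  exact div_le_div_of_nonneg_right (by linarith) hδ.le

/-- a bounded continuous function of the time -/
noncomputable def fb (u v δ : ℝ) : BoundedContinuousFunction (CI × ℝ) ℝ :=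
  BoundedContinuousFunction.ofNormedAddCommGroup (fun x : CI × ℝ => rp u δ x.2 - rp v δ x.2)
    (((rp_cont u δ).comp continuous_snd).sub ((rp_cont v δ).comp continuous_snd)) 1 fun x => by
      rw [Real.norm_eq_abs, abs_le]
      constructor <;> linarith [rp_nn u δ x.2, rp_nn v δ x.2, rp_le u δ x.2, rp_le v δ x.2]

lemma fb_apply (u v δ : ℝ) (x : CI × ℝ) : fb u v δ x = rp u δ x.2 - rp v δ x.2 := rfl

/-- the window -/
def Wn (a b : ℝ) : Set (CI × ℝ) := {x | a ≤ x.2 ∧ x.2 < b}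

lemma Wn_meas (a b : ℝ) : MeasurableSet (Wn a b) :=
  (measurableSet_le measurable_const measurable_snd).inter (measurableSet_lt measurable_snd measurable_const)

lemma Ic_meas (a b : ℝ) : MeasurableSet {x : CI × ℝ | x.2 ∈ Icc a b} := measurable_snd measurableSet_Icc

open Classical in
lemma ind_Wn (a b : ℝ) (x : CI × ℝ) : (Wn a b).indicator (fun _ => (1 : ℝ)) x = if a ≤ x.2 ∧ x.2 < b then 1 else 0 := by
  by_cases h : a ≤ x.2 ∧ x.2 < b
  · rw [if_pos h, Set.indicator_of_mem (show x ∈ Wn a b from h)]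
  · rw [if_neg h, Set.indicator_of_notMem (show x ∉ Wn a b from h)]

lemma lo_le {a b u v δ : ℝ} (hδ : 0 < δ) (hu : |u - a| ≤ δ) (hv : |v - b| ≤ δ) (x : CI × ℝ) :
    fb (a + δ) (b - 2 * δ) δ x ≤ (Wn u v).indicator (fun _ => (1 : ℝ)) x := by
  classical
  rw [ind_Wn, fb_apply]
  rw [abs_le] at hu hv
  have h1 := rp_nn (b - 2 * δ) δ x.2
  have h2 := rp_le (a + δ) δ x.2
  by_cases ha : x.2 ≤ a + δ
  · rw [rp_lo (u := a + δ) hδ ha]
    split_ifs <;> linarith
  · by_cases hb : x.2 < b - δ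
    · rw [if_pos ⟨by linarith [hu.2], by linarith [hv.1]⟩]
      linarith
    · rw [rp_hi (u := b - 2 * δ) hδ (by linarith)]
      split_ifs <;> linarith

lemma le_up {a b u v δ : ℝ} (hδ : 0 < δ) (hab : a < b) (hu : |u - a| ≤ δ) (hv : |v - b| ≤ δ) (x : CI × ℝ) :
    (Wn u v).indicator (fun _ => (1 : ℝ)) x ≤ fb (a - 2 * δ) (b + δ) δ x := by
  classical
  rw [ind_Wn, fb_apply]
  rw [abs_le] at hu hv
  have h3 := rp_anti (t := x.2) hδ (show a - 2 * δ ≤ b + δ by linarith)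
  by_cases ha : u ≤ x.2 ∧ x.2 < v
  · rw [if_pos ha, rp_hi (u := a - 2 * δ) hδ (by linarith [ha.1, hu.1]), rp_lo (u := b + δ) hδ (by linarith [ha.2, hv.2])]
    norm_num
  · rw [if_neg ha]
    linarith

/-- the layer around `a` -/
def Ly (a δ : ℝ) : Set (CI × ℝ) := {x | x.2 ∈ Icc (a - δ) (a + δ)}

lemma Ly_meas (a δ : ℝ) : MeasurableSet (Ly a δ) := Ic_meas _ _

lemma ind_nn (S : Set (CI × ℝ)) (x : CI × ℝ) : 0 ≤ S.indicator (fun _ => (1 : ℝ)) x :=
  Set.indicator_nonneg (fun _ _ => zero_le_one) x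

lemma layer_lo {a b δ : ℝ} (hδ : 0 < δ) (hab : a + δ ≤ b - 2 * δ) (x : CI × ℝ) :
    (Wn a b).indicator (fun _ => (1 : ℝ)) x ≤ fb (a + δ) (b - 2 * δ) δ x +
      ((Ly a (2 * δ)).indicator (fun _ => (1 : ℝ)) x + (Ly b (2 * δ)).indicator (fun _ => (1 : ℝ)) x) := by
  classical
  rw [ind_Wn, fb_apply]
  have h1 := ind_nn (Ly a (2 * δ)) x
  have h2 := ind_nn (Ly b (2 * δ)) x
  have h3 := rp_anti (t := x.2) hδ hab
  split_ifs with h4
  · by_cases h5 : x ∈ Ly a (2 * δ)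
    · rw [Set.indicator_of_mem h5]
      linarith
    · by_cases h6 : x ∈ Ly b (2 * δ)
      · rw [Set.indicator_of_mem h6]
        linarith
      · have h7 : a + 2 * δ ≤ x.2 := by
          by_contra h8
          exact h5 ⟨by linarith [h4.1], by linarith⟩
        have h8 : x.2 ≤ b - 2 * δ := by
          by_contra h9
          exact h6 ⟨by linarith, by linarith [h4.2]⟩
        rw [rp_hi (u := a + δ) hδ (by linarith), rp_lo (u := b - 2 * δ) hδ h8]
        linarith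
  · linarith

lemma layer_up {a b δ : ℝ} (hδ : 0 < δ) (x : CI × ℝ) : fb (a - 2 * δ) (b + δ) δ x ≤
    (Wn a b).indicator (fun _ => (1 : ℝ)) x +
      ((Ly a (2 * δ)).indicator (fun _ => (1 : ℝ)) x + (Ly b (2 * δ)).indicator (fun _ => (1 : ℝ)) x) := by
  classical
  rw [ind_Wn, fb_apply]
  have h1 := ind_nn (Ly a (2 * δ)) x
  have h2 := ind_nn (Ly b (2 * δ)) x
  have g1 := rp_nn (b + δ) δ x.2
  have g2 := rp_le (a - 2 * δ) δ x.2
  by_cases h5 : x ∈ Ly a (2 * δ)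
  · rw [Set.indicator_of_mem h5]
    split_ifs <;> linarith
  by_cases h6 : x ∈ Ly b (2 * δ)
  · rw [Set.indicator_of_mem h6]
    split_ifs <;> linarith
  by_cases h7 : x.2 ≤ a - 2 * δ
  · rw [rp_lo (u := a - 2 * δ) hδ h7]
    split_ifs <;> linarith
  by_cases h8 : b + 2 * δ ≤ x.2
  · rw [rp_hi (u := b + δ) hδ (by linarith)]
    split_ifs <;> linarith
  have h9 : a ≤ x.2 := by
    by_contra h10
    exact h5 ⟨by linarith, by linarith⟩
  have h10 : x.2 < b := by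
    by_contra h11
    exact h6 ⟨by linarith, by linarith⟩
  rw [if_pos ⟨h9, h10⟩]
  linarith

lemma int_ind {μ : Measure (CI × ℝ)} {S : Set (CI × ℝ)} (hS : MeasurableSet S) :
    ∫ x, S.indicator (fun _ => (1 : ℝ)) x ∂μ = (μ S).toReal := by
  rw [integral_indicator_const _ hS, smul_eq_mul, mul_one]
  rfl

lemma integ_ind {μ : Measure (CI × ℝ)} [IsFiniteMeasure μ] {S : Set (CI × ℝ)} (hS : MeasurableSet S) :
    Integrable (S.indicator fun _ => (1 : ℝ)) μ :=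
  (integrable_const (1 : ℝ)).indicator hS

/-- **the mass of a moving window converges** -/
theorem win_mv {r : ℕ → ℝ} {M : Measure (CI × ℝ)} [IsProbabilityMeasure M] (h : ClTo r M) {a b K δ0 : ℝ} (hab : a < b)
    (hδ0 : 0 < δ0) (hM : ∀ δ, 0 < δ → δ ≤ δ0 → (M (Ly a δ)).toReal ≤ K * δ ∧ (M (Ly b δ)).toReal ≤ K * δ)
    {u v : ℕ → ℝ} (hu : Tendsto u atTop (𝓝 a)) (hv : Tendsto v atTop (𝓝 b)) :
    Tendsto (fun k => (cl (r k) (Wn (u k) (v k))).toReal) atTop (𝓝 (M (Wn a b)).toReal) := by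
  have hfin : ∀ᶠ k in atTop, IsFiniteMeasure (cl (r k)) := by
    have h1 := h 1
    have h2 : ∀ μ : Measure (CI × ℝ), ∫ x, (1 : BoundedContinuousFunction (CI × ℝ) ℝ) x ∂μ = (μ univ).toReal := fun μ => by
      have : ∫ x, (1 : BoundedContinuousFunction (CI × ℝ) ℝ) x ∂μ = ∫ _x : CI × ℝ, (1 : ℝ) ∂μ := rfl
      rw [this, integral_const, smul_eq_mul, mul_one]
      rfl
    rw [h2 M, measure_univ, ENNReal.toReal_one] at h1
    filter_upwards [h1.eventually (lt_mem_nhds (show (0 : ℝ) < 1 from one_pos))] with k hk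
    rw [h2] at hk
    refine ⟨lt_top_iff_ne_top.2 fun h3 => ?_⟩
    rw [h3] at hk
    exact lt_irrefl _ hk
  rw [Metric.tendsto_nhds]
  intro e he
  obtain ⟨δ, hδ⟩ : ∃ δ, δ = min (min (δ0 / 2) ((b - a) / 3)) (e / (8 * (|K| + 1))) := ⟨_, rfl⟩
  have hK := abs_nonneg K
  have d1 : δ ≤ δ0 / 2 := by rw [hδ]; exact (min_le_left _ _).trans (min_le_left _ _)
  have d2 : δ ≤ (b - a) / 3 := by rw [hδ]; exact (min_le_left _ _).trans (min_le_right _ _)
  have d3 : δ ≤ e / (8 * (|K| + 1)) := by rw [hδ]; exact min_le_right _ _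
  have d0 : 0 < δ := by
    rw [hδ]
    exact lt_min (lt_min (by linarith) (by linarith)) (by positivity)
  have d4 : a + δ ≤ b - 2 * δ := by linarith
  obtain ⟨m1, m2⟩ := hM (2 * δ) (by linarith) (by linarith)
  have d5 : K * (2 * δ) ≤ e / 4 := by
    have h1 : K * (2 * δ) ≤ (|K| + 1) * (2 * δ) := mul_le_mul_of_nonneg_right (by linarith [le_abs_self K]) (by linarith)
    have h2 : (|K| + 1) * δ ≤ (|K| + 1) * (e / (8 * (|K| + 1))) := mul_le_mul_of_nonneg_left d3 (by linarith)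
    have h3 : (|K| + 1) * (e / (8 * (|K| + 1))) = e / 8 := by field_simp
    linarith
  have i1 := integ_ind (μ := M) (Wn_meas a b)
  have i2 := integ_ind (μ := M) (Ly_meas a (2 * δ))
  have i3 := integ_ind (μ := M) (Ly_meas b (2 * δ))
  have j1 : Integrable (fb (a + δ) (b - 2 * δ) δ) M := (fb (a + δ) (b - 2 * δ) δ).integrable M
  have j2 : Integrable (fb (a - 2 * δ) (b + δ) δ) M := (fb (a - 2 * δ) (b + δ) δ).integrable M
  have l1 := integral_mono i1 (j1.add (i2.add i3)) (layer_lo d0 d4)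
  have l2 := integral_mono j2 (i1.add (i2.add i3)) (layer_up d0)
  rw [integral_add' j1 (i2.add i3), integral_add' i2 i3, int_ind (Wn_meas a b), int_ind (Ly_meas a (2 * δ)),
    int_ind (Ly_meas b (2 * δ))] at l1
  rw [integral_add' i1 (i2.add i3), integral_add' i2 i3, int_ind (Wn_meas a b), int_ind (Ly_meas a (2 * δ)),
    int_ind (Ly_meas b (2 * δ))] at l2
  have t1 := Metric.tendsto_nhds.1 (h (fb (a + δ) (b - 2 * δ) δ)) (e / 4) (by positivity)
  have t2 := Metric.tendsto_nhds.1 (h (fb (a - 2 * δ) (b + δ) δ)) (e / 4) (by positivity)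
  filter_upwards [hfin, t1, t2, Metric.tendsto_nhds.1 hu δ d0, Metric.tendsto_nhds.1 hv δ d0] with k hk q1 q2 q3 q4
  rw [Real.dist_eq] at q3 q4
  have k1 := integ_ind (μ := cl (r k)) (Wn_meas (u k) (v k))
  have k2 := integral_mono ((fb (a + δ) (b - 2 * δ) δ).integrable (cl (r k))) k1 (lo_le d0 q3.le q4.le)
  have k3 := integral_mono k1 ((fb (a - 2 * δ) (b + δ) δ).integrable (cl (r k))) (le_up d0 hab q3.le q4.le)
  rw [int_ind (Wn_meas _ _)] at k2 k3
  rw [Real.dist_eq, abs_lt] at q1 q2 ⊢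
  constructor <;> linarith [q1.1, q1.2, q2.1, q2.2]

/-- the mass of a window converges -/
theorem win_lim {r : ℕ → ℝ} {M : Measure (CI × ℝ)} [IsProbabilityMeasure M] (h : ClTo r M) {a b K δ0 : ℝ} (hab : a < b)
    (hδ0 : 0 < δ0) (hM : ∀ δ, 0 < δ → δ ≤ δ0 → (M (Ly a δ)).toReal ≤ K * δ ∧ (M (Ly b δ)).toReal ≤ K * δ) :
    Tendsto (fun k => (cl (r k) (Wn a b)).toReal) atTop (𝓝 (M (Wn a b)).toReal) :=
  win_mv h hab hδ0 hM tendsto_const_nhds tendsto_const_nhds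

/-! ### 2. Regular variation -/

lemma cR_nn (R : ℝ) : 0 ≤ cR R := tsum_nonneg fun n => by
  unfold wR aN
  have h : (0 : ℝ) ≤ fug := by unfold fug; positivity
  positivity

lemma fug_pos : 0 < fug := by
  unfold fug
  have : (0 : ℝ) < √(2 + √2) := Real.sqrt_pos.2 (by positivity)
  positivity

lemma aN_pos (n : ℕ) : 0 < aN n := by
  have h1 : (0 : ℝ) < ((saw n).card : ℝ) := by exact_mod_cast (NTSF.saw_nonempty n).card_pos
  unfold aN
  exact mul_pos h1 (pow_pos fug_pos _)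

lemma cR_mono {R R' : ℝ} (h : R ≤ R') (h0 : cR R' ≠ 0) : cR R ≤ cR R' := by
  have hs : Summable fun n => wR R' n := by
    by_contra h1
    exact h0 (tsum_eq_zero_of_not_summable h1)
  have hle : ∀ n, wR R n ≤ wR R' n := fun n => by
    have := NTSF.law_prob n
    refine mul_le_mul_of_nonneg_left ?_ (aN_pos n).le
    refine ENNReal.toReal_mono (measure_ne_top _ _) (measure_mono fun γ hγ => ?_)
    exact lt_of_lt_of_le hγ h
  have hnn : ∀ n, 0 ≤ wR R n := fun n => mul_nonneg (aN_pos n).le ENNReal.toReal_nonneg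
  exact Summable.tsum_le_tsum hle (Summable.of_nonneg_of_le hnn hle hs) hs

/-- ratios along sequences -/
lemma ratio_lim {F : ℝ → ℝ} {κ : ℝ} (hF : ∀ lam : ℝ, 0 < lam → Tendsto (fun R : ℝ => F (lam * R) / F R) atTop (𝓝 (lam ^ κ)))
    {R0 : ℝ} (hmono : ∀ R R', R0 ≤ R → R ≤ R' → F R ≤ F R') (hpos : ∀ R, R0 ≤ R → 0 < F R) {u v : ℕ → ℝ} {x : ℝ} (hx : 0 < x)
    (hv : Tendsto v atTop atTop) (huv : Tendsto (fun n => u n / v n) atTop (𝓝 x)) :
    Tendsto (fun n => F (u n) / F (v n)) atTop (𝓝 (x ^ κ)) := by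
  have hcont : ContinuousAt (fun y : ℝ => y ^ κ) x := Real.continuousAt_rpow_const _ _ (Or.inl hx.ne')
  have hu : Tendsto u atTop atTop := by
    have h1 : Tendsto (fun n => (u n / v n) * v n) atTop atTop := huv.pos_mul_atTop hx hv
    refine h1.congr' ?_
    filter_upwards [hv.eventually_gt_atTop 0] with n hn
    field_simp
  rw [tendsto_order]
  constructor
  · intro a' ha'
    have h1 : ∀ᶠ y in 𝓝 x, a' < y ^ κ := hcont.eventually (lt_mem_nhds ha')
    have h2 : ∀ᶠ y in 𝓝[<] x, a' < y ^ κ := h1.filter_mono nhdsWithin_le_nhds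
    have h3 : ∀ᶠ y in 𝓝[<] x, 0 < y := (lt_mem_nhds hx).filter_mono nhdsWithin_le_nhds
    obtain ⟨y, ⟨hy1, hy2⟩, hy3⟩ := ((h2.and h3).and self_mem_nhdsWithin).exists
    have hy3' : y < x := hy3
    filter_upwards [hv.eventually ((hF y hy2).eventually (lt_mem_nhds hy1)), huv.eventually (lt_mem_nhds hy3'),
      hv.eventually_ge_atTop (max 1 R0), hv.eventually_ge_atTop (R0 / y)] with n g1 g2 g3 g4
    have hv0 : 0 < v n := lt_of_lt_of_le one_pos ((le_max_left _ _).trans g3)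
    have g5 : y * v n ≤ u n := by
      rw [lt_div_iff₀ hv0] at g2
      exact g2.le
    have g6 : R0 ≤ y * v n := by
      rw [div_le_iff₀ hy2] at g4
      linarith
    have g7 := hmono _ _ g6 g5
    have g8 := hpos _ ((le_max_right _ _).trans g3)
    exact g1.trans_le (div_le_div_of_nonneg_right g7 g8.le)
  · intro a' ha'
    have h1 : ∀ᶠ y in 𝓝 x, y ^ κ < a' := hcont.eventually (gt_mem_nhds ha')
    have h2 : ∀ᶠ y in 𝓝[>] x, y ^ κ < a' := h1.filter_mono nhdsWithin_le_nhds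
    obtain ⟨y, hy1, hy3⟩ := (h2.and self_mem_nhdsWithin).exists
    have hy3' : x < y := hy3
    have hy2 : 0 < y := hx.trans hy3'
    filter_upwards [hv.eventually ((hF y hy2).eventually (gt_mem_nhds hy1)), huv.eventually (gt_mem_nhds hy3'),
      hv.eventually_ge_atTop (max 1 R0), hu.eventually_ge_atTop R0] with n g1 g2 g3 g4
    have hv0 : 0 < v n := lt_of_lt_of_le one_pos ((le_max_left _ _).trans g3)
    have g5 : u n ≤ y * v n := by
      rw [div_lt_iff₀ hv0] at g2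
      exact g2.le
    have g7 := hmono _ _ g4 g5
    have g8 := hpos _ ((le_max_right _ _).trans g3)
    exact (div_le_div_of_nonneg_right g7 g8.le).trans_lt g1

/-- the ratio of the numbers of walks -/
lemma floor_ratio {lam : ℝ} (hl : 0 < lam) : Tendsto (fun n : ℕ => ((⌊lam * n⌋₊ : ℕ) : ℝ) / n) atTop (𝓝 lam) := by
  have h := (tendsto_nat_floor_mul_div_atTop hl.le).comp (tendsto_natCast_atTop_atTop (R := ℝ))
  exact h

end RvK

open RvK

/-- **row K8g** -/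
theorem rvOf (hW : WinA) (hT : ClTime) (hs : ∃ C : ℝ, ∀ n : ℕ, 1 ≤ n → size n ≤ C * (n : ℝ) ^ (3 / 4 : ℝ)) : RvOf := by
  intro M hM lam hlam
  obtain ⟨hMP, hcl, -, hcR⟩ := hM
  obtain ⟨⟨c, C, t0, hc, hC, ht0, hden⟩, -⟩ := hT
  obtain ⟨Cs, hs⟩ := hs
  have hnat : Tendsto (fun k : ℕ => (k : ℝ)) atTop atTop := tendsto_natCast_atTop_atTop
  -- positive
  obtain ⟨R0, hR0⟩ : ∃ R0 : ℝ, ∀ R, R0 ≤ R → 0 < cR R := by
    have h1 := (hcR 1 one_pos).eventually (lt_mem_nhds (show (0 : ℝ) < 1 ^ (43 / 24 : ℝ) by positivity))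
    obtain ⟨R0, h2⟩ := Filter.eventually_atTop.1 h1
    refine ⟨R0, fun R hR => lt_of_le_of_ne (cR_nn R) fun h3 => ?_⟩
    have h4 := h2 R hR
    rw [← h3, div_zero] at h4
    exact lt_irrefl _ h4
  obtain ⟨m, hm⟩ : ∃ m : ℕ → ℕ, m = fun n : ℕ => ⌊lam * (n : ℝ)⌋₊ := ⟨_, rfl⟩
  have hm1 : Tendsto (fun n : ℕ => ((m n : ℕ) : ℝ) / n) atTop (𝓝 lam) := by
    rw [hm]
    exact floor_ratio hlam
  have hm2 : Tendsto m atTop atTop := by
    rw [hm]
    exact tendsto_nat_floor_atTop.comp (hnat.const_mul_atTop hlam)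
  -- the main limit
  have main : Tendsto (fun n : ℕ => ((m n : ℕ) * aN (m n)) / (n * aN n)) atTop (𝓝 (lam ^ (43 / 32 : ℝ))) := by
    obtain ⟨G, hG⟩ : ∃ G : ℝ, G = lam ^ (43 / 32 : ℝ) := ⟨_, rfl⟩
    have hG0 : 0 < G := by rw [hG]; positivity
    rw [← hG, Metric.tendsto_nhds]
    intro e he
    by_contra hcon
    rw [Filter.not_eventually] at hcon
    obtain ⟨ns, hns, hbad⟩ := Filter.extraction_of_frequently_atTop hcon
    obtain ⟨ε, hε⟩ : ∃ ε, ε = min (1 / 2) (e / (8 * (G + 1))) := ⟨_, rfl⟩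
    have hε0 : 0 < ε := by rw [hε]; exact lt_min (by norm_num) (by positivity)
    have hε1 : ε ≤ 1 / 2 := by rw [hε]; exact min_le_left _ _
    have hε2 : ε * (G + 1) ≤ e / 8 := by
      have h1 : ε ≤ e / (8 * (G + 1)) := by rw [hε]; exact min_le_right _ _
      calc ε * (G + 1) ≤ e / (8 * (G + 1)) * (G + 1) := mul_le_mul_of_nonneg_right h1 (by linarith)
        _ = e / 8 := by field_simp
    obtain ⟨d0, hd0, hW⟩ := hW ε hε0
    obtain ⟨d, hd⟩ : ∃ d, d = min d0 1 := ⟨_, rfl⟩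
    have hdp : 0 < d := by rw [hd]; exact lt_min hd0 one_pos
    have hd1 : d ≤ 1 := by rw [hd]; exact min_le_right _ _
    obtain ⟨L0, hL0, hW⟩ := hW d hdp (by rw [hd]; exact min_le_left _ _)
    obtain ⟨n0, hW⟩ := hW L0 le_rfl
    obtain ⟨L, hL⟩ : ∃ L, L = max (max (L0 * |Cs|) ((2 / t0) ^ (3 / 4 : ℝ))) 1 := ⟨_, rfl⟩
    have L1 : L0 * |Cs| ≤ L := by rw [hL]; exact (le_max_left _ _).trans (le_max_left _ _)
    have L2 : (2 / t0) ^ (3 / 4 : ℝ) ≤ L := by rw [hL]; exact (le_max_right _ _).trans (le_max_left _ _)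
    have L3 : 1 ≤ L := by rw [hL]; exact le_max_right _ _
    have Lp : 0 < L := lt_of_lt_of_le one_pos L3
    obtain ⟨τ, hτ⟩ : ∃ τ, τ = 1 / L ^ (4 / 3 : ℝ) := ⟨_, rfl⟩
    have hτ0 : 0 < τ := by rw [hτ]; positivity
    have hτ1 : (1 + d) * τ ≤ t0 := by
      have h1 : 2 / t0 ≤ L ^ (4 / 3 : ℝ) := by
        have h2 := Real.rpow_le_rpow (by positivity) L2 (show (0 : ℝ) ≤ 4 / 3 by norm_num)
        rw [← Real.rpow_mul (by positivity)] at h2
        norm_num at h2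
        exact h2
      have h2 : τ ≤ t0 / 2 := by
        rw [hτ, div_le_iff₀ (by positivity)]
        rw [div_le_iff₀ ht0] at h1
        linarith
      nlinarith
    have hdτ : τ < (1 + d) * τ := by nlinarith
    -- the subsequence
    have hbase : Tendsto (fun k : ℕ => ((ns k : ℕ) : ℝ) ^ (3 / 4 : ℝ)) atTop atTop :=
      (tendsto_rpow_atTop (by norm_num)).comp (hnat.comp hns.tendsto_atTop)
    obtain ⟨φ, hφ, cc, hcc, hcl⟩ := hcl _ hbase
    obtain ⟨nk, hnk⟩ : ∃ nk : ℕ → ℕ, nk = fun k => ns (φ k) := ⟨_, rfl⟩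
    have hnkt : Tendsto nk atTop atTop := by
      rw [hnk]
      exact hns.tendsto_atTop.comp hφ.tendsto_atTop
    obtain ⟨M', hM'⟩ : ∃ M' : Measure (CI × ℝ), M' = M.map fun x => (x.1, cc * x.2) := ⟨_, rfl⟩
    have hMp' : IsProbabilityMeasure M' := by
      rw [hM']
      exact Measure.isProbabilityMeasure_map (by fun_prop)
    obtain ⟨rr, hrr⟩ : ∃ rr : ℕ → ℝ, rr = fun k : ℕ => L * ((nk k : ℕ) : ℝ) ^ (3 / 4 : ℝ) := ⟨_, rfl⟩
    have hrt : Tendsto rr atTop atTop := by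
      rw [hrr]
      exact ((tendsto_rpow_atTop (by norm_num)).comp (hnat.comp hnkt)).const_mul_atTop Lp
    have hl34 : 0 < lam ^ (3 / 4 : ℝ) := by positivity
    have c1 : ClTo rr M' := by
      have h1 := hcl L Lp
      rw [← hM'] at h1
      rw [hrr, hnk]
      exact h1
    have c2 : ClTo (fun k => lam ^ (3 / 4 : ℝ) * rr k) M' := by
      have h1 := hcl (lam ^ (3 / 4 : ℝ) * L) (by positivity)
      rw [← hM'] at h1
      have h2 : (fun k => lam ^ (3 / 4 : ℝ) * rr k) = fun k => lam ^ (3 / 4 : ℝ) * L * ((ns (φ k) : ℕ) : ℝ) ^ (3 / 4 : ℝ) := by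
        funext k
        rw [hrr, hnk]
        ring
      rw [h2]
      exact h1
    obtain ⟨-, hup, hlo⟩ := hden _ M' hrt hMp' c1
    obtain ⟨P, hP⟩ : ∃ P : ℝ, P = (M' (Wn τ ((1 + d) * τ))).toReal := ⟨_, rfl⟩
    have hlay : ∀ δ : ℝ, 0 < δ → δ ≤ τ / 2 → (M' (Ly τ δ)).toReal ≤ 2 * (C * (3 * τ) ^ (11 / 32 : ℝ)) * δ ∧
        (M' (Ly ((1 + d) * τ) δ)).toReal ≤ 2 * (C * (3 * τ) ^ (11 / 32 : ℝ)) * δ := by
      intro δ h1 h2
      have key : ∀ a : ℝ, τ ≤ a → a ≤ 2 * τ → (M' (Ly a δ)).toReal ≤ 2 * (C * (3 * τ) ^ (11 / 32 : ℝ)) * δ := by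
        intro a ha ha'
        have h3 := hup (a - δ) (a + δ) (by linarith) (by linarith)
        have h4 : C * (a + δ) ^ (11 / 32 : ℝ) * (a + δ - (a - δ)) ≤ 2 * (C * (3 * τ) ^ (11 / 32 : ℝ)) * δ := by
          have h5 : (a + δ) ^ (11 / 32 : ℝ) ≤ (3 * τ) ^ (11 / 32 : ℝ) :=
            Real.rpow_le_rpow (by linarith) (by linarith) (by norm_num)
          have h6 := mul_le_mul_of_nonneg_left h5 hC.le
          nlinarith
        exact ENNReal.toReal_le_of_le_ofReal (by positivity) (h3.trans (ENNReal.ofReal_le_ofReal h4))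
      refine ⟨key τ le_rfl (by linarith), key _ hdτ.le ?_⟩
      nlinarith
    -- the windows
    obtain ⟨uu, huu⟩ : ∃ uu : ℕ → ℝ, uu = fun k => ((m (nk k) : ℕ) : ℝ) / (lam ^ (3 / 4 : ℝ) * rr k) ^ (4 / 3 : ℝ) := ⟨_, rfl⟩
    have hpow : ∀ k, 1 ≤ nk k → (rr k) ^ (4 / 3 : ℝ) = L ^ (4 / 3 : ℝ) * (nk k : ℕ) := by
      intro k hk
      have hnp : (0 : ℝ) < (nk k : ℕ) := by exact_mod_cast hk
      rw [hrr]
      simp only
      rw [Real.mul_rpow Lp.le (by positivity), ← Real.rpow_mul hnp.le]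
      norm_num
    have hrp : ∀ k, 1 ≤ nk k → 0 < rr k := by
      intro k hk
      have hnp : (0 : ℝ) < (nk k : ℕ) := by exact_mod_cast hk
      rw [hrr]
      positivity
    have hpow2 : ∀ k, 1 ≤ nk k → (lam ^ (3 / 4 : ℝ) * rr k) ^ (4 / 3 : ℝ) = lam * (L ^ (4 / 3 : ℝ) * (nk k : ℕ)) := by
      intro k hk
      rw [Real.mul_rpow hl34.le (hrp k hk).le, hpow k hk, ← Real.rpow_mul hlam.le]
      norm_num
    have huτ : Tendsto uu atTop (𝓝 τ) := by
      have h1 : Tendsto (fun k => (((m (nk k) : ℕ) : ℝ) / (nk k : ℕ)) * (1 / lam * τ)) atTop (𝓝 (lam * (1 / lam * τ))) :=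
        (hm1.comp hnkt).mul_const _
      have h2 : lam * (1 / lam * τ) = τ := by field_simp
      rw [h2] at h1
      refine h1.congr' ?_
      filter_upwards [hnkt.eventually_ge_atTop 1] with k hk
      have hnp : (0 : ℝ) < (nk k : ℕ) := by exact_mod_cast hk
      rw [huu]
      simp only
      rw [hpow2 k hk, hτ]
      field_simp
    have hvτ : Tendsto (fun k => (1 + d) * uu k) atTop (𝓝 ((1 + d) * τ)) := huτ.const_mul _
    have hp1 : Tendsto (fun k => (cl (rr k) (Wn τ ((1 + d) * τ))).toReal) atTop (𝓝 P) := by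
      rw [hP]
      exact win_lim c1 hdτ (half_pos hτ0) hlay
    have hp2 : Tendsto (fun k => (cl (lam ^ (3 / 4 : ℝ) * rr k) (Wn (uu k) ((1 + d) * uu k))).toReal) atTop (𝓝 P) := by
      rw [hP]
      exact win_mv c2 hdτ (half_pos hτ0) hlay huτ hvτ
    have hP0 : 0 < P := by
      have h1 := hlo τ ((1 + d) * τ) hτ0 hdτ hτ1
      have h2 : M' {x | x.2 ∈ Ioo τ ((1 + d) * τ)} ≤ M' (Wn τ ((1 + d) * τ)) := measure_mono fun x hx => ⟨hx.1.le, hx.2⟩
      have h3 : 0 < c * τ ^ (11 / 32 : ℝ) * ((1 + d) * τ - τ) := by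
        have : 0 < (1 + d) * τ - τ := by linarith
        positivity
      rw [hP]
      exact ENNReal.toReal_pos (lt_of_lt_of_le (ENNReal.ofReal_pos.2 h3) (h1.trans h2)).ne' (measure_ne_top _ _)
    -- the ratio of the masses
    have hq : Tendsto (fun k => cR (lam ^ (3 / 4 : ℝ) * rr k) / cR (rr k)) atTop (𝓝 G) := by
      have h2 := (hcR (lam ^ (3 / 4 : ℝ)) hl34).comp hrt
      rw [← Real.rpow_mul hlam.le] at h2
      rw [hG]
      norm_num at h2
      exact h2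
    have hy : Tendsto (fun k => (cR (lam ^ (3 / 4 : ℝ) * rr k) / cR (rr k)) *
        ((cl (lam ^ (3 / 4 : ℝ) * rr k) (Wn (uu k) ((1 + d) * uu k))).toReal / (cl (rr k) (Wn τ ((1 + d) * τ))).toReal))
        atTop (𝓝 (G * (P / P))) :=
      hq.mul (hp2.div hp1 hP0.ne')
    rw [div_self hP0.ne', mul_one] at hy
    have hmt : Tendsto (fun k => m (nk k)) atTop atTop := hm2.comp hnkt
    obtain ⟨k, g1, g2, g3, g4, g5, g6, g7⟩ := ((Metric.tendsto_nhds.1 hy (min 1 (e / 8)) (lt_min one_pos (by positivity))).and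
      ((hnkt.eventually_ge_atTop (max n0 1)).and ((hmt.eventually_ge_atTop (max n0 1)).and
      ((hp1.eventually (lt_mem_nhds hP0)).and ((hp2.eventually (lt_mem_nhds hP0)).and
      ((hrt.eventually_ge_atTop R0).and ((hrt.const_mul_atTop hl34).eventually_ge_atTop R0))))))).exists
    have hk1 : 1 ≤ nk k := (le_max_right _ _).trans g2
    have hkm1 : 1 ≤ m (nk k) := (le_max_right _ _).trans g3
    have n1 : (0 : ℝ) < (nk k : ℕ) := by exact_mod_cast hk1
    have n2 : (0 : ℝ) < (m (nk k) : ℕ) := by exact_mod_cast hkm1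
    -- the weights
    have w1 : |cR (rr k) * (cl (rr k) (Wn τ ((1 + d) * τ))).toReal - d * (nk k : ℕ) * aN (nk k)| ≤
        ε * (d * (nk k : ℕ) * aN (nk k)) := by
      have h1 : L0 * size (nk k) ≤ rr k := by
        have h2 := hs (nk k) hk1
        have h3 : size (nk k) ≤ |Cs| * ((nk k : ℕ) : ℝ) ^ (3 / 4 : ℝ) :=
          h2.trans (mul_le_mul_of_nonneg_right (le_abs_self _) (by positivity))
        rw [hrr]
        calc L0 * size (nk k) ≤ L0 * (|Cs| * ((nk k : ℕ) : ℝ) ^ (3 / 4 : ℝ)) := mul_le_mul_of_nonneg_left h3 hL0.le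
          _ = L0 * |Cs| * ((nk k : ℕ) : ℝ) ^ (3 / 4 : ℝ) := by ring
          _ ≤ L * ((nk k : ℕ) : ℝ) ^ (3 / 4 : ℝ) := mul_le_mul_of_nonneg_right L1 (by positivity)
      have h2 := hW (nk k) ((le_max_left _ _).trans g2) (rr k) h1
      have h4 : ((nk k : ℕ) : ℝ) / (rr k) ^ (4 / 3 : ℝ) = τ := by
        rw [hpow k hk1, hτ]
        field_simp
      have h5 : (1 + d) * ((nk k : ℕ) : ℝ) / (rr k) ^ (4 / 3 : ℝ) = (1 + d) * τ := by
        rw [mul_div_assoc, h4]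
      rw [h4, h5] at h2
      exact h2
    have w2 : |cR (lam ^ (3 / 4 : ℝ) * rr k) * (cl (lam ^ (3 / 4 : ℝ) * rr k) (Wn (uu k) ((1 + d) * uu k))).toReal -
        d * (m (nk k) : ℕ) * aN (m (nk k))| ≤ ε * (d * (m (nk k) : ℕ) * aN (m (nk k))) := by
      have h1 : L0 * size (m (nk k)) ≤ lam ^ (3 / 4 : ℝ) * rr k := by
        have h2 := hs (m (nk k)) hkm1
        have h3 : size (m (nk k)) ≤ |Cs| * ((m (nk k) : ℕ) : ℝ) ^ (3 / 4 : ℝ) :=
          h2.trans (mul_le_mul_of_nonneg_right (le_abs_self _) (by positivity))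
        have h4 : ((m (nk k) : ℕ) : ℝ) ≤ lam * (nk k : ℕ) := by
          rw [hm]
          exact Nat.floor_le (by positivity)
        have h5 : ((m (nk k) : ℕ) : ℝ) ^ (3 / 4 : ℝ) ≤ lam ^ (3 / 4 : ℝ) * ((nk k : ℕ) : ℝ) ^ (3 / 4 : ℝ) := by
          rw [← Real.mul_rpow hlam.le n1.le]
          exact Real.rpow_le_rpow n2.le h4 (by norm_num)
        rw [hrr]
        calc L0 * size (m (nk k)) ≤ L0 * (|Cs| * ((m (nk k) : ℕ) : ℝ) ^ (3 / 4 : ℝ)) :=
              mul_le_mul_of_nonneg_left h3 hL0.le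
          _ = L0 * |Cs| * ((m (nk k) : ℕ) : ℝ) ^ (3 / 4 : ℝ) := by ring
          _ ≤ L * (lam ^ (3 / 4 : ℝ) * ((nk k : ℕ) : ℝ) ^ (3 / 4 : ℝ)) := mul_le_mul L1 h5 (by positivity) Lp.le
          _ = lam ^ (3 / 4 : ℝ) * (L * ((nk k : ℕ) : ℝ) ^ (3 / 4 : ℝ)) := by ring
      have h2 := hW (m (nk k)) ((le_max_left _ _).trans g3) (lam ^ (3 / 4 : ℝ) * rr k) h1
      have h4 : ((m (nk k) : ℕ) : ℝ) / (lam ^ (3 / 4 : ℝ) * rr k) ^ (4 / 3 : ℝ) = uu k := by rw [huu]
      have h5 : (1 + d) * ((m (nk k) : ℕ) : ℝ) / (lam ^ (3 / 4 : ℝ) * rr k) ^ (4 / 3 : ℝ) = (1 + d) * uu k := by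
        rw [mul_div_assoc, h4]
      rw [h4, h5] at h2
      exact h2
    have c1' := hR0 _ g6
    have c2' := hR0 _ g7
    have x1 : 0 < d * (nk k : ℕ) * aN (nk k) := mul_pos (mul_pos hdp n1) (aN_pos _)
    have x2 : 0 < d * (m (nk k) : ℕ) * aN (m (nk k)) := mul_pos (mul_pos hdp n2) (aN_pos _)
    obtain ⟨X, hX⟩ : ∃ X, X = d * (nk k : ℕ) * aN (nk k) := ⟨_, rfl⟩
    obtain ⟨X', hX'⟩ : ∃ X', X' = d * (m (nk k) : ℕ) * aN (m (nk k)) := ⟨_, rfl⟩
    obtain ⟨Y, hY⟩ : ∃ Y, Y = cR (rr k) * (cl (rr k) (Wn τ ((1 + d) * τ))).toReal := ⟨_, rfl⟩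
    obtain ⟨Y', hY'⟩ : ∃ Y', Y' = cR (lam ^ (3 / 4 : ℝ) * rr k) *
      (cl (lam ^ (3 / 4 : ℝ) * rr k) (Wn (uu k) ((1 + d) * uu k))).toReal := ⟨_, rfl⟩
    have e1 : ((m (nk k) : ℕ) * aN (m (nk k))) / ((nk k : ℕ) * aN (nk k)) = X' / X := by
      rw [hX, hX']
      have := (aN_pos (nk k)).ne'
      field_simp
    have e2 : (cR (lam ^ (3 / 4 : ℝ) * rr k) / cR (rr k)) *
        ((cl (lam ^ (3 / 4 : ℝ) * rr k) (Wn (uu k) ((1 + d) * uu k))).toReal / (cl (rr k) (Wn τ ((1 + d) * τ))).toReal) =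
        Y' / Y := by
      rw [hY, hY']
      field_simp
    have hb := hbad (φ k)
    have e3 : ns (φ k) = nk k := by rw [hnk]
    rw [e3] at hb
    apply hb
    rw [e1]
    rw [e2, Real.dist_eq, lt_min_iff] at g1
    rw [← hX, ← hY] at w1
    rw [← hX', ← hY'] at w2
    rw [← hX] at x1
    rw [← hX'] at x2
    have y1 : 0 < Y := by rw [hY]; exact mul_pos c1' g4
    have y2 : 0 < Y' := by rw [hY']; exact mul_pos c2' g5
    obtain ⟨ρ, hρ⟩ : ∃ ρ, ρ = Y' / Y := ⟨_, rfl⟩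
    rw [← hρ] at g1
    have eY : Y' = ρ * Y := by
      rw [hρ]
      field_simp
    have r0 : 0 < ρ := by rw [hρ]; positivity
    have r1 : ρ ≤ G + 1 := by
      have := (abs_lt.1 g1.1).2
      linarith
    rw [abs_le] at w1 w2
    rw [Real.dist_eq]
    have u1 : X' ≤ ρ * (1 + 4 * ε) * X := by
      have h1 : (1 - ε) * X' ≤ Y' := by linarith [w2.1]
      have h2 : Y ≤ (1 + ε) * X := by linarith [w1.2]
      have h3 : (1 - ε) * X' ≤ ρ * ((1 + ε) * X) := by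
        rw [eY] at h1
        exact h1.trans (mul_le_mul_of_nonneg_left h2 r0.le)
      have h4 : ρ * ((1 + ε) * X) ≤ (1 - ε) * (ρ * (1 + 4 * ε) * X) := by
        have h5 : (1 + ε) ≤ (1 - ε) * (1 + 4 * ε) := by nlinarith
        have h6 := mul_le_mul_of_nonneg_left h5 (mul_pos r0 x1).le
        nlinarith
      have h5 : 0 < 1 - ε := by linarith
      exact le_of_mul_le_mul_left (h3.trans h4) h5
    have u2 : ρ * (1 - 4 * ε) * X ≤ X' := by
      have h1 : Y' ≤ (1 + ε) * X' := by linarith [w2.2]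
      have h2 : (1 - ε) * X ≤ Y := by linarith [w1.1]
      have h3 : ρ * ((1 - ε) * X) ≤ (1 + ε) * X' := by
        rw [eY] at h1
        exact (mul_le_mul_of_nonneg_left h2 r0.le).trans h1
      have h4 : (1 + ε) * (ρ * (1 - 4 * ε) * X) ≤ ρ * ((1 - ε) * X) := by
        have h5 : (1 + ε) * (1 - 4 * ε) ≤ 1 - ε := by nlinarith
        have h6 := mul_le_mul_of_nonneg_left h5 (mul_pos r0 x1).le
        nlinarith
      have h5 : 0 < 1 + ε := by linarith
      exact le_of_mul_le_mul_left (h4.trans h3) h5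
    have v1 : X' / X ≤ ρ * (1 + 4 * ε) := by
      rw [div_le_iff₀ x1]
      exact u1
    have v2 : ρ * (1 - 4 * ε) ≤ X' / X := by
      rw [le_div_iff₀ x1]
      exact u2
    have v3 : ρ * ε ≤ e / 8 := by
      have := mul_le_mul_of_nonneg_right r1 hε0.le
      linarith
    have v4 := abs_lt.1 g1.2
    rw [abs_lt]
    constructor <;> nlinarith [v4.1, v4.2]
  -- the conclusion
  have hinv : Tendsto (fun n : ℕ => (((m n : ℕ) : ℝ) / n)⁻¹) atTop (𝓝 lam⁻¹) := hm1.inv₀ hlam.ne'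
  have hfin := main.mul hinv
  have e1 : lam ^ (43 / 32 : ℝ) * lam⁻¹ = lam ^ (11 / 32 : ℝ) := by
    rw [← Real.rpow_neg_one, ← Real.rpow_add hlam]
    norm_num
  rw [e1] at hfin
  refine hfin.congr' ?_
  filter_upwards [eventually_ge_atTop 1, hm2.eventually_ge_atTop 1] with n h1 h2
  have n1 : (0 : ℝ) < n := by exact_mod_cast h1
  have n2 : (0 : ℝ) < (m n : ℕ) := by exact_mod_cast h2
  have a1 := (aN_pos n).ne'
  have e2 : ⌊lam * (n : ℝ)⌋₊ = m n := by rw [hm]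
  rw [e2]
  field_simp

end Pool.Agent.CRT
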