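import Pool.Agent.CRT.TKOf
import Pool.Agent.CRT.RegSz
import Pool.Agent.NTA.FinXAll

/-!
# CRT, rows K3 and K9 (helper69): no other hypothesis than `MainW`
-/

set_option autoImplicit false

open Set Filter Topology MeasureTheory
open scoped ENNReal

namespace Pool.Agent.CRT

open Pool.Agent.NTS.Res
open Pool.Agent.NPR Pool.Agent.NPR.Reg

/-- **K3** -/
theorem tk_of (h : HexObs.NPR.MainW) : TK := by
  obtain ⟨c, C, hc, hS, -, hhol, -⟩ := NTSF.finE
  refine tk_of' hc hS (fun ε hε => ?_) (let ⟨C, _, h⟩ := VF.mUp VF.sharpZ; ⟨C, h⟩) h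
  exact hhol (1 / 2) (by norm_num) (by norm_num) ε hε

/-- the bounds of the size -/
theorem szB : ∃ c C : ℝ, 0 < c ∧ SzB c C := by
  obtain ⟨c, C, hc, hS, -⟩ := NTSF.finE
  exact ⟨c, C, hc, hS⟩

/-- **K9** -/
theorem regSz_w (hinj : ∀ (φ : ℕ → ℕ) (ν : Measure C(unitInterval, ℂ)), Tendsto φ atTop atTop →
    IsProbabilityMeasure ν → LawTo φ ν → ∀ᵐ γ : C(unitInterval, ℂ) ∂ν, Function.Injective γ)
    (h : HexObs.NPR.MainW) : RegSz := by
  obtain ⟨c, C, hc, hS⟩ := szB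
  exact regSz_of hc hS hinj (tk_of h)

end Pool.Agent.CRT
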