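import Pool.Agent.CRT.Defs
import Pool.Agent.PW.Turns

/-!
# CRT, row K7 (helper16): the critical walk in a ball: basic formulas, restriction

* `mem_inB` : a curve is in the ball iff the vertices are; `leave` : long walks leave the ball;
* `cR_pos`, `wR_sum`, `cl_apply`, `cl_real`, `cl_prob`, `cl_int` : weights, probabilities, integrals;
* **`clRes : ClRes`** : the walk in the ball `R` given that it stays in the ball `lam * R`.
-/

set_option autoImplicit false

open Set Filter Topology MeasureTheory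
open scoped ENNReal

namespace Pool.Agent.CRT

open Pool.Agent.NTS.Res
open Pool.Agent.NPR

/-! ### 1. Numbers -/

lemma card_fc {α : Type*} (S : Finset α) (p q : α → Prop) (i : DecidablePred p) (j : DecidablePred q)
    (h : ∀ x ∈ S, p x ↔ q x) : (@Finset.filter α p i S).card = (@Finset.filter α q j S).card :=
  congrArg Finset.card (@Finset.filter_congr α p q i j S h)

lemma fug_pos : 0 < fug := by
  unfold fug
  positivity

lemma aN_pos (n : ℕ) : 0 < aN n := mul_pos (NTSF.saw_card_pos n) (pow_pos fug_pos n)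

lemma size_nonneg (n : ℕ) : 0 ≤ size n := Real.sqrt_nonneg _

lemma size_zero : size 0 = 0 := by
  unfold size
  have h : ∀ s ∈ saw 0, ‖pos s 0‖ ^ 2 = 0 := by
    intro s _
    rw [NTSF.pos_zero, norm_zero]
    norm_num
  rw [Finset.sum_congr rfl h, Finset.sum_const_zero, zero_div, Real.sqrt_zero]

/-- the vertices are points of the curve -/
lemma node {n : ℕ} (s : Fin n → Fin 3) {k : ℕ} (hk : k ≤ n) : ∃ u : unitInterval, curve s u = pos s k / size n := by
  rcases Nat.eq_zero_or_pos n with h0 | hn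
  · subst h0
    have : k = 0 := by omega
    subst this
    exact ⟨0, by rw [NTSF.curve_zero, NTSF.pos_zero, zero_div]⟩
  · have hn0 : (0 : ℝ) < n := by exact_mod_cast hn
    have hk' : (k : ℝ) ≤ n := by exact_mod_cast hk
    refine ⟨⟨(k : ℝ) / n, by positivity, (div_le_one hn0).2 hk'⟩, ?_⟩
    obtain ⟨i, hi, i1, i2⟩ := Tight.th2_idx hn ⟨(k : ℝ) / n, by positivity, (div_le_one hn0).2 hk'⟩
    have hun : ((k : ℝ) / n) * n = k := by field_simp
    rw [NTSF.curve_eq, Tight.poly_apply hi i1 i2]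
    rw [hun] at i1 i2 ⊢
    have h1 : i ≤ k := by exact_mod_cast i1
    have h2 : k ≤ i + 1 := by exact_mod_cast i2
    rcases Nat.lt_or_ge i k with h3 | h3
    · have h4 : k = i + 1 := by omega
      rw [h4]
      push_cast
      ring
    · have h4 : k = i := by omega
      rw [h4]
      simp

/-- the points of the curve are near the vertices, in lattice units -/
lemma near {n : ℕ} (s : Fin n → Fin 3) (u : unitInterval) : ∃ (i : ℕ) (a : ℝ), i ≤ n ∧ i + 1 ≤ max n 1 ∧ 0 ≤ a ∧ a ≤ 1 ∧
    curve s u * size n = ((1 - a : ℝ) : ℂ) * pos s i + (a : ℂ) * pos s (i + 1) := by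
  rcases Nat.eq_zero_or_pos n with h0 | hn
  · subst h0
    refine ⟨0, 0, le_rfl, by simp, le_rfl, zero_le_one, ?_⟩
    rw [size_zero, NTSF.pos_zero]
    simp
  · obtain ⟨i, a, hi, h0, h1, -, -, h⟩ := NTSF.curve_apply hn s u
    refine ⟨i, a, hi.le, by omega, h0, h1, ?_⟩
    have hs := NTSF.size_pos hn
    rw [h, div_mul_cancel₀]
    exact_mod_cast hs.ne'

/-- the curve is in the ball iff the vertices are -/
lemma mem_inB {R : ℝ} (hR : 0 < R) {n : ℕ} (s : Fin n → Fin 3) : curve s ∈ inB R n ↔ ∀ k : ℕ, k ≤ n → ‖pos s k‖ < R := by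
  rcases Nat.eq_zero_or_pos n with h0 | hn
  · subst h0
    constructor
    · intro _ k hk
      have : k = 0 := by omega
      subst this
      rw [NTSF.pos_zero, norm_zero]
      exact hR
    · intro _
      show ‖curve s‖ * size 0 < R
      rw [size_zero, mul_zero]
      exact hR
  · have hs := NTSF.size_pos hn
    constructor
    · intro h k hk
      obtain ⟨u, hu⟩ := node s hk
      have h1 : ‖curve s u‖ ≤ ‖curve s‖ := (curve s).norm_coe_le_norm u
      rw [hu, norm_div, Complex.norm_of_nonneg hs.le, div_le_iff₀ hs] at h1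
      exact lt_of_le_of_lt h1 h
    · intro h
      show ‖curve s‖ * size n < R
      rw [← lt_div_iff₀ hs, ContinuousMap.norm_lt_iff _ (by positivity)]
      intro u
      obtain ⟨i, a, hi, hi', h0, h1, hu⟩ := near s u
      rw [lt_div_iff₀ hs]
      have e : ‖curve s u‖ * size n = ‖((1 - a : ℝ) : ℂ) * pos s i + (a : ℂ) * pos s (i + 1)‖ := by
        rw [← hu, norm_mul, Complex.norm_of_nonneg hs.le]
      rw [e]
      have h2 := h i hi
      have h3 := h (i + 1) (by omega)
      refine lt_of_le_of_lt (norm_add_le _ _) ?_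
      rw [norm_mul, norm_mul, Complex.norm_of_nonneg (by linarith), Complex.norm_of_nonneg h0]
      rcases eq_or_lt_of_le h0 with h4 | h4
      · rw [← h4]
        simpa using h2
      · have h5 : (1 - a) * ‖pos s i‖ ≤ (1 - a) * R := mul_le_mul_of_nonneg_left h2.le (by linarith)
        have h6 : a * ‖pos s (i + 1)‖ < a * R := mul_lt_mul_of_pos_left h3 h4
        linarith

/-- long walks leave the ball -/
lemma leave (R : ℝ) : ∃ N : ℕ, ∀ n, N ≤ n → ∀ s ∈ saw n, ∃ k, k ≤ n ∧ R ≤ ‖pos s k‖ := by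
  obtain ⟨t, -, ht1, ht⟩ := (isCompact_closedBall (0 : ℂ) R).finite_cover_balls (show (0 : ℝ) < 1 / 2 by norm_num)
  refine ⟨ht1.toFinset.card, fun n hn s hs => ?_⟩
  by_contra hcon
  push Not at hcon
  have h1 : ∀ k : ℕ, ∃ x, k ≤ n → x ∈ t ∧ pos s k ∈ Metric.ball x (1 / 2) := by
    intro k
    by_cases hk : k ≤ n
    · have h2 : pos s k ∈ Metric.closedBall (0 : ℂ) R := by
        rw [mem_closedBall_zero_iff]
        exact (hcon k hk).le
      obtain ⟨x, hx, hx'⟩ := Set.mem_iUnion₂.1 (ht h2)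
      exact ⟨x, fun _ => ⟨hx, hx'⟩⟩
    · exact ⟨0, fun h => absurd h hk⟩
  choose f hf using h1
  obtain ⟨i, hi, j, hj, hij, he⟩ := Finset.exists_ne_map_eq_of_card_lt_of_maps_to
    (s := Finset.range (n + 1)) (t := ht1.toFinset) (by rw [Finset.card_range]; omega) (f := f) (fun k hk => by
      have := (hf k (by have := Finset.mem_range.1 hk; omega)).1
      exact ht1.mem_toFinset.2 this)
  have hi' := Finset.mem_range.1 hi
  have hj' := Finset.mem_range.1 hj
  have key : ∀ i j : ℕ, i < j → j ≤ n → f i = f j → False := by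
    intro i j hij hj he
    have h2 := (hf i (by omega)).2
    have h3 := (hf j hj).2
    rw [he] at h2
    rw [Metric.mem_ball, dist_eq_norm] at h2 h3
    have h4 := NTSF.Tn.dist_ge hs hij hj
    have h5 : pos s j - pos s i = (pos s j - f j) - (pos s i - f j) := by ring
    rw [h5] at h4
    have h6 := norm_sub_le (pos s j - f j) (pos s i - f j)
    linarith
  rcases Nat.lt_or_ge i j with h | h
  · exact key i j h (by omega) he
  · exact key j i (by omega) (by omega) he.symm

/-! ### 2. Weights -/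

lemma wR_nonneg (R : ℝ) (n : ℕ) : 0 ≤ wR R n := mul_nonneg (aN_pos n).le ENNReal.toReal_nonneg

lemma law_inB_zero {R : ℝ} (hR : 0 < R) : ∃ N : ℕ, ∀ n, N ≤ n → law n (inB R n) = 0 := by
  obtain ⟨N, hN⟩ := leave R
  refine ⟨N, fun n hn => NTSF.law_zero fun s hs hcon => ?_⟩
  obtain ⟨k, hk, h⟩ := hN n hn s hs
  exact absurd ((mem_inB hR s).1 hcon k hk) (not_lt.2 h)

lemma wR_fin {R : ℝ} (hR : 0 < R) : ∃ N : ℕ, ∀ n, N ≤ n → wR R n = 0 := by
  obtain ⟨N, hN⟩ := law_inB_zero hR
  refine ⟨N, fun n hn => ?_⟩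
  unfold wR
  rw [hN n hn]
  simp

lemma sum_of_zero {f : ℕ → ℝ} {N : ℕ} (h : ∀ n, N ≤ n → f n = 0) : Summable f :=
  summable_of_ne_finset_zero (s := Finset.range N) fun n hn => h n (by
    rw [Finset.mem_range] at hn
    omega)

lemma wR_summable {R : ℝ} (hR : 0 < R) : Summable (wR R) := by
  obtain ⟨N, hN⟩ := wR_fin hR
  exact sum_of_zero hN

lemma inB_zero {R : ℝ} (hR : 0 < R) : inB R 0 = univ := by
  ext γ
  simp only [mem_univ, iff_true]
  show ‖γ‖ * size 0 < R
  rw [size_zero, mul_zero]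
  exact hR

lemma cR_ge {R : ℝ} (hR : 0 < R) : aN 0 ≤ cR R := by
  have h1 : wR R 0 = aN 0 := by
    unfold wR
    rw [inB_zero hR]
    have := NTSF.law_prob 0
    rw [measure_univ, ENNReal.toReal_one, mul_one]
  rw [← h1]
  exact (wR_summable hR).le_tsum 0 fun n _ => wR_nonneg R n

lemma cR_pos {R : ℝ} (hR : 0 < R) : 0 < cR R := (aN_pos 0).trans_le (cR_ge hR)

lemma cont_sc (c : ℝ) : Continuous (sc c) := by
  unfold sc
  fun_prop

lemma norm_sc {c : ℝ} (hc : 0 ≤ c) (γ : CI) : ‖sc c γ‖ = c * ‖γ‖ := by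
  unfold sc
  rw [norm_smul, Complex.norm_of_nonneg hc]

lemma sc_sc (c d : ℝ) (γ : CI) : sc c (sc d γ) = sc (c * d) γ := by
  unfold sc
  rw [smul_smul]
  push_cast
  rfl

lemma sc_one (γ : CI) : sc 1 γ = γ := by
  unfold sc
  rw [Complex.ofReal_one, one_smul]

lemma meas_mk (c x : ℝ) : Measurable fun γ : CI => (sc c γ, x) := (cont_sc c).measurable.prodMk measurable_const

lemma isOpen_inB (R : ℝ) (n : ℕ) : IsOpen (inB R n) :=
  isOpen_lt (continuous_norm.mul continuous_const) continuous_const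

lemma meas_inB (R : ℝ) (n : ℕ) : MeasurableSet (inB R n) := (isOpen_inB R n).measurableSet

/-- the probabilities of the critical walk -/
lemma cl_apply (R : ℝ) {E : Set (CI × ℝ)} (hE : MeasurableSet E) : cl R E =
    ∑' n : ℕ, ENNReal.ofReal (aN n / cR R) * law n (inB R n ∩ {γ | (sc (size n / R) γ, (n : ℝ) / R ^ (4 / 3 : ℝ)) ∈ E}) := by
  unfold cl
  rw [Measure.sum_apply _ hE]
  congr 1
  ext n
  have h := meas_mk (size n / R) ((n : ℝ) / R ^ (4 / 3 : ℝ))
  rw [Measure.smul_apply, smul_eq_mul, Measure.map_apply h hE, Measure.restrict_apply (h hE), inter_comm]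
  rfl

open scoped Classical in
lemma law_real (n : ℕ) (A : Set CI) : (law n A).toReal =
    (((saw n).filter fun s => curve s ∈ A).card : ℝ) / ((saw n).card : ℝ) := by
  rw [NTSF.law_apply, ENNReal.toReal_mul, ENNReal.toReal_inv, ENNReal.toReal_natCast, ENNReal.toReal_natCast]
  rw [div_eq_inv_mul]

open scoped Classical in
lemma wR_eq (R : ℝ) (n : ℕ) : wR R n = (((saw n).filter fun s => curve s ∈ inB R n).card : ℝ) * fug ^ n := by
  unfold wR aN
  rw [law_real]
  have h := (NTSF.saw_card_pos n).ne'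
  field_simp

open scoped Classical in
/-- the number of the walks in an event -/
noncomputable def cnt (R : ℝ) (E : Set (CI × ℝ)) (n : ℕ) : ℕ :=
  ((saw n).filter fun s => curve s ∈ inB R n ∧ (sc (size n / R) (curve s), (n : ℝ) / R ^ (4 / 3 : ℝ)) ∈ E).card

open scoped Classical in
lemma cnt_le (R : ℝ) (E : Set (CI × ℝ)) (n : ℕ) : cnt R E n ≤ ((saw n).filter fun s => curve s ∈ inB R n).card :=
  Finset.card_le_card fun _ hs => by
    rw [Finset.mem_filter] at hs ⊢
    exact ⟨hs.1, hs.2.1⟩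

lemma cnt_summable {R : ℝ} (hR : 0 < R) (E : Set (CI × ℝ)) : Summable fun n : ℕ => (cnt R E n : ℝ) * fug ^ n := by
  refine Summable.of_nonneg_of_le (fun n => by have := fug_pos; positivity) (fun n => ?_) (wR_summable hR)
  rw [wR_eq]
  have h : (cnt R E n : ℝ) ≤ _ := Nat.cast_le.2 (cnt_le R E n)
  exact mul_le_mul_of_nonneg_right h (pow_pos fug_pos n).le

/-- the probabilities of the critical walk, by counting -/
lemma cl_real (R : ℝ) {E : Set (CI × ℝ)} (hE : MeasurableSet E) :
    (cl R E).toReal = (∑' n : ℕ, (cnt R E n : ℝ) * fug ^ n) / cR R := by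
  classical
  have hc : 0 ≤ cR R := tsum_nonneg (wR_nonneg R)
  have hp := NTSF.law_prob
  rw [cl_apply R hE, ENNReal.tsum_toReal_eq fun n => ENNReal.mul_ne_top ENNReal.ofReal_ne_top (measure_ne_top _ _), ← tsum_div_const]
  congr 1
  ext n
  rw [ENNReal.toReal_mul, ENNReal.toReal_ofReal (div_nonneg (aN_pos n).le hc), law_real]
  have h := (NTSF.saw_card_pos n).ne'
  unfold aN cnt
  rw [div_mul_div_comm, mul_comm (cR R), mul_assoc, mul_div_mul_left _ _ h, mul_comm (fug ^ n)]
  refine congrArg (fun m : ℕ => (m : ℝ) * fug ^ n / cR R) (card_fc _ _ _ _ _ fun s _ => Iff.rfl)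

lemma cnt_univ (R : ℝ) (n : ℕ) : (cnt R univ n : ℝ) * fug ^ n = wR R n := by
  classical
  rw [wR_eq]
  unfold cnt
  refine congrArg (fun m : ℕ => (m : ℝ) * fug ^ n) (card_fc _ _ _ _ _ fun s _ =>
    ⟨fun h => h.1, fun h => ⟨h, mem_univ _⟩⟩)

theorem cl_prob {R : ℝ} (hR : 0 < R) : IsProbabilityMeasure (cl R) := by
  constructor
  have h := cl_real R (E := univ) MeasurableSet.univ
  rw [tsum_congr (cnt_univ R)] at h
  have h1 : (cl R univ).toReal = 1 := by
    rw [h]
    exact div_self (cR_pos hR).ne'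
  exact (ENNReal.toReal_eq_one_iff _).1 h1

/-- the integrals of the critical walk -/
theorem cl_int {R : ℝ} (hR : 0 < R) {f : CI × ℝ → ℝ} (hf : Measurable f) {C : ℝ} (hC : ∀ x, |f x| ≤ C) :
    ∫ x, f x ∂(cl R) = ∑' n : ℕ, aN n / cR R * ∫ γ, (inB R n).indicator
      (fun γ => f (sc (size n / R) γ, (n : ℝ) / R ^ (4 / 3 : ℝ))) γ ∂(law n) := by
  have hprob := cl_prob hR
  have hint : Integrable f (cl R) := by
    refine Integrable.of_bound hf.aestronglyMeasurable C (Filter.Eventually.of_forall fun x => ?_)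
    rw [Real.norm_eq_abs]
    exact hC x
  have hint' := hint
  unfold cl at hint' ⊢
  rw [integral_sum_measure hint']
  congr 1
  ext n
  have h := meas_mk (size n / R) ((n : ℝ) / R ^ (4 / 3 : ℝ))
  rw [integral_smul_measure, integral_map h.aemeasurable hf.aestronglyMeasurable, integral_indicator (meas_inB R n),
    ENNReal.toReal_ofReal (div_nonneg (aN_pos n).le (cR_pos hR).le), smul_eq_mul]

open scoped Classical in
/-- the integrals of the critical walk, by counting -/
theorem cl_sum {R : ℝ} (hR : 0 < R) {f : CI × ℝ → ℝ} (hf : Measurable f) {C : ℝ} (hC : ∀ x, |f x| ≤ C) :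
    ∫ x, f x ∂(cl R) = (∑' n : ℕ, (∑ s ∈ (saw n).filter fun s => curve s ∈ inB R n,
      f (sc (size n / R) (curve s), (n : ℝ) / R ^ (4 / 3 : ℝ))) * fug ^ n) / cR R := by
  rw [cl_int hR hf hC, ← tsum_div_const]
  congr 1
  ext n
  rw [NTSF.integral_law, Finset.sum_filter]
  have h := (NTSF.saw_card_pos n).ne'
  unfold aN
  simp only [Set.indicator_apply]
  field_simp

open scoped Classical in
lemma cnt_zero {R : ℝ} {E : Set (CI × ℝ)} {n : ℕ}
    (h : ∀ s ∈ saw n, ¬ (curve s ∈ inB R n ∧ (sc (size n / R) (curve s), (n : ℝ) / R ^ (4 / 3 : ℝ)) ∈ E)) :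
    cnt R E n = 0 := by
  unfold cnt
  rw [Finset.card_eq_zero, Finset.filter_eq_empty_iff]
  exact h

/-- **K7'** -/
theorem clPr : ClPr := by
  intro R hR
  have hp := cl_prob hR
  refine ⟨hp, cR_pos hR, ?_⟩
  have hE : MeasurableSet {x : CI × ℝ | ¬ (‖x.1‖ < 1 ∧ x.1 0 = 0)} := by
    refine MeasurableSet.compl (MeasurableSet.inter ?_ ?_)
    · exact (isOpen_lt (continuous_norm.comp continuous_fst) continuous_const).measurableSet
    · exact (isClosed_eq ((continuous_eval_const 0).comp continuous_fst) continuous_const).measurableSet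
  have h0 : ∀ n : ℕ, cnt R {x : CI × ℝ | ¬ (‖x.1‖ < 1 ∧ x.1 0 = 0)} n = 0 := by
    intro n
    refine cnt_zero ?_
    rintro s - ⟨h1, h2⟩
    refine h2 ⟨?_, ?_⟩
    · show ‖sc (size n / R) (curve s)‖ < 1
      rw [norm_sc (div_nonneg (size_nonneg n) hR.le), div_mul_eq_mul_div, div_lt_one hR, mul_comm]
      exact h1
    · show ((size n / R : ℝ) : ℂ) * curve s 0 = 0
      rw [NTSF.curve_zero, mul_zero]
  have h1 := cl_real R hE
  simp only [h0, Nat.cast_zero, zero_mul, tsum_zero, zero_div] at h1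
  rw [ae_iff]
  exact (ENNReal.toReal_eq_zero_iff _).1 h1 |>.resolve_right (measure_ne_top _ _)

/-! ### 3. Restriction -/

/-- **K7** -/
theorem clRes : ClRes := by
  intro R lam hR hlam hlam1
  have hR' : 0 < lam * R := mul_pos hlam hR
  have hmap : Measurable fun x : CI × ℝ => (sc (1 / lam) x.1, x.2 / lam ^ (4 / 3 : ℝ)) :=
    ((cont_sc _).measurable.comp measurable_fst).prodMk (measurable_snd.div_const _)
  have hB : MeasurableSet {x : CI × ℝ | ‖x.1‖ < lam} :=
    (isOpen_lt (continuous_norm.comp continuous_fst) continuous_const).measurableSet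
  refine Measure.ext fun E hE => ?_
  rw [Measure.map_apply hmap hE, Measure.restrict_apply (hmap hE), cl_apply R ((hmap hE).inter hB), Measure.smul_apply,
    cl_apply _ hE, smul_eq_mul, ← ENNReal.tsum_mul_left]
  congr 1
  ext n
  have hset : inB R n ∩ {γ | (sc (size n / R) γ, (n : ℝ) / R ^ (4 / 3 : ℝ)) ∈
      (fun x : CI × ℝ => (sc (1 / lam) x.1, x.2 / lam ^ (4 / 3 : ℝ))) ⁻¹' E ∩ {x : CI × ℝ | ‖x.1‖ < lam}} =
      inB (lam * R) n ∩ {γ | (sc (size n / (lam * R)) γ, (n : ℝ) / (lam * R) ^ (4 / 3 : ℝ)) ∈ E} := by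
    ext γ
    have e1 : sc (1 / lam) (sc (size n / R) γ) = sc (size n / (lam * R)) γ := by
      rw [sc_sc]
      congr 1
      field_simp
    have e2 : (n : ℝ) / R ^ (4 / 3 : ℝ) / lam ^ (4 / 3 : ℝ) = (n : ℝ) / (lam * R) ^ (4 / 3 : ℝ) := by
      rw [div_div, Real.mul_rpow hlam.le hR.le, mul_comm]
    have e3 : ‖sc (size n / R) γ‖ < lam ↔ ‖γ‖ * size n < lam * R := by
      rw [norm_sc (div_nonneg (size_nonneg n) hR.le), div_mul_eq_mul_div, div_lt_iff₀ hR, mul_comm (size n)]
    simp only [mem_inter_iff, mem_ofPred_eq, mem_preimage, e1, e2, e3]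
    constructor
    · rintro ⟨h1, h2, h3⟩
      exact ⟨h3, h2⟩
    · rintro ⟨h1, h2⟩
      refine ⟨?_, h2, h1⟩
      show ‖γ‖ * size n < R
      have h3 : ‖γ‖ * size n < lam * R := h1
      nlinarith
  rw [hset, ← mul_assoc, ← ENNReal.ofReal_mul (div_nonneg (cR_pos hR').le (cR_pos hR).le)]
  congr 2
  have h1 := (cR_pos hR').ne'
  have h2 := (cR_pos hR).ne'
  field_simp

/-! ### 4. Vertices and curves -/

/-- the critical weight by counting, for the ball -/
lemma chi_ball {R : ℝ} (hR : 0 < R) : chi R (Metric.ball 0 1) = cR R := by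
  classical
  unfold chi cR
  congr 1
  ext n
  rw [wR_eq]
  congr 2
  refine congrArg _ (Finset.filter_congr fun s _ => ?_)
  rw [mem_inB hR]
  refine forall₂_congr fun k _ => ?_
  rw [mem_ball_zero_iff, norm_div, Complex.norm_of_nonneg hR.le, div_lt_one hR]

open scoped Classical in
lemma chi_summable {R : ℝ} (hR : 0 < R) {V : Set ℂ} (hV : V ⊆ Metric.ball 0 1) : Summable fun n : ℕ =>
    (((saw n).filter fun s => ∀ k : ℕ, k ≤ n → pos s k / R ∈ V).card : ℝ) * fug ^ n := by
  refine Summable.of_nonneg_of_le (fun n => mul_nonneg (Nat.cast_nonneg _) (pow_pos fug_pos n).le) (fun n => ?_) (wR_summable hR)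
  rw [wR_eq]
  refine mul_le_mul_of_nonneg_right ?_ (pow_pos fug_pos n).le
  refine Nat.cast_le.2 (Finset.card_le_card fun s hs => ?_)
  rw [Finset.mem_filter] at hs ⊢
  refine ⟨hs.1, (mem_inB hR s).2 fun k hk => ?_⟩
  have := hV (hs.2 k hk)
  rwa [mem_ball_zero_iff, norm_div, Complex.norm_of_nonneg hR.le, div_lt_one hR] at this

lemma isClosed_range_sub {K : Set ℂ} (hK : IsClosed K) : IsClosed {x : CI × ℝ | range x.1 ⊆ K} := by
  have e : {x : CI × ℝ | range x.1 ⊆ K} = ⋂ u : unitInterval, {x : CI × ℝ | x.1 u ∈ K} := by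
    ext x
    rw [mem_iInter]
    exact range_subset_iff
  rw [e]
  exact isClosed_iInter fun u => hK.preimage ((continuous_eval_const u).comp continuous_fst)

/-- **K1'** -/
theorem chiCl : ChiCl := by
  classical
  intro R V hR hVo hV
  have hc := cR_pos hR
  have hproj : Continuous fun x : CI × ℝ => x.1 := continuous_fst
  rw [chi_ball hR]
  constructor
  · have hE : MeasurableSet {x : CI × ℝ | range x.1 ⊆ V} :=
      ((ContinuousMap.isOpen_setOfPred_range_subset hVo).preimage hproj).measurableSet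
    rw [cl_real R hE]
    refine div_le_div_of_nonneg_right ?_ hc.le
    refine (cnt_summable hR _).tsum_le_tsum (fun n => ?_) (chi_summable hR hV)
    refine mul_le_mul_of_nonneg_right ?_ (pow_pos fug_pos n).le
    refine Nat.cast_le.2 (Finset.card_le_card fun s hs => ?_)
    rw [Finset.mem_filter] at hs ⊢
    refine ⟨hs.1, fun k hk => ?_⟩
    obtain ⟨u, hu⟩ := node s hk
    have h1 := hs.2.2 ⟨u, rfl⟩
    have h2 : (sc (size n / R) (curve s)) u = pos s k / R := by
      show ((size n / R : ℝ) : ℂ) * curve s u = _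
      rw [hu]
      rcases Nat.eq_zero_or_pos n with h3 | h3
      · subst h3
        have : k = 0 := by omega
        subst this
        rw [NTSF.pos_zero]
        simp
      · have h4 : ((size n : ℝ) : ℂ) ≠ 0 := by exact_mod_cast (NTSF.size_pos h3).ne'
        push_cast
        field_simp
    rwa [h2] at h1
  · intro t ht
    have hE : MeasurableSet {x : CI × ℝ | range x.1 ⊆ Metric.cthickening t V} :=
      (isClosed_range_sub Metric.isClosed_cthickening).measurableSet
    rw [cl_real R hE]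
    refine div_le_div_of_nonneg_right ?_ hc.le
    refine (chi_summable hR hV).tsum_le_tsum (fun n => ?_) (cnt_summable hR _)
    refine mul_le_mul_of_nonneg_right ?_ (pow_pos fug_pos n).le
    refine Nat.cast_le.2 (Finset.card_le_card fun s hs => ?_)
    rw [Finset.mem_filter] at hs ⊢
    refine ⟨hs.1, (mem_inB hR s).2 fun k hk => ?_, ?_⟩
    · have := hV (hs.2 k hk)
      rwa [mem_ball_zero_iff, norm_div, Complex.norm_of_nonneg hR.le, div_lt_one hR] at this
    · rintro _ ⟨u, rfl⟩
      obtain ⟨i, a, hi, hi', ha0, ha1, hu⟩ := near s u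
      have h2 : (sc (size n / R) (curve s)) u = (((1 - a : ℝ) : ℂ) * pos s i + (a : ℂ) * pos s (i + 1)) / R := by
        show ((size n / R : ℝ) : ℂ) * curve s u = _
        rw [← hu]
        push_cast
        ring
      rw [h2]
      refine Metric.mem_cthickening_of_dist_le _ (pos s i / R) t V (hs.2 i hi) ?_
      refine le_trans ?_ ht
      rw [dist_eq_norm, ← sub_div, norm_div, Complex.norm_of_nonneg hR.le, div_le_div_iff_of_pos_right hR]
      have h3 : ((1 - a : ℝ) : ℂ) * pos s i + (a : ℂ) * pos s (i + 1) - pos s i = (a : ℂ) * (pos s (i + 1) - pos s i) := by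
        push_cast
        ring
      rw [h3, norm_mul, Complex.norm_of_nonneg ha0]
      rcases Nat.lt_or_ge i n with h4 | h4
      · rw [NTSF.Tn.step_len s h4, mul_one]
        exact ha1
      · have h5 : pos s (i + 1) = pos s i := by
          have h6 : n = 0 := by omega
          subst h6
          rfl
        rw [h5, sub_self, norm_zero, mul_zero]
        exact zero_le_one

end Pool.Agent.CRT
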