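import Pool.Agent.CRT.Mass
import Pool.Agent.CRT.Res
import Pool.Agent.CRT.Weak

/-!
# CRT, row K5c (helper42): the times of the limits

* `cl_time` : the law of the time of the critical walk;
* `cl_up`, `cl_low`, `cl_tail` : bounds for finite radius;
* **`clTime : ClTime`**.
-/

set_option autoImplicit false

open Set Filter Topology MeasureTheory
open scoped ENNReal

namespace Pool.Agent.CRT

namespace TM

open Pool.Agent.NTS.Res

/-- the law of the time -/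
lemma cl_time {R : ℝ} {B : Set ℝ} (hB : MeasurableSet B) : cl R {x | x.2 ∈ B} =
    ∑' n : ℕ, B.indicator (fun _ => ENNReal.ofReal (wR R n / cR R)) ((n : ℝ) / R ^ (4 / 3 : ℝ)) := by
  have hE : MeasurableSet {x : CI × ℝ | x.2 ∈ B} := measurable_snd hB
  rw [cl_apply R hE]
  refine tsum_congr fun n => ?_
  by_cases h : (n : ℝ) / R ^ (4 / 3 : ℝ) ∈ B
  · rw [indicator_of_mem h]
    have e : (inB R n ∩ {γ | (sc (size n / R) γ, (n : ℝ) / R ^ (4 / 3 : ℝ)) ∈ {x : CI × ℝ | x.2 ∈ B}}) = inB R n := by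
      ext γ
      exact ⟨fun h1 => h1.1, fun h1 => ⟨h1, h⟩⟩
    have hp := NTSF.law_prob n
    rw [e]
    unfold wR
    have h2 : law n (inB R n) ≠ ⊤ := measure_ne_top _ _
    rw [mul_div_right_comm, ENNReal.ofReal_mul' ENNReal.toReal_nonneg, ENNReal.ofReal_toReal h2]
  · rw [indicator_of_notMem h]
    have e : (inB R n ∩ {γ | (sc (size n / R) γ, (n : ℝ) / R ^ (4 / 3 : ℝ)) ∈ {x : CI × ℝ | x.2 ∈ B}}) = ∅ := by
      rw [Set.eq_empty_iff_forall_notMem]
      exact fun γ h1 => h h1.2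
    rw [e, measure_empty, mul_zero]

lemma pow_s {R : ℝ} (hR : 0 < R) : (R ^ (4 / 3 : ℝ)) ^ (11 / 32 : ℝ) * R ^ (4 / 3 : ℝ) = R ^ (43 / 24 : ℝ) := by
  rw [← Real.rpow_mul hR.le, ← Real.rpow_add hR]
  norm_num

/-- **upper bound** -/
lemma cl_up : ∃ C R0 : ℝ, 0 < C ∧ 0 < R0 ∧ ∀ (R a b : ℝ) (B : Set ℝ), R0 ≤ R → 0 ≤ a → a ≤ b → 1 ≤ b * R ^ (4 / 3 : ℝ) →
    MeasurableSet B → (∀ y ∈ B, 0 ≤ y → y ∈ Icc a b) →
    cl R {x | x.2 ∈ B} ≤ ENNReal.ofReal (C * b ^ (11 / 32 : ℝ) * ((b - a) + R ^ (-(4 / 3) : ℝ))) := by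
  obtain ⟨c, C, hc, hC, ha⟩ := _root_.CRT.Mass.aN_bounds
  obtain ⟨c1, C1, R1, hc1, hR1, hm⟩ := _root_.CRT.Mass.massB
  obtain ⟨D, hD⟩ : ∃ D, D = max C (aN 0) := ⟨_, rfl⟩
  have hD0 : 0 < D := by rw [hD]; exact lt_max_of_lt_left hC
  refine ⟨D / c1, R1, by positivity, hR1, fun R a b B hR ha0 hab hb hB hBI => ?_⟩
  have hR0 : 0 < R := hR1.trans_le hR
  obtain ⟨S, hS⟩ : ∃ S, S = R ^ (4 / 3 : ℝ) := ⟨_, rfl⟩
  have hS0 : 0 < S := by rw [hS]; positivity
  rw [← hS] at hb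
  have hb0 : 0 < b := by
    by_contra h
    push Not at h
    nlinarith
  have hcR : 0 < cR R := cR_pos hR0
  have hbound : ∀ n : ℕ, (n : ℝ) ≤ b * S → aN n ≤ D * (b * S) ^ (11 / 32 : ℝ) := by
    intro n hn
    rcases Nat.eq_zero_or_pos n with h0 | h0
    · rw [h0]
      have h1 : 1 ≤ (b * S) ^ (11 / 32 : ℝ) := Real.one_le_rpow hb (by norm_num)
      have h2 : aN 0 ≤ D := by rw [hD]; exact le_max_right _ _
      nlinarith
    · refine ((ha n h0).2).trans ?_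
      have h1 : (n : ℝ) ^ (11 / 32 : ℝ) ≤ (b * S) ^ (11 / 32 : ℝ) := Real.rpow_le_rpow (by positivity) hn (by norm_num)
      have h2 : C ≤ D := by rw [hD]; exact le_max_left _ _
      exact mul_le_mul h2 h1 (by positivity) hD0.le
  rw [cl_time hB, ← hS]
  have hterm : ∀ n : ℕ, B.indicator (fun _ => ENNReal.ofReal (wR R n / cR R)) ((n : ℝ) / S) ≤
      (if n ∈ Finset.Icc ⌈a * S⌉₊ ⌊b * S⌋₊ then ENNReal.ofReal (D * (b * S) ^ (11 / 32 : ℝ) / cR R) else 0) := by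
    intro n
    by_cases h1 : (n : ℝ) / S ∈ B
    · rw [indicator_of_mem h1]
      have h3 := hBI _ h1 (by positivity)
      rw [mem_Icc, le_div_iff₀ hS0, div_le_iff₀ hS0] at h3
      rw [if_pos (Finset.mem_Icc.2 ⟨Nat.ceil_le.2 h3.1, Nat.le_floor h3.2⟩)]
      refine ENNReal.ofReal_le_ofReal (div_le_div_of_nonneg_right ?_ hcR.le)
      refine le_trans ?_ (hbound n h3.2)
      unfold wR
      have hp := NTSF.law_prob n
      have h4 : (law n (inB R n)).toReal ≤ 1 :=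
        ENNReal.toReal_le_of_le_ofReal (by norm_num) (by rw [ENNReal.ofReal_one]; exact prob_le_one)
      exact mul_le_of_le_one_right (aN_pos n).le h4
    · rw [indicator_of_notMem h1]
      exact zero_le
  refine (ENNReal.tsum_le_tsum hterm).trans ?_
  rw [tsum_eq_sum (s := Finset.Icc ⌈a * S⌉₊ ⌊b * S⌋₊) (fun n hn => if_neg hn), Finset.sum_ite_mem, Finset.inter_self,
    Finset.sum_const, nsmul_eq_mul, ← ENNReal.ofReal_natCast, ← ENNReal.ofReal_mul (Nat.cast_nonneg _)]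
  refine ENNReal.ofReal_le_ofReal ?_
  have hcard : ((Finset.Icc ⌈a * S⌉₊ ⌊b * S⌋₊).card : ℝ) ≤ (b - a) * S + 1 := by
    rw [Nat.card_Icc]
    have h1 := Nat.le_ceil (a * S)
    have h2 := Nat.floor_le (show 0 ≤ b * S by positivity)
    rcases le_total (⌈a * S⌉₊) (⌊b * S⌋₊ + 1) with h3 | h3
    · rw [Nat.cast_sub h3]
      push_cast
      linarith
    · rw [Nat.sub_eq_zero_of_le h3, Nat.cast_zero]
      have := mul_nonneg (sub_nonneg.2 hab) hS0.le
      linarith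
  have hlow := (hm R hR).1
  have hp := pow_s hR0
  rw [← hS] at hp
  have hRp : 0 < R ^ (43 / 24 : ℝ) := by positivity
  have hSi : R ^ (-(4 / 3) : ℝ) = 1 / S := by
    rw [hS, Real.rpow_neg hR0.le, one_div]
  have hx : 0 ≤ D * (b * S) ^ (11 / 32 : ℝ) := by positivity
  calc ((Finset.Icc ⌈a * S⌉₊ ⌊b * S⌋₊).card : ℝ) * (D * (b * S) ^ (11 / 32 : ℝ) / cR R) ≤
      ((b - a) * S + 1) * (D * (b * S) ^ (11 / 32 : ℝ) / (c1 * R ^ (43 / 24 : ℝ))) := by
        refine mul_le_mul hcard (div_le_div_of_nonneg_left hx (by positivity) hlow) (by positivity) ?_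
        have := mul_nonneg (sub_nonneg.2 hab) hS0.le
        linarith
    _ = D / c1 * b ^ (11 / 32 : ℝ) * ((b - a) + R ^ (-(4 / 3) : ℝ)) := by
        rw [hSi, ← hp, Real.mul_rpow hb0.le hS0.le]
        have h1 : 0 < S ^ (11 / 32 : ℝ) := by positivity
        field_simp

/-- **lower bound** -/
lemma cl_low : ∃ c t0 R0 : ℝ, 0 < c ∧ 0 < t0 ∧ 0 < R0 ∧ ∀ (R a b : ℝ), R0 ≤ R → 0 < a → b ≤ t0 → 1 ≤ a * R ^ (4 / 3 : ℝ) →
    ENNReal.ofReal (c * a ^ (11 / 32 : ℝ) * ((b - a) - R ^ (-(4 / 3) : ℝ))) ≤ cl R {x | x.2 ∈ Icc a b} := by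
  obtain ⟨M, hM, hhalf⟩ := _root_.CRT.Mass.half_in
  obtain ⟨c, C, hc, hC, ha⟩ := _root_.CRT.Mass.aN_bounds
  obtain ⟨c1, C1, R1, hc1, hR1, hm⟩ := _root_.CRT.Mass.massB
  obtain ⟨C2, hC2⟩ : ∃ C2, C2 = max C1 1 := ⟨_, rfl⟩
  have hC20 : 0 < C2 := by rw [hC2]; exact lt_max_of_lt_right one_pos
  have hM0 : 0 < M := by linarith
  refine ⟨1 / 2 * c / C2, (1 / (2 * M)) ^ (4 / 3 : ℝ), R1, by positivity, by positivity, hR1, fun R a b hR ha0 hb h1a => ?_⟩
  have hR0 : 0 < R := hR1.trans_le hR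
  obtain ⟨S, hS⟩ : ∃ S, S = R ^ (4 / 3 : ℝ) := ⟨_, rfl⟩
  have hS0 : 0 < S := by rw [hS]; positivity
  rw [← hS] at h1a
  have hSi : R ^ (-(4 / 3) : ℝ) = 1 / S := by
    rw [hS, Real.rpow_neg hR0.le, one_div]
  rcases le_total b a with hba | hab
  · rw [ENNReal.ofReal_of_nonpos]
    · exact zero_le
    · have : 0 < R ^ (-(4 / 3) : ℝ) := by positivity
      refine mul_nonpos_of_nonneg_of_nonpos (by positivity) ?_
      linarith
  have hcR : 0 < cR R := cR_pos hR0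
  rw [cl_time measurableSet_Icc, ← hS]
  refine le_trans ?_ (ENNReal.sum_le_tsum (Finset.Icc ⌈a * S⌉₊ ⌊b * S⌋₊))
  have hterm : ∀ n ∈ Finset.Icc ⌈a * S⌉₊ ⌊b * S⌋₊,
      ENNReal.ofReal (1 / 2 * (c * (a * S) ^ (11 / 32 : ℝ)) / cR R) ≤
      (Icc a b).indicator (fun _ => ENNReal.ofReal (wR R n / cR R)) ((n : ℝ) / S) := by
    intro n hn
    rw [Finset.mem_Icc] at hn
    have h1 : a * S ≤ n := (Nat.le_ceil _).trans (by exact_mod_cast hn.1)
    have h2 : (n : ℝ) ≤ b * S := (Nat.cast_le.2 hn.2).trans (Nat.floor_le (by nlinarith))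
    have hn1 : 1 ≤ n := by
      have : (1 : ℝ) ≤ n := h1a.trans h1
      exact_mod_cast this
    rw [indicator_of_mem (show (n : ℝ) / S ∈ Icc a b by rw [mem_Icc, le_div_iff₀ hS0, div_le_iff₀ hS0]; exact ⟨h1, h2⟩)]
    refine ENNReal.ofReal_le_ofReal (div_le_div_of_nonneg_right ?_ hcR.le)
    have h3 : M * (n : ℝ) ^ (3 / 4 : ℝ) < R := by
      have h4 : (n : ℝ) ^ (3 / 4 : ℝ) ≤ 1 / (2 * M) * R := by
        calc (n : ℝ) ^ (3 / 4 : ℝ) ≤ ((1 / (2 * M)) ^ (4 / 3 : ℝ) * S) ^ (3 / 4 : ℝ) :=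
              Real.rpow_le_rpow (by positivity) (h2.trans (mul_le_mul_of_nonneg_right hb hS0.le)) (by norm_num)
          _ = 1 / (2 * M) * R := by
            rw [hS, ← Real.mul_rpow (by positivity) hR0.le, ← Real.rpow_mul (by positivity)]
            norm_num
      calc M * (n : ℝ) ^ (3 / 4 : ℝ) ≤ M * (1 / (2 * M) * R) := mul_le_mul_of_nonneg_left h4 hM0.le
        _ = R / 2 := by field_simp
        _ < R := by linarith
    refine le_trans ?_ (hhalf n R hn1 h3)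
    refine mul_le_mul_of_nonneg_left (le_trans ?_ (ha n hn1).1) (by norm_num)
    exact mul_le_mul_of_nonneg_left (Real.rpow_le_rpow (by positivity) h1 (by norm_num)) hc.le
  refine le_trans ?_ (Finset.card_nsmul_le_sum _ _ _ hterm)
  rw [nsmul_eq_mul, ← ENNReal.ofReal_natCast, ← ENNReal.ofReal_mul (Nat.cast_nonneg _)]
  refine ENNReal.ofReal_le_ofReal ?_
  have hcard : (b - a) * S - 1 ≤ ((Finset.Icc ⌈a * S⌉₊ ⌊b * S⌋₊).card : ℝ) := by
    rw [Nat.card_Icc]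
    have h1 := Nat.ceil_lt_add_one (show 0 ≤ a * S by positivity)
    have h2 := Nat.lt_floor_add_one (b * S)
    have h3 : ((⌊b * S⌋₊ + 1 : ℕ) : ℝ) - (⌈a * S⌉₊ : ℝ) ≤ ((⌊b * S⌋₊ + 1 - ⌈a * S⌉₊ : ℕ) : ℝ) := by
      rcases le_total (⌈a * S⌉₊) (⌊b * S⌋₊ + 1) with h3 | h3
      · rw [Nat.cast_sub h3]
      · rw [Nat.sub_eq_zero_of_le h3, Nat.cast_zero]
        have : ((⌊b * S⌋₊ + 1 : ℕ) : ℝ) ≤ (⌈a * S⌉₊ : ℝ) := Nat.cast_le.2 h3
        linarith
    push_cast at h3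
    linarith
  have hup : cR R ≤ C2 * R ^ (43 / 24 : ℝ) :=
    ((hm R hR).2).trans (mul_le_mul_of_nonneg_right (by rw [hC2]; exact le_max_left _ _) (by positivity))
  have hp := pow_s hR0
  rw [← hS] at hp
  have hRp : 0 < R ^ (43 / 24 : ℝ) := by positivity
  obtain ⟨y, hy⟩ : ∃ y, y = 1 / 2 * (c * (a * S) ^ (11 / 32 : ℝ)) := ⟨_, rfl⟩
  have hy0 : 0 ≤ y := by rw [hy]; positivity
  rw [← hy]
  have e1 : 1 / 2 * c / C2 * a ^ (11 / 32 : ℝ) * (b - a - R ^ (-(4 / 3) : ℝ)) =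
      ((b - a) * S - 1) * (y / (C2 * R ^ (43 / 24 : ℝ))) := by
    rw [hSi, ← hp, hy, Real.mul_rpow ha0.le hS0.le]
    have h1 : 0 < S ^ (11 / 32 : ℝ) := by positivity
    field_simp
  rw [e1]
  calc ((b - a) * S - 1) * (y / (C2 * R ^ (43 / 24 : ℝ))) ≤
      ((Finset.Icc ⌈a * S⌉₊ ⌊b * S⌋₊).card : ℝ) * (y / (C2 * R ^ (43 / 24 : ℝ))) :=
        mul_le_mul_of_nonneg_right hcard (by positivity)
    _ ≤ _ := mul_le_mul_of_nonneg_left (div_le_div_of_nonneg_left hy0 hcR hup) (by positivity)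

/-- **tail** -/
lemma cl_tail : ∀ ε : ℝ, 0 < ε → ∃ T R0 : ℝ, 0 < T ∧ 0 < R0 ∧ ∀ R : ℝ, R0 ≤ R →
    cl R {x | x.2 ∈ Ioi T} ≤ ENNReal.ofReal ε := by
  intro ε hε
  obtain ⟨c1, C1, R1, hc1, hR1, hm⟩ := _root_.CRT.Mass.massB
  obtain ⟨T, R2, hT, hR2, h⟩ := _root_.CRT.Mass.massT (ε * c1) (by positivity)
  refine ⟨T, max R1 R2, hT, lt_max_of_lt_left hR1, fun R hR => ?_⟩
  have hR0 : 0 < R := hR1.trans_le ((le_max_left _ _).trans hR)
  have hcR : 0 < cR R := cR_pos hR0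
  have hS0 : 0 < R ^ (4 / 3 : ℝ) := by positivity
  have h1 := h R ((le_max_right _ _).trans hR)
  have h2 := (hm R ((le_max_left _ _).trans hR)).1
  have h0 : ∀ n : ℕ, 0 ≤ (if T * R ^ (4 / 3 : ℝ) < (n : ℝ) then wR R n else 0) := by
    intro n
    split_ifs
    · exact wR_nonneg R n
    · exact le_rfl
  have hsum : Summable fun n : ℕ => if T * R ^ (4 / 3 : ℝ) < (n : ℝ) then wR R n else 0 := by
    refine Summable.of_nonneg_of_le h0 (fun n => ?_) (wR_summable hR0)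
    split_ifs
    · exact le_rfl
    · exact wR_nonneg R n
  rw [cl_time measurableSet_Ioi]
  have e : ∀ n : ℕ, (Ioi T).indicator (fun _ => ENNReal.ofReal (wR R n / cR R)) ((n : ℝ) / R ^ (4 / 3 : ℝ)) =
      ENNReal.ofReal ((if T * R ^ (4 / 3 : ℝ) < (n : ℝ) then wR R n else 0) / cR R) := by
    intro n
    have h3 : (n : ℝ) / R ^ (4 / 3 : ℝ) ∈ Ioi T ↔ T * R ^ (4 / 3 : ℝ) < (n : ℝ) := by
      rw [mem_Ioi, lt_div_iff₀ hS0]
    by_cases h4 : T * R ^ (4 / 3 : ℝ) < (n : ℝ)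
    · rw [indicator_of_mem (h3.2 h4), if_pos h4]
    · rw [indicator_of_notMem (fun h5 => h4 (h3.1 h5)), if_neg h4, zero_div, ENNReal.ofReal_zero]
  rw [tsum_congr e, ← ENNReal.ofReal_tsum_of_nonneg (fun n => div_nonneg (h0 n) hcR.le) (hsum.div_const _), tsum_div_const]
  refine ENNReal.ofReal_le_ofReal ?_
  rw [div_le_iff₀ hcR]
  calc _ ≤ ε * c1 * R ^ (43 / 24 : ℝ) := h1
    _ = ε * (c1 * R ^ (43 / 24 : ℝ)) := by ring
    _ ≤ ε * cR R := mul_le_mul_of_nonneg_left h2 hε.le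

/-- the radii of a sequence are large -/
lemma shift {r : ℕ → ℝ} {M : Measure (CI × ℝ)} (hr : Tendsto r atTop atTop) (h : ClTo r M) (B : ℝ) :
    ∃ N : ℕ, (∀ k, B < r (k + N)) ∧ Tendsto (fun k => r (k + N)) atTop atTop ∧ ClTo (fun k => r (k + N)) M := by
  obtain ⟨N, hN⟩ := eventually_atTop.1 (hr.eventually_gt_atTop B)
  refine ⟨N, fun k => hN _ (Nat.le_add_left _ _), hr.comp (tendsto_add_atTop_nat N), fun f => ?_⟩
  exact (h f).comp (tendsto_add_atTop_nat N)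

lemma tend0 {r : ℕ → ℝ} (hr : Tendsto r atTop atTop) : Tendsto (fun k => r k ^ (-(4 / 3) : ℝ)) atTop (𝓝 0) :=
  (tendsto_rpow_neg_atTop (by norm_num : (0 : ℝ) < 4 / 3)).comp hr

lemma tendM {r : ℕ → ℝ} (hr : Tendsto r atTop atTop) {b : ℝ} (hb : 0 < b) : ∀ᶠ k in atTop, 1 ≤ b * r k ^ (4 / 3 : ℝ) := by
  have h1 : Tendsto (fun k => b * r k ^ (4 / 3 : ℝ)) atTop atTop :=
    ((tendsto_rpow_atTop (by norm_num : (0 : ℝ) < 4 / 3)).comp hr).const_mul_atTop hb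
  exact h1.eventually_ge_atTop 1

end TM

open TM

/-- **K5c** -/
theorem clTime : ClTime := by
  obtain ⟨C, R0, hC, hR0, hup⟩ := cl_up
  obtain ⟨c, t0, R1, hc, ht0, hR1, hlow⟩ := cl_low
  refine ⟨⟨c, C, t0, hc, hC, ht0, fun r M hr hM h => ?_⟩, fun ε hε => ?_⟩
  · obtain ⟨N, hN, hr', h'⟩ := shift hr h (max R0 R1)
    have hpr : ∀ k, IsProbabilityMeasure (cl (r (k + N))) := fun k =>
      cl_prob (hR0.trans_le ((le_max_left _ _).trans (hN k).le))
    have hw : WTo (fun k => cl (r (k + N))) M := h'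
    -- open sets from above
    have hopen : ∀ (a b : ℝ) (U : Set ℝ), 0 ≤ a → a ≤ b → 0 < b → IsOpen U → (∀ y ∈ U, 0 ≤ y → y ∈ Icc a b) →
        M {x | x.2 ∈ U} ≤ ENNReal.ofReal (C * b ^ (11 / 32 : ℝ) * (b - a)) := by
      intro a b U ha hab hb hU hUI
      have hlim : Tendsto (fun k => ENNReal.ofReal (C * b ^ (11 / 32 : ℝ) * ((b - a) + r (k + N) ^ (-(4 / 3) : ℝ)))) atTop
          (𝓝 (ENNReal.ofReal (C * b ^ (11 / 32 : ℝ) * (b - a)))) := by
        refine ENNReal.tendsto_ofReal ?_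
        have h1 := ((tend0 hr').const_add (b - a)).const_mul (C * b ^ (11 / 32 : ℝ))
        rwa [add_zero] at h1
      refine WTo.open_lim hw (hU.preimage continuous_snd) hlim ?_
      filter_upwards [tendM hr' hb] with k hk
      exact hup (r (k + N)) a b U ((le_max_left _ _).trans (hN k).le) ha hab hk hU.measurableSet hUI
    refine ⟨?_, ?_, ?_⟩
    · -- positive times
      rw [ae_iff]
      have h1 : ∀ δ : ℝ, 0 < δ → M {x | ¬ 0 < x.2} ≤ ENNReal.ofReal (C * δ ^ (11 / 32 : ℝ) * (δ - 0)) := by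
        intro δ hδ
        refine (measure_mono fun x hx => ?_).trans (hopen 0 δ (Iio δ) le_rfl hδ.le hδ isOpen_Iio fun y hy hy0 => ⟨hy0, le_of_lt hy⟩)
        have hx' : x.2 ≤ 0 := not_lt.1 hx
        exact lt_of_le_of_lt hx' hδ
      have h2 : Tendsto (fun δ : ℝ => ENNReal.ofReal (C * δ ^ (11 / 32 : ℝ) * (δ - 0))) (𝓝[>] 0) (𝓝 0) := by
        have h3 : Tendsto (fun δ : ℝ => C * δ ^ (11 / 32 : ℝ) * (δ - 0)) (𝓝 0) (𝓝 (C * (0 : ℝ) ^ (11 / 32 : ℝ) * (0 - 0))) := by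
          refine ((Real.continuousAt_rpow_const 0 _ (Or.inr (by norm_num))).tendsto.const_mul C).mul ?_
          exact tendsto_id.sub tendsto_const_nhds
        rw [sub_zero, mul_zero] at h3
        have h4 := ENNReal.tendsto_ofReal h3
        rw [ENNReal.ofReal_zero] at h4
        exact h4.mono_left nhdsWithin_le_nhds
      refine le_antisymm (ge_of_tendsto h2 ?_) zero_le
      filter_upwards [self_mem_nhdsWithin] with δ hδ
      exact h1 δ hδ
    · intro a b ha hab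
      have h1 : ∀ δ : ℝ, 0 < δ → δ < a → M {x | x.2 ∈ Icc a b} ≤
          ENNReal.ofReal (C * (b + δ) ^ (11 / 32 : ℝ) * ((b + δ) - (a - δ))) := by
        intro δ hδ hδa
        refine (measure_mono fun x hx => ?_).trans (hopen (a - δ) (b + δ) (Ioo (a - δ) (b + δ)) (by linarith) (by linarith)
          (by linarith) isOpen_Ioo fun y hy _ => ⟨hy.1.le, hy.2.le⟩)
        have hx' : a ≤ x.2 ∧ x.2 ≤ b := hx
        exact ⟨by linarith [hx'.1], by linarith [hx'.2]⟩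
      have h2 : Tendsto (fun δ : ℝ => ENNReal.ofReal (C * (b + δ) ^ (11 / 32 : ℝ) * ((b + δ) - (a - δ)))) (𝓝[>] 0)
          (𝓝 (ENNReal.ofReal (C * b ^ (11 / 32 : ℝ) * (b - a)))) := by
        have hcb : ContinuousAt (fun δ : ℝ => C * (b + δ) ^ (11 / 32 : ℝ) * ((b + δ) - (a - δ))) 0 := by
          have h5 : ContinuousAt (fun δ : ℝ => (b + δ) ^ (11 / 32 : ℝ)) 0 :=
            (continuousAt_const.add continuousAt_id).rpow_const (Or.inr (by norm_num))
          exact (continuousAt_const.mul h5).mul (by fun_prop)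
        have h3 := hcb.tendsto
        simp only [add_zero, sub_zero] at h3
        exact (ENNReal.tendsto_ofReal h3).mono_left nhdsWithin_le_nhds
      refine ge_of_tendsto h2 ?_
      have h6 : ∀ᶠ δ : ℝ in 𝓝[>] 0, δ < a := nhdsWithin_le_nhds (gt_mem_nhds ha)
      filter_upwards [self_mem_nhdsWithin, h6] with δ hδ hδa
      exact h1 δ hδ hδa
    · intro a b ha hab hb
      have hclosed : ∀ a' b' : ℝ, 0 < a' → b' ≤ t0 →
          ENNReal.ofReal (c * a' ^ (11 / 32 : ℝ) * (b' - a')) ≤ M {x | x.2 ∈ Icc a' b'} := by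
        intro a' b' ha' hb'
        have hlim : Tendsto (fun k => ENNReal.ofReal (c * a' ^ (11 / 32 : ℝ) * ((b' - a') - r (k + N) ^ (-(4 / 3) : ℝ)))) atTop
            (𝓝 (ENNReal.ofReal (c * a' ^ (11 / 32 : ℝ) * (b' - a')))) := by
          refine ENNReal.tendsto_ofReal ?_
          have h1 := ((tend0 hr').const_sub (b' - a')).const_mul (c * a' ^ (11 / 32 : ℝ))
          rwa [sub_zero] at h1
        refine WTo.closed_lim hw (isClosed_Icc.preimage continuous_snd) hlim ?_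
        filter_upwards [tendM hr' ha'] with k hk
        exact hlow (r (k + N)) a' b' ((le_max_right _ _).trans (hN k).le) ha' hb' hk
      have h1 : ∀ δ : ℝ, 0 < δ → ENNReal.ofReal (c * (a + δ) ^ (11 / 32 : ℝ) * ((b - δ) - (a + δ))) ≤ M {x | x.2 ∈ Ioo a b} := by
        intro δ hδ
        refine (hclosed (a + δ) (b - δ) (by linarith) (by linarith)).trans (measure_mono fun x hx => ?_)
        have hx' : a + δ ≤ x.2 ∧ x.2 ≤ b - δ := hx
        exact ⟨by linarith [hx'.1], by linarith [hx'.2]⟩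
      have h2 : Tendsto (fun δ : ℝ => ENNReal.ofReal (c * (a + δ) ^ (11 / 32 : ℝ) * ((b - δ) - (a + δ)))) (𝓝[>] 0)
          (𝓝 (ENNReal.ofReal (c * a ^ (11 / 32 : ℝ) * (b - a)))) := by
        have hcb : ContinuousAt (fun δ : ℝ => c * (a + δ) ^ (11 / 32 : ℝ) * ((b - δ) - (a + δ))) 0 := by
          have h5 : ContinuousAt (fun δ : ℝ => (a + δ) ^ (11 / 32 : ℝ)) 0 :=
            (continuousAt_const.add continuousAt_id).rpow_const (Or.inr (by norm_num))
          exact (continuousAt_const.mul h5).mul (by fun_prop)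
        have h3 := hcb.tendsto
        simp only [add_zero, sub_zero] at h3
        exact (ENNReal.tendsto_ofReal h3).mono_left nhdsWithin_le_nhds
      refine le_of_tendsto h2 ?_
      filter_upwards [self_mem_nhdsWithin] with δ hδ
      exact h1 δ hδ
  · obtain ⟨T, R2, hT, hR2, ht⟩ := cl_tail ε hε
    refine ⟨T, hT, fun r M hr hM h => ?_⟩
    obtain ⟨N, hN, hr', h'⟩ := shift hr h R2
    have hpr : ∀ k, IsProbabilityMeasure (cl (r (k + N))) := fun k => cl_prob (hR2.trans (hN k))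
    have hw : WTo (fun k => cl (r (k + N))) M := h'
    refine WTo.open_le hw (isOpen_Ioi.preimage continuous_snd : IsOpen {x : CI × ℝ | x.2 ∈ Ioi T}) ?_
    exact Frequently.of_forall fun k => ht _ (hN k).le

end Pool.Agent.CRT
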