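import Pool.Agent.CRT.ToRat
import Pool.Agent.CRT.Mass
import Pool.Agent.SLW.PubY

/-!
# CRT, row K10 (helper66), the landed inputs

* **`toRat`** : `RegSz → ToRat`.
-/

set_option autoImplicit false

open Set Filter Topology MeasureTheory
open scoped ENNReal

namespace Pool.Agent.CRT.K10

open Pool.Agent.NTS.Res
open Pool.Agent.NPR

/-- **M1** -/
theorem massN : MassN := _root_.CRT.Mass.aN_bounds

/-- the order of the sizes -/
theorem sizeN : SizeN := by
  obtain ⟨c, C, hc, hsz, -⟩ := NTSF.finE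
  exact ⟨c, C, hc, hsz⟩

/-- one more step does not change the size -/
theorem size_step : Tendsto (fun n : ℕ => size (n + 1) / size n) atTop (𝓝 1) := by
  rw [Metric.tendsto_atTop]
  intro ε hε
  obtain ⟨δ, hδ, h⟩ := NTSF.Mg.slow_change.1 (ε / 2) (by positivity)
  obtain ⟨n0, hn0⟩ := exists_nat_ge (1 / δ)
  refine ⟨n0, fun n hn => ?_⟩
  have hn' : 1 / δ ≤ n := hn0.trans (by exact_mod_cast hn)
  have h1 := (h n 1 hn' (by
    rw [div_le_iff₀ hδ] at hn'
    rw [Nat.cast_one]
    linarith)).2.1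
  rw [Real.dist_eq]
  linarith

/-- **row K10** -/
theorem toRat (h : RegSz) : ToRat :=
  toRat_of h _root_.CRT.Mass.massB _root_.CRT.Mass.massT (fun _ hR => _root_.CRT.Mass.summable_wR hR) massN sizeN size_step

end Pool.Agent.CRT.K10
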