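import Pool.Agent.CRT.Restr

/-!
# CRT, K8a (helper45), step 4: the limits of the critical walks in balls

`uniqM` : if the ratios of the critical susceptibilities converge, then the limits of the critical walks in balls are one measure
up to the unit of time; this measure is invariant under restriction to smaller balls; the ratios `cR (lam R) / cR R` converge.
-/

set_option autoImplicit false

open Set Filter Topology MeasureTheory
open scoped ENNReal

namespace Pool.Agent.CRT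

open Pool.Agent.NTS.Res
open Pool.Agent.NPR

/-- a limit of the critical walks -/
def Lm (M : Measure (CI × ℝ)) : Prop := IsProbabilityMeasure M ∧ ∃ r : ℕ → ℝ, Tendsto r atTop atTop ∧ ClTo r M

/-- all the rows used here -/
structure Hyp : Prop where
  hP : ClPr
  hC : ChiCl
  hS : ClRes
  hT0 : ClTight
  hG : ClGood
  hT : ClTime
  hK : ClClk
  hB : MassB
  hR : RatC

lemma Hyp.scale (H : Hyp) {M M' : Measure (CI × ℝ)} (h : Lm M) (h' : Lm M') : ∃ c : ℝ, 0 < c ∧ M' = M.map (tmul c) := by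
  obtain ⟨h1, r, hr, h2⟩ := h
  obtain ⟨h1', r', hr', h2'⟩ := h'
  exact CRT.scale H.hP H.hC H.hG H.hT H.hK H.hR hr hr' h1 h1' h2 h2'

lemma Hyp.marg (H : Hyp) {M M' : Measure (CI × ℝ)} (h : Lm M) (h' : Lm M') : M.map Prod.fst = M'.map Prod.fst := by
  obtain ⟨h1, r, hr, h2⟩ := h
  obtain ⟨h1', r', hr', h2'⟩ := h'
  exact CRT.marg H.hP H.hC H.hG H.hR hr hr' h1 h1' h2 h2'

/-- the unit of time is bounded -/
lemma c_bd (hT : ClTime) : ∃ C0 : ℝ, ∀ (M : Measure (CI × ℝ)) (c : ℝ), 0 < c → Lm M → Lm (M.map (tmul c)) → c ≤ C0 := by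
  obtain ⟨⟨c1, C1, t1, -, hC1, -, hT1⟩, hT2⟩ := hT
  obtain ⟨L, hL, hL'⟩ := hT2 (1 / 4) (by norm_num)
  obtain ⟨η, hη⟩ : ∃ η : ℝ, η = min 1 (1 / (4 * C1)) := ⟨_, rfl⟩
  have hη0 : 0 < η := by
    rw [hη]
    exact lt_min one_pos (by positivity)
  have hη1 : η ≤ 1 := hη ▸ min_le_left _ _
  have hη2 : C1 * η ≤ 1 / 4 := by
    have h1 : η ≤ 1 / (4 * C1) := hη ▸ min_le_right _ _
    calc C1 * η ≤ C1 * (1 / (4 * C1)) := mul_le_mul_of_nonneg_left h1 hC1.le
      _ = 1 / 4 := by field_simp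
  refine ⟨L / η, fun M c hc hM hM' => ?_⟩
  obtain ⟨pM, r, hr, h⟩ := hM
  obtain ⟨pM', r', hr', h'⟩ := hM'
  obtain ⟨hpos, hup, -⟩ := hT1 r M hr pM h
  have htail := hL' r' _ hr' pM' h'
  have hm1 : ∀ m : ℕ, M {x | x.2 ∈ Icc (η / ((m : ℝ) + 2)) η} ≤ ENNReal.ofReal (1 / 4) := fun m => by
    have hm0 : (0 : ℝ) ≤ m := Nat.cast_nonneg m
    have ha : 0 < η / ((m : ℝ) + 2) := by positivity
    refine (hup _ _ ha (div_lt_self hη0 (by linarith))).trans (ENNReal.ofReal_le_ofReal ?_)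
    have h3 : η ^ (11 / 32 : ℝ) ≤ 1 := Real.rpow_le_one hη0.le hη1 (by norm_num)
    have h4 : η - η / ((m : ℝ) + 2) ≤ η := by linarith
    have h5 : 0 ≤ η - η / ((m : ℝ) + 2) := by
      have := div_le_self hη0.le (show (1 : ℝ) ≤ (m : ℝ) + 2 by linarith)
      linarith
    calc C1 * η ^ (11 / 32 : ℝ) * (η - η / ((m : ℝ) + 2)) ≤ C1 * 1 * η := by
          refine mul_le_mul (mul_le_mul_of_nonneg_left h3 hC1.le) h4 h5 (by linarith)
      _ ≤ 1 / 4 := by linarith
  have hlow : M {x | x.2 ≤ η} ≤ ENNReal.ofReal (1 / 4) := by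
    have hU : {x : CI × ℝ | 0 < x.2 ∧ x.2 ≤ η} = ⋃ m : ℕ, {x : CI × ℝ | x.2 ∈ Icc (η / ((m : ℝ) + 2)) η} := by
      ext x
      simp only [mem_ofPred_eq, mem_iUnion, mem_Icc]
      constructor
      · rintro ⟨h1, h2⟩
        have hlim : Tendsto (fun m : ℕ => η / ((m : ℝ) + 2)) atTop (𝓝 0) := by
          have h5 : Tendsto (fun m : ℕ => (m : ℝ) + 2) atTop atTop :=
            tendsto_atTop_add_const_right _ _ tendsto_natCast_atTop_atTop
          exact h5.const_div_atTop η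
        obtain ⟨m, hm⟩ := (hlim.eventually (gt_mem_nhds h1)).exists
        exact ⟨m, hm.le, h2⟩
      · rintro ⟨m, h1, h2⟩
        have : 0 < η / ((m : ℝ) + 2) := by positivity
        exact ⟨by linarith, h2⟩
    have hmono : Monotone fun m : ℕ => {x : CI × ℝ | x.2 ∈ Icc (η / ((m : ℝ) + 2)) η} := by
      intro m m' hmm x hx
      refine ⟨le_trans ?_ hx.1, hx.2⟩
      have h6 : (m : ℝ) ≤ m' := by exact_mod_cast hmm
      exact div_le_div_of_nonneg_left hη0.le (by positivity) (by linarith)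
    have e1 : M {x | x.2 ≤ η} = M {x : CI × ℝ | 0 < x.2 ∧ x.2 ≤ η} := by
      refine measure_congr ?_
      filter_upwards [hpos] with x hx
      exact propext ⟨fun h1 => ⟨hx, h1⟩, fun h1 => h1.2⟩
    rw [e1, hU, hmono.measure_iUnion]
    exact iSup_le hm1
  have hhigh : M {x | L < c * x.2} ≤ ENNReal.ofReal (1 / 4) := by
    have hmeas : MeasurableSet {x : CI × ℝ | L < x.2} := (isOpen_lt continuous_const continuous_snd).measurableSet
    rw [Measure.map_apply (tmul_cont c).measurable hmeas] at htail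
    exact htail
  by_contra hcon
  push Not at hcon
  have hall : (univ : Set (CI × ℝ)) ⊆ {x | x.2 ≤ η} ∪ {x | L < c * x.2} := by
    intro x _
    by_cases hx : x.2 ≤ η
    · exact Or.inl hx
    · push Not at hx
      refine Or.inr ?_
      show L < c * x.2
      have h7 : L < c * η := (div_lt_iff₀ hη0).1 hcon
      exact h7.trans (mul_lt_mul_of_pos_left hx hc)
  have h8 : (1 : ℝ≥0∞) ≤ ENNReal.ofReal (1 / 4) + ENNReal.ofReal (1 / 4) := by
    calc (1 : ℝ≥0∞) = M univ := measure_univ.symm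
      _ ≤ M ({x | x.2 ≤ η} ∪ {x | L < c * x.2}) := measure_mono hall
      _ ≤ _ := (measure_union_le _ _).trans (add_le_add hlow hhigh)
  rw [← ENNReal.ofReal_add (by norm_num) (by norm_num), ← ENNReal.ofReal_one, ENNReal.ofReal_le_ofReal_iff (by norm_num)] at h8
  norm_num at h8

lemma meas_tmul (M : Measure (CI × ℝ)) (c lam : ℝ) : M.map (tmul c) {x : CI × ℝ | ‖x.1‖ = lam} = M {x : CI × ℝ | ‖x.1‖ = lam} := by
  have hmeas : MeasurableSet {x : CI × ℝ | ‖x.1‖ = lam} :=
    (isClosed_eq (continuous_norm.comp continuous_fst) continuous_const).measurableSet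
  rw [Measure.map_apply (tmul_cont c).measurable hmeas]
  rfl

/-- **the limit is invariant under restriction** -/
lemma Hyp.rs_eq (H : Hyp) {M : Measure (CI × ℝ)} (h : Lm M) {lam : ℝ} (hl : 0 < lam) (hl1 : lam < 1)
    (h0 : M {x : CI × ℝ | ‖x.1‖ = lam} = 0) : rs lam M = M := by
  have step : ∀ M' : Measure (CI × ℝ), Lm M' → M' {x : CI × ℝ | ‖x.1‖ = lam} = 0 → Lm (rs lam M') := by
    rintro M' ⟨p, r, hr, h1⟩ h2
    obtain ⟨-, -, h3, h4⟩ := restr H.hP H.hB H.hS hr p h1 hl hl1 h2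
    exact ⟨h4, _, hr.const_mul_atTop hl, h3⟩
  obtain ⟨c, hc, e⟩ := H.scale h (step M h h0)
  have hall : ∀ k : ℕ, Lm (M.map (tmul (c ^ k))) := by
    intro k
    induction k with
    | zero =>
      rw [pow_zero, tmul_one]
      exact h
    | succ k ih =>
      have h1 := step _ ih (by rw [meas_tmul, h0])
      rw [rs_tmul, e, tmul_tmul] at h1
      rw [pow_succ]
      exact h1
  obtain ⟨C0, hC0⟩ := c_bd H.hT
  have hc1 : c = 1 := by
    rcases lt_trichotomy c 1 with h1 | h1 | h1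
    · exfalso
      obtain ⟨n, hn⟩ := pow_unbounded_of_one_lt C0 ((one_lt_inv₀ hc).2 h1)
      have h2 := hC0 (M.map (tmul (c ^ n))) ((c ^ n)⁻¹) (by positivity) (hall n) (by
        rw [tmul_tmul, inv_mul_cancel₀ (by positivity), tmul_one]
        exact h)
      rw [inv_pow] at hn
      linarith
    · exact h1
    · exfalso
      obtain ⟨n, hn⟩ := pow_unbounded_of_one_lt C0 h1
      have h2 := hC0 M (c ^ n) (by positivity) h (hall n)
      linarith
  rw [e, hc1, tmul_one]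

/-- **limits of ratios between powers** -/
lemma pow_arg {f : ℝ → ℝ} {al c C R0 lam p : ℝ} (hc : 0 < c) (hR0 : 0 < R0)
    (hf : ∀ R : ℝ, R0 ≤ R → c * R ^ al ≤ f R ∧ f R ≤ C * R ^ al) (hl : 0 < lam)
    (hp : Tendsto (fun R : ℝ => f (lam * R) / f R) atTop (𝓝 p)) : p = lam ^ al := by
  have hC : 0 < C := by
    have h2 := hf R0 le_rfl
    have h3 : 0 < R0 ^ al := Real.rpow_pos_of_pos hR0 _
    have h4 : 0 < C * R0 ^ al := (mul_pos hc h3).trans_le (h2.1.trans h2.2)
    exact (pos_iff_pos_of_mul_pos h4).2 h3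
  have fpos : ∀ R : ℝ, R0 ≤ R → 0 < f R := fun R hR =>
    (mul_pos hc (Real.rpow_pos_of_pos (hR0.trans_le hR) _)).trans_le (hf R hR).1
  have hk : ∀ k : ℕ, Tendsto (fun R : ℝ => f (lam ^ k * R) / f R) atTop (𝓝 (p ^ k)) := by
    intro k
    induction k with
    | zero =>
      refine (tendsto_const_nhds (x := (1 : ℝ))).congr' ?_ |>.trans_eq ?_
      · filter_upwards [eventually_ge_atTop R0] with R hR
        rw [pow_zero, one_mul, div_self (fpos R hR).ne']
      · rw [pow_zero]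
    | succ k ih =>
      have hlk : 0 < lam ^ k := by positivity
      have h1 : Tendsto (fun R : ℝ => f (lam * (lam ^ k * R)) / f (lam ^ k * R)) atTop (𝓝 p) :=
        hp.comp (tendsto_id.const_mul_atTop hlk)
      have h2 := h1.mul ih
      have e : p * p ^ k = p ^ (k + 1) := by rw [pow_succ, mul_comm]
      rw [e] at h2
      refine h2.congr' ?_
      filter_upwards [(tendsto_id.const_mul_atTop hlk).eventually_ge_atTop R0] with R hR
      have h3 := (fpos _ hR).ne'
      have h4 : lam * (lam ^ k * R) = lam ^ (k + 1) * R := by rw [pow_succ]; ring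
      rw [h4]
      exact div_mul_div_cancel₀ h3
  have hlow : ∀ k : ℕ, c / C * (lam ^ al) ^ k ≤ p ^ k := by
    intro k
    have hlk : 0 < lam ^ k := by positivity
    refine ge_of_tendsto (hk k) ?_
    filter_upwards [eventually_ge_atTop R0, (tendsto_id.const_mul_atTop hlk).eventually_ge_atTop R0] with R hR hR'
    have h1 := (hf _ hR').1
    have h2 := (hf _ hR).2
    have hRp : 0 < R := hR0.trans_le hR
    have h3 : 0 < R ^ al := Real.rpow_pos_of_pos hRp _
    rw [le_div_iff₀ (fpos R hR)]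
    change c * (lam ^ k * R) ^ al ≤ f (lam ^ k * R) at h1
    rw [Real.mul_rpow hlk.le hRp.le] at h1
    have h4 : (lam ^ k) ^ al = (lam ^ al) ^ k := by
      rw [← Real.rpow_natCast lam k, ← Real.rpow_mul hl.le, mul_comm, Real.rpow_mul hl.le, Real.rpow_natCast]
    rw [h4] at h1
    have h5 : 0 ≤ c / C * (lam ^ al) ^ k := by positivity
    calc c / C * (lam ^ al) ^ k * f R ≤ c / C * (lam ^ al) ^ k * (C * R ^ al) := mul_le_mul_of_nonneg_left h2 h5
      _ = c * ((lam ^ al) ^ k * R ^ al) := by field_simp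
      _ ≤ _ := h1
  have hupp : ∀ k : ℕ, p ^ k ≤ C / c * (lam ^ al) ^ k := by
    intro k
    have hlk : 0 < lam ^ k := by positivity
    refine le_of_tendsto (hk k) ?_
    filter_upwards [eventually_ge_atTop R0, (tendsto_id.const_mul_atTop hlk).eventually_ge_atTop R0] with R hR hR'
    have h1 := (hf _ hR').2
    have h2 := (hf _ hR).1
    have hRp : 0 < R := hR0.trans_le hR
    have h3 : 0 < R ^ al := Real.rpow_pos_of_pos hRp _
    rw [div_le_iff₀ (fpos R hR)]
    change f (lam ^ k * R) ≤ C * (lam ^ k * R) ^ al at h1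
    rw [Real.mul_rpow hlk.le hRp.le] at h1
    have h4 : (lam ^ k) ^ al = (lam ^ al) ^ k := by
      rw [← Real.rpow_natCast lam k, ← Real.rpow_mul hl.le, mul_comm, Real.rpow_mul hl.le, Real.rpow_natCast]
    rw [h4] at h1
    have h5 : 0 ≤ C / c * (lam ^ al) ^ k := by positivity
    calc f (lam ^ k * R) ≤ C * ((lam ^ al) ^ k * R ^ al) := h1
      _ = C / c * (lam ^ al) ^ k * (c * R ^ al) := by field_simp
      _ ≤ _ := mul_le_mul_of_nonneg_left h2 h5
  have hla : 0 < lam ^ al := Real.rpow_pos_of_pos hl _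
  have hp0 : 0 < p := by
    have h1 := hlow 1
    rw [pow_one, pow_one] at h1
    have : 0 < c / C * lam ^ al := by positivity
    linarith
  rcases lt_trichotomy (p / lam ^ al) 1 with h1 | h1 | h1
  · exfalso
    obtain ⟨n, hn⟩ := exists_pow_lt_of_lt_one (show 0 < c / C by positivity) h1
    have h2 := hlow n
    rw [div_pow, div_lt_iff₀ (by positivity)] at hn
    linarith
  · rwa [div_eq_one_iff_eq hla.ne'] at h1
  · exfalso
    obtain ⟨n, hn⟩ := pow_unbounded_of_one_lt (C / c) h1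
    have h2 := hupp n
    rw [div_pow, lt_div_iff₀ (by positivity)] at hn
    linarith

lemma meas_fst {M M' : Measure (CI × ℝ)} (h : M.map Prod.fst = M'.map Prod.fst) {A : Set CI} (hA : MeasurableSet A) :
    M {x | x.1 ∈ A} = M' {x | x.1 ∈ A} := by
  have h1 : M.map Prod.fst A = M'.map Prod.fst A := by rw [h]
  rw [Measure.map_apply measurable_fst hA, Measure.map_apply measurable_fst hA] at h1
  exact h1

lemma Hyp.ratio_good (H : Hyp) {M : Measure (CI × ℝ)} (h : Lm M) {lam : ℝ} (hl : 0 < lam) (hl1 : lam < 1)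
    (h0 : M {x : CI × ℝ | ‖x.1‖ = lam} = 0) :
    Tendsto (fun R : ℝ => cR (lam * R) / cR R) atTop (𝓝 (M (El lam)).toReal) := by
  rw [tendsto_iff_seq_tendsto]
  intro r hr
  refine tendsto_of_subseq_tendsto fun ns hns => ?_
  obtain ⟨φ, hφ, M', hM', h'⟩ := H.hT0 (fun k => r (ns k)) (hr.comp hns)
  have hr' : Tendsto (fun k => r (ns (φ k))) atTop atTop := (hr.comp hns).comp hφ.tendsto_atTop
  have e := H.marg h ⟨hM', _, hr', h'⟩
  have e1 : M' {x : CI × ℝ | ‖x.1‖ = lam} = 0 := by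
    rw [← h0]
    exact (meas_fst e (A := {γ : CI | ‖γ‖ = lam}) (isClosed_eq continuous_norm continuous_const).measurableSet).symm
  have e2 : M' (El lam) = M (El lam) :=
    (meas_fst e (A := {γ : CI | ‖γ‖ < lam}) (isOpen_lt continuous_norm continuous_const).measurableSet).symm
  obtain ⟨-, h1, -, -⟩ := restr H.hP H.hB H.hS hr' hM' h' hl hl1 e1
  rw [e2] at h1
  exact ⟨φ, h1⟩

lemma Hyp.mass_good (H : Hyp) {M : Measure (CI × ℝ)} (h : Lm M) {lam : ℝ} (hl : 0 < lam) (hl1 : lam < 1)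
    (h0 : M {x : CI × ℝ | ‖x.1‖ = lam} = 0) : (M (El lam)).toReal = lam ^ (43 / 24 : ℝ) := by
  obtain ⟨c, C, R0, hc, hR0, hf⟩ := H.hB
  exact pow_arg hc hR0 hf hl (H.ratio_good h hl hl1 h0)

/-- **no atoms of the radius** -/
lemma Hyp.all_good (H : Hyp) {M : Measure (CI × ℝ)} (h : Lm M) {lam : ℝ} (hl : 0 < lam) (hl1 : lam < 1) :
    M {x : CI × ℝ | ‖x.1‖ = lam} = 0 ∧ (M (El lam)).toReal = lam ^ (43 / 24 : ℝ) := by
  have pM : IsProbabilityMeasure M := h.1
  have hcount : Set.Countable {t : ℝ | 0 < M {x : CI × ℝ | ‖x.1‖ = t}} :=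
    Measure.countable_meas_level_set_pos (continuous_norm.comp continuous_fst : Continuous fun x : CI × ℝ => ‖x.1‖).measurable
  have hd := hcount.dense_compl ℝ
  have hcont : ContinuousAt (fun t : ℝ => t ^ (43 / 24 : ℝ)) lam := Real.continuousAt_rpow_const _ _ (Or.inl hl.ne')
  have hlow : lam ^ (43 / 24 : ℝ) ≤ (M (El lam)).toReal := by
    by_contra hcon
    push Not at hcon
    have h1 : ∀ᶠ t in 𝓝 lam, (M (El lam)).toReal < t ^ (43 / 24 : ℝ) := hcont.eventually (lt_mem_nhds hcon)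
    obtain ⟨δ, hδ, h2⟩ := Metric.eventually_nhds_iff.1 h1
    obtain ⟨s, hs, hs1, hs2⟩ := hd.exists_between (show max (lam - δ) 0 < lam from max_lt (by linarith) hl)
    have hs0 : 0 < s := (le_max_right _ _).trans_lt hs1
    have hsd : lam - δ < s := (le_max_left _ _).trans_lt hs1
    have h3 := h2 (y := s) (by rw [Real.dist_eq, abs_lt]; constructor <;> linarith)
    have h4 : M {x : CI × ℝ | ‖x.1‖ = s} = 0 := by
      by_contra h5
      exact hs (pos_iff_ne_zero.2 h5)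
    have h5 := H.mass_good h hs0 (hs2.trans hl1) h4
    have h6 : (M (El s)).toReal ≤ (M (El lam)).toReal := by
      refine ENNReal.toReal_mono (measure_ne_top _ _) (measure_mono fun x (hx : ‖x.1‖ < s) => ?_)
      exact hx.trans hs2
    linarith
  have hupp : (M {x : CI × ℝ | ‖x.1‖ ≤ lam}).toReal ≤ lam ^ (43 / 24 : ℝ) := by
    by_contra hcon
    push Not at hcon
    have h1 : ∀ᶠ t in 𝓝 lam, t ^ (43 / 24 : ℝ) < (M {x : CI × ℝ | ‖x.1‖ ≤ lam}).toReal := hcont.eventually (gt_mem_nhds hcon)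
    obtain ⟨δ, hδ, h2⟩ := Metric.eventually_nhds_iff.1 h1
    obtain ⟨s, hs, hs1, hs2⟩ := hd.exists_between (show lam < min (lam + δ) 1 from lt_min (by linarith) hl1)
    have hs0 : s < 1 := hs2.trans_le (min_le_right _ _)
    have hsd : s < lam + δ := hs2.trans_le (min_le_left _ _)
    have h3 := h2 (y := s) (by rw [Real.dist_eq, abs_lt]; constructor <;> linarith)
    have h4 : M {x : CI × ℝ | ‖x.1‖ = s} = 0 := by
      by_contra h5
      exact hs (pos_iff_ne_zero.2 h5)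
    have h5 := H.mass_good h (hl.trans hs1) hs0 h4
    have h6 : (M {x : CI × ℝ | ‖x.1‖ ≤ lam}).toReal ≤ (M (El s)).toReal := by
      refine ENNReal.toReal_mono (measure_ne_top _ _) (measure_mono fun x (hx : ‖x.1‖ ≤ lam) => ?_)
      show ‖x.1‖ < s
      exact lt_of_le_of_lt hx hs1
    linarith
  have hsplit : M {x : CI × ℝ | ‖x.1‖ ≤ lam} = M (El lam) + M {x : CI × ℝ | ‖x.1‖ = lam} := by
    rw [← measure_union]
    · congr 1
      ext x
      exact (le_iff_lt_or_eq : ‖x.1‖ ≤ lam ↔ ‖x.1‖ < lam ∨ ‖x.1‖ = lam)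
    · refine Set.disjoint_left.2 fun x (hx : ‖x.1‖ < lam) (hx' : ‖x.1‖ = lam) => ?_
      exact hx.ne hx'
    · exact (isClosed_eq (continuous_norm.comp continuous_fst) continuous_const).measurableSet
  have h1 : (M {x : CI × ℝ | ‖x.1‖ ≤ lam}).toReal = (M (El lam)).toReal + (M {x : CI × ℝ | ‖x.1‖ = lam}).toReal := by
    rw [hsplit, ENNReal.toReal_add (measure_ne_top _ _) (measure_ne_top _ _)]
  have h2 : 0 ≤ (M {x : CI × ℝ | ‖x.1‖ = lam}).toReal := ENNReal.toReal_nonneg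
  have h3 : (M {x : CI × ℝ | ‖x.1‖ = lam}).toReal = 0 := by linarith
  refine ⟨?_, by linarith⟩
  rcases (ENNReal.toReal_eq_zero_iff _).1 h3 with h4 | h4
  · exact h4
  · exact absurd h4 (measure_ne_top _ _)

/-- **the limit is invariant under all the changes of scale** -/
lemma Hyp.clTo_lt (H : Hyp) {r : ℕ → ℝ} {M : Measure (CI × ℝ)} (hr : Tendsto r atTop atTop) (hM : IsProbabilityMeasure M)
    (h : ClTo r M) {lam : ℝ} (hl : 0 < lam) (hl1 : lam < 1) : ClTo (fun k => lam * r k) M := by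
  have hL : Lm M := ⟨hM, r, hr, h⟩
  have h0 := (H.all_good hL hl hl1).1
  obtain ⟨-, -, h1, -⟩ := restr H.hP H.hB H.hS hr hM h hl hl1 h0
  rwa [H.rs_eq hL hl hl1 h0] at h1

lemma clTo_unique {r : ℕ → ℝ} {M M' : Measure (CI × ℝ)} (hM : IsProbabilityMeasure M) (hM' : IsProbabilityMeasure M')
    (h : ClTo r M) (h' : ClTo r M') : M = M' :=
  ext_of_forall_integral_eq_of_IsFiniteMeasure fun f => tendsto_nhds_unique (h f) (h' f)

lemma Hyp.clTo_mul (H : Hyp) {r : ℕ → ℝ} {M : Measure (CI × ℝ)} (hr : Tendsto r atTop atTop) (hM : IsProbabilityMeasure M)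
    (h : ClTo r M) {σ : ℝ} (hσ : 0 < σ) : ClTo (fun k => σ * r k) M := by
  rcases lt_trichotomy σ 1 with h1 | h1 | h1
  · exact H.clTo_lt hr hM h hσ h1
  · rw [h1]
    intro f
    simp only [one_mul]
    exact h f
  · intro f
    refine tendsto_of_subseq_tendsto fun ns hns => ?_
    have hr1 : Tendsto (fun k => σ * r (ns k)) atTop atTop := (hr.comp hns).const_mul_atTop hσ
    obtain ⟨φ, hφ, M', hM', h'⟩ := H.hT0 _ hr1
    have hr2 : Tendsto (fun k => σ * r (ns (φ k))) atTop atTop := hr1.comp hφ.tendsto_atTop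
    have h2 := H.clTo_lt hr2 hM' h' (inv_pos.2 hσ) (inv_lt_one_of_one_lt₀ h1)
    have h3 : ClTo (fun k => r (ns (φ k))) M' := by
      intro f
      refine (h2 f).congr fun k => ?_
      show ∫ x, f x ∂(cl (σ⁻¹ * (σ * r (ns (φ k))))) = _
      rw [inv_mul_cancel_left₀ hσ.ne']
    have h4 : ClTo (fun k => r (ns (φ k))) M := fun f => (h f).comp (hns.comp hφ.tendsto_atTop)
    have e := clTo_unique hM hM' h4 h3
    refine ⟨φ, ?_⟩
    rw [e]
    exact h' f

lemma Hyp.ratio (H : Hyp) {lam : ℝ} (hl : 0 < lam) :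
    Tendsto (fun R : ℝ => cR (lam * R) / cR R) atTop (𝓝 (lam ^ (43 / 24 : ℝ))) := by
  obtain ⟨φ, hφ, M, hM, h⟩ := H.hT0 (fun k => (k : ℝ)) tendsto_natCast_atTop_atTop
  have hL : Lm M := ⟨hM, _, tendsto_natCast_atTop_atTop.comp hφ.tendsto_atTop, h⟩
  have key : ∀ t : ℝ, 0 < t → t < 1 → Tendsto (fun R : ℝ => cR (t * R) / cR R) atTop (𝓝 (t ^ (43 / 24 : ℝ))) := by
    intro t ht ht1
    obtain ⟨h1, h2⟩ := H.all_good hL ht ht1
    rw [← h2]
    exact H.ratio_good hL ht ht1 h1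
  rcases lt_trichotomy lam 1 with h1 | h1 | h1
  · exact key lam hl h1
  · rw [h1, Real.one_rpow]
    refine tendsto_const_nhds.congr' ?_
    filter_upwards [eventually_gt_atTop 0] with R hR
    rw [one_mul, div_self (H.hP R hR).2.1.ne']
  · have h2 := (key lam⁻¹ (inv_pos.2 hl) (inv_lt_one_of_one_lt₀ h1)).comp (tendsto_id.const_mul_atTop hl)
    have h3 := h2.inv₀ (Real.rpow_pos_of_pos (inv_pos.2 hl) _).ne'
    rw [Real.inv_rpow hl.le, inv_inv] at h3
    refine h3.congr fun R => ?_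
    show (cR (lam⁻¹ * (lam * R)) / cR (lam * R))⁻¹ = _
    rw [inv_mul_cancel_left₀ hl.ne', inv_div]

/-- **K8a** -/
theorem uniqM_of (hP : ClPr) (hC : ChiCl) (hS : ClRes) (hT0 : ClTight) (hG : ClGood) (hT : ClTime) (hK : ClClk) (hB : MassB) :
    UniqM := by
  intro hR
  have H : Hyp := ⟨hP, hC, hS, hT0, hG, hT, hK, hB, hR⟩
  obtain ⟨φ, hφ, M, hM, h⟩ := H.hT0 (fun k => (k : ℝ)) tendsto_natCast_atTop_atTop
  have hL : Lm M := ⟨hM, _, tendsto_natCast_atTop_atTop.comp hφ.tendsto_atTop, h⟩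
  refine ⟨M, hM, ?_, ?_, fun lam hl => H.ratio hl⟩
  · intro r hr
    obtain ⟨ψ, hψ, M', hM', h'⟩ := H.hT0 r hr
    have hr' : Tendsto (fun k => r (ψ k)) atTop atTop := hr.comp hψ.tendsto_atTop
    obtain ⟨c, hc, e⟩ := H.scale hL ⟨hM', _, hr', h'⟩
    refine ⟨ψ, hψ, c, hc, fun σ hσ => ?_⟩
    have h1 := H.clTo_mul hr' hM' h' hσ
    rw [e] at h1
    exact h1
  · intro lam hl hl1
    obtain ⟨h0, h1⟩ := H.all_good hL hl hl1
    have e := H.rs_eq hL hl hl1 h0
    have hne : M (El lam) ≠ 0 := fun h2 => by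
      rw [h2, ENNReal.toReal_zero] at h1
      exact (Real.rpow_pos_of_pos hl _).ne h1
    have e1 : M (El lam) = ENNReal.ofReal (lam ^ (43 / 24 : ℝ)) := by
      rw [← h1, ENNReal.ofReal_toReal (measure_ne_top _ _)]
    have e2 : M (El lam) • rs lam M = (M.restrict (El lam)).map (Sl lam) := by
      unfold rs
      rw [smul_smul, ENNReal.mul_inv_cancel hne (measure_ne_top _ _), one_smul]
    rw [e, e1] at e2
    exact e2.symm

end Pool.Agent.CRT
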