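import Pool.Agent.CRT.Defs
import Pool.Agent.SLW.PubY
import Pool.Agent.PW.Turns

/-!
# CRT, row K6 (helper90): the walk with `n` steps as a window of the critical walk in a large ball

* `lp_lip` : Lipschitz functions and the Lévy–Prokhorov distance;
* `win_sum` : the measure `cl R` on a window of the times;
* **`winN : WinN`**, **`winA : WinA`**.
-/

set_option autoImplicit false

noncomputable section

open Set Filter Topology MeasureTheory Metric
open scoped ENNReal NNReal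

namespace Pool.Agent.CRT

open Pool.Agent.NTS.Res
open Pool.Agent.NPR

/-! ### Lipschitz functions -/

theorem lp_one {μ ν : Measure CI} [IsProbabilityMeasure μ] [IsProbabilityMeasure ν] {δ : ℝ} (hδ : 0 < δ) (hδ1 : δ ≤ 1)
    (h : levyProkhorovDist μ ν < δ) {f : CI → ℝ} (hf : LipschitzWith 1 f) (hf1 : ∀ x, |f x| ≤ 1) :
    ∫ x, f x ∂μ ≤ ∫ x, f x ∂ν + 4 * δ := by
  have hc : Continuous f := hf.continuous
  have h1 : levyProkhorovEDist μ ν < ENNReal.ofReal δ := by
    unfold levyProkhorovDist at h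
    exact (ENNReal.lt_ofReal_iff_toReal_lt (levyProkhorovEDist_ne_top μ ν)).2 h
  have iμ : Integrable f μ := Integrable.of_bound hc.aestronglyMeasurable 1 (Eventually.of_forall fun x => hf1 x)
  have iν : Integrable f ν := Integrable.of_bound hc.aestronglyMeasurable 1 (Eventually.of_forall fun x => hf1 x)
  have e1 : ∫ x, (f x + 1) ∂μ = ∫ t in Ioc 0 3, μ.real {a | t ≤ f a + 1} :=
    Integrable.integral_eq_integral_Ioc_meas_le (iμ.add (integrable_const 1))
      (Eventually.of_forall fun x => by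
        show (0 : ℝ) ≤ f x + 1
        linarith [(abs_le.1 (hf1 x)).1])
      (Eventually.of_forall fun x => by
        show f x + 1 ≤ 3
        linarith [(abs_le.1 (hf1 x)).2])
  have e2 : ∫ x, (f x + (1 + δ)) ∂ν = ∫ t in Ioc 0 3, ν.real {a | t ≤ f a + (1 + δ)} :=
    Integrable.integral_eq_integral_Ioc_meas_le (iν.add (integrable_const (1 + δ)))
      (Eventually.of_forall fun x => by
        show (0 : ℝ) ≤ f x + (1 + δ)
        linarith [(abs_le.1 (hf1 x)).1])
      (Eventually.of_forall fun x => by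
        show f x + (1 + δ) ≤ 3
        linarith [(abs_le.1 (hf1 x)).2])
  have key : ∀ t, μ.real {a | t ≤ f a + 1} ≤ ν.real {a | t ≤ f a + (1 + δ)} + δ := by
    intro t
    have h2 := left_measure_le_of_levyProkhorovEDist_lt h1 (B := {a | t ≤ f a + 1})
      (measurableSet_le measurable_const (by fun_prop))
    rw [ENNReal.toReal_ofReal hδ.le] at h2
    have h3 : thickening δ {a | t ≤ f a + 1} ⊆ {a | t ≤ f a + (1 + δ)} := by
      intro x hx
      obtain ⟨y, hy, hd⟩ := mem_thickening_iff.1 hx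
      have h4 := hf.dist_le_mul x y
      rw [NNReal.coe_one, one_mul, Real.dist_eq] at h4
      have h5 : t ≤ f y + 1 := hy
      show t ≤ f x + (1 + δ)
      linarith [(abs_le.1 h4).1]
    have h4 : μ {a | t ≤ f a + 1} ≤ ν {a | t ≤ f a + (1 + δ)} + ENNReal.ofReal δ :=
      h2.trans (add_le_add_left (measure_mono h3) _)
    have h5 := ENNReal.toReal_mono (by finiteness) h4
    rw [ENNReal.toReal_add (by finiteness) (by finiteness), ENNReal.toReal_ofReal hδ.le] at h5
    exact h5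
  have iI : ∀ (m : Measure CI) [IsProbabilityMeasure m] (g : CI → ℝ),
      IntegrableOn (fun t => m.real {a | t ≤ g a}) (Ioc (0 : ℝ) 3) := by
    intro m _ g
    have ha : Antitone fun t : ℝ => m.real {a | t ≤ g a} := fun s t hst =>
      measureReal_mono (fun a (ha : t ≤ g a) => hst.trans ha)
    refine Integrable.of_bound ha.measurable.aestronglyMeasurable 1 (Eventually.of_forall fun t => ?_)
    rw [Real.norm_eq_abs, abs_of_nonneg measureReal_nonneg]
    exact measureReal_le_one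
  have e3 : ∫ t in Ioc (0 : ℝ) 3, μ.real {a | t ≤ f a + 1} ≤
      ∫ t in Ioc (0 : ℝ) 3, (ν.real {a | t ≤ f a + (1 + δ)} + δ) :=
    integral_mono (iI μ _) ((iI ν _).add (integrable_const δ)) fun t => key t
  have e4 : ∫ t in Ioc (0 : ℝ) 3, (ν.real {a | t ≤ f a + (1 + δ)} + δ) =
      (∫ t in Ioc (0 : ℝ) 3, ν.real {a | t ≤ f a + (1 + δ)}) + 3 * δ := by
    rw [integral_add (iI ν _) (integrable_const δ)]
    simp
  have e5 : ∫ x, (f x + 1) ∂μ = ∫ x, f x ∂μ + 1 := by
    rw [integral_add iμ (integrable_const _)]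
    simp
  have e6 : ∫ x, (f x + (1 + δ)) ∂ν = ∫ x, f x ∂ν + (1 + δ) := by
    rw [integral_add iν (integrable_const _)]
    simp
  linarith

/-- Lipschitz functions and the Lévy–Prokhorov distance -/
theorem lp_lip {μ ν : Measure CI} [IsProbabilityMeasure μ] [IsProbabilityMeasure ν] {δ : ℝ} (hδ : 0 < δ) (hδ1 : δ ≤ 1)
    (h : levyProkhorovDist μ ν < δ) {f : CI → ℝ} (hf : LipschitzWith 1 f) (hf1 : ∀ x, |f x| ≤ 1) :
    |∫ x, f x ∂μ - ∫ x, f x ∂ν| ≤ 4 * δ := by
  have h1 := lp_one hδ hδ1 h hf hf1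
  have h2 := lp_one hδ hδ1 (by rwa [levyProkhorovDist_comm]) hf hf1 (μ := ν) (ν := μ)
  rw [abs_le]
  constructor <;> linarith

/-! ### the walks in a ball -/

/-- the part of `cl R` with `m` steps -/
def clm (R : ℝ) (m : ℕ) : Measure (CI × ℝ) := ENNReal.ofReal (aN m / cR R) •
  (((law m).restrict (inB R m)).map fun γ => (sc (size m / R) γ, (m : ℝ) / R ^ (4 / 3 : ℝ)))

lemma cl_eq (R : ℝ) : cl R = Measure.sum (clm R) := rfl

lemma WK.meas_inB (R : ℝ) (m : ℕ) : MeasurableSet (inB R m) :=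
  (isOpen_lt (by fun_prop) continuous_const).measurableSet

lemma WK.cont_sc (c : ℝ) : Continuous (sc c) := continuous_const_smul _

lemma meas_clm (R : ℝ) (m : ℕ) : Measurable fun γ : CI => (sc (size m / R) γ, (m : ℝ) / R ^ (4 / 3 : ℝ)) :=
  ((WK.cont_sc _).prodMk continuous_const).measurable

lemma aN_nonneg (n : ℕ) : 0 ≤ aN n := by
  unfold aN fug
  positivity

lemma WK.aN_pos (n : ℕ) : 0 < aN n := by
  have h : 0 < ((saw n).card : ℝ) := by exact_mod_cast (NTSF.saw_nonempty n).card_pos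
  unfold aN fug
  positivity

/-- the window -/
def Wd (R : ℝ) (n : ℕ) (d : ℝ) : Set (CI × ℝ) :=
  {x | (n : ℝ) / R ^ (4 / 3 : ℝ) ≤ x.2 ∧ x.2 < (1 + d) * n / R ^ (4 / 3 : ℝ)}

lemma meas_Wd (R : ℝ) (n : ℕ) (d : ℝ) : MeasurableSet (Wd R n d) :=
  (measurableSet_le measurable_const measurable_snd).inter (measurableSet_lt measurable_snd measurable_const)

/-- the numbers of steps in the window -/
def Sd (n : ℕ) (d : ℝ) : Finset ℕ := Finset.Ico n ⌈(1 + d) * n⌉₊

lemma mem_Sd {n m : ℕ} {d : ℝ} : m ∈ Sd n d ↔ n ≤ m ∧ (m : ℝ) < (1 + d) * n := by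
  unfold Sd
  rw [Finset.mem_Ico, Nat.lt_ceil]

lemma win_iff {R : ℝ} (hR : 0 < R) (n m : ℕ) (d : ℝ) :
    ((n : ℝ) / R ^ (4 / 3 : ℝ) ≤ (m : ℝ) / R ^ (4 / 3 : ℝ) ∧
      (m : ℝ) / R ^ (4 / 3 : ℝ) < (1 + d) * n / R ^ (4 / 3 : ℝ)) ↔ m ∈ Sd n d := by
  have h : 0 < R ^ (4 / 3 : ℝ) := Real.rpow_pos_of_pos hR _
  rw [mem_Sd, div_le_div_iff_of_pos_right h, div_lt_div_iff_of_pos_right h, Nat.cast_le]

/-- the critical walks with the numbers of steps in the window -/
theorem win_sum {R : ℝ} (hR : 0 < R) (n : ℕ) (d : ℝ) : (cl R).restrict (Wd R n d) = ∑ m ∈ Sd n d, clm R m := by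
  have h1 : ∀ m, (clm R m).restrict (Wd R n d) = if m ∈ Sd n d then clm R m else 0 := by
    intro m
    unfold clm
    rw [Measure.restrict_smul, Measure.restrict_map (meas_clm R m) (meas_Wd R n d)]
    split_ifs with h
    · have e : (fun γ : CI => (sc (size m / R) γ, (m : ℝ) / R ^ (4 / 3 : ℝ))) ⁻¹' Wd R n d = univ := by
        ext γ
        simp only [mem_preimage, mem_univ, iff_true]
        exact (win_iff hR n m d).2 h
      rw [e, Measure.restrict_univ]
    · have e : (fun γ : CI => (sc (size m / R) γ, (m : ℝ) / R ^ (4 / 3 : ℝ))) ⁻¹' Wd R n d = ∅ := by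
        ext γ
        simp only [mem_preimage, mem_empty_iff_false, iff_false]
        exact fun hx => h ((win_iff hR n m d).1 hx)
      rw [e, Measure.restrict_empty, Measure.map_zero, smul_zero]
  rw [cl_eq, Measure.restrict_sum _ (meas_Wd R n d)]
  ext E hE
  rw [Measure.sum_apply _ hE, Measure.finsetSum_apply]
  simp only [h1]
  rw [tsum_eq_sum (s := Sd n d) fun m hm => by rw [if_neg hm]; rfl]
  exact Finset.sum_congr rfl fun m hm => by rw [if_pos hm]

/-- the probability that the walk with `m` steps stays in the ball -/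
def pB (R : ℝ) (m : ℕ) : ℝ := (law m (inB R m)).toReal

instance (n : ℕ) : IsProbabilityMeasure (law n) := NTSF.law_prob n

lemma pB_le (R : ℝ) (m : ℕ) : pB R m ≤ 1 := measureReal_le_one (μ := law m)

lemma pB_nonneg (R : ℝ) (m : ℕ) : 0 ≤ pB R m := ENNReal.toReal_nonneg

instance (R : ℝ) (m : ℕ) : IsFiniteMeasure (clm R m) := by
  unfold clm
  have : IsFiniteMeasure (((law m).restrict (inB R m)).map fun γ => (sc (size m / R) γ, (m : ℝ) / R ^ (4 / 3 : ℝ))) :=
    Measure.isFiniteMeasure_map _ _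
  exact Measure.smul_finite _ ENNReal.ofReal_ne_top

/-- the measure of the window -/
theorem win_mass {R : ℝ} (hR : 0 < R) (hc : 0 ≤ cR R) (n : ℕ) (d : ℝ) :
    (cl R (Wd R n d)).toReal = ∑ m ∈ Sd n d, aN m / cR R * pB R m := by
  have h := congrArg (fun μ : Measure (CI × ℝ) => (μ univ).toReal) (win_sum hR n d)
  simp only [Measure.restrict_apply_univ, Measure.finsetSum_apply] at h
  rw [h, ENNReal.toReal_sum fun m _ => measure_ne_top _ _]
  refine Finset.sum_congr rfl fun m _ => ?_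
  unfold clm pB
  rw [Measure.smul_apply, Measure.map_apply (meas_clm R m) MeasurableSet.univ, preimage_univ, Measure.restrict_apply_univ,
    smul_eq_mul, ENNReal.toReal_mul, ENNReal.toReal_ofReal (div_nonneg (aN_nonneg m) hc)]

/-- integrals over the window -/
theorem win_int {R : ℝ} (hR : 0 < R) (hc : 0 ≤ cR R) (n : ℕ) (d : ℝ) {g : CI × ℝ → ℝ} (hg : Continuous g)
    (hg1 : ∀ x, |g x| ≤ 1) : ∫ x, (Wd R n d).indicator g x ∂(cl R) =
      ∑ m ∈ Sd n d, aN m / cR R * ∫ γ in inB R m, g (sc (size m / R) γ, (m : ℝ) / R ^ (4 / 3 : ℝ)) ∂(law m) := by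
  rw [integral_indicator (meas_Wd R n d), win_sum hR, integral_finsetSum_measure]
  · refine Finset.sum_congr rfl fun m _ => ?_
    unfold clm
    rw [integral_smul_measure, integral_map (meas_clm R m).aemeasurable hg.aestronglyMeasurable,
      ENNReal.toReal_ofReal (div_nonneg (aN_nonneg m) hc), smul_eq_mul]
  · exact fun m _ => Integrable.of_bound hg.aestronglyMeasurable 1 (Eventually.of_forall fun x => hg1 x)

/-! ### one number of steps -/

/-- the walks are not large -/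
theorem norm_tight {ε : ℝ} (hε : 0 < ε) : ∃ A : ℝ, 1 ≤ A ∧ ∀ n : ℕ, 1 ≤ n → law n {γ | A < ‖γ‖} ≤ ENNReal.ofReal ε := by
  obtain ⟨c, C, -, -, -, -, hT, -, -⟩ := NTSF.finE
  rw [isTightMeasureSet_iff_exists_isCompact_measure_compl_le] at hT
  obtain ⟨K, hK, h⟩ := hT (ENNReal.ofReal ε) (ENNReal.ofReal_pos.2 hε)
  obtain ⟨A, hA⟩ := hK.isBounded.exists_norm_le
  refine ⟨max A 1, le_max_right _ _, fun n hn => (measure_mono fun γ hγ hK => ?_).trans (h _ ⟨n, hn, rfl⟩)⟩
  have h1 : max A 1 < ‖γ‖ := hγ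
  exact absurd (hA γ hK) (not_le.2 ((le_max_left _ _).trans_lt h1))

/-- slow change, Lipschitz functions -/
theorem slow_lip {ε : ℝ} (hε : 0 < ε) : ∃ δ : ℝ, 0 < δ ∧ ∀ n m : ℕ, 1 / δ ≤ n → n ≤ m → (m : ℝ) ≤ (1 + δ) * n →
    |aN m / aN n - 1| ≤ ε ∧ |size m / size n - 1| ≤ ε ∧
      ∀ f : CI → ℝ, LipschitzWith 1 f → (∀ γ, |f γ| ≤ 1) → |∫ γ, f γ ∂(law m) - ∫ γ, f γ ∂(law n)| ≤ ε := by
  obtain ⟨e, he, he1, he2⟩ : ∃ e : ℝ, 0 < e ∧ e ≤ 1 / 2 ∧ 8 * e ≤ ε :=
    ⟨min (1 / 2) (ε / 8), lt_min (by norm_num) (by positivity), min_le_left _ _, by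
      have := min_le_right (1 / 2) (ε / 8)
      linarith⟩
  obtain ⟨δ, hδ, h⟩ := NTSF.Mg.slow_change.1 e he
  refine ⟨δ, hδ, fun n m hn hnm hm => ?_⟩
  obtain ⟨k, rfl⟩ := Nat.exists_eq_add_of_le hnm
  have hk : (k : ℝ) ≤ δ * n := by
    push_cast at hm
    linarith
  obtain ⟨h1, h2, h3⟩ := h n k hn hk
  have e1 : aN (n + k) / aN n = ((saw (n + k)).card : ℝ) / (Real.sqrt (2 + Real.sqrt 2) ^ k * (saw n).card) := by
    have hc : ((saw n).card : ℝ) ≠ 0 := by exact_mod_cast (NTSF.saw_nonempty n).card_pos.ne'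
    have hf : (Real.sqrt (2 + Real.sqrt 2)) ≠ 0 := by positivity
    unfold aN fug
    rw [pow_add, inv_pow, inv_pow]
    field_simp
  refine ⟨by rw [e1]; linarith, by linarith, fun f hf hf1 => ?_⟩
  have h4 := lp_lip (μ := law (n + k)) (ν := law n) (δ := 2 * e) (by linarith) (by linarith) (by linarith) hf hf1
  linarith

/-- **one number of steps** -/
theorem one_step {ε : ℝ} (hε : 0 < ε) : ∃ d0 : ℝ, 0 < d0 ∧ ∃ L0 : ℝ, 0 < L0 ∧ ∀ n m : ℕ, 1 / d0 ≤ n → n ≤ m →
    (m : ℝ) ≤ (1 + d0) * n → |aN m / aN n - 1| ≤ ε ∧ ∀ R : ℝ, L0 * size n ≤ R → 1 - ε ≤ pB R m ∧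
      ∀ f : CI → ℝ, LipschitzWith 1 f → (∀ γ, |f γ| ≤ 1) →
        |∫ γ in inB R m, f (sc (size m / size n) γ) ∂(law m) - pB R m * ∫ γ, f γ ∂(law n)| ≤ 6 * ε := by
  obtain ⟨A, hA, hT⟩ := norm_tight hε
  have hA0 : 0 < A := by linarith
  obtain ⟨e, he, he1, he2, he3⟩ : ∃ e : ℝ, 0 < e ∧ e ≤ ε ∧ e * A ≤ ε ∧ e ≤ 1 := ⟨min (ε / A) 1,
    lt_min (div_pos hε hA0) one_pos, (min_le_left _ _).trans (div_le_self hε.le hA), by
      calc min (ε / A) 1 * A ≤ ε / A * A := mul_le_mul_of_nonneg_right (min_le_left _ _) hA0.le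
        _ = ε := div_mul_cancel₀ _ hA0.ne', min_le_right _ _⟩
  obtain ⟨δ, hδ, h⟩ := slow_lip he
  refine ⟨δ, hδ, 3 * A, by positivity, fun n m hn hnm hm => ?_⟩
  have hn0 : (0 : ℝ) < n := lt_of_lt_of_le (by positivity) hn
  have hn1 : 1 ≤ n := by exact_mod_cast hn0
  obtain ⟨h1, h2, h3⟩ := h n m hn hnm hm
  have hs := NTSF.size_pos hn1
  refine ⟨h1.trans he1, fun R hR => ?_⟩
  have hq : size m / size n ≤ 2 := by linarith [(abs_le.1 h2).2]
  have hsm : size m ≤ 2 * size n := by rwa [div_le_iff₀ hs] at hq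
  have hsub : (inB R m)ᶜ ⊆ {γ : CI | A < ‖γ‖} := by
    intro γ hγ
    by_contra hc
    refine hγ ?_
    have h4 : ‖γ‖ ≤ A := not_lt.1 hc
    show ‖γ‖ * size m < R
    have h5 : ‖γ‖ * size m ≤ A * (2 * size n) := by
      have h6 : 0 ≤ size m := Real.sqrt_nonneg _
      exact mul_le_mul h4 hsm h6 hA0.le
    nlinarith
  have hcm : (law m).real (inB R m)ᶜ ≤ ε := by
    have h4 := (measure_mono hsub).trans (hT m (hn1.trans hnm))
    rw [measureReal_def]
    exact (ENNReal.toReal_mono ENNReal.ofReal_ne_top h4).trans_eq (ENNReal.toReal_ofReal hε.le)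
  have hAm : (law m).real {γ : CI | A < ‖γ‖} ≤ ε := by
    rw [measureReal_def]
    exact (ENNReal.toReal_mono ENNReal.ofReal_ne_top (hT m (hn1.trans hnm))).trans_eq (ENNReal.toReal_ofReal hε.le)
  have hp : pB R m = 1 - (law m).real (inB R m)ᶜ := by
    rw [measureReal_compl (WK.meas_inB R m), probReal_univ]
    unfold pB
    rw [← measureReal_def]
    ring
  have hp1 : 1 - ε ≤ pB R m := by linarith
  refine ⟨hp1, fun f hf hf1 => ?_⟩
  obtain ⟨q, hqd⟩ : ∃ q, q = size m / size n := ⟨_, rfl⟩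
  rw [← hqd] at h2 ⊢
  have hcf : Continuous f := hf.continuous
  have hcg : Continuous fun γ => f (sc q γ) := hcf.comp (WK.cont_sc q)
  have iF : Integrable f (law m) := Integrable.of_bound hcf.aestronglyMeasurable 1 (Eventually.of_forall fun x => hf1 x)
  have iG : Integrable (fun γ => f (sc q γ)) (law m) :=
    Integrable.of_bound hcg.aestronglyMeasurable 1 (Eventually.of_forall fun x => hf1 _)
  -- outside of the ball
  have a1 : |∫ γ in inB R m, f (sc q γ) ∂(law m) - ∫ γ, f (sc q γ) ∂(law m)| ≤ ε := by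
    have h5 := integral_add_compl (WK.meas_inB R m) iG
    have h6 : |∫ γ in (inB R m)ᶜ, f (sc q γ) ∂(law m)| ≤ 1 * (law m).real (inB R m)ᶜ := by
      rw [← Real.norm_eq_abs]
      exact norm_setIntegral_le_of_norm_le_const (measure_lt_top _ _) fun x _ => hf1 _
    rw [← h5, sub_add_cancel_left, abs_neg]
    linarith
  -- the scaling
  have a2 : |∫ γ, f (sc q γ) ∂(law m) - ∫ γ, f γ ∂(law m)| ≤ 3 * ε := by
    rw [← integral_sub iG iF]
    have iH : Integrable (fun γ : CI => ε + {γ : CI | A < ‖γ‖}.indicator (fun _ => (2 : ℝ)) γ) (law m) :=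
      (integrable_const _).add ((integrable_const (2 : ℝ)).indicator
        (measurableSet_lt measurable_const (by fun_prop)))
    have h5 : |∫ γ, (f (sc q γ) - f γ) ∂(law m)| ≤
        ∫ γ : CI, (ε + {γ : CI | A < ‖γ‖}.indicator (fun _ => (2 : ℝ)) γ) ∂(law m) := by
      rw [← Real.norm_eq_abs]
      refine norm_integral_le_of_norm_le iH (Eventually.of_forall fun γ => ?_)
      rw [Real.norm_eq_abs]
      by_cases hγ : A < ‖γ‖
      · rw [indicator_of_mem (show γ ∈ {γ : CI | A < ‖γ‖} from hγ)]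
        have := abs_sub (f (sc q γ)) (f γ)
        linarith [hf1 (sc q γ), hf1 γ]
      · rw [indicator_of_notMem (show γ ∉ {γ : CI | A < ‖γ‖} from hγ), add_zero]
        have h6 := hf.dist_le_mul (sc q γ) γ
        rw [NNReal.coe_one, one_mul, Real.dist_eq, dist_eq_norm] at h6
        refine h6.trans ?_
        have h7 : sc q γ - γ = ((q - 1 : ℝ) : ℂ) • γ := by
          ext u
          show (q : ℂ) * γ u - γ u = ((q - 1 : ℝ) : ℂ) * γ u
          push_cast
          ring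
        rw [h7, norm_smul, Complex.norm_real, Real.norm_eq_abs]
        calc |q - 1| * ‖γ‖ ≤ e * A := mul_le_mul h2 (not_lt.1 hγ) (norm_nonneg _) he.le
          _ ≤ ε := he2
    refine h5.trans ?_
    rw [integral_add (integrable_const _) ((integrable_const (2 : ℝ)).indicator
        (measurableSet_lt measurable_const (by fun_prop))), integral_indicator
        (measurableSet_lt measurable_const (by fun_prop)), setIntegral_const, integral_const, probReal_univ]
    simp only [smul_eq_mul, one_mul]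
    linarith
  have a3 := h3 f hf hf1
  have a4 : |∫ γ, f γ ∂(law n)| ≤ 1 := by
    have := norm_integral_le_of_norm_le_const (μ := law n) (f := f) (C := 1) (Eventually.of_forall fun x => hf1 x)
    simpa using this
  have a5 : |∫ γ, f γ ∂(law n) - pB R m * ∫ γ, f γ ∂(law n)| ≤ ε := by
    have h5 : ∫ γ, f γ ∂(law n) - pB R m * ∫ γ, f γ ∂(law n) = (1 - pB R m) * ∫ γ, f γ ∂(law n) := by ring
    rw [h5, abs_mul, abs_of_nonneg (by linarith [pB_le R m])]
    calc (1 - pB R m) * |∫ γ, f γ ∂(law n)| ≤ (1 - pB R m) * 1 :=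
          mul_le_mul_of_nonneg_left a4 (by linarith [pB_le R m])
      _ ≤ ε := by linarith
  rw [abs_le] at a1 a2 a3 a5 ⊢
  constructor <;> linarith [a1.1, a1.2, a2.1, a2.2, a3.1, a3.2, a5.1, a5.2]

/-! ### the weight of the ball -/

/-- a long walk leaves the ball -/
theorem len_bd (R : ℝ) : ∃ N : ℕ, 1 ≤ N ∧ ∀ n : ℕ, N ≤ n → ∀ s ∈ saw n, ∃ k, k ≤ n ∧ R ≤ ‖pos s k‖ := by
  obtain ⟨t, ht, hfin, hcov⟩ := (isCompact_closedBall (0 : ℂ) R).finite_cover_balls (e := 1 / 2) (by norm_num)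
  refine ⟨hfin.toFinset.card + 1, by omega, fun n hn s hs => ?_⟩
  by_contra hcon
  push Not at hcon
  have h1 : ∀ k, k ≤ n → ∃ y ∈ t, pos s k ∈ ball y (1 / 2) := by
    intro k hk
    have h2 : pos s k ∈ closedBall (0 : ℂ) R := by
      rw [mem_closedBall_zero_iff]
      exact (hcon k hk).le
    have h3 := hcov h2
    simpa using h3
  choose! g hg hgb using h1
  have h4 : (Finset.range (n + 1)).card ≤ hfin.toFinset.card := by
    refine Finset.card_le_card_of_injOn g (fun k hk => ?_) fun i hi j hj hij => ?_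
    · rw [Finset.coe_range, mem_Iio] at hk
      rw [Set.Finite.coe_toFinset]
      exact hg k (by omega)
    · rw [Finset.coe_range, mem_Iio] at hi hj
      by_contra hne
      have h5 : ∀ i j : ℕ, i < j → j ≤ n → g i = g j → False := by
        intro i j hlt hj hij
        have h6 := NTSF.Tn.dist_ge hs hlt hj
        have h7 := hgb i (by omega)
        have h8 := hgb j hj
        rw [mem_ball, dist_eq_norm] at h7 h8
        rw [hij] at h7
        have h9 := norm_sub_le_norm_sub_add_norm_sub (pos s j) (g j) (pos s i)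
        rw [norm_sub_rev (g j)] at h9
        linarith
      rcases Nat.lt_or_ge i j with h6 | h6
      · exact h5 i j h6 (by omega) hij
      · exact h5 j i (by omega) (by omega) hij.symm
  rw [Finset.card_range] at h4
  omega

lemma pos_lt {n : ℕ} (hn : 1 ≤ n) {s : Fin n → Fin 3} {R : ℝ} (h : ‖curve s‖ * size n < R) {k : ℕ} (hk : k ≤ n) :
    ‖pos s k‖ < R := by
  have hn0 : (0 : ℝ) < n := by exact_mod_cast hn
  have hs := NTSF.size_pos hn
  have hk' : (k : ℝ) ≤ n := by exact_mod_cast hk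
  obtain ⟨u, hu⟩ : ∃ u : unitInterval, (u : ℝ) * n = k := ⟨⟨k / n, by positivity, by rwa [div_le_one hn0]⟩,
    div_mul_cancel₀ _ hn0.ne'⟩
  have e : curve s u = pos s k / size n := by
    rw [NTSF.curve_eq]
    rcases Nat.lt_or_ge k n with h1 | h1
    · rw [Tight.poly_apply h1 (by rw [hu]) (by rw [hu]; linarith), hu]
      simp
    · have h2 : k = n := le_antisymm hk h1
      have h3 : u = 1 := by
        refine Subtype.ext ?_
        have h4 : (u : ℝ) * n = 1 * n := by rw [hu, h2, one_mul]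
        exact mul_right_cancel₀ hn0.ne' h4
      rw [h3, Tight.poly_one, h2]
  have h3 : ‖pos s k‖ = ‖curve s u‖ * size n := by
    rw [e, norm_div, Complex.norm_real, Real.norm_eq_abs, abs_of_pos hs, div_mul_cancel₀ _ hs.ne']
  rw [h3]
  exact (mul_le_mul_of_nonneg_right ((curve s).norm_coe_le_norm u) hs.le).trans_lt h

lemma WK.wR_nonneg (R : ℝ) (n : ℕ) : 0 ≤ wR R n := mul_nonneg (aN_nonneg n) ENNReal.toReal_nonneg

lemma WK.wR_eq (R : ℝ) (n : ℕ) : wR R n = aN n * pB R n := rfl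

theorem wR_zero (R : ℝ) : ∃ N : ℕ, ∀ n : ℕ, N ≤ n → wR R n = 0 := by
  obtain ⟨N, hN, h⟩ := len_bd R
  refine ⟨N, fun n hn => ?_⟩
  have h1 : law n (inB R n) = 0 := NTSF.law_zero fun s hs hc => by
    obtain ⟨k, hk, hk2⟩ := h n hn s hs
    exact absurd (pos_lt (hN.trans hn) hc hk) (not_lt.2 hk2)
  unfold wR
  rw [h1, ENNReal.toReal_zero, mul_zero]

theorem sum_wR (R : ℝ) : Summable (wR R) := by
  obtain ⟨N, h⟩ := wR_zero R
  exact summable_of_ne_finset_zero (s := Finset.range N) fun n hn => h n (by simpa using hn)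

theorem WK.cR_pos {R : ℝ} (hR : 0 < R) : 0 < cR R := by
  have h0 : size 0 = 0 := by
    unfold size
    rw [Finset.sum_eq_zero fun s _ => by rw [NTSF.pos_zero, norm_zero, zero_pow two_ne_zero], zero_div, Real.sqrt_zero]
  have h1 : inB R 0 = univ := by
    ext γ
    unfold inB
    rw [h0]
    simpa using hR
  have h2 : wR R 0 = aN 0 := by
    unfold wR
    rw [h1, measure_univ, ENNReal.toReal_one, mul_one]
  have h3 : wR R 0 ≤ cR R := (sum_wR R).le_tsum 0 fun n _ => WK.wR_nonneg R n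
  have := WK.aN_pos 0
  linarith

/-! ### the rows -/

/-- **K6** -/
theorem winN : WinN := by
  intro ε hε
  obtain ⟨e, he, he1, he2⟩ : ∃ e : ℝ, 0 < e ∧ e ≤ 1 / 2 ∧ 12 * e ≤ ε :=
    ⟨min (1 / 2) (ε / 12), lt_min (by norm_num) (by positivity), min_le_left _ _, by
      have := min_le_right (1 / 2) (ε / 12)
      linarith⟩
  obtain ⟨d0, hd0, L0, hL0, h⟩ := one_step he
  refine ⟨d0, hd0, fun d hd hdd => ⟨L0, hL0, fun Lam hLam => ⟨⌈1 / d0⌉₊, fun n hn f hf hf1 => ?_⟩⟩⟩
  have hn' : 1 / d0 ≤ n := (Nat.le_ceil _).trans (by exact_mod_cast hn)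
  have hn0 : (0 : ℝ) < n := lt_of_lt_of_le (by positivity) hn'
  have hn1 : 1 ≤ n := by exact_mod_cast hn0
  have hs := NTSF.size_pos hn1
  have hLam0 : 0 < Lam := hL0.trans_le hLam
  obtain ⟨R, hRd⟩ : ∃ R, R = Lam * size n := ⟨_, rfl⟩
  have hR : 0 < R := hRd ▸ by positivity
  have hRL : L0 * size n ≤ R := hRd ▸ mul_le_mul_of_nonneg_right hLam hs.le
  rw [← hRd]
  have hc := WK.cR_pos hR
  have hcf : Continuous f := hf.continuous
  have hg : Continuous fun x : CI × ℝ => f (sc Lam x.1) := hcf.comp ((WK.cont_sc Lam).comp continuous_fst)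
  show |∫ x, (Wd R n d).indicator (fun x => f (sc Lam x.1)) x ∂(cl R) - (cl R (Wd R n d)).toReal * ∫ γ, f γ ∂(law n)| ≤
    ε * (cl R (Wd R n d)).toReal
  rw [win_int hR hc.le n d hg fun x => hf1 _, win_mass hR hc.le]
  have e1 : ∀ (m : ℕ) (γ : CI), sc Lam (sc (size m / R) γ) = sc (size m / size n) γ := by
    intro m γ
    unfold sc
    rw [smul_smul, ← Complex.ofReal_mul]
    congr 2
    rw [hRd]
    field_simp
  simp only [e1]
  rw [Finset.sum_mul, ← Finset.sum_sub_distrib, Finset.mul_sum]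
  refine (Finset.abs_sum_le_sum_abs _ _).trans (Finset.sum_le_sum fun m hm => ?_)
  obtain ⟨hm1, hm2⟩ := mem_Sd.1 hm
  obtain ⟨-, h2⟩ := h n m hn' hm1 (hm2.le.trans (mul_le_mul_of_nonneg_right (by linarith) hn0.le))
  obtain ⟨h3, h4⟩ := h2 R hRL
  have h5 := h4 f hf hf1
  have h6 : 0 ≤ aN m / cR R := div_nonneg (aN_nonneg m) hc.le
  have e2 : aN m / cR R * ∫ γ in inB R m, f (sc (size m / size n) γ) ∂(law m) -
      aN m / cR R * pB R m * ∫ γ, f γ ∂(law n) =
      aN m / cR R * (∫ γ in inB R m, f (sc (size m / size n) γ) ∂(law m) - pB R m * ∫ γ, f γ ∂(law n)) := by ring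
  rw [e2, abs_mul, abs_of_nonneg h6]
  calc aN m / cR R * |∫ γ in inB R m, f (sc (size m / size n) γ) ∂(law m) - pB R m * ∫ γ, f γ ∂(law n)| ≤
        aN m / cR R * (ε * pB R m) := mul_le_mul_of_nonneg_left (h5.trans (by nlinarith)) h6
    _ = ε * (aN m / cR R * pB R m) := by ring

/-- **K6'** -/
theorem winA : WinA := by
  intro ε hε
  obtain ⟨e, he, he1, he2⟩ : ∃ e : ℝ, 0 < e ∧ e ≤ 1 / 2 ∧ 4 * e ≤ ε :=
    ⟨min (1 / 2) (ε / 4), lt_min (by norm_num) (by positivity), min_le_left _ _, by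
      have := min_le_right (1 / 2) (ε / 4)
      linarith⟩
  obtain ⟨d0, hd0, L0, hL0, h⟩ := one_step he
  refine ⟨d0, hd0, fun d hd hdd => ⟨L0, hL0, fun Lam hLam => ⟨max ⌈1 / d0⌉₊ ⌈1 / (d * e)⌉₊, fun n hn R hR' => ?_⟩⟩⟩
  have hn' : 1 / d0 ≤ n := (Nat.le_ceil _).trans (by exact_mod_cast (le_max_left _ _).trans hn)
  have hn2 : 1 / (d * e) ≤ n := (Nat.le_ceil _).trans (by exact_mod_cast (le_max_right _ _).trans hn)
  have hn0 : (0 : ℝ) < n := lt_of_lt_of_le (by positivity) hn'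
  have hn1 : 1 ≤ n := by exact_mod_cast hn0
  have hs := NTSF.size_pos hn1
  have hRL : L0 * size n ≤ R := (mul_le_mul_of_nonneg_right hLam hs.le).trans hR'
  have hR : 0 < R := lt_of_lt_of_le (by positivity) hRL
  have hc := WK.cR_pos hR
  have ha := WK.aN_pos n
  show |cR R * (cl R (Wd R n d)).toReal - d * n * aN n| ≤ ε * (d * n * aN n)
  rw [win_mass hR hc.le, Finset.mul_sum]
  have e1 : ∀ m, cR R * (aN m / cR R * pB R m) = aN m * pB R m := fun m => by
    rw [← mul_assoc, mul_div_cancel₀ _ hc.ne']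
  simp only [e1]
  obtain ⟨N, hN⟩ : ∃ N : ℝ, N = ((Sd n d).card : ℝ) := ⟨_, rfl⟩
  have hd1 : 1 ≤ d * n * e := by
    rw [div_le_iff₀ (by positivity)] at hn2
    linarith
  have hN1 : d * n ≤ N := by
    rw [hN]
    unfold Sd
    rw [Nat.card_Ico]
    have h1 : n ≤ ⌈(1 + d) * n⌉₊ := by
      have h2 : (n : ℝ) ≤ ⌈(1 + d) * n⌉₊ := le_trans (by nlinarith) (Nat.le_ceil _)
      exact_mod_cast h2
    rw [Nat.cast_sub h1]
    linarith [Nat.le_ceil ((1 + d) * n)]
  have hN2 : N ≤ d * n * (1 + e) := by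
    rw [hN]
    unfold Sd
    rw [Nat.card_Ico]
    have h1 : n ≤ ⌈(1 + d) * n⌉₊ := by
      have h2 : (n : ℝ) ≤ ⌈(1 + d) * n⌉₊ := le_trans (by nlinarith) (Nat.le_ceil _)
      exact_mod_cast h2
    rw [Nat.cast_sub h1]
    have h2 := Nat.ceil_lt_add_one (R := ℝ) (a := (1 + d) * n) (by positivity)
    nlinarith
  have key : ∀ m ∈ Sd n d, (1 - e) * (1 - e) * aN n ≤ aN m * pB R m ∧ aN m * pB R m ≤ (1 + e) * aN n := by
    intro m hm
    obtain ⟨hm1, hm2⟩ := mem_Sd.1 hm
    obtain ⟨h1, h2⟩ := h n m hn' hm1 (hm2.le.trans (mul_le_mul_of_nonneg_right (by linarith) hn0.le))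
    have h3 := (h2 R hRL).1
    have h4 := pB_le R m
    have h5 : (1 - e) * aN n ≤ aN m := by
      have := (abs_le.1 h1).1
      rw [← le_div_iff₀ ha]
      linarith
    have h6 : aN m ≤ (1 + e) * aN n := by
      have := (abs_le.1 h1).2
      rw [← div_le_iff₀ ha]
      linarith
    have h7 : 0 ≤ pB R m := pB_nonneg R m
    have h8 := aN_nonneg m
    constructor
    · calc (1 - e) * (1 - e) * aN n = ((1 - e) * aN n) * (1 - e) := by ring
        _ ≤ aN m * pB R m := mul_le_mul h5 h3 (by linarith) h8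
    · calc aN m * pB R m ≤ aN m * 1 := mul_le_mul_of_nonneg_left h4 h8
        _ ≤ _ := by rw [mul_one]; exact h6
  have hlo : N * ((1 - e) * (1 - e) * aN n) ≤ ∑ m ∈ Sd n d, aN m * pB R m := by
    have := Finset.card_nsmul_le_sum (Sd n d) (fun m => aN m * pB R m) _ fun m hm => (key m hm).1
    rwa [nsmul_eq_mul, ← hN] at this
  have hup : ∑ m ∈ Sd n d, aN m * pB R m ≤ N * ((1 + e) * aN n) := by
    have := Finset.sum_le_card_nsmul (Sd n d) (fun m => aN m * pB R m) _ fun m hm => (key m hm).2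
    rwa [nsmul_eq_mul, ← hN] at this
  obtain ⟨T, hT⟩ : ∃ T : ℝ, T = d * n * aN n := ⟨_, rfl⟩
  have hT0 : 0 < T := hT ▸ by positivity
  rw [← hT]
  have h1 : T * ((1 - e) * (1 - e)) ≤ N * ((1 - e) * (1 - e) * aN n) := by
    have : d * n * ((1 - e) * (1 - e) * aN n) ≤ N * ((1 - e) * (1 - e) * aN n) :=
      mul_le_mul_of_nonneg_right hN1 (by nlinarith)
    rw [hT]
    linarith
  have h2 : N * ((1 + e) * aN n) ≤ T * ((1 + e) * (1 + e)) := by
    have : N * ((1 + e) * aN n) ≤ d * n * (1 + e) * ((1 + e) * aN n) :=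
      mul_le_mul_of_nonneg_right hN2 (by positivity)
    rw [hT]
    linarith
  have h3 : T * ((1 + e) * (1 + e)) ≤ T + ε * T := by nlinarith
  have h4 : T - ε * T ≤ T * ((1 - e) * (1 - e)) := by nlinarith
  rw [abs_le]
  constructor <;> linarith

end Pool.Agent.CRT

end
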