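import Pool.Agent.CRT.Res
import Pool.Agent.CRT.ClTightZ
import Pool.Agent.CRT.ClClk
import Pool.Agent.CRT.WinK
import Pool.Agent.CRT.Mass
import Pool.Agent.CRT.Time
import Pool.Agent.CRT.UniqM
import Pool.Agent.CRT.RvOf
import Pool.Agent.CRT.ToRatZ
import Pool.Agent.CRT.RegSz
import Pool.Agent.CRT.ClGood
import Pool.Agent.CRT.QOf
import Pool.Agent.CRT.ClkU
import Pool.Agent.CRT.TKZ
import Pool.Agent.NPR.All
import Pool.Agent.SLW.PubY
import Pool.Agent.SIM.FinAllS

/-!
# CRT (doc next/46f0ca_45, helper5): assembly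

`crt` : the ratios of critical susceptibilities converge if and only if the laws of the walks converge and the numbers of walks
vary regularly; if the laws of the walks converge then their sizes vary regularly.
-/

set_option autoImplicit false

open Set Filter Topology MeasureTheory
open scoped ENNReal

namespace Pool.Agent.CRT

open Pool.Agent.NTS.Res
open Pool.Agent.NPR

namespace Al

/-- upper bound for the sizes -/
theorem size_up : ∃ C : ℝ, ∀ n : ℕ, 1 ≤ n → size n ≤ C * (n : ℝ) ^ (3 / 4 : ℝ) := by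
  obtain ⟨c, C, hc, hsz, -⟩ := NTSF.finE
  exact ⟨C, fun n hn => (hsz n hn).2⟩

/-- upper bound for the numbers of walks -/
theorem aN_up : ∃ C : ℝ, ∀ n : ℕ, 1 ≤ n → aN n ≤ C * (n : ℝ) ^ (11 / 32 : ℝ) := by
  obtain ⟨c, C, hc, hC, h⟩ := _root_.CRT.Mass.aN_bounds
  exact ⟨C, fun n hn => (h n hn).2⟩

/-- the limits are simple -/
theorem lim_inj (φ : ℕ → ℕ) (ν : Measure C(unitInterval, ℂ)) (hφ : Tendsto φ atTop atTop) (hν : IsProbabilityMeasure ν)
    (hl : LawTo φ ν) : ∀ᵐ γ : C(unitInterval, ℂ) ∂ν, Function.Injective γ :=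
  HexObs.SIM.simple_final.2.2 φ ν hφ hν hl

end Al

/-- **K3** -/
theorem tk : TK := tk_of HexObs.NPR.mainW

/-- **K3'** -/
theorem clkU : ClkU := clkU_of HexObs.NPR.mainN

/-- **K5d** -/
theorem clClk : ClClk :=
  clClk_of tk clTime _root_.CRT.Mass.massB Al.aN_up ⟨1, fun R hR => (clPr R (by linarith)).1⟩

/-- **K5b** -/
theorem clGood : ClGood :=
  clGood_of clkU clTime _root_.CRT.Mass.massB Al.aN_up clPr Al.lim_inj NTSF.finE

/-- **K8f** -/
theorem qOf' : QOf := qOf clPr winN clTime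

/-- **K8g** -/
theorem rvOf' : RvOf := rvOf winA clTime Al.size_up

/-- **K8a** -/
theorem uniqM : UniqM := uniqM_of clPr chiCl clRes clTight clGood clTime clClk _root_.CRT.Mass.massB

/-- **K8** -/
theorem fromRat : FromRat := by
  intro h
  obtain ⟨M, hM⟩ := uniqM h
  exact ⟨qOf' M hM, rvOf' M hM⟩

/-- **K9** -/
theorem regSz : RegSz := regSz_w Al.lim_inj HexObs.NPR.mainW

/-- **K10** -/
theorem toRat : ToRat := K10.toRat regSz

/-- **the theorem** -/
theorem crt : (RatC ↔ Q1 ∧ RVa) ∧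
    (Q1 → ∀ lam : ℝ, 0 < lam → Tendsto (fun n : ℕ => size ⌊lam * n⌋₊ / size n) atTop (𝓝 (lam ^ (3 / 4 : ℝ)))) :=
  ⟨⟨fromRat, fun h => toRat h.1 h.2⟩, regSz⟩

/-- the theorem, with an additional input: Q1 gives the regular variation of the numbers of walks -/
theorem crt_q (h : Q1 → RVa) : RatC ↔ Q1 :=
  ⟨fun h1 => (fromRat h1).1, fun h1 => toRat h1 (h h1)⟩

end Pool.Agent.CRT
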