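import Pool.Agent.CRT.PinM
import Pool.Agent.EN.LowEz
import Pool.Agent.SIM.NoCutX

/-!
# CRT, row 11A N1 (helper86): the pinched leaves are a class of small norm

**`pin_norm`**.
-/

set_option autoImplicit false

namespace CutJ

open HexObs Finset TS SDN NTW NTA

open scoped ENNReal

open LQ

/-- the leaves that are pinched at a distance at least b from their ends, without a cut near the pinch -/
def PnL (D N b k e : ℕ) : Set (List Bool) := {g | g ∈ BrR D N ∧ ∃ (h a : ℕ) (w : ℤ) (s0 s1 : ℕ), g ∈ Brd h ∧ b ≤ a ∧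
  a + b ≤ h ∧ SPin g a w s0 s1 ∧ 2 * w ≤ 2 ^ k ∧
  ∀ c : ℕ, a ≤ c + 2 ^ (e + 2) → c ≤ a + 2 ^ (e + 2) → c < h → ¬ Cut g c}

lemma pnl_mono {D N b k k' e e' : ℕ} (hk : k ≤ k') (he : e' ≤ e) : PnL D N b k e ⊆ PnL D N b k' e' := by
  rintro g ⟨hg, h, a, w, s0, s1, h1, h2, h3, h4, h5, h6⟩
  have p1 : (2 : ℤ) ^ k ≤ 2 ^ k' := pow_le_pow_right₀ (by norm_num) hk
  have p2 : 2 ^ (e' + 2) ≤ 2 ^ (e + 2) := Nat.pow_le_pow_right (by norm_num) (by omega)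
  exact ⟨hg, h, a, w, s0, s1, h1, h2, h3, h4, h5.trans p1, fun c c1 c2 => h6 c (by omega) (by omega)⟩

/-- the middle part of a pinched leaf is pinched -/
lemma pnl_mid {D N k e e0 kc m q n : ℕ} {MP Z PQ : List Bool} (hMP : MP ∈ Brd m) (hZ : Z ∈ Brd n) (hPQ : PQ ∈ Brd q)
    (hm : m ≤ 2 ^ e) (hq : q ≤ 2 ^ e) (he : e ≤ kc) (he0 : e0 + 3 ≤ kc) (hke : k ≤ e0)
    (hg : MP ++ (Z ++ PQ) ∈ PnL D N (2 ^ (kc + 1)) k e0) : Z ∈ PB N k e0 := by
  obtain ⟨⟨hh, -, hhN, hgh'⟩, h, a, w, s0, s1, hgh, hba, hbh, hp, hw, hc⟩ := hg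
  have hH := Brd_height hgh (Brd_append hMP (Brd_append hZ hPQ))
  have hH' := Brd_height hgh' (Brd_append hMP (Brd_append hZ hPQ))
  have p1 : 2 ^ e ≤ 2 ^ kc := Nat.pow_le_pow_right (by norm_num) he
  have p2 : 2 ^ (kc + 1) = 2 * 2 ^ kc := by ring
  have p3 : 2 ^ (e0 + 3) ≤ 2 ^ kc := Nat.pow_le_pow_right (by norm_num) he0
  have p4 : 2 ^ (e0 + 3) = 2 * 2 ^ (e0 + 2) := by ring
  have p5 : 1 ≤ 2 ^ (e0 + 2) := Nat.one_le_two_pow
  have p6 : 2 ^ (e0 + 2) = 4 * 2 ^ e0 := by ring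
  have p7 : ((2 ^ k : ℕ) : ℤ) = 2 ^ k := by push_cast; rfl
  have p8 : 2 ^ k ≤ 2 ^ e0 := Nat.pow_le_pow_right (by norm_num) hke
  have hw2 : 2 * w ≤ ((2 ^ e0 : ℕ) : ℤ) := by
    have : ((2 ^ k : ℕ) : ℤ) ≤ ((2 ^ e0 : ℕ) : ℤ) := by exact_mod_cast p8
    omega
  obtain ⟨mM1, mM2, mM3, mM4⟩ := mem_Brd.1 hMP
  have hlevM : ∀ s, lev (MP ++ (Z ++ PQ)) (MP.length + s) = 3 * m + lev (Z ++ PQ) s := by
    intro s
    rw [lev_cat mM3, mM4]
  have hlevZ : ∀ s, s ≤ Z.length → lev (Z ++ PQ) s = lev Z s := fun s hs => lev_append (by omega)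
  have hlev : ∀ s, s ≤ Z.length → lev (MP ++ (Z ++ PQ)) (MP.length + s) = 3 * m + lev Z s := by
    intro s hs
    rw [hlevM, hlevZ s hs]
  have hlen : (MP ++ (Z ++ PQ)).length = MP.length + (Z.length + PQ.length) := by
    rw [List.length_append, List.length_append]
  have h00 := hlev 0 (Nat.zero_le _)
  rw [lev_zero, Nat.add_zero] at h00
  -- the slab begins behind the head
  have hL0 : MP.length ≤ s0 := by
    by_contra hcon
    rcases Nat.lt_or_ge MP.length (s1 + 1) with h1 | h1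
    · have := (hp.mid MP.length (by omega) (by omega)).1
      omega
    · have := hp.hi MP.length (by omega) (by omega)
      omega
  have hL1 : MP.length < s1 := by
    by_contra hcon
    have := hp.hi MP.length (by omega) (by omega)
    omega
  refine ⟨n, a - m, w, s0 - MP.length, s1 - MP.length, hZ, by omega, by omega, by omega, ?_, hw, by omega, by omega, ?_⟩
  · constructor
    · intro s hs
      rcases Nat.lt_or_ge Z.length s with h1 | h1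
      · -- behind the end: impossible
        exfalso
        have h2 := hp.lo (MP.length + Z.length) (by omega)
        have h3 := hlev Z.length le_rfl
        have h4 := (mem_Brd.1 hZ).2.2.2
        omega
      · have h2 := hp.lo (MP.length + s) (by omega)
        rw [hlev s h1] at h2
        push_cast
        omega
    · intro s hs1 hs2
      rcases Nat.lt_or_ge Z.length s with h1 | h1
      · exfalso
        have h2 := (hp.mid (MP.length + Z.length) ?_ (by omega)).2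
        · have h3 := hlev Z.length le_rfl
          have h4 := (mem_Brd.1 hZ).2.2.2
          omega
        · by_contra hcon
          have h2 := hp.lo (MP.length + Z.length) (by omega)
          have h3 := hlev Z.length le_rfl
          have h4 := (mem_Brd.1 hZ).2.2.2
          omega
      · have h2 := hp.mid (MP.length + s) (by omega) (by omega)
        rw [hlev s h1] at h2
        push_cast
        omega
    · intro s hs1 hs2
      have h2 := hp.hi (MP.length + s) (by omega) (by omega)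
      rw [hlev s hs2] at h2
      push_cast
      omega
  · intro c c1 c2 c3 hcut
    obtain ⟨A, B, b, hA, hB, hAB⟩ := hcut
    refine hc (m + c) (by omega) (by omega) (by omega) ⟨MP ++ A, B ++ PQ, b + q, Brd_append hMP hA, Brd_append hB hPQ, ?_⟩
    rw [hAB]
    simp only [List.append_assoc]

/-- the weight of the free middle part -/
lemma pnl_ezw {D N k e e0 j kc : ℕ} {A : ℝ} (he : e ≤ kc) (he0 : e0 + 3 ≤ kc) (hke : k ≤ e0)
    (hA : gf (PB N k e0) ≤ ENNReal.ofReal A) : EZW D N e j (PnL D N (2 ^ (kc + 1)) k e0) A := by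
  intro M hM P1 hP1 P2 hP2 Q hQ h1 h2 h3 h4
  have hMP := BU_app hM (IU_BU hP1)
  have hPQ := BU_app (IU_BU hP2) hQ
  refine le_trans ?_ hA
  refine (EN.LW.sum_brd (fun Z => M ++ (P1 ++ (Z ++ (P2 ++ Q))) ∈ PnL D N (2 ^ (kc + 1)) k e0 ∧
    M ++ (P1 ++ (Z ++ (P2 ++ Q))) ∈ BrR D N)).trans (gf_mono ?_)
  rintro Z ⟨⟨n, hZ⟩, hg, -⟩
  refine pnl_mid (hgt_mem hMP) hZ (hgt_mem hPQ) ?_ ?_ he he0 hke (D := D) (m := hgt (M ++ P1)) (q := hgt (P2 ++ Q)) ?_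
  · rw [hgt_app hM (IU_BU hP1)]
    exact h2
  · rw [hgt_app (IU_BU hP2) hQ]
    exact h4
  · rw [List.append_assoc]
    exact hg

lemma two_small {c : ℝ} (hc : 0 < c) (X : ℝ) {δ : ℝ} (hδ : 0 < δ) : ∃ q0 : ℕ, ∀ q : ℕ, q0 ≤ q →
    X * (2 : ℝ) ^ (-(c * q)) ≤ δ := by
  have h1 : Filter.Tendsto (fun q : ℕ => X * ((2 : ℝ) ^ (-c)) ^ q) Filter.atTop (nhds (X * 0)) := by
    refine Filter.Tendsto.const_mul X (tendsto_pow_atTop_nhds_zero_of_lt_one (Real.rpow_pos_of_pos two_pos _).le ?_)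
    exact Real.rpow_lt_one_of_one_lt_of_neg (by norm_num) (by linarith)
  rw [mul_zero] at h1
  obtain ⟨q0, hq0⟩ := Filter.eventually_atTop.1 (h1.eventually (gt_mem_nhds hδ))
  refine ⟨q0, fun q hq => ?_⟩
  have h2 := hq0 q hq
  have e1 : (2 : ℝ) ^ (-(c * q)) = ((2 : ℝ) ^ (-c)) ^ q := by
    rw [← Real.rpow_natCast, ← Real.rpow_mul two_pos.le]
    congr 1
    ring
  rw [e1]
  exact h2.le

/-- **N1: the pinched leaves without a cut near the pinch are a class of small norm** -/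
theorem pin_norm (J J2 : ℕ) {ε : ℝ} (hε : 0 < ε) : ∃ J3 : ℕ, J2 ≤ J3 ∧ ∀ J3' : ℕ, J3 ≤ J3' → ∀ kc : ℕ, J3' ≤ kc →
    SmD DmJ kc (PnL (2 ^ (kc + 4)) (2 ^ (kc + J + 3)) (2 ^ (kc + 1)) (kc - J3') (kc - J2)) ε := by
  obtain ⟨K, c, hK, hc, hsp⟩ := sp_winR
  obtain ⟨K1, c1, hK1, hc1, hz⟩ := zb_le
  obtain ⟨J2', hJ2'⟩ : ∃ J2', J2' = J2 + 3 := ⟨_, rfl⟩
  obtain ⟨q, hq⟩ := two_small hc (K * (1 + 2 ^ (J + 3)) ^ 2) (half_pos hε)
  obtain ⟨q3, hq3⟩ : ∃ q3, q3 = q + 3 := ⟨_, rfl⟩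
  have hq' := hq q3 (by omega)
  obtain ⟨r, hr⟩ := two_small hc1 (K * (1 + 2 ^ (J + 3)) ^ 2 * (4 ^ q3 * (2 ^ (J + 3) * (K1 * 2 ^ (J2' + J + 3)))))
    (half_pos hε)
  refine ⟨J2' + q3 + r, by omega, fun J3 hJ3 kc hkc => ?_⟩
  have hr' := hr (J3 - J2') (by omega)
  have hUk := Ub_pos kc
  obtain ⟨N, hN⟩ : ∃ N, N = 2 ^ (kc + J + 3) := ⟨_, rfl⟩
  have hUN0 : 0 < UU N := Num2Aux.UU_pos N
  have hUN : UU N / Ub kc ≤ 2 ^ (J + 3) := by
    rw [div_le_iff₀ hUk, hN, show kc + J + 3 = kc + (J + 3) by omega]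
    exact Ub_add kc (J + 3)
  obtain ⟨e0, he0⟩ : ∃ e0, e0 = kc - J2' := ⟨_, rfl⟩
  have hUe := Ub_pos e0
  have hUe2 : UU N / Ub e0 ≤ 2 ^ (J2' + J + 3) := by
    rw [div_le_iff₀ hUe, hN, show kc + J + 3 = e0 + (J2' + J + 3) by omega]
    exact Ub_add e0 (J2' + J + 3)
  obtain ⟨k, hk⟩ : ∃ k, k = kc - J3 := ⟨_, rfl⟩
  obtain ⟨y, hy⟩ : ∃ y : ℝ, y = (2 : ℝ) ^ (-(c1 * ((e0 : ℝ) - k))) := ⟨_, rfl⟩
  have hy0 : 0 < y := by
    rw [hy]
    exact Real.rpow_pos_of_pos two_pos _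
  have hyr : y = (2 : ℝ) ^ (-(c1 * ((J3 - J2' : ℕ) : ℝ))) := by
    have e1 : (e0 : ℝ) = k + ((J3 - J2' : ℕ) : ℝ) := by
      exact_mod_cast (by omega : e0 = k + (J3 - J2'))
    rw [hy, e1]
    congr 3
    ring
  rw [← hyr] at hr'
  obtain ⟨A, hA⟩ : ∃ A, A = UU N * (K1 * (UU N / Ub e0) * y) := ⟨_, rfl⟩
  have hA0 : 0 ≤ A := by
    rw [hA]
    positivity
  have hPB : gf (PB N k e0) ≤ ENNReal.ofReal A := by
    refine (gf_mono fun t ht => zb_of_pin (by omega) ht).trans ((hz N k e0 (by omega)).trans (le_of_eq ?_))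
    rw [← ENNReal.ofReal_mul hUN0.le, hA, hy]
  have hE : EZW (2 ^ (kc + 4)) N kc (kc - q3) (PnL (2 ^ (kc + 4)) N (2 ^ (kc + 1)) k e0) A :=
    pnl_ezw le_rfl (by omega) (by omega) hPB
  have h1 := hsp kc N kc (kc - q3) A _ (by omega) le_rfl hA0 (fun g hg => hg.1) hE
  rw [← hN, ← hk]
  refine LQ.SmD_le ?_ (QF.SmD_mono (pnl_mono (e' := e0) le_rfl (by omega)) h1)
  have e2 : kc - (kc - q3) = q3 := by omega
  have e3 : (kc : ℝ) - ((kc - q3 : ℕ) : ℝ) = q3 := by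
    have : (kc : ℝ) = ((kc - q3 : ℕ) : ℝ) + q3 := by exact_mod_cast (by omega : kc = kc - q3 + q3)
    linarith
  rw [Nat.sub_self, e2, e3, pow_zero, one_mul]
  have g0 : 0 < UU N / Ub kc := by positivity
  have g1 : (1 + UU N / Ub kc) ^ 2 ≤ (1 + 2 ^ (J + 3)) ^ 2 := by gcongr
  have g2 : A / Ub kc ≤ 2 ^ (J + 3) * (K1 * 2 ^ (J2' + J + 3)) * y := by
    have e4 : A / Ub kc = (UU N / Ub kc) * (K1 * (UU N / Ub e0)) * y := by
      rw [hA]
      field_simp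
    rw [e4]
    gcongr
  have hp0 : (0 : ℝ) < (2 : ℝ) ^ (-(c * q3)) := Real.rpow_pos_of_pos two_pos _
  calc K * (1 + UU N / Ub kc) ^ 2 * ((2 : ℝ) ^ (-(c * q3)) + 4 ^ q3 * (A / Ub kc))
      ≤ K * (1 + 2 ^ (J + 3)) ^ 2 * ((2 : ℝ) ^ (-(c * q3)) + 4 ^ q3 * (2 ^ (J + 3) * (K1 * 2 ^ (J2' + J + 3)) * y)) := by
        have hA1 : 0 ≤ A / Ub kc := by positivity
        gcongr
    _ = K * (1 + 2 ^ (J + 3)) ^ 2 * (2 : ℝ) ^ (-(c * q3)) +
        K * (1 + 2 ^ (J + 3)) ^ 2 * (4 ^ q3 * (2 ^ (J + 3) * (K1 * 2 ^ (J2' + J + 3)))) * y := by ring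
    _ ≤ ε / 2 + ε / 2 := add_le_add hq' hr'
    _ = ε := by ring

end CutJ
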