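import Pool.Agent.SIM.TopHW
import Pool.Agent.PHW.Cuts
import Pool.Agent.SIM.NoCutEv
import Pool.Agent.NTW.FoldEx
import Pool.Agent.CRT.PinD

/-!
# CRT, row 11A, V3 (helper28): geometry of a pinch, in words

* `leaf_win` : a window in which the walk stays in a thin slab, with the walk below the slab before and above the slab behind
  the window, lies in one leaf of the scale b, which goes up;
* `posL_pch` : the word of this leaf (also of a leaf at an end of the word) is a pinched bridge; a cut of the leaf near the level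
  of the pinch is a cut of the whole word;
* **`fd_pch`, `fd_pnl`** : a word of the box with a pinch, without a cut near the pinch, is in `LeafIn` of the pinched bridges
  without cuts near the pinch.
-/

set_option autoImplicit false

namespace HexObs

namespace CRT

open Finset TS SDN NTW

/-- **the window lies in one leaf, which goes up** -/
theorem leaf_win {f : ℕ → ℤ} {n : ℕ} {R : ℤ} {m u : ℕ} {e : ℕ → ℕ} (h : HexObs.SIM.HW f n R m u e) {w p1 p2 : ℕ} {z r q : ℤ}
    (hp : p1 ≤ p2) (hp2 : p2 ≤ n) (hq : 0 < q) (hr : 2 * r < R)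
    (hA : ∀ i, i ≤ p1 → Tight.sg w (f i) ≤ z - q) (hB : ∀ i, p1 ≤ i → i ≤ p2 → |Tight.sg w (f i) - z| ≤ r)
    (hC : ∀ i, p2 ≤ i → i ≤ n → z + q ≤ Tight.sg w (f i))
    (hst : ∃ j, j ≤ p1 ∧ Tight.sg w (f j) ≤ z - r - 2 * R)
    (hen : ∃ j, p2 ≤ j ∧ j ≤ n ∧ z + r + 2 * R ≤ Tight.sg w (f j)) :
    ∃ l, l < m ∧ (∀ y, Tight.sg (u + l) y = Tight.sg w y) ∧ e l < p1 ∧ p2 < e (l + 1) ∧
      Tight.sg w (f (e l)) ≤ z - R ∧ z + R ≤ Tight.sg w (f (e (l + 1))) := by
  have hcases : ∀ a : ℕ, (∀ y : ℤ, Tight.sg a y = Tight.sg w y) ∨ (∀ y : ℤ, Tight.sg a y = -Tight.sg w y) := by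
    intro a
    unfold Tight.sg
    by_cases h1 : Even a
    · by_cases h2 : Even w
      · left
        intro y
        rw [if_pos h1, if_pos h2]
      · right
        intro y
        rw [if_pos h1, if_neg h2]
    · by_cases h2 : Even w
      · right
        intro y
        rw [if_neg h1, if_pos h2, neg_neg]
      · left
        intro y
        rw [if_neg h1, if_neg h2]
  obtain ⟨x, hx⟩ : ∃ x : ℕ → ℤ, x = fun i => Tight.sg w (f i) := ⟨_, rfl⟩
  have hx' : ∀ i, Tight.sg w (f i) = x i := fun i => by rw [hx]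
  simp only [hx'] at hA hB hC hst hen ⊢
  obtain ⟨j0, hj0, hst⟩ := hst
  obtain ⟨j1, hj1, hj1n, hen⟩ := hen
  have hr0 : 0 ≤ r := (abs_nonneg _).trans (hB p1 le_rfl hp)
  have hB1 := abs_le.1 (hB p1 le_rfl hp)
  have hB2 := abs_le.1 (hB p2 hp le_rfl)
  have hmn : e m ≤ n := h.le
  -- the two ends
  have h0 : e 0 < p1 := by
    by_contra hn
    have := h.start_sg w (x := j0) (y := p1) (by omega) (by omega)
    rw [hx', hx'] at this
    linarith
  have hm : p2 < e m := by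
    by_contra hn
    have := h.fin_sg w (x := p2) (y := j1) (by omega) hp2 (by omega) hj1n
    rw [hx', hx'] at this
    linarith
  have hm0 : 0 < m := by
    by_contra hn
    have : m = 0 := by omega
    subst this
    omega
  -- the leaf
  obtain ⟨l, hl, hl1, hl2⟩ : ∃ l, l < m ∧ e l < p1 ∧ p1 ≤ e (l + 1) := by
    by_contra hn
    push Not at hn
    have h2 : ∀ l, l ≤ m → e l < p1 := by
      intro l
      induction l with
      | zero => exact fun _ => h0
      | succ l ih => exact fun hl => hn l (by omega) (ih (by omega))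
    have := h2 m le_rfl
    omega
  have hel : e (l + 1) ≤ n := (h.mono (show l + 1 ≤ m by omega) le_rfl).trans hmn
  have hbig := h.big l hl
  have hR0 : 0 < R := by linarith
  have h3 : p2 < e (l + 1) := by
    by_contra hn
    have hf := abs_le.1 (hB (e (l + 1)) hl2 (by omega))
    rcases hcases (u + l) with hc | hc
    · -- a maximum in the window
      have hlm : l + 1 < m := by
        by_contra hn2
        have : l + 1 = m := by omega
        rw [this] at hn
        omega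
      have hb2 := h.big (l + 1) hlm
      have hsg : ∀ y : ℤ, Tight.sg (u + (l + 1)) y = -Tight.sg w y := by
        intro y
        rw [← add_assoc, Tight.sg_succ, hc]
      rw [hsg, hsg, hx', hx'] at hb2
      have hlt := h.lt (l + 1) hlm
      have hle2 : e (l + 1 + 1) ≤ n := (h.mono (show l + 1 + 1 ≤ m by omega) le_rfl).trans hmn
      rcases Nat.lt_or_ge p2 (e (l + 1 + 1)) with h4 | h4
      · have := hC (e (l + 1 + 1)) h4.le hle2
        linarith
      · have := abs_le.1 (hB (e (l + 1 + 1)) (by omega) h4)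
        linarith
    · rw [hc, hc, hx', hx'] at hbig
      have := hA (e l) hl1.le
      linarith
  rcases hcases (u + l) with hc | hc
  swap
  · exfalso
    rw [hc, hc, hx', hx'] at hbig
    have h4 := hA (e l) hl1.le
    have h5 := hC (e (l + 1)) h3.le hel
    linarith
  refine ⟨l, hl, fun y => hc y, hl1, h3, ?_, ?_⟩
  · rcases Nat.eq_zero_or_pos l with hl0 | hl0
    · subst hl0
      rcases Nat.lt_or_ge j0 (e 0) with h4 | h4
      · have := h.start_sg w (x := j0) (y := e 0) h4.le le_rfl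
        rw [hx', hx'] at this
        linarith
      · have := h.lo 0 hl j0 h4 (by simpa using (show j0 ≤ e (0 + 1) by omega))
        rw [hc, hc, hx', hx'] at this
        linarith
    · obtain ⟨l', rfl⟩ : ∃ l', l = l' + 1 := ⟨l - 1, by omega⟩
      have hb2 := h.big l' (by omega)
      have hsg : ∀ y : ℤ, Tight.sg (u + l') y = -Tight.sg w y := by
        intro y
        have := hc y
        rw [← add_assoc, Tight.sg_succ] at this
        omega
      rw [hsg, hsg, hx', hx'] at hb2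
      have hlt := h.lt l' (by omega)
      have := hA (e l') (by omega)
      linarith
  · rcases Nat.lt_or_ge (l + 1) m with hlm | hlm
    · have hb2 := h.big (l + 1) hlm
      have hsg : ∀ y : ℤ, Tight.sg (u + (l + 1)) y = -Tight.sg w y := by
        intro y
        rw [← add_assoc, Tight.sg_succ, hc]
      rw [hsg, hsg, hx', hx'] at hb2
      have hlt := h.lt (l + 1) hlm
      have hle2 : e (l + 1 + 1) ≤ n := (h.mono (show l + 1 + 1 ≤ m by omega) le_rfl).trans hmn
      have := hC (e (l + 1 + 1)) (by omega) hle2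
      linarith
    · have hlm' : l + 1 = m := by omega
      rcases Nat.lt_or_ge j1 (e m) with h4 | h4
      · have := h.hi l hl j1 (by omega) (by rw [hlm']; omega)
        rw [hc, hc, hx', hx'] at this
        linarith
      · have := h.fin_sg w (x := e m) (y := j1) le_rfl hmn h4 hj1n
        rw [hx', hx'] at this
        rw [hlm']
        linarith

/-- **a cut of the leaf near the pinch is a cut of the whole word**, every leaf, the leaves at the ends included. If there is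
no cut near the pinch then g is a pinched bridge without cuts near the pinch -/
theorem posL_pch {b m u l : ℕ} {t : List Bool} {e : ℕ → ℕ} (h : HexObs.SIM.HW (lev t) t.length (RR b) m u e) (hb : 3 ≤ b)
    (hl : l < m) {x : ℕ → ℤ} {w p1 p2 k0 k1 : ℕ} {z q μ ω : ℤ} {E B : ℕ} (hx : ∀ i, x i = Tight.sg w (lev t i))
    (hc : ∀ y, Tight.sg (u + l) y = Tight.sg w y) (hl1 : e l < p1) (hl2 : p2 < e (l + 1))
    (hlo : x (e l) ≤ z - RR b) (hhi : z + RR b ≤ x (e (l + 1)))
    (hp1 : p1 ≤ k0) (hk : k0 ≤ k1) (hp2 : k1 ≤ p2) (hμ : 3 ≤ μ) (hE : 3 * (E : ℤ) + 3 < q) (hω : ω < q)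
    (hB : B + 2 ≤ 2 ^ b) (hEB : E < B)
    (hA : ∀ i, i ≤ p1 → x i ≤ z - q) (hC : ∀ i, p2 ≤ i → i ≤ t.length → z + q ≤ x i)
    (hA' : ∀ i, i ≤ k0 → x i ≤ z - μ) (hB' : ∀ i, k0 ≤ i → i ≤ k1 → |x i - z| ≤ ω)
    (hC' : ∀ i, k1 ≤ i → i ≤ t.length → z + μ ≤ x i)
    (hno : ¬∃ p, p1 < p ∧ p < p2 ∧ p < t.length ∧ x (p + 1) = x p + 2 ∧ (∀ i, i ≤ p → x i ≤ x p) ∧
      (∀ i, p < i → i ≤ t.length → x p < x i) ∧ |x p - z| ≤ 3 * E + 1)
    {g : List Bool} (hg : PosL t u e l g) {M : ℕ} (hM : g ∈ Brd M) :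
    ∃ (a s0 s1 : ℕ), B ≤ a ∧ a + B ≤ M ∧ CutJ.SPin g a (ω + 2) s0 s1 ∧
      ∀ c : ℕ, a ≤ c + E → c ≤ a + E → c < M → ¬Cut g c := by
  obtain ⟨s, v1, v2, v3, v4, v5⟩ := hg
  have hle : e (l + 1) ≤ t.length := (h.mono (show l + 1 ≤ m by omega) le_rfl).trans h.le
  have hsub : ∀ x y : ℤ, Tight.sg (u + l) (x - y) = Tight.sg (u + l) x - Tight.sg (u + l) y := by
    intro x y
    unfold Tight.sg
    split_ifs <;> ring
  have hlev : ∀ i, 1 ≤ i → i ≤ g.length → lev g i = x (s + i) - x (s + 1) + 2 := by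
    intro i i1 i2
    have h3 := v5 i i1 i2
    rw [lev_one, hsub, hc, hc, ← hx, ← hx] at h3
    linarith
  have hstep : ∀ i, |x (i + 1) - x i| ≤ 2 := by
    intro i
    have h1 := xD_step_le (dD_mem false (u + l)) t i
    have h2 := xD_step_le (dirs_neg (dD_mem false (u + l))) t i
    have h3 : ∀ k, xD (dD false (u + l)) t k = x k := by
      intro k
      rw [hx, ← hc]
      exact xD_dD false (u + l) t k
    have h4 : ∀ k, xD (-dD false (u + l)) t k = -x k := by
      intro k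
      rw [← h3 k]
      unfold xD
      rw [ip_neg_right]
    rw [h3, h3] at h1
    rw [h4, h4] at h2
    rw [abs_le]
    constructor <;> linarith
  have hst : ∀ i k : ℕ, |x (i + k) - x i| ≤ 2 * k := by
    intro i k
    induction k with
    | zero => simp
    | succ k ih =>
      have h1 := abs_le.1 ih
      have h2 := abs_le.1 (hstep (i + k))
      rw [show i + (k + 1) = i + k + 1 by ring, abs_le]
      push_cast
      constructor <;> linarith
  have hRR : RR b = 3 * 2 ^ b - 2 := rfl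
  have hpb : (8 : ℤ) ≤ 2 ^ b := by
    have : (2 : ℤ) ^ 3 ≤ 2 ^ b := pow_le_pow_right₀ (by norm_num) hb
    linarith
  -- the length of the leaf
  have hgl : 2 ≤ g.length := by
    obtain ⟨k, hk'⟩ := Nat.exists_eq_add_of_le (show e l ≤ e (l + 1) by omega)
    have h1 := abs_le.1 (hst (e l) k)
    rw [← hk'] at h1
    omega
  obtain ⟨X, hX⟩ : ∃ X, X = x (s + 1) := ⟨_, rfl⟩
  rw [← hX] at hlev
  have hX1 : X ≤ x (e l) + 4 := by
    obtain ⟨k, hk'⟩ := Nat.exists_eq_add_of_le v1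
    have h1 := abs_le.1 (hst (e l) k)
    rw [← hk', ← hX] at h1
    omega
  have hX2 : x (e (l + 1)) - 2 ≤ x (s + g.length) := by
    obtain ⟨k, hk'⟩ := Nat.exists_eq_add_of_le v3
    have h1 := abs_le.1 (hst (s + g.length) k)
    rw [← hk'] at h1
    omega
  have hgM : lev g g.length = 3 * M := (mem_Brd.1 hM).2.2.2
  have hend := hlev g.length (by omega) le_rfl
  rw [hgM] at hend
  obtain ⟨Z, hZ⟩ : ∃ Z : ℤ, Z = z - X + 2 := ⟨_, rfl⟩
  have hZ1 : 3 * 2 ^ b - 4 ≤ Z := by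
    rw [hZ]
    linarith
  obtain ⟨a, ha⟩ : ∃ a : ℕ, ((a : ℕ) : ℤ) = (Z + 1) / 3 := ⟨((Z + 1) / 3).toNat, Int.toNat_of_nonneg (by omega)⟩
  have ha1 : 3 * (a : ℤ) ≤ Z + 1 := by omega
  have ha2 : Z - 1 ≤ 3 * (a : ℤ) := by omega
  have hBz : (B : ℤ) + 2 ≤ 2 ^ b := by exact_mod_cast hB
  have hk0 : s < k0 := by
    by_contra hn
    have h1 : k0 = p1 := by omega
    have h2 := abs_le.1 (hB' k0 le_rfl hk)
    have h3 := hA k0 h1.le
    linarith
  refine ⟨a, k0 - s, k1 - s, by omega, ?_, ⟨?_, ?_, ?_⟩, ?_⟩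
  · have : (a : ℤ) + B ≤ M := by omega
    exact_mod_cast this
  · intro i hi
    rcases Nat.eq_zero_or_pos i with h1 | h1
    · rw [h1, lev_zero]
      omega
    · have h4 := hlev i h1 (by omega)
      have h5 := hA' (s + i) (by omega)
      linarith
  · intro i hi hi'
    have h4 := hlev i (by omega) (by omega)
    have h5 := abs_le.1 (hB' (s + i) (by omega) (by omega))
    constructor <;> linarith
  · intro i hi hi'
    have h4 := hlev i (by omega) hi'
    have h5 := hC' (s + i) (by omega) (by omega)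
    linarith
  · intro c c1 c2 c3 c4
    obtain ⟨j, j1, j2, j3, j4, j5⟩ := (cut_iff hM).1 c4
    have hj0 : 1 ≤ j := by
      rcases Nat.eq_zero_or_pos j with h3 | h3
      · rw [h3, lev_zero] at j2
        omega
      · exact h3
    have hjl : j < g.length := by
      rcases Nat.lt_or_ge j g.length with h3 | h3
      · exact h3
      · exfalso
        have : j = g.length := by omega
        rw [this, hgM] at j2
        omega
    have hp := hlev j hj0 j1
    have hpz : |x (s + j) - z| ≤ 3 * E + 1 := by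
      rw [abs_le]
      constructor <;> omega
    have hpz' := abs_le.1 hpz
    have hp1' : p1 < s + j := by
      by_contra hn
      have := hA (s + j) (by omega)
      linarith
    have hp2' : s + j < p2 := by
      by_contra hn
      have := hC (s + j) (by omega) (by omega)
      linarith
    refine hno ⟨s + j, hp1', hp2', by omega, ?_, fun i hi => ?_, fun i hi hi' => ?_, hpz⟩
    · have h3 := hlev (j + 1) (by omega) hjl
      have h4 := lev_succ g j
      rw [j3] at h4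
      have h5 : ip up up = 2 := by decide
      rw [h5] at h4
      rw [show s + j + 1 = s + (j + 1) by ring]
      linarith
    · rcases Nat.lt_or_ge p1 i with h3 | h3
      · obtain ⟨k, rfl⟩ := Nat.exists_eq_add_of_le (show s ≤ i by omega)
        have h4 := hlev k (by omega) (by omega)
        have h5 := j4 k (by omega)
        linarith
      · have := hA i h3
        linarith
    · rcases Nat.lt_or_ge (s + g.length) i with h3 | h3
      · have := hC i (by omega) hi'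
        linarith
      · obtain ⟨k, rfl⟩ := Nat.exists_eq_add_of_le (show s ≤ i by omega)
        have h4 := hlev k (by omega) (by omega)
        have h5 := j5 k (by omega) (by omega)
        linarith

/-- **PINCH, geometry in words, direction false**: a word of the box with a pinch with an outer margin, without a cut near the
pinch, has a leaf which is a pinched bridge without cuts near the pinch -/
theorem fd_pch {kc J : ℕ} {t : List Bool} (ht : t ∈ WL (kc + J)) {x : ℕ → ℤ} {w p1 p2 k0 k1 : ℕ} {z r q μ ω : ℤ} {E B : ℕ}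
    (hx : ∀ i, x i = Tight.sg w (lev t i))
    (hp1 : p1 ≤ k0) (hk : k0 ≤ k1) (hp2 : k1 ≤ p2) (hpn : p2 ≤ t.length) (hμ : 3 ≤ μ) (hE : 3 * (E : ℤ) + 3 < q) (hω : ω < q)
    (hr : 2 * r < RR (kc + 5)) (hB : B + 2 ≤ 2 ^ (kc + 5)) (hEB : E < B)
    (hA : ∀ i, i ≤ p1 → x i ≤ z - q) (hM : ∀ i, p1 ≤ i → i ≤ p2 → |x i - z| ≤ r)
    (hC : ∀ i, p2 ≤ i → i ≤ t.length → z + q ≤ x i)
    (hA' : ∀ i, i ≤ k0 → x i ≤ z - μ) (hB' : ∀ i, k0 ≤ i → i ≤ k1 → |x i - z| ≤ ω)
    (hC' : ∀ i, k1 ≤ i → i ≤ t.length → z + μ ≤ x i)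
    (hst : ∃ j, j ≤ p1 ∧ x j ≤ z - r - 2 * RR (kc + 5))
    (hen : ∃ j, p2 ≤ j ∧ j ≤ t.length ∧ z + r + 2 * RR (kc + 5) ≤ x j)
    (hno : ¬∃ p, p1 < p ∧ p < p2 ∧ p < t.length ∧ x (p + 1) = x p + 2 ∧ (∀ i, i ≤ p → x i ≤ x p) ∧
      (∀ i, p < i → i ≤ t.length → x p < x i) ∧ |x p - z| ≤ 3 * E + 1) :
    t ∈ HexObs.SIM.LeafIn kc J {g | ∃ (M a : ℕ) (s0 s1 : ℕ), g ∈ Brd M ∧ B ≤ a ∧ a + B ≤ M ∧
      CutJ.SPin g a (ω + 2) s0 s1 ∧ ∀ c : ℕ, a ≤ c + E → c ≤ a + E → c < M → ¬Cut g c} := by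
  have hpb : (1 : ℤ) ≤ 2 ^ kc := one_le_pow₀ (by norm_num)
  have hRR : RR (kc + 5) = 3 * 2 ^ (kc + 5) - 2 := rfl
  have hRR' : (2 : ℤ) ^ (kc + 5) = 32 * 2 ^ kc := by rw [pow_add]; ring
  rcases fd_exists (b := kc + 5) (by omega) ht.1 with h1 | ⟨m, u, e, hF⟩
  · exfalso
    obtain ⟨j, j1, j2⟩ := hst
    obtain ⟨i, i1, i2, i3⟩ := hen
    have h2 := h1 i j i2 (by omega)
    have h3 := h1 j i (by omega) i2
    have h4 : x i - x j < RR (kc + 5) := by
      rw [hx, hx]
      exact HexObs.SIM.sg_lt_of h2 h3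
    have h5 := (abs_nonneg _).trans (hM p1 le_rfl (by omega))
    linarith
  · have hH := HexObs.SIM.HW.of_fd hF
    obtain ⟨l, hl, hc, hl1, hl2, hlo, hhi⟩ := leaf_win hH (w := w) (p1 := p1) (p2 := p2) (z := z) (r := r) (q := q) (by omega) hpn
      (by omega) hr (by simpa only [hx] using hA) (by simpa only [hx] using hM) (by simpa only [hx] using hC)
      (by simpa only [hx] using hst) (by simpa only [hx] using hen)
    rw [← hx] at hlo hhi
    refine ⟨ht, m, u, e, hF, l, hl, fun g hg hgB => ?_⟩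
    obtain ⟨M, -, -, hM'⟩ := hgB
    obtain ⟨a, s0, s1, a1, a2, a3, a4⟩ := posL_pch hH (by omega) hl hx hc hl1 hl2 hlo hhi hp1 hk hp2 hμ hE hω hB hEB hA hC hA'
      hB' hC' hno hg hM'
    exact ⟨M, a, s0, s1, hM', a1, a2, a3, a4⟩

/-- **the same with the class `PnL` of helper86** -/
theorem fd_pnl {kc J J2 J3 : ℕ} (hJ2 : 2 ≤ J2) (hJ3 : J2 ≤ kc) {t : List Bool} (ht : t ∈ WL (kc + J)) {x : ℕ → ℤ}
    {w p1 p2 k0 k1 : ℕ} {z r q μ ω : ℤ} (hx : ∀ i, x i = Tight.sg w (lev t i))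
    (hp1 : p1 ≤ k0) (hk : k0 ≤ k1) (hp2 : k1 ≤ p2) (hpn : p2 ≤ t.length) (hμ : 3 ≤ μ)
    (hE : 3 * 2 ^ (kc - J2 + 2) + 3 < q) (hω : ω < q) (hωk : 2 * (ω + 2) ≤ 2 ^ (kc - J3))
    (hr : 2 * r < RR (kc + 5))
    (hA : ∀ i, i ≤ p1 → x i ≤ z - q) (hM : ∀ i, p1 ≤ i → i ≤ p2 → |x i - z| ≤ r)
    (hC : ∀ i, p2 ≤ i → i ≤ t.length → z + q ≤ x i)
    (hA' : ∀ i, i ≤ k0 → x i ≤ z - μ) (hB' : ∀ i, k0 ≤ i → i ≤ k1 → |x i - z| ≤ ω)
    (hC' : ∀ i, k1 ≤ i → i ≤ t.length → z + μ ≤ x i)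
    (hst : ∃ j, j ≤ p1 ∧ x j ≤ z - r - 2 * RR (kc + 5))
    (hen : ∃ j, p2 ≤ j ∧ j ≤ t.length ∧ z + r + 2 * RR (kc + 5) ≤ x j)
    (hno : ¬∃ p, p1 < p ∧ p < p2 ∧ p < t.length ∧ x (p + 1) = x p + 2 ∧ (∀ i, i ≤ p → x i ≤ x p) ∧
      (∀ i, p < i → i ≤ t.length → x p < x i) ∧ |x p - z| ≤ 3 * 2 ^ (kc - J2 + 2) + 1) :
    t ∈ HexObs.SIM.LeafIn kc J (CutJ.PnL (2 ^ (kc + 4)) (2 ^ (kc + J + 3)) (2 ^ (kc + 1)) (kc - J3) (kc - J2)) := by
  have p1' : 2 ^ (kc - J2 + 2) ≤ 2 ^ kc := Nat.pow_le_pow_right (by norm_num) (by omega)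
  have p2' : 2 ^ (kc + 1) = 2 * 2 ^ kc := by ring
  have p3' : 2 ^ (kc + 5) = 32 * 2 ^ kc := by ring
  have p4' : 1 ≤ 2 ^ kc := Nat.one_le_two_pow
  have hcast : (((2 ^ (kc - J2 + 2) : ℕ)) : ℤ) = 2 ^ (kc - J2 + 2) := by push_cast; rfl
  obtain ⟨h0, m, u, e, hF, l, hl, hall⟩ := fd_pch (E := 2 ^ (kc - J2 + 2)) (B := 2 ^ (kc + 1)) ht hx hp1 hk hp2 hpn hμ
    (by rw [hcast]; exact hE) hω hr (by omega) (by omega) hA hM hC hA' hB' hC' hst hen (by rw [hcast]; exact hno)
  refine ⟨h0, m, u, e, hF, l, hl, fun g hg hgB => ?_⟩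
  obtain ⟨M, a, s0, s1, g1, g2, g3, g4, g5⟩ := hall g hg hgB
  obtain ⟨h, h1, h2, h3⟩ := hgB
  exact ⟨⟨h, h1, h2.trans (Nat.pow_le_pow_right (by norm_num) (by omega)), h3⟩, M, a, ω + 2, s0, s1, g1, g2, g3, g4, hωk, g5⟩

end CRT

end HexObs

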