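import Pool.Agent.CRT.Dic3
import Pool.Agent.CRT.PchGeo

/-!
# CRT, row 11A (helper28): from a walk with a pinch and without a real cut near the pinch to a word with a bad leaf

* **`bad_word`**: the hypothesis of `red_msum` (helper42) for the event `BadM` (helper45), outside of the thin strips.
-/

set_option autoImplicit false

namespace Pool.Agent.CRT.V

open Finset

open HexObs hiding pos sw

open HexObs.SDN HexObs.NTW HexObs.NTA HexObs.CRT

open Pool.Agent.NTS.Res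

/-- the walk does not stay in a thin strip from a time before `(1 - ε) n` up to its end -/
def NSl (ε τ : ℝ) (n : ℕ) (s : Fin n → Fin 3) : Prop := ∀ i : ℕ, i ≤ n → (i : ℝ) ≤ (1 - ε) * n →
  ∃ l : ℕ, i ≤ l ∧ l ≤ n ∧ τ * size n < |(pos s l).re - (pos s i).re|

/-- **a bad pinch gives a bad leaf** -/
theorem bad_word {ε E m h w τ : ℝ} {kc J J2 J3 n : ℕ} {s : Fin n → Fin 3} (hb : BadM ε E m h w n s) (hns : NSl ε τ n s)
    (hJ2 : 2 ≤ J2) (hJ23 : J2 ≤ J3) (hJ3 : J3 ≤ kc)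
    (g1 : 100 * (2 : ℝ) ^ kc ≤ ε * size n) (g2 : 100 * (2 : ℝ) ^ kc ≤ τ * size n) (g3 : E * size n ≤ 2 ^ kc)
    (g4 : 3 * (2 : ℝ) ^ (kc - J2 + 2) + 5 ≤ 2 * (m * size n)) (g5 : 2 ≤ h * size n)
    (g6 : 4 * (w * size n) + 8 ≤ (2 : ℝ) ^ (kc - J3)) :
    (∃ i, i ≤ n ∧ 2 ≤ |2 * (pos s i).re|) ∧
    ∀ (p : ℕ) (t : List Bool) (σ c : ℤ), (σ = 1 ∨ σ = -1) → p + t.length = n → t ∈ WL (kc + J) →
      (∀ j, j ≤ t.length → 2 * (pos s (p + j)).re = ((c + σ * lev t j : ℤ) : ℝ)) →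
      (∀ i, i ≤ p → |2 * (pos s i).re| ≤ 1) →
      t ∈ HexObs.SIM.LeafIn kc J (CutJ.PnL (2 ^ (kc + 4)) (2 ^ (kc + J + 3)) (2 ^ (kc + 1)) (kc - J3) (kc - J2)) := by
  obtain ⟨p1, k0, k1, p2, y, ⟨a1, a2, a3, a4, b1, b2, b3, b4, b5, b6⟩, c1, c2, -, c4⟩ := hb
  obtain ⟨S, hS⟩ : ∃ S : ℝ, S = size n := ⟨_, rfl⟩
  obtain ⟨l, l1, l2, l3⟩ := hns p2 a4 c1
  rw [← hS] at b1 b2 b3 b4 b5 b6 c2 c4 g1 g2 g3 g4 g5 g6 l3
  have hpk : (1 : ℝ) ≤ 2 ^ kc := one_le_pow₀ (by norm_num)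
  have hJk : (2 : ℝ) ^ (kc - J2 + 2) ≤ 2 ^ kc := pow_le_pow_right₀ (by norm_num) (by omega)
  have hm0 : 0 < m * S := by
    have : (0 : ℝ) < 2 ^ (kc - J2 + 2) := by positivity
    linarith
  have hp1 := abs_le.1 (b2 p1 le_rfl (by omega))
  refine ⟨⟨p1, by omega, ?_⟩, ?_⟩
  · rw [le_abs]
    left
    linarith
  intro p t σ c hσ hpt hW hlev hsm
  obtain ⟨v, hv⟩ : ∃ v : ℕ, ∀ y : ℤ, Tight.sg v y = σ * y := by
    rcases hσ with rfl | rfl
    · exact ⟨1, fun y => by simp [Tight.sg]⟩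
    · exact ⟨0, fun y => by simp [Tight.sg]⟩
  obtain ⟨x, hx⟩ : ∃ x : ℕ → ℤ, ∀ i, x i = Tight.sg v (lev t i) := ⟨fun i => Tight.sg v (lev t i), fun _ => rfl⟩
  have hX : ∀ j, j ≤ t.length → 2 * (pos s (p + j)).re = c + x j := by
    intro j hj
    rw [hlev j hj, hx, hv]
    push_cast
    ring
  have hx0 : x 0 = 0 := by
    rw [hx, hv, lev_zero, mul_zero]
  have hc : |c| ≤ 1 := by
    have h1 := hsm p le_rfl
    have h2 := hX 0 (Nat.zero_le _)
    rw [add_zero, hx0] at h2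
    rw [h2] at h1
    push_cast at h1
    rw [add_zero] at h1
    exact_mod_cast h1
  have hc1 : -1 ≤ c ∧ c ≤ 1 := abs_le.1 hc
  have hc2 : (-1 : ℝ) ≤ c := by exact_mod_cast hc1.1
  have hc3 : (c : ℝ) ≤ 1 := by exact_mod_cast hc1.2
  obtain ⟨z0, hz0⟩ : ∃ z0 : ℤ, z0 = ⌊2 * y⌋ := ⟨_, rfl⟩
  have hz1 : (z0 : ℝ) ≤ 2 * y := by rw [hz0]; exact Int.floor_le _
  have hz2 : 2 * y < z0 + 1 := by rw [hz0]; exact Int.lt_floor_add_one _
  -- the three translations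
  have low : ∀ (a : ℝ) (i : ℕ), i ≤ t.length → (pos s (p + i)).re ≤ y - a → x i ≤ z0 - c - (⌊2 * a⌋ - 1) := by
    intro a i hi h1
    have h2 := hX i hi
    have h3 := Int.floor_le (2 * a)
    have h4 : (x i : ℝ) < ((z0 - c - (⌊2 * a⌋ - 1) : ℤ) : ℝ) := by
      push_cast
      linarith
    exact (by exact_mod_cast h4 : x i < _).le
  have high : ∀ (a : ℝ) (i : ℕ), i ≤ t.length → y + a ≤ (pos s (p + i)).re → z0 - c + (⌊2 * a⌋ - 1) ≤ x i := by
    intro a i hi h1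
    have h2 := hX i hi
    have h3 := Int.floor_le (2 * a)
    have h4 : ((z0 - c + (⌊2 * a⌋ - 1) : ℤ) : ℝ) ≤ x i := by
      push_cast
      linarith
    exact_mod_cast h4
  have mid : ∀ (a : ℝ) (i : ℕ), i ≤ t.length → |(pos s (p + i)).re - y| ≤ a → |x i - (z0 - c)| ≤ ⌈2 * a⌉ + 1 := by
    intro a i hi h1
    have h2 := hX i hi
    have h3 := Int.le_ceil (2 * a)
    have h4 := abs_le.1 h1
    have h5 : -((⌈2 * a⌉ : ℝ) + 1) ≤ x i - (z0 - c) := by linarith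
    have h6 : (x i : ℝ) - (z0 - c) ≤ (⌈2 * a⌉ : ℝ) + 1 := by linarith
    rw [abs_le]
    constructor
    · exact_mod_cast h5
    · exact_mod_cast h6
  have hpp : p < p1 := by
    by_contra hn
    have h1 := abs_le.1 (hsm p1 (by omega))
    linarith
  have hRR : RR (kc + 5) = 96 * 2 ^ kc - 2 := by
    unfold RR
    rw [pow_add]
    ring
  have hQ : 3 * 2 ^ (kc - J2 + 2) + 5 ≤ ⌊2 * (m * S)⌋ := by
    rw [Int.le_floor]
    push_cast
    exact g4
  have hμ : 4 ≤ ⌊2 * (h * S)⌋ := by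
    rw [Int.le_floor]
    push_cast
    linarith
  have hω : ((⌈2 * (w * S)⌉ : ℤ) : ℝ) < 2 * (w * S) + 1 := Int.ceil_lt_add_one _
  have hωk : 2 * (⌈2 * (w * S)⌉ + 1 + 2) ≤ 2 ^ (kc - J3) := by
    have h1 : (2 * ((⌈2 * (w * S)⌉ : ℤ) + 1 + 2) : ℝ) ≤ (2 : ℝ) ^ (kc - J3) := by linarith
    exact_mod_cast h1
  have hR : ((⌈2 * (E * S)⌉ : ℤ) : ℝ) < 2 * (E * S) + 1 := Int.ceil_lt_add_one _
  have hR2 : ⌈2 * (E * S)⌉ ≤ 2 * 2 ^ kc + 1 := by
    have h1 : ((⌈2 * (E * S)⌉ : ℤ) : ℝ) ≤ 2 * (2 : ℝ) ^ kc + 1 := by linarith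
    exact_mod_cast h1
  have hz3 : 200 * 2 ^ kc - 1 ≤ z0 := by
    have h1 : (200 * (2 : ℝ) ^ kc - 1) ≤ z0 := by linarith
    exact_mod_cast h1
  have hpz : (1 : ℤ) ≤ 2 ^ kc := one_le_pow₀ (by norm_num)
  have hJz : (2 : ℤ) ^ (kc - J2 + 2) ≤ 2 ^ kc := pow_le_pow_right₀ (by norm_num) (by omega)
  have hJz2 : (2 : ℤ) ^ (kc - J3) ≤ 2 ^ (kc - J2 + 2) := pow_le_pow_right₀ (by norm_num) (by omega)
  have hJz3 : (0 : ℤ) < 2 ^ (kc - J2 + 2) := by positivity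
  refine fd_pnl (kc := kc) (J := J) (J2 := J2) (J3 := J3) hJ2 (by omega) hW (w := v) hx (p1 := p1 - p) (p2 := p2 - p) (k0 := k0 - p)
    (k1 := k1 - p) (z := z0 - c) (r := ⌈2 * (E * S)⌉ + 1) (q := ⌊2 * (m * S)⌋ - 1) (μ := ⌊2 * (h * S)⌋ - 1)
    (ω := ⌈2 * (w * S)⌉ + 1) (by omega) (by omega) (by omega) (by omega) (by omega) (by omega) (by omega) hωk (by omega)
    (fun i hi => low _ i (by omega) (b1 _ (by omega))) (fun i hi hi' => mid _ i (by omega) (b2 _ (by omega) (by omega)))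
    (fun i hi hi' => high _ i hi' (b3 _ (by omega) (by omega))) (fun i hi => low _ i (by omega) (b4 _ (by omega)))
    (fun i hi hi' => mid _ i (by omega) (b5 _ (by omega) (by omega))) (fun i hi hi' => high _ i hi' (b6 _ (by omega) (by omega)))
    ⟨0, Nat.zero_le _, by rw [hx0, hRR]; omega⟩ ⟨l - p, by omega, by omega, ?_⟩ ?_
  · -- the point behind p2
    have h1 := b3 l l1 l2
    have h2 := abs_le.1 (b2 p2 (by omega) le_rfl)
    have h3 := b3 p2 le_rfl a4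
    have h4 : τ * S < (pos s l).re - (pos s p2).re := by
      rcases lt_abs.1 l3 with h5 | h5
      · exact h5
      · exfalso
        linarith
    have h5 := hX (l - p) (by omega)
    rw [show p + (l - p) = l by omega] at h5
    have h6 : ((z0 - c + 200 * 2 ^ kc : ℤ) : ℝ) ≤ x (l - p) := by
      push_cast
      linarith
    have h7 : z0 - c + 200 * 2 ^ kc ≤ x (l - p) := by exact_mod_cast h6
    rw [hRR]
    omega
  · -- no cut
    rintro ⟨j, j1, j2, j3, j4, j5, j6, j7⟩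
    have e0 := hX j j3.le
    have e1 := hX (j + 1) j3
    rw [j4] at e1
    push_cast at e1
    have j7' := abs_le.1 j7
    have hlow : 1 ≤ (pos s (p + j)).re := by
      have h1 : (2 : ℤ) ≤ c + x j := by omega
      have h2 : (2 : ℝ) ≤ c + x j := by exact_mod_cast h1
      linarith
    have hcut : Cut s (p + j) := by
      refine Dic.cut_of (by omega) ?_ (fun i hi => ?_) fun i hi hi' => ?_
      · rw [show p + j + 1 = p + (j + 1) by ring]
        linarith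
      · rcases Nat.lt_or_ge p i with h1 | h1
        · obtain ⟨k, rfl⟩ := Nat.exists_eq_add_of_le h1.le
          have h2 := hX k (by omega)
          have h3 : (x k : ℝ) ≤ x j := by exact_mod_cast j5 k (by omega)
          linarith
        · have h2 := abs_le.1 (hsm i h1)
          linarith
      · obtain ⟨k, rfl⟩ := Nat.exists_eq_add_of_le (show p ≤ i by omega)
        have h2 := hX k (by omega)
        have h3 : (x j : ℝ) < x k := by exact_mod_cast j6 k (by omega) (by omega)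
        linarith
    have h1 := c4 (p + j) hcut
    have h2 : |(pos s (p + j)).re - y| ≤ m * S := by
      have q1 : -(3 * (2 : ℝ) ^ (kc - J2 + 2) + 1) ≤ x j - (z0 - c) := by exact_mod_cast j7'.1
      have q2 : (x j : ℝ) - (z0 - c) ≤ 3 * (2 : ℝ) ^ (kc - J2 + 2) + 1 := by exact_mod_cast j7'.2
      rw [abs_le]
      constructor <;> linarith
    linarith

end Pool.Agent.CRT.V

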