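import Pool.Agent.CutJ.ZNormB
import Pool.Agent.BAR.Upper
import Pool.Agent.Tight.Touch0

/-!
# CRT, row 11A, M3 (helper29): the bridges with an isolated cluster of cuts

* `iso_split`: a bridge `G` with a cut `x` such that all the other cuts at a distance of at most `e` of `x` are at a distance
  of at most `t`: `G = A ++ (I ++ (M ++ (J ++ B)))`, `I` and `J` irreducible, higher than `e - t`, the height of `M` is at most
  `2 t`;
* **`m3`**: their mass.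
-/

set_option autoImplicit false

namespace HexObs

namespace CRT

open Finset TS SDN

open scoped ENNReal

/-- bridges with an isolated cluster of cuts -/
def Iso (N e t : ℕ) : Set (List Bool) := {G | ∃ H x : ℕ, G ∈ Brd H ∧ H ≤ N ∧ e ≤ x ∧ x + e ≤ H ∧ Cut G x ∧
  ∀ y, Cut G y → x ≤ y + e → y ≤ x + e → x ≤ y + t ∧ y ≤ x + t}

/-- irreducible pieces higher than n -/
def Gi (n : ℕ) : Set (List Bool) := {P | ∃ p, n < p ∧ P ∈ Irr p}

lemma tail_sum (n : ℕ) : HasSum (fun r : ℕ => if n < r then kk r else 0) (KK' (n + 1)) := by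
  have h1 : HasSum kk 1 := by
    have := summable_kk.hasSum
    rwa [tsum_kk] at this
  have h2 : HasSum (fun r : ℕ => if r ∈ range (n + 1) then kk r else 0) (∑ r ∈ range (n + 1), kk r) := by
    have h3 : HasSum (fun r : ℕ => if r ∈ range (n + 1) then kk r else 0)
        (∑ r ∈ range (n + 1), if r ∈ range (n + 1) then kk r else 0) :=
      hasSum_sum_of_ne_finset_zero (fun r hr => if_neg hr)
    rw [Finset.sum_congr rfl (fun r hr => if_pos hr)] at h3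
    exact h3
  have h3 := h1.sub h2
  have h4 : (fun r : ℕ => if n < r then kk r else 0) = fun r => kk r - (if r ∈ range (n + 1) then kk r else 0) := by
    funext r
    by_cases h : n < r
    · rw [if_pos h, if_neg (by simp only [mem_range]; omega), sub_zero]
    · rw [if_neg h, if_pos (by simp only [mem_range]; omega), sub_self]
  rw [h4]
  exact h3

lemma tail_le (n : ℕ) : (∑' r : ℕ, (if n < r then kap' r else 0)) ≤ ENNReal.ofReal (1 / UU n) := by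
  have h1 := tail_sum n
  have h2 : (∑' r : ℕ, (if n < r then kap' r else 0)) = ENNReal.ofReal (KK' (n + 1)) := by
    rw [← h1.tsum_eq, ENNReal.ofReal_tsum_of_nonneg _ h1.summable]
    · refine tsum_congr fun r => ?_
      by_cases h : n < r
      · rw [if_pos h, if_pos h, BAR.kap_eq]
      · rw [if_neg h, if_neg h, ENNReal.ofReal_zero]
    · intro r
      split_ifs
      · exact kk_nonneg r
      · exact le_rfl
  rw [h2]
  refine ENNReal.ofReal_le_ofReal ?_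
  rw [le_div_iff₀ (Num2Aux.UU_pos n), mul_comm]
  exact UU_mul_KK n


open Classical in
lemma gf_Gi (n : ℕ) : gf (Gi n) ≤ ENNReal.ofReal (1 / UU n) := by
  have h1 : gf (Gi n) ≤ ∑' r : ℕ, (if n < r then kap' r else 0) := by
    have h2 : Gi n ⊆ ⋃ r : ℕ, {P | n < r ∧ P ∈ Irr r} := by
      rintro P ⟨p, h1, h2⟩
      exact Set.mem_iUnion.2 ⟨p, h1, h2⟩
    refine (gf_mono h2).trans ((HexObs.Touch.gf_iUnion_le _).trans (ENNReal.tsum_le_tsum fun r => ?_))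
    by_cases h : n < r
    · rw [if_pos h]
      exact gf_mono fun P hP => hP.2
    · rw [if_neg h]
      refine le_of_eq ?_
      have : {P : List Bool | n < r ∧ P ∈ Irr r} = ∅ := by
        rw [Set.eq_empty_iff_forall_notMem]
        rintro P ⟨h3, -⟩
        exact h h3
      rw [this]
      unfold gf
      simp
  exact h1.trans (tail_le n)

lemma cut_zero {H : ℕ} {G : List Bool} (hG : G ∈ Brd H) : Cut G 0 := ⟨[], G, H, nil_mem_Brd, hG, rfl⟩

lemma cut_top {H : ℕ} {G : List Bool} (hG : G ∈ Brd H) : Cut G H := ⟨G, [], 0, hG, nil_mem_Brd, (List.append_nil _).symm⟩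

lemma cut_le {H y : ℕ} {G : List Bool} (hG : G ∈ Brd H) (h : Cut G y) : y ≤ H := by
  obtain ⟨s, u, b, hs, hu, rfl⟩ := h
  have := Brd_height (Brd_append hs hu) hG
  omega

/-- the piece between two consecutive cuts -/
lemma irr_mid {c c' : ℕ} {A P B : List Bool} {b : ℕ} (hA : A ∈ Brd c) (hcc : c < c') (hP : P ∈ Brd (c' - c)) (hB : B ∈ Brd b)
    (hno : ∀ y, Cut (A ++ (P ++ B)) y → c < y → c' ≤ y) : P ∈ Irr (c' - c) := by
  refine ⟨hP, ?_, ?_⟩
  · rintro rfl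
    have := Brd_height hP nil_mem_Brd
    omega
  · intro a b' s u hs hu h
    have h1 : a + b' = c' - c := Brd_height (Brd_append hs hu) (h ▸ hP)
    rcases Nat.eq_zero_or_pos a with ha | ha
    · left
      subst ha
      simpa [Brd_zero] using hs
    rcases Nat.eq_zero_or_pos b' with hb | hb
    · right
      subst hb
      simpa [Brd_zero] using hu
    exfalso
    have h2 : Cut (A ++ (P ++ B)) (c + a) := by
      refine ⟨A ++ s, u ++ B, b' + b, Brd_append hA hs, Brd_append hu hB, ?_⟩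
      rw [h]
      simp only [List.append_assoc]
    have := hno _ h2 (by omega)
    omega

/-- **the pieces** -/
lemma iso_split {N e t : ℕ} (het : t < e) {G : List Bool} (hG : G ∈ Iso N e t) :
    ∃ A ∈ {X | ∃ h, h ≤ N ∧ X ∈ Brd h}, ∃ I ∈ Gi (e - t), ∃ M ∈ {X | ∃ h, h ≤ 2 * t ∧ X ∈ Brd h}, ∃ J ∈ Gi (e - t),
      ∃ B ∈ {X | ∃ h, h ≤ N ∧ X ∈ Brd h}, G = A ++ (I ++ (M ++ (J ++ B))) := by
  classical
  obtain ⟨H, x, hH, hHN, hex, hxH, hcx, hiso⟩ := hG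
  -- the four cuts
  obtain ⟨F, hF⟩ : ∃ F : Finset ℕ, F = (range (H + 1)).filter (fun y => Cut G y) := ⟨_, rfl⟩
  have hmem : ∀ y, y ∈ F ↔ Cut G y := by
    intro y
    rw [hF, mem_filter, mem_range]
    exact ⟨fun h => h.2, fun h => ⟨Nat.lt_succ_of_le (cut_le hH h), h⟩⟩
  -- c0 : the last cut below x - t
  have n0 : (F.filter fun y => y + t < x).Nonempty := ⟨0, mem_filter.2 ⟨(hmem 0).2 (cut_zero hH), by omega⟩⟩
  have n5 : (F.filter fun y => x + t < y).Nonempty := ⟨H, mem_filter.2 ⟨(hmem H).2 (cut_top hH), by omega⟩⟩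
  have n1 : (F.filter fun y => x ≤ y + t).Nonempty := ⟨x, mem_filter.2 ⟨(hmem x).2 hcx, by omega⟩⟩
  have n4 : (F.filter fun y => y ≤ x + t).Nonempty := ⟨x, mem_filter.2 ⟨(hmem x).2 hcx, by omega⟩⟩
  obtain ⟨c0, h0⟩ : ∃ c0, c0 = (F.filter fun y => y + t < x).max' n0 := ⟨_, rfl⟩
  obtain ⟨c1, h1⟩ : ∃ c1, c1 = (F.filter fun y => x ≤ y + t).min' n1 := ⟨_, rfl⟩
  obtain ⟨c4, h4⟩ : ∃ c4, c4 = (F.filter fun y => y ≤ x + t).max' n4 := ⟨_, rfl⟩
  obtain ⟨c5, h5⟩ : ∃ c5, c5 = (F.filter fun y => x + t < y).min' n5 := ⟨_, rfl⟩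
  have a0 : Cut G c0 ∧ c0 + t < x := by
    have := mem_filter.1 (h0 ▸ Finset.max'_mem _ n0)
    exact ⟨(hmem _).1 this.1, this.2⟩
  have a1 : Cut G c1 ∧ x ≤ c1 + t := by
    have := mem_filter.1 (h1 ▸ Finset.min'_mem _ n1)
    exact ⟨(hmem _).1 this.1, this.2⟩
  have a4 : Cut G c4 ∧ c4 ≤ x + t := by
    have := mem_filter.1 (h4 ▸ Finset.max'_mem _ n4)
    exact ⟨(hmem _).1 this.1, this.2⟩
  have a5 : Cut G c5 ∧ x + t < c5 := by
    have := mem_filter.1 (h5 ▸ Finset.min'_mem _ n5)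
    exact ⟨(hmem _).1 this.1, this.2⟩
  have b0 : ∀ y, Cut G y → y + t < x → y ≤ c0 := fun y hy hyx => by
    rw [h0]
    exact Finset.le_max' _ _ (mem_filter.2 ⟨(hmem y).2 hy, hyx⟩)
  have b1 : ∀ y, Cut G y → x ≤ y + t → c1 ≤ y := fun y hy hyx => by
    rw [h1]
    exact Finset.min'_le _ _ (mem_filter.2 ⟨(hmem y).2 hy, hyx⟩)
  have b4 : ∀ y, Cut G y → y ≤ x + t → y ≤ c4 := fun y hy hyx => by
    rw [h4]
    exact Finset.le_max' _ _ (mem_filter.2 ⟨(hmem y).2 hy, hyx⟩)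
  have b5 : ∀ y, Cut G y → x + t < y → c5 ≤ y := fun y hy hyx => by
    rw [h5]
    exact Finset.min'_le _ _ (mem_filter.2 ⟨(hmem y).2 hy, hyx⟩)
  have c1x : c1 ≤ x := b1 x hcx (by omega)
  have c4x : x ≤ c4 := b4 x hcx (by omega)
  have d0 : c0 + e < x := by
    by_contra hcon
    have := hiso c0 a0.1 (by omega) (by omega)
    omega
  have d5 : x + e < c5 := by
    by_contra hcon
    have := hiso c5 a5.1 (by omega) (by omega)
    omega
  obtain ⟨s0, u0, q0, hs0, hu0, e0⟩ := a0.1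
  obtain ⟨s1, u1, q1, hs1, hu1, e1⟩ := a1.1
  obtain ⟨s4, u4, q4, hs4, hu4, e4⟩ := a4.1
  obtain ⟨s5, u5, q5, hs5, hu5, e5⟩ := a5.1
  obtain ⟨I, hI, i1, i2⟩ := cut_nested hs0 hs1 hu0 hu1 (by omega) (e0.symm.trans e1)
  obtain ⟨M, hM, m1, m2⟩ := cut_nested hs1 hs4 hu1 hu4 (by omega) (e1.symm.trans e4)
  obtain ⟨J, hJ, j1, j2⟩ := cut_nested hs4 hs5 hu4 hu5 (by omega) (e4.symm.trans e5)
  have hq5 : q5 ≤ N := by
    have := Brd_height (Brd_append hs5 hu5) (e5 ▸ hH)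
    omega
  have hc0N : c0 ≤ N := (cut_le hH a0.1).trans hHN
  have hGe : G = s0 ++ (I ++ (M ++ (J ++ u5))) := by
    rw [e0, i2, m2, j2]
  refine ⟨s0, ⟨c0, hc0N, hs0⟩, I, ⟨c1 - c0, by omega, ?_⟩, M, ⟨c4 - c1, by omega, hM⟩, J, ⟨c5 - c4, by omega, ?_⟩, u5,
    ⟨q5, hq5, hu5⟩, hGe⟩
  · refine irr_mid (B := u1) hs0 (by omega) hI hu1 fun y hy hy0 => ?_
    have hy' : Cut G y := by
      rwa [e0, i2]
    refine b1 y hy' ?_
    by_contra hcon
    have := b0 y hy' (by omega)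
    omega
  · refine irr_mid (B := u5) hs4 (by omega) hJ hu5 fun y hy hy0 => ?_
    have hy' : Cut G y := by
      rwa [e4, j2]
    refine b5 y hy' ?_
    by_contra hcon
    have := b4 y hy' (by omega)
    omega

/-- **M3: the mass of the bridges with an isolated cluster of cuts** -/
theorem m3 {N e t : ℕ} (het : 2 * t ≤ e) (he : 1 ≤ e) :
    gf (Iso N e t) ≤ ENNReal.ofReal (4 * UU N ^ 2 * UU (2 * t) / UU e ^ 2) := by
  have hN := Num2Aux.UU_pos N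
  have ht := Num2Aux.UU_pos (2 * t)
  have hee := Num2Aux.UU_pos e
  have hd := Num2Aux.UU_pos (e - t)
  have h2 : UU e ≤ 2 * UU (e - t) := by
    refine (UU_mono (show e ≤ 2 * (e - t) by omega)).trans ?_
    exact UU_double _
  have h3 : gf (Iso N e t) ≤ gf {X | ∃ h, h ≤ N ∧ X ∈ Brd h} * (gf (Gi (e - t)) * (gf {X | ∃ h, h ≤ 2 * t ∧ X ∈ Brd h} *
      (gf (Gi (e - t)) * gf {X | ∃ h, h ≤ N ∧ X ∈ Brd h}))) := by
    have k1 : gf {t' | ∃ J ∈ Gi (e - t), ∃ B ∈ {X | ∃ h, h ≤ N ∧ X ∈ Brd h}, t' = J ++ B} ≤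
        gf (Gi (e - t)) * gf {X | ∃ h, h ≤ N ∧ X ∈ Brd h} := gf_le_mul fun t' ht' => ht'
    have k2 : gf {t' | ∃ M ∈ {X | ∃ h, h ≤ 2 * t ∧ X ∈ Brd h}, ∃ R ∈ {t' | ∃ J ∈ Gi (e - t),
        ∃ B ∈ {X | ∃ h, h ≤ N ∧ X ∈ Brd h}, t' = J ++ B}, t' = M ++ R} ≤ gf {X | ∃ h, h ≤ 2 * t ∧ X ∈ Brd h} *
          (gf (Gi (e - t)) * gf {X | ∃ h, h ≤ N ∧ X ∈ Brd h}) := (gf_le_mul fun t' ht' => ht').trans (mul_le_mul' le_rfl k1)
    have k3 : gf {t' | ∃ I ∈ Gi (e - t), ∃ R ∈ {t' | ∃ M ∈ {X | ∃ h, h ≤ 2 * t ∧ X ∈ Brd h}, ∃ R ∈ {t' | ∃ J ∈ Gi (e - t),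
        ∃ B ∈ {X | ∃ h, h ≤ N ∧ X ∈ Brd h}, t' = J ++ B}, t' = M ++ R}, t' = I ++ R} ≤ gf (Gi (e - t)) *
          (gf {X | ∃ h, h ≤ 2 * t ∧ X ∈ Brd h} * (gf (Gi (e - t)) * gf {X | ∃ h, h ≤ N ∧ X ∈ Brd h})) :=
      (gf_le_mul fun t' ht' => ht').trans (mul_le_mul' le_rfl k2)
    refine (gf_le_mul (R := {t' | ∃ I ∈ Gi (e - t), ∃ R ∈ {t' | ∃ M ∈ {X | ∃ h, h ≤ 2 * t ∧ X ∈ Brd h},
      ∃ R ∈ {t' | ∃ J ∈ Gi (e - t), ∃ B ∈ {X | ∃ h, h ≤ N ∧ X ∈ Brd h}, t' = J ++ B}, t' = M ++ R}, t' = I ++ R})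
      fun G hG => ?_).trans (mul_le_mul' le_rfl k3)
    obtain ⟨A, hA, I, hI, M, hM, J, hJ, B, hB, h⟩ := iso_split (by omega) hG
    exact ⟨A, hA, _, ⟨I, hI, _, ⟨M, hM, _, ⟨J, hJ, B, hB, rfl⟩, rfl⟩, rfl⟩, h⟩
  refine h3.trans ((mul_le_mul' (TS.gf_BU_le N) (mul_le_mul' (gf_Gi _) (mul_le_mul' (TS.gf_BU_le _) (mul_le_mul' (gf_Gi _)
    (TS.gf_BU_le N))))).trans ?_)
  rw [← ENNReal.ofReal_mul (by positivity), ← ENNReal.ofReal_mul (by positivity), ← ENNReal.ofReal_mul (by positivity),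
    ← ENNReal.ofReal_mul (by positivity)]
  refine ENNReal.ofReal_le_ofReal ?_
  have h4 : 1 / UU (e - t) ≤ 2 / UU e := by
    rw [div_le_div_iff₀ hd hee]
    linarith
  have h5 : 0 < 1 / UU (e - t) := by positivity
  calc UU N * (1 / UU (e - t) * (UU (2 * t) * (1 / UU (e - t) * UU N))) =
      (1 / UU (e - t)) * (1 / UU (e - t)) * (UU N ^ 2 * UU (2 * t)) := by ring
    _ ≤ (2 / UU e) * (2 / UU e) * (UU N ^ 2 * UU (2 * t)) :=
      mul_le_mul_of_nonneg_right (mul_le_mul h4 h4 h5.le (by positivity)) (by positivity)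
    _ = _ := by
      field_simp
      ring

end CRT

end HexObs
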