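import Pool.Agent.CRT.Defs

/-!
# CRT, row K5a (helper41): tightness of the critical walks in balls

* `cl_apply` : the mass of an event; `cl_prob` : `cl R` is a probability measure;
* **`clTight_of`** : `ClTight` from `MassB`, `MassT`, the size of the walks and the tightness of the curves.
-/

set_option autoImplicit false

open Set Filter Topology MeasureTheory
open scoped ENNReal

namespace Pool.Agent.CRT

open Pool.Agent.NTS.Res
open Pool.Agent.NPR

namespace Tg

lemma aN_nonneg (n : ℕ) : 0 ≤ aN n := by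
  unfold aN fug
  positivity

lemma wR_nonneg (R : ℝ) (n : ℕ) : 0 ≤ wR R n := mul_nonneg (aN_nonneg n) ENNReal.toReal_nonneg

lemma isOpen_inB (R : ℝ) (n : ℕ) : IsOpen (inB R n) :=
  isOpen_lt (continuous_norm.mul continuous_const) continuous_const

lemma continuous_sc (c : ℝ) : Continuous (sc c) := continuous_const_smul (c : ℂ)

lemma law_one (n : ℕ) : law n univ = 1 := by
  have := NTSF.law_prob n
  exact measure_univ

lemma law_le_one (n : ℕ) (E : Set CI) : law n E ≤ 1 := (measure_mono (subset_univ _)).trans (law_one n).le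

lemma law_ne_top (n : ℕ) (E : Set CI) : law n E ≠ ∞ := ne_top_of_le_ne_top ENNReal.one_ne_top (law_le_one n E)

/-- the map of the curves -/
noncomputable def mp (R : ℝ) (n : ℕ) (γ : CI) : CI × ℝ := (sc (size n / R) γ, (n : ℝ) / R ^ (4 / 3 : ℝ))

lemma continuous_mp (R : ℝ) (n : ℕ) : Continuous (mp R n) := (continuous_sc _).prodMk continuous_const

/-- the mass of an event -/
lemma cl_apply {R : ℝ} {E : Set (CI × ℝ)} (hE : MeasurableSet E) :
    cl R E = ∑' n : ℕ, ENNReal.ofReal (aN n / cR R) * law n (mp R n ⁻¹' E ∩ inB R n) := by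
  unfold cl
  rw [Measure.sum_apply _ hE]
  refine tsum_congr fun n => ?_
  rw [Measure.smul_apply, smul_eq_mul]
  have h1 : Measurable fun γ : CI => (sc (size n / R) γ, (n : ℝ) / R ^ (4 / 3 : ℝ)) := (continuous_mp R n).measurable
  rw [Measure.map_apply h1 hE, Measure.restrict_apply (h1 hE)]
  rfl

/-- the weight of the walks with n steps in the ball -/
lemma term_eq {R : ℝ} (hc : 0 < cR R) (n : ℕ) :
    ENNReal.ofReal (aN n / cR R) * law n (inB R n) = ENNReal.ofReal (wR R n / cR R) := by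
  unfold wR
  rw [mul_div_right_comm, ENNReal.ofReal_mul (div_nonneg (aN_nonneg n) hc.le), ENNReal.ofReal_toReal (law_ne_top n _)]

lemma summable_wR {R : ℝ} (hc : 0 < cR R) : Summable (wR R) := by
  by_contra h
  have h1 : cR R = 0 := tsum_eq_zero_of_not_summable h
  linarith

/-- `cl R` is a probability measure -/
theorem cl_prob {R : ℝ} (hc : 0 < cR R) : IsProbabilityMeasure (cl R) := by
  refine ⟨?_⟩
  rw [cl_apply MeasurableSet.univ]
  simp_rw [preimage_univ, univ_inter]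
  rw [tsum_congr fun n => term_eq hc n, ← ENNReal.ofReal_tsum_of_nonneg (fun n => div_nonneg (wR_nonneg R n) hc.le)
    ((summable_wR hc).div_const _), tsum_div_const]
  have h1 : (∑' n, wR R n) = cR R := rfl
  rw [h1, div_self hc.ne', ENNReal.ofReal_one]

lemma size_zero : size 0 = 0 := by
  unfold size
  have h1 : ∀ s ∈ saw 0, ‖pos s 0‖ ^ 2 = 0 := by
    intro s _
    rw [NTSF.pos_zero, norm_zero]
    norm_num
  rw [Finset.sum_congr rfl h1, Finset.sum_const_zero, zero_div, Real.sqrt_zero]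

/-- **K5a: tightness** -/
theorem tight_cl (hB : MassB) (hT : MassT)
    (hsz : ∃ C : ℝ, ∀ n : ℕ, 1 ≤ n → size n ≤ C * (n : ℝ) ^ (3 / 4 : ℝ))
    (ht : IsTightMeasureSet {μ : Measure CI | ∃ n : ℕ, 1 ≤ n ∧ μ = law n}) :
    ∀ ε : ℝ≥0∞, 0 < ε → ∃ (K : Set (CI × ℝ)) (R0 : ℝ), IsCompact K ∧ 0 < R0 ∧ ∀ R : ℝ, R0 ≤ R → cl R Kᶜ ≤ ε := by
  rw [isTightMeasureSet_iff_exists_isCompact_measure_compl_le] at ht
  obtain ⟨c, C, R0, hc, hR0, hB⟩ := hB
  obtain ⟨C1, hsz⟩ := hsz
  intro ε' hε'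
  -- a real number
  obtain ⟨ε, hε, hεε⟩ : ∃ ε : ℝ, 0 < ε ∧ ENNReal.ofReal ε ≤ ε' := by
    rcases eq_or_ne ε' ∞ with h | h
    · exact ⟨1, one_pos, h ▸ le_top⟩
    · exact ⟨ε'.toReal, ENNReal.toReal_pos hε'.ne' h, ENNReal.ofReal_toReal_le⟩
  obtain ⟨Lam, R1, hLam, hR1, hT⟩ := hT (c * ε / 2) (by positivity)
  -- the size
  obtain ⟨S, hS⟩ : ∃ S : ℝ, S = (|C1| + 1) * Lam ^ (3 / 4 : ℝ) := ⟨_, rfl⟩
  have hS0 : 0 < S := by rw [hS]; positivity
  have hsize : ∀ (R : ℝ) (n : ℕ), 0 < R → (n : ℝ) ≤ Lam * R ^ (4 / 3 : ℝ) → size n ≤ S * R := by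
    intro R n hR hn
    rcases Nat.eq_zero_or_pos n with rfl | h
    · rw [size_zero]
      positivity
    · refine (hsz n h).trans ?_
      have h1 : (n : ℝ) ^ (3 / 4 : ℝ) ≤ Lam ^ (3 / 4 : ℝ) * R := by
        refine (Real.rpow_le_rpow (Nat.cast_nonneg _) hn (by norm_num)).trans (le_of_eq ?_)
        rw [Real.mul_rpow hLam.le (by positivity), ← Real.rpow_mul hR.le]
        norm_num
      have h2 : (0 : ℝ) ≤ (n : ℝ) ^ (3 / 4 : ℝ) := by positivity
      calc C1 * (n : ℝ) ^ (3 / 4 : ℝ) ≤ (|C1| + 1) * (n : ℝ) ^ (3 / 4 : ℝ) :=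
            mul_le_mul_of_nonneg_right (by linarith [le_abs_self C1]) h2
        _ ≤ (|C1| + 1) * (Lam ^ (3 / 4 : ℝ) * R) := mul_le_mul_of_nonneg_left h1 (by positivity)
        _ = S * R := by rw [hS]; ring
  -- the norm
  obtain ⟨K0, hK0, hK0'⟩ := ht (1 / 2) (by simp)
  obtain ⟨M, hM⟩ : ∃ M : ℝ, ∀ γ ∈ K0, ‖γ‖ ≤ M := hK0.isBounded.exists_norm_le
  obtain ⟨K, hK⟩ : ∃ K : ℝ, K = (|M| + 1) * S + 1 := ⟨_, rfl⟩
  have hKM : 1 ≤ K := by
    rw [hK]
    have : 0 ≤ (|M| + 1) * S := by positivity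
    linarith
  have hin : ∀ (R : ℝ) (n : ℕ), 0 < R → 1 ≤ n → (n : ℝ) ≤ Lam * R ^ (4 / 3 : ℝ) → aN n ≤ 2 * wR (K * R) n := by
    intro R n hR hn1 hn
    have h1 : K0 ⊆ inB (K * R) n := by
      intro γ hγ
      show ‖γ‖ * size n < K * R
      have h2 := hM γ hγ
      have h3 := hsize R n hR hn
      have h4 : 0 ≤ size n := NTSF.size_nonneg n
      calc ‖γ‖ * size n ≤ (|M| + 1) * (S * R) := by
            refine mul_le_mul (by linarith [le_abs_self M]) h3 h4 (by positivity)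
        _ < K * R := by rw [hK]; nlinarith
    have h2 : 1 / 2 ≤ law n (inB (K * R) n) := by
      have h3 := hK0' (law n) ⟨n, hn1, rfl⟩
      have h4 : (1 : ℝ≥0∞) ≤ law n (inB (K * R) n) + 1 / 2 := by
        calc (1 : ℝ≥0∞) = law n univ := (law_one n).symm
          _ ≤ law n (inB (K * R) n ∪ K0ᶜ) := measure_mono fun γ _ => by
              by_cases h : γ ∈ K0
              · exact Or.inl (h1 h)
              · exact Or.inr h
          _ ≤ law n (inB (K * R) n) + law n K0ᶜ := measure_union_le _ _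
          _ ≤ _ := add_le_add le_rfl h3
      have h5 : (1 / 2 : ℝ≥0∞) + 1 / 2 = 1 := ENNReal.add_halves 1
      exact (ENNReal.add_le_add_iff_right (a := (1 / 2 : ℝ≥0∞)) (by simp)).1 (h5.le.trans h4)
    have h3 : (1 / 2 : ℝ) ≤ (law n (inB (K * R) n)).toReal := by
      have h4 := (ENNReal.toReal_le_toReal (by simp) (law_ne_top n _)).2 h2
      simpa using h4
    unfold wR
    nlinarith [aN_nonneg n]
  -- the second compact set
  obtain ⟨B, hBd⟩ : ∃ B : ℝ, B = 2 * |C| * K ^ (43 / 24 : ℝ) / c + 1 := ⟨_, rfl⟩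
  have hB0 : 0 < B := by rw [hBd]; positivity
  obtain ⟨K1, hK1, hK1'⟩ := ht (ENNReal.ofReal (ε / (2 * B))) (ENNReal.ofReal_pos.2 (by positivity))
  obtain ⟨K2, hK2⟩ : ∃ K2 : Set CI, K2 = (fun p : ℝ × CI => sc p.1 p.2) '' (Icc 0 S ×ˢ insert 0 K1) := ⟨_, rfl⟩
  have hcs : Continuous fun p : ℝ × CI => sc p.1 p.2 := by
    unfold sc
    fun_prop
  have hK2c : IsCompact K2 := by
    rw [hK2]
    exact (isCompact_Icc.prod (hK1.insert 0)).image hcs
  refine ⟨K2 ×ˢ Icc 0 Lam, max (max R0 R1) 1, hK2c.prod isCompact_Icc, by positivity, fun R hR => ?_⟩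
  have hRa : R0 ≤ R := ((le_max_left _ _).trans (le_max_left _ _)).trans hR
  have hRb : R1 ≤ R := ((le_max_right _ _).trans (le_max_left _ _)).trans hR
  have hRc : 0 < R := hR0.trans_le hRa
  have hR43 : 0 < R ^ (4 / 3 : ℝ) := by positivity
  have hcR := hB R hRa
  have hcp : 0 < cR R := lt_of_lt_of_le (by positivity) hcR.1
  have hKR : R0 ≤ K * R := hRa.trans (by nlinarith)
  have hcK := hB (K * R) hKR
  have hcKp : 0 < cR (K * R) := lt_of_lt_of_le (by positivity) hcK.1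
  have hmeas : MeasurableSet (K2 ×ˢ Icc 0 Lam : Set (CI × ℝ))ᶜ :=
    (hK2c.isClosed.measurableSet.prod measurableSet_Icc).compl
  rw [cl_apply hmeas]
  -- the terms
  have hterm : ∀ n : ℕ, ENNReal.ofReal (aN n / cR R) * law n (mp R n ⁻¹' (K2 ×ˢ Icc 0 Lam)ᶜ ∩ inB R n) ≤
      ENNReal.ofReal ((if Lam * R ^ (4 / 3 : ℝ) < n then wR R n else 0) / cR R) +
        ENNReal.ofReal (ε / B * wR (K * R) n / cR R) := by
    intro n
    by_cases h1 : Lam * R ^ (4 / 3 : ℝ) < n
    · rw [if_pos h1, ← term_eq hcp]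
      refine le_trans ?_ le_self_add
      gcongr
      exact inter_subset_right
    · have h1' : (n : ℝ) ≤ Lam * R ^ (4 / 3 : ℝ) := not_lt.1 h1
      have h2 : (n : ℝ) / R ^ (4 / 3 : ℝ) ∈ Icc 0 Lam := ⟨by positivity, by rwa [div_le_iff₀ hR43]⟩
      have h3 : size n / R ∈ Icc 0 S :=
        ⟨div_nonneg (NTSF.size_nonneg n) hRc.le, by rw [div_le_iff₀ hRc]; exact hsize R n hRc h1'⟩
      refine le_trans ?_ le_add_self
      rcases Nat.eq_zero_or_pos n with h0 | h0
      · subst h0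
        have h4 : mp R 0 ⁻¹' (K2 ×ˢ Icc 0 Lam)ᶜ ∩ inB R 0 = ∅ := by
          rw [eq_empty_iff_forall_notMem]
          rintro γ ⟨h5, -⟩
          apply h5
          refine ⟨?_, h2⟩
          rw [hK2]
          refine ⟨(0, 0), ⟨⟨le_rfl, hS0.le⟩, mem_insert _ _⟩, ?_⟩
          have h6 : ∀ γ' : CI, sc 0 γ' = 0 := by
            intro γ'
            ext u
            show ((0 : ℝ) : ℂ) * γ' u = 0
            rw [Complex.ofReal_zero, zero_mul]
          show sc 0 0 = sc (size 0 / R) γ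
          rw [size_zero, zero_div, h6, h6]
        rw [h4, measure_empty, mul_zero]
        exact zero_le
      · have h4 : law n (mp R n ⁻¹' (K2 ×ˢ Icc 0 Lam)ᶜ ∩ inB R n) ≤ ENNReal.ofReal (ε / (2 * B)) := by
          refine (measure_mono ?_).trans (hK1' (law n) ⟨n, h0, rfl⟩)
          rintro γ ⟨h5, -⟩ h6
          apply h5
          refine ⟨?_, h2⟩
          rw [hK2]
          exact ⟨(size n / R, γ), ⟨h3, mem_insert_of_mem _ h6⟩, rfl⟩
        calc ENNReal.ofReal (aN n / cR R) * law n (mp R n ⁻¹' (K2 ×ˢ Icc 0 Lam)ᶜ ∩ inB R n)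
            ≤ ENNReal.ofReal (aN n / cR R) * ENNReal.ofReal (ε / (2 * B)) := by gcongr
          _ = ENNReal.ofReal (aN n / cR R * (ε / (2 * B))) :=
              (ENNReal.ofReal_mul (div_nonneg (aN_nonneg n) hcp.le)).symm
          _ ≤ _ := by
              apply ENNReal.ofReal_le_ofReal
              have h5 := hin R n hRc h0 h1'
              have h6 : 0 ≤ ε / (2 * B) / cR R := by positivity
              calc aN n / cR R * (ε / (2 * B)) = aN n * (ε / (2 * B) / cR R) := by ring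
                _ ≤ 2 * wR (K * R) n * (ε / (2 * B) / cR R) := mul_le_mul_of_nonneg_right h5 h6
                _ = ε / B * wR (K * R) n / cR R := by field_simp
  refine (ENNReal.tsum_le_tsum hterm).trans ?_
  rw [ENNReal.tsum_add]
  have hs1 : Summable fun n : ℕ => (if Lam * R ^ (4 / 3 : ℝ) < n then wR R n else 0) := by
    refine Summable.of_nonneg_of_le (fun n => ?_) (fun n => ?_) (summable_wR hcp)
    · split_ifs
      · exact wR_nonneg R n
      · exact le_rfl
    · split_ifs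
      · exact le_rfl
      · exact wR_nonneg R n
  have hs2 := summable_wR hcKp
  rw [← ENNReal.ofReal_tsum_of_nonneg (fun n => ?_) (hs1.div_const _),
    ← ENNReal.ofReal_tsum_of_nonneg (fun n => ?_) ((hs2.mul_left _).div_const _), tsum_div_const, tsum_div_const,
    tsum_mul_left, ← ENNReal.ofReal_add]
  · refine le_trans (ENNReal.ofReal_le_ofReal ?_) hεε
    have h1 := hT R hRb
    have hR24 : 0 < R ^ (43 / 24 : ℝ) := by positivity
    have h2 : (∑' n : ℕ, if Lam * R ^ (4 / 3 : ℝ) < n then wR R n else 0) / cR R ≤ ε / 2 := by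
      rw [div_le_iff₀ hcp]
      refine h1.trans ?_
      calc c * ε / 2 * R ^ (43 / 24 : ℝ) = ε / 2 * (c * R ^ (43 / 24 : ℝ)) := by ring
        _ ≤ _ := mul_le_mul_of_nonneg_left hcR.1 (by positivity)
    have h3 : ε / B * (∑' n : ℕ, wR (K * R) n) / cR R ≤ ε / 2 := by
      have h4 : (∑' n : ℕ, wR (K * R) n) = cR (K * R) := rfl
      rw [h4, div_le_iff₀ hcp]
      have h5 : cR (K * R) ≤ |C| * K ^ (43 / 24 : ℝ) * R ^ (43 / 24 : ℝ) := by
        refine hcK.2.trans ?_
        rw [Real.mul_rpow (by linarith) hRc.le, ← mul_assoc]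
        gcongr
        exact le_abs_self C
      have h6 : 2 * |C| * K ^ (43 / 24 : ℝ) ≤ B * c := by
        rw [hBd, add_mul, div_mul_cancel₀ _ hc.ne']
        linarith
      calc ε / B * cR (K * R) ≤ ε / B * (|C| * K ^ (43 / 24 : ℝ) * R ^ (43 / 24 : ℝ)) := by gcongr
        _ = ε / 2 * ((2 * |C| * K ^ (43 / 24 : ℝ)) * R ^ (43 / 24 : ℝ) / B) := by field_simp
        _ ≤ ε / 2 * ((B * c) * R ^ (43 / 24 : ℝ) / B) := by gcongr
        _ = ε / 2 * (c * R ^ (43 / 24 : ℝ)) := by field_simp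
        _ ≤ _ := mul_le_mul_of_nonneg_left hcR.1 (by positivity)
    linarith
  · refine div_nonneg (tsum_nonneg fun n => ?_) hcp.le
    split_ifs
    · exact wR_nonneg R n
    · exact le_rfl
  · exact div_nonneg (mul_nonneg (by positivity) (tsum_nonneg fun n => wR_nonneg _ n)) hcp.le
  · exact div_nonneg (mul_nonneg (by positivity) (wR_nonneg _ n)) hcp.le
  · refine div_nonneg ?_ hcp.le
    split_ifs
    · exact wR_nonneg R n
    · exact le_rfl

/-- **K5a** -/
theorem clTight_of (hB : MassB) (hT : MassT)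
    (hsz : ∃ C : ℝ, ∀ n : ℕ, 1 ≤ n → size n ≤ C * (n : ℝ) ^ (3 / 4 : ℝ))
    (ht : IsTightMeasureSet {μ : Measure CI | ∃ n : ℕ, 1 ≤ n ∧ μ = law n}) : ClTight := by
  intro r hr
  have key := tight_cl hB hT hsz ht
  obtain ⟨c, C, R0, hc, hR0, hB⟩ := hB
  -- from now on probability measures
  obtain ⟨k0, hk0⟩ := eventually_atTop.1 (hr.eventually_ge_atTop R0)
  have hp : ∀ k, 0 < cR (r (k0 + k)) := by
    intro k
    have h1 := hk0 (k0 + k) (by omega)
    have h2 : 0 < r (k0 + k) := hR0.trans_le h1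
    exact lt_of_lt_of_le (by positivity) (hB _ h1).1
  obtain ⟨P, hP⟩ : ∃ P : ℕ → ProbabilityMeasure (CI × ℝ), ∀ k, (P k : Measure (CI × ℝ)) = cl (r (k0 + k)) :=
    ⟨fun k => ⟨cl (r (k0 + k)), cl_prob (hp k)⟩, fun k => rfl⟩
  have ht : IsTightMeasureSet {((ρ : ProbabilityMeasure (CI × ℝ)) : Measure (CI × ℝ)) | ρ ∈ Set.range P} := by
    rw [isTightMeasureSet_iff_exists_isCompact_measure_compl_le]
    intro ε hε
    obtain ⟨K, R1, hK, hR1, h1⟩ := key ε hε
    obtain ⟨k1, hk1⟩ := eventually_atTop.1 (hr.eventually_ge_atTop R1)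
    -- the first ones are tight, too
    have h2 : ∀ j : ℕ, ∃ K' : Set (CI × ℝ), IsCompact K' ∧ ∀ k, k < j → (P k : Measure (CI × ℝ)) K'ᶜ ≤ ε := by
      intro j
      induction j with
      | zero => exact ⟨∅, isCompact_empty, fun k hk => absurd hk (by omega)⟩
      | succ j ih =>
        obtain ⟨K', hK', h3⟩ := ih
        have h4 : IsTightMeasureSet {((P j : ProbabilityMeasure (CI × ℝ)) : Measure (CI × ℝ))} :=
          isTightMeasureSet_singleton
        rw [isTightMeasureSet_iff_exists_isCompact_measure_compl_le] at h4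
        obtain ⟨K'', hK'', h5⟩ := h4 ε hε
        refine ⟨K' ∪ K'', hK'.union hK'', fun k hk => ?_⟩
        rcases Nat.lt_or_ge k j with h6 | h6
        · refine (measure_mono ?_).trans (h3 k h6)
          exact compl_subset_compl.2 subset_union_left
        · obtain rfl : k = j := by omega
          refine (measure_mono ?_).trans (h5 _ rfl)
          exact compl_subset_compl.2 subset_union_right
    obtain ⟨K', hK', h3⟩ := h2 k1
    refine ⟨K ∪ K', hK.union hK', ?_⟩
    rintro _ ⟨ρ, ⟨k, rfl⟩, rfl⟩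
    rcases Nat.lt_or_ge k k1 with h4 | h4
    · refine (measure_mono ?_).trans (h3 k h4)
      exact compl_subset_compl.2 subset_union_right
    · refine (measure_mono (compl_subset_compl.2 subset_union_left)).trans ?_
      rw [hP]
      exact h1 _ (hk1 _ (by omega))
  have hcc := isCompact_closure_of_isTightMeasureSet ht
  obtain ⟨ν, -, ψ, hψ, hlim⟩ := hcc.tendsto_subseq (x := P) (fun k => subset_closure ⟨k, rfl⟩)
  refine ⟨fun k => k0 + ψ k, fun a b hab => by
    have := hψ hab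
    show k0 + ψ a < k0 + ψ b
    omega, (ν : Measure (CI × ℝ)), inferInstance, fun f => ?_⟩
  rw [ProbabilityMeasure.tendsto_iff_forall_integral_tendsto] at hlim
  have h1 := hlim f
  refine h1.congr fun k => ?_
  show ∫ x, f x ∂((P (ψ k) : ProbabilityMeasure (CI × ℝ)) : Measure (CI × ℝ)) = _
  rw [hP]

end Tg

end Pool.Agent.CRT
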