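import Pool.Agent.NPR.Clk

/-!
# CRT (doc next/46f0ca_45, helper45): Q1 and the critical walks in balls: definitions and literals

Public objects of `NTS.Res`: `saw`, `pos`, `size`, `fug`, `law`, `LawTo`. `vb ρ γ u` : the clock of `NPR.Pc`.

`chi R V` : critical weight of the walks from 0 with all vertices in `R • V`. `cl R` : the critical walk in the ball of radius `R`
about its start, free end: the law of the curve `w / R` (time scaled to `[0, 1]`) together with `n / R ^ (4 / 3)`.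
-/

set_option autoImplicit false

open Set Filter Topology MeasureTheory
open scoped ENNReal

namespace Pool.Agent.CRT

open Pool.Agent.NTS.Res
open Pool.Agent.NPR

/-- curves -/
abbrev CI : Type := C(unitInterval, ℂ)

/-- critical weight of all the walks with `n` steps -/
noncomputable def aN (n : ℕ) : ℝ := ((saw n).card : ℝ) * fug ^ n

open Classical in
/-- critical weight of the walks from 0 with all vertices in `R • V` -/
noncomputable def chi (R : ℝ) (V : Set ℂ) : ℝ :=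
  ∑' n : ℕ, (((saw n).filter fun s => ∀ k : ℕ, k ≤ n → pos s k / R ∈ V).card : ℝ) * fug ^ n

/-- scaled curve -/
noncomputable def sc (c : ℝ) (γ : CI) : CI := (c : ℂ) • γ

/-- the curves that stay in the open ball of radius `R`, in lattice units -/
def inB (R : ℝ) (n : ℕ) : Set CI := {γ | ‖γ‖ * size n < R}

/-- weight of the walks with `n` steps in the ball `R` -/
noncomputable def wR (R : ℝ) (n : ℕ) : ℝ := aN n * (law n (inB R n)).toReal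

/-- weight of the walks in the ball `R` -/
noncomputable def cR (R : ℝ) : ℝ := ∑' n : ℕ, wR R n

/-- the critical walk in the ball `R`: curve divided by `R`, and number of steps divided by `R ^ (4 / 3)` -/
noncomputable def cl (R : ℝ) : Measure (CI × ℝ) := Measure.sum fun n : ℕ => ENNReal.ofReal (aN n / cR R) •
  (((law n).restrict (inB R n)).map fun γ => (sc (size n / R) γ, (n : ℝ) / R ^ (4 / 3 : ℝ)))

/-- `cl (r k)` converges weakly to `M` -/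
def ClTo (r : ℕ → ℝ) (M : Measure (CI × ℝ)) : Prop :=
  ∀ f : BoundedContinuousFunction (CI × ℝ) ℝ, Tendsto (fun k => ∫ x, f x ∂(cl (r k))) atTop (𝓝 (∫ x, f x ∂M))

/-! ### (B1), (B2) -/

/-- Q1 for the hexagonal lattice -/
def Q1 : Prop := ∃ ν : Measure CI, IsProbabilityMeasure ν ∧ LawTo (fun n => n) ν

/-- regular variation of the numbers of walks -/
def RVa : Prop := ∀ lam : ℝ, 0 < lam → Tendsto (fun n : ℕ => aN ⌊lam * n⌋₊ / aN n) atTop (𝓝 (lam ^ (11 / 32 : ℝ)))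

/-- ratios of critical susceptibilities -/
def RatC : Prop := ∀ F : Finset ℂ, F.Nonempty → ∀ᵐ t : ℝ, 0 < t → ∃ l : ℝ,
  Tendsto (fun R : ℝ => chi R (Metric.ball 0 1 ∩ Metric.thickening t (F : Set ℂ)) / chi R (Metric.ball 0 1)) atTop (𝓝 l)

/-! ### rows -/

/-- **K3**: one clock constant for all the numbers of steps in a range (from MainW). In lattice units
`size n * vb (ρ * R / size n)` is the integral of the number of pieces over the diameters in `[ρ R, 2 ρ R]`. -/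
def TK : Prop := ∀ ε dl Lam : ℝ, 0 < ε → 0 < dl → dl < Lam → ∃ ρ0 : ℝ, 0 < ρ0 ∧ ∀ ρ : ℝ, 0 < ρ → ρ ≤ ρ0 →
  ∃ R0 : ℝ, 0 < R0 ∧ ∀ R : ℝ, R0 ≤ R → ∃ ka : ℝ, 0 < ka ∧ ∀ n : ℕ, dl * R ^ (4 / 3 : ℝ) ≤ n → (n : ℝ) ≤ Lam * R ^ (4 / 3 : ℝ) →
    law n {γ | ε * n < |ka * (size n * vb (ρ * R / size n) γ 1) - n|} ≤ ENNReal.ofReal ε

/-- **K3'**: the clock of the walks, in a range of scales (from MainN) -/
def ClkU : Prop := ∀ ε : ℝ, 0 < ε → ∃ ρ0 : ℝ, 0 < ρ0 ∧ ∀ ρ1 : ℝ, 0 < ρ1 → ∃ n0 : ℕ, ∀ (ρ : ℝ) (n : ℕ), ρ1 ≤ ρ → ρ ≤ ρ0 → n0 ≤ n →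
  law n (Bd ρ ε) ≤ ENNReal.ofReal ε

/-- **K2**, M2: the mass -/
def MassB : Prop := ∃ c C R0 : ℝ, 0 < c ∧ 0 < R0 ∧ ∀ R : ℝ, R0 ≤ R → c * R ^ (43 / 24 : ℝ) ≤ cR R ∧ cR R ≤ C * R ^ (43 / 24 : ℝ)

/-- **K2**, M3: walks with many steps in a ball -/
def MassT : Prop := ∀ ε : ℝ, 0 < ε → ∃ Lam R0 : ℝ, 0 < Lam ∧ 0 < R0 ∧ ∀ R : ℝ, R0 ≤ R →
  ∑' n : ℕ, (if Lam * R ^ (4 / 3 : ℝ) < n then wR R n else 0) ≤ ε * R ^ (43 / 24 : ℝ)

/-- **K5a**: tightness of the critical walks -/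
def ClTight : Prop := ∀ r : ℕ → ℝ, Tendsto r atTop atTop → ∃ φ : ℕ → ℕ, StrictMono φ ∧ ∃ M : Measure (CI × ℝ),
  IsProbabilityMeasure M ∧ ClTo (fun k => r (φ k)) M

/-- **K5b**: the curves of the limits are good (simple, start at 0, good clock), one sequence of scales for all limits -/
def ClGood : Prop := ∃ ρ : ℕ → ℝ, (∀ j, 0 < ρ j) ∧ ∀ (r : ℕ → ℝ) (M : Measure (CI × ℝ)), Tendsto r atTop atTop →
  IsProbabilityMeasure M → ClTo r M → ∀ᵐ x ∂M, x.1 ∈ Gd ρ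

/-- **K5c**: the times of the limits: density with respect to `t ^ (11 / 32) dt` between constants, tail -/
def ClTime : Prop := (∃ c C t0 : ℝ, 0 < c ∧ 0 < C ∧ 0 < t0 ∧ ∀ (r : ℕ → ℝ) (M : Measure (CI × ℝ)), Tendsto r atTop atTop →
    IsProbabilityMeasure M → ClTo r M → (∀ᵐ x ∂M, 0 < x.2) ∧
      (∀ a b : ℝ, 0 < a → a < b → M {x | x.2 ∈ Icc a b} ≤ ENNReal.ofReal (C * b ^ (11 / 32 : ℝ) * (b - a))) ∧
      (∀ a b : ℝ, 0 < a → a < b → b ≤ t0 → ENNReal.ofReal (c * a ^ (11 / 32 : ℝ) * (b - a)) ≤ M {x | x.2 ∈ Ioo a b})) ∧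
  ∀ ε : ℝ, 0 < ε → ∃ T : ℝ, 0 < T ∧ ∀ (r : ℕ → ℝ) (M : Measure (CI × ℝ)), Tendsto r atTop atTop →
    IsProbabilityMeasure M → ClTo r M → M {x | T < x.2} ≤ ENNReal.ofReal ε

/-- **K5d**: in the limit the time is, up to constants, a function of the curve -/
def ClClk : Prop := ∃ ρ : ℕ → ℝ, (∀ j, 0 < ρ j) ∧ Tendsto ρ atTop (𝓝 0) ∧ ∀ (r : ℕ → ℝ) (M : Measure (CI × ℝ)),
  Tendsto r atTop atTop → IsProbabilityMeasure M → ClTo r M → ∃ κ : ℕ → ℝ, (∀ j, 0 < κ j) ∧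
    ∀ᵐ x ∂M, Tendsto (fun j => κ j * vb (ρ j) x.1 1) atTop (𝓝 x.2)

/-- **K6**: the walk with `n` steps is the critical walk in a large ball whose number of steps is in a short window;
for the functions with values in `[-1, 1]` and Lipschitz constant 1 -/
def WinN : Prop := ∀ ε : ℝ, 0 < ε → ∃ d0 : ℝ, 0 < d0 ∧ ∀ d : ℝ, 0 < d → d ≤ d0 → ∃ L0 : ℝ, 0 < L0 ∧ ∀ Lam : ℝ, L0 ≤ Lam →
  ∃ n0 : ℕ, ∀ n : ℕ, n0 ≤ n → ∀ f : CI → ℝ, LipschitzWith 1 f → (∀ γ, |f γ| ≤ 1) →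
    |∫ x, {x : CI × ℝ | (n : ℝ) / (Lam * size n) ^ (4 / 3 : ℝ) ≤ x.2 ∧ x.2 < (1 + d) * n / (Lam * size n) ^ (4 / 3 : ℝ)}.indicator
        (fun x => f (sc Lam x.1)) x ∂(cl (Lam * size n)) -
      (cl (Lam * size n) {x | (n : ℝ) / (Lam * size n) ^ (4 / 3 : ℝ) ≤ x.2 ∧
        x.2 < (1 + d) * n / (Lam * size n) ^ (4 / 3 : ℝ)}).toReal * ∫ γ, f γ ∂(law n)| ≤
    ε * (cl (Lam * size n) {x | (n : ℝ) / (Lam * size n) ^ (4 / 3 : ℝ) ≤ x.2 ∧
        x.2 < (1 + d) * n / (Lam * size n) ^ (4 / 3 : ℝ)}).toReal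

/-- **K6'**: the weight of a window -/
def WinA : Prop := ∀ ε : ℝ, 0 < ε → ∃ d0 : ℝ, 0 < d0 ∧ ∀ d : ℝ, 0 < d → d ≤ d0 → ∃ L0 : ℝ, 0 < L0 ∧ ∀ Lam : ℝ, L0 ≤ Lam →
  ∃ n0 : ℕ, ∀ n : ℕ, n0 ≤ n → ∀ R : ℝ, Lam * size n ≤ R →
    |cR R * (cl R {x | (n : ℝ) / R ^ (4 / 3 : ℝ) ≤ x.2 ∧ x.2 < (1 + d) * n / R ^ (4 / 3 : ℝ)}).toReal - d * n * aN n| ≤
      ε * (d * n * aN n)

/-- **K7**: restriction -/
def ClRes : Prop := ∀ (R lam : ℝ), 0 < R → 0 < lam → lam ≤ 1 →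
  ((cl R).restrict {x | ‖x.1‖ < lam}).map (fun x => (sc (1 / lam) x.1, x.2 / lam ^ (4 / 3 : ℝ))) =
    ENNReal.ofReal (cR (lam * R) / cR R) • cl (lam * R)

/-- **K1'**: the ratios are probabilities -/
def ChiCl : Prop := ∀ (R : ℝ) (V : Set ℂ), 0 < R → IsOpen V → V ⊆ Metric.ball 0 1 →
  (cl R {x | range x.1 ⊆ V}).toReal ≤ chi R V / chi R (Metric.ball 0 1) ∧
  ∀ t : ℝ, 1 / R ≤ t → chi R V / chi R (Metric.ball 0 1) ≤ (cl R {x | range x.1 ⊆ Metric.cthickening t V}).toReal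

/-- **K7'**: probability measures -/
def ClPr : Prop := ∀ R : ℝ, 0 < R → IsProbabilityMeasure (cl R) ∧ 0 < cR R ∧ (∀ᵐ x ∂(cl R), ‖x.1‖ < 1 ∧ x.1 0 = 0)

/-- **K9**: Q1 gives the regular variation of the size -/
def RegSz : Prop := Q1 → ∀ lam : ℝ, 0 < lam → Tendsto (fun n : ℕ => size ⌊lam * n⌋₊ / size n) atTop (𝓝 (lam ^ (3 / 4 : ℝ)))

/-- **K10**: from Q1 and the regular variation to the ratios -/
def ToRat : Prop := Q1 → RVa → RatC

/-- the limits of the critical walks: one measure up to the unit of time, invariant under restriction to smaller balls -/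
def ClLim (M : Measure (CI × ℝ)) : Prop := IsProbabilityMeasure M ∧
  (∀ r : ℕ → ℝ, Tendsto r atTop atTop → ∃ φ : ℕ → ℕ, StrictMono φ ∧ ∃ c : ℝ, 0 < c ∧
    ∀ σ : ℝ, 0 < σ → ClTo (fun k => σ * r (φ k)) (M.map fun x => (x.1, c * x.2))) ∧
  (∀ lam : ℝ, 0 < lam → lam < 1 → (M.restrict {x | ‖x.1‖ < lam}).map (fun x => (sc (1 / lam) x.1, x.2 / lam ^ (4 / 3 : ℝ))) =
    ENNReal.ofReal (lam ^ (43 / 24 : ℝ)) • M) ∧
  ∀ lam : ℝ, 0 < lam → Tendsto (fun R : ℝ => cR (lam * R) / cR R) atTop (𝓝 (lam ^ (43 / 24 : ℝ)))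

/-- **K8a**: from the ratios to the limit -/
def UniqM : Prop := RatC → ∃ M : Measure (CI × ℝ), ClLim M

/-- **K8f**: from the limit to Q1 (hypotheses of the theorem: WinN, ClTime) -/
def QOf : Prop := ∀ M : Measure (CI × ℝ), ClLim M → Q1

/-- **K8g**: from the limit to the regular variation (hypotheses of the theorem: WinA, ClTime) -/
def RvOf : Prop := ∀ M : Measure (CI × ℝ), ClLim M → RVa

/-- **K8**: from the ratios to Q1 and the regular variation -/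
def FromRat : Prop := RatC → Q1 ∧ RVa

end Pool.Agent.CRT
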