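import Pool.Agent.CRT.VDefs4
import Pool.Agent.NTS.Dict
import Pool.Agent.TOG.Defs
import Pool.Agent.EN.Third

/-!
# CRT, row 11A, V2c (helper84): the dictionary for the component in a fixed direction

For a word `t` the real part of the position of the walk `rot^r (sw n t)` is half of the level number `dl r`; the probability of an
event `B` of the walks is at most the sum over `r < 3` of the probabilities of `B ∘ rot^r` on words (no symmetry of `B` is assumed);
a cut (VDefs) from its levels.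
-/

set_option autoImplicit false

namespace Pool.Agent.CRT.V

namespace Dic

open Finset

open HexObs hiding pos sw

open Pool.Agent.NTS.Res

open NTSF (rot om pos_rot rot_mem)

open NTF (sw JJ)

/-- the level of the word which is the real part after `r` rotations -/
def dl (r : Fin 3) : Fin 3 := if r = 0 then 0 else if r = 1 then 2 else 1

lemma om_eq : NTSF.om = ⟨-(1 / 2), Real.sqrt 3 / 2⟩ := by
  have h : 2 * Real.pi / 3 = Real.pi - Real.pi / 3 := by ring
  unfold NTSF.om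
  rw [show 2 * (Real.pi : ℂ) * Complex.I / 3 = ((2 * Real.pi / 3 : ℝ) : ℂ) * Complex.I by
    push_cast
    ring, Complex.exp_mul_I, ← Complex.ofReal_cos, ← Complex.ofReal_sin, h, Real.cos_pi_sub, Real.sin_pi_sub,
    Real.cos_pi_div_three, Real.sin_pi_div_three]
  apply Complex.ext
  · simp
  · simp

lemma om_re (z : ℂ) : (NTSF.om * z).re = -(1 / 2) * z.re - Real.sqrt 3 / 2 * z.im := by
  rw [om_eq, Complex.mul_re]

lemma om_im (z : ℂ) : (NTSF.om * z).im = -(1 / 2) * z.im + Real.sqrt 3 / 2 * z.re := by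
  rw [om_eq, Complex.mul_im]

/-- the three real parts -/
lemma re_JJ (r : Fin 3) (v : Pt) : (NTSF.om ^ (r : ℕ) * JJ v).re = ((EN.lv3 (dl r) v : ℤ) : ℝ) / 2 := by
  have h3 : Real.sqrt 3 * Real.sqrt 3 = 3 := Real.mul_self_sqrt (by norm_num)
  have e0 : ((EN.lv3 0 v : ℤ) : ℝ) = (v.1 : ℝ) + 2 * v.2 := by
    rw [EN.lv3_zero]
    simp only [SDN.lvl, SDN.hd, ip, up, Bool.false_eq_true, if_false]
    push_cast
    ring
  have e1 : ((EN.lv3 1 v : ℤ) : ℝ) = -2 * (v.1 : ℝ) - v.2 := by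
    rw [EN.lv3_one]
    simp only [SDN.lvl, SDN.hd, ip, if_true]
    push_cast
    ring
  have e2 : ((EN.lv3 2 v : ℤ) : ℝ) = (v.1 : ℝ) - v.2 := by
    have := EN.lv3_sum v
    have h : ((EN.lv3 0 v : ℤ) : ℝ) + ((EN.lv3 1 v : ℤ) : ℝ) + ((EN.lv3 2 v : ℤ) : ℝ) = 0 := by exact_mod_cast this
    linarith
  have hr : r = 0 ∨ r = 1 ∨ r = 2 := by
    fin_cases r
    · exact Or.inl rfl
    · exact Or.inr (Or.inl rfl)
    · exact Or.inr (Or.inr rfl)
  rcases hr with rfl | rfl | rfl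
  · show (NTSF.om ^ 0 * JJ v).re = ((EN.lv3 0 v : ℤ) : ℝ) / 2
    rw [pow_zero, one_mul, e0, NTF.JJ_re]
    ring
  · show (NTSF.om ^ 1 * JJ v).re = ((EN.lv3 2 v : ℤ) : ℝ) / 2
    rw [pow_one, om_re, e2, NTF.JJ_re, NTF.JJ_im]
    linear_combination (v.1 : ℝ) / 4 * h3
  · show (NTSF.om ^ 2 * JJ v).re = ((EN.lv3 1 v : ℤ) : ℝ) / 2
    rw [pow_two, mul_assoc, om_re, om_re, om_im, e1, NTF.JJ_re, NTF.JJ_im]
    linear_combination (-(v.1 : ℝ) / 8 - (v.1 : ℝ) / 8 - ((v.1 : ℝ) / 2 + v.2) / 4) * h3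

lemma pos_rots {n : ℕ} (s : Fin n → Fin 3) (r k : ℕ) : pos (rot^[r] s) k = NTSF.om ^ r * pos s k := by
  induction r with
  | zero => rw [Function.iterate_zero, id_eq, pow_zero, one_mul]
  | succ r ih => rw [Function.iterate_succ_apply', pos_rot, ih, pow_succ]; ring

/-- **the real part after `r` rotations is half of the level number `dl r`** -/
theorem re_rots (n : ℕ) (t : List Bool) (r : Fin 3) {k : ℕ} (hk : k ≤ n) :
    (pos (rot^[(r : ℕ)] (sw n t)) k).re = ((EN.lv3 (dl r) (vx oo up t k) : ℤ) : ℝ) / 2 := by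
  rw [pos_rots, NTSF.pos_sw n t k hk, re_JJ]

open Classical in
/-- **the probability of an event of the walks is at most the sum of three probabilities on words** -/
theorem pn_le3 {n : ℕ} (hn : 0 < n) (B : (Fin n → Fin 3) → Prop) :
    (((saw n).filter B).card : ℝ) / ((saw n).card : ℝ) ≤ ∑ r : Fin 3, TOG.Pn n {t | B (rot^[(r : ℕ)] (sw n t))} := by
  obtain ⟨P, hP⟩ : ∃ P : (Fin n → Fin 3) → Prop, P = fun s => B s ∨ B (rot s) ∨ B (rot (rot s)) := ⟨_, rfl⟩
  have e3 : ∀ s : Fin n → Fin 3, rot (rot (rot s)) = s := by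
    intro s
    funext i
    show s i + 1 + 1 + 1 = s i
    have : ∀ a : Fin 3, a + 1 + 1 + 1 = a := by decide
    exact this _
  have hPr : ∀ s, P (rot s) ↔ P s := by
    intro s
    rw [hP]
    show (B (rot s) ∨ B (rot (rot s)) ∨ B (rot (rot (rot s)))) ↔ (B s ∨ B (rot s) ∨ B (rot (rot s)))
    rw [e3]
    tauto
  have h1 := NTSF.card_saw hn P hPr
  have h2 : 2 * (saw n).card = 3 * (SawN n).ncard := by
    have := NTSF.card_saw hn (fun _ => True) (fun _ => Iff.rfl)
    rw [Finset.filter_true_of_mem (fun _ _ => trivial)] at this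
    rw [this]
    congr 2
    ext t
    exact ⟨fun h => h.1, fun h => ⟨h, trivial⟩⟩
  have h3 : ((saw n).filter B).card ≤ ((saw n).filter P).card := by
    refine card_le_card fun s hs => ?_
    rw [Finset.mem_filter] at hs ⊢
    refine ⟨hs.1, ?_⟩
    rw [hP]
    exact Or.inl hs.2
  have h4 : {t | t ∈ SawN n ∧ P (sw n t)}.ncard ≤ ∑ r : Fin 3, {t | t ∈ SawN n ∧ t ∈ {t | B (rot^[(r : ℕ)] (sw n t))}}.ncard := by
    have hfin : ∀ r : Fin 3, {t | t ∈ SawN n ∧ t ∈ {t | B (rot^[(r : ℕ)] (sw n t))}}.Finite := fun r =>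
      (PHWDict.SawN_fin n).subset fun _ h => h.1
    have h5 : {t | t ∈ SawN n ∧ P (sw n t)} ⊆ {t | t ∈ SawN n ∧ t ∈ {t | B (rot^[((0 : Fin 3) : ℕ)] (sw n t))}} ∪
        ({t | t ∈ SawN n ∧ t ∈ {t | B (rot^[((1 : Fin 3) : ℕ)] (sw n t))}} ∪
        {t | t ∈ SawN n ∧ t ∈ {t | B (rot^[((2 : Fin 3) : ℕ)] (sw n t))}}) := by
      rintro t ⟨ht, hPt⟩
      rw [hP] at hPt
      rcases hPt with h | h | h
      · exact Or.inl ⟨ht, h⟩
      · exact Or.inr (Or.inl ⟨ht, h⟩)
      · exact Or.inr (Or.inr ⟨ht, h⟩)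
    refine (Set.ncard_le_ncard h5 ((hfin 0).union ((hfin 1).union (hfin 2)))).trans ?_
    refine (Set.ncard_union_le _ _).trans ?_
    rw [Fin.sum_univ_three, add_assoc]
    exact Nat.add_le_add_left (Set.ncard_union_le _ _) _
  have h6 : (0 : ℝ) < ((saw n).card : ℝ) := NTSF.saw_card_pos _
  have h7 : (0 : ℝ) < ((SawN n).ncard : ℝ) := by
    have : (2 : ℝ) * ((saw n).card : ℝ) = 3 * ((SawN n).ncard : ℝ) := by exact_mod_cast h2
    linarith
  have e1 : (2 : ℝ) * (((saw n).filter P).card : ℝ) = 3 * ({t | t ∈ SawN n ∧ P (sw n t)}.ncard : ℝ) := by exact_mod_cast h1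
  have e2 : (2 : ℝ) * ((saw n).card : ℝ) = 3 * ((SawN n).ncard : ℝ) := by exact_mod_cast h2
  have e4 : (((saw n).filter B).card : ℝ) ≤ (((saw n).filter P).card : ℝ) := by exact_mod_cast h3
  have e5 : ({t | t ∈ SawN n ∧ P (sw n t)}.ncard : ℝ) ≤
      ∑ r : Fin 3, ({t | t ∈ SawN n ∧ t ∈ {t | B (rot^[(r : ℕ)] (sw n t))}}.ncard : ℝ) := by exact_mod_cast h4
  unfold TOG.Pn
  rw [← Finset.sum_div]
  have e6 : ((cS n : ℕ) : ℝ) = ((SawN n).ncard : ℝ) := rfl
  rw [e6, div_le_div_iff₀ h6 h7]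
  have e7 : ((SawN n).ncard : ℝ) = 2 / 3 * ((saw n).card : ℝ) := by linarith
  rw [e7]
  have e8 : (((saw n).filter P).card : ℝ) = 3 / 2 * ({t | t ∈ SawN n ∧ P (sw n t)}.ncard : ℝ) := by linarith
  nlinarith [h6.le]

/-- **the mean over n** -/
theorem msum_le3 (B : ∀ n : ℕ, (Fin n → Fin 3) → Prop) {x1 x2 : ℝ} (hx : 0 < x1) {N : ℕ} (hN : 0 < N) :
    msum B x1 x2 N ≤ ∑ r : Fin 3, ∑ n ∈ (Finset.range (⌊x2 * N⌋₊ + 1)).filter (fun n : ℕ => x1 * N ≤ n),
      TOG.Pn n {t | B n (rot^[(r : ℕ)] (sw n t))} := by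
  classical
  unfold msum
  rw [Finset.sum_comm]
  refine Finset.sum_le_sum fun n hn => ?_
  have hn1 := (Finset.mem_filter.1 hn).2
  have hN0 : (0 : ℝ) < N := by exact_mod_cast hN
  have hn0 : 0 < n := by
    have : (0 : ℝ) < n := lt_of_lt_of_le (mul_pos hx hN0) hn1
    exact_mod_cast this
  convert pn_le3 hn0 (B n)

/-! ### Levels and cuts -/

lemma norm_step (i : ℕ) (a : Fin 3) : ‖step i a‖ = 1 := by
  unfold step
  rw [norm_mul, norm_pow, norm_neg, norm_one, one_pow, one_mul]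
  rw [show 2 * (Real.pi : ℂ) * Complex.I * ((a : ℕ) : ℂ) / 3 = ((2 * Real.pi * (a : ℕ) / 3 : ℝ) : ℂ) * Complex.I by
    push_cast
    ring]
  exact Complex.norm_exp_ofReal_mul_I _

/-- the real parts of the steps -/
lemma step_re (i : ℕ) (a : Fin 3) : (step i a).re = (if Even i then (1 : ℝ) else -1) * (if a = 0 then 1 else -(1 / 2)) := by
  have h0 : ∀ i : ℕ, step i 0 = if Even i then 1 else -1 := by
    intro i
    unfold step
    rcases Nat.even_or_odd i with h | h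
    · rw [h.neg_one_pow, if_pos h]
      simp
    · rw [h.neg_one_pow, if_neg (Nat.not_even_iff_odd.2 h)]
      simp
  have e : ∀ z : ℂ, z = (if Even i then 1 else -1) → (NTSF.om * z).re = (if Even i then (1 : ℝ) else -1) * (-(1 / 2)) ∧
      (NTSF.om * (NTSF.om * z)).re = (if Even i then (1 : ℝ) else -1) * (-(1 / 2)) := by
    intro z hz
    have h3 : Real.sqrt 3 * Real.sqrt 3 = 3 := Real.mul_self_sqrt (by norm_num)
    rw [om_re, om_re, om_re, om_im, hz]
    split_ifs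
    · refine ⟨by simp, ?_⟩
      simp only [Complex.one_re, Complex.one_im]
      linear_combination (-(1 / 4) : ℝ) * h3
    · refine ⟨by simp, ?_⟩
      simp only [Complex.neg_re, Complex.neg_im, Complex.one_re, Complex.one_im]
      linear_combination (1 / 4 : ℝ) * h3
  have ha : a = 0 ∨ a = 0 + 1 ∨ a = 0 + 1 + 1 := by
    revert a
    decide
  rcases ha with rfl | rfl | rfl
  · rw [h0 i, if_pos rfl, mul_one]
    split_ifs <;> simp
  · have h : ¬ ((0 : Fin 3) + 1 = 0) := by decide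
    rw [NTSF.step_rot, (e _ (h0 i)).1, if_neg h]
  · have h : ¬ ((0 : Fin 3) + 1 + 1 = 0) := by decide
    rw [NTSF.step_rot, NTSF.step_rot, (e _ (h0 i)).2, if_neg h]

/-- the levels: twice the real part is an integer, 0 modulo 3 at the even times and 2 modulo 3 at the odd times -/
theorem two_re {n : ℕ} (s : Fin n → Fin 3) {k : ℕ} (hk : k ≤ n) :
    ∃ m : ℤ, 2 * (pos s k).re = 3 * m + (if Even k then 0 else 2) := by
  induction k with
  | zero =>
    refine ⟨0, ?_⟩
    unfold pos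
    simp
  | succ k ih =>
    obtain ⟨m, hm⟩ := ih (by omega)
    rw [NTSF.pos_succ s k (by omega), Complex.add_re, step_re, mul_add, hm]
    rcases Nat.even_or_odd k with h | h
    · have h' : ¬ Even (k + 1) := by
        rw [Nat.even_add_one]
        exact fun h' => h' h
      rw [if_pos h, if_pos h, if_neg h']
      by_cases ha : s ⟨k, by omega⟩ = 0
      · exact ⟨m, by rw [if_pos ha]; ring⟩
      · exact ⟨m - 1, by rw [if_neg ha]; push_cast; ring⟩
    · have h1 : ¬ Even k := Nat.not_even_iff_odd.2 h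
      have h' : Even (k + 1) := h.add_one
      rw [if_neg h1, if_neg h1, if_pos h']
      by_cases ha : s ⟨k, by omega⟩ = 0
      · exact ⟨m, by rw [if_pos ha]; ring⟩
      · exact ⟨m + 1, by rw [if_neg ha]; push_cast; ring⟩

/-- **a cut from the real parts** -/
theorem cut_of {n : ℕ} {s : Fin n → Fin 3} {k : ℕ} (hk : k < n) (h1 : (pos s (k + 1)).re = (pos s k).re + 1)
    (h2 : ∀ i : ℕ, i ≤ k → (pos s i).re ≤ (pos s k).re) (h3 : ∀ i : ℕ, k < i → i ≤ n → (pos s k).re < (pos s i).re) :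
    Cut s k := by
  have hst : pos s (k + 1) = pos s k + step k (s ⟨k, hk⟩) := NTSF.pos_succ s k hk
  have e1 : (step k (s ⟨k, hk⟩)).re = 1 := by
    rw [hst, Complex.add_re] at h1
    linarith
  have hs1 : step k (s ⟨k, hk⟩) = 1 := by
    have h4 := norm_step k (s ⟨k, hk⟩)
    have h5 : (step k (s ⟨k, hk⟩)).im = 0 := by
      have h6 : ‖step k (s ⟨k, hk⟩)‖ ^ 2 = 1 := by rw [h4, one_pow]
      rw [Complex.sq_norm, Complex.normSq_apply, e1] at h6
      have h7 : (step k (s ⟨k, hk⟩)).im * (step k (s ⟨k, hk⟩)).im = 0 := by linarith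
      exact mul_self_eq_zero.1 h7
    exact Complex.ext e1 h5
  have hev : Even k := by
    by_contra hne
    rw [step_re, if_neg hne] at e1
    split_ifs at e1 <;> norm_num at e1
  refine ⟨hk, hev, by rw [hst, hs1], h2, fun j hj hjn => ?_⟩
  obtain ⟨m, hm⟩ := two_re s hk.le
  obtain ⟨m', hm'⟩ := two_re s hjn
  rw [if_pos hev, add_zero] at hm
  have h6 := h3 j hj hjn
  rw [h1]
  split_ifs at hm' with hj2
  · rw [add_zero] at hm'
    have h7 : (m : ℝ) < m' := by linarith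
    have h8 : m + 1 ≤ m' := by exact_mod_cast h7
    have h9 : (m : ℝ) + 1 ≤ m' := by exact_mod_cast h8
    linarith
  · have h7 : (m : ℝ) < m' + 1 := by linarith
    have h8 : m < m' + 1 := by exact_mod_cast h7
    have h9 : (m : ℝ) ≤ m' := by exact_mod_cast (Int.lt_add_one_iff.1 h8)
    linarith

/-- **a cut from the levels of the word** -/
theorem cut_of_lv {n : ℕ} {t : List Bool} (r : Fin 3) {k : ℕ} (hk : k < n)
    (h1 : EN.lv3 (dl r) (vx oo up t (k + 1)) = EN.lv3 (dl r) (vx oo up t k) + 2)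
    (h2 : ∀ i : ℕ, i ≤ k → EN.lv3 (dl r) (vx oo up t i) ≤ EN.lv3 (dl r) (vx oo up t k))
    (h3 : ∀ i : ℕ, k < i → i ≤ n → EN.lv3 (dl r) (vx oo up t k) < EN.lv3 (dl r) (vx oo up t i)) :
    Cut (rot^[(r : ℕ)] (sw n t)) k := by
  refine cut_of hk ?_ (fun i hi => ?_) fun i hi hin => ?_
  · rw [re_rots n t r (by omega), re_rots n t r hk.le, h1]
    push_cast
    ring
  · rw [re_rots n t r (by omega), re_rots n t r hk.le]
    have : ((EN.lv3 (dl r) (vx oo up t i) : ℤ) : ℝ) ≤ ((EN.lv3 (dl r) (vx oo up t k) : ℤ) : ℝ) := by exact_mod_cast h2 i hi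
    linarith
  · rw [re_rots n t r hin, re_rots n t r hk.le]
    have : ((EN.lv3 (dl r) (vx oo up t k) : ℤ) : ℝ) < ((EN.lv3 (dl r) (vx oo up t i) : ℤ) : ℝ) := by exact_mod_cast h3 i hi hin
    linarith

end Dic

end Pool.Agent.CRT.V
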