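import Pool.Agent.NTA.RunDir
import Pool.Agent.EN.Third

/-!
# CRT, row 11A (helper42): events in a direction that is not the direction of the first step

* **`dir3_le`**: the mass of the words `t` of the box in the event `Q`, which is an event of the levels `lv3 d` of the words, is at
  most a constant times the mass of the words `t2` in `P`, if `P` contains all words `t2` with the levels `c + σ * lev t2` which
  are the levels of the rest of a word `t` of `Q` behind a beginning with levels at most `1`.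
-/

set_option autoImplicit false

namespace HexObs

namespace CRT

open Finset TS SDN NTW NTA

open EN (lv3 mw lvl_mw lvl_wd mw_WL gf_mw_le mw_mw mw_length)

open scoped ENNReal

/-- the second direction -/
lemma dirT_le (K : ℕ) (Q P : Set (List Bool))
    (hbig : ∀ t ∈ Q, ∃ i, i ≤ t.length ∧ 2 ≤ |lvl true (vx oo up t i)|)
    (h : ∀ t ∈ WL K, t ∈ Q → ∀ (q : ℕ) (t2 : List Bool) (σ c : ℤ), (σ = 1 ∨ σ = -1) → q + t2.length = t.length →
      t2 ∈ WL (K + 3) → (∀ j, j ≤ t2.length → lvl true (vx oo up t (q + j)) = c + σ * lev t2 j) →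
      (∀ i, i ≤ q → |lvl true (vx oo up t i)| ≤ 1) → t2 ∈ P) :
    gf {t | t ∈ WL K ∧ t ∈ Q} ≤ ENNReal.ofReal DirA.CD * gf {t | t ∈ WL (K + 3) ∧ t ∈ P} := by
  classical
  refine (gf_mono ?_).trans (DirA.gf_zz _)
  rintro t ⟨ht, htQ⟩
  have hz : ∀ n : ℕ, (∀ i, i < n → ¬ DirA.vert (dx up t i)) → ∀ i, i ≤ n → |lvl true (vx oo up t i)| ≤ 1 := by
    intro n hn i hi
    rw [DirA.zz_lvl hn i hi]
    split_ifs <;> norm_num
  have hex : ∃ q, q ≤ t.length ∧ DirA.vert (dx up t q) := by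
    by_contra hc
    push Not at hc
    obtain ⟨i, hi, hi2⟩ := hbig t htQ
    have := hz t.length (fun i hi => hc i hi.le) i hi
    omega
  obtain ⟨hq, hv⟩ := Nat.find_spec hex
  have hmin : ∀ i, i < Nat.find hex → ¬ DirA.vert (dx up t i) := fun i hi h => Nat.find_min hex hi ⟨by omega, h⟩
  set q := Nat.find hex
  have hWd := RD.drop_WL ht hq hv
  obtain ⟨σ, hσ, h1, h2, h3⟩ := RD.drop_dir hq hv
  refine ⟨q, t.drop q, ⟨hWd, ?_⟩, by rw [← DirA.take_eq hq hmin hv, List.take_append_drop]⟩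
  exact h t ht htQ q (t.drop q) σ _ hσ (by rw [List.length_drop]; omega) hWd (fun j _ => h1 j) (hz q hmin)

/-- **the three directions** -/
theorem dir3_le (d : Fin 3) (K : ℕ) (Q P : Set (List Bool))
    (hbig : ∀ t ∈ Q, ∃ i, i ≤ t.length ∧ 2 ≤ |lv3 d (vx oo up t i)|)
    (h : ∀ t ∈ WL K, t ∈ Q → ∀ (q : ℕ) (t2 : List Bool) (σ c : ℤ), (σ = 1 ∨ σ = -1) → q + t2.length = t.length →
      t2 ∈ WL (K + 5) → (∀ j, j ≤ t2.length → lv3 d (vx oo up t (q + j)) = c + σ * lev t2 j) →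
      (∀ i, i ≤ q → |lv3 d (vx oo up t i)| ≤ 1) → t2 ∈ P) :
    gf {t | t ∈ WL K ∧ t ∈ Q} ≤ ENNReal.ofReal DirA.CD * gf {t | t ∈ WL (K + 5) ∧ t ∈ P} := by
  have hd : d = 0 ∨ d = 1 ∨ d = 2 := by
    fin_cases d
    · exact Or.inl rfl
    · exact Or.inr (Or.inl rfl)
    · exact Or.inr (Or.inr rfl)
  rcases hd with rfl | rfl | rfl
  · refine le_trans (gf_mono ?_) (le_trans (le_of_eq (one_mul _).symm) (mul_le_mul_left (ENNReal.one_le_ofReal.2 DirA.CD_ge) _))
    rintro t ⟨ht, htQ⟩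
    have ht5 : t ∈ WL (K + 5) := SDN.WL_mono (by omega) ht
    refine ⟨ht5, h t ht htQ 0 t 1 0 (Or.inl rfl) (by omega) ht5 (fun j _ => ?_) (fun i hi => ?_)⟩
    · rw [Nat.zero_add, zero_add, one_mul]
      rfl
    · rw [Nat.le_zero.1 hi]
      have : lv3 0 (vx oo up t 0) = 0 := by
        show lvl false oo = 0
        decide
      rw [this]
      norm_num
  · refine (dirT_le K Q P hbig fun t ht htQ q t2 σ c hσ hl h2 h3 h4 =>
      h t ht htQ q t2 σ c hσ hl (SDN.WL_mono (by omega) h2) h3 h4).trans (mul_le_mul_right (gf_mono ?_) _)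
    rintro t ⟨h1, h2⟩
    exact ⟨SDN.WL_mono (by omega) h1, h2⟩
  · have e1 : gf {t | t ∈ WL K ∧ t ∈ Q} ≤ gf {t | t ∈ WL (K + 2) ∧ t ∈ {t | mw t ∈ WL K ∧ mw t ∈ Q}} := by
      refine gf_mw_le ?_
      rintro t ⟨h1, h2⟩
      exact ⟨mw_WL h1, by rwa [mw_mw], by rwa [mw_mw]⟩
    have hl2 : ∀ (t : List Bool) (i : ℕ), i ≤ t.length + 1 → lvl true (vx oo up t i) = lv3 2 (vx oo up (mw t) i) := by
      intro t i hi
      have := lvl_wd 2 (mw t) (i := i) (by rw [mw_length]; exact hi)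
      rw [← this]
      show lvl true (vx oo up t i) = lvl true (vx oo up (mw (mw t)) i)
      rw [mw_mw]
    refine e1.trans ((dirT_le (K + 2) _ P ?_ ?_).trans (le_of_eq ?_))
    · rintro t ⟨-, htQ⟩
      obtain ⟨i, hi, hi2⟩ := hbig (mw t) htQ
      rw [mw_length] at hi
      refine ⟨i, hi, ?_⟩
      rwa [hl2 t i (by omega)]
    · rintro t - ⟨ht, htQ⟩ q t2 σ c hσ hl h2 h3 h4
      refine h (mw t) ht htQ q t2 σ c hσ (by rw [mw_length]; exact hl) (SDN.WL_mono (by omega) h2) (fun j hj => ?_)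
        (fun i hi => ?_)
      · rw [← hl2 t (q + j) (by omega)]
        exact h3 j hj
      · rw [← hl2 t i (by omega)]
        exact h4 i hi
    · rfl

end CRT

end HexObs
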