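import Pool.Agent.NTA.RunX
import Pool.Agent.NTA.TailDefs
import Pool.Agent.BAR.HCut

/-!
CRT, row 11A, VPerf: half plane words without a cut at the heights 1, ..., 2 ^ e, in the strip of height 2 ^ K.
-/

set_option autoImplicit false

namespace HexObs

namespace VP

open Finset TS SDN NTW NTA BAR

open scoped ENNReal

/-- **half plane words whose first gap is larger than 2 ^ e** -/
theorem gapX : ∃ C : ℝ, 1 ≤ C ∧ ∀ e K : ℕ, e ≤ K →
    gf (NC (2 ^ e) (2 ^ K)) ≤ ENNReal.ofReal (C * 2 ^ (K - e)) * Xb K := by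
  obtain ⟨D, hD, hDX⟩ := Xb_pow
  refine ⟨4 * D, by linarith, fun e K he => ?_⟩
  have hU := Ub_pos e
  have h1 := NC_le (k := 2 ^ e) (d := 2 ^ K) (Nat.pow_le_pow_right (by norm_num) he)
  have h2 : 2 * 2 ^ K = 2 ^ (K + 1) := by rw [pow_succ]; ring
  rw [h2] at h1
  have h3 := HH_le_Xb (i := K + 1) (L := K + 1) le_rfl
  have h4 := hDX K 1
  rw [pow_one] at h4
  have h5 : UU (2 ^ (K + 1)) ≤ 2 * 2 ^ (K - e) * Ub e := by
    have h6 := Ub_add e (K + 1 - e)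
    rw [show e + (K + 1 - e) = K + 1 by omega, show K + 1 - e = (K - e) + 1 by omega, pow_succ] at h6
    have h7 : Ub (K + 1) = UU (2 ^ (K + 1)) := rfl
    rw [h7] at h6
    linarith
  have e1 : UU (2 ^ e) = Ub e := rfl
  rw [e1] at h1
  calc gf (NC (2 ^ e) (2 ^ K)) ≤ ENNReal.ofReal (2 / Ub e) * HH (2 ^ (K + 1)) := h1
    _ ≤ ENNReal.ofReal (2 / Ub e) * (ENNReal.ofReal (UU (2 ^ (K + 1))) * (ENNReal.ofReal D * Xb K)) :=
        mul_le_mul_right (h3.trans (mul_le_mul_right h4 _)) _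
    _ = ENNReal.ofReal (2 / Ub e * (UU (2 ^ (K + 1)) * D)) * Xb K := by
        have hU2 : 0 ≤ UU (2 ^ (K + 1)) := (Num2Aux.UU_pos _).le
        rw [ENNReal.ofReal_mul (by positivity), ENNReal.ofReal_mul hU2]
        ring
    _ ≤ ENNReal.ofReal (4 * D * 2 ^ (K - e)) * Xb K := by
        refine mul_le_mul_left (ENNReal.ofReal_le_ofReal ?_) _
        have hD0 : 0 < D := by linarith
        calc 2 / Ub e * (UU (2 ^ (K + 1)) * D) ≤ 2 / Ub e * ((2 * 2 ^ (K - e) * Ub e) * D) := by gcongr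
          _ = _ := by
            field_simp
            ring

/-- the same for the words without a decomposition at the heights 1, ..., 2 ^ e (any word behind) -/
theorem gapX' : ∃ C : ℝ, 1 ≤ C ∧ ∀ e K : ℕ, e ≤ K →
    gf {v | v ∈ SSt (2 ^ K) ∧ ∀ (c : ℕ) (b v' : List Bool), 1 ≤ c → c ≤ 2 ^ e → b ∈ Brd c → Pos v' → v ≠ b ++ v'} ≤
      ENNReal.ofReal (C * 2 ^ (K - e)) * Xb K := by
  obtain ⟨C, hC, h⟩ := gapX
  refine ⟨C, hC, fun e K he => (gf_mono ?_).trans (h e K he)⟩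
  rintro v ⟨h1, h2⟩
  refine ⟨h1, ?_⟩
  rintro j hj hj2 ⟨c, s, hc, hs, e1⟩
  exact h2 j c s hj hj2 hc hs e1

/-- the same for half plane words with positive levels, at most 3 * 2 ^ K -/
theorem gapX_lev : ∃ C : ℝ, 1 ≤ C ∧ ∀ e K : ℕ, e ≤ K →
    gf {v | (∃ n, v ∈ HpN n) ∧ (∀ i, i ≤ v.length → lev v i ≤ 3 * 2 ^ K) ∧
      ∀ (c : ℕ) (b v' : List Bool), 1 ≤ c → c ≤ 2 ^ e → b ∈ Brd c → Pos v' → v ≠ b ++ v'} ≤
      ENNReal.ofReal (C * 2 ^ (K - e)) * Xb K := by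
  obtain ⟨C, hC, h⟩ := gapX'
  refine ⟨C, hC, fun e K he => (gf_mono ?_).trans (h e K he)⟩
  rintro v ⟨⟨n, h0, h0'⟩, h1, h2⟩
  refine ⟨⟨fun i hi hil => ?_, h0'.inj⟩, h2⟩
  rw [mem_St]
  have a1 : 0 < lev v i := h0'.mem i hi hil
  have a2 := h1 i hil
  refine ⟨a1, ?_⟩
  push_cast
  linarith

end VP

end HexObs
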