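import Pool.Agent.CRT.Defs
import Pool.Agent.CRT.Weak
import Pool.Agent.NPR.PubF

/-!
# CRT, K8a (helper45), step 1: all the limits of the critical walks in balls have the same law of the curve
-/

set_option autoImplicit false

open Set Filter Topology MeasureTheory
open scoped ENNReal

namespace Pool.Agent.CRT

open Pool.Agent.NTS.Res
open Pool.Agent.NPR
open Pool.Agent.NPR.Incl (hF hF_lt hF_cont hF_eq)

lemma ClTo.shift {r : ℕ → ℝ} {M : Measure (CI × ℝ)} (hr : Tendsto r atTop atTop) (h : ClTo r M) (B : ℝ) :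
    ∃ N : ℕ, (∀ k, B < r (k + N)) ∧ Tendsto (fun k => r (k + N)) atTop atTop ∧ ClTo (fun k => r (k + N)) M := by
  obtain ⟨N, hN⟩ := eventually_atTop.1 (hr.eventually_gt_atTop B)
  refine ⟨N, fun k => hN _ (Nat.le_add_left _ _), hr.comp (tendsto_add_atTop_nat N), fun f => ?_⟩
  exact (h f).comp (tendsto_add_atTop_nat N)

/-- the open set of the ratios -/
def VF (F : Finset ℂ) (t : ℝ) : Set ℂ := Metric.ball 0 1 ∩ Metric.thickening t (F : Set ℂ)

lemma cl_lt (hP : ClPr) {R : ℝ} (hR : 0 < R) {F : Finset ℂ} {t : ℝ} (ht : 0 < t) (hF0 : F.Nonempty) :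
    cl R {x | hF F x.1 < t} = cl R {x | range x.1 ⊆ VF F t} := by
  refine measure_congr ?_
  filter_upwards [(hP R hR).2.2] with x hx
  refine propext ?_
  show hF F x.1 < t ↔ range x.1 ⊆ VF F t
  rw [hF_lt ht hF0, VF, subset_inter_iff]
  refine ⟨fun h => ⟨?_, h⟩, fun h => h.2⟩
  rintro _ ⟨u, rfl⟩
  rw [mem_ball_zero_iff]
  exact (x.1.norm_coe_le_norm u).trans_lt hx.1

lemma le_hF {F : Finset ℂ} {t s : ℝ} (ht : 0 < t) (hs : 0 ≤ s) {γ : CI}
    (h : range γ ⊆ Metric.cthickening s (VF F t)) : hF F γ ≤ t + s := by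
  rw [hF_eq, ContinuousMap.norm_le _ (by positivity)]
  intro u
  have h1 : γ u ∈ Metric.cthickening (s + t) (F : Set ℂ) := by
    refine Metric.cthickening_thickening_subset hs t _ ?_
    exact Metric.cthickening_subset_of_subset s inter_subset_right (h ⟨u, rfl⟩)
  have h2 : Metric.infDist (γ u) (F : Set ℂ) ≤ s + t := by
    rw [Metric.mem_cthickening_iff] at h1
    exact ENNReal.toReal_le_of_le_ofReal (by positivity) h1
  have h3 : ‖(Incl.dF F γ) u‖ = Metric.infDist (γ u) (F : Set ℂ) := by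
    rw [Real.norm_eq_abs]
    exact abs_of_nonneg Metric.infDist_nonneg
  rw [h3, add_comm t s]
  exact h2

/-- upper bound of the limit -/
lemma lim_le (hP : ClPr) (hC : ChiCl) {r : ℕ → ℝ} {M : Measure (CI × ℝ)} (hr : Tendsto r atTop atTop)
    (hM : IsProbabilityMeasure M) (h : ClTo r M) {F : Finset ℂ} {t l : ℝ} (ht : 0 < t) (hF0 : F.Nonempty)
    (hl : Tendsto (fun R : ℝ => chi R (VF F t) / chi R (Metric.ball 0 1)) atTop (𝓝 l)) :
    M {x | hF F x.1 < t} ≤ ENNReal.ofReal l := by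
  obtain ⟨N, hN, hr1, h1⟩ := h.shift hr 0
  have hp : ∀ k, IsProbabilityMeasure (cl (r (k + N))) := fun k => (hP _ (hN k)).1
  have hop : IsOpen {x : CI × ℝ | hF F x.1 < t} := isOpen_lt ((hF_cont F).comp continuous_fst) continuous_const
  have hlim : Tendsto (fun k => ENNReal.ofReal (chi (r (k + N)) (VF F t) / chi (r (k + N)) (Metric.ball 0 1))) atTop
      (𝓝 (ENNReal.ofReal l)) := (ENNReal.continuous_ofReal.tendsto _).comp (hl.comp hr1)
  refine WTo.open_lim (μs := fun k => cl (r (k + N))) h1 hop hlim (Eventually.of_forall fun k => ?_)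
  rw [cl_lt hP (hN k) ht hF0]
  refine (ENNReal.le_ofReal_iff_toReal_le (measure_ne_top _ _) ?_).2 ?_
  · exact (ENNReal.toReal_nonneg.trans ((hC _ _ (hN k) (Metric.isOpen_ball.inter Metric.isOpen_thickening) inter_subset_left).1))
  · exact (hC _ _ (hN k) (Metric.isOpen_ball.inter Metric.isOpen_thickening) inter_subset_left).1

/-- lower bound of the limit -/
lemma le_lim (hP : ClPr) (hC : ChiCl) {r : ℕ → ℝ} {M : Measure (CI × ℝ)} (hr : Tendsto r atTop atTop)
    (hM : IsProbabilityMeasure M) (h : ClTo r M) {F : Finset ℂ} {t t' l : ℝ} (ht : 0 < t) (ht' : t < t')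
    (hl : Tendsto (fun R : ℝ => chi R (VF F t) / chi R (Metric.ball 0 1)) atTop (𝓝 l)) :
    ENNReal.ofReal l ≤ M {x | hF F x.1 ≤ t'} := by
  obtain ⟨N, hN, hr1, h1⟩ := h.shift hr (max 0 (1 / (t' - t)))
  have hN0 : ∀ k, 0 < r (k + N) := fun k => (le_max_left _ _).trans_lt (hN k)
  have hN1 : ∀ k, 1 / (t' - t) < r (k + N) := fun k => (le_max_right _ _).trans_lt (hN k)
  have hp : ∀ k, IsProbabilityMeasure (cl (r (k + N))) := fun k => (hP _ (hN0 k)).1
  have hcl : IsClosed {x : CI × ℝ | hF F x.1 ≤ t'} := isClosed_le ((hF_cont F).comp continuous_fst) continuous_const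
  have hlim : Tendsto (fun k => ENNReal.ofReal (chi (r (k + N)) (VF F t) / chi (r (k + N)) (Metric.ball 0 1))) atTop
      (𝓝 (ENNReal.ofReal l)) := (ENNReal.continuous_ofReal.tendsto _).comp (hl.comp hr1)
  refine WTo.closed_lim (μs := fun k => cl (r (k + N))) h1 hcl hlim (Eventually.of_forall fun k => ?_)
  have htt : 0 < t' - t := sub_pos.2 ht'
  have h2 : 1 / r (k + N) ≤ t' - t := by
    rw [div_le_iff₀ (hN0 k)]
    have := (div_lt_iff₀ htt).1 (hN1 k)
    linarith
  have h3 := (hC (r (k + N)) (VF F t) (hN0 k) (Metric.isOpen_ball.inter Metric.isOpen_thickening) inter_subset_left).2 (t' - t) h2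
  refine (ENNReal.ofReal_le_ofReal h3).trans ?_
  rw [ENNReal.ofReal_toReal (measure_ne_top _ _)]
  refine measure_mono fun x hx => ?_
  have h4 := le_hF ht htt.le hx
  show hF F x.1 ≤ t'
  linarith

/-- **one direction** -/
lemma marg_le (hP : ClPr) (hC : ChiCl) (hR : RatC) {r r' : ℕ → ℝ} {M M' : Measure (CI × ℝ)} (hr : Tendsto r atTop atTop)
    (hr' : Tendsto r' atTop atTop) (hM : IsProbabilityMeasure M) (hM' : IsProbabilityMeasure M') (h : ClTo r M)
    (h' : ClTo r' M') {F : Finset ℂ} {t : ℝ} (ht : 0 < t) (hF0 : F.Nonempty) :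
    M {x | hF F x.1 < t} ≤ M' {x | hF F x.1 < t} := by
  have hg := hR F hF0
  have hd : Dense {s : ℝ | 0 < s → ∃ l : ℝ, Tendsto (fun R : ℝ => chi R (Metric.ball 0 1 ∩ Metric.thickening s (F : Set ℂ)) /
      chi R (Metric.ball 0 1)) atTop (𝓝 l)} := Measure.dense_of_ae hg
  -- good numbers below t
  have key : ∀ m : ℕ, M {x | hF F x.1 < t - t / ((m : ℝ) + 2)} ≤ M' {x | hF F x.1 < t} := by
    intro m
    have hm : 0 < t / ((m : ℝ) + 2) := by positivity
    have hm1 : t / ((m : ℝ) + 2) < t := div_lt_self ht (by linarith [(Nat.cast_nonneg m : (0 : ℝ) ≤ m)])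
    obtain ⟨s, hs, hs1, hs2⟩ := hd.exists_between (show t - t / ((m : ℝ) + 2) < t by linarith)
    have hs0 : 0 < s := by linarith
    obtain ⟨l, hl⟩ := hs hs0
    have a1 := lim_le hP hC hr hM h hs0 hF0 hl
    have a2 := le_lim hP hC hr' hM' h' hs0 (show s < (s + t) / 2 by linarith) hl
    calc M {x | hF F x.1 < t - t / ((m : ℝ) + 2)} ≤ M {x | hF F x.1 < s} := measure_mono fun x (hx : _ < _) => hx.trans hs1
      _ ≤ M' {x | hF F x.1 ≤ (s + t) / 2} := a1.trans a2
      _ ≤ M' {x | hF F x.1 < t} := measure_mono fun x (hx : hF F x.1 ≤ (s + t) / 2) => by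
          show hF F x.1 < t
          linarith
  have hU : {x : CI × ℝ | hF F x.1 < t} = ⋃ m : ℕ, {x : CI × ℝ | hF F x.1 < t - t / ((m : ℝ) + 2)} := by
    ext x
    simp only [mem_ofPred_eq, mem_iUnion]
    constructor
    · intro hx
      have hlim : Tendsto (fun m : ℕ => t - t / ((m : ℝ) + 2)) atTop (𝓝 (t - 0)) := by
        refine tendsto_const_nhds.sub ?_
        have h5 : Tendsto (fun m : ℕ => (m : ℝ) + 2) atTop atTop := tendsto_atTop_add_const_right _ _ tendsto_natCast_atTop_atTop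
        exact h5.const_div_atTop t
      rw [sub_zero] at hlim
      exact (hlim.eventually (lt_mem_nhds hx)).exists
    · rintro ⟨m, hm⟩
      have hm0 : 0 < t / ((m : ℝ) + 2) := by positivity
      linarith
  have hmono : Monotone fun m : ℕ => {x : CI × ℝ | hF F x.1 < t - t / ((m : ℝ) + 2)} := by
    intro m m' hmm x (hx : hF F x.1 < t - t / ((m : ℝ) + 2))
    show hF F x.1 < t - t / ((m' : ℝ) + 2)
    refine hx.trans_le ?_
    have : t / ((m' : ℝ) + 2) ≤ t / ((m : ℝ) + 2) := by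
      have h6 : (m : ℝ) ≤ m' := by exact_mod_cast hmm
      exact div_le_div_of_nonneg_left ht.le (by positivity) (by linarith)
    linarith
  rw [hU, hmono.measure_iUnion, ← hU]
  exact iSup_le key

/-- **all the limits have the same law of the curve** -/
theorem marg (hP : ClPr) (hC : ChiCl) (hG : ClGood) (hR : RatC) {r r' : ℕ → ℝ} {M M' : Measure (CI × ℝ)}
    (hr : Tendsto r atTop atTop) (hr' : Tendsto r' atTop atTop) (hM : IsProbabilityMeasure M) (hM' : IsProbabilityMeasure M')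
    (h : ClTo r M) (h' : ClTo r' M') : M.map Prod.fst = M'.map Prod.fst := by
  obtain ⟨ρ, hρ, hgood⟩ := hG
  have g1 := hgood r M hr hM h
  have g2 := hgood r' M' hr' hM' h'
  have p1 : IsProbabilityMeasure (M.map Prod.fst) := Measure.isProbabilityMeasure_map measurable_fst.aemeasurable
  have p2 : IsProbabilityMeasure (M'.map Prod.fst) := Measure.isProbabilityMeasure_map measurable_fst.aemeasurable
  refine eq_of_trace hρ p1 p2 ?_ ?_ (Incl.trace_of_h p1 p2 fun F t hF0 ht => ?_)
  · exact (ae_map_iff (p := fun γ => γ ∈ Gd ρ) measurable_fst.aemeasurable (Gd_meas hρ)).2 g1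
  · exact (ae_map_iff (p := fun γ => γ ∈ Gd ρ) measurable_fst.aemeasurable (Gd_meas hρ)).2 g2
  · have hms : MeasurableSet {γ : CI | hF F γ < t} := (isOpen_lt (hF_cont F) continuous_const).measurableSet
    rw [Measure.map_apply measurable_fst hms, Measure.map_apply measurable_fst hms]
    exact le_antisymm (marg_le hP hC hR hr hr' hM hM' h h' ht hF0) (marg_le hP hC hR hr' hr hM' hM h' h ht hF0)

end Pool.Agent.CRT
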