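import Pool.Agent.NPR.ExN
import Pool.Agent.NPR.EngA

/-!
# CRT, row 11A (helper42): from the critical mass in the box to the mean over the numbers of letters

* **`mean_of`**: if the walks of the box with `x1 N` to `x2 N` letters in the set `P` have a small mass, then the sum over the
  `n` between `x1 N` and `x2 N` of the probabilities of `P` for the walks with `n` letters is at most `ε N`. The set `P` is
  arbitrary: an event that depends on `n` is the set of the words `t` in the event of the number `t.length`.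
-/

set_option autoImplicit false

namespace HexObs

namespace CRT

open Finset TS SDN TIW NTA TIP NPR

open scoped ENNReal

/-- every large number has a scale -/
lemma sc_ex (k1 : ℕ) {n : ℕ} (hn : PW.mZ (2 ^ k1) ≤ n) : ∃ k, k1 ≤ k ∧ TIP.Sc k n := by
  have hex : ∃ j : ℕ, (n : ℝ) < PW.mZ (2 ^ (k1 + j)) := by
    obtain ⟨j, hj⟩ := pow_unbounded_of_one_lt (n : ℝ) (show (1 : ℝ) < 2 by norm_num)
    refine ⟨j, ?_⟩
    have h1 := mz_low k1 j
    have h2 := mz_one k1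
    have h3 : (0 : ℝ) < 2 ^ j := by positivity
    nlinarith
  classical
  obtain ⟨j, hj⟩ : ∃ j, j = Nat.find hex := ⟨_, rfl⟩
  have h1 : (n : ℝ) < PW.mZ (2 ^ (k1 + j)) := hj ▸ Nat.find_spec hex
  rcases Nat.eq_zero_or_pos j with h0 | h0
  · rw [h0, add_zero] at h1
    linarith
  · have h2 : ¬ (n : ℝ) < PW.mZ (2 ^ (k1 + (j - 1))) := Nat.find_min hex (by omega)
    refine ⟨k1 + (j - 1), by omega, not_lt.1 h2, ?_⟩
    rw [show k1 + (j - 1) + 1 = k1 + j by omega]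
    exact h1

/-- the sum of the masses over finitely many numbers of letters -/
lemma gf_len_sum (W : Finset ℕ) (S : Set (List Bool)) :
    ∑ n ∈ W, gf {t | t.length = n ∧ t ∈ S} ≤ gf {t | t.length ∈ W ∧ t ∈ S} := by
  classical
  have h1 : ∀ T : Set (List Bool), gf T = ∑' t : List Bool, if t ∈ T then wE t else 0 := by
    intro T
    rw [← Rec8.sw_one, Rec8.sw_ind]
    refine tsum_congr fun t => ?_
    rw [mul_one]
  simp only [h1]
  rw [← Summable.tsum_finsetSum (fun _ _ => ENNReal.summable)]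
  refine ENNReal.tsum_le_tsum fun t => ?_
  by_cases hS : t ∈ S
  · by_cases hW : t.length ∈ W
    · rw [if_pos (show t ∈ {t | t.length ∈ W ∧ t ∈ S} from ⟨hW, hS⟩)]
      refine (le_of_eq (Finset.sum_eq_single_of_mem t.length hW fun n _ hn => if_neg fun h => hn h.1.symm)).trans ?_
      split_ifs
      · exact le_rfl
      · exact zero_le
    · refine (le_of_eq (Finset.sum_eq_zero fun n hn => if_neg ?_)).trans zero_le
      rintro ⟨h, -⟩
      rw [h] at hW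
      exact hW hn
  · exact (le_of_eq (Finset.sum_eq_zero fun n _ => if_neg fun h => hS h.2)).trans zero_le

/-- **from the mass in the box to the mean over n** -/
theorem mean_of {x1 x2 ε : ℝ} (h1 : 0 < x1) (h2 : x1 < x2) (hε : 0 < ε) : ∃ (q k0 : ℕ) (e0 : ℝ), 0 < e0 ∧
    ∀ k N : ℕ, k0 ≤ k → TIP.Sc k N → ∀ P : Set (List Bool),
      gf {t | t ∈ WL (k + q) ∧ x1 * N ≤ t.length ∧ (t.length : ℝ) ≤ x2 * N ∧ t ∈ P} ≤ ENNReal.ofReal e0 * FK (k + q) →
      ∑ n ∈ (range (⌊x2 * N⌋₊ + 1)).filter (fun n : ℕ => x1 * N ≤ n), TOG.Pn n P ≤ ε * N := by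
  have hx2 : 0 < x2 := h1.trans h2
  -- the shifts of the scale
  obtain ⟨L, hL⟩ : ∃ L : ℕ, x2 ≤ (2 : ℝ) ^ L := by
    obtain ⟨q, hq⟩ := pow_unbounded_of_one_lt x2 (show (1 : ℝ) < 2 by norm_num)
    exact ⟨q, hq.le⟩
  obtain ⟨L1, hL1⟩ : ∃ L1 : ℕ, 1 / x1 ≤ (2 : ℝ) ^ L1 := by
    obtain ⟨q, hq⟩ := pow_unbounded_of_one_lt (1 / x1) (show (1 : ℝ) < 2 by norm_num)
    exact ⟨q, hq.le⟩
  obtain ⟨Cb, k3, hbox⟩ := box_n (ε := ε / (4 * x2)) (by positivity)
  obtain ⟨cl, κ, k4, hcl, -, hbig⟩ := EN.factsX_M.big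
  obtain ⟨E, hE, hFE⟩ := FK_addE
  have hE0 : 0 < E := by linarith
  obtain ⟨q, hq⟩ : ∃ q : ℕ, q = L + Cb := ⟨_, rfl⟩
  obtain ⟨c, hc⟩ : ∃ c : ℝ, c = cl / (E ^ (L1 + q) * x2) := ⟨_, rfl⟩
  have hc0 : 0 < c := by rw [hc]; positivity
  obtain ⟨Z0, hZ0⟩ : ∃ Z0 : ℕ, 1 / x2 ≤ Z0 := exists_nat_ge _
  refine ⟨q, k3 + k4 + L1 + Z0 + 1, ε * c / 2, by positivity, fun k N hk hsc P hM => ?_⟩
  have hkN := le_Sc hsc
  have hN0 : 0 < N := by omega
  have hNr : (0 : ℝ) < N := by exact_mod_cast hN0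
  obtain ⟨W, hW⟩ : ∃ W : Finset ℕ, W = (range (⌊x2 * N⌋₊ + 1)).filter (fun n : ℕ => x1 * N ≤ n) := ⟨_, rfl⟩
  rw [← hW]
  have hWm : ∀ n ∈ W, x1 * N ≤ n ∧ (n : ℝ) ≤ x2 * N := by
    intro n hn
    rw [hW, mem_filter, mem_range] at hn
    refine ⟨hn.2, ?_⟩
    have h3 : n ≤ ⌊x2 * N⌋₊ := by omega
    exact (Nat.cast_le.2 h3).trans (Nat.floor_le (by positivity))
  have hWc : (W.card : ℝ) ≤ 2 * x2 * N := by
    have h3 : W.card ≤ ⌊x2 * N⌋₊ + 1 := by
      rw [hW]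
      exact (card_filter_le _ _).trans (card_range _).le
    have h4 : ((⌊x2 * (N : ℝ)⌋₊ : ℕ) : ℝ) ≤ x2 * N := Nat.floor_le (by positivity)
    have h5 : (1 : ℝ) ≤ x2 * N := by
      have h6 : (Z0 : ℝ) ≤ N := by exact_mod_cast (show Z0 ≤ N by omega)
      have h7 := hZ0.trans h6
      rwa [div_le_iff₀ hx2, mul_comm] at h7
    have h8 : (W.card : ℝ) ≤ (⌊x2 * (N : ℝ)⌋₊ : ℕ) + 1 := by exact_mod_cast h3
    linarith
  -- the scales of the numbers
  have hscale : ∀ n ∈ W, ∃ k', k ≤ k' + L1 ∧ k' ≤ k + L ∧ TIP.Sc k' n := by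
    intro n hn
    obtain ⟨g1, g2⟩ := hWm n hn
    have hlow : PW.mZ (2 ^ (k - L1)) ≤ n := by
      have g3 := mz_low (k - L1) L1
      rw [show k - L1 + L1 = k by omega] at g3
      have g4 : PW.mZ (2 ^ (k - L1)) ≤ x1 * (2 ^ L1 * PW.mZ (2 ^ (k - L1))) := by
        have g5 : 1 ≤ x1 * 2 ^ L1 := by
          rw [div_le_iff₀ h1, mul_comm] at hL1
          exact hL1
        have g6 := mz_pos (k - L1)
        nlinarith
      calc PW.mZ (2 ^ (k - L1)) ≤ x1 * (2 ^ L1 * PW.mZ (2 ^ (k - L1))) := g4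
        _ ≤ x1 * PW.mZ (2 ^ k) := by gcongr
        _ ≤ x1 * N := mul_le_mul_of_nonneg_left hsc.1 h1.le
        _ ≤ n := g1
    obtain ⟨k', hk', hs⟩ := sc_ex (k - L1) hlow
    refine ⟨k', by omega, ?_, hs⟩
    by_contra hcon
    have g3 := mz_low (k + 1) L
    have g4 : PW.mZ (2 ^ (k + 1 + L)) ≤ PW.mZ (2 ^ k') := mz_mono (by omega)
    have g5 := hs.1
    have g6 := hsc.2
    have g7 : x2 * N < 2 ^ L * PW.mZ (2 ^ (k + 1)) := by
      calc x2 * N < x2 * PW.mZ (2 ^ (k + 1)) := mul_lt_mul_of_pos_left g6 hx2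
        _ ≤ _ := mul_le_mul_of_nonneg_right hL (mz_pos _).le
    linarith
  -- the mass of all the walks
  have hall : ∀ n ∈ W, ENNReal.ofReal (c / N) * FK (k + q) ≤ ENNReal.ofReal ((cS n : ℝ) * xc ^ n) := by
    intro n hn
    obtain ⟨k', g1, g2, g3⟩ := hscale n hn
    obtain ⟨-, g4⟩ := hWm n hn
    have e1 : ENNReal.ofReal cl * (ENNReal.ofReal (Ub k' / PW.mZ (2 ^ k')) * Xb k' ^ 2) ≤
        ENNReal.ofReal ((cS n : ℝ) * xc ^ n) := by
      have h5 : gf (SawN n) = ENNReal.ofReal ((cS n : ℝ) * xc ^ n) := TOG.gf_ncard subset_rfl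
      rw [← h5]
      exact (hbig k' n (by omega) g3.1 g3.2).trans (gf_mono fun t ht => ht.1)
    have e2 : FK (k + q) ≤ ENNReal.ofReal (E ^ (L1 + q)) * FK k' := by
      refine (FK_mono (show k + q ≤ k' + (L1 + q) by omega)).trans (hFE k' (L1 + q))
    refine le_trans ?_ e1
    refine (mul_le_mul' le_rfl e2).trans ?_
    have hm := mz_pos k'
    have hU := TS.Ub_pos k'
    have hmn : PW.mZ (2 ^ k') ≤ x2 * N := g3.1.trans g4
    have e3 : ENNReal.ofReal (c / N) * (ENNReal.ofReal (E ^ (L1 + q)) * FK k') =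
        ENNReal.ofReal (c / N * E ^ (L1 + q) * Ub k') * Xb k' ^ 2 := by
      unfold FK
      rw [← mul_assoc, ← mul_assoc, ← ENNReal.ofReal_mul (by positivity), ← ENNReal.ofReal_mul (by positivity)]
    have e4 : ENNReal.ofReal cl * (ENNReal.ofReal (Ub k' / PW.mZ (2 ^ k')) * Xb k' ^ 2) =
        ENNReal.ofReal (cl * (Ub k' / PW.mZ (2 ^ k'))) * Xb k' ^ 2 := by
      rw [← mul_assoc, ← ENNReal.ofReal_mul hcl.le]
    rw [e3, e4]
    refine mul_le_mul_left (ENNReal.ofReal_le_ofReal ?_) _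
    have e5 : c / N * E ^ (L1 + q) * Ub k' = cl * (Ub k' / (x2 * N)) := by
      rw [hc]
      field_simp
    rw [e5]
    refine mul_le_mul_of_nonneg_left ?_ hcl.le
    exact div_le_div_of_nonneg_left hU.le hm hmn
  -- the part in the box
  have hin : ∑ n ∈ W, TOG.Pn n {t | t ∈ WL (k + q) ∧ t ∈ P} ≤ ε / 2 * N := by
    obtain ⟨S, hS⟩ : ∃ S : Set (List Bool), S = {t | t ∈ SA ∧ t ∈ WL (k + q) ∧ t ∈ P} := ⟨_, rfl⟩
    have g1 : ∀ n ∈ W, ENNReal.ofReal (TOG.Pn n {t | t ∈ WL (k + q) ∧ t ∈ P}) * (ENNReal.ofReal (c / N) * FK (k + q)) ≤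
        gf {t | t.length = n ∧ t ∈ S} := by
      intro n hn
      refine (mul_le_mul' le_rfl (hall n hn)).trans ?_
      have h0 : 0 ≤ TOG.Pn n {t | t ∈ WL (k + q) ∧ t ∈ P} := by
        unfold TOG.Pn
        positivity
      rw [← ENNReal.ofReal_mul h0]
      have h3 : gf {t | t ∈ SawN n ∧ t ∈ {t | t ∈ WL (k + q) ∧ t ∈ P}} = ENNReal.ofReal
          (({t | t ∈ SawN n ∧ t ∈ {t | t ∈ WL (k + q) ∧ t ∈ P}}.ncard : ℝ) * xc ^ n) := TOG.gf_ncard fun t ht => ht.1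
      have h4 : TOG.Pn n {t | t ∈ WL (k + q) ∧ t ∈ P} * ((cS n : ℝ) * xc ^ n) =
          ({t | t ∈ SawN n ∧ t ∈ {t | t ∈ WL (k + q) ∧ t ∈ P}}.ncard : ℝ) * xc ^ n := by
        unfold TOG.Pn
        have h5 : (cS n : ℝ) ≠ 0 := by exact_mod_cast (TOG.cS_pos n).ne'
        rw [← mul_assoc, div_mul_cancel₀ _ h5]
      rw [h4, ← h3]
      refine gf_mono ?_
      rintro t ⟨ht, ht2⟩
      rw [hS]
      exact ⟨ht.1, ht.2, ht2⟩
    have g2 : ENNReal.ofReal (∑ n ∈ W, TOG.Pn n {t | t ∈ WL (k + q) ∧ t ∈ P}) * (ENNReal.ofReal (c / N) * FK (k + q)) ≤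
        ENNReal.ofReal (ε * c / 2) * FK (k + q) := by
      rw [ENNReal.ofReal_sum_of_nonneg (fun n _ => by unfold TOG.Pn; positivity), Finset.sum_mul]
      refine (Finset.sum_le_sum g1).trans ((gf_len_sum W S).trans (le_trans (gf_mono ?_) hM))
      rintro t ⟨ht, ht2⟩
      rw [hS] at ht2
      exact ⟨ht2.2.1, (hWm _ ht).1, (hWm _ ht).2, ht2.2.2⟩
    rw [← mul_assoc] at g2
    have g3 := (ENNReal.mul_le_mul_iff_left (FK_ne_zero (k + q)) (FK_ne_top (k + q))).1 g2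
    rw [← ENNReal.ofReal_mul (Finset.sum_nonneg fun n _ => by unfold TOG.Pn; positivity)] at g3
    have g4 := (ENNReal.ofReal_le_ofReal_iff (by positivity)).1 g3
    have g5 : (∑ n ∈ W, TOG.Pn n {t | t ∈ WL (k + q) ∧ t ∈ P}) * (c / N) * (N / c) ≤ ε * c / 2 * (N / c) :=
      mul_le_mul_of_nonneg_right g4 (by positivity)
    have g6 : (∑ n ∈ W, TOG.Pn n {t | t ∈ WL (k + q) ∧ t ∈ P}) * (c / N) * (N / c) =
        ∑ n ∈ W, TOG.Pn n {t | t ∈ WL (k + q) ∧ t ∈ P} := by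
      field_simp
    have g7 : ε * c / 2 * (N / c) = ε / 2 * N := by
      field_simp
    linarith
  -- the part outside of the box
  have hout : ∑ n ∈ W, TOG.Pn n {t | t ∉ WL (k + q)} ≤ ε / 2 * N := by
    have g1 : ∀ n ∈ W, TOG.Pn n {t | t ∉ WL (k + q)} ≤ ε / (4 * x2) := by
      intro n hn
      obtain ⟨k', g1, g2, g3⟩ := hscale n hn
      exact (Pn_mono (S := {t | t ∉ WL (k + q)}) (T := {t | t ∉ WL (k' + Cb)})
        fun t _ ht hWt => ht (SDN.WL_mono (by omega) hWt)).trans (hbox k' n (by omega) g3)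
    calc ∑ n ∈ W, TOG.Pn n {t | t ∉ WL (k + q)} ≤ ∑ _n ∈ W, ε / (4 * x2) := Finset.sum_le_sum g1
      _ = W.card * (ε / (4 * x2)) := by rw [sum_const, nsmul_eq_mul]
      _ ≤ (2 * x2 * N) * (ε / (4 * x2)) := by gcongr
      _ = ε / 2 * N := by
          field_simp
          ring
  calc ∑ n ∈ W, TOG.Pn n P ≤ ∑ n ∈ W, (TOG.Pn n {t | t ∉ WL (k + q)} + TOG.Pn n {t | t ∈ WL (k + q) ∧ t ∈ P}) := by
        refine Finset.sum_le_sum fun n hn => ?_
        have hn1 : 1 ≤ n := by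
          have h3 := (hWm n hn).1
          have h4 : (0 : ℝ) < n := lt_of_lt_of_le (by positivity) h3
          exact_mod_cast h4
        refine (Pn_mono (T := {t | t ∉ WL (k + q)} ∪ {t | t ∈ WL (k + q) ∧ t ∈ P}) fun t _ ht => ?_).trans (pn_union hn1 _ _)
        by_cases hWt : t ∈ WL (k + q)
        · exact Or.inr ⟨hWt, ht⟩
        · exact Or.inl hWt
    _ = ∑ n ∈ W, TOG.Pn n {t | t ∉ WL (k + q)} + ∑ n ∈ W, TOG.Pn n {t | t ∈ WL (k + q) ∧ t ∈ P} := sum_add_distrib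
    _ ≤ ε / 2 * N + ε / 2 * N := add_le_add hout hin
    _ = ε * N := by ring

end CRT

end HexObs
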