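import Pool.Agent.SIM.NoCutEv

/-!
# CRT, row 11A (helper42): the words of the box with a leaf of a small class, any leaf (the ends included)
-/

set_option autoImplicit false

namespace HexObs

namespace CRT

open Finset TS SDN NTW NTA SIM

open scoped ENNReal

/-- **a leaf of a class of small norm is unlikely** -/
theorem leafIn_small {J : ℕ} (hJ : 6 ≤ J) {ε : ℝ} (hε : 0 < ε) : ∃ (δ : ℝ) (k0 : ℕ), 0 < δ ∧ ∀ kc, k0 ≤ kc →
    ∀ S : Set (List Bool), SmD DmJ kc {g | g ∈ BrR (2 ^ (kc + 4)) (2 ^ (kc + J + 2)) ∧ g ∈ S} δ →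
      gf (LeafIn kc J S) ≤ ENNReal.ofReal (ε * Ub (kc + J)) * Xb (kc + J) ^ 2 := by
  obtain ⟨C, k0, hC, h⟩ := leafIn_le
  have hC0 : 0 < C := by linarith
  refine ⟨ε / C ^ J, k0, by positivity, fun kc hk S hS => ?_⟩
  refine (h kc J S (ε / C ^ J) hk hJ (by positivity) hS).trans (le_of_eq ?_)
  congr 3
  field_simp

end CRT

end HexObs
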