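import Pool.Agent.CRT.PinE
import Pool.Agent.CRT.PinD

/-!
# CRT, row 11A (helper42): the words of the box with a pinched leaf without a leaf cut near the pinch
-/

set_option autoImplicit false

namespace HexObs

namespace CRT

open Finset TS SDN NTW NTA SIM

open CutJ (PnL pin_norm)

open scoped ENNReal

/-- **a leaf (any leaf, the ends included) with a simple pinch and without a leaf cut near the pinch is unlikely** -/
theorem pinG {J : ℕ} (hJ : 6 ≤ J) (J2 : ℕ) {ε : ℝ} (hε : 0 < ε) : ∃ J3, J2 ≤ J3 ∧ ∀ J3', J3 ≤ J3' → ∃ k0 : ℕ, J3' ≤ k0 ∧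
    ∀ kc, k0 ≤ kc → gf (LeafIn kc J (PnL (2 ^ (kc + 4)) (2 ^ (kc + J + 3)) (2 ^ (kc + 1)) (kc - J3') (kc - J2))) ≤
      ENNReal.ofReal (ε * Ub (kc + J)) * Xb (kc + J) ^ 2 := by
  obtain ⟨δ, k0, hδ, h⟩ := leafIn_small hJ hε
  obtain ⟨J3, hJ3, hP⟩ := pin_norm J J2 hδ
  refine ⟨J3, hJ3, fun J3' hJ3' => ⟨max k0 J3', le_max_right _ _, fun kc hk => ?_⟩⟩
  refine h kc ((le_max_left _ _).trans hk) _ (QF.SmD_mono ?_ (hP J3' hJ3' kc ((le_max_right _ _).trans hk)))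
  rintro g ⟨-, hg⟩
  exact hg

end CRT

end HexObs
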