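import Pool.Agent.CutJ.ZGeo

/-!
# CRT, row 11A N1 (helper86): pinched bridges, geometry

A bridge that is pinched at a row, without cuts near this row, has a small zig-zag between two giants.
-/

set_option autoImplicit false

namespace CutJ

open HexObs Finset TS SDN

/-- the walk t crosses the slab of half width w around the level 3 a between the times s0 and s1 -/
structure SPin (t : List Bool) (a w : ℤ) (s0 s1 : ℕ) : Prop where
  lo : ∀ s, s ≤ s0 → lev t s < 3 * a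
  mid : ∀ s, s0 ≤ s → s ≤ s1 → 3 * a - w < lev t s ∧ lev t s < 3 * a + w
  hi : ∀ s, s1 ≤ s → s ≤ t.length → 3 * a < lev t s

/-- bridges with a zig-zag A, D, C of depth d less than 2 ^ k between two giants -/
def ZB (N k e : ℕ) : Set (List Bool) := {t | ∃ (A I M D X P Z : List Bool) (a i m d x p z : ℕ),
  A ∈ Brd a ∧ a ≤ N ∧ I ∈ Irr i ∧ 2 ^ e < i ∧ M ∈ Brd m ∧ m ≤ d ∧ D ∈ Brd d ∧ 1 ≤ d ∧ d < 2 ^ k ∧
  X ∈ Brd x ∧ x ≤ d ∧ P ∈ Irr p ∧ 2 ^ e < p ∧ p ≤ N ∧ Z ∈ Brd z ∧ z ≤ N ∧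
  LFold (A ++ (I ++ M)) D ∧ LFold D (X ++ (P ++ Z)) ∧ t = unf [A ++ (I ++ M), D, X ++ (P ++ Z)]}

/-- the pinched bridges up to the height N without a cut near the pinch -/
def PB (N k e : ℕ) : Set (List Bool) := {t | ∃ (j a : ℕ) (w : ℤ) (s0 s1 : ℕ), t ∈ Brd j ∧ j ≤ N ∧ 1 ≤ a ∧ a < j ∧
  SPin t a w s0 s1 ∧ 2 * w ≤ 2 ^ k ∧ 2 ^ (e + 2) < a ∧ a + 2 ^ (e + 2) ≤ j ∧
  ∀ c : ℕ, a ≤ c + 2 ^ (e + 2) → c ≤ a + 2 ^ (e + 2) → c < j → ¬ Cut t c}

/-- a pinched bridge without cuts near the pinch has a small zig-zag between two giants -/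
theorem zb_of_pin {N k e : ℕ} {t : List Bool} (hke : k ≤ e) (ht0 : t ∈ PB N k e) : t ∈ ZB N k e := by
  obtain ⟨j, a, w, s0, s1, ht, hj, ha, haj', hp, hk, hw1, haj, hc⟩ := ht0
  have hte : 2 ^ (e + 2) = 4 * 2 ^ e := by ring
  have hpe : 1 ≤ 2 ^ e := Nat.one_le_two_pow
  have hkz : ((2 ^ k : ℕ) : ℤ) = 2 ^ k := by push_cast; rfl
  have hke2 : 2 ^ k ≤ 2 ^ e := Nat.pow_le_pow_right (by norm_num) hke
  have hk2 : 2 * w ≤ ((2 ^ e : ℕ) : ℤ) := by
    have : ((2 ^ k : ℕ) : ℤ) ≤ ((2 ^ e : ℕ) : ℤ) := by exact_mod_cast hke2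
    omega
  have hnc : ¬ Cut t a := hc a (by omega) (by omega) haj'
  obtain ⟨u, d, wd, G1, D, G3, i, p, q, hG1, hD, hG3, hunf, hf1, hf2, hau, hud, hd1, hdw, hpq, hqi, hil, hli, hmax, hmin,
    hlp, hlq, hp1, ⟨b, hG1e⟩, hG1l, hG3e, hG3l, hlq1, hdxq⟩ := zig_gen ht ha haj' hnc
  -- the last passage is before the end of the slab
  have his1 : i < s1 := by
    by_contra hcon
    have := hp.hi i (by omega) (by omega)
    omega
  -- the top of the zig-zag is behind the start of the slab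
  have hps : s0 < p := by
    by_contra hcon
    have h1 := hp.lo p (by omega)
    omega
  have hlp2 : lev t p < 3 * a + w := (hp.mid p (by omega) (by omega)).2
  have hlq2 : 3 * a - w < lev t q := (hp.mid q (by omega) (by omega)).1
  have hd2 : d < 2 ^ k := by
    have : (d : ℤ) < ((2 ^ k : ℕ) : ℤ) := by omega
    exact_mod_cast this
  have hdu : d ≤ u := by
    have := (lev_range ht (i := q) (by omega)).2.2 (by omega)
    omega
  -- the first giant
  obtain ⟨c1, r1, A, I, M, e1, e2, e3, hA, hI, hM, hG1d⟩ := jump_dec (s := u - d - 1) (n := u) (by omega) hG1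
  have hud1 : 1 ≤ u - d := by omega
  have hc1 : c1 + 2 ^ (e + 2) < a := by
    by_contra hcon
    rcases Nat.eq_zero_or_pos c1 with h0 | h0
    · rw [h0] at hcon
      omega
    · refine hc c1 (by omega) (by omega) (by omega) ?_
      refine cut_first ht hG1 hp1 (by omega) hG1e hG1l hmin (L := lev t q) (by omega) (by omega) ?_
      exact ⟨A, I ++ M, r1 + (u - c1 - r1), hA, Brd_append hI.1 hM, by rw [hG1d, List.append_assoc]⟩
  -- the second giant
  have hww2 : d < wd := by omega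
  obtain ⟨x, r2, X, P, Z, f1, f2, f3, hX, hP, hZ, hG3d⟩ := jump_dec (s := d) (n := wd) hww2 hG3
  have hcg : ∀ c : ℕ, d ≤ c → Cut G3 c → Cut t (u - d + c) := by
    intro c hcd hcut
    exact cut_last (S := (u : ℤ) - d) (U := 3 * u) ht hG3 (by omega) hG3e hG3l (by omega) hdxq
      (fun k hk => by rw [← hlp]; exact hmax k (by omega)) (by omega) hcut (by omega)
  have hrow : a + 2 ^ (e + 2) ≤ u - d + (x + r2) := by
    rcases Nat.lt_or_ge (x + r2) wd with h1 | h1
    · by_contra hcon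
      refine hc (u - d + (x + r2)) (by omega) (by omega) (by omega) (hcg _ (by omega) ?_)
      exact ⟨X ++ P, Z, wd - x - r2, Brd_append hX hP.1, hZ, hG3d⟩
    · omega
  refine ⟨A, I, M, D, X, P, Z, c1, r1, u - c1 - r1, d, x, r2, wd - x - r2, hA, by omega, hI, by omega, hM, by omega, hD,
    hd1, hd2, hX, f1, hP, by omega, by omega, hZ, by omega, ?_, ?_, ?_⟩
  · rw [List.append_assoc] at hG1d
    rw [← hG1d]
    exact hf1
  · rw [List.append_assoc] at hG3d
    rw [← hG3d]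
    exact hf2
  · rw [List.append_assoc] at hG1d hG3d
    rw [← hG1d, ← hG3d]
    exact hunf.symm

end CutJ
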