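import Pool.Agent.CutJ.ZNormC
import Pool.Agent.CRT.PinG
import Pool.Agent.NTW.HgtDbl

/-!
# CRT, row 11A N1 (helper86): pinched bridges, mass

The mass of the bridges with a small zig-zag between two giants.
-/

set_option autoImplicit false

namespace CutJ

open HexObs Finset TS SDN

open scoped ENNReal

/-- chains of three leaves and a bridge -/
lemma cov5 (S A : Set (List Bool)) (B : List Bool → Set (List Bool)) (E : List Bool → List Bool → Set (List Bool))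
    (G : List Bool → ℝ≥0∞) (N : ℕ)
    (h : ∀ t ∈ S, ∃ a ∈ A, ∃ b ∈ B a, ∃ c ∈ E a b, ∃ z ∈ BrR 0 N, t = unf [a, b, c ++ z] ∧ a ≠ [] ∧ b ≠ [] ∧ c ≠ [] ∧
      1 ≤ G c) :
    gf S ≤ ENNReal.ofReal (UU N) * Rec8.sw A (fun a => Rec8.sw (B a) (fun b => Rec8.sw (E a b) G)) := by
  refine (cov4 S A B E (fun _ _ _ => BrR 0 N) G h).trans ?_
  rw [← Rec8.sw_mul_left]
  refine Rec8.sw_mono' fun a _ => ?_
  rw [← Rec8.sw_mul_left]
  refine Rec8.sw_mono' fun b _ => ?_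
  rw [← Rec8.sw_mul_left]
  refine Rec8.sw_mono' fun c _ => ?_
  rw [mul_comm]
  exact mul_le_mul_left (NTW.HD.BrR_BU_gf 0 N) _

/-- the walks with a zig-zag of depth in [lo, hi) between two giants -/
def ZE (N e lo hi : ℕ) : Set (List Bool) := {t | ∃ (A I M D X P Z : List Bool) (a i m d x p z : ℕ),
  A ∈ Brd a ∧ a ≤ N ∧ I ∈ Irr i ∧ 2 ^ e < i ∧ M ∈ Brd m ∧ m ≤ d ∧ D ∈ Brd d ∧ 1 ≤ d ∧ lo ≤ d ∧ d < hi ∧
  X ∈ Brd x ∧ x ≤ d ∧ P ∈ Irr p ∧ 2 ^ e < p ∧ p ≤ N ∧ Z ∈ Brd z ∧ z ≤ N ∧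
  LFold (A ++ (I ++ M)) D ∧ LFold D (X ++ (P ++ Z)) ∧ t = unf [A ++ (I ++ M), D, X ++ (P ++ Z)]}

/-- one scale -/
lemma ze_le : ∃ K : ℝ, 1 ≤ K ∧ ∀ N e i : ℕ, i ≤ e → 2 ^ (i + 4) ≤ 2 ^ e →
    gf (ZE N e (2 ^ (i + 4)) (2 ^ (i + 5))) ≤ ENNReal.ofReal (UU N) *
      ENNReal.ofReal (K * (UU N / (Ub e * Ub e)) * (Ub i * (2 : ℝ) ^ (kap0 / 4 * ((e : ℝ) - i)))) := by
  obtain ⟨C, δ, hI⟩ := inp_exists
  obtain ⟨K1, hK1, h1⟩ := firstG hI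
  obtain ⟨K2, hK2, h2⟩ := two_scale
  obtain ⟨K3, hK3, h3⟩ := lastG hI
  refine ⟨32 * K1 * K2 * K3, by nlinarith [mul_nonneg (by linarith : (0:ℝ) ≤ K1) (by linarith : (0:ℝ) ≤ K2),
    one_le_mul_of_one_le_of_one_le (one_le_mul_of_one_le_of_one_le hK1 hK2) hK3], fun N e i hie hie4 => ?_⟩
  have hUe := Ub_pos e
  have hUi := Ub_pos i
  have hUN : 0 < UU N := Num2Aux.UU_pos N
  obtain ⟨D0, hD0⟩ : ∃ D0, D0 = 2 ^ (i + 4) := ⟨_, rfl⟩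
  have hD1 : 1 ≤ D0 := by
    rw [hD0]
    exact Nat.one_le_two_pow
  obtain ⟨Ψ, hΨ⟩ : ∃ Ψ, Ψ = vA D0 (BrR D0 (2 ^ (i + 5))) (vA D0 (BrR D0 (2 ^ (i + 5) + N)) (GI (i + 5) e)) := ⟨_, rfl⟩
  have hcov := cov5 (ZE N e (2 ^ (i + 4)) (2 ^ (i + 5)))
    {t | ∃ A I M : List Bool, ∃ a : ℕ, A ∈ Brd a ∧ a ≤ N ∧ I ∈ GG e ∧ M ∈ LB (i + 5) ∧ t = A ++ (I ++ M)}
    (fun a => {D | D ∈ BrR D0 (2 ^ (i + 5)) ∧ RT D0 LFold a D})
    (fun _ b => {g | g ∈ BrR D0 (2 ^ (i + 5) + N) ∧ RT D0 LFold b g})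
    (GI (i + 5) e) N ?_
  · refine hcov.trans (mul_le_mul_right ?_ _)
    have e1 : (Rec8.sw {t | ∃ A I M : List Bool, ∃ a : ℕ, A ∈ Brd a ∧ a ≤ N ∧ I ∈ GG e ∧ M ∈ LB (i + 5) ∧ t = A ++ (I ++ M)}
        fun a => Rec8.sw {D | D ∈ BrR D0 (2 ^ (i + 5)) ∧ RT D0 LFold a D} fun b =>
          Rec8.sw {g | g ∈ BrR D0 (2 ^ (i + 5) + N) ∧ RT D0 LFold b g} fun c => GI (i + 5) e c) =
        Rec8.sw {t | ∃ A I M : List Bool, ∃ a : ℕ, A ∈ Brd a ∧ a ≤ N ∧ I ∈ GG e ∧ M ∈ LB (i + 5) ∧ t = A ++ (I ++ M)} Ψ := by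
      rw [hΨ]
      rfl
    rw [e1]
    have f1 := h1 D0 i (i + 5) e N Ψ (by rw [hΨ]; exact CN.hered_vA _ _ _) (by rw [hD0]) hie le_rfl
    have f2 := h2 D0 i D0 i D0 (2 ^ (i + 5)) (vA D0 (BrR D0 (2 ^ (i + 5) + N)) (GI (i + 5) e)) (CN.hered_vA _ _ _)
      (by rw [hD0]) (by rw [hD0]) le_rfl le_rfl (by rw [hD0]; exact Nat.pow_le_pow_right (by norm_num) (by omega))
    rw [← hΨ] at f2
    have f3 := h3 D0 i (i + 5) e (2 ^ (i + 5) + N) (by rw [hD0]) hie le_rfl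
    have g1 : UU (2 ^ (i + 5)) / Ub i ≤ 32 := by
      rw [div_le_iff₀ hUi]
      have a1 := Ub_succ i
      have a2 := Ub_succ (i + 1)
      have a3 := Ub_succ (i + 2)
      have a4 := Ub_succ (i + 3)
      have a5 := Ub_succ (i + 4)
      have h4 : UU (2 ^ (i + 5)) = Ub (i + 5) := rfl
      rw [h4]
      linarith
    refine f1.trans ?_
    obtain ⟨W, hW⟩ : ∃ W, W = (2 : ℝ) ^ (kap0 / 8 * ((e : ℝ) - i)) := ⟨_, rfl⟩
    have hW0 : 0 < W := by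
      rw [hW]
      exact TK.p_pos _
    rw [← hW] at f3 ⊢
    calc ENNReal.ofReal (K1 * UU N * (Ub i / Ub e * W)) * xT D0 i Ψ
        ≤ ENNReal.ofReal (K1 * UU N * (Ub i / Ub e * W)) * (ENNReal.ofReal (K2 * 32) *
            ENNReal.ofReal (K3 * (W / Ub e))) := by
          refine mul_le_mul_right (f2.trans (mul_le_mul' (ENNReal.ofReal_le_ofReal ?_) f3)) _
          exact mul_le_mul_of_nonneg_left g1 (by linarith)
      _ = ENNReal.ofReal (32 * K1 * K2 * K3 * (UU N / (Ub e * Ub e)) * (Ub i * (2 : ℝ) ^ (kap0 / 4 * ((e : ℝ) - i)))) := by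
          rw [← ENNReal.ofReal_mul (by positivity), ← ENNReal.ofReal_mul (by positivity)]
          congr 1
          have e2 : (2 : ℝ) ^ (kap0 / 4 * ((e : ℝ) - i)) = W * W := by
            rw [hW, ← Real.rpow_add two_pos]
            congr 1
            ring
          rw [e2]
          field_simp
  · rintro t ⟨A, I, M, D, X, P, Z, a, i', m, d, x, p, z, hA, ha, hIi, hi', hM, hm, hD, hd1, hlo, hhi, hX, hx, hP, hp, hpN, hZ, hzN,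
      hf1, hf2, rfl⟩
    have hG1 : A ++ (I ++ M) ∈ Brd (a + (i' + m)) := Brd_append hA (Brd_append hIi.1 hM)
    have hg3 : X ++ P ∈ Brd (x + p) := Brd_append hX hP.1
    have hpos : 0 < 2 ^ e := by positivity
    refine ⟨A ++ (I ++ M), ⟨A, I, M, a, hA, ha, ⟨i', hi', hIi⟩, ⟨m, by omega, hM⟩, rfl⟩, D, ⟨⟨d, by omega, by omega, hD⟩,
      RT_of ⟨_, by omega, hG1⟩ hf1⟩, X ++ P, ⟨⟨x + p, by omega, by omega, hg3⟩, RT_of ⟨d, by omega, hD⟩ ?_⟩, Z, ?_, ?_,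
      ne_of_Brd hG1 (by omega), ne_of_Brd hD (by omega), ne_of_Brd hg3 (by omega), ?_⟩
    · rw [← List.append_assoc] at hf2
      exact LFold_pre hf2
    · exact ⟨z, Nat.zero_le _, hzN, hZ⟩
    · rw [List.append_assoc X P Z]
    · unfold GI
      rw [if_pos]
      exact ⟨[], X, P, 0, x, p, nil_mem_Brd, hX, by omega, hP, hp, rfl⟩

/-- the smallest zig-zags -/
lemma zem_le : ∃ K : ℝ, 1 ≤ K ∧ ∀ N e : ℕ, gf (ZE N e 0 (2 ^ 4)) ≤ ENNReal.ofReal (UU N) *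
      ENNReal.ofReal (K * (UU N / (Ub e * Ub e)) * (Ub 0 * (2 : ℝ) ^ (kap0 / 4 * ((e : ℝ) - (0 : ℕ))))) := by
  obtain ⟨C, δ, hI⟩ := inp_exists
  obtain ⟨K1, hK1, h1⟩ := firstG hI
  obtain ⟨K3, hK3, h3⟩ := gf_GG
  have hk := kap0_pos
  have hU4 := Ub_pos 4
  have hKK : 0 ≤ 2 * K1 * K3 * (Ub 4 * Ub 4) := by positivity
  refine ⟨1 + 2 * K1 * K3 * (Ub 4 * Ub 4), by linarith, fun N e => ?_⟩
  have hUe := Ub_pos e
  have hU0 := Ub_pos 0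
  have hUN : 0 < UU N := Num2Aux.UU_pos N
  have hcov := cov5 (ZE N e 0 (2 ^ 4))
    {t | ∃ A I M : List Bool, ∃ a : ℕ, A ∈ Brd a ∧ a ≤ N ∧ I ∈ GG e ∧ M ∈ LB 4 ∧ t = A ++ (I ++ M)}
    (fun _ => LB 4) (fun _ _ => {g | ∃ X ∈ LB 4, ∃ P ∈ GG e, g = X ++ P})
    (fun _ => 1) N ?_
  · refine hcov.trans (mul_le_mul_right ?_ _)
    obtain ⟨c, hc⟩ : ∃ c, c = ENNReal.ofReal (Ub 4) * (ENNReal.ofReal (Ub 4) * ENNReal.ofReal (K3 / Ub e)) := ⟨_, rfl⟩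
    have e1 : (Rec8.sw {t | ∃ A I M : List Bool, ∃ a : ℕ, A ∈ Brd a ∧ a ≤ N ∧ I ∈ GG e ∧ M ∈ LB 4 ∧ t = A ++ (I ++ M)}
        fun _ => Rec8.sw (LB 4) fun _ => Rec8.sw {g | ∃ X ∈ LB 4, ∃ P ∈ GG e, g = X ++ P} fun _ => (1 : ℝ≥0∞)) ≤
        Rec8.sw {t | ∃ A I M : List Bool, ∃ a : ℕ, A ∈ Brd a ∧ a ≤ N ∧ I ∈ GG e ∧ M ∈ LB 4 ∧ t = A ++ (I ++ M)}
          (fun _ => c) := by
      refine Rec8.sw_mono' fun _ _ => ?_
      rw [SDN.NX_const, hc]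
      refine mul_le_mul' (gf_LB 4) ?_
      refine (cov2 _ (LB 4) (fun _ => GG e) (fun _ => 1) fun t ht => ht).trans ?_
      rw [Rec8.sw_one, SDN.NX_const]
      exact mul_le_mul' (gf_LB 4) (h3 e)
    refine e1.trans ?_
    have f1 := h1 (2 ^ 4) 0 4 e N (fun _ => c) (fun _ _ _ => le_rfl) le_rfl (Nat.zero_le e) (by norm_num)
    refine f1.trans ?_
    have hW1 : (2 : ℝ) ^ (kap0 / 8 * ((e : ℝ) - (0 : ℕ))) ≤ (2 : ℝ) ^ (kap0 / 4 * ((e : ℝ) - (0 : ℕ))) := by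
      apply TK.p_mono
      have : (0 : ℝ) ≤ e := Nat.cast_nonneg e
      push_cast
      nlinarith
    have hp4 := TK.p_pos (kap0 / 4 * ((e : ℝ) - (0 : ℕ)))
    calc ENNReal.ofReal (K1 * UU N * (Ub 0 / Ub e * (2 : ℝ) ^ (kap0 / 8 * ((e : ℝ) - (0 : ℕ))))) * xT (2 ^ 4) 0 (fun _ => c)
        ≤ ENNReal.ofReal (K1 * UU N * (Ub 0 / Ub e * (2 : ℝ) ^ (kap0 / 4 * ((e : ℝ) - (0 : ℕ))))) * (2 * c) := by
          refine mul_le_mul' (ENNReal.ofReal_le_ofReal ?_) (CN.xT_const _ _ c)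
          gcongr
      _ = ENNReal.ofReal (2 * K1 * K3 * (Ub 4 * Ub 4) * (UU N / (Ub e * Ub e)) *
            (Ub 0 * (2 : ℝ) ^ (kap0 / 4 * ((e : ℝ) - (0 : ℕ))))) := by
          have e2 : (2 : ℝ≥0∞) = ENNReal.ofReal 2 := by simp
          rw [hc, e2, ← ENNReal.ofReal_mul hU4.le, ← ENNReal.ofReal_mul hU4.le, ← ENNReal.ofReal_mul (by norm_num),
            ← ENNReal.ofReal_mul (by positivity)]
          congr 1
          field_simp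
      _ ≤ _ := by
          apply ENNReal.ofReal_le_ofReal
          have h5 : 0 ≤ (UU N / (Ub e * Ub e)) * (Ub 0 * (2 : ℝ) ^ (kap0 / 4 * ((e : ℝ) - (0 : ℕ)))) := by positivity
          nlinarith
  · rintro t ⟨A, I, M, D, X, P, Z, a, i', m, d, x, p, z, hA, ha, hIi, hi', hM, hm, hD, hd1, hlo, hhi, hX, hx, hP, hp, hpN, hZ, hzN,
      hf1, hf2, rfl⟩
    have hG1 : A ++ (I ++ M) ∈ Brd (a + (i' + m)) := Brd_append hA (Brd_append hIi.1 hM)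
    have hg3 : X ++ P ∈ Brd (x + p) := Brd_append hX hP.1
    have hpos : 0 < 2 ^ e := by positivity
    refine ⟨A ++ (I ++ M), ⟨A, I, M, a, hA, ha, ⟨i', hi', hIi⟩, ⟨m, by omega, hM⟩, rfl⟩, D, ⟨d, hhi, hD⟩,
      X ++ P, ⟨X, ⟨x, by omega, hX⟩, P, ⟨p, hp, hP⟩, rfl⟩, Z, ?_, ?_,
      ne_of_Brd hG1 (by omega), ne_of_Brd hD (by omega), ne_of_Brd hg3 (by omega), le_rfl⟩
    · exact ⟨z, Nat.zero_le _, hzN, hZ⟩
    · rw [List.append_assoc X P Z]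

/-- Z2: small zig-zags between two giants are unlikely -/
theorem zb_le : ∃ K c : ℝ, 1 ≤ K ∧ 0 < c ∧ ∀ N k e : ℕ, k ≤ e →
    gf (ZB N k e) ≤ ENNReal.ofReal (UU N) * ENNReal.ofReal (K * (UU N / Ub e) * (2 : ℝ) ^ (-(c * ((e : ℝ) - k)))) := by
  obtain ⟨K1, hK1, h1⟩ := ze_le
  obtain ⟨K2, hK2, h2⟩ := zem_le
  have hk := kap0_pos
  obtain ⟨K4, hK4, h4⟩ := geo_Ub (η := kap0 / 4) (by linarith)
  refine ⟨2 * (K1 + K2) * K4, 3 / 4 * kap0, by nlinarith, by linarith, fun N k e hke => ?_⟩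
  have hUe := Ub_pos e
  have hUk := Ub_pos k
  have hUN : 0 < UU N := Num2Aux.UU_pos N
  have hsub : ZB N k e ⊆ ZE N e 0 (2 ^ 4) ∪ ⋃ i ∈ (range k).filter (fun i => i + 4 ≤ e),
      ZE N e (2 ^ (i + 4)) (2 ^ (i + 5)) := by
    rintro t ⟨A, I, M, D, X, P, Z, a, i', m, d, x, p, z, hA, ha, hIi, hi', hM, hm, hD, hd1, hdk, hX, hx, hP, hp, hpN, hZ, hzN,
      hf1, hf2, rfl⟩
    rcases Nat.lt_or_ge d (2 ^ 4) with hd | hd
    · left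
      exact ⟨A, I, M, D, X, P, Z, a, i', m, d, x, p, z, hA, ha, hIi, hi', hM, hm, hD, hd1, Nat.zero_le _, hd, hX, hx, hP, hp,
        hpN, hZ, hzN, hf1, hf2, rfl⟩
    · right
      have hd0 : d ≠ 0 := by omega
      have g1 : 2 ^ Nat.log 2 d ≤ d := Nat.pow_log_le_self 2 hd0
      have g2 : d < 2 ^ (Nat.log 2 d + 1) := Nat.lt_pow_succ_log_self (by norm_num) d
      have g3 : 4 ≤ Nat.log 2 d := by
        have := Nat.log_mono_right (b := 2) hd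
        rwa [Nat.log_pow (by norm_num)] at this
      have g4 : Nat.log 2 d < k := Nat.log_lt_of_lt_pow hd0 hdk
      obtain ⟨i, hi⟩ : ∃ i, Nat.log 2 d = i + 4 := ⟨Nat.log 2 d - 4, by omega⟩
      rw [hi] at g1 g2 g4
      refine Set.mem_biUnion (x := i) (Finset.mem_filter.2 ⟨Finset.mem_range.2 (by omega), by omega⟩) ?_
      exact ⟨A, I, M, D, X, P, Z, a, i', m, d, x, p, z, hA, ha, hIi, hi', hM, hm, hD, hd1, g1, g2, hX, hx, hP, hp,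
        hpN, hZ, hzN, hf1, hf2, rfl⟩
  have hbd : gf (ZB N k e) ≤ ENNReal.ofReal (UU N) * ∑ i ∈ range (k + 1), ENNReal.ofReal ((K1 + K2) * (UU N / (Ub e * Ub e)) *
      (Ub i * (2 : ℝ) ^ (kap0 / 4 * ((e : ℝ) - i)))) := by
    have hpos : ∀ i : ℕ, 0 ≤ (UU N / (Ub e * Ub e)) * (Ub i * (2 : ℝ) ^ (kap0 / 4 * ((e : ℝ) - i))) := by
      intro i
      have := Ub_pos i
      positivity
    have h5 : gf (ZB N k e) ≤ gf (ZE N e 0 (2 ^ 4)) + ∑ i ∈ (range k).filter (fun i => i + 4 ≤ e),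
        gf (ZE N e (2 ^ (i + 4)) (2 ^ (i + 5))) := by
      have h6 := TN5b_sw_union hsub (fun _ => 1)
      rw [Rec8.sw_one, Rec8.sw_one, Rec8.sw_one] at h6
      exact h6.trans (add_le_add le_rfl (gf_fin _ _))
    refine h5.trans ?_
    have h7 : gf (ZE N e 0 (2 ^ 4)) ≤ ENNReal.ofReal (UU N) * ENNReal.ofReal (K2 * (UU N / (Ub e * Ub e)) *
        (Ub 0 * (2 : ℝ) ^ (kap0 / 4 * ((e : ℝ) - (0 : ℕ))))) := h2 N e
    have h8 : ∑ i ∈ (range k).filter (fun i => i + 4 ≤ e), gf (ZE N e (2 ^ (i + 4)) (2 ^ (i + 5))) ≤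
        ENNReal.ofReal (UU N) * ∑ i ∈ range (k + 1), ENNReal.ofReal (K1 * (UU N / (Ub e * Ub e)) *
        (Ub i * (2 : ℝ) ^ (kap0 / 4 * ((e : ℝ) - i)))) := by
      rw [Finset.mul_sum]
      refine (Finset.sum_le_sum fun i hi => ?_).trans (Finset.sum_le_sum_of_subset ?_)
      · rw [Finset.mem_filter, Finset.mem_range] at hi
        exact h1 N e i (by omega) (Nat.pow_le_pow_right (by norm_num) hi.2)
      · intro i hi
        rw [Finset.mem_filter, Finset.mem_range] at hi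
        rw [Finset.mem_range]
        omega
    have h9 : ENNReal.ofReal (K2 * (UU N / (Ub e * Ub e)) * (Ub 0 * (2 : ℝ) ^ (kap0 / 4 * ((e : ℝ) - (0 : ℕ))))) ≤
        ∑ i ∈ range (k + 1), ENNReal.ofReal (K2 * (UU N / (Ub e * Ub e)) *
        (Ub i * (2 : ℝ) ^ (kap0 / 4 * ((e : ℝ) - i)))) :=
      Finset.single_le_sum (f := fun i : ℕ => ENNReal.ofReal (K2 * (UU N / (Ub e * Ub e)) *
        (Ub i * (2 : ℝ) ^ (kap0 / 4 * ((e : ℝ) - i))))) (fun _ _ => zero_le) (Finset.mem_range.2 (by omega : 0 < k + 1))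
    refine (add_le_add (h7.trans (mul_le_mul_right h9 _)) h8).trans (le_of_eq ?_)
    rw [← mul_add, ← Finset.sum_add_distrib]
    refine congrArg _ (Finset.sum_congr rfl fun i _ => ?_)
    have hp := hpos i
    rw [← ENNReal.ofReal_add (by rw [mul_assoc]; exact mul_nonneg (by linarith) hp)
      (by rw [mul_assoc]; exact mul_nonneg (by linarith) hp)]
    congr 1
    ring
  refine hbd.trans (mul_le_mul_right ?_ _)
  have hnn : ∀ i ∈ range (k + 1), 0 ≤ (K1 + K2) * (UU N / (Ub e * Ub e)) *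
      (Ub i * (2 : ℝ) ^ (kap0 / 4 * ((e : ℝ) - i))) := by
    intro i _
    have := Ub_pos i
    positivity
  rw [← ENNReal.ofReal_sum_of_nonneg hnn]
  apply ENNReal.ofReal_le_ofReal
  have e1 : ∑ i ∈ range (k + 1), (K1 + K2) * (UU N / (Ub e * Ub e)) * (Ub i * (2 : ℝ) ^ (kap0 / 4 * ((e : ℝ) - i))) =
      (K1 + K2) * (UU N / (Ub e * Ub e)) * (2 : ℝ) ^ (kap0 / 4 * ((e : ℝ) - k)) *
        ∑ i ∈ range (k + 1), (2 : ℝ) ^ (kap0 / 4 * ((k : ℝ) - i)) * Ub i := by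
    rw [Finset.mul_sum]
    refine Finset.sum_congr rfl fun i _ => ?_
    have e2 : (2 : ℝ) ^ (kap0 / 4 * ((e : ℝ) - i)) = (2 : ℝ) ^ (kap0 / 4 * ((e : ℝ) - k)) *
        (2 : ℝ) ^ (kap0 / 4 * ((k : ℝ) - i)) := by
      rw [← Real.rpow_add two_pos]
      congr 1
      ring
    rw [e2]
    ring
  rw [e1]
  have h10 := h4 k
  have h11 := Ub_growth hke
  have e3 : (2 : ℝ) ^ (kap0 * ((e : ℝ) - k)) = ((2 : ℝ) ^ (-(3 / 4 * kap0 * ((e : ℝ) - k))))⁻¹ *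
      (2 : ℝ) ^ (kap0 / 4 * ((e : ℝ) - k)) := by
    rw [← Real.rpow_neg two_pos.le, ← Real.rpow_add two_pos]
    congr 1
    ring
  obtain ⟨Q, hQ⟩ : ∃ Q, Q = (2 : ℝ) ^ (-(3 / 4 * kap0 * ((e : ℝ) - k))) := ⟨_, rfl⟩
  obtain ⟨R, hR⟩ : ∃ R, R = (2 : ℝ) ^ (kap0 / 4 * ((e : ℝ) - k)) := ⟨_, rfl⟩
  have hQ0 : 0 < Q := by
    rw [hQ]
    exact TK.p_pos _
  have hR0 : 0 < R := by
    rw [hR]
    exact TK.p_pos _
  rw [e3, ← hQ, ← hR] at h11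
  rw [← hQ, ← hR]
  have h12 : Ub k * R ≤ 2 * Ub e * Q := by
    have : Ub k * (Q⁻¹ * R) * Q ≤ 2 * Ub e * Q := mul_le_mul_of_nonneg_right h11 hQ0.le
    calc Ub k * R = Ub k * (Q⁻¹ * R) * Q := by field_simp
      _ ≤ _ := this
  calc (K1 + K2) * (UU N / (Ub e * Ub e)) * R * ∑ i ∈ range (k + 1), (2 : ℝ) ^ (kap0 / 4 * ((k : ℝ) - i)) * Ub i
      ≤ (K1 + K2) * (UU N / (Ub e * Ub e)) * R * (K4 * Ub k) := by gcongr
    _ = (K1 + K2) * K4 * (UU N / (Ub e * Ub e)) * (Ub k * R) := by ring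
    _ ≤ (K1 + K2) * K4 * (UU N / (Ub e * Ub e)) * (2 * Ub e * Q) := by gcongr
    _ = _ := by
      field_simp

end CutJ
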