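import Pool.Agent.EN.FarLow

/-!
CRT, row 11A, VPos, part 1: words with a cut at a time at most M, at least h above the start: rev a ++ first cut ++ bridge ++ word.
-/

set_option autoImplicit false

namespace HexObs

namespace VP

open Finset TS SDN NTW NTA PtC NTSF.Pt BAR

open scoped ENNReal

/-- words with n letters that have a cut at a time at most M, at least h above the start -/
def SawK (n M : ℕ) (h : ℤ) : Set (List Bool) := {t | t ∈ SawN n ∧ ∃ d ∈ dirs, ∃ k : ℕ, k ≤ M ∧ k < n ∧ dx up t k = d ∧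
  (∀ i, i ≤ k → ip (vx oo up t i) d ≤ ip (vx oo up t k) d) ∧
  (∀ j, k < j → j ≤ n → ip (vx oo up t (k + 1)) d ≤ ip (vx oo up t j) d) ∧ h ≤ ip (vx oo up t k) d}

/-- half plane words with m letters that have a cut at a height at least r0 behind at most 2 N letters -/
def HpK (m N r0 : ℕ) : Set (List Bool) := {v | v ∈ HpN m ∧ ∃ (a u : List Bool) (r : ℕ), r0 ≤ r ∧ a ∈ Brd r ∧
  a.length ≤ 2 * N ∧ a.length < m ∧ Pos u ∧ v = a ++ u}

lemma SawK_fin (n M : ℕ) (h : ℤ) : (SawK n M h).Finite := (PHWDict.SawN_fin n).subset fun _ h => h.1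

lemma HpK_fin (m N r0 : ℕ) : (HpK m N r0).Finite := (HpN_fin m).subset fun _ h => h.1

lemma SawK_mono {n M M' : ℕ} {h h' : ℤ} (h1 : M ≤ M') (h2 : h' ≤ h) : SawK n M h ⊆ SawK n M' h' := by
  rintro t ⟨ht, d, hd, k, a1, a2, a3, a4, a5, a6⟩
  exact ⟨ht, d, hd, k, a1.trans h1, a2, a3, a4, a5, h2.trans a6⟩

/-- the joined word has the cut of its second part -/
theorem glue_K {k l N r0 : ℕ} {s v : List Bool} {x : Bool} (hr0 : 1 ≤ r0) (hs : s ++ [x] ∈ HpN (k + 1)) (hv : v ∈ HpK l N r0) :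
    rev s ++ v ∈ SawK (k + l) (k + 2 * N) (3 * r0) := by
  obtain ⟨hv0, a, u, r, hr, ha, hal, ham, hu, rfl⟩ := hv
  obtain ⟨s1, s2, s3⟩ := HpN_iff.1 hs
  rw [List.length_append, List.length_singleton] at s1
  have hsl : s.length = k := by omega
  obtain ⟨b1, b2, b3, b4⟩ := mem_Brd.1 ha
  have hrZ : (r0 : ℤ) ≤ r := by exact_mod_cast hr
  have hr1 : (1 : ℤ) ≤ r0 := by exact_mod_cast hr0
  have hL : ∀ i, 1 ≤ i → i ≤ k + 1 → 0 < lev s i := by
    intro i h1 h2
    have h3 := s2 i h1 (by rw [List.length_append, List.length_singleton]; omega)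
    unfold lev at h3 ⊢
    rwa [vx_append (by omega)] at h3
  have hlen : (a ++ u).length = l := (HpN_iff.1 hv0).1
  have hvl : ∀ j, lev (a ++ u) (a.length + j) = 3 * r + lev u j := fun j => by rw [lev_cat b3, b4]
  have hva : ∀ j, j ≤ a.length → lev (a ++ u) j ≤ 3 * r := by
    intro j hj
    rw [lev_append (by omega)]
    rcases Nat.eq_zero_or_pos j with h0 | h0
    · rw [h0, lev_zero]
      positivity
    · exact (b1 j h0 hj).2
  -- levels of the joined word
  have e1 : ∀ i, i ≤ k + 1 → ip (vx oo up (rev s ++ (a ++ u)) i) (jd s) = lev s (k + 1) - lev s (k + 1 - i) := by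
    intro i hi
    have h1 := jlev_fst s (a ++ u) (i := i) (by omega)
    rw [hsl] at h1
    exact h1
  have e3 : ∀ j, ip (vx oo up (rev s ++ (a ++ u)) (k + j)) (jd s) = lev s (k + 1) - 2 + lev (a ++ u) j := by
    intro j
    have h3 := jlev_snd s (a ++ u) j
    rw [hsl] at h3
    rw [h3, e1 k (by omega), show k + 1 - k = 1 by omega, lev_one]
  have hk2 := lev_pos_two (hL (k + 1) (by omega) le_rfl)
  have eA : ip (vx oo up (rev s ++ (a ++ u)) (k + a.length)) (jd s) = lev s (k + 1) - 2 + 3 * r := by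
    rw [e3]
    have h1 := hvl 0
    rw [Nat.add_zero, lev_zero] at h1
    rw [h1]
    ring
  refine ⟨glue_mem hs hv0, jd s, jd_dirs s, k + a.length, by omega, by omega, ?_, ?_, ?_, ?_⟩
  · obtain ⟨R, hR, h1, h2⟩ := jvx_snd s (a ++ u)
    have h3 := h2 (a.length + 1)
    have h4 := h2 a.length
    rw [hsl] at h3 h4
    have h5 : vx oo up (rev s ++ (a ++ u)) (k + (a.length + 1)) = vx oo up (rev s ++ (a ++ u)) (k + a.length) +
        dx up (rev s ++ (a ++ u)) (k + a.length) := by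
      rw [← add_assoc, vx_succ]
    have h6 : vx oo up (a ++ u) (a.length + 1) = vx oo up (a ++ u) a.length + up := by
      rw [vx_succ, dx_append le_rfl, b3]
    rw [h3, h4, h6, mulE_add, ← add_assoc, h1] at h5
    exact (add_left_cancel h5).symm
  · intro i hi
    rw [eA]
    rcases Nat.lt_or_ge k i with h | h
    · obtain ⟨j, rfl⟩ : ∃ j, i = k + j := ⟨i - k, by omega⟩
      rw [e3]
      have := hva j (by omega)
      omega
    · rw [e1 i (by omega)]
      have := hL (k + 1 - i) (by omega) (by omega)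
      have := lev_pos_two this
      omega
  · intro j hj hjn
    obtain ⟨i, rfl⟩ : ∃ i, j = k + (a.length + i) := ⟨j - k - a.length, by omega⟩
    rw [e3, show k + a.length + 1 = k + (a.length + 1) by ring, e3, hvl, hvl, lev_one]
    have h1 := hu i (by omega) (by rw [List.length_append] at hlen; omega)
    have := lev_pos_two h1
    omega
  · rw [eA]
    omega

/-- **The joined words with a cut.** -/
theorem count_K (n N r0 K : ℕ) (hr0 : 1 ≤ r0) (hK : K ≤ n) :
    ∑ k ∈ Finset.range (K + 1), cI (k + 1) * (HpK (n - k) N r0).ncard ≤ 12 * (SawK n (K + 2 * N) (3 * r0)).ncard := by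
  classical
  obtain ⟨A, hA⟩ : ∃ A : ℕ → Finset (List Bool), A = fun k => (HiN_fin k).toFinset := ⟨_, rfl⟩
  obtain ⟨B, hB⟩ : ∃ B : ℕ → Finset (List Bool), B = fun k => (HpK_fin k N r0).toFinset := ⟨_, rfl⟩
  have hA1 : ∀ k, (A k).card = cI k := fun k => by
    rw [hA]
    exact (Set.ncard_eq_toFinset_card _ (HiN_fin k)).symm
  have hB1 : ∀ k, (B k).card = (HpK k N r0).ncard := fun k => by
    rw [hB]
    exact (Set.ncard_eq_toFinset_card _ (HpK_fin k N r0)).symm
  have hAm : ∀ k t, t ∈ A k ↔ t ∈ HiN k := fun k t => by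
    rw [hA]
    exact Set.Finite.mem_toFinset _
  have hBm : ∀ k t, t ∈ B k ↔ t ∈ HpK k N r0 := fun k t => by
    rw [hB]
    exact Set.Finite.mem_toFinset _
  obtain ⟨X, hX⟩ : ∃ X : Finset ((_ : ℕ) × (List Bool × List Bool)),
    X = (Finset.range (K + 1)).sigma fun k => A (k + 1) ×ˢ B (n - k) := ⟨_, rfl⟩
  have hXm : ∀ q, q ∈ X ↔ q.1 ≤ K ∧ q.2.1 ∈ HiN (q.1 + 1) ∧ q.2.2 ∈ HpK (n - q.1) N r0 := fun q => by
    rw [hX, Finset.mem_sigma, Finset.mem_product, Finset.mem_range, hAm, hBm, Nat.lt_succ_iff]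
  have hcard : X.card = ∑ k ∈ Finset.range (K + 1), cI (k + 1) * (HpK (n - k) N r0).ncard := by
    rw [hX, Finset.card_sigma]
    exact Finset.sum_congr rfl fun k _ => by rw [Finset.card_product, hA1, hB1]
  obtain ⟨F, hF⟩ : ∃ F : (_ : ℕ) × (List Bool × List Bool) → Bool × Pt × List Bool,
    F = fun q => (q.2.1.getLastD true, jd q.2.1.dropLast, rev q.2.1.dropLast ++ q.2.2) := ⟨_, rfl⟩
  obtain ⟨Y, hY⟩ : ∃ Y : Finset (Bool × Pt × List Bool),
    Y = Finset.univ ×ˢ dirs ×ˢ (SawK_fin n (K + 2 * N) (3 * r0)).toFinset := ⟨_, rfl⟩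
  have hYc : Y.card = 12 * (SawK n (K + 2 * N) (3 * r0)).ncard := by
    rw [hY, Finset.card_product, Finset.card_product]
    have h1 : (Finset.univ : Finset Bool).card = 2 := by decide
    have h2 : dirs.card = 6 := by decide
    have h3 : (SawK_fin n (K + 2 * N) (3 * r0)).toFinset.card = (SawK n (K + 2 * N) (3 * r0)).ncard :=
      (Set.ncard_eq_toFinset_card _ (SawK_fin n (K + 2 * N) (3 * r0))).symm
    rw [h1, h2, h3]
    ring
  rw [← hcard, ← hYc]
  apply Finset.card_le_card_of_injOn F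
  · rintro ⟨k, a, v⟩ hq
    obtain ⟨h1, h2, h3⟩ := (hXm _).1 hq
    rw [hF, hY, Finset.mem_coe, Finset.mem_product, Finset.mem_product, Set.Finite.mem_toFinset]
    refine ⟨Finset.mem_univ _, jd_dirs _, ?_⟩
    have h4 := last_form h2.1.1
    have h5 := glue_K (s := a.dropLast) (x := a.getLastD true) (v := v) (k := k) (l := n - k) (N := N) (r0 := r0) hr0
      (by rw [← h4]; exact h2.1) h3
    simp only at h1
    rw [show k + (n - k) = n by omega] at h5
    exact SawK_mono (by omega) le_rfl h5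
  · have key : ∀ (k k' : ℕ) (a v a' v' : List Bool), k ≤ n → a ∈ HiN (k + 1) → v ∈ HpN (n - k) →
        a' ∈ HiN (k' + 1) → v' ∈ HpN (n - k') → jd a.dropLast = jd a'.dropLast →
        rev a.dropLast ++ v = rev a'.dropLast ++ v' → ¬ k < k' := by
      intro k k' a v a' v' hk h1 h2 h3 h4 h5 h6 hlt
      have e1 := last_form h1.1.1
      have e3 := last_form h3.1.1
      have h7 := glue_cut (s := a.dropLast) (x := a.getLastD true) (v := v) (k := k) (l := n - k)
        (s' := a'.dropLast) (x' := a'.getLastD true) (v' := v') (k' := k') (l' := n - k')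
        (by rw [← e1]; exact h1.1) h2 (by rw [← e3]; exact h3.1) h4 h6 h5 hlt
      rw [← e3, h3.2] at h7
      exact Finset.not_nonempty_empty h7
    rintro ⟨k, a, v⟩ hq ⟨k', a', v'⟩ hq' he
    obtain ⟨h1, h2, h3⟩ := (hXm _).1 hq
    obtain ⟨h1', h2', h3'⟩ := (hXm _).1 hq'
    simp only at h1 h2 h3 h1' h2' h3'
    rw [hF] at he
    simp only [Prod.mk.injEq] at he
    obtain ⟨he1, he2, he3⟩ := he
    have hk : k = k' := by
      rcases Nat.lt_trichotomy k k' with h | h | h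
      · exact absurd h (key k k' a v a' v' (h1.trans hK) h2 h3.1 h2' h3'.1 he2 he3)
      · exact h
      · exact absurd h (key k' k a' v' a v (h1'.trans hK) h2' h3'.1 h2 h3.1 he2.symm he3.symm)
    subst hk
    have l1 : a.length = k + 1 := h2.1.1
    have l2 : a'.length = k + 1 := h2'.1.1
    obtain ⟨e4, e5⟩ := List.append_inj he3 (by
      rw [rev_length, rev_length, List.length_dropLast, List.length_dropLast, l1, l2])
    have e6 : a.dropLast = a'.dropLast := by rw [← rev_rev a.dropLast, e4, rev_rev]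
    have e7 : a = a' := by rw [last_form l1, last_form l2, e6, he1]
    subst e7
    subst e5
    rfl

/-! ### Bridges that start with a high bridge of few letters -/

/-- bridges with n letters that are a bridge of height at least r0 with at most 2 N letters, followed by a bridge -/
def BLK (r0 N n : ℕ) : Set (List Bool) := {w | w.length = n ∧ ∃ (a b : List Bool) (r q : ℕ), r0 ≤ r ∧ a ∈ Brd r ∧
  a.length ≤ 2 * N ∧ b ∈ Brd q ∧ w = a ++ b}

/-- their weight, 2 j letters -/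
noncomputable def ubK (r0 N j : ℕ) : ℝ := (gf (BLK r0 N (2 * j))).toReal

lemma BLK_brd {r0 N n : ℕ} {w : List Bool} (h : w ∈ BLK r0 N n) : ∃ r, r0 ≤ r ∧ w ∈ Brd r := by
  obtain ⟨-, a, b, r, q, h1, h2, -, h3, rfl⟩ := h
  exact ⟨r + q, by omega, Brd_append h2 h3⟩

lemma BLK_ne_top (r0 N n : ℕ) : gf (BLK r0 N n) ≠ ⊤ :=
  ne_top_of_le_ne_top (BrL.BLs_ne_top n) (gf_mono fun _ h => ⟨⟨_, (BLK_brd h).choose_spec.2⟩, h.1⟩)

lemma ubK_nonneg (r0 N j : ℕ) : 0 ≤ ubK r0 N j := ENNReal.toReal_nonneg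

/-- **high bridges in front of words without a cut** -/
theorem conv_K (r0 N m : ℕ) : ∑ j ∈ (Finset.range (m + 1)).filter (fun j => 2 * j ≤ m ∧ N < j),
    ubK r0 N j * ((cI (m - 2 * j) : ℝ) * xc ^ (m - 2 * j)) ≤ ((HpK m N r0).ncard : ℝ) * xc ^ m := by
  have hx := xc_pos
  obtain ⟨P, hP⟩ : ∃ P : ℕ → Set (List Bool), P = fun j =>
    {w | ∃ c ∈ BLK r0 N (2 * j), ∃ s ∈ HiN (m - 2 * j), w = c ++ s} := ⟨_, rfl⟩
  have key : ∀ r r' i j : ℕ, ∀ c s c' s' : List Bool, r ≤ r' → c ∈ Brd r → c' ∈ Brd r' → c.length = 2 * i →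
      c'.length = 2 * j → s ∈ HiN (m - 2 * i) → s' ∈ HiN (m - 2 * j) → c ++ s = c' ++ s' → c = c' ∧ s = s' := by
    intro r r' i j c s c' s' hr hc hc' hl hl' hs hs' h
    obtain ⟨v, hv, h2, h3⟩ := nested hc hc' (HpN_iff.1 hs.1).2.1 (HpN_iff.1 hs'.1).2.1 hr h
    rcases Nat.eq_zero_or_pos (r' - r) with h0 | h0
    · rw [h0, Brd_zero] at hv
      have h4 : v = [] := hv
      rw [h4, List.append_nil] at h2
      rw [h4, List.nil_append] at h3
      exact ⟨h2.symm, h3⟩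
    · exfalso
      have h5 := cutP_cat h0 hv (HpN_iff.1 hs'.1).2.1
      rw [← h3, ← mem_cuts, hs.2] at h5
      exact absurd h5 (Finset.notMem_empty _)
  have key' : ∀ i j : ℕ, ∀ c s c' s' : List Bool, c ∈ BLK r0 N (2 * i) → c' ∈ BLK r0 N (2 * j) →
      s ∈ HiN (m - 2 * i) → s' ∈ HiN (m - 2 * j) → c ++ s = c' ++ s' → c = c' ∧ s = s' := by
    intro i j c s c' s' hc0 hc0' hs hs' h
    obtain ⟨r, -, hc⟩ := BLK_brd hc0
    obtain ⟨r', -, hc'⟩ := BLK_brd hc0'
    rcases Nat.le_total r r' with hr | hr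
    · exact key r r' i j c s c' s' hr hc hc' hc0.1 hc0'.1 hs hs' h
    · obtain ⟨h1, h2⟩ := key r' r j i c' s' c s hr hc' hc hc0'.1 hc0.1 hs' hs h.symm
      exact ⟨h1.symm, h2.symm⟩
  have h1 : ∀ j, gf (BLK r0 N (2 * j)) * gf (HiN (m - 2 * j)) ≤ gf (P j) := by
    intro j
    rw [hP]
    refine mul_le_gf (fun a ha b hb => ⟨a, ha, b, hb, rfl⟩) ?_
    intro a ha b hb a' ha' b' hb' h
    exact (key' j j a b a' b' ha ha' hb hb' h).1
  have h2 : ∑ j ∈ (Finset.range (m + 1)).filter (fun j => 2 * j ≤ m ∧ N < j),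
      gf (BLK r0 N (2 * j)) * gf (HiN (m - 2 * j)) ≤ gf (HpK m N r0) := by
    refine (Finset.sum_le_sum fun j _ => h1 j).trans ((gf_bi_eq _ _ ?_).trans (gf_mono ?_))
    · intro i j w hi hj
      rw [hP] at hi hj
      obtain ⟨c, hc, s, hs, hw⟩ := hi
      obtain ⟨c', hc', s', hs', hw'⟩ := hj
      have h3 := (key' i j c s c' s' hc hc' hs hs' (hw ▸ hw')).1
      have h4 := hc.1
      have h5 := hc'.1
      rw [← h3] at h5
      omega
    · intro w hw
      rw [Set.mem_iUnion₂] at hw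
      obtain ⟨j, hj, hw⟩ := hw
      rw [hP] at hw
      obtain ⟨c, hc0, s, hs, hw⟩ := hw
      obtain ⟨ρ, -, hc⟩ := BLK_brd hc0
      obtain ⟨hl, a, b, r, q, hr, ha, hal, hb, hab⟩ := hc0
      rw [Finset.mem_filter] at hj
      have h3 := cat_HpN hc hl hs.1
      have h6 : 2 * j + (m - 2 * j) = m := by omega
      refine ⟨?_, a, b ++ s, r, hr, ha, hal, by omega, ?_, ?_⟩
      · rw [hw]
        rwa [h6] at h3
      · have hsP := (HpN_iff.1 hs.1).2.1
        have h7 := cat_HpN (s := s) hb rfl hs.1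
        exact (HpN_iff.1 h7).2.1
      · rw [hw, hab, List.append_assoc]
  have h3 : ∀ j, gf (BLK r0 N (2 * j)) * gf (HiN (m - 2 * j)) =
      ENNReal.ofReal (ubK r0 N j * ((cI (m - 2 * j) : ℝ) * xc ^ (m - 2 * j))) := by
    intro j
    rw [ENNReal.ofReal_mul (ubK_nonneg _ _ _), gf_HiN]
    congr 1
    unfold ubK
    exact (ENNReal.ofReal_toReal (BLK_ne_top _ _ _)).symm
  rw [Finset.sum_congr rfl fun j _ => h3 j, gf_ncard (HpK_fin m _ _) (fun t ht => ht.1.1),
    ← ENNReal.ofReal_sum_of_nonneg] at h2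
  · rw [ENNReal.ofReal_le_ofReal_iff (by positivity)] at h2
    exact h2
  · intro j _
    exact mul_nonneg (ubK_nonneg _ _ _) (by positivity)

/-- **the triple convolution, with a cut** -/
theorem conv3_K (r0 n N K : ℕ) (hr0 : 1 ≤ r0) (hK : K ≤ n) (F : Finset (ℕ × ℕ × ℕ))
    (hF : ∀ p ∈ F, p.1 + 2 * p.2.1 + p.2.2 = n ∧ p.1 ≤ K ∧ N < p.2.1) :
    ∑ p ∈ F, ((cI (p.1 + 1) : ℝ) * xc ^ (p.1 + 1)) * (ubK r0 N p.2.1 * ((cI p.2.2 : ℝ) * xc ^ p.2.2)) ≤
      12 * (((SawK n (K + 2 * N) (3 * r0)).ncard : ℝ) * xc ^ n) := by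
  classical
  have hx := xc_pos
  have hub : ∀ j, 0 ≤ ubK r0 N j := ubK_nonneg r0 N
  obtain ⟨g, hg⟩ : ∃ g : ℕ × ℕ → ℝ, g = fun q => ((cI (q.1 + 1) : ℝ) * xc ^ (q.1 + 1)) *
    (ubK r0 N q.2 * ((cI (n - q.1 - 2 * q.2) : ℝ) * xc ^ (n - q.1 - 2 * q.2))) := ⟨_, rfl⟩
  obtain ⟨T, hT⟩ : ∃ T : Finset (ℕ × ℕ), T = (Finset.range (K + 1) ×ˢ Finset.range (n + 1)).filter
    (fun q => 2 * q.2 ≤ n - q.1 ∧ N < q.2) := ⟨_, rfl⟩
  have h1 : ∑ p ∈ F, ((cI (p.1 + 1) : ℝ) * xc ^ (p.1 + 1)) * (ubK r0 N p.2.1 * ((cI p.2.2 : ℝ) * xc ^ p.2.2)) =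
      ∑ q ∈ F.image (fun p => (p.1, p.2.1)), g q := by
    rw [Finset.sum_image]
    · refine Finset.sum_congr rfl fun p hp => ?_
      have h2 := hF p hp
      rw [hg]
      show _ = ((cI (p.1 + 1) : ℝ) * xc ^ (p.1 + 1)) *
        (ubK r0 N p.2.1 * ((cI (n - p.1 - 2 * p.2.1) : ℝ) * xc ^ (n - p.1 - 2 * p.2.1)))
      rw [show n - p.1 - 2 * p.2.1 = p.2.2 by omega]
    · intro p hp p' hp' h
      have h2 := hF p hp
      have h3 := hF p' hp'
      have e1 := congrArg Prod.fst h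
      have e2 := congrArg Prod.snd h
      simp only at e1 e2
      refine Prod.ext e1 (Prod.ext e2 ?_)
      omega
  have h2 : ∑ q ∈ F.image (fun p => (p.1, p.2.1)), g q ≤ ∑ q ∈ T, g q := by
    refine Finset.sum_le_sum_of_subset_of_nonneg ?_ fun q _ _ => ?_
    · intro q hq
      obtain ⟨p, hp, rfl⟩ := Finset.mem_image.1 hq
      have h3 := hF p hp
      rw [hT, Finset.mem_filter, Finset.mem_product, Finset.mem_range, Finset.mem_range]
      refine ⟨⟨?_, ?_⟩, ?_, ?_⟩ <;> simp only <;> omega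
    · rw [hg]
      exact mul_nonneg (by positivity) (mul_nonneg (hub _) (by positivity))
  have h3 : ∑ q ∈ T, g q = ∑ k ∈ Finset.range (K + 1), ((cI (k + 1) : ℝ) * xc ^ (k + 1)) *
      ∑ j ∈ (Finset.range (n + 1)).filter (fun j => 2 * j ≤ n - k ∧ N < j),
        ubK r0 N j * ((cI (n - k - 2 * j) : ℝ) * xc ^ (n - k - 2 * j)) := by
    rw [hT, Finset.sum_filter, Finset.sum_product]
    refine Finset.sum_congr rfl fun k _ => ?_
    rw [← Finset.sum_filter, Finset.mul_sum]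
    exact Finset.sum_congr rfl fun j _ => by rw [hg]
  have h4 : ∀ k ∈ Finset.range (K + 1), ∑ j ∈ (Finset.range (n + 1)).filter (fun j => 2 * j ≤ n - k ∧ N < j),
      ubK r0 N j * ((cI (n - k - 2 * j) : ℝ) * xc ^ (n - k - 2 * j)) ≤
        ((HpK (n - k) N r0).ncard : ℝ) * xc ^ (n - k) := by
    intro k _
    refine le_trans (le_of_eq ?_) (conv_K r0 N (n - k))
    refine Finset.sum_congr ?_ fun _ _ => rfl
    ext j
    rw [Finset.mem_filter, Finset.mem_filter, Finset.mem_range, Finset.mem_range]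
    omega
  have h5 : ∑ k ∈ Finset.range (K + 1), (cI (k + 1) : ℝ) * ((HpK (n - k) N r0).ncard : ℝ) ≤
      12 * (SawK n (K + 2 * N) (3 * r0)).ncard := by
    exact_mod_cast count_K n N r0 K hr0 hK
  rw [h1]
  refine h2.trans (h3.le.trans ?_)
  calc ∑ k ∈ Finset.range (K + 1), ((cI (k + 1) : ℝ) * xc ^ (k + 1)) *
        ∑ j ∈ (Finset.range (n + 1)).filter (fun j => 2 * j ≤ n - k ∧ N < j),
          ubK r0 N j * ((cI (n - k - 2 * j) : ℝ) * xc ^ (n - k - 2 * j)) ≤
      ∑ k ∈ Finset.range (K + 1), (cI (k + 1) : ℝ) * ((HpK (n - k) N r0).ncard : ℝ) * xc ^ (n + 1) := by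
        refine Finset.sum_le_sum fun k hk => ?_
        have h6 := h4 k hk
        rw [Finset.mem_range] at hk
        calc _ ≤ ((cI (k + 1) : ℝ) * xc ^ (k + 1)) * (((HpK (n - k) N r0).ncard : ℝ) * xc ^ (n - k)) :=
              mul_le_mul_of_nonneg_left h6 (by positivity)
          _ = (cI (k + 1) : ℝ) * ((HpK (n - k) N r0).ncard : ℝ) * (xc ^ (k + 1) * xc ^ (n - k)) := by ring
          _ = _ := by rw [← pow_add, show k + 1 + (n - k) = n + 1 by omega]
    _ = (∑ k ∈ Finset.range (K + 1), (cI (k + 1) : ℝ) * ((HpK (n - k) N r0).ncard : ℝ)) * xc ^ (n + 1) := by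
        rw [Finset.sum_mul]
    _ ≤ 12 * (SawK n (K + 2 * N) (3 * r0)).ncard * xc ^ (n + 1) := mul_le_mul_of_nonneg_right h5 (by positivity)
    _ = 12 * (((SawK n (K + 2 * N) (3 * r0)).ncard : ℝ) * xc ^ n) * xc := by ring
    _ ≤ 12 * (((SawK n (K + 2 * N) (3 * r0)).ncard : ℝ) * xc ^ n) * 1 := by
        apply mul_le_mul_of_nonneg_left _ (by positivity)
        linarith [xc_le]
    _ = _ := mul_one _

end VP

end HexObs
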