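import Pool.Agent.CRT.PosA
import Pool.Agent.EN.FactsM

/-!
CRT, row 11A, VPos, part 2: a positive part of the words with exactly n letters has a cut in the middle.
-/

set_option autoImplicit false

namespace HexObs

namespace VP

open Finset TS SDN NTW NTA PtC NTSF.Pt BAR EN

open scoped ENNReal

/-- the convolution from below (`PtC.conv_low` with the places) -/
theorem conv_low {N u : ℕ → ℝ} (hN : ∀ k, 0 ≤ N k) {s v D : ℝ} {n M : ℕ} (hn : n % 2 = 1)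
    (hM : 4 * M ≤ n) (huv : ∀ j, M ≤ j → 1 ≤ j → j ≤ n → v ≤ u j)
    (hconv : ∀ F : Finset (ℕ × ℕ × ℕ), (∀ p ∈ F, p.1 + 2 * p.2.1 + p.2.2 = n ∧ p.1 ≤ M ∧ M ≤ p.2.1) →
      ∑ p ∈ F, N (p.1 + 1) * (u p.2.1 * N p.2.2) ≤ D * s) (hv : 0 ≤ v) :
    v * ((∑ k ∈ Icc 1 M, N k) ^ 2 / 2) ≤ D * s := by
  classical
  obtain ⟨P, hP⟩ : ∃ P : Finset (ℕ × ℕ), P = (Icc 1 M ×ˢ Icc 1 M).filter (fun q : ℕ × ℕ => (q.1 + q.2) % 2 = 0) :=
    ⟨_, rfl⟩
  have hmem : ∀ q ∈ P, 1 ≤ q.1 ∧ q.1 ≤ M ∧ 1 ≤ q.2 ∧ q.2 ≤ M ∧ (q.1 + q.2) % 2 = 0 := by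
    intro q hq
    rw [hP, mem_filter, mem_product, mem_Icc, mem_Icc] at hq
    exact ⟨hq.1.1.1, hq.1.1.2, hq.1.2.1, hq.1.2.2, hq.2⟩
  obtain ⟨f, hf⟩ : ∃ f : ℕ × ℕ → ℕ × ℕ × ℕ, f = fun q => (q.1 - 1, (n - (q.1 - 1) - q.2) / 2, q.2) := ⟨_, rfl⟩
  have hinj : Set.InjOn f P := by
    intro q hq q' hq' h
    have a := hmem q hq
    have b := hmem q' hq'
    rw [hf] at h
    have e1 := congrArg Prod.fst h
    have e2 := congrArg (fun x : ℕ × ℕ × ℕ => x.2.2) h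
    simp only at e1 e2
    refine Prod.ext ?_ e2
    omega
  have h1 := hconv (P.image f) (by
    intro p hp
    obtain ⟨q, hq, rfl⟩ := mem_image.1 hp
    have a := hmem q hq
    rw [hf]
    simp only
    omega)
  rw [sum_image hinj] at h1
  refine le_trans ?_ h1
  refine (mul_le_mul_of_nonneg_left (parity_sum N M) hv).trans ?_
  rw [← hP, mul_sum]
  refine sum_le_sum fun q hq => ?_
  have a := hmem q hq
  have e1 : (f q).1 + 1 = q.1 := by
    rw [hf]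
    simp only
    omega
  have e2 : (f q).2.2 = q.2 := by rw [hf]
  have e3 : v ≤ u (f q).2.1 := by
    rw [hf]
    refine huv _ ?_ ?_ ?_ <;> simp only <;> omega
  rw [e1, e2]
  have h2 := mul_nonneg (hN q.1) (hN q.2)
  nlinarith

/-- **bridges with a high start with few letters** -/
theorem ubK_low {s N m : ℕ} {v : ℝ} (hN : N ≤ m) (h : ∀ i, i ≤ N → v ≤ BrL.ub (m - i)) :
    gf {c | c ∈ FPs s ∧ c.length ≤ 2 * N} * ENNReal.ofReal v ≤ ENNReal.ofReal (ubK s N m) := by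
  classical
  have h1 : {c | c ∈ FPs s ∧ c.length ≤ 2 * N} ⊆ ⋃ i ∈ range (N + 1), {c | c ∈ FPs s ∧ c.length = 2 * i} := by
    rintro c ⟨hc, hl⟩
    obtain ⟨r, hr⟩ := FPs_even hc
    rw [Set.mem_iUnion₂]
    exact ⟨r, Finset.mem_range.2 (by omega), hc, by omega⟩
  have h2 : ∀ i ∈ range (N + 1), gf {c | c ∈ FPs s ∧ c.length = 2 * i} * ENNReal.ofReal v ≤
      gf {w | ∃ c ∈ {c | c ∈ FPs s ∧ c.length = 2 * i}, ∃ u ∈ BrL.BLs (2 * (m - i)), w = c ++ u} := by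
    intro i hi
    rw [Finset.mem_range] at hi
    have h3 : ENNReal.ofReal v ≤ gf (BrL.BLs (2 * (m - i))) := by
      refine (ENNReal.ofReal_le_ofReal (h i (by omega))).trans (le_of_eq ?_)
      unfold BrL.ub
      exact ENNReal.ofReal_toReal (BrL.BLs_ne_top _)
    refine (mul_le_mul_right h3 _).trans ?_
    refine mul_le_gf (fun a ha b hb => ⟨a, ha, b, hb, rfl⟩) ?_
    rintro a ⟨⟨j, ha⟩, -⟩ b ⟨⟨r, hb⟩, -⟩ a' ⟨⟨j', ha'⟩, -⟩ b' ⟨⟨r', hb'⟩, -⟩ hab
    exact (FC_unique ha ha' hb hb' hab).1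
  calc gf {c | c ∈ FPs s ∧ c.length ≤ 2 * N} * ENNReal.ofReal v ≤
      (∑ i ∈ range (N + 1), gf {c | c ∈ FPs s ∧ c.length = 2 * i}) * ENNReal.ofReal v := by
        gcongr
        exact (gf_mono h1).trans (BAR.gf_bi_le _ _)
    _ = ∑ i ∈ range (N + 1), gf {c | c ∈ FPs s ∧ c.length = 2 * i} * ENNReal.ofReal v := sum_mul _ _ _
    _ ≤ ∑ i ∈ range (N + 1), gf {w | ∃ c ∈ {c | c ∈ FPs s ∧ c.length = 2 * i},
          ∃ u ∈ BrL.BLs (2 * (m - i)), w = c ++ u} := sum_le_sum h2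
    _ ≤ gf (⋃ i ∈ range (N + 1), {w | ∃ c ∈ {c | c ∈ FPs s ∧ c.length = 2 * i},
          ∃ u ∈ BrL.BLs (2 * (m - i)), w = c ++ u}) := by
        refine BAR.gf_bi_eq _ _ ?_
        rintro i j w ⟨a, ⟨⟨x, ha⟩, hla⟩, b, ⟨⟨y, hb⟩, -⟩, e⟩ ⟨a', ⟨⟨x', ha'⟩, hla'⟩, b', ⟨⟨y', hb'⟩, -⟩, e'⟩
        have h3 := (FC_unique ha ha' hb hb' (e ▸ e')).1
        rw [← h3] at hla'
        omega
    _ ≤ gf (BLK s N (2 * m)) := by
        refine gf_mono ?_
        intro w hw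
        rw [Set.mem_iUnion₂] at hw
        obtain ⟨i, hi, a, ⟨⟨x, ha⟩, hla⟩, b, ⟨⟨y, hb⟩, hlb⟩, e⟩ := hw
        rw [Finset.mem_range] at hi
        refine ⟨?_, a, b, x, y, ha.2.1, ha.1, by omega, hb, e⟩
        rw [e, List.length_append, hla, hlb]
        omega
    _ = ENNReal.ofReal (ubK s N m) := by
        unfold ubK
        exact (ENNReal.ofReal_toReal (BLK_ne_top _ _ _)).symm

theorem cut_core (hI : BrL.IndB) : ∃ c : ℝ, 0 < c ∧ ∀ n s : ℕ, 1 ≤ s → n % 2 = 1 → 22 ≤ n →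
    ENNReal.ofReal (1 / 4) ≤ gf {c | c ∈ FPs s ∧ c.length ≤ 2 * (n / 16)} →
    c * (Ux (n / 8) * Sx (n / 4) ^ 2) ≤ n * (gf (SawK n (n / 4 + 2 * (n / 16)) (3 * s))).toReal := by
  obtain ⟨c, hc, hub⟩ := BrL.ub_low hI
  refine ⟨c / 96, by positivity, fun n s hs1 hn h22 hfp => ?_⟩
  have hn0 : 0 < n := by omega
  have hnR : (0 : ℝ) < n := by exact_mod_cast hn0
  have hU0 : 0 ≤ Ux (n / 8) := sum_nonneg fun j _ => ub_nonneg j
  have hx := xc_pos
  obtain ⟨v, hv⟩ : ∃ v : ℝ, v = c * (Ux (n / 8) / n) := ⟨_, rfl⟩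
  have hv0 : 0 ≤ v := by rw [hv]; positivity
  have h1 := conv_low (N := Nx) (u := ubK s (n / 16)) Nx_nonneg
    (s := ((SawK n (n / 4 + 2 * (n / 16)) (3 * s)).ncard : ℝ) * xc ^ n)
    (v := 1 / 4 * v) (D := 12) (n := n) (M := n / 4) hn (by omega) (by
      intro j hj hj1 hjn
      have h2 := ubK_low (s := s) (N := n / 16) (m := j) (v := v) (by omega) (by
        intro i hi
        refine le_trans ?_ (hub (j - i) (by omega))
        rw [hv]
        refine mul_le_mul_of_nonneg_left ?_ hc.le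
        have h2 : Ux (n / 8) ≤ ∑ i ∈ range (j - i), BrL.ub i := Ux_mono (by omega)
        have h3 : 0 ≤ ∑ i ∈ range (j - i), BrL.ub i := sum_nonneg fun i _ => ub_nonneg i
        have hj0 : (0 : ℝ) < ((j - i : ℕ) : ℝ) := by exact_mod_cast (by omega : 0 < j - i)
        have hjR : ((j - i : ℕ) : ℝ) ≤ n := by exact_mod_cast (by omega : j - i ≤ n)
        calc Ux (n / 8) / n ≤ (∑ i ∈ range (j - i), BrL.ub i) / n := by gcongr
          _ ≤ (∑ i ∈ range (j - i), BrL.ub i) / ((j - i : ℕ) : ℝ) := by gcongr)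
      have h3 := (mul_le_mul_left hfp (ENNReal.ofReal v)).trans h2
      rw [← ENNReal.ofReal_mul (by norm_num), ENNReal.ofReal_le_ofReal_iff (ubK_nonneg _ _ _)] at h3
      exact h3) (fun F hF => conv3_K s n (n / 16) (n / 4) hs1 (by omega) F (fun p hp => by
        have := hF p hp
        exact ⟨this.1, this.2.1, by omega⟩)) (by positivity)
  have h2 : (gf (SawK n (n / 4 + 2 * (n / 16)) (3 * s))).toReal =
      ((SawK n (n / 4 + 2 * (n / 16)) (3 * s)).ncard : ℝ) * xc ^ n := by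
    rw [BAR.gf_ncard (SawK_fin n _ _) (fun t ht => ht.1.1), ENNReal.toReal_ofReal (by positivity)]
  rw [← h2] at h1
  have e : ∑ k ∈ Icc 1 (n / 4), Nx k = Sx (n / 4) := rfl
  rw [e] at h1
  calc c / 96 * (Ux (n / 8) * Sx (n / 4) ^ 2) = n * (1 / 4 * v * (Sx (n / 4) ^ 2 / 2)) / 12 := by
        rw [hv]
        field_simp
        ring
    _ ≤ n * (12 * (gf (SawK n (n / 4 + 2 * (n / 16)) (3 * s))).toReal) / 12 := by gcongr
    _ = _ := by ring

/-- one more letter -/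
lemma SawK_succ {n M : ℕ} (hM : M < n) (h : ℤ) : gf (SawK (n + 1) M h) ≤ 2 * gf (SawK n M h) := by
  have h1 : SawK (n + 1) M h ⊆
      {w | ∃ c ∈ SawK n M h, ∃ s ∈ ({[true], [false]} : Set (List Bool)), w = c ++ s} := by
    rintro t ⟨⟨hl, ht⟩, d, hd, k, hkM, hkn, hdx, hlo, hhi, hlev⟩
    rcases List.eq_nil_or_concat t with rfl | ⟨c, x, rfl⟩
    · simp at hl
    · rw [List.concat_eq_append] at hl ht hlev hdx hlo hhi ⊢
      rw [List.length_append, List.length_singleton] at hl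
      have hc : c.length = n := by omega
      have hv : ∀ i, i ≤ n + 1 → vx oo up (c ++ [x]) i = vx oo up c i := fun i hi => vx_append (by omega)
      refine ⟨c, ⟨⟨hc, fun _ _ _ => Set.mem_univ _, ?_⟩, d, hd, k, hkM, by omega, ?_, ?_, ?_, ?_⟩, [x], ?_, rfl⟩
      · intro i k hik hk
        have h2 := ht.inj i k hik (by rw [List.length_append, List.length_singleton]; omega)
        rwa [hv i (by omega), hv k (by omega)] at h2
      · rwa [dx_append (by omega)] at hdx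
      · intro i hi
        have := hlo i hi
        rwa [hv i (by omega), hv k (by omega)] at this
      · intro j hj hjn
        have := hhi j hj (by omega)
        rwa [hv j (by omega), hv (k + 1) (by omega)] at this
      · rwa [hv k (by omega)] at hlev
      · cases x
        · right
          rfl
        · left
          rfl
  refine (gf_mono h1).trans ((gf_le_mul fun t ht => ht).trans ?_)
  rw [mul_comm]
  exact mul_le_mul_left gf_two _

variable {m : ℕ → ℝ}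

/-- **many walks with exactly n letters have a cut in the middle, every n** -/
theorem cut_big (hm : MLow m) (hd : MUp m) (hB : TB m) (hH : NTA.HT m) (hI : BrL.IndB) :
    ∃ (c : ℝ) (a k0 : ℕ), 0 < c ∧ a ≤ k0 ∧ ∀ k n : ℕ, k0 ≤ k → m k ≤ n → n < m (k + 1) →
      ENNReal.ofReal c * nuX m k ≤ gf (SawK n (n / 2) (2 ^ (k - a) : ℕ)) := by
  obtain ⟨c1, hc1, hcore⟩ := cut_core hI
  obtain ⟨c2, k1, hc2, hcon⟩ := FL.consts hm hB hH
  obtain ⟨lamB, hlB, hshort⟩ := half_short hB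
  obtain ⟨Cm, hCm, hup⟩ := hd
  obtain ⟨aU, haU⟩ := Ub_small (ε := 1 / 4) (by norm_num)
  obtain ⟨i, hi⟩ := pow_unbounded_of_one_lt (32 * lamB) (one_lt_two (α := ℝ))
  have hm0 := hm.pos 0
  have hCm0 : 0 < Cm := by linarith
  obtain ⟨c3, hc3⟩ : ∃ c3 : ℝ, c3 = c1 * c2 / (4 * Cm) := ⟨_, rfl⟩
  have hc30 : 0 < c3 := by rw [hc3]; positivity
  refine ⟨c3 / 2, i + aU, k1 + i + aU, by positivity, by omega, fun k n hk hkn hnk => ?_⟩
  have hmk := hm.pos k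
  obtain ⟨hn22, -⟩ := hcon k n (by omega) hkn
  obtain ⟨n', hodd, hnn', hn'n⟩ : ∃ n', n' % 2 = 1 ∧ n ≤ n' ∧ n' ≤ n + 1 := by
    rcases Nat.mod_two_eq_zero_or_one n with h | h
    · exact ⟨n + 1, by omega, by omega, le_rfl⟩
    · exact ⟨n, h, le_rfl, by omega⟩
  have hn'22 : 22 ≤ n' := by omega
  have hnR : (22 : ℝ) ≤ n := by exact_mod_cast hn22
  have hn'R : (22 : ℝ) ≤ n' := by exact_mod_cast hn'22
  have hnn'R : (n : ℝ) ≤ n' := by exact_mod_cast hnn'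
  have hn'nR : (n' : ℝ) ≤ n + 1 := by exact_mod_cast hn'n
  have hkn' : m k ≤ n' := hkn.trans hnn'R
  obtain ⟨-, hcn⟩ := hcon k n' (by omega) hkn'
  obtain ⟨kb, hkb⟩ : ∃ kb, k = kb + i := ⟨k - i, by omega⟩
  obtain ⟨j, hj⟩ : ∃ j, kb = j + aU := ⟨kb - aU, by omega⟩
  have hmb := hm.pos kb
  have f1 : lamB * m kb ≤ ((2 * (n' / 16) : ℕ) : ℝ) := by
    have h1 := m_two hm kb i
    rw [← hkb] at h1
    have h2 : 32 * lamB * m kb ≤ n' := by nlinarith
    have h3 : n' < 16 * (n' / 16) + 16 := by omega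
    have h4 : (n' : ℝ) < 16 * ((n' / 16 : ℕ) : ℝ) + 16 := by exact_mod_cast h3
    push_cast
    linarith
  have hs := hshort kb _ f1
  have hUU : UU (2 ^ j) ≤ 1 / 4 * UU (2 ^ kb) := by
    have h1 := haU kb (by omega)
    rwa [show kb - aU = j by omega] at h1
  have hG := hcore n' (2 ^ j) Nat.one_le_two_pow hodd hn'22 (fp_gen hs hUU)
  obtain ⟨x, hx⟩ : ∃ x, x = (Xb k).toReal := ⟨_, rfl⟩
  have hx0 : 0 ≤ x := by rw [hx]; exact ENNReal.toReal_nonneg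
  have hxe : Xb k = ENNReal.ofReal x := by rw [hx, ENNReal.ofReal_toReal (Xb_ne_top k)]
  obtain ⟨G, hGd⟩ : ∃ G, G = gf (SawK n' (n' / 4 + 2 * (n' / 16)) (3 * ((2 ^ j : ℕ) : ℤ))) := ⟨_, rfl⟩
  rw [← hGd] at hG
  rw [← hx] at hcn
  have hGt : G ≠ ⊤ := by
    rw [hGd, BAR.gf_ncard (SawK_fin n' _ _) (fun t ht => ht.1.1)]
    exact ENNReal.ofReal_ne_top
  have hUb := Ub_pos k
  have hG2 : c3 * (Ub k / m k * x ^ 2) ≤ G.toReal := by
    have h1 : (n' : ℝ) ≤ 2 * Cm * m k := by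
      have h2 := hup k
      nlinarith
    have h2 : c1 * (c2 * (Ub k * x ^ 2)) ≤ c1 * (Ux (n' / 8) * Sx (n' / 4) ^ 2) :=
      mul_le_mul_of_nonneg_left hcn hc1.le
    have h3 : c1 * (c2 * (Ub k * x ^ 2)) ≤ 2 * Cm * m k * G.toReal :=
      h2.trans (hG.trans (mul_le_mul_of_nonneg_right h1 ENNReal.toReal_nonneg))
    have h4 : c3 * (Ub k / m k * x ^ 2) * (2 * Cm * m k) ≤ c1 * (c2 * (Ub k * x ^ 2)) := by
      have h5 : c3 * (Ub k / m k * x ^ 2) * (2 * Cm * m k) = c1 * (c2 * (Ub k * x ^ 2)) / 2 := by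
        rw [hc3]
        field_simp
        ring
      rw [h5]
      have : 0 ≤ c1 * (c2 * (Ub k * x ^ 2)) := by positivity
      linarith
    have h5 : 0 < 2 * Cm * m k := by positivity
    refine le_of_mul_le_mul_right ?_ h5
    rw [mul_comm (G.toReal)]
    exact h4.trans h3
  have hG3 : ENNReal.ofReal c3 * nuX m k ≤ G := by
    unfold nuX
    rw [hxe, ← ENNReal.ofReal_pow hx0, ← ENNReal.ofReal_mul (by positivity), ← ENNReal.ofReal_mul hc30.le]
    exact (ENNReal.ofReal_le_ofReal hG2).trans (le_of_eq (ENNReal.ofReal_toReal hGt))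
  -- from n' to n
  have hja : k - (i + aU) = j := by omega
  obtain ⟨T, hT⟩ : ∃ T, T = gf (SawK n (n / 2) ((2 ^ (k - (i + aU)) : ℕ) : ℤ)) := ⟨_, rfl⟩
  rw [hja] at hT ⊢
  rw [← hT]
  have hGT : G ≤ 2 * T := by
    rw [hGd, hT]
    have e3 : ((2 ^ j : ℕ) : ℤ) ≤ 3 * ((2 ^ j : ℕ) : ℤ) := by
      have : (0 : ℤ) ≤ ((2 ^ j : ℕ) : ℤ) := Int.natCast_nonneg _
      linarith
    rcases Nat.lt_or_ge n n' with h | h
    · obtain rfl : n' = n + 1 := by omega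
      exact (gf_mono (SawK_mono (by omega) e3)).trans (SawK_succ (M := n / 2) (by omega) _)
    · obtain rfl : n' = n := by omega
      refine (gf_mono (SawK_mono (M' := n' / 2) (by omega) e3)).trans ?_
      calc gf (SawK n' (n' / 2) ((2 ^ j : ℕ) : ℤ)) = 1 * gf (SawK n' (n' / 2) ((2 ^ j : ℕ) : ℤ)) := (one_mul _).symm
        _ ≤ 2 * _ := mul_le_mul_left (by norm_num) _
  have h1 : ENNReal.ofReal c3 * nuX m k ≤ 2 * T := hG3.trans hGT
  have h2 : ENNReal.ofReal c3 = 2 * ENNReal.ofReal (c3 / 2) := by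
    rw [show (2 : ℝ≥0∞) = ENNReal.ofReal 2 by norm_num, ← ENNReal.ofReal_mul (by norm_num)]
    congr 1
    ring
  rw [h2, mul_assoc] at h1
  exact (ENNReal.mul_le_mul_iff_right (by norm_num) (by norm_num)).1 h1

end VP

end HexObs
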