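import Pool.Agent.CRT.Defs

/-!
# CRT, row 11A (idea: helper11; this form: helper66): Q1 gives the regular variation of the numbers of walks

Junction: a cut edge. `Cut s k`: the edge number `k` of the walk is horizontal, the walk is to its left before and to its right
after. The walks with first cut `k` to the right of `a` factorise EXACTLY (`VProd`): `wF a n k = C a k * h (n - k)`, with
`h` independent of `a`. Hence for all `a, a'` and all sets of times the masses
`M a A B = ∑ (k ∈ A, m ∈ B) wF a (k + m) k` satisfy `M a A B * M a' A' B' = M a A B' * M a' A' B`.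
Macroscopic limit of `M`: `VLim`, from `VK`: near an approximate cut there is a cut.

* `VProd`: exact; `VK`: lattice; `VPos`: lattice; `VLim`: from `VK`; `VEnd`: the rest (no bounds for half plane walks needed).
-/

set_option autoImplicit false

open Set Filter Topology MeasureTheory
open scoped ENNReal

namespace Pool.Agent.CRT.V

open Pool.Agent.NTS.Res
open Pool.Agent.NPR

/-- the edge number `k` (from the position `k` to the position `k + 1`) is horizontal, all the positions before it are weakly to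
the left of its left end and all the positions after it are weakly to the right of its right end -/
def Cut {n : ℕ} (s : Fin n → Fin 3) (k : ℕ) : Prop :=
  k < n ∧ Even k ∧ pos s (k + 1) = pos s k + 1 ∧ (∀ i : ℕ, i ≤ k → (pos s i).re ≤ (pos s k).re) ∧
    ∀ j : ℕ, k < j → j ≤ n → (pos s (k + 1)).re ≤ (pos s j).re

/-- `k` is the first cut at or to the right of `a` -/
def Fst {n : ℕ} (a : ℝ) (s : Fin n → Fin 3) (k : ℕ) : Prop :=
  Cut s k ∧ a ≤ (pos s k).re ∧ ∀ i : ℕ, i < k → Cut s i → (pos s i).re < a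

open Classical in
/-- critical weight of the walks with `n` steps whose first cut at or to the right of `a` is `k` -/
noncomputable def wF (a : ℝ) (n k : ℕ) : ℝ := (((saw n).filter fun s => Fst a s k).card : ℝ) * fug ^ n

/-- **A1**: exact factorisation -/
def VProd : Prop := ∃ h : ℕ → ℝ, ∀ a : ℝ, ∃ C : ℕ → ℝ, ∀ n k : ℕ, k ≤ n → wF a n k = C k * h (n - k)

open Classical in
/-- **K** (left sided): to the left of every approximate cut `(k, x)`, at distances between `τ` and `ε`, there is a cut -/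
def VK : Prop := ∀ ε : ℝ, 0 < ε → ∃ τ : ℝ, 0 < τ ∧ τ < ε ∧ ∃ n0 : ℕ, ∀ n : ℕ, n0 ≤ n →
  (((saw n).filter fun s => ∃ (k : ℕ) (x : ℝ), ε * n ≤ k ∧ (k : ℝ) ≤ (1 - ε) * n ∧ ε * size n ≤ x ∧
    (∀ i : ℕ, i ≤ k → (pos s i).re ≤ x + τ * size n) ∧ (∀ j : ℕ, k ≤ j → j ≤ n → x - τ * size n ≤ (pos s j).re) ∧
    ∀ i : ℕ, Cut s i → (pos s i).re < x - ε * size n ∨ x - τ * size n ≤ (pos s i).re).card : ℝ) ≤ ε * ((saw n).card : ℝ)

open Classical in
/-- **P**: with a probability that is bounded below there is a cut at a macroscopic position, not too late -/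
def VPos : Prop := ∃ ε : ℝ, 0 < ε ∧ ∃ n0 : ℕ, ∀ n : ℕ, n0 ≤ n →
  ε * ((saw n).card : ℝ) ≤
    (((saw n).filter fun s => ∃ k : ℕ, (k : ℝ) ≤ (1 - ε) * n ∧ Cut s k ∧ ε * size n ≤ (pos s k).re).card : ℝ)

open Classical in
/-- probability of a cut to the right of `a * size n`, not later than `t * n` -/
noncomputable def Dn (n : ℕ) (a t : ℝ) : ℝ :=
  (((saw n).filter fun s => ∃ k : ℕ, (k : ℝ) ≤ t * n ∧ Cut s k ∧ a * size n ≤ (pos s k).re).card : ℝ) / ((saw n).card : ℝ)

/-- the weak cuts of a curve -/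
def WCut (γ : CI) (u : unitInterval) : Prop := (∀ v, v ≤ u → (γ v).re ≤ (γ u).re) ∧ ∀ v, u ≤ v → (γ u).re ≤ (γ v).re

/-- curves with a weak cut to the right of `a`, not later than `t` -/
def FC (a t : ℝ) : Set CI := {γ | ∃ u : unitInterval, (u : ℝ) ≤ t ∧ a ≤ (γ u).re ∧ WCut γ u}

/-- **L**: the limit of the probabilities of the cuts, up to a shift of the parameters -/
def VLim : Prop := ∀ ν : Measure CI, IsProbabilityMeasure ν → LawTo (fun n => n) ν →
  ∀ a t : ℝ, 0 < a → 0 < t → t < 1 → ∀ δ : ℝ, 0 < δ → ∀ᶠ n : ℕ in atTop,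
    (ν (FC (a + δ) (t - δ))).toReal - δ ≤ Dn n a t ∧ Dn n a t ≤ (ν (FC a t)).toReal + δ

end Pool.Agent.CRT.V
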