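import Pool.Agent.CRT.PosB
import Pool.Agent.CRT.VDefs
import Pool.Agent.CRT.Mass

/-!
CRT, row 11A, VPos, part 3: from the words to the walks; parity of the cut; direction of the cut.
-/

set_option autoImplicit false

namespace Pool.Agent.CRT.V

open Pool.Agent.NTS.Res

open Finset

open scoped ENNReal Classical

namespace VP

open HexObs hiding pos curve

open HexObs.TS HexObs.SDN HexObs.NTW HexObs.VP

open NTF (sw JJ)

open NTSF (pos_zero pos_succ mem_saw card_saw rot pos_rot rot_mem pos_sw om om_norm size_nonneg saw_card_pos)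

/-! ### 1. The words -/

lemma scale_ex {m : ℕ → ℝ} {c : ℝ} (hc : 0 < c) (hlo : ∀ k : ℕ, c * (2 : ℝ) ^ (4 / 3 * (k : ℝ)) ≤ m k) (k0 : ℕ) :
    ∃ N : ℕ, ∀ n : ℕ, N ≤ n → ∃ k : ℕ, k0 ≤ k ∧ (m k ≤ n ∧ (n : ℝ) < m (k + 1)) := by
  obtain ⟨N, hN⟩ := exists_nat_ge (m k0)
  refine ⟨N, fun n hn => ?_⟩
  have hn' : m k0 ≤ n := hN.trans (by exact_mod_cast hn)
  have hat : Filter.Tendsto m Filter.atTop Filter.atTop := by
    have h1 : Filter.Tendsto (fun k : ℕ => c * (2 : ℝ) ^ k) Filter.atTop Filter.atTop :=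
      (tendsto_pow_atTop_atTop_of_one_lt (by norm_num : (1 : ℝ) < 2)).const_mul_atTop hc
    refine Filter.tendsto_atTop_mono (fun k => ?_) h1
    refine le_trans ?_ (hlo k)
    refine mul_le_mul_of_nonneg_left ?_ hc.le
    rw [← Real.rpow_natCast]
    refine Real.rpow_le_rpow_of_exponent_le (by norm_num) ?_
    have : (0 : ℝ) ≤ k := Nat.cast_nonneg k
    linarith
  obtain ⟨K, hK⟩ := Filter.eventually_atTop.1 (hat.eventually_gt_atTop (n : ℝ))
  have hex : ∃ j : ℕ, (n : ℝ) < m (k0 + j) := ⟨K, hK _ (by omega)⟩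
  obtain ⟨j, hj⟩ : ∃ j, j = Nat.find hex := ⟨_, rfl⟩
  have h1 : (n : ℝ) < m (k0 + j) := hj ▸ Nat.find_spec hex
  rcases Nat.eq_zero_or_pos j with h0 | h0
  · rw [h0, add_zero] at h1
    linarith
  · have h2 : ¬ (n : ℝ) < m (k0 + (j - 1)) := Nat.find_min hex (by omega)
    refine ⟨k0 + (j - 1), by omega, not_lt.1 h2, ?_⟩
    rw [show k0 + (j - 1) + 1 = k0 + j by omega]
    exact h1

theorem words_low : ∃ c c' : ℝ, 0 < c ∧ 0 < c' ∧ ∃ n0 : ℕ, ∀ n : ℕ, n0 ≤ n → ∃ h : ℕ,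
    c' * (n : ℝ) ^ (3 / 4 : ℝ) ≤ h ∧ ENNReal.ofReal c * gf (SawN n) ≤ gf (SawK n (n / 2) h) := by
  obtain ⟨c1, a, k0, hc1, hak, hcut⟩ := cut_big NTA.mlow_M NTA.mup_M NTA.tb_M EN.ht_M EN.indB_M
  obtain ⟨C, k1, hC, hall⟩ := EN.allX_M
  obtain ⟨cl, hcl, hlo⟩ := VF.mLow VF.sharpZ
  obtain ⟨Cu, hCu, hup⟩ := VF.mUp VF.sharpZ
  obtain ⟨N, hN⟩ := scale_ex hcl hlo (max k0 k1)
  refine ⟨c1 / C, 1 / (Cu ^ (3 / 4 : ℝ) * 2 ^ (a + 1)), by positivity, by positivity, N, fun n hn => ?_⟩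
  obtain ⟨k, hk, hkn, hnk⟩ := hN n hn
  refine ⟨2 ^ (k - a), ?_, ?_⟩
  · have h1 : (n : ℝ) ≤ Cu * 2 ^ (4 / 3 * ((k + 1 : ℕ) : ℝ)) := hnk.le.trans (hup (k + 1))
    have h2 := Real.rpow_le_rpow (Nat.cast_nonneg n) h1 (by norm_num : (0 : ℝ) ≤ 3 / 4)
    rw [Real.mul_rpow hCu.le (by positivity), ← Real.rpow_mul (by norm_num),
      show 4 / 3 * ((k + 1 : ℕ) : ℝ) * (3 / 4) = ((k + 1 : ℕ) : ℝ) by ring, Real.rpow_natCast] at h2
    have h3 : (2 : ℝ) ^ (k + 1) = 2 ^ (k - a) * 2 ^ (a + 1) := by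
      rw [← pow_add]
      congr 1
      have : a ≤ k := hak.trans ((le_max_left k0 k1).trans hk)
      omega
    rw [h3] at h2
    push_cast
    rw [one_div, inv_mul_le_iff₀ (by positivity)]
    calc (n : ℝ) ^ (3 / 4 : ℝ) ≤ Cu ^ (3 / 4 : ℝ) * (2 ^ (k - a) * 2 ^ (a + 1)) := h2
      _ = _ := by ring
  · have h1 := hall k n ((le_max_right _ _).trans hk) hkn hnk
    have h2 := hcut k n ((le_max_left _ _).trans hk) hkn hnk
    calc ENNReal.ofReal (c1 / C) * gf (SawN n) ≤ ENNReal.ofReal (c1 / C) * (ENNReal.ofReal C * nuX (fun k => PW.mZ (2 ^ k)) k) :=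
          mul_le_mul_right h1 _
      _ = ENNReal.ofReal c1 * nuX (fun k => PW.mZ (2 ^ k)) k := by
          rw [← mul_assoc, ← ENNReal.ofReal_mul (by positivity)]
          congr 2
          field_simp
      _ ≤ _ := h2

/-! ### 2. General cuts -/

/-- component of z in the direction e -/
noncomputable def cmp (e z : ℂ) : ℝ := (z * (starRingEnd ℂ) e).re

lemma cmp_add (e z w : ℂ) : cmp e (z + w) = cmp e z + cmp e w := by
  unfold cmp
  rw [add_mul, Complex.add_re]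

lemma cmp_sub (e z w : ℂ) : cmp e (z - w) = cmp e z - cmp e w := by
  unfold cmp
  rw [sub_mul, Complex.sub_re]

lemma cmp_neg_neg (e z : ℂ) : cmp (-e) (-z) = cmp e z := by
  unfold cmp
  rw [map_neg, neg_mul_neg]

lemma cmp_one (z : ℂ) : cmp 1 z = z.re := by
  unfold cmp
  rw [map_one, mul_one]

lemma cmp_om (e z : ℂ) : cmp (om * e) (om * z) = cmp e z := by
  unfold cmp
  have h1 : om * z * (starRingEnd ℂ) (om * e) = (om * (starRingEnd ℂ) om) * (z * (starRingEnd ℂ) e) := by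
    rw [map_mul]
    ring
  rw [h1, Complex.mul_conj, Complex.normSq_eq_norm_sq, om_norm]
  norm_num

lemma cmp_le (e z : ℂ) : cmp e z ≤ ‖z‖ * ‖e‖ := by
  unfold cmp
  refine (Complex.re_le_norm _).trans ?_
  rw [norm_mul, RCLike.norm_conj]

lemma cmp_JJ (d p : Pt) : cmp (JJ d) (JJ p) = ((ip p d : ℤ) : ℝ) / 2 := by
  unfold cmp
  rw [Complex.mul_re, Complex.conj_re, Complex.conj_im, NTF.JJ_re, NTF.JJ_re, NTF.JJ_im, NTF.JJ_im]
  have h : Real.sqrt 3 * Real.sqrt 3 = 3 := Real.mul_self_sqrt (by norm_num)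
  unfold ip
  push_cast
  linear_combination ((p.1 : ℝ) * d.1 / 4) * h

/-- general cut: in the direction of its step -/
def GC {n : ℕ} (E : ℝ) (s : Fin n → Fin 3) (k : ℕ) : Prop :=
  k < n ∧ (∀ i : ℕ, i ≤ k → cmp (pos s (k + 1) - pos s k) (pos s i) ≤ cmp (pos s (k + 1) - pos s k) (pos s k)) ∧
  (∀ j : ℕ, k < j → j ≤ n → cmp (pos s (k + 1) - pos s k) (pos s (k + 1)) ≤ cmp (pos s (k + 1) - pos s k) (pos s j)) ∧
  E ≤ cmp (pos s (k + 1) - pos s k) (pos s k)

lemma GC_rot {n : ℕ} {E : ℝ} {s : Fin n → Fin 3} {k : ℕ} : GC E (rot s) k ↔ GC E s k := by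
  unfold GC
  simp only [pos_rot, ← mul_sub, cmp_om]

/-- the event -/
def EV {n : ℕ} (E : ℝ) (M : ℕ) (s : Fin n → Fin 3) : Prop := ∃ k, k ≤ M ∧ GC E s k

lemma EV_rot {n : ℕ} {E : ℝ} {M : ℕ} (s : Fin n → Fin 3) : EV E M (rot s) ↔ EV E M s := by
  unfold EV
  simp only [GC_rot]

lemma EV_sw {n M h : ℕ} {t : List Bool} (ht : t ∈ SawK n M h) : EV ((h : ℝ) / 2) M (sw n t) := by
  obtain ⟨ht, d, hd, k, hkM, hkn, hdx, hlo, hhi, hlev⟩ := ht
  have he : pos (sw n t) (k + 1) - pos (sw n t) k = JJ d := by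
    rw [pos_sw n t (k + 1) (by omega), pos_sw n t k (by omega), ← NTF.JJ_sub, vx_succ, hdx]
    congr 1
    abel
  refine ⟨k, hkM, hkn, ?_, ?_, ?_⟩
  · intro i hi
    rw [he, pos_sw n t i (by omega), pos_sw n t k (by omega), cmp_JJ, cmp_JJ]
    have h1 : ((ip (vx oo up t i) d : ℤ) : ℝ) ≤ ((ip (vx oo up t k) d : ℤ) : ℝ) := by exact_mod_cast hlo i hi
    linarith
  · intro j hj hjn
    rw [he, pos_sw n t j hjn, pos_sw n t (k + 1) (by omega), cmp_JJ, cmp_JJ]
    have h1 : ((ip (vx oo up t (k + 1)) d : ℤ) : ℝ) ≤ ((ip (vx oo up t j) d : ℤ) : ℝ) := by exact_mod_cast hhi j hj hjn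
    linarith
  · rw [he, pos_sw n t k (by omega), cmp_JJ]
    have h1 : (((h : ℕ) : ℤ) : ℝ) ≤ ((ip (vx oo up t k) d : ℤ) : ℝ) := by exact_mod_cast hlev
    push_cast at h1
    linarith

/-- proportions, from below -/
theorem prop_ge {n : ℕ} (hn : 0 < n) (P : (Fin n → Fin 3) → Prop) (hP : ∀ s, P (rot s) ↔ P s)
    {c : ℝ} (hc : 0 ≤ c) {B : Set (List Bool)} (hB : ∀ t ∈ B, t ∈ SawN n ∧ P (sw n t))
    (h : ENNReal.ofReal c * gf (SawN n) ≤ gf B) :
    c * ((saw n).card : ℝ) ≤ (((saw n).filter P).card : ℝ) := by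
  have h1 : ENNReal.ofReal c * gf (SawN n) ≤ gf {t | t ∈ SawN n ∧ P (sw n t)} := h.trans (gf_mono fun t ht => hB t ht)
  rw [NTF.gf_card (n := n) (B := {t | t ∈ SawN n ∧ P (sw n t)}) (fun t ht => ht.1.1),
    NTF.gf_card (n := n) (B := SawN n) (fun t ht => ht.1)] at h1
  have h2 := card_saw hn P hP
  have h3 : 2 * (saw n).card = 3 * (SawN n).ncard := by
    have := card_saw hn (fun _ => True) (fun _ => Iff.rfl)
    rw [Finset.filter_true_of_mem (fun _ _ => trivial)] at this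
    rw [this]
    congr 2
    ext t
    exact ⟨fun h => h.1, fun h => ⟨h, trivial⟩⟩
  rw [← mul_assoc] at h1
  have h5 : ENNReal.ofReal (xc ^ n) ≠ ⊤ := ENNReal.ofReal_ne_top
  have h4 := (ENNReal.mul_le_mul_iff_left (NTF.xcn_pos n) h5).1 h1
  rw [← ENNReal.ofReal_natCast, ← ENNReal.ofReal_natCast, ← ENNReal.ofReal_mul hc] at h4
  have h6 := (ENNReal.ofReal_le_ofReal_iff (by positivity)).1 h4
  have h7 : (2 : ℝ) * (((saw n).filter P).card : ℝ) = 3 * ({t | t ∈ SawN n ∧ P (sw n t)}.ncard : ℝ) := by exact_mod_cast h2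
  have h8 : (2 : ℝ) * ((saw n).card : ℝ) = 3 * ((SawN n).ncard : ℝ) := by exact_mod_cast h3
  have h9 : c * (2 * ((saw n).card : ℝ)) = c * (3 * ((SawN n).ncard : ℝ)) := by rw [h8]
  linarith

/-- **a general cut in the middle has a positive probability** -/
theorem gen_low : ∃ c c' : ℝ, 0 < c ∧ 0 < c' ∧ ∃ n0 : ℕ, ∀ n : ℕ, n0 ≤ n →
    c * ((saw n).card : ℝ) ≤ (((saw n).filter fun s => EV (c' * (n : ℝ) ^ (3 / 4 : ℝ)) (n / 2) s).card : ℝ) := by
  obtain ⟨c, c', hc, hc', n0, h⟩ := words_low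
  refine ⟨c, c' / 2, hc, by positivity, max n0 1, fun n hn => ?_⟩
  obtain ⟨l, hl, hg⟩ := h n ((le_max_left _ _).trans hn)
  have hn1 : 0 < n := lt_of_lt_of_le zero_lt_one ((le_max_right _ _).trans hn)
  refine prop_ge hn1 _ (fun s => EV_rot s) hc.le (fun t ht => ⟨ht.1, ?_⟩) hg
  obtain ⟨k, hk, h1, h2, h3, h4⟩ := EV_sw ht
  exact ⟨k, hk, h1, h2, h3, le_trans (by linarith) h4⟩

/-! ### 3. One step less -/

lemma step_succ (i : ℕ) (a : Fin 3) : step (i + 1) a = -step i a := by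
  unfold step
  rw [pow_succ]
  ring

lemma pos_ini {n : ℕ} (s : Fin (n + 1) → Fin 3) {k : ℕ} (hk : k ≤ n) : pos (fun i : Fin n => s i.castSucc) k = pos s k := by
  induction k with
  | zero => rw [pos_zero, pos_zero]
  | succ k ih =>
    rw [pos_succ _ k (by omega), pos_succ s k (by omega), ih (by omega)]
    rfl

lemma pos_tl {n : ℕ} (s : Fin (n + 1) → Fin 3) {k : ℕ} (hk : k ≤ n) :
    pos (fun i : Fin n => s i.succ) k = -(pos s (k + 1) - pos s 1) := by
  induction k with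
  | zero => rw [pos_zero, zero_add, sub_self, neg_zero]
  | succ k ih =>
    rw [pos_succ _ k (by omega), pos_succ s (k + 1) (by omega), ih (by omega), step_succ]
    have : (⟨k + 1, by omega⟩ : Fin (n + 1)) = (⟨k, by omega⟩ : Fin n).succ := rfl
    rw [this]
    ring

lemma ini_saw {n : ℕ} {s : Fin (n + 1) → Fin 3} (hs : s ∈ saw (n + 1)) : (fun i : Fin n => s i.castSucc) ∈ saw n := by
  rw [mem_saw] at hs ⊢
  intro j k hj hk h
  rw [pos_ini s hj, pos_ini s hk] at h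
  exact hs j k (by omega) (by omega) h

lemma tl_saw {n : ℕ} {s : Fin (n + 1) → Fin 3} (hs : s ∈ saw (n + 1)) : (fun i : Fin n => s i.succ) ∈ saw n := by
  rw [mem_saw] at hs ⊢
  intro j k hj hk h
  rw [pos_tl s hj, pos_tl s hk] at h
  have h1 : pos s (j + 1) = pos s (k + 1) := sub_left_injective (neg_injective h)
  have := hs (j + 1) (k + 1) (by omega) (by omega) h1
  omega

lemma card_ini {n : ℕ} (A : Finset (Fin (n + 1) → Fin 3)) :
    A.card ≤ 3 * (A.image fun s => (fun i : Fin n => s i.castSucc)).card := by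
  refine card_le_mul_card_image A 3 fun b _ => ?_
  have h1 : (Finset.univ : Finset (Fin 3)).card = 3 := by decide
  refine (card_le_card_of_injOn (t := Finset.univ) (fun s => s (Fin.last n)) (fun _ _ => mem_univ _) ?_).trans h1.le
  intro s hs s' hs' h
  rw [Finset.mem_coe, Finset.mem_filter] at hs hs'
  have h2 : (fun i : Fin n => s i.castSucc) = fun i : Fin n => s' i.castSucc := hs.2.trans hs'.2.symm
  funext i
  refine Fin.lastCases ?_ (fun j => ?_) i
  · exact h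
  · exact congrFun h2 j

lemma card_tl {n : ℕ} (A : Finset (Fin (n + 1) → Fin 3)) :
    A.card ≤ 3 * (A.image fun s => (fun i : Fin n => s i.succ)).card := by
  refine card_le_mul_card_image A 3 fun b _ => ?_
  have h1 : (Finset.univ : Finset (Fin 3)).card = 3 := by decide
  refine (card_le_card_of_injOn (t := Finset.univ) (fun s => s 0) (fun _ _ => mem_univ _) ?_).trans h1.le
  intro s hs s' hs' h
  rw [Finset.mem_coe, Finset.mem_filter] at hs hs'
  have h2 : (fun i : Fin n => s i.succ) = fun i : Fin n => s' i.succ := hs.2.trans hs'.2.symm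
  funext i
  refine Fin.cases ?_ (fun j => ?_) i
  · exact h
  · exact congrFun h2 j

/-- the event with an even time -/
def EE {n : ℕ} (E : ℝ) (M : ℕ) (s : Fin n → Fin 3) : Prop := ∃ k, k ≤ M ∧ Even k ∧ GC E s k

lemma norm_step (i : ℕ) (a : Fin 3) : ‖step i a‖ = 1 := by
  unfold step
  rw [norm_mul, norm_pow, norm_neg, norm_one, one_pow, one_mul]
  rw [show 2 * (Real.pi : ℂ) * Complex.I * ((a : ℕ) : ℂ) / 3 = ((2 * Real.pi * (a : ℕ) / 3 : ℝ) : ℂ) * Complex.I by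
    push_cast
    ring]
  exact Complex.norm_exp_ofReal_mul_I _

/-- from n + 1 steps to an even cut of n steps -/
theorem even_of {n M : ℕ} {E : ℝ} (hM : M < n) : ((saw (n + 1)).filter fun s => EV E M s).card ≤
    6 * ((saw n).filter fun s => EE (E - 1) M s).card := by
  obtain ⟨T, hT⟩ : ∃ T, T = (saw n).filter fun s => EE (E - 1) M s := ⟨_, rfl⟩
  obtain ⟨A, hA⟩ : ∃ A, A = (saw (n + 1)).filter fun s => ∃ k, k ≤ M ∧ Even k ∧ GC E s k := ⟨_, rfl⟩
  obtain ⟨B, hB⟩ : ∃ B, B = (saw (n + 1)).filter fun s => ∃ k, k ≤ M ∧ ¬ Even k ∧ GC E s k := ⟨_, rfl⟩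
  have h1 : ((saw (n + 1)).filter fun s => EV E M s) ⊆ A ∪ B := by
    intro s hs
    rw [Finset.mem_filter] at hs
    obtain ⟨hs, k, hk, hg⟩ := hs
    rw [Finset.mem_union, hA, hB, Finset.mem_filter, Finset.mem_filter]
    by_cases h : Even k
    · exact Or.inl ⟨hs, k, hk, h, hg⟩
    · exact Or.inr ⟨hs, k, hk, h, hg⟩
  have h2 : A.image (fun s => (fun i : Fin n => s i.castSucc)) ⊆ T := by
    intro s' hs'
    obtain ⟨s, hs, rfl⟩ := Finset.mem_image.1 hs'
    rw [hA, Finset.mem_filter] at hs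
    obtain ⟨hs, k, hk, hev, hkn, hlo, hhi, hE⟩ := hs
    rw [hT, Finset.mem_filter]
    refine ⟨ini_saw hs, k, hk, hev, by omega, ?_, ?_, ?_⟩
    · intro i hi
      rw [pos_ini s (by omega), pos_ini s (by omega), pos_ini s (by omega)]
      exact hlo i hi
    · intro j hj hjn
      rw [pos_ini s (by omega), pos_ini s (by omega), pos_ini s (by omega)]
      exact hhi j hj (by omega)
    · rw [pos_ini s (by omega), pos_ini s (by omega)]
      linarith
  have h3 : B.image (fun s => (fun i : Fin n => s i.succ)) ⊆ T := by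
    intro s' hs'
    obtain ⟨s, hs, rfl⟩ := Finset.mem_image.1 hs'
    rw [hB, Finset.mem_filter] at hs
    obtain ⟨hs, k, hk, hev, hkn, hlo, hhi, hE⟩ := hs
    obtain ⟨q, rfl⟩ : ∃ q, k = q + 1 := by
      rcases Nat.eq_zero_or_pos k with h | h
      · rw [h] at hev
        exact absurd (by decide) hev
      · exact ⟨k - 1, by omega⟩
    have hqe : Even q := by
      rw [Nat.even_add_one, not_not] at hev
      exact hev
    have he : pos (fun i : Fin n => s i.succ) (q + 1) - pos (fun i : Fin n => s i.succ) q =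
        -(pos s (q + 1 + 1) - pos s (q + 1)) := by
      rw [pos_tl s (by omega), pos_tl s (by omega)]
      ring
    have hc : ∀ j, j ≤ n → cmp (pos (fun i : Fin n => s i.succ) (q + 1) - pos (fun i : Fin n => s i.succ) q)
        (pos (fun i : Fin n => s i.succ) j) = cmp (pos s (q + 1 + 1) - pos s (q + 1)) (pos s (j + 1)) -
          cmp (pos s (q + 1 + 1) - pos s (q + 1)) (pos s 1) := by
      intro j hj
      rw [he, pos_tl s hj, cmp_neg_neg, cmp_sub]
    rw [hT, Finset.mem_filter]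
    refine ⟨tl_saw hs, q, by omega, hqe, by omega, ?_, ?_, ?_⟩
    · intro i hi
      rw [hc i (by omega), hc q (by omega)]
      have := hlo (i + 1) (by omega)
      linarith
    · intro j hj hjn
      rw [hc j (by omega), hc (q + 1) (by omega)]
      have := hhi (j + 1) (by omega) (by omega)
      linarith
    · rw [hc q (by omega)]
      have h4 := cmp_le (pos s (q + 1 + 1) - pos s (q + 1)) (pos s 1)
      have h5 : ‖pos s (q + 1 + 1) - pos s (q + 1)‖ = 1 := by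
        rw [pos_succ s (q + 1) (by omega), add_sub_cancel_left, norm_step]
      have h6 : ‖pos s 1‖ = 1 := by
        have := pos_succ s 0 (by omega)
        rw [zero_add, pos_zero, zero_add] at this
        rw [this, norm_step]
      rw [h5, h6] at h4
      linarith
  have h4 := (card_le_card h1).trans (card_union_le A B)
  have h5 := (card_ini A).trans (Nat.mul_le_mul_left 3 (card_le_card h2))
  have h6 := (card_tl B).trans (Nat.mul_le_mul_left 3 (card_le_card h3))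
  rw [← hT]
  omega

/-! ### 4. The direction -/

lemma rot_inj {n : ℕ} : Function.Injective (rot : (Fin n → Fin 3) → Fin n → Fin 3) := by
  intro s s' h
  funext i
  have h3 : s i + 1 = s' i + 1 := congrFun h i
  exact add_right_cancel h3

/-- the event of `VPos` -/
def CE {n : ℕ} (E : ℝ) (M : ℕ) (s : Fin n → Fin 3) : Prop := ∃ k, k ≤ M ∧ Cut s k ∧ E ≤ (pos s k).re

lemma CE_of {n M : ℕ} {E : ℝ} {s : Fin n → Fin 3} {k : ℕ} (hk : k ≤ M) (hev : Even k) (hg : GC E s k)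
    (h0 : s ⟨k, hg.1⟩ = 0) : CE E M s := by
  obtain ⟨hkn, hlo, hhi, hE⟩ := hg
  have he : pos s (k + 1) - pos s k = 1 := by
    rw [pos_succ s k hkn, add_sub_cancel_left, h0]
    unfold step
    rw [hev.neg_one_pow]
    simp
  simp only [he, cmp_one] at hlo hhi hE
  exact ⟨k, hk, ⟨hkn, hev, by rw [← he]; ring, hlo, fun j hj hjn => hhi j hj hjn⟩, hE⟩

theorem dir_of {n M : ℕ} {E : ℝ} : ((saw n).filter fun s => EE E M s).card ≤ 3 * ((saw n).filter fun s => CE E M s).card := by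
  obtain ⟨T, hT⟩ : ∃ T, T = (saw n).filter fun s => CE E M s := ⟨_, rfl⟩
  have h1 : ((saw n).filter fun s => EE E M s) ⊆ T ∪ ((T.image rot) ∪ (T.image fun s => rot (rot s))) := by
    intro s hs
    rw [Finset.mem_filter] at hs
    obtain ⟨hs, k, hk, hev, hg⟩ := hs
    have hr1 : GC E (rot s) k := GC_rot.2 hg
    have hr2 : GC E (rot (rot s)) k := GC_rot.2 hr1
    have e3 : rot (rot (rot s)) = s := by
      funext i
      show s i + 1 + 1 + 1 = s i
      have : ∀ a : Fin 3, a + 1 + 1 + 1 = a := by decide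
      exact this _
    have hcase : ∀ a : Fin 3, a = 0 ∨ a + 1 = 0 ∨ a + 1 + 1 = 0 := by decide
    rw [Finset.mem_union, Finset.mem_union, Finset.mem_image, Finset.mem_image, hT]
    simp only [Finset.mem_filter]
    rcases hcase (s ⟨k, hg.1⟩) with h | h | h
    · exact Or.inl ⟨hs, CE_of hk hev hg h⟩
    · exact Or.inr (Or.inr ⟨rot s, ⟨rot_mem.2 hs, CE_of hk hev hr1 h⟩, e3⟩)
    · exact Or.inr (Or.inl ⟨rot (rot s), ⟨rot_mem.2 (rot_mem.2 hs), CE_of hk hev hr2 h⟩, e3⟩)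
  have h2 := (card_le_card h1).trans ((card_union_le _ _).trans (Nat.add_le_add_left (card_union_le _ _) _))
  have h3 : (T.image rot).card ≤ T.card := card_image_le
  have h4 : (T.image fun s => rot (rot s)).card ≤ T.card := card_image_le
  rw [← hT]
  omega

end VP

/-- **row P** -/
theorem vPos : VPos := by
  obtain ⟨c, c', hc, hc', n0, hlow⟩ := VP.gen_low
  obtain ⟨ca, Ca, hca, hCa, haN⟩ := _root_.CRT.Mass.aN_bounds
  obtain ⟨cs, Cs, hcs, hsz, -⟩ := NTSF.finE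
  have hCs : 0 < Cs := by
    have h1 := (hsz 1 le_rfl).2
    have h2 := NTSF.size_pos (n := 1) le_rfl
    rw [Nat.cast_one, Real.one_rpow, mul_one] at h1
    linarith
  have hf : 0 ≤ fug := by
    rw [NTSF.fug_eq]
    exact HexObs.xc_pos.le
  have hf1 : fug ≤ 1 := by
    rw [NTSF.fug_eq]
    linarith [HexObs.BAR.xc_le]
  obtain ⟨ε, hε⟩ : ∃ ε : ℝ, ε = min (1 / 4) (min (c * (ca / Ca) / 18) (c' / (2 * Cs))) := ⟨_, rfl⟩
  have hε0 : 0 < ε := by
    rw [hε]
    positivity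
  have hε1 : ε ≤ 1 / 4 := hε ▸ min_le_left _ _
  have hε2 : ε ≤ c * (ca / Ca) / 18 := hε ▸ (min_le_right _ _).trans (min_le_left _ _)
  have hε3 : ε ≤ c' / (2 * Cs) := hε ▸ (min_le_right _ _).trans (min_le_right _ _)
  -- the first length
  have hlim : Filter.Tendsto (fun n : ℕ => c' / 2 * (n : ℝ) ^ (3 / 4 : ℝ)) Filter.atTop Filter.atTop :=
    (((tendsto_rpow_atTop (by norm_num : (0 : ℝ) < 3 / 4)).comp tendsto_natCast_atTop_atTop).const_mul_atTop (by positivity))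
  obtain ⟨n1, hn1⟩ := Filter.eventually_atTop.1 (hlim.eventually_ge_atTop 1)
  refine ⟨ε, hε0, max (max n0 n1) 4, fun n hn => ?_⟩
  have hn0 : n0 ≤ n := (le_max_left _ _).trans ((le_max_left _ _).trans hn)
  have hnn1 : n1 ≤ n := (le_max_right _ _).trans ((le_max_left _ _).trans hn)
  have hn4 : 4 ≤ n := (le_max_right _ _).trans hn
  have hnR : (4 : ℝ) ≤ n := by exact_mod_cast hn4
  have h1 := hlow (n + 1) (by omega)
  have h2 := VP.even_of (n := n) (M := (n + 1) / 2) (E := c' * (((n + 1 : ℕ) : ℝ)) ^ (3 / 4 : ℝ)) (by omega)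
  have h3 := VP.dir_of (n := n) (M := (n + 1) / 2) (E := c' * (((n + 1 : ℕ) : ℝ)) ^ (3 / 4 : ℝ) - 1)
  obtain ⟨X, hX⟩ : ∃ X, X = (saw n).filter fun s => VP.CE (c' * (((n + 1 : ℕ) : ℝ)) ^ (3 / 4 : ℝ) - 1) ((n + 1) / 2) s := ⟨_, rfl⟩
  rw [← hX] at h3
  have h4 : (c * ((saw (n + 1)).card : ℝ)) ≤ 18 * (X.card : ℝ) := by
    refine h1.trans ?_
    have h5 : ((saw (n + 1)).filter fun s => VP.EV (c' * (((n + 1 : ℕ) : ℝ)) ^ (3 / 4 : ℝ)) ((n + 1) / 2) s).card ≤ 18 * X.card := by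
      omega
    exact_mod_cast h5
  -- the numbers of walks
  have h5 : ca / Ca * ((saw n).card : ℝ) ≤ ((saw (n + 1)).card : ℝ) := by
    have a1 := (haN (n + 1) (by omega)).1
    have a2 := (haN n (by omega)).2
    have a3 : (n : ℝ) ^ (11 / 32 : ℝ) ≤ (((n + 1 : ℕ) : ℝ)) ^ (11 / 32 : ℝ) :=
      Real.rpow_le_rpow (by positivity) (by push_cast; linarith) (by norm_num)
    have hfn : 0 ≤ fug ^ n := pow_nonneg hf n
    have hfp : 0 < fug ^ n := by
      rw [NTSF.fug_eq]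
      exact pow_pos HexObs.xc_pos n
    have a4 : ca / Ca * (((saw n).card : ℝ) * fug ^ n) ≤ ((saw (n + 1)).card : ℝ) * fug ^ (n + 1) := by
      calc ca / Ca * (((saw n).card : ℝ) * fug ^ n) ≤ ca / Ca * (Ca * (n : ℝ) ^ (11 / 32 : ℝ)) := by gcongr
        _ = ca * (n : ℝ) ^ (11 / 32 : ℝ) := by field_simp
        _ ≤ ca * (((n + 1 : ℕ) : ℝ)) ^ (11 / 32 : ℝ) := by gcongr
        _ ≤ _ := a1
    have a5 : ((saw (n + 1)).card : ℝ) * fug ^ (n + 1) ≤ ((saw (n + 1)).card : ℝ) * fug ^ n := by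
      refine mul_le_mul_of_nonneg_left ?_ (Nat.cast_nonneg _)
      rw [pow_succ]
      exact mul_le_of_le_one_right hfn hf1
    refine le_of_mul_le_mul_right ?_ hfp
    calc ca / Ca * ((saw n).card : ℝ) * fug ^ n = ca / Ca * (((saw n).card : ℝ) * fug ^ n) := by ring
      _ ≤ _ := a4.trans a5
  have h6 : ε * ((saw n).card : ℝ) ≤ X.card := by
    have hS : (0 : ℝ) ≤ ((saw n).card : ℝ) := Nat.cast_nonneg _
    have h7 : ε * ((saw n).card : ℝ) ≤ c * (ca / Ca) / 18 * ((saw n).card : ℝ) := mul_le_mul_of_nonneg_right hε2 hS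
    have h8 : c * (ca / Ca * ((saw n).card : ℝ)) ≤ c * ((saw (n + 1)).card : ℝ) := mul_le_mul_of_nonneg_left h5 hc.le
    linarith
  refine h6.trans ?_
  have h7 : X ⊆ (saw n).filter fun s => ∃ k : ℕ, (k : ℝ) ≤ (1 - ε) * n ∧ Cut s k ∧ ε * size n ≤ (pos s k).re := by
    intro s hs
    rw [hX, Finset.mem_filter] at hs
    obtain ⟨hs, k, hk, hcut, hE⟩ := hs
    rw [Finset.mem_filter]
    refine ⟨hs, k, ?_, hcut, ?_⟩
    · have a1 : k * 2 ≤ n + 1 := by omega
      have a2 : (k : ℝ) * 2 ≤ n + 1 := by exact_mod_cast a1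
      nlinarith
    · refine le_trans ?_ hE
      have a1 := (hsz n (by omega)).2
      have a2 := hn1 n hnn1
      have a3 : (n : ℝ) ^ (3 / 4 : ℝ) ≤ (((n + 1 : ℕ) : ℝ)) ^ (3 / 4 : ℝ) :=
        Real.rpow_le_rpow (by positivity) (by push_cast; linarith) (by norm_num)
      have a4 : 0 ≤ (n : ℝ) ^ (3 / 4 : ℝ) := by positivity
      have a5 : ε * size n ≤ c' / 2 * (n : ℝ) ^ (3 / 4 : ℝ) := by
        calc ε * size n ≤ c' / (2 * Cs) * (Cs * (n : ℝ) ^ (3 / 4 : ℝ)) :=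
              mul_le_mul hε3 a1 (NTSF.size_nonneg n) (by positivity)
          _ = _ := by field_simp
      have a6 : c' * (n : ℝ) ^ (3 / 4 : ℝ) ≤ c' * (((n + 1 : ℕ) : ℝ)) ^ (3 / 4 : ℝ) := by gcongr
      linarith
  exact_mod_cast card_le_card h7

end Pool.Agent.CRT.V
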