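import Pool.Agent.NPR.ExN

/-!
# CRT, row 11A, VK2, part C3 (helper29): bad beginnings with at most (1 - θ) n letters, exactly n letters

* **`pre_th`**: a small critical mass in the box of an event of beginnings gives a small probability that the walk with n steps
  has a beginning in the event with at most (1 - θ) n letters;
* **`pre_rv`**: the same for the reversed walk.
-/

set_option autoImplicit false

namespace HexObs

namespace CRT

open Finset TS SDN TIW NTA TIP NPR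

open scoped ENNReal

open Pool.Agent.IW (rvw rvw_app rvw_mem rvw_rvw split_last Pn_rvw) in
/-- **the walk without its last part is far from the end** -/
theorem far_th {θ ε : ℝ} (hθ : 0 < θ) (hε : 0 < ε) : ∃ c k0 : ℕ, ∀ k n : ℕ, k0 ≤ k → TIP.Sc k n →
    TOG.Pn n {t | ∃ i : ℕ, (i : ℝ) ≤ (1 - θ) * n ∧ hn (vx oo up t i - TIW.en t) < 2 ^ (k - c)} ≤ ε := by
  obtain ⟨c1, hc1, n0, hps⟩ := TIP.NQ.ps (θ := θ) (e := ε) hθ hε
  obtain ⟨a, A, ha, hA, hpow⟩ := TIP.NQ.scale_pow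
  obtain ⟨c, hc⟩ := exists_pow_lt_of_lt_one (show 0 < c1 * a by positivity) (show (1 / 2 : ℝ) < 1 by norm_num)
  refine ⟨c, max (n0 + 1) c, fun k n hk hsc => ?_⟩
  have hkn := le_Sc hsc
  have hk0 : n0 + 1 ≤ k := (le_max_left _ _).trans hk
  have hkc : c ≤ k := (le_max_right _ _).trans hk
  have hn0 : 0 < n := by omega
  have hnum : (2 : ℝ) ^ (k - c) ≤ c1 * (n : ℝ) ^ (3 / 4 : ℝ) := by
    have h1 := (hpow k n hsc.1 hsc.2).1
    have h2 : (2 : ℝ) ^ (k - c) = (1 / 2) ^ c * 2 ^ k := by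
      have : (2 : ℝ) ^ k = 2 ^ c * 2 ^ (k - c) := by
        rw [← pow_add]
        congr 1
        omega
      rw [this, ← mul_assoc, ← mul_pow]
      norm_num
    rw [h2]
    calc (1 / 2 : ℝ) ^ c * 2 ^ k ≤ c1 * a * 2 ^ k := mul_le_mul_of_nonneg_right hc.le (by positivity)
      _ = c1 * (a * 2 ^ k) := by ring
      _ ≤ _ := mul_le_mul_of_nonneg_left h1 hc1.le
  have h3 := hps n (by omega)
  rw [← Pn_rvw hn0] at h3
  refine (Pn_mono fun t ht hbad => ?_).trans h3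
  obtain ⟨i, hi, hi2⟩ := hbad
  have hin : i ≤ n := by
    have h4 : (0 : ℝ) ≤ θ * n := by positivity
    have h5 : (i : ℝ) ≤ n := by linarith
    exact_mod_cast h5
  obtain ⟨s, b, rfl, hs⟩ := split_last hn0 ht.1
  show ∃ j : ℕ, θ * n ≤ j ∧ j ≤ n ∧ ‖NTF.JJ (vx oo up (rvw (s ++ [b])) j)‖ ≤ c1 * (n : ℝ) ^ (3 / 4 : ℝ)
  refine ⟨n - i, ?_, by omega, ?_⟩
  · rw [Nat.cast_sub hin]
    linarith
  · have h4 : hn (vx oo up (rvw (s ++ [b])) (n - i)) = hn (vx oo up (s ++ [b]) i - TIW.en (s ++ [b])) := by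
      rw [rvw_app, vx_append (by rw [rev_length]; omega), MCP.rev_hn s (by omega), MCP.en_snoc, vx_append (by omega)]
      congr 3
      omega
    refine (JJ_hn' _).trans ?_
    rw [h4]
    have h5 : ((hn (vx oo up (s ++ [b]) i - TIW.en (s ++ [b])) : ℤ) : ℝ) < ((2 ^ (k - c) : ℤ) : ℝ) := by exact_mod_cast hi2
    push_cast at h5
    exact h5.le.trans hnum

/-- **the transfer**: from a small critical mass in the box to the words with n letters, bad beginnings with at most (1 - θ) n letters -/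
theorem pre_th {θ ε : ℝ} (hθ : 0 < θ) (hε : 0 < ε) : ∃ (q k0 : ℕ) (e0 : ℝ), 0 < e0 ∧ ∀ k n : ℕ, k0 ≤ k → TIP.Sc k n →
    ∀ P : Set (List Bool), (∀ A E : List Bool, A ∈ P → A ++ E ∈ P) →
      gf {t | t ∈ WL (k + q) ∧ t.length ≤ ML (k + q + 2) ∧ t ∈ P} ≤ ENNReal.ofReal e0 * FK (k + q) →
      TOG.Pn n {t | ∃ j : ℕ, (j : ℝ) ≤ (1 - θ) * n ∧ t.take j ∈ P} ≤ ε := by
  classical
  obtain ⟨τ, hτ, hS⟩ := SLW.slowF (ε / 8) (by positivity)
  obtain ⟨s, hs⟩ := exists_pow_lt_of_lt_one hτ (show (1 / 2 : ℝ) < 1 by norm_num)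
  obtain ⟨c, k1, hfar⟩ := far_th (ε := ε / 8) hθ (by positivity)
  obtain ⟨c2, k2, hS⟩ := hS (c + 1 + s)
  obtain ⟨CA, hCA, hmon, hreg⟩ := SLW.aReg
  obtain ⟨Cb, k3, hbox⟩ := box_n (ε := ε / (8 * CA)) (by positivity)
  obtain ⟨cl, κ, k4, hcl, -, hbig⟩ := EN.factsX_M.big
  obtain ⟨Dx, hDx, hX⟩ := NTA.Xb_pow
  have hDx0 : 0 < Dx := by linarith
  -- the constants
  obtain ⟨q, hq⟩ : ∃ q : ℕ, q = Cb + 1 := ⟨_, rfl⟩
  obtain ⟨CF, hCF⟩ : ∃ CF : ℝ, CF = 2 ^ q * Dx ^ (2 * q) / cl := ⟨_, rfl⟩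
  have hCF0 : 0 < CF := by rw [hCF]; positivity
  obtain ⟨e0, he0⟩ : ∃ e0 : ℝ, e0 = ε / (8 * CF * 2 ^ (c2 + 2)) := ⟨_, rfl⟩
  have he00 : 0 < e0 := by rw [he0]; positivity
  obtain ⟨Z0, hZ0⟩ : ∃ Z0 : ℕ, Z0 = 2 ^ (c2 + 2) := ⟨_, rfl⟩
  refine ⟨q, k1 + k2 + k3 + k4 + (c + 1 + s) + Z0, e0, he00, fun k n hk hsc P hpre hM => ?_⟩
  have hkn := le_Sc hsc
  have h1n : 2 ^ (c2 + 2) ≤ n := by rw [← hZ0]; omega
  have h1n' : 1 ≤ n := Nat.one_le_two_pow.trans h1n
  have hnr : (0 : ℝ) < n := by exact_mod_cast h1n'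
  obtain ⟨a, ha⟩ : ∃ a : ℕ → ℝ, a = fun m => (cS m : ℝ) * xc ^ m := ⟨_, rfl⟩
  have ha0 : ∀ m, 0 < a m := fun m => by rw [ha]; exact aS_pos m
  -- the functional
  obtain ⟨R, hR⟩ : ∃ R : ℕ, R = 2 ^ (k - (c + 1)) := ⟨_, rfl⟩
  have hR1 : 1 ≤ R := by rw [hR]; exact Nat.one_le_two_pow
  have hRc : 2 * R = 2 ^ (k - c) := by
    rw [hR, ← pow_succ']
    congr 1
    omega
  obtain ⟨F, hF⟩ : ∃ F : List Bool → ℝ, F = FP P R := ⟨_, rfl⟩
  have hF0 : ∀ t, 0 ≤ F t := fun t => by rw [hF]; exact FP_nonneg _ _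
  have hF1 : ∀ t, F t ≤ 1 := fun t => by rw [hF]; exact FP_le_one _ _
  have hosc : ∀ A Y, A ++ Y ∈ SA → (∀ i, i ≤ Y.length → hn (vx oo up Y i) < 2 ^ (k - (c + 1 + s))) →
      |F (A ++ Y) - F A| ≤ τ := by
    intro A Y _ hY
    rw [hF]
    have h1 : (2 ^ (k - (c + 1 + s)) : ℕ) ≤ R := by rw [hR]; exact Nat.pow_le_pow_right (by norm_num) (by omega)
    have h2 := FP_osc (P := P) (A := A) (Y := Y) h1 hR1 (by push_cast; exact hY)
    refine h2.trans (le_trans (le_of_eq ?_) hs.le)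
    have h3 : (R : ℝ) = 2 ^ (k - (c + 1 + s)) * 2 ^ s := by
      rw [hR, ← pow_add]
      push_cast
      congr 1
      omega
    rw [h3]
    push_cast
    rw [one_div, inv_pow]
    field_simp
  obtain ⟨S, hSd⟩ : ∃ S : ℕ → ℝ, S = fun m => xc ^ m * ∑ t ∈ sawF m, F t := ⟨_, rfl⟩
  have hslow : ∀ i : ℕ, i * 2 ^ (c2 + 1) ≤ n → S n ≤ S (n + 2 * i) + ε / 8 * a n := by
    intro i hi
    have h1 := hS k n (2 * i) (by omega) hsc (even_two_mul i) (by
      calc 2 * i * 2 ^ c2 = i * 2 ^ (c2 + 1) := by rw [pow_succ]; ring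
        _ ≤ n := hi) F (fun t => abs_le.2 ⟨by linarith [hF0 t], hF1 t⟩) hosc
    have h2 := (abs_le.1 h1).1
    rw [hSd, ha]
    simp only
    linarith
  -- the part outside of the box
  have hout : ∀ i : ℕ, 2 * i ≤ n → TOG.Pn (n + 2 * i) {t | t ∉ WL (k + q)} ≤ ε / (8 * CA) := by
    intro i hi
    have hm2 : ((n + 2 * i : ℕ) : ℝ) ≤ 2 * n := by
      have : n + 2 * i ≤ 2 * n := by omega
      exact_mod_cast this
    have hmn : (n : ℝ) ≤ ((n + 2 * i : ℕ) : ℝ) := by exact_mod_cast Nat.le_add_right _ _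
    rcases lt_or_ge (((n + 2 * i : ℕ) : ℝ)) (PW.mZ (2 ^ (k + 1))) with h1 | h1
    · exact (Pn_mono (S := {t | t ∉ WL (k + q)}) (T := {t | t ∉ WL (k + Cb)})
        fun t _ ht hWt => ht (SDN.WL_mono (by omega) hWt)).trans (hbox k (n + 2 * i) (by omega) ⟨hsc.1.trans hmn, h1⟩)
    · refine (Pn_mono (S := {t | t ∉ WL (k + q)}) (T := {t | t ∉ WL (k + 1 + Cb)})
        fun t _ ht hWt => ht (SDN.WL_mono (by omega) hWt)).trans (hbox (k + 1) (n + 2 * i) (by omega) ⟨h1, ?_⟩)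
      have h2 := mz_low (k + 1) 1
      have h3 := hsc.2
      rw [pow_one] at h2
      calc ((n + 2 * i : ℕ) : ℝ) ≤ 2 * n := hm2
        _ < 2 * PW.mZ (2 ^ (k + 1)) := by linarith
        _ ≤ _ := h2
  have hra : ∀ i : ℕ, 2 * i ≤ n → a (n + 2 * i) ≤ CA * a n := by
    intro i hi
    rw [ha]
    exact hreg (n + 2 * i) n (by omega) (by omega) h1n'
  -- the part in the box
  obtain ⟨g, hg⟩ : ∃ g : ℕ → ℝ, g = fun m => ∑ t ∈ (sawF m).filter (fun t => t ∈ WL (k + q) ∧ t ∈ P), xc ^ m := ⟨_, rfl⟩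
  have hSle : ∀ i : ℕ, 2 * i ≤ n → S (n + 2 * i) ≤ g (n + 2 * i) + ε / 8 * a n := by
    intro i hi
    have h1 : S (n + 2 * i) ≤ g (n + 2 * i) + a (n + 2 * i) * TOG.Pn (n + 2 * i) {t | t ∉ WL (k + q)} := by
      rw [hSd, hg, ha]
      simp only
      rw [← sum_ind, Finset.sum_filter, Finset.mul_sum, Finset.mul_sum, ← Finset.sum_add_distrib]
      refine sum_le_sum fun t _ => ?_
      have hx : (0 : ℝ) ≤ xc ^ (n + 2 * i) := (pow_pos xc_pos _).le
      have h2 := FP_le_ind hpre R t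
      rw [← hF] at h2
      by_cases hW : t ∈ WL (k + q)
      · rw [if_neg (show ¬ t ∈ {t | t ∉ WL (k + q)} from fun h => h hW), mul_zero, add_zero]
        by_cases hP : t ∈ P
        · rw [if_pos ⟨hW, hP⟩]
          calc xc ^ (n + 2 * i) * F t ≤ xc ^ (n + 2 * i) * 1 := mul_le_mul_of_nonneg_left (hF1 t) hx
            _ = _ := mul_one _
        · rw [if_neg hP] at h2
          rw [if_neg (fun h => hP h.2)]
          have h3 : F t = 0 := le_antisymm h2 (hF0 t)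
          rw [h3, mul_zero]
      · rw [if_pos (show t ∈ {t | t ∉ WL (k + q)} from hW), if_neg (fun h => hW h.1), zero_add]
        exact mul_le_mul_of_nonneg_left (hF1 t) hx
    refine h1.trans (add_le_add le_rfl ?_)
    have h2 := hout i hi
    have h3 := hra i hi
    calc a (n + 2 * i) * TOG.Pn (n + 2 * i) {t | t ∉ WL (k + q)} ≤ (CA * a n) * (ε / (8 * CA)) := by
          have h4 : 0 ≤ a n := (ha0 n).le
          have h5 : 0 ≤ a (n + 2 * i) := (ha0 _).le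
          have h6 : 0 ≤ ε / (8 * CA) := by positivity
          calc _ ≤ a (n + 2 * i) * (ε / (8 * CA)) := mul_le_mul_of_nonneg_left h2 h5
            _ ≤ _ := mul_le_mul_of_nonneg_right h3 h6
      _ = ε / 8 * a n := by field_simp
  -- the number of terms
  obtain ⟨N1, hN1⟩ : ∃ N1 : ℕ, N1 = n / 2 ^ (c2 + 1) := ⟨_, rfl⟩
  have hN1a : N1 * 2 ^ (c2 + 1) ≤ n := by rw [hN1]; exact Nat.div_mul_le_self _ _
  have hN1b : n < (N1 + 1) * 2 ^ (c2 + 1) := by
    rw [hN1, add_mul, one_mul]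
    have h1 := Nat.div_add_mod n (2 ^ (c2 + 1))
    have h2 := Nat.mod_lt n (show 0 < 2 ^ (c2 + 1) by positivity)
    rw [mul_comm] at h1
    omega
  have hN11 : 2 ≤ N1 := by
    rw [hN1, Nat.le_div_iff_mul_le (by positivity)]
    calc 2 * 2 ^ (c2 + 1) = 2 ^ (c2 + 2) := by rw [pow_succ 2 (c2 + 1)]; ring
      _ ≤ n := h1n
  have hN1c : n ≤ N1 * 2 ^ (c2 + 2) := by
    have h1 : (N1 + 1) * 2 ^ (c2 + 1) ≤ N1 * 2 ^ (c2 + 2) := by
      rw [show N1 * 2 ^ (c2 + 2) = (2 * N1) * 2 ^ (c2 + 1) by rw [pow_succ 2 (c2 + 1)]; ring]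
      exact Nat.mul_le_mul_right _ (by omega)
    omega
  have hi2 : ∀ i ∈ range N1, i * 2 ^ (c2 + 1) ≤ n ∧ 2 * i ≤ n := by
    intro i hi
    have h1 := mem_range.1 hi
    have h2 : i * 2 ^ (c2 + 1) ≤ N1 * 2 ^ (c2 + 1) := Nat.mul_le_mul_right _ h1.le
    have h3 : 2 ≤ 2 ^ (c2 + 1) := by
      calc 2 = 2 ^ 1 := rfl
        _ ≤ 2 ^ (c2 + 1) := Nat.pow_le_pow_right (by norm_num) (by omega)
    have h4 : i * 2 ≤ i * 2 ^ (c2 + 1) := Nat.mul_le_mul_left _ h3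
    omega
  -- the mass in the box
  have hbox2 : ∑ i ∈ range N1, g (n + 2 * i) ≤ e0 * (CF * n * a n) := by
    obtain ⟨T, hT⟩ : ∃ T : Finset (List Bool), T = (range N1).biUnion fun i =>
      (sawF (n + 2 * i)).filter (fun t => t ∈ WL (k + q) ∧ t ∈ P) := ⟨_, rfl⟩
    have h1 : ∑ t ∈ T, xc ^ t.length = ∑ i ∈ range N1, g (n + 2 * i) := by
      rw [hT, Finset.sum_biUnion]
      · refine sum_congr rfl fun i _ => ?_
        rw [hg]
        refine sum_congr rfl fun t ht => ?_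
        rw [(mem_sawF.1 (mem_filter.1 ht).1).1]
      · intro i _ j _ hij
        rw [Function.onFun, Finset.disjoint_left]
        intro t ht1 ht2
        have e1 := (mem_sawF.1 (mem_filter.1 ht1).1).1
        have e2 := (mem_sawF.1 (mem_filter.1 ht2).1).1
        exact hij (by omega)
    have h2 : gf (T : Set (List Bool)) ≤ gf {t | t ∈ WL (k + q) ∧ t.length ≤ ML (k + q + 2) ∧ t ∈ P} := by
      refine gf_mono fun t ht => ?_
      rw [hT, Finset.mem_coe, Finset.mem_biUnion] at ht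
      obtain ⟨i, hi, ht⟩ := ht
      obtain ⟨ht1, ht2, ht3⟩ := mem_filter.1 ht
      refine ⟨ht2, ?_, ht3⟩
      rw [(mem_sawF.1 ht1).1]
      have h3 := (hi2 i hi).2
      have h4 : (n : ℝ) + n ≤ PW.mZ (2 ^ (k + 2)) := by
        have h5 := mz_low (k + 1) 1
        have h6 := hsc.2
        rw [pow_one] at h5
        have h7 : k + 1 + 1 = k + 2 := rfl
        rw [h7] at h5
        linarith
      have h5 : PW.mZ (2 ^ (k + 2)) ≤ ML (k + q + 2) := (mz_mono (by omega)).trans (ML_ge _)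
      have h6 : ((n + 2 * i : ℕ) : ℝ) ≤ (ML (k + q + 2) : ℝ) := by
        have h7 : ((n + 2 * i : ℕ) : ℝ) ≤ (n : ℝ) + n := by
          have : n + 2 * i ≤ n + n := by omega
          exact_mod_cast this
        linarith
      exact_mod_cast h6
    have h3 : FK (k + q) ≤ ENNReal.ofReal (CF * n * a n) := by
      have hm := mz_pos k
      have hUk := TS.Ub_pos k
      have e1 : ENNReal.ofReal cl * (ENNReal.ofReal (Ub k / PW.mZ (2 ^ k)) * Xb k ^ 2) ≤ ENNReal.ofReal (a n) := by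
        have h5 : gf (SawN n) = ENNReal.ofReal (a n) := by rw [ha]; exact TOG.gf_ncard subset_rfl
        rw [← h5]
        exact (hbig k n (by omega) hsc.1 hsc.2).trans (gf_mono fun t ht => ht.1)
      have e2 : FK (k + q) ≤ ENNReal.ofReal (2 ^ q * Ub k) * (ENNReal.ofReal (Dx ^ q) * Xb k) ^ 2 := by
        unfold FK
        exact mul_le_mul' (ENNReal.ofReal_le_ofReal (SDN.Ub_add k q)) (pow_le_pow_left' (hX k q) 2)
      refine e2.trans ?_
      have e3 : ENNReal.ofReal (2 ^ q * Ub k) * (ENNReal.ofReal (Dx ^ q) * Xb k) ^ 2 =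
          ENNReal.ofReal (2 ^ q * Dx ^ (2 * q) * PW.mZ (2 ^ k) / cl) *
            (ENNReal.ofReal cl * (ENNReal.ofReal (Ub k / PW.mZ (2 ^ k)) * Xb k ^ 2)) := by
        rw [mul_pow, ← ENNReal.ofReal_pow (by positivity)]
        rw [show ENNReal.ofReal (2 ^ q * Dx ^ (2 * q) * PW.mZ (2 ^ k) / cl) *
            (ENNReal.ofReal cl * (ENNReal.ofReal (Ub k / PW.mZ (2 ^ k)) * Xb k ^ 2)) =
            (ENNReal.ofReal (2 ^ q * Dx ^ (2 * q) * PW.mZ (2 ^ k) / cl) * ENNReal.ofReal cl *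
              ENNReal.ofReal (Ub k / PW.mZ (2 ^ k))) * Xb k ^ 2 by ring]
        rw [← mul_assoc]
        congr 1
        rw [← ENNReal.ofReal_mul (by positivity), ← ENNReal.ofReal_mul (by positivity),
          ← ENNReal.ofReal_mul (by positivity)]
        congr 1
        field_simp
        rw [← pow_mul, mul_comm q 2]
      rw [e3]
      refine (mul_le_mul' le_rfl e1).trans ?_
      rw [← ENNReal.ofReal_mul (by positivity)]
      refine ENNReal.ofReal_le_ofReal ?_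
      rw [hCF]
      have h4 := hsc.1
      have h5 := (ha0 n).le
      calc 2 ^ q * Dx ^ (2 * q) * PW.mZ (2 ^ k) / cl * a n ≤ 2 ^ q * Dx ^ (2 * q) * n / cl * a n := by gcongr
        _ = 2 ^ q * Dx ^ (2 * q) / cl * n * a n := by ring
    have h4 : ENNReal.ofReal (∑ i ∈ range N1, g (n + 2 * i)) ≤ ENNReal.ofReal (e0 * (CF * n * a n)) := by
      rw [← h1, ← gf_finset]
      refine (h2.trans hM).trans ?_
      rw [ENNReal.ofReal_mul he00.le]
      exact mul_le_mul' le_rfl h3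
    have h5 : 0 ≤ e0 * (CF * n * a n) := by
      have := (ha0 n).le
      positivity
    exact (ENNReal.ofReal_le_ofReal_iff h5).1 h4
  -- the mean of the functional
  have hmean : S n ≤ 3 * ε / 8 * a n := by
    have h1 : (N1 : ℝ) * S n ≤ ∑ i ∈ range N1, g (n + 2 * i) + N1 * (ε / 4 * a n) := by
      calc (N1 : ℝ) * S n = ∑ _i ∈ range N1, S n := by rw [sum_const, card_range, nsmul_eq_mul]
        _ ≤ ∑ i ∈ range N1, (g (n + 2 * i) + ε / 4 * a n) := by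
            refine sum_le_sum fun i hi => ?_
            have h2 := hslow i (hi2 i hi).1
            have h3 := hSle i (hi2 i hi).2
            linarith
        _ = _ := by rw [sum_add_distrib, sum_const, card_range, nsmul_eq_mul]
    have h2 : e0 * (CF * n * a n) ≤ N1 * (ε / 8 * a n) := by
      have h3 : (n : ℝ) ≤ N1 * 2 ^ (c2 + 2) := by exact_mod_cast hN1c
      have h4 := (ha0 n).le
      calc e0 * (CF * n * a n) ≤ e0 * (CF * (N1 * 2 ^ (c2 + 2)) * a n) := by gcongr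
        _ = N1 * (ε / 8 * a n) := by
            rw [he0]
            field_simp
    have h5 : (0 : ℝ) < N1 := by
      have : 0 < N1 := by omega
      exact_mod_cast this
    have h6 : (N1 : ℝ) * S n ≤ N1 * (3 * ε / 8 * a n) := by
      have h7 := h1.trans (add_le_add (hbox2.trans h2) le_rfl)
      calc (N1 : ℝ) * S n ≤ N1 * (ε / 8 * a n) + N1 * (ε / 4 * a n) := h7
        _ = _ := by ring
    exact le_of_mul_le_mul_left h6 h5
  -- the end
  have hG : TOG.Pn n {t | GP P (2 * R) t = 1} ≤ 3 * ε / 8 := by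
    have h1 : a n * TOG.Pn n {t | GP P (2 * R) t = 1} ≤ S n := by
      rw [ha, hSd]
      simp only
      rw [← sum_ind]
      refine mul_le_mul_of_nonneg_left (sum_le_sum fun t _ => ?_) (pow_pos xc_pos n).le
      by_cases h2 : t ∈ {t | GP P (2 * R) t = 1}
      · rw [if_pos h2, hF]
        have h3 : GP P (2 * R) t = 1 := h2
        have h4 := GP_le_FP (P := P) hR1 t
        linarith
      · rw [if_neg h2]
        exact hF0 t
    have h2 := h1.trans hmean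
    rw [mul_comm] at h2
    exact le_of_mul_le_mul_right h2 (ha0 n)
  have hfin : TOG.Pn n {t | ∃ j : ℕ, (j : ℝ) ≤ (1 - θ) * n ∧ t.take j ∈ P} ≤
      TOG.Pn n {t | ∃ i : ℕ, (i : ℝ) ≤ (1 - θ) * n ∧ hn (vx oo up t i - TIW.en t) < 2 ^ (k - c)} +
        TOG.Pn n {t | GP P (2 * R) t = 1} := by
    refine (Pn_mono (T := {t | ∃ i : ℕ, (i : ℝ) ≤ (1 - θ) * n ∧ hn (vx oo up t i - TIW.en t) < 2 ^ (k - c)} ∪
      {t | GP P (2 * R) t = 1}) fun t ht hbad => ?_).trans (pn_union h1n' _ _)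
    by_cases h1 : ∃ i : ℕ, (i : ℝ) ≤ (1 - θ) * n ∧ hn (vx oo up t i - TIW.en t) < 2 ^ (k - c)
    · exact Or.inl h1
    refine Or.inr ?_
    push Not at h1
    obtain ⟨j, hj, hj2⟩ := hbad
    show GP P (2 * R) t = 1
    unfold GP
    have hjn : j ≤ n := by
      have h4 : (0 : ℝ) ≤ θ * n := by positivity
      have h5 : (j : ℝ) ≤ n := by linarith
      exact_mod_cast h5
    refine if_pos ⟨j, by rw [ht.1]; exact hjn, hj2, fun i hi => ?_⟩
    have h6 : (i : ℝ) ≤ j := by exact_mod_cast hi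
    have h2 := h1 i (by linarith)
    rw [hRc]
    push_cast
    exact h2
  have h8 := hfar k n (by omega) hsc
  linarith

open Pool.Agent.IW (rvw Pn_rvw) in
/-- the same for the reversed walk -/
theorem pre_rv {θ ε : ℝ} (hθ : 0 < θ) (hε : 0 < ε) : ∃ (q k0 : ℕ) (e0 : ℝ), 0 < e0 ∧ ∀ k n : ℕ, k0 ≤ k → TIP.Sc k n →
    ∀ P : Set (List Bool), (∀ A E : List Bool, A ∈ P → A ++ E ∈ P) →
      gf {t | t ∈ WL (k + q) ∧ t.length ≤ ML (k + q + 2) ∧ t ∈ P} ≤ ENNReal.ofReal e0 * FK (k + q) →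
      TOG.Pn n {t | ∃ j : ℕ, (j : ℝ) ≤ (1 - θ) * n ∧ t.take j ∈ P} ≤ ε ∧
      TOG.Pn n {t | ∃ j : ℕ, (j : ℝ) ≤ (1 - θ) * n ∧ (rvw t).take j ∈ P} ≤ ε := by
  obtain ⟨q, k0, e0, he0, h⟩ := pre_th hθ hε
  refine ⟨q, k0 + 1, e0, he0, fun k n hk hsc P hP hM => ?_⟩
  have h1 := h k n (by omega) hsc P hP hM
  have h2 : 0 < n := by
    have := le_Sc hsc
    omega
  refine ⟨h1, ?_⟩
  exact (Pn_rvw h2 {t | ∃ j : ℕ, (j : ℝ) ≤ (1 - θ) * n ∧ t.take j ∈ P}).le.trans h1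

end CRT

end HexObs
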