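import Pool.Agent.SIM.TopHW

/-!
# Scale flow (R), rows R2 and R3 (helper59): the leaf of a strand that crosses a level, local form

**`leaf_win_loc`**: hypotheses on the window `[a, b]` only. The strand is below `z` up to `k` and above `z` behind `k` inside the
window, and deep on both sides at the ends of the window. Then `k` and `k + 1` are in one leaf, which goes up; the leaf begins at
`z - R` at most, ends at `z + R` at least, and outside the window it is far from `z`.
-/

set_option autoImplicit false

namespace HexObs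

namespace CRT

open Finset TS SDN NTW

/-- **local form of `leaf_win`** -/
theorem leaf_win_loc {f : ℕ → ℤ} {n : ℕ} {R : ℤ} {m u : ℕ} {e : ℕ → ℕ} (h : HexObs.SIM.HW f n R m u e) {w a k b : ℕ} {z : ℤ}
    (hR : 0 < R) (hak : a ≤ k) (hkb : k < b) (hbn : b ≤ n)
    (ha : Tight.sg w (f a) ≤ z - 3 * R) (hb : z + 3 * R ≤ Tight.sg w (f b))
    (hlo : ∀ i, a ≤ i → i ≤ k → Tight.sg w (f i) ≤ z) (hhi : ∀ i, k < i → i ≤ b → z < Tight.sg w (f i)) :
    ∃ l, l < m ∧ (∀ y, Tight.sg (u + l) y = Tight.sg w y) ∧ e l ≤ k ∧ k < e (l + 1) ∧ e (l + 1) ≤ n ∧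
      Tight.sg w (f (e l)) ≤ z - R ∧ z + R ≤ Tight.sg w (f (e (l + 1))) ∧
      (∀ i, e l ≤ i → i ≤ a → Tight.sg w (f i) < z - 2 * R) ∧
      (∀ i, b ≤ i → i ≤ e (l + 1) → z + 2 * R < Tight.sg w (f i)) := by
  have hcases : ∀ a : ℕ, (∀ y : ℤ, Tight.sg a y = Tight.sg w y) ∨ (∀ y : ℤ, Tight.sg a y = -Tight.sg w y) := by
    intro a
    unfold Tight.sg
    by_cases h1 : Even a
    · by_cases h2 : Even w
      · left
        intro y
        rw [if_pos h1, if_pos h2]
      · right
        intro y
        rw [if_pos h1, if_neg h2]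
    · by_cases h2 : Even w
      · right
        intro y
        rw [if_neg h1, if_pos h2, neg_neg]
      · left
        intro y
        rw [if_neg h1, if_neg h2]
  obtain ⟨x, hx⟩ : ∃ x : ℕ → ℤ, x = fun i => Tight.sg w (f i) := ⟨_, rfl⟩
  have hx' : ∀ i, Tight.sg w (f i) = x i := fun i => by rw [hx]
  simp only [hx'] at ha hb hlo hhi ⊢
  have hmn : e m ≤ n := h.le
  have hk1 := hhi (k + 1) (by omega) (by omega)
  have hk0 := hlo k hak le_rfl
  -- the two ends
  have h0 : e 0 ≤ k := by
    by_contra hn
    have := h.start_sg w (x := a) (y := k + 1) (by omega) (by omega)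
    rw [hx', hx'] at this
    linarith
  have hm : k < e m := by
    by_contra hn
    have := h.fin_sg w (x := k) (y := b) (by omega) (by omega) (by omega) hbn
    rw [hx', hx'] at this
    linarith
  -- the leaf
  obtain ⟨l, hl, hl1, hl2⟩ : ∃ l, l < m ∧ e l ≤ k ∧ k < e (l + 1) := by
    by_contra hn
    push Not at hn
    have h2 : ∀ l, l ≤ m → e l ≤ k := by
      intro l
      induction l with
      | zero => exact fun _ => h0
      | succ l ih => exact fun hl => hn l (by omega) (ih (by omega))
    have := h2 m le_rfl
    omega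
  have hel : e (l + 1) ≤ n := (h.mono (show l + 1 ≤ m by omega) le_rfl).trans hmn
  have hbig := h.big l hl
  have hsmall := h.small l hl
  have hLO := h.lo l hl
  have hHI := h.hi l hl
  rcases hcases (u + l) with hc | hc
  swap
  · -- a leaf that goes down is impossible
    exfalso
    rcases Nat.lt_or_ge a (e l) with h1 | h1
    · have h2 := hLO (k + 1) (by omega) (by omega)
      rw [hc, hc, hx', hx'] at h2
      have h3 := hlo (e l) h1.le hl1
      linarith
    · have h2 := hsmall a (k + 1) h1 (by omega) (by omega)
      rw [hc, hc, hx', hx'] at h2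
      linarith
  rw [hc, hc, hx', hx'] at hbig
  have hsmall' : ∀ i i', e l ≤ i → i ≤ i' → i' ≤ e (l + 1) → x i - x i' < R := by
    intro i i' h1 h2 h3
    have h4 := hsmall i i' h1 h2 h3
    rwa [hc, hc, hx', hx'] at h4
  have hLO' : ∀ i, e l ≤ i → i ≤ e (l + 1) → x (e l) ≤ x i := by
    intro i h1 h2
    have h4 := hLO i h1 h2
    rwa [hc, hc, hx', hx'] at h4
  have hHI' : ∀ i, e l ≤ i → i ≤ e (l + 1) → x i ≤ x (e (l + 1)) := by
    intro i h1 h2
    have h4 := hHI i h1 h2
    rwa [hc, hc, hx', hx'] at h4
  refine ⟨l, hl, hc, hl1, hl2, hel, ?_, ?_, ?_, ?_⟩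
  · -- the start
    rcases Nat.lt_or_ge a (e l) with h1 | h1
    · rcases Nat.eq_zero_or_pos l with hl0 | hl0
      · subst hl0
        have := h.start_sg w (x := a) (y := e 0) h1.le le_rfl
        rw [hx', hx'] at this
        linarith
      · obtain ⟨l', rfl⟩ : ∃ l', l = l' + 1 := ⟨l - 1, by omega⟩
        have hsg : ∀ y : ℤ, Tight.sg (u + l') y = -Tight.sg w y := by
          intro y
          have := hc y
          rw [← add_assoc, Tight.sg_succ] at this
          omega
        have hlt := h.lt l' (by omega)
        rcases Nat.lt_or_ge a (e l') with h2 | h2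
        · have hb2 := h.big l' (by omega)
          rw [hsg, hsg, hx', hx'] at hb2
          have h3 := hlo (e l') h2.le (by omega)
          linarith
        · have h3 := h.hi l' (by omega) a h2 h1.le
          rw [hsg, hsg, hx', hx'] at h3
          linarith
    · have := hLO' a h1 (by omega)
      linarith
  · -- the end
    rcases Nat.lt_or_ge (e (l + 1)) b with h1 | h1
    · rcases Nat.lt_or_ge (l + 1) m with hlm | hlm
      · have hsg : ∀ y : ℤ, Tight.sg (u + (l + 1)) y = -Tight.sg w y := by
          intro y
          rw [← add_assoc, Tight.sg_succ, hc]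
        have hlt := h.lt (l + 1) hlm
        rcases Nat.lt_or_ge b (e (l + 1 + 1)) with h2 | h2
        · have h3 := h.lo (l + 1) hlm b h1.le h2.le
          rw [hsg, hsg, hx', hx'] at h3
          linarith
        · have hb2 := h.big (l + 1) hlm
          rw [hsg, hsg, hx', hx'] at hb2
          have h3 := hhi (e (l + 1 + 1)) (by omega) h2
          linarith
      · have hlm' : l + 1 = m := by omega
        have := h.fin_sg w (x := e m) (y := b) le_rfl hmn (by rw [← hlm']; exact h1.le) hbn
        rw [hx', hx'] at this
        rw [hlm']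
        linarith
    · have := hHI' b (by omega) h1
      linarith
  · intro i h1 h2
    have := hsmall' i a h1 h2 (by omega)
    linarith
  · intro i h1 h2
    have := hsmall' b i (by omega) h1 h2
    linarith

end CRT

end HexObs
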