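import Pool.Agent.CRT.PchGeo
import Pool.Agent.CRT.RWin

/-!
# Scale flow (R), K-row, window form of V3 (helper59, after helper28's PchGeo): geometry of a pinch, hypotheses on a strand

* `posL_pch_w` : the word of the leaf is a pinched bridge; a cut of the leaf near the level of the pinch is a cut of the strand;
* **`fd_pch_loc`, `fd_pnl_loc`** : a word of the box with a strand `[a, b]` which is deep on both sides, with a pinch and without a
  cut of the strand near the pinch, is in `LeafIn` of the pinched bridges without cuts near the pinch.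
-/

set_option autoImplicit false

namespace HexObs

namespace CRT

open Finset TS SDN NTW

/-- **a cut of the leaf near the pinch is a cut of the strand**, window `[A0, B0]` which contains the leaf. If the strand has
no cut near the pinch then g is a pinched bridge without cuts near the pinch -/
theorem posL_pch_w {b m u l : ℕ} {t : List Bool} {e : ℕ → ℕ} (h : HexObs.SIM.HW (lev t) t.length (RR b) m u e) (hb : 3 ≤ b)
    (hl : l < m) {x : ℕ → ℤ} {w p1 p2 k0 k1 : ℕ} {z q μ ω : ℤ} {E B A0 B0 : ℕ} (hx : ∀ i, x i = Tight.sg w (lev t i))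
    (hA0 : A0 ≤ e l) (hB0 : e (l + 1) ≤ B0) (hc : ∀ y, Tight.sg (u + l) y = Tight.sg w y) (hl1 : e l < p1) (hl2 : p2 < e (l + 1))
    (hlo : x (e l) ≤ z - RR b) (hhi : z + RR b ≤ x (e (l + 1)))
    (hp1 : p1 ≤ k0) (hk : k0 ≤ k1) (hp2 : k1 ≤ p2) (hμ : 3 ≤ μ) (hE : 3 * (E : ℤ) + 3 < q) (hω : ω < q)
    (hB : B + 2 ≤ 2 ^ b) (hEB : E < B)
    (hA : ∀ i, A0 ≤ i → i ≤ p1 → x i ≤ z - q) (hC : ∀ i, p2 ≤ i → i ≤ B0 → z + q ≤ x i)
    (hA' : ∀ i, A0 ≤ i → i ≤ k0 → x i ≤ z - μ) (hB' : ∀ i, k0 ≤ i → i ≤ k1 → |x i - z| ≤ ω)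
    (hC' : ∀ i, k1 ≤ i → i ≤ B0 → z + μ ≤ x i)
    (hno : ¬∃ p, p1 < p ∧ p < p2 ∧ p < t.length ∧ x (p + 1) = x p + 2 ∧ (∀ i, A0 ≤ i → i ≤ p → x i ≤ x p) ∧
      (∀ i, p < i → i ≤ B0 → x p < x i) ∧ |x p - z| ≤ 3 * E + 1)
    {g : List Bool} (hg : PosL t u e l g) {M : ℕ} (hM : g ∈ Brd M) :
    ∃ (a s0 s1 : ℕ), B ≤ a ∧ a + B ≤ M ∧ CutJ.SPin g a (ω + 2) s0 s1 ∧
      ∀ c : ℕ, a ≤ c + E → c ≤ a + E → c < M → ¬Cut g c := by
  obtain ⟨s, v1, v2, v3, v4, v5⟩ := hg
  have hle : e (l + 1) ≤ t.length := (h.mono (show l + 1 ≤ m by omega) le_rfl).trans h.le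
  have hsub : ∀ x y : ℤ, Tight.sg (u + l) (x - y) = Tight.sg (u + l) x - Tight.sg (u + l) y := by
    intro x y
    unfold Tight.sg
    split_ifs <;> ring
  have hlev : ∀ i, 1 ≤ i → i ≤ g.length → lev g i = x (s + i) - x (s + 1) + 2 := by
    intro i i1 i2
    have h3 := v5 i i1 i2
    rw [lev_one, hsub, hc, hc, ← hx, ← hx] at h3
    linarith
  have hstep : ∀ i, |x (i + 1) - x i| ≤ 2 := by
    intro i
    have h1 := xD_step_le (dD_mem false (u + l)) t i
    have h2 := xD_step_le (dirs_neg (dD_mem false (u + l))) t i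
    have h3 : ∀ k, xD (dD false (u + l)) t k = x k := by
      intro k
      rw [hx, ← hc]
      exact xD_dD false (u + l) t k
    have h4 : ∀ k, xD (-dD false (u + l)) t k = -x k := by
      intro k
      rw [← h3 k]
      unfold xD
      rw [ip_neg_right]
    rw [h3, h3] at h1
    rw [h4, h4] at h2
    rw [abs_le]
    constructor <;> linarith
  have hst : ∀ i k : ℕ, |x (i + k) - x i| ≤ 2 * k := by
    intro i k
    induction k with
    | zero => simp
    | succ k ih =>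
      have h1 := abs_le.1 ih
      have h2 := abs_le.1 (hstep (i + k))
      rw [show i + (k + 1) = i + k + 1 by ring, abs_le]
      push_cast
      constructor <;> linarith
  have hRR : RR b = 3 * 2 ^ b - 2 := rfl
  have hpb : (8 : ℤ) ≤ 2 ^ b := by
    have : (2 : ℤ) ^ 3 ≤ 2 ^ b := pow_le_pow_right₀ (by norm_num) hb
    linarith
  -- the length of the leaf
  have hgl : 2 ≤ g.length := by
    obtain ⟨k, hk'⟩ := Nat.exists_eq_add_of_le (show e l ≤ e (l + 1) by omega)
    have h1 := abs_le.1 (hst (e l) k)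
    rw [← hk'] at h1
    omega
  obtain ⟨X, hX⟩ : ∃ X, X = x (s + 1) := ⟨_, rfl⟩
  rw [← hX] at hlev
  have hX1 : X ≤ x (e l) + 4 := by
    obtain ⟨k, hk'⟩ := Nat.exists_eq_add_of_le v1
    have h1 := abs_le.1 (hst (e l) k)
    rw [← hk', ← hX] at h1
    omega
  have hX2 : x (e (l + 1)) - 2 ≤ x (s + g.length) := by
    obtain ⟨k, hk'⟩ := Nat.exists_eq_add_of_le v3
    have h1 := abs_le.1 (hst (s + g.length) k)
    rw [← hk'] at h1
    omega
  have hgM : lev g g.length = 3 * M := (mem_Brd.1 hM).2.2.2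
  have hend := hlev g.length (by omega) le_rfl
  rw [hgM] at hend
  obtain ⟨Z, hZ⟩ : ∃ Z : ℤ, Z = z - X + 2 := ⟨_, rfl⟩
  have hZ1 : 3 * 2 ^ b - 4 ≤ Z := by
    rw [hZ]
    linarith
  obtain ⟨a, ha⟩ : ∃ a : ℕ, ((a : ℕ) : ℤ) = (Z + 1) / 3 := ⟨((Z + 1) / 3).toNat, Int.toNat_of_nonneg (by omega)⟩
  have ha1 : 3 * (a : ℤ) ≤ Z + 1 := by omega
  have ha2 : Z - 1 ≤ 3 * (a : ℤ) := by omega
  have hBz : (B : ℤ) + 2 ≤ 2 ^ b := by exact_mod_cast hB
  have hk0 : s < k0 := by
    by_contra hn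
    have h1 : k0 = p1 := by omega
    have h2 := abs_le.1 (hB' k0 le_rfl hk)
    have h3 := hA k0 (by omega) h1.le
    linarith
  refine ⟨a, k0 - s, k1 - s, by omega, ?_, ⟨?_, ?_, ?_⟩, ?_⟩
  · have : (a : ℤ) + B ≤ M := by omega
    exact_mod_cast this
  · intro i hi
    rcases Nat.eq_zero_or_pos i with h1 | h1
    · rw [h1, lev_zero]
      omega
    · have h4 := hlev i h1 (by omega)
      have h5 := hA' (s + i) (by omega) (by omega)
      linarith
  · intro i hi hi'
    have h4 := hlev i (by omega) (by omega)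
    have h5 := abs_le.1 (hB' (s + i) (by omega) (by omega))
    constructor <;> linarith
  · intro i hi hi'
    have h4 := hlev i (by omega) hi'
    have h5 := hC' (s + i) (by omega) (by omega)
    linarith
  · intro c c1 c2 c3 c4
    obtain ⟨j, j1, j2, j3, j4, j5⟩ := (cut_iff hM).1 c4
    have hj0 : 1 ≤ j := by
      rcases Nat.eq_zero_or_pos j with h3 | h3
      · rw [h3, lev_zero] at j2
        omega
      · exact h3
    have hjl : j < g.length := by
      rcases Nat.lt_or_ge j g.length with h3 | h3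
      · exact h3
      · exfalso
        have : j = g.length := by omega
        rw [this, hgM] at j2
        omega
    have hp := hlev j hj0 j1
    have hpz : |x (s + j) - z| ≤ 3 * E + 1 := by
      rw [abs_le]
      constructor <;> omega
    have hpz' := abs_le.1 hpz
    have hp1' : p1 < s + j := by
      by_contra hn
      have := hA (s + j) (by omega) (by omega)
      linarith
    have hp2' : s + j < p2 := by
      by_contra hn
      have := hC (s + j) (by omega) (by omega)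
      linarith
    refine hno ⟨s + j, hp1', hp2', by omega, ?_, fun i hi0 hi => ?_, fun i hi hi' => ?_, hpz⟩
    · have h3 := hlev (j + 1) (by omega) hjl
      have h4 := lev_succ g j
      rw [j3] at h4
      have h5 : ip up up = 2 := by decide
      rw [h5] at h4
      rw [show s + j + 1 = s + (j + 1) by ring]
      linarith
    · rcases Nat.lt_or_ge p1 i with h3 | h3
      · obtain ⟨k, rfl⟩ := Nat.exists_eq_add_of_le (show s ≤ i by omega)
        have h4 := hlev k (by omega) (by omega)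
        have h5 := j4 k (by omega)
        linarith
      · have := hA i hi0 h3
        linarith
    · rcases Nat.lt_or_ge (s + g.length) i with h3 | h3
      · have := hC i (by omega) hi'
        linarith
      · obtain ⟨k, rfl⟩ := Nat.exists_eq_add_of_le (show s ≤ i by omega)
        have h4 := hlev k (by omega) (by omega)
        have h5 := j5 k (by omega) (by omega)
        linarith

/-- **the window lies in one leaf, which goes up**: local form of helper28's `leaf_win` -/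
theorem leaf_win_slab {f : ℕ → ℤ} {n : ℕ} {R : ℤ} {m u : ℕ} {e : ℕ → ℕ} (h : HexObs.SIM.HW f n R m u e) {w a p1 p2 b : ℕ}
    {z r q : ℤ} (hap : a ≤ p1) (hp : p1 ≤ p2) (hpb : p2 ≤ b) (hbn : b ≤ n) (hq : 0 < q) (hr : 2 * r < R)
    (hA : ∀ i, a ≤ i → i ≤ p1 → Tight.sg w (f i) ≤ z - q) (hB : ∀ i, p1 ≤ i → i ≤ p2 → |Tight.sg w (f i) - z| ≤ r)
    (hC : ∀ i, p2 ≤ i → i ≤ b → z + q ≤ Tight.sg w (f i))
    (hst : Tight.sg w (f a) ≤ z - 4 * R) (hen : z + 4 * R ≤ Tight.sg w (f b)) :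
    ∃ l, l < m ∧ (∀ y, Tight.sg (u + l) y = Tight.sg w y) ∧ e l < p1 ∧ p2 < e (l + 1) ∧ e (l + 1) ≤ n ∧
      Tight.sg w (f (e l)) ≤ z - R ∧ z + R ≤ Tight.sg w (f (e (l + 1))) ∧
      (∀ i, e l ≤ i → i ≤ a → Tight.sg w (f i) < z - 3 * R) ∧
      (∀ i, b ≤ i → i ≤ e (l + 1) → z + 3 * R < Tight.sg w (f i)) := by
  have hcases : ∀ a : ℕ, (∀ y : ℤ, Tight.sg a y = Tight.sg w y) ∨ (∀ y : ℤ, Tight.sg a y = -Tight.sg w y) := by
    intro a
    unfold Tight.sg
    by_cases h1 : Even a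
    · by_cases h2 : Even w
      · left
        intro y
        rw [if_pos h1, if_pos h2]
      · right
        intro y
        rw [if_pos h1, if_neg h2]
    · by_cases h2 : Even w
      · right
        intro y
        rw [if_neg h1, if_pos h2, neg_neg]
      · left
        intro y
        rw [if_neg h1, if_neg h2]
  obtain ⟨x, hx⟩ : ∃ x : ℕ → ℤ, x = fun i => Tight.sg w (f i) := ⟨_, rfl⟩
  have hx' : ∀ i, Tight.sg w (f i) = x i := fun i => by rw [hx]
  simp only [hx'] at hA hB hC hst hen ⊢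
  have hmn : e m ≤ n := h.le
  have hB1 := abs_le.1 (hB p1 le_rfl hp)
  have hB2 := abs_le.1 (hB p2 hp le_rfl)
  have hA1 := hA p1 hap le_rfl
  have hC2 := hC p2 le_rfl hpb
  have hR0 : 0 < R := by
    have : 0 ≤ r := (abs_nonneg _).trans (hB p1 le_rfl hp)
    linarith
  -- the two ends
  have h0 : e 0 < p1 := by
    by_contra hn
    have := h.start_sg w (x := a) (y := p1) (by omega) (by omega)
    rw [hx', hx'] at this
    linarith
  have hm : p2 < e m := by
    by_contra hn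
    have := h.fin_sg w (x := p2) (y := b) (by omega) (by omega) (by omega) hbn
    rw [hx', hx'] at this
    linarith
  -- the leaf
  obtain ⟨l, hl, hl1, hl2⟩ : ∃ l, l < m ∧ e l < p1 ∧ p1 ≤ e (l + 1) := by
    by_contra hn
    push Not at hn
    have h2 : ∀ l, l ≤ m → e l < p1 := by
      intro l
      induction l with
      | zero => exact fun _ => h0
      | succ l ih => exact fun hl => hn l (by omega) (ih (by omega))
    have := h2 m le_rfl
    omega
  have hel : e (l + 1) ≤ n := (h.mono (show l + 1 ≤ m by omega) le_rfl).trans hmn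
  have hbig := h.big l hl
  have hsmall := h.small l hl
  have hLO := h.lo l hl
  have hHI := h.hi l hl
  have hdown : (∀ y : ℤ, Tight.sg (u + l) y = -Tight.sg w y) → a ≤ e l := by
    intro hc
    by_contra hn
    have h2 := hsmall a p1 (by omega) hap hl2
    rw [hc, hc, hx', hx'] at h2
    linarith
  have h3 : p2 < e (l + 1) := by
    by_contra hn
    have hf := abs_le.1 (hB (e (l + 1)) hl2 (by omega))
    rcases hcases (u + l) with hc | hc
    · -- a maximum in the window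
      have hlm : l + 1 < m := by
        by_contra hn2
        have : l + 1 = m := by omega
        rw [this] at hn
        omega
      have hb2 := h.big (l + 1) hlm
      have hsm2 := h.small (l + 1) hlm
      have hsg : ∀ y : ℤ, Tight.sg (u + (l + 1)) y = -Tight.sg w y := by
        intro y
        rw [← add_assoc, Tight.sg_succ, hc]
      rw [hsg, hsg, hx', hx'] at hb2
      have hlt := h.lt (l + 1) hlm
      rcases Nat.lt_or_ge (e (l + 1 + 1)) b with h4 | h4
      · rcases Nat.lt_or_ge p2 (e (l + 1 + 1)) with h5 | h5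
        · have := hC (e (l + 1 + 1)) h5.le h4.le
          linarith
        · have := abs_le.1 (hB (e (l + 1 + 1)) (by omega) h5)
          linarith
      · have h5 := hsm2 (e (l + 1)) b le_rfl (by omega) h4
        rw [hsg, hsg, hx', hx'] at h5
        linarith
    · have h4 := hdown hc
      rw [hc, hc, hx', hx'] at hbig
      have := hA (e l) h4 hl1.le
      linarith
  rcases hcases (u + l) with hc | hc
  swap
  · exfalso
    have h4 := hdown hc
    have h5 := hLO p2 (by omega) h3.le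
    rw [hc, hc, hx', hx'] at h5
    have := hA (e l) h4 hl1.le
    linarith
  rw [hc, hc, hx', hx'] at hbig
  have hsmall' : ∀ i i', e l ≤ i → i ≤ i' → i' ≤ e (l + 1) → x i - x i' < R := by
    intro i i' h1 h2 h3
    have h4 := hsmall i i' h1 h2 h3
    rwa [hc, hc, hx', hx'] at h4
  have hLO' : ∀ i, e l ≤ i → i ≤ e (l + 1) → x (e l) ≤ x i := by
    intro i h1 h2
    have h4 := hLO i h1 h2
    rwa [hc, hc, hx', hx'] at h4
  have hHI' : ∀ i, e l ≤ i → i ≤ e (l + 1) → x i ≤ x (e (l + 1)) := by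
    intro i h1 h2
    have h4 := hHI i h1 h2
    rwa [hc, hc, hx', hx'] at h4
  refine ⟨l, hl, hc, hl1, h3, hel, ?_, ?_, ?_, ?_⟩
  · -- the start
    rcases Nat.lt_or_ge a (e l) with h1 | h1
    · rcases Nat.eq_zero_or_pos l with hl0 | hl0
      · subst hl0
        have := h.start_sg w (x := a) (y := e 0) h1.le le_rfl
        rw [hx', hx'] at this
        linarith
      · obtain ⟨l', rfl⟩ : ∃ l', l = l' + 1 := ⟨l - 1, by omega⟩
        have hsg : ∀ y : ℤ, Tight.sg (u + l') y = -Tight.sg w y := by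
          intro y
          have := hc y
          rw [← add_assoc, Tight.sg_succ] at this
          omega
        have hlt := h.lt l' (by omega)
        rcases Nat.lt_or_ge a (e l') with h2 | h2
        · have hb2 := h.big l' (by omega)
          rw [hsg, hsg, hx', hx'] at hb2
          have h3 := hA (e l') h2.le (by omega)
          linarith
        · have h3 := h.hi l' (by omega) a h2 h1.le
          rw [hsg, hsg, hx', hx'] at h3
          linarith
    · have := hLO' a h1 (by omega)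
      linarith
  · -- the end
    rcases Nat.lt_or_ge (e (l + 1)) b with h1 | h1
    · rcases Nat.lt_or_ge (l + 1) m with hlm | hlm
      · have hsg : ∀ y : ℤ, Tight.sg (u + (l + 1)) y = -Tight.sg w y := by
          intro y
          rw [← add_assoc, Tight.sg_succ, hc]
        have hlt := h.lt (l + 1) hlm
        rcases Nat.lt_or_ge b (e (l + 1 + 1)) with h2 | h2
        · have h3 := h.lo (l + 1) hlm b h1.le h2.le
          rw [hsg, hsg, hx', hx'] at h3
          linarith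
        · have hb2 := h.big (l + 1) hlm
          rw [hsg, hsg, hx', hx'] at hb2
          have h3 := hC (e (l + 1 + 1)) (by omega) h2
          linarith
      · have hlm' : l + 1 = m := by omega
        have := h.fin_sg w (x := e m) (y := b) le_rfl hmn (by rw [← hlm']; exact h1.le) hbn
        rw [hx', hx'] at this
        rw [hlm']
        linarith
    · have := hHI' b (by omega) h1
      linarith
  · intro i h1 h2
    have := hsmall' i a h1 h2 (by omega)
    linarith
  · intro i h1 h2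
    have := hsmall' b i (by omega) h1 h2
    linarith

/-- **PINCH of a strand, geometry in words** -/
theorem fd_pch_loc {kc J : ℕ} {t : List Bool} (ht : t ∈ WL (kc + J)) {x : ℕ → ℤ} {w a b p1 p2 k0 k1 : ℕ} {z r q μ ω : ℤ}
    {E B : ℕ} (hx : ∀ i, x i = Tight.sg w (lev t i)) (hap : a ≤ p1)
    (hp1 : p1 ≤ k0) (hk : k0 ≤ k1) (hp2 : k1 ≤ p2) (hpb : p2 ≤ b) (hbn : b ≤ t.length) (hμ : 3 ≤ μ)
    (hE : 3 * (E : ℤ) + 3 < q) (hω : ω < q)
    (hr : 2 * r < RR (kc + 5)) (hB : B + 2 ≤ 2 ^ (kc + 5)) (hEB : E < B)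
    (hA : ∀ i, a ≤ i → i ≤ p1 → x i ≤ z - q) (hM : ∀ i, p1 ≤ i → i ≤ p2 → |x i - z| ≤ r)
    (hC : ∀ i, p2 ≤ i → i ≤ b → z + q ≤ x i)
    (hA' : ∀ i, a ≤ i → i ≤ k0 → x i ≤ z - μ) (hB' : ∀ i, k0 ≤ i → i ≤ k1 → |x i - z| ≤ ω)
    (hC' : ∀ i, k1 ≤ i → i ≤ b → z + μ ≤ x i)
    (hst : x a ≤ z - 4 * RR (kc + 5)) (hen : z + 4 * RR (kc + 5) ≤ x b)
    (hno : ¬∃ p, p1 < p ∧ p < p2 ∧ p < t.length ∧ x (p + 1) = x p + 2 ∧ (∀ i, a ≤ i → i ≤ p → x i ≤ x p) ∧
      (∀ i, p < i → i ≤ b → x p < x i) ∧ |x p - z| ≤ 3 * E + 1) :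
    t ∈ HexObs.SIM.LeafIn kc J {g | ∃ (M a : ℕ) (s0 s1 : ℕ), g ∈ Brd M ∧ B ≤ a ∧ a + B ≤ M ∧
      CutJ.SPin g a (ω + 2) s0 s1 ∧ ∀ c : ℕ, a ≤ c + E → c ≤ a + E → c < M → ¬Cut g c} := by
  have hpb' : (1 : ℤ) ≤ 2 ^ kc := one_le_pow₀ (by norm_num)
  have hRR : RR (kc + 5) = 3 * 2 ^ (kc + 5) - 2 := rfl
  have hRR' : (2 : ℤ) ^ (kc + 5) = 32 * 2 ^ kc := by rw [pow_add]; ring
  have hM1 := abs_le.1 (hM p1 le_rfl (by omega))
  have hM2 := abs_le.1 (hM p2 (by omega) le_rfl)
  have hAp := hA p1 hap le_rfl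
  have hCp := hC p2 le_rfl hpb
  have hqr : q ≤ r := by linarith
  have hA'k := hA' k0 (by omega) le_rfl
  have hB'k := abs_le.1 (hB' k0 le_rfl hk)
  have hμω : μ ≤ ω := by linarith
  rcases fd_exists (b := kc + 5) (by omega) ht.1 with h1 | ⟨m, u, e, hF⟩
  · exfalso
    have h2 := h1 b a hbn (by omega)
    have h3 := h1 a b (by omega) hbn
    have h4 : x b - x a < RR (kc + 5) := by
      rw [hx, hx]
      exact HexObs.SIM.sg_lt_of h2 h3
    linarith
  · have hH := HexObs.SIM.HW.of_fd hF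
    obtain ⟨l, hl, hc, hl1, hl2, hel, hlo, hhi, hbef, haft⟩ := leaf_win_slab hH (w := w) (a := a) (p1 := p1) (p2 := p2) (b := b)
      (z := z) (r := r) (q := q) hap (by omega) hpb hbn
      (by omega) hr (by simpa only [hx] using hA) (by simpa only [hx] using hM) (by simpa only [hx] using hC)
      (by simpa only [hx] using hst) (by simpa only [hx] using hen)
    simp only [← hx] at hlo hhi hbef haft
    refine ⟨ht, m, u, e, hF, l, hl, fun g hg hgB => ?_⟩
    obtain ⟨M, -, -, hM'⟩ := hgB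
    have f1 : ∀ i, min a (e l) ≤ i → i ≤ p1 → x i ≤ z - q := by
      intro i i1 i2
      rcases Nat.lt_or_ge i a with h1 | h1
      · have := hbef i (by omega) h1.le
        linarith
      · exact hA i h1 i2
    have f2 : ∀ i, p2 ≤ i → i ≤ max b (e (l + 1)) → z + q ≤ x i := by
      intro i i1 i2
      rcases Nat.lt_or_ge b i with h1 | h1
      · have := haft i h1.le (by omega)
        linarith
      · exact hC i i1 h1
    have f3 : ∀ i, min a (e l) ≤ i → i ≤ k0 → x i ≤ z - μ := by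
      intro i i1 i2
      rcases Nat.lt_or_ge i a with h1 | h1
      · have := hbef i (by omega) h1.le
        linarith
      · exact hA' i h1 i2
    have f4 : ∀ i, k1 ≤ i → i ≤ max b (e (l + 1)) → z + μ ≤ x i := by
      intro i i1 i2
      rcases Nat.lt_or_ge b i with h1 | h1
      · have := haft i h1.le (by omega)
        linarith
      · exact hC' i i1 h1
    have f5 : ¬∃ p, p1 < p ∧ p < p2 ∧ p < t.length ∧ x (p + 1) = x p + 2 ∧ (∀ i, min a (e l) ≤ i → i ≤ p → x i ≤ x p) ∧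
        (∀ i, p < i → i ≤ max b (e (l + 1)) → x p < x i) ∧ |x p - z| ≤ 3 * E + 1 := by
      rintro ⟨p, c1, c2, c3, c4, c5, c6, c7⟩
      exact hno ⟨p, c1, c2, c3, c4, fun i i1 i2 => c5 i (by omega) i2, fun i i1 i2 => c6 i i1 (by omega), c7⟩
    obtain ⟨a', s0, s1, a1, a2, a3, a4⟩ := posL_pch_w hH (by omega) hl hx
      (min_le_right a (e l)) (le_max_right b (e (l + 1))) hc hl1 hl2 hlo hhi hp1 hk hp2 hμ hE hω hB hEB f1 f2 f3 hB' f4 f5 hg hM'
    exact ⟨M, a', s0, s1, hM', a1, a2, a3, a4⟩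

/-- **the same with the class `PnL` of helper86** -/
theorem fd_pnl_loc {kc J J2 J3 : ℕ} (hJ2 : 2 ≤ J2) (hJ3 : J2 ≤ kc) {t : List Bool} (ht : t ∈ WL (kc + J)) {x : ℕ → ℤ}
    {w a b p1 p2 k0 k1 : ℕ} {z r q μ ω : ℤ} (hx : ∀ i, x i = Tight.sg w (lev t i)) (hap : a ≤ p1)
    (hp1 : p1 ≤ k0) (hk : k0 ≤ k1) (hp2 : k1 ≤ p2) (hpb : p2 ≤ b) (hbn : b ≤ t.length) (hμ : 3 ≤ μ)
    (hE : 3 * 2 ^ (kc - J2 + 2) + 3 < q) (hω : ω < q) (hωk : 2 * (ω + 2) ≤ 2 ^ (kc - J3))
    (hr : 2 * r < RR (kc + 5))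
    (hA : ∀ i, a ≤ i → i ≤ p1 → x i ≤ z - q) (hM : ∀ i, p1 ≤ i → i ≤ p2 → |x i - z| ≤ r)
    (hC : ∀ i, p2 ≤ i → i ≤ b → z + q ≤ x i)
    (hA' : ∀ i, a ≤ i → i ≤ k0 → x i ≤ z - μ) (hB' : ∀ i, k0 ≤ i → i ≤ k1 → |x i - z| ≤ ω)
    (hC' : ∀ i, k1 ≤ i → i ≤ b → z + μ ≤ x i)
    (hst : x a ≤ z - 4 * RR (kc + 5)) (hen : z + 4 * RR (kc + 5) ≤ x b)
    (hno : ¬∃ p, p1 < p ∧ p < p2 ∧ p < t.length ∧ x (p + 1) = x p + 2 ∧ (∀ i, a ≤ i → i ≤ p → x i ≤ x p) ∧
      (∀ i, p < i → i ≤ b → x p < x i) ∧ |x p - z| ≤ 3 * 2 ^ (kc - J2 + 2) + 1) :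
    t ∈ HexObs.SIM.LeafIn kc J (CutJ.PnL (2 ^ (kc + 4)) (2 ^ (kc + J + 3)) (2 ^ (kc + 1)) (kc - J3) (kc - J2)) := by
  have p1' : 2 ^ (kc - J2 + 2) ≤ 2 ^ kc := Nat.pow_le_pow_right (by norm_num) (by omega)
  have p2' : 2 ^ (kc + 1) = 2 * 2 ^ kc := by ring
  have p3' : 2 ^ (kc + 5) = 32 * 2 ^ kc := by ring
  have p4' : 1 ≤ 2 ^ kc := Nat.one_le_two_pow
  have hcast : (((2 ^ (kc - J2 + 2) : ℕ)) : ℤ) = 2 ^ (kc - J2 + 2) := by push_cast; rfl
  obtain ⟨h0, m, u, e, hF, l, hl, hall⟩ := fd_pch_loc (E := 2 ^ (kc - J2 + 2)) (B := 2 ^ (kc + 1)) ht hx hap hp1 hk hp2 hpb hbn hμ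
    (by rw [hcast]; exact hE) hω hr (by omega) (by omega) hA hM hC hA' hB' hC' hst hen (by rw [hcast]; exact hno)
  refine ⟨h0, m, u, e, hF, l, hl, fun g hg hgB => ?_⟩
  obtain ⟨M, a, s0, s1, g1, g2, g3, g4, g5⟩ := hall g hg hgB
  obtain ⟨h, h1, h2, h3⟩ := hgB
  exact ⟨⟨h, h1, h2.trans (Nat.pow_le_pow_right (by norm_num) (by omega)), h3⟩, M, a, ω + 2, s0, s1, g1, g2, g3, g4, hωk, g5⟩

end CRT

end HexObs
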