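import Pool.Agent.CRT.Dic3
import Pool.Agent.CRT.RPch
import Pool.Agent.CRT.RSplit

/-!
# Scale flow (R), K-row (helper59, after helper28's BadW): from a walk with a window pinch and without a window cut near it to a
word with a bad leaf. All lengths are absolute.

* `SlbW b τ s` : a piece of `s` moves by `b` inside a slab of half width `τ`;
* `BadW ρ b E m h w s` : a pinch with an outer margin in the window of radius `ρ`, the walk leaves the ball of radius `b` on both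
  sides of the pinch, and there is no window cut of radius `ρ / 2` at a level at most `m` from the pinch;
* **`bad_wordW`** : the hypothesis of `red_msum` for `BadW`, outside of `SlbW b τ`.
-/

set_option autoImplicit false

namespace Pool.Agent.CRT.R

open Finset

open HexObs hiding pos sw

open HexObs.SDN HexObs.NTW HexObs.NTA HexObs.CRT

open Pool.Agent.NTS.Res
open NTSF (pos_zero pos_succ mem_saw)
open Pool.Agent.CRT.V (msum)

/-- a piece of the walk moves by `b` inside a slab of half width `τ` -/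
def SlbW (b τ : ℝ) {n : ℕ} (s : Fin n → Fin 3) : Prop :=
  ∃ i j : ℕ, i ≤ j ∧ j ≤ n ∧ (∀ l : ℕ, i ≤ l → l ≤ j → |(pos s l).re - (pos s i).re| ≤ τ) ∧ b ≤ ‖pos s j - pos s i‖

/-- a pinch at the level `y` with an outer margin, in the window of radius `ρ` around the position at the time `k0` -/
def PnW (ρ : ℝ) {n : ℕ} (s : Fin n → Fin 3) (p1 k0 k1 p2 : ℕ) (y m E h w : ℝ) : Prop :=
  p1 ≤ k0 ∧ k0 ≤ k1 ∧ k1 ≤ p2 ∧ p2 ≤ n ∧
    (∀ i : ℕ, i ≤ p1 → ‖pos s i - pos s k0‖ ≤ ρ → (pos s i).re ≤ y - m) ∧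
    (∀ i : ℕ, p1 ≤ i → i ≤ p2 → |(pos s i).re - y| ≤ E) ∧
    (∀ i : ℕ, p2 ≤ i → i ≤ n → ‖pos s i - pos s k0‖ ≤ ρ → y + m ≤ (pos s i).re) ∧
    (∀ i : ℕ, i ≤ k0 → ‖pos s i - pos s k0‖ ≤ ρ → (pos s i).re ≤ y - h) ∧
    (∀ i : ℕ, k0 ≤ i → i ≤ k1 → |(pos s i).re - y| ≤ w) ∧
    ∀ i : ℕ, k1 ≤ i → i ≤ n → ‖pos s i - pos s k0‖ ≤ ρ → y + h ≤ (pos s i).re

/-- a window pinch with a margin, the walk leaves the ball of radius `b` on both sides, without a window cut near the pinch -/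
def BadW (ρ b E m h w : ℝ) {n : ℕ} (s : Fin n → Fin 3) : Prop :=
  ∃ (p1 k0 k1 p2 : ℕ) (y : ℝ), PnW ρ s p1 k0 k1 p2 y m E h w ∧ (∃ j : ℕ, j ≤ p1 ∧ b ≤ ‖pos s j - pos s p1‖) ∧
    (∃ j : ℕ, p2 ≤ j ∧ j ≤ n ∧ b ≤ ‖pos s j - pos s p2‖) ∧
    ∀ i : ℕ, WC (ρ / 2) s i → ‖pos s i - pos s k0‖ ≤ ρ / 4 → m < |(pos s i).re - y|

/-- **a window cut from the real parts** -/
theorem wc_of {n : ℕ} {s : Fin n → Fin 3} {k : ℕ} {ρ : ℝ} (hk : k < n) (h1 : (pos s (k + 1)).re = (pos s k).re + 1)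
    (h2 : ∀ i : ℕ, i ≤ k → ‖pos s i - (pos s k + 1 / 2)‖ ≤ ρ → (pos s i).re ≤ (pos s k).re)
    (h3 : ∀ i : ℕ, k < i → i ≤ n → ‖pos s i - (pos s k + 1 / 2)‖ ≤ ρ → (pos s k).re < (pos s i).re) : WC ρ s k := by
  have hst : pos s (k + 1) = pos s k + step k (s ⟨k, hk⟩) := NTSF.pos_succ s k hk
  have e1 : (step k (s ⟨k, hk⟩)).re = 1 := by
    rw [hst, Complex.add_re] at h1
    linarith
  have hs1 : step k (s ⟨k, hk⟩) = 1 := by
    have h4 := norm_step k (s ⟨k, hk⟩)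
    have h5 : (step k (s ⟨k, hk⟩)).im = 0 := by
      have h6 : ‖step k (s ⟨k, hk⟩)‖ ^ 2 = 1 := by rw [h4, one_pow]
      rw [Complex.sq_norm, Complex.normSq_apply, e1] at h6
      have h7 : (step k (s ⟨k, hk⟩)).im * (step k (s ⟨k, hk⟩)).im = 0 := by linarith
      exact mul_self_eq_zero.1 h7
    exact Complex.ext e1 h5
  have hev : Even k := by
    by_contra hne
    rw [V.Dic.step_re, if_neg hne] at e1
    split_ifs at e1 <;> norm_num at e1
  refine ⟨hk, hev, by rw [hst, hs1], h2, fun j hj hjn hd => ?_⟩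
  obtain ⟨m, hm⟩ := V.Dic.two_re s hk.le
  obtain ⟨m', hm'⟩ := V.Dic.two_re s hjn
  rw [if_pos hev, add_zero] at hm
  have h6 := h3 j hj hjn hd
  split_ifs at hm' with hj2
  · rw [add_zero] at hm'
    have h7 : (m : ℝ) < m' := by linarith
    have h8 : m + 1 ≤ m' := by exact_mod_cast h7
    have h9 : (m : ℝ) + 1 ≤ m' := by exact_mod_cast h8
    linarith
  · have h7 : (m : ℝ) < m' + 1 := by linarith
    have h8 : m < m' + 1 := by exact_mod_cast h7
    have h9 : (m : ℝ) ≤ m' := by exact_mod_cast (Int.lt_add_one_iff.1 h8)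
    linarith

/-- one step -/
lemma norm_pos_succ {n : ℕ} (s : Fin n → Fin 3) {k : ℕ} (hk : k < n) : ‖pos s (k + 1) - pos s k‖ = 1 := by
  rw [pos_succ s k hk, add_sub_cancel_left, norm_step]

/-- **the strand through a window pinch**: deep on both sides, inside the window -/
lemma strand {ρ b E m h w τ : ℝ} {n : ℕ} {s : Fin n → Fin 3} {p1 k0 k1 p2 : ℕ} {y : ℝ}
    (hp : PnW ρ s p1 k0 k1 p2 y m E h w) (hbef : ∃ j : ℕ, j ≤ p1 ∧ b ≤ ‖pos s j - pos s p1‖)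
    (haft : ∃ j : ℕ, p2 ≤ j ∧ j ≤ n ∧ b ≤ ‖pos s j - pos s p2‖) (hns : ¬ SlbW b τ s)
    (hb : 2 ≤ b) (hρ : 16 * b ≤ ρ) (hE : 2 * E ≤ τ) (hm : 0 < m) :
    (∀ i, p1 ≤ i → i ≤ p2 → ‖pos s i - pos s k0‖ < b) ∧
    ∃ a b' : ℕ, a ≤ p1 ∧ p2 ≤ b' ∧ b' ≤ n ∧ (pos s a).re ≤ y - τ ∧ y + τ ≤ (pos s b').re ∧
      ∀ i, a ≤ i → i ≤ b' → ‖pos s i - pos s k0‖ ≤ ρ / 4 := by
  classical
  obtain ⟨a1, a2, a3, a4, b1, b2, b3, b4, b5, b6⟩ := hp
  have hE0 : 0 ≤ E := (abs_nonneg _).trans (b2 p1 le_rfl (by omega))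
  have hsl : ∀ i j : ℕ, i ≤ j → j ≤ n → b ≤ ‖pos s j - pos s i‖ → ∃ l, i ≤ l ∧ l ≤ j ∧ τ < |(pos s l).re - (pos s i).re| := by
    intro i j h1 h2 h3
    by_contra hcon
    push Not at hcon
    exact hns ⟨i, j, h1, h2, fun l l1 l2 => hcon l l1 l2, h3⟩
  have hmid : ∀ i, p1 ≤ i → i ≤ p2 → ‖pos s i - pos s k0‖ < b := by
    intro i i1 i2
    by_contra hcon
    push Not at hcon
    rcases le_total i k0 with h1 | h1
    · obtain ⟨l, l1, l2, l3⟩ := hsl i k0 h1 (by omega) (by rwa [norm_sub_rev])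
      have h4 := abs_le.1 (b2 l (by omega) (by omega))
      have h5 := abs_le.1 (b2 i i1 i2)
      have h6 : |(pos s l).re - (pos s i).re| ≤ τ := by
        rw [abs_le]; constructor <;> linarith
      linarith
    · obtain ⟨l, l1, l2, l3⟩ := hsl k0 i h1 (by omega) hcon
      have h4 := abs_le.1 (b2 l (by omega) (by omega))
      have h5 := abs_le.1 (b2 k0 a1 (by omega))
      have h6 : |(pos s l).re - (pos s k0).re| ≤ τ := by
        rw [abs_le]; constructor <;> linarith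
      linarith
  have hd1 := hmid p1 le_rfl (by omega)
  have hd2 := hmid p2 (by omega) le_rfl
  refine ⟨hmid, ?_⟩
  -- forwards
  obtain ⟨f, hf⟩ : ∃ f, f = Nat.find haft := ⟨_, rfl⟩
  have f0 := Nat.find_spec haft
  rw [← hf] at f0
  have fm : ∀ j, p2 ≤ j → j < f → ‖pos s j - pos s p2‖ < b := by
    intro j h1 h2
    by_contra hcon
    push Not at hcon
    exact Nat.find_min haft (by rw [← hf]; exact h2) ⟨h1, by omega, hcon⟩
  have fn : ∀ j, p2 ≤ j → j ≤ f → ‖pos s j - pos s p2‖ ≤ b + 1 := by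
    intro j h1 h2
    rcases Nat.lt_or_ge j f with h3 | h3
    · linarith [fm j h1 h3]
    · have hjf : j = f := by omega
      rcases Nat.lt_or_ge p2 f with h4 | h4
      · obtain ⟨g, rfl⟩ : ∃ g, f = g + 1 := ⟨f - 1, by omega⟩
        have h5 := fm g (by omega) (by omega)
        have h6 := norm_pos_succ s (k := g) (by omega)
        rw [hjf]
        calc ‖pos s (g + 1) - pos s p2‖ = ‖(pos s (g + 1) - pos s g) + (pos s g - pos s p2)‖ := by ring_nf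
          _ ≤ ‖pos s (g + 1) - pos s g‖ + ‖pos s g - pos s p2‖ := norm_add_le _ _
          _ ≤ b + 1 := by rw [h6]; linarith
      · have : j = p2 := by omega
        rw [this, sub_self, norm_zero]
        linarith
  obtain ⟨B, B1, B2, B3⟩ := hsl p2 f f0.1 f0.2.1 f0.2.2
  have hwf : ∀ j, p2 ≤ j → j ≤ f → ‖pos s j - pos s k0‖ ≤ ρ / 4 := by
    intro j h1 h2
    calc ‖pos s j - pos s k0‖ = ‖(pos s j - pos s p2) + (pos s p2 - pos s k0)‖ := by ring_nf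
      _ ≤ ‖pos s j - pos s p2‖ + ‖pos s p2 - pos s k0‖ := norm_add_le _ _
      _ ≤ ρ / 4 := by linarith [fn j h1 h2]
  have hB : y + τ ≤ (pos s B).re := by
    have h1 := b3 B B1 (by omega) ((hwf B B1 B2).trans (by linarith))
    have h2 := b3 p2 le_rfl a4 (by linarith)
    have h3 := abs_le.1 (b2 p2 (by omega) le_rfl)
    rcases lt_abs.1 B3 with h4 | h4
    · linarith
    · linarith
  -- backwards
  obtain ⟨g, hg⟩ : ∃ g, g = Nat.findGreatest (fun j => j ≤ p1 ∧ b ≤ ‖pos s j - pos s p1‖) p1 := ⟨_, rfl⟩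
  obtain ⟨j0, j01, j02⟩ := hbef
  have g0 : g ≤ p1 ∧ b ≤ ‖pos s g - pos s p1‖ := by
    rw [hg]
    exact Nat.findGreatest_spec (P := fun j => j ≤ p1 ∧ b ≤ ‖pos s j - pos s p1‖) j01 ⟨j01, j02⟩
  have gm : ∀ j, g < j → j ≤ p1 → ‖pos s j - pos s p1‖ < b := by
    intro j h1 h2
    by_contra hcon
    push Not at hcon
    have : j ≤ g := by
      rw [hg]
      exact Nat.le_findGreatest h2 ⟨h2, hcon⟩
    omega
  have gn : ∀ j, g ≤ j → j ≤ p1 → ‖pos s j - pos s p1‖ ≤ b + 1 := by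
    intro j h1 h2
    rcases Nat.lt_or_ge g j with h3 | h3
    · linarith [gm j h3 h2]
    · have hjg : j = g := by omega
      rcases Nat.lt_or_ge g p1 with h4 | h4
      · have h5 := gm (g + 1) (by omega) (by omega)
        have h6 := norm_pos_succ s (k := g) (by omega)
        rw [hjg]
        calc ‖pos s g - pos s p1‖ = ‖(pos s (g + 1) - pos s p1) - (pos s (g + 1) - pos s g)‖ := by ring_nf
          _ ≤ ‖pos s (g + 1) - pos s p1‖ + ‖pos s (g + 1) - pos s g‖ := norm_sub_le _ _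
          _ ≤ b + 1 := by rw [h6]; linarith
      · have : j = p1 := by omega
        rw [this, sub_self, norm_zero]
        linarith
  have hwb : ∀ j, g ≤ j → j ≤ p1 → ‖pos s j - pos s k0‖ ≤ ρ / 4 := by
    intro j h1 h2
    calc ‖pos s j - pos s k0‖ = ‖(pos s j - pos s p1) + (pos s p1 - pos s k0)‖ := by ring_nf
      _ ≤ ‖pos s j - pos s p1‖ + ‖pos s p1 - pos s k0‖ := norm_add_le _ _
      _ ≤ ρ / 4 := by linarith [gn j h1 h2]
  obtain ⟨l, l1, l2, l3⟩ := hsl g p1 g0.1 (by omega) (by rw [norm_sub_rev]; exact g0.2)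
  have hA : ∃ A, g ≤ A ∧ A ≤ p1 ∧ (pos s A).re ≤ y - τ := by
    have h1 := b1 l l2 ((hwb l l1 l2).trans (by linarith))
    have h2 := b1 g g0.1 ((hwb g le_rfl g0.1).trans (by linarith))
    rcases lt_abs.1 l3 with h4 | h4
    · exact ⟨g, le_rfl, g0.1, by linarith⟩
    · exact ⟨l, l1, l2, by linarith⟩
  obtain ⟨A, A1, A2, A3⟩ := hA
  refine ⟨A, B, A2, B1, by omega, A3, hB, fun i i1 i2 => ?_⟩
  rcases le_total i p1 with h1 | h1
  · exact hwb i (by omega) h1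
  · rcases le_total i p2 with h2 | h2
    · exact (hmid i h1 h2).le.trans (by linarith)
    · exact hwf i h2 (by omega)

/-- **a bad window pinch gives a bad leaf** -/
theorem bad_wordW {ρ b E m h w τ : ℝ} {kc J J2 J3 n : ℕ} {s : Fin n → Fin 3} (hb : BadW ρ b E m h w s) (hns : ¬ SlbW b τ s)
    (hb2 : 2 ≤ b) (hρ : 16 * b ≤ ρ) (hJ2 : 2 ≤ J2) (hJ23 : J2 ≤ J3) (hJ3 : J3 ≤ kc)
    (g2 : 200 * (2 : ℝ) ^ kc ≤ τ) (g3 : E ≤ 2 ^ kc)
    (g4 : 3 * (2 : ℝ) ^ (kc - J2 + 2) + 5 ≤ 2 * m) (g5 : 2 ≤ h) (g6 : 4 * w + 8 ≤ (2 : ℝ) ^ (kc - J3)) :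
    (∃ i, i ≤ n ∧ 2 ≤ |2 * (pos s i).re|) ∧
    ∀ (p : ℕ) (t : List Bool) (σ c : ℤ), (σ = 1 ∨ σ = -1) → p + t.length = n → t ∈ WL (kc + J) →
      (∀ j, j ≤ t.length → 2 * (pos s (p + j)).re = ((c + σ * lev t j : ℤ) : ℝ)) →
      (∀ i, i ≤ p → |2 * (pos s i).re| ≤ 1) →
      t ∈ HexObs.SIM.LeafIn kc J (CutJ.PnL (2 ^ (kc + 4)) (2 ^ (kc + J + 3)) (2 ^ (kc + 1)) (kc - J3) (kc - J2)) := by
  obtain ⟨p1, k0, k1, p2, y, hpn, c1, c2, c4⟩ := hb
  have hpk : (1 : ℝ) ≤ 2 ^ kc := one_le_pow₀ (by norm_num)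
  have hJk : (2 : ℝ) ^ (kc - J2 + 2) ≤ 2 ^ kc := pow_le_pow_right₀ (by norm_num) (by omega)
  have hm0 : 0 < m := by
    have : (0 : ℝ) < 2 ^ (kc - J2 + 2) := by positivity
    linarith
  obtain ⟨hmid, a, b', d1, d2, d3, d4, d5, d6⟩ := strand hpn c1 c2 hns hb2 hρ (by linarith) hm0
  obtain ⟨a1, a2, a3, a4, b1, b2, b3, b4, b5, b6⟩ := hpn
  have hp1 := abs_le.1 (b2 p1 le_rfl (by omega))
  refine ⟨?_, ?_⟩
  · rcases le_total 0 y with h1 | h1
    · exact ⟨b', d3, by rw [le_abs]; left; linarith⟩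
    · exact ⟨a, by omega, by rw [le_abs]; right; linarith⟩
  intro p t σ c hσ hpt hW hlev hsm
  obtain ⟨v, hv⟩ : ∃ v : ℕ, ∀ y : ℤ, Tight.sg v y = σ * y := by
    rcases hσ with rfl | rfl
    · exact ⟨1, fun y => by simp [Tight.sg]⟩
    · exact ⟨0, fun y => by simp [Tight.sg]⟩
  obtain ⟨x, hx⟩ : ∃ x : ℕ → ℤ, ∀ i, x i = Tight.sg v (lev t i) := ⟨fun i => Tight.sg v (lev t i), fun _ => rfl⟩
  have hX : ∀ j, j ≤ t.length → 2 * (pos s (p + j)).re = c + x j := by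
    intro j hj
    rw [hlev j hj, hx, hv]
    push_cast
    ring
  have hx0 : x 0 = 0 := by
    rw [hx, hv, lev_zero, mul_zero]
  have hc : |c| ≤ 1 := by
    have h1 := hsm p le_rfl
    have h2 := hX 0 (Nat.zero_le _)
    rw [add_zero, hx0] at h2
    rw [h2] at h1
    push_cast at h1
    rw [add_zero] at h1
    exact_mod_cast h1
  have hc1 : -1 ≤ c ∧ c ≤ 1 := abs_le.1 hc
  have hc2 : (-1 : ℝ) ≤ c := by exact_mod_cast hc1.1
  have hc3 : (c : ℝ) ≤ 1 := by exact_mod_cast hc1.2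
  obtain ⟨z0, hz0⟩ : ∃ z0 : ℤ, z0 = ⌊2 * y⌋ := ⟨_, rfl⟩
  have hz1 : (z0 : ℝ) ≤ 2 * y := by rw [hz0]; exact Int.floor_le _
  have hz2 : 2 * y < z0 + 1 := by rw [hz0]; exact Int.lt_floor_add_one _
  -- the strand inside the word
  have hpp : p ≤ p1 := by
    by_contra hn
    push Not at hn
    have h1 := abs_le.1 (hsm p1 (by omega))
    have h2 := abs_le.1 (hsm a (by omega))
    linarith
  obtain ⟨a', ha1, ha2, ha3, ha4⟩ : ∃ a' : ℕ, p ≤ a' ∧ a ≤ a' ∧ a' ≤ p1 ∧ (pos s a').re ≤ y - (τ - 1) := by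
    rcases le_total p a with h1 | h1
    · exact ⟨a, h1, le_rfl, d1, by linarith⟩
    · refine ⟨p, le_rfl, h1, hpp, ?_⟩
      have h2 := abs_le.1 (hsm a h1)
      have h3 := abs_le.1 (hsm p le_rfl)
      linarith
  -- the three translations
  have low : ∀ (a : ℝ) (i : ℕ), i ≤ t.length → (pos s (p + i)).re ≤ y - a → x i ≤ z0 - c - (⌊2 * a⌋ - 1) := by
    intro a i hi h1
    have h2 := hX i hi
    have h3 := Int.floor_le (2 * a)
    have h4 : (x i : ℝ) < ((z0 - c - (⌊2 * a⌋ - 1) : ℤ) : ℝ) := by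
      push_cast
      linarith
    exact (by exact_mod_cast h4 : x i < _).le
  have high : ∀ (a : ℝ) (i : ℕ), i ≤ t.length → y + a ≤ (pos s (p + i)).re → z0 - c + (⌊2 * a⌋ - 1) ≤ x i := by
    intro a i hi h1
    have h2 := hX i hi
    have h3 := Int.floor_le (2 * a)
    have h4 : ((z0 - c + (⌊2 * a⌋ - 1) : ℤ) : ℝ) ≤ x i := by
      push_cast
      linarith
    exact_mod_cast h4
  have mid : ∀ (a : ℝ) (i : ℕ), i ≤ t.length → |(pos s (p + i)).re - y| ≤ a → |x i - (z0 - c)| ≤ ⌈2 * a⌉ + 1 := by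
    intro a i hi h1
    have h2 := hX i hi
    have h3 := Int.le_ceil (2 * a)
    have h4 := abs_le.1 h1
    have h5 : -((⌈2 * a⌉ : ℝ) + 1) ≤ x i - (z0 - c) := by linarith
    have h6 : (x i : ℝ) - (z0 - c) ≤ (⌈2 * a⌉ : ℝ) + 1 := by linarith
    rw [abs_le]
    constructor
    · exact_mod_cast h5
    · exact_mod_cast h6
  have hwin : ∀ i, a ≤ i → i ≤ b' → ‖pos s i - pos s k0‖ ≤ ρ := fun i i1 i2 => (d6 i i1 i2).trans (by linarith)
  have hRR : RR (kc + 5) = 96 * 2 ^ kc - 2 := by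
    unfold RR
    rw [pow_add]
    ring
  have hQ : 3 * 2 ^ (kc - J2 + 2) + 5 ≤ ⌊2 * m⌋ := by
    rw [Int.le_floor]
    push_cast
    exact g4
  have hμ : 4 ≤ ⌊2 * h⌋ := by
    rw [Int.le_floor]
    push_cast
    linarith
  have hω : ((⌈2 * w⌉ : ℤ) : ℝ) < 2 * w + 1 := Int.ceil_lt_add_one _
  have hωk : 2 * (⌈2 * w⌉ + 1 + 2) ≤ 2 ^ (kc - J3) := by
    have h1 : (2 * ((⌈2 * w⌉ : ℤ) + 1 + 2) : ℝ) ≤ (2 : ℝ) ^ (kc - J3) := by linarith
    exact_mod_cast h1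
  have hR : ((⌈2 * E⌉ : ℤ) : ℝ) < 2 * E + 1 := Int.ceil_lt_add_one _
  have hR2 : ⌈2 * E⌉ ≤ 2 * 2 ^ kc + 1 := by
    have h1 : ((⌈2 * E⌉ : ℤ) : ℝ) ≤ 2 * (2 : ℝ) ^ kc + 1 := by linarith
    exact_mod_cast h1
  have hpz : (1 : ℤ) ≤ 2 ^ kc := one_le_pow₀ (by norm_num)
  have hJz : (2 : ℤ) ^ (kc - J2 + 2) ≤ 2 ^ kc := pow_le_pow_right₀ (by norm_num) (by omega)
  have hJz2 : (2 : ℤ) ^ (kc - J3) ≤ 2 ^ (kc - J2 + 2) := pow_le_pow_right₀ (by norm_num) (by omega)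
  have hJz3 : (0 : ℤ) < 2 ^ (kc - J2 + 2) := by positivity
  have hT1 : 400 * 2 ^ kc - 2 ≤ ⌊2 * (τ - 1)⌋ := by
    rw [Int.le_floor]
    push_cast
    linarith
  have hT2 : 400 * 2 ^ kc ≤ ⌊2 * τ⌋ := by
    rw [Int.le_floor]
    push_cast
    linarith
  have hxa := low (τ - 1) (a' - p) (by omega) (by rw [show p + (a' - p) = a' by omega]; exact ha4)
  have hxb := high τ (b' - p) (by omega) (by rw [show p + (b' - p) = b' by omega]; exact d5)
  refine fd_pnl_loc (kc := kc) (J := J) (J2 := J2) (J3 := J3) hJ2 (by omega) hW (w := v) hx (a := a' - p) (b := b' - p)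
    (p1 := p1 - p) (p2 := p2 - p) (k0 := k0 - p)
    (k1 := k1 - p) (z := z0 - c) (r := ⌈2 * E⌉ + 1) (q := ⌊2 * m⌋ - 1) (μ := ⌊2 * h⌋ - 1)
    (ω := ⌈2 * w⌉ + 1) (by omega) (by omega) (by omega) (by omega) (by omega) (by omega) (by omega) (by omega) (by omega)
    hωk (by omega)
    (fun i hi hi' => low _ i (by omega) (b1 _ (by omega) (hwin _ (by omega) (by omega))))
    (fun i hi hi' => mid _ i (by omega) (b2 _ (by omega) (by omega)))
    (fun i hi hi' => high _ i (by omega) (b3 _ (by omega) (by omega) (hwin _ (by omega) (by omega))))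
    (fun i hi hi' => low _ i (by omega) (b4 _ (by omega) (hwin _ (by omega) (by omega))))
    (fun i hi hi' => mid _ i (by omega) (b5 _ (by omega) (by omega)))
    (fun i hi hi' => high _ i (by omega) (b6 _ (by omega) (by omega) (hwin _ (by omega) (by omega))))
    (by rw [hRR]; omega) (by rw [hRR]; omega) ?_
  -- no cut
  rintro ⟨j, j1, j2, j3, j4, j5, j6, j7⟩
  have e0 := hX j j3.le
  have e1 := hX (j + 1) j3
  rw [j4] at e1
  push_cast at e1
  have hd := hmid (p + j) (by omega) (by omega)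
  have hy : |(pos s (p + j)).re - y| < m := by
    have q1 : -(3 * (2 : ℝ) ^ (kc - J2 + 2) + 1) ≤ x j - (z0 - c) := by exact_mod_cast (abs_le.1 j7).1
    have q2 : (x j : ℝ) - (z0 - c) ≤ 3 * (2 : ℝ) ^ (kc - J2 + 2) + 1 := by exact_mod_cast (abs_le.1 j7).2
    rw [abs_lt]
    constructor <;> linarith
  have hy' := abs_lt.1 hy
  have hw2 : ∀ i : ℕ, ‖pos s i - (pos s (p + j) + 1 / 2)‖ ≤ ρ / 2 → ‖pos s i - pos s k0‖ ≤ ρ := by
    intro i hi
    calc ‖pos s i - pos s k0‖ = ‖(pos s i - (pos s (p + j) + 1 / 2)) + ((pos s (p + j) - pos s k0) + 1 / 2)‖ := by ring_nf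
      _ ≤ ‖pos s i - (pos s (p + j) + 1 / 2)‖ + (‖pos s (p + j) - pos s k0‖ + ‖(1 / 2 : ℂ)‖) :=
          (norm_add_le _ _).trans (by gcongr; exact norm_add_le _ _)
      _ ≤ ρ := by rw [norm_half]; linarith
  have hcut : WC (ρ / 2) s (p + j) := by
    refine wc_of (by omega) ?_ (fun i hi hd' => ?_) fun i hi hi' hd' => ?_
    · rw [show p + j + 1 = p + (j + 1) by ring]
      linarith
    · rcases Nat.lt_or_ge i p1 with h1 | h1
      · have h2 := b1 i h1.le (hw2 i hd')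
        linarith
      · obtain ⟨k, rfl⟩ := Nat.exists_eq_add_of_le (show p ≤ i by omega)
        have h2 := hX k (by omega)
        have h3 : (x k : ℝ) ≤ x j := by exact_mod_cast j5 k (by omega) (by omega)
        linarith
    · rcases Nat.lt_or_ge p2 i with h1 | h1
      · have h2 := b3 i h1.le hi' (hw2 i hd')
        linarith
      · obtain ⟨k, rfl⟩ := Nat.exists_eq_add_of_le (show p ≤ i by omega)
        have h2 := hX k (by omega)
        have h3 : (x j : ℝ) < x k := by exact_mod_cast j6 k (by omega) (by omega)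
        linarith
  have h1 := c4 (p + j) hcut (hd.le.trans (by linarith))
  linarith

end Pool.Agent.CRT.R
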