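import Pool.Agent.CRT.PinD

/-!
# Scale flow (R), row R2, part 1 (helper59): the leaves with an isolated cut are a class of small norm

`IsL`: leaves with a cut at a distance at least `b` from the ends, without another cut at a distance between `2 ^ k` and `2 ^ e`
from it. **`iso_norm`**.
-/

set_option autoImplicit false

namespace CutJ

open HexObs Finset TS SDN NTW NTA

open scoped ENNReal

open LQ

/-- no cut of `g` at a distance between `2 ^ k` and `2 ^ e` from the row `a` -/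
def IsoAt (g : List Bool) (h a k e : ℕ) : Prop := ∀ c : ℕ, c < h → Cut g c →
  (a < c + 2 ^ k ∧ c < a + 2 ^ k) ∨ c + 2 ^ e < a ∨ a + 2 ^ e < c

/-- leaves with an isolated cut at a distance at least `b` from the ends -/
def IsL (D N b k e : ℕ) : Set (List Bool) := {g | g ∈ BrR D N ∧ ∃ h a : ℕ, g ∈ Brd h ∧ b ≤ a ∧ a + b ≤ h ∧ Cut g a ∧
  IsoAt g h a k e}

/-- bridges up to the height `N` with an isolated cut -/
def IB (N k e : ℕ) : Set (List Bool) := {Z | ∃ n a : ℕ, Z ∈ Brd n ∧ n ≤ N ∧ 2 ^ e ≤ a ∧ a + 2 ^ e ≤ n ∧ Cut Z a ∧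
  IsoAt Z n a k e}

lemma isL_mono {D N b k k' e e' : ℕ} (hk : k' ≤ k) (he : e ≤ e') : IsL D N b k' e' ⊆ IsL D N b k e := by
  rintro g ⟨hg, h, a, h1, h2, h3, h4, h5⟩
  refine ⟨hg, h, a, h1, h2, h3, h4, fun c c1 c2 => ?_⟩
  have p1 : 2 ^ k' ≤ 2 ^ k := Nat.pow_le_pow_right (by norm_num) hk
  have p2 : 2 ^ e ≤ 2 ^ e' := Nat.pow_le_pow_right (by norm_num) he
  rcases h5 c c1 c2 with h6 | h6 | h6
  · left; omega
  · right; left; omega
  · right; right; omega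

/-- the middle part of a leaf with an isolated cut -/
lemma isL_mid {D N k e kc m q n : ℕ} {MP Z PQ : List Bool} (hMP : MP ∈ Brd m) (hZ : Z ∈ Brd n) (hPQ : PQ ∈ Brd q)
    (hm : m ≤ 2 ^ kc) (hq : q ≤ 2 ^ kc) (he : e ≤ kc) (hg : MP ++ (Z ++ PQ) ∈ IsL D N (2 ^ (kc + 1)) k e) : Z ∈ IB N k e := by
  obtain ⟨⟨hh, -, hhN, hgh'⟩, h, a, hgh, hba, hbh, hcut, hiso⟩ := hg
  have hH := Brd_height hgh (Brd_append hMP (Brd_append hZ hPQ))
  have hH' := Brd_height hgh' (Brd_append hMP (Brd_append hZ hPQ))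
  have p1 : 2 ^ e ≤ 2 ^ kc := Nat.pow_le_pow_right (by norm_num) he
  have p2 : 2 ^ (kc + 1) = 2 * 2 ^ kc := by ring
  have p3 : 1 ≤ 2 ^ kc := Nat.one_le_two_pow
  refine ⟨n, a - m, hZ, by omega, by omega, by omega, ?_, ?_⟩
  · obtain ⟨S, T, b, hS, hT, hST⟩ := hcut
    obtain ⟨v, hv, h1, h2⟩ := cut_nested hMP hS (Brd_append hZ hPQ) hT (by omega) hST
    -- Z ++ PQ = v ++ T
    obtain ⟨v', hv', h3, h4⟩ := cut_nested hv hZ hT hPQ (by omega) h2.symm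
    exact ⟨v, v', _, hv, hv', h3⟩
  · intro c c1 c2
    obtain ⟨A, B, b, hA, hB, hAB⟩ := c2
    have h1 : Cut (MP ++ (Z ++ PQ)) (m + c) := ⟨MP ++ A, B ++ PQ, b + q, Brd_append hMP hA, Brd_append hB hPQ, by
      rw [hAB]
      simp only [List.append_assoc]⟩
    rcases hiso (m + c) (by omega) h1 with h2 | h2 | h2
    · left; omega
    · right; left; omega
    · right; right; omega

/-- concatenations -/
def cat2 (P Q : Set (List Bool)) : Set (List Bool) := {t | ∃ a ∈ P, ∃ b ∈ Q, t = a ++ b}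

lemma gf_cat2 (P Q : Set (List Bool)) : gf (cat2 P Q) ≤ gf P * gf Q := gf_le_mul fun _ ht => ht

/-- bridges up to the height `N` -/
def BN (N : ℕ) : Set (List Bool) := {g | ∃ h, h ≤ N ∧ g ∈ Brd h}

/-- **the decomposition**: two giants around the cluster of the isolated cut -/
lemma ib_dec {N k e : ℕ} (hke : k < e) {Z : List Bool} (hZ : Z ∈ IB N k e) :
    Z ∈ cat2 (BN N) (cat2 (GG (e - 1)) (cat2 (LB (k + 1)) (cat2 (GG (e - 1)) (BN N)))) := by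
  obtain ⟨n, a, hZn, hnN, ha, han, ⟨S, T, b, hS, hT, hST⟩, hiso⟩ := hZ
  have p1 : 2 ^ (e - 1) * 2 = 2 ^ e := by
    rw [← pow_succ]
    congr 1
    omega
  have p2 : 2 ^ k ≤ 2 ^ (e - 1) := Nat.pow_le_pow_right (by norm_num) (by omega)
  have p3 : 1 ≤ 2 ^ k := Nat.one_le_two_pow
  have p4 : 2 ^ (k + 1) = 2 * 2 ^ k := by ring
  have hb : b = n - a := by
    have := Brd_height hZn (hST ▸ Brd_append hS hT)
    omega
  subst hb
  obtain ⟨j, r, A, I, U, j1, j2, j3, hA, hI, hU, hSd⟩ := jump_dec (s := a - 2 ^ k) (n := a) (by omega) hS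
  obtain ⟨x, p, X, P, W, x1, x2, x3, hX, hP, hW, hTd⟩ := jump_dec (s := 2 ^ k - 1) (n := n - a) (by omega) hT
  -- the row j
  have hj : j + 2 ^ e < a := by
    have hc : Cut Z j := ⟨A, I ++ U ++ T, _, hA, Brd_append (Brd_append hI.1 hU) hT, by
      rw [hST, hSd]
      simp only [List.append_assoc]⟩
    rcases hiso j (by omega) hc with h | h | h
    · omega
    · exact h
    · omega
  -- the row a + x + p
  have hx : 2 ^ e ≤ x + p := by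
    rcases Nat.lt_or_ge (a + (x + p)) n with h0 | h0
    · have hc : Cut Z (a + (x + p)) := ⟨S ++ (X ++ P), W, _, Brd_append hS (Brd_append hX hP.1), hW, by
        rw [hST, hTd]
        simp only [List.append_assoc]⟩
      rcases hiso _ h0 hc with h | h | h
      · omega
      · omega
      · omega
    · omega
  refine ⟨A, ⟨j, by omega, hA⟩, I ++ ((U ++ X) ++ (P ++ W)), ⟨I, ⟨r, by omega, hI⟩, (U ++ X) ++ (P ++ W),
    ⟨U ++ X, ⟨_, ?_, Brd_append hU hX⟩, P ++ W, ⟨P, ⟨p, by omega, hP⟩, W, ⟨_, ?_, hW⟩, rfl⟩, rfl⟩, rfl⟩, ?_⟩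
  · omega
  · omega
  · rw [hST, hSd, hTd]
    simp only [List.append_assoc]

/-- the mass of the bridges with an isolated cut -/
lemma ib_le : ∃ K : ℝ, 1 ≤ K ∧ ∀ N k e : ℕ, k < e →
    gf (IB N k e) ≤ ENNReal.ofReal (UU N * (K / Ub (e - 1) * (Ub (k + 1) * (K / Ub (e - 1) * UU N)))) := by
  obtain ⟨K, hK, hG⟩ := gf_GG
  refine ⟨K, hK, fun N k e hke => ?_⟩
  have hUe := Ub_pos (e - 1)
  have hUk := Ub_pos (k + 1)
  have hUN : 0 < UU N := Num2Aux.UU_pos N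
  have hK0 : 0 < K := by linarith
  have h1 : gf (IB N k e) ≤ gf (BN N) * (gf (GG (e - 1)) * (gf (LB (k + 1)) * (gf (GG (e - 1)) * gf (BN N)))) := by
    refine (gf_mono fun t ht => ib_dec hke ht).trans ((gf_cat2 _ _).trans (mul_le_mul_right ?_ _))
    refine (gf_cat2 _ _).trans (mul_le_mul_right ?_ _)
    exact (gf_cat2 _ _).trans (mul_le_mul_right (gf_cat2 _ _) _)
  refine h1.trans ?_
  rw [ENNReal.ofReal_mul hUN.le, ENNReal.ofReal_mul (by positivity), ENNReal.ofReal_mul hUk.le,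
    ENNReal.ofReal_mul (by positivity)]
  exact mul_le_mul' (gf_BU_le N) (mul_le_mul' (hG _) (mul_le_mul' (gf_LB _) (mul_le_mul' (hG _) (gf_BU_le N))))

/-- the weight of the free middle part -/
lemma isl_ezw {D N k e j kc : ℕ} {A : ℝ} (he : e ≤ kc) (hA : gf (IB N k e) ≤ ENNReal.ofReal A) :
    EZW D N kc j (IsL D N (2 ^ (kc + 1)) k e) A := by
  intro M hM P1 hP1 P2 hP2 Q hQ h1 h2 h3 h4
  have hMP := BU_app hM (IU_BU hP1)
  have hPQ := BU_app (IU_BU hP2) hQ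
  refine le_trans ?_ hA
  refine (EN.LW.sum_brd (fun Z => M ++ (P1 ++ (Z ++ (P2 ++ Q))) ∈ IsL D N (2 ^ (kc + 1)) k e ∧
    M ++ (P1 ++ (Z ++ (P2 ++ Q))) ∈ BrR D N)).trans (gf_mono ?_)
  rintro Z ⟨⟨n, hZ⟩, hg, -⟩
  refine isL_mid (hgt_mem hMP) hZ (hgt_mem hPQ) ?_ ?_ he (D := D) (m := hgt (M ++ P1)) (q := hgt (P2 ++ Q)) ?_
  · rw [hgt_app hM (IU_BU hP1)]
    exact h2
  · rw [hgt_app (IU_BU hP2) hQ]
    exact h4
  · rw [List.append_assoc]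
    exact hg

/-- **the leaves with an isolated cut are a class of small norm** -/
theorem iso_norm (J J2 : ℕ) {ε : ℝ} (hε : 0 < ε) : ∃ J3 : ℕ, J2 + 3 ≤ J3 ∧ ∀ J3' : ℕ, J3 ≤ J3' → ∀ kc : ℕ, J3' ≤ kc →
    SmD DmJ kc (IsL (2 ^ (kc + 4)) (2 ^ (kc + J + 3)) (2 ^ (kc + 1)) (kc - J3') (kc - J2)) ε := by
  obtain ⟨K, c, hK, hc, hsp⟩ := sp_winR
  obtain ⟨K1, hK1, hz⟩ := ib_le
  have hK0 : 0 < K := by linarith
  have hK10 : 0 < K1 := by linarith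
  obtain ⟨q, hq⟩ := two_small hc (K * (1 + 2 ^ (J + 3)) ^ 2) (half_pos hε)
  obtain ⟨q3, hq3⟩ : ∃ q3, q3 = q + 3 := ⟨_, rfl⟩
  have hq' := hq q3 (by omega)
  obtain ⟨r, hr⟩ := two_small kap0_pos (K * (1 + 2 ^ (J + 3)) ^ 2 * (4 ^ q3 * (2 ^ (J + 3) * (K1 ^ 2 * 2 ^ (J2 + 1 + J + 3)) * 2)))
    (half_pos hε)
  refine ⟨J2 + 3 + q3 + r, by omega, fun J3 hJ3 kc hkc => ?_⟩
  have hr' := hr (J3 - J2 - 2) (by omega)
  have hUk := Ub_pos kc
  obtain ⟨N, hN⟩ : ∃ N, N = 2 ^ (kc + J + 3) := ⟨_, rfl⟩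
  have hUN0 : 0 < UU N := Num2Aux.UU_pos N
  have hUN : UU N / Ub kc ≤ 2 ^ (J + 3) := by
    rw [div_le_iff₀ hUk, hN, show kc + J + 3 = kc + (J + 3) by omega]
    exact Ub_add kc (J + 3)
  obtain ⟨E, hE⟩ : ∃ E, E = kc - J2 - 1 := ⟨_, rfl⟩
  obtain ⟨F, hF⟩ : ∃ F, F = kc - J3 + 1 := ⟨_, rfl⟩
  have hUE := Ub_pos E
  have hUF := Ub_pos F
  have hUe2 : UU N / Ub E ≤ 2 ^ (J2 + 1 + J + 3) := by
    rw [div_le_iff₀ hUE, hN, show kc + J + 3 = E + (J2 + 1 + J + 3) by omega]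
    exact Ub_add E (J2 + 1 + J + 3)
  obtain ⟨y, hy⟩ : ∃ y : ℝ, y = (2 : ℝ) ^ (-(kap0 * ((J3 - J2 - 2 : ℕ) : ℝ))) := ⟨_, rfl⟩
  have hy0 : 0 < y := by
    rw [hy]
    exact Real.rpow_pos_of_pos two_pos _
  rw [← hy] at hr'
  have hFE : Ub F / Ub E ≤ 2 * y := by
    have h1 := Ub_growth (a := F) (b := E) (by omega)
    have e1 : (E : ℝ) - F = ((J3 - J2 - 2 : ℕ) : ℝ) := by
      have : (E : ℝ) = F + ((J3 - J2 - 2 : ℕ) : ℝ) := by exact_mod_cast (by omega : E = F + (J3 - J2 - 2))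
      linarith
    rw [e1] at h1
    have h2 : (2 : ℝ) ^ (kap0 * ((J3 - J2 - 2 : ℕ) : ℝ)) * y = 1 := by
      rw [hy, ← Real.rpow_add two_pos, add_neg_cancel, Real.rpow_zero]
    rw [div_le_iff₀ hUE]
    calc Ub F = Ub F * ((2 : ℝ) ^ (kap0 * ((J3 - J2 - 2 : ℕ) : ℝ)) * y) := by rw [h2, mul_one]
      _ = Ub F * (2 : ℝ) ^ (kap0 * ((J3 - J2 - 2 : ℕ) : ℝ)) * y := by ring
      _ ≤ 2 * Ub E * y := mul_le_mul_of_nonneg_right h1 hy0.le
      _ = 2 * y * Ub E := by ring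
  obtain ⟨A, hA⟩ : ∃ A, A = UU N * (K1 / Ub E * (Ub F * (K1 / Ub E * UU N))) := ⟨_, rfl⟩
  have hA0 : 0 ≤ A := by
    rw [hA]
    positivity
  have hIB : gf (IB N (kc - J3) (kc - J2)) ≤ ENNReal.ofReal A := by
    have h1 := hz N (kc - J3) (kc - J2) (by omega)
    rw [← hE, ← hF, ← hA] at h1
    exact h1
  have hEZ : EZW (2 ^ (kc + 4)) N kc (kc - q3) (IsL (2 ^ (kc + 4)) N (2 ^ (kc + 1)) (kc - J3) (kc - J2)) A :=
    isl_ezw (by omega) hIB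
  have h1 := hsp kc N kc (kc - q3) A _ (by omega) le_rfl hA0 (fun g hg => hg.1) hEZ
  rw [← hN]
  refine LQ.SmD_le ?_ h1
  have e2 : kc - (kc - q3) = q3 := by omega
  have e3 : (kc : ℝ) - ((kc - q3 : ℕ) : ℝ) = q3 := by
    have : (kc : ℝ) = ((kc - q3 : ℕ) : ℝ) + q3 := by exact_mod_cast (by omega : kc = kc - q3 + q3)
    linarith
  rw [Nat.sub_self, e2, e3, pow_zero, one_mul]
  have g0 : 0 < UU N / Ub kc := by positivity
  have g1 : (1 + UU N / Ub kc) ^ 2 ≤ (1 + 2 ^ (J + 3)) ^ 2 := by gcongr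
  have g2 : A / Ub kc ≤ 2 ^ (J + 3) * (K1 ^ 2 * 2 ^ (J2 + 1 + J + 3)) * (2 * y) := by
    have e4 : A / Ub kc = (UU N / Ub kc) * (K1 ^ 2 * (UU N / Ub E)) * (Ub F / Ub E) := by
      rw [hA]
      field_simp
    rw [e4]
    gcongr
  have hp0 : (0 : ℝ) < (2 : ℝ) ^ (-(c * q3)) := Real.rpow_pos_of_pos two_pos _
  calc K * (1 + UU N / Ub kc) ^ 2 * ((2 : ℝ) ^ (-(c * q3)) + 4 ^ q3 * (A / Ub kc))
      ≤ K * (1 + 2 ^ (J + 3)) ^ 2 * ((2 : ℝ) ^ (-(c * q3)) + 4 ^ q3 * (2 ^ (J + 3) * (K1 ^ 2 * 2 ^ (J2 + 1 + J + 3)) * (2 * y))) := by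
        have hA1 : 0 ≤ A / Ub kc := by positivity
        gcongr
    _ = K * (1 + 2 ^ (J + 3)) ^ 2 * (2 : ℝ) ^ (-(c * q3)) +
        K * (1 + 2 ^ (J + 3)) ^ 2 * (4 ^ q3 * (2 ^ (J + 3) * (K1 ^ 2 * 2 ^ (J2 + 1 + J + 3)) * 2)) * y := by ring
    _ ≤ ε / 2 + ε / 2 := add_le_add hq' hr'
    _ = ε := by ring

end CutJ
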