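import Pool.Agent.CRT.RPerfA

/-!
# Scale flow (R), row R2 (helper16): **`vPerfW`**, in the mean no window cut is isolated

The unit of length is `size N` for all the step numbers of the mean.
-/

set_option autoImplicit false

namespace Pool.Agent.CRT.R

open Pool.Agent.NTS.Res

open Finset

open scoped ENNReal Classical

open Pool.Agent.CRT.V V1

open HexObs (wE gf xc)

/-- a window cut of radius `ρ` without another window cut of half the radius near it at a level between `T` and `E` from it -/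
def IsoW (ρ E T : ℝ) {n : ℕ} (s : Fin n → Fin 3) : Prop :=
  ∃ k : ℕ, WC ρ s k ∧ ∀ i : ℕ, WC (ρ / 2) s i → ‖pos s i - pos s k‖ ≤ ρ / 4 →
    |(pos s i).re - (pos s k).re| < T ∨ E < |(pos s i).re - (pos s k).re|

lemma IsoW.mono {ρ E E' T T' : ℝ} {n : ℕ} {s : Fin n → Fin 3} (h : IsoW ρ E T s) (hE : E' ≤ E) (hT : T ≤ T') :
    IsoW ρ E' T' s := by
  obtain ⟨k, hk, h⟩ := h
  refine ⟨k, hk, fun i h1 h2 => ?_⟩
  rcases h i h1 h2 with h3 | h3
  · exact Or.inl (h3.trans_le hT)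
  · exact Or.inr (hE.trans_lt h3)

/-- **VPerfW** : in the mean no window cut is isolated -/
def VPerfW : Prop := ∀ ε r e x1 x2 : ℝ, 0 < ε → 0 < r → 0 < e → 0 < x1 → x1 < x2 → ∃ t : ℝ, 0 < t ∧ ∃ N0 : ℕ, ∀ N : ℕ, N0 ≤ N →
  msum (fun _ s => IsoW (r * size N) (e * size N) (t * size N) s) x1 x2 N ≤ ε * N

/-- the sizes of the step numbers of one window -/
lemma size_cmp {x1 x2 : ℝ} (hx1 : 0 < x1) (hx12 : x1 < x2) : ∃ dl du : ℝ, 0 < dl ∧ 0 < du ∧ ∀ N n : ℕ, 1 ≤ N → 1 ≤ n →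
    x1 * N ≤ n → (n : ℝ) ≤ x2 * N → dl * size N ≤ size n ∧ size n ≤ du * size N := by
  obtain ⟨cs, Cs, hcs, hsz, -⟩ := NTSF.finE
  have hCs : 0 < Cs := by
    have h1 := (hsz 1 le_rfl).2
    have h2 := NTSF.size_pos (n := 1) le_rfl
    rw [Nat.cast_one, Real.one_rpow, mul_one] at h1
    linarith
  have hx2 : 0 < x2 := hx1.trans hx12
  refine ⟨cs * x1 ^ (3 / 4 : ℝ) / Cs, Cs * x2 ^ (3 / 4 : ℝ) / cs, by positivity, by positivity, fun N n hN hn h1 h2 => ?_⟩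
  have hNR : (0 : ℝ) < N := by exact_mod_cast hN
  obtain ⟨a1, a2⟩ := hsz N hN
  obtain ⟨b1, b2⟩ := hsz n hn
  have e1 : x1 ^ (3 / 4 : ℝ) * (N : ℝ) ^ (3 / 4 : ℝ) ≤ (n : ℝ) ^ (3 / 4 : ℝ) := by
    rw [← Real.mul_rpow hx1.le hNR.le]
    exact Real.rpow_le_rpow (by positivity) h1 (by norm_num)
  have e2 : (n : ℝ) ^ (3 / 4 : ℝ) ≤ x2 ^ (3 / 4 : ℝ) * (N : ℝ) ^ (3 / 4 : ℝ) := by
    rw [← Real.mul_rpow hx2.le hNR.le]
    exact Real.rpow_le_rpow (by positivity) h2 (by norm_num)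
  constructor
  · calc cs * x1 ^ (3 / 4 : ℝ) / Cs * size N ≤ cs * x1 ^ (3 / 4 : ℝ) / Cs * (Cs * (N : ℝ) ^ (3 / 4 : ℝ)) := by gcongr
      _ = cs * (x1 ^ (3 / 4 : ℝ) * (N : ℝ) ^ (3 / 4 : ℝ)) := by field_simp
      _ ≤ cs * (n : ℝ) ^ (3 / 4 : ℝ) := by gcongr
      _ ≤ _ := b1
  · calc size n ≤ Cs * (n : ℝ) ^ (3 / 4 : ℝ) := b2
      _ ≤ Cs * (x2 ^ (3 / 4 : ℝ) * (N : ℝ) ^ (3 / 4 : ℝ)) := by gcongr
      _ = Cs * x2 ^ (3 / 4 : ℝ) / cs * (cs * (N : ℝ) ^ (3 / 4 : ℝ)) := by field_simp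
      _ ≤ _ := by gcongr

/-- the count, in powers -/
lemma iw_pow {r e L : ℝ} (hr : 0 < r) (he : 0 < e) (her : e ≤ r / 8) (hL : 0 < L) (hLr : r / 8 ≤ 2 * L) :
    ∃ K M0 : ℝ, 0 < K ∧ 0 < M0 ∧ ∀ t M : ℝ, 0 < t → t ≤ e / 2 → M0 ≤ M → 1 ≤ t * M → ∀ F : Finset ℕ,
      ∑ n ∈ F, (((saw n).filter fun s => IW (r * M) (e * M) (t * M) (r / 16 * M) (L * M) s).card : ℝ) * fug ^ n ≤
        K * (t ^ (3 / 4 : ℝ) * M ^ (43 / 24 : ℝ)) := by
  obtain ⟨C, b0, hC, hb0, hN⟩ := ncw_le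
  obtain ⟨CU, hCU, hup⟩ := HexObs.GLow.UU_up
  have hx := HexObs.xc_pos
  obtain ⟨K1, hK1⟩ : ∃ K1 : ℝ, K1 = C * (r / (4 * e)) * (3 * L) ^ (43 / 24 : ℝ) * (r / 8) ^ (-(61 / 48) : ℝ) := ⟨_, rfl⟩
  have hK10 : 0 < K1 := by rw [hK1]; positivity
  refine ⟨1 / xc * K1 ^ 2 * CU * 2 ^ (3 / 4 : ℝ), max (max (8 * b0 / r) (32 / r)) (1 / L), by positivity, by positivity,
    fun t M ht hte hM htM F => ?_⟩
  have hM1 : 8 * b0 / r ≤ M := (le_max_left _ _).trans ((le_max_left _ _).trans hM)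
  have hM2 : 32 / r ≤ M := (le_max_right _ _).trans ((le_max_left _ _).trans hM)
  have hM3 : 1 / L ≤ M := (le_max_right _ _).trans hM
  have hM0 : 0 < M := lt_of_lt_of_le (by positivity) hM2
  rw [div_le_iff₀ hr] at hM1 hM2
  rw [div_le_iff₀ hL] at hM3
  obtain ⟨H, hH⟩ : ∃ H : ℕ, H = ⌊4 / 3 * (t * M)⌋₊ := ⟨_, rfl⟩
  have hHR : (H : ℝ) ≤ 2 * (t * M) := by
    have h1 := Nat.floor_le (a := 4 / 3 * (t * M)) (by positivity)
    rw [← hH] at h1
    have : 0 ≤ t * M := by positivity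
    linarith
  have hHL : 4 / 3 * (t * M) ≤ (H : ℝ) + 1 := by
    have h1 := Nat.lt_floor_add_one (4 / 3 * (t * M))
    rw [← hH] at h1
    exact h1.le
  have hH1 : 1 ≤ H := by
    rw [hH]
    refine Nat.le_floor ?_
    push_cast
    linarith
  have hS := hN (r * M / 2) (r * M / 8) (e * M - t * M) (2 * (L * M) + 1) (by linarith) (by nlinarith)
    (by nlinarith) (by nlinarith) (by nlinarith)
  have hI := iw_sum (H := H) (ρ := r * M) (E := e * M) (T := t * M) (b := r / 16 * M) (R0 := L * M) (by linarith) (by linarith)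
    (by positivity) (by linarith) F
  obtain ⟨S, hSd⟩ : ∃ S, S = ∑' x : NB (r * M / 2) (r * M / 8) (e * M - t * M) (2 * (L * M) + 1), ENNReal.ofReal (xc ^ x.1) :=
    ⟨_, rfl⟩
  rw [← hSd] at hS hI
  have hS' : S ≤ ENNReal.ofReal (K1 * M ^ (25 / 48 : ℝ)) := by
    refine hS.trans (ENNReal.ofReal_le_ofReal ?_)
    have a1 : r * M / 8 / (e * M - t * M) ≤ r / (4 * e) := by
      have h1 : e * M / 2 ≤ e * M - t * M := by nlinarith
      calc r * M / 8 / (e * M - t * M) ≤ r * M / 8 / (e * M / 2) := by gcongr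
        _ = r / (4 * e) := by field_simp; norm_num
    have a2 : (2 * (L * M) + 1) ^ (43 / 24 : ℝ) ≤ (3 * L) ^ (43 / 24 : ℝ) * M ^ (43 / 24 : ℝ) := by
      rw [← Real.mul_rpow (by positivity) hM0.le]
      refine Real.rpow_le_rpow (by positivity) (by nlinarith) (by norm_num)
    have a3 : (r * M / 8) ^ (-(61 / 48) : ℝ) = (r / 8) ^ (-(61 / 48) : ℝ) * M ^ (-(61 / 48) : ℝ) := by
      rw [← Real.mul_rpow (by positivity) hM0.le]
      congr 1
      ring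
    have a4 : M ^ (25 / 48 : ℝ) = M ^ (43 / 24 : ℝ) * M ^ (-(61 / 48) : ℝ) := by
      rw [← Real.rpow_add hM0]
      norm_num
    have a5 : 0 ≤ r * M / 8 / (e * M - t * M) := by
      have h1 : e * M / 2 ≤ e * M - t * M := by nlinarith
      have h2 : 0 < e * M / 2 := by positivity
      exact div_nonneg (by positivity) (by linarith)
    rw [a3, a4, hK1]
    calc C * (r * M / 8 / (e * M - t * M)) * (2 * (L * M) + 1) ^ (43 / 24 : ℝ) *
          ((r / 8) ^ (-(61 / 48) : ℝ) * M ^ (-(61 / 48) : ℝ)) ≤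
        C * (r / (4 * e)) * ((3 * L) ^ (43 / 24 : ℝ) * M ^ (43 / 24 : ℝ)) *
          ((r / 8) ^ (-(61 / 48) : ℝ) * M ^ (-(61 / 48) : ℝ)) := by gcongr
      _ = _ := by ring
  have hUH : gf (BH H) ≤ ENNReal.ofReal (CU * ((2 : ℝ) ^ (3 / 4 : ℝ) * (t ^ (3 / 4 : ℝ) * M ^ (3 / 4 : ℝ)))) := by
    refine (gf_BH H).trans (ENNReal.ofReal_le_ofReal ((hup H hH1).trans ?_))
    refine mul_le_mul_of_nonneg_left ?_ hCU.le
    rw [← Real.mul_rpow ht.le hM0.le, ← Real.mul_rpow (by norm_num) (by positivity)]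
    exact Real.rpow_le_rpow (Nat.cast_nonneg _) hHR (by norm_num)
  have h4 : ENNReal.ofReal (∑ n ∈ F, (((saw n).filter fun s => IW (r * M) (e * M) (t * M) (r / 16 * M) (L * M) s).card : ℝ) * fug ^ n) ≤
      ENNReal.ofReal (1 / xc * K1 ^ 2 * CU * 2 ^ (3 / 4 : ℝ) * (t ^ (3 / 4 : ℝ) * M ^ (43 / 24 : ℝ))) := by
    have h5 : ENNReal.ofReal (∑ n ∈ F, (((saw n).filter fun s => IW (r * M) (e * M) (t * M) (r / 16 * M) (L * M) s).card : ℝ) *
        fug ^ n) =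
        ∑ n ∈ F, (((saw n).filter fun s => IW (r * M) (e * M) (t * M) (r / 16 * M) (L * M) s).card : ℝ≥0∞) *
          ENNReal.ofReal (HexObs.xc ^ n) := by
      rw [ENNReal.ofReal_sum_of_nonneg (fun n _ => mul_nonneg (Nat.cast_nonneg _) (by
        rw [NTSF.fug_eq]
        positivity))]
      refine Finset.sum_congr rfl fun n _ => ?_
      rw [ENNReal.ofReal_mul (Nat.cast_nonneg _), ENNReal.ofReal_natCast, NTSF.fug_eq]
    rw [h5]
    refine hI.trans ?_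
    refine (mul_le_mul_right (mul_le_mul' hS' (mul_le_mul' hUH hS')) _).trans (le_of_eq ?_)
    rw [← ENNReal.ofReal_mul (by positivity), ← ENNReal.ofReal_mul (by positivity), ← ENNReal.ofReal_mul (by positivity)]
    congr 1
    have a4 : M ^ (43 / 24 : ℝ) = (M ^ (25 / 48 : ℝ)) ^ 2 * M ^ (3 / 4 : ℝ) := by
      rw [← Real.rpow_natCast, ← Real.rpow_mul hM0.le, ← Real.rpow_add hM0]
      congr 1
      norm_num
    rw [a4]
    ring
  rwa [ENNReal.ofReal_le_ofReal_iff (by positivity)] at h4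

/-- **in the mean no window cut is isolated** -/
theorem vPerfW : VPerfW := by
  intro ε r e' x1 x2 hε hr he' hx1 hx12
  have hx2 : 0 < x2 := hx1.trans hx12
  obtain ⟨e, hed⟩ : ∃ e : ℝ, e = min e' (r / 8) := ⟨_, rfl⟩
  have he : 0 < e := by rw [hed]; positivity
  have hee : e ≤ e' := hed ▸ min_le_left _ _
  have her : e ≤ r / 8 := hed ▸ min_le_right _ _
  obtain ⟨ca, Ca, hca, hCa, haN⟩ := _root_.CRT.Mass.aN_bounds
  obtain ⟨cs, Cs, hcs, hsz, -⟩ := NTSF.finE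
  have hCs : 0 < Cs := by
    have h1 := (hsz 1 le_rfl).2
    have h2 := NTSF.size_pos (n := 1) le_rfl
    rw [Nat.cast_one, Real.one_rpow, mul_one] at h1
    linarith
  obtain ⟨dl, du, hdl, hdu, hcmp⟩ := size_cmp hx1 hx12
  obtain ⟨L0, hL0, htail⟩ := tailN (ε := ε / (4 * (x2 + 1))) (by positivity)
  obtain ⟨τ, hτ, n1, hslab⟩ := slab (ε := ε / (4 * (x2 + 1))) (b := r / 16 / du) (by positivity) (by positivity)
  obtain ⟨L, hL⟩ : ∃ L : ℝ, L = max (L0 * du) r := ⟨_, rfl⟩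
  have hLL0 : L0 * du ≤ L := hL ▸ le_max_left _ _
  have hLr : r ≤ L := hL ▸ le_max_right _ _
  have hL1 : 0 < L := lt_of_lt_of_le hr hLr
  obtain ⟨K, M0, hK, hM0, hcount⟩ := iw_pow hr he her hL1 (by linarith)
  obtain ⟨t, ht⟩ : ∃ t : ℝ, t = min (min (e / 2) (τ * dl))
    ((ε * (ca * x1 ^ (11 / 32 : ℝ)) / (4 * (K * Cs ^ (43 / 24 : ℝ)))) ^ (4 / 3 : ℝ)) := ⟨_, rfl⟩
  have ht0 : 0 < t := by
    rw [ht]
    positivity
  have ht1 : t ≤ e / 2 := ht ▸ (min_le_left _ _).trans (min_le_left _ _)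
  have ht3 : t ≤ τ * dl := ht ▸ (min_le_left _ _).trans (min_le_right _ _)
  have ht2 : t ^ (3 / 4 : ℝ) ≤ ε * (ca * x1 ^ (11 / 32 : ℝ)) / (4 * (K * Cs ^ (43 / 24 : ℝ))) := by
    have h1 : t ≤ (ε * (ca * x1 ^ (11 / 32 : ℝ)) / (4 * (K * Cs ^ (43 / 24 : ℝ)))) ^ (4 / 3 : ℝ) := ht ▸ min_le_right _ _
    have h2 := Real.rpow_le_rpow ht0.le h1 (by norm_num : (0 : ℝ) ≤ 3 / 4)
    rwa [← Real.rpow_mul (by positivity), show (4 / 3 : ℝ) * (3 / 4) = 1 by norm_num, Real.rpow_one] at h2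
  -- the first N
  have hlim : Filter.Tendsto (fun N : ℕ => (N : ℝ) ^ (3 / 4 : ℝ)) Filter.atTop Filter.atTop :=
    (tendsto_rpow_atTop (by norm_num : (0 : ℝ) < 3 / 4)).comp tendsto_natCast_atTop_atTop
  obtain ⟨N1, hN1⟩ := Filter.eventually_atTop.1 (hlim.eventually_ge_atTop (max (M0 / cs) (1 / (t * cs))))
  obtain ⟨N2, hN2⟩ := exists_nat_ge ((n1 + 1 : ℝ) / x1)
  refine ⟨t, ht0, max (max N1 N2) 1, fun N hN => ?_⟩
  have hNN1 : N1 ≤ N := (le_max_left _ _).trans ((le_max_left _ _).trans hN)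
  have hNN2 : N2 ≤ N := (le_max_right _ _).trans ((le_max_left _ _).trans hN)
  have hN0 : 1 ≤ N := (le_max_right _ _).trans hN
  have hNR : (1 : ℝ) ≤ N := by exact_mod_cast hN0
  have hNpos : (0 : ℝ) < N := by linarith
  have hx1N : (n1 + 1 : ℝ) ≤ x1 * N := by
    have h1 : (n1 + 1 : ℝ) / x1 ≤ N := hN2.trans (by exact_mod_cast hNN2)
    rwa [div_le_iff₀ hx1, mul_comm] at h1
  obtain ⟨M, hM⟩ : ∃ M : ℝ, M = size N := ⟨_, rfl⟩
  have hMpos : 0 < M := hM ▸ NTSF.size_pos hN0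
  have hMb := hN1 N hNN1
  have hMlow : cs * (N : ℝ) ^ (3 / 4 : ℝ) ≤ M := hM ▸ (hsz N hN0).1
  have hMup : M ≤ Cs * (N : ℝ) ^ (3 / 4 : ℝ) := hM ▸ (hsz N hN0).2
  have hM1 : M0 ≤ M := by
    have h1 : M0 / cs ≤ (N : ℝ) ^ (3 / 4 : ℝ) := (le_max_left _ _).trans hMb
    rw [div_le_iff₀ hcs, mul_comm] at h1
    exact h1.trans hMlow
  have hM3 : 1 ≤ t * M := by
    have h1 : 1 / (t * cs) ≤ (N : ℝ) ^ (3 / 4 : ℝ) := (le_max_right _ _).trans hMb
    rw [div_le_iff₀ (by positivity)] at h1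
    have h2 := mul_le_mul_of_nonneg_left hMlow ht0.le
    linarith
  obtain ⟨F, hF⟩ : ∃ F : Finset ℕ, F = (Finset.range (⌊x2 * N⌋₊ + 1)).filter (fun n : ℕ => x1 * N ≤ n) := ⟨_, rfl⟩
  have hFm : ∀ n ∈ F, n1 ≤ n ∧ 1 ≤ n ∧ x1 * N ≤ n ∧ (n : ℝ) ≤ x2 * N := by
    intro n hn
    rw [hF, Finset.mem_filter, Finset.mem_range] at hn
    have h1 : (n1 : ℝ) + 1 ≤ n := hx1N.trans hn.2
    have h2 : n1 + 1 ≤ n := by exact_mod_cast h1
    refine ⟨by omega, by omega, hn.2, ?_⟩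
    exact (Nat.le_floor_iff (by positivity)).1 (Nat.lt_succ_iff.1 hn.1)
  have hFc : (F.card : ℝ) ≤ x2 * N + 1 := by
    have h1 : F.card ≤ ⌊x2 * N⌋₊ + 1 := by
      rw [hF]
      exact (Finset.card_filter_le _ _).trans (by rw [Finset.card_range])
    have h2 : (F.card : ℝ) ≤ (⌊x2 * N⌋₊ : ℝ) + 1 := by exact_mod_cast h1
    have h3 := Nat.floor_le (a := x2 * N) (by positivity)
    linarith
  have hcnt := hcount t M ht0 ht1 hM1 hM3 F
  -- one n
  have hone : ∀ n ∈ F, (((saw n).filter fun s => IsoW (r * size N) (e' * size N) (t * size N) s).card : ℝ) / ((saw n).card : ℝ) ≤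
      1 / (ca * (x1 * N) ^ (11 / 32 : ℝ)) *
        ((((saw n).filter fun s => IW (r * M) (e * M) (t * M) (r / 16 * M) (L * M) s).card : ℝ) * fug ^ n) +
        ε / (2 * (x2 + 1)) := by
    intro n hn
    rw [← hM]
    obtain ⟨hn0, hn1, hnx1, hnx2⟩ := hFm n hn
    have hS := NTSF.saw_card_pos n
    obtain ⟨hsz1, hsz2⟩ := hcmp N n hN0 hn1 hnx1 hnx2
    rw [← hM] at hsz1 hsz2
    have hsub : ((saw n).filter fun s => IsoW (r * M) (e' * M) (t * M) s) ⊆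
        ((saw n).filter fun s => IW (r * M) (e * M) (t * M) (r / 16 * M) (L * M) s) ∪
          (((saw n).filter fun s => ¬ ∀ i : ℕ, i ≤ n → ‖pos s i‖ ≤ L0 * size n) ∪
            ((saw n).filter fun s => Slb (r / 16 / du * size n) (τ * size n) s)) := by
      intro s hs
      rw [Finset.mem_filter] at hs
      rw [Finset.mem_union, Finset.mem_union, Finset.mem_filter, Finset.mem_filter, Finset.mem_filter]
      by_cases hb : ∀ i : ℕ, i ≤ n → ‖pos s i‖ ≤ L0 * size n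
      · by_cases hc : Slb (r / 16 / du * size n) (τ * size n) s
        · exact Or.inr (Or.inr ⟨hs.1, hc⟩)
        · left
          refine ⟨hs.1, ?_, fun hcon => hc (hcon.mono ?_ ?_), fun i hi => (hb i hi).trans ?_⟩
          · exact hs.2.mono (by gcongr) le_rfl
          · calc r / 16 / du * size n ≤ r / 16 / du * (du * M) := by gcongr
              _ = _ := by field_simp
          · calc t * M ≤ τ * dl * M := by gcongr
              _ = τ * (dl * M) := by ring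
              _ ≤ _ := by gcongr
          · calc L0 * size n ≤ L0 * (du * M) := by gcongr
              _ = L0 * du * M := by ring
              _ ≤ L * M := by gcongr
      · exact Or.inr (Or.inl ⟨hs.1, hb⟩)
    have hcard : (((saw n).filter fun s => IsoW (r * M) (e' * M) (t * M) s).card : ℝ) ≤
        (((saw n).filter fun s => IW (r * M) (e * M) (t * M) (r / 16 * M) (L * M) s).card : ℝ) +
          ε / (2 * (x2 + 1)) * ((saw n).card : ℝ) := by
      have h1 := (card_le_card hsub).trans ((card_union_le _ _).trans (add_le_add le_rfl (card_union_le _ _)))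
      have h2 := htail n hn1
      have h3 : (((saw n).filter fun s => IsoW (r * M) (e' * M) (t * M) s).card : ℝ) ≤
        (((saw n).filter fun s => IW (r * M) (e * M) (t * M) (r / 16 * M) (L * M) s).card : ℝ) +
          ((((saw n).filter fun s => ¬ ∀ i : ℕ, i ≤ n → ‖pos s i‖ ≤ L0 * size n).card : ℝ) +
            (((saw n).filter fun s => Slb (r / 16 / du * size n) (τ * size n) s).card : ℝ)) := by exact_mod_cast h1
      have h4 := hslab n hn0
      have h5 : ε / (4 * (x2 + 1)) * ((saw n).card : ℝ) + ε / (4 * (x2 + 1)) * ((saw n).card : ℝ) =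
        ε / (2 * (x2 + 1)) * ((saw n).card : ℝ) := by
        field_simp
        norm_num
      linarith
    have haNn := (haN n hn1).1
    have hA : ca * (x1 * N) ^ (11 / 32 : ℝ) ≤ ((saw n).card : ℝ) * fug ^ n := by
      refine le_trans ?_ haNn
      have h2 : (x1 * N) ^ (11 / 32 : ℝ) ≤ (n : ℝ) ^ (11 / 32 : ℝ) := Real.rpow_le_rpow (by positivity) hnx1 (by norm_num)
      gcongr
    have hA0 : 0 < ca * (x1 * N) ^ (11 / 32 : ℝ) := by positivity
    have hfn : 0 < fug ^ n := by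
      rw [NTSF.fug_eq]
      exact pow_pos HexObs.xc_pos n
    obtain ⟨X, hX⟩ : ∃ X : ℝ, X = (((saw n).filter fun s => IW (r * M) (e * M) (t * M) (r / 16 * M) (L * M) s).card : ℝ) := ⟨_, rfl⟩
    have hX0 : 0 ≤ X := by rw [hX]; exact Nat.cast_nonneg _
    rw [← hX] at hcard ⊢
    rw [div_le_iff₀ hS, add_mul]
    refine hcard.trans (add_le_add ?_ le_rfl)
    have h5 : 1 / (ca * (x1 * N) ^ (11 / 32 : ℝ)) * (X * fug ^ n) * ((saw n).card : ℝ) =
        X * ((((saw n).card : ℝ) * fug ^ n) / (ca * (x1 * N) ^ (11 / 32 : ℝ))) := by ring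
    rw [h5]
    have h6 : 1 ≤ (((saw n).card : ℝ) * fug ^ n) / (ca * (x1 * N) ^ (11 / 32 : ℝ)) := by
      rw [one_le_div hA0]
      exact hA
    exact le_mul_of_one_le_right hX0 h6
  -- the sum
  unfold msum
  rw [← hF]
  have hsum := Finset.sum_le_sum hone
  refine hsum.trans ?_
  rw [Finset.sum_add_distrib, ← Finset.mul_sum, Finset.sum_const, nsmul_eq_mul]
  have hA0 : 0 < ca * (x1 * N) ^ (11 / 32 : ℝ) := by positivity
  have hMN : M ^ (43 / 24 : ℝ) ≤ Cs ^ (43 / 24 : ℝ) * ((N : ℝ) ^ (11 / 32 : ℝ) * N) := by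
    have h1 := Real.rpow_le_rpow hMpos.le hMup (by norm_num : (0 : ℝ) ≤ 43 / 24)
    refine h1.trans (le_of_eq ?_)
    rw [Real.mul_rpow hCs.le (by positivity), ← Real.rpow_mul hNpos.le]
    congr 1
    nth_rewrite 3 [← Real.rpow_one (N : ℝ)]
    rw [← Real.rpow_add hNpos]
    congr 1
    norm_num
  have h1 : 1 / (ca * (x1 * N) ^ (11 / 32 : ℝ)) * ∑ n ∈ F,
      ((((saw n).filter fun s => IW (r * M) (e * M) (t * M) (r / 16 * M) (L * M) s).card : ℝ) * fug ^ n) ≤ ε / 4 * N := by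
    rw [one_div, inv_mul_le_iff₀ hA0]
    refine hcnt.trans ?_
    have h2 : K * (t ^ (3 / 4 : ℝ) * M ^ (43 / 24 : ℝ)) ≤
        K * ((ε * (ca * x1 ^ (11 / 32 : ℝ)) / (4 * (K * Cs ^ (43 / 24 : ℝ)))) *
          (Cs ^ (43 / 24 : ℝ) * ((N : ℝ) ^ (11 / 32 : ℝ) * N))) := by gcongr
    refine h2.trans (le_of_eq ?_)
    rw [Real.mul_rpow hx1.le hNpos.le]
    field_simp
  have h2 : (F.card : ℝ) * (ε / (2 * (x2 + 1))) ≤ ε / 2 * N := by
    have h3 : x2 * N + 1 ≤ (x2 + 1) * N := by nlinarith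
    calc (F.card : ℝ) * (ε / (2 * (x2 + 1))) ≤ ((x2 + 1) * N) * (ε / (2 * (x2 + 1))) := by
          refine mul_le_mul_of_nonneg_right (hFc.trans h3) (by positivity)
      _ = _ := by field_simp
  have h3 : 0 ≤ ε * N := by positivity
  linarith

end Pool.Agent.CRT.R
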