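import Pool.Agent.CRT.VProd
import Pool.Agent.NTS.Dict
import Pool.Agent.BAR.HCut
import Pool.Agent.BAR1.Base
import Pool.Agent.BAR13.Cuts

/-!
# CRT, row V1 (helper59), part 1: walks with an isolated cluster of real cuts = half word, bridge, half word

`iso_le`: the critical mass of the walks with a real cut which is isolated at the scale `T, E`.
-/

set_option autoImplicit false

open Set Filter Topology MeasureTheory
open scoped ENNReal

namespace Pool.Agent.CRT.V.V1

open Pool.Agent.NTS.Res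
open NTSF (pos_zero pos_succ mem_saw sw_surj sw_inj pos_sw)
open NTF (sw JJ gf_card JJ_re)
open HexObs (wE gf xc oo up vx dx lev Brd SSt SawN dirs ip turn tf UU)
open HexObs.BAR (HCut NC NC_le HH)

/-! ### 1. pieces of a walk -/

lemma step_par {i j : ℕ} (h : Even i ↔ Even j) (a : Fin 3) : step i a = step j a := by
  unfold step
  congr 1
  by_cases hi : Even i
  · rw [hi.neg_one_pow, (h.1 hi).neg_one_pow]
  · have hj : ¬ Even j := fun h' => hi (h.2 h')
    rw [(Nat.not_even_iff_odd.1 hi).neg_one_pow, (Nat.not_even_iff_odd.1 hj).neg_one_pow]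

lemma step_zero (i : ℕ) (hi : Even i) : step i 0 = 1 := by
  unfold step
  rw [hi.neg_one_pow]
  simp

/-- the piece of `m` steps from the time `a` on -/
def sl {n : ℕ} (s : Fin n → Fin 3) (a m : ℕ) : Fin m → Fin 3 := fun i => if h : a + i < n then s ⟨a + i, h⟩ else 0

lemma pos_sl {n : ℕ} (s : Fin n → Fin 3) {a m : ℕ} (ha : Even a) (hm : a + m ≤ n) {t : ℕ} (ht : t ≤ m) :
    pos s (a + t) = pos s a + pos (sl s a m) t := by
  induction t with
  | zero => rw [pos_zero, add_zero, add_zero]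
  | succ t ih =>
    have e1 := pos_succ s (a + t) (by omega)
    have e2 := pos_succ (sl s a m) t (by omega)
    rw [← add_assoc, e1, ih (by omega), e2, add_assoc]
    congr 2
    have e3 : sl s a m ⟨t, by omega⟩ = s ⟨a + t, by omega⟩ := by
      unfold sl
      rw [dif_pos (show a + t < n by omega)]
    rw [e3]
    exact step_par (by rw [Nat.even_add]; simp [ha]) _

/-- the reversed beginning, with the step behind it in front -/
def rv {n : ℕ} (s : Fin n → Fin 3) (k : ℕ) : Fin (k + 1) → Fin 3 :=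
  fun j => if (j : ℕ) = 0 then 0 else if h : k - j < n then s ⟨k - j, h⟩ else 0

lemma pos_rv {n : ℕ} (s : Fin n → Fin 3) {k : ℕ} (hk : Even k) (hn : k ≤ n) {j : ℕ} (hj : j ≤ k) :
    pos (rv s k) (j + 1) = 1 + pos s k - pos s (k - j) := by
  induction j with
  | zero =>
    have e1 := pos_succ (rv s k) 0 (by omega)
    rw [e1, pos_zero, Nat.sub_zero, zero_add, add_sub_cancel_right]
    exact step_zero 0 (by decide)
  | succ j ih =>
    have e1 := pos_succ (rv s k) (j + 1) (by omega)
    rw [e1, ih (by omega)]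
    have e2 : pos s (k - j) = pos s (k - (j + 1)) + step (k - (j + 1)) (s ⟨k - (j + 1), by omega⟩) := by
      have := pos_succ s (k - (j + 1)) (by omega)
      rw [← this]
      congr 1
      omega
    have e3 : rv s k ⟨j + 1, by omega⟩ = s ⟨k - (j + 1), by omega⟩ := by
      unfold rv
      rw [if_neg (show ¬ (j + 1 = 0) by omega), dif_pos (show k - (j + 1) < n by omega)]
    rw [e3, e2]
    have e4 : step (j + 1) (s ⟨k - (j + 1), by omega⟩) = step (k - (j + 1)) (s ⟨k - (j + 1), by omega⟩) := by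
      refine step_par ?_ _
      rw [Nat.even_sub (by omega : j + 1 ≤ k)]
      simp [hk]
    rw [e4]
    ring

/-! ### 2. classes -/

/-- half walks whose cuts are far away -/
structure HA (m : ℕ) (G R : ℝ) (v : Fin m → Fin 3) : Prop where
  saw : v ∈ saw m
  hp : VP.PB m v
  gap : ∀ j : ℕ, 0 < j → Cut v j → G < (pos v j).re
  top : ∀ j : ℕ, j ≤ m → (pos v j).re ≤ R

/-- bridges -/
structure HB (m : ℕ) (T : ℝ) (v : Fin m → Fin 3) : Prop where
  saw : v ∈ saw m
  ev : Even m
  hp : 0 < m → VP.PB m v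
  le : ∀ j : ℕ, j ≤ m → (pos v j).re ≤ (pos v m).re
  top : (pos v m).re < T

/-- a real cut which is isolated at the scales `T`, `E`, in a walk of size `R` -/
def Is {n : ℕ} (E T R : ℝ) (s : Fin n → Fin 3) : Prop :=
  (∃ k : ℕ, Cut s k ∧ ∀ i : ℕ, Cut s i → |(pos s i).re - (pos s k).re| < T ∨ E < |(pos s i).re - (pos s k).re|) ∧
    ∀ i : ℕ, i ≤ n → |(pos s i).re| ≤ R

lemma cut_mono {n : ℕ} {s : Fin n → Fin 3} {i j : ℕ} (hi : Cut s i) (hj : Cut s j) (h : i < j) :
    (pos s i).re + 1 ≤ (pos s j).re := by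
  obtain ⟨_, _, h3, _, h5⟩ := hi
  have := h5 j h hj.1.le
  rw [h3, Complex.add_re, Complex.one_re] at this
  exact this

/-- **the decomposition** -/
theorem split {n : ℕ} {E T R : ℝ} {s : Fin n → Fin 3} (hs : s ∈ saw n) (hT : 0 < T) (h : Is E T R s) :
    ∃ k0 k1 : ℕ, Even k0 ∧ Even k1 ∧ k0 ≤ k1 ∧ k1 < n ∧ HA (k0 + 1) (E - T) (2 * R + 1) (rv s k0) ∧
      HB (k1 - k0) (2 * T) (sl s k0 (k1 - k0)) ∧ HA (n - k1) (E - T) (2 * R + 1) (sl s k1 (n - k1)) := by
  classical
  obtain ⟨⟨k, hk, hiso⟩, hR⟩ := h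
  have hinj := mem_saw.1 hs
  -- the first and the last cut of the cluster
  have hex0 : ∃ i, Cut s i ∧ (pos s k).re - T < (pos s i).re := ⟨k, hk, by linarith⟩
  obtain ⟨k0, hk0⟩ : ∃ k0, k0 = Nat.find hex0 := ⟨_, rfl⟩
  have f0 := Nat.find_spec hex0
  rw [← hk0] at f0
  have m0 : ∀ i, i < k0 → Cut s i → (pos s i).re ≤ (pos s k).re - T := by
    intro i hi hc
    by_contra hcon
    push Not at hcon
    exact Nat.find_min hex0 (by rw [← hk0]; exact hi) ⟨hc, hcon⟩
  have hk0k : k0 ≤ k := by
    rw [hk0]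
    exact Nat.find_min' hex0 ⟨hk, by linarith⟩
  obtain ⟨k1, hk1⟩ : ∃ k1, k1 = Nat.findGreatest (fun i => Cut s i ∧ (pos s i).re < (pos s k).re + T) n := ⟨_, rfl⟩
  have hkn : k < n := hk.1
  have f1 : Cut s k1 ∧ (pos s k1).re < (pos s k).re + T := by
    rw [hk1]
    exact Nat.findGreatest_spec (P := fun i => Cut s i ∧ (pos s i).re < (pos s k).re + T) hkn.le ⟨hk, by linarith⟩
  have hkk1 : k ≤ k1 := by
    rw [hk1]
    exact Nat.le_findGreatest hkn.le ⟨hk, by linarith⟩
  have m1 : ∀ i, k1 < i → Cut s i → (pos s k).re + T ≤ (pos s i).re := by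
    intro i hi hc
    by_contra hcon
    push Not at hcon
    have : i ≤ k1 := by
      rw [hk1]
      exact Nat.le_findGreatest hc.1.le ⟨hc, hcon⟩
    omega
  obtain ⟨⟨a1, a2, a3, a4, a5⟩, a6⟩ := id f0
  obtain ⟨⟨b1, b2, b3, b4, b5⟩, b6⟩ := id f1
  -- the gaps
  have g0 : ∀ i, i < k0 → Cut s i → (pos s i).re < (pos s k0).re - (E - T) := by
    intro i hi hc
    have h1 := m0 i hi hc
    rcases hiso i hc with h2 | h2
    · rw [abs_lt] at h2
      linarith [h2.1]
    · rw [abs_of_nonpos (by linarith)] at h2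
      linarith
  have g1 : ∀ i, k1 < i → Cut s i → (pos s k1).re + (E - T) < (pos s i).re := by
    intro i hi hc
    have h1 := m1 i hi hc
    rcases hiso i hc with h2 | h2
    · rw [abs_lt] at h2
      linarith [h2.2]
    · rw [abs_of_nonneg (by linarith)] at h2
      linarith
  have hRR : ∀ i j, i ≤ n → j ≤ n → (pos s i).re - (pos s j).re ≤ 2 * R := by
    intro i j hi hj
    have h1 := abs_le.1 (hR i hi)
    have h2 := abs_le.1 (hR j hj)
    linarith [h1.2, h2.1]
  have hR0 : 0 ≤ R := (abs_nonneg _).trans (hR 0 (Nat.zero_le _))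
  have p0 : ∀ j, j ≤ k0 → pos (rv s k0) (j + 1) = 1 + pos s k0 - pos s (k0 - j) := fun j hj =>
    pos_rv s a2 a1.le hj
  have p1 : ∀ t, t ≤ n - k1 → pos s (k1 + t) = pos s k1 + pos (sl s k1 (n - k1)) t := fun t ht =>
    pos_sl s b2 (by omega) ht
  have p2 : ∀ t, t ≤ k1 - k0 → pos s (k0 + t) = pos s k0 + pos (sl s k0 (k1 - k0)) t := fun t ht =>
    pos_sl s a2 (by omega) ht
  refine ⟨k0, k1, a2, b2, hk0k.trans hkk1, b1, ?_, ?_, ?_⟩
  · refine ⟨?_, ⟨Nat.succ_pos _, ?_, ?_⟩, ?_, ?_⟩
    · rw [mem_saw]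
      intro i j hi hj he
      rcases Nat.eq_zero_or_pos i with h1 | h1 <;> rcases Nat.eq_zero_or_pos j with h2 | h2
      · omega
      · exfalso
        obtain ⟨j', rfl⟩ : ∃ j', j = j' + 1 := ⟨j - 1, by omega⟩
        rw [h1, pos_zero, p0 j' (by omega)] at he
        have h3 := a4 (k0 - j') (by omega)
        have h4 := congrArg Complex.re he
        rw [Complex.zero_re, Complex.sub_re, Complex.add_re, Complex.one_re] at h4
        linarith
      · exfalso
        obtain ⟨i', rfl⟩ : ∃ i', i = i' + 1 := ⟨i - 1, by omega⟩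
        rw [h2, pos_zero, p0 i' (by omega)] at he
        have h3 := a4 (k0 - i') (by omega)
        have h4 := congrArg Complex.re he
        rw [Complex.zero_re, Complex.sub_re, Complex.add_re, Complex.one_re] at h4
        linarith
      · obtain ⟨i', rfl⟩ : ∃ i', i = i' + 1 := ⟨i - 1, by omega⟩
        obtain ⟨j', rfl⟩ : ∃ j', j = j' + 1 := ⟨j - 1, by omega⟩
        rw [p0 i' (by omega), p0 j' (by omega)] at he
        have h3 : pos s (k0 - i') = pos s (k0 - j') := by
          linear_combination -he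
        have := hinj _ _ (by omega) (by omega) h3
        omega
    · have := p0 0 (Nat.zero_le _)
      rw [this, Nat.sub_zero, add_sub_cancel_right]
    · intro j hj hj1
      obtain ⟨j', rfl⟩ : ∃ j', j = j' + 1 := ⟨j - 1, by omega⟩
      rw [p0 j' (by omega), Complex.sub_re, Complex.add_re, Complex.one_re]
      have := a4 (k0 - j') (by omega)
      linarith
    · intro j hj hc
      obtain ⟨c1, c2, c3, c4, c5⟩ := hc
      obtain ⟨j', rfl⟩ : ∃ j', j = j' + 1 := ⟨j - 1, by omega⟩
      have e1 := p0 j' (by omega)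
      have e2 := p0 (j' + 1) (by omega)
      have hj' : j' + 1 ≤ k0 := by omega
      have hcut : Cut s (k0 - (j' + 1)) := by
        refine ⟨by omega, ?_, ?_, fun i hi => ?_, fun i hi hin => ?_⟩
        · rw [Nat.even_sub hj']
          simp [a2, c2]
        · rw [e2, e1] at c3
          rw [show k0 - (j' + 1) + 1 = k0 - j' by omega]
          linear_combination c3
        · obtain ⟨l, hl1, hl2⟩ : ∃ l, l ≤ k0 ∧ i = k0 - l := ⟨k0 - i, by omega, by omega⟩
          have h1 := c5 (l + 1) (by omega) (by omega)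
          rw [e2, p0 l hl1, Complex.sub_re, Complex.sub_re] at h1
          rw [hl2]
          linarith
        · rw [show k0 - (j' + 1) + 1 = k0 - j' by omega]
          rcases le_or_gt i k0 with h1 | h1
          · obtain ⟨l, hl1, hl2⟩ : ∃ l, l ≤ k0 ∧ i = k0 - l := ⟨k0 - i, by omega, by omega⟩
            have h2 := c4 (l + 1) (by omega)
            rw [e1, p0 l hl1, Complex.sub_re, Complex.sub_re] at h2
            rw [hl2]
            linarith
          · have h2 := a5 i h1 hin
            have h3 := a4 (k0 - j') (by omega)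
            rw [a3, Complex.add_re, Complex.one_re] at h2
            linarith
      have h1 := g0 _ (by omega) hcut
      rw [e1, Complex.sub_re, Complex.add_re, Complex.one_re]
      have h2 := cut_mono hcut f0.1 (by omega)
      have h3 : (pos s (k0 - j')).re = (pos s (k0 - (j' + 1))).re + 1 := by
        have := hcut.2.2.1
        rw [show k0 - (j' + 1) + 1 = k0 - j' by omega] at this
        rw [this, Complex.add_re, Complex.one_re]
      linarith
    · intro j hj
      rcases Nat.eq_zero_or_pos j with h1 | h1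
      · rw [h1, pos_zero, Complex.zero_re]
        linarith
      · obtain ⟨j', rfl⟩ : ∃ j', j = j' + 1 := ⟨j - 1, by omega⟩
        rw [p0 j' (by omega), Complex.sub_re, Complex.add_re, Complex.one_re]
        have := hRR k0 (k0 - j') a1.le (by omega)
        linarith
  · have hsawp : ∀ i j : ℕ, i ≤ k1 - k0 → j ≤ k1 - k0 → pos (sl s k0 (k1 - k0)) i = pos (sl s k0 (k1 - k0)) j → i = j := by
      intro i j hi hj he
      have h1 := p2 i hi
      have h2 := p2 j hj
      have := hinj (k0 + i) (k0 + j) (by omega) (by omega) (by rw [h1, h2, he])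
      omega
    have e2 : pos s k1 = pos s k0 + pos (sl s k0 (k1 - k0)) (k1 - k0) := by
      have := p2 (k1 - k0) le_rfl
      rw [← this]
      congr 1
      omega
    refine ⟨mem_saw.2 hsawp, ?_, fun hm => ⟨hm, ?_, ?_⟩, ?_, ?_⟩
    · rw [Nat.even_sub (by omega)]
      simp [a2, b2]
    · have := p2 1 (by omega)
      rw [a3] at this
      exact (add_left_cancel this).symm
    · intro j hj hjm
      have h1 := p2 j hjm
      have h2 := a5 (k0 + j) (by omega) (by omega)
      rw [a3, h1, Complex.add_re, Complex.add_re, Complex.one_re] at h2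
      linarith
    · intro j hj
      have h1 := p2 j hj
      have h2 := b4 (k0 + j) (by omega)
      rw [h1, e2, Complex.add_re, Complex.add_re] at h2
      linarith
    · have h1 := congrArg Complex.re e2
      rw [Complex.add_re] at h1
      linarith
  · have hsawp : ∀ i j : ℕ, i ≤ n - k1 → j ≤ n - k1 → pos (sl s k1 (n - k1)) i = pos (sl s k1 (n - k1)) j → i = j := by
      intro i j hi hj he
      have h1 := p1 i hi
      have h2 := p1 j hj
      have := hinj (k1 + i) (k1 + j) (by omega) (by omega) (by rw [h1, h2, he])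
      omega
    refine ⟨mem_saw.2 hsawp, ⟨by omega, ?_, ?_⟩, ?_, ?_⟩
    · have := p1 1 (by omega)
      rw [b3] at this
      exact (add_left_cancel this).symm
    · intro j hj hjm
      have h1 := p1 j hjm
      have h2 := b5 (k1 + j) (by omega) (by omega)
      rw [b3, h1, Complex.add_re, Complex.add_re, Complex.one_re] at h2
      linarith
    · intro j hj hc
      obtain ⟨c1, c2, c3, c4, c5⟩ := hc
      have hcut : Cut s (k1 + j) := by
        refine ⟨by omega, ?_, ?_, fun i hi => ?_, fun i hi hin => ?_⟩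
        · rw [Nat.even_add]
          simp [b2, c2]
        · rw [add_assoc, p1 (j + 1) (by omega), p1 j (by omega), c3]
          ring
        · rcases le_or_gt i k1 with h1 | h1
          · have h2 := b4 i h1
            have h3 := b5 (k1 + j) (by omega) (by omega)
            rw [b3, Complex.add_re, Complex.one_re] at h3
            linarith
          · obtain ⟨l, rfl⟩ : ∃ l, i = k1 + l := ⟨i - k1, by omega⟩
            rw [p1 l (by omega), p1 j (by omega), Complex.add_re, Complex.add_re]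
            have := c4 l (by omega)
            linarith
        · obtain ⟨l, rfl⟩ : ∃ l, i = k1 + l := ⟨i - k1, by omega⟩
          rw [add_assoc, p1 (j + 1) (by omega), p1 l (by omega), Complex.add_re, Complex.add_re]
          have := c5 l (by omega) (by omega)
          linarith
      have h1 := g1 _ (by omega) hcut
      rw [p1 j (by omega), Complex.add_re] at h1
      linarith
    · intro j hj
      have h1 := p1 j hj
      have h2 := hRR (k1 + j) k1 (by omega) b1.le
      have h3 := congrArg Complex.re h1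
      rw [Complex.add_re] at h3
      linarith

/-! ### 3. words -/

lemma re_sw {m : ℕ} (t : List Bool) {k : ℕ} (hk : k ≤ m) : (pos (sw m t) k).re = (lev t k : ℝ) / 2 := by
  rw [pos_sw m t k hk, JJ_re]
  unfold lev ip up
  push_cast
  ring

lemma first_zero {m : ℕ} {v : Fin m → Fin 3} (h : VP.PB m v) : v ⟨0, h.1⟩ = 0 := by
  obtain ⟨h0, h1, _⟩ := h
  have h2 : JJ (NTF.de 0 (v ⟨0, h0⟩)) = JJ (NTF.de 0 0) := by
    rw [NTF.JJ_de, NTF.JJ_de]
    refine Eq.trans (show _ = (1 : ℂ) from ?_) (step_zero 0 (by decide)).symm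
    have h3 := pos_succ v 0 h0
    rw [zero_add, pos_zero, zero_add] at h3
    exact h3.symm.trans h1
  have h3 := NTF.JJ_inj h2
  have h4 := congrArg NTF.aa h3
  rw [NTF.aa_de, NTF.aa_de] at h4
  exact h4

lemma turn_ne : ∀ d ∈ dirs, ∃ b : Bool, turn b d ≠ up := by decide

lemma turn_up : ∀ d ∈ dirs, ip d up = 1 → ∃ b : Bool, turn b d = up := by decide

lemma ip_abs : ∀ d ∈ dirs, |ip d up| ≤ 2 := by decide

/-- the word of a walk with a chosen last letter -/
lemma word_of' {m : ℕ} {v : Fin m → Fin 3} (hv : v ∈ saw m) (h : VP.PB m v) (b : Bool) :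
    ∃ t ∈ SawN m, sw m t = v ∧ dx up t m = turn b (NTF.de (m - 1) (v ⟨m - 1, by have := h.1; omega⟩)) := by
  obtain ⟨t, ht, h1, h2⟩ := sw_surj h.1 hv (first_zero h) b
  refine ⟨t, ht, h1, ?_⟩
  have h3 : dx up t m = turn (tf t (m - 1)) (dx up t (m - 1)) := by
    have := HexObs.dx_succ up t (m - 1)
    rw [Nat.sub_add_cancel h.1] at this
    exact this
  rw [h3, h2, ← NTSF.step_sw' m t (m - 1) (by have := h.1; omega), h1]

lemma de_dirs' (i : ℕ) (a : Fin 3) : NTF.de i a ∈ dirs := NTF.de_dirs i a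

lemma lev_two {t : List Bool} {i : ℕ} (h : 0 < lev t i) : 2 ≤ lev t i := by
  have h1 := HexObs.lev_mod t i
  split_ifs at h1 <;> omega

theorem HA_word {m k d : ℕ} {G R : ℝ} {v : Fin m → Fin 3} (h : HA m G R v) (hk : 3 / 2 * (k : ℝ) ≤ G)
    (hd : 2 * R ≤ 3 * (d : ℝ)) : ∃ t, t ∈ NC k d ∧ t.length = m ∧ sw m t = v := by
  obtain ⟨b, hb⟩ := turn_ne _ (de_dirs' (m - 1) (v ⟨m - 1, by have := h.hp.1; omega⟩))
  obtain ⟨t, ⟨hl, hsaw⟩, hsw, hdx⟩ := word_of' h.saw h.hp b
  have hre : ∀ i, i ≤ m → (pos v i).re = (lev t i : ℝ) / 2 := fun i hi => by rw [← hsw]; exact re_sw t hi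
  have hpos : ∀ i, 1 ≤ i → i ≤ m → 0 < lev t i := by
    intro i h1 h2
    have h3 := h.hp.2.2 i h1 h2
    rw [hre i h2] at h3
    have h4 : (2 : ℝ) ≤ (lev t i : ℝ) := by linarith
    have h5 : (2 : ℤ) ≤ lev t i := by exact_mod_cast h4
    omega
  refine ⟨t, ⟨?_, ?_⟩, hl, hsw⟩
  · rw [HexObs.BAR.mem_SSt]
    rw [hl]
    refine ⟨fun i h1 h2 => ⟨hpos i h1 h2, ?_⟩, fun i j hij hj => ?_⟩
    · have h3 := h.top i h2
      rw [hre i h2] at h3
      have h4 : (lev t i : ℝ) ≤ 3 * (d : ℝ) := by linarith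
      exact_mod_cast h4
    · have := hsaw.inj
      rw [hl] at this
      exact this i j hij hj
  · rintro c hc1 hck ⟨p, w, hp, hw, hpw⟩
    have hpm := (HexObs.mem_Brd.1 hp)
    obtain ⟨q1, q2, q3, q4⟩ := hpm
    have hlen : p.length + w.length = m := by
      rw [← hl, hpw, List.length_append]
    rcases Nat.eq_zero_or_pos w.length with h0 | h0
    · have hw0 : w = [] := List.length_eq_zero_iff.1 h0
      rw [hw0, List.append_nil] at hpw
      apply hb
      rw [← hdx, ← hl, hpw]
      exact q3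
    · have hp0 : 0 < p.length := by
        rcases Nat.eq_zero_or_pos p.length with h1 | h1
        · exfalso
          rw [h1, HexObs.lev_zero] at q4
          omega
        · exact h1
      have hlp : ∀ i, i ≤ p.length → lev t i = lev p i := fun i hi => by
        rw [hpw]
        exact HexObs.lev_append (by omega)
      have hlw : ∀ i, lev t (p.length + i) = 3 * c + lev w i := fun i => by
        rw [hpw, HexObs.lev_cat q3, q4]
      have hdp : dx up t p.length = up := by
        rw [hpw, HexObs.dx_append le_rfl, q3]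
      have hcut : Cut v p.length := by
        refine ⟨by omega, HexObs.BAR13.even_of_up hdp, ?_, fun i hi => ?_, fun i hi him => ?_⟩
        · rw [← hsw, pos_sw m t _ (by omega), pos_sw m t _ (by omega), HexObs.vx_succ, NTF.JJ_add, hdp]
          congr 1
          apply Complex.ext
          · rw [JJ_re]
            unfold up
            norm_num
          · rw [NTF.JJ_im]
            unfold up
            norm_num
        · rw [hre i (by omega), hre _ (by omega), hlp i hi, hlp _ le_rfl, q4]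
          rcases Nat.eq_zero_or_pos i with h1 | h1
          · rw [h1, HexObs.lev_zero]
            push_cast
            have : (0 : ℝ) ≤ (c : ℝ) := by positivity
            linarith
          · have h2 := (q1 i h1 hi).2
            have h3 : (lev p i : ℝ) ≤ ((3 * c : ℤ) : ℝ) := by exact_mod_cast h2
            linarith
        · obtain ⟨l, rfl⟩ : ∃ l, i = p.length + l := ⟨i - p.length, by omega⟩
          rw [hre _ (by omega), hre _ (by omega), hlw 1, hlw l]
          have h1 := lev_two (hw l (by omega) (by omega))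
          have h2 : lev w 1 = 2 := by
            have := HexObs.lev_succ w 0
            rw [zero_add, HexObs.lev_zero, zero_add] at this
            rw [this]
            show ip up up = 2
            decide
          rw [h2]
          have h3 : ((3 * c + 2 : ℤ) : ℝ) ≤ ((3 * c + lev w l : ℤ) : ℝ) := by exact_mod_cast (by omega : (3 * c + 2 : ℤ) ≤ 3 * c + lev w l)
          linarith
      have h1 := h.gap _ hp0 hcut
      rw [hre _ (by omega), hlp _ le_rfl, q4] at h1
      have h2 : (c : ℝ) ≤ k := by exact_mod_cast hck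
      push_cast at h1
      linarith

theorem HB_word {m H : ℕ} {T : ℝ} {v : Fin m → Fin 3} (h : HB m T v) (hT : 2 * T ≤ 3 * ((H : ℝ) + 1)) :
    ∃ (t : List Bool) (c : ℕ), c ≤ H ∧ t ∈ Brd c ∧ t.length = m ∧ sw m t = v := by
  rcases Nat.eq_zero_or_pos m with h0 | h0
  · subst h0
    exact ⟨[], 0, Nat.zero_le _, HexObs.nil_mem_Brd, rfl, funext fun i => i.elim0⟩
  have hp := h.hp h0
  -- the direction of the last step
  obtain ⟨t0, ⟨hl0, _⟩, hsw0, _⟩ := word_of' h.saw hp true
  have hre0 : ∀ i, i ≤ m → (pos v i).re = (lev t0 i : ℝ) / 2 := fun i hi => by rw [← hsw0]; exact re_sw t0 hi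
  have hD : NTF.de (m - 1) (v ⟨m - 1, by omega⟩) = dx up t0 (m - 1) := by
    rw [← NTSF.step_sw' m t0 (m - 1) (by omega), hsw0]
  have hip : ip (NTF.de (m - 1) (v ⟨m - 1, by omega⟩)) up = 1 := by
    rw [hD]
    have e1 := HexObs.lev_succ t0 (m - 1)
    rw [Nat.sub_add_cancel h0] at e1
    have e2 := HexObs.lev_mod t0 m
    have e3 := HexObs.lev_mod t0 (m - 1)
    rw [if_pos h.ev] at e2
    rw [if_neg (by
      have := h.ev
      rw [Nat.even_sub h0]
      simp [this])] at e3
    have e4 := h.le (m - 1) (by omega)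
    rw [hre0 _ (by omega), hre0 _ le_rfl] at e4
    have e5 : (lev t0 (m - 1) : ℝ) ≤ (lev t0 m : ℝ) := by linarith
    have e6 : lev t0 (m - 1) ≤ lev t0 m := by exact_mod_cast e5
    have e7 := abs_le.1 (ip_abs _ (HexObs.dx_mem HexObs.upd t0 (m - 1)))
    omega
  obtain ⟨b, hb⟩ := turn_up _ (de_dirs' _ _) hip
  obtain ⟨t, ⟨hl, hsaw⟩, hsw, hdx⟩ := word_of' h.saw hp b
  have hre : ∀ i, i ≤ m → (pos v i).re = (lev t i : ℝ) / 2 := fun i hi => by rw [← hsw]; exact re_sw t hi
  have hmod := HexObs.lev_mod t m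
  rw [if_pos h.ev, sub_zero] at hmod
  obtain ⟨c, hc⟩ := hmod
  have hc0 : 0 ≤ c := by
    have h1 := hp.2.2 m h0 le_rfl
    rw [hre m le_rfl] at h1
    have h2 : (2 : ℝ) ≤ (lev t m : ℝ) := by linarith
    have h3 : (2 : ℤ) ≤ lev t m := by exact_mod_cast h2
    omega
  refine ⟨t, c.toNat, ?_, ?_, hl, hsw⟩
  · have h1 := h.top
    rw [hre m le_rfl, hc] at h1
    push_cast at h1
    have h2 : (c : ℝ) < (H : ℝ) + 1 := by linarith
    have h3 : c < (H : ℤ) + 1 := by exact_mod_cast h2
    omega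
  · rw [HexObs.mem_Brd, hl]
    have hcn : ((c.toNat : ℕ) : ℤ) = c := Int.toNat_of_nonneg hc0
    rw [hcn, ← hc]
    refine ⟨fun i h1 h2 => ⟨?_, ?_⟩, fun i j hij hj => ?_, by rw [hdx, hb], rfl⟩
    · have h3 := hp.2.2 i h1 h2
      rw [hre i h2] at h3
      have h4 : (2 : ℝ) ≤ (lev t i : ℝ) := by linarith
      have h5 : (2 : ℤ) ≤ lev t i := by exact_mod_cast h4
      omega
    · have h3 := h.le i h2
      rw [hre i h2, hre m le_rfl] at h3
      have h4 : (lev t i : ℝ) ≤ (lev t m : ℝ) := by linarith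
      exact_mod_cast h4
    · have := hsaw.inj
      rw [hl] at this
      exact this i j hij hj

/-! ### 4. masses -/

/-- the words of the bridges of height at most `H` -/
def BH (H : ℕ) : Set (List Bool) := {t | ∃ c, c ≤ H ∧ t ∈ Brd c}

lemma gf_BH (H : ℕ) : gf (BH H) ≤ ENNReal.ofReal (UU H) := by
  rw [← HexObs.BAR.sum_BT]
  have h1 : BH H ⊆ ⋃ c ∈ Finset.range (H + 1), Brd c := by
    rintro t ⟨c, hc, ht⟩
    rw [Set.mem_iUnion₂]
    exact ⟨c, Finset.mem_range.2 (by omega), ht⟩
  refine (HexObs.gf_mono h1).trans ((HexObs.BAR.gf_bi_le _ _).trans (Finset.sum_le_sum fun c _ => ?_))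
  rw [HexObs.gf_Brd]

/-- the walk is determined by its three parts -/
lemma glue_inj {n : ℕ} {s s' : Fin n → Fin 3} {k0 k1 : ℕ} (h0 : k0 ≤ k1) (h1 : k1 < n) (e1 : rv s k0 = rv s' k0)
    (e2 : sl s k0 (k1 - k0) = sl s' k0 (k1 - k0)) (e3 : sl s k1 (n - k1) = sl s' k1 (n - k1)) : s = s' := by
  funext i
  rcases lt_or_ge (i : ℕ) k0 with h | h
  · have := congrFun e1 ⟨k0 - i, by omega⟩
    unfold rv at this
    simp only at this
    rw [if_neg (by omega), if_neg (by omega), dif_pos (show k0 - (k0 - (i : ℕ)) < n by omega),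
      dif_pos (show k0 - (k0 - (i : ℕ)) < n by omega)] at this
    have e : (⟨k0 - (k0 - (i : ℕ)), by omega⟩ : Fin n) = i := Fin.ext (by simp only; omega)
    rwa [e] at this
  · rcases lt_or_ge (i : ℕ) k1 with h' | h'
    · have := congrFun e2 ⟨i - k0, by omega⟩
      unfold sl at this
      simp only at this
      rw [dif_pos (show k0 + ((i : ℕ) - k0) < n by omega), dif_pos (show k0 + ((i : ℕ) - k0) < n by omega)] at this
      have e : (⟨k0 + ((i : ℕ) - k0), by omega⟩ : Fin n) = i := Fin.ext (by simp only; omega)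
      rwa [e] at this
    · have := congrFun e3 ⟨i - k1, by omega⟩
      unfold sl at this
      simp only at this
      rw [dif_pos (show k1 + ((i : ℕ) - k1) < n by omega), dif_pos (show k1 + ((i : ℕ) - k1) < n by omega)] at this
      have e : (⟨k1 + ((i : ℕ) - k1), by omega⟩ : Fin n) = i := Fin.ext (by simp only; omega)
      rwa [e] at this

/-- a walk with an isolated cluster, of any length -/
def XX (E T R : ℝ) : Type := Σ n : ℕ, {s : Fin n → Fin 3 // s ∈ saw n ∧ Is E T R s}

/-- **the critical mass of the walks with an isolated cluster of real cuts** -/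
theorem iso_le {k d H : ℕ} {E T R : ℝ} (hT : 0 < T) (hk : 3 / 2 * (k : ℝ) ≤ E - T) (hH : 4 * T ≤ 3 * ((H : ℝ) + 1))
    (hd : 4 * R + 2 ≤ 3 * (d : ℝ)) : ∑' x : XX E T R, ENNReal.ofReal (xc ^ x.1) ≤
      ENNReal.ofReal xc⁻¹ * (gf (NC k d) * (gf (BH H) * gf (NC k d))) := by
  have key : ∀ x : XX E T R, ∃ (k0 k1 : ℕ) (t1 t2 t3 : List Bool), k0 ≤ k1 ∧ k1 < x.1 ∧
      t1 ∈ NC k d ∧ t1.length = k0 + 1 ∧ sw (k0 + 1) t1 = rv x.2.1 k0 ∧
      t2 ∈ BH H ∧ t2.length = k1 - k0 ∧ sw (k1 - k0) t2 = sl x.2.1 k0 (k1 - k0) ∧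
      t3 ∈ NC k d ∧ t3.length = x.1 - k1 ∧ sw (x.1 - k1) t3 = sl x.2.1 k1 (x.1 - k1) := by
    rintro ⟨n, s, hs, hI⟩
    obtain ⟨k0, k1, _, _, h1, h2, hA, hB, hC⟩ := split hs hT hI
    obtain ⟨t1, a1, a2, a3⟩ := HA_word hA hk (by linarith)
    obtain ⟨t2, c, b1, b2, b3, b4⟩ := HB_word (H := H) hB (by linarith)
    obtain ⟨t3, c1, c2, c3⟩ := HA_word hC hk (by linarith)
    exact ⟨k0, k1, t1, t2, t3, h1, h2, a1, a2, a3, ⟨c, b1, b2⟩, b3, b4, c1, c2, c3⟩
  choose k0 k1 t1 t2 t3 h1 h2 a1 a2 a3 b1 b2 b3 c1 c2 c3 using key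
  let ψ : XX E T R → NC k d × BH H × NC k d := fun x => (⟨t1 x, a1 x⟩, ⟨t2 x, b1 x⟩, ⟨t3 x, c1 x⟩)
  have hψ : Function.Injective ψ := by
    intro x y hxy
    have e1 : t1 x = t1 y := congrArg (fun p => (p.1 : List Bool)) hxy
    have e2 : t2 x = t2 y := congrArg (fun p => (p.2.1 : List Bool)) hxy
    have e3 : t3 x = t3 y := congrArg (fun p => (p.2.2 : List Bool)) hxy
    have l1 := a2 x
    have l2 := b2 x
    have l3 := c2 x
    rw [e1, a2 y] at l1
    rw [e2, b2 y] at l2
    rw [e3, c2 y] at l3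
    have g1 := h1 x
    have g2 := h2 x
    have g3 := h1 y
    have g4 := h2 y
    have f0 : k0 x = k0 y := by omega
    have f1 : k1 x = k1 y := by omega
    have fn : x.1 = y.1 := by omega
    obtain ⟨A1, hA1⟩ : ∃ A1, A1 = a3 x := ⟨_, rfl⟩
    have B1 := a3 x
    have B2 := b3 x
    have B3 := c3 x
    have C1 := a3 y
    have C2 := b3 y
    have C3 := c3 y
    rw [e1, f0] at B1
    rw [e2, f0, f1] at B2
    rw [e3, f1] at B3
    obtain ⟨n, s, hs⟩ := x
    obtain ⟨n', s', hs'⟩ := y
    simp only at fn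
    subst fn
    have es : s = s' := glue_inj g3 g4 (B1.symm.trans C1) (B2.symm.trans C2) (B3.symm.trans C3)
    subst es
    rfl
  have hx := HexObs.xc_pos
  calc ∑' x : XX E T R, ENNReal.ofReal (xc ^ x.1)
      = ∑' x : XX E T R, ENNReal.ofReal xc⁻¹ * (wE (ψ x).1 * (wE (ψ x).2.1 * wE (ψ x).2.2)) := by
        refine tsum_congr fun x => ?_
        show _ = ENNReal.ofReal xc⁻¹ * (wE (t1 x) * (wE (t2 x) * wE (t3 x)))
        unfold wE
        rw [← ENNReal.ofReal_mul (by positivity), ← ENNReal.ofReal_mul (by positivity), ← ENNReal.ofReal_mul (by positivity),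
          a2 x, b2 x, c2 x]
        congr 1
        have g1 := h1 x
        have g2 := h2 x
        rw [← pow_add, ← pow_add, show k0 x + 1 + (k1 x - k0 x + (x.1 - k1 x)) = x.1 + 1 by omega, pow_succ]
        field_simp
    _ ≤ ∑' p : NC k d × BH H × NC k d, ENNReal.ofReal xc⁻¹ * (wE p.1 * (wE p.2.1 * wE p.2.2)) :=
        ENNReal.tsum_comp_le_tsum_of_injective hψ
          (fun p : NC k d × BH H × NC k d => ENNReal.ofReal xc⁻¹ * (wE p.1 * (wE p.2.1 * wE p.2.2)))
    _ = _ := by
        rw [ENNReal.tsum_mul_left]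
        congr 1
        rw [ENNReal.tsum_prod (f := fun (a : NC k d) (b : BH H × NC k d) => wE a * (wE b.1 * wE b.2))]
        unfold gf
        rw [← ENNReal.tsum_mul_right]
        refine tsum_congr fun a => ?_
        rw [ENNReal.tsum_mul_left]
        congr 1
        rw [ENNReal.tsum_prod (f := fun (a : BH H) (b : NC k d) => wE a * wE b), ← ENNReal.tsum_mul_right]
        refine tsum_congr fun b => ?_
        rw [ENNReal.tsum_mul_left]

open Classical in
/-- the same, with numbers of walks -/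
theorem iso_sum {k d H : ℕ} {E T R : ℝ} (hT : 0 < T) (hk : 3 / 2 * (k : ℝ) ≤ E - T) (hH : 4 * T ≤ 3 * ((H : ℝ) + 1))
    (hd : 4 * R + 2 ≤ 3 * (d : ℝ)) (F : Finset ℕ) :
    ∑ n ∈ F, (((saw n).filter fun s => Is E T R s).card : ℝ≥0∞) * ENNReal.ofReal (xc ^ n) ≤
      ENNReal.ofReal xc⁻¹ * (gf (NC k d) * (gf (BH H) * gf (NC k d))) := by
  refine le_trans ?_ (iso_le hT hk hH hd)
  unfold XX
  rw [ENNReal.tsum_sigma' (f := fun x : (Σ n : ℕ, {s : Fin n → Fin 3 // s ∈ saw n ∧ Is E T R s}) => ENNReal.ofReal (xc ^ x.1))]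
  refine le_trans (Finset.sum_le_sum fun n _ => ?_) (ENNReal.sum_le_tsum F)
  show _ ≤ ∑' _ : {s : Fin n → Fin 3 // s ∈ saw n ∧ Is E T R s}, ENNReal.ofReal (xc ^ n)
  rw [ENNReal.tsum_const]
  refine mul_le_mul' (le_of_eq ?_) le_rfl
  have e : ENat.card {s : Fin n → Fin 3 // s ∈ saw n ∧ Is E T R s} = (((saw n).filter fun s => Is E T R s).card : ℕ) := by
    rw [ENat.card_eq_coe_fintype_card, Fintype.card_subtype]
    congr 1
    have : (Finset.univ.filter fun s : Fin n → Fin 3 => s ∈ saw n ∧ Is E T R s) = (saw n).filter fun s => Is E T R s := by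
      ext s
      simp
    rw [this]
  rw [e]
  simp

end Pool.Agent.CRT.V.V1
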