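import Pool.Agent.CRT.VDefs4
import Pool.Agent.CRT.VPfW
import Pool.Agent.CRT.Mass
import Pool.Agent.NTS.Law

/-!
# CRT, row 11A, V1 (helper16), part 2: the numerical end, from the count of the isolated cuts (VPfW, helper59) to `VPerfA`
-/

set_option autoImplicit false

namespace Pool.Agent.CRT.V

open Pool.Agent.NTS.Res

open Finset

open scoped ENNReal Classical

open V1 (Is)

namespace PfN

/-- the walks stay in a disc of the order of the size -/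
lemma tailL {ε : ℝ} (hε : 0 < ε) : ∃ L : ℝ, 1 ≤ L ∧ ∀ n : ℕ, 1 ≤ n →
    (((saw n).filter fun s => ¬ ∀ i : ℕ, i ≤ n → |(pos s i).re| ≤ L * size n).card : ℝ) ≤ ε * ((saw n).card : ℝ) := by
  obtain ⟨-, -, -, -, -, -, htight, -⟩ := NTSF.finE
  rw [MeasureTheory.isTightMeasureSet_iff_exists_isCompact_measure_compl_le] at htight
  obtain ⟨K, hK, hK'⟩ := htight (ENNReal.ofReal ε) (by simpa using hε)
  obtain ⟨M, hM⟩ := hK.isBounded.exists_norm_le
  refine ⟨max 1 M, le_max_left _ _, fun n hn => ?_⟩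
  have hs := NTSF.size_pos hn
  have hn0 : (0 : ℝ) < n := by exact_mod_cast hn
  have hS := NTSF.saw_card_pos n
  have h1 : ((saw n).filter fun s => ¬ ∀ i : ℕ, i ≤ n → |(pos s i).re| ≤ max 1 M * size n) ⊆
      (saw n).filter fun s => curve s ∈ Kᶜ := by
    intro s hs'
    rw [Finset.mem_filter] at hs' ⊢
    refine ⟨hs'.1, fun hKs => hs'.2 fun i hi => ?_⟩
    have hu : (i : ℝ) / n ∈ unitInterval := ⟨by positivity, by
      rw [div_le_one hn0]
      exact_mod_cast hi⟩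
    have h1 := NTSF.Mod.curve_node hn s (a := i) (u := ⟨(i : ℝ) / n, hu⟩) rfl
    have h2 := (curve s).norm_coe_le_norm ⟨(i : ℝ) / n, hu⟩
    rw [h1, norm_div, Complex.norm_of_nonneg hs.le, div_le_iff₀ hs] at h2
    refine (Complex.abs_re_le_norm _).trans (h2.trans ?_)
    exact mul_le_mul_of_nonneg_right ((hM _ hKs).trans (le_max_right _ _)) hs.le
  have h2 := hK' (law n) ⟨n, hn, rfl⟩
  rw [NTSF.law_apply] at h2
  have h3 : (((saw n).filter fun s => curve s ∈ Kᶜ).card : ℝ) ≤ ε * ((saw n).card : ℝ) := by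
    have h4 : ((saw n).card : ℝ≥0∞) ≠ 0 := by
      have : ((saw n).card : ℕ) ≠ 0 := by
        have : (0 : ℝ) < ((saw n).card : ℝ) := hS
        exact_mod_cast this.ne'
      exact_mod_cast this
    have h5 : (((saw n).filter fun s => curve s ∈ Kᶜ).card : ℝ≥0∞) ≤ ENNReal.ofReal ε * ((saw n).card : ℝ≥0∞) := by
      have h6 := mul_le_mul_right h2 ((saw n).card : ℝ≥0∞)
      rw [← mul_assoc, ENNReal.mul_inv_cancel h4 (ENNReal.natCast_ne_top _), one_mul, mul_comm _ (ENNReal.ofReal ε)] at h6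
      convert h6
    rw [← ENNReal.ofReal_natCast, ← ENNReal.ofReal_natCast, ← ENNReal.ofReal_mul hε.le,
      ENNReal.ofReal_le_ofReal_iff (by positivity)] at h5
    exact h5
  refine le_trans ?_ h3
  exact_mod_cast card_le_card h1

/-- the count, in powers -/
lemma count_pow : ∃ C : ℝ, 0 < C ∧ ∀ (k d H : ℕ) (E T R : ℝ) (F : Finset ℕ), 1 ≤ k → 1 ≤ H → k ≤ d → 0 < T →
    3 / 2 * (k : ℝ) ≤ E - T → 4 * T ≤ 3 * ((H : ℝ) + 1) → 4 * R + 2 ≤ 3 * (d : ℝ) →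
    ∑ n ∈ F, (((saw n).filter fun s => Is E T R s).card : ℝ) * fug ^ n ≤
      C * (((d : ℝ) ^ (61 / 48 : ℝ) / (k : ℝ) ^ (3 / 4 : ℝ)) ^ 2 * (H : ℝ) ^ (3 / 4 : ℝ)) := by
  obtain ⟨cU, hcU, hlow⟩ := HexObs.GLow.UU_low
  obtain ⟨CU, hCU, hup⟩ := HexObs.GLow.UU_up
  obtain ⟨CH, hCH, hHH⟩ := HexObs.TPC.hh_up
  have hx := HexObs.xc_pos
  refine ⟨1 / HexObs.xc * (2 / cU * (CH * 2 ^ (61 / 48 : ℝ))) ^ 2 * CU, by positivity,
    fun k d H E T R F hk hH hkd hT h1 h2 h3 => ?_⟩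
  have hk0 : (0 : ℝ) < k := by exact_mod_cast hk
  have hd0 : (0 : ℝ) < d := by exact_mod_cast lt_of_lt_of_le hk hkd
  have hd1 : 1 ≤ d := hk.trans hkd
  have hI' := V1.iso_sum hT h1 h2 h3 F
  have hNC : HexObs.gf (HexObs.BAR.NC k d) ≤
      ENNReal.ofReal (2 / cU * (CH * 2 ^ (61 / 48 : ℝ)) * ((d : ℝ) ^ (61 / 48 : ℝ) / (k : ℝ) ^ (3 / 4 : ℝ))) := by
    refine (HexObs.BAR.NC_le hkd).trans ?_
    refine (mul_le_mul_right (hHH (2 * d) (by omega)) _).trans ?_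
    have hUk := hlow k hk
    have hUpos : 0 < HexObs.UU k := lt_of_lt_of_le (by positivity) hUk
    rw [← ENNReal.ofReal_mul (by positivity)]
    apply ENNReal.ofReal_le_ofReal
    have e1 : ((2 * d : ℕ) : ℝ) ^ (61 / 48 : ℝ) = 2 ^ (61 / 48 : ℝ) * (d : ℝ) ^ (61 / 48 : ℝ) := by
      push_cast
      rw [Real.mul_rpow (by norm_num) hd0.le]
    rw [e1]
    calc 2 / HexObs.UU k * (CH * (2 ^ (61 / 48 : ℝ) * (d : ℝ) ^ (61 / 48 : ℝ)))
        ≤ 2 / (cU * (k : ℝ) ^ (3 / 4 : ℝ)) * (CH * (2 ^ (61 / 48 : ℝ) * (d : ℝ) ^ (61 / 48 : ℝ))) := by gcongr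
      _ = _ := by
        field_simp
  have hUH : ENNReal.ofReal (HexObs.UU H) ≤ ENNReal.ofReal (CU * (H : ℝ) ^ (3 / 4 : ℝ)) :=
    ENNReal.ofReal_le_ofReal (hup H hH)
  have h4 : ENNReal.ofReal (∑ n ∈ F, (((saw n).filter fun s => Is E T R s).card : ℝ) * fug ^ n) ≤
      ENNReal.ofReal (1 / HexObs.xc * (2 / cU * (CH * 2 ^ (61 / 48 : ℝ))) ^ 2 * CU *
        (((d : ℝ) ^ (61 / 48 : ℝ) / (k : ℝ) ^ (3 / 4 : ℝ)) ^ 2 * (H : ℝ) ^ (3 / 4 : ℝ))) := by
    have h5 : ENNReal.ofReal (∑ n ∈ F, (((saw n).filter fun s => Is E T R s).card : ℝ) * fug ^ n) =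
        ∑ n ∈ F, (((saw n).filter fun s => Is E T R s).card : ℝ≥0∞) * ENNReal.ofReal (HexObs.xc ^ n) := by
      rw [ENNReal.ofReal_sum_of_nonneg (fun n _ => mul_nonneg (Nat.cast_nonneg _) (by
        rw [NTSF.fug_eq]
        positivity))]
      refine Finset.sum_congr rfl fun n _ => ?_
      rw [ENNReal.ofReal_mul (Nat.cast_nonneg _), ENNReal.ofReal_natCast, NTSF.fug_eq]
    rw [h5]
    refine hI'.trans ?_
    refine (mul_le_mul_right (mul_le_mul' hNC (mul_le_mul' ((V1.gf_BH H).trans hUH) hNC)) _).trans (le_of_eq ?_)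
    rw [← ENNReal.ofReal_mul (by positivity), ← ENNReal.ofReal_mul (by positivity), ← ENNReal.ofReal_mul (by positivity)]
    congr 1
    ring
  rwa [ENNReal.ofReal_le_ofReal_iff (by positivity)] at h4

end PfN

/-- **V1**: no real cut is isolated, in the mean, from the count -/
theorem vPerfA : VPerfA := by
  intro ε e x1 x2 hε he hx1 hx12
  have hx2 : 0 < x2 := hx1.trans hx12
  obtain ⟨C0, hC0, hcount⟩ := PfN.count_pow
  obtain ⟨ca, Ca, hca, hCa, haN⟩ := _root_.CRT.Mass.aN_bounds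
  obtain ⟨cs, Cs, hcs, hsz, -⟩ := NTSF.finE
  have hCs : 0 < Cs := by
    have h1 := (hsz 1 le_rfl).2
    have h2 := NTSF.size_pos (n := 1) le_rfl
    rw [Nat.cast_one, Real.one_rpow, mul_one] at h1
    linarith
  obtain ⟨L0, hL0, htail⟩ := PfN.tailL (ε := ε / (2 * (x2 + 1))) (by positivity)
  obtain ⟨cl, hcl⟩ : ∃ cl : ℝ, cl = cs * x1 ^ (3 / 4 : ℝ) := ⟨_, rfl⟩
  obtain ⟨Cu, hCu⟩ : ∃ Cu : ℝ, Cu = Cs * x2 ^ (3 / 4 : ℝ) := ⟨_, rfl⟩
  have hcl0 : 0 < cl := by rw [hcl]; positivity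
  have hCu0 : 0 < Cu := by rw [hCu]; positivity
  obtain ⟨L, hL⟩ : ∃ L : ℝ, L = max L0 (e * cl / Cu) := ⟨_, rfl⟩
  have hL1 : 1 ≤ L := hL ▸ hL0.trans (le_max_left _ _)
  have hLL0 : L0 ≤ L := hL ▸ le_max_left _ _
  have hL2 : e * cl ≤ L * Cu := by
    rw [← div_le_iff₀ hCu0]
    exact hL ▸ le_max_right _ _
  obtain ⟨C1, hC1⟩ : ∃ C1 : ℝ, C1 = C0 * (((2 * L * Cu) ^ (61 / 48 : ℝ) / (e * cl / 6) ^ (3 / 4 : ℝ)) ^ 2 *
    (2 * Cu) ^ (3 / 4 : ℝ)) := ⟨_, rfl⟩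
  have hC10 : 0 < C1 := by rw [hC1]; positivity
  obtain ⟨t, ht⟩ : ∃ t : ℝ, t = min (e * cl / (2 * Cu)) ((ε * (ca * x1 ^ (11 / 32 : ℝ)) / (2 * C1)) ^ (4 / 3 : ℝ)) := ⟨_, rfl⟩
  have ht0 : 0 < t := by
    rw [ht]
    positivity
  have ht1 : t * Cu ≤ e * cl / 2 := by
    have h1 : t ≤ e * cl / (2 * Cu) := ht ▸ min_le_left _ _
    calc t * Cu ≤ e * cl / (2 * Cu) * Cu := mul_le_mul_of_nonneg_right h1 hCu0.le
      _ = _ := by field_simp
  have ht2 : t ^ (3 / 4 : ℝ) ≤ ε * (ca * x1 ^ (11 / 32 : ℝ)) / (2 * C1) := by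
    have h1 : t ≤ (ε * (ca * x1 ^ (11 / 32 : ℝ)) / (2 * C1)) ^ (4 / 3 : ℝ) := ht ▸ min_le_right _ _
    have h2 := Real.rpow_le_rpow ht0.le h1 (by norm_num : (0 : ℝ) ≤ 3 / 4)
    rwa [← Real.rpow_mul (by positivity), show (4 / 3 : ℝ) * (3 / 4) = 1 by norm_num, Real.rpow_one] at h2
  -- the first N
  have hlim : Filter.Tendsto (fun N : ℕ => (N : ℝ) ^ (3 / 4 : ℝ)) Filter.atTop Filter.atTop :=
    (tendsto_rpow_atTop (by norm_num : (0 : ℝ) < 3 / 4)).comp tendsto_natCast_atTop_atTop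
  obtain ⟨N1, hN1⟩ := Filter.eventually_atTop.1 (hlim.eventually_ge_atTop (max (max (6 / (e * cl)) (3 / (L * Cu))) (1 / (t * Cu))))
  obtain ⟨N2, hN2⟩ := exists_nat_ge (1 / x1)
  refine ⟨t, ht0, max (max N1 N2) 1, fun N hN => ?_⟩
  have hNN1 : N1 ≤ N := (le_max_left _ _).trans ((le_max_left _ _).trans hN)
  have hNN2 : N2 ≤ N := (le_max_right _ _).trans ((le_max_left _ _).trans hN)
  have hN0 : 1 ≤ N := (le_max_right _ _).trans hN
  have hNR : (1 : ℝ) ≤ N := by exact_mod_cast hN0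
  have hNpos : (0 : ℝ) < N := by linarith
  have hx1N : 1 ≤ x1 * N := by
    have h1 : 1 / x1 ≤ N := hN2.trans (by exact_mod_cast hNN2)
    rwa [div_le_iff₀ hx1, mul_comm] at h1
  obtain ⟨M, hM⟩ : ∃ M : ℝ, M = (N : ℝ) ^ (3 / 4 : ℝ) := ⟨_, rfl⟩
  have hM0 : 0 < M := by rw [hM]; positivity
  have hMb := hN1 N hNN1
  rw [← hM] at hMb
  have hM1 : 6 ≤ e * cl * M := by
    have h1 : 6 / (e * cl) ≤ M := (le_max_left _ _).trans ((le_max_left _ _).trans hMb)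
    rwa [div_le_iff₀ (by positivity), mul_comm] at h1
  have hM2 : 3 ≤ L * Cu * M := by
    have h1 : 3 / (L * Cu) ≤ M := (le_max_right _ _).trans ((le_max_left _ _).trans hMb)
    rwa [div_le_iff₀ (by positivity), mul_comm] at h1
  have hM3 : 1 ≤ t * Cu * M := by
    have h1 : 1 / (t * Cu) ≤ M := (le_max_right _ _).trans hMb
    rwa [div_le_iff₀ (by positivity), mul_comm] at h1
  -- the parameters
  obtain ⟨k, hk⟩ : ∃ k : ℕ, k = ⌊2 / 3 * (e * cl * M - t * Cu * M)⌋₊ := ⟨_, rfl⟩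
  obtain ⟨d, hd⟩ : ∃ d : ℕ, d = ⌈4 / 3 * (L * Cu * M)⌉₊ + 1 := ⟨_, rfl⟩
  obtain ⟨H, hH⟩ : ∃ H : ℕ, H = ⌊4 / 3 * (t * Cu * M)⌋₊ := ⟨_, rfl⟩
  have htM : t * Cu * M ≤ e * cl * M / 2 := by
    have := mul_le_mul_of_nonneg_right ht1 hM0.le
    linarith
  have hkR : (k : ℝ) ≤ 2 / 3 * (e * cl * M - t * Cu * M) := by
    rw [hk]
    exact Nat.floor_le (by linarith)
  have hkL : e * cl * M / 6 ≤ k := by
    have h1 := Nat.lt_floor_add_one (2 / 3 * (e * cl * M - t * Cu * M))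
    rw [← hk] at h1
    linarith
  have hk1 : 1 ≤ k := by
    have h1 : (1 : ℝ) ≤ k := by linarith
    exact_mod_cast h1
  have hdL : 4 / 3 * (L * Cu * M) + 1 ≤ d := by
    rw [hd]
    push_cast
    have := Nat.le_ceil (4 / 3 * (L * Cu * M))
    linarith
  have hdR : (d : ℝ) ≤ 2 * (L * Cu * M) := by
    have h1 := Nat.ceil_lt_add_one (a := 4 / 3 * (L * Cu * M)) (by positivity)
    rw [hd]
    push_cast
    linarith
  have hHR : (H : ℝ) ≤ 2 * (t * Cu * M) := by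
    have h1 := Nat.floor_le (a := 4 / 3 * (t * Cu * M)) (by positivity)
    rw [← hH] at h1
    have : 0 ≤ t * Cu * M := by positivity
    linarith
  have hHL : 4 / 3 * (t * Cu * M) ≤ (H : ℝ) + 1 := by
    have h1 := Nat.lt_floor_add_one (4 / 3 * (t * Cu * M))
    rw [← hH] at h1
    exact h1.le
  have hH1 : 1 ≤ H := by
    rw [hH]
    refine Nat.le_floor ?_
    push_cast
    linarith
  have hkd : k ≤ d := by
    have h1 : (k : ℝ) ≤ d := by
      have h2 := mul_le_mul_of_nonneg_right hL2 hM0.le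
      have : 0 ≤ t * Cu * M := by positivity
      linarith
    exact_mod_cast h1
  obtain ⟨F, hF⟩ : ∃ F : Finset ℕ, F = (Finset.range (⌊x2 * N⌋₊ + 1)).filter (fun n : ℕ => x1 * N ≤ n) := ⟨_, rfl⟩
  have hFm : ∀ n ∈ F, 1 ≤ n ∧ x1 * N ≤ n ∧ (n : ℝ) ≤ x2 * N := by
    intro n hn
    rw [hF, Finset.mem_filter, Finset.mem_range] at hn
    have h1 : (1 : ℝ) ≤ n := hx1N.trans hn.2
    refine ⟨by exact_mod_cast h1, hn.2, ?_⟩
    exact (Nat.le_floor_iff (by positivity)).1 (Nat.lt_succ_iff.1 hn.1)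
  have hFc : (F.card : ℝ) ≤ x2 * N + 1 := by
    have h1 : F.card ≤ ⌊x2 * N⌋₊ + 1 := by
      rw [hF]
      exact (Finset.card_filter_le _ _).trans (by rw [Finset.card_range])
    have h2 : (F.card : ℝ) ≤ (⌊x2 * N⌋₊ : ℝ) + 1 := by exact_mod_cast h1
    have h3 := Nat.floor_le (a := x2 * N) (by positivity)
    linarith
  have hcnt := hcount k d H (e * cl * M) (t * Cu * M) (L * Cu * M) F hk1 hH1 hkd (by positivity) (by linarith) (by linarith) (by linarith)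
  -- one n
  have hone : ∀ n ∈ F, (((saw n).filter fun s => Iso ε e t n s).card : ℝ) / ((saw n).card : ℝ) ≤
      1 / (ca * (x1 * N) ^ (11 / 32 : ℝ)) *
        ((((saw n).filter fun s => Is (e * cl * M) (t * Cu * M) (L * Cu * M) s).card : ℝ) * fug ^ n) +
        ε / (2 * (x2 + 1)) := by
    intro n hn
    obtain ⟨hn1, hnx1, hnx2⟩ := hFm n hn
    have hS := NTSF.saw_card_pos n
    have hsz1 : cl * M ≤ size n := by
      have h1 := (hsz n hn1).1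
      have h2 : (x1 * N) ^ (3 / 4 : ℝ) ≤ (n : ℝ) ^ (3 / 4 : ℝ) := Real.rpow_le_rpow (by positivity) hnx1 (by norm_num)
      rw [Real.mul_rpow hx1.le hNpos.le, ← hM] at h2
      calc cl * M = cs * (x1 ^ (3 / 4 : ℝ) * M) := by rw [hcl]; ring
        _ ≤ cs * (n : ℝ) ^ (3 / 4 : ℝ) := by gcongr
        _ ≤ _ := h1
    have hsz2 : size n ≤ Cu * M := by
      have h1 := (hsz n hn1).2
      have h2 : (n : ℝ) ^ (3 / 4 : ℝ) ≤ (x2 * N) ^ (3 / 4 : ℝ) := Real.rpow_le_rpow (by positivity) hnx2 (by norm_num)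
      rw [Real.mul_rpow hx2.le hNpos.le, ← hM] at h2
      calc size n ≤ Cs * (n : ℝ) ^ (3 / 4 : ℝ) := h1
        _ ≤ Cs * (x2 ^ (3 / 4 : ℝ) * M) := by gcongr
        _ = _ := by rw [hCu]; ring
    have hsub : ((saw n).filter fun s => Iso ε e t n s) ⊆
        ((saw n).filter fun s => Is (e * cl * M) (t * Cu * M) (L * Cu * M) s) ∪
          ((saw n).filter fun s => ¬ ∀ i : ℕ, i ≤ n → |(pos s i).re| ≤ L0 * size n) := by
      intro s hs
      rw [Finset.mem_filter] at hs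
      rw [Finset.mem_union, Finset.mem_filter, Finset.mem_filter]
      by_cases hb : ∀ i : ℕ, i ≤ n → |(pos s i).re| ≤ L0 * size n
      · left
        obtain ⟨hs, q, hq, -, -, -, -, hiso⟩ := hs
        refine ⟨hs, ⟨q, hq, fun i hi => ?_⟩, fun i hi => ?_⟩
        · rcases hiso i hi with h | h
          · left
            refine lt_of_lt_of_le h ?_
            calc t * size n ≤ t * (Cu * M) := by gcongr
              _ = _ := by ring
          · right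
            refine lt_of_le_of_lt ?_ h
            calc e * cl * M = e * (cl * M) := by ring
              _ ≤ _ := by gcongr
        · refine (hb i hi).trans ?_
          calc L0 * size n ≤ L * (Cu * M) := mul_le_mul hLL0 hsz2 (NTSF.size_nonneg n) (by linarith)
            _ = _ := by ring
      · right
        exact ⟨hs.1, hb⟩
    have hcard : (((saw n).filter fun s => Iso ε e t n s).card : ℝ) ≤
        (((saw n).filter fun s => Is (e * cl * M) (t * Cu * M) (L * Cu * M) s).card : ℝ) + ε / (2 * (x2 + 1)) * ((saw n).card : ℝ) := by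
      have h1 := (card_le_card hsub).trans (card_union_le _ _)
      have h2 := htail n hn1
      have h3 : (((saw n).filter fun s => Iso ε e t n s).card : ℝ) ≤
        (((saw n).filter fun s => Is (e * cl * M) (t * Cu * M) (L * Cu * M) s).card : ℝ) +
          (((saw n).filter fun s => ¬ ∀ i : ℕ, i ≤ n → |(pos s i).re| ≤ L0 * size n).card : ℝ) := by exact_mod_cast h1
      linarith
    have haNn := (haN n hn1).1
    have hA : ca * (x1 * N) ^ (11 / 32 : ℝ) ≤ ((saw n).card : ℝ) * fug ^ n := by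
      refine le_trans ?_ haNn
      have h2 : (x1 * N) ^ (11 / 32 : ℝ) ≤ (n : ℝ) ^ (11 / 32 : ℝ) := Real.rpow_le_rpow (by positivity) hnx1 (by norm_num)
      gcongr
    have hA0 : 0 < ca * (x1 * N) ^ (11 / 32 : ℝ) := by positivity
    have hfn : 0 < fug ^ n := by
      rw [NTSF.fug_eq]
      exact pow_pos HexObs.xc_pos n
    obtain ⟨X, hX⟩ : ∃ X : ℝ, X = (((saw n).filter fun s => Is (e * cl * M) (t * Cu * M) (L * Cu * M) s).card : ℝ) := ⟨_, rfl⟩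
    have hX0 : 0 ≤ X := by rw [hX]; exact Nat.cast_nonneg _
    rw [← hX] at hcard ⊢
    rw [div_le_iff₀ hS, add_mul]
    refine hcard.trans (add_le_add ?_ le_rfl)
    have h5 : 1 / (ca * (x1 * N) ^ (11 / 32 : ℝ)) * (X * fug ^ n) * ((saw n).card : ℝ) =
        X * ((((saw n).card : ℝ) * fug ^ n) / (ca * (x1 * N) ^ (11 / 32 : ℝ))) := by ring
    rw [h5]
    have h6 : 1 ≤ (((saw n).card : ℝ) * fug ^ n) / (ca * (x1 * N) ^ (11 / 32 : ℝ)) := by
      rw [one_le_div hA0]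
      exact hA
    exact le_mul_of_one_le_right hX0 h6
  -- the sum
  unfold msum
  rw [← hF]
  have hsum := Finset.sum_le_sum hone
  refine hsum.trans ?_
  rw [Finset.sum_add_distrib, ← Finset.mul_sum, Finset.sum_const, nsmul_eq_mul]
  have hA0 : 0 < ca * (x1 * N) ^ (11 / 32 : ℝ) := by positivity
  have hpow : ((d : ℝ) ^ (61 / 48 : ℝ) / (k : ℝ) ^ (3 / 4 : ℝ)) ^ 2 * (H : ℝ) ^ (3 / 4 : ℝ) ≤
      (((2 * L * Cu) ^ (61 / 48 : ℝ) / (e * cl / 6) ^ (3 / 4 : ℝ)) ^ 2 * (2 * Cu) ^ (3 / 4 : ℝ)) * t ^ (3 / 4 : ℝ) *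
        M ^ (43 / 24 : ℝ) := by
    have a1 : (d : ℝ) ^ (61 / 48 : ℝ) ≤ (2 * L * Cu) ^ (61 / 48 : ℝ) * M ^ (61 / 48 : ℝ) := by
      rw [← Real.mul_rpow (by positivity) hM0.le]
      refine Real.rpow_le_rpow (Nat.cast_nonneg _) ?_ (by norm_num)
      linarith
    have a2 : (e * cl / 6) ^ (3 / 4 : ℝ) * M ^ (3 / 4 : ℝ) ≤ (k : ℝ) ^ (3 / 4 : ℝ) := by
      rw [← Real.mul_rpow (by positivity) hM0.le]
      refine Real.rpow_le_rpow (by positivity) ?_ (by norm_num)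
      linarith
    have a3 : (H : ℝ) ^ (3 / 4 : ℝ) ≤ (2 * Cu) ^ (3 / 4 : ℝ) * t ^ (3 / 4 : ℝ) * M ^ (3 / 4 : ℝ) := by
      rw [← Real.mul_rpow (by positivity) ht0.le, ← Real.mul_rpow (by positivity) hM0.le]
      refine Real.rpow_le_rpow (Nat.cast_nonneg _) ?_ (by norm_num)
      linarith
    have e1 : M ^ (43 / 24 : ℝ) = (M ^ (61 / 48 : ℝ) / M ^ (3 / 4 : ℝ)) ^ 2 * M ^ (3 / 4 : ℝ) := by
      rw [← Real.rpow_sub hM0, ← Real.rpow_natCast, ← Real.rpow_mul hM0.le, ← Real.rpow_add hM0]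
      congr 1
      norm_num
    have b2 : 0 < (e * cl / 6) ^ (3 / 4 : ℝ) * M ^ (3 / 4 : ℝ) := by positivity
    calc ((d : ℝ) ^ (61 / 48 : ℝ) / (k : ℝ) ^ (3 / 4 : ℝ)) ^ 2 * (H : ℝ) ^ (3 / 4 : ℝ) ≤
        ((2 * L * Cu) ^ (61 / 48 : ℝ) * M ^ (61 / 48 : ℝ) / ((e * cl / 6) ^ (3 / 4 : ℝ) * M ^ (3 / 4 : ℝ))) ^ 2 *
          ((2 * Cu) ^ (3 / 4 : ℝ) * t ^ (3 / 4 : ℝ) * M ^ (3 / 4 : ℝ)) := by
          gcongr
      _ = _ := by
        rw [e1]
        field_simp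
  have hMN : M ^ (43 / 24 : ℝ) = (N : ℝ) ^ (11 / 32 : ℝ) * N := by
    rw [hM, ← Real.rpow_mul hNpos.le]
    nth_rewrite 3 [← Real.rpow_one (N : ℝ)]
    rw [← Real.rpow_add hNpos]
    congr 1
    norm_num
  have h1 : 1 / (ca * (x1 * N) ^ (11 / 32 : ℝ)) * ∑ n ∈ F,
      ((((saw n).filter fun s => Is (e * cl * M) (t * Cu * M) (L * Cu * M) s).card : ℝ) * fug ^ n) ≤ ε / 2 * N := by
    have h2 : ∑ n ∈ F, ((((saw n).filter fun s => Is (e * cl * M) (t * Cu * M) (L * Cu * M) s).card : ℝ) * fug ^ n) ≤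
        C1 * t ^ (3 / 4 : ℝ) * ((N : ℝ) ^ (11 / 32 : ℝ) * N) := by
      refine hcnt.trans ?_
      refine (mul_le_mul_of_nonneg_left hpow hC0.le).trans (le_of_eq ?_)
      rw [hC1, hMN]
      ring
    rw [one_div, inv_mul_le_iff₀ hA0]
    refine h2.trans ?_
    rw [Real.mul_rpow hx1.le hNpos.le]
    have h3 : C1 * t ^ (3 / 4 : ℝ) ≤ ε / 2 * (ca * x1 ^ (11 / 32 : ℝ)) := by
      calc C1 * t ^ (3 / 4 : ℝ) ≤ C1 * (ε * (ca * x1 ^ (11 / 32 : ℝ)) / (2 * C1)) := by gcongr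
        _ = _ := by field_simp
    have h4 : 0 ≤ (N : ℝ) ^ (11 / 32 : ℝ) * N := by positivity
    calc C1 * t ^ (3 / 4 : ℝ) * ((N : ℝ) ^ (11 / 32 : ℝ) * N) ≤
        ε / 2 * (ca * x1 ^ (11 / 32 : ℝ)) * ((N : ℝ) ^ (11 / 32 : ℝ) * N) := mul_le_mul_of_nonneg_right h3 h4
      _ = _ := by ring
  have h2 : (F.card : ℝ) * (ε / (2 * (x2 + 1))) ≤ ε / 2 * N := by
    have h3 : x2 * N + 1 ≤ (x2 + 1) * N := by nlinarith
    calc (F.card : ℝ) * (ε / (2 * (x2 + 1))) ≤ ((x2 + 1) * N) * (ε / (2 * (x2 + 1))) := by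
          refine mul_le_mul_of_nonneg_right (hFc.trans h3) (by positivity)
      _ = _ := by field_simp
  linarith

end Pool.Agent.CRT.V
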