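import Pool.Agent.CRT.VSlA
import Pool.Agent.DIM.FinAllX

/-!
# CRT, row 11A, VSl (helper84): no hypothesis
-/

set_option autoImplicit false

open Set Filter Topology MeasureTheory
open scoped ENNReal

namespace Pool.Agent.CRT.V

open Pool.Agent.NTS.Res
open Pool.Agent.NPR
open Pool.Agent.CRT

/-- no piece of a weak limit is vertical -/
theorem vert_ae {φ : ℕ → ℕ} {ν : Measure CI} (hφ : Tendsto φ atTop atTop) (hν : IsProbabilityMeasure ν) (h : LawTo φ ν) :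
    ∀ᵐ γ : CI ∂ν, ∀ u v : unitInterval, u < v → ∃ l : unitInterval, u ≤ l ∧ l ≤ v ∧ (γ l).re ≠ (γ u).re :=
  SL.vert_of ((HexObs.DIM.dim_final.2.2 φ ν hφ hν h).mono fun _ h => h.2)

/-- thin slabs, weak limits -/
theorem slab_nu {φ : ℕ → ℕ} {ν : Measure CI} (hφ : Tendsto φ atTop atTop) (hν : IsProbabilityMeasure ν) (h : LawTo φ ν)
    {δ η : ℝ} (hδ : 0 < δ) (hη : 0 < η) : ∃ τ : ℝ, 0 < τ ∧ (ν (Sl δ τ)).toReal < η :=
  haveI := hν
  SL.slab_nu_of ((HexObs.DIM.dim_final.2.2 φ ν hφ hν h).mono fun _ h => h.2) hδ hη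

/-- **VSl** -/
theorem vSl : VSl :=
  SL.vSl_of HexObs.DIM.dim_final.2.1 fun φ ν hφ hν h => (HexObs.DIM.dim_final.2.2 φ ν hφ hν h).mono fun _ h => h.2

end Pool.Agent.CRT.V
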