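import Pool.Agent.CRT.RWinM
import Pool.Agent.CRT.VPfN
import Pool.Agent.CRT.VSl

/-!
# Scale flow (R), row R2 (helper16): slabs, tails, and the sum over the three parts of a walk with an isolated window cut

* `Slb`, **`slab`** : for every step number the walk has no displacement in a thin slab (`VSl` and the Hoelder modulus);
* `IW`, **`iw_sum`** : the mass of the walks with an isolated window cut.
-/

set_option autoImplicit false

namespace Pool.Agent.CRT.R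

open Pool.Agent.NTS.Res

open Finset

open scoped ENNReal Classical

open Pool.Agent.CRT.V V1

open HexObs (wE gf xc)

open NTF (sw)

/-- a displacement `b` in a slab of width `T` -/
def Slb (b T : ℝ) {n : ℕ} (s : Fin n → Fin 3) : Prop := ∃ i j : ℕ, i ≤ j ∧ j ≤ n ∧
  (∀ l : ℕ, i ≤ l → l ≤ j → |(pos s l).re - (pos s i).re| ≤ T) ∧ b ≤ ‖pos s j - pos s i‖

lemma Slb.mono {b b' T T' : ℝ} {n : ℕ} {s : Fin n → Fin 3} (h : Slb b T s) (hb : b' ≤ b) (hT : T ≤ T') : Slb b' T' s := by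
  obtain ⟨i, j, h1, h2, h3, h4⟩ := h
  exact ⟨i, j, h1, h2, fun l a1 a2 => (h3 l a1 a2).trans hT, hb.trans h4⟩

/-! ### 1. the Hoelder modulus, in numbers -/

/-- from the law to the numbers -/
lemma card_of_law {n : ℕ} {A : Set C(unitInterval, ℂ)} {ε : ℝ} (hε : 0 ≤ ε) (h : law n A ≤ ENNReal.ofReal ε) :
    (((saw n).filter fun s => curve s ∈ A).card : ℝ) ≤ ε * ((saw n).card : ℝ) := by
  have hS := NTSF.saw_card_pos n
  rw [NTSF.law_apply] at h
  have h4 : ((saw n).card : ℝ≥0∞) ≠ 0 := by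
    have : ((saw n).card : ℕ) ≠ 0 := by
      have : (0 : ℝ) < ((saw n).card : ℝ) := hS
      exact_mod_cast this.ne'
    exact_mod_cast this
  have h5 : (((saw n).filter fun s => curve s ∈ A).card : ℝ≥0∞) ≤ ENNReal.ofReal ε * ((saw n).card : ℝ≥0∞) := by
    have h6 := mul_le_mul_right h ((saw n).card : ℝ≥0∞)
    rw [← mul_assoc, ENNReal.mul_inv_cancel h4 (ENNReal.natCast_ne_top _), one_mul, mul_comm _ (ENNReal.ofReal ε)] at h6
    convert h6
  rw [← ENNReal.ofReal_natCast, ← ENNReal.ofReal_natCast, ← ENNReal.ofReal_mul hε,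
    ENNReal.ofReal_le_ofReal_iff (by positivity)] at h5
  exact h5

lemma curve_at {n : ℕ} (hn : 1 ≤ n) (s : Fin n → Fin 3) {i : ℕ} (hi : i ≤ n) :
    ∃ u : unitInterval, (u : ℝ) = (i : ℝ) / n ∧ curve s u = pos s i / (size n : ℂ) := by
  have hn0 : (0 : ℝ) < n := by exact_mod_cast hn
  have hu : (i : ℝ) / n ∈ unitInterval := ⟨by positivity, by
    rw [div_le_one hn0]
    exact_mod_cast hi⟩
  exact ⟨⟨(i : ℝ) / n, hu⟩, rfl, NTSF.Mod.curve_node hn s (a := i) (u := ⟨(i : ℝ) / n, hu⟩) rfl⟩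

/-- **the modulus**: a displacement of the order of the size needs a positive proportion of the steps, every `n` -/
theorem mod_card {ε b : ℝ} (hε : 0 < ε) (hb : 0 < b) : ∃ δ : ℝ, 0 < δ ∧ ∀ n : ℕ, 1 ≤ n →
    (((saw n).filter fun s => ∃ i j : ℕ, i ≤ j ∧ j ≤ n ∧ (j : ℝ) - i < δ * n ∧ b * size n ≤ ‖pos s j - pos s i‖).card : ℝ) ≤
      ε * ((saw n).card : ℝ) := by
  obtain ⟨c, C, hc, hsz, hprob, hhol, -⟩ := NTSF.finE
  obtain ⟨M, hM⟩ := hhol (1 / 2) (by norm_num) (by push_cast; norm_num) ε hε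
  obtain ⟨m, hm⟩ : ∃ m : ℝ, m = (M : ℝ) + 1 := ⟨_, rfl⟩
  have hm0 : 0 < m := by
    have := M.2
    rw [hm]
    positivity
  refine ⟨(b / m) ^ 2, by positivity, fun n hn => ?_⟩
  have hs := NTSF.size_pos hn
  have hn0 : (0 : ℝ) < n := by exact_mod_cast hn
  refine le_trans ?_ (card_of_law hε.le (hM n hn))
  have hsub : ((saw n).filter fun s => ∃ i j : ℕ, i ≤ j ∧ j ≤ n ∧ (j : ℝ) - i < (b / m) ^ 2 * n ∧ b * size n ≤ ‖pos s j - pos s i‖) ⊆
      (saw n).filter fun s => curve s ∈ {γ : C(unitInterval, ℂ) | ¬ HolderWith M (1 / 2) γ} := by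
    intro s hs'
    rw [Finset.mem_filter] at hs' ⊢
    obtain ⟨hs1, i, j, hij, hj, hd, hbig⟩ := hs'
    refine ⟨hs1, fun hH => ?_⟩
    obtain ⟨u, hu, hcu⟩ := curve_at hn s (hij.trans hj)
    obtain ⟨v, hv, hcv⟩ := curve_at hn s hj
    have h1 := hH.dist_le v u
    rw [hcu, hcv, dist_eq_norm, ← sub_div, norm_div, Complex.norm_of_nonneg hs.le] at h1
    have h2 : dist v u = ((j : ℝ) - i) / n := by
      rw [Subtype.dist_eq, hu, hv, Real.dist_eq, ← sub_div, abs_of_nonneg]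
      have : (i : ℝ) ≤ j := by exact_mod_cast hij
      exact div_nonneg (by linarith) hn0.le
    rw [h2] at h1
    have h3 : b ≤ ‖pos s j - pos s i‖ / size n := by
      rw [le_div_iff₀ hs]
      exact hbig
    have hij' : (0 : ℝ) ≤ ((j : ℝ) - i) / n := by
      have : (i : ℝ) ≤ j := by exact_mod_cast hij
      exact div_nonneg (by linarith) hn0.le
    have h4 : ((j : ℝ) - i) / n < (b / m) ^ 2 := by
      rw [div_lt_iff₀ hn0]
      exact hd
    have h5 : (((j : ℝ) - i) / n) ^ (((1 / 2 : NNReal)) : ℝ) ≤ b / m := by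
      have e : (((1 / 2 : NNReal)) : ℝ) = 1 / 2 := by push_cast; norm_num
      rw [e, ← Real.sqrt_eq_rpow]
      rw [Real.sqrt_le_left (by positivity)]
      exact h4.le
    have h6 : b ≤ M * (b / m) := h3.trans (h1.trans (mul_le_mul_of_nonneg_left h5 M.2))
    have h7 : (M : ℝ) * (b / m) < b := by
      have h8 : (M : ℝ) < m := by rw [hm]; linarith
      calc (M : ℝ) * (b / m) < m * (b / m) := mul_lt_mul_of_pos_right h8 (by positivity)
        _ = b := by field_simp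
    linarith
  exact_mod_cast card_le_card hsub

/-- **SLAB**: no displacement in a thin slab, every step number -/
theorem slab {ε b : ℝ} (hε : 0 < ε) (hb : 0 < b) : ∃ τ : ℝ, 0 < τ ∧ ∃ n0 : ℕ, ∀ n : ℕ, n0 ≤ n →
    (((saw n).filter fun s => Slb (b * size n) (τ * size n) s).card : ℝ) ≤ ε * ((saw n).card : ℝ) := by
  obtain ⟨δ, hδ, hmod⟩ := mod_card (ε := ε / 2) (b := b) (by positivity) hb
  obtain ⟨η, hη⟩ : ∃ η : ℝ, η = min δ (ε / 2) := ⟨_, rfl⟩
  have hη0 : 0 < η := by rw [hη]; positivity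
  obtain ⟨τ, hτ, n0, h⟩ := vSl η hη0
  refine ⟨τ, hτ, max n0 1, fun n hn => ?_⟩
  have hn0 : n0 ≤ n := (le_max_left _ _).trans hn
  have hn1 : 1 ≤ n := (le_max_right _ _).trans hn
  have hsub : ((saw n).filter fun s => Slb (b * size n) (τ * size n) s) ⊆
      ((saw n).filter fun s => ∃ i j : ℕ, i ≤ j ∧ j ≤ n ∧ (j : ℝ) - i < δ * n ∧ b * size n ≤ ‖pos s j - pos s i‖) ∪
      ((saw n).filter fun s => ∃ i j : ℕ, i ≤ j ∧ j ≤ n ∧ η * n ≤ (j : ℝ) - i ∧
        ∀ l : ℕ, i ≤ l → l ≤ j → |(pos s l).re - (pos s i).re| ≤ τ * size n) := by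
    intro s hs
    rw [Finset.mem_filter] at hs
    rw [Finset.mem_union, Finset.mem_filter, Finset.mem_filter]
    obtain ⟨hs1, i, j, hij, hj, h3, h4⟩ := hs
    rcases lt_or_ge ((j : ℝ) - i) (δ * n) with h5 | h5
    · exact Or.inl ⟨hs1, i, j, hij, hj, h5, h4⟩
    · refine Or.inr ⟨hs1, i, j, hij, hj, le_trans ?_ h5, h3⟩
      exact mul_le_mul_of_nonneg_right (hη ▸ min_le_left _ _) (Nat.cast_nonneg n)
  have h1 := (card_le_card hsub).trans (card_union_le _ _)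
  have h2 : (((saw n).filter fun s => Slb (b * size n) (τ * size n) s).card : ℝ) ≤
      (((saw n).filter fun s => ∃ i j : ℕ, i ≤ j ∧ j ≤ n ∧ (j : ℝ) - i < δ * n ∧ b * size n ≤ ‖pos s j - pos s i‖).card : ℝ) +
      (((saw n).filter fun s => ∃ i j : ℕ, i ≤ j ∧ j ≤ n ∧ η * n ≤ (j : ℝ) - i ∧
        ∀ l : ℕ, i ≤ l → l ≤ j → |(pos s l).re - (pos s i).re| ≤ τ * size n).card : ℝ) := by
    exact_mod_cast h1
  have h3 := hmod n hn1
  have h4 := h n hn0
  have h5 : η * ((saw n).card : ℝ) ≤ ε / 2 * ((saw n).card : ℝ) :=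
    mul_le_mul_of_nonneg_right (hη ▸ min_le_right _ _) (Nat.cast_nonneg _)
  linarith

/-- the walks stay in a disc of the order of the size, every step number -/
theorem tailN {ε : ℝ} (hε : 0 < ε) : ∃ L : ℝ, 1 ≤ L ∧ ∀ n : ℕ, 1 ≤ n →
    (((saw n).filter fun s => ¬ ∀ i : ℕ, i ≤ n → ‖pos s i‖ ≤ L * size n).card : ℝ) ≤ ε * ((saw n).card : ℝ) := by
  obtain ⟨-, -, -, -, -, -, htight, -⟩ := NTSF.finE
  rw [MeasureTheory.isTightMeasureSet_iff_exists_isCompact_measure_compl_le] at htight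
  obtain ⟨K, hK, hK'⟩ := htight (ENNReal.ofReal ε) (by simpa using hε)
  obtain ⟨M, hM⟩ := hK.isBounded.exists_norm_le
  refine ⟨max 1 M, le_max_left _ _, fun n hn => ?_⟩
  have hs := NTSF.size_pos hn
  refine le_trans ?_ (card_of_law hε.le (hK' (law n) ⟨n, hn, rfl⟩))
  have h1 : ((saw n).filter fun s => ¬ ∀ i : ℕ, i ≤ n → ‖pos s i‖ ≤ max 1 M * size n) ⊆
      (saw n).filter fun s => curve s ∈ Kᶜ := by
    intro s hs'
    rw [Finset.mem_filter] at hs' ⊢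
    refine ⟨hs'.1, fun hKs => hs'.2 fun i hi => ?_⟩
    obtain ⟨u, -, hu⟩ := curve_at hn s hi
    have h2 := (curve s).norm_coe_le_norm u
    rw [hu, norm_div, Complex.norm_of_nonneg hs.le, div_le_iff₀ hs] at h2
    exact h2.trans (mul_le_mul_of_nonneg_right ((hM _ hKs).trans (le_max_right _ _)) hs.le)
  refine Nat.cast_le.2 ?_
  convert card_le_card h1

/-! ### 2. the three parts -/

/-- a walk with an isolated window cut, without a displacement in a slab, in a disc -/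
def IW (ρ E T b R0 : ℝ) {n : ℕ} (s : Fin n → Fin 3) : Prop :=
  (∃ k : ℕ, WC ρ s k ∧ ∀ i : ℕ, WC (ρ / 2) s i → ‖pos s i - pos s k‖ ≤ ρ / 4 →
    |(pos s i).re - (pos s k).re| < T ∨ E < |(pos s i).re - (pos s k).re|) ∧ ¬ Slb b T s ∧ ∀ i : ℕ, i ≤ n → ‖pos s i‖ ≤ R0

/-- of any length -/
def XW (ρ E T b R0 : ℝ) : Type := Σ n : ℕ, {s : Fin n → Fin 3 // s ∈ saw n ∧ IW ρ E T b R0 s}

theorem iw_le {H : ℕ} {ρ E T b R0 : ℝ} (hb : 2 ≤ b) (hρ : 16 * b ≤ ρ) (hT : 0 < T) (hH : 4 * T ≤ 3 * ((H : ℝ) + 1)) :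
    ∑' x : XW ρ E T b R0, ENNReal.ofReal (xc ^ x.1) ≤ ENNReal.ofReal xc⁻¹ *
      ((∑' x : NB (ρ / 2) (ρ / 8) (E - T) (2 * R0 + 1), ENNReal.ofReal (xc ^ x.1)) *
        (gf (BH H) * ∑' x : NB (ρ / 2) (ρ / 8) (E - T) (2 * R0 + 1), ENNReal.ofReal (xc ^ x.1))) := by
  have key : ∀ x : XW ρ E T b R0, ∃ (k0 k1 : ℕ) (t2 : List Bool), k0 ≤ k1 ∧ k1 < x.1 ∧
      (NCW (k0 + 1) (ρ / 2) (ρ / 8) (E - T) (rv x.2.1 k0) ∧ ∀ j, j ≤ k0 + 1 → ‖pos (rv x.2.1 k0) j‖ ≤ 2 * R0 + 1) ∧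
      t2 ∈ BH H ∧ t2.length = k1 - k0 ∧ sw (k1 - k0) t2 = sl x.2.1 k0 (k1 - k0) ∧
      (NCW (x.1 - k1) (ρ / 2) (ρ / 8) (E - T) (sl x.2.1 k1 (x.1 - k1)) ∧
        ∀ j, j ≤ x.1 - k1 → ‖pos (sl x.2.1 k1 (x.1 - k1)) j‖ ≤ 2 * R0 + 1) := by
    rintro ⟨n, s, hs, ⟨k, hk, hiso⟩, hsl, hR⟩
    obtain ⟨k0, k1, e0, e1, h1, h2, hA, hB, hC⟩ := split hs hb hρ hT (fun i j hij hj hl => by
      by_contra hcon
      push Not at hcon
      exact hsl ⟨i, j, hij, hj, hl, hcon⟩) hk hiso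
    obtain ⟨t2, c, b1, b2, b3, b4⟩ := HB_word (H := H) hB (by linarith)
    have hR0 : 0 ≤ R0 := (norm_nonneg _).trans (hR 0 (Nat.zero_le _))
    have h2' : k1 < n := h2
    refine ⟨k0, k1, t2, h1, h2, ⟨hA, fun j hj => ?_⟩, ⟨c, b1, b2⟩, b3, b4, ⟨hC, fun j hj => ?_⟩⟩
    · rcases Nat.eq_zero_or_pos j with g1 | g1
      · rw [g1, NTSF.pos_zero, norm_zero]
        linarith
      · obtain ⟨j', rfl⟩ : ∃ j', j = j' + 1 := ⟨j - 1, by omega⟩
        show ‖pos (rv s k0) (j' + 1)‖ ≤ _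
        rw [pos_rv s e0 (by omega) (by omega)]
        have g2 := hR k0 (by omega)
        have g3 := hR (k0 - j') (by omega)
        calc ‖1 + pos s k0 - pos s (k0 - j')‖ ≤ ‖1 + pos s k0‖ + ‖pos s (k0 - j')‖ := norm_sub_le _ _
          _ ≤ (‖(1 : ℂ)‖ + ‖pos s k0‖) + ‖pos s (k0 - j')‖ := by gcongr; exact norm_add_le _ _
          _ ≤ _ := by
            rw [norm_one]
            linarith
    · have hj' : j ≤ n - k1 := hj
      have g1 := pos_sl s e1 (show k1 + (n - k1) ≤ n by omega) hj'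
      have g2 := hR k1 (by omega)
      have g3 := hR (k1 + j) (by omega)
      have g4 : pos (sl s k1 (n - k1)) j = pos s (k1 + j) - pos s k1 := by
        rw [g1]
        ring
      show ‖pos (sl s k1 (n - k1)) j‖ ≤ _
      rw [g4]
      refine (norm_sub_le _ _).trans ?_
      linarith
  choose k0 k1 t2 h1 h2 hA b1 b2 b3 hC using key
  obtain ⟨NT, hNT⟩ : ∃ NT, NT = NB (ρ / 2) (ρ / 8) (E - T) (2 * R0 + 1) := ⟨_, rfl⟩
  let ψ : XW ρ E T b R0 → NB (ρ / 2) (ρ / 8) (E - T) (2 * R0 + 1) × BH H × NB (ρ / 2) (ρ / 8) (E - T) (2 * R0 + 1) := fun x =>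
    (⟨k0 x + 1, rv x.2.1 (k0 x), hA x⟩, ⟨t2 x, b1 x⟩, ⟨x.1 - k1 x, sl x.2.1 (k1 x) (x.1 - k1 x), hC x⟩)
  have hψ : Function.Injective ψ := by
    intro x y hxy
    have e1 : k0 x + 1 = k0 y + 1 := congrArg (fun p => (p.1.1 : ℕ)) hxy
    have e2 : t2 x = t2 y := congrArg (fun p => (p.2.1 : List Bool)) hxy
    have e3 : x.1 - k1 x = y.1 - k1 y := congrArg (fun p => (p.2.2.1 : ℕ)) hxy
    have e4 : ext (rv x.2.1 (k0 x)) = ext (rv y.2.1 (k0 y)) := congrArg (fun p => ext p.1.2.1) hxy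
    have e5 : ext (sl x.2.1 (k1 x) (x.1 - k1 x)) = ext (sl y.2.1 (k1 y) (y.1 - k1 y)) := congrArg (fun p => ext p.2.2.2.1) hxy
    have l2 := b2 x
    rw [e2, b2 y] at l2
    have g1 := h1 x
    have g2 := h2 x
    have g3 := h1 y
    have g4 := h2 y
    have f0 : k0 x = k0 y := by omega
    have f1 : k1 x = k1 y := by omega
    have fn : x.1 = y.1 := by omega
    have B2 := b3 x
    have C2 := b3 y
    rw [e2, f0, f1] at B2
    rw [f0] at e4
    rw [f1] at e5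
    obtain ⟨n, s, hs⟩ := x
    obtain ⟨n', s', hs'⟩ := y
    simp only at fn
    subst fn
    have ext_inj : ∀ {m : ℕ} {v v' : Fin m → Fin 3}, ext v = ext v' → v = v' := by
      intro m v v' h
      funext i
      have := congrFun h i
      unfold ext at this
      rwa [dif_pos i.2, dif_pos i.2] at this
    have es : s = s' := glue_inj g3 g4 (ext_inj e4) (B2.symm.trans C2) (ext_inj e5)
    subst es
    rfl
  have hx := HexObs.xc_pos
  calc ∑' x : XW ρ E T b R0, ENNReal.ofReal (xc ^ x.1)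
      = ∑' x : XW ρ E T b R0, ENNReal.ofReal xc⁻¹ *
          (ENNReal.ofReal (xc ^ (ψ x).1.1) * (wE (ψ x).2.1 * ENNReal.ofReal (xc ^ (ψ x).2.2.1))) := by
        refine tsum_congr fun x => ?_
        show _ = ENNReal.ofReal xc⁻¹ * (ENNReal.ofReal (xc ^ (k0 x + 1)) * (ENNReal.ofReal (xc ^ (t2 x).length) *
          ENNReal.ofReal (xc ^ (x.1 - k1 x))))
        rw [← ENNReal.ofReal_mul (by positivity), ← ENNReal.ofReal_mul (by positivity), ← ENNReal.ofReal_mul (by positivity),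
          b2 x]
        congr 1
        have g1 := h1 x
        have g2 := h2 x
        rw [← pow_add, ← pow_add, show k0 x + 1 + (k1 x - k0 x + (x.1 - k1 x)) = x.1 + 1 by omega, pow_succ]
        field_simp
    _ ≤ ∑' p : NB (ρ / 2) (ρ / 8) (E - T) (2 * R0 + 1) × BH H × NB (ρ / 2) (ρ / 8) (E - T) (2 * R0 + 1),
          ENNReal.ofReal xc⁻¹ * (ENNReal.ofReal (xc ^ p.1.1) * (wE p.2.1 * ENNReal.ofReal (xc ^ p.2.2.1))) :=
        ENNReal.tsum_comp_le_tsum_of_injective hψ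
          (fun p : NB (ρ / 2) (ρ / 8) (E - T) (2 * R0 + 1) × BH H × NB (ρ / 2) (ρ / 8) (E - T) (2 * R0 + 1) =>
            ENNReal.ofReal xc⁻¹ * (ENNReal.ofReal (xc ^ p.1.1) * (wE p.2.1 * ENNReal.ofReal (xc ^ p.2.2.1))))
    _ = _ := by
        rw [ENNReal.tsum_mul_left]
        congr 1
        rw [ENNReal.tsum_prod (f := fun (a : NB (ρ / 2) (ρ / 8) (E - T) (2 * R0 + 1))
          (c : BH H × NB (ρ / 2) (ρ / 8) (E - T) (2 * R0 + 1)) =>
            ENNReal.ofReal (xc ^ a.1) * (wE c.1 * ENNReal.ofReal (xc ^ c.2.1))), ← ENNReal.tsum_mul_right]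
        refine tsum_congr fun a => ?_
        rw [ENNReal.tsum_mul_left]
        congr 1
        rw [ENNReal.tsum_prod (f := fun (a : BH H) (c : NB (ρ / 2) (ρ / 8) (E - T) (2 * R0 + 1)) =>
          wE a * ENNReal.ofReal (xc ^ c.1))]
        unfold gf
        rw [← ENNReal.tsum_mul_right]
        refine tsum_congr fun c => ?_
        rw [ENNReal.tsum_mul_left]

/-- the same, with numbers of walks -/
theorem iw_sum {H : ℕ} {ρ E T b R0 : ℝ} (hb : 2 ≤ b) (hρ : 16 * b ≤ ρ) (hT : 0 < T) (hH : 4 * T ≤ 3 * ((H : ℝ) + 1))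
    (F : Finset ℕ) :
    ∑ n ∈ F, (((saw n).filter fun s => IW ρ E T b R0 s).card : ℝ≥0∞) * ENNReal.ofReal (xc ^ n) ≤
      ENNReal.ofReal xc⁻¹ * ((∑' x : NB (ρ / 2) (ρ / 8) (E - T) (2 * R0 + 1), ENNReal.ofReal (xc ^ x.1)) *
        (gf (BH H) * ∑' x : NB (ρ / 2) (ρ / 8) (E - T) (2 * R0 + 1), ENNReal.ofReal (xc ^ x.1))) := by
  refine le_trans ?_ (iw_le hb hρ hT hH)
  unfold XW
  rw [ENNReal.tsum_sigma' (f := fun x : (Σ n : ℕ, {s : Fin n → Fin 3 // s ∈ saw n ∧ IW ρ E T b R0 s}) => ENNReal.ofReal (xc ^ x.1))]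
  refine le_trans (Finset.sum_le_sum fun n _ => ?_) (ENNReal.sum_le_tsum F)
  show _ ≤ ∑' _ : {s : Fin n → Fin 3 // s ∈ saw n ∧ IW ρ E T b R0 s}, ENNReal.ofReal (xc ^ n)
  rw [ENNReal.tsum_const]
  refine mul_le_mul' (le_of_eq ?_) le_rfl
  have e : ENat.card {s : Fin n → Fin 3 // s ∈ saw n ∧ IW ρ E T b R0 s} =
      (((saw n).filter fun s => IW ρ E T b R0 s).card : ℕ) := by
    rw [ENat.card_eq_coe_fintype_card, Fintype.card_subtype]
    congr 1
    have : (Finset.univ.filter fun s : Fin n → Fin 3 => s ∈ saw n ∧ IW ρ E T b R0 s) = (saw n).filter fun s => IW ρ E T b R0 s := by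
      ext s
      simp
    rw [this]
  rw [e]
  simp

end Pool.Agent.CRT.R
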