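import Pool.Agent.CRT.RSplitG
import Pool.Agent.CRT.RPerf

/-!
# Scale flow (R), row R2 (helper16), general radii: **`vPerfG`**, **`vPerfV`**, in the mean no window cut is isolated; the neighbours
are window cuts of almost the same radius (hole found by helper28)
-/

set_option autoImplicit false

namespace Pool.Agent.CRT.R.G

open Pool.Agent.NTS.Res

open Finset

open scoped ENNReal Classical

open Pool.Agent.CRT.V V1

open Pool.Agent.CRT.R

open HexObs (wE gf xc)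

open NTF (sw)

/-! ### 2. the three parts -/

/-- a walk with an isolated window cut, without a displacement in a slab, in a disc -/
def IW (ρ ρ1 cc E T b R0 : ℝ) {n : ℕ} (s : Fin n → Fin 3) : Prop :=
  (∃ k : ℕ, WC ρ s k ∧ ∀ i : ℕ, WC (ρ1) s i → ‖pos s i - pos s k‖ ≤ cc →
    |(pos s i).re - (pos s k).re| < T ∨ E < |(pos s i).re - (pos s k).re|) ∧ ¬ Slb b T s ∧ ∀ i : ℕ, i ≤ n → ‖pos s i‖ ≤ R0

/-- of any length -/
def XW (ρ ρ1 cc E T b R0 : ℝ) : Type := Σ n : ℕ, {s : Fin n → Fin 3 // s ∈ saw n ∧ IW ρ ρ1 cc E T b R0 s}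

theorem iw_le {H : ℕ} {ρ ρ1 cc qq E T b R0 : ℝ} (hb : 2 ≤ b) (hqq : 0 ≤ qq)
    (hg1 : b + cc + 2 ≤ ρ1) (hg2 : ρ1 + qq + b ≤ ρ) (hg3 : qq + b ≤ cc) (hT : 0 < T) (hH : 4 * T ≤ 3 * ((H : ℝ) + 1)) :
    ∑' x : XW ρ ρ1 cc E T b R0, ENNReal.ofReal (xc ^ x.1) ≤ ENNReal.ofReal xc⁻¹ *
      ((∑' x : NB (ρ1) (qq) (E - T) (2 * R0 + 1), ENNReal.ofReal (xc ^ x.1)) *
        (gf (BH H) * ∑' x : NB (ρ1) (qq) (E - T) (2 * R0 + 1), ENNReal.ofReal (xc ^ x.1))) := by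
  have key : ∀ x : XW ρ ρ1 cc E T b R0, ∃ (k0 k1 : ℕ) (t2 : List Bool), k0 ≤ k1 ∧ k1 < x.1 ∧
      (NCW (k0 + 1) (ρ1) (qq) (E - T) (rv x.2.1 k0) ∧ ∀ j, j ≤ k0 + 1 → ‖pos (rv x.2.1 k0) j‖ ≤ 2 * R0 + 1) ∧
      t2 ∈ BH H ∧ t2.length = k1 - k0 ∧ sw (k1 - k0) t2 = sl x.2.1 k0 (k1 - k0) ∧
      (NCW (x.1 - k1) (ρ1) (qq) (E - T) (sl x.2.1 k1 (x.1 - k1)) ∧
        ∀ j, j ≤ x.1 - k1 → ‖pos (sl x.2.1 k1 (x.1 - k1)) j‖ ≤ 2 * R0 + 1) := by
    rintro ⟨n, s, hs, ⟨k, hk, hiso⟩, hsl, hR⟩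
    obtain ⟨k0, k1, e0, e1, h1, h2, hA, hB, hC⟩ := G.split hs hb hqq hg1 hg2 hg3 hT (fun i j hij hj hl => by
      by_contra hcon
      push Not at hcon
      exact hsl ⟨i, j, hij, hj, hl, hcon⟩) hk hiso
    obtain ⟨t2, c, b1, b2, b3, b4⟩ := HB_word (H := H) hB (by linarith)
    have hR0 : 0 ≤ R0 := (norm_nonneg _).trans (hR 0 (Nat.zero_le _))
    have h2' : k1 < n := h2
    refine ⟨k0, k1, t2, h1, h2, ⟨hA, fun j hj => ?_⟩, ⟨c, b1, b2⟩, b3, b4, ⟨hC, fun j hj => ?_⟩⟩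
    · rcases Nat.eq_zero_or_pos j with g1 | g1
      · rw [g1, NTSF.pos_zero, norm_zero]
        linarith
      · obtain ⟨j', rfl⟩ : ∃ j', j = j' + 1 := ⟨j - 1, by omega⟩
        show ‖pos (rv s k0) (j' + 1)‖ ≤ _
        rw [pos_rv s e0 (by omega) (by omega)]
        have g2 := hR k0 (by omega)
        have g3 := hR (k0 - j') (by omega)
        calc ‖1 + pos s k0 - pos s (k0 - j')‖ ≤ ‖1 + pos s k0‖ + ‖pos s (k0 - j')‖ := norm_sub_le _ _
          _ ≤ (‖(1 : ℂ)‖ + ‖pos s k0‖) + ‖pos s (k0 - j')‖ := by gcongr; exact norm_add_le _ _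
          _ ≤ _ := by
            rw [norm_one]
            linarith
    · have hj' : j ≤ n - k1 := hj
      have g1 := pos_sl s e1 (show k1 + (n - k1) ≤ n by omega) hj'
      have g2 := hR k1 (by omega)
      have g3 := hR (k1 + j) (by omega)
      have g4 : pos (sl s k1 (n - k1)) j = pos s (k1 + j) - pos s k1 := by
        rw [g1]
        ring
      show ‖pos (sl s k1 (n - k1)) j‖ ≤ _
      rw [g4]
      refine (norm_sub_le _ _).trans ?_
      linarith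
  choose k0 k1 t2 h1 h2 hA b1 b2 b3 hC using key
  obtain ⟨NT, hNT⟩ : ∃ NT, NT = NB (ρ1) (qq) (E - T) (2 * R0 + 1) := ⟨_, rfl⟩
  let ψ : XW ρ ρ1 cc E T b R0 → NB (ρ1) (qq) (E - T) (2 * R0 + 1) × BH H × NB (ρ1) (qq) (E - T) (2 * R0 + 1) := fun x =>
    (⟨k0 x + 1, rv x.2.1 (k0 x), hA x⟩, ⟨t2 x, b1 x⟩, ⟨x.1 - k1 x, sl x.2.1 (k1 x) (x.1 - k1 x), hC x⟩)
  have hψ : Function.Injective ψ := by
    intro x y hxy
    have e1 : k0 x + 1 = k0 y + 1 := congrArg (fun p => (p.1.1 : ℕ)) hxy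
    have e2 : t2 x = t2 y := congrArg (fun p => (p.2.1 : List Bool)) hxy
    have e3 : x.1 - k1 x = y.1 - k1 y := congrArg (fun p => (p.2.2.1 : ℕ)) hxy
    have e4 : ext (rv x.2.1 (k0 x)) = ext (rv y.2.1 (k0 y)) := congrArg (fun p => ext p.1.2.1) hxy
    have e5 : ext (sl x.2.1 (k1 x) (x.1 - k1 x)) = ext (sl y.2.1 (k1 y) (y.1 - k1 y)) := congrArg (fun p => ext p.2.2.2.1) hxy
    have l2 := b2 x
    rw [e2, b2 y] at l2
    have g1 := h1 x
    have g2 := h2 x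
    have g3 := h1 y
    have g4 := h2 y
    have f0 : k0 x = k0 y := by omega
    have f1 : k1 x = k1 y := by omega
    have fn : x.1 = y.1 := by omega
    have B2 := b3 x
    have C2 := b3 y
    rw [e2, f0, f1] at B2
    rw [f0] at e4
    rw [f1] at e5
    obtain ⟨n, s, hs⟩ := x
    obtain ⟨n', s', hs'⟩ := y
    simp only at fn
    subst fn
    have ext_inj : ∀ {m : ℕ} {v v' : Fin m → Fin 3}, ext v = ext v' → v = v' := by
      intro m v v' h
      funext i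
      have := congrFun h i
      unfold ext at this
      rwa [dif_pos i.2, dif_pos i.2] at this
    have es : s = s' := glue_inj g3 g4 (ext_inj e4) (B2.symm.trans C2) (ext_inj e5)
    subst es
    rfl
  have hx := HexObs.xc_pos
  calc ∑' x : XW ρ ρ1 cc E T b R0, ENNReal.ofReal (xc ^ x.1)
      = ∑' x : XW ρ ρ1 cc E T b R0, ENNReal.ofReal xc⁻¹ *
          (ENNReal.ofReal (xc ^ (ψ x).1.1) * (wE (ψ x).2.1 * ENNReal.ofReal (xc ^ (ψ x).2.2.1))) := by
        refine tsum_congr fun x => ?_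
        show _ = ENNReal.ofReal xc⁻¹ * (ENNReal.ofReal (xc ^ (k0 x + 1)) * (ENNReal.ofReal (xc ^ (t2 x).length) *
          ENNReal.ofReal (xc ^ (x.1 - k1 x))))
        rw [← ENNReal.ofReal_mul (by positivity), ← ENNReal.ofReal_mul (by positivity), ← ENNReal.ofReal_mul (by positivity),
          b2 x]
        congr 1
        have g1 := h1 x
        have g2 := h2 x
        rw [← pow_add, ← pow_add, show k0 x + 1 + (k1 x - k0 x + (x.1 - k1 x)) = x.1 + 1 by omega, pow_succ]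
        field_simp
    _ ≤ ∑' p : NB (ρ1) (qq) (E - T) (2 * R0 + 1) × BH H × NB (ρ1) (qq) (E - T) (2 * R0 + 1),
          ENNReal.ofReal xc⁻¹ * (ENNReal.ofReal (xc ^ p.1.1) * (wE p.2.1 * ENNReal.ofReal (xc ^ p.2.2.1))) :=
        ENNReal.tsum_comp_le_tsum_of_injective hψ
          (fun p : NB (ρ1) (qq) (E - T) (2 * R0 + 1) × BH H × NB (ρ1) (qq) (E - T) (2 * R0 + 1) =>
            ENNReal.ofReal xc⁻¹ * (ENNReal.ofReal (xc ^ p.1.1) * (wE p.2.1 * ENNReal.ofReal (xc ^ p.2.2.1))))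
    _ = _ := by
        rw [ENNReal.tsum_mul_left]
        congr 1
        rw [ENNReal.tsum_prod (f := fun (a : NB (ρ1) (qq) (E - T) (2 * R0 + 1))
          (c : BH H × NB (ρ1) (qq) (E - T) (2 * R0 + 1)) =>
            ENNReal.ofReal (xc ^ a.1) * (wE c.1 * ENNReal.ofReal (xc ^ c.2.1))), ← ENNReal.tsum_mul_right]
        refine tsum_congr fun a => ?_
        rw [ENNReal.tsum_mul_left]
        congr 1
        rw [ENNReal.tsum_prod (f := fun (a : BH H) (c : NB (ρ1) (qq) (E - T) (2 * R0 + 1)) =>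
          wE a * ENNReal.ofReal (xc ^ c.1))]
        unfold gf
        rw [← ENNReal.tsum_mul_right]
        refine tsum_congr fun c => ?_
        rw [ENNReal.tsum_mul_left]

/-- the same, with numbers of walks -/
theorem iw_sum {H : ℕ} {ρ ρ1 cc qq E T b R0 : ℝ} (hb : 2 ≤ b) (hqq : 0 ≤ qq)
    (hg1 : b + cc + 2 ≤ ρ1) (hg2 : ρ1 + qq + b ≤ ρ) (hg3 : qq + b ≤ cc) (hT : 0 < T) (hH : 4 * T ≤ 3 * ((H : ℝ) + 1))
    (F : Finset ℕ) :
    ∑ n ∈ F, (((saw n).filter fun s => IW ρ ρ1 cc E T b R0 s).card : ℝ≥0∞) * ENNReal.ofReal (xc ^ n) ≤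
      ENNReal.ofReal xc⁻¹ * ((∑' x : NB (ρ1) (qq) (E - T) (2 * R0 + 1), ENNReal.ofReal (xc ^ x.1)) *
        (gf (BH H) * ∑' x : NB (ρ1) (qq) (E - T) (2 * R0 + 1), ENNReal.ofReal (xc ^ x.1))) := by
  refine le_trans ?_ (iw_le hb hqq hg1 hg2 hg3 hT hH)
  unfold XW
  rw [ENNReal.tsum_sigma' (f := fun x : (Σ n : ℕ, {s : Fin n → Fin 3 // s ∈ saw n ∧ IW ρ ρ1 cc E T b R0 s}) => ENNReal.ofReal (xc ^ x.1))]
  refine le_trans (Finset.sum_le_sum fun n _ => ?_) (ENNReal.sum_le_tsum F)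
  show _ ≤ ∑' _ : {s : Fin n → Fin 3 // s ∈ saw n ∧ IW ρ ρ1 cc E T b R0 s}, ENNReal.ofReal (xc ^ n)
  rw [ENNReal.tsum_const]
  refine mul_le_mul' (le_of_eq ?_) le_rfl
  have e : ENat.card {s : Fin n → Fin 3 // s ∈ saw n ∧ IW ρ ρ1 cc E T b R0 s} =
      (((saw n).filter fun s => IW ρ ρ1 cc E T b R0 s).card : ℕ) := by
    rw [ENat.card_eq_coe_fintype_card, Fintype.card_subtype]
    congr 1
    have : (Finset.univ.filter fun s : Fin n → Fin 3 => s ∈ saw n ∧ IW ρ ρ1 cc E T b R0 s) = (saw n).filter fun s => IW ρ ρ1 cc E T b R0 s := by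
      ext s
      simp
    rw [this]
  rw [e]
  simp

/-! ### 3. in powers -/

/-- the count, in powers -/
lemma iw_pow {r r1 c q b e L : ℝ} (hq : 0 < q) (hb : 0 < b) (he : 0 < e) (heq : e ≤ q) (hL : 0 < L) (hLq : q ≤ 2 * L)
    (hg1 : b + c < r1) (hg2 : r1 + q + b ≤ r) (hg3 : q + b ≤ c) :
    ∃ K M0 : ℝ, 0 < K ∧ 0 < M0 ∧ ∀ t M : ℝ, 0 < t → t ≤ e / 2 → M0 ≤ M → 1 ≤ t * M → ∀ F : Finset ℕ,
      ∑ n ∈ F, (((saw n).filter fun s => IW (r * M) (r1 * M) (c * M) (e * M) (t * M) (b * M) (L * M) s).card : ℝ) * fug ^ n ≤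
        K * (t ^ (3 / 4 : ℝ) * M ^ (43 / 24 : ℝ)) := by
  obtain ⟨C, b0, hC, hb0, hN⟩ := ncw_le
  obtain ⟨CU, hCU, hup⟩ := HexObs.GLow.UU_up
  have hx := HexObs.xc_pos
  have hdif : 0 < r1 - b - c := by linarith
  obtain ⟨K1, hK1⟩ : ∃ K1 : ℝ, K1 = C * (2 * q / e) * (3 * L) ^ (43 / 24 : ℝ) * q ^ (-(61 / 48) : ℝ) := ⟨_, rfl⟩
  have hK10 : 0 < K1 := by rw [hK1]; positivity
  refine ⟨1 / xc * K1 ^ 2 * CU * 2 ^ (3 / 4 : ℝ), max (max (max (b0 / q) (2 / b)) (2 / (r1 - b - c))) (1 / L), by positivity,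
    lt_of_lt_of_le (by positivity) (le_max_right _ _), fun t M ht hte hM htM F => ?_⟩
  have hM1 : b0 / q ≤ M := (le_max_left _ _).trans ((le_max_left _ _).trans ((le_max_left _ _).trans hM))
  have hM2 : 2 / b ≤ M := (le_max_right _ _).trans ((le_max_left _ _).trans ((le_max_left _ _).trans hM))
  have hM4 : 2 / (r1 - b - c) ≤ M := (le_max_right _ _).trans ((le_max_left _ _).trans hM)
  have hM3 : 1 / L ≤ M := (le_max_right _ _).trans hM
  have hM0 : 0 < M := lt_of_lt_of_le (by positivity) hM2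
  rw [div_le_iff₀ hq] at hM1
  rw [div_le_iff₀ hb] at hM2
  rw [div_le_iff₀ hdif] at hM4
  rw [div_le_iff₀ hL] at hM3
  obtain ⟨H, hH⟩ : ∃ H : ℕ, H = ⌊4 / 3 * (t * M)⌋₊ := ⟨_, rfl⟩
  have hHR : (H : ℝ) ≤ 2 * (t * M) := by
    have h1 := Nat.floor_le (a := 4 / 3 * (t * M)) (by positivity)
    rw [← hH] at h1
    have : 0 ≤ t * M := by positivity
    linarith
  have hHL : 4 / 3 * (t * M) ≤ (H : ℝ) + 1 := by
    have h1 := Nat.lt_floor_add_one (4 / 3 * (t * M))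
    rw [← hH] at h1
    exact h1.le
  have hH1 : 1 ≤ H := by
    rw [hH]
    refine Nat.le_floor ?_
    push_cast
    linarith
  have m1 : e * M / 2 ≤ e * M - t * M := by nlinarith
  have m2 : e * M ≤ q * M := mul_le_mul_of_nonneg_right heq hM0.le
  have m3 : q * M ≤ 2 * (L * M) := by nlinarith
  have m4 : (r1 + q + b) * M ≤ r * M := mul_le_mul_of_nonneg_right hg2 hM0.le
  have m5 : (q + b) * M ≤ c * M := mul_le_mul_of_nonneg_right hg3 hM0.le
  have m6 : 0 < e * M := by positivity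
  have m7 : 0 < t * M := by positivity
  have m8 : 0 < q * M := by positivity
  have m9 : 0 < b * M := by positivity
  have hS := hN (r1 * M) (q * M) (e * M - t * M) (2 * (L * M) + 1) (by linarith) (by nlinarith)
    (by linarith) (by linarith) (by linarith)
  have hI := iw_sum (H := H) (ρ := r * M) (ρ1 := r1 * M) (cc := c * M) (qq := q * M) (E := e * M) (T := t * M) (b := b * M)
    (R0 := L * M) (by linarith) m8.le (by nlinarith) (by linarith) (by linarith) m7 (by linarith) F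
  obtain ⟨S, hSd⟩ : ∃ S, S = ∑' x : NB (r1 * M) (q * M) (e * M - t * M) (2 * (L * M) + 1), ENNReal.ofReal (xc ^ x.1) :=
    ⟨_, rfl⟩
  rw [← hSd] at hS hI
  have hS' : S ≤ ENNReal.ofReal (K1 * M ^ (25 / 48 : ℝ)) := by
    refine hS.trans (ENNReal.ofReal_le_ofReal ?_)
    have a1 : q * M / (e * M - t * M) ≤ 2 * q / e := by
      calc q * M / (e * M - t * M) ≤ q * M / (e * M / 2) := by gcongr
        _ = 2 * q / e := by field_simp
    have a2 : (2 * (L * M) + 1) ^ (43 / 24 : ℝ) ≤ (3 * L) ^ (43 / 24 : ℝ) * M ^ (43 / 24 : ℝ) := by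
      rw [← Real.mul_rpow (by positivity) hM0.le]
      refine Real.rpow_le_rpow (by positivity) (by nlinarith) (by norm_num)
    have a3 : (q * M) ^ (-(61 / 48) : ℝ) = q ^ (-(61 / 48) : ℝ) * M ^ (-(61 / 48) : ℝ) := Real.mul_rpow hq.le hM0.le
    have a4 : M ^ (25 / 48 : ℝ) = M ^ (43 / 24 : ℝ) * M ^ (-(61 / 48) : ℝ) := by
      rw [← Real.rpow_add hM0]
      norm_num
    have a5 : 0 ≤ q * M / (e * M - t * M) := div_nonneg m8.le (by linarith)
    rw [a3, a4, hK1]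
    calc C * (q * M / (e * M - t * M)) * (2 * (L * M) + 1) ^ (43 / 24 : ℝ) *
          (q ^ (-(61 / 48) : ℝ) * M ^ (-(61 / 48) : ℝ)) ≤
        C * (2 * q / e) * ((3 * L) ^ (43 / 24 : ℝ) * M ^ (43 / 24 : ℝ)) *
          (q ^ (-(61 / 48) : ℝ) * M ^ (-(61 / 48) : ℝ)) := by gcongr
      _ = _ := by ring
  have hUH : gf (BH H) ≤ ENNReal.ofReal (CU * ((2 : ℝ) ^ (3 / 4 : ℝ) * (t ^ (3 / 4 : ℝ) * M ^ (3 / 4 : ℝ)))) := by
    refine (gf_BH H).trans (ENNReal.ofReal_le_ofReal ((hup H hH1).trans ?_))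
    refine mul_le_mul_of_nonneg_left ?_ hCU.le
    rw [← Real.mul_rpow ht.le hM0.le, ← Real.mul_rpow (by norm_num) (by positivity)]
    exact Real.rpow_le_rpow (Nat.cast_nonneg _) hHR (by norm_num)
  have h4 : ENNReal.ofReal (∑ n ∈ F,
      (((saw n).filter fun s => IW (r * M) (r1 * M) (c * M) (e * M) (t * M) (b * M) (L * M) s).card : ℝ) * fug ^ n) ≤
      ENNReal.ofReal (1 / xc * K1 ^ 2 * CU * 2 ^ (3 / 4 : ℝ) * (t ^ (3 / 4 : ℝ) * M ^ (43 / 24 : ℝ))) := by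
    have h5 : ENNReal.ofReal (∑ n ∈ F,
        (((saw n).filter fun s => IW (r * M) (r1 * M) (c * M) (e * M) (t * M) (b * M) (L * M) s).card : ℝ) * fug ^ n) =
        ∑ n ∈ F, (((saw n).filter fun s => IW (r * M) (r1 * M) (c * M) (e * M) (t * M) (b * M) (L * M) s).card : ℝ≥0∞) *
          ENNReal.ofReal (HexObs.xc ^ n) := by
      rw [ENNReal.ofReal_sum_of_nonneg (fun n _ => mul_nonneg (Nat.cast_nonneg _) (by
        rw [NTSF.fug_eq]
        positivity))]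
      refine Finset.sum_congr rfl fun n _ => ?_
      rw [ENNReal.ofReal_mul (Nat.cast_nonneg _), ENNReal.ofReal_natCast, NTSF.fug_eq]
    rw [h5]
    refine hI.trans ?_
    refine (mul_le_mul_right (mul_le_mul' hS' (mul_le_mul' hUH hS')) _).trans (le_of_eq ?_)
    rw [← ENNReal.ofReal_mul (by positivity), ← ENNReal.ofReal_mul (by positivity), ← ENNReal.ofReal_mul (by positivity)]
    congr 1
    have a4 : M ^ (43 / 24 : ℝ) = (M ^ (25 / 48 : ℝ)) ^ 2 * M ^ (3 / 4 : ℝ) := by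
      rw [← Real.rpow_natCast, ← Real.rpow_mul hM0.le, ← Real.rpow_add hM0]
      congr 1
      norm_num
    rw [a4]
    ring
  rwa [ENNReal.ofReal_le_ofReal_iff (by positivity)] at h4

/-- a window cut of radius `ρ` without another window cut of radius `ρ1` at a distance at most `cc` and at a level between `T`
and `E` from it -/
def IsoG (ρ ρ1 cc E T : ℝ) {n : ℕ} (s : Fin n → Fin 3) : Prop :=
  ∃ k : ℕ, WC ρ s k ∧ ∀ i : ℕ, WC ρ1 s i → ‖pos s i - pos s k‖ ≤ cc →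
    |(pos s i).re - (pos s k).re| < T ∨ E < |(pos s i).re - (pos s k).re|

lemma IsoG.mono {ρ ρ1 cc E E' T T' : ℝ} {n : ℕ} {s : Fin n → Fin 3} (h : IsoG ρ ρ1 cc E T s) (hE : E' ≤ E) (hT : T ≤ T') :
    IsoG ρ ρ1 cc E' T' s := by
  obtain ⟨k, hk, h⟩ := h
  refine ⟨k, hk, fun i h1 h2 => ?_⟩
  rcases h i h1 h2 with h3 | h3
  · exact Or.inl (h3.trans_le hT)
  · exact Or.inr (hE.trans_lt h3)

/-- **in the mean no window cut is isolated**, general radii -/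
theorem vPerfG {ε r r1 c q b e' x1 x2 : ℝ} (hε : 0 < ε) (hq : 0 < q) (hb : 0 < b) (he' : 0 < e') (hx1 : 0 < x1) (hx12 : x1 < x2)
    (hg1 : b + c < r1) (hg2 : r1 + q + b ≤ r) (hg3 : q + b ≤ c) : ∃ t : ℝ, 0 < t ∧ ∃ N0 : ℕ, ∀ N : ℕ, N0 ≤ N →
      msum (fun _ s => IsoG (r * size N) (r1 * size N) (c * size N) (e' * size N) (t * size N) s) x1 x2 N ≤ ε * N := by
  have hx2 : 0 < x2 := hx1.trans hx12
  obtain ⟨e, hed⟩ : ∃ e : ℝ, e = min e' q := ⟨_, rfl⟩
  have he : 0 < e := by rw [hed]; positivity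
  have hee : e ≤ e' := hed ▸ min_le_left _ _
  have her : e ≤ q := hed ▸ min_le_right _ _
  obtain ⟨ca, Ca, hca, hCa, haN⟩ := _root_.CRT.Mass.aN_bounds
  obtain ⟨cs, Cs, hcs, hsz, -⟩ := NTSF.finE
  have hCs : 0 < Cs := by
    have h1 := (hsz 1 le_rfl).2
    have h2 := NTSF.size_pos (n := 1) le_rfl
    rw [Nat.cast_one, Real.one_rpow, mul_one] at h1
    linarith
  obtain ⟨dl, du, hdl, hdu, hcmp⟩ := size_cmp hx1 hx12
  obtain ⟨L0, hL0, htail⟩ := tailN (ε := ε / (4 * (x2 + 1))) (by positivity)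
  obtain ⟨τ, hτ, n1, hslab⟩ := slab (ε := ε / (4 * (x2 + 1))) (b := b / du) (by positivity) (by positivity)
  obtain ⟨L, hL⟩ : ∃ L : ℝ, L = max (L0 * du) q := ⟨_, rfl⟩
  have hLL0 : L0 * du ≤ L := hL ▸ le_max_left _ _
  have hLr : q ≤ L := hL ▸ le_max_right _ _
  have hL1 : 0 < L := lt_of_lt_of_le hq hLr
  obtain ⟨K, M0, hK, hM0, hcount⟩ := iw_pow (r := r) (c := c) hq hb he her hL1 (by linarith) hg1 hg2 hg3
  obtain ⟨t, ht⟩ : ∃ t : ℝ, t = min (min (e / 2) (τ * dl))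
    ((ε * (ca * x1 ^ (11 / 32 : ℝ)) / (4 * (K * Cs ^ (43 / 24 : ℝ)))) ^ (4 / 3 : ℝ)) := ⟨_, rfl⟩
  have ht0 : 0 < t := by
    rw [ht]
    positivity
  have ht1 : t ≤ e / 2 := ht ▸ (min_le_left _ _).trans (min_le_left _ _)
  have ht3 : t ≤ τ * dl := ht ▸ (min_le_left _ _).trans (min_le_right _ _)
  have ht2 : t ^ (3 / 4 : ℝ) ≤ ε * (ca * x1 ^ (11 / 32 : ℝ)) / (4 * (K * Cs ^ (43 / 24 : ℝ))) := by
    have h1 : t ≤ (ε * (ca * x1 ^ (11 / 32 : ℝ)) / (4 * (K * Cs ^ (43 / 24 : ℝ)))) ^ (4 / 3 : ℝ) := ht ▸ min_le_right _ _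
    have h2 := Real.rpow_le_rpow ht0.le h1 (by norm_num : (0 : ℝ) ≤ 3 / 4)
    rwa [← Real.rpow_mul (by positivity), show (4 / 3 : ℝ) * (3 / 4) = 1 by norm_num, Real.rpow_one] at h2
  -- the first N
  have hlim : Filter.Tendsto (fun N : ℕ => (N : ℝ) ^ (3 / 4 : ℝ)) Filter.atTop Filter.atTop :=
    (tendsto_rpow_atTop (by norm_num : (0 : ℝ) < 3 / 4)).comp tendsto_natCast_atTop_atTop
  obtain ⟨N1, hN1⟩ := Filter.eventually_atTop.1 (hlim.eventually_ge_atTop (max (M0 / cs) (1 / (t * cs))))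
  obtain ⟨N2, hN2⟩ := exists_nat_ge ((n1 + 1 : ℝ) / x1)
  refine ⟨t, ht0, max (max N1 N2) 1, fun N hN => ?_⟩
  have hNN1 : N1 ≤ N := (le_max_left _ _).trans ((le_max_left _ _).trans hN)
  have hNN2 : N2 ≤ N := (le_max_right _ _).trans ((le_max_left _ _).trans hN)
  have hN0 : 1 ≤ N := (le_max_right _ _).trans hN
  have hNR : (1 : ℝ) ≤ N := by exact_mod_cast hN0
  have hNpos : (0 : ℝ) < N := by linarith
  have hx1N : (n1 + 1 : ℝ) ≤ x1 * N := by
    have h1 : (n1 + 1 : ℝ) / x1 ≤ N := hN2.trans (by exact_mod_cast hNN2)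
    rwa [div_le_iff₀ hx1, mul_comm] at h1
  obtain ⟨M, hM⟩ : ∃ M : ℝ, M = size N := ⟨_, rfl⟩
  have hMpos : 0 < M := hM ▸ NTSF.size_pos hN0
  have hMb := hN1 N hNN1
  have hMlow : cs * (N : ℝ) ^ (3 / 4 : ℝ) ≤ M := hM ▸ (hsz N hN0).1
  have hMup : M ≤ Cs * (N : ℝ) ^ (3 / 4 : ℝ) := hM ▸ (hsz N hN0).2
  have hM1 : M0 ≤ M := by
    have h1 : M0 / cs ≤ (N : ℝ) ^ (3 / 4 : ℝ) := (le_max_left _ _).trans hMb
    rw [div_le_iff₀ hcs, mul_comm] at h1
    exact h1.trans hMlow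
  have hM3 : 1 ≤ t * M := by
    have h1 : 1 / (t * cs) ≤ (N : ℝ) ^ (3 / 4 : ℝ) := (le_max_right _ _).trans hMb
    rw [div_le_iff₀ (by positivity)] at h1
    have h2 := mul_le_mul_of_nonneg_left hMlow ht0.le
    linarith
  obtain ⟨F, hF⟩ : ∃ F : Finset ℕ, F = (Finset.range (⌊x2 * N⌋₊ + 1)).filter (fun n : ℕ => x1 * N ≤ n) := ⟨_, rfl⟩
  have hFm : ∀ n ∈ F, n1 ≤ n ∧ 1 ≤ n ∧ x1 * N ≤ n ∧ (n : ℝ) ≤ x2 * N := by
    intro n hn
    rw [hF, Finset.mem_filter, Finset.mem_range] at hn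
    have h1 : (n1 : ℝ) + 1 ≤ n := hx1N.trans hn.2
    have h2 : n1 + 1 ≤ n := by exact_mod_cast h1
    refine ⟨by omega, by omega, hn.2, ?_⟩
    exact (Nat.le_floor_iff (by positivity)).1 (Nat.lt_succ_iff.1 hn.1)
  have hFc : (F.card : ℝ) ≤ x2 * N + 1 := by
    have h1 : F.card ≤ ⌊x2 * N⌋₊ + 1 := by
      rw [hF]
      exact (Finset.card_filter_le _ _).trans (by rw [Finset.card_range])
    have h2 : (F.card : ℝ) ≤ (⌊x2 * N⌋₊ : ℝ) + 1 := by exact_mod_cast h1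
    have h3 := Nat.floor_le (a := x2 * N) (by positivity)
    linarith
  have hcnt := hcount t M ht0 ht1 hM1 hM3 F
  -- one n
  have hone : ∀ n ∈ F, (((saw n).filter fun s => IsoG (r * size N) (r1 * size N) (c * size N) (e' * size N) (t * size N) s).card : ℝ) /
      ((saw n).card : ℝ) ≤
      1 / (ca * (x1 * N) ^ (11 / 32 : ℝ)) *
        ((((saw n).filter fun s => IW (r * M) (r1 * M) (c * M) (e * M) (t * M) (b * M) (L * M) s).card : ℝ) * fug ^ n) +
        ε / (2 * (x2 + 1)) := by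
    intro n hn
    rw [← hM]
    obtain ⟨hn0, hn1, hnx1, hnx2⟩ := hFm n hn
    have hS := NTSF.saw_card_pos n
    obtain ⟨hsz1, hsz2⟩ := hcmp N n hN0 hn1 hnx1 hnx2
    rw [← hM] at hsz1 hsz2
    have hsub : ((saw n).filter fun s => IsoG (r * M) (r1 * M) (c * M) (e' * M) (t * M) s) ⊆
        ((saw n).filter fun s => IW (r * M) (r1 * M) (c * M) (e * M) (t * M) (b * M) (L * M) s) ∪
          (((saw n).filter fun s => ¬ ∀ i : ℕ, i ≤ n → ‖pos s i‖ ≤ L0 * size n) ∪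
            ((saw n).filter fun s => Slb (b / du * size n) (τ * size n) s)) := by
      intro s hs
      rw [Finset.mem_filter] at hs
      rw [Finset.mem_union, Finset.mem_union, Finset.mem_filter, Finset.mem_filter, Finset.mem_filter]
      by_cases hb' : ∀ i : ℕ, i ≤ n → ‖pos s i‖ ≤ L0 * size n
      · by_cases hc : Slb (b / du * size n) (τ * size n) s
        · exact Or.inr (Or.inr ⟨hs.1, hc⟩)
        · left
          refine ⟨hs.1, ?_, fun hcon => hc (hcon.mono ?_ ?_), fun i hi => (hb' i hi).trans ?_⟩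
          · exact hs.2.mono (by gcongr) le_rfl
          · calc b / du * size n ≤ b / du * (du * M) := by gcongr
              _ = _ := by field_simp
          · calc t * M ≤ τ * dl * M := by gcongr
              _ = τ * (dl * M) := by ring
              _ ≤ _ := by gcongr
          · calc L0 * size n ≤ L0 * (du * M) := by gcongr
              _ = L0 * du * M := by ring
              _ ≤ L * M := by gcongr
      · exact Or.inr (Or.inl ⟨hs.1, hb'⟩)
    have hcard : (((saw n).filter fun s => IsoG (r * M) (r1 * M) (c * M) (e' * M) (t * M) s).card : ℝ) ≤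
        (((saw n).filter fun s => IW (r * M) (r1 * M) (c * M) (e * M) (t * M) (b * M) (L * M) s).card : ℝ) +
          ε / (2 * (x2 + 1)) * ((saw n).card : ℝ) := by
      have h1 := (card_le_card hsub).trans ((card_union_le _ _).trans (add_le_add le_rfl (card_union_le _ _)))
      have h2 := htail n hn1
      have h3 : (((saw n).filter fun s => IsoG (r * M) (r1 * M) (c * M) (e' * M) (t * M) s).card : ℝ) ≤
        (((saw n).filter fun s => IW (r * M) (r1 * M) (c * M) (e * M) (t * M) (b * M) (L * M) s).card : ℝ) +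
          ((((saw n).filter fun s => ¬ ∀ i : ℕ, i ≤ n → ‖pos s i‖ ≤ L0 * size n).card : ℝ) +
            (((saw n).filter fun s => Slb (b / du * size n) (τ * size n) s).card : ℝ)) := by exact_mod_cast h1
      have h4 := hslab n hn0
      have h5 : ε / (4 * (x2 + 1)) * ((saw n).card : ℝ) + ε / (4 * (x2 + 1)) * ((saw n).card : ℝ) =
        ε / (2 * (x2 + 1)) * ((saw n).card : ℝ) := by
        field_simp
        norm_num
      linarith
    have haNn := (haN n hn1).1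
    have hA : ca * (x1 * N) ^ (11 / 32 : ℝ) ≤ ((saw n).card : ℝ) * fug ^ n := by
      refine le_trans ?_ haNn
      have h2 : (x1 * N) ^ (11 / 32 : ℝ) ≤ (n : ℝ) ^ (11 / 32 : ℝ) := Real.rpow_le_rpow (by positivity) hnx1 (by norm_num)
      gcongr
    have hA0 : 0 < ca * (x1 * N) ^ (11 / 32 : ℝ) := by positivity
    have hfn : 0 < fug ^ n := by
      rw [NTSF.fug_eq]
      exact pow_pos HexObs.xc_pos n
    obtain ⟨X, hX⟩ : ∃ X : ℝ, X = (((saw n).filter fun s => IW (r * M) (r1 * M) (c * M) (e * M) (t * M) (b * M) (L * M) s).card : ℝ) :=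
      ⟨_, rfl⟩
    have hX0 : 0 ≤ X := by rw [hX]; exact Nat.cast_nonneg _
    rw [← hX] at hcard ⊢
    rw [div_le_iff₀ hS, add_mul]
    refine hcard.trans (add_le_add ?_ le_rfl)
    have h5 : 1 / (ca * (x1 * N) ^ (11 / 32 : ℝ)) * (X * fug ^ n) * ((saw n).card : ℝ) =
        X * ((((saw n).card : ℝ) * fug ^ n) / (ca * (x1 * N) ^ (11 / 32 : ℝ))) := by ring
    rw [h5]
    have h6 : 1 ≤ (((saw n).card : ℝ) * fug ^ n) / (ca * (x1 * N) ^ (11 / 32 : ℝ)) := by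
      rw [one_le_div hA0]
      exact hA
    exact le_mul_of_one_le_right hX0 h6
  -- the sum
  unfold msum
  rw [← hF]
  have hsum := Finset.sum_le_sum hone
  refine hsum.trans ?_
  rw [Finset.sum_add_distrib, ← Finset.mul_sum, Finset.sum_const, nsmul_eq_mul]
  have hA0 : 0 < ca * (x1 * N) ^ (11 / 32 : ℝ) := by positivity
  have hMN : M ^ (43 / 24 : ℝ) ≤ Cs ^ (43 / 24 : ℝ) * ((N : ℝ) ^ (11 / 32 : ℝ) * N) := by
    have h1 := Real.rpow_le_rpow hMpos.le hMup (by norm_num : (0 : ℝ) ≤ 43 / 24)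
    refine h1.trans (le_of_eq ?_)
    rw [Real.mul_rpow hCs.le (by positivity), ← Real.rpow_mul hNpos.le]
    congr 1
    nth_rewrite 3 [← Real.rpow_one (N : ℝ)]
    rw [← Real.rpow_add hNpos]
    congr 1
    norm_num
  have h1 : 1 / (ca * (x1 * N) ^ (11 / 32 : ℝ)) * ∑ n ∈ F,
      ((((saw n).filter fun s => IW (r * M) (r1 * M) (c * M) (e * M) (t * M) (b * M) (L * M) s).card : ℝ) * fug ^ n) ≤ ε / 4 * N := by
    rw [one_div, inv_mul_le_iff₀ hA0]
    refine hcnt.trans ?_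
    have h2 : K * (t ^ (3 / 4 : ℝ) * M ^ (43 / 24 : ℝ)) ≤
        K * ((ε * (ca * x1 ^ (11 / 32 : ℝ)) / (4 * (K * Cs ^ (43 / 24 : ℝ)))) *
          (Cs ^ (43 / 24 : ℝ) * ((N : ℝ) ^ (11 / 32 : ℝ) * N))) := by gcongr
    refine h2.trans (le_of_eq ?_)
    rw [Real.mul_rpow hx1.le hNpos.le]
    field_simp
  have h2 : (F.card : ℝ) * (ε / (2 * (x2 + 1))) ≤ ε / 2 * N := by
    have h3 : x2 * N + 1 ≤ (x2 + 1) * N := by nlinarith
    calc (F.card : ℝ) * (ε / (2 * (x2 + 1))) ≤ ((x2 + 1) * N) * (ε / (2 * (x2 + 1))) := by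
          refine mul_le_mul_of_nonneg_right (hFc.trans h3) (by positivity)
      _ = _ := by field_simp
  have h3 : 0 ≤ ε * N := by positivity
  linarith

/-! ### 4. the form of helper28 -/

/-- a window cut of radius `ρ` without another window cut of radius `ρ - b` at a distance at most `b / 2` and at a level between
`T` and `E` from it -/
def IsoV (ρ b E T : ℝ) {n : ℕ} (s : Fin n → Fin 3) : Prop :=
  ∃ k : ℕ, WC ρ s k ∧ ∀ i : ℕ, WC (ρ - b) s i → ‖pos s i - pos s k‖ ≤ b / 2 →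
    |(pos s i).re - (pos s k).re| < T ∨ E < |(pos s i).re - (pos s k).re|

lemma IsoV.mono {ρ b E E' T T' : ℝ} {n : ℕ} {s : Fin n → Fin 3} (h : IsoV ρ b E T s) (hE : E' ≤ E) (hT : T ≤ T') :
    IsoV ρ b E' T' s := by
  obtain ⟨k, hk, h⟩ := h
  refine ⟨k, hk, fun i h1 h2 => ?_⟩
  rcases h i h1 h2 with h3 | h3
  · exact Or.inl (h3.trans_le hT)
  · exact Or.inr (hE.trans_lt h3)

/-- **in the mean no window cut is isolated**, neighbours of almost the same radius -/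
theorem vPerfV {ε r b e x1 x2 : ℝ} (hε : 0 < ε) (hb : 0 < b) (hbr : 2 * b ≤ r) (he : 0 < e) (hx1 : 0 < x1) (hx12 : x1 < x2) :
    ∃ t : ℝ, 0 < t ∧ ∃ N0 : ℕ, ∀ N : ℕ, N0 ≤ N →
      msum (fun _ s => IsoV (r * size N) (b * size N) (e * size N) (t * size N) s) x1 x2 N ≤ ε * N := by
  obtain ⟨t, ht, N0, h⟩ := vPerfG (r := r) (r1 := r - b) (c := b / 2) (q := b / 4) (b := b / 16) (e' := e) hε (by positivity)
    (by positivity) he hx1 hx12 (by linarith) (by linarith) (by linarith)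
  refine ⟨t, ht, N0, fun N hN => ?_⟩
  have e1 : (fun (n : ℕ) (s : Fin n → Fin 3) => IsoV (r * size N) (b * size N) (e * size N) (t * size N) s) =
      fun (n : ℕ) (s : Fin n → Fin 3) =>
        IsoG (r * size N) ((r - b) * size N) (b / 2 * size N) (e * size N) (t * size N) s := by
    funext n s
    unfold IsoV IsoG
    rw [show (r - b) * size N = r * size N - b * size N by ring, show b / 2 * size N = b * size N / 2 by ring]
  rw [e1]
  exact h N hN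

end Pool.Agent.CRT.R.G
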