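import Pool.Agent.CRT.RPerf

/-!
# Scale flow (R), row SLAB (helper16), in the mean: **`vSlb`**, the unit of length is `size N` for all the step numbers of the mean
-/

set_option autoImplicit false

namespace Pool.Agent.CRT.R

open Pool.Agent.NTS.Res

open Finset

open scoped ENNReal Classical

open Pool.Agent.CRT.V

/-- **VSlb** : in the mean no displacement in a thin slab -/
def VSlb : Prop := ∀ ε b x1 x2 : ℝ, 0 < ε → 0 < b → 0 < x1 → x1 < x2 → ∃ τ : ℝ, 0 < τ ∧ ∃ N0 : ℕ, ∀ N : ℕ, N0 ≤ N →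
  msum (fun _ s => Slb (b * size N) (τ * size N) s) x1 x2 N ≤ ε * N

/-- in the unit `size N`, for every step number of the window -/
theorem slab_unit {ε b x1 x2 : ℝ} (hε : 0 < ε) (hb : 0 < b) (hx1 : 0 < x1) (hx12 : x1 < x2) : ∃ τ : ℝ, 0 < τ ∧ ∃ N0 : ℕ,
    ∀ N n : ℕ, N0 ≤ N → x1 * N ≤ n → (n : ℝ) ≤ x2 * N →
      (((saw n).filter fun s => Slb (b * size N) (τ * size N) s).card : ℝ) ≤ ε * ((saw n).card : ℝ) := by
  obtain ⟨dl, du, hdl, hdu, hcmp⟩ := size_cmp hx1 hx12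
  obtain ⟨τ, hτ, n0, h⟩ := slab hε (b := b / du) (by positivity)
  obtain ⟨N2, hN2⟩ := exists_nat_ge ((n0 + 1 : ℝ) / x1)
  refine ⟨τ * dl, by positivity, max N2 1, fun N n hN h1 h2 => ?_⟩
  have hNN2 : N2 ≤ N := (le_max_left _ _).trans hN
  have hN0 : 1 ≤ N := (le_max_right _ _).trans hN
  have hx1N : (n0 + 1 : ℝ) ≤ x1 * N := by
    have h1 : (n0 + 1 : ℝ) / x1 ≤ N := hN2.trans (by exact_mod_cast hNN2)
    rwa [div_le_iff₀ hx1, mul_comm] at h1
  have h3 : (n0 : ℝ) + 1 ≤ n := hx1N.trans h1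
  have h4 : n0 + 1 ≤ n := by exact_mod_cast h3
  obtain ⟨hsz1, hsz2⟩ := hcmp N n hN0 (by omega) h1 h2
  refine le_trans ?_ (h n (by omega))
  refine Nat.cast_le.2 (card_le_card fun s hs => ?_)
  rw [Finset.mem_filter] at hs ⊢
  refine ⟨hs.1, hs.2.mono ?_ ?_⟩
  · calc b / du * size n ≤ b / du * (du * size N) := by gcongr
      _ = _ := by field_simp
  · calc τ * dl * size N = τ * (dl * size N) := by ring
      _ ≤ _ := by gcongr

/-- from all the step numbers of the window to the mean -/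
lemma msum_le {B : ∀ n : ℕ, (Fin n → Fin 3) → Prop} {x1 x2 ε : ℝ} (hx2 : 0 ≤ x2) (hε : 0 ≤ ε) {N : ℕ} (hN : 1 ≤ N)
    (h : ∀ n : ℕ, x1 * N ≤ n → (n : ℝ) ≤ x2 * N → (((saw n).filter fun s => B n s).card : ℝ) ≤ ε * ((saw n).card : ℝ)) :
    msum B x1 x2 N ≤ ε * (x2 + 1) * N := by
  unfold msum
  have hNR : (1 : ℝ) ≤ N := by exact_mod_cast hN
  have h1 : ∀ n ∈ (Finset.range (⌊x2 * N⌋₊ + 1)).filter (fun n : ℕ => x1 * N ≤ n),
      (((saw n).filter fun s => B n s).card : ℝ) / ((saw n).card : ℝ) ≤ ε := by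
    intro n hn
    rw [Finset.mem_filter, Finset.mem_range] at hn
    rw [div_le_iff₀ (NTSF.saw_card_pos n)]
    exact h n hn.2 ((Nat.le_floor_iff (by positivity)).1 (Nat.lt_succ_iff.1 hn.1))
  refine (Finset.sum_le_sum h1).trans ?_
  rw [Finset.sum_const, nsmul_eq_mul]
  have h2 : (((Finset.range (⌊x2 * N⌋₊ + 1)).filter (fun n : ℕ => x1 * N ≤ n)).card : ℝ) ≤ x2 * N + 1 := by
    have h3 : ((Finset.range (⌊x2 * N⌋₊ + 1)).filter (fun n : ℕ => x1 * N ≤ n)).card ≤ ⌊x2 * N⌋₊ + 1 :=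
      (Finset.card_filter_le _ _).trans (by rw [Finset.card_range])
    have h4 : (((Finset.range (⌊x2 * N⌋₊ + 1)).filter (fun n : ℕ => x1 * N ≤ n)).card : ℝ) ≤ (⌊x2 * N⌋₊ : ℝ) + 1 := by
      exact_mod_cast h3
    have h5 := Nat.floor_le (a := x2 * N) (by positivity)
    linarith
  have h3 : x2 * N + 1 ≤ (x2 + 1) * N := by nlinarith
  calc _ ≤ ((x2 + 1) * N) * ε := mul_le_mul_of_nonneg_right (h2.trans h3) hε
    _ = _ := by ring

/-- **SLAB in the mean** -/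
theorem vSlb : VSlb := by
  intro ε b x1 x2 hε hb hx1 hx12
  have hx2 : 0 < x2 := hx1.trans hx12
  obtain ⟨τ, hτ, N0, h⟩ := slab_unit (ε := ε / (x2 + 1)) (by positivity) hb hx1 hx12
  refine ⟨τ, hτ, max N0 1, fun N hN => ?_⟩
  have h1 := msum_le (B := fun _ s => Slb (b * size N) (τ * size N) s) (x1 := x1) (x2 := x2) (ε := ε / (x2 + 1)) hx2.le
    (by positivity) ((le_max_right _ _).trans hN) (fun n h1 h2 => h N n ((le_max_left _ _).trans hN) h1 h2)
  refine h1.trans (le_of_eq ?_)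
  field_simp

end Pool.Agent.CRT.R
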