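import Pool.Agent.CRT.RSplit

/-!
# Scale flow (R), row R2: the split of 59 (RSplit) with general radii (helper16)

`ρ1` : radius of the neighbours, `cc` : their distance, `qq` : the distance in `NCW`.
-/

set_option autoImplicit false

open Set Filter Topology MeasureTheory

namespace Pool.Agent.CRT.R.G

open Pool.Agent.NTS.Res
open NTSF (pos_zero pos_succ mem_saw)
open Pool.Agent.CRT.V
open Pool.Agent.CRT.V.V1 (sl pos_sl rv pos_rv HB)

/-- before a window cut, in the cluster: the piece between the two cuts stays near and between the two levels -/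
lemma near_before {n : ℕ} {s : Fin n → Fin 3} {ρ ρ1 cc T b : ℝ} (hb : 2 ≤ b) (g1 : b + 2 ≤ ρ1) (g2 : b + cc + 2 ≤ ρ)
    (hsl : ∀ i j : ℕ, i ≤ j → j ≤ n → (∀ l : ℕ, i ≤ l → l ≤ j → |(pos s l).re - (pos s i).re| ≤ T) → ‖pos s j - pos s i‖ < b)
    {i k : ℕ} (hi : WC (ρ1) s i) (hk : WC ρ s k) (hik : i ≤ k) (hd : ‖pos s i - pos s k‖ ≤ cc)
    (hT : |(pos s i).re - (pos s k).re| < T) :
    ∀ l : ℕ, i ≤ l → l ≤ k → ‖pos s l - pos s i‖ < b ∧ (pos s i).re ≤ (pos s l).re ∧ (pos s l).re ≤ (pos s k).re := by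
  obtain ⟨a1, a2, a3, a4, a5⟩ := hi
  obtain ⟨b1, b2, b3, b4, b5⟩ := hk
  have hT0 : 0 < T := lt_of_le_of_lt (abs_nonneg _) hT
  have hT2 := abs_lt.1 hT
  -- levels from nearness
  have lev : ∀ l : ℕ, i ≤ l → l ≤ k → ‖pos s l - pos s i‖ ≤ b + 1 →
      (pos s i).re ≤ (pos s l).re ∧ (pos s l).re ≤ (pos s k).re := by
    intro l h1 h2 h3
    constructor
    · rcases eq_or_lt_of_le h1 with h4 | h4
      · rw [h4]
      · have h5 : ‖pos s l - (pos s i + 1 / 2)‖ ≤ ρ1 := by
          calc ‖pos s l - (pos s i + 1 / 2)‖ = ‖(pos s l - pos s i) - 1 / 2‖ := by ring_nf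
            _ ≤ ‖pos s l - pos s i‖ + ‖(1 / 2 : ℂ)‖ := norm_sub_le _ _
            _ ≤ ρ1 := by rw [norm_half]; linarith
        have := a5 l h4 (by omega) h5
        linarith
    · refine b4 l h2 ?_
      calc ‖pos s l - (pos s k + 1 / 2)‖ = ‖(pos s l - pos s i) + ((pos s i - pos s k) - 1 / 2)‖ := by ring_nf
        _ ≤ ‖pos s l - pos s i‖ + ‖(pos s i - pos s k) - 1 / 2‖ := norm_add_le _ _
        _ ≤ ‖pos s l - pos s i‖ + (‖pos s i - pos s k‖ + ‖(1 / 2 : ℂ)‖) := by gcongr; exact norm_sub_le _ _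
        _ ≤ ρ := by rw [norm_half]; linarith
  have key : ∀ m : ℕ, i + m ≤ k → ∀ l : ℕ, i ≤ l → l ≤ i + m → ‖pos s l - pos s i‖ < b := by
    intro m
    induction m with
    | zero =>
      intro _ l h1 h2
      have : l = i := by omega
      rw [this, sub_self, norm_zero]
      linarith
    | succ m ih =>
      intro hm l h1 h2
      rcases Nat.lt_or_ge l (i + (m + 1)) with h3 | h3
      · exact ih (by omega) l h1 (by omega)
      · have hl : l = i + m + 1 := by omega
        subst hl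
        have h4 : ‖pos s (i + m + 1) - pos s i‖ ≤ b + 1 := by
          have h5 := ih (by omega) (i + m) (by omega) le_rfl
          rw [pos_succ s (i + m) (by omega)]
          have h6 : ‖step (i + m) (s ⟨i + m, by omega⟩)‖ = 1 := norm_step _ _
          calc ‖pos s (i + m) + step (i + m) (s ⟨i + m, by omega⟩) - pos s i‖
              = ‖(pos s (i + m) - pos s i) + step (i + m) (s ⟨i + m, by omega⟩)‖ := by ring_nf
            _ ≤ ‖pos s (i + m) - pos s i‖ + ‖step (i + m) (s ⟨i + m, by omega⟩)‖ := norm_add_le _ _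
            _ ≤ b + 1 := by rw [h6]; linarith
        refine hsl i (i + m + 1) (by omega) (by omega) fun l h6 h7 => ?_
        have h8 : ‖pos s l - pos s i‖ ≤ b + 1 := by
          rcases Nat.lt_or_ge l (i + m + 1) with h9 | h9
          · exact (ih (by omega) l h6 (by omega)).le.trans (by linarith)
          · have : l = i + m + 1 := by omega
            rw [this]
            exact h4
        obtain ⟨h9, h10⟩ := lev l h6 (by omega) h8
        rw [abs_le]
        constructor <;> linarith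
  intro l h1 h2
  have h3 := key (k - i) (by omega) l h1 (by omega)
  exact ⟨h3, lev l h1 h2 (by linarith)⟩

/-- behind a window cut, in the cluster -/
lemma near_behind {n : ℕ} {s : Fin n → Fin 3} {ρ ρ1 cc T b : ℝ} (hb : 2 ≤ b) (g1 : b + 2 ≤ ρ) (g2 : b + cc + 2 ≤ ρ1)
    (hsl : ∀ i j : ℕ, i ≤ j → j ≤ n → (∀ l : ℕ, i ≤ l → l ≤ j → |(pos s l).re - (pos s i).re| ≤ T) → ‖pos s j - pos s i‖ < b)
    {i k : ℕ} (hi : WC (ρ1) s i) (hk : WC ρ s k) (hik : k ≤ i) (hd : ‖pos s i - pos s k‖ ≤ cc)
    (hT : |(pos s i).re - (pos s k).re| < T) :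
    ∀ l : ℕ, k ≤ l → l ≤ i → ‖pos s l - pos s k‖ < b ∧ (pos s k).re ≤ (pos s l).re ∧ (pos s l).re ≤ (pos s i).re := by
  obtain ⟨a1, a2, a3, a4, a5⟩ := hi
  obtain ⟨b1, b2, b3, b4, b5⟩ := hk
  have hT0 : 0 < T := lt_of_le_of_lt (abs_nonneg _) hT
  have hT2 := abs_lt.1 hT
  have lev : ∀ l : ℕ, k ≤ l → l ≤ i → ‖pos s l - pos s k‖ ≤ b + 1 →
      (pos s k).re ≤ (pos s l).re ∧ (pos s l).re ≤ (pos s i).re := by
    intro l h1 h2 h3
    constructor
    · rcases eq_or_lt_of_le h1 with h4 | h4
      · rw [h4]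
      · have h5 : ‖pos s l - (pos s k + 1 / 2)‖ ≤ ρ := by
          calc ‖pos s l - (pos s k + 1 / 2)‖ = ‖(pos s l - pos s k) - 1 / 2‖ := by ring_nf
            _ ≤ ‖pos s l - pos s k‖ + ‖(1 / 2 : ℂ)‖ := norm_sub_le _ _
            _ ≤ ρ := by rw [norm_half]; linarith
        have := b5 l h4 (by omega) h5
        linarith
    · refine a4 l h2 ?_
      calc ‖pos s l - (pos s i + 1 / 2)‖ = ‖(pos s l - pos s k) - ((pos s i - pos s k) + 1 / 2)‖ := by ring_nf
        _ ≤ ‖pos s l - pos s k‖ + ‖(pos s i - pos s k) + 1 / 2‖ := norm_sub_le _ _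
        _ ≤ ‖pos s l - pos s k‖ + (‖pos s i - pos s k‖ + ‖(1 / 2 : ℂ)‖) := by gcongr; exact norm_add_le _ _
        _ ≤ ρ1 := by rw [norm_half]; linarith
  have key : ∀ m : ℕ, k + m ≤ i → ∀ l : ℕ, k ≤ l → l ≤ k + m → ‖pos s l - pos s k‖ < b := by
    intro m
    induction m with
    | zero =>
      intro _ l h1 h2
      have : l = k := by omega
      rw [this, sub_self, norm_zero]
      linarith
    | succ m ih =>
      intro hm l h1 h2
      rcases Nat.lt_or_ge l (k + (m + 1)) with h3 | h3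
      · exact ih (by omega) l h1 (by omega)
      · have hl : l = k + m + 1 := by omega
        subst hl
        have h4 : ‖pos s (k + m + 1) - pos s k‖ ≤ b + 1 := by
          have h5 := ih (by omega) (k + m) (by omega) le_rfl
          rw [pos_succ s (k + m) (by omega)]
          have h6 : ‖step (k + m) (s ⟨k + m, by omega⟩)‖ = 1 := norm_step _ _
          calc ‖pos s (k + m) + step (k + m) (s ⟨k + m, by omega⟩) - pos s k‖
              = ‖(pos s (k + m) - pos s k) + step (k + m) (s ⟨k + m, by omega⟩)‖ := by ring_nf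
            _ ≤ ‖pos s (k + m) - pos s k‖ + ‖step (k + m) (s ⟨k + m, by omega⟩)‖ := norm_add_le _ _
            _ ≤ b + 1 := by rw [h6]; linarith
        refine hsl k (k + m + 1) (by omega) (by omega) fun l h6 h7 => ?_
        have h8 : ‖pos s l - pos s k‖ ≤ b + 1 := by
          rcases Nat.lt_or_ge l (k + m + 1) with h9 | h9
          · exact (ih (by omega) l h6 (by omega)).le.trans (by linarith)
          · have : l = k + m + 1 := by omega
            rw [this]
            exact h4
        obtain ⟨h9, h10⟩ := lev l h6 (by omega) h8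
        rw [abs_le]
        constructor <;> linarith
  intro l h1 h2
  have h3 := key (i - k) (by omega) l h1 (by omega)
  exact ⟨h3, lev l h1 h2 (by linarith)⟩

/-- **an isolated window cut = outward half walk, bridge, outward half walk** -/
theorem split {n : ℕ} {s : Fin n → Fin 3} (hs : s ∈ saw n) {ρ ρ1 cc qq E T b : ℝ} (hb : 2 ≤ b) (hqq : 0 ≤ qq)
    (hg1 : b + cc + 2 ≤ ρ1) (hg2 : ρ1 + qq + b ≤ ρ) (hg3 : qq + b ≤ cc) (hT : 0 < T)
    (hsl : ∀ i j : ℕ, i ≤ j → j ≤ n → (∀ l : ℕ, i ≤ l → l ≤ j → |(pos s l).re - (pos s i).re| ≤ T) → ‖pos s j - pos s i‖ < b)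
    {k : ℕ} (hk : WC ρ s k) (hiso : ∀ i : ℕ, WC (ρ1) s i → ‖pos s i - pos s k‖ ≤ cc →
      |(pos s i).re - (pos s k).re| < T ∨ E < |(pos s i).re - (pos s k).re|) :
    ∃ k0 k1 : ℕ, Even k0 ∧ Even k1 ∧ k0 ≤ k1 ∧ k1 < n ∧ NCW (k0 + 1) (ρ1) (qq) (E - T) (rv s k0) ∧
      HB (k1 - k0) (2 * T) (sl s k0 (k1 - k0)) ∧ NCW (n - k1) (ρ1) (qq) (E - T) (sl s k1 (n - k1)) := by
  classical
  have hkn : k < n := hk.1
  have hself : WC (ρ1) s k ∧ ‖pos s k - pos s k‖ ≤ cc ∧ |(pos s k).re - (pos s k).re| < T := by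
    refine ⟨hk.mono (by linarith), ?_, ?_⟩
    · rw [sub_self, norm_zero]; linarith
    · rw [sub_self, abs_zero]; exact hT
  -- the first and the last cut of the cluster
  have hex0 : ∃ i, WC (ρ1) s i ∧ ‖pos s i - pos s k‖ ≤ cc ∧ |(pos s i).re - (pos s k).re| < T := ⟨k, hself⟩
  obtain ⟨k0, hk0⟩ : ∃ k0, k0 = Nat.find hex0 := ⟨_, rfl⟩
  have f0 := Nat.find_spec hex0
  rw [← hk0] at f0
  have m0 : ∀ i, i < k0 → WC (ρ1) s i → ‖pos s i - pos s k‖ ≤ cc → E < |(pos s i).re - (pos s k).re| := by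
    intro i hi hc hd
    rcases hiso i hc hd with h | h
    · exact absurd ⟨hc, hd, h⟩ (Nat.find_min hex0 (by rw [← hk0]; exact hi))
    · exact h
  have hk0k : k0 ≤ k := by
    rw [hk0]
    exact Nat.find_min' hex0 hself
  obtain ⟨k1, hk1⟩ : ∃ k1, k1 = Nat.findGreatest
      (fun i => WC (ρ1) s i ∧ ‖pos s i - pos s k‖ ≤ cc ∧ |(pos s i).re - (pos s k).re| < T) n := ⟨_, rfl⟩
  have f1 : WC (ρ1) s k1 ∧ ‖pos s k1 - pos s k‖ ≤ cc ∧ |(pos s k1).re - (pos s k).re| < T := by
    rw [hk1]
    exact Nat.findGreatest_spec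
      (P := fun i => WC (ρ1) s i ∧ ‖pos s i - pos s k‖ ≤ cc ∧ |(pos s i).re - (pos s k).re| < T) hkn.le hself
  have hkk1 : k ≤ k1 := by
    rw [hk1]
    exact Nat.le_findGreatest hkn.le hself
  have m1 : ∀ i, k1 < i → WC (ρ1) s i → ‖pos s i - pos s k‖ ≤ cc → E < |(pos s i).re - (pos s k).re| := by
    intro i hi hc hd
    rcases hiso i hc hd with h | h
    · exfalso
      have : i ≤ k1 := by
        rw [hk1]
        exact Nat.le_findGreatest hc.1.le ⟨hc, hd, h⟩
      omega
    · exact h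
  have nb := near_before hb (by linarith) (by linarith) hsl f0.1 hk hk0k f0.2.1 f0.2.2
  have nh := near_behind hb (by linarith) (by linarith) hsl f1.1 hk hkk1 f1.2.1 f1.2.2
  have nbk := nb k hk0k le_rfl
  have nhk := nh k1 hkk1 le_rfl
  obtain ⟨⟨a1, a2, a3, a4, a5⟩, a6, a7⟩ := id f0
  obtain ⟨⟨b1, b2, b3, b4, b5⟩, b6, b7⟩ := id f1
  obtain ⟨c1, c2, c3, c4, c5⟩ := id hk
  have a7' := abs_lt.1 a7
  have b7' := abs_lt.1 b7
  have p0 : ∀ j, j ≤ k0 → pos (rv s k0) (j + 1) = 1 + pos s k0 - pos s (k0 - j) := fun j hj =>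
    pos_rv s a2 a1.le hj
  have p1 : ∀ t, t ≤ n - k1 → pos s (k1 + t) = pos s k1 + pos (sl s k1 (n - k1)) t := fun t ht =>
    pos_sl s b2 (by omega) ht
  have p2 : ∀ t, t ≤ k1 - k0 → pos s (k0 + t) = pos s k0 + pos (sl s k0 (k1 - k0)) t := fun t ht =>
    pos_sl s a2 (by omega) ht
  refine ⟨k0, k1, a2, b2, hk0k.trans hkk1, b1, ?_, ?_, ?_⟩
  · refine ⟨saw_rv hs a2 a1 a3, Nat.succ_pos _, ?_, ?_, ?_⟩
    · have := p0 0 (Nat.zero_le _)
      rw [this, Nat.sub_zero, add_sub_cancel_right]
    · intro j hj hj1 hn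
      obtain ⟨j', rfl⟩ : ∃ j', j = j' + 1 := ⟨j - 1, by omega⟩
      rw [p0 j' (by omega)] at hn ⊢
      have h1 := a4 (k0 - j') (by omega) (by
        calc ‖pos s (k0 - j') - (pos s k0 + 1 / 2)‖ = ‖-(1 + pos s k0 - pos s (k0 - j') - 1 / 2)‖ := by congr 1; ring
          _ = ‖1 + pos s k0 - pos s (k0 - j') - 1 / 2‖ := norm_neg _
          _ ≤ ρ1 := hn)
      rw [Complex.sub_re, Complex.add_re, Complex.one_re]
      linarith
    · intro j hj hc hd
      obtain ⟨q1, q2, q3, q4, q5⟩ := hc
      obtain ⟨j', rfl⟩ : ∃ j', j = j' + 1 := ⟨j - 1, by omega⟩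
      have e1 := p0 j' (by omega)
      have e2 := p0 (j' + 1) (by omega)
      have hj' : j' + 1 ≤ k0 := by omega
      obtain ⟨i, hi⟩ : ∃ i, i = k0 - (j' + 1) := ⟨_, rfl⟩
      have hi1 : k0 - j' = i + 1 := by omega
      rw [hi1] at e1
      rw [← hi] at e2
      have hedge : pos s (i + 1) = pos s i + 1 := by
        rw [e2, e1] at q3
        linear_combination q3
      have hv : pos (rv s k0) (j' + 1) = pos s k0 - pos s i := by
        rw [e1, hedge]; ring
      rw [hv] at hd q4 q5 ⊢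
      have hik0 : i < k0 := by omega
      have hd2 : ‖pos s i - pos s k0‖ ≤ qq := by rwa [norm_sub_rev]
      have hre0 : (pos s i).re ≤ (pos s k0).re := by
        refine a4 i hik0.le ?_
        calc ‖pos s i - (pos s k0 + 1 / 2)‖ = ‖(pos s i - pos s k0) - 1 / 2‖ := by ring_nf
          _ ≤ ‖pos s i - pos s k0‖ + ‖(1 / 2 : ℂ)‖ := norm_sub_le _ _
          _ ≤ ρ1 := by rw [norm_half]; linarith
      have hik : ‖pos s i - pos s k‖ ≤ qq + b := by
        calc ‖pos s i - pos s k‖ = ‖(pos s i - pos s k0) - (pos s k - pos s k0)‖ := by ring_nf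
          _ ≤ ‖pos s i - pos s k0‖ + ‖pos s k - pos s k0‖ := norm_sub_le _ _
          _ ≤ qq + b := by linarith [nbk.1]
      have hWC : WC (ρ1) s i := by
        refine ⟨by omega, ?_, hedge, fun a ha hda => ?_, fun a ha han hda => ?_⟩
        · rw [hi, Nat.even_sub hj']
          simp [a2, q2]
        · obtain ⟨l, hl1, hl2⟩ : ∃ l, l ≤ k0 ∧ a = k0 - l := ⟨k0 - a, by omega, by omega⟩
          have h1 := q5 (l + 1) (by omega) (by omega) (by
            rw [p0 l hl1, ← hl2]
            calc ‖1 + pos s k0 - pos s a - (pos s k0 - pos s i + 1 / 2)‖ = ‖-(pos s a - (pos s i + 1 / 2))‖ := by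
                  congr 1; ring
              _ = ‖pos s a - (pos s i + 1 / 2)‖ := norm_neg _
              _ ≤ ρ1 := hda)
          rw [p0 l hl1, ← hl2, Complex.sub_re, Complex.sub_re, Complex.add_re, Complex.one_re] at h1
          linarith
        · rcases le_or_gt a k0 with h1 | h1
          · obtain ⟨l, hl1, hl2⟩ : ∃ l, l ≤ k0 ∧ a = k0 - l := ⟨k0 - a, by omega, by omega⟩
            have h2 := q4 (l + 1) (by omega) (by
              rw [p0 l hl1, ← hl2]
              calc ‖1 + pos s k0 - pos s a - (pos s k0 - pos s i + 1 / 2)‖ = ‖-(pos s a - (pos s i + 1 / 2))‖ := by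
                    congr 1; ring
                _ = ‖pos s a - (pos s i + 1 / 2)‖ := norm_neg _
                _ ≤ ρ1 := hda)
            rw [p0 l hl1, ← hl2, Complex.sub_re, Complex.sub_re, Complex.add_re, Complex.one_re] at h2
            linarith
          · rcases le_or_gt a k with h2 | h2
            · have h3 := (nb a h1.le h2).1
              have h4 := a5 a h1 han (by
                calc ‖pos s a - (pos s k0 + 1 / 2)‖ = ‖(pos s a - pos s k0) - 1 / 2‖ := by ring_nf
                  _ ≤ ‖pos s a - pos s k0‖ + ‖(1 / 2 : ℂ)‖ := norm_sub_le _ _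
                  _ ≤ ρ1 := by rw [norm_half]; linarith)
              linarith
            · have h4 := c5 a h2 han (by
                calc ‖pos s a - (pos s k + 1 / 2)‖ = ‖(pos s a - (pos s i + 1 / 2)) + (pos s i - pos s k)‖ := by
                      congr 1; ring
                  _ ≤ ‖pos s a - (pos s i + 1 / 2)‖ + ‖pos s i - pos s k‖ := norm_add_le _ _
                  _ ≤ ρ := by linarith)
              linarith [nbk.2.1]
      have h1 := m0 i hik0 hWC (by linarith)
      rw [abs_of_nonpos (by linarith [nbk.2.1])] at h1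
      rw [Complex.sub_re]
      linarith
  · have e2 : pos s k1 = pos s k0 + pos (sl s k0 (k1 - k0)) (k1 - k0) := by
      have := p2 (k1 - k0) le_rfl
      rw [← this]
      congr 1
      omega
    have rng : ∀ l, k0 ≤ l → l ≤ k1 → (pos s l).re ≤ (pos s k1).re ∧ (k0 < l → (pos s k0).re + 1 ≤ (pos s l).re) := by
      intro l h1 h2
      rcases le_or_gt l k with h3 | h3
      · have h4 := nb l h1 h3
        refine ⟨by linarith [nhk.2.1], fun h5 => ?_⟩
        exact a5 l h5 (by omega) (by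
          calc ‖pos s l - (pos s k0 + 1 / 2)‖ = ‖(pos s l - pos s k0) - 1 / 2‖ := by ring_nf
            _ ≤ ‖pos s l - pos s k0‖ + ‖(1 / 2 : ℂ)‖ := norm_sub_le _ _
            _ ≤ ρ1 := by rw [norm_half]; linarith)
      · have h4 := nh l h3.le h2
        refine ⟨h4.2.2, fun _ => ?_⟩
        have h5 := c5 l h3 (by omega) (by
          calc ‖pos s l - (pos s k + 1 / 2)‖ = ‖(pos s l - pos s k) - 1 / 2‖ := by ring_nf
            _ ≤ ‖pos s l - pos s k‖ + ‖(1 / 2 : ℂ)‖ := norm_sub_le _ _
            _ ≤ ρ := by rw [norm_half]; linarith)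
        linarith [nbk.2.1]
    refine ⟨saw_sl hs a2 (by omega), ?_, fun hm => ⟨hm, ?_, ?_⟩, ?_, ?_⟩
    · rw [Nat.even_sub (by omega)]
      simp [a2, b2]
    · have := p2 1 (by omega)
      rw [a3] at this
      exact (add_left_cancel this).symm
    · intro j hj hjm
      have h1 := p2 j hjm
      have h2 := (rng (k0 + j) (by omega) (by omega)).2 (by omega)
      rw [h1, Complex.add_re] at h2
      linarith
    · intro j hj
      have h1 := p2 j hj
      have h2 := (rng (k0 + j) (by omega) (by omega)).1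
      rw [h1, e2, Complex.add_re, Complex.add_re] at h2
      linarith
    · have h1 := congrArg Complex.re e2
      rw [Complex.add_re] at h1
      linarith
  · refine ⟨saw_sl hs b2 (by omega), by omega, ?_, ?_, ?_⟩
    · have := p1 1 (by omega)
      rw [b3] at this
      exact (add_left_cancel this).symm
    · intro j hj hjm hn
      have h1 := p1 j hjm
      have h2 := b5 (k1 + j) (by omega) (by omega) (by
        rw [h1]
        calc ‖pos s k1 + pos (sl s k1 (n - k1)) j - (pos s k1 + 1 / 2)‖ = ‖pos (sl s k1 (n - k1)) j - 1 / 2‖ := by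
              congr 1; ring
          _ ≤ ρ1 := hn)
      rw [h1, Complex.add_re] at h2
      linarith
    · intro j hj hc hd
      obtain ⟨q1, q2, q3, q4, q5⟩ := hc
      obtain ⟨i, hi⟩ : ∃ i, i = k1 + j := ⟨_, rfl⟩
      have e1 : pos s i = pos s k1 + pos (sl s k1 (n - k1)) j := by rw [hi]; exact p1 j (by omega)
      have e2 : pos s (i + 1) = pos s k1 + pos (sl s k1 (n - k1)) (j + 1) := by
        rw [hi, add_assoc]; exact p1 (j + 1) (by omega)
      have hedge : pos s (i + 1) = pos s i + 1 := by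
        rw [e2, e1, q3]; ring
      have hv : pos (sl s k1 (n - k1)) j = pos s i - pos s k1 := by rw [e1]; ring
      rw [hv] at hd q4 q5 ⊢
      have hik : ‖pos s i - pos s k‖ ≤ qq + b := by
        calc ‖pos s i - pos s k‖ = ‖(pos s i - pos s k1) + (pos s k1 - pos s k)‖ := by ring_nf
          _ ≤ ‖pos s i - pos s k1‖ + ‖pos s k1 - pos s k‖ := norm_add_le _ _
          _ ≤ qq + b := by linarith [nhk.1]
      have hre1 : (pos s k1).re + 1 ≤ (pos s i).re := by
        refine b5 i (by omega) (by omega) ?_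
        calc ‖pos s i - (pos s k1 + 1 / 2)‖ = ‖(pos s i - pos s k1) - 1 / 2‖ := by ring_nf
          _ ≤ ‖pos s i - pos s k1‖ + ‖(1 / 2 : ℂ)‖ := norm_sub_le _ _
          _ ≤ ρ1 := by rw [norm_half]; linarith
      have hWC : WC (ρ1) s i := by
        refine ⟨by omega, ?_, hedge, fun a ha hda => ?_, fun a ha han hda => ?_⟩
        · rw [hi, Nat.even_add]
          simp [b2, q2]
        · rcases le_or_gt a k1 with h1 | h1
          · rcases le_or_gt a k with h2 | h2
            · have h4 := c4 a h2 (by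
                calc ‖pos s a - (pos s k + 1 / 2)‖ = ‖(pos s a - (pos s i + 1 / 2)) + (pos s i - pos s k)‖ := by
                      congr 1; ring
                  _ ≤ ‖pos s a - (pos s i + 1 / 2)‖ + ‖pos s i - pos s k‖ := norm_add_le _ _
                  _ ≤ ρ := by linarith)
              linarith [nhk.2.1]
            · have h3 := (nh a h2.le h1).2.2
              linarith
          · obtain ⟨l, rfl⟩ : ∃ l, a = k1 + l := ⟨a - k1, by omega⟩
            have h1' := p1 l (by omega)
            have h2 := q4 l (by omega) (by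
              calc ‖pos (sl s k1 (n - k1)) l - (pos s i - pos s k1 + 1 / 2)‖ = ‖pos s (k1 + l) - (pos s i + 1 / 2)‖ := by
                    rw [h1']; congr 1; ring
                _ ≤ ρ1 := hda)
            rw [Complex.sub_re] at h2
            rw [h1', Complex.add_re]
            linarith
        · obtain ⟨l, rfl⟩ : ∃ l, a = k1 + l := ⟨a - k1, by omega⟩
          have h1' := p1 l (by omega)
          have h2 := q5 l (by omega) (by omega) (by
            calc ‖pos (sl s k1 (n - k1)) l - (pos s i - pos s k1 + 1 / 2)‖ = ‖pos s (k1 + l) - (pos s i + 1 / 2)‖ := by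
                  rw [h1']; congr 1; ring
              _ ≤ ρ1 := hda)
          rw [Complex.sub_re] at h2
          rw [h1', Complex.add_re]
          linarith
      have h1 := m1 i (by omega) hWC (by linarith)
      rw [abs_of_nonneg (by linarith [nhk.2.1])] at h1
      rw [Complex.sub_re]
      linarith

end Pool.Agent.CRT.R.G
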