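import Pool.Agent.CRT.BadW
import Pool.Agent.CRT.PinF
import Pool.Agent.TIP.DefsS
import Pool.Agent.NPR.Defs

/-!
# CRT, row 11A (helper28): `VBadA` from `VSl`, over the statements of `red_msum` (helper42) and `size_sc` (helper16)
-/

set_option autoImplicit false

namespace Pool.Agent.CRT.V

open Finset

open HexObs hiding pos sw

open HexObs.SDN HexObs.NTW HexObs.NTA HexObs.NPR HexObs.CRT

open Pool.Agent.NTS.Res

open scoped ENNReal

/-- the statement of `red_msum` -/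
def RedS : Prop := ∀ x1 x2 ε : ℝ, 0 < x1 → x1 < x2 → 0 < ε → ∃ (q k0 : ℕ) (e0 : ℝ), 0 < e0 ∧
    ∀ k N : ℕ, k0 ≤ k → TIP.Sc k N → ∀ (B : ∀ n : ℕ, (Fin n → Fin 3) → Prop) (P : Set (List Bool)),
      (∀ (n : ℕ) (s : Fin n → Fin 3), x1 * N ≤ n → (n : ℝ) ≤ x2 * N → B n s →
        (∃ i, i ≤ n ∧ 2 ≤ |2 * (pos s i).re|) ∧
        ∀ (p : ℕ) (t : List Bool) (σ c : ℤ), (σ = 1 ∨ σ = -1) → p + t.length = n → t ∈ WL (k + q) →
          (∀ j, j ≤ t.length → 2 * (pos s (p + j)).re = ((c + σ * lev t j : ℤ) : ℝ)) →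
          (∀ i, i ≤ p → |2 * (pos s i).re| ≤ 1) → t ∈ P) →
      gf {t | t ∈ WL (k + q) ∧ t ∈ P} ≤ ENNReal.ofReal e0 * FK (k + q) → msum B x1 x2 N ≤ ε * N

/-- the statement of `size_sc` -/
def SizS : Prop := ∀ x1 x2 : ℝ, 0 < x1 → x1 < x2 → ∃ (c C : ℝ) (k0 : ℕ), 0 < c ∧ 0 < C ∧
  ∀ k N : ℕ, k0 ≤ k → TIP.Sc k N → ∀ n : ℕ, x1 * N ≤ n → (n : ℝ) ≤ x2 * N →
    1 ≤ n ∧ c * 2 ^ k ≤ size n ∧ size n ≤ C * 2 ^ k

/-- the statement of `sc_ex` -/
def ScxS : Prop := ∀ (k1 n : ℕ), PW.mZ (2 ^ k1) ≤ n → ∃ k, k1 ≤ k ∧ TIP.Sc k n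

open Classical in
/-- a sum of probabilities, up to events which are small for every number of steps -/
lemma msum_or {B B1 B2 : ∀ n : ℕ, (Fin n → Fin 3) → Prop} (hB : ∀ n s, B n s → B1 n s ∨ B2 n s) {x1 x2 δ : ℝ} {N n0 : ℕ}
    (hx2 : 0 < x2) (hN : 1 ≤ N) (h0 : (n0 : ℝ) ≤ x1 * N)
    (h : ∀ n : ℕ, n0 ≤ n → (((saw n).filter fun s => B2 n s).card : ℝ) ≤ δ * ((saw n).card : ℝ)) (hδ : 0 ≤ δ) :
    msum B x1 x2 N ≤ msum B1 x1 x2 N + δ * ((x2 + 1) * N) := by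
  unfold msum
  obtain ⟨W, hW⟩ : ∃ W : Finset ℕ, W = (Finset.range (⌊x2 * N⌋₊ + 1)).filter (fun n : ℕ => x1 * N ≤ n) := ⟨_, rfl⟩
  rw [← hW]
  have hc : (W.card : ℝ) ≤ (x2 + 1) * N := by
    have h3 : W.card ≤ ⌊x2 * (N : ℝ)⌋₊ + 1 := by
      rw [hW]
      exact (card_filter_le _ _).trans (card_range _).le
    have h4 : ((⌊x2 * (N : ℝ)⌋₊ : ℕ) : ℝ) ≤ x2 * N := Nat.floor_le (by positivity)
    have h5 : (W.card : ℝ) ≤ (⌊x2 * (N : ℝ)⌋₊ : ℕ) + 1 := by exact_mod_cast h3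
    have h6 : (1 : ℝ) ≤ N := by exact_mod_cast hN
    linarith
  have hterm : ∀ n ∈ W, (((saw n).filter fun s => B n s).card : ℝ) / ((saw n).card : ℝ) ≤
      (((saw n).filter fun s => B1 n s).card : ℝ) / ((saw n).card : ℝ) + δ := by
    intro n hn
    rw [hW, mem_filter] at hn
    have h1 : n0 ≤ n := by
      have : (n0 : ℝ) ≤ n := h0.trans hn.2
      exact_mod_cast this
    have h2 : (0 : ℝ) < ((saw n).card : ℝ) := by exact_mod_cast (NTSF.saw_nonempty n).card_pos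
    have h3 : ((saw n).filter fun s => B n s).card ≤ ((saw n).filter fun s => B1 n s).card +
        ((saw n).filter fun s => B2 n s).card := by
      refine (Finset.card_le_card ?_).trans (Finset.card_union_le _ _)
      intro s hs
      rw [mem_filter] at hs
      rw [mem_union, mem_filter, mem_filter]
      rcases hB n s hs.2 with h4 | h4
      · exact Or.inl ⟨hs.1, h4⟩
      · exact Or.inr ⟨hs.1, h4⟩
    have h4 : (((saw n).filter fun s => B n s).card : ℝ) ≤ (((saw n).filter fun s => B1 n s).card : ℝ) +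
        (((saw n).filter fun s => B2 n s).card : ℝ) := by exact_mod_cast h3
    have h5 := h n h1
    rw [div_add' _ _ _ h2.ne']
    exact div_le_div_of_nonneg_right (by linarith) h2.le
  refine (Finset.sum_le_sum hterm).trans ?_
  rw [Finset.sum_add_distrib, Finset.sum_const, nsmul_eq_mul]
  have := mul_le_mul_of_nonneg_right hc hδ
  linarith

/-- **near every simple pinch with an outer margin there is a real cut** -/
theorem vBadA_of' (hR : RedS) (hZ : SizS) (hX : ScxS) (hS : VSl) : VBadA := by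
  intro ε x1 x2 hε hx1 hx12
  have hx2 : 0 < x2 := hx1.trans hx12
  obtain ⟨δ, hδ⟩ : ∃ δ : ℝ, δ = min ε (ε / (2 * (x2 + 1))) := ⟨_, rfl⟩
  have hδ0 : 0 < δ := by
    rw [hδ]
    exact lt_min hε (by positivity)
  have hδ1 : δ ≤ ε := by
    rw [hδ]
    exact min_le_left _ _
  have hδ2 : δ * (x2 + 1) ≤ ε / 2 := by
    have h1 : δ ≤ ε / (2 * (x2 + 1)) := by
      rw [hδ]
      exact min_le_right _ _
    calc δ * (x2 + 1) ≤ ε / (2 * (x2 + 1)) * (x2 + 1) := mul_le_mul_of_nonneg_right h1 (by positivity)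
      _ = ε / 2 := by field_simp
  obtain ⟨τ, hτ, n0, hsl⟩ := hS δ hδ0
  obtain ⟨q, ka, e0, he0, hred⟩ := hR x1 x2 (ε / 2) hx1 hx12 (by positivity)
  obtain ⟨c, C, kb, hc, hC, hsz⟩ := hZ x1 x2 hx1 hx12
  obtain ⟨θ, hθ⟩ : ∃ θ : ℝ, θ = min ε τ := ⟨_, rfl⟩
  have hθ0 : 0 < θ := by
    rw [hθ]
    exact lt_min hε hτ
  have hθ1 : θ ≤ ε := by
    rw [hθ]
    exact min_le_left _ _
  have hθ2 : θ ≤ τ := by
    rw [hθ]
    exact min_le_right _ _
  obtain ⟨J1, hJ1⟩ : ∃ J1 : ℕ, 100 / (θ * c) < (2 : ℝ) ^ J1 := pow_unbounded_of_one_lt _ (by norm_num)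
  rw [div_lt_iff₀ (by positivity)] at hJ1
  refine ⟨1 / (C * 2 ^ (J1 + 6)), by positivity, fun E m hm hmE hE => ?_⟩
  obtain ⟨J2, hJ2, hJ2'⟩ : ∃ J2 : ℕ, 2 ≤ J2 ∧ 12 ≤ (2 : ℝ) ^ J2 * (m * c) := by
    obtain ⟨j, hj⟩ : ∃ j : ℕ, 12 / (m * c) < (2 : ℝ) ^ j := pow_unbounded_of_one_lt _ (by norm_num)
    rw [div_lt_iff₀ (by positivity)] at hj
    refine ⟨j + 2, by omega, ?_⟩
    have h1 : (2 : ℝ) ^ j ≤ 2 ^ (j + 2) := pow_le_pow_right₀ (by norm_num) (by omega)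
    have h2 : 0 < m * c := by positivity
    nlinarith
  obtain ⟨J3, hJ23, hpin⟩ := pinG (J := q + (J1 + 6)) (by omega) J2 he0
  obtain ⟨kd, hkd, hpin⟩ := hpin J3 le_rfl
  refine ⟨1 / (8 * C * 2 ^ (J1 + 6) * 2 ^ J3), by positivity, fun h w hh hhw hw => ?_⟩
  obtain ⟨A, hA⟩ : ∃ A : ℕ, 5 / (m * c) + 2 / (h * c) < (2 : ℝ) ^ A := pow_unbounded_of_one_lt _ (by norm_num)
  have hmc : 0 < m * c := by positivity
  have hhc : 0 < h * c := by positivity
  have hA1 : 5 ≤ (2 : ℝ) ^ A * (m * c) := by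
    have h1 : 0 < 2 / (h * c) := by positivity
    have h2 : 5 / (m * c) < (2 : ℝ) ^ A := by linarith
    rw [div_lt_iff₀ hmc] at h2
    exact h2.le
  have hA2 : 2 ≤ (2 : ℝ) ^ A * (h * c) := by
    have h1 : 0 < 5 / (m * c) := by positivity
    have h2 : 2 / (h * c) < (2 : ℝ) ^ A := by linarith
    rw [div_lt_iff₀ hhc] at h2
    exact h2.le
  obtain ⟨k1, hk1⟩ : ∃ k1, k1 = ka + kb + kd + J1 + 6 + J3 + 4 + A + J2 := ⟨_, rfl⟩
  obtain ⟨N0, hN0⟩ := exists_nat_ge (|PW.mZ (2 ^ k1)| + n0 / x1 + 1)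
  refine ⟨N0, fun N hN => ?_⟩
  have hNr : |PW.mZ (2 ^ k1)| + n0 / x1 + 1 ≤ N := hN0.trans (by exact_mod_cast hN)
  have hq1 : 0 ≤ |PW.mZ (2 ^ k1)| := abs_nonneg _
  have hq2 : 0 ≤ (n0 : ℝ) / x1 := by positivity
  have hN1 : 1 ≤ N := by
    have : (1 : ℝ) ≤ N := by linarith
    exact_mod_cast this
  have hN2 : (n0 : ℝ) ≤ x1 * N := by
    have h1 : (n0 : ℝ) / x1 ≤ N := by linarith
    rwa [div_le_iff₀ hx1, mul_comm] at h1
  have hN3 : PW.mZ (2 ^ k1) ≤ N := (le_abs_self _).trans (by linarith)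
  obtain ⟨k, hk, hsc⟩ := hX k1 N hN3
  obtain ⟨kc, hkc⟩ : ∃ kc, k = kc + (J1 + 6) := ⟨k - (J1 + 6), by omega⟩
  have hKJ : k + q = kc + (q + (J1 + 6)) := by omega
  have hmain : msum (fun n s => BadM ε E m h w n s ∧ NSl ε τ n s) x1 x2 N ≤ ε / 2 * N := by
    refine hred k N (by omega) hsc _
      (HexObs.SIM.LeafIn kc (q + (J1 + 6)) (CutJ.PnL (2 ^ (kc + 4)) (2 ^ (kc + (q + (J1 + 6)) + 3)) (2 ^ (kc + 1)) (kc - J3)
        (kc - J2))) ?_ ?_
    · rintro n s hn1 hn2 ⟨hb, hns⟩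
      obtain ⟨-, s1, s2⟩ := hsz k N (by omega) hsc n hn1 hn2
      rw [hKJ]
      obtain ⟨S, hSS⟩ : ∃ S : ℝ, S = size n := ⟨_, rfl⟩
      obtain ⟨P, hP⟩ : ∃ P : ℝ, P = 2 ^ kc := ⟨_, rfl⟩
      obtain ⟨G, hG⟩ : ∃ G : ℝ, G = 2 ^ (J1 + 6) := ⟨_, rfl⟩
      have hP0 : 0 < P := by rw [hP]; positivity
      have hG0 : 0 < G := by rw [hG]; positivity
      have hG1 : (1 : ℝ) ≤ G := by rw [hG]; exact one_le_pow₀ (by norm_num)
      have hG2 : (2 : ℝ) ^ J1 ≤ G := by rw [hG]; exact pow_le_pow_right₀ (by norm_num) (by omega)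
      have hkPG : (2 : ℝ) ^ k = P * G := by rw [hkc, hP, hG, pow_add]
      rw [hkPG, ← hSS] at s1 s2
      have hS0 : 0 < S := lt_of_lt_of_le (by positivity) s1
      have hPk : (2 : ℝ) ^ A ≤ P * G := by
        rw [← hkPG]
        exact pow_le_pow_right₀ (by norm_num) (by omega)
      have hθS : 100 * P ≤ θ * S := by
        calc 100 * P ≤ (2 ^ J1 * (θ * c)) * P := mul_le_mul_of_nonneg_right hJ1.le hP0.le
          _ ≤ (G * (θ * c)) * P := by gcongr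
          _ = θ * (c * (P * G)) := by ring
          _ ≤ θ * S := mul_le_mul_of_nonneg_left s1 hθ0.le
      have hmS : m * c * (P * G) ≤ m * S := by
        rw [mul_assoc]
        exact mul_le_mul_of_nonneg_left s1 hm.le
      refine bad_word hb hns hJ2 hJ23 (by omega) ?_ ?_ ?_ ?_ ?_ ?_
      · rw [← hSS, ← hP]
        exact hθS.trans (mul_le_mul_of_nonneg_right hθ1 hS0.le)
      · rw [← hSS, ← hP]
        exact hθS.trans (mul_le_mul_of_nonneg_right hθ2 hS0.le)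
      · rw [← hSS, ← hP]
        rw [← hG] at hE
        calc E * S ≤ 1 / (C * G) * (C * (P * G)) := mul_le_mul hE s2 hS0.le (by positivity)
          _ = P := by field_simp
      · rw [← hSS]
        have e1 : (2 : ℝ) ^ (kc - J2 + 2) = 4 * 2 ^ (kc - J2) := by rw [pow_add]; ring
        have e2 : (2 : ℝ) ^ (kc - J2) * 2 ^ J2 = P := by
          rw [hP, ← pow_add]
          congr 1
          omega
        have e3 : 12 * (2 : ℝ) ^ (kc - J2) ≤ m * S := by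
          calc 12 * (2 : ℝ) ^ (kc - J2) ≤ (2 ^ J2 * (m * c)) * 2 ^ (kc - J2) :=
                mul_le_mul_of_nonneg_right hJ2' (by positivity)
            _ = m * c * (P * 1) := by rw [← e2]; ring
            _ ≤ m * c * (P * G) := by gcongr
            _ ≤ m * S := hmS
        have e4 : 5 ≤ m * S := by
          calc (5 : ℝ) ≤ 2 ^ A * (m * c) := hA1
            _ ≤ (P * G) * (m * c) := mul_le_mul_of_nonneg_right hPk hmc.le
            _ = m * c * (P * G) := by ring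
            _ ≤ m * S := hmS
        rw [e1]
        linarith
      · rw [← hSS]
        calc (2 : ℝ) ≤ 2 ^ A * (h * c) := hA2
          _ ≤ (P * G) * (h * c) := mul_le_mul_of_nonneg_right hPk hhc.le
          _ = h * (c * (P * G)) := by ring
          _ ≤ h * S := mul_le_mul_of_nonneg_left s1 hh.le
      · rw [← hSS]
        rw [← hG] at hw
        have e2 : (2 : ℝ) ^ (kc - J3) * 2 ^ J3 = P := by
          rw [hP, ← pow_add]
          congr 1
          omega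
        have e3 : w * S ≤ (2 : ℝ) ^ (kc - J3) / 8 := by
          calc w * S ≤ 1 / (8 * C * G * 2 ^ J3) * (C * (P * G)) := mul_le_mul hw s2 hS0.le (by positivity)
            _ = (2 : ℝ) ^ (kc - J3) / 8 := by
                rw [← e2]
                field_simp
        have e4 : (2 : ℝ) ^ 4 ≤ 2 ^ (kc - J3) := pow_le_pow_right₀ (by norm_num) (by omega)
        linarith
    · refine (gf_mono fun t ht => ht.2).trans ?_
      rw [hKJ]
      unfold FK
      rw [← mul_assoc, ← ENNReal.ofReal_mul he0.le]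
      exact hpin kc (by omega)
  refine (msum_or (B1 := fun n s => BadM ε E m h w n s ∧ NSl ε τ n s) (B2 := fun n s => ∃ i j : ℕ, i ≤ j ∧ j ≤ n ∧
    δ * n ≤ (j : ℝ) - i ∧ ∀ l : ℕ, i ≤ l → l ≤ j → |(pos s l).re - (pos s i).re| ≤ τ * size n) (δ := δ) (n0 := n0)
    (fun n s hb => ?_) hx2 hN1 hN2 (fun n hn => hsl n hn) hδ0.le).trans ?_
  · by_cases h1 : NSl ε τ n s
    · exact Or.inl ⟨hb, h1⟩
    · right
      unfold NSl at h1
      push Not at h1
      obtain ⟨i, i1, i2, i3⟩ := h1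
      refine ⟨i, n, i1, le_rfl, ?_, fun l l1 l2 => i3 l l1 l2⟩
      have h2 : δ * (n : ℝ) ≤ ε * n := mul_le_mul_of_nonneg_right hδ1 (Nat.cast_nonneg n)
      linarith
  · have h1 : δ * ((x2 + 1) * N) ≤ ε / 2 * N := by
      calc δ * ((x2 + 1) * N) = δ * (x2 + 1) * N := by ring
        _ ≤ ε / 2 * N := mul_le_mul_of_nonneg_right hδ2 (Nat.cast_nonneg N)
    linarith

end Pool.Agent.CRT.V

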