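import Pool.Agent.CRT.RBadW
import Pool.Agent.CRT.VBadO

/-!
# Scale flow (R), K-row, VBadW (helper59, after helper28's VBadO): near every window pinch with a margin there is a window cut

The unit is `S = size N`, absolute for all `n` in `[x1 N, x2 N]`.

* `VBadW`, **`vBadW_of`** (the row SLAB is helper16's `vSlb`).
-/

set_option autoImplicit false

namespace Pool.Agent.CRT.R

open Finset

open HexObs hiding pos sw

open HexObs.SDN HexObs.NTW HexObs.NTA HexObs.NPR HexObs.CRT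

open Pool.Agent.NTS.Res
open Pool.Agent.CRT.V (msum RedS SizS ScxS)

open scoped ENNReal

/-- **VBadW**: in the mean there is a window cut near every window pinch with a margin, `S = size N` -/
def VBadW : Prop := ∀ ε r b x1 x2 : ℝ, 0 < ε → 0 < b → 16 * b ≤ r → 0 < x1 → x1 < x2 → ∃ E0 : ℝ, 0 < E0 ∧
  ∀ E m : ℝ, 0 < m → m ≤ E → E ≤ E0 → ∃ w0 : ℝ, 0 < w0 ∧ ∀ h w : ℝ, 0 < h → h ≤ w → w ≤ w0 → ∃ N0 : ℕ, ∀ N : ℕ, N0 ≤ N →
    msum (fun _ s => BadW (r * size N) (b * size N) (E * size N) (m * size N) (h * size N) (w * size N) s) x1 x2 N ≤ ε * N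

open Classical in
/-- a sum of probabilities, union of two events -/
lemma msum_add' {B B1 B2 : ∀ n : ℕ, (Fin n → Fin 3) → Prop} (hB : ∀ n s, B n s → B1 n s ∨ B2 n s) (x1 x2 : ℝ) (N : ℕ) :
    msum B x1 x2 N ≤ msum B1 x1 x2 N + msum B2 x1 x2 N := by
  unfold msum
  rw [← Finset.sum_add_distrib]
  refine Finset.sum_le_sum fun n _ => ?_
  have h2 : (0 : ℝ) < ((saw n).card : ℝ) := by exact_mod_cast (NTSF.saw_nonempty n).card_pos
  have h3 : ((saw n).filter fun s => B n s).card ≤ ((saw n).filter fun s => B1 n s).card +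
      ((saw n).filter fun s => B2 n s).card := by
    refine (Finset.card_le_card ?_).trans (Finset.card_union_le _ _)
    intro s hs
    rw [mem_filter] at hs
    rw [mem_union, mem_filter, mem_filter]
    rcases hB n s hs.2 with h4 | h4
    · exact Or.inl ⟨hs.1, h4⟩
    · exact Or.inr ⟨hs.1, h4⟩
  have h4 : (((saw n).filter fun s => B n s).card : ℝ) ≤ (((saw n).filter fun s => B1 n s).card : ℝ) +
      (((saw n).filter fun s => B2 n s).card : ℝ) := by exact_mod_cast h3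
  rw [← add_div]
  exact div_le_div_of_nonneg_right h4 h2.le

/-- **near every window pinch with a margin there is a window cut** -/
theorem vBadW_of (hR : RedS) (hZ : SizS) (hX : ScxS) (hS : ∀ ε b x1 x2 : ℝ, 0 < ε → 0 < b → 0 < x1 → x1 < x2 →
    ∃ τ : ℝ, 0 < τ ∧ ∃ N0 : ℕ, ∀ N : ℕ, N0 ≤ N → msum (fun _ s => SlbW (b * size N) (τ * size N) s) x1 x2 N ≤ ε * N) : VBadW := by
  intro ε r b x1 x2 hε hb hbr hx1 hx12
  have hx2 : 0 < x2 := hx1.trans hx12
  obtain ⟨τ, hτ, n0, hsl⟩ := hS (ε / 2) b x1 x2 (by positivity) hb hx1 hx12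
  obtain ⟨q, ka, e0, he0, hred⟩ := hR x1 x2 (ε / 2) hx1 hx12 (by positivity)
  have hx1m : 0 < min x1 1 := lt_min hx1 one_pos
  have hx12m : min x1 1 < max x2 1 := lt_of_le_of_lt (min_le_left _ _) (lt_of_lt_of_le hx12 (le_max_left _ _))
  obtain ⟨c, C, kb, hc, hC, hsz⟩ := hZ (min x1 1) (max x2 1) hx1m hx12m
  obtain ⟨J1, hJ1⟩ : ∃ J1 : ℕ, 200 / (τ * c) < (2 : ℝ) ^ J1 := pow_unbounded_of_one_lt _ (by norm_num)
  rw [div_lt_iff₀ (by positivity)] at hJ1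
  refine ⟨1 / (C * 2 ^ (J1 + 6)), by positivity, fun E m hm hmE hE => ?_⟩
  obtain ⟨J2, hJ2, hJ2'⟩ : ∃ J2 : ℕ, 2 ≤ J2 ∧ 12 ≤ (2 : ℝ) ^ J2 * (m * c) := by
    obtain ⟨j, hj⟩ : ∃ j : ℕ, 12 / (m * c) < (2 : ℝ) ^ j := pow_unbounded_of_one_lt _ (by norm_num)
    rw [div_lt_iff₀ (by positivity)] at hj
    refine ⟨j + 2, by omega, ?_⟩
    have h1 : (2 : ℝ) ^ j ≤ 2 ^ (j + 2) := pow_le_pow_right₀ (by norm_num) (by omega)
    have h2 : 0 < m * c := by positivity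
    nlinarith
  obtain ⟨J3, hJ23, hpin⟩ := pinG (J := q + (J1 + 6)) (by omega) J2 he0
  obtain ⟨kd, hkd, hpin⟩ := hpin J3 le_rfl
  refine ⟨1 / (8 * C * 2 ^ (J1 + 6) * 2 ^ J3), by positivity, fun h w hh hhw hw => ?_⟩
  obtain ⟨A, hA⟩ : ∃ A : ℕ, 5 / (m * c) + 2 / (h * c) + 2 / (b * c) < (2 : ℝ) ^ A := pow_unbounded_of_one_lt _ (by norm_num)
  have hmc : 0 < m * c := by positivity
  have hhc : 0 < h * c := by positivity
  have hbc : 0 < b * c := by positivity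
  have hq5 : 0 < 5 / (m * c) := by positivity
  have hq6 : 0 < 2 / (h * c) := by positivity
  have hq7 : 0 < 2 / (b * c) := by positivity
  have hA1 : 5 ≤ (2 : ℝ) ^ A * (m * c) := by
    have h2 : 5 / (m * c) < (2 : ℝ) ^ A := by linarith
    rw [div_lt_iff₀ hmc] at h2
    exact h2.le
  have hA2 : 2 ≤ (2 : ℝ) ^ A * (h * c) := by
    have h2 : 2 / (h * c) < (2 : ℝ) ^ A := by linarith
    rw [div_lt_iff₀ hhc] at h2
    exact h2.le
  have hA3 : 2 ≤ (2 : ℝ) ^ A * (b * c) := by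
    have h2 : 2 / (b * c) < (2 : ℝ) ^ A := by linarith
    rw [div_lt_iff₀ hbc] at h2
    exact h2.le
  obtain ⟨k1, hk1⟩ : ∃ k1, k1 = ka + kb + kd + J1 + 6 + J3 + 4 + A + J2 := ⟨_, rfl⟩
  obtain ⟨N0, hN0⟩ := exists_nat_ge (|PW.mZ (2 ^ k1)| + n0 + 1)
  refine ⟨N0, fun N hN => ?_⟩
  have hNr : |PW.mZ (2 ^ k1)| + n0 + 1 ≤ N := hN0.trans (by exact_mod_cast hN)
  have hq1 : 0 ≤ |PW.mZ (2 ^ k1)| := abs_nonneg _
  have hq2 : 0 ≤ (n0 : ℝ) := Nat.cast_nonneg _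
  have hN2 : n0 ≤ N := by
    have : (n0 : ℝ) ≤ N := by linarith
    exact_mod_cast this
  have hN3 : PW.mZ (2 ^ k1) ≤ N := (le_abs_self _).trans (by linarith)
  obtain ⟨k, hk, hsc⟩ := hX k1 N hN3
  obtain ⟨kc, hkc⟩ : ∃ kc, k = kc + (J1 + 6) := ⟨k - (J1 + 6), by omega⟩
  have hKJ : k + q = kc + (q + (J1 + 6)) := by omega
  obtain ⟨-, s1, s2⟩ := hsz k N (by omega) hsc N
    (by
      have h1 : min x1 1 ≤ 1 := min_le_right _ _
      nlinarith [Nat.cast_nonneg (α := ℝ) N])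
    (by
      have h1 : 1 ≤ max x2 1 := le_max_right _ _
      nlinarith [Nat.cast_nonneg (α := ℝ) N])
  obtain ⟨S, hSS⟩ : ∃ S : ℝ, S = size N := ⟨_, rfl⟩
  have hsl' := hsl N hN2
  rw [← hSS] at s1 s2 hsl' ⊢
  obtain ⟨P, hP⟩ : ∃ P : ℝ, P = 2 ^ kc := ⟨_, rfl⟩
  obtain ⟨G, hG⟩ : ∃ G : ℝ, G = 2 ^ (J1 + 6) := ⟨_, rfl⟩
  have hP0 : 0 < P := by rw [hP]; positivity
  have hG0 : 0 < G := by rw [hG]; positivity
  have hG1 : (1 : ℝ) ≤ G := by rw [hG]; exact one_le_pow₀ (by norm_num)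
  have hG2 : (2 : ℝ) ^ J1 ≤ G := by rw [hG]; exact pow_le_pow_right₀ (by norm_num) (by omega)
  have hkPG : (2 : ℝ) ^ k = P * G := by rw [hkc, hP, hG, pow_add]
  rw [hkPG] at s1 s2
  have hS0 : 0 < S := lt_of_lt_of_le (by positivity) s1
  have hPk : (2 : ℝ) ^ A ≤ P * G := by
    rw [← hkPG]
    exact pow_le_pow_right₀ (by norm_num) (by omega)
  have hmS : m * c * (P * G) ≤ m * S := by
    rw [mul_assoc]
    exact mul_le_mul_of_nonneg_left s1 hm.le
  -- the constants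
  have gb : 2 ≤ b * S := by
    calc (2 : ℝ) ≤ 2 ^ A * (b * c) := hA3
      _ ≤ (P * G) * (b * c) := mul_le_mul_of_nonneg_right hPk hbc.le
      _ = b * (c * (P * G)) := by ring
      _ ≤ b * S := mul_le_mul_of_nonneg_left s1 hb.le
  have gr : 16 * (b * S) ≤ r * S := by
    rw [← mul_assoc]
    exact mul_le_mul_of_nonneg_right hbr hS0.le
  have g2 : 200 * P ≤ τ * S := by
    calc 200 * P ≤ (2 ^ J1 * (τ * c)) * P := mul_le_mul_of_nonneg_right hJ1.le hP0.le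
      _ ≤ (G * (τ * c)) * P := by gcongr
      _ = τ * (c * (P * G)) := by ring
      _ ≤ τ * S := mul_le_mul_of_nonneg_left s1 hτ.le
  have g3 : E * S ≤ P := by
    rw [← hG] at hE
    calc E * S ≤ 1 / (C * G) * (C * (P * G)) := mul_le_mul hE s2 hS0.le (by positivity)
      _ = P := by field_simp
  have g4 : 3 * (2 : ℝ) ^ (kc - J2 + 2) + 5 ≤ 2 * (m * S) := by
    have e1 : (2 : ℝ) ^ (kc - J2 + 2) = 4 * 2 ^ (kc - J2) := by rw [pow_add]; ring
    have e2 : (2 : ℝ) ^ (kc - J2) * 2 ^ J2 = P := by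
      rw [hP, ← pow_add]
      congr 1
      omega
    have e3 : 12 * (2 : ℝ) ^ (kc - J2) ≤ m * S := by
      calc 12 * (2 : ℝ) ^ (kc - J2) ≤ (2 ^ J2 * (m * c)) * 2 ^ (kc - J2) :=
            mul_le_mul_of_nonneg_right hJ2' (by positivity)
        _ = m * c * (P * 1) := by rw [← e2]; ring
        _ ≤ m * c * (P * G) := by gcongr
        _ ≤ m * S := hmS
    have e4 : 5 ≤ m * S := by
      calc (5 : ℝ) ≤ 2 ^ A * (m * c) := hA1
        _ ≤ (P * G) * (m * c) := mul_le_mul_of_nonneg_right hPk hmc.le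
        _ = m * c * (P * G) := by ring
        _ ≤ m * S := hmS
    rw [e1]
    linarith
  have g5 : 2 ≤ h * S := by
    calc (2 : ℝ) ≤ 2 ^ A * (h * c) := hA2
      _ ≤ (P * G) * (h * c) := mul_le_mul_of_nonneg_right hPk hhc.le
      _ = h * (c * (P * G)) := by ring
      _ ≤ h * S := mul_le_mul_of_nonneg_left s1 hh.le
  have g6 : 4 * (w * S) + 8 ≤ (2 : ℝ) ^ (kc - J3) := by
    rw [← hG] at hw
    have e2 : (2 : ℝ) ^ (kc - J3) * 2 ^ J3 = P := by
      rw [hP, ← pow_add]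
      congr 1
      omega
    have e3 : w * S ≤ (2 : ℝ) ^ (kc - J3) / 8 := by
      calc w * S ≤ 1 / (8 * C * G * 2 ^ J3) * (C * (P * G)) := mul_le_mul hw s2 hS0.le (by positivity)
        _ = (2 : ℝ) ^ (kc - J3) / 8 := by
            rw [← e2]
            field_simp
    have e4 : (2 : ℝ) ^ 4 ≤ 2 ^ (kc - J3) := pow_le_pow_right₀ (by norm_num) (by omega)
    linarith
  rw [hP] at g2 g3
  have hmain : msum (fun _ s => BadW (r * S) (b * S) (E * S) (m * S) (h * S) (w * S) s ∧ ¬ SlbW (b * S) (τ * S) s) x1 x2 N ≤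
      ε / 2 * N := by
    refine hred k N (by omega) hsc _
      (HexObs.SIM.LeafIn kc (q + (J1 + 6)) (CutJ.PnL (2 ^ (kc + 4)) (2 ^ (kc + (q + (J1 + 6)) + 3)) (2 ^ (kc + 1)) (kc - J3)
        (kc - J2))) ?_ ?_
    · rintro n s hn1 hn2 ⟨hbad, hns⟩
      rw [hKJ]
      exact bad_wordW hbad hns gb gr hJ2 hJ23 (by omega) g2 g3 g4 g5 g6
    · refine (gf_mono fun t ht => ht.2).trans ?_
      rw [hKJ]
      unfold FK
      rw [← mul_assoc, ← ENNReal.ofReal_mul he0.le]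
      exact hpin kc (by omega)
  refine (msum_add' (B1 := fun _ s => BadW (r * S) (b * S) (E * S) (m * S) (h * S) (w * S) s ∧ ¬ SlbW (b * S) (τ * S) s)
    (B2 := fun _ s => SlbW (b * S) (τ * S) s) (fun n s hbad => ?_) x1 x2 N).trans ?_
  · by_cases h1 : SlbW (b * S) (τ * S) s
    · exact Or.inr h1
    · exact Or.inl ⟨hbad, h1⟩
  · linarith

end Pool.Agent.CRT.R
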