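import Pool.Agent.CRT.Mass
import Pool.Agent.TIP.Nar
import Pool.Agent.TPC.XLow
import Pool.Agent.TPC.XUp
import Pool.Agent.GLow.Alpha

/-!
# Scale flow (R), row R2, word part (helper16): the half plane words of a ball

`VV b`: the half plane words (not empty) which stay in the ball of the radius `b`; **`vv_low`**: their critical mass is at
least `c b ^ (61 / 48)`.
-/

set_option autoImplicit false

namespace HexObs

namespace R2W

open Finset BAR TS SDN NTW NTA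

open NTF (JJ JJ_add)

open scoped ENNReal

/-- half plane words in a ball -/
def VV (b : ℝ) : Set (List Bool) := {V | V ≠ [] ∧ (∀ i j, i < j → j ≤ V.length → vx oo up V i ≠ vx oo up V j) ∧
  (∀ i, 1 ≤ i → i ≤ V.length → 0 < lev V i) ∧ ∀ i, i ≤ V.length → ‖JJ (vx oo up V i)‖ ≤ b}

lemma norm_of_row {R : ℤ} {v : Pt} (h : ∀ dir, |row dir v| ≤ R) : ‖JJ v‖ ≤ 3 * (R : ℝ) + 2 := by
  obtain ⟨dir, hd⟩ := NTF.exists_dir (norm_nonneg (JJ v)) le_rfl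
  refine hd.trans ?_
  exact_mod_cast LC.lvl_of_row (h dir)

/-- a bridge in front of a word without a cut, both in a box -/
lemma brd_NA {k s : ℕ} : gf {X | (∃ h, h ≤ 2 ^ k ∧ X ∈ Brd h) ∧ BX (2 ^ (k + s)) X} *
      gf {W | W ∈ BAR.NA (2 ^ k) ∧ BX (2 ^ (k + s)) W} ≤
    gf {w | w ∈ SSt (2 * 2 ^ k) ∧ ∀ i, i ≤ w.length → ‖JJ (vx oo up w i)‖ ≤ 2 * (3 * (2 : ℝ) ^ (k + s) + 2)} := by
  refine mul_le_gf (fun a ha b hb => ?_) ?_
  · obtain ⟨⟨h, hh, haB⟩, haX⟩ := ha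
    obtain ⟨hbN, hbX⟩ := hb
    refine ⟨SSt_mono (by omega) (SSt_cat haB hbN.1), fun i hi => ?_⟩
    have hR : ∀ (t : List Bool), BX (2 ^ (k + s)) t → ∀ i, i ≤ t.length → ‖JJ (vx oo up t i)‖ ≤ 3 * (2 : ℝ) ^ (k + s) + 2 := by
      intro t ht i hi
      have := norm_of_row (ht i hi)
      push_cast at this
      exact this
    have h0 : (0 : ℝ) ≤ 3 * (2 : ℝ) ^ (k + s) + 2 := by positivity
    rcases Nat.lt_or_ge a.length i with h1 | h1
    · obtain ⟨j, rfl⟩ : ∃ j, i = a.length + j := ⟨i - a.length, by omega⟩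
      rw [List.length_append] at hi
      rw [vx_cat (mem_Brd.1 haB).2.2.1, JJ_add]
      have e1 := hR a haX a.length le_rfl
      have e2 := hR b hbX j (by omega)
      refine (norm_add_le _ _).trans ?_
      linarith
    · rw [vx_append (by omega)]
      have e1 := hR a haX i h1
      linarith
  · rintro a ⟨⟨h, -, ha⟩, -⟩ b ⟨hb, -⟩ a' ⟨⟨h', -, ha'⟩, -⟩ b' ⟨hb', -⟩ e
    have key : ∀ {x y : ℕ} {a a' b b' : List Bool}, a ∈ Brd x → a' ∈ Brd y → b ∈ BAR.NA (2 ^ k) → b' ∈ BAR.NA (2 ^ k) →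
        x ≤ y → a ++ b = a' ++ b' → a = a' := by
      intro x y a a' b b' ha ha' hb hb' hxy e
      obtain ⟨v, hv, h2, h3⟩ := nested ha ha' (pos_SSt hb.1) (pos_SSt hb'.1) hxy e
      rcases Nat.eq_zero_or_pos (y - x) with h0 | h0
      · rw [h0, Brd_zero] at hv
        have h4 : v = [] := hv
        rw [h2, h4, List.append_nil]
      · exact absurd ⟨v, b', hv, pos_SSt hb'.1, h3⟩ (hb.2 (y - x) h0)
    rcases Nat.le_total h h' with hx | hx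
    · exact key ha ha' hb hb' hx e
    · exact (key ha' ha hb' hb hx e.symm).symm

/-- **the mass of the half plane words of a ball** -/
theorem vv_low : ∃ c b0 : ℝ, 0 < c ∧ 1 ≤ b0 ∧ ∀ b : ℝ, b0 ≤ b → ENNReal.ofReal (c * b ^ (61 / 48 : ℝ)) ≤ gf (VV b) := by
  obtain ⟨s1, hs1⟩ := brd_box
  obtain ⟨s2, c2, hc2, hs2⟩ := TIP.narrow
  obtain ⟨c3, hc3, hU⟩ := GLow.UU_low
  obtain ⟨c4, hc4, hX⟩ := TPC.xLow
  obtain ⟨s, hs⟩ : ∃ s, s = max s1 s2 := ⟨_, rfl⟩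
  -- the mass at the scale k
  have hmass : ∀ k : ℕ, ENNReal.ofReal (1 / 2 * c3 * c2 * Real.sqrt c4 * (2 : ℝ) ^ (61 / 48 * (k : ℝ))) ≤
      gf {w | w ∈ SSt (2 * 2 ^ k) ∧ ∀ i, i ≤ w.length → ‖JJ (vx oo up w i)‖ ≤ 2 * (3 * (2 : ℝ) ^ (k + s) + 2)} := by
    intro k
    have bmono : ∀ {a b : ℕ} {t : List Bool}, a ≤ b → BX (2 ^ (k + a)) t → BX (2 ^ (k + b)) t := by
      intro a b t hab h i hi dir
      exact (h i hi dir).trans (pow_le_pow_right₀ (by norm_num) (by omega))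
    have g1 : ENNReal.ofReal (1 / 2 * Ub k) ≤ gf {X | (∃ h, h ≤ 2 ^ k ∧ X ∈ Brd h) ∧ BX (2 ^ (k + s)) X} :=
      (hs1 k).trans (gf_mono fun X hX => ⟨hX.1, bmono (by rw [hs]; exact le_max_left _ _) hX.2⟩)
    have g2 : ENNReal.ofReal c2 * Xb k ≤ gf {W | W ∈ BAR.NA (2 ^ k) ∧ BX (2 ^ (k + s)) W} :=
      (hs2 k).trans (gf_mono fun X hX => ⟨hX.1, bmono (by rw [hs]; exact le_max_right _ _) hX.2⟩)
    have g3 : c3 * (2 : ℝ) ^ (3 / 4 * (k : ℝ)) ≤ Ub k := by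
      have h1 := hU (2 ^ k) Nat.one_le_two_pow
      have h2 : (((2 ^ k : ℕ) : ℝ)) ^ (3 / 4 : ℝ) = (2 : ℝ) ^ (3 / 4 * (k : ℝ)) := by
        rw [Nat.cast_pow, Nat.cast_ofNat, ← Real.rpow_natCast, ← Real.rpow_mul (by norm_num)]
        congr 1
        ring
      rw [h2] at h1
      exact h1
    have g4 : ENNReal.ofReal (Real.sqrt c4 * (2 : ℝ) ^ (25 / 48 * (k : ℝ))) ≤ Xb k := by
      have h1 := hX k
      have h2 : c4 * (2 : ℝ) ^ (25 / 24 * (k : ℝ)) = (Real.sqrt c4 * (2 : ℝ) ^ (25 / 48 * (k : ℝ))) ^ 2 := by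
        rw [mul_pow, Real.sq_sqrt hc4.le, ← Real.rpow_natCast, ← Real.rpow_mul (by norm_num)]
        congr 2
        push_cast
        ring
      rw [h2, ENNReal.ofReal_pow (by positivity)] at h1
      exact (ENNReal.pow_le_pow_left_iff (by norm_num)).1 h1
    refine le_trans ?_ brd_NA
    refine le_trans ?_ (mul_le_mul' g1 g2)
    calc ENNReal.ofReal (1 / 2 * c3 * c2 * Real.sqrt c4 * (2 : ℝ) ^ (61 / 48 * (k : ℝ)))
        = ENNReal.ofReal (1 / 2 * (c3 * (2 : ℝ) ^ (3 / 4 * (k : ℝ)))) *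
            (ENNReal.ofReal c2 * ENNReal.ofReal (Real.sqrt c4 * (2 : ℝ) ^ (25 / 48 * (k : ℝ)))) := by
          rw [← ENNReal.ofReal_mul hc2.le, ← ENNReal.ofReal_mul (by positivity)]
          congr 1
          have h2 : (2 : ℝ) ^ (61 / 48 * (k : ℝ)) = (2 : ℝ) ^ (3 / 4 * (k : ℝ)) * (2 : ℝ) ^ (25 / 48 * (k : ℝ)) := by
            rw [← Real.rpow_add (by norm_num)]
            congr 1
            ring
          rw [h2]
          ring
      _ ≤ _ := mul_le_mul' (ENNReal.ofReal_le_ofReal (by linarith)) (mul_le_mul' le_rfl g4)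
  obtain ⟨c5, hc5⟩ : ∃ c5 : ℝ, c5 = 1 / 2 * c3 * c2 * Real.sqrt c4 := ⟨_, rfl⟩
  have hc50 : 0 < c5 := by rw [hc5]; positivity
  rw [← hc5] at hmass
  -- the scale
  obtain ⟨D, hD⟩ : ∃ D : ℝ, D = 10 * (2 : ℝ) ^ s := ⟨_, rfl⟩
  have hD1 : 1 ≤ D := by
    have : (1 : ℝ) ≤ 2 ^ s := one_le_pow₀ (by norm_num)
    rw [hD]
    linarith
  obtain ⟨M, hM⟩ : ∃ M : ℝ, M = (2 / c5 + 1) := ⟨_, rfl⟩
  have hM1 : 1 ≤ M := by
    have : 0 < 2 / c5 := by positivity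
    rw [hM]
    linarith
  refine ⟨c5 / 2 * (2 * D) ^ (-(61 / 48 : ℝ)), 2 * D * M, by positivity, by nlinarith, fun b hb => ?_⟩
  have hDp : 0 < D := by linarith
  obtain ⟨k, hk1, hk2⟩ : ∃ k : ℕ, (2 : ℝ) ^ k ≤ b / D ∧ b / D < 2 ^ (k + 1) := by
    refine exists_nat_pow_near ?_ (by norm_num)
    rw [le_div_iff₀ hDp]
    nlinarith
  have hk2' : b < 2 * D * 2 ^ k := by
    rw [div_lt_iff₀ hDp, pow_succ] at hk2
    linarith
  have hMk : M ≤ 2 ^ k := by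
    have : 2 * D * M < 2 * D * 2 ^ k := lt_of_le_of_lt hb hk2'
    exact (lt_of_mul_lt_mul_left this (by positivity)).le
  have hb0 : 0 < b := by nlinarith
  -- the mass
  obtain ⟨Q, hQ⟩ : ∃ Q : Set (List Bool), Q = {w | w ∈ SSt (2 * 2 ^ k) ∧
    ∀ i, i ≤ w.length → ‖JJ (vx oo up w i)‖ ≤ 2 * (3 * (2 : ℝ) ^ (k + s) + 2)} := ⟨_, rfl⟩
  have hm := hmass k
  rw [← hQ] at hm
  have hsub : Q ⊆ VV b ∪ {[]} := by
    rw [hQ]
    rintro w ⟨hw1, hw2⟩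
    by_cases h0 : w = []
    · exact Or.inr h0
    · left
      rw [mem_SSt] at hw1
      refine ⟨h0, hw1.2, fun i h1 h2 => (hw1.1 i h1 h2).1, fun i hi => (hw2 i hi).trans ?_⟩
      have h1 : D * 2 ^ k ≤ b := by
        rw [le_div_iff₀ hDp] at hk1
        linarith
      have h2 : (1 : ℝ) ≤ 2 ^ (k + s) := one_le_pow₀ (by norm_num)
      have h3 : D * 2 ^ k = 10 * 2 ^ (k + s) := by
        rw [hD, pow_add]
        ring
      rw [h3] at h1
      linarith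
  have h1 : gf Q ≤ gf (VV b) + 1 := by
    refine (gf_mono hsub).trans ((gf_union_le _ _).trans ?_)
    rw [JumpVaux.gf_nil]
  have hkk : (2 : ℝ) ^ k ≤ (2 : ℝ) ^ (61 / 48 * (k : ℝ)) := by
    rw [← Real.rpow_natCast]
    refine Real.rpow_le_rpow_of_exponent_le (by norm_num) ?_
    have : (0 : ℝ) ≤ k := Nat.cast_nonneg k
    linarith
  have h2 : 2 ≤ c5 * (2 : ℝ) ^ (61 / 48 * (k : ℝ)) := by
    have h3 : 2 / c5 ≤ (2 : ℝ) ^ (61 / 48 * (k : ℝ)) := by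
      rw [hM] at hMk
      linarith
    rw [div_le_iff₀ hc50] at h3
    linarith
  have h4 : ENNReal.ofReal (c5 / 2 * (2 : ℝ) ^ (61 / 48 * (k : ℝ))) ≤ gf (VV b) := by
    have h5 : ENNReal.ofReal (c5 / 2 * (2 : ℝ) ^ (61 / 48 * (k : ℝ))) + 1 ≤ gf (VV b) + 1 := by
      refine le_trans ?_ (hm.trans h1)
      rw [← ENNReal.ofReal_one, ← ENNReal.ofReal_add (by positivity) (by norm_num)]
      refine ENNReal.ofReal_le_ofReal ?_
      linarith
    exact (ENNReal.add_le_add_iff_right ENNReal.one_ne_top).1 h5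
  refine le_trans (ENNReal.ofReal_le_ofReal ?_) h4
  have h5 : b ^ (61 / 48 : ℝ) ≤ (2 * D) ^ (61 / 48 : ℝ) * (2 : ℝ) ^ (61 / 48 * (k : ℝ)) := by
    calc b ^ (61 / 48 : ℝ) ≤ (2 * D * 2 ^ k) ^ (61 / 48 : ℝ) := Real.rpow_le_rpow hb0.le hk2'.le (by norm_num)
      _ = _ := by
        rw [Real.mul_rpow (by positivity) (by positivity), ← Real.rpow_natCast, ← Real.rpow_mul (by norm_num)]
        congr 2
        ring
  calc c5 / 2 * (2 * D) ^ (-(61 / 48 : ℝ)) * b ^ (61 / 48 : ℝ)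
      ≤ c5 / 2 * (2 * D) ^ (-(61 / 48 : ℝ)) * ((2 * D) ^ (61 / 48 : ℝ) * (2 : ℝ) ^ (61 / 48 * (k : ℝ))) :=
        mul_le_mul_of_nonneg_left h5 (by positivity)
    _ = c5 / 2 * (2 : ℝ) ^ (61 / 48 * (k : ℝ)) := by
        have : (2 * D) ^ (-(61 / 48 : ℝ)) * (2 * D) ^ (61 / 48 : ℝ) = 1 := by
          rw [← Real.rpow_add (by positivity)]
          norm_num
        calc _ = c5 / 2 * ((2 * D) ^ (-(61 / 48 : ℝ)) * (2 * D) ^ (61 / 48 : ℝ)) * (2 : ℝ) ^ (61 / 48 * (k : ℝ)) := by ring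
          _ = _ := by rw [this, mul_one]

end R2W

end HexObs
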