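import Pool.Agent.CRT.RSplit
import Pool.Agent.CRT.RWinV

/-!
# Scale flow (R), row R2, word part (helper16): the mass of the outward half walks without a near window cut

An outward half walk `v` of `NCW` is glued to a half plane word of the ball of radius `b` on the other side of its first edge:
`gl`. Two marks of one glued walk are separated by more than `g` in height (`marks`), so that the number of marks is at most
`b / g + 2`; the glued walk is a walk of a ball. **`ncw_le`**.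
-/

set_option autoImplicit false

open Set Filter Topology MeasureTheory
open scoped ENNReal

namespace Pool.Agent.CRT.R

open Pool.Agent.NTS.Res
open NTSF (pos_zero pos_succ mem_saw sw_surj sw_inj pos_sw sw_mem)
open NTF (sw JJ gf_card JJ_re)
open HexObs (wE gf xc oo up vx dx lev tf)
open HexObs.R2W (VV)
open Pool.Agent.CRT.V

/-! ### 1. gluing -/

/-- the reversal of `V` without its first step, followed by `v` -/
def gl (k m : ℕ) (V : Fin (k + 1) → Fin 3) (v : Fin m → Fin 3) : Fin (k + m) → Fin 3 :=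
  fun i => if h : (i : ℕ) < k then V ⟨k - i, by omega⟩ else v ⟨i - k, by omega⟩

lemma step_add (k j : ℕ) (a : Fin 3) : step (k + j) a = (-1) ^ k * step j a := by
  unfold step
  rw [pow_add, mul_assoc]

lemma sg_sq (k : ℕ) : ((-1 : ℂ)) ^ k * (-1) ^ k = 1 := by
  rw [← mul_pow]
  norm_num

lemma gl_right {k m : ℕ} (V : Fin (k + 1) → Fin 3) (v : Fin m → Fin 3) {j : ℕ} (hj : j ≤ m) :
    pos (gl k m V v) (k + j) = pos (gl k m V v) k + (-1) ^ k * pos v j := by
  induction j with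
  | zero => rw [pos_zero, mul_zero, add_zero, add_zero]
  | succ j ih =>
    have e1 := pos_succ (gl k m V v) (k + j) (by omega)
    have e2 := pos_succ v j (by omega)
    have e3 : gl k m V v ⟨k + j, by omega⟩ = v ⟨j, by omega⟩ := by
      unfold gl
      rw [dif_neg (show ¬ (k + j < k) by omega)]
      congr 1
      exact Fin.ext (by simp only; omega)
    rw [← add_assoc, e1, ih (by omega), e3, step_add, e2]
    ring

lemma gl_left {k m : ℕ} {V : Fin (k + 1) → Fin 3} (v : Fin m → Fin 3) (h0 : pos V 1 = 1) {j : ℕ} (hj : j ≤ k) :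
    pos (gl k m V v) (k - j) = pos (gl k m V v) k + (-1) ^ k * (1 - pos V (j + 1)) := by
  induction j with
  | zero => rw [Nat.sub_zero, zero_add, h0, sub_self, mul_zero, add_zero]
  | succ j ih =>
    have e1 := pos_succ (gl k m V v) (k - (j + 1)) (by omega)
    have e2 := pos_succ V (j + 1) (by omega)
    have e3 : gl k m V v ⟨k - (j + 1), by omega⟩ = V ⟨j + 1, by omega⟩ := by
      unfold gl
      rw [dif_pos (show k - (j + 1) < k by omega)]
      congr 1
      exact Fin.ext (by simp only; omega)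
    have e4 : ∀ a : Fin 3, step (k - (j + 1)) a = (-1) ^ k * step (j + 1) a := by
      intro a
      have h1 : k = k - (j + 1) + (j + 1) := by omega
      obtain ⟨d, hd⟩ : ∃ d, d = k - (j + 1) := ⟨_, rfl⟩
      rw [← hd] at h1 ⊢
      rw [h1, pow_add]
      unfold step
      have := sg_sq (j + 1)
      calc (-1 : ℂ) ^ d * Complex.exp (2 * (Real.pi : ℂ) * Complex.I * ((a : ℕ) : ℂ) / 3)
          = (-1) ^ d * (((-1) ^ (j + 1) * (-1) ^ (j + 1)) * Complex.exp (2 * (Real.pi : ℂ) * Complex.I * ((a : ℕ) : ℂ) / 3)) := by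
            rw [this, one_mul]
        _ = _ := by ring
    rw [show k - (j + 1) + 1 = k - j by omega, ih (by omega), e3, e4] at e1
    rw [e2]
    linear_combination -e1

lemma norm_sg (k : ℕ) (z : ℂ) : ‖(-1 : ℂ) ^ k * z‖ = ‖z‖ := by
  rw [norm_mul, norm_pow, norm_neg, norm_one, one_pow, one_mul]

/-- the glued walk is self-avoiding -/
lemma gl_saw {k m : ℕ} {V : Fin (k + 1) → Fin 3} {v : Fin m → Fin 3} {ρ b b0 g : ℝ} (hV : V ∈ saw (k + 1)) (h0 : pos V 1 = 1)
    (h1 : ∀ j, 1 ≤ j → j ≤ k + 1 → 1 ≤ (pos V j).re) (h2 : ∀ j, j ≤ k + 1 → ‖pos V j‖ ≤ b) (hb : b + 1 / 2 ≤ ρ)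
    (hv : NCW m ρ b0 g v) : gl k m V v ∈ saw (k + m) := by
  rw [mem_saw]
  have hinjV := mem_saw.1 hV
  have hinjv := mem_saw.1 hv.saw
  -- a point of the left part is not a point of the right part
  have key : ∀ i j, i ≤ k → j ≤ m → pos (gl k m V v) (k - i) = pos (gl k m V v) (k + j) → i = 0 ∧ j = 0 := by
    intro i j hi hj he
    rw [gl_left v h0 hi, gl_right V v hj] at he
    have e1 : pos v j = 1 - pos V (i + 1) := by
      have e2 := add_left_cancel he
      have e3 := congrArg (fun z => (-1 : ℂ) ^ k * z) e2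
      simp only [← mul_assoc, sg_sq, one_mul] at e3
      exact e3.symm
    rcases Nat.eq_zero_or_pos j with hj0 | hj0
    · rw [hj0, pos_zero] at e1
      have e4 : pos V (i + 1) = pos V 1 := by
        rw [h0]
        linear_combination e1
      have := hinjV _ _ (by omega) (by omega) e4
      omega
    · exfalso
      have e4 : ‖pos v j - 1 / 2‖ ≤ ρ := by
        rw [e1]
        calc ‖1 - pos V (i + 1) - 1 / 2‖ = ‖(1 / 2 : ℂ) - pos V (i + 1)‖ := by ring_nf
          _ ≤ ‖(1 / 2 : ℂ)‖ + ‖pos V (i + 1)‖ := norm_sub_le _ _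
          _ ≤ ρ := by rw [norm_half]; linarith [h2 (i + 1) (by omega)]
      have e5 := hv.rt j hj0 hj e4
      rw [e1, Complex.sub_re, Complex.one_re] at e5
      have e6 := h1 (i + 1) (by omega) (by omega)
      linarith
  intro i j hi hj he
  rcases Nat.lt_or_ge i k with hik | hik <;> rcases Nat.lt_or_ge j k with hjk | hjk
  · obtain ⟨a, rfl⟩ : ∃ a, i = k - a := ⟨k - i, by omega⟩
    obtain ⟨c, rfl⟩ : ∃ c, j = k - c := ⟨k - j, by omega⟩
    rcases Nat.lt_or_ge k a with h3 | h3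
    · rw [Nat.sub_eq_zero_of_le h3.le] at he hik ⊢
      rcases Nat.lt_or_ge k c with h4 | h4
      · omega
      · have e0 : pos (gl k m V v) 0 = pos (gl k m V v) (k - k) := by rw [Nat.sub_self]
        rw [e0, gl_left v h0 le_rfl, gl_left v h0 h4] at he
        have e2 := add_left_cancel he
        have e3 := congrArg (fun z => (-1 : ℂ) ^ k * z) e2
        simp only [← mul_assoc, sg_sq, one_mul] at e3
        have := hinjV (k + 1) (c + 1) (by omega) (by omega) (by linear_combination -e3)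
        omega
    · rcases Nat.lt_or_ge k c with h4 | h4
      · rw [Nat.sub_eq_zero_of_le h4.le] at he hjk ⊢
        have e0 : pos (gl k m V v) 0 = pos (gl k m V v) (k - k) := by rw [Nat.sub_self]
        rw [e0, gl_left v h0 le_rfl, gl_left v h0 h3] at he
        have e2 := add_left_cancel he
        have e3 := congrArg (fun z => (-1 : ℂ) ^ k * z) e2
        simp only [← mul_assoc, sg_sq, one_mul] at e3
        have := hinjV (k + 1) (a + 1) (by omega) (by omega) (by linear_combination e3)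
        omega
      · rw [gl_left v h0 h3, gl_left v h0 h4] at he
        have e2 := add_left_cancel he
        have e3 := congrArg (fun z => (-1 : ℂ) ^ k * z) e2
        simp only [← mul_assoc, sg_sq, one_mul] at e3
        have := hinjV (a + 1) (c + 1) (by omega) (by omega) (by linear_combination -e3)
        omega
  · obtain ⟨a, ha, rfl⟩ : ∃ a, a ≤ k ∧ i = k - a := ⟨k - i, by omega, by omega⟩
    obtain ⟨c, rfl⟩ : ∃ c, j = k + c := ⟨j - k, by omega⟩
    obtain ⟨h3, h4⟩ := key a c ha (by omega) he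
    omega
  · obtain ⟨a, ha, rfl⟩ : ∃ a, a ≤ k ∧ j = k - a := ⟨k - j, by omega, by omega⟩
    obtain ⟨c, rfl⟩ : ∃ c, i = k + c := ⟨i - k, by omega⟩
    obtain ⟨h3, h4⟩ := key a c ha (by omega) he.symm
    omega
  · obtain ⟨a, rfl⟩ : ∃ a, i = k + a := ⟨i - k, by omega⟩
    obtain ⟨c, rfl⟩ : ∃ c, j = k + c := ⟨j - k, by omega⟩
    rw [gl_right V v (by omega), gl_right V v (by omega)] at he
    have e2 := add_left_cancel he
    have e3 := congrArg (fun z => (-1 : ℂ) ^ k * z) e2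
    simp only [← mul_assoc, sg_sq, one_mul] at e3
    have := hinjv a c (by omega) (by omega) e3
    omega

/-! ### 2. marks -/

/-- **two marks of one walk are separated in height** -/
lemma marks {k m k' m' : ℕ} {V : Fin (k + 1) → Fin 3} {v : Fin m → Fin 3} {V' : Fin (k' + 1) → Fin 3}
    {v' : Fin m' → Fin 3} {ρ b b' g : ℝ} (hP : pos (gl k m V v) = pos (gl k' m' V' v')) (he : k + m = k' + m')
    (hkk : k < k') (hpar : Even (k' - k)) (h0' : pos V' 1 = 1)
    (h1' : ∀ j, 1 ≤ j → j ≤ k' + 1 → 1 ≤ (pos V' j).re) (h2' : ∀ j, j ≤ k' + 1 → ‖pos V' j‖ ≤ b') (hb : b' + 1 ≤ b)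
    (hv : NCW m ρ b g v) (hv' : NCW m' ρ b g v') :
    ∃ x : ℂ, pos (gl k m V v) k' = pos (gl k m V v) k + (-1) ^ k * x ∧ g < x.re ∧ ‖x‖ ≤ b := by
  obtain ⟨q, hq⟩ : ∃ q, k' = k + q := ⟨k' - k, by omega⟩
  subst hq
  rw [Nat.add_sub_cancel_left] at hpar
  have hm' := hv'.gt
  have hqm : q < m := by omega
  have hs : ((-1 : ℂ)) ^ (k + q) = (-1) ^ k := by
    rw [pow_add, hpar.neg_one_pow, mul_one]
  have hR : ∀ j, j ≤ m → pos (gl k m V v) (k + j) = pos (gl k m V v) k + (-1) ^ k * pos v j := fun j hj => gl_right V v hj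
  have hR' : ∀ j, j ≤ m' → pos (gl k m V v) (k + q + j) = pos (gl k m V v) (k + q) + (-1) ^ k * pos v' j := fun j hj => by
    rw [hP, gl_right V' v' hj, hs]
  have hL' : ∀ j, j ≤ k + q → pos (gl k m V v) (k + q - j) = pos (gl k m V v) (k + q) + (-1) ^ k * (1 - pos V' (j + 1)) :=
    fun j hj => by rw [hP, gl_left v' h0' hj, hs]
  have cancel : ∀ z w : ℂ, (-1 : ℂ) ^ k * z = (-1) ^ k * w → z = w := by
    intro z w e
    have e3 := congrArg (fun z => (-1 : ℂ) ^ k * z) e
    simp only [← mul_assoc, sg_sq, one_mul] at e3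
    exact e3
  -- behind the mark
  have hbeh : ∀ j, j ≤ m' → pos v (q + j) = pos v q + pos v' j := by
    intro j hj
    apply cancel
    have e1 := hR (q + j) (by omega)
    have e2 := hR q hqm.le
    have e3 := hR' j hj
    rw [← add_assoc, e3, e2] at e1
    linear_combination -e1
  -- before the mark
  have hbef : ∀ j, j ≤ q → pos v (q - j) = pos v q + (1 - pos V' (j + 1)) := by
    intro j hj
    apply cancel
    have e1 := hR (q - j) (by omega)
    have e2 := hR q hqm.le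
    have e3 := hL' j (by omega)
    rw [show k + (q - j) = k + q - j by omega, e3, e2] at e1
    linear_combination -e1
  have hn : ‖pos v q‖ ≤ b := by
    have e1 := hbef q le_rfl
    rw [Nat.sub_self, pos_zero] at e1
    have e2 : pos v q = pos V' (q + 1) - 1 := by linear_combination -e1
    rw [e2]
    calc ‖pos V' (q + 1) - 1‖ ≤ ‖pos V' (q + 1)‖ + ‖(1 : ℂ)‖ := norm_sub_le _ _
      _ ≤ b := by
        rw [norm_one]
        linarith [h2' (q + 1) (by omega)]
  refine ⟨pos v q, hR q hqm.le, hv.no q (by omega) ⟨hqm, hpar, ?_, fun i hi _ => ?_, fun j hj hjm hnj => ?_⟩ hn, hn⟩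
  · have := hbeh 1 hm'
    rw [hv'.one] at this
    exact this
  · obtain ⟨a, ha, rfl⟩ : ∃ a, a ≤ q ∧ i = q - a := ⟨q - i, by omega, by omega⟩
    rw [hbef a ha, Complex.add_re, Complex.sub_re, Complex.one_re]
    linarith [h1' (a + 1) (by omega) (by omega)]
  · obtain ⟨a, rfl⟩ : ∃ a, j = q + a := ⟨j - q, by omega⟩
    rw [hbeh a (by omega)] at hnj ⊢
    have e1 : ‖pos v' a - 1 / 2‖ ≤ ρ := by
      have e2 : pos v q + pos v' a - (pos v q + 1 / 2) = pos v' a - 1 / 2 := by ring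
      rwa [e2] at hnj
    have e3 := hv'.rt a (by omega) (by omega) e1
    rw [Complex.add_re]
    linarith

/-! ### 3. the injection -/

/-- the outward half walks of a ball, of any length -/
def NB (ρ b g B : ℝ) : Type := Σ m : ℕ, {v : Fin m → Fin 3 // NCW m ρ b g v ∧ ∀ j, j ≤ m → ‖pos v j‖ ≤ B}

/-- the walks of a ball, of any length -/
def WB (R : ℝ) : Type := Σ n : ℕ, {T : Fin n → Fin 3 // T ∈ saw n ∧ ∀ j, j ≤ n → ‖pos T j‖ < R}

/-- the walk of a half plane word, the length written as a successor -/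
def wv (V : List Bool) : Fin (V.length - 1 + 1) → Fin 3 := sw (V.length - 1 + 1) V

lemma lenV {b : ℝ} {V : List Bool} (hV : V ∈ VV b) : V.length - 1 + 1 = V.length :=
  Nat.succ_pred_eq_of_pos (List.length_pos_iff.2 hV.1)

lemma wv_pos {b : ℝ} {V : List Bool} (hV : V ∈ VV b) {j : ℕ} (hj : j ≤ V.length - 1 + 1) :
    pos (wv V) j = JJ (vx oo up V j) := pos_sw _ V j hj

lemma wv_one {b : ℝ} {V : List Bool} (hV : V ∈ VV b) : pos (wv V) 1 = 1 := by
  have h1 := pos_succ (wv V) 0 (by omega)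
  rw [zero_add] at h1
  rw [h1, pos_zero, zero_add]
  exact V1.step_zero 0 (by decide)

lemma wv_saw {b : ℝ} {V : List Bool} (hV : V ∈ VV b) : wv V ∈ saw (V.length - 1 + 1) := by
  rw [mem_saw]
  have hl := lenV hV
  intro j k hj hk he
  rw [wv_pos hV hj, wv_pos hV hk] at he
  have he := NTF.JJ_inj he
  rcases lt_trichotomy j k with h5 | h5 | h5
  · exact absurd he (hV.2.1 j k h5 (by omega))
  · exact h5
  · exact absurd he.symm (hV.2.1 k j h5 (by omega))

lemma wv_re {b : ℝ} {V : List Bool} (hV : V ∈ VV b) (j : ℕ) (h1 : 1 ≤ j) (h2 : j ≤ V.length - 1 + 1) :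
    1 ≤ (pos (wv V) j).re := by
  have hl := lenV hV
  have e : (pos (wv V) j).re = (lev V j : ℝ) / 2 := V1.re_sw V h2
  rw [e]
  have h3 := V1.lev_two (hV.2.2.1 j h1 (by omega))
  have h4 : (2 : ℝ) ≤ (lev V j : ℝ) := by exact_mod_cast h3
  linarith

lemma wv_norm {b : ℝ} {V : List Bool} (hV : V ∈ VV b) (j : ℕ) (h2 : j ≤ V.length - 1 + 1) : ‖pos (wv V) j‖ ≤ b := by
  have hl := lenV hV
  rw [wv_pos hV h2]
  exact hV.2.2.2 j (by omega)

/-- the glued walk -/
def GT (V : List Bool) {ρ b g B : ℝ} (x : NB ρ b g B) : Fin (V.length - 1 + x.1) → Fin 3 := gl (V.length - 1) x.1 (wv V) x.2.1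

lemma GT_mem {ρ b g B : ℝ} (hb : 1 ≤ b) (hbρ : b ≤ ρ) (hbB : b ≤ B) {V : List Bool} (hV : V ∈ VV (b - 1)) (x : NB ρ b g B) :
    GT V x ∈ saw (V.length - 1 + x.1) ∧ ∀ j, j ≤ V.length - 1 + x.1 → ‖pos (GT V x) j‖ < 6 * B := by
  obtain ⟨m, v, hv, hB⟩ := x
  refine ⟨gl_saw (b := b - 1) (wv_saw hV) (wv_one hV) (wv_re hV) (wv_norm hV) (show b - 1 + 1 / 2 ≤ ρ by linarith) hv, fun j hj => ?_⟩
  show ‖pos (gl (V.length - 1) m (wv V) v) j‖ < 6 * B
  obtain ⟨k, hk⟩ : ∃ k, k = V.length - 1 := ⟨_, rfl⟩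
  have hL := fun (j : ℕ) (hj : j ≤ V.length - 1) => gl_left v (wv_one hV) hj
  have hR := fun (j : ℕ) (hj : j ≤ m) => gl_right (wv V) v hj
  have h0 : ‖pos (gl (V.length - 1) m (wv V) v) (V.length - 1)‖ ≤ b := by
    have e1 := hL (V.length - 1) le_rfl
    rw [Nat.sub_self, pos_zero] at e1
    have e2 : pos (gl (V.length - 1) m (wv V) v) (V.length - 1) =
        -((-1) ^ (V.length - 1) * (1 - pos (wv V) (V.length - 1 + 1))) := by linear_combination -e1
    rw [e2, norm_neg, norm_sg]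
    calc ‖1 - pos (wv V) (V.length - 1 + 1)‖ ≤ ‖(1 : ℂ)‖ + ‖pos (wv V) (V.length - 1 + 1)‖ := norm_sub_le _ _
      _ ≤ b := by
        rw [norm_one]
        linarith [wv_norm hV _ le_rfl]
  rcases Nat.lt_or_ge j (V.length - 1) with h1 | h1
  · obtain ⟨a, ha, rfl⟩ : ∃ a, a ≤ V.length - 1 ∧ j = V.length - 1 - a := ⟨V.length - 1 - j, by omega, by omega⟩
    rw [hL a ha]
    have h2 : ‖1 - pos (wv V) (a + 1)‖ ≤ b := by
      calc ‖1 - pos (wv V) (a + 1)‖ ≤ ‖(1 : ℂ)‖ + ‖pos (wv V) (a + 1)‖ := norm_sub_le _ _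
        _ ≤ b := by
          rw [norm_one]
          linarith [wv_norm hV _ (show a + 1 ≤ V.length - 1 + 1 by omega)]
    calc _ ≤ ‖pos (gl (V.length - 1) m (wv V) v) (V.length - 1)‖ + ‖(-1) ^ (V.length - 1) * (1 - pos (wv V) (a + 1))‖ :=
          norm_add_le _ _
      _ < 6 * B := by
        rw [norm_sg]
        linarith
  · obtain ⟨a, rfl⟩ : ∃ a, j = V.length - 1 + a := ⟨j - (V.length - 1), by omega⟩
    have ha : a ≤ m := by
      have hj' : V.length - 1 + a ≤ V.length - 1 + m := hj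
      omega
    rw [hR a ha]
    calc _ ≤ ‖pos (gl (V.length - 1) m (wv V) v) (V.length - 1)‖ + ‖(-1) ^ (V.length - 1) * pos v a‖ := norm_add_le _ _
      _ < 6 * B := by
        rw [norm_sg]
        linarith [hB a ha]

/-- the bin of a mark -/
noncomputable def bin (M : ℕ) (g : ℝ) (T : ℕ → ℂ) (k : ℕ) : Fin (M + 1) :=
  ⟨(⌊(T k).re / g⌋ % ((M + 1 : ℕ) : ℤ)).toNat, by
    have h1 := Int.emod_nonneg ⌊(T k).re / g⌋ (show ((M + 1 : ℕ) : ℤ) ≠ 0 by omega)
    have h2 := Int.emod_lt_of_pos ⌊(T k).re / g⌋ (show (0 : ℤ) < ((M + 1 : ℕ) : ℤ) by omega)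
    omega⟩

lemma bin_ne {M : ℕ} {g b : ℝ} (hg : 0 < g) (hM : b / g ≤ M) {T : ℕ → ℂ} {k k' : ℕ} {x : ℂ} (e : T k' = T k + x ∨ T k' = T k - x)
    (h1 : g < x.re) (h2 : ‖x‖ ≤ b) : bin M g T k ≠ bin M g T k' := by
  intro h
  have h3 := congrArg Fin.val h
  unfold bin at h3
  simp only at h3
  obtain ⟨f, hf⟩ : ∃ f, f = ⌊(T k).re / g⌋ := ⟨_, rfl⟩
  obtain ⟨f', hf'⟩ : ∃ f', f' = ⌊(T k').re / g⌋ := ⟨_, rfl⟩
  rw [← hf, ← hf'] at h3
  have p1 := Int.emod_nonneg f (show ((M + 1 : ℕ) : ℤ) ≠ 0 by omega)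
  have p2 := Int.emod_nonneg f' (show ((M + 1 : ℕ) : ℤ) ≠ 0 by omega)
  have h4 : f % ((M + 1 : ℕ) : ℤ) = f' % ((M + 1 : ℕ) : ℤ) := by omega
  have hxb : x.re ≤ b := (Complex.re_le_norm x).trans h2
  have a1 := Int.floor_le ((T k).re / g)
  have a2 := Int.lt_floor_add_one ((T k).re / g)
  have b1 := Int.floor_le ((T k').re / g)
  have b2 := Int.lt_floor_add_one ((T k').re / g)
  rw [← hf] at a1 a2
  rw [← hf'] at b1 b2
  have hx1 : 1 < x.re / g := by rwa [lt_div_iff₀ hg, one_mul]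
  have hx2 : x.re / g ≤ M := (div_le_div_of_nonneg_right hxb hg.le).trans hM
  have hdvd : ((M + 1 : ℕ) : ℤ) ∣ f' - f := by
    rw [Int.dvd_iff_emod_eq_zero]
    exact Int.emod_eq_emod_iff_emod_sub_eq_zero.1 h4.symm
  have hcase : (0 < f' - f ∧ f' - f < ((M + 1 : ℕ) : ℤ)) ∨ (0 < f - f' ∧ f - f' < ((M + 1 : ℕ) : ℤ)) := by
    rcases e with e | e
    · left
      have e1 : (T k').re / g = (T k).re / g + x.re / g := by rw [e, Complex.add_re, add_div]
      rw [e1] at b1 b2
      constructor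
      · have : (0 : ℝ) < (f' : ℝ) - f := by linarith
        exact_mod_cast this
      · have : (f' : ℝ) - f < ((M + 1 : ℕ) : ℝ) := by
          push_cast
          linarith
        exact_mod_cast this
    · right
      have e1 : (T k').re / g = (T k).re / g - x.re / g := by rw [e, Complex.sub_re, sub_div]
      rw [e1] at b1 b2
      constructor
      · have : (0 : ℝ) < (f : ℝ) - f' := by linarith
        exact_mod_cast this
      · have : (f : ℝ) - f' < ((M + 1 : ℕ) : ℝ) := by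
          push_cast
          linarith
        exact_mod_cast this
  rcases hcase with ⟨c1, c2⟩ | ⟨c1, c2⟩
  · have := Int.le_of_dvd c1 hdvd
    omega
  · have := Int.le_of_dvd c1 ((dvd_sub_comm).1 hdvd)
    omega

/-- the letters of a walk, as a sequence -/
def ext {n : ℕ} (s : Fin n → Fin 3) (i : ℕ) : Fin 3 := if h : i < n then s ⟨i, h⟩ else 0

lemma ext_gl_left {k m : ℕ} (V : Fin (k + 1) → Fin 3) (v : Fin m → Fin 3) {i : ℕ} (h : i < k) :
    ext (gl k m V v) i = V ⟨k - i, by omega⟩ := by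
  unfold ext gl
  rw [dif_pos (show i < k + m by omega)]
  simp only
  rw [dif_pos h]

lemma ext_gl_right {k m : ℕ} (V : Fin (k + 1) → Fin 3) (v : Fin m → Fin 3) {j : ℕ} (h : j < m) :
    ext (gl k m V v) (k + j) = v ⟨j, h⟩ := by
  unfold ext gl
  rw [dif_pos (show k + j < k + m by omega)]
  simp only
  rw [dif_neg (show ¬ (k + j < k) by omega)]
  congr 1
  exact Fin.ext (by simp only; omega)

/-- the data of the injection -/
noncomputable def psi {ρ b g B : ℝ} (hb : 1 ≤ b) (hbρ : b ≤ ρ) (hbB : b ≤ B) (M : ℕ) (p : VV (b - 1) × NB ρ b g B) :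
    WB (6 * B) × (Bool × Fin (M + 1) × Bool) := by
  classical
  exact (⟨p.1.1.length - 1 + p.2.1, GT p.1.1 p.2, GT_mem hb hbρ hbB p.1.2 p.2⟩,
    (decide (Even (p.1.1.length - 1)), bin M g (pos (GT p.1.1 p.2)) (p.1.1.length - 1), tf p.1.1 (p.1.1.length - 1)))

lemma psi_inj {ρ b g B : ℝ} (hb : 1 ≤ b) (hbρ : b ≤ ρ) (hbB : b ≤ B) (hg : 0 < g) {M : ℕ} (hM : b / g ≤ M) :
    Function.Injective (psi (ρ := ρ) (b := b) (g := g) (B := B) hb hbρ hbB M) := by
  rintro ⟨⟨V, hV⟩, ⟨m, v, hv, hvB⟩⟩ ⟨⟨V', hV'⟩, ⟨m', v', hv', hvB'⟩⟩ h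
  unfold psi at h
  simp only at h
  have h1 := congrArg (fun p => p.1) h
  have hn : V.length - 1 + m = V'.length - 1 + m' := congrArg (fun y : WB (6 * B) => y.1) h1
  have hpos : pos (gl (V.length - 1) m (wv V) v) = pos (gl (V'.length - 1) m' (wv V') v') :=
    congrArg (fun y : WB (6 * B) => pos y.2.1) h1
  have hext : ext (gl (V.length - 1) m (wv V) v) = ext (gl (V'.length - 1) m' (wv V') v') :=
    congrArg (fun y : WB (6 * B) => ext y.2.1) h1
  have hpar : decide (Even (V.length - 1)) = decide (Even (V'.length - 1)) := congrArg (fun p => p.2.1) h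
  have hbin : bin M g (pos (gl (V.length - 1) m (wv V) v)) (V.length - 1) =
      bin M g (pos (gl (V'.length - 1) m' (wv V') v')) (V'.length - 1) := congrArg (fun p => p.2.2.1) h
  have hlast : tf V (V.length - 1) = tf V' (V'.length - 1) := congrArg (fun p => p.2.2.2) h
  have hpar' : Even (V.length - 1) ↔ Even (V'.length - 1) := by
    have := decide_eq_decide.1 hpar
    exact this
  have hsg : ∀ (k : ℕ) (a c x : ℂ), a = c + (-1) ^ k * x → a = c + x ∨ a = c - x := by
    intro k a c x e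
    rcases Nat.even_or_odd k with h | h
    · left
      rw [e, h.neg_one_pow, one_mul]
    · right
      rw [e, h.neg_one_pow]
      ring
  have hlV := lenV hV
  have hlV' := lenV hV'
  have hk : V.length - 1 = V'.length - 1 := by
    rcases lt_trichotomy (V.length - 1) (V'.length - 1) with h2 | h2 | h2
    · exfalso
      obtain ⟨x, hx, hx1, hx2⟩ := marks (b' := b - 1) hpos hn h2 (by
        rw [Nat.even_sub h2.le]
        tauto) (wv_one hV') (wv_re hV') (wv_norm hV') (by linarith) hv hv'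
      rw [← hpos] at hbin
      exact bin_ne hg hM (hsg _ _ _ _ hx) hx1 hx2 hbin
    · exact h2
    · exfalso
      obtain ⟨x, hx, hx1, hx2⟩ := marks (b' := b - 1) hpos.symm hn.symm h2 (by
        rw [Nat.even_sub h2.le]
        tauto) (wv_one hV) (wv_re hV) (wv_norm hV) (by linarith) hv' hv
      rw [hpos] at hbin
      exact bin_ne hg hM (hsg _ _ _ _ hx) hx1 hx2 hbin.symm
  have hm : m = m' := by omega
  subst hm
  have hVV : V = V' := by
    refine sw_inj (n := V.length) rfl (by omega) ?_ (by rw [hlast, hk])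
    funext i
    have hi := i.2
    rcases Nat.eq_zero_or_pos (i : ℕ) with h0 | h0
    · show NTF.aa (dx up V i) = NTF.aa (dx up V' i)
      rw [h0]
      rfl
    · have e1 : ext (gl (V.length - 1) m (wv V) v) (V.length - 1 - i) =
          ext (gl (V'.length - 1) m (wv V') v') (V'.length - 1 - i) := by rw [hext, hk]
      rw [ext_gl_left _ _ (by omega), ext_gl_left _ _ (by omega)] at e1
      have e2 : NTF.aa (dx up V (V.length - 1 - (V.length - 1 - i))) =
        NTF.aa (dx up V' (V'.length - 1 - (V'.length - 1 - i))) := e1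
      rw [hk, show V'.length - 1 - (V'.length - 1 - (i : ℕ)) = i by omega] at e2
      exact e2
  subst hVV
  have hvv : v = v' := by
    funext j
    have e1 := congrFun hext (V.length - 1 + j)
    rwa [ext_gl_right _ _ j.2, ext_gl_right _ _ j.2] at e1
  subst hvv
  rfl

lemma glue_le {ρ b g B : ℝ} (hb : 1 ≤ b) (hbρ : b ≤ ρ) (hbB : b ≤ B) (hg : 0 < g) {M : ℕ} (hM : b / g ≤ M) :
    gf (VV (b - 1)) * ∑' x : NB ρ b g B, ENNReal.ofReal (xc ^ x.1) ≤
      (4 * (M + 1 : ℕ) : ℕ) * (ENNReal.ofReal xc * ∑' y : WB (6 * B), ENNReal.ofReal (xc ^ y.1)) := by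
  have hx := HexObs.xc_pos
  calc gf (VV (b - 1)) * ∑' x : NB ρ b g B, ENNReal.ofReal (xc ^ x.1)
      = ∑' p : VV (b - 1) × NB ρ b g B, wE p.1 * ENNReal.ofReal (xc ^ p.2.1) := by
        rw [ENNReal.tsum_prod (f := fun (a : VV (b - 1)) (x : NB ρ b g B) => wE a * ENNReal.ofReal (xc ^ x.1))]
        unfold gf
        rw [← ENNReal.tsum_mul_right]
        exact tsum_congr fun a => ENNReal.tsum_mul_left.symm
    _ = ∑' p : VV (b - 1) × NB ρ b g B, ENNReal.ofReal xc * ENNReal.ofReal (xc ^ (psi hb hbρ hbB M p).1.1) := by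
        refine tsum_congr fun p => ?_
        obtain ⟨⟨V, hV⟩, ⟨m, v⟩⟩ := p
        show ENNReal.ofReal (xc ^ V.length) * ENNReal.ofReal (xc ^ m) =
          ENNReal.ofReal xc * ENNReal.ofReal (xc ^ (V.length - 1 + m))
        rw [← ENNReal.ofReal_mul (by positivity), ← ENNReal.ofReal_mul (by positivity)]
        congr 1
        have hl := lenV hV
        rw [← pow_add, ← pow_succ']
        congr 1
        omega
    _ ≤ ∑' q : WB (6 * B) × (Bool × Fin (M + 1) × Bool), ENNReal.ofReal xc * ENNReal.ofReal (xc ^ q.1.1) :=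
        ENNReal.tsum_comp_le_tsum_of_injective (psi_inj hb hbρ hbB hg hM)
          (fun q : WB (6 * B) × (Bool × Fin (M + 1) × Bool) => ENNReal.ofReal xc * ENNReal.ofReal (xc ^ q.1.1))
    _ = _ := by
        rw [ENNReal.tsum_prod (f := fun (y : WB (6 * B)) (_ : Bool × Fin (M + 1) × Bool) =>
          ENNReal.ofReal xc * ENNReal.ofReal (xc ^ y.1))]
        rw [← ENNReal.tsum_mul_left, ← ENNReal.tsum_mul_left]
        refine tsum_congr fun y => ?_
        rw [tsum_fintype, Finset.sum_const, nsmul_eq_mul]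
        congr 2
        rw [Finset.card_univ, Fintype.card_prod, Fintype.card_prod, Fintype.card_bool, Fintype.card_fin]
        ring

open Classical in
lemma wb_sum (R : ℝ) : ∑' y : WB R, ENNReal.ofReal (xc ^ y.1) = ∑' n, ENNReal.ofReal (_root_.CRT.Mass.wB R n) := by
  unfold WB
  rw [ENNReal.tsum_sigma' (f := fun x : (Σ n : ℕ, {T : Fin n → Fin 3 // T ∈ saw n ∧ ∀ j, j ≤ n → ‖pos T j‖ < R}) =>
    ENNReal.ofReal (xc ^ x.1))]
  refine tsum_congr fun n => ?_
  show ∑' _ : {T : Fin n → Fin 3 // T ∈ saw n ∧ ∀ j, j ≤ n → ‖pos T j‖ < R}, ENNReal.ofReal (xc ^ n) = _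
  rw [ENNReal.tsum_const]
  unfold _root_.CRT.Mass.wB
  rw [NTSF.fug_eq, ENNReal.ofReal_mul (Nat.cast_nonneg _), ENNReal.ofReal_natCast]
  congr 1
  rw [ENat.card_eq_coe_fintype_card, Fintype.card_subtype]
  have : (Finset.univ.filter fun s : Fin n → Fin 3 => s ∈ saw n ∧ ∀ j, j ≤ n → ‖pos s j‖ < R) =
      (saw n).filter fun s => ∀ j, j ≤ n → ‖pos s j‖ < R := by
    ext s
    simp
  rw [this]
  simp

/-- **the mass of the outward half walks of a ball without a near window cut** -/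
theorem ncw_le : ∃ C b0 : ℝ, 0 < C ∧ 1 ≤ b0 ∧ ∀ ρ b g B : ℝ, b0 ≤ b → b ≤ ρ → b ≤ B → 0 < g → g ≤ b →
    ∑' x : NB ρ b g B, ENNReal.ofReal (xc ^ x.1) ≤
      ENNReal.ofReal (C * (b / g) * B ^ (43 / 24 : ℝ) * b ^ (-(61 / 48) : ℝ)) := by
  obtain ⟨c, b1, hc, hb1, hV⟩ := HexObs.R2W.vv_low
  obtain ⟨C, hC, hW⟩ := _root_.CRT.Mass.up_E
  have hx := HexObs.xc_pos
  refine ⟨12 * (xc * (C * 6 ^ (43 / 24 : ℝ))) / (c * (1 / 2) ^ (61 / 48 : ℝ)), b1 + 1, by positivity, by linarith,
    fun ρ b g B hb hbρ hbB hg hgb => ?_⟩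
  have hb' : 2 ≤ b := by linarith
  have hbg : 1 ≤ b / g := by rwa [le_div_iff₀ hg, one_mul]
  obtain ⟨M, hM⟩ : ∃ M : ℕ, M = ⌈b / g⌉₊ := ⟨_, rfl⟩
  have hM1 : b / g ≤ M := by
    rw [hM]
    exact Nat.le_ceil _
  have hM2 : (M : ℝ) < b / g + 1 := by
    rw [hM]
    exact Nat.ceil_lt_add_one (by positivity)
  have h1 := glue_le (B := B) (show 1 ≤ b by linarith) hbρ hbB hg hM1
  have h2 := hV (b - 1) (by linarith)
  have h3 := hW (6 * B) (by linarith)
  rw [← wb_sum] at h3
  obtain ⟨S, hS⟩ : ∃ S, S = ∑' x : NB ρ b g B, ENNReal.ofReal (xc ^ x.1) := ⟨_, rfl⟩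
  rw [← hS] at h1 ⊢
  have hB0 : 0 < B := by linarith
  have h4 : ENNReal.ofReal (c * (1 / 2) ^ (61 / 48 : ℝ) * b ^ (61 / 48 : ℝ)) * S ≤
      ENNReal.ofReal (12 * (b / g) * (xc * (C * (6 * B) ^ (43 / 24 : ℝ)))) := by
    calc ENNReal.ofReal (c * (1 / 2) ^ (61 / 48 : ℝ) * b ^ (61 / 48 : ℝ)) * S
        ≤ ENNReal.ofReal (c * (b - 1) ^ (61 / 48 : ℝ)) * S := by
          refine mul_le_mul' (ENNReal.ofReal_le_ofReal ?_) le_rfl
          rw [mul_assoc, ← Real.mul_rpow (by norm_num) (by linarith)]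
          refine mul_le_mul_of_nonneg_left (Real.rpow_le_rpow (by linarith) (by linarith) (by norm_num)) hc.le
      _ ≤ gf (VV (b - 1)) * S := mul_le_mul' h2 le_rfl
      _ ≤ _ := h1
      _ ≤ (4 * (M + 1 : ℕ) : ℕ) * (ENNReal.ofReal xc * ENNReal.ofReal (C * (6 * B) ^ (43 / 24 : ℝ))) :=
          mul_le_mul' le_rfl (mul_le_mul' le_rfl h3)
      _ = ENNReal.ofReal ((4 * (M + 1 : ℕ) : ℕ) * (xc * (C * (6 * B) ^ (43 / 24 : ℝ)))) := by
          rw [← ENNReal.ofReal_mul hx.le, ENNReal.ofReal_mul (Nat.cast_nonneg _), ENNReal.ofReal_natCast]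
      _ ≤ _ := by
          refine ENNReal.ofReal_le_ofReal (mul_le_mul_of_nonneg_right ?_ (by positivity))
          push_cast
          linarith
  have hD : 0 < c * (1 / 2) ^ (61 / 48 : ℝ) * b ^ (61 / 48 : ℝ) := by positivity
  have h5 : S ≤ ENNReal.ofReal (12 * (b / g) * (xc * (C * (6 * B) ^ (43 / 24 : ℝ)))) /
      ENNReal.ofReal (c * (1 / 2) ^ (61 / 48 : ℝ) * b ^ (61 / 48 : ℝ)) := by
    rw [ENNReal.le_div_iff_mul_le (Or.inl (by simpa using hD)) (Or.inl ENNReal.ofReal_ne_top), mul_comm]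
    exact h4
  refine h5.trans (le_of_eq ?_)
  rw [← ENNReal.ofReal_div_of_pos hD]
  congr 1
  rw [Real.mul_rpow (by norm_num) hB0.le, Real.rpow_neg (by linarith)]
  field_simp

end Pool.Agent.CRT.R
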