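import Pool.Agent.CRT.MeanOf
import Pool.Agent.CRT.DropD
import Pool.Agent.CRT.Dic3

/-!
# CRT, row 11A, V2c (helper42): from the mass of the words in the box to the mean over n of an event of the walks

* **`red_msum`**: let `B` be an event of the walks and `P` a set of words such that for every walk in `B` (with `x1 N` to `x2 N`
  steps) a word `t` of the box is in `P` if its levels `lev t`, up to a constant and a sign, are the real parts (times 2) of the
  walk behind a time `p` up to which the real parts are small. If the mass of `P` in the box is small, then the sum over `n` of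
  the probabilities of `B` is small.
-/

set_option autoImplicit false

namespace Pool.Agent.CRT.V

open Finset

open HexObs hiding pos sw

open HexObs.SDN HexObs.NTW HexObs.NTA HexObs.NPR HexObs.CRT

open Pool.Agent.NTS.Res

open NTF (sw)

open NTSF (rot)

open scoped ENNReal

/-- **from words to walks, in the mean over n** -/
theorem red_msum {x1 x2 ε : ℝ} (h1 : 0 < x1) (h2 : x1 < x2) (hε : 0 < ε) : ∃ (q k0 : ℕ) (e0 : ℝ), 0 < e0 ∧
    ∀ k N : ℕ, k0 ≤ k → TIP.Sc k N → ∀ (B : ∀ n : ℕ, (Fin n → Fin 3) → Prop) (P : Set (List Bool)),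
      (∀ (n : ℕ) (s : Fin n → Fin 3), x1 * N ≤ n → (n : ℝ) ≤ x2 * N → B n s →
        (∃ i, i ≤ n ∧ 2 ≤ |2 * (pos s i).re|) ∧
        ∀ (p : ℕ) (t : List Bool) (σ c : ℤ), (σ = 1 ∨ σ = -1) → p + t.length = n → t ∈ WL (k + q) →
          (∀ j, j ≤ t.length → 2 * (pos s (p + j)).re = ((c + σ * lev t j : ℤ) : ℝ)) →
          (∀ i, i ≤ p → |2 * (pos s i).re| ≤ 1) → t ∈ P) →
      gf {t | t ∈ WL (k + q) ∧ t ∈ P} ≤ ENNReal.ofReal e0 * FK (k + q) → msum B x1 x2 N ≤ ε * N := by
  obtain ⟨q1, k0, e1, he1, hmean⟩ := mean_of h1 h2 (show 0 < ε / 3 by positivity)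
  obtain ⟨E, hE, hFE⟩ := FK_addE
  have hE0 : 0 < E := by linarith
  have hCD : 0 < DirA.CD := lt_of_lt_of_le one_pos DirA.CD_ge
  refine ⟨q1 + 5, k0, e1 / (DirA.CD * E ^ 5), by positivity, fun k N hk hsc B P hB hP => ?_⟩
  have hN0 : 0 < N := by
    have h3 := hsc.1
    have h4 := mz_pos k
    have h5 : (0 : ℝ) < N := by linarith
    exact_mod_cast h5
  have key : ∀ r : Fin 3, ∑ n ∈ (Finset.range (⌊x2 * N⌋₊ + 1)).filter (fun n : ℕ => x1 * N ≤ n),
      TOG.Pn n {t | B n (rot^[(r : ℕ)] (sw n t))} ≤ ε / 3 * N := by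
    intro r
    have g1 := hmean k N hk hsc {t | B t.length (rot^[(r : ℕ)] (sw t.length t))} ?_
    · refine le_trans (Finset.sum_le_sum fun n _ => ?_) g1
      refine Pn_mono fun t ht hBt => ?_
      have hl : t.length = n := ht.1
      subst hl
      exact hBt
    · have g2 := dir3_le (Dic.dl r) (k + q1)
        {t | x1 * N ≤ t.length ∧ (t.length : ℝ) ≤ x2 * N ∧ B t.length (rot^[(r : ℕ)] (sw t.length t))} P ?_ ?_
      · refine (g2.trans (mul_le_mul_right hP _)).trans ?_
        have g3 : FK (k + (q1 + 5)) ≤ ENNReal.ofReal (E ^ 5) * FK (k + q1) := by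
          have := hFE (k + q1) 5
          rwa [show k + q1 + 5 = k + (q1 + 5) by ring] at this
        calc ENNReal.ofReal DirA.CD * (ENNReal.ofReal (e1 / (DirA.CD * E ^ 5)) * FK (k + (q1 + 5)))
            ≤ ENNReal.ofReal DirA.CD * (ENNReal.ofReal (e1 / (DirA.CD * E ^ 5)) *
              (ENNReal.ofReal (E ^ 5) * FK (k + q1))) := by gcongr
          _ = ENNReal.ofReal (DirA.CD * (e1 / (DirA.CD * E ^ 5)) * E ^ 5) * FK (k + q1) := by
              rw [ENNReal.ofReal_mul (by positivity), ENNReal.ofReal_mul hCD.le]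
              ring
          _ = ENNReal.ofReal e1 * FK (k + q1) := by
              congr 2
              field_simp
      · rintro t ⟨h3, h4, h5⟩
        obtain ⟨⟨i, hi, hi2⟩, -⟩ := hB t.length _ h3 h4 h5
        refine ⟨i, hi, ?_⟩
        rw [Dic.re_rots t.length t r hi, mul_div_cancel₀ _ (by norm_num : (2 : ℝ) ≠ 0)] at hi2
        exact_mod_cast hi2
      · rintro t - ⟨h3, h4, h5⟩ p t2 σ c hσ hl hW hlev hsm
        obtain ⟨-, h6⟩ := hB t.length _ h3 h4 h5
        refine h6 p t2 σ c hσ hl (by rwa [show k + q1 + 5 = k + (q1 + 5) by ring] at hW) (fun j hj => ?_) (fun i hi => ?_)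
        · rw [Dic.re_rots t.length t r (by omega), hlev j hj, mul_div_cancel₀ _ (by norm_num : (2 : ℝ) ≠ 0)]
        · rw [Dic.re_rots t.length t r (by omega), mul_div_cancel₀ _ (by norm_num : (2 : ℝ) ≠ 0)]
          exact_mod_cast hsm i hi
  refine (Dic.msum_le3 B h1 hN0).trans ?_
  rw [Fin.sum_univ_three]
  have := key 0
  have := key 1
  have := key 2
  linarith

end Pool.Agent.CRT.V
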