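import Pool.Agent.CRT.Scale

/-!
# CRT, K8a (helper45), step 3: restriction to a smaller ball in the limit
-/

set_option autoImplicit false

open Set Filter Topology MeasureTheory
open scoped ENNReal

namespace Pool.Agent.CRT

open Pool.Agent.NTS.Res
open Pool.Agent.NPR

/-- curves in a smaller ball -/
def El (lam : ℝ) : Set (CI × ℝ) := {x | ‖x.1‖ < lam}

/-- change of the unit of length -/
noncomputable def Sl (lam : ℝ) (x : CI × ℝ) : CI × ℝ := (sc (1 / lam) x.1, x.2 / lam ^ (4 / 3 : ℝ))

lemma sc_cont (c : ℝ) : Continuous (sc c) := by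
  unfold sc
  fun_prop

lemma Sl_cont (lam : ℝ) : Continuous (Sl lam) := by
  unfold Sl
  exact ((sc_cont _).comp continuous_fst).prodMk (continuous_snd.div_const _)

lemma El_open (lam : ℝ) : IsOpen (El lam) := isOpen_lt (continuous_norm.comp continuous_fst) continuous_const

lemma El_frontier (lam : ℝ) : frontier (El lam) ⊆ {x : CI × ℝ | ‖x.1‖ = lam} :=
  frontier_lt_subset_eq (continuous_norm.comp continuous_fst) continuous_const

/-- the restricted measure, as a probability -/
noncomputable def rs (lam : ℝ) (M : Measure (CI × ℝ)) : Measure (CI × ℝ) := (M (El lam))⁻¹ • (M.restrict (El lam)).map (Sl lam)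

lemma rs_tmul (lam c : ℝ) (M : Measure (CI × ℝ)) : rs lam (M.map (tmul c)) = (rs lam M).map (tmul c) := by
  have e0 : tmul c ⁻¹' El lam = El lam := rfl
  have hm := (tmul_cont c).measurable
  unfold rs
  rw [Measure.map_apply hm (El_open lam).measurableSet, e0, Measure.map_smul, Measure.restrict_map hm (El_open lam).measurableSet,
    e0, Measure.map_map (Sl_cont lam).measurable hm, Measure.map_map hm (Sl_cont lam).measurable]
  congr 2
  funext x
  show (sc (1 / lam) x.1, c * x.2 / lam ^ (4 / 3 : ℝ)) = (sc (1 / lam) x.1, c * (x.2 / lam ^ (4 / 3 : ℝ)))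
  rw [mul_div_assoc]

lemma tmul_tmul (a b : ℝ) (M : Measure (CI × ℝ)) : (M.map (tmul a)).map (tmul b) = M.map (tmul (b * a)) := by
  rw [Measure.map_map (tmul_cont b).measurable (tmul_cont a).measurable]
  congr 1
  funext x
  show (x.1, b * (a * x.2)) = (x.1, b * a * x.2)
  rw [mul_assoc]

lemma tmul_one (M : Measure (CI × ℝ)) : M.map (tmul 1) = M := by
  have : tmul 1 = id := by
    funext x
    show (x.1, 1 * x.2) = x
    rw [one_mul]
  rw [this, Measure.map_id]

/-- **restriction in the limit** -/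
theorem restr (hP : ClPr) (hB : MassB) (hS : ClRes) {r : ℕ → ℝ} {M : Measure (CI × ℝ)} (hr : Tendsto r atTop atTop)
    (hM : IsProbabilityMeasure M) (h : ClTo r M) {lam : ℝ} (hl : 0 < lam) (hl1 : lam < 1)
    (h0 : M {x : CI × ℝ | ‖x.1‖ = lam} = 0) :
    0 < (M (El lam)).toReal ∧ Tendsto (fun k => cR (lam * r k) / cR (r k)) atTop (𝓝 (M (El lam)).toReal) ∧
      ClTo (fun k => lam * r k) (rs lam M) ∧ IsProbabilityMeasure (rs lam M) := by
  obtain ⟨N, hN, hr1, h1⟩ := h.shift hr 0
  have hp : ∀ k, IsProbabilityMeasure (cl (r (k + N))) := fun k => (hP _ (hN k)).1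
  have hp' : ∀ k, IsProbabilityMeasure (cl (lam * r (k + N))) := fun k => (hP _ (mul_pos hl (hN k))).1
  have hf : M (frontier (El lam)) = 0 := measure_mono_null (El_frontier lam) h0
  have hid : ∀ k, ((cl (r (k + N))).restrict (El lam)).map (Sl lam) =
      ENNReal.ofReal (cR (lam * r (k + N)) / cR (r (k + N))) • cl (lam * r (k + N)) := fun k => hS _ _ (hN k) hl hl1.le
  have hq0 : ∀ k, 0 < cR (lam * r (k + N)) / cR (r (k + N)) := fun k =>
    div_pos (hP _ (mul_pos hl (hN k))).2.1 (hP _ (hN k)).2.1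
  -- the mass
  have hmass : ∀ k, cl (r (k + N)) (El lam) = ENNReal.ofReal (cR (lam * r (k + N)) / cR (r (k + N))) := fun k => by
    have e1 := congrArg (fun μ : Measure (CI × ℝ) => μ univ) (hid k)
    simp only [Measure.smul_apply, smul_eq_mul] at e1
    rw [Measure.map_apply (Sl_cont lam).measurable MeasurableSet.univ, preimage_univ, Measure.restrict_apply_univ, measure_univ,
      mul_one] at e1
    exact e1
  have hq : Tendsto (fun k => cR (lam * r (k + N)) / cR (r (k + N))) atTop (𝓝 (M (El lam)).toReal) := by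
    have e2 := WTo.null (μs := fun k => cl (r (k + N))) h1 hf
    have e3 := (ENNReal.tendsto_toReal (measure_ne_top M (El lam))).comp e2
    refine e3.congr fun k => ?_
    show (cl (r (k + N)) (El lam)).toReal = _
    rw [hmass k, ENNReal.toReal_ofReal (hq0 k).le]
  -- positive
  have hpos : 0 < (M (El lam)).toReal := by
    obtain ⟨c, C, R0, hc, hR0, hb⟩ := hB
    have hR0' : 0 < max R0 (R0 / lam) := lt_max_of_lt_left hR0
    have hC : 0 < C := by
      have h2 := hb R0 le_rfl
      have h3 : 0 < R0 ^ (43 / 24 : ℝ) := Real.rpow_pos_of_pos hR0 _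
      have h4 : 0 < C * R0 ^ (43 / 24 : ℝ) := (mul_pos hc h3).trans_le (h2.1.trans h2.2)
      exact (pos_iff_pos_of_mul_pos h4).2 h3
    have key : ∀ᶠ k in atTop, c / C * lam ^ (43 / 24 : ℝ) ≤ cR (lam * r (k + N)) / cR (r (k + N)) := by
      filter_upwards [hr1.eventually_ge_atTop (max R0 (R0 / lam))] with k hk
      have h5 : R0 ≤ r (k + N) := (le_max_left _ _).trans hk
      have h6 : R0 ≤ lam * r (k + N) := by
        have := (le_max_right _ _).trans hk
        rw [div_le_iff₀ hl] at this
        linarith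
      have h7 := (hb _ h6).1
      have h8 := (hb _ h5).2
      have h9 : 0 < r (k + N) ^ (43 / 24 : ℝ) := Real.rpow_pos_of_pos (hN k) _
      rw [Real.mul_rpow hl.le (hN k).le] at h7
      rw [le_div_iff₀ (hP _ (hN k)).2.1]
      calc c / C * lam ^ (43 / 24 : ℝ) * cR (r (k + N)) ≤ c / C * lam ^ (43 / 24 : ℝ) * (C * r (k + N) ^ (43 / 24 : ℝ)) := by
            have : 0 ≤ c / C * lam ^ (43 / 24 : ℝ) := by positivity
            exact mul_le_mul_of_nonneg_left h8 this
        _ = c * (lam ^ (43 / 24 : ℝ) * r (k + N) ^ (43 / 24 : ℝ)) := by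
            field_simp
        _ ≤ _ := h7
    have h10 := ge_of_tendsto hq key
    have h11 : 0 < c / C * lam ^ (43 / 24 : ℝ) := by positivity
    linarith
  have hne : M (El lam) ≠ 0 := fun h2 => by
    rw [h2, ENNReal.toReal_zero] at hpos
    exact lt_irrefl _ hpos
  refine ⟨hpos, (tendsto_add_atTop_iff_nat N).1 hq, fun f => ?_, ?_⟩
  · refine (tendsto_add_atTop_iff_nat N).1 ?_
    have e4 := WTo.setInt (μs := fun k => cl (r (k + N))) h1 hf (f.compContinuous ⟨Sl lam, Sl_cont lam⟩)
    have e5 := (hq.inv₀ hpos.ne').mul e4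
    have e6 : ∫ x, f x ∂(rs lam M) = (M (El lam)).toReal⁻¹ * ∫ x in El lam, (f.compContinuous ⟨Sl lam, Sl_cont lam⟩) x ∂M := by
      unfold rs
      rw [integral_smul_measure, integral_map (Sl_cont lam).measurable.aemeasurable f.continuous.aestronglyMeasurable,
        ENNReal.toReal_inv, smul_eq_mul]
      rfl
    rw [e6]
    refine e5.congr fun k => ?_
    have e7 : ∫ x in El lam, (f.compContinuous ⟨Sl lam, Sl_cont lam⟩) x ∂(cl (r (k + N))) =
        (cR (lam * r (k + N)) / cR (r (k + N))) * ∫ x, f x ∂(cl (lam * r (k + N))) := by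
      have e8 : ∫ x, f x ∂(((cl (r (k + N))).restrict (El lam)).map (Sl lam)) =
          ∫ x, f x ∂(ENNReal.ofReal (cR (lam * r (k + N)) / cR (r (k + N))) • cl (lam * r (k + N))) := by rw [hid k]
      rw [integral_smul_measure, integral_map (Sl_cont lam).measurable.aemeasurable f.continuous.aestronglyMeasurable,
        ENNReal.toReal_ofReal (hq0 k).le, smul_eq_mul] at e8
      exact e8
    rw [e7, ← mul_assoc, inv_mul_cancel₀ (hq0 k).ne', one_mul]
  · refine ⟨?_⟩
    unfold rs
    rw [Measure.smul_apply, smul_eq_mul, Measure.map_apply (Sl_cont lam).measurable MeasurableSet.univ, preimage_univ,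
      Measure.restrict_apply_univ]
    exact ENNReal.inv_mul_cancel hne (measure_ne_top _ _)

end Pool.Agent.CRT
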