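import Pool.Agent.TIP.StrN
import Pool.Agent.TIP.DefsS

/-!
CRT, row 11A V3 (helper16): the size of a walk in the mean window of a scale is comparable with the scale.
-/

set_option autoImplicit false

namespace HexObs

namespace CRT

open Finset TIP HexObs.SIM

open scoped ENNReal

open Pool.Agent.NTS.Res

/-- the number of letters of the scale k is comparable with 2 ^ (4 k / 3) -/
theorem sc_pow : ∃ c C : ℝ, 0 < c ∧ 0 < C ∧ ∀ k N : ℕ, Sc k N →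
    c * ((2 : ℝ) ^ k) ^ (4 / 3 : ℝ) ≤ N ∧ (N : ℝ) ≤ C * ((2 : ℝ) ^ k) ^ (4 / 3 : ℝ) := by
  obtain ⟨Cz, hCz⟩ := mupZ
  obtain ⟨cz, hcz, hcz'⟩ := mlowZ
  have hCz0 : 0 < Cz := by
    have h1 := hCz 0
    have h2 : (0 : ℝ) < NTSF.MZ 0 := PW.mZ_pos Nat.one_le_two_pow
    rw [Nat.cast_zero, mul_zero, Real.rpow_zero, mul_one] at h1
    linarith
  have e : ∀ k : ℕ, ((2 : ℝ) ^ k) ^ (4 / 3 : ℝ) = (2 : ℝ) ^ (4 / 3 * (k : ℝ)) := by
    intro k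
    rw [← Real.rpow_natCast, ← Real.rpow_mul (by norm_num)]
    congr 1
    ring
  refine ⟨cz, Cz * 2 ^ (4 / 3 : ℝ), hcz, by positivity, fun k N ⟨h1, h2⟩ => ⟨?_, ?_⟩⟩
  · rw [e]
    exact (hcz' k).trans h1
  · have h3 : (N : ℝ) ≤ Cz * (2 : ℝ) ^ (4 / 3 * ((k + 1 : ℕ) : ℝ)) := h2.le.trans (hCz (k + 1))
    refine h3.trans (le_of_eq ?_)
    rw [← e, pow_succ, Real.mul_rpow (by positivity) (by norm_num)]
    ring

/-- the sizes of the walks in the window [x1 N, x2 N] of a scale -/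
theorem size_sc {x1 x2 : ℝ} (hx1 : 0 < x1) (hx12 : x1 < x2) : ∃ (c C : ℝ) (k0 : ℕ), 0 < c ∧ 0 < C ∧ ∀ k N : ℕ, k0 ≤ k → Sc k N →
    ∀ n : ℕ, x1 * N ≤ n → (n : ℝ) ≤ x2 * N → 1 ≤ n ∧ c * 2 ^ k ≤ size n ∧ size n ≤ C * 2 ^ k := by
  have hx2 : 0 < x2 := hx1.trans hx12
  obtain ⟨cs, Cs, hcs, hsize, -⟩ := NTSF.finE
  obtain ⟨a, A, ha, hA, hsc⟩ := sc_pow
  have hCs : 0 < Cs := by
    have h1 := (hsize 1 le_rfl).2
    have h2 := NTSF.size_pos (n := 1) le_rfl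
    rw [Nat.cast_one, Real.one_rpow, mul_one] at h1
    linarith
  obtain ⟨k0, hk0⟩ := pow_unbounded_of_one_lt (1 / (x1 * a)) (one_lt_two (α := ℝ))
  refine ⟨cs * (x1 * a) ^ (3 / 4 : ℝ), Cs * (x2 * A) ^ (3 / 4 : ℝ), k0, by positivity, by positivity,
    fun k N hk hS n h1 h2 => ?_⟩
  obtain ⟨g1, g2⟩ := hsc k N hS
  have hp : ∀ x : ℝ, 0 < x → (x * ((2 : ℝ) ^ k) ^ (4 / 3 : ℝ)) ^ (3 / 4 : ℝ) = x ^ (3 / 4 : ℝ) * 2 ^ k := by
    intro x hx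
    rw [Real.mul_rpow hx.le (by positivity), ← Real.rpow_mul (by positivity), show (4 / 3 : ℝ) * (3 / 4) = 1 by norm_num,
      Real.rpow_one]
  have hlo : x1 * a * ((2 : ℝ) ^ k) ^ (4 / 3 : ℝ) ≤ n := by
    refine le_trans ?_ h1
    rw [mul_assoc]
    exact mul_le_mul_of_nonneg_left g1 hx1.le
  have hup : (n : ℝ) ≤ x2 * A * ((2 : ℝ) ^ k) ^ (4 / 3 : ℝ) := by
    refine h2.trans ?_
    rw [mul_assoc]
    exact mul_le_mul_of_nonneg_left g2 hx2.le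
  have hn : 1 ≤ n := by
    have h3 : (2 : ℝ) ^ k0 ≤ 2 ^ k := pow_le_pow_right₀ (by norm_num) hk
    have h4 : (2 : ℝ) ^ k ≤ ((2 : ℝ) ^ k) ^ (4 / 3 : ℝ) := by
      have h5 : (1 : ℝ) ≤ 2 ^ k := one_le_pow₀ (by norm_num)
      calc (2 : ℝ) ^ k = ((2 : ℝ) ^ k) ^ (1 : ℝ) := (Real.rpow_one _).symm
        _ ≤ _ := Real.rpow_le_rpow_of_exponent_le h5 (by norm_num)
    rw [div_lt_iff₀ (by positivity)] at hk0
    have h6 : 0 < (n : ℝ) := by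
      refine lt_of_lt_of_le ?_ hlo
      positivity
    exact_mod_cast h6
  refine ⟨hn, ?_, ?_⟩
  · refine le_trans ?_ (hsize n hn).1
    rw [mul_assoc]
    refine mul_le_mul_of_nonneg_left ?_ hcs.le
    rw [← hp _ (by positivity)]
    exact Real.rpow_le_rpow (by positivity) hlo (by norm_num)
  · refine (hsize n hn).2.trans ?_
    rw [mul_assoc]
    refine mul_le_mul_of_nonneg_left ?_ hCs.le
    rw [← hp _ (by positivity)]
    exact Real.rpow_le_rpow (by positivity) hup (by norm_num)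

end CRT

end HexObs
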