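import Pool.Agent.CRT.VBadO
import Pool.Agent.CRT.RedM
import Pool.Agent.CRT.SizeSc
import Pool.Agent.CRT.VSl

/-!
# CRT, row 11A: VBadA (helpers 28, 42, 16, 86, 84, 69)
-/

namespace Pool.Agent.CRT.V

theorem vBadA_of (hS : VSl) : VBadA :=
  vBadA_of' (fun _ _ _ h1 h2 h3 => red_msum h1 h2 h3) (fun _ _ h1 h2 => HexObs.CRT.size_sc h1 h2)
    (fun k1 _ hn => HexObs.CRT.sc_ex k1 hn) hS

theorem vBadA : VBadA := vBadA_of vSl

end Pool.Agent.CRT.V
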