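import Pool.Agent.CRT.RvaOf
import Pool.Agent.CRT.VBadZ

/-!
# CRT, row 11A: Q1 makes the numbers of walks regularly varying (assembly, helper66)

**`rva : Q1 → RVa`**; **`ratC_iff : RatC ↔ Q1`** without hypothesis.
-/

set_option autoImplicit false

namespace Pool.Agent.CRT

/-- **Q1 makes the numbers of walks regularly varying** -/
theorem rva : Q1 → RVa := V.rva_of V.vBadA

/-- **Q1 is equivalent to the convergence of the critical ratios** -/
theorem ratC_iff : RatC ↔ Q1 := crt_q rva

end Pool.Agent.CRT
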