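import Pool.Agent.CRT.VDefs2
import Pool.Agent.CRT.Weak
import Pool.Agent.CRT.Res
import Pool.Agent.PW.WindN

/-!
# CRT, row 11A L (helper90): the limit of the probabilities of the cuts

**`vlim_of (hK : VK2) (hS : VSl) : VLim`**. Upper bound: the curve of a walk with a cut has a weak cut, and `FC a t` is closed.
Lower bound: the curves with a strict approximate weak cut form an open set that contains `FC (a + δ) (t - δ)`; the walk of such
a curve has an approximate cut, hence (`VK2`) a cut nearby, and not much later (`VSl`).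
-/

set_option autoImplicit false

noncomputable section

open Set Filter Topology MeasureTheory
open scoped ENNReal

namespace Pool.Agent.CRT.V

open Pool.Agent.NTS.Res
open Pool.Agent.NPR
open Pool.Agent.CRT

namespace VL

/-! ### sets of curves -/

lemma ev_c : Continuous fun x : CI × unitInterval => x.1 x.2 := continuous_eval

lemma re_c (f : CI × unitInterval → unitInterval) (hf : Continuous f) : Continuous fun x : CI × unitInterval => (x.1 (f x)).re :=
  Complex.continuous_re.comp (ev_c.comp (continuous_fst.prodMk hf))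

lemma wcut_iff (γ : CI) (u : unitInterval) : WCut γ u ↔
    (∀ v, (γ (min v u)).re ≤ (γ u).re) ∧ ∀ v, (γ u).re ≤ (γ (max v u)).re := by
  constructor
  · rintro ⟨h1, h2⟩
    exact ⟨fun v => h1 _ (min_le_right _ _), fun v => h2 _ (le_max_right _ _)⟩
  · rintro ⟨h1, h2⟩
    refine ⟨fun v hv => ?_, fun v hv => ?_⟩
    · have := h1 v
      rwa [min_eq_left hv] at this
    · have := h2 v
      rwa [max_eq_left hv] at this

theorem fc_closed (a t : ℝ) : IsClosed (FC a t) := by
  have e : FC a t = Prod.fst '' {x : CI × unitInterval | (x.2 : ℝ) ≤ t ∧ a ≤ (x.1 x.2).re ∧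
      (∀ v, (x.1 (min v x.2)).re ≤ (x.1 x.2).re) ∧ ∀ v, (x.1 x.2).re ≤ (x.1 (max v x.2)).re} := by
    ext γ
    constructor
    · rintro ⟨u, h1, h2, h3⟩
      exact ⟨(γ, u), ⟨h1, h2, (wcut_iff γ u).1 h3⟩, rfl⟩
    · rintro ⟨⟨γ', u⟩, ⟨h1, h2, h3⟩, rfl⟩
      exact ⟨u, h1, h2, (wcut_iff _ u).2 h3⟩
  rw [e]
  refine isClosedMap_fst_of_compactSpace _ (IsClosed.inter ?_ (IsClosed.inter ?_ (IsClosed.inter ?_ ?_)))
  · exact isClosed_le (continuous_subtype_val.comp continuous_snd) continuous_const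
  · exact isClosed_le continuous_const (re_c _ continuous_snd)
  · have : {x : CI × unitInterval | ∀ v, (x.1 (min v x.2)).re ≤ (x.1 x.2).re} =
        ⋂ v, {x : CI × unitInterval | (x.1 (min v x.2)).re ≤ (x.1 x.2).re} := by
      ext x
      simp
    show IsClosed {x : CI × unitInterval | ∀ v, (x.1 (min v x.2)).re ≤ (x.1 x.2).re}
    rw [this]
    exact isClosed_iInter fun v => isClosed_le (re_c _ (continuous_const.min continuous_snd)) (re_c _ continuous_snd)
  · have : {x : CI × unitInterval | ∀ v, (x.1 x.2).re ≤ (x.1 (max v x.2)).re} =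
        ⋂ v, {x : CI × unitInterval | (x.1 x.2).re ≤ (x.1 (max v x.2)).re} := by
      ext x
      simp
    show IsClosed {x : CI × unitInterval | ∀ v, (x.1 x.2).re ≤ (x.1 (max v x.2)).re}
    rw [this]
    exact isClosed_iInter fun v => isClosed_le (re_c _ continuous_snd) (re_c _ (continuous_const.max continuous_snd))

/-- the curves with a strict approximate weak cut -/
def OC (a t τ : ℝ) : Set CI := {γ | ∃ u : unitInterval, (u : ℝ) < t ∧ a < (γ u).re ∧
  (∀ v, (γ (min v u)).re < (γ u).re + τ) ∧ ∀ v, (γ u).re - τ < (γ (max v u)).re}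

theorem oc_open (a t τ : ℝ) : IsOpen (OC a t τ) := by
  have e : OC a t τ = ⋃ u : unitInterval, ⋃ _ : (u : ℝ) < t, ({γ : CI | a < (γ u).re} ∩
      (Prod.fst '' {x : CI × unitInterval | (x.1 u).re + τ ≤ (x.1 (min x.2 u)).re})ᶜ ∩
      (Prod.fst '' {x : CI × unitInterval | (x.1 (max x.2 u)).re ≤ (x.1 u).re - τ})ᶜ) := by
    ext γ
    simp only [mem_iUnion, exists_prop]
    constructor
    · rintro ⟨u, h1, h2, h3, h4⟩
      refine ⟨u, h1, ⟨h2, ?_⟩, ?_⟩
      · rintro ⟨⟨γ', v⟩, h5, rfl⟩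
        exact absurd (h3 v) (not_lt.2 h5)
      · rintro ⟨⟨γ', v⟩, h5, rfl⟩
        exact absurd (h4 v) (not_lt.2 h5)
    · rintro ⟨u, h1, ⟨h2, h3⟩, h4⟩
      refine ⟨u, h1, h2, fun v => ?_, fun v => ?_⟩
      · by_contra h5
        exact h3 ⟨(γ, v), not_lt.1 h5, rfl⟩
      · by_contra h5
        exact h4 ⟨(γ, v), not_lt.1 h5, rfl⟩
  rw [e]
  refine isOpen_iUnion fun u => isOpen_iUnion fun _ => IsOpen.inter (IsOpen.inter ?_ ?_) ?_
  · exact isOpen_lt continuous_const (Complex.continuous_re.comp (continuous_eval_const u))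
  · refine (isClosedMap_fst_of_compactSpace _ ?_).isOpen_compl
    exact isClosed_le ((re_c _ continuous_const).add continuous_const) (re_c _ (continuous_snd.min continuous_const))
  · refine (isClosedMap_fst_of_compactSpace _ ?_).isOpen_compl
    exact isClosed_le (re_c _ (continuous_snd.max continuous_const)) ((re_c _ continuous_const).sub continuous_const)

lemma fc_sub_oc {a a' t t' τ : ℝ} (ha : a < a') (ht : t' < t) (hτ : 0 < τ) : FC a' t' ⊆ OC a t τ := by
  rintro γ ⟨u, h1, h2, h3⟩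
  obtain ⟨h4, h5⟩ := (wcut_iff γ u).1 h3
  exact ⟨u, by linarith, by linarith, fun v => by linarith [h4 v], fun v => by linarith [h5 v]⟩

/-- the curves that are behind `a` at a time at most `e` -/
def Ea (a e : ℝ) : Set CI := {γ | ∃ u : unitInterval, (u : ℝ) ≤ e ∧ a ≤ (γ u).re}

theorem ea_closed (a e : ℝ) : IsClosed (Ea a e) := by
  have h : Ea a e = Prod.fst '' {x : CI × unitInterval | (x.2 : ℝ) ≤ e ∧ a ≤ (x.1 x.2).re} := by
    ext γ
    constructor
    · rintro ⟨u, h1, h2⟩
      exact ⟨(γ, u), ⟨h1, h2⟩, rfl⟩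
    · rintro ⟨⟨γ', u⟩, ⟨h1, h2⟩, rfl⟩
      exact ⟨u, h1, h2⟩
  rw [h]
  refine isClosedMap_fst_of_compactSpace _ (IsClosed.inter ?_ ?_)
  · exact isClosed_le (continuous_subtype_val.comp continuous_snd) continuous_const
  · exact isClosed_le continuous_const (re_c _ continuous_snd)

lemma ea_inter {a : ℝ} {γ : CI} (h : ∀ i : ℕ, γ ∈ Ea a (1 / ((i : ℝ) + 1))) : a ≤ (γ 0).re := by
  have hc : Continuous fun u : unitInterval => (γ u).re := Complex.continuous_re.comp γ.continuous
  choose u h1 h2 using h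
  have h3 : Tendsto (fun i => ((u i : unitInterval) : ℝ)) atTop (𝓝 0) :=
    squeeze_zero (fun i => (u i).2.1) h1 tendsto_one_div_add_atTop_nhds_zero_nat
  have h4 : Tendsto u atTop (𝓝 0) := by
    rw [tendsto_subtype_rng]
    exact h3
  exact ge_of_tendsto' ((hc.tendsto 0).comp h4) h2

/-! ### weak convergence -/

instance (n : ℕ) : IsProbabilityMeasure (law n) := NTSF.law_prob n

section

variable {μs : ℕ → Measure CI} {μ : Measure CI} [hs : ∀ k, IsProbabilityMeasure (μs k)] [h : IsProbabilityMeasure μ]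

include hs h

lemma ev_open (hw : WTo μs μ) {U : Set CI} (hU : IsOpen U) {e : ℝ} (he : 0 < e) :
    ∀ᶠ k in atTop, (μ U).toReal - e ≤ (μs k U).toReal := by
  by_contra hcon
  rw [not_eventually] at hcon
  have h1 := hw.open_le hU (c := ENNReal.ofReal ((μ U).toReal - e)) (hcon.mono fun k hk => by
    rw [not_le] at hk
    rw [← ENNReal.ofReal_toReal (measure_ne_top (μs k) U)]
    exact ENNReal.ofReal_le_ofReal hk.le)
  obtain ⟨k, hk⟩ := hcon.exists
  rw [not_le] at hk
  have h2 : 0 ≤ (μs k U).toReal := ENNReal.toReal_nonneg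
  have h3 := ENNReal.toReal_mono ENNReal.ofReal_ne_top h1
  rw [ENNReal.toReal_ofReal (by linarith)] at h3
  linarith

lemma ev_closed (hw : WTo μs μ) {F : Set CI} (hF : IsClosed F) {e : ℝ} (he : 0 < e) :
    ∀ᶠ k in atTop, (μs k F).toReal ≤ (μ F).toReal + e := by
  by_contra hcon
  rw [not_eventually] at hcon
  have h1 := hw.le_closed hF (c := ENNReal.ofReal ((μ F).toReal + e)) (hcon.mono fun k hk => by
    rw [not_le] at hk
    rw [← ENNReal.ofReal_toReal (measure_ne_top (μs k) F)]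
    exact ENNReal.ofReal_le_ofReal hk.le)
  have h2 : 0 ≤ (μ F).toReal := ENNReal.toReal_nonneg
  have h3 := ENNReal.toReal_mono (measure_ne_top _ _) h1
  rw [ENNReal.toReal_ofReal (by linarith)] at h3
  linarith

end

lemma wto {ν : Measure CI} (h : LawTo (fun n => n) ν) : WTo law ν := h

/-- the start of the limits -/
lemma start {ν : Measure CI} [IsProbabilityMeasure ν] (h : LawTo (fun n => n) ν) : ν {γ : CI | γ 0 = 0}ᶜ = 0 := by
  have hc : IsClosed {γ : CI | γ 0 = 0} := isClosed_eq (continuous_eval_const 0) continuous_const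
  have h1 := (wto h).open_le hc.isOpen_compl (c := 0) (Frequently.of_forall fun n => by
    rw [NTSF.law_zero]
    intro s _ hcon
    exact hcon (NTSF.curve_zero s))
  exact le_antisymm h1 (zero_le)

lemma ea_small {ν : Measure CI} [IsProbabilityMeasure ν] (h : LawTo (fun n => n) ν) {a δ : ℝ} (ha : 0 < a) (hδ : 0 < δ) :
    ∃ e : ℝ, 0 < e ∧ (ν (Ea a e)).toReal < δ := by
  have h1 : Tendsto (fun i : ℕ => ν (Ea a (1 / ((i : ℝ) + 1)))) atTop (𝓝 (ν (⋂ i : ℕ, Ea a (1 / ((i : ℝ) + 1))))) := by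
    refine tendsto_measure_iInter_atTop (fun i => (ea_closed _ _).measurableSet.nullMeasurableSet) ?_ ⟨0, measure_ne_top _ _⟩
    intro i j hij γ hγ
    obtain ⟨u, h2, h3⟩ := hγ
    refine ⟨u, h2.trans ?_, h3⟩
    have h6 : (i : ℝ) ≤ j := by exact_mod_cast hij
    exact one_div_le_one_div_of_le (by positivity) (by linarith)
  have h2 : ν (⋂ i : ℕ, Ea a (1 / ((i : ℝ) + 1))) = 0 := by
    refine measure_mono_null (fun γ hγ => ?_) (start h)
    intro h3
    have h4 := ea_inter fun i => mem_iInter.1 hγ i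
    have h5 : γ 0 = 0 := h3
    rw [h5, Complex.zero_re] at h4
    linarith
  rw [h2] at h1
  have h3 := (ENNReal.tendsto_toReal ENNReal.zero_ne_top).comp h1
  rw [ENNReal.toReal_zero] at h3
  obtain ⟨i, hi⟩ := (h3.eventually (gt_mem_nhds hδ)).exists
  exact ⟨1 / ((i : ℝ) + 1), by positivity, hi⟩

lemma fa_small (ν : Measure CI) [IsProbabilityMeasure ν] {δ : ℝ} (hδ : 0 < δ) :
    ∃ M : ℝ, 0 < M ∧ (ν {γ : CI | M ≤ ‖γ‖}).toReal < δ := by
  have hc : ∀ M : ℝ, IsClosed {γ : CI | M ≤ ‖γ‖} := fun M => isClosed_le continuous_const continuous_norm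
  have h1 : Tendsto (fun i : ℕ => ν {γ : CI | (i : ℝ) + 1 ≤ ‖γ‖}) atTop (𝓝 (ν (⋂ i : ℕ, {γ : CI | (i : ℝ) + 1 ≤ ‖γ‖}))) := by
    refine tendsto_measure_iInter_atTop (fun i => (hc _).measurableSet.nullMeasurableSet) ?_ ⟨0, measure_ne_top _ _⟩
    intro i j hij γ hγ
    have h6 : (i : ℝ) ≤ j := by exact_mod_cast hij
    have h7 : (j : ℝ) + 1 ≤ ‖γ‖ := hγ
    show (i : ℝ) + 1 ≤ ‖γ‖
    linarith
  have h2 : ⋂ i : ℕ, {γ : CI | (i : ℝ) + 1 ≤ ‖γ‖} = ∅ := by
    rw [eq_empty_iff_forall_notMem]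
    intro γ hγ
    obtain ⟨i, hi⟩ := exists_nat_gt ‖γ‖
    have h3 : (i : ℝ) + 1 ≤ ‖γ‖ := mem_iInter.1 hγ i
    linarith
  rw [h2, measure_empty] at h1
  have h3 := (ENNReal.tendsto_toReal ENNReal.zero_ne_top).comp h1
  rw [ENNReal.toReal_zero] at h3
  obtain ⟨i, hi⟩ := (h3.eventually (gt_mem_nhds hδ)).exists
  exact ⟨(i : ℝ) + 1, by positivity, hi⟩

/-! ### walks -/

lemma step_norm (i : ℕ) (a : Fin 3) : ‖step i a‖ = 1 := by
  unfold step
  have h : (2 * (Real.pi : ℂ) * Complex.I * ((a : ℕ) : ℂ) / 3) = ((2 * Real.pi * (a : ℕ) / 3 : ℝ) : ℂ) * Complex.I := by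
    push_cast
    ring
  rw [norm_mul, norm_pow, norm_neg, norm_one, one_pow, one_mul, h, Complex.norm_exp_ofReal_mul_I]

lemma pos_near {n : ℕ} (hn : 1 ≤ n) (s : Fin n → Fin 3) (u : unitInterval) : ∃ (i : ℕ) (a : ℝ), i < n ∧ 0 ≤ a ∧ a ≤ 1 ∧
    (i : ℝ) ≤ u * n ∧ (u : ℝ) * n ≤ i + 1 ∧ (curve s u).re * size n = (1 - a) * (pos s i).re + a * (pos s (i + 1)).re := by
  obtain ⟨i, a, hi, h0, h1, h2, h3, h4⟩ := NTSF.curve_apply hn s u
  refine ⟨i, a, hi, h0, h1, h2, h3, ?_⟩
  have hs := NTSF.size_pos hn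
  rw [h4, Complex.div_ofReal_re, div_mul_cancel₀ _ hs.ne', Complex.add_re, Complex.re_ofReal_mul, Complex.re_ofReal_mul]

/-- the curve of a walk with a cut has a weak cut -/
theorem cut_fc {n : ℕ} (hn : 1 ≤ n) {s : Fin n → Fin 3} {a t : ℝ} {k : ℕ} (hk : (k : ℝ) ≤ t * n) (hc : Cut s k)
    (ha : a * size n ≤ (pos s k).re) : curve s ∈ FC a t := by
  obtain ⟨hkn, -, hst, hb, hf⟩ := hc
  have hs := NTSF.size_pos hn
  have hn0 : (0 : ℝ) < n := by exact_mod_cast hn
  have hre : (pos s (k + 1)).re = (pos s k).re + 1 := by rw [hst]; simp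
  have hu : (curve s (NTSF.Wd.tm n k)).re = (pos s k).re / size n := by
    rw [NTSF.Wd.curve_tm hn hkn.le, Complex.div_ofReal_re]
  have htm : ((NTSF.Wd.tm n k : unitInterval) : ℝ) * n = k := by
    rw [NTSF.Wd.tm_coe hkn.le]
    field_simp
  have hfw : ∀ j : ℕ, k ≤ j → j ≤ n → (pos s k).re ≤ (pos s j).re := by
    intro j h1 h2
    rcases eq_or_lt_of_le h1 with rfl | h3
    · exact le_rfl
    · have := hf j h3 h2
      linarith
  refine ⟨NTSF.Wd.tm n k, ?_, ?_, ?_, ?_⟩
  · rw [NTSF.Wd.tm_coe hkn.le, div_le_iff₀ hn0]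
    exact hk
  · rw [hu, le_div_iff₀ hs]
    exact ha
  · intro v hv
    obtain ⟨i, b, hi, h0, h1, h2, h3, h4⟩ := pos_near hn s v
    have h5 : (v : ℝ) * n ≤ k := by
      rw [← htm]
      exact mul_le_mul_of_nonneg_right hv hn0.le
    rcases Nat.lt_or_ge i k with h6 | h6
    · rw [hu, le_div_iff₀ hs, h4]
      have h7 := hb i h6.le
      have h8 := hb (i + 1) h6
      nlinarith
    · have h7 : (k : ℝ) ≤ i := by exact_mod_cast h6
      have h8 : (v : ℝ) = NTSF.Wd.tm n k := by
        have : (v : ℝ) * n = ((NTSF.Wd.tm n k : unitInterval) : ℝ) * n := by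
          rw [htm]
          linarith
        exact mul_right_cancel₀ hn0.ne' this
      rw [Subtype.ext h8]
  · intro v hv
    obtain ⟨i, b, hi, h0, h1, h2, h3, h4⟩ := pos_near hn s v
    have h5 : (k : ℝ) ≤ v * n := by
      rw [← htm]
      exact mul_le_mul_of_nonneg_right hv hn0.le
    rcases Nat.lt_or_ge i k with h6 | h6
    · have h7 : ((i + 1 : ℕ) : ℝ) ≤ k := by exact_mod_cast h6
      push_cast at h7
      have h8 : (v : ℝ) = NTSF.Wd.tm n k := by
        have : (v : ℝ) * n = ((NTSF.Wd.tm n k : unitInterval) : ℝ) * n := by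
          rw [htm]
          linarith
        exact mul_right_cancel₀ hn0.ne' this
      rw [Subtype.ext h8]
    · rw [hu, div_le_iff₀ hs, h4]
      have h7 := hfw i h6 hi.le
      have h8 := hfw (i + 1) (by omega) hi
      nlinarith

/-- the walk of a curve with a strict approximate weak cut has an approximate cut -/
theorem oc_cut {n : ℕ} (hn : 1 ≤ n) {s : Fin n → Fin 3} {a t τ e ε : ℝ} (hτ : 1 ≤ τ * size n) (hε : 0 < ε) (he : e = 2 * ε)
    (hne : 1 ≤ ε * n) (h : curve s ∈ OC a t (τ / 2)) (hE : curve s ∉ Ea a e) :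
    ∃ (k : ℕ) (x : ℝ), ε * n ≤ k ∧ (k : ℝ) < t * n ∧ k ≤ n ∧ a * size n ≤ x ∧ x ≤ ‖curve s‖ * size n ∧
      (∀ i : ℕ, i ≤ k → (pos s i).re ≤ x + τ * size n) ∧ ∀ j : ℕ, k ≤ j → j ≤ n → x - τ * size n ≤ (pos s j).re := by
  obtain ⟨u, h1, h2, h3, h4⟩ := h
  have hs := NTSF.size_pos hn
  have hn0 : (0 : ℝ) < n := by exact_mod_cast hn
  have hu0 : 0 ≤ (u : ℝ) := u.2.1
  have hu1 : (u : ℝ) ≤ 1 := u.2.2
  have hun : 0 ≤ (u : ℝ) * n := mul_nonneg hu0 hn0.le
  have f1 := Nat.floor_le hun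
  have f2 := Nat.lt_floor_add_one ((u : ℝ) * n)
  have hue : e < u := by
    by_contra hcon
    exact hE ⟨u, not_lt.1 hcon, h2.le⟩
  have hkn : ⌊(u : ℝ) * n⌋₊ ≤ n := by
    have : (⌊(u : ℝ) * n⌋₊ : ℝ) ≤ n := f1.trans (by nlinarith)
    exact_mod_cast this
  have hnode : ∀ i : ℕ, i ≤ n → (curve s (NTSF.Wd.tm n i)).re * size n = (pos s i).re := by
    intro i hi
    rw [NTSF.Wd.curve_tm hn hi, Complex.div_ofReal_re, div_mul_cancel₀ _ hs.ne']
  have htm : ∀ i : ℕ, i ≤ n → ((NTSF.Wd.tm n i : unitInterval) : ℝ) * n = i := by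
    intro i hi
    rw [NTSF.Wd.tm_coe hi]
    field_simp
  refine ⟨⌊(u : ℝ) * n⌋₊, (curve s u).re * size n, ?_, ?_, hkn, ?_, ?_, ?_, ?_⟩
  · have : e * n ≤ u * n := mul_le_mul_of_nonneg_right hue.le hn0.le
    rw [he] at this
    linarith
  · exact f1.trans_lt (mul_lt_mul_of_pos_right h1 hn0)
  · exact mul_le_mul_of_nonneg_right h2.le hs.le
  · refine mul_le_mul_of_nonneg_right ?_ hs.le
    exact (le_abs_self _).trans ((Complex.abs_re_le_norm _).trans ((curve s).norm_coe_le_norm u))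
  · intro i hi
    have hin : i ≤ n := hi.trans hkn
    have h5 : NTSF.Wd.tm n i ≤ u := by
      rw [← Subtype.coe_le_coe]
      have h6 : (i : ℝ) ≤ ⌊(u : ℝ) * n⌋₊ := by exact_mod_cast hi
      have h7 := htm i hin
      by_contra hcon
      rw [not_le] at hcon
      have := mul_lt_mul_of_pos_right hcon hn0
      linarith
    have h6 := h3 (NTSF.Wd.tm n i)
    rw [min_eq_left h5] at h6
    rw [← hnode i hin]
    have h7 := mul_le_mul_of_nonneg_right h6.le hs.le
    have h8 : 0 ≤ τ * size n := by linarith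
    linarith
  · intro j hj hjn
    rcases eq_or_lt_of_le hj with h5 | h5
    · -- j = k
      obtain ⟨i, b, hi, b0, b1, b2, b3, b4⟩ := pos_near hn s u
      have hstep : ∀ i : ℕ, i < n → |(pos s (i + 1)).re - (pos s i).re| ≤ 1 := by
        intro i hi
        rw [← Complex.sub_re]
        refine (Complex.abs_re_le_norm _).trans ?_
        rw [NTSF.pos_succ s i hi, add_sub_cancel_left]
        exact (step_norm _ _).le
      have hki : ⌊(u : ℝ) * n⌋₊ = i ∨ ⌊(u : ℝ) * n⌋₊ = i + 1 := by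
        have h6 : i ≤ ⌊(u : ℝ) * n⌋₊ := Nat.le_floor b2
        have h7 : ⌊(u : ℝ) * n⌋₊ < i + 2 := by
          rw [Nat.floor_lt hun]
          push_cast
          linarith
        omega
      have h6 := abs_le.1 (hstep i hi)
      rw [← h5, b4]
      rcases hki with h7 | h7
      · rw [h7]
        nlinarith [h6.1, h6.2]
      · rw [h7]
        nlinarith [h6.1, h6.2]
    · have h6 : u ≤ NTSF.Wd.tm n j := by
        rw [← Subtype.coe_le_coe]
        have h7 : ((⌊(u : ℝ) * n⌋₊ + 1 : ℕ) : ℝ) ≤ j := by exact_mod_cast h5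
        push_cast at h7
        have h8 := htm j hjn
        by_contra hcon
        rw [not_le] at hcon
        have := mul_lt_mul_of_pos_right hcon hn0
        linarith
      have h7 := h4 (NTSF.Wd.tm n j)
      rw [max_eq_left h6] at h7
      rw [← hnode j hjn]
      have h8 := mul_le_mul_of_nonneg_right h7.le hs.le
      have h9 : 0 ≤ τ * size n := by linarith
      linarith

end VL

open VL

open Classical in
/-- **L** -/
theorem vlim_of (hK : VK2) (hS : VSl) : VLim := by
  intro ν hν hlaw a t ha ht ht1 δ hδ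
  have hw := wto hlaw
  -- the parameters
  obtain ⟨e0, he0, he1⟩ := ea_small hlaw (a := a) ha (by positivity : 0 < δ / 16)
  obtain ⟨M, hM0, hM1⟩ := fa_small ν (by positivity : 0 < δ / 16)
  obtain ⟨εS, hεS, nS, hnS⟩ := hS (δ / 8) (by positivity)
  obtain ⟨ε, hε⟩ : ∃ ε : ℝ, ε = min (min (min (δ / 8) ((1 - t) / 2)) (min (a / 2) (e0 / 2))) (min (εS / 3) (1 / M)) := ⟨_, rfl⟩
  have ε0 : 0 < ε := by
    rw [hε]
    have h1 : 0 < 1 / M := by positivity
    refine lt_min (lt_min (lt_min ?_ ?_) (lt_min ?_ ?_)) (lt_min ?_ h1) <;> linarith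
  have ε1 : ε ≤ δ / 8 := by rw [hε]; exact (min_le_left _ _).trans ((min_le_left _ _).trans (min_le_left _ _))
  have ε2 : ε ≤ (1 - t) / 2 := by rw [hε]; exact (min_le_left _ _).trans ((min_le_left _ _).trans (min_le_right _ _))
  have ε3 : ε ≤ a / 2 := by rw [hε]; exact (min_le_left _ _).trans ((min_le_right _ _).trans (min_le_left _ _))
  have ε4 : ε ≤ e0 / 2 := by rw [hε]; exact (min_le_left _ _).trans ((min_le_right _ _).trans (min_le_right _ _))
  have ε5 : ε ≤ εS / 3 := by rw [hε]; exact (min_le_right _ _).trans (min_le_left _ _)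
  have ε6 : ε ≤ 1 / M := by rw [hε]; exact (min_le_right _ _).trans (min_le_right _ _)
  obtain ⟨τ, τ0, τε, n0, hn0⟩ := hK ε ε0
  have e1 := ev_open hw (oc_open (a + δ / 2) (t - δ / 2) (τ / 2)) (by positivity : 0 < δ / 8)
  have e2 := ev_closed hw (ea_closed a (2 * ε)) (by positivity : 0 < δ / 16)
  have e2' := ev_closed hw (isClosed_le continuous_const continuous_norm : IsClosed {γ : CI | M ≤ ‖γ‖})
    (by positivity : 0 < δ / 16)
  have e3 := ev_closed hw (fc_closed a t) hδ
  have e4 : ∀ᶠ n : ℕ in atTop, 1 ≤ τ * size n := by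
    obtain ⟨c, C, hc, hsz, -⟩ := NTSF.finE
    have h1 : Tendsto (fun n : ℕ => τ * (c * (n : ℝ) ^ (3 / 4 : ℝ))) atTop atTop :=
      ((tendsto_rpow_atTop (by norm_num)).comp tendsto_natCast_atTop_atTop).const_mul_atTop hc |>.const_mul_atTop τ0
    filter_upwards [h1.eventually_ge_atTop 1, eventually_ge_atTop 1] with n h2 h3
    exact h2.trans (mul_le_mul_of_nonneg_left (hsz n h3).1 τ0.le)
  have e5 : ∀ᶠ n : ℕ in atTop, 1 ≤ ε * n :=
    (tendsto_natCast_atTop_atTop.const_mul_atTop ε0).eventually_ge_atTop 1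
  have hEa : (ν (Ea a (2 * ε))).toReal < δ / 16 := by
    refine lt_of_le_of_lt (ENNReal.toReal_mono (measure_ne_top _ _) (measure_mono ?_)) he1
    rintro γ ⟨u, h1, h2⟩
    exact ⟨u, by linarith, h2⟩
  have hFC : (ν (FC (a + δ) (t - δ))).toReal ≤ (ν (OC (a + δ / 2) (t - δ / 2) (τ / 2))).toReal :=
    ENNReal.toReal_mono (measure_ne_top _ _) (measure_mono (fc_sub_oc (by linarith) (by linarith) (by positivity)))
  filter_upwards [e1, e2, e2', e3, e4, e5, eventually_ge_atTop 1, eventually_ge_atTop n0, eventually_ge_atTop nS] with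
    n e1 e2 e2' e3 e4 e5 hn hnn hnnS
  have hs := NTSF.size_pos hn
  have hn' : (0 : ℝ) < n := by exact_mod_cast hn
  have hcard : (0 : ℝ) < ((saw n).card : ℝ) := NTSF.saw_card_pos n
  have hlr : ∀ E : Set CI, (law n E).toReal = (((saw n).filter fun s => curve s ∈ E).card : ℝ) / ((saw n).card : ℝ) := by
    intro E
    rw [NTSF.law_apply, ENNReal.toReal_mul, ENNReal.toReal_inv, ENNReal.toReal_natCast, ENNReal.toReal_natCast]
    rw [div_eq_mul_inv, mul_comm]
  constructor
  · -- lower bound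
    have hV := hn0 n hnn
    have hW := hnS n hnnS
    have hsub : ((saw n).filter fun s => curve s ∈ OC (a + δ / 2) (t - δ / 2) (τ / 2)) ⊆
        ((saw n).filter fun s => ∃ k : ℕ, (k : ℝ) ≤ t * n ∧ Cut s k ∧ a * size n ≤ (pos s k).re) ∪
        (((saw n).filter fun s => curve s ∈ Ea a (2 * ε)) ∪ (((saw n).filter fun s => curve s ∈ {γ : CI | M ≤ ‖γ‖}) ∪
        (((saw n).filter fun s => ∃ i j : ℕ, i ≤ j ∧ j ≤ n ∧ δ / 8 * n ≤ (j : ℝ) - i ∧
          ∀ l : ℕ, i ≤ l → l ≤ j → |(pos s l).re - (pos s i).re| ≤ εS * size n) ∪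
        ((saw n).filter fun s => ∃ (k : ℕ) (x : ℝ), ε * n ≤ k ∧ (k : ℝ) ≤ (1 - ε) * n ∧ ε * size n ≤ x ∧ x ≤ size n / ε ∧
          (∀ i : ℕ, i ≤ k → (pos s i).re ≤ x + τ * size n) ∧ (∀ j : ℕ, k ≤ j → j ≤ n → x - τ * size n ≤ (pos s j).re) ∧
          ∀ i : ℕ, Cut s i → ε * size n < |(pos s i).re - x|)))) := by
      intro s hs1
      rw [Finset.mem_filter] at hs1
      obtain ⟨hs1, hs2⟩ := hs1
      by_cases hE : curve s ∈ Ea a (2 * ε)
      · exact Finset.mem_union_right _ (Finset.mem_union_left _ (Finset.mem_filter.2 ⟨hs1, hE⟩))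
      by_cases hF : curve s ∈ {γ : CI | M ≤ ‖γ‖}
      · exact Finset.mem_union_right _ (Finset.mem_union_right _ (Finset.mem_union_left _ (Finset.mem_filter.2 ⟨hs1, hF⟩)))
      have hE' : curve s ∉ Ea (a + δ / 2) (2 * ε) := by
        rintro ⟨u, h1, h2⟩
        exact hE ⟨u, h1, by linarith⟩
      have hF' : ‖curve s‖ < M := not_le.1 hF
      obtain ⟨k, x, k1, k2, k3, k4, k4', k5, k6⟩ := oc_cut hn e4 ε0 rfl e5 hs2 hE'
      by_cases hcut : ∃ i : ℕ, Cut s i ∧ |(pos s i).re - x| ≤ ε * size n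
      · obtain ⟨i, i1, i2⟩ := hcut
        rw [abs_le] at i2
        by_cases hlong : δ / 8 * n ≤ (i : ℝ) - k
        · -- a long time in a strip
          refine Finset.mem_union_right _ (Finset.mem_union_right _ (Finset.mem_union_right _ (Finset.mem_union_left _
            (Finset.mem_filter.2 ⟨hs1, k, i, ?_, i1.1.le, hlong, ?_⟩))))
          · have : (k : ℝ) ≤ i := by
              have : 0 ≤ δ / 8 * n := by positivity
              linarith
            exact_mod_cast this
          · intro l hl1 hl2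
            have h1 := k5 k le_rfl
            have h2 := k6 k le_rfl k3
            have h3 := k6 l hl1 (hl2.trans i1.1.le)
            have h4 := i1.2.2.2.1 l hl2
            have h5 : 3 * ε * size n ≤ εS * size n := mul_le_mul_of_nonneg_right (by linarith) hs.le
            have h6 : τ * size n ≤ ε * size n := mul_le_mul_of_nonneg_right τε.le hs.le
            rw [abs_le]
            constructor <;> linarith
        · refine Finset.mem_union_left _ (Finset.mem_filter.2 ⟨hs1, i, ?_, i1, ?_⟩)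
          · rw [not_le] at hlong
            have h1 : 0 ≤ (δ / 2 - δ / 8) * n := mul_nonneg (by linarith) hn'.le
            linarith
          · have h1 : (a + δ / 2) * size n - ε * size n ≤ (pos s i).re := by linarith
            have h2 : 0 ≤ (δ / 2 - ε) * size n := mul_nonneg (by linarith) hs.le
            linarith
      · refine Finset.mem_union_right _ (Finset.mem_union_right _ (Finset.mem_union_right _ (Finset.mem_union_right _
          (Finset.mem_filter.2 ⟨hs1, k, x, k1, ?_, ?_, ?_, k5, k6, ?_⟩))))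
        · have : t * n ≤ (1 - ε) * n := mul_le_mul_of_nonneg_right (by linarith) hn'.le
          have h3 : (t - δ / 2) * n ≤ t * n := mul_le_mul_of_nonneg_right (by linarith) hn'.le
          linarith
        · have : ε * size n ≤ (a + δ / 2) * size n := mul_le_mul_of_nonneg_right (by linarith) hs.le
          linarith
        · have h1 : M ≤ 1 / ε := by
            rw [le_div_iff₀ hM0] at ε6
            rw [le_div_iff₀ ε0]
            linarith
          have h2 : ‖curve s‖ * size n ≤ 1 / ε * size n := mul_le_mul_of_nonneg_right (hF'.le.trans h1) hs.le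
          rw [one_div_mul_eq_div] at h2
          linarith
        · intro i hi
          by_contra hcon
          exact hcut ⟨i, hi, not_lt.1 hcon⟩
    have h1 := (Nat.cast_le (α := ℝ)).2 ((Finset.card_le_card hsub).trans ((Finset.card_union_le _ _).trans
      (add_le_add le_rfl ((Finset.card_union_le _ _).trans (add_le_add le_rfl ((Finset.card_union_le _ _).trans
      (add_le_add le_rfl (Finset.card_union_le _ _))))))))
    push_cast at h1
    have h2 := hlr (OC (a + δ / 2) (t - δ / 2) (τ / 2))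
    have h3 := hlr (Ea a (2 * ε))
    have h3' := hlr {γ : CI | M ≤ ‖γ‖}
    have h4 : (law n (OC (a + δ / 2) (t - δ / 2) (τ / 2))).toReal ≤ Dn n a t + ((law n (Ea a (2 * ε))).toReal +
        ((law n {γ : CI | M ≤ ‖γ‖}).toReal + (δ / 8 + ε))) := by
      rw [h2, h3, h3']
      unfold Dn
      rw [div_le_iff₀ hcard]
      have h5 : ∀ x y z : ℝ, (x / ((saw n).card : ℝ) + (y / ((saw n).card : ℝ) + (z / ((saw n).card : ℝ) + (δ / 8 + ε)))) *
          ((saw n).card : ℝ) = x + (y + (z + (δ / 8 * ((saw n).card : ℝ) + ε * ((saw n).card : ℝ)))) := by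
        intro x y z
        field_simp
      rw [h5]
      linarith
    linarith
  · -- upper bound
    refine le_trans ?_ e3
    rw [hlr]
    unfold Dn
    refine div_le_div_of_nonneg_right ?_ hcard.le
    refine Nat.cast_le.2 (Finset.card_le_card fun s hs1 => ?_)
    rw [Finset.mem_filter] at hs1 ⊢
    obtain ⟨hs1, k, h1, h2, h3⟩ := hs1
    exact ⟨hs1, cut_fc hn h1 h2 h3⟩

end Pool.Agent.CRT.V
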