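import Pool.Agent.CRT.VDefs3
import Pool.Agent.CRT.VLim

/-!
# CRT, row 11A (*) (helper90): the probabilities of the cuts for two large numbers of steps

**`vCom_of (hQ : Q1) (hP : VPerf) (hB : VBad) (hS : VSl) : VCom`**: a real cut has a real cut close to it (`VPerf`), so the curve has
a simple pinch, a closed event; `Q1` transfers it to the walks with `n'` steps; there it gives a real cut (`VBad`).
**`vLimD_of : VCom → VLimD`**.
-/

set_option autoImplicit false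

noncomputable section

open Set Filter Topology MeasureTheory
open scoped ENNReal

namespace Pool.Agent.CRT.V

open Pool.Agent.NTS.Res
open Pool.Agent.NPR
open Pool.Agent.CRT

namespace VC

open VL

/-! ### proportions -/

open Classical in
/-- proportion of the walks with a property -/
def pr (n : ℕ) (P : (Fin n → Fin 3) → Prop) : ℝ := (((saw n).filter P).card : ℝ) / ((saw n).card : ℝ)

lemma pr_nonneg (n : ℕ) (P : (Fin n → Fin 3) → Prop) : 0 ≤ pr n P := by
  unfold pr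
  positivity

lemma pr_le_one (n : ℕ) (P : (Fin n → Fin 3) → Prop) : pr n P ≤ 1 := by
  classical
  unfold pr
  rw [div_le_one (NTSF.saw_card_pos n)]
  exact_mod_cast Finset.card_filter_le _ _

lemma pr_mono {n : ℕ} {P Q : (Fin n → Fin 3) → Prop} (h : ∀ s ∈ saw n, P s → Q s) : pr n P ≤ pr n Q := by
  classical
  unfold pr
  refine div_le_div_of_nonneg_right ?_ (NTSF.saw_card_pos n).le
  refine Nat.cast_le.2 (Finset.card_le_card fun s hs => ?_)
  rw [Finset.mem_filter] at hs ⊢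
  exact ⟨hs.1, h s hs.1 hs.2⟩

lemma pr_or {n : ℕ} {P Q R : (Fin n → Fin 3) → Prop} (h : ∀ s ∈ saw n, P s → Q s ∨ R s) : pr n P ≤ pr n Q + pr n R := by
  classical
  unfold pr
  rw [← add_div]
  refine div_le_div_of_nonneg_right ?_ (NTSF.saw_card_pos n).le
  have h1 : (saw n).filter P ⊆ (saw n).filter Q ∪ (saw n).filter R := by
    intro s hs
    rw [Finset.mem_filter] at hs
    rcases h s hs.1 hs.2 with h2 | h2
    · exact Finset.mem_union_left _ (Finset.mem_filter.2 ⟨hs.1, h2⟩)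
    · exact Finset.mem_union_right _ (Finset.mem_filter.2 ⟨hs.1, h2⟩)
  exact_mod_cast (Finset.card_le_card h1).trans (Finset.card_union_le _ _)

lemma pr_of_card {n : ℕ} {P : (Fin n → Fin 3) → Prop} {ε : ℝ}
    (h : ((@Finset.filter _ P (fun s => Classical.propDecidable (P s)) (saw n)).card : ℝ) ≤ ε * ((saw n).card : ℝ)) :
    pr n P ≤ ε := by
  unfold pr
  rw [div_le_iff₀ (NTSF.saw_card_pos n)]
  exact h

lemma law_pr (n : ℕ) (E : Set CI) : (law n E).toReal = pr n fun s => curve s ∈ E := by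
  unfold pr
  rw [NTSF.law_apply, ENNReal.toReal_mul, ENNReal.toReal_inv, ENNReal.toReal_natCast, ENNReal.toReal_natCast]
  rw [div_eq_mul_inv, mul_comm]

/-! ### sets of curves -/

/-- clamp to `[u, v]` -/
def cl (x : unitInterval × unitInterval) (v : unitInterval) : unitInterval := max x.1 (min v x.2)

lemma cl_of {x : unitInterval × unitInterval} {v : unitInterval} (h1 : x.1 ≤ v) (h2 : v ≤ x.2) : cl x v = v := by
  unfold cl
  rw [min_eq_left h2, max_eq_right h1]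

lemma cl_mem {x : unitInterval × unitInterval} (h : x.1 ≤ x.2) (v : unitInterval) : x.1 ≤ cl x v ∧ cl x v ≤ x.2 :=
  ⟨le_max_left _ _, max_le h (min_le_right _ _)⟩

/-- real part of the value -/
abbrev rv (γ : CI) (u : unitInterval) : ℝ := (γ u).re

/-- the curves with a simple pinch, closed -/
def CC (a t e1 e2 : ℝ) : Set CI := {γ | ∃ x : unitInterval × unitInterval, x.1 ≤ x.2 ∧ (x.2 : ℝ) ≤ t ∧ a ≤ rv γ x.1 ∧
  e1 ≤ rv γ x.2 - rv γ x.1 ∧ rv γ x.2 - rv γ x.1 ≤ e2 ∧ ∀ v, rv γ (min v x.1) ≤ rv γ x.1 ∧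
    rv γ x.1 ≤ rv γ (cl x v) ∧ rv γ (cl x v) ≤ rv γ x.2 ∧ rv γ x.2 ≤ rv γ (max v x.2)}

lemma re_c2 (f : CI × (unitInterval × unitInterval) → unitInterval) (hf : Continuous f) :
    Continuous fun x : CI × (unitInterval × unitInterval) => rv x.1 (f x) :=
  Complex.continuous_re.comp (continuous_eval.comp (continuous_fst.prodMk hf))

theorem cc_closed (a t e1 e2 : ℝ) : IsClosed (CC a t e1 e2) := by
  have c1 : Continuous fun x : CI × (unitInterval × unitInterval) => x.2.1 := continuous_fst.comp continuous_snd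
  have c2 : Continuous fun x : CI × (unitInterval × unitInterval) => x.2.2 := continuous_snd.comp continuous_snd
  have e : CC a t e1 e2 = Prod.fst '' ({x : CI × (unitInterval × unitInterval) | x.2.1 ≤ x.2.2} ∩
      {x | (x.2.2 : ℝ) ≤ t} ∩ {x | a ≤ rv x.1 x.2.1} ∩ {x | e1 ≤ rv x.1 x.2.2 - rv x.1 x.2.1} ∩
      {x | rv x.1 x.2.2 - rv x.1 x.2.1 ≤ e2} ∩
      ⋂ v : unitInterval, ({x | rv x.1 (min v x.2.1) ≤ rv x.1 x.2.1} ∩ {x | rv x.1 x.2.1 ≤ rv x.1 (cl x.2 v)} ∩
        {x | rv x.1 (cl x.2 v) ≤ rv x.1 x.2.2} ∩ {x | rv x.1 x.2.2 ≤ rv x.1 (max v x.2.2)})) := by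
    ext γ
    constructor
    · rintro ⟨x, h1, h2, h3, h4, h5, h6⟩
      exact ⟨(γ, x), ⟨⟨⟨⟨⟨h1, h2⟩, h3⟩, h4⟩, h5⟩, mem_iInter.2 fun v => ⟨⟨⟨(h6 v).1, (h6 v).2.1⟩, (h6 v).2.2.1⟩, (h6 v).2.2.2⟩⟩, rfl⟩
    · rintro ⟨⟨γ', x⟩, ⟨⟨⟨⟨⟨h1, h2⟩, h3⟩, h4⟩, h5⟩, h6⟩, rfl⟩
      exact ⟨x, h1, h2, h3, h4, h5, fun v => ⟨(mem_iInter.1 h6 v).1.1.1, (mem_iInter.1 h6 v).1.1.2, (mem_iInter.1 h6 v).1.2,
        (mem_iInter.1 h6 v).2⟩⟩
  have c3 : ∀ v : unitInterval, Continuous fun x : CI × (unitInterval × unitInterval) => cl x.2 v := fun v =>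
    c1.max (continuous_const.min c2)
  rw [e]
  refine isClosedMap_fst_of_compactSpace _ (IsClosed.inter (IsClosed.inter (IsClosed.inter (IsClosed.inter (IsClosed.inter
    ?_ ?_) ?_) ?_) ?_) (isClosed_iInter fun v => IsClosed.inter (IsClosed.inter (IsClosed.inter ?_ ?_) ?_) ?_))
  · exact isClosed_le c1 c2
  · exact isClosed_le (continuous_subtype_val.comp c2) continuous_const
  · exact isClosed_le continuous_const (re_c2 _ c1)
  · exact isClosed_le continuous_const ((re_c2 _ c2).sub (re_c2 _ c1))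
  · exact isClosed_le ((re_c2 _ c2).sub (re_c2 _ c1)) continuous_const
  · exact isClosed_le (re_c2 _ (continuous_const.min c1)) (re_c2 _ c1)
  · exact isClosed_le (re_c2 _ c1) (re_c2 _ (c3 v))
  · exact isClosed_le (re_c2 _ (c3 v)) (re_c2 _ c2)
  · exact isClosed_le (re_c2 _ c2) (re_c2 _ (continuous_const.max c2))

/-- the curves with a simple pinch, open -/
def OO (a t e1 e2 h : ℝ) : Set CI := {γ | ∃ x : unitInterval × unitInterval, x.1 ≤ x.2 ∧ (x.2 : ℝ) < t ∧ a < rv γ x.1 ∧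
  e1 < rv γ x.2 - rv γ x.1 ∧ rv γ x.2 - rv γ x.1 < e2 ∧ ∀ v, rv γ (min v x.1) < rv γ x.1 + h ∧
    rv γ x.1 - h < rv γ (cl x v) ∧ rv γ (cl x v) < rv γ x.2 + h ∧ rv γ x.2 - h < rv γ (max v x.2)}

theorem oo_open (a t e1 e2 h : ℝ) : IsOpen (OO a t e1 e2 h) := by
  have rc : ∀ u : unitInterval, Continuous fun γ : CI => rv γ u := fun u =>
    Complex.continuous_re.comp (continuous_eval_const u)
  have rc1 : ∀ u : unitInterval, Continuous fun y : CI × unitInterval => rv y.1 u := fun u => re_c _ continuous_const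
  have e : OO a t e1 e2 h = ⋃ x : unitInterval × unitInterval, ⋃ _ : x.1 ≤ x.2 ∧ (x.2 : ℝ) < t,
      ({γ : CI | a < rv γ x.1} ∩ {γ | e1 < rv γ x.2 - rv γ x.1} ∩ {γ | rv γ x.2 - rv γ x.1 < e2} ∩
      (Prod.fst '' {y : CI × unitInterval | rv y.1 x.1 + h ≤ rv y.1 (min y.2 x.1)})ᶜ ∩
      (Prod.fst '' {y : CI × unitInterval | rv y.1 (cl x y.2) ≤ rv y.1 x.1 - h})ᶜ ∩
      (Prod.fst '' {y : CI × unitInterval | rv y.1 x.2 + h ≤ rv y.1 (cl x y.2)})ᶜ ∩
      (Prod.fst '' {y : CI × unitInterval | rv y.1 (max y.2 x.2) ≤ rv y.1 x.2 - h})ᶜ) := by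
    ext γ
    simp only [mem_iUnion, exists_prop]
    constructor
    · rintro ⟨x, h1, h2, h3, h4, h5, h6⟩
      refine ⟨x, ⟨h1, h2⟩, ⟨⟨⟨⟨⟨⟨h3, h4⟩, h5⟩, ?_⟩, ?_⟩, ?_⟩, ?_⟩⟩
      · rintro ⟨⟨γ', v⟩, h7, rfl⟩
        exact absurd (h6 v).1 (not_lt.2 h7)
      · rintro ⟨⟨γ', v⟩, h7, rfl⟩
        exact absurd (h6 v).2.1 (not_lt.2 h7)
      · rintro ⟨⟨γ', v⟩, h7, rfl⟩
        exact absurd (h6 v).2.2.1 (not_lt.2 h7)
      · rintro ⟨⟨γ', v⟩, h7, rfl⟩
        exact absurd (h6 v).2.2.2 (not_lt.2 h7)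
    · rintro ⟨x, ⟨h1, h2⟩, ⟨⟨⟨⟨⟨⟨h3, h4⟩, h5⟩, h6⟩, h7⟩, h8⟩, h9⟩⟩
      refine ⟨x, h1, h2, h3, h4, h5, fun v => ⟨?_, ?_, ?_, ?_⟩⟩
      · by_contra hc
        exact h6 ⟨(γ, v), not_lt.1 hc, rfl⟩
      · by_contra hc
        exact h7 ⟨(γ, v), not_lt.1 hc, rfl⟩
      · by_contra hc
        exact h8 ⟨(γ, v), not_lt.1 hc, rfl⟩
      · by_contra hc
        exact h9 ⟨(γ, v), not_lt.1 hc, rfl⟩
  rw [e]
  refine isOpen_iUnion fun x => isOpen_iUnion fun _ => IsOpen.inter (IsOpen.inter (IsOpen.inter (IsOpen.inter (IsOpen.inter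
    (IsOpen.inter ?_ ?_) ?_) ?_) ?_) ?_) ?_
  · exact isOpen_lt continuous_const (rc _)
  · exact isOpen_lt continuous_const ((rc _).sub (rc _))
  · exact isOpen_lt ((rc _).sub (rc _)) continuous_const
  · exact (isClosedMap_fst_of_compactSpace _ (isClosed_le ((rc1 _).add continuous_const)
      (re_c _ (continuous_snd.min continuous_const)))).isOpen_compl
  · exact (isClosedMap_fst_of_compactSpace _ (isClosed_le
      (re_c _ (continuous_const.max (continuous_snd.min continuous_const))) ((rc1 _).sub continuous_const))).isOpen_compl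
  · exact (isClosedMap_fst_of_compactSpace _ (isClosed_le ((rc1 _).add continuous_const)
      (re_c _ (continuous_const.max (continuous_snd.min continuous_const))))).isOpen_compl
  · exact (isClosedMap_fst_of_compactSpace _ (isClosed_le (re_c _ (continuous_snd.max continuous_const))
      ((rc1 _).sub continuous_const))).isOpen_compl

lemma cc_sub_oo {a a' t t' e1 e1' e2 e2' h : ℝ} (ha : a < a') (ht : t' < t) (h1 : e1 < e1') (h2 : e2' < e2) (hh : 0 < h) :
    CC a' t' e1' e2' ⊆ OO a t e1 e2 h := by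
  rintro γ ⟨x, g1, g2, g3, g4, g5, g6⟩
  refine ⟨x, g1, by linarith, by linarith, by linarith, by linarith, fun v => ?_⟩
  obtain ⟨q1, q2, q3, q4⟩ := g6 v
  exact ⟨by linarith, by linarith, by linarith, by linarith⟩

/-! ### walks and curves -/

lemma htm {n : ℕ} (hn : 1 ≤ n) {i : ℕ} (hi : i ≤ n) : ((NTSF.Wd.tm n i : unitInterval) : ℝ) * n = i := by
  have hn0 : (0 : ℝ) < n := by exact_mod_cast hn
  rw [NTSF.Wd.tm_coe hi]
  field_simp

lemma hnode {n : ℕ} (hn : 1 ≤ n) (s : Fin n → Fin 3) {i : ℕ} (hi : i ≤ n) :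
    rv (curve s) (NTSF.Wd.tm n i) * size n = (pos s i).re := by
  have hs := NTSF.size_pos hn
  show (curve s (NTSF.Wd.tm n i)).re * size n = _
  rw [NTSF.Wd.curve_tm hn hi, Complex.div_ofReal_re, div_mul_cancel₀ _ hs.ne']

/-- the curve between two nodes -/
lemma seg {n : ℕ} (hn : 1 ≤ n) (s : Fin n → Fin 3) {p q : ℕ} (hpq : p ≤ q) (hq : q ≤ n) {σ L : ℝ}
    (h : ∀ i : ℕ, p ≤ i → i ≤ q → σ * (pos s i).re ≤ L) {v : unitInterval} (h1 : NTSF.Wd.tm n p ≤ v)
    (h2 : v ≤ NTSF.Wd.tm n q) : σ * (rv (curve s) v * size n) ≤ L := by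
  have hn0 : (0 : ℝ) < n := by exact_mod_cast hn
  obtain ⟨i, a, hi, a0, a1, b1, b2, b3⟩ := pos_near hn s v
  have g1 : (p : ℝ) ≤ v * n := by
    rw [← htm hn (hpq.trans hq)]
    exact mul_le_mul_of_nonneg_right h1 hn0.le
  have g2 : (v : ℝ) * n ≤ q := by
    rw [← htm hn hq]
    exact mul_le_mul_of_nonneg_right h2 hn0.le
  have key : ∀ j : ℕ, j ≤ n → (v : ℝ) * n = j → v = NTSF.Wd.tm n j := by
    intro j hj hv
    apply Subtype.ext
    refine mul_right_cancel₀ hn0.ne' ?_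
    rw [htm hn hj, hv]
  rcases Nat.lt_or_ge i p with h3 | h3
  · have h4 : ((i + 1 : ℕ) : ℝ) ≤ p := by exact_mod_cast h3
    push_cast at h4
    rw [key p (hpq.trans hq) (by linarith), hnode hn s (hpq.trans hq)]
    exact h p le_rfl hpq
  · rcases Nat.lt_or_ge i q with h4 | h4
    · show σ * ((curve s v).re * size n) ≤ L
      rw [b3]
      have h5 := h i h3 h4.le
      have h6 := h (i + 1) (by omega) h4
      have h7 : σ * ((1 - a) * (pos s i).re + a * (pos s (i + 1)).re) =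
          (1 - a) * (σ * (pos s i).re) + a * (σ * (pos s (i + 1)).re) := by ring
      rw [h7]
      nlinarith
    · have h5 : (q : ℝ) ≤ i := by exact_mod_cast h4
      rw [key q hq (by linarith), hnode hn s hq]
      exact h q hpq le_rfl

lemma tm_zero_le (n : ℕ) (v : unitInterval) : NTSF.Wd.tm n 0 ≤ v := by
  rw [← Subtype.coe_le_coe, NTSF.Wd.tm_coe (Nat.zero_le n), Nat.cast_zero, zero_div]
  exact v.2.1

lemma le_tm_self {n : ℕ} (hn : 1 ≤ n) (v : unitInterval) : v ≤ NTSF.Wd.tm n n := by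
  have hn0 : (0 : ℝ) < n := by exact_mod_cast hn
  rw [← Subtype.coe_le_coe, NTSF.Wd.tm_coe le_rfl, div_self hn0.ne']
  exact v.2.2

/-- **two real cuts: the curve has a simple pinch** -/
theorem cuts_cc {n : ℕ} (hn : 1 ≤ n) {s : Fin n → Fin 3} {a t e1 e2 : ℝ} {k0 k1 : ℕ} (hk : k0 ≤ k1) (hc0 : Cut s k0)
    (hc1 : Cut s k1) (ht : (k1 : ℝ) ≤ t * n) (ha : a * size n ≤ (pos s k0).re)
    (h1 : e1 * size n ≤ (pos s k1).re - (pos s k0).re) (h2 : (pos s k1).re - (pos s k0).re ≤ e2 * size n) :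
    curve s ∈ CC a t e1 e2 := by
  have hs := NTSF.size_pos hn
  have hn0 : (0 : ℝ) < n := by exact_mod_cast hn
  have hk0 : k0 ≤ n := hc0.1.le
  have hk1 : k1 ≤ n := hc1.1.le
  have hu0 := hnode hn s hk0
  have hu1 := hnode hn s hk1
  have hfw : ∀ k : ℕ, Cut s k → ∀ j : ℕ, k ≤ j → j ≤ n → (pos s k).re ≤ (pos s j).re := by
    intro k hc j g1 g2
    obtain ⟨-, -, hst, -, hf⟩ := hc
    rcases eq_or_lt_of_le g1 with rfl | h3
    · exact le_rfl
    · have := hf j h3 g2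
      rw [hst] at this
      simp only [Complex.add_re, Complex.one_re] at this
      linarith
  have htm01 : NTSF.Wd.tm n k0 ≤ NTSF.Wd.tm n k1 := NTSF.Wd.tm_mono hk hk1
  refine ⟨(NTSF.Wd.tm n k0, NTSF.Wd.tm n k1), htm01, ?_, ?_, ?_, ?_, fun v => ⟨?_, ?_, ?_, ?_⟩⟩
  · show ((NTSF.Wd.tm n k1 : unitInterval) : ℝ) ≤ t
    rw [NTSF.Wd.tm_coe hk1, div_le_iff₀ hn0]
    exact ht
  · show a ≤ rv (curve s) (NTSF.Wd.tm n k0)
    rw [← hu0] at ha
    exact le_of_mul_le_mul_right ha hs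
  · show e1 ≤ rv (curve s) (NTSF.Wd.tm n k1) - rv (curve s) (NTSF.Wd.tm n k0)
    rw [← hu0, ← hu1, ← sub_mul] at h1
    exact le_of_mul_le_mul_right h1 hs
  · show rv (curve s) (NTSF.Wd.tm n k1) - rv (curve s) (NTSF.Wd.tm n k0) ≤ e2
    rw [← hu0, ← hu1, ← sub_mul] at h2
    exact le_of_mul_le_mul_right h2 hs
  · have h3 := seg hn s (p := 0) (q := k0) (Nat.zero_le _) hk0 (σ := 1) (L := (pos s k0).re)
      (fun i _ hi => by rw [one_mul]; exact hc0.2.2.2.1 i hi) (tm_zero_le n _) (min_le_right v (NTSF.Wd.tm n k0))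
    rw [one_mul, ← hu0] at h3
    exact le_of_mul_le_mul_right h3 hs
  · have h3 := seg hn s (p := k0) (q := k1) hk hk1 (σ := -1) (L := -(pos s k0).re)
      (fun i g1 g2 => by rw [neg_one_mul]; exact neg_le_neg (hfw k0 hc0 i g1 (g2.trans hk1)))
      (cl_mem (x := (NTSF.Wd.tm n k0, NTSF.Wd.tm n k1)) htm01 v).1 (cl_mem (x := (NTSF.Wd.tm n k0, NTSF.Wd.tm n k1)) htm01 v).2
    rw [neg_one_mul, neg_le_neg_iff, ← hu0] at h3
    exact le_of_mul_le_mul_right h3 hs
  · have h3 := seg hn s (p := k0) (q := k1) hk hk1 (σ := 1) (L := (pos s k1).re)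
      (fun i _ g2 => by rw [one_mul]; exact hc1.2.2.2.1 i g2)
      (cl_mem (x := (NTSF.Wd.tm n k0, NTSF.Wd.tm n k1)) htm01 v).1 (cl_mem (x := (NTSF.Wd.tm n k0, NTSF.Wd.tm n k1)) htm01 v).2
    rw [one_mul, ← hu1] at h3
    exact le_of_mul_le_mul_right h3 hs
  · have h3 := seg hn s (p := k1) (q := n) hk1 le_rfl (σ := -1) (L := -(pos s k1).re)
      (fun i g1 g2 => by rw [neg_one_mul]; exact neg_le_neg (hfw k1 hc1 i g1 g2))
      (le_max_right v (NTSF.Wd.tm n k1)) (le_tm_self hn _)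
    rw [neg_one_mul, neg_le_neg_iff, ← hu1] at h3
    exact le_of_mul_le_mul_right h3 hs

/-- the vertices near a point of the curve -/
lemma near_floor {n : ℕ} (hn : 1 ≤ n) (s : Fin n → Fin 3) (u : unitInterval) {k : ℕ} (h1 : (k : ℝ) - 1 ≤ u * n)
    (h2 : (u : ℝ) * n ≤ k + 1) (hk : k ≤ n) : |(pos s k).re - rv (curve s) u * size n| ≤ 2 := by
  obtain ⟨i, b, hi, b0, b1, b2, b3, b4⟩ := pos_near hn s u
  have hstep : ∀ i : ℕ, i < n → |(pos s (i + 1)).re - (pos s i).re| ≤ 1 := by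
    intro i hi
    rw [← Complex.sub_re]
    refine (Complex.abs_re_le_norm _).trans ?_
    rw [NTSF.pos_succ s i hi, add_sub_cancel_left]
    exact (step_norm _ _).le
  have hs := abs_le.1 (hstep i hi)
  show |(pos s k).re - (curve s u).re * size n| ≤ 2
  rw [b4]
  have c1 : i ≤ k + 1 := by
    have : (i : ℝ) ≤ ((k + 1 : ℕ) : ℝ) := by push_cast; linarith
    exact_mod_cast this
  have c2 : k ≤ i + 2 := by
    have : (k : ℝ) ≤ ((i + 2 : ℕ) : ℝ) := by push_cast; linarith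
    exact_mod_cast this
  have c3 : k = i ∨ k = i + 1 ∨ k + 1 = i ∨ k = i + 2 := by omega
  rcases c3 with h | h | h | h
  · rw [h, abs_le]
    constructor <;> nlinarith [hs.1, hs.2]
  · rw [h, abs_le]
    constructor <;> nlinarith [hs.1, hs.2]
  · -- then `u n = i`
    have h5 := abs_le.1 (hstep k (by omega))
    rw [h] at h5
    rw [abs_le]
    constructor <;> nlinarith [hs.1, hs.2, h5.1, h5.2]
  · have h5 := abs_le.1 (hstep (i + 1) (by omega))
    have h6 : i + 1 + 1 = k := by omega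
    rw [h6] at h5
    rw [abs_le]
    constructor <;> nlinarith [hs.1, hs.2, h5.1, h5.2]

/-- **the walk of a curve with a simple pinch** -/
theorem oo_pch {n : ℕ} (hn : 1 ≤ n) {s : Fin n → Fin 3} {a t e1 e2 h e ε : ℝ} (hh : h = e1 / 16)
    (hsz : 64 ≤ e1 * size n) (he : e = 2 * ε) (hne : 1 ≤ ε * n) (hO : curve s ∈ OO a t e1 e2 h)
    (hE : curve s ∉ Ea a e) :
    ∃ (k0 k1 : ℕ) (y W : ℝ), ε * n ≤ k0 ∧ (k1 : ℝ) ≤ t * n + 1 ∧ a * size n ≤ y ∧ y ≤ ‖curve s‖ * size n ∧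
      e1 / 2 * size n ≤ W ∧ W ≤ e2 / 2 * size n ∧ Pch s k0 k1 y W := by
  obtain ⟨⟨u0, u1⟩, h1, h2, h3, h4, h5, h6⟩ := hO
  simp only at h1 h2 h3 h4 h5 h6
  have hs := NTSF.size_pos hn
  have hn0 : (0 : ℝ) < n := by exact_mod_cast hn
  have hu0 : 0 ≤ (u0 : ℝ) * n := mul_nonneg u0.2.1 hn0.le
  have hu1 : 0 ≤ (u1 : ℝ) * n := mul_nonneg u1.2.1 hn0.le
  have h01 : (u0 : ℝ) * n ≤ u1 * n := mul_le_mul_of_nonneg_right h1 hn0.le
  have f1 := Nat.floor_le hu0
  have f2 := Nat.lt_floor_add_one ((u0 : ℝ) * n)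
  have f3 := Nat.le_ceil ((u1 : ℝ) * n)
  have f4 := Nat.ceil_lt_add_one hu1
  obtain ⟨k0, hk0⟩ : ∃ k0, k0 = ⌊(u0 : ℝ) * n⌋₊ := ⟨_, rfl⟩
  obtain ⟨k1, hk1⟩ : ∃ k1, k1 = ⌈(u1 : ℝ) * n⌉₊ := ⟨_, rfl⟩
  rw [← hk0] at f1 f2
  rw [← hk1] at f3 f4
  have hk1n : k1 ≤ n := by
    rw [hk1, Nat.ceil_le]
    have : (u1 : ℝ) ≤ 1 := u1.2.2
    nlinarith
  have hk01 : k0 ≤ k1 := by
    have : (k0 : ℝ) ≤ k1 := by linarith
    exact_mod_cast this
  have hk0n := hk01.trans hk1n
  have hu0e : e < u0 := by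
    by_contra hcon
    exact hE ⟨u0, not_lt.1 hcon, h3.le⟩
  -- comparison of times
  have tle : ∀ {i : ℕ} {u : unitInterval}, i ≤ n → (i : ℝ) ≤ u * n → NTSF.Wd.tm n i ≤ u := by
    intro i u hi hiu
    rw [← Subtype.coe_le_coe]
    have h7 := htm hn hi
    by_contra hcon
    rw [not_le] at hcon
    have := mul_lt_mul_of_pos_right hcon hn0
    linarith
  have tge : ∀ {i : ℕ} {u : unitInterval}, i ≤ n → (u : ℝ) * n ≤ i → u ≤ NTSF.Wd.tm n i := by
    intro i u hi hiu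
    rw [← Subtype.coe_le_coe]
    have h7 := htm hn hi
    by_contra hcon
    rw [not_le] at hcon
    have := mul_lt_mul_of_pos_right hcon hn0
    linarith
  have H : h * size n = e1 * size n / 16 := by rw [hh]; ring
  -- levels
  obtain ⟨x1, hx1⟩ : ∃ x1, x1 = rv (curve s) u0 * size n := ⟨_, rfl⟩
  obtain ⟨x2, hx2⟩ : ∃ x2, x2 = rv (curve s) u1 * size n := ⟨_, rfl⟩
  have g4 : e1 * size n < x2 - x1 := by
    rw [hx1, hx2, ← sub_mul]
    exact mul_lt_mul_of_pos_right h4 hs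
  have g5 : x2 - x1 < e2 * size n := by
    rw [hx1, hx2, ← sub_mul]
    exact mul_lt_mul_of_pos_right h5 hs
  have g3 : a * size n < x1 := by
    rw [hx1]
    exact mul_lt_mul_of_pos_right h3 hs
  -- before u0
  have b0 : ∀ i : ℕ, i ≤ k0 → (pos s i).re ≤ x1 + h * size n := by
    intro i hi
    have hin : i ≤ n := hi.trans hk0n
    have hiu : (i : ℝ) ≤ u0 * n := by
      have : (i : ℝ) ≤ k0 := by exact_mod_cast hi
      linarith
    have h7 := (h6 (NTSF.Wd.tm n i)).1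
    rw [min_eq_left (tle hin hiu)] at h7
    rw [← hnode hn s hin]
    have h8 := mul_le_mul_of_nonneg_right h7.le hs.le
    rw [hx1]
    linarith
  -- after u1
  have b1 : ∀ i : ℕ, k1 ≤ i → i ≤ n → x2 - h * size n ≤ (pos s i).re := by
    intro i hi hin
    have hiu : (u1 : ℝ) * n ≤ i := by
      have : (k1 : ℝ) ≤ i := by exact_mod_cast hi
      linarith
    have h7 := (h6 (NTSF.Wd.tm n i)).2.2.2
    rw [max_eq_left (tge hin hiu)] at h7
    rw [← hnode hn s hin]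
    have h8 := mul_le_mul_of_nonneg_right h7.le hs.le
    rw [hx2]
    linarith
  -- between
  have b2 : ∀ i : ℕ, k0 ≤ i → i ≤ k1 → x1 - (h * size n + 2) ≤ (pos s i).re ∧ (pos s i).re ≤ x2 + (h * size n + 2) := by
    intro i g1 g2
    have hin : i ≤ n := g2.trans hk1n
    have hH : 0 ≤ h * size n := by rw [H]; linarith
    rcases eq_or_lt_of_le g1 with g6 | g6
    · have h7 := abs_le.1 (near_floor hn s u0 (k := i) (by rw [← g6]; linarith) (by rw [← g6]; linarith) hin)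
      rw [← hx1] at h7
      constructor
      · linarith [h7.1]
      · linarith [h7.2]
    · rcases eq_or_lt_of_le g2 with g7 | g7
      · have h7 := abs_le.1 (near_floor hn s u1 (k := i) (by rw [g7]; linarith) (by rw [g7]; linarith) hin)
        rw [← hx2] at h7
        constructor
        · linarith [h7.1]
        · linarith [h7.2]
      · have g8 : ((k0 + 1 : ℕ) : ℝ) ≤ i := by exact_mod_cast g6
        have g9 : ((i + 1 : ℕ) : ℝ) ≤ k1 := by exact_mod_cast g7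
        push_cast at g8 g9
        have c1 : u0 ≤ NTSF.Wd.tm n i := tge hin (by linarith)
        have c2 : NTSF.Wd.tm n i ≤ u1 := tle hin (by linarith)
        have h7 := (h6 (NTSF.Wd.tm n i)).2.1
        have h8 := (h6 (NTSF.Wd.tm n i)).2.2.1
        rw [cl_of (x := (u0, u1)) c1 c2] at h7 h8
        rw [← hnode hn s hin]
        have h9 := mul_le_mul_of_nonneg_right h7.le hs.le
        have h10 := mul_le_mul_of_nonneg_right h8.le hs.le
        rw [hx1, hx2]
        constructor <;> linarith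
  refine ⟨k0, k1, (x1 + x2) / 2, (x2 - x1) / 2, ?_, ?_, ?_, ?_, ?_, ?_, hk01, hk1n, ?_, ?_, ?_⟩
  · have : e * n ≤ u0 * n := mul_le_mul_of_nonneg_right hu0e.le hn0.le
    rw [he] at this
    linarith
  · have : (u1 : ℝ) * n ≤ t * n := mul_le_mul_of_nonneg_right h2.le hn0.le
    linarith
  · linarith
  · have c1 : ∀ u : unitInterval, rv (curve s) u * size n ≤ ‖curve s‖ * size n := fun u =>
      mul_le_mul_of_nonneg_right ((le_abs_self _).trans ((Complex.abs_re_le_norm _).trans ((curve s).norm_coe_le_norm u))) hs.le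
    have c2 := c1 u0
    have c3 := c1 u1
    rw [← hx1] at c2
    rw [← hx2] at c3
    linarith
  · linarith
  · linarith
  · intro i hi
    have := b0 i hi
    linarith
  · intro i g1 g2
    have := b2 i g1 g2
    rw [abs_le]
    constructor <;> linarith
  · intro i g1 g2
    have := b1 i g1 g2
    linarith

end VC

open VL VC

open Classical in
/-- **(*)** -/
theorem vCom_of (hQ : Q1) (hP : VPerf) (hB : VBad) (hS : VSl) : VCom := by
  intro a t δ ha ht hδ
  obtain ⟨ν, hν, hlaw⟩ := hQ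
  have hw := wto hlaw
  -- the parameters
  obtain ⟨e0, he0, he1⟩ := ea_small hlaw (a := a) ha (by positivity : 0 < δ / 32)
  obtain ⟨M, hM0, hM1⟩ := fa_small ν (by positivity : 0 < δ / 32)
  obtain ⟨εS, hεS, nS, hnS⟩ := hS (δ / 16) (by positivity)
  obtain ⟨ε, hε⟩ : ∃ ε : ℝ, ε = min (min (min (δ / 16) ((1 - t) / 4)) (min (a / 2) (e0 / 2))) (min (εS / 4) (1 / M)) := ⟨_, rfl⟩
  have ε0 : 0 < ε := by
    rw [hε]
    have h1 : 0 < 1 / M := by positivity
    refine lt_min (lt_min (lt_min ?_ ?_) (lt_min ?_ ?_)) (lt_min ?_ h1) <;> linarith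
  have ε1 : ε ≤ δ / 16 := by rw [hε]; exact (min_le_left _ _).trans ((min_le_left _ _).trans (min_le_left _ _))
  have ε2 : ε ≤ (1 - t) / 4 := by rw [hε]; exact (min_le_left _ _).trans ((min_le_left _ _).trans (min_le_right _ _))
  have ε3 : ε ≤ a / 2 := by rw [hε]; exact (min_le_left _ _).trans ((min_le_right _ _).trans (min_le_left _ _))
  have ε4 : ε ≤ e0 / 2 := by rw [hε]; exact (min_le_left _ _).trans ((min_le_right _ _).trans (min_le_right _ _))
  have ε5 : ε ≤ εS / 4 := by rw [hε]; exact (min_le_right _ _).trans (min_le_left _ _)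
  have ε6 : ε ≤ 1 / M := by rw [hε]; exact (min_le_right _ _).trans (min_le_right _ _)
  obtain ⟨w0, hw0, hB1⟩ := hB ε ε0
  obtain ⟨e, he⟩ : ∃ e : ℝ, e = min w0 (min (εS / 2) (δ / 8)) := ⟨_, rfl⟩
  have e0' : 0 < e := by
    rw [he]
    refine lt_min hw0 (lt_min ?_ ?_) <;> linarith
  have e1' : e ≤ w0 := by rw [he]; exact min_le_left _ _
  have e2' : e ≤ εS / 2 := by rw [he]; exact (min_le_right _ _).trans (min_le_left _ _)
  have e3' : e ≤ δ / 8 := by rw [he]; exact (min_le_right _ _).trans (min_le_right _ _)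
  obtain ⟨t0, ht0, nP, hnP⟩ := hP ε e ε0 e0'
  obtain ⟨nB, hnB⟩ := hB1 (min (t0 / 4) e) e (lt_min (by positivity) e0') (min_le_right _ _) e1'
  -- the events
  have q1 := ev_closed hw (cc_closed (a + δ / 2) (t - δ / 2) t0 e) (by positivity : 0 < δ / 16)
  have q2 := ev_open hw (oo_open (a + δ / 4) (t - δ / 4) (t0 / 2) (2 * e) (t0 / 32)) (by positivity : 0 < δ / 16)
  have q3 := ev_closed hw (ea_closed a (2 * ε)) (by positivity : 0 < δ / 32)
  have q4 := ev_closed hw (isClosed_le continuous_const continuous_norm : IsClosed {γ : CI | M ≤ ‖γ‖})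
    (by positivity : 0 < δ / 32)
  have q5 : ∀ᶠ n : ℕ in atTop, 64 ≤ t0 / 2 * size n := by
    obtain ⟨c, C, hc, hsz, -⟩ := NTSF.finE
    have h1 : Tendsto (fun n : ℕ => t0 / 2 * (c * (n : ℝ) ^ (3 / 4 : ℝ))) atTop atTop :=
      ((tendsto_rpow_atTop (by norm_num)).comp tendsto_natCast_atTop_atTop).const_mul_atTop hc |>.const_mul_atTop
        (by positivity)
    filter_upwards [h1.eventually_ge_atTop 64, eventually_ge_atTop 1] with n h2 h3
    exact h2.trans (mul_le_mul_of_nonneg_left (hsz n h3).1 (by positivity))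
  have q6 : ∀ᶠ n : ℕ in atTop, 1 ≤ ε * n :=
    (tendsto_natCast_atTop_atTop.const_mul_atTop ε0).eventually_ge_atTop 1
  have hEa : (ν (Ea a (2 * ε))).toReal < δ / 32 := by
    refine lt_of_le_of_lt (ENNReal.toReal_mono (measure_ne_top _ _) (measure_mono ?_)) he1
    rintro γ ⟨u, h1, h2⟩
    exact ⟨u, by linarith, h2⟩
  have hsub : (ν (CC (a + δ / 2) (t - δ / 2) t0 e)).toReal ≤
      (ν (OO (a + δ / 4) (t - δ / 4) (t0 / 2) (2 * e) (t0 / 32))).toReal :=
    ENNReal.toReal_mono (measure_ne_top _ _) (measure_mono (cc_sub_oo (by linarith) (by linarith) (by linarith)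
      (by linarith) (by positivity)))
  obtain ⟨N1, hN1⟩ := eventually_atTop.1 (q1.and (q2.and (q3.and (q4.and (q5.and q6)))))
  -- the two halves
  have A : ∀ n : ℕ, max (max N1 nS) (max (max nP nB) 1) ≤ n →
      Dn n (a + δ) (t - δ) ≤ (ν (CC (a + δ / 2) (t - δ / 2) t0 e)).toReal + 6 * (δ / 16) := by
    intro n hn'
    have m1 : N1 ≤ n := le_trans (le_trans (le_max_left _ _) (le_max_left _ _)) hn'
    have m2 : nS ≤ n := le_trans (le_trans (le_max_right _ _) (le_max_left _ _)) hn'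
    have m3 : nP ≤ n := le_trans (le_trans (le_trans (le_max_left _ _) (le_max_left _ _)) (le_max_right _ _)) hn'
    have hn : 1 ≤ n := le_trans (le_trans (le_max_right _ _) (le_max_right _ _)) hn'
    obtain ⟨q1, -, q3, q4, q5, q6⟩ := hN1 n m1
    rw [law_pr] at q1 q3 q4
    have hs := NTSF.size_pos hn
    have hn0 : (0 : ℝ) < n := by exact_mod_cast hn
    have w1 := pr_of_card (hnS n m2)
    have w2 := pr_of_card (hnP n m3)
    have w3 : Dn n (a + δ) (t - δ) = pr n fun s => ∃ k : ℕ, (k : ℝ) ≤ (t - δ) * n ∧ Cut s k ∧ (a + δ) * size n ≤ (pos s k).re := rfl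
    rw [w3]
    refine le_trans (pr_or (Q := fun s => curve s ∈ CC (a + δ / 2) (t - δ / 2) t0 e)
      (R := fun s => curve s ∈ Ea a (2 * ε) ∨ curve s ∈ {γ : CI | M ≤ ‖γ‖} ∨
        (∃ i j : ℕ, i ≤ j ∧ j ≤ n ∧ δ / 16 * n ≤ (j : ℝ) - i ∧
          ∀ l : ℕ, i ≤ l → l ≤ j → |(pos s l).re - (pos s i).re| ≤ εS * size n) ∨
        ∃ k : ℕ, Cut s k ∧ ε * n ≤ k ∧ (k : ℝ) ≤ (1 - ε) * n ∧ ε * size n ≤ (pos s k).re ∧ (pos s k).re ≤ size n / ε ∧
          ∀ i : ℕ, Cut s i → |(pos s i).re - (pos s k).re| < t0 * size n ∨ e * size n < |(pos s i).re - (pos s k).re|) ?_) ?_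
    · rintro s - ⟨k, k1, k2, k3⟩
      by_cases hE : curve s ∈ Ea a (2 * ε)
      · exact Or.inr (Or.inl hE)
      by_cases hF : curve s ∈ {γ : CI | M ≤ ‖γ‖}
      · exact Or.inr (Or.inr (Or.inl hF))
      by_cases hL : ∃ i j : ℕ, i ≤ j ∧ j ≤ n ∧ δ / 16 * n ≤ (j : ℝ) - i ∧
          ∀ l : ℕ, i ≤ l → l ≤ j → |(pos s l).re - (pos s i).re| ≤ εS * size n
      · exact Or.inr (Or.inr (Or.inr (Or.inl hL)))
      have hkn : k ≤ n := k2.1.le
      have ha' : a * size n ≤ (a + δ) * size n := mul_le_mul_of_nonneg_right (by linarith) hs.le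
      have hF' : ‖curve s‖ < M := not_le.1 hF
      have hM : M ≤ 1 / ε := by
        rw [le_div_iff₀ hM0] at ε6
        rw [le_div_iff₀ ε0]
        linarith
      have c1 : ε * n ≤ k := by
        by_contra hc
        rw [not_le] at hc
        refine hE ⟨NTSF.Wd.tm n k, ?_, ?_⟩
        · rw [NTSF.Wd.tm_coe hkn, div_le_iff₀ hn0]
          linarith
        · have h1 := hnode hn s hkn
          have h2 : a * size n ≤ rv (curve s) (NTSF.Wd.tm n k) * size n := by rw [h1]; linarith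
          exact le_of_mul_le_mul_right h2 hs
      have c2 : (k : ℝ) ≤ (1 - ε) * n := by
        have : (t - δ) * n ≤ (1 - ε) * n := mul_le_mul_of_nonneg_right (by linarith) hn0.le
        linarith
      have c3 : ε * size n ≤ (pos s k).re := by
        have : ε * size n ≤ (a + δ) * size n := mul_le_mul_of_nonneg_right (by linarith) hs.le
        linarith
      have c4 : (pos s k).re ≤ size n / ε := by
        rw [← hnode hn s hkn]
        have h1 : rv (curve s) (NTSF.Wd.tm n k) ≤ 1 / ε :=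
          ((le_abs_self _).trans ((Complex.abs_re_le_norm _).trans ((curve s).norm_coe_le_norm _))).trans (hF'.le.trans hM)
        have h2 := mul_le_mul_of_nonneg_right h1 hs.le
        rwa [one_div_mul_eq_div] at h2
      by_cases hcl : ∀ i : ℕ, Cut s i → |(pos s i).re - (pos s k).re| < t0 * size n ∨ e * size n < |(pos s i).re - (pos s k).re|
      · exact Or.inr (Or.inr (Or.inr (Or.inr ⟨k, k2, c1, c2, c3, c4, hcl⟩)))
      left
      push Not at hcl
      obtain ⟨i, i1, i2, i3⟩ := hcl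
      have hin : i ≤ n := i1.1.le
      -- monotonicity of the levels of the cuts
      have hfw : ∀ p : ℕ, Cut s p → ∀ j : ℕ, p ≤ j → j ≤ n → (pos s p).re ≤ (pos s j).re := by
        intro p hc j g1 g2
        obtain ⟨-, -, hst, -, hf⟩ := hc
        rcases eq_or_lt_of_le g1 with rfl | h3
        · exact le_rfl
        · have := hf j h3 g2
          rw [hst] at this
          simp only [Complex.add_re, Complex.one_re] at this
          linarith
      have te : 0 < t0 * size n := mul_pos ht0 hs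
      have ee : e * size n ≤ δ / 8 * size n := mul_le_mul_of_nonneg_right e3' hs.le
      rcases Nat.lt_or_ge i k with hik | hik
      · -- the other cut is before
        have h1 := k2.2.2.2.1 i hik.le
        rw [abs_of_nonpos (by linarith)] at i2 i3
        refine cuts_cc hn hik.le i1 k2 ?_ ?_ (by linarith) (by linarith)
        · have : (t - δ) * n ≤ (t - δ / 2) * n := mul_le_mul_of_nonneg_right (by linarith) hn0.le
          linarith
        · have h2 : 0 ≤ (δ / 2 - δ / 8) * size n := mul_nonneg (by linarith) hs.le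
          linarith
      · have h1 := hfw k k2 i hik hin
        rw [abs_of_nonneg (by linarith)] at i2 i3
        have hshort : (i : ℝ) - k < δ / 16 * n := by
          by_contra hc
          rw [not_lt] at hc
          refine hL ⟨k, i, hik, hin, hc, fun l l1 l2 => ?_⟩
          have h2 := hfw k k2 l l1 (l2.trans hin)
          have h3 := i1.2.2.2.1 l l2
          have h4 : e * size n ≤ εS * size n := mul_le_mul_of_nonneg_right (by linarith) hs.le
          rw [abs_of_nonneg (by linarith)]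
          linarith
        refine cuts_cc hn hik k2 i1 ?_ ?_ (by linarith) (by linarith)
        · have : 0 ≤ (δ / 2 - δ / 16) * n := mul_nonneg (by linarith) hn0.le
          linarith
        · have h2 : 0 ≤ (δ / 2) * size n := mul_nonneg (by linarith) hs.le
          linarith
    · have r1 := pr_or (n := n) (P := fun s => curve s ∈ Ea a (2 * ε) ∨ curve s ∈ {γ : CI | M ≤ ‖γ‖} ∨
        (∃ i j : ℕ, i ≤ j ∧ j ≤ n ∧ δ / 16 * n ≤ (j : ℝ) - i ∧
          ∀ l : ℕ, i ≤ l → l ≤ j → |(pos s l).re - (pos s i).re| ≤ εS * size n) ∨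
        ∃ k : ℕ, Cut s k ∧ ε * n ≤ k ∧ (k : ℝ) ≤ (1 - ε) * n ∧ ε * size n ≤ (pos s k).re ∧ (pos s k).re ≤ size n / ε ∧
          ∀ i : ℕ, Cut s i → |(pos s i).re - (pos s k).re| < t0 * size n ∨ e * size n < |(pos s i).re - (pos s k).re|)
        (Q := _) (R := _) (fun s _ h => h)
      have r2 := pr_or (n := n) (P := fun s => curve s ∈ {γ : CI | M ≤ ‖γ‖} ∨
        (∃ i j : ℕ, i ≤ j ∧ j ≤ n ∧ δ / 16 * n ≤ (j : ℝ) - i ∧
          ∀ l : ℕ, i ≤ l → l ≤ j → |(pos s l).re - (pos s i).re| ≤ εS * size n) ∨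
        ∃ k : ℕ, Cut s k ∧ ε * n ≤ k ∧ (k : ℝ) ≤ (1 - ε) * n ∧ ε * size n ≤ (pos s k).re ∧ (pos s k).re ≤ size n / ε ∧
          ∀ i : ℕ, Cut s i → |(pos s i).re - (pos s k).re| < t0 * size n ∨ e * size n < |(pos s i).re - (pos s k).re|)
        (Q := _) (R := _) (fun s _ h => h)
      have r3 := pr_or (n := n) (P := fun s =>
        (∃ i j : ℕ, i ≤ j ∧ j ≤ n ∧ δ / 16 * n ≤ (j : ℝ) - i ∧
          ∀ l : ℕ, i ≤ l → l ≤ j → |(pos s l).re - (pos s i).re| ≤ εS * size n) ∨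
        ∃ k : ℕ, Cut s k ∧ ε * n ≤ k ∧ (k : ℝ) ≤ (1 - ε) * n ∧ ε * size n ≤ (pos s k).re ∧ (pos s k).re ≤ size n / ε ∧
          ∀ i : ℕ, Cut s i → |(pos s i).re - (pos s k).re| < t0 * size n ∨ e * size n < |(pos s i).re - (pos s k).re|)
        (Q := _) (R := _) (fun s _ h => h)
      linarith
  have B : ∀ n : ℕ, max (max N1 nS) (max (max nP nB) 1) ≤ n →
      (ν (OO (a + δ / 4) (t - δ / 4) (t0 / 2) (2 * e) (t0 / 32))).toReal ≤ Dn n a t + 6 * (δ / 16) := by
    intro n hn'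
    have m1 : N1 ≤ n := le_trans (le_trans (le_max_left _ _) (le_max_left _ _)) hn'
    have m2 : nS ≤ n := le_trans (le_trans (le_max_right _ _) (le_max_left _ _)) hn'
    have m3 : nB ≤ n := le_trans (le_trans (le_trans (le_max_right _ _) (le_max_left _ _)) (le_max_right _ _)) hn'
    have hn : 1 ≤ n := le_trans (le_trans (le_max_right _ _) (le_max_right _ _)) hn'
    obtain ⟨-, q2, q3, q4, q5, q6⟩ := hN1 n m1
    rw [law_pr] at q2 q3 q4
    have hs := NTSF.size_pos hn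
    have hn0 : (0 : ℝ) < n := by exact_mod_cast hn
    have w1 := pr_of_card (hnS n m2)
    have w2 := pr_of_card (hnB n m3)
    have w3 : Dn n a t = pr n fun s => ∃ k : ℕ, (k : ℝ) ≤ t * n ∧ Cut s k ∧ a * size n ≤ (pos s k).re := rfl
    have key := pr_or (n := n) (P := fun s => curve s ∈ OO (a + δ / 4) (t - δ / 4) (t0 / 2) (2 * e) (t0 / 32))
      (Q := fun s => ∃ k : ℕ, (k : ℝ) ≤ t * n ∧ Cut s k ∧ a * size n ≤ (pos s k).re)
      (R := fun s => curve s ∈ Ea a (2 * ε) ∨ curve s ∈ {γ : CI | M ≤ ‖γ‖} ∨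
        (∃ i j : ℕ, i ≤ j ∧ j ≤ n ∧ δ / 16 * n ≤ (j : ℝ) - i ∧
          ∀ l : ℕ, i ≤ l → l ≤ j → |(pos s l).re - (pos s i).re| ≤ εS * size n) ∨
        ∃ (k0 k1 : ℕ) (y W : ℝ), ε * n ≤ k0 ∧ (k1 : ℝ) ≤ (1 - ε) * n ∧ ε * size n ≤ y ∧ y ≤ size n / ε ∧
          min (t0 / 4) e * size n ≤ W ∧ W ≤ e * size n ∧ Pch s k0 k1 y W ∧
          ∀ i : ℕ, Cut s i → ε * size n < |(pos s i).re - y|) (by
      intro s _ hO
      by_cases hE : curve s ∈ Ea a (2 * ε)
      · exact Or.inr (Or.inl hE)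
      by_cases hF : curve s ∈ {γ : CI | M ≤ ‖γ‖}
      · exact Or.inr (Or.inr (Or.inl hF))
      by_cases hL : ∃ i j : ℕ, i ≤ j ∧ j ≤ n ∧ δ / 16 * n ≤ (j : ℝ) - i ∧
          ∀ l : ℕ, i ≤ l → l ≤ j → |(pos s l).re - (pos s i).re| ≤ εS * size n
      · exact Or.inr (Or.inr (Or.inr (Or.inl hL)))
      have hE' : curve s ∉ Ea (a + δ / 4) (2 * ε) := by
        rintro ⟨u, h1, h2⟩
        exact hE ⟨u, h1, by linarith⟩
      have hF' : ‖curve s‖ < M := not_le.1 hF
      have hM : M ≤ 1 / ε := by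
        rw [le_div_iff₀ hM0] at ε6
        rw [le_div_iff₀ ε0]
        linarith
      obtain ⟨k0, k1, y, W, d1, d2, d3, d4, d5, d6, d7⟩ := oo_pch hn (h := t0 / 32) (by ring) q5 rfl q6 hO hE'
      have hW0 : 0 ≤ W := le_trans (by positivity) d5
      by_cases hcut : ∃ i : ℕ, Cut s i ∧ |(pos s i).re - y| ≤ ε * size n
      · obtain ⟨i, i1, i2⟩ := hcut
        rw [abs_le] at i2
        left
        have d8 : (k1 : ℝ) ≤ (t - δ / 8) * n := by
          have h1 : 1 ≤ δ / 16 * n := q6.trans (mul_le_mul_of_nonneg_right ε1 hn0.le)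
          have h2 : 0 ≤ (δ / 4 - δ / 8 - δ / 16) * n := mul_nonneg (by linarith) hn0.le
          linarith
        refine ⟨i, ?_, i1, ?_⟩
        · by_contra hc
          rw [not_le] at hc
          have h3 : 0 ≤ δ / 8 * n := by positivity
          have h4 : (k1 : ℝ) < i := by linarith
          have h5 : k1 ≤ i := by exact_mod_cast h4.le
          refine hL ⟨k1, i, h5, i1.1.le, ?_, fun l l1 l2 => ?_⟩
          · have : 0 ≤ (δ / 8 - δ / 16) * n := mul_nonneg (by linarith) hn0.le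
            linarith
          · have h6 := d7.2.2.2.2 l l1 (l2.trans i1.1.le)
            have h7 := i1.2.2.2.1 l l2
            have h8 := d7.2.2.2.2 k1 le_rfl (h5.trans i1.1.le)
            have h9 := i1.2.2.2.1 k1 h5
            have h10 : ε * size n ≤ εS * size n := mul_le_mul_of_nonneg_right (by linarith) hs.le
            rw [abs_le]
            constructor <;> linarith
        · have h1 : 0 ≤ (δ / 4 - ε) * size n := mul_nonneg (by linarith) hs.le
          linarith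
      · refine Or.inr (Or.inr (Or.inr (Or.inr ⟨k0, k1, y, W, d1, ?_, ?_, ?_, ?_, ?_, d7, ?_⟩)))
        · have h1 : (t - δ / 4) * n ≤ (1 - 2 * ε) * n := mul_le_mul_of_nonneg_right (by linarith) hn0.le
          linarith
        · have h1 : ε * size n ≤ (a + δ / 4) * size n := mul_le_mul_of_nonneg_right (by linarith) hs.le
          linarith
        · have h2 : ‖curve s‖ * size n ≤ 1 / ε * size n := mul_le_mul_of_nonneg_right (hF'.le.trans hM) hs.le
          rw [one_div_mul_eq_div] at h2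
          linarith
        · have h1 : min (t0 / 4) e * size n ≤ t0 / 4 * size n := mul_le_mul_of_nonneg_right (min_le_left _ _) hs.le
          linarith
        · linarith
        · intro i hi
          by_contra hc
          exact hcut ⟨i, hi, not_lt.1 hc⟩)
    have r1 := pr_or (n := n) (P := fun s => curve s ∈ Ea a (2 * ε) ∨ curve s ∈ {γ : CI | M ≤ ‖γ‖} ∨
        (∃ i j : ℕ, i ≤ j ∧ j ≤ n ∧ δ / 16 * n ≤ (j : ℝ) - i ∧
          ∀ l : ℕ, i ≤ l → l ≤ j → |(pos s l).re - (pos s i).re| ≤ εS * size n) ∨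
        ∃ (k0 k1 : ℕ) (y W : ℝ), ε * n ≤ k0 ∧ (k1 : ℝ) ≤ (1 - ε) * n ∧ ε * size n ≤ y ∧ y ≤ size n / ε ∧
          min (t0 / 4) e * size n ≤ W ∧ W ≤ e * size n ∧ Pch s k0 k1 y W ∧
          ∀ i : ℕ, Cut s i → ε * size n < |(pos s i).re - y|) (Q := _) (R := _) (fun s _ h => h)
    have r2 := pr_or (n := n) (P := fun s => curve s ∈ {γ : CI | M ≤ ‖γ‖} ∨
        (∃ i j : ℕ, i ≤ j ∧ j ≤ n ∧ δ / 16 * n ≤ (j : ℝ) - i ∧
          ∀ l : ℕ, i ≤ l → l ≤ j → |(pos s l).re - (pos s i).re| ≤ εS * size n) ∨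
        ∃ (k0 k1 : ℕ) (y W : ℝ), ε * n ≤ k0 ∧ (k1 : ℝ) ≤ (1 - ε) * n ∧ ε * size n ≤ y ∧ y ≤ size n / ε ∧
          min (t0 / 4) e * size n ≤ W ∧ W ≤ e * size n ∧ Pch s k0 k1 y W ∧
          ∀ i : ℕ, Cut s i → ε * size n < |(pos s i).re - y|) (Q := _) (R := _) (fun s _ h => h)
    have r3 := pr_or (n := n) (P := fun s =>
        (∃ i j : ℕ, i ≤ j ∧ j ≤ n ∧ δ / 16 * n ≤ (j : ℝ) - i ∧
          ∀ l : ℕ, i ≤ l → l ≤ j → |(pos s l).re - (pos s i).re| ≤ εS * size n) ∨
        ∃ (k0 k1 : ℕ) (y W : ℝ), ε * n ≤ k0 ∧ (k1 : ℝ) ≤ (1 - ε) * n ∧ ε * size n ≤ y ∧ y ≤ size n / ε ∧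
          min (t0 / 4) e * size n ≤ W ∧ W ≤ e * size n ∧ Pch s k0 k1 y W ∧
          ∀ i : ℕ, Cut s i → ε * size n < |(pos s i).re - y|) (Q := _) (R := _) (fun s _ h => h)
    rw [w3]
    linarith
  refine ⟨max (max N1 nS) (max (max nP nB) 1), fun n n' hn hn' => ?_⟩
  have h1 := A n hn
  have h2 := B n' hn'
  linarith

/-- **VLimD** from **VCom** -/
theorem vLimD_of (h : VCom) : VLimD := by
  have d0 : ∀ n a t, 0 ≤ Dn n a t := by
    intro n a t
    unfold Dn
    positivity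
  have d1 : ∀ n a t, Dn n a t ≤ 1 := fun n a t => pr_le_one n _
  have dm : ∀ (n : ℕ) (a a' t t' : ℝ), a ≤ a' → t' ≤ t → Dn n a' t' ≤ Dn n a t := by
    intro n a a' t t' ha ht
    refine pr_mono (n := n) (P := fun s => ∃ k : ℕ, (k : ℝ) ≤ t' * n ∧ Cut s k ∧ a' * size n ≤ (pos s k).re)
      (Q := fun s => ∃ k : ℕ, (k : ℝ) ≤ t * n ∧ Cut s k ∧ a * size n ≤ (pos s k).re) ?_
    rintro s - ⟨k, h1, h2, h3⟩
    refine ⟨k, h1.trans (mul_le_mul_of_nonneg_right ht (Nat.cast_nonneg n)), h2, le_trans ?_ h3⟩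
    exact mul_le_mul_of_nonneg_right ha (Real.sqrt_nonneg _)
  have hb : ∀ a t, IsBoundedUnder (· ≤ ·) atTop fun n => Dn n a t := fun a t =>
    ⟨1, eventually_map.2 (Eventually.of_forall fun n => d1 n a t)⟩
  have hc : ∀ a t, IsCoboundedUnder (· ≤ ·) atTop fun n => Dn n a t := fun a t =>
    IsBoundedUnder.isCoboundedUnder_le ⟨0, eventually_map.2 (Eventually.of_forall fun n => d0 n a t)⟩
  refine ⟨fun a t => limsup (fun n => Dn n a t) atTop, ?_, ?_, ?_⟩
  · intro a a' t t' h1 h2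
    exact limsup_le_limsup (Eventually.of_forall fun n => dm n a a' t t' h1 h2) (hc _ _) (hb _ _)
  · intro a t
    refine ⟨?_, ?_⟩
    · exact le_limsup_of_frequently_le (Frequently.of_forall fun n => d0 n a t) (hb _ _)
    · exact limsup_le_of_le (hc _ _) (Eventually.of_forall fun n => d1 n a t)
  · intro a t δ ha ht hδ
    obtain ⟨n0, hn0⟩ := h a t δ ha ht hδ
    have h1 : ∀ᶠ n in atTop, Dn n a t < limsup (fun n => Dn n a t) atTop + δ :=
      eventually_lt_of_limsup_lt (lt_add_of_pos_right _ hδ) (hb _ _)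
    filter_upwards [h1, eventually_ge_atTop n0] with n h1 h2
    refine ⟨?_, h1.le⟩
    have h3 : limsup (fun n => Dn n (a + δ) (t - δ)) atTop ≤ Dn n a t + δ :=
      limsup_le_of_le (hc _ _) (by
        filter_upwards [eventually_ge_atTop n0] with m hm
        exact hn0 m n hm h2)
    show limsup (fun n => Dn n (a + δ) (t - δ)) atTop - δ ≤ Dn n a t
    linarith

end Pool.Agent.CRT.V
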