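import Pool.Agent.CRT.VDefs4
import Pool.Agent.CRT.VCom

/-!
# CRT, row 11A V4 (helper90): the comparison of the probabilities of the cuts, in the mean over the numbers of steps

**`vComA_of (hQ : Q1) (hP : VPerfA) (hB : VBadA) (hS : VSl)`**: around a real cut of the walk with `n` steps there are four real cuts
(the inner two much closer than the outer ones), so the curve is in the closed set `C4`; by `Q1` the walks with `n'` steps are in the
open set `O4` at least as often; there `VBadA` gives a real cut.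
-/

set_option autoImplicit false

noncomputable section

open Set Filter Topology MeasureTheory
open scoped ENNReal

namespace Pool.Agent.CRT.V

open Pool.Agent.NTS.Res
open Pool.Agent.NPR
open Pool.Agent.CRT

namespace VC

open VL

/-! ### sets of curves -/

/-- four weak cuts -/
def C4 (a t G T W E : ℝ) : Set CI := {γ | ∃ x : Fin 4 → unitInterval, (x 0 ≤ x 1 ∧ x 1 ≤ x 2 ∧ x 2 ≤ x 3 ∧ (x 3 : ℝ) ≤ t) ∧
  (a ≤ rv γ (x 0) ∧ G ≤ rv γ (x 1) - rv γ (x 0) ∧ T ≤ rv γ (x 2) - rv γ (x 1) ∧ rv γ (x 2) - rv γ (x 1) ≤ W ∧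
    G ≤ rv γ (x 3) - rv γ (x 2) ∧ rv γ (x 3) - rv γ (x 0) ≤ E) ∧
  ∀ j v, rv γ (min v (x j)) ≤ rv γ (x j) ∧ rv γ (x j) ≤ rv γ (max v (x j))}

/-- four approximate weak cuts -/
def O4 (a t G T W E h : ℝ) : Set CI := {γ | ∃ x : Fin 4 → unitInterval, (x 0 ≤ x 1 ∧ x 1 ≤ x 2 ∧ x 2 ≤ x 3 ∧ (x 3 : ℝ) < t) ∧
  (a < rv γ (x 0) ∧ G < rv γ (x 1) - rv γ (x 0) ∧ T < rv γ (x 2) - rv γ (x 1) ∧ rv γ (x 2) - rv γ (x 1) < W ∧
    G < rv γ (x 3) - rv γ (x 2) ∧ rv γ (x 3) - rv γ (x 0) < E) ∧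
  ∀ j v, rv γ (min v (x j)) < rv γ (x j) + h ∧ rv γ (x j) - h < rv γ (max v (x j))}

lemma re_c4 (f : CI × (Fin 4 → unitInterval) → unitInterval) (hf : Continuous f) :
    Continuous fun x : CI × (Fin 4 → unitInterval) => rv x.1 (f x) :=
  Complex.continuous_re.comp (continuous_eval.comp (continuous_fst.prodMk hf))

theorem c4_closed (a t G T W E : ℝ) : IsClosed (C4 a t G T W E) := by
  have cj : ∀ j : Fin 4, Continuous fun p : CI × (Fin 4 → unitInterval) => p.2 j := fun j =>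
    (continuous_apply j).comp continuous_snd
  have e : C4 a t G T W E = Prod.fst '' (({p : CI × (Fin 4 → unitInterval) | p.2 0 ≤ p.2 1} ∩ ({p | p.2 1 ≤ p.2 2} ∩
      ({p | p.2 2 ≤ p.2 3} ∩ {p | (p.2 3 : ℝ) ≤ t}))) ∩ (({p | a ≤ rv p.1 (p.2 0)} ∩ ({p | G ≤ rv p.1 (p.2 1) - rv p.1 (p.2 0)} ∩
      ({p | T ≤ rv p.1 (p.2 2) - rv p.1 (p.2 1)} ∩ ({p | rv p.1 (p.2 2) - rv p.1 (p.2 1) ≤ W} ∩
      ({p | G ≤ rv p.1 (p.2 3) - rv p.1 (p.2 2)} ∩ {p | rv p.1 (p.2 3) - rv p.1 (p.2 0) ≤ E}))))) ∩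
      ⋂ j : Fin 4, ⋂ v : unitInterval, ({p | rv p.1 (min v (p.2 j)) ≤ rv p.1 (p.2 j)} ∩
        {p | rv p.1 (p.2 j) ≤ rv p.1 (max v (p.2 j))}))) := by
    ext γ
    constructor
    · rintro ⟨x, h1, h2, h3⟩
      exact ⟨(γ, x), ⟨h1, h2, mem_iInter.2 fun j => mem_iInter.2 fun v => h3 j v⟩, rfl⟩
    · rintro ⟨⟨γ', x⟩, ⟨h1, h2, h3⟩, rfl⟩
      exact ⟨x, h1, h2, fun j v => mem_iInter.1 (mem_iInter.1 h3 j) v⟩
  rw [e]
  refine isClosedMap_fst_of_compactSpace _ (IsClosed.inter (IsClosed.inter ?_ (IsClosed.inter ?_ (IsClosed.inter ?_ ?_)))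
    (IsClosed.inter (IsClosed.inter ?_ (IsClosed.inter ?_ (IsClosed.inter ?_ (IsClosed.inter ?_ (IsClosed.inter ?_ ?_)))))
    (isClosed_iInter fun j => isClosed_iInter fun v => IsClosed.inter ?_ ?_)))
  · exact isClosed_le (cj 0) (cj 1)
  · exact isClosed_le (cj 1) (cj 2)
  · exact isClosed_le (cj 2) (cj 3)
  · exact isClosed_le (continuous_subtype_val.comp (cj 3)) continuous_const
  · exact isClosed_le continuous_const (re_c4 _ (cj 0))
  · exact isClosed_le continuous_const ((re_c4 _ (cj 1)).sub (re_c4 _ (cj 0)))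
  · exact isClosed_le continuous_const ((re_c4 _ (cj 2)).sub (re_c4 _ (cj 1)))
  · exact isClosed_le ((re_c4 _ (cj 2)).sub (re_c4 _ (cj 1))) continuous_const
  · exact isClosed_le continuous_const ((re_c4 _ (cj 3)).sub (re_c4 _ (cj 2)))
  · exact isClosed_le ((re_c4 _ (cj 3)).sub (re_c4 _ (cj 0))) continuous_const
  · exact isClosed_le (re_c4 _ (continuous_const.min (cj j))) (re_c4 _ (cj j))
  · exact isClosed_le (re_c4 _ (cj j)) (re_c4 _ (continuous_const.max (cj j)))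

theorem o4_open (a t G T W E h : ℝ) : IsOpen (O4 a t G T W E h) := by
  have rc : ∀ u : unitInterval, Continuous fun γ : CI => rv γ u := fun u =>
    Complex.continuous_re.comp (continuous_eval_const u)
  have rc1 : ∀ u : unitInterval, Continuous fun y : CI × unitInterval => rv y.1 u := fun u => re_c _ continuous_const
  have e : O4 a t G T W E h = ⋃ x : Fin 4 → unitInterval, ⋃ _ : x 0 ≤ x 1 ∧ x 1 ≤ x 2 ∧ x 2 ≤ x 3 ∧ (x 3 : ℝ) < t,
      (({γ : CI | a < rv γ (x 0)} ∩ ({γ | G < rv γ (x 1) - rv γ (x 0)} ∩ ({γ | T < rv γ (x 2) - rv γ (x 1)} ∩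
      ({γ | rv γ (x 2) - rv γ (x 1) < W} ∩ ({γ | G < rv γ (x 3) - rv γ (x 2)} ∩ {γ | rv γ (x 3) - rv γ (x 0) < E}))))) ∩
      ⋂ j : Fin 4, ((Prod.fst '' {y : CI × unitInterval | rv y.1 (x j) + h ≤ rv y.1 (min y.2 (x j))})ᶜ ∩
        (Prod.fst '' {y : CI × unitInterval | rv y.1 (max y.2 (x j)) ≤ rv y.1 (x j) - h})ᶜ)) := by
    ext γ
    simp only [mem_iUnion, exists_prop]
    constructor
    · rintro ⟨x, h1, h2, h3⟩
      refine ⟨x, h1, h2, mem_iInter.2 fun j => ⟨?_, ?_⟩⟩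
      · rintro ⟨⟨γ', v⟩, h7, rfl⟩
        exact absurd (h3 j v).1 (not_lt.2 h7)
      · rintro ⟨⟨γ', v⟩, h7, rfl⟩
        exact absurd (h3 j v).2 (not_lt.2 h7)
    · rintro ⟨x, h1, h2, h3⟩
      refine ⟨x, h1, h2, fun j v => ⟨?_, ?_⟩⟩
      · by_contra hc
        exact (mem_iInter.1 h3 j).1 ⟨(γ, v), not_lt.1 hc, rfl⟩
      · by_contra hc
        exact (mem_iInter.1 h3 j).2 ⟨(γ, v), not_lt.1 hc, rfl⟩
  rw [e]
  refine isOpen_iUnion fun x => isOpen_iUnion fun _ => IsOpen.inter (IsOpen.inter ?_ (IsOpen.inter ?_ (IsOpen.inter ?_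
    (IsOpen.inter ?_ (IsOpen.inter ?_ ?_))))) (isOpen_iInter_of_finite fun j => IsOpen.inter ?_ ?_)
  · exact isOpen_lt continuous_const (rc _)
  · exact isOpen_lt continuous_const ((rc _).sub (rc _))
  · exact isOpen_lt continuous_const ((rc _).sub (rc _))
  · exact isOpen_lt ((rc _).sub (rc _)) continuous_const
  · exact isOpen_lt continuous_const ((rc _).sub (rc _))
  · exact isOpen_lt ((rc _).sub (rc _)) continuous_const
  · exact (isClosedMap_fst_of_compactSpace _ (isClosed_le ((rc1 _).add continuous_const)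
      (re_c _ (continuous_snd.min continuous_const)))).isOpen_compl
  · exact (isClosedMap_fst_of_compactSpace _ (isClosed_le (re_c _ (continuous_snd.max continuous_const))
      ((rc1 _).sub continuous_const))).isOpen_compl

lemma c4_sub_o4 {a a' t t' G G' T T' W W' E E' h : ℝ} (ha : a < a') (ht : t' < t) (hG : G < G') (hT : T < T') (hW : W' < W)
    (hE : E' < E) (hh : 0 < h) : C4 a' t' G' T' W' E' ⊆ O4 a t G T W E h := by
  rintro γ ⟨x, ⟨g1, g2, g3, g4⟩, ⟨q1, q2, q3, q4, q5, q6⟩, g⟩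
  exact ⟨x, ⟨g1, g2, g3, by linarith⟩, ⟨by linarith, by linarith, by linarith, by linarith, by linarith, by linarith⟩,
    fun j v => ⟨by linarith [(g j v).1], by linarith [(g j v).2]⟩⟩

/-! ### real cuts -/

lemma cut_fw {n : ℕ} {s : Fin n → Fin 3} {k : ℕ} (hc : Cut s k) {j : ℕ} (g1 : k ≤ j) (g2 : j ≤ n) :
    (pos s k).re ≤ (pos s j).re := by
  obtain ⟨-, -, hst, -, hf⟩ := hc
  rcases eq_or_lt_of_le g1 with rfl | h3
  · exact le_rfl
  · have := hf j h3 g2
    rw [hst] at this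
    simp only [Complex.add_re, Complex.one_re] at this
    linarith

lemma cut_lt {n : ℕ} {s : Fin n → Fin 3} {i j : ℕ} (hi : Cut s i) (hj : Cut s j) (h : (pos s i).re < (pos s j).re) : i < j := by
  by_contra hc
  have := cut_fw hj (not_lt.1 hc) hi.1.le
  linarith

/-- the curve of a walk with a real cut has a weak cut there -/
lemma cut_w {n : ℕ} (hn : 1 ≤ n) {s : Fin n → Fin 3} {k : ℕ} (hc : Cut s k) (v : unitInterval) :
    rv (curve s) (min v (NTSF.Wd.tm n k)) ≤ rv (curve s) (NTSF.Wd.tm n k) ∧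
      rv (curve s) (NTSF.Wd.tm n k) ≤ rv (curve s) (max v (NTSF.Wd.tm n k)) := by
  have hs := NTSF.size_pos hn
  have hk : k ≤ n := hc.1.le
  have hu := hnode hn s hk
  constructor
  · have h3 := seg hn s (p := 0) (q := k) (Nat.zero_le _) hk (σ := 1) (L := (pos s k).re)
      (fun i _ hi => by rw [one_mul]; exact hc.2.2.2.1 i hi) (tm_zero_le n _) (min_le_right v (NTSF.Wd.tm n k))
    rw [one_mul, ← hu] at h3
    exact le_of_mul_le_mul_right h3 hs
  · have h3 := seg hn s (p := k) (q := n) hk le_rfl (σ := -1) (L := -(pos s k).re)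
      (fun i g1 g2 => by rw [neg_one_mul]; exact neg_le_neg (cut_fw hc g1 g2))
      (le_max_right v (NTSF.Wd.tm n k)) (le_tm_self hn _)
    rw [neg_one_mul, neg_le_neg_iff, ← hu] at h3
    exact le_of_mul_le_mul_right h3 hs

/-- **four real cuts** -/
theorem cuts_c4 {n : ℕ} (hn : 1 ≤ n) {s : Fin n → Fin 3} {a t G T W E : ℝ} {c : Fin 4 → ℕ} (hc : ∀ j, Cut s (c j))
    (h01 : c 0 ≤ c 1) (h12 : c 1 ≤ c 2) (h23 : c 2 ≤ c 3) (ht : (c 3 : ℝ) ≤ t * n) (ha : a * size n ≤ (pos s (c 0)).re)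
    (g1 : G * size n ≤ (pos s (c 1)).re - (pos s (c 0)).re) (g2 : T * size n ≤ (pos s (c 2)).re - (pos s (c 1)).re)
    (g3 : (pos s (c 2)).re - (pos s (c 1)).re ≤ W * size n) (g4 : G * size n ≤ (pos s (c 3)).re - (pos s (c 2)).re)
    (g5 : (pos s (c 3)).re - (pos s (c 0)).re ≤ E * size n) : curve s ∈ C4 a t G T W E := by
  have hs := NTSF.size_pos hn
  have hn0 : (0 : ℝ) < n := by exact_mod_cast hn
  have hk : ∀ j, c j ≤ n := fun j => (hc j).1.le
  have hu : ∀ j, rv (curve s) (NTSF.Wd.tm n (c j)) * size n = (pos s (c j)).re := fun j => hnode hn s (hk j)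
  refine ⟨fun j => NTSF.Wd.tm n (c j), ⟨NTSF.Wd.tm_mono h01 (hk 1), NTSF.Wd.tm_mono h12 (hk 2), NTSF.Wd.tm_mono h23 (hk 3), ?_⟩,
    ⟨?_, ?_, ?_, ?_, ?_, ?_⟩, fun j v => cut_w hn (hc j) v⟩
  · rw [NTSF.Wd.tm_coe (hk 3), div_le_iff₀ hn0]
    exact ht
  · rw [← hu 0] at ha
    exact le_of_mul_le_mul_right ha hs
  · rw [← hu 0, ← hu 1, ← sub_mul] at g1
    exact le_of_mul_le_mul_right g1 hs
  · rw [← hu 1, ← hu 2, ← sub_mul] at g2
    exact le_of_mul_le_mul_right g2 hs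
  · rw [← hu 1, ← hu 2, ← sub_mul] at g3
    exact le_of_mul_le_mul_right g3 hs
  · rw [← hu 2, ← hu 3, ← sub_mul] at g4
    exact le_of_mul_le_mul_right g4 hs
  · rw [← hu 0, ← hu 3, ← sub_mul] at g5
    exact le_of_mul_le_mul_right g5 hs

/-! ### approximate cuts of the curve -/

/-- two approximate weak cuts of the curve, in terms of the walk -/
lemma win {n : ℕ} (hn : 1 ≤ n) (s : Fin n → Fin 3) {u u' : unitInterval} (huu : u ≤ u') {h : ℝ} (hh : 0 ≤ h)
    (h1 : ∀ v, rv (curve s) (min v u) < rv (curve s) u + h ∧ rv (curve s) u - h < rv (curve s) (max v u))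
    (h2 : ∀ v, rv (curve s) (min v u') < rv (curve s) u' + h ∧ rv (curve s) u' - h < rv (curve s) (max v u')) :
    ⌊(u : ℝ) * n⌋₊ ≤ ⌈(u' : ℝ) * n⌉₊ ∧ ⌈(u' : ℝ) * n⌉₊ ≤ n ∧
    (∀ i : ℕ, i ≤ ⌊(u : ℝ) * n⌋₊ → (pos s i).re ≤ rv (curve s) u * size n + h * size n) ∧
    (∀ i : ℕ, ⌊(u : ℝ) * n⌋₊ ≤ i → i ≤ ⌈(u' : ℝ) * n⌉₊ → rv (curve s) u * size n - (h * size n + 2) ≤ (pos s i).re ∧
      (pos s i).re ≤ rv (curve s) u' * size n + (h * size n + 2)) ∧
    ∀ i : ℕ, ⌈(u' : ℝ) * n⌉₊ ≤ i → i ≤ n → rv (curve s) u' * size n - h * size n ≤ (pos s i).re := by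
  have hs := NTSF.size_pos hn
  have hn0 : (0 : ℝ) < n := by exact_mod_cast hn
  have hu0 : 0 ≤ (u : ℝ) * n := mul_nonneg u.2.1 hn0.le
  have hu1 : 0 ≤ (u' : ℝ) * n := mul_nonneg u'.2.1 hn0.le
  have h01 : (u : ℝ) * n ≤ u' * n := mul_le_mul_of_nonneg_right huu hn0.le
  have f1 := Nat.floor_le hu0
  have f2 := Nat.lt_floor_add_one ((u : ℝ) * n)
  have f3 := Nat.le_ceil ((u' : ℝ) * n)
  have f4 := Nat.ceil_lt_add_one hu1
  obtain ⟨k0, hk0⟩ : ∃ k0, k0 = ⌊(u : ℝ) * n⌋₊ := ⟨_, rfl⟩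
  obtain ⟨k1, hk1⟩ : ∃ k1, k1 = ⌈(u' : ℝ) * n⌉₊ := ⟨_, rfl⟩
  rw [← hk0] at f1 f2
  rw [← hk1] at f3 f4
  rw [← hk0, ← hk1]
  have hk1n : k1 ≤ n := by
    rw [hk1, Nat.ceil_le]
    have : (u' : ℝ) ≤ 1 := u'.2.2
    nlinarith
  have hk01 : k0 ≤ k1 := by
    have : (k0 : ℝ) ≤ k1 := by linarith
    exact_mod_cast this
  have hk0n := hk01.trans hk1n
  have tle : ∀ {i : ℕ} {u : unitInterval}, i ≤ n → (i : ℝ) ≤ u * n → NTSF.Wd.tm n i ≤ u := by
    intro i u hi hiu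
    rw [← Subtype.coe_le_coe]
    have h7 := htm hn hi
    by_contra hcon
    rw [not_le] at hcon
    have := mul_lt_mul_of_pos_right hcon hn0
    linarith
  have tge : ∀ {i : ℕ} {u : unitInterval}, i ≤ n → (u : ℝ) * n ≤ i → u ≤ NTSF.Wd.tm n i := by
    intro i u hi hiu
    rw [← Subtype.coe_le_coe]
    have h7 := htm hn hi
    by_contra hcon
    rw [not_le] at hcon
    have := mul_lt_mul_of_pos_right hcon hn0
    linarith
  have up : ∀ {w : unitInterval} {i : ℕ}, (∀ v, rv (curve s) (min v w) < rv (curve s) w + h ∧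
      rv (curve s) w - h < rv (curve s) (max v w)) → i ≤ n → (i : ℝ) ≤ w * n →
      (pos s i).re ≤ rv (curve s) w * size n + h * size n := by
    intro w i hw hin hi
    have h7 := (hw (NTSF.Wd.tm n i)).1
    rw [min_eq_left (tle hin hi)] at h7
    rw [← hnode hn s hin]
    have h8 := mul_le_mul_of_nonneg_right h7.le hs.le
    linarith
  have lo : ∀ {w : unitInterval} {i : ℕ}, (∀ v, rv (curve s) (min v w) < rv (curve s) w + h ∧
      rv (curve s) w - h < rv (curve s) (max v w)) → i ≤ n → (w : ℝ) * n ≤ i →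
      rv (curve s) w * size n - h * size n ≤ (pos s i).re := by
    intro w i hw hin hi
    have h7 := (hw (NTSF.Wd.tm n i)).2
    rw [max_eq_left (tge hin hi)] at h7
    rw [← hnode hn s hin]
    have h8 := mul_le_mul_of_nonneg_right h7.le hs.le
    linarith
  have hH : 0 ≤ h * size n := mul_nonneg hh hs.le
  refine ⟨hk01, hk1n, fun i hi => ?_, fun i g1 g2 => ⟨?_, ?_⟩, fun i g1 g2 => ?_⟩
  · refine up h1 (hi.trans hk0n) ?_
    have : (i : ℝ) ≤ k0 := by exact_mod_cast hi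
    linarith
  · rcases eq_or_lt_of_le g1 with g6 | g6
    · have h7 := abs_le.1 (near_floor hn s u (k := i) (by rw [← g6]; linarith) (by rw [← g6]; linarith) (g2.trans hk1n))
      linarith [h7.1]
    · have g8 : ((k0 + 1 : ℕ) : ℝ) ≤ i := by exact_mod_cast g6
      push_cast at g8
      have := lo h1 (g2.trans hk1n) (by linarith)
      linarith
  · rcases eq_or_lt_of_le g2 with g7 | g7
    · have h7 := abs_le.1 (near_floor hn s u' (k := i) (by rw [g7]; linarith) (by rw [g7]; linarith) (g2.trans hk1n))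
      linarith [h7.2]
    · have g9 : ((i + 1 : ℕ) : ℝ) ≤ k1 := by exact_mod_cast g7
      push_cast at g9
      have := up h2 (g2.trans hk1n) (by linarith)
      linarith
  · refine lo h2 g2 ?_
    have : (k1 : ℝ) ≤ i := by exact_mod_cast g1
    linarith

/-- **the walk of a curve in `O4`** -/
theorem o4_pnm {n : ℕ} (hn : 1 ≤ n) {s : Fin n → Fin 3} {a t G T W E h : ℝ} (hh : 0 < h) (hG : 4 * h ≤ G) (hT : 8 * h ≤ T)
    (hTW : T ≤ W) (hWE : W ≤ E) (hsz : 2 ≤ h * size n) (hO : curve s ∈ O4 a t G T W E h) :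
    ∃ (p1 k0 k1 p2 : ℕ) (y : ℝ), (p2 : ℝ) ≤ t * n + 1 ∧ a * size n ≤ y ∧ y ≤ ‖curve s‖ * size n ∧
      Pnm s p1 k0 k1 p2 y (G / 2 * size n) (2 * E * size n) (T / 4 * size n) (W * size n) ∧
      ∀ i : ℕ, p2 ≤ i → i ≤ n → y + G / 2 * size n < (pos s i).re := by
  obtain ⟨x, ⟨h1, h2, h3, h4⟩, ⟨q1, q2, q3, q4, q5, q6⟩, g⟩ := hO
  have hs := NTSF.size_pos hn
  have hn0 : (0 : ℝ) < n := by exact_mod_cast hn
  obtain ⟨i1, i2, i3, i4, i5⟩ := win hn s h2 hh.le (g 1) (g 2)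
  obtain ⟨j1, j2, j3, j4, j5⟩ := win hn s (h1.trans (h2.trans h3)) hh.le (g 0) (g 3)
  have hf : ⌊(x 0 : ℝ) * n⌋₊ ≤ ⌊(x 1 : ℝ) * n⌋₊ := Nat.floor_mono (mul_le_mul_of_nonneg_right h1 hn0.le)
  have hc : ⌈(x 2 : ℝ) * n⌉₊ ≤ ⌈(x 3 : ℝ) * n⌉₊ := Nat.ceil_mono (mul_le_mul_of_nonneg_right h3 hn0.le)
  have f4 := Nat.ceil_lt_add_one (mul_nonneg (x 3).2.1 hn0.le : 0 ≤ ((x 3 : unitInterval) : ℝ) * n)
  -- levels
  obtain ⟨l0, hl0⟩ : ∃ l, l = rv (curve s) (x 0) * size n := ⟨_, rfl⟩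
  obtain ⟨l1, hl1⟩ : ∃ l, l = rv (curve s) (x 1) * size n := ⟨_, rfl⟩
  obtain ⟨l2, hl2⟩ : ∃ l, l = rv (curve s) (x 2) * size n := ⟨_, rfl⟩
  obtain ⟨l3, hl3⟩ : ∃ l, l = rv (curve s) (x 3) * size n := ⟨_, rfl⟩
  rw [← hl1, ← hl2] at i4
  rw [← hl1] at i3
  rw [← hl2] at i5
  rw [← hl0, ← hl3] at j4
  rw [← hl0] at j3
  rw [← hl3] at j5
  have r1 : a * size n < l0 := by rw [hl0]; exact mul_lt_mul_of_pos_right q1 hs
  have r2 : G * size n < l1 - l0 := by rw [hl0, hl1, ← sub_mul]; exact mul_lt_mul_of_pos_right q2 hs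
  have r3 : T * size n < l2 - l1 := by rw [hl1, hl2, ← sub_mul]; exact mul_lt_mul_of_pos_right q3 hs
  have r4 : l2 - l1 < W * size n := by rw [hl1, hl2, ← sub_mul]; exact mul_lt_mul_of_pos_right q4 hs
  have r5 : G * size n < l3 - l2 := by rw [hl2, hl3, ← sub_mul]; exact mul_lt_mul_of_pos_right q5 hs
  have r6 : l3 - l0 < E * size n := by rw [hl0, hl3, ← sub_mul]; exact mul_lt_mul_of_pos_right q6 hs
  have s1 : 4 * (h * size n) ≤ G * size n := by
    have := mul_le_mul_of_nonneg_right hG hs.le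
    linarith
  have s2 : 8 * (h * size n) ≤ T * size n := by
    have := mul_le_mul_of_nonneg_right hT hs.le
    linarith
  have s3 : T * size n ≤ W * size n := mul_le_mul_of_nonneg_right hTW hs.le
  have s4 : W * size n ≤ E * size n := mul_le_mul_of_nonneg_right hWE hs.le
  refine ⟨⌊(x 0 : ℝ) * n⌋₊, ⌊(x 1 : ℝ) * n⌋₊, ⌈(x 2 : ℝ) * n⌉₊, ⌈(x 3 : ℝ) * n⌉₊, (l1 + l2) / 2, ?_, ?_, ?_,
    ⟨hf, i1, hc, j2, ?_, ?_, ?_, ?_, ?_, ?_⟩, ?_⟩
  · have : ((x 3 : unitInterval) : ℝ) * n ≤ t * n := mul_le_mul_of_nonneg_right h4.le hn0.le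
    linarith
  · linarith
  · have c1 : ∀ u : unitInterval, rv (curve s) u * size n ≤ ‖curve s‖ * size n := fun u =>
      mul_le_mul_of_nonneg_right ((le_abs_self _).trans ((Complex.abs_re_le_norm _).trans ((curve s).norm_coe_le_norm u))) hs.le
    have c2 := c1 (x 1)
    have c3 := c1 (x 2)
    rw [← hl1] at c2
    rw [← hl2] at c3
    linarith
  · intro i hi
    have := j3 i hi
    linarith
  · intro i g1 g2
    have := j4 i g1 g2
    rw [abs_le]
    constructor <;> linarith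
  · intro i g1 g2
    have := j5 i g1 g2
    linarith
  · intro i hi
    have := i3 i hi
    linarith
  · intro i g1 g2
    have := i4 i g1 g2
    rw [abs_le]
    constructor <;> linarith
  · intro i g1 g2
    have := i5 i g1 g2
    linarith
  · intro i g1 g2
    have := j5 i g1 g2
    linarith

/-! ### three cuts in order -/

lemma sort3 {A : ℕ → Prop} {L : ℕ → ℝ} {g e : ℝ} {p q r : ℕ} (hp : A p) (hq : A q) (hr : A r) (h1 : g ≤ |L q - L p|)
    (h2 : g ≤ |L r - L p|) (h3 : g ≤ |L r - L q|) (e1 : |L q - L p| ≤ e) (e2 : |L r - L p| ≤ e) (e3 : |L r - L q| ≤ e) :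
    ∃ c0 c1 c2, A c0 ∧ A c1 ∧ A c2 ∧ g ≤ L c1 - L c0 ∧ g ≤ L c2 - L c1 ∧ L c2 - L c0 ≤ e := by
  have a1 := abs_le.1 e1
  have a2 := abs_le.1 e2
  have a3 := abs_le.1 e3
  rcases le_total (L p) (L q) with h | h
  · rw [abs_of_nonneg (by linarith)] at h1
    rcases le_total (L q) (L r) with k | k
    · rw [abs_of_nonneg (by linarith)] at h3
      exact ⟨p, q, r, hp, hq, hr, h1, h3, by linarith⟩
    · rw [abs_of_nonpos (by linarith)] at h3
      rcases le_total (L p) (L r) with m | m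
      · rw [abs_of_nonneg (by linarith)] at h2
        exact ⟨p, r, q, hp, hr, hq, h2, by linarith, by linarith⟩
      · rw [abs_of_nonpos (by linarith)] at h2
        exact ⟨r, p, q, hr, hp, hq, by linarith, h1, by linarith⟩
  · rw [abs_of_nonpos (by linarith)] at h1
    rcases le_total (L p) (L r) with k | k
    · rw [abs_of_nonneg (by linarith)] at h2
      exact ⟨q, p, r, hq, hp, hr, by linarith, h2, by linarith⟩
    · rw [abs_of_nonpos (by linarith)] at h2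
      rcases le_total (L q) (L r) with m | m
      · rw [abs_of_nonneg (by linarith)] at h3
        exact ⟨q, r, p, hq, hr, hp, h3, by linarith, by linarith⟩
      · rw [abs_of_nonpos (by linarith)] at h3
        exact ⟨r, q, p, hr, hq, hp, by linarith, by linarith, by linarith⟩

lemma sort2 {A : ℕ → Prop} {L : ℕ → ℝ} {g e : ℝ} {p q : ℕ} (hp : A p) (hq : A q) (h1 : g ≤ |L q - L p|)
    (e1 : |L q - L p| ≤ e) : ∃ c0 c1, A c0 ∧ A c1 ∧ g ≤ L c1 - L c0 ∧ L c1 - L c0 ≤ e ∧ |L c0 - L p| ≤ e ∧ |L c1 - L p| ≤ e := by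
  have a1 := abs_le.1 e1
  have he : 0 ≤ e := (abs_nonneg _).trans e1
  rcases le_total (L p) (L q) with h | h
  · rw [abs_of_nonneg (by linarith)] at h1
    exact ⟨p, q, hp, hq, h1, by linarith, by rw [sub_self, abs_zero]; exact he, e1⟩
  · rw [abs_of_nonpos (by linarith)] at h1
    exact ⟨q, p, hq, hp, by linarith, by linarith, e1, by rw [sub_self, abs_zero]; exact he⟩

/-! ### sums over the numbers of steps -/

open Classical in
lemma msum_pr (B : ∀ n : ℕ, (Fin n → Fin 3) → Prop) (x1 x2 : ℝ) (N : ℕ) : msum B x1 x2 N =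
    ∑ n ∈ (Finset.range (⌊x2 * N⌋₊ + 1)).filter (fun n : ℕ => x1 * N ≤ n), pr n (B n) := rfl

lemma msum_mono {B B' : ∀ n : ℕ, (Fin n → Fin 3) → Prop} (h : ∀ n s, B n s → B' n s) (x1 x2 : ℝ) (N : ℕ) :
    msum B x1 x2 N ≤ msum B' x1 x2 N := by
  rw [msum_pr, msum_pr]
  exact Finset.sum_le_sum fun n _ => pr_mono fun s _ => h n s

lemma iso_mono {ε e t t' : ℝ} (h : t ≤ t') (n : ℕ) (s : Fin n → Fin 3) : Iso ε e t n s → Iso ε e t' n s := by
  rintro ⟨k, h1, h2, h3, h4, h5, h6⟩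
  refine ⟨k, h1, h2, h3, h4, h5, fun i hi => ?_⟩
  rcases h6 i hi with h7 | h7
  · exact Or.inl (lt_of_lt_of_le h7 (mul_le_mul_of_nonneg_right h (Real.sqrt_nonneg _)))
  · exact Or.inr h7

lemma card_win {x1 x2 : ℝ} (hx : 0 < x2) {N : ℕ} (hN : 1 ≤ N) :
    (((Finset.range (⌊x2 * N⌋₊ + 1)).filter (fun n : ℕ => x1 * N ≤ n)).card : ℝ) ≤ (x2 + 1) * N := by
  have h1 : ((Finset.range (⌊x2 * N⌋₊ + 1)).filter (fun n : ℕ => x1 * N ≤ n)).card ≤ ⌊x2 * N⌋₊ + 1 :=
    (Finset.card_filter_le _ _).trans (by rw [Finset.card_range])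
  have h2 : (((Finset.range (⌊x2 * N⌋₊ + 1)).filter (fun n : ℕ => x1 * N ≤ n)).card : ℝ) ≤ ((⌊x2 * N⌋₊ + 1 : ℕ) : ℝ) := by
    exact_mod_cast h1
  have h3 := Nat.floor_le (by positivity : 0 ≤ x2 * (N : ℝ))
  have h4 : (1 : ℝ) ≤ N := by exact_mod_cast hN
  push_cast at h2
  linarith

end VC

open VL VC

/-- **V4** -/
theorem vComA_of (hQ : Q1) (hP : VPerfA) (hB : VBadA) (hS : VSl) : ∀ a t δ : ℝ, 0 < a → t < 1 → 0 < δ →
    ∀ x1 x2 : ℝ, 0 < x1 → x1 < x2 → ∃ N0 : ℕ, ∀ N N' : ℕ, N0 ≤ N → N0 ≤ N' →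
    ∑ n ∈ (Finset.range (⌊x2 * N⌋₊ + 1)).filter (fun n : ℕ => x1 * N ≤ n),
      ∑ n' ∈ (Finset.range (⌊x2 * N'⌋₊ + 1)).filter (fun n' : ℕ => x1 * N' ≤ n'),
        max 0 (Dn n (a + δ) (t - δ) - Dn n' a t - δ) ≤ δ * N * N' := by
  intro a t δ ha ht hδ x1 x2 hx1 hx12
  have hx2 : 0 < x2 := hx1.trans hx12
  obtain ⟨ν, hν, hlaw⟩ := hQ
  have hw := wto hlaw
  -- the parameters
  obtain ⟨e0, he0, he1⟩ := ea_small hlaw (a := a) ha (by positivity : 0 < δ / 32)
  obtain ⟨M, hM0, hM1⟩ := fa_small ν (by positivity : 0 < δ / 32)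
  obtain ⟨εS, hεS, nS, hnS⟩ := hS (δ / 16) (by positivity)
  obtain ⟨ε, hε⟩ : ∃ ε : ℝ, ε = min (min (min (δ / 16) ((1 - t) / 4)) (min (a / 2) (e0 / 2)))
    (min (δ / (8 * (x2 + 1))) (1 / M)) := ⟨_, rfl⟩
  have ε0 : 0 < ε := by
    rw [hε]
    have h1 : 0 < 1 / M := by positivity
    refine lt_min (lt_min (lt_min ?_ ?_) (lt_min ?_ ?_)) (lt_min (by positivity) h1) <;> linarith
  have ε1 : ε ≤ δ / 16 := by rw [hε]; exact (min_le_left _ _).trans ((min_le_left _ _).trans (min_le_left _ _))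
  have ε2 : ε ≤ (1 - t) / 4 := by rw [hε]; exact (min_le_left _ _).trans ((min_le_left _ _).trans (min_le_right _ _))
  have ε3 : ε ≤ a / 2 := by rw [hε]; exact (min_le_left _ _).trans ((min_le_right _ _).trans (min_le_left _ _))
  have ε4 : ε ≤ e0 / 2 := by rw [hε]; exact (min_le_left _ _).trans ((min_le_right _ _).trans (min_le_right _ _))
  have ε5 : ε ≤ δ / (8 * (x2 + 1)) := by rw [hε]; exact (min_le_right _ _).trans (min_le_left _ _)
  have ε6 : ε ≤ 1 / M := by rw [hε]; exact (min_le_right _ _).trans (min_le_right _ _)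
  have hM : M ≤ 1 / ε := by
    rw [le_div_iff₀ hM0] at ε6
    rw [le_div_iff₀ ε0]
    linarith
  obtain ⟨E0, hE0, hB1⟩ := hB ε x1 x2 ε0 hx1 hx12
  obtain ⟨e1, he1d⟩ : ∃ e1 : ℝ, e1 = min (E0 / 8) (min (εS / 4) (δ / 16)) := ⟨_, rfl⟩
  have e1p : 0 < e1 := by
    rw [he1d]
    refine lt_min ?_ (lt_min ?_ ?_) <;> linarith
  have e1a : e1 ≤ E0 / 8 := by rw [he1d]; exact min_le_left _ _
  have e1b : e1 ≤ εS / 4 := by rw [he1d]; exact (min_le_right _ _).trans (min_le_left _ _)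
  have e1c : e1 ≤ δ / 16 := by rw [he1d]; exact (min_le_right _ _).trans (min_le_right _ _)
  obtain ⟨t1', ht1', n1, hn1⟩ := hP ε e1 x1 x2 ε0 e1p hx1 hx12
  obtain ⟨t1, ht1⟩ : ∃ t1, t1 = min t1' e1 := ⟨_, rfl⟩
  have t1p : 0 < t1 := by rw [ht1]; exact lt_min ht1' e1p
  have t1a : t1 ≤ e1 := by rw [ht1]; exact min_le_right _ _
  have t1b : t1 ≤ t1' := by rw [ht1]; exact min_le_left _ _
  obtain ⟨t2', ht2', n2, hn2⟩ := hP ε (t1 / 4) x1 x2 ε0 (by positivity) hx1 hx12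
  obtain ⟨t2, ht2⟩ : ∃ t2, t2 = min t2' (t1 / 4) := ⟨_, rfl⟩
  have t2p : 0 < t2 := by rw [ht2]; exact lt_min ht2' (by positivity)
  have t2a : t2 ≤ t1 / 4 := by rw [ht2]; exact min_le_right _ _
  have t2b : t2 ≤ t2' := by rw [ht2]; exact min_le_left _ _
  obtain ⟨w0, hw0, hB2⟩ := hB1 (6 * e1) (t2 / 8) (by positivity) (by linarith) (by linarith)
  obtain ⟨w1, hw1⟩ : ∃ w1, w1 = min (w0 / 2) (t2 / 8) := ⟨_, rfl⟩
  have w1p : 0 < w1 := by rw [hw1]; exact lt_min (by positivity) (by positivity)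
  have w1a : w1 ≤ w0 / 2 := by rw [hw1]; exact min_le_left _ _
  have w1b : w1 ≤ t2 / 8 := by rw [hw1]; exact min_le_right _ _
  obtain ⟨t3', ht3', n3, hn3⟩ := hP ε w1 x1 x2 ε0 w1p hx1 hx12
  obtain ⟨t3, ht3⟩ : ∃ t3, t3 = min t3' w1 := ⟨_, rfl⟩
  have t3p : 0 < t3 := by rw [ht3]; exact lt_min ht3' w1p
  have t3a : t3 ≤ w1 := by rw [ht3]; exact min_le_right _ _
  have t3b : t3 ≤ t3' := by rw [ht3]; exact min_le_left _ _
  obtain ⟨nB, hnB⟩ := hB2 (t3 / 8) (2 * w1) (by positivity) (by linarith) (by linarith)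
  -- the events
  have q1 := ev_closed hw (c4_closed (a + δ / 2) (t - δ / 2) (t2 / 2) t3 w1 (2 * e1)) (by positivity : 0 < δ / 16)
  have q2 := ev_open hw (o4_open (a + δ / 4) (t - δ / 4) (t2 / 4) (t3 / 2) (2 * w1) (3 * e1) (t3 / 32))
    (by positivity : 0 < δ / 16)
  have q3 := ev_closed hw (ea_closed a (2 * ε)) (by positivity : 0 < δ / 32)
  have q4 := ev_closed hw (isClosed_le continuous_const continuous_norm : IsClosed {γ : CI | M ≤ ‖γ‖})
    (by positivity : 0 < δ / 32)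
  have q5 : ∀ᶠ n : ℕ in atTop, 2 ≤ t3 / 32 * size n := by
    obtain ⟨c, C, hc, hsz, -⟩ := NTSF.finE
    have h1 : Tendsto (fun n : ℕ => t3 / 32 * (c * (n : ℝ) ^ (3 / 4 : ℝ))) atTop atTop :=
      ((tendsto_rpow_atTop (by norm_num)).comp tendsto_natCast_atTop_atTop).const_mul_atTop hc |>.const_mul_atTop
        (by positivity)
    filter_upwards [h1.eventually_ge_atTop 2, eventually_ge_atTop 1] with n h2 h3
    exact h2.trans (mul_le_mul_of_nonneg_left (hsz n h3).1 (by positivity))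
  have q6 : ∀ᶠ n : ℕ in atTop, 1 ≤ ε * n :=
    (tendsto_natCast_atTop_atTop.const_mul_atTop ε0).eventually_ge_atTop 1
  have hEa : (ν (Ea a (2 * ε))).toReal < δ / 32 := by
    refine lt_of_le_of_lt (ENNReal.toReal_mono (measure_ne_top _ _) (measure_mono ?_)) he1
    rintro γ ⟨u, h1, h2⟩
    exact ⟨u, by linarith, h2⟩
  have hsub : (ν (C4 (a + δ / 2) (t - δ / 2) (t2 / 2) t3 w1 (2 * e1))).toReal ≤
      (ν (O4 (a + δ / 4) (t - δ / 4) (t2 / 4) (t3 / 2) (2 * w1) (3 * e1) (t3 / 32))).toReal :=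
    ENNReal.toReal_mono (measure_ne_top _ _) (measure_mono (c4_sub_o4 (by linarith) (by linarith) (by linarith)
      (by linarith) (by linarith) (by linarith) (by positivity)))
  obtain ⟨N1, hN1⟩ := eventually_atTop.1 (q1.and (q2.and (q3.and (q4.and (q5.and q6)))))
  -- first half
  have A : ∀ n : ℕ, max (max N1 nS) 1 ≤ n →
      Dn n (a + δ) (t - δ) ≤ (ν (C4 (a + δ / 2) (t - δ / 2) (t2 / 2) t3 w1 (2 * e1))).toReal + 4 * (δ / 16) +
        (pr n (Iso ε e1 t1' n) + pr n (Iso ε (t1 / 4) t2' n) + pr n (Iso ε w1 t3' n)) := by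
    intro n hn'
    have m1 : N1 ≤ n := le_trans (le_trans (le_max_left _ _) (le_max_left _ _)) hn'
    have m2 : nS ≤ n := le_trans (le_trans (le_max_right _ _) (le_max_left _ _)) hn'
    have hn : 1 ≤ n := le_trans (le_max_right _ _) hn'
    obtain ⟨q1, -, q3, q4, q5, q6⟩ := hN1 n m1
    rw [law_pr] at q1 q3 q4
    have hs := NTSF.size_pos hn
    have hn0 : (0 : ℝ) < n := by exact_mod_cast hn
    have wS := pr_of_card (hnS n m2)
    have w3 : Dn n (a + δ) (t - δ) = pr n fun s => ∃ k : ℕ, (k : ℝ) ≤ (t - δ) * n ∧ Cut s k ∧ (a + δ) * size n ≤ (pos s k).re := rfl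
    have key : ∀ s ∈ saw n, (∃ k : ℕ, (k : ℝ) ≤ (t - δ) * n ∧ Cut s k ∧ (a + δ) * size n ≤ (pos s k).re) →
        curve s ∈ C4 (a + δ / 2) (t - δ / 2) (t2 / 2) t3 w1 (2 * e1) ∨ (curve s ∈ Ea a (2 * ε) ∨
          (curve s ∈ {γ : CI | M ≤ ‖γ‖} ∨ ((∃ i j : ℕ, i ≤ j ∧ j ≤ n ∧ δ / 16 * n ≤ (j : ℝ) - i ∧
            ∀ l : ℕ, i ≤ l → l ≤ j → |(pos s l).re - (pos s i).re| ≤ εS * size n) ∨
          (Iso ε e1 t1' n s ∨ (Iso ε (t1 / 4) t2' n s ∨ Iso ε w1 t3' n s))))) := by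
      rintro s - ⟨k, k1, k2, k3⟩
      by_cases hE : curve s ∈ Ea a (2 * ε)
      · exact Or.inr (Or.inl hE)
      by_cases hF : curve s ∈ {γ : CI | M ≤ ‖γ‖}
      · exact Or.inr (Or.inr (Or.inl hF))
      by_cases hL : ∃ i j : ℕ, i ≤ j ∧ j ≤ n ∧ δ / 16 * n ≤ (j : ℝ) - i ∧
          ∀ l : ℕ, i ≤ l → l ≤ j → |(pos s l).re - (pos s i).re| ≤ εS * size n
      · exact Or.inr (Or.inr (Or.inr (Or.inl hL)))
      by_cases hI1 : Iso ε e1 t1' n s
      · exact Or.inr (Or.inr (Or.inr (Or.inr (Or.inl hI1))))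
      by_cases hI2 : Iso ε (t1 / 4) t2' n s
      · exact Or.inr (Or.inr (Or.inr (Or.inr (Or.inr (Or.inl hI2)))))
      by_cases hI3 : Iso ε w1 t3' n s
      · exact Or.inr (Or.inr (Or.inr (Or.inr (Or.inr (Or.inr hI3)))))
      left
      have hF' : ‖curve s‖ < M := not_le.1 hF
      have bulk : ∀ i : ℕ, Cut s i → a * size n ≤ (pos s i).re → (i : ℝ) ≤ (1 - ε) * n →
          ε * n ≤ i ∧ ε * size n ≤ (pos s i).re ∧ (pos s i).re ≤ size n / ε := by
        intro i hi hai hti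
        have hin : i ≤ n := hi.1.le
        refine ⟨?_, ?_, ?_⟩
        · by_contra hc
          rw [not_le] at hc
          refine hE ⟨NTSF.Wd.tm n i, ?_, ?_⟩
          · rw [NTSF.Wd.tm_coe hin, div_le_iff₀ hn0]
            linarith
          · have h1 := hnode hn s hin
            have h2 : a * size n ≤ rv (curve s) (NTSF.Wd.tm n i) * size n := by rw [h1]; linarith
            exact le_of_mul_le_mul_right h2 hs
        · have : ε * size n ≤ a * size n := mul_le_mul_of_nonneg_right (by linarith) hs.le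
          linarith
        · rw [← hnode hn s hin]
          have h1 : rv (curve s) (NTSF.Wd.tm n i) ≤ 1 / ε :=
            ((le_abs_self _).trans ((Complex.abs_re_le_norm _).trans ((curve s).norm_coe_le_norm _))).trans (hF'.le.trans hM)
          have h2 := mul_le_mul_of_nonneg_right h1 hs.le
          rwa [one_div_mul_eq_div] at h2
      have slab : ∀ i j : ℕ, Cut s i → Cut s j → i ≤ j → (pos s j).re - (pos s i).re ≤ εS * size n →
          (j : ℝ) - i < δ / 16 * n := by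
        intro i j hi hj hij hd
        by_contra hc
        rw [not_lt] at hc
        refine hL ⟨i, j, hij, hj.1.le, hc, fun l l1 l2 => ?_⟩
        have h2 := cut_fw hi l1 (l2.trans hj.1.le)
        have h3 := hj.2.2.2.1 l l2
        rw [abs_of_nonneg (by linarith)]
        linarith
      have ex : ∀ {e τ : ℝ} {i : ℕ}, ¬ Iso ε e τ n s → Cut s i → a * size n ≤ (pos s i).re → (i : ℝ) ≤ (1 - ε) * n →
          ∃ q, Cut s q ∧ τ * size n ≤ |(pos s q).re - (pos s i).re| ∧ |(pos s q).re - (pos s i).re| ≤ e * size n := by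
        intro e τ i hI hi hai hti
        obtain ⟨b1, b2, b3⟩ := bulk i hi hai hti
        by_contra hc
        push Not at hc
        refine hI ⟨i, hi, b1, hti, b2, b3, fun q hq => ?_⟩
        by_contra hcc
        rw [not_or, not_lt, not_lt] at hcc
        exact absurd (hc q hq hcc.1) (not_lt.2 hcc.2)
      -- some inequalities
      have z1 : (t - δ / 2) * n ≤ (1 - ε) * n := mul_le_mul_of_nonneg_right (by linarith) hn0.le
      have z2 : (t - δ) * n + δ / 16 * n ≤ (t - δ / 2) * n := by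
        have : 0 ≤ (δ / 2 - δ / 16) * n := mul_nonneg (by linarith) hn0.le
        linarith
      have z3 : 0 ≤ δ / 16 * n := by positivity
      have z4 : 0 ≤ (δ / 2 - e1) * size n := mul_nonneg (by linarith) hs.le
      have z5 : 0 ≤ (δ / 2) * size n := by positivity
      have u1 : e1 * size n ≤ εS * size n := mul_le_mul_of_nonneg_right (by linarith) hs.le
      have u2 : t1 * size n ≤ e1 * size n := mul_le_mul_of_nonneg_right t1a hs.le
      have u3 : t2 * size n ≤ t1 / 4 * size n := mul_le_mul_of_nonneg_right t2a hs.le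
      have u4 : w1 * size n ≤ t2 / 8 * size n := mul_le_mul_of_nonneg_right w1b hs.le
      have u5 : 0 < t2 * size n := mul_pos t2p hs
      have u6 : 0 < t3 * size n := mul_pos t3p hs
      have u7 : t1 * size n ≤ t1' * size n := mul_le_mul_of_nonneg_right t1b hs.le
      have u8 : t2 * size n ≤ t2' * size n := mul_le_mul_of_nonneg_right t2b hs.le
      have u9 : t3 * size n ≤ t3' * size n := mul_le_mul_of_nonneg_right t3b hs.le
      obtain ⟨q, hq, hq1, hq2⟩ := ex hI1 k2 (by linarith) (by linarith)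
      obtain ⟨r, hr, hr1, hr2⟩ := ex hI2 k2 (by linarith) (by linarith)
      have hqr : (pos s r).re - (pos s q).re = ((pos s r).re - (pos s k).re) - ((pos s q).re - (pos s k).re) := by ring
      have hqr1 : |(pos s q).re - (pos s k).re| - |(pos s r).re - (pos s k).re| ≤ |(pos s r).re - (pos s q).re| := by
        rw [hqr, abs_sub_comm ((pos s r).re - (pos s k).re)]
        exact abs_sub_abs_le_abs_sub _ _
      have hqr2 : |(pos s r).re - (pos s q).re| ≤ |(pos s r).re - (pos s k).re| + |(pos s q).re - (pos s k).re| := by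
        rw [hqr]
        exact abs_sub _ _
      obtain ⟨c0, cz, c3, ⟨hc0, hc0'⟩, ⟨hcz, hcz'⟩, ⟨hc3, hc3'⟩, g1, g2, g3⟩ :=
        sort3 (A := fun i => Cut s i ∧ |(pos s i).re - (pos s k).re| ≤ e1 * size n) (L := fun i => (pos s i).re)
          (g := t2 * size n) (e := 2 * e1 * size n) (p := k) (q := q) (r := r)
          ⟨k2, by rw [sub_self, abs_zero]; positivity⟩ ⟨hq, hq2⟩ ⟨hr, by linarith⟩ (by linarith) (by linarith)
          (by linarith) (by linarith) (by linarith) (by linarith)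
      have v0 := abs_le.1 hc0'
      have vz := abs_le.1 hcz'
      have v3 := abs_le.1 hc3'
      have tc3 : (c3 : ℝ) ≤ (t - δ / 2) * n := by
        rcases Nat.lt_or_ge k c3 with h1 | h1
        · have h2 := slab k c3 k2 hc3 h1.le (by linarith)
          linarith
        · have : (c3 : ℝ) ≤ k := by exact_mod_cast h1
          linarith
      have hz3 : cz < c3 := cut_lt hcz hc3 (by linarith)
      have tcz : (cz : ℝ) ≤ (1 - ε) * n := by
        have : (cz : ℝ) ≤ c3 := by exact_mod_cast hz3.le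
        linarith
      obtain ⟨q', hq', hq1', hq2'⟩ := ex hI3 hcz (by linarith) tcz
      obtain ⟨c1, c2, hc1, hc2, g4, g5, g6, g7⟩ := sort2 (A := Cut s) (L := fun i => (pos s i).re) (g := t3 * size n)
        (e := w1 * size n) hcz hq' (by linarith) hq2'
      have v1 := abs_le.1 g6
      have v2 := abs_le.1 g7
      refine cuts_c4 hn (c := ![c0, c1, c2, c3]) ?_ (cut_lt hc0 hc1 ?_).le (cut_lt hc1 hc2 ?_).le (cut_lt hc2 hc3 ?_).le
        tc3 ?_ ?_ g4 g5 ?_ g3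
      · intro j
        fin_cases j
        · exact hc0
        · exact hc1
        · exact hc2
        · exact hc3
      · linarith
      · linarith
      · linarith
      · show (a + δ / 2) * size n ≤ (pos s c0).re
        linarith
      · show t2 / 2 * size n ≤ (pos s c1).re - (pos s c0).re
        linarith
      · show t2 / 2 * size n ≤ (pos s c3).re - (pos s c2).re
        linarith
    have r1 := pr_or (n := n) key
    have r2 := pr_or (n := n) (P := fun s => curve s ∈ Ea a (2 * ε) ∨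
          (curve s ∈ {γ : CI | M ≤ ‖γ‖} ∨ ((∃ i j : ℕ, i ≤ j ∧ j ≤ n ∧ δ / 16 * n ≤ (j : ℝ) - i ∧
            ∀ l : ℕ, i ≤ l → l ≤ j → |(pos s l).re - (pos s i).re| ≤ εS * size n) ∨
          (Iso ε e1 t1' n s ∨ (Iso ε (t1 / 4) t2' n s ∨ Iso ε w1 t3' n s))))) (Q := _) (R := _) (fun s _ h => h)
    have r3 := pr_or (n := n) (P := fun s => curve s ∈ {γ : CI | M ≤ ‖γ‖} ∨ ((∃ i j : ℕ, i ≤ j ∧ j ≤ n ∧
            δ / 16 * n ≤ (j : ℝ) - i ∧ ∀ l : ℕ, i ≤ l → l ≤ j → |(pos s l).re - (pos s i).re| ≤ εS * size n) ∨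
          (Iso ε e1 t1' n s ∨ (Iso ε (t1 / 4) t2' n s ∨ Iso ε w1 t3' n s)))) (Q := _) (R := _) (fun s _ h => h)
    have r4 := pr_or (n := n) (P := fun s => (∃ i j : ℕ, i ≤ j ∧ j ≤ n ∧
            δ / 16 * n ≤ (j : ℝ) - i ∧ ∀ l : ℕ, i ≤ l → l ≤ j → |(pos s l).re - (pos s i).re| ≤ εS * size n) ∨
          (Iso ε e1 t1' n s ∨ (Iso ε (t1 / 4) t2' n s ∨ Iso ε w1 t3' n s))) (Q := _) (R := _) (fun s _ h => h)
    have r5 := pr_or (n := n) (P := fun s => Iso ε e1 t1' n s ∨ (Iso ε (t1 / 4) t2' n s ∨ Iso ε w1 t3' n s))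
      (Q := _) (R := _) (fun s _ h => h)
    have r6 := pr_or (n := n) (P := fun s => Iso ε (t1 / 4) t2' n s ∨ Iso ε w1 t3' n s) (Q := _) (R := _) (fun s _ h => h)
    rw [w3]
    linarith
  -- second half
  have B : ∀ n : ℕ, max (max N1 nS) 1 ≤ n →
      (ν (O4 (a + δ / 4) (t - δ / 4) (t2 / 4) (t3 / 2) (2 * w1) (3 * e1) (t3 / 32))).toReal ≤ Dn n a t + 4 * (δ / 16) +
        pr n (BadM ε (6 * e1) (t2 / 8) (t3 / 8) (2 * w1) n) := by
    intro n hn'
    have m1 : N1 ≤ n := le_trans (le_trans (le_max_left _ _) (le_max_left _ _)) hn'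
    have hn : 1 ≤ n := le_trans (le_max_right _ _) hn'
    obtain ⟨-, q2, -, q4, q5, q6⟩ := hN1 n m1
    rw [law_pr] at q2 q4
    have hs := NTSF.size_pos hn
    have hn0 : (0 : ℝ) < n := by exact_mod_cast hn
    have w3 : Dn n a t = pr n fun s => ∃ k : ℕ, (k : ℝ) ≤ t * n ∧ Cut s k ∧ a * size n ≤ (pos s k).re := rfl
    have key : ∀ s ∈ saw n, curve s ∈ O4 (a + δ / 4) (t - δ / 4) (t2 / 4) (t3 / 2) (2 * w1) (3 * e1) (t3 / 32) →
        (∃ k : ℕ, (k : ℝ) ≤ t * n ∧ Cut s k ∧ a * size n ≤ (pos s k).re) ∨ (curve s ∈ {γ : CI | M ≤ ‖γ‖} ∨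
          BadM ε (6 * e1) (t2 / 8) (t3 / 8) (2 * w1) n s) := by
      intro s _ hO
      by_cases hF : curve s ∈ {γ : CI | M ≤ ‖γ‖}
      · exact Or.inr (Or.inl hF)
      have hF' : ‖curve s‖ < M := not_le.1 hF
      obtain ⟨p1, k0, k1, p2, y, d1, d2, d3, d4, d5⟩ := o4_pnm hn (by positivity) (by linarith) (by linarith)
        (by linarith) (by linarith) q5 hO
      have hp2 : (p2 : ℝ) ≤ (t - δ / 8) * n := by
        have h1 : 1 ≤ δ / 16 * n := q6.trans (mul_le_mul_of_nonneg_right ε1 hn0.le)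
        have h2 : 0 ≤ (δ / 4 - δ / 8 - δ / 16) * n := mul_nonneg (by linarith) hn0.le
        linarith
      have x1' : t2 / 4 / 2 * size n = t2 / 8 * size n := by ring
      have x2' : 2 * (3 * e1) * size n = 6 * e1 * size n := by ring
      have x3' : t3 / 2 / 4 * size n = t3 / 8 * size n := by ring
      rw [x1', x2', x3'] at d4
      rw [x1'] at d5
      have hT2 : 0 ≤ t2 / 8 * size n := by positivity
      by_cases hcut : ∃ i : ℕ, Cut s i ∧ |(pos s i).re - y| ≤ t2 / 8 * size n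
      · obtain ⟨i, i1, i2⟩ := hcut
        rw [abs_le] at i2
        refine Or.inl ⟨i, ?_, i1, ?_⟩
        · have hip : i < p2 := by
            by_contra hc
            have := d5 i (not_lt.1 hc) i1.1.le
            linarith
          have h1 : (i : ℝ) < p2 := by exact_mod_cast hip
          have h2 : 0 ≤ δ / 8 * n := by positivity
          linarith
        · have h1 : 0 ≤ (δ / 4 - t2 / 8) * size n := mul_nonneg (by linarith) hs.le
          linarith
      · refine Or.inr (Or.inr ⟨p1, k0, k1, p2, y, d4, ?_, ?_, ?_, ?_⟩)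
        · have h1 : (t - δ / 8) * n ≤ (1 - ε) * n := mul_le_mul_of_nonneg_right (by linarith) hn0.le
          linarith
        · have h1 : ε * size n ≤ (a + δ / 4) * size n := mul_le_mul_of_nonneg_right (by linarith) hs.le
          linarith
        · have h2 : ‖curve s‖ * size n ≤ 1 / ε * size n := mul_le_mul_of_nonneg_right (hF'.le.trans hM) hs.le
          rw [one_div_mul_eq_div] at h2
          linarith
        · intro i hi
          by_contra hc
          exact hcut ⟨i, hi, not_lt.1 hc⟩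
    have r1 := pr_or (n := n) key
    have r2 := pr_or (n := n) (P := fun s => curve s ∈ {γ : CI | M ≤ ‖γ‖} ∨ BadM ε (6 * e1) (t2 / 8) (t3 / 8) (2 * w1) n s)
      (Q := _) (R := _) (fun s _ h => h)
    rw [w3]
    linarith
  -- the sums
  obtain ⟨NX, hNX⟩ := exists_nat_gt (((max (max N1 nS) 1 : ℕ) : ℝ) / x1)
  refine ⟨max (max (max n1 n2) (max n3 nB)) (max NX 1), fun N N' hN hN' => ?_⟩
  have big : ∀ {N n : ℕ}, NX ≤ N → x1 * N ≤ n → max (max N1 nS) 1 ≤ n := by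
    intro N n h1 h2
    have h3 : (NX : ℝ) ≤ N := by exact_mod_cast h1
    rw [div_lt_iff₀ hx1] at hNX
    have h4 : (NX : ℝ) * x1 ≤ N * x1 := mul_le_mul_of_nonneg_right h3 hx1.le
    have h5 : ((max (max N1 nS) 1 : ℕ) : ℝ) ≤ n := by linarith
    exact_mod_cast h5
  have a1 : n1 ≤ N := le_trans (le_trans (le_trans (le_max_left _ _) (le_max_left _ _)) (le_max_left _ _)) hN
  have a2 : n2 ≤ N := le_trans (le_trans (le_trans (le_max_right _ _) (le_max_left _ _)) (le_max_left _ _)) hN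
  have a3 : n3 ≤ N := le_trans (le_trans (le_trans (le_max_left _ _) (le_max_right _ _)) (le_max_left _ _)) hN
  have a4 : NX ≤ N := le_trans (le_trans (le_max_left _ _) (le_max_right _ _)) hN
  have a5 : 1 ≤ N := le_trans (le_trans (le_max_right _ _) (le_max_right _ _)) hN
  have b1 : nB ≤ N' := le_trans (le_trans (le_trans (le_max_right _ _) (le_max_right _ _)) (le_max_left _ _)) hN'
  have b4 : NX ≤ N' := le_trans (le_trans (le_max_left _ _) (le_max_right _ _)) hN'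
  have b5 : 1 ≤ N' := le_trans (le_trans (le_max_right _ _) (le_max_right _ _)) hN'
  have s1 := hn1 N a1
  have s2 := hn2 N a2
  have s3 := hn3 N a3
  have s4 := hnB N' b1
  rw [msum_pr] at s1 s2 s3 s4
  have hle : ∀ n ∈ (Finset.range (⌊x2 * N⌋₊ + 1)).filter (fun n : ℕ => x1 * N ≤ n),
      ∀ n' ∈ (Finset.range (⌊x2 * N'⌋₊ + 1)).filter (fun n' : ℕ => x1 * N' ≤ n'),
        max 0 (Dn n (a + δ) (t - δ) - Dn n' a t - δ) ≤
          (pr n (Iso ε e1 t1' n) + pr n (Iso ε (t1 / 4) t2' n) + pr n (Iso ε w1 t3' n)) +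
            pr n' (BadM ε (6 * e1) (t2 / 8) (t3 / 8) (2 * w1) n') := by
    intro n hn n' hn'
    have h1 := A n (big a4 (Finset.mem_filter.1 hn).2)
    have h2 := B n' (big b4 (Finset.mem_filter.1 hn').2)
    have p1 := pr_nonneg n (Iso ε e1 t1' n)
    have p2 := pr_nonneg n (Iso ε (t1 / 4) t2' n)
    have p3 := pr_nonneg n (Iso ε w1 t3' n)
    have p4 := pr_nonneg n' (BadM ε (6 * e1) (t2 / 8) (t3 / 8) (2 * w1) n')
    exact max_le (by linarith) (by linarith)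
  refine (Finset.sum_le_sum fun n hn => Finset.sum_le_sum fun n' hn' => hle n hn n' hn').trans ?_
  simp only [Finset.sum_add_distrib, Finset.sum_const, nsmul_eq_mul, ← Finset.mul_sum]
  have cN := card_win (x1 := x1) hx2 a5
  have cN' := card_win (x1 := x1) hx2 b5
  have N0' : (0 : ℝ) < N := by exact_mod_cast a5
  have N0'' : (0 : ℝ) < N' := by exact_mod_cast b5
  have k1 : ∀ {S : ℝ}, S ≤ ε * N → 0 ≤ S →
      (((Finset.range (⌊x2 * N'⌋₊ + 1)).filter (fun n : ℕ => x1 * N' ≤ n)).card : ℝ) * S ≤ (x2 + 1) * N' * (ε * N) := by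
    intro S h1 h2
    exact mul_le_mul cN' h1 h2 (by positivity)
  have k2 : ∀ {S : ℝ}, S ≤ ε * N' → 0 ≤ S →
      (((Finset.range (⌊x2 * N⌋₊ + 1)).filter (fun n : ℕ => x1 * N ≤ n)).card : ℝ) * S ≤ (x2 + 1) * N * (ε * N') := by
    intro S h1 h2
    exact mul_le_mul cN h1 h2 (by positivity)
  have j1 := k1 s1 (Finset.sum_nonneg fun n _ => pr_nonneg n _)
  have j2 := k1 s2 (Finset.sum_nonneg fun n _ => pr_nonneg n _)
  have j3 := k1 s3 (Finset.sum_nonneg fun n _ => pr_nonneg n _)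
  have j4 := k2 s4 (Finset.sum_nonneg fun n _ => pr_nonneg n _)
  have j5 : (x2 + 1) * ε ≤ δ / 8 := by
    rw [le_div_iff₀ (by positivity)] at ε5
    linarith
  have j6 : (x2 + 1) * ε * (N * N') ≤ δ / 8 * (N * N') := mul_le_mul_of_nonneg_right j5 (by positivity)
  have j7 : 0 ≤ δ * (N * N') := by positivity
  linarith

end Pool.Agent.CRT.V
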