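import Pool.Agent.CRT.VEndG

/-!
# CRT, row 11A E (helper66), averaged form

`VComA`: the comparison of the probabilities of the cuts for two numbers of steps, in the mean over both numbers.
`VLimA`: the same with a limit. **`vend3 (hP : VProd) (hA : VLimA) (hV : VPos) (hR : RegSz) : Q1 → RVa`**, `vLimA_of : VComA → VLimA`.
-/

set_option autoImplicit false

open Set Filter Topology MeasureTheory
open scoped ENNReal

namespace Pool.Agent.CRT.V

/-- the numbers of steps in `[x1 N, x2 N]` -/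
noncomputable def Rg (x1 x2 : ℝ) (N : ℕ) : Finset ℕ := (Finset.range (⌊x2 * N⌋₊ + 1)).filter fun n => x1 * N ≤ n

/-- **limit in the mean** -/
def VLimA : Prop := Q1 → ∃ D : ℝ → ℝ → ℝ, (∀ t, Antitone fun a => D a t) ∧ (∀ a, Monotone (D a)) ∧
  (∀ a t, 0 ≤ D a t ∧ D a t ≤ 1) ∧ ∀ a t δ : ℝ, 0 < a → 0 < t → t < 1 → 0 < δ → ∀ x1 x2 : ℝ, 0 < x1 → x1 < x2 →
    ∀ᶠ N : ℕ in atTop, ∑ n ∈ Rg x1 x2 N, (max 0 (D (a + δ) (t - δ) - δ - Dn n a t) + max 0 (Dn n a t - D a t - δ)) ≤ δ * N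

/-- **comparison in the mean** -/
def VComA : Prop := Q1 → ∀ a t δ : ℝ, 0 < a → 0 < t → t < 1 → 0 < δ → ∀ x1 x2 : ℝ, 0 < x1 → x1 < x2 →
  ∃ N0 : ℕ, ∀ N N' : ℕ, N0 ≤ N → N0 ≤ N' →
    ∑ n ∈ Rg x1 x2 N, ∑ n' ∈ Rg x1 x2 N', max 0 (Dn n (a + δ) (t - δ) - Dn n' a t - δ) ≤ δ * (N * N')

namespace E

open Pool.Agent.NTS.Res
open Pool.Agent.NPR

/-! ### from the mean to almost every point -/

/-- a sequence of functions with values in `[0, 1]` on a countable family, with means going to 0 -/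
lemma subseq_ae {ι : Type} [Countable ι] (L : ℕ) (w : ι → ℕ → ℝ) (hw0 : ∀ i n, 0 ≤ w i n) (hw1 : ∀ i n, w i n ≤ 1)
    (h : ∀ i, ∀ ε : ℝ, 0 < ε → ∀ᶠ N : ℕ in atTop, ∑ n ∈ Finset.range (L * N), w i n ≤ ε * N)
    (φ : ℕ → ℕ) (hφ : Tendsto φ atTop atTop) :
    ∃ ms : ℕ → ℕ, Tendsto (fun j => φ (ms j)) atTop atTop ∧
      ∀ᵐ x : ℝ, 0 < x → x ≤ L → ∀ i, Tendsto (fun j => w i ⌊x * φ (ms j)⌋₊) atTop (𝓝 0) := by
  obtain ⟨e, he⟩ := exists_injective_nat ι
  -- the subsequence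
  have hex : ∀ j : ℕ, ∃ m : ℕ, j ≤ φ m ∧ 1 ≤ φ m ∧ ∀ i : ι, e i ≤ j → ∑ n ∈ Finset.range (L * φ m), w i n ≤ (1 / 2) ^ j * φ m := by
    intro j
    have hfin : {i : ι | e i ≤ j}.Finite := (Set.finite_Iic j).preimage he.injOn
    have h1 : ∀ᶠ m : ℕ in atTop, ∀ i ∈ {i : ι | e i ≤ j}, ∑ n ∈ Finset.range (L * φ m), w i n ≤ (1 / 2) ^ j * φ m :=
      (eventually_all_finite hfin).2 fun i _ => hφ.eventually (h i ((1 / 2) ^ j) (by positivity))
    obtain ⟨m, k1, k2, k3⟩ := (h1.and ((hφ.eventually_ge_atTop j).and (hφ.eventually_ge_atTop 1))).exists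
    exact ⟨m, k2, k3, fun i hi => k1 i hi⟩
  choose ms hms1 hms2 hms3 using hex
  refine ⟨ms, tendsto_atTop_mono hms1 tendsto_id, ?_⟩
  have hi : ∀ i : ι, ∀ᵐ x : ℝ, 0 < x → x ≤ L → Tendsto (fun j => w i ⌊x * φ (ms j)⌋₊) atTop (𝓝 0) := by
    intro i
    have hmeas : ∀ j, Measurable fun x : ℝ => w i ⌊x * (φ (ms j) : ℝ)⌋₊ := fun j =>
      (measurable_of_countable (w i)).comp (Nat.measurable_floor.comp (measurable_id.mul_const _))
    -- the integrals
    have hI : ∀ j, e i ≤ j → ∫⁻ x in Ioc (0 : ℝ) L, ENNReal.ofReal (w i ⌊x * (φ (ms j) : ℝ)⌋₊) ≤ ENNReal.ofReal ((1 / 2) ^ j) := by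
      intro j hj
      have h1 := K10.step_scale (w i) (hms2 j) L
      have hint : IntegrableOn (fun x : ℝ => w i ⌊x * (φ (ms j) : ℝ)⌋₊) (Ioc (0 : ℝ) L) := by
        refine Integrable.of_bound (hmeas j).aestronglyMeasurable 1 (Eventually.of_forall fun x => ?_)
        rw [Real.norm_of_nonneg (hw0 _ _)]
        exact hw1 _ _
      rw [← ofReal_integral_eq_lintegral_ofReal hint (Eventually.of_forall fun x => hw0 _ _)]
      refine ENNReal.ofReal_le_ofReal ?_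
      rw [intervalIntegral.integral_of_le (Nat.cast_nonneg L)] at h1
      rw [h1]
      have h2 := hms3 j i hj
      have h3 : (0 : ℝ) < φ (ms j) := by exact_mod_cast hms2 j
      rw [inv_mul_le_iff₀ h3]
      linarith
    have hsum : ∑' j, ∫⁻ x in Ioc (0 : ℝ) L, ENNReal.ofReal (w i ⌊x * (φ (ms j) : ℝ)⌋₊) ≠ ∞ := by
      have h4 : ∀ j, ∫⁻ x in Ioc (0 : ℝ) L, ENNReal.ofReal (w i ⌊x * (φ (ms j) : ℝ)⌋₊) ≤
          (if j < e i then ENNReal.ofReal L else 0) + ENNReal.ofReal ((1 / 2) ^ j) := by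
        intro j
        by_cases hj : j < e i
        · rw [if_pos hj]
          refine le_trans ?_ le_self_add
          calc ∫⁻ x in Ioc (0 : ℝ) L, ENNReal.ofReal (w i ⌊x * (φ (ms j) : ℝ)⌋₊) ≤ ∫⁻ _x in Ioc (0 : ℝ) L, 1 := by
                refine lintegral_mono fun x => ?_
                exact ENNReal.ofReal_le_one.2 (hw1 _ _)
            _ = ENNReal.ofReal L := by rw [setLIntegral_const, one_mul, Real.volume_Ioc, sub_zero]
        · rw [if_neg hj, zero_add]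
          exact hI j (not_lt.1 hj)
      refine ne_top_of_le_ne_top ?_ (ENNReal.tsum_le_tsum h4)
      rw [ENNReal.tsum_add]
      refine ENNReal.add_ne_top.2 ⟨?_, ?_⟩
      · rw [tsum_eq_sum (s := Finset.range (e i)) fun j hj => by
          rw [if_neg]
          exact fun h => hj (Finset.mem_range.2 h)]
        exact ENNReal.sum_ne_top.2 fun j _ => by split_ifs <;> simp
      · have h5 : Summable fun j : ℕ => ((1 : ℝ) / 2) ^ j := summable_geometric_of_lt_one (by norm_num) (by norm_num)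
        rw [← ENNReal.ofReal_tsum_of_nonneg (fun j => by positivity) h5]
        exact ENNReal.ofReal_ne_top
    rw [← lintegral_tsum fun j => (hmeas j).ennreal_ofReal.aemeasurable] at hsum
    have hae := ae_lt_top (μ := volume.restrict (Ioc (0 : ℝ) L))
      (Measurable.tsum fun j => (hmeas j).ennreal_ofReal) hsum
    rw [ae_restrict_iff' measurableSet_Ioc] at hae
    filter_upwards [hae] with x hx h0 hL
    have h6 := ENNReal.tendsto_cofinite_zero_of_tsum_ne_top (hx ⟨h0, hL⟩).ne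
    rw [Nat.cofinite_eq_atTop] at h6
    have h7 := (ENNReal.tendsto_toReal ENNReal.zero_ne_top).comp h6
    rw [ENNReal.toReal_zero] at h7
    refine h7.congr fun j => ?_
    simp only [Function.comp_apply]
    rw [ENNReal.toReal_ofReal (hw0 _ _)]
  have hall := ae_all_iff.2 hi
  filter_upwards [hall] with x hx h0 hL i
  exact hx i h0 hL

/-- the error at `n` -/
noncomputable def err (D : ℝ → ℝ → ℝ) (a t δ : ℝ) (n : ℕ) : ℝ :=
  max 0 (D (a + δ) (t - δ) - δ - Dn n a t) + max 0 (Dn n a t - D a t - δ)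

section lim

variable {D : ℝ → ℝ → ℝ} (hDa : ∀ t, Antitone fun a => D a t) (hDm : ∀ a, Monotone (D a)) (hD : ∀ a t, 0 ≤ D a t ∧ D a t ≤ 1)

lemma err_nonneg (a t δ : ℝ) (n : ℕ) : 0 ≤ err D a t δ n := add_nonneg (le_max_left _ _) (le_max_left _ _)

include hD in
lemma err_le {a t δ : ℝ} (hδ : 0 < δ) (n : ℕ) : err D a t δ n ≤ 2 := by
  have h1 := Dn_nonneg n a t
  have h2 := Dn_le_one n a t
  have h3 := (hD (a + δ) (t - δ)).2
  have h4 := (hD a t).1
  have h5 : max 0 (D (a + δ) (t - δ) - δ - Dn n a t) ≤ 1 := max_le zero_le_one (by linarith)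
  have h6 : max 0 (Dn n a t - D a t - δ) ≤ 1 := max_le zero_le_one (by linarith)
  unfold err
  linarith

include hDa hDm in
lemma err_anti {a t δ δ' : ℝ} (h : δ' ≤ δ) (n : ℕ) : err D a t δ n ≤ err D a t δ' n := by
  have h1 : D (a + δ) (t - δ) ≤ D (a + δ') (t - δ') :=
    (hDa (t - δ) (show a + δ' ≤ a + δ by linarith)).trans (hDm (a + δ') (show t - δ ≤ t - δ' by linarith))
  exact add_le_add (max_le_max le_rfl (by linarith)) (max_le_max le_rfl (by linarith))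

include hDa hDm hD in
/-- the limits along a subsequence, at almost every point -/
lemma lim_of_mean (h : ∀ a t δ : ℝ, 0 < a → 0 < t → t < 1 → 0 < δ → ∀ x1 x2 : ℝ, 0 < x1 → x1 < x2 →
    ∀ᶠ N : ℕ in atTop, ∑ n ∈ Rg x1 x2 N, (max 0 (D (a + δ) (t - δ) - δ - Dn n a t) + max 0 (Dn n a t - D a t - δ)) ≤ δ * N)
    (L : ℕ) (φ : ℕ → ℕ) (hφ : Tendsto φ atTop atTop) : ∃ ms : ℕ → ℕ, Tendsto (fun j => φ (ms j)) atTop atTop ∧
      ∀ᵐ x : ℝ, 0 < x → x ≤ L → LimAt Fp size D (fun j => ⌊x * φ (ms j)⌋₊) := by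
  classical
  set w : ℚ × ℚ × ℚ → ℕ → ℝ := fun i n => if (0 : ℝ) < i.1 ∧ (0 : ℝ) < i.2.1 ∧ (i.2.1 : ℝ) < 1 ∧ (0 : ℝ) < i.2.2 then
    err D i.1 i.2.1 ((i.2.2 : ℝ) / 2) n / 2 else 0 with hw
  have hw0 : ∀ i n, 0 ≤ w i n := by
    intro i n
    simp only [hw]
    split_ifs
    · exact div_nonneg (err_nonneg _ _ _ _) (by norm_num)
    · exact le_rfl
  have hw1 : ∀ i n, w i n ≤ 1 := by
    intro i n
    simp only [hw]
    split_ifs with hc
    · have := err_le hD (a := i.1) (t := i.2.1) (δ := (i.2.2 : ℝ) / 2) (by linarith [hc.2.2.2]) n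
      linarith
    · exact zero_le_one
  have hmean : ∀ i, ∀ ε : ℝ, 0 < ε → ∀ᶠ N : ℕ in atTop, ∑ n ∈ Finset.range (L * N), w i n ≤ ε * N := by
    rintro ⟨a, t, δ⟩ ε hε
    by_cases hc : (0 : ℝ) < a ∧ (0 : ℝ) < t ∧ (t : ℝ) < 1 ∧ (0 : ℝ) < δ
    · obtain ⟨h1, h2, h3, h4⟩ := hc
      obtain ⟨d, hd, hd1, hd2⟩ : ∃ d : ℝ, 0 < d ∧ d ≤ (δ : ℝ) / 2 ∧ d ≤ ε / 2 :=
        ⟨min ((δ : ℝ) / 2) (ε / 2), by positivity, min_le_left _ _, min_le_right _ _⟩
      obtain ⟨x1, hx1, hx2, hx3⟩ : ∃ x1 : ℝ, 0 < x1 ∧ x1 ≤ ε / 4 ∧ x1 ≤ 1 / 2 :=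
        ⟨min (ε / 4) (1 / 2), by positivity, min_le_left _ _, min_le_right _ _⟩
      have hN4 : ∀ᶠ N : ℕ in atTop, (1 : ℝ) ≤ ε / 4 * N :=
        (tendsto_natCast_atTop_atTop.const_mul_atTop (by positivity)).eventually_ge_atTop _
      filter_upwards [h a t d h1 h2 h3 hd x1 (L + 1) hx1 (by
        have : (0 : ℝ) ≤ L := Nat.cast_nonneg L
        linarith), hN4] with N k1 k2
      have hN0 : (0 : ℝ) ≤ N := Nat.cast_nonneg N
      have hsub : Finset.range (L * N) ⊆ Finset.range (⌊x1 * N⌋₊ + 1) ∪ Rg x1 (L + 1) N := by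
        intro n hn
        rw [Finset.mem_range] at hn
        rw [Finset.mem_union]
        by_cases hx : x1 * N ≤ n
        · right
          rw [Rg, Finset.mem_filter, Finset.mem_range]
          refine ⟨?_, hx⟩
          have : n ≤ ⌊((L : ℝ) + 1) * N⌋₊ := by
            refine Nat.le_floor ?_
            have h5 : (n : ℝ) ≤ ((L * N : ℕ) : ℝ) := by exact_mod_cast hn.le
            push_cast at h5
            nlinarith
          omega
        · left
          rw [Finset.mem_range]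
          have : n ≤ ⌊x1 * N⌋₊ := Nat.le_floor (not_le.1 hx).le
          omega
      have e1 : ∑ n ∈ Finset.range (⌊x1 * N⌋₊ + 1), w (a, t, δ) n ≤ x1 * N + 1 := by
        have h5 := Finset.sum_le_card_nsmul (Finset.range (⌊x1 * N⌋₊ + 1)) (w (a, t, δ)) 1 fun n _ => hw1 _ n
        rw [Finset.card_range, nsmul_eq_mul, mul_one] at h5
        refine h5.trans ?_
        push_cast
        have := Nat.floor_le (show 0 ≤ x1 * (N : ℝ) by positivity)
        linarith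
      have e2 : ∑ n ∈ Rg x1 (L + 1) N, w (a, t, δ) n ≤ d * N / 2 := by
        have h5 : ∑ n ∈ Rg x1 (L + 1) N, w (a, t, δ) n ≤ ∑ n ∈ Rg x1 (L + 1) N, err D a t d n / 2 := by
          refine Finset.sum_le_sum fun n _ => ?_
          simp only [hw]
          rw [if_pos ⟨h1, h2, h3, h4⟩]
          have := err_anti hDa hDm (a := a) (t := t) hd1 n
          linarith
        refine h5.trans ?_
        rw [← Finset.sum_div]
        have h6 : ∑ n ∈ Rg x1 (L + 1) N, err D a t d n ≤ d * N := k1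
        linarith
      calc ∑ n ∈ Finset.range (L * N), w (a, t, δ) n
          ≤ ∑ n ∈ Finset.range (⌊x1 * N⌋₊ + 1) ∪ Rg x1 (L + 1) N, w (a, t, δ) n :=
            Finset.sum_le_sum_of_subset_of_nonneg hsub fun n _ _ => hw0 _ n
        _ ≤ ∑ n ∈ Finset.range (⌊x1 * N⌋₊ + 1), w (a, t, δ) n + ∑ n ∈ Rg x1 (L + 1) N, w (a, t, δ) n := by
            rw [← Finset.sum_union_inter]
            exact le_add_of_nonneg_right (Finset.sum_nonneg fun n _ => hw0 _ n)
        _ ≤ ε * N := by nlinarith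
    · filter_upwards with N
      have : ∀ n, w (a, t, δ) n = 0 := fun n => if_neg hc
      simp only [this, Finset.sum_const_zero]
      positivity
  obtain ⟨ms, hms, hae⟩ := subseq_ae L w hw0 hw1 hmean φ hφ
  refine ⟨ms, hms, ?_⟩
  filter_upwards [hae] with x hx hx0 hxL a t δ ha ht ht1 hδ
  have h1 := (hx hx0 hxL (a, t, δ)).eventually (gt_mem_nhds (show (0 : ℝ) < (δ : ℝ) / 4 by positivity))
  filter_upwards [h1] with j hj
  simp only [hw] at hj
  rw [if_pos ⟨ha, ht, ht1, hδ⟩] at hj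
  have h2 : err D a t ((δ : ℝ) / 2) ⌊x * φ (ms j)⌋₊ < (δ : ℝ) / 2 := by linarith
  rw [Fp_Dn _ _ _ ht.le]
  have h3 : D ((a : ℝ) + δ) ((t : ℝ) - δ) ≤ D ((a : ℝ) + δ / 2) ((t : ℝ) - δ / 2) :=
    (hDa ((t : ℝ) - δ) (show (a : ℝ) + δ / 2 ≤ a + δ by linarith)).trans
      (hDm ((a : ℝ) + δ / 2) (show (t : ℝ) - δ ≤ t - δ / 2 by linarith))
  have h4 : max 0 (D ((a : ℝ) + δ / 2) ((t : ℝ) - δ / 2) - δ / 2 - Dn ⌊x * φ (ms j)⌋₊ a t) < (δ : ℝ) / 2 :=
    lt_of_le_of_lt (le_add_of_nonneg_right (le_max_left _ _)) h2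
  have h5 : max 0 (Dn ⌊x * φ (ms j)⌋₊ a t - D a t - δ / 2) < (δ : ℝ) / 2 :=
    lt_of_le_of_lt (le_add_of_nonneg_left (le_max_left _ _)) h2
  have h6 := (le_max_right _ _).trans_lt h4
  have h7 := (le_max_right _ _).trans_lt h5
  constructor <;> linarith

end lim

/-- one sequence -/
lemma Dat.exists_seq (D : Dat) : ∃ n : ℕ → ℕ, Tendsto n atTop atTop ∧ LimAt D.F D.sz D.G n := by
  obtain ⟨ms, hms, hae⟩ := D.lim 1 id tendsto_id
  have h1 : (volume : Measure ℝ) (Ioc (0 : ℝ) 1) ≠ 0 := by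
    rw [Real.volume_Ioc]
    simp
  obtain ⟨x, hx, hx2⟩ := (nonempty_of_measure_ne_zero (show (volume : Measure ℝ) (Ioc (0 : ℝ) 1 ∩
    {x | 0 < x → x ≤ ((1 : ℕ) : ℝ) → LimAt D.F D.sz D.G (fun j => ⌊x * (id (ms j) : ℕ)⌋₊)}) ≠ 0 by
      rw [measure_inter_conull (mem_ae_iff.1 hae)]
      exact h1))
  exact ⟨_, (fl_top hx.1).comp hms, hx2 hx.1 (by simpa using hx.2)⟩

/-- **row E, averaged form** -/
theorem vend3 (hP : VProd) (hA : VLimA) (hV : VPos) (hR : RegSz) : Q1 → RVa := by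
  classical
  rintro hQ lam hlam
  obtain ⟨c, C, hc, hC, hb⟩ := _root_.CRT.Mass.aN_bounds
  obtain ⟨G, hGa, hGm, hG, hmean⟩ := hA hQ
  obtain ⟨D, hDF, hDs, hDG⟩ : ∃ D : Dat, D.F = Fp ∧ D.sz = size ∧ D.G = G := ⟨{
    F := Fp
    sz := size
    G := G
    F0 := Fp_nonneg
    F1 := Fp_le_one
    Fa := Fp_anti
    Fm := Fp_mono
    G0 := fun a t => (hG a t).1
    G1 := fun a t => (hG a t).2
    Ga := hGa
    Gm := hGm
    szp := fun n hn => NTSF.size_pos hn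
    szn := fun n => NTSF.size_nonneg n
    szv := fun x hx => hR hQ x hx
    lim := lim_of_mean hGa hGm hG hmean }, rfl, rfl, rfl⟩
  have hfact : D.Fact aN := by
    obtain ⟨h, hh⟩ := hP
    choose C hC using hh
    refine ⟨C, h, fun b n k hk => ?_⟩
    rw [hDF]
    exact (Fp_fst n b k).trans (hC b n (k + 1) hk)
  obtain ⟨n, hn, hL⟩ := D.exists_seq
  rw [hDF, hDs, hDG] at hL
  have hpos : ∃ ε : ℝ, 0 < ε ∧ ε < 1 ∧ ε ≤ D.G ε (1 - ε) := by
    obtain ⟨ε, hε, n0, hn0⟩ := hV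
    have hε1 : ε < 1 := by
      by_contra hcon
      push Not at hcon
      obtain ⟨n, hn1, hn2⟩ : ∃ n : ℕ, n0 ≤ n ∧ 1 ≤ n := ⟨max n0 1, le_max_left _ _, le_max_right _ _⟩
      have h1 := hn0 n hn1
      have h2 : ((saw n).filter fun s => ∃ k : ℕ, (k : ℝ) ≤ (1 - ε) * n ∧ Cut s k ∧ ε * size n ≤ (pos s k).re) = ∅ := by
        rw [Finset.filter_eq_empty_iff]
        rintro s _ ⟨k, h3, _, h4⟩
        have h5 : (k : ℝ) ≤ 0 := h3.trans (mul_nonpos_of_nonpos_of_nonneg (by linarith) (Nat.cast_nonneg n))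
        have h6 : k = 0 := by
          have : (k : ℝ) = 0 := le_antisymm h5 (Nat.cast_nonneg k)
          exact_mod_cast this
        subst h6
        have h7 : pos s 0 = 0 := by
          unfold pos
          simp
        rw [h7, Complex.zero_re] at h4
        have := mul_pos hε (NTSF.size_pos hn2)
        linarith
      rw [h2, Finset.card_empty, Nat.cast_zero] at h1
      have := mul_pos hε (card_pos n)
      linarith
    obtain ⟨q, hq, hq'⟩ := exists_rat_btwn (show ε / 2 < ε by linarith)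
    obtain ⟨r, hr, hr'⟩ := exists_rat_btwn (show 1 - ε < 1 by linarith)
    have hq0 : (0 : ℝ) < q := by linarith
    have hr0 : (0 : ℝ) < r := by linarith
    have hGq : ε ≤ G q r := by
      refine le_of_forall_pos_le_add fun δ hδ => ?_
      obtain ⟨d, hd, hd'⟩ := exists_rat_btwn hδ
      obtain ⟨j, ⟨-, h2⟩, h3⟩ := ((hL q r d hq0 hr0 hr' hd).and (hn.eventually_ge_atTop n0)).exists
      rw [Fp_Dn _ _ _ hr0.le] at h2
      have h4 : ε ≤ Dn (n j) ε (1 - ε) := by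
        unfold Dn
        rw [le_div_iff₀ (card_pos _)]
        exact hn0 _ h3
      have h5 := (h4.trans (Dn_anti (n j) (1 - ε) hq'.le)).trans (Dn_mono (n j) q hr.le)
      linarith
    refine ⟨min ε (min q (1 - r)), lt_min hε (lt_min hq0 (by linarith)), (min_le_left _ _).trans_lt hε1, ?_⟩
    rw [hDG]
    have k1 : min ε (min (q : ℝ) (1 - r)) ≤ q := (min_le_right _ _).trans (min_le_left _ _)
    have k2 : (r : ℝ) ≤ 1 - min ε (min (q : ℝ) (1 - r)) := by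
      have := (min_le_right ε (min (q : ℝ) (1 - r))).trans (min_le_right _ _)
      linarith
    exact (min_le_left _ _).trans (hGq.trans ((hGa r k1).trans (hGm _ k2)))
  have hzero : ∀ b : ℝ, 0 < b → ∀ η : ℝ, 0 < η → ∃ t : ℝ, 0 < t ∧ D.G b t ≤ η := by
    intro b hb η hη
    rw [hDG]
    obtain ⟨ν, hν, hl⟩ := hQ
    obtain ⟨e, he, h⟩ := VL.ea_small hl (show 0 < b / 2 by positivity) (show 0 < η / 4 by positivity)
    obtain ⟨q, hq, hq'⟩ := exists_rat_btwn (show b / 2 < b by linarith)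
    obtain ⟨r, hr, hr'⟩ := exists_rat_btwn (show 0 < min e (1 / 2) from lt_min he (by norm_num))
    have hre := hr'.trans_le (min_le_left _ _)
    have hr1 := hr'.trans_le (min_le_right _ _)
    obtain ⟨d, hd, hd'⟩ := exists_rat_btwn (show (0 : ℝ) < min (r : ℝ) (min (b - q) (η / 4)) from
      lt_min hr (lt_min (by linarith) (by positivity)))
    have hd1 := hd'.trans_le (min_le_left _ _)
    have hd2 := hd'.trans_le ((min_le_right _ _).trans (min_le_left _ _))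
    have hd3 := hd'.trans_le ((min_le_right _ _).trans (min_le_right _ _))
    have hq0 : (0 : ℝ) < q := by linarith
    refine ⟨r - d, by linarith, ?_⟩
    have hcl := VL.ev_closed (VL.wto hl) (VL.ea_closed (b / 2) e) (show 0 < η / 4 by positivity)
    obtain ⟨j, ⟨h1, -⟩, h2, h3⟩ := ((hL q r d hq0 hr (by linarith) hd).and
      ((hn.eventually hcl).and (hn.eventually_ge_atTop 1))).exists
    rw [Fp_Dn _ _ _ hr.le] at h1
    have h4 : Dn (n j) q r ≤ (law (n j) (VL.Ea (b / 2) e)).toReal := by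
      have hlr : (law (n j) (VL.Ea (b / 2) e)).toReal =
          (((saw (n j)).filter fun s => curve s ∈ VL.Ea (b / 2) e).card : ℝ) / ((saw (n j)).card : ℝ) := by
        rw [NTSF.law_apply, ENNReal.toReal_mul, ENNReal.toReal_inv, ENNReal.toReal_natCast, ENNReal.toReal_natCast]
        exact inv_mul_eq_div _ _
      rw [hlr]
      refine div_le_div_of_nonneg_right ?_ (card_pos _).le
      refine Nat.cast_le.2 (Finset.card_le_card fun s hs => ?_)
      rw [Finset.mem_filter] at hs ⊢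
      obtain ⟨h5, k, h6, h7, h8⟩ := hs
      obtain ⟨u, h9, h10, -⟩ := VL.cut_fc h3 h6 h7 h8
      exact ⟨h5, u, h9.trans hre.le, hq.le.trans h10⟩
    have h5 : G b (r - d) ≤ G (q + d) (r - d) := hGa _ (by linarith)
    linarith
  exact D.main K10.aN_pos slow_a (by norm_num) hc hC hb hfact hpos hzero lam hlam

/-! ### from the comparison to the limit -/

/-- upper limit in the mean -/
noncomputable def Da (a t : ℝ) : ℝ := sInf {c : ℝ | 0 ≤ c ∧ ∀ x1 x2 : ℝ, 0 < x1 → x1 < x2 → ∀ ε : ℝ, 0 < ε → ∀ᶠ N : ℕ in atTop,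
  ∑ n ∈ Rg x1 x2 N, max 0 (Dn n a t - c) ≤ ε * N}

lemma Da_bdd (a t : ℝ) : BddBelow {c : ℝ | 0 ≤ c ∧ ∀ x1 x2 : ℝ, 0 < x1 → x1 < x2 → ∀ ε : ℝ, 0 < ε → ∀ᶠ N : ℕ in atTop,
    ∑ n ∈ Rg x1 x2 N, max 0 (Dn n a t - c) ≤ ε * N} := ⟨0, fun _ hc => hc.1⟩

lemma Da_one (a t : ℝ) : (1 : ℝ) ∈ {c : ℝ | 0 ≤ c ∧ ∀ x1 x2 : ℝ, 0 < x1 → x1 < x2 → ∀ ε : ℝ, 0 < ε → ∀ᶠ N : ℕ in atTop,
    ∑ n ∈ Rg x1 x2 N, max 0 (Dn n a t - c) ≤ ε * N} := by
  refine ⟨zero_le_one, fun x1 x2 _ _ ε hε => Eventually.of_forall fun N => ?_⟩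
  rw [Finset.sum_eq_zero fun n _ => max_eq_left (by linarith [Dn_le_one n a t])]
  positivity

/-- the number of terms -/
lemma card_Rg {x1 x2 : ℝ} (hx : 0 < x2) (N : ℕ) : ((Rg x1 x2 N).card : ℝ) ≤ x2 * N + 1 := by
  have h1 : (Rg x1 x2 N).card ≤ ⌊x2 * N⌋₊ + 1 := (Finset.card_filter_le _ _).trans (by rw [Finset.card_range])
  have h2 : ((Rg x1 x2 N).card : ℝ) ≤ ⌊x2 * N⌋₊ + 1 := by exact_mod_cast h1
  have := Nat.floor_le (show 0 ≤ x2 * (N : ℝ) by positivity)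
  linarith

lemma Rg_sub {x1 x2 y1 y2 : ℝ} (h1 : y1 ≤ x1) (h2 : x2 ≤ y2) (N : ℕ) : Rg x1 x2 N ⊆ Rg y1 y2 N := by
  intro n hn
  rw [Rg, Finset.mem_filter, Finset.mem_range] at hn ⊢
  have hN : (0 : ℝ) ≤ N := Nat.cast_nonneg N
  refine ⟨lt_of_lt_of_le hn.1 ?_, (mul_le_mul_of_nonneg_right h1 hN).trans hn.2⟩
  exact Nat.succ_le_succ (Nat.floor_le_floor (mul_le_mul_of_nonneg_right h2 hN))

theorem vLimA_of (h : VComA) : VLimA := by
  intro hQ
  have hc := h hQ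
  refine ⟨Da, fun t a a' haa => csInf_le_csInf (Da_bdd a' t) ⟨1, Da_one a t⟩ fun c hc' => ⟨hc'.1, fun x1 x2 h1 h2 ε hε =>
      (hc'.2 x1 x2 h1 h2 ε hε).mono fun N hN => le_trans (Finset.sum_le_sum fun n _ => max_le_max le_rfl (by
        have := Dn_anti n t haa
        simp only at this
        linarith)) hN⟩,
    fun a t t' htt => csInf_le_csInf (Da_bdd a t) ⟨1, Da_one a t'⟩ fun c hc' => ⟨hc'.1, fun x1 x2 h1 h2 ε hε =>
      (hc'.2 x1 x2 h1 h2 ε hε).mono fun N hN => le_trans (Finset.sum_le_sum fun n _ => max_le_max le_rfl (by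
        have := Dn_mono n a htt
        linarith)) hN⟩,
    fun a t => ⟨le_csInf ⟨1, Da_one a t⟩ fun c hc' => hc'.1, csInf_le (Da_bdd a t) (Da_one a t)⟩, ?_⟩
  intro a t δ ha ht ht1 hδ x1 x2 hx1 hx2
  -- the upper half
  have hup : ∀ᶠ N : ℕ in atTop, ∑ n ∈ Rg x1 x2 N, max 0 (Dn n a t - Da a t - δ) ≤ δ / 2 * N := by
    obtain ⟨c, hc1, hc2⟩ := exists_lt_of_csInf_lt ⟨1, Da_one a t⟩ (show Da a t < Da a t + δ by linarith)
    filter_upwards [hc1.2 x1 x2 hx1 hx2 (δ / 2) (by positivity)] with N hN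
    exact le_trans (Finset.sum_le_sum fun n _ => max_le_max le_rfl (by linarith)) hN
  -- the lower half
  have hlow : ∀ᶠ N : ℕ in atTop, ∑ n ∈ Rg x1 x2 N, max 0 (Da (a + δ) (t - δ) - δ - Dn n a t) ≤ δ / 2 * N := by
    set A := Da (a + δ) (t - δ) with hA
    by_cases hAδ : A ≤ δ
    · refine Eventually.of_forall fun N => ?_
      rw [Finset.sum_eq_zero fun n _ => max_eq_left (by linarith [Dn_nonneg n a t])]
      positivity
    push Not at hAδ
    have hcA : A - δ / 4 ∉ {c : ℝ | 0 ≤ c ∧ ∀ x1 x2 : ℝ, 0 < x1 → x1 < x2 → ∀ ε : ℝ, 0 < ε → ∀ᶠ N : ℕ in atTop,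
        ∑ n ∈ Rg x1 x2 N, max 0 (Dn n (a + δ) (t - δ) - c) ≤ ε * N} := by
      intro hmem
      have := csInf_le (Da_bdd (a + δ) (t - δ)) hmem
      have h2 : A ≤ A - δ / 4 := this
      linarith
    have h3 := (not_and.1 hcA) (by linarith)
    push Not at h3
    obtain ⟨y1, y2, hy1, hy2, κ, hκ, hfr⟩ := h3
    -- the common range
    set z1 := min x1 y1 with hz1
    set z2 := max x2 y2 with hz2
    have hz1p : 0 < z1 := lt_min hx1 hy1
    have hz12 : z1 < z2 := lt_of_le_of_lt (min_le_left _ _) (lt_of_lt_of_le hx2 (le_max_left _ _))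
    obtain ⟨δ0, hδ0, d1, d2, d3⟩ : ∃ δ0 : ℝ, 0 < δ0 ∧ δ0 ≤ δ ∧ δ0 ≤ δ / 4 ∧ 4 * δ0 ≤ κ * δ :=
      ⟨min (δ / 4) (κ * δ / 4), by positivity, (min_le_left _ _).trans (by linarith), min_le_left _ _, by
        linarith [min_le_right (δ / 4) (κ * δ / 4)]⟩
    obtain ⟨N0, hN0⟩ := hc a t δ0 ha ht ht1 hδ0 z1 z2 hz1p hz12
    -- one N with many large values
    obtain ⟨N, hN1, hN2⟩ := (hfr.and_eventually (eventually_ge_atTop (max N0 1))).exists
    have hNN0 : N0 ≤ N := (le_max_left _ _).trans hN2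
    have hNpos : (0 : ℝ) < N := by
      have : 1 ≤ N := (le_max_right _ _).trans hN2
      exact_mod_cast this
    filter_upwards [eventually_ge_atTop N0] with N' hN'
    have hmain := hN0 N N' hNN0 hN'
    set S := ∑ n' ∈ Rg x1 x2 N', max 0 (A - δ - Dn n' a t) with hS
    have hS0 : 0 ≤ S := Finset.sum_nonneg fun n _ => le_max_left _ _
    -- each large n gives the whole sum
    have hrow : ∀ n, max 0 (Dn n (a + δ) (t - δ) - (A - δ / 4)) * S ≤
        ∑ n' ∈ Rg z1 z2 N', max 0 (Dn n (a + δ0) (t - δ0) - Dn n' a t - δ0) := by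
      intro n
      have hu1 : Dn n (a + δ) (t - δ) ≤ 1 := Dn_le_one _ _ _
      have hu2 : Dn n (a + δ) (t - δ) ≤ Dn n (a + δ0) (t - δ0) :=
        (Dn_anti n (t - δ) (show a + δ0 ≤ a + δ by linarith)).trans (Dn_mono n (a + δ0) (show t - δ ≤ t - δ0 by linarith))
      rcases le_or_gt (Dn n (a + δ) (t - δ)) (A - δ / 4) with hle | hlt
      · rw [max_eq_left (by linarith), zero_mul]
        exact Finset.sum_nonneg fun n' _ => le_max_left _ _
      · have h5 : max 0 (Dn n (a + δ) (t - δ) - (A - δ / 4)) ≤ 1 := max_le zero_le_one (by linarith)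
        calc max 0 (Dn n (a + δ) (t - δ) - (A - δ / 4)) * S ≤ 1 * S := mul_le_mul_of_nonneg_right h5 hS0
          _ = ∑ n' ∈ Rg x1 x2 N', max 0 (A - δ - Dn n' a t) := one_mul _
          _ ≤ ∑ n' ∈ Rg x1 x2 N', max 0 (Dn n (a + δ0) (t - δ0) - Dn n' a t - δ0) :=
              Finset.sum_le_sum fun n' _ => max_le_max le_rfl (by linarith)
          _ ≤ ∑ n' ∈ Rg z1 z2 N', max 0 (Dn n (a + δ0) (t - δ0) - Dn n' a t - δ0) :=
              Finset.sum_le_sum_of_subset_of_nonneg (Rg_sub (min_le_left _ _) (le_max_left _ _) N')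
                fun n' _ _ => le_max_left _ _
    have h6 : κ * N * S ≤ δ0 * (N * N') := by
      calc κ * N * S ≤ (∑ n ∈ Rg y1 y2 N, max 0 (Dn n (a + δ) (t - δ) - (A - δ / 4))) * S :=
            mul_le_mul_of_nonneg_right hN1.le hS0
        _ = ∑ n ∈ Rg y1 y2 N, max 0 (Dn n (a + δ) (t - δ) - (A - δ / 4)) * S := Finset.sum_mul _ _ _
        _ ≤ ∑ n ∈ Rg y1 y2 N, ∑ n' ∈ Rg z1 z2 N', max 0 (Dn n (a + δ0) (t - δ0) - Dn n' a t - δ0) :=
            Finset.sum_le_sum fun n _ => hrow n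
        _ ≤ ∑ n ∈ Rg z1 z2 N, ∑ n' ∈ Rg z1 z2 N', max 0 (Dn n (a + δ0) (t - δ0) - Dn n' a t - δ0) :=
            Finset.sum_le_sum_of_subset_of_nonneg (Rg_sub (min_le_right _ _) (le_max_right _ _) N)
              fun n _ _ => Finset.sum_nonneg fun n' _ => le_max_left _ _
        _ ≤ δ0 * (N * N') := hmain
    have h7 : κ * S ≤ δ0 * N' := by
      have : N * (κ * S) ≤ N * (δ0 * N') := by linarith
      exact le_of_mul_le_mul_left this hNpos
    have hN'0 : (0 : ℝ) ≤ N' := Nat.cast_nonneg _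
    have h8 : κ * S ≤ κ * (δ / 2 * N') := by nlinarith
    exact le_of_mul_le_mul_left h8 hκ
  filter_upwards [hup, hlow] with N k1 k2
  rw [Finset.sum_add_distrib]
  linarith

end E

end Pool.Agent.CRT.V
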