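import Pool.Agent.CRT.VDefs

/-!
# CRT, row A1 (helper86): `vprod : VProd`, the exact factorisation at the first cut

`u` = the part before the cut edge, `v` = the part from the cut edge on.
-/

set_option autoImplicit false

open Set Filter Topology MeasureTheory
open scoped ENNReal

namespace Pool.Agent.CRT.V

open Pool.Agent.NTS.Res

namespace VP

lemma pos_ite {n : ℕ} (s : Fin n → Fin 3) (t : ℕ) :
    pos s t = ∑ i : Fin n, if (i : ℕ) < t then step (i : ℕ) (s i) else 0 := by
  unfold pos
  rw [Finset.sum_filter]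

lemma step_add {k : ℕ} (hk : Even k) (i : ℕ) (a : Fin 3) : step (k + i) a = step i a := by
  unfold step
  rw [pow_add, hk.neg_one_pow, one_mul]

lemma pos_left {k m : ℕ} (u : Fin k → Fin 3) (v : Fin m → Fin 3) {t : ℕ} (ht : t ≤ k) :
    pos (Fin.append u v) t = pos u t := by
  rw [pos_ite, pos_ite, Fin.sum_univ_add]
  have h2 : (∑ i : Fin m, if ((Fin.natAdd k i : Fin (k + m)) : ℕ) < t then
      step ((Fin.natAdd k i : Fin (k + m)) : ℕ) (Fin.append u v (Fin.natAdd k i)) else 0) = 0 := by
    refine Finset.sum_eq_zero fun i _ => if_neg ?_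
    rw [Fin.val_natAdd]
    omega
  rw [h2, add_zero]
  refine Finset.sum_congr rfl fun i _ => ?_
  rw [Fin.append_left, Fin.val_castAdd]

lemma pos_right {k m : ℕ} (hk : Even k) (u : Fin k → Fin 3) (v : Fin m → Fin 3) (t : ℕ) :
    pos (Fin.append u v) (k + t) = pos u k + pos v t := by
  rw [pos_ite, pos_ite u, pos_ite v, Fin.sum_univ_add]
  congr 1
  · refine Finset.sum_congr rfl fun i _ => ?_
    rw [Fin.append_left, Fin.val_castAdd, if_pos (by omega), if_pos i.2]
  · refine Finset.sum_congr rfl fun i _ => ?_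
    rw [Fin.append_right, Fin.val_natAdd, step_add hk]
    congr 1
    rw [eq_iff_iff]
    omega

lemma pos_zero {n : ℕ} (s : Fin n → Fin 3) : pos s 0 = 0 := by
  rw [pos_ite]
  exact Finset.sum_eq_zero fun i _ => if_neg (Nat.not_lt_zero _)

/-- the part before the cut -/
def PA (a : ℝ) (k : ℕ) (u : Fin k → Fin 3) : Prop :=
  Even k ∧ (∀ i : ℕ, i ≤ k → (pos u i).re ≤ (pos u k).re) ∧ a ≤ (pos u k).re ∧
    ∀ i : ℕ, i < k → Cut u i → (pos u i).re < a

/-- the part behind the cut -/
def PB (m : ℕ) (v : Fin m → Fin 3) : Prop := 0 < m ∧ pos v 1 = 1 ∧ ∀ j : ℕ, 0 < j → j ≤ m → 1 ≤ (pos v j).re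

/-- the cuts of the part before the cut -/
lemma cut_left {k m : ℕ} {u : Fin k → Fin 3} {v : Fin m → Fin 3} (hc : Cut (Fin.append u v) k) {i : ℕ} (hi : i < k) :
    Cut (Fin.append u v) i ↔ Cut u i := by
  obtain ⟨_, _, _, h4, h5⟩ := hc
  constructor
  · rintro ⟨_, g2, g3, g4, g5⟩
    refine ⟨hi, g2, ?_, fun j hj => ?_, fun j hj hjk => ?_⟩
    · rw [← pos_left u v (by omega : i + 1 ≤ k), ← pos_left u v hi.le]
      exact g3
    · rw [← pos_left u v (by omega : j ≤ k), ← pos_left u v hi.le]
      exact g4 j hj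
    · rw [← pos_left u v (by omega : i + 1 ≤ k), ← pos_left u v hjk]
      exact g5 j hj (by omega)
  · rintro ⟨_, g2, g3, g4, g5⟩
    refine ⟨by omega, g2, ?_, fun j hj => ?_, fun j hj hjn => ?_⟩
    · rw [pos_left u v (by omega : i + 1 ≤ k), pos_left u v hi.le]
      exact g3
    · rw [pos_left u v (by omega : j ≤ k), pos_left u v hi.le]
      exact g4 j hj
    · rcases le_or_gt j k with h | h
      · rw [pos_left u v (by omega : i + 1 ≤ k), pos_left u v h]
        exact g5 j hj h
      · have e1 := h4 (i + 1) (by omega)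
        have e2 := h4 (k) le_rfl
        have e3 := h5 j h hjn
        have e4 : (pos (Fin.append u v) (k + 1)).re = (pos (Fin.append u v) k).re + 1 := by
          have := ‹pos (Fin.append u v) (k + 1) = pos (Fin.append u v) k + 1›
          rw [this]
          simp
        linarith

/-- the first cut -/
lemma fst_iff {a : ℝ} {k m : ℕ} (hk : Even k) {u : Fin k → Fin 3} {v : Fin m → Fin 3} :
    Fst a (Fin.append u v) k ↔ PA a k u ∧ PB m v := by
  have p1 : pos (Fin.append u v) k = pos u k := pos_left u v le_rfl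
  have p2 : ∀ t, pos (Fin.append u v) (k + t) = pos u k + pos v t := pos_right hk u v
  constructor
  · rintro ⟨hc, ha, hf⟩
    obtain ⟨h1, h2, h3, h4, h5⟩ := id hc
    refine ⟨⟨hk, fun i hi => ?_, by rwa [p1] at ha, fun i hi hci => ?_⟩, ⟨by omega, ?_, fun j hj hjm => ?_⟩⟩
    · have := h4 i hi
      rwa [p1, pos_left u v hi] at this
    · have := hf i hi ((cut_left hc hi).2 hci)
      rwa [pos_left u v hi.le] at this
    · rw [p2 1, p1] at h3
      exact add_left_cancel h3
    · have := h5 (k + j) (by omega) (by omega)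
      rw [h3, p1, p2 j, Complex.add_re, Complex.add_re, Complex.one_re] at this
      linarith
  · rintro ⟨⟨_, g2, g3, g4⟩, ⟨f1, f2, f3⟩⟩
    have hc : Cut (Fin.append u v) k := by
      refine ⟨by omega, hk, ?_, fun i hi => ?_, fun j hj hjn => ?_⟩
      · rw [p2 1, p1, f2]
      · rw [p1, pos_left u v hi]
        exact g2 i hi
      · obtain ⟨t, rfl⟩ : ∃ t, j = k + t := ⟨j - k, by omega⟩
        rw [p2 1, p2 t, f2, Complex.add_re, Complex.add_re, Complex.one_re]
        have := f3 t (by omega) (by omega)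
        linarith
    refine ⟨hc, by rwa [p1], fun i hi hci => ?_⟩
    rw [pos_left u v hi.le]
    exact g4 i hi ((cut_left hc hi).1 hci)

/-- self-avoiding with a cut at `k` -/
lemma saw_iff {a : ℝ} {k m : ℕ} (hk : Even k) {u : Fin k → Fin 3} {v : Fin m → Fin 3} (hA : PA a k u) (hB : PB m v) :
    Fin.append u v ∈ saw (k + m) ↔ u ∈ saw k ∧ v ∈ saw m := by
  have p2 : ∀ t, pos (Fin.append u v) (k + t) = pos u k + pos v t := pos_right hk u v
  unfold saw
  simp only [Finset.mem_filter, Finset.mem_univ, true_and]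
  constructor
  · intro h
    refine ⟨fun i j hi hj hij => h i j (by omega) (by omega) ?_, fun i j hi hj hij => ?_⟩
    · rw [pos_left u v hi, pos_left u v hj, hij]
    · have := h (k + i) (k + j) (by omega) (by omega) (by rw [p2, p2, hij])
      omega
  · rintro ⟨hu, hv⟩
    have key : ∀ i t : ℕ, i ≤ k → 0 < t → t ≤ m → pos (Fin.append u v) i ≠ pos (Fin.append u v) (k + t) := by
      intro i t hi ht htm he
      rw [pos_left u v hi, p2] at he
      have h1 := hA.2.1 i hi
      have h2 := hB.2.2 t ht htm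
      rw [he, Complex.add_re] at h1
      linarith
    intro i j hi hj hij
    rcases le_or_gt i k with h1 | h1 <;> rcases le_or_gt j k with h2 | h2
    · rw [pos_left u v h1, pos_left u v h2] at hij
      exact hu i j h1 h2 hij
    · exfalso
      obtain ⟨t, rfl⟩ : ∃ t, j = k + t := ⟨j - k, by omega⟩
      exact key i t h1 (by omega) (by omega) hij
    · exfalso
      obtain ⟨t, rfl⟩ : ∃ t, i = k + t := ⟨i - k, by omega⟩
      exact key j t h2 (by omega) (by omega) hij.symm
    · obtain ⟨t, rfl⟩ : ∃ t, i = k + t := ⟨i - k, by omega⟩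
      obtain ⟨t', rfl⟩ : ∃ t', j = k + t' := ⟨j - k, by omega⟩
      rw [p2, p2] at hij
      have := hv t t' (by omega) (by omega) (add_left_cancel hij)
      omega

open Classical in
lemma card_fst {a : ℝ} {k m : ℕ} (hk : Even k) :
    ((saw (k + m)).filter fun s => Fst a s k).card =
      ((saw k).filter fun u => PA a k u).card * ((saw m).filter fun v => PB m v).card := by
  rw [← Finset.card_product]
  symm
  refine Finset.card_bij (fun p _ => Fin.append p.1 p.2) ?_ ?_ ?_
  · rintro ⟨u, v⟩ h
    rw [Finset.mem_product, Finset.mem_filter, Finset.mem_filter] at h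
    obtain ⟨⟨h1, h2⟩, h3, h4⟩ := h
    rw [Finset.mem_filter]
    exact ⟨(saw_iff hk h2 h4).2 ⟨h1, h3⟩, (fst_iff hk).2 ⟨h2, h4⟩⟩
  · rintro ⟨u, v⟩ _ ⟨u', v'⟩ _ he
    have h1 : u = u' := by
      funext i
      have := congrFun he (Fin.castAdd m i)
      simpa only [Fin.append_left] using this
    have h2 : v = v' := by
      funext i
      have := congrFun he (Fin.natAdd k i)
      simpa only [Fin.append_right] using this
    rw [h1, h2]
  · intro s hs
    rw [Finset.mem_filter] at hs
    have e : Fin.append (fun i => s (Fin.castAdd m i)) (fun i => s (Fin.natAdd k i)) = s := by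
      funext i
      refine Fin.addCases (fun i => ?_) (fun i => ?_) i
      · rw [Fin.append_left]
      · rw [Fin.append_right]
    have h2 := hs.2
    have h1 := hs.1
    rw [← e] at h1 h2
    obtain ⟨hA, hB⟩ := (fst_iff hk).1 h2
    obtain ⟨h3, h4⟩ := (saw_iff hk hA hB).1 h1
    exact ⟨(fun i => s (Fin.castAdd m i), fun i => s (Fin.natAdd k i)), Finset.mem_product.2
      ⟨Finset.mem_filter.2 ⟨h3, hA⟩, Finset.mem_filter.2 ⟨h4, hB⟩⟩, e⟩

end VP

open Classical in
/-- **row A1** -/
theorem vprod : VProd := by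
  refine ⟨fun m => (((saw m).filter fun v => VP.PB m v).card : ℝ) * fug ^ m, fun a =>
    ⟨fun k => if Even k then (((saw k).filter fun u => VP.PA a k u).card : ℝ) * fug ^ k else 0, fun n k hkn => ?_⟩⟩
  obtain ⟨m, rfl⟩ : ∃ m, n = k + m := ⟨n - k, by omega⟩
  rw [Nat.add_sub_cancel_left]
  unfold wF
  by_cases hk : Even k
  · simp only [if_pos hk]
    rw [VP.card_fst hk, Nat.cast_mul, pow_add]
    ring
  · simp only [if_neg hk, zero_mul]
    have e : ((saw (k + m)).filter fun s => Fst a s k) = ∅ := by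
      refine Finset.filter_eq_empty_iff.2 fun s _ h => hk h.1.2.1
    rw [e, Finset.card_empty, Nat.cast_zero, zero_mul]

end Pool.Agent.CRT.V
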