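import Pool.Agent.CRT.All
import Pool.Agent.CRT.VEndH
import Pool.Agent.CRT.VComA
import Pool.Agent.CRT.VPfN
import Pool.Agent.CRT.VProd
import Pool.Agent.CRT.VSl
import Pool.Agent.CRT.PosC

/-!
# CRT, row 11A: the numbers of walks vary regularly under Q1 (assembly, helper66)

**`rva_of (hB : VBadA) : Q1 → RVa`**, and the equivalence of Q1 with the convergence of the critical ratios.
-/

set_option autoImplicit false

open Set Filter Topology MeasureTheory

namespace Pool.Agent.CRT.V

theorem vComA (hB : VBadA) : VComA := by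
  intro hQ a t δ ha _ ht1 hδ x1 x2 hx1 hx12
  obtain ⟨N0, hN0⟩ := vComA_of hQ vPerfA hB vSl a t δ ha ht1 hδ x1 x2 hx1 hx12
  refine ⟨N0, fun N N' h1 h2 => ?_⟩
  have h := hN0 N N' h1 h2
  rw [mul_assoc] at h
  exact h

/-- **Q1 makes the numbers of walks regularly varying** -/
theorem rva_of (hB : VBadA) : Q1 → RVa := E.vend3 vprod (E.vLimA_of (vComA hB)) vPos regSz

/-- **Q1 is equivalent to the convergence of the critical ratios** -/
theorem ratC_iff_of (hB : VBadA) : RatC ↔ Q1 := crt_q (rva_of hB)

end Pool.Agent.CRT.V
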