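import Pool.Agent.CRT.Marg

/-!
# CRT, K8a (helper45), step 2: two limits of the critical walks in balls differ by the unit of time
-/

set_option autoImplicit false

open Set Filter Topology MeasureTheory
open scoped ENNReal

namespace Pool.Agent.CRT

open Pool.Agent.NTS.Res
open Pool.Agent.NPR

/-- change of the unit of time -/
def tmul (c : ℝ) (x : CI × ℝ) : CI × ℝ := (x.1, c * x.2)

lemma tmul_cont (c : ℝ) : Continuous (tmul c) := by
  unfold tmul
  fun_prop

lemma conv_pos {κ : ℕ → ℝ} {g : ℕ → ℝ} (h : ∀ j, 0 < κ j * g j) {a b : ℝ} (ha : Tendsto (fun j => κ j * g j) atTop (𝓝 a))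
    (hb : Tendsto (fun j => (κ j * g j)⁻¹) atTop (𝓝 b)) : 0 < a := by
  have h1 := ha.mul hb
  have h2 : (fun j => κ j * g j * (κ j * g j)⁻¹) = fun _ => (1 : ℝ) := by
    funext j
    exact mul_inv_cancel₀ (h j).ne'
  rw [h2] at h1
  have h3 : a * b = 1 := (tendsto_nhds_unique h1 tendsto_const_nhds)
  have h4 : 0 ≤ a := ge_of_tendsto' ha fun j => (h j).le
  rcases h4.lt_or_eq with h5 | h5
  · exact h5
  · rw [← h5, zero_mul] at h3
    exact absurd h3 zero_ne_one

/-- **two limits differ by the unit of time** -/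
theorem scale (hP : ClPr) (hC : ChiCl) (hG : ClGood) (hT : ClTime) (hK : ClClk) (hR : RatC) {r r' : ℕ → ℝ}
    {M M' : Measure (CI × ℝ)} (hr : Tendsto r atTop atTop) (hr' : Tendsto r' atTop atTop) (hM : IsProbabilityMeasure M)
    (hM' : IsProbabilityMeasure M') (h : ClTo r M) (h' : ClTo r' M') : ∃ c : ℝ, 0 < c ∧ M' = M.map (tmul c) := by
  have hN := marg hP hC hG hR hr hr' hM hM' h h'
  obtain ⟨ρ, hρ, -, hk⟩ := hK
  obtain ⟨κ, hκ, a⟩ := hk r M hr hM h
  obtain ⟨κ', hκ', a'⟩ := hk r' M' hr' hM' h'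
  obtain ⟨⟨c1, C1, t1, -, -, -, hT1⟩, -⟩ := hT
  have pos := (hT1 r M hr hM h).1
  have pos' := (hT1 r' M' hr' hM' h').1
  obtain ⟨g, hg⟩ : ∃ g : ℕ → CI → ℝ, g = fun j γ => vb (ρ j) γ 1 := ⟨_, rfl⟩
  have hgc : ∀ j, Continuous (g j) := fun j => by
    rw [hg]
    exact vb_cont (hρ j) 1
  have hgp : ∀ j γ, 0 < g j γ := fun j γ => by
    rw [hg]
    exact vb_pos (hρ j) γ 1
  have a1 : ∀ᵐ x ∂M, Tendsto (fun j => κ j * g j x.1) atTop (𝓝 x.2) := by
    rw [hg]
    exact a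
  have a1' : ∀ᵐ x ∂M', Tendsto (fun j => κ' j * g j x.1) atTop (𝓝 x.2) := by
    rw [hg]
    exact a'
  -- measurable sets of convergence
  have mE : ∀ k : ℕ → ℝ, MeasurableSet {γ : CI | ∃ c, Tendsto (fun j => k j * g j γ) atTop (𝓝 c)} := fun k =>
    measurableSet_exists_tendsto fun j => ((hgc j).measurable.const_mul (k j))
  have mI : ∀ k : ℕ → ℝ, MeasurableSet {γ : CI | ∃ c, Tendsto (fun j => (k j * g j γ)⁻¹) atTop (𝓝 c)} := fun k =>
    measurableSet_exists_tendsto fun j => ((hgc j).measurable.const_mul (k j)).inv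
  have e1 : ∀ᵐ γ ∂(M.map Prod.fst), (∃ c, Tendsto (fun j => κ j * g j γ) atTop (𝓝 c)) ∧
      ∃ c, Tendsto (fun j => (κ j * g j γ)⁻¹) atTop (𝓝 c) := by
    refine (ae_map_iff measurable_fst.aemeasurable ((mE κ).inter (mI κ))).2 ?_
    filter_upwards [a1, pos] with x h1 h2
    exact ⟨⟨x.2, h1⟩, ⟨x.2⁻¹, h1.inv₀ h2.ne'⟩⟩
  have e2 : ∀ᵐ γ ∂(M.map Prod.fst), (∃ c, Tendsto (fun j => κ' j * g j γ) atTop (𝓝 c)) ∧
      ∃ c, Tendsto (fun j => (κ' j * g j γ)⁻¹) atTop (𝓝 c) := by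
    rw [hN]
    refine (ae_map_iff measurable_fst.aemeasurable ((mE κ').inter (mI κ'))).2 ?_
    filter_upwards [a1', pos'] with x h1 h2
    exact ⟨⟨x.2, h1⟩, ⟨x.2⁻¹, h1.inv₀ h2.ne'⟩⟩
  have p1 : IsProbabilityMeasure (M.map Prod.fst) := Measure.isProbabilityMeasure_map measurable_fst.aemeasurable
  obtain ⟨γ, ⟨⟨τ, hτ⟩, ⟨_, hτi⟩⟩, ⟨⟨τ', hτ'⟩, ⟨_, hτi'⟩⟩⟩ := (e1.and e2).exists
  have hτ0 : 0 < τ := conv_pos (fun j => mul_pos (hκ j) (hgp j γ)) hτ hτi
  have hτ0' : 0 < τ' := conv_pos (fun j => mul_pos (hκ' j) (hgp j γ)) hτ' hτi'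
  have hc : Tendsto (fun j => κ' j / κ j) atTop (𝓝 (τ' / τ)) := by
    refine (hτ'.div hτ hτ0.ne').congr fun j => ?_
    show κ' j * g j γ / (κ j * g j γ) = κ' j / κ j
    exact mul_div_mul_right _ _ (hgp j γ).ne'
  obtain ⟨c, hcd⟩ : ∃ c, c = τ' / τ := ⟨_, rfl⟩
  have hc0 : 0 < c := by
    rw [hcd]
    exact div_pos hτ0' hτ0
  rw [← hcd] at hc
  refine ⟨c, hc0, ?_⟩
  have pm : IsProbabilityMeasure (M.map (tmul c)) := Measure.isProbabilityMeasure_map (tmul_cont c).measurable.aemeasurable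
  refine ext_of_forall_integral_eq_of_IsFiniteMeasure fun f => ?_
  rw [integral_map (tmul_cont c).measurable.aemeasurable f.continuous.aestronglyMeasurable]
  have cf : ∀ j, Continuous fun x : CI × ℝ => f (x.1, κ' j * g j x.1) := fun j =>
    f.continuous.comp (continuous_fst.prodMk (((hgc j).comp continuous_fst).const_mul _))
  have l1 : Tendsto (fun j => ∫ x, f (x.1, κ' j * g j x.1) ∂M') atTop (𝓝 (∫ x, f x ∂M')) := by
    refine tendsto_integral_of_dominated_convergence (fun _ => ‖f‖) (fun j => (cf j).aestronglyMeasurable)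
      (integrable_const _) (fun j => Eventually.of_forall fun x => f.norm_coe_le_norm _) ?_
    filter_upwards [a1'] with x hx
    have := (f.continuous.tendsto (x.1, x.2)).comp ((tendsto_const_nhds (x := x.1)).prodMk_nhds hx)
    exact this
  have l2 : Tendsto (fun j => ∫ x, f (x.1, κ' j * g j x.1) ∂M) atTop (𝓝 (∫ x, f (tmul c x) ∂M)) := by
    refine tendsto_integral_of_dominated_convergence (fun _ => ‖f‖) (fun j => (cf j).aestronglyMeasurable)
      (integrable_const _) (fun j => Eventually.of_forall fun x => f.norm_coe_le_norm _) ?_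
    filter_upwards [a1] with x hx
    have h3 : Tendsto (fun j => κ' j * g j x.1) atTop (𝓝 (c * x.2)) := by
      refine (hc.mul hx).congr fun j => ?_
      show κ' j / κ j * (κ j * g j x.1) = κ' j * g j x.1
      rw [← mul_assoc, div_mul_cancel₀ _ (hκ j).ne']
    have := (f.continuous.tendsto (x.1, c * x.2)).comp ((tendsto_const_nhds (x := x.1)).prodMk_nhds h3)
    exact this
  have l3 : ∀ j, ∫ x, f (x.1, κ' j * g j x.1) ∂M' = ∫ x, f (x.1, κ' j * g j x.1) ∂M := fun j => by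
    have hj : Continuous fun γ : CI => f (γ, κ' j * g j γ) := f.continuous.comp (continuous_id.prodMk ((hgc j).const_mul _))
    have i1 := integral_map (μ := M) measurable_fst.aemeasurable (f := fun γ : CI => f (γ, κ' j * g j γ)) hj.aestronglyMeasurable
    have i2 := integral_map (μ := M') measurable_fst.aemeasurable (f := fun γ : CI => f (γ, κ' j * g j γ)) hj.aestronglyMeasurable
    rw [← i1, ← i2, hN]
  refine tendsto_nhds_unique l1 (l2.congr fun j => (l3 j).symm)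

end Pool.Agent.CRT
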