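import Pool.Agent.NPR.ExN
import Pool.Agent.NPR.RevN
import Pool.Agent.NPR.ExtT
import Pool.Agent.NPR.ClkOf
import Pool.Agent.CRT.Defs

/-!
# CRT, row K3 (helper69): one clock constant for all the numbers of steps in a range

* `HexObs.NPR.one_ka`, `one_full` : one constant for all numbers of letters of comparable scales;
* **`tk_of'`** : `TK` from `MainW`.
-/

set_option autoImplicit false

namespace HexObs

namespace NPR

open Finset TS SDN TIW NTA TIP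

open scoped ENNReal

/-- **one constant for all numbers of letters of comparable scales** -/
theorem one_ka (hW : MainW) {ε : ℝ} (hε : 0 < ε) (s : ℕ) : ∃ d k0 : ℕ, ∀ (r : ℕ) (V : List Bool → ℝ), 2 ≤ r → AF r V →
    ∀ k : ℕ, k0 ≤ k → r * 2 ^ d ≤ 2 ^ k → ∃ ka : ℝ, 0 < ka ∧ ∀ j n : ℕ, j ≤ s → TIP.Sc (k + j) n →
      TOG.Pn n {t | ¬ ∀ x y : ℕ, x ≤ y → 4 * y ≤ 3 * n → |ka * V (wd t x y) - ((y : ℝ) - x)| ≤ ε * n} ≤ ε := by
  obtain ⟨q, k0, e0, he0, htr⟩ := pre_of hε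
  obtain ⟨C4, hC4, hup⟩ := exists_mz_up
  obtain ⟨B, hB, hFK⟩ := FK_upE
  have hC40 : 0 < C4 := by linarith
  have hB0 : 0 < B := by linarith
  obtain ⟨e1, he1⟩ : ∃ e1 : ℝ, e1 = min (e0 / B ^ s) (ε / (C4 * 4 ^ (s + q))) := ⟨_, rfl⟩
  have he10 : 0 < e1 := by rw [he1]; exact lt_min (by positivity) (by positivity)
  have he11 : e1 ≤ e0 / B ^ s := by rw [he1]; exact min_le_left _ _
  have he12 : e1 ≤ ε / (C4 * 4 ^ (s + q)) := by rw [he1]; exact min_le_right _ _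
  obtain ⟨d, hW⟩ := hW e1 he10
  refine ⟨d, k0, fun r V hr hV k hk hrk => ?_⟩
  obtain ⟨ka, hka, hM⟩ := hW r V (by omega) hV (k + s + q) (hrk.trans (Nat.pow_le_pow_right (by norm_num) (by omega)))
  refine ⟨ka, hka, fun j n hj hsc => ?_⟩
  obtain ⟨P, hP⟩ : ∃ P : Set (List Bool), P = {t | ¬ ∀ x y : ℕ, x ≤ y → y ≤ t.length →
    |ka * V (wd t x y) - ((y : ℝ) - x)| ≤ e1 * PW.mZ (2 ^ (k + s + q))} := ⟨_, rfl⟩
  have hpre : ∀ A E : List Bool, A ∈ P → A ++ E ∈ P := by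
    intro A E hA
    rw [hP] at hA ⊢
    intro hcon
    refine hA fun x y hxy hy => ?_
    have h1 := hcon x y hxy (by rw [List.length_append]; omega)
    have h2 : wd (A ++ E) x y = wd A x y := by
      unfold wd
      rw [List.take_append_of_le_length hy]
    rwa [h2] at h1
  have h1 : gf {t | t ∈ WL (k + j + q) ∧ t.length ≤ ML (k + j + q + 2) ∧ t ∈ P} ≤
      ENNReal.ofReal e0 * FK (k + j + q) := by
    have h2 : gf {t | t ∈ WL (k + j + q) ∧ t.length ≤ ML (k + j + q + 2) ∧ t ∈ P} ≤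
        ENNReal.ofReal e1 * FK (k + s + q) := by
      refine (gf_mono fun t ht => ?_).trans hM
      have h3 := ht.2.2
      rw [hP] at h3
      exact ⟨⟨ht.1.1, fun i hi dir => (ht.1.2 i hi dir).trans (pow_le_pow_right₀ (by norm_num) (by omega))⟩,
        ht.2.1.trans (ML_mono (by omega)), h3⟩
    refine h2.trans ?_
    have h3 := hFK (k + j + q) (s - j)
    rw [show k + j + q + (s - j) = k + s + q by omega] at h3
    calc ENNReal.ofReal e1 * FK (k + s + q) ≤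
          ENNReal.ofReal (e0 / B ^ s) * (ENNReal.ofReal (B ^ (s - j)) * FK (k + j + q)) :=
          mul_le_mul' (ENNReal.ofReal_le_ofReal he11) h3
      _ = ENNReal.ofReal (e0 / B ^ s * B ^ (s - j)) * FK (k + j + q) := by
          rw [ENNReal.ofReal_mul (by positivity), mul_assoc]
      _ ≤ _ := by
          refine mul_le_mul' (ENNReal.ofReal_le_ofReal ?_) le_rfl
          rw [div_mul_eq_mul_div, div_le_iff₀ (by positivity)]
          exact mul_le_mul_of_nonneg_left (pow_le_pow_right₀ hB (by omega)) he0.le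
  have hnum : e1 * PW.mZ (2 ^ (k + s + q)) ≤ ε * n := by
    have h2 := hup k (s + q)
    rw [← add_assoc] at h2
    have h3 : PW.mZ (2 ^ k) ≤ n := (mz_mono (by omega)).trans hsc.1
    calc e1 * PW.mZ (2 ^ (k + s + q)) ≤ ε / (C4 * 4 ^ (s + q)) * (C4 * 4 ^ (s + q) * PW.mZ (2 ^ k)) := by
          have := mz_pos (k + s + q)
          gcongr
      _ = ε * PW.mZ (2 ^ k) := by field_simp
      _ ≤ ε * n := by gcongr
  refine (Pn_mono fun t ht hbad => ?_).trans (htr (k + j) n (by omega) hsc P hpre h1)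
  have hbad : ¬ ∀ x y : ℕ, x ≤ y → 4 * y ≤ 3 * n → |ka * V (wd t x y) - ((y : ℝ) - x)| ≤ ε * n := hbad
  push Not at hbad
  obtain ⟨x, y, hxy, hy, hgt⟩ := hbad
  refine ⟨y, hy, ?_⟩
  rw [hP]
  intro hcon
  have hyl : y ≤ t.length := by rw [ht.1]; omega
  have h2 := hcon x y hxy (by rw [List.length_take]; omega)
  have h3 : wd (t.take y) x y = wd t x y := by
    unfold wd
    rw [List.take_take, min_self]
  rw [h3] at h2
  linarith

open RevX in
/-- **one constant for all numbers of letters of comparable scales, all windows** -/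
theorem one_full (hW : MainW) {ε : ℝ} (hε : 0 < ε) (s : ℕ) : ∃ d k0 : ℕ, ∀ (r : ℕ) (V V' : List Bool → ℝ), 2 ≤ r →
    AF r V → AF r V' → (∀ u, |V u - V' (rev u)| ≤ 1) → ∀ k : ℕ, k0 ≤ k → r * 2 ^ d ≤ 2 ^ k → ∃ ka : ℝ, 0 < ka ∧
      ∀ j n : ℕ, j ≤ s → TIP.Sc (k + j) n →
        TOG.Pn n {t | ¬ ∀ x y : ℕ, x ≤ y → y ≤ t.length → |ka * V (wd t x y) - ((y : ℝ) - x)| ≤ ε * n} ≤ ε := by
  set e : ℝ := min ε 1 / 500 with he
  have hmin : 0 < min ε 1 := lt_min hε one_pos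
  have he0 : 0 < e := by positivity
  have he1 : 300 * e ≤ 1 := by
    have := min_le_right ε 1
    linarith
  have he2 : 500 * e ≤ ε := by
    have := min_le_left ε 1
    linarith
  obtain ⟨d, k0, h⟩ := one_ka hW he0 s
  obtain ⟨n1, hn1⟩ := exists_nat_ge (1 / e)
  refine ⟨d, max k0 (max n1 8), fun r V V' hr hV hV' hVV k hk0 hrd => ?_⟩
  have hk1 : k0 ≤ k := (le_max_left _ _).trans hk0
  obtain ⟨ka, hka, hA⟩ := h r V hr hV k hk1 hrd
  obtain ⟨ka', hka', hA'⟩ := h r V' hr hV' k hk1 hrd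
  refine ⟨ka, hka, fun j n hj hsc => ?_⟩
  have hkn := le_Sc hsc
  have hkn2 : max n1 8 ≤ n := (le_max_right k0 _).trans (hk0.trans (by omega))
  have hn8 : 8 ≤ n := (le_max_right _ _).trans hkn2
  have hen : 1 ≤ e * n := by
    have h1 : (n1 : ℝ) ≤ n := by exact_mod_cast (le_max_left _ _).trans hkn2
    have h2 : 1 / e ≤ n := hn1.trans h1
    rw [div_le_iff₀ he0] at h2
    linarith
  have hB := hA j n hj hsc
  have hB' := hA' j n hj hsc
  set B : Set (List Bool) := {t | ¬ ∀ x y : ℕ, x ≤ y → 4 * y ≤ 3 * n → |ka * V (wd t x y) - ((y : ℝ) - x)| ≤ e * n}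
  set B' : Set (List Bool) := {t | ¬ ∀ x y : ℕ, x ≤ y → 4 * y ≤ 3 * n → |ka' * V' (wd t x y) - ((y : ℝ) - x)| ≤ e * n}
  have hB2 : TOG.Pn n {t | Pool.Agent.IW.rvw t ∈ B'} ≤ e := (Pool.Agent.IW.Pn_rvw (by omega) B').trans_le hB'
  have hU : TOG.Pn n (B ∪ {t | Pool.Agent.IW.rvw t ∈ B'}) ≤ 2 * e := (RevX.pn_union _ _ _).trans (by linarith)
  have hg1 : ∀ t, t ∉ B → ∀ x y : ℕ, x ≤ y → 4 * y ≤ 3 * n → |ka * V (wd t x y) - ((y : ℝ) - x)| ≤ e * n :=
    fun t ht => not_not.1 ht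
  have hg2 : ∀ t ∈ SawN n, Pool.Agent.IW.rvw t ∉ B' → ∀ x y : ℕ, x ≤ y → y ≤ n → n ≤ 4 * x →
      |ka' * V (wd t x y) - ((y : ℝ) - x)| ≤ 10 * (e * n) :=
    fun t ht hb => late hV hV' hVV hka' hn8 hen ht (not_not.1 hb)
  -- a word good for both
  obtain ⟨t0, ht0, hb0⟩ : ∃ t0 ∈ SawN n, t0 ∉ B ∪ {t | Pool.Agent.IW.rvw t ∈ B'} := by
    by_contra hc
    push Not at hc
    have h1 : TOG.Pn n Set.univ ≤ TOG.Pn n (B ∪ {t | Pool.Agent.IW.rvw t ∈ B'}) := pn_mono fun t ht _ => hc t ht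
    have h2 : TOG.Pn n Set.univ = 1 := by
      unfold TOG.Pn
      have h3 : {t | t ∈ SawN n ∧ t ∈ (Set.univ : Set (List Bool))} = SawN n := by
        ext t
        simp
      have h4 : (0 : ℝ) < cS n := Pool.Agent.IW.cS_pos (by omega)
      have h5 : (SawN n).ncard = cS n := rfl
      rw [h3, h5, div_self h4.ne']
    linarith
  have hb1 : t0 ∉ B := fun hc => hb0 (Or.inl hc)
  have hb2 : Pool.Agent.IW.rvw t0 ∉ B' := fun hc => hb0 (Or.inr hc)
  have hsame := same hV hn8 hen he1 (hg1 t0 hb1) (hg2 t0 ht0 hb2)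
  refine (pn_mono fun t ht htb => ?_).trans (hU.trans (by linarith))
  by_contra hc
  have hc1 : t ∉ B := fun h => hc (Or.inl h)
  have hc2 : Pool.Agent.IW.rvw t ∉ B' := fun h => hc (Or.inr h)
  refine htb fun x y hxy hy => ?_
  have h3 := allw hV hka hka' hn8 hen he1 (ka_le hV hka hn8 hen ht (hg1 t hc1) true).1 hsame (hg1 t hc1)
    (hg2 t ht hc2) x y hxy (ht.1 ▸ hy)
  refine h3.trans ?_
  have h4 := mul_le_mul_of_nonneg_right he2 (Nat.cast_nonneg n)
  linarith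

end NPR

end HexObs

open Set Filter Topology MeasureTheory
open scoped ENNReal

namespace Pool.Agent.CRT

open HexObs hiding pos curve
open HexObs.TIW HexObs.TS HexObs.SDN HexObs.NPR
open NTF (JJ JJ_norm JJ_sub JJ_neg JJ_add Hd Hd_iff sw)
open Pool.Agent.NTS.Res
open NTSF (rot om om_norm pos_rot rot_mem curve_eq)
open Pool.Agent.NPR

namespace TKx

/-- the clock of one walk -/
theorem clk_full {n : ℕ} {t : List Bool} (hn : 1 ≤ n) (ht : t.length = n) {ρ e ka : ℝ} (hρ : 0 < ρ)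
    (hR : 2 ≤ ρ * size n) (he : 0 < e) (he1 : e ≤ 1 / 6) (hka : 0 < ka)
    (h1 : |ka * Vm (ρ * size n) t - n| ≤ e * n)
    (h2 : 2 / size n * Vz (ρ * size n) (fun j => pos (sw n t) j) 0 n ≤ e / 2 * ρ) :
    |ka * (vb ρ (curve (sw n t)) 1 / ρ) - n| ≤ 3 * e * n := by
  have hn0 : (0 : ℝ) < n := by exact_mod_cast hn
  obtain ⟨W, hW⟩ : ∃ W : ℝ, W = vb ρ (curve (sw n t)) 1 := ⟨_, rfl⟩
  obtain ⟨a, ha⟩ : ∃ a, a = ka / ρ := ⟨_, rfl⟩
  have ha0 : 0 < a := by
    rw [ha]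
    positivity
  have haρ : a * ρ = ka := by
    rw [ha]
    field_simp
  have htk : t.take n = t := by
    rw [← ht]
    exact List.take_length
  -- ka is at most 2 n
  have hka2 : ka ≤ 2 * n := by
    have h3 := (abs_le.1 h1).2
    have h4 := Vm_one (R := ρ * size n) (by linarith) t
    have h5 : ka * 1 ≤ ka * Vm (ρ * size n) t := mul_le_mul_of_nonneg_left h4 hka.le
    nlinarith
  have key : |a * W - n| ≤ 3 * e * n := by
    rw [abs_le]
    constructor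
    · have h3 := vb_dn (t := t) hn ht hρ hR le_rfl (v := 1) (by
        rw [div_self hn0.ne']
        exact le_rfl)
      rw [htk] at h3
      have h4 : ρ * Vm (ρ * size n) t ≤ W + e / 2 * ρ := by
        rw [hW]
        linarith
      have h5 : a * (ρ * Vm (ρ * size n) t) ≤ a * (W + e / 2 * ρ) := mul_le_mul_of_nonneg_left h4 ha0.le
      have h6 : a * (ρ * Vm (ρ * size n) t) = ka * Vm (ρ * size n) t := by
        rw [← mul_assoc, haρ]
      have h7 : a * (W + e / 2 * ρ) = a * W + e / 2 * ka := by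
        rw [← haρ]
        ring
      rw [h6, h7] at h5
      have h8 := (abs_le.1 h1).1
      have h9 : e / 2 * ka ≤ e / 2 * (2 * n) := mul_le_mul_of_nonneg_left hka2 (by positivity)
      have h10 : 0 < e * n := by positivity
      linarith
    · have h3 := vb_up (t := t) hn ht hρ (by linarith) le_rfl (v := 1) (by
        rw [div_self hn0.ne']
        exact le_rfl)
      rw [htk] at h3
      have h5 : a * W ≤ a * (ρ * Vm (ρ * size n) t) := by
        rw [hW]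
        exact mul_le_mul_of_nonneg_left h3 ha0.le
      rw [← mul_assoc, haρ] at h5
      have h8 := (abs_le.1 h1).2
      have h10 : 0 < e * n := by positivity
      linarith
  have e1 : ka * (W / ρ) = a * W := by
    rw [ha]
    ring
  rw [← hW, e1]
  exact key

/-- the clock, in law -/
theorem law_full {ε e : ℝ} (he0 : 0 < e) (he1 : 3 * e ≤ ε) (he2 : e ≤ 1 / 6) (he3 : e ≤ ε / 2) (hε : 0 < ε) {M : NNReal}
    {n : ℕ} (hn : 1 ≤ n) (hM : law n {γ : C(unitInterval, ℂ) | ¬ HolderWith M (1 / 2) γ} ≤ ENNReal.ofReal (ε / 2))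
    {ρ ρm ka : ℝ} (hρm : 0 < ρm) (hρ : ρm ≤ ρ) (hka : 0 < ka) (hR : 4 ≤ ρ * size n) {N : ℕ}
    (hN : ⌈((M : ℝ) / (ρm / 2)) ^ 2⌉₊ + 1 ≤ N) (hsN : 4 * N ≤ e * ρ * size n)
    (hP : TOG.Pn n {t | ¬ ∀ x y : ℕ, x ≤ y → y ≤ t.length →
      |ka * Vm (ρ * size n) (wd t x y) - ((y : ℝ) - x)| ≤ e * n} ≤ e) :
    law n {γ | ε * n < |ka * (vb ρ γ 1 / ρ) - n|} ≤ ENNReal.ofReal ε := by
  classical
  have hρ0 : 0 < ρ := hρm.trans_le hρ
  have hn0' : (0 : ℝ) < n := by exact_mod_cast hn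
  have hs := NTSF.size_pos hn
  obtain ⟨X, hX⟩ : ∃ X : Set (List Bool), X = {t | ¬ ∀ x y : ℕ, x ≤ y → y ≤ t.length →
    |ka * Vm (ρ * size n) (wd t x y) - ((y : ℝ) - x)| ≤ e * n} := ⟨_, rfl⟩
  rw [← hX] at hP
  have hsub : {γ : C(unitInterval, ℂ) | ε * n < |ka * (vb ρ γ 1 / ρ) - n|} ⊆
      {γ : C(unitInterval, ℂ) | ¬ HolderWith M (1 / 2) γ} ∪
      {γ : C(unitInterval, ℂ) | ε * n < |ka * (vb ρ γ 1 / ρ) - n| ∧ Hd M (1 / 2) γ} := by
    intro γ hγ
    by_cases h : HolderWith M (1 / 2) γ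
    · right
      have h9 := Hd_iff.1 h
      refine ⟨hγ, ?_⟩
      have e9 : (((1 / 2 : NNReal)) : ℝ) = 1 / 2 := by norm_num
      rwa [e9] at h9
    · left
      exact h
  refine (measure_mono hsub).trans ((measure_union_le _ _).trans ?_)
  have hε2 : ENNReal.ofReal ε = ENNReal.ofReal (ε / 2) + ENNReal.ofReal (ε / 2) := by
    rw [← ENNReal.ofReal_add (by positivity) (by positivity)]
    congr 1
    ring
  rw [hε2]
  refine add_le_add hM (NTSF.law_le (by positivity) ?_)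
  obtain ⟨P, hPd⟩ : ∃ P : (Fin n → Fin 3) → Prop, P = fun s => ε * n < |ka * (vb ρ (curve s) 1 / ρ) - n| ∧
    Hd M (1 / 2) (curve s) := ⟨_, rfl⟩
  have hPr : ∀ s, P (rot s) ↔ P s := by
    intro s
    rw [hPd]
    show (ε * n < |ka * (vb ρ (curve (rot s)) 1 / ρ) - n| ∧ _) ↔ _
    rw [vb_iso (dist_rot s) ρ 1]
    exact and_congr Iff.rfl (hd_rot s M (1 / 2))
  have c1 := NTSF.card_saw (n := n) hn P hPr
  have c2 : 2 * (saw n).card = 3 * cS n := by
    have := NTSF.card_saw (n := n) hn (fun _ => True) (fun _ => Iff.rfl)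
    rw [Finset.filter_true_of_mem (fun _ _ => trivial)] at this
    rw [this]
    congr 2
    ext t
    exact ⟨fun h => h.1, fun h => ⟨h, trivial⟩⟩
  have c3 : {t | t ∈ SawN n ∧ P (sw n t)}.ncard ≤ {t | t ∈ SawN n ∧ t ∈ X}.ncard := by
    refine Set.ncard_le_ncard ?_ ((List.finite_length_eq Bool n).subset fun t h => h.1.1)
    rintro t ⟨h4, h5⟩
    refine ⟨h4, ?_⟩
    rw [hX]
    intro h6
    rw [hPd] at h5
    obtain ⟨hv, h7⟩ := h5
    have htl : t.length = n := h4.1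
    refine absurd ?_ (not_le.2 hv)
    refine (clk_full hn htl hρ0 (by linarith) he0 he2 hka ?_ ?_).trans ?_
    · have := h6 0 n (Nat.zero_le _) (by omega)
      rw [Nat.cast_zero, sub_zero] at this
      have e5 : wd t 0 n = t := by
        unfold wd
        rw [← htl, List.take_length, List.drop_zero]
      rwa [e5] at this
    · -- the boundary term
      have h8 := hd_pcs (γ := curve (sw n t)) (M := M) (s := ρm / 2) (NNReal.coe_nonneg M) (by positivity) h7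
      have h8' := pcs_anti (s := ρm / 2) (s' := ρ / 2) (by positivity) (by linarith) (curve (sw n t)) (a := 0) (b := 1)
        (by exact zero_le_one)
      have h9 := Vz_le_pcs hn (sw n t) (v := 1) (σ := ρ / 2) le_rfl (by positivity) (by
        rw [div_self hn0'.ne']
        exact le_rfl)
      have h10 := Vz_anti (x := ρ / 2 * size n + 2) (x' := ρ * size n) (z := fun j => pos (sw n t) j) (a := 0) (b := n)
        (by nlinarith) (by linarith) (Nat.zero_le _) (pos_step1 le_rfl)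
      have h11 : Vz (ρ * size n) (fun j => pos (sw n t) j) 0 n ≤ N :=
        (h10.trans (h9.trans (h8'.trans h8))).trans hN
      have h12 : (Vz (ρ * size n) (fun j => pos (sw n t) j) 0 n : ℝ) ≤ N := by exact_mod_cast h11
      rw [div_mul_eq_mul_div, div_le_iff₀ hs]
      linarith
    · exact mul_le_mul_of_nonneg_right he1 hn0'.le
  have c4 : ({t | t ∈ SawN n ∧ t ∈ X}.ncard : ℝ) ≤ e * cS n := by
    have h4 : (0 : ℝ) < cS n := by
      have h5 : 0 < (saw n).card := (NTSF.saw_nonempty n).card_pos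
      have h6 : 0 < cS n := by omega
      exact_mod_cast h6
    have h5 : ({t | t ∈ SawN n ∧ t ∈ X}.ncard : ℝ) / cS n ≤ e := hP
    rwa [div_le_iff₀ h4] at h5
  have c5 : (((saw n).filter P).card : ℝ) ≤ ε / 2 * ((saw n).card : ℝ) := by
    have d1 : (2 : ℝ) * (((saw n).filter P).card : ℝ) = 3 * ({t | t ∈ SawN n ∧ P (sw n t)}.ncard : ℝ) := by
      exact_mod_cast c1
    have d2 : (2 : ℝ) * ((saw n).card : ℝ) = 3 * (cS n : ℝ) := by exact_mod_cast c2
    have d3 : ({t | t ∈ SawN n ∧ P (sw n t)}.ncard : ℝ) ≤ ({t | t ∈ SawN n ∧ t ∈ X}.ncard : ℝ) := by exact_mod_cast c3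
    have d4 : (0 : ℝ) ≤ cS n := Nat.cast_nonneg _
    have d5 : e * (cS n : ℝ) ≤ ε / 2 * cS n := mul_le_mul_of_nonneg_right he3 d4
    have d6 : ε / 2 * (2 * ((saw n).card : ℝ)) = ε / 2 * (3 * (cS n : ℝ)) := by rw [d2]
    linarith
  refine le_trans (le_of_eq ?_) c5
  rw [hPd]
  congr 2

end TKx

open TKx in
/-- **K3** -/
theorem tk_of' {c C : ℝ} (_hc : 0 < c)
    (hS : ∀ n : ℕ, 1 ≤ n → c * (n : ℝ) ^ (3 / 4 : ℝ) ≤ size n ∧ size n ≤ C * (n : ℝ) ^ (3 / 4 : ℝ))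
    (hhol : ∀ ε : ℝ, 0 < ε → ∃ M : NNReal, ∀ n : ℕ, 1 ≤ n →
      law n {γ : C(unitInterval, ℂ) | ¬ HolderWith M (1 / 2) γ} ≤ ENNReal.ofReal ε)
    (hup : ∃ C : ℝ, ∀ k : ℕ, PW.mZ (2 ^ k) ≤ C * (2 : ℝ) ^ (4 / 3 * (k : ℝ))) (hW : MainW) : TK := by
  intro ε dl Lam hε hdl hdL
  obtain ⟨C', hup⟩ := hup
  have hC : 0 < C := by
    have h1 := (hS 1 le_rfl).2
    have h2 := NTSF.size_pos (n := 1) le_rfl
    rw [Nat.cast_one, Real.one_rpow, mul_one] at h1
    linarith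
  have hC' : 0 < C' := by
    have h1 := hup 0
    rw [Nat.cast_zero, mul_zero, Real.rpow_zero, mul_one] at h1
    exact (PW.mZ_pos (by norm_num)).trans_le h1
  have hLam : 0 < Lam := hdl.trans hdL
  obtain ⟨e, he⟩ : ∃ e, e = min (ε / 12) (1 / 6) := ⟨_, rfl⟩
  have he0 : 0 < e := by
    rw [he]
    exact lt_min (by positivity) (by norm_num)
  have he1 : e ≤ ε / 12 := by
    rw [he]
    exact min_le_left _ _
  have he2 : e ≤ 1 / 6 := by
    rw [he]
    exact min_le_right _ _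
  obtain ⟨s, hs⟩ := pow_unbounded_of_one_lt (Lam / dl) (one_lt_two : (1 : ℝ) < 2)
  obtain ⟨d, k0, hN⟩ := one_full hW he0 (s + 1)
  obtain ⟨M, hM⟩ := hhol (ε / 2) (by positivity)
  obtain ⟨b, hb⟩ : ∃ b : ℝ, b = (dl / C') ^ (3 / 4 : ℝ) / 2 := ⟨_, rfl⟩
  have hb0 : 0 < b := by
    rw [hb]
    positivity
  refine ⟨b / 2 ^ d, by positivity, fun ρ hρ hρ0 => ?_⟩
  rw [le_div_iff₀ (by positivity)] at hρ0
  -- the smallest scale of the curves
  obtain ⟨ρm, hρm⟩ : ∃ ρm : ℝ, ρm = ρ / (C * Lam ^ (3 / 4 : ℝ)) := ⟨_, rfl⟩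
  have hρm0 : 0 < ρm := by
    rw [hρm]
    positivity
  obtain ⟨N, hNN⟩ : ∃ N : ℕ, N = ⌈((M : ℝ) / (ρm / 2)) ^ 2⌉₊ + 1 := ⟨_, rfl⟩
  have hN1 : (1 : ℝ) ≤ N := by
    rw [hNN]
    push_cast
    have : (0 : ℝ) ≤ (⌈((M : ℝ) / (ρm / 2)) ^ 2⌉₊ : ℝ) := Nat.cast_nonneg _
    linarith
  have ht : Tendsto (fun R : ℝ => R ^ (4 / 3 : ℝ)) atTop atTop := tendsto_rpow_atTop (by norm_num)
  obtain ⟨R0, hR0⟩ := Filter.eventually_atTop.1 ((eventually_ge_atTop (max 1 (max (4 / ρ) (4 * N / (e * ρ))))).and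
    (ht.eventually_ge_atTop (max (1 / dl) (max (PW.mZ (2 ^ k0) / dl) (PW.mZ (2 ^ 0) / dl)))))
  refine ⟨max R0 1, by positivity, fun R hR => ?_⟩
  obtain ⟨h1, h2⟩ := hR0 R ((le_max_left _ _).trans hR)
  have hR1 : 1 ≤ R := (le_max_left _ _).trans h1
  have hRp : 0 < R := by linarith
  have hR4 : 4 ≤ ρ * R := by
    have := (le_max_left _ _).trans ((le_max_right _ _).trans h1)
    rw [div_le_iff₀ hρ] at this
    linarith
  have hRN : 4 * N ≤ e * ρ * R := by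
    have := (le_max_right _ _).trans ((le_max_right _ _).trans h1)
    rw [div_le_iff₀ (by positivity)] at this
    linarith
  obtain ⟨Q, hQ⟩ : ∃ Q : ℝ, Q = R ^ (4 / 3 : ℝ) := ⟨_, rfl⟩
  rw [← hQ] at h2 ⊢
  have hQ0 : 0 < Q := by
    rw [hQ]
    positivity
  have hQR : Q ^ (3 / 4 : ℝ) = R := by
    rw [hQ, ← Real.rpow_mul hRp.le]
    norm_num
  have g1 : 1 ≤ dl * Q := by
    have := (le_max_left _ _).trans h2
    rw [div_le_iff₀ hdl] at this
    linarith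
  have g2 : PW.mZ (2 ^ k0) ≤ dl * Q := by
    have := (le_max_left _ _).trans ((le_max_right _ _).trans h2)
    rw [div_le_iff₀ hdl] at this
    linarith
  have g3 : PW.mZ (2 ^ 0) ≤ dl * Q := by
    have := (le_max_right _ _).trans ((le_max_right _ _).trans h2)
    rw [div_le_iff₀ hdl] at this
    linarith
  obtain ⟨n1, hn1⟩ : ∃ n1, n1 = ⌈dl * Q⌉₊ := ⟨_, rfl⟩
  have f1 : dl * Q ≤ n1 := by
    rw [hn1]
    exact Nat.le_ceil _
  have f2 : ∀ n : ℕ, dl * Q ≤ n → n1 ≤ n := fun n hn => by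
    rw [hn1]
    exact Nat.ceil_le.2 hn
  obtain ⟨k, hk⟩ := sc_ex0 (g3.trans f1)
  have hk0 : k0 ≤ k := by
    by_contra hcon
    have h1 : PW.mZ (2 ^ (k + 1)) ≤ PW.mZ (2 ^ k0) := mz_mono (by omega)
    have h3 := hk.2
    linarith
  obtain ⟨r, hr⟩ : ∃ r, r = ⌊ρ * R⌋₊ := ⟨_, rfl⟩
  have hr1 : (r : ℝ) ≤ ρ * R := by
    rw [hr]
    exact Nat.floor_le (by positivity)
  have hr2 : ρ * R < r + 1 := by
    rw [hr]
    exact Nat.lt_floor_add_one _
  have hr3 : 2 ≤ r := by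
    have h1 : (3 : ℝ) ≤ r := by linarith
    have h2 : 3 ≤ r := by exact_mod_cast h1
    omega
  have hrd : r * 2 ^ d ≤ 2 ^ k := by
    have h4 : dl * Q ≤ C' * (2 : ℝ) ^ (4 / 3 * ((k + 1 : ℕ) : ℝ)) := f1.trans (hk.2.le.trans (hup (k + 1)))
    have h5 : (dl / C') * Q ≤ (2 : ℝ) ^ (4 / 3 * ((k + 1 : ℕ) : ℝ)) := by
      rw [div_mul_eq_mul_div, div_le_iff₀ hC']
      linarith
    have h6 := Real.rpow_le_rpow (by positivity) h5 (show (0 : ℝ) ≤ 3 / 4 by norm_num)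
    have h43 : ((2 : ℝ) ^ (4 / 3 * ((k + 1 : ℕ) : ℝ))) ^ (3 / 4 : ℝ) = 2 ^ (k + 1) := by
      rw [← Real.rpow_mul (by norm_num), ← Real.rpow_natCast]
      congr 1
      ring
    rw [h43, Real.mul_rpow (by positivity) hQ0.le, pow_succ, hQR] at h6
    have h7 : b * R ≤ 2 ^ k := by
      rw [hb]
      linarith
    have h8 : (r : ℝ) * 2 ^ d ≤ 2 ^ k := by
      refine le_trans ?_ h7
      calc (r : ℝ) * 2 ^ d ≤ (ρ * R) * 2 ^ d := mul_le_mul_of_nonneg_right hr1 (by positivity)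
        _ = (ρ * 2 ^ d) * R := by ring
        _ ≤ _ := mul_le_mul_of_nonneg_right hρ0 hRp.le
    exact_mod_cast h8
  have haf : AF r (Vm (ρ * R)) := af_Vm (by linarith) hr1 hr2 (by omega)
  obtain ⟨ka, hka, hP⟩ := hN r _ _ hr3 haf haf (Vm_rev (by linarith)) k hk0 hrd
  refine ⟨ka / (ρ * R), by positivity, fun n hn hn' => ?_⟩
  have hnn : n1 ≤ n := f2 n hn
  have hn1' : 1 ≤ n := by
    have : (1 : ℝ) ≤ n := g1.trans hn
    exact_mod_cast this
  have hnp : (0 : ℝ) < n := by exact_mod_cast hn1'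
  have hsz := NTSF.size_pos hn1'
  obtain ⟨k', hk'⟩ := sc_ex0 (g3.trans hn)
  have hkk : k ≤ k' := by
    by_contra hcon
    have h1 : PW.mZ (2 ^ (k' + 1)) ≤ PW.mZ (2 ^ k) := mz_mono (by omega)
    have h2 : (n1 : ℝ) ≤ n := by exact_mod_cast hnn
    have h3 := hk.1
    have h4 := hk'.2
    linarith
  have hkk2 : k' ≤ k + (s + 1) := by
    by_contra hcon
    have h1 : PW.mZ (2 ^ (k + 1 + s)) ≤ PW.mZ (2 ^ k') := mz_mono (by omega)
    have h2 := mz_low (k + 1) s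
    have h3 := hk.2
    have h4 := hk'.1
    have h5 : Lam * Q ≤ 2 ^ s * (dl * Q) := by
      rw [div_lt_iff₀ hdl] at hs
      have := mul_le_mul_of_nonneg_right hs.le hQ0.le
      linarith
    have h7 : (2 : ℝ) ^ s * (dl * Q) < 2 ^ s * PW.mZ (2 ^ (k + 1)) :=
      mul_lt_mul_of_pos_left (lt_of_le_of_lt f1 h3) (by positivity)
    linarith
  obtain ⟨j, hj⟩ := Nat.exists_eq_add_of_le hkk
  have hRR : ρ * R / size n * size n = ρ * R := div_mul_cancel₀ _ hsz.ne'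
  have hρ' : ρm ≤ ρ * R / size n := by
    rw [hρm, div_le_div_iff₀ (by positivity) hsz, mul_assoc]
    refine mul_le_mul_of_nonneg_left ?_ hρ.le
    have h1 := (hS n hn1').2
    have h4 : (n : ℝ) ^ (3 / 4 : ℝ) ≤ Lam ^ (3 / 4 : ℝ) * R := by
      rw [← hQR, ← Real.mul_rpow hLam.le hQ0.le]
      exact Real.rpow_le_rpow hnp.le hn' (by norm_num)
    calc size n ≤ C * (n : ℝ) ^ (3 / 4 : ℝ) := h1
      _ ≤ C * (Lam ^ (3 / 4 : ℝ) * R) := mul_le_mul_of_nonneg_left h4 hC.le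
      _ = R * (C * Lam ^ (3 / 4 : ℝ)) := by ring
  have hρp : 0 < ρ * R / size n := hρm0.trans_le hρ'
  have hfin := law_full (ε := ε) (ρ := ρ * R / size n) (ka := ka) he0 (by linarith) he2 (by linarith) hε hn1'
    (hM n hn1') hρm0 hρ' hka (by rw [hRR]; exact hR4) hNN.ge
    (by rw [mul_assoc e, hRR, ← mul_assoc]; exact hRN) (by
      rw [hRR]
      exact hP j n (by omega) (by rw [← hj]; exact hk'))
  have e7 : ∀ γ : CI, ka * (vb (ρ * R / size n) γ 1 / (ρ * R / size n)) =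
      ka / (ρ * R) * (size n * vb (ρ * R / size n) γ 1) := by
    intro γ
    have h1 : ρ * R ≠ 0 := by positivity
    field_simp
  simp only [e7] at hfin
  exact hfin

end Pool.Agent.CRT
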