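import Pool.Agent.CRT.VDefs4
import Pool.Agent.NTS.Dict
import Pool.Agent.EN.Third
import Pool.Agent.TOG.Defs

/-!
# CRT, row 11A V2c (helper69): the dictionary between the words and the public walks

Every walk with `n` steps is `rt r (sw n t)` for a rotation `r : Fin 3` and a word `t ∈ SawN n`. The real parts of its positions are
the halves of the levels `xl r t`, one of the three level functions `EN.lv3` of the word. `cut_iff`: the cuts in words.
`pub_eq`: the proportion of an event among the walks is the mean over `r` of the probabilities `TOG.Pn` of events of words.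
`msum_eq`: the same for the sums `msum` over the numbers of steps.
-/

set_option autoImplicit false

open Set Filter Topology

namespace Pool.Agent.CRT.V

open HexObs hiding pos
open HexObs.SDN
open Pool.Agent.NTS.Res
open NTF (sw JJ)
open NTSF (om rot)

/-- the rotated walk -/
def rt {n : ℕ} (r : Fin 3) (s : Fin n → Fin 3) : Fin n → Fin 3 := fun i => s i + r

/-- the number of the level function of the rotation `r` -/
def dd (r : Fin 3) : Fin 3 := -r

/-- twice the real part of the position number `i` of the walk `rt r (sw n t)` -/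
def xl (r : Fin 3) (t : List Bool) (i : ℕ) : ℤ := EN.lv3 (dd r) (vx oo up t i)

lemma rt_zero {n : ℕ} (s : Fin n → Fin 3) : rt 0 s = s := by
  funext i
  show s i + 0 = s i
  rw [add_zero]

lemma rt_one {n : ℕ} (s : Fin n → Fin 3) : rt 1 s = rot s := rfl

lemma rt_two {n : ℕ} (s : Fin n → Fin 3) : rt 2 s = rot (rot s) := by
  funext i
  show s i + 2 = s i + 1 + 1
  rw [add_assoc]
  rfl

lemma fin3 (r : Fin 3) : r = 0 ∨ r = 1 ∨ r = 2 := by
  revert r
  decide

lemma rt_rt {n : ℕ} (r r' : Fin 3) (s : Fin n → Fin 3) : rt r (rt r' s) = rt (r' + r) s := by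
  funext i
  show s i + r' + r = s i + (r' + r)
  rw [add_assoc]

lemma rt_mem {n : ℕ} {r : Fin 3} {s : Fin n → Fin 3} : rt r s ∈ saw n ↔ s ∈ saw n := by
  rcases fin3 r with rfl | rfl | rfl
  · rw [rt_zero]
  · rw [rt_one, NTSF.rot_mem]
  · rw [rt_two, NTSF.rot_mem, NTSF.rot_mem]

lemma om_eq : om = ⟨-(1 / 2), Real.sqrt 3 / 2⟩ := by
  have h := NTF.JJ_Ed 1
  have h1 : JJ (NTF.Ed 1) = om := by
    rw [h, show (((1 : Fin 3) : ℕ) : ℂ) = 1 from Nat.cast_one, mul_one]
    rfl
  rw [← h1]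
  apply Complex.ext
  · rw [NTF.JJ_re]
    simp only [NTF.Ed]
    norm_num
  · rw [NTF.JJ_im]
    simp only [NTF.Ed]
    norm_num

lemma JJ_rot (v : Pt) : (om * JJ v).re = (EN.lv3 2 v : ℝ) / 2 := by
  rw [Complex.mul_re, om_eq, NTF.JJ_re, NTF.JJ_im, EN.lv3_two]
  have h : Real.sqrt 3 * Real.sqrt 3 = 3 := Real.mul_self_sqrt (by norm_num)
  simp only [lvl, hd, ip, up, Bool.false_eq_true, if_false, if_true]
  push_cast
  linear_combination ((v.1 : ℝ) / 4) * h

lemma JJ_rot2 (v : Pt) : (om * (om * JJ v)).re = (EN.lv3 1 v : ℝ) / 2 := by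
  rw [Complex.mul_re, Complex.mul_re, Complex.mul_im, om_eq, NTF.JJ_re, NTF.JJ_im, EN.lv3_one]
  have h : Real.sqrt 3 * Real.sqrt 3 = 3 := Real.mul_self_sqrt (by norm_num)
  simp only [lvl, hd, ip, up, if_true]
  push_cast
  linear_combination (-(3 * (v.1 : ℝ) / 8) - (v.2 : ℝ) / 4) * h

/-- **the real parts are the halves of the levels** -/
theorem re_rt {n : ℕ} (r : Fin 3) (t : List Bool) {k : ℕ} (hk : k ≤ n) :
    (pos (rt r (sw n t)) k).re = (xl r t k : ℝ) / 2 := by
  unfold xl
  rcases fin3 r with rfl | rfl | rfl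
  · rw [rt_zero, NTSF.pos_sw n t k hk, NTF.JJ_lvl]
    rfl
  · rw [rt_one, NTSF.pos_rot, NTSF.pos_sw n t k hk, JJ_rot]
    rfl
  · rw [rt_two, NTSF.pos_rot, NTSF.pos_rot, NTSF.pos_sw n t k hk, JJ_rot2]
    rfl

/-! ### Levels and parity -/

lemma lv3_cl (d : Fin 3) (v : Pt) : ((EN.lv3 d v : ℤ) : ZMod 3) = HexObs.cl v := by
  have key : ∀ dir : Bool, ((lvl dir v : ℤ) : ZMod 3) = HexObs.cl v := by
    intro dir
    unfold lvl
    rw [ip_mod]
    have : HexObs.cl (SDN.hd dir) = -1 := by cases dir <;> decide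
    rw [this]
    ring
  rcases fin3 d with rfl | rfl | rfl
  · rw [EN.lv3_zero, key]
  · rw [EN.lv3_one, key]
  · rw [EN.lv3_two]
    push_cast
    rw [key, key]
    have h : (3 : ZMod 3) = 0 := three_eq
    linear_combination (-HexObs.cl v) * h

/-- the levels are `0` modulo `3` at the even positions and `2` modulo `3` at the odd positions -/
theorem xl_mod (r : Fin 3) (t : List Bool) (i : ℕ) : (3 : ℤ) ∣ xl r t i - if Even i then 0 else 2 := by
  have h3 : HexObs.cl (vx oo up t i) = if Even i then HexObs.cl oo else HexObs.cl oo + HexObs.cl up := cl_vx oo up t i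
  have h4 : ((xl r t i : ℤ) : ZMod 3) = HexObs.cl (vx oo up t i) := lv3_cl _ _
  rw [h3] at h4
  by_cases he : Even i
  · rw [if_pos he] at h4 ⊢
    refine (ZMod.intCast_zmod_eq_zero_iff_dvd _ 3).1 ?_
    rw [sub_zero, h4]
    decide
  · rw [if_neg he] at h4 ⊢
    refine (ZMod.intCast_zmod_eq_zero_iff_dvd _ 3).1 ?_
    push_cast
    rw [h4]
    decide

lemma xl_zero (r : Fin 3) (t : List Bool) : xl r t 0 = 0 := by
  show EN.lv3 (dd r) (0, 0) = 0
  rcases fin3 r with rfl | rfl | rfl <;> decide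

lemma lv3_dirs : ∀ d : Fin 3, ∀ v ∈ dirs, EN.lv3 d v = -2 ∨ EN.lv3 d v = -1 ∨ EN.lv3 d v = 1 ∨ EN.lv3 d v = 2 := by
  decide

lemma lv3_add (d : Fin 3) (v w : Pt) : EN.lv3 d (v + w) = EN.lv3 d v + EN.lv3 d w := by
  have key : ∀ dir : Bool, lvl dir (v + w) = lvl dir v + lvl dir w := fun dir => by
    unfold lvl
    rw [ip_add_left]
  rcases fin3 d with rfl | rfl | rfl
  · exact key false
  · exact key true
  · rw [EN.lv3_two, EN.lv3_two, EN.lv3_two, key, key]
    ring

/-- one step changes the level by 1 or 2 -/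
theorem xl_step (r : Fin 3) (t : List Bool) (i : ℕ) : xl r t (i + 1) = xl r t i - 2 ∨ xl r t (i + 1) = xl r t i - 1 ∨
    xl r t (i + 1) = xl r t i + 1 ∨ xl r t (i + 1) = xl r t i + 2 := by
  unfold xl
  rw [vx_succ, lv3_add]
  have h := lv3_dirs (dd r) _ (dx_mem upd t i)
  omega

/-! ### Cuts -/

lemma pos_add_one {n : ℕ} {s : Fin n → Fin 3} {p : ℕ} (hp : p < n) (he : Even p)
    (h : (pos s (p + 1)).re = (pos s p).re + 1) : pos s (p + 1) = pos s p + 1 := by
  rw [NTSF.pos_succ s p hp] at h ⊢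
  rw [Complex.add_re] at h
  have h1 : (step p (s ⟨p, hp⟩)).re = 1 := by linarith
  have h2 : step p (s ⟨p, hp⟩) = JJ (NTF.Ed (s ⟨p, hp⟩)) := by
    rw [NTSF.step_eq, ← NTF.JJ_de]
    unfold NTF.de
    rw [if_pos he]
  rw [h2] at h1 ⊢
  congr 1
  rcases fin3 (s ⟨p, hp⟩) with h3 | h3 | h3
  · rw [h3]
    apply Complex.ext
    · rw [NTF.JJ_re]
      simp [NTF.Ed]
    · rw [NTF.JJ_im]
      simp [NTF.Ed]
  · rw [h3, show NTF.Ed 1 = ((-1, 0) : Pt) from rfl, NTF.JJ_re] at h1
    norm_num at h1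
  · rw [h3, show NTF.Ed 2 = ((1, -1) : Pt) from rfl, NTF.JJ_re] at h1
    norm_num at h1

/-- **the cuts in words** -/
theorem cut_iff {n : ℕ} (r : Fin 3) (t : List Bool) (p : ℕ) : Cut (rt r (sw n t)) p ↔
    p < n ∧ xl r t (p + 1) = xl r t p + 2 ∧ (∀ i : ℕ, i ≤ p → xl r t i ≤ xl r t p) ∧
      ∀ j : ℕ, p < j → j ≤ n → xl r t p < xl r t j := by
  constructor
  · rintro ⟨h1, h2, h3, h4, h5⟩
    have e1 : xl r t (p + 1) = xl r t p + 2 := by
      have h6 := congrArg Complex.re h3
      rw [Complex.add_re, Complex.one_re, re_rt r t (by omega), re_rt r t (by omega)] at h6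
      have : (xl r t (p + 1) : ℝ) = xl r t p + 2 := by linarith
      exact_mod_cast this
    refine ⟨h1, e1, fun i hi => ?_, fun j hj hjn => ?_⟩
    · have h6 := h4 i hi
      rw [re_rt r t (by omega), re_rt r t (by omega)] at h6
      have : (xl r t i : ℝ) ≤ xl r t p := by linarith
      exact_mod_cast this
    · have h6 := h5 j hj hjn
      rw [re_rt r t (by omega), re_rt r t hjn] at h6
      have : (xl r t (p + 1) : ℝ) ≤ xl r t j := by linarith
      have h7 : xl r t (p + 1) ≤ xl r t j := by exact_mod_cast this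
      omega
  · rintro ⟨h1, h3, h4, h5⟩
    have m1 := xl_mod r t p
    have m2 := xl_mod r t (p + 1)
    have h2 : Even p := by
      by_contra h
      rw [if_neg h] at m1
      rw [if_pos (by rw [Nat.even_add_one]; exact h)] at m2
      omega
    rw [if_pos h2] at m1
    refine ⟨h1, h2, pos_add_one h1 h2 ?_, fun i hi => ?_, fun j hj hjn => ?_⟩
    · rw [re_rt r t (by omega), re_rt r t (by omega), h3]
      push_cast
      ring
    · rw [re_rt r t (by omega), re_rt r t (by omega)]
      have : (xl r t i : ℝ) ≤ xl r t p := by exact_mod_cast h4 i hi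
      linarith
    · rw [re_rt r t (by omega), re_rt r t hjn]
      have h6 := h5 j hj hjn
      have m3 := xl_mod r t j
      have h7 : xl r t (p + 1) ≤ xl r t j := by
        split_ifs at m3 <;> omega
      have : (xl r t (p + 1) : ℝ) ≤ xl r t j := by exact_mod_cast h7
      linarith

/-! ### Counting -/

open Classical in
/-- the walks by their first steps -/
theorem card_rt {n : ℕ} (hn : 0 < n) (P : (Fin n → Fin 3) → Prop) :
    ((saw n).filter P).card = ∑ r : Fin 3, ((saw n).filter fun s => P (rt r s) ∧ s ⟨0, hn⟩ = 0).card := by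
  have h1 : ((saw n).filter P).card = ∑ a : Fin 3, ((saw n).filter fun s => P s ∧ s ⟨0, hn⟩ = a).card := by
    rw [Finset.card_eq_sum_card_fiberwise (f := fun s : Fin n → Fin 3 => s ⟨0, hn⟩) (t := Finset.univ)
      (fun _ _ => Finset.mem_univ _)]
    apply Finset.sum_congr rfl
    intro a _
    rw [Finset.filter_filter]
  rw [h1]
  apply Finset.sum_congr rfl
  intro a _
  symm
  apply Finset.card_bij (fun s _ => rt a s)
  · intro s hs
    rw [Finset.mem_filter] at hs ⊢
    refine ⟨rt_mem.2 hs.1, hs.2.1, ?_⟩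
    show s ⟨0, hn⟩ + a = a
    rw [hs.2.2, zero_add]
  · intro s _ s' _ h
    funext i
    have h3 : s i + a = s' i + a := congrFun h i
    exact add_right_cancel h3
  · intro s hs
    rw [Finset.mem_filter] at hs
    have e : rt a (rt (-a) s) = s := by
      rw [rt_rt, neg_add_cancel, rt_zero]
    refine ⟨rt (-a) s, ?_, e⟩
    rw [Finset.mem_filter, rt_mem, e]
    refine ⟨hs.1, hs.2.1, ?_⟩
    show s ⟨0, hn⟩ + -a = 0
    rw [hs.2.2, add_neg_cancel]

open Classical in
/-- **the dictionary for the numbers** -/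
theorem two_card {n : ℕ} (hn : 0 < n) (P : (Fin n → Fin 3) → Prop) :
    2 * ((saw n).filter P).card = ∑ r : Fin 3, {t | t ∈ SawN n ∧ P (rt r (sw n t))}.ncard := by
  rw [card_rt hn P, Finset.mul_sum]
  apply Finset.sum_congr rfl
  intro r _
  rw [NTSF.card_words hn (fun s => P (rt r s))]

open Classical in
/-- **the dictionary for the probabilities** -/
theorem pub_eq {n : ℕ} (hn : 0 < n) (P : (Fin n → Fin 3) → Prop) :
    (((saw n).filter P).card : ℝ) / ((saw n).card : ℝ) = (∑ r : Fin 3, TOG.Pn n {t | P (rt r (sw n t))}) / 3 := by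
  have h1 := two_card hn P
  have h2 : 2 * (saw n).card = 3 * cS n := by
    have h9 := two_card hn (fun _ => True)
    have e : ∀ inst : DecidablePred fun _ : Fin n → Fin 3 => True,
        @Finset.filter (Fin n → Fin 3) (fun _ => True) inst (saw n) = saw n := fun inst =>
      @Finset.filter_true_of_mem _ (fun _ => True) inst (saw n) (fun _ _ => trivial)
    rw [e] at h9
    rw [h9, Fin.sum_univ_three]
    have h3 : {t | t ∈ SawN n ∧ True} = SawN n := by
      ext t
      exact ⟨fun h => h.1, fun h => ⟨h, trivial⟩⟩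
    rw [h3]
    unfold cS
    ring
  have h4 : (2 : ℝ) * (((saw n).filter P).card : ℝ) = ∑ r : Fin 3, ({t | t ∈ SawN n ∧ P (rt r (sw n t))}.ncard : ℝ) := by
    exact_mod_cast h1
  have h5 : (2 : ℝ) * ((saw n).card : ℝ) = 3 * (cS n : ℝ) := by exact_mod_cast h2
  have h6 : (0 : ℝ) < ((saw n).card : ℝ) := by exact_mod_cast (NTSF.saw_nonempty n).card_pos
  have h7 : (cS n : ℝ) ≠ 0 := by
    intro h8
    rw [h8] at h5
    linarith
  have h8 : (∑ r : Fin 3, TOG.Pn n {t | P (rt r (sw n t))}) =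
      (∑ r : Fin 3, ({t | t ∈ SawN n ∧ P (rt r (sw n t))}.ncard : ℝ)) / cS n := by
    rw [Finset.sum_div]
    rfl
  rw [h8, ← h4, div_div, div_eq_div_iff h6.ne' (by positivity)]
  linear_combination ((((saw n).filter P).card : ℝ)) * (-h5)

/-- **the dictionary for the sums over the numbers of steps** -/
theorem msum_eq (B : ∀ n : ℕ, (Fin n → Fin 3) → Prop) {x1 x2 : ℝ} {N : ℕ} (hx : 0 < x1) (hN : 0 < N) :
    msum B x1 x2 N = (∑ r : Fin 3, ∑ n ∈ (Finset.range (⌊x2 * N⌋₊ + 1)).filter (fun n : ℕ => x1 * N ≤ n),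
      TOG.Pn n {t | B n (rt r (sw n t))}) / 3 := by
  unfold msum
  rw [Finset.sum_comm, Finset.sum_div]
  apply Finset.sum_congr rfl
  intro n hn
  rw [Finset.mem_filter] at hn
  have h1 : 0 < x1 * N := by positivity
  have h2 : 0 < n := by
    have : (0 : ℝ) < n := lt_of_lt_of_le h1 hn.2
    exact_mod_cast this
  exact pub_eq h2 _

/-- bounds for the three rotations give a bound for the walks -/
theorem msum_le (B : ∀ n : ℕ, (Fin n → Fin 3) → Prop) {x1 x2 e : ℝ} {N : ℕ} (hx : 0 < x1) (hN : 0 < N)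
    (h : ∀ r : Fin 3, ∑ n ∈ (Finset.range (⌊x2 * N⌋₊ + 1)).filter (fun n : ℕ => x1 * N ≤ n),
      TOG.Pn n {t | B n (rt r (sw n t))} ≤ e) : msum B x1 x2 N ≤ e := by
  rw [msum_eq B hx hN, Fin.sum_univ_three]
  have h0 := h 0
  have h1 := h 1
  have h2 := h 2
  linarith

/-! ### The directions of the events -/

/-- an event for the word `EN.wd d t` costs two levels of the box -/
theorem gf_wd (d : Fin 3) (K : ℕ) (p : ℕ → Prop) (P : Set (List Bool)) :
    gf {t | p t.length ∧ t ∈ WL K ∧ EN.wd d t ∈ P} ≤ gf {t | p t.length ∧ t ∈ WL (K + 2) ∧ t ∈ P} := by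
  by_cases hd : d = 2
  · refine EN.gf_mw_le ?_
    rintro t ⟨h1, h2, h3⟩
    unfold EN.wd at h3
    rw [if_pos hd] at h3
    exact ⟨by rwa [EN.mw_length], EN.mw_WL h2, h3⟩
  · refine gf_mono ?_
    rintro t ⟨h1, h2, h3⟩
    have h4 := EN.wd_WL d h2
    unfold EN.wd at h3 h4
    rw [if_neg hd] at h3 h4
    exact ⟨h1, h4, h3⟩

end Pool.Agent.CRT.V
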