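import Pool.Agent.CRT.RSplit
import Pool.Agent.CRT.VDict
import Pool.Agent.CRT.SizeSc
import Pool.Agent.CRT.MeanOf
import Pool.Agent.PW.SmallNZ
import Pool.Agent.PW.TransW
import Pool.Agent.PW.WindN
import Pool.Agent.TIW.EnsF

/-!
# Scale flow (R), row N (helper5): the tip gates

`TG ρ R s k`: the step `k` of the walk is a window cut of radius `R`, behind it the walk stays to the right of its edge and in the
ball of radius `ρ` around the vertex number `k`. **`tipG : TipG`**: most of the walks with `n` steps have, after one of the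
three rotations, such a gate with `R = A ρ`, `r0 size n ≤ ρ ≤ δ size n`, `k ≤ (1 - η) n`.
-/

set_option autoImplicit false

open Set Filter Topology MeasureTheory

namespace Pool.Agent.CRT.R

open HexObs hiding pos curve
open HexObs.SDN HexObs.TIW
open Pool.Agent.NTS.Res
open NTF (sw JJ JJ_sub JJ_add Hd Hd_iff)
open NTSF (om rot om_norm pos_rot pos_sw pos_zero pos_succ mem_saw)
open Pool.Agent.CRT.V (rt xl re_rt xl_mod xl_step pos_add_one fin3 rt_zero rt_one rt_two rt_rt rt_mem dd pub_eq)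

/-- `k` is a tip gate: a window cut of radius `R`; behind it the walk stays to the right and in the ball of radius `ρ` -/
def TG (ρ R : ℝ) {n : ℕ} (s : Fin n → Fin 3) (k : ℕ) : Prop :=
  WC R s k ∧ ∀ j : ℕ, k < j → j ≤ n → ‖pos s j - pos s k‖ ≤ ρ ∧ (pos s k).re + 1 ≤ (pos s j).re

/-- **row N**: tip gates exist -/
def TipG : Prop := ∀ ε A δ : ℝ, 0 < ε → 0 < A → 0 < δ → ∃ r0 η : ℝ, 0 < r0 ∧ 0 < η ∧ ∃ n0 : ℕ, ∀ n : ℕ, n0 ≤ n →
  open Classical in
  (((saw n).filter fun s => ¬ ∃ (q : Fin 3) (k : ℕ) (r : ℝ), r0 ≤ r ∧ r ≤ δ ∧ (k : ℝ) ≤ (1 - η) * n ∧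
    TG (r * size n) (A * r * size n) (rt q s) k).card : ℝ) ≤ ε * ((saw n).card : ℝ)

/-! ### 1. A cut of the word is a gate -/

lemma lv3_Ed (c : Fin 3) (v : Pt) : EN.lv3 c v = ip v (NTF.Ed c) := by
  rcases fin3 c with rfl | rfl | rfl
  · rfl
  · rfl
  · rw [EN.lv3_two, show NTF.Ed 2 = ((1, -1) : Pt) from rfl]
    simp only [lvl, hd, ip, up, Bool.false_eq_true, if_false, if_true]
    ring

lemma rt_unit {n : ℕ} (r : Fin 3) (s : Fin n → Fin 3) : ∃ w : ℂ, ‖w‖ = 1 ∧ ∀ k : ℕ, pos (rt r s) k = w * pos s k := by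
  rcases fin3 r with rfl | rfl | rfl
  · exact ⟨1, norm_one, fun k => by rw [rt_zero, one_mul]⟩
  · exact ⟨om, om_norm, fun k => by rw [rt_one, pos_rot]⟩
  · exact ⟨om * om, by rw [norm_mul, om_norm, one_mul], fun k => by rw [rt_two, pos_rot, pos_rot, mul_assoc]⟩

lemma rt_dist {n : ℕ} (r : Fin 3) (s : Fin n → Fin 3) (i j : ℕ) : ‖pos (rt r s) i - pos (rt r s) j‖ = ‖pos s i - pos s j‖ := by
  obtain ⟨w, hw, h⟩ := rt_unit r s
  rw [h, h, ← mul_sub, norm_mul, hw, one_mul]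

lemma sw_dist {n : ℕ} (t : List Bool) {i j : ℕ} (hi : i ≤ n) (hj : j ≤ n) :
    ‖pos (sw n t) i - pos (sw n t) j‖ = ‖JJ (vx oo up t i - vx oo up t j)‖ := by
  rw [pos_sw n t i hi, pos_sw n t j hj, JJ_sub]

/-- **the gate of a word** -/
theorem gate_word {n : ℕ} {t : List Bool} (hl : t.length = n) {a F h : ℕ} (hev : Even a) (han : a < n) (hA : t.take a ∈ Fe F)
    (hE : ∀ i, 1 ≤ i → i ≤ (t.drop a).length → 0 < ip (vx oo up (t.drop a) i) up ∧ hn (vx oo up (t.drop a) i) ≤ h)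
    {ρ R : ℝ} (hρ : (h : ℝ) ≤ ρ) (hR : 2 * R + 2 ≤ F) : ∃ r : Fin 3, TG ρ R (rt r (sw n t)) a := by
  obtain ⟨c, hc⟩ : ∃ c : Fin 3, c = NTF.aa (dx up t a) := ⟨_, rfl⟩
  have hd : NTF.Ed c = dx up t a := by
    rw [hc]
    refine (NTF.de_aa _ (dx_mem upd t a)).1 ?_
    rw [cl_dx, if_pos hev]
  have hlen : (t.take a).length = a := by rw [List.length_take]; omega
  have hlenE : (t.drop a).length = n - a := by rw [List.length_drop]; omega
  have htk : ∀ i, i ≤ a → vx oo up (t.take a) i = vx oo up t i := fun i hi => by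
    conv_rhs => rw [← List.take_append_drop a t]
    rw [vx_append (by omega)]
  have hen : en (t.take a) = vx oo up t a := by
    unfold en
    rw [hlen, htk a le_rfl]
  have hde : de (t.take a) = dx up t a := by
    unfold de
    conv_rhs => rw [← List.take_append_drop a t]
    rw [hlen, dx_append (by omega)]
  obtain ⟨d, hdd⟩ : ∃ d : Pt, d = dx up t a := ⟨_, rfl⟩
  rw [← hdd] at hd hde
  have hdm : d ∈ dirs := hdd ▸ dx_mem upd t a
  have hx : ∀ k, xl (-c) t k = ip (vx oo up t k) d := by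
    intro k
    unfold xl dd
    rw [neg_neg, lv3_Ed, hd]
  -- behind the cut
  have haf : ∀ i, i ≤ n - a → vx oo up t (a + i) = vx oo up t a + mulE (TIW.rt (t.take a)) (vx oo up (t.drop a) i) := by
    intro i _
    have h1 := vx_app (t.take a) (t.drop a) i
    rw [List.take_append_drop, hlen, hen] at h1
    exact h1
  have hun := nrm_rt (t.take a)
  have hxl : ∀ i, 1 ≤ i → i ≤ n - a → xl (-c) t a + 2 ≤ xl (-c) t (a + i) := by
    intro i h1 h2
    have h3 := (hE i h1 (by omega)).1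
    have h4 : ip (vx oo up t (a + i)) d = ip (vx oo up t a) d + ip (vx oo up (t.drop a) i) up := by
      rw [haf i h2, ip_add_left]
      congr 1
      rw [← hde, ← rt_up, ip_mulE, hun, one_mul]
    have h5 : xl (-c) t a < xl (-c) t (a + i) := by
      rw [hx, hx, h4]
      linarith
    have m1 := xl_mod (-c) t a
    have m2 := xl_mod (-c) t (a + i)
    rw [if_pos hev] at m1
    split_ifs at m2 <;> omega
  have hx1 : xl (-c) t (a + 1) = xl (-c) t a + 2 := by
    have h1 := hxl 1 le_rfl (by omega)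
    rcases xl_step (-c) t a with h2 | h2 | h2 | h2 <;> omega
  refine ⟨-c, ⟨han, hev, pos_add_one han hev ?_, fun i hi hd1 => ?_, fun j hj hjn _ => ?_⟩, fun j hj hjn => ⟨?_, ?_⟩⟩
  · rw [re_rt _ t (by omega), re_rt _ t (by omega), hx1]
    push_cast
    ring
  · by_contra hcon
    push Not at hcon
    rw [re_rt _ t (by omega), re_rt _ t (by omega)] at hcon
    have h1 : xl (-c) t a < xl (-c) t i := by
      have : (xl (-c) t a : ℝ) < xl (-c) t i := by linarith
      exact_mod_cast this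
    rw [hx, hx] at h1
    have h2 := hA i (by omega) (by
      rw [htk i hi, hen, hde, ip_sub_left]
      linarith)
    rw [htk i hi, hen] at h2
    have h3 : (F : ℝ) ≤ 2 * ‖JJ (vx oo up t i - vx oo up t a)‖ := by
      refine le_trans ?_ (NTSF.hn_le_JJ _)
      exact_mod_cast h2
    rw [← sw_dist (n := n) t (by omega) (by omega), ← rt_dist (-c)] at h3
    have h4 : ‖pos (rt (-c) (sw n t)) i - pos (rt (-c) (sw n t)) a‖ ≤ R + 1 / 2 := by
      calc ‖pos (rt (-c) (sw n t)) i - pos (rt (-c) (sw n t)) a‖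
          = ‖(pos (rt (-c) (sw n t)) i - (pos (rt (-c) (sw n t)) a + 1 / 2)) + 1 / 2‖ := by ring_nf
        _ ≤ ‖pos (rt (-c) (sw n t)) i - (pos (rt (-c) (sw n t)) a + 1 / 2)‖ + ‖(1 / 2 : ℂ)‖ := norm_add_le _ _
        _ ≤ R + 1 / 2 := by rw [norm_half]; linarith
    linarith
  · obtain ⟨i, rfl⟩ : ∃ i, j = a + i := ⟨j - a, by omega⟩
    have h1 := hxl i (by omega) (by omega)
    rw [re_rt _ t (by omega), re_rt _ t (by omega)]
    have : (xl (-c) t a : ℝ) + 2 ≤ xl (-c) t (a + i) := by exact_mod_cast h1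
    linarith
  · obtain ⟨i, rfl⟩ : ∃ i, j = a + i := ⟨j - a, by omega⟩
    rw [rt_dist, sw_dist t (by omega) (by omega), haf i (by omega), add_sub_cancel_left]
    refine (NTSF.JJ_le_hn _).trans (le_trans ?_ hρ)
    rw [hn_mulE hun]
    exact_mod_cast (hE i (by omega) (by omega)).2
  · obtain ⟨i, rfl⟩ : ∃ i, j = a + i := ⟨j - a, by omega⟩
    have h1 := hxl i (by omega) (by omega)
    rw [re_rt _ t (by omega), re_rt _ t (by omega)]
    have : (xl (-c) t a : ℝ) + 2 ≤ xl (-c) t (a + i) := by exact_mod_cast h1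
    linarith

/-! ### 2. The gates of the words -/

/-- a tip gate of the word `t` at the level `l`, far part free up to `F`, tip not too near -/
def WG (l F : ℕ) (t : List Bool) : Prop := ∃ a : ℕ, Even a ∧ a < t.length ∧ t.take a ∈ Fe F ∧
  (∀ i, 1 ≤ i → i ≤ (t.drop a).length → 0 < ip (vx oo up (t.drop a) i) up ∧ hn (vx oo up (t.drop a) i) ≤ 2 ^ l) ∧
  ∃ j, j ≤ (t.drop a).length ∧ (2 : ℝ) ^ l ≤ 64 * ‖JJ (vx oo up (t.drop a) j)‖

lemma cl1_zero {x : ℝ} (h : x ≤ 0) : cl1 x = 0 := by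
  unfold cl1
  exact max_eq_left ((min_le_right _ _).trans h)

lemma cl1_nn (x : ℝ) : 0 ≤ cl1 x := le_max_left _ _

lemma chi_data {r : ℕ} (hr : 0 < r) {E : List Bool} (h : TIW.chi r E ≠ 0) :
    (r : ℤ) < 32 * ip (en E) up ∧ 2 * hn (en E) < r := by
  have hr' : (0 : ℝ) < r := by exact_mod_cast hr
  unfold TIW.chi at h
  constructor
  · by_contra hcon
    push Not at hcon
    apply h
    have h1 : (32 : ℝ) * (ip (en E) up : ℝ) / r - 1 ≤ 0 := by
      have : (32 : ℝ) * (ip (en E) up : ℝ) ≤ r := by exact_mod_cast hcon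
      have := (div_le_one hr').2 this
      linarith
    rw [cl1_zero h1]
    exact min_eq_left (cl1_nn _)
  · by_contra hcon
    push Not at hcon
    apply h
    have h1 : 16 - 32 * (hn (en E) : ℝ) / r ≤ 0 := by
      have h2 : (r : ℝ) ≤ 2 * (hn (en E) : ℝ) := by exact_mod_cast hcon
      have h3 : (16 : ℝ) ≤ 32 * (hn (en E) : ℝ) / r := by
        rw [le_div_iff₀ hr']
        linarith
      linarith
    rw [cl1_zero h1]
    exact min_eq_right (cl1_nn _)

/-- the data of a level whose weight is not zero -/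
lemma n0_data {l L : ℕ} {t : List Bool} (h : PWN.N0 l L {[]} t ≠ 0) : ∃ a : ℕ, a ≤ t.length ∧ Even (t.drop a).length ∧
    t.take a ∈ Fe (4 * 2 ^ L) ∧ (∀ i, 1 ≤ i → i ≤ (t.drop a).length → 0 < ip (vx oo up (t.drop a) i) up) ∧
    (∀ i, i ≤ (t.drop a).length → hn (vx oo up (t.drop a) i) < 2 ^ l) ∧
    2 ^ l < 32 * ip (en (t.drop a)) up ∧ 2 * hn (en (t.drop a)) < 2 ^ l := by
  classical
  unfold PWN.N0 PWN.NW at h
  obtain ⟨p, hp, h1⟩ := Finset.exists_ne_zero_of_sum_ne_zero h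
  rw [Finset.mem_filter, Finset.mem_product, Finset.mem_range, Finset.mem_range] at hp
  obtain ⟨⟨h2, h3⟩, h4, h5, h6, ⟨h7, h8⟩, h9⟩ := hp
  have h10 : p.1 = p.2 := by
    have h11 := congrArg List.length (Set.mem_singleton_iff.1 h6)
    rw [List.length_drop, List.length_take, List.length_nil] at h11
    omega
  have h11 : TIW.chi (2 ^ l) (t.drop p.2) ≠ 0 := by
    intro h12
    apply h1
    rw [h12]
    ring
  obtain ⟨g1, g2⟩ := chi_data (by positivity) h11
  refine ⟨p.2, by omega, ?_, h10 ▸ h5, fun i hi1 hi2 => h7.mem i hi1 hi2, fun i hi => ?_, ?_, ?_⟩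
  · by_contra hcon
    have h12 := cl_dx up (t.drop p.2) (t.drop p.2).length
    unfold de at h9
    rw [h9, if_neg hcon] at h12
    revert h12
    decide
  · have := h8 i hi
    push_cast at this
    exact this
  · push_cast at g1
    exact g1
  · push_cast at g2
    exact g2

lemma tip_far {l : ℕ} {E : List Bool} (h : 2 ^ l < 32 * ip (en E) up) : (2 : ℝ) ^ l ≤ 64 * ‖JJ (vx oo up E E.length)‖ := by
  have h1 : (ip (en E) up : ℝ) ≤ 2 * ‖JJ (en E)‖ := by
    refine le_trans ?_ (NTSF.hn_le_JJ _)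
    exact_mod_cast ip_le_hn (en E) upd'
  have h2 : (2 : ℝ) ^ l < 32 * (ip (en E) up : ℝ) := by exact_mod_cast h
  show (2 : ℝ) ^ l ≤ 64 * ‖JJ (en E)‖
  linarith

lemma WG_even {l L : ℕ} {t : List Bool} (hev : Even t.length) (h : PWN.N0 l L {[]} t ≠ 0) : WG l (4 * 2 ^ L) t := by
  obtain ⟨a, ha, he, h1, h2, h3, h4, h5⟩ := n0_data h
  have hpos : (0 : ℤ) < 2 ^ l := by positivity
  have hlen : 0 < (t.drop a).length := by
    rcases Nat.eq_zero_or_pos (t.drop a).length with h0 | h0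
    · exfalso
      have : en (t.drop a) = oo := by
        unfold en
        rw [h0]
        rfl
      rw [this] at h4
      have : ip oo up = 0 := by decide
      omega
    · exact h0
  rw [List.length_drop] at hlen
  refine ⟨a, ?_, by omega, h1, fun i hi1 hi2 => ⟨h2 i hi1 hi2, (h3 i hi2).le⟩, _, le_rfl, tip_far h4⟩
  rw [List.length_drop] at he
  obtain ⟨x, hx⟩ := hev
  obtain ⟨y, hy⟩ := he
  exact ⟨x - y, by omega⟩

lemma step_sz : ∀ d ∈ dirs, -2 ≤ ip d up ∧ hn d ≤ 2 := by decide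

lemma WG_odd {l L : ℕ} (hl : 6 ≤ l) {t : List Bool} (hev : Even t.length) (x : Bool) (h : PWN.N0 l L {[]} t ≠ 0) :
    WG l (4 * 2 ^ L) (t ++ [x]) := by
  obtain ⟨a, ha, he, h1, h2, h3, h4, h5⟩ := n0_data h
  have hpos : (64 : ℤ) ≤ 2 ^ l := by
    calc (64 : ℤ) = 2 ^ 6 := by norm_num
      _ ≤ 2 ^ l := pow_le_pow_right₀ (by norm_num) hl
  have e1 : (t ++ [x]).take a = t.take a := List.take_append_of_le_length ha
  have e2 : (t ++ [x]).drop a = t.drop a ++ [x] := List.drop_append_of_le_length ha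
  have e3 : (t.drop a ++ [x]).length = (t.drop a).length + 1 := by simp
  refine ⟨a, ?_, by simp; omega, e1 ▸ h1, fun i hi1 hi2 => ?_, (t.drop a).length, ?_, ?_⟩
  · rw [List.length_drop] at he
    obtain ⟨x, hx⟩ := hev
    obtain ⟨y, hy⟩ := he
    exact ⟨x - y, by omega⟩
  · rw [e2] at hi2 ⊢
    rw [e3] at hi2
    rcases Nat.lt_or_ge (t.drop a).length i with h6 | h6
    · obtain rfl : i = (t.drop a).length + 1 := by omega
      obtain ⟨s1, s2⟩ := step_sz _ (dx_mem upd' (t.drop a ++ [x]) (t.drop a).length)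
      have e4 : vx oo up (t.drop a ++ [x]) ((t.drop a).length + 1) =
          en (t.drop a) + dx up (t.drop a ++ [x]) (t.drop a).length := by
        rw [vx_succ, vx_append (by omega)]
        rfl
      have s3 := hn_add (en (t.drop a)) (dx up (t.drop a ++ [x]) (t.drop a).length)
      rw [e4, ip_add_left]
      constructor
      · omega
      · omega
    · rw [vx_append (by omega)]
      exact ⟨h2 i hi1 h6, (h3 i h6).le⟩
  · rw [e2, e3]
    omega
  · rw [e2, vx_append (by omega)]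
    exact tip_far h4

/-! ### 3. The words without a gate are few -/

lemma chn_nil (L : ℕ) : SLW.Chn L {[]} where
  bu := by
    rintro V hV
    rw [Set.mem_singleton_iff.1 hV]
    exact TIP.nil_BU
  size := by
    rintro V hV i hi
    rw [Set.mem_singleton_iff.1 hV] at hi ⊢
    obtain rfl : i = 0 := by simpa using hi
    have h1 : hn (vx oo up [] 0) = 0 := by decide
    rw [h1]
    positivity
  uniq := by
    rintro V hV V' hV' _ _ _ _ _
    rw [Set.mem_singleton_iff.1 hV, Set.mem_singleton_iff.1 hV']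
  even := by
    rintro V hV
    rw [Set.mem_singleton_iff.1 hV]
    exact ⟨0, rfl⟩

lemma wD_nil : PWN.wD {[]} = 1 := by
  unfold PWN.wD
  rw [B2b_gf_singleton]
  unfold wE
  simp

theorem wg_few {ε : ℝ} (hε : 0 < ε) (s T : ℕ) : ∃ Λ k0 : ℕ, ∀ k N : ℕ, k0 ≤ k → TIP.Sc k N → Even N →
    ∀ n : ℕ, n = N ∨ n = N + 1 →
    (({t | t ∈ SawN n ∧ ¬ ∃ l : ℕ, k ≤ l + Λ ∧ l + T ≤ k ∧ WG l (4 * 2 ^ (l + s)) t}.ncard : ℕ) : ℝ) ≤ ε * cS n := by
  classical
  obtain ⟨c, hc, h1⟩ := PWN.smallN (ε / 8) (by positivity)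
  obtain ⟨M0, h2⟩ := h1 1 s one_pos
  obtain ⟨s', h3⟩ := h2 (M0 + 1) (by omega)
  obtain ⟨c0, l0, h4⟩ := h3 s' le_rfl
  obtain ⟨n0, h5⟩ := TIW.EF.ratio_pred
  obtain ⟨M, hM⟩ : ∃ M, M = M0 + 1 := ⟨_, rfl⟩
  rw [← hM] at h4
  obtain ⟨Λ, hΛ⟩ : ∃ Λ, Λ = M * (s + s') + T + s + c0 := ⟨_, rfl⟩
  refine ⟨Λ, Λ + l0 + 6 + n0 + 1, fun k N hk hS hev n hn => ?_⟩
  obtain ⟨lv, hlv⟩ : ∃ lv : ℕ → ℕ, ∀ i, lv i = k - Λ + i * (s + s') := ⟨_, fun _ => rfl⟩
  have hin : ∀ i, i < M → lv i + s + c0 ≤ k ∧ lv i + T ≤ k ∧ k ≤ lv i + Λ ∧ 6 ≤ lv i := by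
    intro i hi
    have h6 : i * (s + s') ≤ M * (s + s') := Nat.mul_le_mul_right _ hi.le
    rw [hlv]
    omega
  have hL : PWN.LvS M lv s s' 1 (fun _ => {[]}) := by
    refine ⟨fun i j hij _ => ?_, fun i _ => chn_nil _, fun i _ => ?_⟩
    · have h6 : (i + 1) * (s + s') ≤ j * (s + s') := Nat.mul_le_mul_right _ hij
      rw [hlv, hlv]
      rw [Nat.add_mul, one_mul] at h6
      omega
    · rw [wD_nil]
  have h6 := h4 k N lv (fun _ => {[]}) hS hL (by rw [hlv]; omega) (fun i hi => (hin i hi).1)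
  -- the bad words with N letters
  obtain ⟨B, hB⟩ : ∃ B : Finset (List Bool), B = (sawF N).filter fun t => ∀ i, i < M → PWN.N0 (lv i) (lv i + s) {[]} t = 0 :=
    ⟨_, rfl⟩
  have hBc : (B.card : ℝ) ≤ ε / 8 * cS N := by
    refine le_trans ?_ h6
    rw [Finset.card_eq_sum_ones, Nat.cast_sum, hB, Finset.sum_filter]
    refine Finset.sum_le_sum fun t _ => ?_
    split_ifs with h7
    · unfold PWN.smI
      rw [if_pos]
      · norm_num
      · unfold SLW.TW.Ta
        rw [Finset.sum_eq_zero]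
        · positivity
        · intro j hj
          rw [Finset.mem_Ico] at hj
          rw [h7 j hj.2, zero_div, zero_div]
    · unfold PWN.smI
      split_ifs <;> norm_num
  have hmem : ∀ t, t ∈ SawN N → t ∉ B → ∃ i, i < M ∧ PWN.N0 (lv i) (lv i + s) {[]} t ≠ 0 := by
    intro t ht htB
    by_contra hcon
    push Not at hcon
    apply htB
    rw [hB, Finset.mem_filter, mem_sawF]
    exact ⟨ht, hcon⟩
  rcases hn with rfl | rfl
  · have h7 : {t | t ∈ SawN n ∧ ¬ ∃ l : ℕ, k ≤ l + Λ ∧ l + T ≤ k ∧ WG l (4 * 2 ^ (l + s)) t} ⊆ (B : Set (List Bool)) := by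
      rintro t ⟨ht, hno⟩
      by_contra hcon
      obtain ⟨i, hi, h8⟩ := hmem t ht (by simpa using hcon)
      obtain ⟨g1, g2, g3, g4⟩ := hin i hi
      exact hno ⟨lv i, g3, g2, WG_even (by rw [ht.1]; exact hev) h8⟩
    have h8 := Set.ncard_le_ncard h7 B.finite_toSet
    rw [Set.ncard_coe_finset] at h8
    have h9 : ((({t | t ∈ SawN n ∧ ¬ ∃ l : ℕ, k ≤ l + Λ ∧ l + T ≤ k ∧ WG l (4 * 2 ^ (l + s)) t}.ncard : ℕ) : ℝ)) ≤ B.card := by
      exact_mod_cast h8
    have h10 : (0 : ℝ) ≤ cS n := Nat.cast_nonneg _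
    nlinarith
  · have h7 : {t | t ∈ SawN (N + 1) ∧ ¬ ∃ l : ℕ, k ≤ l + Λ ∧ l + T ≤ k ∧ WG l (4 * 2 ^ (l + s)) t} ⊆
        ((B.image fun t => t ++ [true]) ∪ (B.image fun t => t ++ [false]) : Finset (List Bool)) := by
      rintro t ⟨ht, hno⟩
      have hl := ht.1
      obtain ⟨t', x, rfl⟩ : ∃ (t' : List Bool) (x : Bool), t = t' ++ [x] := by
        rcases List.eq_nil_or_concat t with h8 | ⟨t', x, h8⟩
        · rw [h8] at hl
          simp at hl
        · exact ⟨t', x, by rw [h8, List.concat_eq_append]⟩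
      have hl' : t'.length = N := by
        rw [List.length_append, List.length_singleton] at hl
        omega
      have ht' : t' ∈ SawN N := by
        refine ⟨hl', fun i _ hi => Set.mem_univ _, fun i j hij hj => ?_⟩
        have h8 := ht.2.inj i j hij (by omega)
        rwa [vx_append (by omega), vx_append (by omega)] at h8
      have hB' : t' ∈ B := by
        by_contra hcon
        obtain ⟨i, hi, h8⟩ := hmem t' ht' hcon
        obtain ⟨g1, g2, g3, g4⟩ := hin i hi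
        exact hno ⟨lv i, g3, g2, WG_odd g4 (by rw [hl']; exact hev) x h8⟩
      rw [Finset.mem_coe, Finset.mem_union, Finset.mem_image, Finset.mem_image]
      cases x
      · exact Or.inr ⟨t', hB', rfl⟩
      · exact Or.inl ⟨t', hB', rfl⟩
    have h8 := Set.ncard_le_ncard h7 (Finset.finite_toSet _)
    rw [Set.ncard_coe_finset] at h8
    have h9 : ((B.image fun t => t ++ [true]) ∪ (B.image fun t => t ++ [false])).card ≤ B.card + B.card :=
      (Finset.card_union_le _ _).trans (add_le_add Finset.card_image_le Finset.card_image_le)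
    have h10 : ((({t | t ∈ SawN (N + 1) ∧ ¬ ∃ l : ℕ, k ≤ l + Λ ∧ l + T ≤ k ∧ WG l (4 * 2 ^ (l + s)) t}.ncard : ℕ) : ℝ)) ≤
        B.card + B.card := by
      exact_mod_cast h8.trans h9
    have hNk : n0 ≤ N + 1 := by
      have h11 : (2 : ℝ) ^ k ≤ N := by
        have h12 := NPR.mz_low 0 k
        have h13 := NPR.mz_one 0
        rw [zero_add] at h12
        have h14 : (2 : ℝ) ^ k ≤ 2 ^ k * PW.mZ (2 ^ 0) := by
          have : (0 : ℝ) < 2 ^ k := by positivity
          nlinarith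
        exact (h14.trans h12).trans hS.1
      have h12 : 2 ^ k ≤ N := by exact_mod_cast h11
      have h13 : k < 2 ^ k := Nat.lt_two_pow_self
      omega
    have h11 := h5 (N + 1) hNk
    have hc1 : (0 : ℝ) < cS (N + 1) := by exact TIW.EF.cp _
    rw [Nat.add_sub_cancel, div_le_iff₀ hc1] at h11
    nlinarith

/-! ### 4. The tip gates of the walks -/

lemma hol_pos {n : ℕ} (hn1 : 1 ≤ n) {s : Fin n → Fin 3} {M : NNReal} (h : HolderWith M (1 / 2) (curve s)) {i j : ℕ}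
    (hij : i ≤ j) (hj : j ≤ n) : ‖pos s j - pos s i‖ ≤ M * (((j : ℝ) - i) / n) ^ (1 / 2 : ℝ) * size n := by
  have h1 := h.dist_le (NTSF.Wd.tm n j) (NTSF.Wd.tm n i)
  rw [NTSF.Wd.curve_tm hn1 hj, NTSF.Wd.curve_tm hn1 (hij.trans hj), dist_eq_norm, ← sub_div, norm_div,
    Complex.norm_of_nonneg (NTSF.size_nonneg n), Subtype.dist_eq, Real.dist_eq, NTSF.Wd.tm_coe hj,
    NTSF.Wd.tm_coe (hij.trans hj), ← sub_div, abs_of_nonneg (div_nonneg (by
      have : (i : ℝ) ≤ j := by exact_mod_cast hij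
      linarith) (Nat.cast_nonneg n)), div_le_iff₀ (NTSF.size_pos hn1)] at h1
  have e : (((1 / 2 : NNReal)) : ℝ) = 1 / 2 := by norm_num
  rwa [e] at h1

lemma gate_disp {n : ℕ} {t : List Bool} (hl : t.length = n) {a j : ℕ} (ha : a ≤ n) (hj : j ≤ (t.drop a).length) (r : Fin 3) :
    ‖pos (rt r (sw n t)) (a + j) - pos (rt r (sw n t)) a‖ = ‖JJ (vx oo up (t.drop a) j)‖ := by
  have hlenE : (t.drop a).length = n - a := by rw [List.length_drop]; omega
  have hlen : (t.take a).length = a := by rw [List.length_take]; omega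
  rw [rt_dist, sw_dist t (by omega) (by omega)]
  have h1 := vx_app (t.take a) (t.drop a) j
  rw [List.take_append_drop, hlen] at h1
  have h2 : vx oo up t a = en (t.take a) := by
    unfold en
    rw [hlen]
    conv_lhs => rw [← List.take_append_drop a t]
    rw [vx_append (by omega)]
  rw [h1, h2, add_sub_cancel_left, NTSF.JJ_mulE, norm_mul, NTSF.uE_norm (nrm_rt _), one_mul]

/-- **row N** -/
theorem tipG : TipG := by
  classical
  intro ε A δ hε hA hδ
  obtain ⟨cs, Cs, k1, hcs, hCs, hsc⟩ := HexObs.CRT.size_sc (x1 := 1) (x2 := 2) one_pos one_lt_two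
  obtain ⟨-, -, -, -, -, hhol, -⟩ := NTSF.finE
  obtain ⟨s, hs⟩ := pow_unbounded_of_one_lt (A + 1) (one_lt_two (α := ℝ))
  obtain ⟨T, hT⟩ := pow_unbounded_of_one_lt (1 / (δ * cs)) (one_lt_two (α := ℝ))
  obtain ⟨Λ, k0, h1⟩ := wg_few (ε := ε / 2) (by positivity) s T
  obtain ⟨M, hM⟩ := hhol (1 / 2) (by norm_num) (by norm_num) (ε / 2) (by positivity)
  obtain ⟨q, hq⟩ : ∃ q : ℝ, q = 1 / (64 * Cs * 2 ^ Λ) := ⟨_, rfl⟩
  have hq0 : 0 < q := by rw [hq]; positivity
  have hM0 : (0 : ℝ) ≤ M := M.2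
  obtain ⟨η, hη⟩ : ∃ η : ℝ, η = (q / (M + 1)) ^ 2 := ⟨_, rfl⟩
  have hη0 : 0 < η := by rw [hη]; positivity
  refine ⟨1 / (Cs * 2 ^ Λ), η, by positivity, hη0, ⌈PW.mZ (2 ^ max k0 k1)⌉₊ + 2, fun n hn => ?_⟩
  obtain ⟨N, hN⟩ : ∃ N, N = 2 * (n / 2) := ⟨_, rfl⟩
  have hNn : n = N ∨ n = N + 1 := by omega
  have hev : Even N := ⟨n / 2, by omega⟩
  have hNz : PW.mZ (2 ^ max k0 k1) ≤ N := by
    refine (Nat.le_ceil _).trans ?_
    exact_mod_cast (by omega : ⌈PW.mZ (2 ^ max k0 k1)⌉₊ ≤ N)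
  obtain ⟨k, hk, hS⟩ := HexObs.CRT.sc_ex (max k0 k1) hNz
  have hn1 : 1 ≤ n := by omega
  have hN1 : 1 ≤ N := by omega
  have hn0 : (0 : ℝ) < n := by exact_mod_cast hn1
  obtain ⟨-, hz1, hz2⟩ := hsc k N (le_of_max_le_right hk) hS n (by
    rw [one_mul]
    exact_mod_cast (by omega : N ≤ n)) (by
    exact_mod_cast (by omega : n ≤ 2 * N))
  have hz := NTSF.size_pos hn1
  have hfew := h1 k N (le_of_max_le_left hk) hS hev n hNn
  -- the good walks have a gate
  obtain ⟨P, hP⟩ : ∃ P : (Fin n → Fin 3) → Prop, P = fun s => ¬ ∃ (q : Fin 3) (k : ℕ) (r : ℝ), 1 / (Cs * 2 ^ Λ) ≤ r ∧ r ≤ δ ∧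
    (k : ℝ) ≤ (1 - η) * n ∧ TG (r * size n) (A * r * size n) (rt q s) k := ⟨_, rfl⟩
  have key : ∀ (r : Fin 3) (t : List Bool), t ∈ SawN n → HolderWith M (1 / 2) (curve (rt r (sw n t))) → P (rt r (sw n t)) →
      ¬ ∃ l : ℕ, k ≤ l + Λ ∧ l + T ≤ k ∧ WG l (4 * 2 ^ (l + s)) t := by
    rintro r t ht hH hPt ⟨l, hl1, hl2, a, hae, han, hA1, hE, j, hj, hjd⟩
    rw [hP] at hPt
    apply hPt
    have htl := ht.1
    rw [htl] at han
    have h2l : (1 : ℝ) ≤ 2 ^ l := one_le_pow₀ (by norm_num)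
    obtain ⟨c, hc⟩ := gate_word (h := 2 ^ l) (ρ := 2 ^ l) (R := A * 2 ^ l) htl hae han hA1 (fun i h1 h2 => by
      have h3 := hE i h1 h2
      exact ⟨h3.1, by push_cast; exact h3.2⟩) (by push_cast; exact le_rfl) (by
      push_cast
      rw [pow_add]
      nlinarith)
    have hL1 : size n ≤ Cs * 2 ^ Λ * 2 ^ l := by
      refine hz2.trans ?_
      rw [mul_assoc, ← pow_add]
      refine mul_le_mul_of_nonneg_left (pow_le_pow_right₀ (by norm_num) (by omega)) hCs.le
    have hL2 : 2 ^ l ≤ δ * size n := by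
      have h3 : (2 : ℝ) ^ l * 2 ^ T ≤ 2 ^ k := by
        rw [← pow_add]
        exact pow_le_pow_right₀ (by norm_num) hl2
      have h4 : 1 ≤ δ * cs * 2 ^ T := by
        rw [div_lt_iff₀ (by positivity)] at hT
        linarith
      calc (2 : ℝ) ^ l = 1 * 2 ^ l := (one_mul _).symm
        _ ≤ δ * cs * 2 ^ T * 2 ^ l := mul_le_mul_of_nonneg_right h4 (by positivity)
        _ = δ * (cs * (2 ^ l * 2 ^ T)) := by ring
        _ ≤ δ * (cs * 2 ^ k) := by gcongr
        _ ≤ δ * size n := by gcongr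
    refine ⟨c - r, a, 2 ^ l / size n, ?_, ?_, ?_, ?_⟩
    · rw [div_le_div_iff₀ (by positivity) hz]
      linarith
    · rw [div_le_iff₀ hz]
      exact hL2
    · by_contra hcon
      push Not at hcon
      have hjn : a + j ≤ n := by
        rw [List.length_drop] at hj
        omega
      have h3 := hol_pos hn1 hH (i := a) (j := a + j) (by omega) hjn
      rw [gate_disp htl han.le hj] at h3
      have h4 : (((a + j : ℕ) : ℝ) - a) / n ≤ η := by
        rw [div_le_iff₀ hn0]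
        have h5 : ((a + j : ℕ) : ℝ) ≤ n := by exact_mod_cast hjn
        linarith
      have h5 : ((((a + j : ℕ) : ℝ) - a) / n) ^ (1 / 2 : ℝ) ≤ q / (M + 1) := by
        have h6 : (0 : ℝ) ≤ (((a + j : ℕ) : ℝ) - a) / n := by
          push_cast
          rw [add_sub_cancel_left]
          positivity
        refine (Real.rpow_le_rpow h6 h4 (by norm_num)).trans (le_of_eq ?_)
        rw [hη, ← Real.sqrt_eq_rpow, Real.sqrt_sq (by positivity)]
      have h6 : ‖JJ (vx oo up (t.drop a) j)‖ ≤ M * (q / (M + 1)) * size n := by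
        refine h3.trans ?_
        gcongr
      have h7 : (M : ℝ) * (q / (M + 1)) < q := by
        rw [mul_div_assoc', div_lt_iff₀ (by positivity)]
        nlinarith
      have h8 : q * size n ≤ ‖JJ (vx oo up (t.drop a) j)‖ := by
        have h9 : q * size n ≤ 2 ^ l / 64 := by
          rw [hq, div_mul_eq_mul_div, one_mul, div_le_div_iff₀ (by positivity) (by norm_num)]
          nlinarith
        linarith
      have h9 := mul_lt_mul_of_pos_right h7 hz
      linarith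
    · rw [rt_rt, add_sub_cancel, div_mul_cancel₀ _ hz.ne', mul_assoc, div_mul_cancel₀ _ hz.ne']
      exact hc
  -- the two parts
  obtain ⟨G, hG⟩ : ∃ G : Set C(unitInterval, ℂ), G = {γ : C(unitInterval, ℂ) | ¬ HolderWith M (1 / 2) γ} := ⟨_, rfl⟩
  obtain ⟨Q, hQ⟩ : ∃ Q : (Fin n → Fin 3) → Prop, Q = fun s => HolderWith M (1 / 2) (curve s) ∧ P s := ⟨_, rfl⟩
  have b1 : (((saw n).filter fun s => curve s ∈ G).card : ℝ) ≤ ε / 2 * ((saw n).card : ℝ) :=
    NTSF.Wd.card_of_law (by positivity) (hG ▸ hM n hn1)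
  have b2 : (((saw n).filter Q).card : ℝ) ≤ ε / 2 * ((saw n).card : ℝ) := by
    have hc0 : (0 : ℝ) < (saw n).card := by exact_mod_cast (NTSF.saw_nonempty n).card_pos
    rw [← div_le_iff₀ hc0, pub_eq (by omega) Q]
    have h2 : ∀ r : Fin 3, TOG.Pn n {t | Q (rt r (sw n t))} ≤ ε / 2 := by
      intro r
      unfold TOG.Pn
      rw [div_le_iff₀ (TIW.EF.cp n)]
      refine le_trans ?_ hfew
      have h3 : ({t | t ∈ SawN n ∧ t ∈ {t | Q (rt r (sw n t))}}).ncard ≤
          {t | t ∈ SawN n ∧ ¬ ∃ l : ℕ, k ≤ l + Λ ∧ l + T ≤ k ∧ WG l (4 * 2 ^ (l + s)) t}.ncard := by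
        refine Set.ncard_le_ncard ?_ ((SawN_finite n).subset fun t ht => ht.1)
        rintro t ⟨h4, h5⟩
        rw [Set.mem_ofPred_eq, hQ] at h5
        exact ⟨h4, key r t h4 h5.1 h5.2⟩
      exact_mod_cast h3
    rw [Fin.sum_univ_three, div_le_iff₀ (by norm_num)]
    have := h2 0
    have := h2 1
    have := h2 2
    linarith
  obtain ⟨K, hK⟩ : ∃ K : Finset (Fin n → Fin 3), K = (saw n).filter fun s => curve s ∈ G := ⟨_, rfl⟩
  obtain ⟨K', hK'⟩ : ∃ K' : Finset (Fin n → Fin 3), K' = (saw n).filter Q := ⟨_, rfl⟩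
  rw [← hK] at b1
  rw [← hK'] at b2
  have b4 : ((K ∪ K').card : ℝ) ≤ ε * ((saw n).card : ℝ) := by
    have h2 : ((K ∪ K').card : ℝ) ≤ K.card + K'.card := by exact_mod_cast Finset.card_union_le _ _
    linarith
  refine le_trans ?_ b4
  have b3 : ∀ X : Finset (Fin n → Fin 3), (∀ s ∈ X, s ∈ saw n ∧ P s) → (X.card : ℝ) ≤ ((K ∪ K').card : ℝ) := by
    intro X hX
    have h2 : X ⊆ K ∪ K' := by
      intro s hs
      obtain ⟨h3, h4⟩ := hX s hs
      rw [Finset.mem_union, hK, hK', Finset.mem_filter, Finset.mem_filter, hG, hQ]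
      by_cases h5 : HolderWith M (1 / 2) (curve s)
      · exact Or.inr ⟨h3, h5, h4⟩
      · exact Or.inl ⟨h3, h5⟩
    exact_mod_cast Finset.card_le_card h2
  refine b3 _ fun s hs => ?_
  rw [Finset.mem_filter] at hs
  exact ⟨hs.1, by rw [hP]; exact hs.2⟩

end Pool.Agent.CRT.R
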