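import Pool.Agent.CRT.ToRatB

/-!
# CRT, row K10 (helper66): from Q1 and the regular variation of the numbers of walks to the ratios of the susceptibilities

* `bad_null` : the exceptional radii; `part_lim` : the main part of the sum; `chi_lim` : the susceptibility of a domain;
* **`toRat_of`** : row K10.
-/

set_option autoImplicit false

open Set Filter Topology MeasureTheory
open scoped ENNReal

namespace Pool.Agent.CRT.K10

open Pool.Agent.NTS.Res
open Pool.Agent.NPR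

/-! ### the exceptional radii -/

lemma norm_sc {c : ℝ} (hc : 0 ≤ c) (γ : CI) : ‖sc c γ‖ = c * ‖γ‖ := by
  unfold sc
  rw [norm_smul, Complex.norm_real, Real.norm_of_nonneg hc]

lemma sc_joint : Continuous fun p : ℝ × CI => sc (p.1 ^ (3 / 4 : ℝ)) p.2 := by
  unfold sc
  have h1 : Continuous fun p : ℝ × CI => ((p.1 ^ (3 / 4 : ℝ) : ℝ) : ℂ) :=
    Complex.continuous_ofReal.comp ((Real.continuous_rpow_const (by norm_num)).comp continuous_fst)
  exact h1.smul continuous_snd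

lemma Hf_cont (F : Set ℂ) : Continuous (Hf F) := by
  have h : LipschitzWith 1 (Hf F) := LipschitzWith.of_dist_le_mul fun γ γ' => by
    rw [Real.dist_eq, dist_eq_norm, NNReal.coe_one, one_mul]
    exact Hf_lip F γ γ'
  exact h.continuous

/-- all but countably many radii are good for almost all times -/
lemma bad_null {ν : Measure CI} (hν : IsProbabilityMeasure ν) (F : Set ℂ) : ∃ S : Set ℝ, S.Countable ∧ ∀ t : ℝ, 0 < t →
    t ∉ S → ∀ᵐ x : ℝ, 0 < x → ν {γ | Gf F t (sc (x ^ (3 / 4 : ℝ)) γ) = 1} = 0 := by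
  have hm : Measurable fun p : ℝ × CI => Hf F (sc (p.1 ^ (3 / 4 : ℝ)) p.2) := ((Hf_cont F).comp sc_joint).measurable
  refine ⟨{t | 0 < ((volume : Measure ℝ).prod ν) {p | Hf F (sc (p.1 ^ (3 / 4 : ℝ)) p.2) = t}},
    Measure.countable_meas_level_set_pos hm, fun t ht hS => ?_⟩
  have h1 : ((volume : Measure ℝ).prod ν) {p | Hf F (sc (p.1 ^ (3 / 4 : ℝ)) p.2) = t} = 0 := by
    by_contra hcon
    exact hS (pos_iff_ne_zero.2 hcon)
  have h2 : ∀ᵐ x : ℝ, ν {γ | Hf F (sc (x ^ (3 / 4 : ℝ)) γ) = t} = 0 := by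
    have := (Measure.measure_prod_null (hm (measurableSet_singleton t))).1 h1
    exact this
  have hc : {s : ℝ | 0 < ν {γ : CI | ‖γ‖ = s}}.Countable :=
    Measure.countable_meas_level_set_pos (continuous_norm (E := CI)).measurable
  have h3 : ∀ᵐ x : ℝ, x ∉ (fun s : ℝ => (s⁻¹) ^ (4 / 3 : ℝ)) '' {s : ℝ | 0 < ν {γ : CI | ‖γ‖ = s}} :=
    (hc.image _).ae_notMem volume
  filter_upwards [h2, h3] with x hx2 hx3 hx
  have hx34 : 0 < x ^ (3 / 4 : ℝ) := Real.rpow_pos_of_pos hx _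
  have h4 : ν {γ : CI | ‖γ‖ = (x ^ (3 / 4 : ℝ))⁻¹} = 0 := by
    by_contra hcon
    refine hx3 ⟨(x ^ (3 / 4 : ℝ))⁻¹, pos_iff_ne_zero.2 hcon, ?_⟩
    simp only [inv_inv]
    rw [← Real.rpow_mul hx.le]
    norm_num
  refine measure_mono_null ?_ (measure_union_null hx2 h4)
  intro γ hγ
  have hγ' : max ‖sc (x ^ (3 / 4 : ℝ)) γ‖ (Hf F (sc (x ^ (3 / 4 : ℝ)) γ) / t) = 1 := hγ
  rcases le_total ‖sc (x ^ (3 / 4 : ℝ)) γ‖ (Hf F (sc (x ^ (3 / 4 : ℝ)) γ) / t) with h | h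
  · left
    rw [max_eq_right h, div_eq_one_iff_eq ht.ne'] at hγ'
    exact hγ'
  · right
    rw [max_eq_left h, norm_sc hx34.le] at hγ'
    show ‖γ‖ = (x ^ (3 / 4 : ℝ))⁻¹
    field_simp
    linarith

/-! ### the main part -/

section

variable {ν : Measure CI} (hν : IsProbabilityMeasure ν) (hq : LawTo (fun n => n) ν) (hsz : Tendsto size atTop atTop)
  (h1 : Tendsto (fun n : ℕ => size (n + 1) / size n) atTop (𝓝 1))
  (hS : ∀ lam : ℝ, 0 < lam → Tendsto (fun n : ℕ => size ⌊lam * n⌋₊ / size n) atTop (𝓝 (lam ^ (3 / 4 : ℝ))))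
  (hA : RVa) (hN : MassN)

include hsz

lemma floor_top {x : ℝ} (hx : 0 < x) : Tendsto (fun R : ℝ => ⌊x * (ix R : ℝ)⌋₊) atTop atTop :=
  tendsto_nat_floor_atTop.comp ((tendsto_natCast_atTop_atTop.comp (ix_top hsz)).const_mul_atTop hx)

include hν hq h1 hS

lemma gV_lim2 {F : Set ℂ} (hF : F.Nonempty) {t : ℝ} (ht : 0 < t) {x : ℝ} (hx : 0 < x)
    (h0 : ν {γ | Gf F t (sc (x ^ (3 / 4 : ℝ)) γ) = 1} = 0) :
    Tendsto (fun R : ℝ => gV R (Vt F t) ⌊x * (ix R : ℝ)⌋₊) atTop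
      (𝓝 (ν.real {γ | Gf F t (sc (x ^ (3 / 4 : ℝ)) γ) < 1})) := by
  refine tendsto_of_seq_tendsto fun r hr => ?_
  have hφ := (floor_top hsz hx).comp hr
  refine gV_lim hφ hν (fun f => (hq f).comp hφ) hr (c := x ^ (3 / 4 : ℝ)) ?_ hF ht h0
  have h2 : Tendsto (fun k => size ⌊x * (ix (r k) : ℝ)⌋₊ / size (ix (r k)) * (size (ix (r k)) / r k)) atTop
      (𝓝 (x ^ (3 / 4 : ℝ) * 1)) :=
    ((hS x hx).comp ((ix_top hsz).comp hr)).mul ((ix_size hsz h1).comp hr)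
  rw [mul_one] at h2
  refine h2.congr' ?_
  filter_upwards [((ix_top hsz).comp hr).eventually_ge_atTop 1] with k hk
  have hp : 0 < size (ix (r k)) := NTSF.size_pos hk
  show size ⌊x * (ix (r k) : ℝ)⌋₊ / size (ix (r k)) * (size (ix (r k)) / r k) = size ⌊x * (ix (r k) : ℝ)⌋₊ / r k
  field_simp

include hA hN

/-- **the main part of the sum** -/
theorem part_lim {F : Set ℂ} (hF : F.Nonempty) {t : ℝ} (ht : 0 < t)
    (h0 : ∀ᵐ x : ℝ, 0 < x → ν {γ | Gf F t (sc (x ^ (3 / 4 : ℝ)) γ) = 1} = 0) (L : ℕ) :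
    Tendsto (fun R : ℝ => ∫ x in (0 : ℝ)..(L : ℝ), aN ⌊x * (ix R : ℝ)⌋₊ / aN (ix R) * gV R (Vt F t) ⌊x * (ix R : ℝ)⌋₊)
      atTop (𝓝 (∫ x in (0 : ℝ)..(L : ℝ), x ^ (11 / 32 : ℝ) * ν.real {γ | Gf F t (sc (x ^ (3 / 4 : ℝ)) γ) < 1})) := by
  obtain ⟨c, C, hc, hC, hcC⟩ := hN
  have hL0 : (0 : ℝ) ≤ L := Nat.cast_nonneg L
  refine intervalIntegral.tendsto_integral_filter_of_dominated_convergence
    (fun _ => (aN 0 + C * (L : ℝ) ^ (11 / 32 : ℝ)) / c) ?_ ?_ intervalIntegrable_const ?_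
  · refine Eventually.of_forall fun R => Measurable.aestronglyMeasurable ?_
    have hm : Measurable fun x : ℝ => ⌊x * (ix R : ℝ)⌋₊ := Nat.measurable_floor.comp (measurable_id.mul_const _)
    exact (((measurable_of_countable aN).comp hm).div_const _).mul ((measurable_of_countable (gV R (Vt F t))).comp hm)
  · filter_upwards [(ix_top hsz).eventually_ge_atTop 1] with R hR
    refine Eventually.of_forall fun x hx => ?_
    rw [uIoc_of_le hL0] at hx
    have hN1 : (1 : ℝ) ≤ ix R := by exact_mod_cast hR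
    have hN2 : (1 : ℝ) ≤ (ix R : ℝ) ^ (11 / 32 : ℝ) := Real.one_le_rpow hN1 (by norm_num)
    have ha := aN_pos (ix R)
    rw [Real.norm_of_nonneg (mul_nonneg (div_nonneg (aN_nonneg _) ha.le) (gV_nonneg _ _ _))]
    have e1 : aN ⌊x * (ix R : ℝ)⌋₊ ≤ (aN 0 + C * (L : ℝ) ^ (11 / 32 : ℝ)) * (ix R : ℝ) ^ (11 / 32 : ℝ) := by
      rcases Nat.eq_zero_or_pos ⌊x * (ix R : ℝ)⌋₊ with h | h
      · rw [h]
        have h5 : 0 ≤ C * (L : ℝ) ^ (11 / 32 : ℝ) := by positivity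
        nlinarith [aN_nonneg 0, mul_nonneg (add_nonneg (aN_nonneg 0) h5) (sub_nonneg.2 hN2)]
      · have h3 : ((⌊x * (ix R : ℝ)⌋₊ : ℕ) : ℝ) ≤ L * ix R :=
          (Nat.floor_le (by nlinarith [hx.1])).trans (mul_le_mul_of_nonneg_right hx.2 (by linarith))
        have h4 : ((⌊x * (ix R : ℝ)⌋₊ : ℕ) : ℝ) ^ (11 / 32 : ℝ) ≤ (L : ℝ) ^ (11 / 32 : ℝ) * (ix R : ℝ) ^ (11 / 32 : ℝ) := by
          rw [← Real.mul_rpow hL0 (by linarith)]
          exact Real.rpow_le_rpow (Nat.cast_nonneg _) h3 (by norm_num)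
        calc aN ⌊x * (ix R : ℝ)⌋₊ ≤ C * ((⌊x * (ix R : ℝ)⌋₊ : ℕ) : ℝ) ^ (11 / 32 : ℝ) := (hcC _ h).2
          _ ≤ C * ((L : ℝ) ^ (11 / 32 : ℝ) * (ix R : ℝ) ^ (11 / 32 : ℝ)) := mul_le_mul_of_nonneg_left h4 hC.le
          _ = (C * (L : ℝ) ^ (11 / 32 : ℝ)) * (ix R : ℝ) ^ (11 / 32 : ℝ) := by ring
          _ ≤ _ := mul_le_mul_of_nonneg_right (by linarith [aN_nonneg 0]) (by linarith)
    have e2 : aN ⌊x * (ix R : ℝ)⌋₊ / aN (ix R) ≤ (aN 0 + C * (L : ℝ) ^ (11 / 32 : ℝ)) / c := by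
      rw [div_le_div_iff₀ ha hc]
      have h5 : 0 ≤ aN 0 + C * (L : ℝ) ^ (11 / 32 : ℝ) := add_nonneg (aN_nonneg 0) (by positivity)
      calc aN ⌊x * (ix R : ℝ)⌋₊ * c ≤ (aN 0 + C * (L : ℝ) ^ (11 / 32 : ℝ)) * (ix R : ℝ) ^ (11 / 32 : ℝ) * c :=
            mul_le_mul_of_nonneg_right e1 hc.le
        _ = (aN 0 + C * (L : ℝ) ^ (11 / 32 : ℝ)) * (c * (ix R : ℝ) ^ (11 / 32 : ℝ)) := by ring
        _ ≤ _ := mul_le_mul_of_nonneg_left (hcC _ hR).1 h5
    calc _ ≤ (aN 0 + C * (L : ℝ) ^ (11 / 32 : ℝ)) / c * 1 :=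
          mul_le_mul e2 (gV_le_one _ _ _) (gV_nonneg _ _ _) (div_nonneg (add_nonneg (aN_nonneg 0) (by positivity)) hc.le)
      _ = _ := mul_one _
  · filter_upwards [h0] with x hx hx2
    rw [uIoc_of_le hL0] at hx2
    exact ((hA x hx2.1).comp (ix_top hsz)).mul (gV_lim2 hν hq hsz h1 hS hF ht hx2.1 (hx hx2.1))

end

/-! ### the susceptibility -/

/-- the comparison with the weights in the ball -/
lemma term_le {R : ℝ} (hR : 0 < R) {V : Set ℂ} (hV : V ⊆ Metric.ball 0 1) (n : ℕ) :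
    aN n * gV R V n ≤ wR R n + if n = 0 then aN 0 else 0 := by
  rcases Nat.eq_zero_or_pos n with h | h
  · rw [h, if_pos rfl]
    have h1 : aN 0 * gV R V 0 ≤ aN 0 * 1 := mul_le_mul_of_nonneg_left (gV_le_one _ _ _) (aN_nonneg 0)
    have h2 : 0 ≤ wR R 0 := mul_nonneg (aN_nonneg 0) ENNReal.toReal_nonneg
    linarith
  · rw [if_neg h.ne', add_zero, ← gV_ball h hR]
    exact mul_le_mul_of_nonneg_left (gV_mono R hV n) (aN_nonneg n)

lemma summ_V (hsum : ∀ R : ℝ, 1 ≤ R → Summable fun n => wR R n) {R : ℝ} (hR : 1 ≤ R) {V : Set ℂ}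
    (hV : V ⊆ Metric.ball 0 1) : Summable fun n => aN n * gV R V n := by
  refine Summable.of_nonneg_of_le (fun n => mul_nonneg (aN_nonneg n) (gV_nonneg _ _ _)) (term_le (by linarith) hV) ?_
  exact (hsum R hR).add (hasSum_ite_eq 0 (aN 0)).summable

lemma cR_le_chi (hsum : ∀ R : ℝ, 1 ≤ R → Summable fun n => wR R n) {R : ℝ} (hR : 1 ≤ R) :
    cR R ≤ chi R (Metric.ball 0 1) := by
  classical
  rw [chi_eq]
  unfold cR
  refine Summable.tsum_le_tsum (fun n => ?_) (hsum R hR) (summ_V hsum hR subset_rfl)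
  rcases Nat.eq_zero_or_pos n with h | h
  · subst h
    have h1 : gV R (Metric.ball 0 1) 0 = 1 := by
      unfold gV
      have h2 := NTSF.saw_card_pos 0
      rw [div_eq_one_iff_eq h2.ne']
      congr 2
      refine Finset.filter_true_of_mem fun s _ k hk => ?_
      have hk0 : k = 0 := by omega
      rw [hk0, NTSF.pos_zero, zero_div]
      exact Metric.mem_ball_self one_pos
    rw [h1, mul_one]
    unfold wR
    have := law_isProb 0
    have h3 : (law 0 (inB R 0)).toReal ≤ 1 := by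
      have := prob_le_one (μ := law 0) (s := inB R 0)
      exact (ENNReal.toReal_mono ENNReal.one_ne_top this).trans (by simp)
    calc aN 0 * (law 0 (inB R 0)).toReal ≤ aN 0 * 1 := mul_le_mul_of_nonneg_left h3 (aN_nonneg 0)
      _ = _ := mul_one _
  · exact (gV_ball h (by linarith)).ge

/-- the numbers of steps and the radius -/
lemma rad_le (hZ : SizeN) (hN : MassN) (hsz : Tendsto size atTop atTop) : ∃ K1 K2 : ℝ, 0 < K1 ∧ 0 < K2 ∧ ∀ᶠ R : ℝ in atTop,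
    R ^ (4 / 3 : ℝ) ≤ K1 * ix R ∧ R ^ (43 / 24 : ℝ) ≤ K2 * (ix R * aN (ix R)) := by
  obtain ⟨c, C, hc, hcC⟩ := hZ
  obtain ⟨a, A, ha, -, haA⟩ := hN
  have hC : 0 < C := by
    have h := hcC 1 le_rfl
    rw [Nat.cast_one, Real.one_rpow, mul_one, mul_one] at h
    linarith
  refine ⟨C ^ (4 / 3 : ℝ), C ^ (43 / 24 : ℝ) / a, by positivity, by positivity, ?_⟩
  filter_upwards [eventually_ge_atTop 0, (ix_top hsz).eventually_ge_atTop 1] with R hR hi
  have hi0 : (0 : ℝ) < ix R := by exact_mod_cast hi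
  have h1 : R ≤ C * (ix R : ℝ) ^ (3 / 4 : ℝ) := (ix_lt hsz R).le.trans (hcC _ hi).2
  constructor
  · refine (Real.rpow_le_rpow hR h1 (by norm_num)).trans (le_of_eq ?_)
    rw [Real.mul_rpow hC.le (by positivity), ← Real.rpow_mul hi0.le]
    norm_num
  · calc R ^ (43 / 24 : ℝ) ≤ (C * (ix R : ℝ) ^ (3 / 4 : ℝ)) ^ (43 / 24 : ℝ) := Real.rpow_le_rpow hR h1 (by norm_num)
      _ = C ^ (43 / 24 : ℝ) * (ix R * (ix R : ℝ) ^ (11 / 32 : ℝ)) := by
          rw [Real.mul_rpow hC.le (by positivity), ← Real.rpow_mul hi0.le]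
          congr 1
          rw [← Real.rpow_one_add' hi0.le (by norm_num)]
          norm_num
      _ = C ^ (43 / 24 : ℝ) / a * (ix R * (a * (ix R : ℝ) ^ (11 / 32 : ℝ))) := by field_simp
      _ ≤ _ := by
          refine mul_le_mul_of_nonneg_left (mul_le_mul_of_nonneg_left (haA _ hi).1 hi0.le) (by positivity)

section

variable {ν : Measure CI} (hν : IsProbabilityMeasure ν) (hq : LawTo (fun n => n) ν) (hsz : Tendsto size atTop atTop)
  (h1 : Tendsto (fun n : ℕ => size (n + 1) / size n) atTop (𝓝 1))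
  (hS : ∀ lam : ℝ, 0 < lam → Tendsto (fun n : ℕ => size ⌊lam * n⌋₊ / size n) atTop (𝓝 (lam ^ (3 / 4 : ℝ))))
  (hA : RVa) (hN : MassN) (hZ : SizeN) (hT : MassT) (hsum : ∀ R : ℝ, 1 ≤ R → Summable fun n => wR R n)

include hν hq hsz h1 hS hA hN hZ hT hsum

/-- **the susceptibility of a domain** -/
theorem chi_lim {F : Set ℂ} (hF : F.Nonempty) {t : ℝ} (ht : 0 < t)
    (h0 : ∀ᵐ x : ℝ, 0 < x → ν {γ | Gf F t (sc (x ^ (3 / 4 : ℝ)) γ) = 1} = 0) :
    ∃ l : ℝ, Tendsto (fun R : ℝ => chi R (Vt F t) / (ix R * aN (ix R))) atTop (𝓝 l) := by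
  obtain ⟨K1, K2, hK1, hK2, hK⟩ := rad_le hZ hN hsz
  refine tendsto_of_near fun ε hε => ?_
  obtain ⟨Lam, R0, hLam, hR0, hT'⟩ := hT (ε / (2 * K2)) (by positivity)
  obtain ⟨L, hL⟩ := exists_nat_gt (Lam * K1)
  obtain ⟨l, hp⟩ : ∃ l : ℝ, Tendsto (fun R : ℝ => ∫ x in (0 : ℝ)..(L : ℝ),
      aN ⌊x * (ix R : ℝ)⌋₊ / aN (ix R) * gV R (Vt F t) ⌊x * (ix R : ℝ)⌋₊) atTop (𝓝 l) :=
    ⟨_, part_lim hν hq hsz h1 hS hA hN hF ht h0 L⟩
  refine ⟨l, ?_⟩
  have hp2 := (Metric.tendsto_nhds.1 hp) (ε / 2) (by positivity)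
  filter_upwards [hp2, hK, (ix_top hsz).eventually_ge_atTop 1, eventually_ge_atTop 1, eventually_ge_atTop R0] with
    R hd hKR hi hR1 hRR
  have hR : 0 < R := by linarith
  have hi0 : (0 : ℝ) < ix R := by exact_mod_cast hi
  have ha := aN_pos (ix R)
  have hV : Vt F t ⊆ Metric.ball 0 1 := inter_subset_left
  have hsV := summ_V hsum hR1 hV
  have hD : 0 < ix R * aN (ix R) := by positivity
  -- the main part
  have e1 : ∫ x in (0 : ℝ)..(L : ℝ), aN ⌊x * (ix R : ℝ)⌋₊ / aN (ix R) * gV R (Vt F t) ⌊x * (ix R : ℝ)⌋₊ =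
      (∑ n ∈ Finset.range (L * ix R), aN n * gV R (Vt F t) n) / (ix R * aN (ix R)) := by
    have h := step_scale (fun n => aN n / aN (ix R) * gV R (Vt F t) n) hi L
    rw [h, Finset.sum_div, Finset.mul_sum]
    refine Finset.sum_congr rfl fun n _ => ?_
    field_simp
  -- the tail
  have e2 : chi R (Vt F t) = ∑ n ∈ Finset.range (L * ix R), aN n * gV R (Vt F t) n +
      ∑' n, aN (n + L * ix R) * gV R (Vt F t) (n + L * ix R) := by
    rw [chi_eq]
    exact (hsV.sum_add_tsum_nat_add (L * ix R)).symm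
  have hin : ∀ n : ℕ, Lam * R ^ (4 / 3 : ℝ) < ((n + L * ix R : ℕ) : ℝ) := by
    intro n
    push_cast
    calc Lam * R ^ (4 / 3 : ℝ) ≤ Lam * (K1 * ix R) := mul_le_mul_of_nonneg_left hKR.1 hLam.le
      _ = Lam * K1 * ix R := by ring
      _ < L * ix R := mul_lt_mul_of_pos_right hL hi0
      _ ≤ _ := by linarith [Nat.cast_nonneg (α := ℝ) n]
  have hLi : 1 ≤ L * ix R := by
    have h3 : (0 : ℝ) < L := lt_trans (by positivity) hL
    have h4 : 0 < L := by exact_mod_cast h3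
    exact Nat.mul_pos h4 hi
  have hw0 : ∀ n : ℕ, 0 ≤ wR R n := fun n => mul_nonneg (aN_nonneg n) ENNReal.toReal_nonneg
  have hsI : Summable fun n : ℕ => (if Lam * R ^ (4 / 3 : ℝ) < n then wR R n else 0) := by
    refine Summable.of_nonneg_of_le (fun n => ?_) (fun n => ?_) (hsum R hR1)
    · split_ifs
      · exact hw0 n
      · exact le_rfl
    · split_ifs
      · exact le_rfl
      · exact hw0 n
  have e3 : ∑' n, aN (n + L * ix R) * gV R (Vt F t) (n + L * ix R) ≤ ε / (2 * K2) * R ^ (43 / 24 : ℝ) := by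
    refine le_trans ?_ (hT' R hRR)
    have h5 := hsI.sum_add_tsum_nat_add (L * ix R)
    have h6 : ∑' n, aN (n + L * ix R) * gV R (Vt F t) (n + L * ix R) ≤
        ∑' n : ℕ, (if Lam * R ^ (4 / 3 : ℝ) < ((n + L * ix R : ℕ) : ℝ) then wR R (n + L * ix R) else 0) := by
      refine Summable.tsum_le_tsum (fun n => ?_) ((summable_nat_add_iff _).2 hsV) ((summable_nat_add_iff (L * ix R)).2 hsI)
      rw [if_pos (hin n), ← gV_ball (by omega) hR]
      exact mul_le_mul_of_nonneg_left (gV_mono R hV _) (aN_nonneg _)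
    refine h6.trans ?_
    rw [← h5]
    have h7 : 0 ≤ ∑ n ∈ Finset.range (L * ix R), (if Lam * R ^ (4 / 3 : ℝ) < (n : ℝ) then wR R n else 0) := by
      refine Finset.sum_nonneg fun n _ => ?_
      split_ifs
      · exact hw0 n
      · exact le_rfl
    linarith
  have e4 : 0 ≤ ∑' n, aN (n + L * ix R) * gV R (Vt F t) (n + L * ix R) :=
    tsum_nonneg fun n => mul_nonneg (aN_nonneg _) (gV_nonneg _ _ _)
  have e5 : (∑' n, aN (n + L * ix R) * gV R (Vt F t) (n + L * ix R)) / (ix R * aN (ix R)) ≤ ε / 2 := by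
    rw [div_le_iff₀ hD]
    refine e3.trans ((mul_le_mul_of_nonneg_left hKR.2 (by positivity)).trans (le_of_eq ?_))
    field_simp
  have e6 : 0 ≤ (∑' n, aN (n + L * ix R) * gV R (Vt F t) (n + L * ix R)) / (ix R * aN (ix R)) := div_nonneg e4 hD.le
  rw [Real.dist_eq, e1, abs_lt] at hd
  rw [e2, add_div, abs_le]
  constructor <;> linarith [hd.1, hd.2]

end

/-- **row K10** -/
theorem toRat_of (hreg : RegSz) (hB : MassB) (hT : MassT) (hsum : ∀ R : ℝ, 1 ≤ R → Summable fun n => wR R n)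
    (hN : MassN) (hZ : SizeN) (h1 : Tendsto (fun n : ℕ => size (n + 1) / size n) atTop (𝓝 1)) : ToRat := by
  intro hQ hA F hF
  have hS := hreg hQ
  obtain ⟨ν, hν, hq⟩ := hQ
  have hsz : Tendsto size atTop atTop := by
    obtain ⟨c, C, hc, hcC⟩ := hZ
    have h2 : Tendsto (fun n : ℕ => c * (n : ℝ) ^ (3 / 4 : ℝ)) atTop atTop :=
      ((tendsto_rpow_atTop (by norm_num)).comp tendsto_natCast_atTop_atTop).const_mul_atTop hc
    refine tendsto_atTop_mono' _ ?_ h2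
    filter_upwards [eventually_ge_atTop 1] with n hn
    exact (hcC n hn).1
  have hF' : (F : Set ℂ).Nonempty := hF
  -- the ball
  obtain ⟨S0, hS0, hg0⟩ := bad_null hν ({0} : Set ℂ)
  obtain ⟨t0, ht0, ht0'⟩ : ∃ t0 : ℝ, 1 < t0 ∧ t0 ∉ S0 := by
    have hd := (hS0.dense_compl ℝ).exists_mem_open (isOpen_Ioi (a := (1 : ℝ))) ⟨2, by norm_num⟩
    obtain ⟨t0, h2, h3⟩ := hd
    exact ⟨t0, h3, h2⟩
  have hball : Vt ({0} : Set ℂ) t0 = Metric.ball 0 1 := by
    ext z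
    rw [mem_Vt (singleton_nonempty _), Metric.infDist_singleton, dist_zero_right, mem_ball_zero_iff]
    exact ⟨fun h => h.1, fun h => ⟨h, h.trans ht0⟩⟩
  obtain ⟨lB, hlB⟩ := chi_lim hν hq hsz h1 hS hA hN hZ hT hsum (singleton_nonempty (0 : ℂ)) (by linarith : (0 : ℝ) < t0)
    (hg0 t0 (by linarith) ht0')
  rw [hball] at hlB
  -- the lower bound
  have hlB0 : 0 < lB := by
    obtain ⟨b, B, R0, hb, hR0, hbB⟩ := hB
    obtain ⟨c, C, hc, hcC⟩ := hZ
    obtain ⟨a, A, ha, hA', haA⟩ := hN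
    have hlow : ∀ᶠ R : ℝ in atTop, b / (A * (2 / c) ^ (43 / 24 : ℝ)) ≤
        chi R (Metric.ball 0 1) / (ix R * aN (ix R)) := by
      have hev := (tendsto_order.1 (ix_size hsz h1)).2 2 (by norm_num)
      filter_upwards [hev, (ix_top hsz).eventually_ge_atTop 1, eventually_ge_atTop 1, eventually_ge_atTop R0] with
        R h2 hi hR1 hRR
      have hR : 0 < R := by linarith
      have hi0 : (0 : ℝ) < ix R := by exact_mod_cast hi
      rw [div_lt_iff₀ hR] at h2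
      have h3 : (ix R : ℝ) ^ (3 / 4 : ℝ) ≤ 2 / c * R := by
        have := (hcC _ hi).1
        rw [div_mul_eq_mul_div, le_div_iff₀ hc]
        linarith
      have h4 : ix R * aN (ix R) ≤ A * (2 / c) ^ (43 / 24 : ℝ) * R ^ (43 / 24 : ℝ) := by
        calc ix R * aN (ix R) ≤ ix R * (A * (ix R : ℝ) ^ (11 / 32 : ℝ)) :=
              mul_le_mul_of_nonneg_left (haA _ hi).2 hi0.le
          _ = A * (ix R * (ix R : ℝ) ^ (11 / 32 : ℝ)) := by ring
          _ = A * ((ix R : ℝ) ^ (3 / 4 : ℝ)) ^ (43 / 24 : ℝ) := by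
              rw [← Real.rpow_mul hi0.le, ← Real.rpow_one_add' hi0.le (by norm_num)]
              norm_num
          _ ≤ A * (2 / c * R) ^ (43 / 24 : ℝ) :=
              mul_le_mul_of_nonneg_left (Real.rpow_le_rpow (by positivity) h3 (by norm_num)) hA'.le
          _ = _ := by rw [Real.mul_rpow (by positivity) hR.le]; ring
      have h5 : b * R ^ (43 / 24 : ℝ) ≤ chi R (Metric.ball 0 1) := (hbB R hRR).1.trans (cR_le_chi hsum hR1)
      have hD : 0 < ix R * aN (ix R) := mul_pos hi0 (aN_pos _)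
      rw [div_le_div_iff₀ (by positivity) hD]
      calc b * (ix R * aN (ix R)) ≤ b * (A * (2 / c) ^ (43 / 24 : ℝ) * R ^ (43 / 24 : ℝ)) :=
            mul_le_mul_of_nonneg_left h4 hb.le
        _ = b * R ^ (43 / 24 : ℝ) * (A * (2 / c) ^ (43 / 24 : ℝ)) := by ring
        _ ≤ _ := mul_le_mul_of_nonneg_right h5 (by positivity)
    exact lt_of_lt_of_le (by positivity) (ge_of_tendsto hlB hlow)
  -- the domain
  obtain ⟨S, hSc, hg⟩ := bad_null hν (F : Set ℂ)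
  filter_upwards [hSc.ae_notMem volume] with t htS ht
  obtain ⟨l, hl⟩ := chi_lim hν hq hsz h1 hS hA hN hZ hT hsum hF' ht (hg t ht htS)
  refine ⟨l / lB, (hl.div hlB hlB0.ne').congr' ?_⟩
  filter_upwards [(ix_top hsz).eventually_ge_atTop 1] with R hi
  have hi0 : (0 : ℝ) < ix R := by exact_mod_cast hi
  have hD : (ix R : ℝ) * aN (ix R) ≠ 0 := (mul_pos hi0 (aN_pos _)).ne'
  show chi R (Vt F t) / (ix R * aN (ix R)) / (chi R (Metric.ball 0 1) / (ix R * aN (ix R))) = _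
  rw [div_div_div_cancel_right₀ hD]
  rfl

end Pool.Agent.CRT.K10
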