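import Pool.Agent.CRT.Defs
import Pool.Agent.NPR.Wd

/-!
# CRT, row K10, first part (helper66): proportions of the walks in a scaled domain

* `sq_lim` : the limit of the proportions that are squeezed between `G < 1` and `G ≤ 1 + δ k`, `G` a functional of the scaled
  curve;
* `gV R V n` : the proportion of the walks with `n` steps all of whose vertices are in `R • V`; `gV_lim`.
-/

set_option autoImplicit false

open Set Filter Topology MeasureTheory
open scoped ENNReal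

namespace Pool.Agent.CRT.K10

open Pool.Agent.NTS.Res
open Pool.Agent.NPR

/-- the part of a number in `[0, 1]` -/
noncomputable def cut (x : ℝ) : ℝ := max 0 (min 1 x)

lemma cut_cont : Continuous cut := continuous_const.max (continuous_const.min continuous_id)

lemma cut_nonneg (x : ℝ) : 0 ≤ cut x := le_max_left _ _

lemma cut_le_one (x : ℝ) : cut x ≤ 1 := max_le zero_le_one (min_le_left _ _)

lemma cut_one {x : ℝ} (h : 1 ≤ x) : cut x = 1 := by
  unfold cut
  rw [min_eq_left h, max_eq_right zero_le_one]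

lemma cut_zero {x : ℝ} (h : x ≤ 0) : cut x = 0 := by
  unfold cut
  rw [min_eq_right (h.trans zero_le_one), max_eq_left h]

lemma cut_lip (x y : ℝ) : |cut x - cut y| ≤ |x - y| := by
  unfold cut
  rw [max_comm 0 (min 1 x), max_comm 0 (min 1 y)]
  refine (abs_max_sub_max_le_abs _ _ _).trans ?_
  refine (abs_min_sub_min_le_max _ _ _ _).trans ?_
  rw [sub_self, abs_zero]
  exact max_le (abs_nonneg _) le_rfl

lemma sc_apply (c : ℝ) (γ : CI) (u : unitInterval) : sc c γ u = c * γ u := rfl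

lemma sc_cont (c : ℝ) : Continuous (sc c) := continuous_const_smul _

lemma law_isProb (n : ℕ) : IsProbabilityMeasure (law n) := NTSF.law_prob n

/-- the mean of the small multiples of the norm -/
lemma small_mean {ν : Measure CI} (hν : IsProbabilityMeasure ν) {ε : ℝ} (hε : 0 < ε) :
    ∃ η : ℝ, 0 < η ∧ ∫ γ, min 1 (η * ‖γ‖) ∂ν < ε := by
  have h : Tendsto (fun j : ℕ => ∫ γ : CI, min 1 (1 / ((j : ℝ) + 1) * ‖γ‖) ∂ν) atTop (𝓝 (∫ _γ : CI, (0 : ℝ) ∂ν)) := by
    refine tendsto_integral_of_dominated_convergence (fun _ => 1) (fun j => ?_) (integrable_const _) (fun j => ?_) ?_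
    · exact (by fun_prop : Continuous fun γ : CI => min 1 (1 / ((j : ℝ) + 1) * ‖γ‖)).aestronglyMeasurable
    · refine Eventually.of_forall fun γ => ?_
      rw [Real.norm_of_nonneg (le_min zero_le_one (by positivity))]
      exact min_le_left _ _
    · refine Eventually.of_forall fun γ => ?_
      have h1 : Tendsto (fun j : ℕ => 1 / ((j : ℝ) + 1) * ‖γ‖) atTop (𝓝 (0 * ‖γ‖)) :=
        tendsto_one_div_add_atTop_nhds_zero_nat.mul_const _
      rw [zero_mul] at h1
      have h2 := (tendsto_const_nhds (x := (1 : ℝ))).min h1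
      rwa [min_eq_right zero_le_one] at h2
  rw [integral_zero] at h
  obtain ⟨j, hj⟩ := ((tendsto_order.1 h).2 ε hε).exists
  exact ⟨1 / ((j : ℝ) + 1), by positivity, hj⟩

/-- means of Lipschitz functions of the scaled curve -/
lemma mean_lim {φ : ℕ → ℕ} {ν : Measure CI} (hν : IsProbabilityMeasure ν) (hl : LawTo φ ν) {G : CI → ℝ} (hG : Continuous G)
    {L : ℝ} (hL : ∀ (a b : ℝ) (γ : CI), |G (sc a γ) - G (sc b γ)| ≤ L * |a - b| * ‖γ‖) {c : ℝ} {cs : ℕ → ℝ}
    (hc : Tendsto cs atTop (𝓝 c)) {f : ℝ → ℝ} (hf : Continuous f) (hf0 : ∀ x, 0 ≤ f x) (hf1 : ∀ x, f x ≤ 1) {M : ℝ}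
    (hM : 0 ≤ M) (hfM : ∀ x y, |f x - f y| ≤ M * |x - y|) :
    Tendsto (fun k => ∫ γ, f (G (sc (cs k) γ)) ∂(law (φ k))) atTop (𝓝 (∫ γ, f (G (sc c γ)) ∂ν)) := by
  have hp : ∀ k, IsProbabilityMeasure (law (φ k)) := fun k => law_isProb _
  have hfc : ∀ c : ℝ, Continuous fun γ : CI => f (G (sc c γ)) := fun c => hf.comp (hG.comp (sc_cont c))
  have hint : ∀ (μ : Measure CI) [IsProbabilityMeasure μ] (c : ℝ), Integrable (fun γ : CI => f (G (sc c γ))) μ := by
    intro μ _ c
    refine (integrable_const (1 : ℝ)).mono' (hfc c).aestronglyMeasurable (Eventually.of_forall fun γ => ?_)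
    rw [Real.norm_of_nonneg (hf0 _)]
    exact hf1 _
  have h1 : Tendsto (fun k => ∫ γ, f (G (sc c γ)) ∂(law (φ k))) atTop (𝓝 (∫ γ, f (G (sc c γ)) ∂ν)) :=
    hl (BoundedContinuousFunction.ofNormedAddCommGroup _ (hfc c) 1 fun γ => by
      rw [Real.norm_of_nonneg (hf0 _)]
      exact hf1 _)
  have h2 : Tendsto (fun k => ∫ γ, f (G (sc (cs k) γ)) ∂(law (φ k)) - ∫ γ, f (G (sc c γ)) ∂(law (φ k))) atTop (𝓝 0) := by
    rw [Metric.tendsto_atTop]
    intro ε hε
    obtain ⟨η, hη, hη2⟩ := small_mean hν hε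
    have e1 : Tendsto (fun k => ∫ γ, min 1 (η * ‖γ‖) ∂(law (φ k))) atTop (𝓝 (∫ γ, min 1 (η * ‖γ‖) ∂ν)) :=
      hl (BoundedContinuousFunction.ofNormedAddCommGroup (fun γ : CI => min 1 (η * ‖γ‖)) (by fun_prop) 1 fun γ => by
        rw [Real.norm_of_nonneg (le_min zero_le_one (by positivity))]
        exact min_le_left _ _)
    have e2 : Tendsto (fun k => M * (L * |cs k - c|)) atTop (𝓝 0) := by
      have : Tendsto (fun k => M * (L * |cs k - c|)) atTop (𝓝 (M * (L * |c - c|))) :=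
        ((hc.sub_const c).abs.const_mul L).const_mul M
      rwa [sub_self, abs_zero, mul_zero, mul_zero] at this
    have ev := ((tendsto_order.1 e1).2 ε hη2).and ((tendsto_order.1 e2).2 η hη)
    obtain ⟨k0, hk0⟩ := eventually_atTop.1 ev
    refine ⟨k0, fun k hk => ?_⟩
    obtain ⟨a1, a2⟩ := hk0 k hk
    rw [dist_zero_right, Real.norm_eq_abs, ← integral_sub (hint _ _) (hint _ _)]
    refine lt_of_le_of_lt (abs_integral_le_integral_abs) (lt_of_le_of_lt ?_ a1)
    refine integral_mono ((hint _ _).sub (hint _ _)).abs ?_ fun γ => ?_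
    · refine (integrable_const (1 : ℝ)).mono'
        (by fun_prop : Continuous fun γ : CI => min 1 (η * ‖γ‖)).aestronglyMeasurable (Eventually.of_forall fun γ => ?_)
      rw [Real.norm_of_nonneg (le_min zero_le_one (by positivity))]
      exact min_le_left _ _
    · refine le_min ?_ ?_
      · rw [abs_le]
        constructor <;> linarith [hf0 (G (sc (cs k) γ)), hf1 (G (sc (cs k) γ)), hf0 (G (sc c γ)), hf1 (G (sc c γ))]
      · refine (hfM _ _).trans ((mul_le_mul_of_nonneg_left (hL _ _ γ) hM).trans ?_)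
        calc M * (L * |cs k - c| * ‖γ‖) = M * (L * |cs k - c|) * ‖γ‖ := by ring
          _ ≤ η * ‖γ‖ := mul_le_mul_of_nonneg_right a2.le (norm_nonneg _)
  have h3 := h2.add h1
  rw [zero_add] at h3
  refine h3.congr fun k => ?_
  ring

/-- **squeezed proportions** -/
theorem sq_lim {φ : ℕ → ℕ} {ν : Measure CI} (hν : IsProbabilityMeasure ν) (hl : LawTo φ ν) {G : CI → ℝ} (hG : Continuous G)
    {L : ℝ} (hL : ∀ (a b : ℝ) (γ : CI), |G (sc a γ) - G (sc b γ)| ≤ L * |a - b| * ‖γ‖) {c : ℝ} {cs δ p : ℕ → ℝ}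
    (hc : Tendsto cs atTop (𝓝 c)) (hδ : Tendsto δ atTop (𝓝 0))
    (h1 : ∀ᶠ k in atTop, (law (φ k)).real {γ | G (sc (cs k) γ) < 1} ≤ p k)
    (h2 : ∀ᶠ k in atTop, p k ≤ (law (φ k)).real {γ | G (sc (cs k) γ) ≤ 1 + δ k}) (h0 : ν {γ | G (sc c γ) = 1} = 0) :
    Tendsto p atTop (𝓝 (ν.real {γ | G (sc c γ) < 1})) := by
  have hp : ∀ k, IsProbabilityMeasure (law (φ k)) := fun k => law_isProb _
  have hGm : ∀ c : ℝ, Measurable fun γ : CI => G (sc c γ) := fun c => (hG.comp (sc_cont c)).measurable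
  -- indicator functions
  have hlow : ∀ (μ : Measure CI) [IsProbabilityMeasure μ] (c x : ℝ) (f : ℝ → ℝ), Continuous f → (∀ y, 0 ≤ f y) →
      (∀ y, f y ≤ 1) → (∀ y, x ≤ y → f y = 0) → ∫ γ, f (G (sc c γ)) ∂μ ≤ μ.real {γ | G (sc c γ) < x} := by
    intro μ _ c x f hf f0 f1 f2
    have hS : MeasurableSet {γ : CI | G (sc c γ) < x} := measurableSet_lt (hGm c) measurable_const
    rw [← integral_indicator_one hS]
    refine integral_mono ?_ ((integrable_const (1 : ℝ)).indicator hS) fun γ => ?_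
    · refine (integrable_const (1 : ℝ)).mono' (hf.comp (hG.comp (sc_cont c))).aestronglyMeasurable
        (Eventually.of_forall fun γ => ?_)
      rw [Real.norm_of_nonneg (f0 _)]
      exact f1 _
    · by_cases h : G (sc c γ) < x
      · rw [indicator_of_mem (show γ ∈ {γ : CI | G (sc c γ) < x} from h)]
        exact f1 _
      · rw [indicator_of_notMem (show γ ∉ {γ : CI | G (sc c γ) < x} from h)]
        exact (f2 _ (not_lt.1 h)).le
  have hup : ∀ (μ : Measure CI) [IsProbabilityMeasure μ] (c x : ℝ) (f : ℝ → ℝ), Continuous f → (∀ y, 0 ≤ f y) →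
      (∀ y, f y ≤ 1) → (∀ y, y ≤ x → f y = 1) → μ.real {γ | G (sc c γ) ≤ x} ≤ ∫ γ, f (G (sc c γ)) ∂μ := by
    intro μ _ c x f hf f0 f1 f2
    have hS : MeasurableSet {γ : CI | G (sc c γ) ≤ x} := measurableSet_le (hGm c) measurable_const
    rw [← integral_indicator_one hS]
    refine integral_mono ((integrable_const (1 : ℝ)).indicator hS) ?_ fun γ => ?_
    · refine (integrable_const (1 : ℝ)).mono' (hf.comp (hG.comp (sc_cont c))).aestronglyMeasurable
        (Eventually.of_forall fun γ => ?_)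
      rw [Real.norm_of_nonneg (f0 _)]
      exact f1 _
    · by_cases h : G (sc c γ) ≤ x
      · rw [indicator_of_mem (show γ ∈ {γ : CI | G (sc c γ) ≤ x} from h)]
        exact (f2 _ h).ge
      · rw [indicator_of_notMem (show γ ∉ {γ : CI | G (sc c γ) ≤ x} from h)]
        exact f0 _
  -- the ramps
  have ramp : ∀ {ε : ℝ} (_ : 0 < ε) (y : ℝ), Tendsto (fun k => ∫ γ, cut ((y - G (sc (cs k) γ)) / ε) ∂(law (φ k))) atTop
      (𝓝 (∫ γ, cut ((y - G (sc c γ)) / ε) ∂ν)) := by
    intro ε hε y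
    refine mean_lim hν hl hG hL hc (f := fun x => cut ((y - x) / ε)) (cut_cont.comp (by fun_prop)) (fun x => cut_nonneg _)
      (fun x => cut_le_one _) (M := 1 / ε) (by positivity) fun x z => ?_
    refine (cut_lip _ _).trans (le_of_eq ?_)
    rw [← sub_div, abs_div, abs_of_pos hε, div_eq_inv_mul, one_div]
    congr 1
    rw [show y - x - (y - z) = -(x - z) by ring, abs_neg]
  have hej : ∀ j : ℕ, (0 : ℝ) < 1 / ((j : ℝ) + 1) := fun j => by positivity
  have hlimj : Tendsto (fun j : ℕ => 1 / ((j : ℝ) + 1)) atTop (𝓝 0) := tendsto_one_div_add_atTop_nhds_zero_nat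
  refine tendsto_order.2 ⟨fun a ha => ?_, fun b hb => ?_⟩
  · -- from below
    have hE : ⋃ j : ℕ, {γ : CI | G (sc c γ) ≤ 1 - 1 / ((j : ℝ) + 1)} = {γ | G (sc c γ) < 1} := by
      ext γ
      simp only [mem_iUnion, mem_ofPred_eq]
      constructor
      · rintro ⟨j, hj⟩
        linarith [hej j]
      · intro h
        obtain ⟨j, hj⟩ := exists_nat_one_div_lt (sub_pos.2 h)
        exact ⟨j, by linarith⟩
    have hm : Monotone fun j : ℕ => {γ : CI | G (sc c γ) ≤ 1 - 1 / ((j : ℝ) + 1)} := by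
      intro i j hij γ hγ
      have h3 : (1 : ℝ) / ((j : ℝ) + 1) ≤ 1 / ((i : ℝ) + 1) := Nat.one_div_le_one_div hij
      have h4 : G (sc c γ) ≤ 1 - 1 / ((i : ℝ) + 1) := hγ
      show G (sc c γ) ≤ 1 - 1 / ((j : ℝ) + 1)
      linarith
    have h3 := tendsto_measure_iUnion_atTop (μ := ν) hm
    rw [hE] at h3
    have h4 : Tendsto (fun j : ℕ => ν.real {γ : CI | G (sc c γ) ≤ 1 - 1 / ((j : ℝ) + 1)}) atTop
        (𝓝 (ν.real {γ | G (sc c γ) < 1})) := (ENNReal.tendsto_toReal (measure_ne_top ν _)).comp h3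
    obtain ⟨j, hj⟩ := ((tendsto_order.1 h4).1 a ha).exists
    have h5 := hup ν c (1 - 1 / ((j : ℝ) + 1)) (fun x => cut ((1 - x) / (1 / ((j : ℝ) + 1)))) (cut_cont.comp (by fun_prop))
      (fun x => cut_nonneg _) (fun x => cut_le_one _) fun x hx => cut_one (by
        rw [le_div_iff₀ (hej j)]
        linarith)
    have h6 := (tendsto_order.1 (ramp (hej j) 1)).1 a (hj.trans_le h5)
    filter_upwards [h6, h1] with k hk1 hk2
    refine hk1.trans_le ((hlow (law (φ k)) (cs k) 1 (fun x => cut ((1 - x) / (1 / ((j : ℝ) + 1))))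
      (cut_cont.comp (by fun_prop)) (fun x => cut_nonneg _) (fun x => cut_le_one _) fun x hx => cut_zero ?_).trans hk2)
    exact div_nonpos_of_nonpos_of_nonneg (by linarith) (hej j).le
  · -- from above
    have hE : ⋂ j : ℕ, {γ : CI | G (sc c γ) < 1 + 2 * (1 / ((j : ℝ) + 1))} = {γ | G (sc c γ) ≤ 1} := by
      ext γ
      simp only [mem_iInter, mem_ofPred_eq]
      constructor
      · intro h
        by_contra hcon
        obtain ⟨j, hj⟩ := exists_nat_one_div_lt (sub_pos.2 (not_le.1 hcon))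
        obtain ⟨i, hi⟩ := exists_nat_one_div_lt (half_pos (sub_pos.2 (not_le.1 hcon)))
        have := h i
        linarith
      · intro h j
        linarith [hej j]
    have hm : Antitone fun j : ℕ => {γ : CI | G (sc c γ) < 1 + 2 * (1 / ((j : ℝ) + 1))} := by
      intro i j hij γ hγ
      have h3 : (1 : ℝ) / ((j : ℝ) + 1) ≤ 1 / ((i : ℝ) + 1) := Nat.one_div_le_one_div hij
      have h4 : G (sc c γ) < 1 + 2 * (1 / ((j : ℝ) + 1)) := hγ
      show G (sc c γ) < 1 + 2 * (1 / ((i : ℝ) + 1))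
      linarith
    have h3 := tendsto_measure_iInter_atTop (μ := ν) (s := fun j : ℕ => {γ : CI | G (sc c γ) < 1 + 2 * (1 / ((j : ℝ) + 1))})
      (fun j => (measurableSet_lt (hGm c) measurable_const).nullMeasurableSet) hm ⟨0, measure_ne_top _ _⟩
    rw [hE] at h3
    have h2' : ν {γ | G (sc c γ) ≤ 1} = ν {γ | G (sc c γ) < 1} := by
      refine le_antisymm ?_ (measure_mono fun γ (hγ : G (sc c γ) < 1) => hγ.le)
      have h3 : {γ : CI | G (sc c γ) ≤ 1} ⊆ {γ | G (sc c γ) < 1} ∪ {γ | G (sc c γ) = 1} := by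
        intro γ hγ
        rcases lt_or_eq_of_le (show G (sc c γ) ≤ 1 from hγ) with h | h
        · exact Or.inl h
        · exact Or.inr h
      refine (measure_mono h3).trans ((measure_union_le _ _).trans ?_)
      rw [h0, add_zero]
    rw [h2'] at h3
    have h4 : Tendsto (fun j : ℕ => ν.real {γ : CI | G (sc c γ) < 1 + 2 * (1 / ((j : ℝ) + 1))}) atTop
        (𝓝 (ν.real {γ | G (sc c γ) < 1})) := (ENNReal.tendsto_toReal (measure_ne_top ν _)).comp h3
    obtain ⟨j, hj⟩ := ((tendsto_order.1 h4).2 b hb).exists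
    have h5 := hlow ν c (1 + 2 * (1 / ((j : ℝ) + 1))) (fun x => cut ((1 + 2 * (1 / ((j : ℝ) + 1)) - x) / (1 / ((j : ℝ) + 1))))
      (cut_cont.comp (by fun_prop)) (fun x => cut_nonneg _) (fun x => cut_le_one _) fun x hx => cut_zero
        (div_nonpos_of_nonpos_of_nonneg (by linarith) (hej j).le)
    have h6 := (tendsto_order.1 (ramp (hej j) (1 + 2 * (1 / ((j : ℝ) + 1))))).2 b (h5.trans_lt hj)
    filter_upwards [h6, h2, (tendsto_order.1 hδ).2 _ (hej j)] with k hk1 hk2 hk3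
    refine lt_of_le_of_lt (hk2.trans (le_trans ?_ (hup (law (φ k)) (cs k) (1 + 1 / ((j : ℝ) + 1))
      (fun x => cut ((1 + 2 * (1 / ((j : ℝ) + 1)) - x) / (1 / ((j : ℝ) + 1)))) (cut_cont.comp (by fun_prop))
      (fun x => cut_nonneg _) (fun x => cut_le_one _) fun x hx => cut_one ?_))) hk1
    · refine measureReal_mono (fun γ hγ => ?_) (measure_ne_top _ _)
      have hγ' : G (sc (cs k) γ) ≤ 1 + δ k := hγ
      show G (sc (cs k) γ) ≤ 1 + 1 / ((j : ℝ) + 1)
      linarith
    · rw [le_div_iff₀ (hej j)]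
      linarith


/-! ### the functional of a domain -/

/-- the largest distance of a curve from a set -/
noncomputable def Hf (F : Set ℂ) (γ : CI) : ℝ :=
  ‖(⟨fun u => Metric.infDist (γ u) F, (Metric.continuous_infDist_pt F).comp γ.continuous⟩ : C(unitInterval, ℝ))‖

lemma Hf_lt {F : Set ℂ} {γ : CI} {t : ℝ} (ht : 0 < t) : Hf F γ < t ↔ ∀ u, Metric.infDist (γ u) F < t := by
  unfold Hf
  rw [ContinuousMap.norm_lt_iff _ ht]
  refine forall_congr' fun u => ?_
  show |Metric.infDist (γ u) F| < t ↔ _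
  rw [abs_of_nonneg Metric.infDist_nonneg]

lemma Hf_le {F : Set ℂ} {γ : CI} {t : ℝ} (ht : 0 ≤ t) : Hf F γ ≤ t ↔ ∀ u, Metric.infDist (γ u) F ≤ t := by
  unfold Hf
  rw [ContinuousMap.norm_le _ ht]
  refine forall_congr' fun u => ?_
  show |Metric.infDist (γ u) F| ≤ t ↔ _
  rw [abs_of_nonneg Metric.infDist_nonneg]

lemma Hf_lip (F : Set ℂ) (γ γ' : CI) : |Hf F γ - Hf F γ'| ≤ ‖γ - γ'‖ := by
  unfold Hf
  refine (abs_norm_sub_norm_le _ _).trans ?_
  rw [ContinuousMap.norm_le _ (norm_nonneg _)]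
  intro u
  show |Metric.infDist (γ u) F - Metric.infDist (γ' u) F| ≤ _
  have h1 := Metric.infDist_le_infDist_add_dist (s := F) (x := γ u) (y := γ' u)
  have h2 := Metric.infDist_le_infDist_add_dist (s := F) (x := γ' u) (y := γ u)
  have h3 : dist (γ u) (γ' u) ≤ ‖γ - γ'‖ := by
    rw [← dist_eq_norm]
    exact ContinuousMap.dist_apply_le_dist u
  rw [dist_comm (γ' u)] at h2
  rw [abs_le]
  constructor <;> linarith

/-- the functional of the domain `ball 0 1 ∩ thickening t F` -/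
noncomputable def Gf (F : Set ℂ) (t : ℝ) (γ : CI) : ℝ := max ‖γ‖ (Hf F γ / t)

lemma Gf_lip (F : Set ℂ) {t : ℝ} (ht : 0 < t) (γ γ' : CI) : |Gf F t γ - Gf F t γ'| ≤ max 1 (1 / t) * ‖γ - γ'‖ := by
  unfold Gf
  refine (abs_max_sub_max_le_max _ _ _ _).trans (max_le ?_ ?_)
  · refine (abs_norm_sub_norm_le _ _).trans ?_
    calc ‖γ - γ'‖ = 1 * ‖γ - γ'‖ := (one_mul _).symm
      _ ≤ _ := mul_le_mul_of_nonneg_right (le_max_left _ _) (norm_nonneg _)
  · rw [← sub_div, abs_div, abs_of_pos ht]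
    calc |Hf F γ - Hf F γ'| / t ≤ ‖γ - γ'‖ / t := div_le_div_of_nonneg_right (Hf_lip F γ γ') ht.le
      _ = 1 / t * ‖γ - γ'‖ := by ring
      _ ≤ _ := mul_le_mul_of_nonneg_right (le_max_right _ _) (norm_nonneg _)

lemma Gf_cont (F : Set ℂ) {t : ℝ} (ht : 0 < t) : Continuous (Gf F t) := by
  have h : LipschitzWith (Real.toNNReal (max 1 (1 / t))) (Gf F t) := by
    refine LipschitzWith.of_dist_le_mul fun γ γ' => ?_
    rw [Real.dist_eq, dist_eq_norm, Real.coe_toNNReal _ (le_trans zero_le_one (le_max_left _ _))]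
    exact Gf_lip F ht γ γ'
  exact h.continuous

lemma Gf_sc (F : Set ℂ) {t : ℝ} (ht : 0 < t) (a b : ℝ) (γ : CI) :
    |Gf F t (sc a γ) - Gf F t (sc b γ)| ≤ max 1 (1 / t) * |a - b| * ‖γ‖ := by
  refine (Gf_lip F ht _ _).trans (le_of_eq ?_)
  rw [mul_assoc]
  congr 1
  have e : sc a γ - sc b γ = ((a - b : ℝ) : ℂ) • γ := by
    ext u
    show (a : ℂ) * γ u - (b : ℂ) * γ u = ((a - b : ℝ) : ℂ) * γ u
    push_cast
    ring
  rw [e, norm_smul, Complex.norm_real, Real.norm_eq_abs]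

/-! ### the proportion of the walks in a domain -/

open Classical in
/-- the proportion of the walks with `n` steps all of whose vertices are in `R • V` -/
noncomputable def gV (R : ℝ) (V : Set ℂ) (n : ℕ) : ℝ :=
  (((saw n).filter fun s => ∀ k : ℕ, k ≤ n → pos s k / R ∈ V).card : ℝ) / ((saw n).card : ℝ)

lemma gV_nonneg (R : ℝ) (V : Set ℂ) (n : ℕ) : 0 ≤ gV R V n := by
  unfold gV
  positivity

lemma gV_mono (R : ℝ) {V W : Set ℂ} (h : V ⊆ W) (n : ℕ) : gV R V n ≤ gV R W n := by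
  classical
  unfold gV
  refine div_le_div_of_nonneg_right ?_ (Nat.cast_nonneg _)
  refine Nat.cast_le.2 (Finset.card_le_card fun s hs => ?_)
  rw [Finset.mem_filter] at hs ⊢
  exact ⟨hs.1, fun k hk => h (hs.2 k hk)⟩

lemma gV_le_one (R : ℝ) (V : Set ℂ) (n : ℕ) : gV R V n ≤ 1 := by
  classical
  unfold gV
  refine div_le_one_of_le₀ ?_ (Nat.cast_nonneg _)
  exact Nat.cast_le.2 (Finset.card_le_card (Finset.filter_subset _ _))

open Classical in
lemma law_real' (n : ℕ) (E : Set CI) :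
    (law n).real E = (((saw n).filter fun s => curve s ∈ E).card : ℝ) / ((saw n).card : ℝ) := by
  unfold Measure.real
  rw [NTSF.law_apply, ENNReal.toReal_mul, ENNReal.toReal_inv, ENNReal.toReal_natCast, ENNReal.toReal_natCast]
  rw [div_eq_inv_mul]

/-- the domain -/
def Vt (F : Set ℂ) (t : ℝ) : Set ℂ := Metric.ball 0 1 ∩ Metric.thickening t F

lemma mem_Vt {F : Set ℂ} (hF : F.Nonempty) {t : ℝ} {z : ℂ} : z ∈ Vt F t ↔ ‖z‖ < 1 ∧ Metric.infDist z F < t := by
  unfold Vt
  rw [mem_inter_iff, mem_ball_zero_iff, Metric.mem_thickening_iff_infDist_lt hF]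

lemma gV_ge {n : ℕ} (hn : 1 ≤ n) {R : ℝ} (hR : 0 < R) {F : Set ℂ} (hF : F.Nonempty) {t : ℝ} (ht : 0 < t) :
    (law n).real {γ | Gf F t (sc (size n / R) γ) < 1} ≤ gV R (Vt F t) n := by
  classical
  rw [law_real']
  unfold gV
  refine div_le_div_of_nonneg_right ?_ (Nat.cast_nonneg _)
  refine Nat.cast_le.2 (Finset.card_le_card ?_)
  intro s hs
  rw [Finset.mem_filter] at hs ⊢
  refine ⟨hs.1, fun k hk => ?_⟩
  have hn0 : (0 : ℝ) < n := by exact_mod_cast hn
  have hk' : (k : ℝ) ≤ n := by exact_mod_cast hk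
  obtain ⟨u, hu⟩ : ∃ u : unitInterval, (u : ℝ) = k / n :=
    ⟨⟨k / n, by positivity, by rw [div_le_one hn0]; exact hk'⟩, rfl⟩
  have h1 := curve_int hn s (j := k) (u := u) (by rw [hu]; field_simp)
  have hsz := NTSF.size_pos hn
  have h2 : sc (size n / R) (curve s) u = pos s k / R := by
    have h3 : ((size n : ℝ) : ℂ) ≠ 0 := by exact_mod_cast hsz.ne'
    have h4 : ((R : ℝ) : ℂ) ≠ 0 := by exact_mod_cast hR.ne'
    rw [sc_apply, h1]
    push_cast
    field_simp
  have h3 : Gf F t (sc (size n / R) (curve s)) < 1 := hs.2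
  unfold Gf at h3
  rw [max_lt_iff, div_lt_one ht, Hf_lt ht] at h3
  rw [mem_Vt hF, ← h2]
  exact ⟨(ContinuousMap.norm_coe_le_norm _ u).trans_lt h3.1, h3.2 u⟩

lemma gV_le {n : ℕ} (hn : 1 ≤ n) {R : ℝ} (hR : 0 < R) {F : Set ℂ} (hF : F.Nonempty) {t : ℝ} (ht : 0 < t) :
    gV R (Vt F t) n ≤ (law n).real {γ | Gf F t (sc (size n / R) γ) ≤ 1 + 1 / R * max 1 (1 / t)} := by
  classical
  rw [law_real']
  unfold gV
  refine div_le_div_of_nonneg_right ?_ (Nat.cast_nonneg _)
  refine Nat.cast_le.2 (Finset.card_le_card ?_)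
  intro s hs
  rw [Finset.mem_filter] at hs ⊢
  refine ⟨hs.1, ?_⟩
  have hsz := NTSF.size_pos hn
  have key : ∀ u : unitInterval, ∃ i : ℕ, i < n ∧ dist (sc (size n / R) (curve s) u) (pos s i / R) ≤ 1 / R := by
    intro u
    obtain ⟨i, a, hi, ha0, ha1, -, -, he⟩ := NTSF.curve_apply hn s u
    refine ⟨i, hi, ?_⟩
    have h3 : ((size n : ℝ) : ℂ) ≠ 0 := by exact_mod_cast hsz.ne'
    have h4 : ((R : ℝ) : ℂ) ≠ 0 := by exact_mod_cast hR.ne'
    have e : sc (size n / R) (curve s) u - pos s i / R = (a : ℂ) * (pos s (i + 1) - pos s i) / R := by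
      rw [sc_apply, he]
      push_cast
      field_simp
      ring
    rw [dist_eq_norm, e, norm_div, norm_mul, Complex.norm_of_nonneg ha0, Complex.norm_of_nonneg hR.le,
      ← dist_eq_norm, dist_comm, pos_dist_step s hi, mul_one]
    exact div_le_div_of_nonneg_right ha1 hR.le
  have hR1 : 0 < 1 / R := by positivity
  show Gf F t (sc (size n / R) (curve s)) ≤ 1 + 1 / R * max 1 (1 / t)
  unfold Gf
  refine max_le ?_ ?_
  · refine (ContinuousMap.norm_le _ (by positivity)).2 fun u => ?_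
    obtain ⟨i, hi, h⟩ := key u
    have h1 := ((mem_Vt hF).1 (hs.2 i hi.le)).1
    have h2 : ‖sc (size n / R) (curve s) u‖ ≤ ‖pos s i / (R : ℂ)‖ + dist (sc (size n / R) (curve s) u) (pos s i / R) := by
      rw [dist_eq_norm]
      have := norm_add_le (pos s i / (R : ℂ)) (sc (size n / R) (curve s) u - pos s i / R)
      rwa [add_sub_cancel] at this
    have h3 : 1 / R * 1 ≤ 1 / R * max 1 (1 / t) := mul_le_mul_of_nonneg_left (le_max_left _ _) hR1.le
    linarith
  · have h5 : Hf F (sc (size n / R) (curve s)) ≤ t + 1 / R := by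
      refine (Hf_le (by positivity)).2 fun u => ?_
      obtain ⟨i, hi, h⟩ := key u
      have h1 := ((mem_Vt hF).1 (hs.2 i hi.le)).2
      have h2 := Metric.infDist_le_infDist_add_dist (s := F) (x := sc (size n / R) (curve s) u) (y := pos s i / (R : ℂ))
      linarith
    rw [div_le_iff₀ ht]
    have h3 : 1 / R * (1 / t) ≤ 1 / R * max 1 (1 / t) := mul_le_mul_of_nonneg_left (le_max_right _ _) hR1.le
    calc Hf F (sc (size n / R) (curve s)) ≤ t + 1 / R := h5
      _ = (1 + 1 / R * (1 / t)) * t := by field_simp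
      _ ≤ (1 + 1 / R * max 1 (1 / t)) * t := mul_le_mul_of_nonneg_right (by linarith) ht.le

/-- **the proportions converge** -/
theorem gV_lim {φ : ℕ → ℕ} (hφ : Tendsto φ atTop atTop) {ν : Measure CI} (hν : IsProbabilityMeasure ν) (hl : LawTo φ ν)
    {r : ℕ → ℝ} (hr : Tendsto r atTop atTop) {c : ℝ} (hc : Tendsto (fun k => size (φ k) / r k) atTop (𝓝 c))
    {F : Set ℂ} (hF : F.Nonempty) {t : ℝ} (ht : 0 < t) (h0 : ν {γ | Gf F t (sc c γ) = 1} = 0) :
    Tendsto (fun k => gV (r k) (Vt F t) (φ k)) atTop (𝓝 (ν.real {γ | Gf F t (sc c γ) < 1})) := by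
  refine sq_lim hν hl (Gf_cont F ht) (Gf_sc F ht) hc (δ := fun k => 1 / r k * max 1 (1 / t)) ?_ ?_ ?_ h0
  · have : Tendsto (fun k => 1 / r k * max 1 (1 / t)) atTop (𝓝 (0 * max 1 (1 / t))) := by
      refine Tendsto.mul_const _ ?_
      exact tendsto_const_nhds.div_atTop hr
    rwa [zero_mul] at this
  · filter_upwards [hφ.eventually_ge_atTop 1, hr.eventually_gt_atTop 0] with k h1 h2
    exact gV_ge h1 h2 hF ht
  · filter_upwards [hφ.eventually_ge_atTop 1, hr.eventually_gt_atTop 0] with k h1 h2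
    exact gV_le h1 h2 hF ht

end Pool.Agent.CRT.K10
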