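import Pool.Agent.CRT.ToRatA

/-!
# CRT, row K10, second part (helper66): from Q1 and the regular variation to the ratios

* `ix R` : the first number of steps whose size is more than `R`;
* `step_sum` : a sum as the integral of a step function;
* `part_lim` : the main part of the sum; `chi_lim` : the sum; **`toRat_of`** : row K10.
-/

set_option autoImplicit false

open Set Filter Topology MeasureTheory
open scoped ENNReal

namespace Pool.Agent.CRT.K10

open Pool.Agent.NTS.Res
open Pool.Agent.NPR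

/-- **K2**, M1: the critical weights of the walks with `n` steps -/
def MassN : Prop := ∃ c C : ℝ, 0 < c ∧ 0 < C ∧ ∀ n : ℕ, 1 ≤ n → c * (n : ℝ) ^ (11 / 32 : ℝ) ≤ aN n ∧ aN n ≤ C * (n : ℝ) ^ (11 / 32 : ℝ)

/-- the order of the sizes -/
def SizeN : Prop := ∃ c C : ℝ, 0 < c ∧ ∀ n : ℕ, 1 ≤ n → c * (n : ℝ) ^ (3 / 4 : ℝ) ≤ size n ∧ size n ≤ C * (n : ℝ) ^ (3 / 4 : ℝ)

/-- a function that is eventually near constants converges -/
lemma tendsto_of_near {f : ℝ → ℝ} (h : ∀ ε : ℝ, 0 < ε → ∃ l : ℝ, ∀ᶠ R in atTop, |f R - l| ≤ ε) :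
    ∃ l, Tendsto f atTop (𝓝 l) := by
  have hc : Cauchy (map f atTop) := by
    rw [Metric.cauchy_iff]
    refine ⟨inferInstance, fun ε hε => ?_⟩
    obtain ⟨l, hl⟩ := h (ε / 3) (by positivity)
    refine ⟨f '' {R | |f R - l| ≤ ε / 3}, image_mem_map hl, ?_⟩
    rintro _ ⟨x, hx, rfl⟩ _ ⟨y, hy, rfl⟩
    have hx' : |f x - l| ≤ ε / 3 := hx
    have hy' : |f y - l| ≤ ε / 3 := hy
    rw [Real.dist_eq, abs_lt]
    rw [abs_le] at hx' hy'
    constructor <;> linarith
  exact cauchy_map_iff_exists_tendsto.1 hc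

/-! ### the first number of steps with a large size -/

/-- the first number of steps whose size is more than `R` -/
noncomputable def ix (R : ℝ) : ℕ := sInf {n | R < size n}

section

variable (hsz : Tendsto size atTop atTop)

include hsz

lemma ix_lt (R : ℝ) : R < size (ix R) := by
  have h : {n | R < size n}.Nonempty := (hsz.eventually_gt_atTop R).exists
  exact Nat.sInf_mem h

lemma ix_top : Tendsto ix atTop atTop := by
  rw [tendsto_atTop]
  intro b
  have h : ∀ᶠ R : ℝ in atTop, ∀ n ∈ Finset.range b, size n ≤ R :=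
    (Finset.eventually_all _).2 fun n _ => eventually_ge_atTop (size n)
  filter_upwards [h] with R hR
  by_contra hcon
  exact absurd (hR _ (Finset.mem_range.2 (not_le.1 hcon))) (not_le.2 (ix_lt hsz R))

lemma ix_size (h1 : Tendsto (fun n : ℕ => size (n + 1) / size n) atTop (𝓝 1)) :
    Tendsto (fun R : ℝ => size (ix R) / R) atTop (𝓝 1) := by
  have ht := ix_top hsz
  have hs : Tendsto (fun R : ℝ => ix R - 1) atTop atTop := by
    rw [tendsto_atTop] at ht ⊢
    intro b
    filter_upwards [ht (b + 1)] with R hR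
    omega
  have h2 : Tendsto (fun R : ℝ => size (ix R - 1 + 1) / size (ix R - 1)) atTop (𝓝 1) := h1.comp hs
  refine tendsto_of_tendsto_of_tendsto_of_le_of_le' tendsto_const_nhds h2 ?_ ?_
  · filter_upwards [eventually_gt_atTop 0] with R hR
    rw [one_le_div hR]
    exact (ix_lt hsz R).le
  · filter_upwards [eventually_gt_atTop 0, ht.eventually_ge_atTop 2] with R hR hi
    have e : ix R - 1 + 1 = ix R := by omega
    rw [e]
    have h3 : size (ix R - 1) ≤ R := by
      by_contra hcon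
      have : ix R ≤ ix R - 1 := Nat.sInf_le (show R < size (ix R - 1) from not_le.1 hcon)
      omega
    have h4 : 0 < size (ix R - 1) := NTSF.size_pos (by omega)
    exact div_le_div_of_nonneg_left (NTSF.size_nonneg _) h4 h3

end

/-! ### sums and integrals -/

lemma step_int (h : ℕ → ℝ) (n : ℕ) : IntervalIntegrable (fun y : ℝ => h ⌊y⌋₊) volume n (n + 1 : ℕ) ∧
    ∫ y in (n : ℝ)..((n + 1 : ℕ) : ℝ), h ⌊y⌋₊ = h n := by
  have hle : (n : ℝ) ≤ ((n + 1 : ℕ) : ℝ) := by
    push_cast
    linarith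
  have hae : ∀ᵐ y : ℝ ∂volume, y ∈ Ioc (n : ℝ) ((n + 1 : ℕ) : ℝ) → h n = h ⌊y⌋₊ := by
    have h1 : ∀ᵐ y : ℝ ∂volume, y ≠ ((n + 1 : ℕ) : ℝ) := by
      simp [ae_iff]
    filter_upwards [h1] with y hy hy2
    have h2 : ⌊y⌋₊ = n := by
      rw [Nat.floor_eq_iff (by have := hy2.1; have h3 : (0 : ℝ) ≤ n := Nat.cast_nonneg n; linarith)]
      refine ⟨hy2.1.le, ?_⟩
      have := lt_of_le_of_ne hy2.2 hy
      push_cast at this
      exact this
    rw [h2]
  constructor
  · refine (intervalIntegrable_const (c := h n)).congr_ae ?_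
    rw [uIoc_of_le hle]
    exact (ae_restrict_iff' measurableSet_Ioc).2 hae
  · have e : ∫ y in (n : ℝ)..((n + 1 : ℕ) : ℝ), h ⌊y⌋₊ = ∫ _y in (n : ℝ)..((n + 1 : ℕ) : ℝ), h n := by
      rw [intervalIntegral.integral_of_le hle, intervalIntegral.integral_of_le hle]
      exact setIntegral_congr_ae measurableSet_Ioc (hae.mono fun y hy h' => (hy h').symm)
    rw [e, intervalIntegral.integral_const]
    push_cast
    rw [add_sub_cancel_left, one_smul]

lemma step_sum (h : ℕ → ℝ) (m : ℕ) : IntervalIntegrable (fun y : ℝ => h ⌊y⌋₊) volume (0 : ℕ) (m : ℕ) ∧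
    ∫ y in ((0 : ℕ) : ℝ)..(m : ℝ), h ⌊y⌋₊ = ∑ n ∈ Finset.range m, h n := by
  induction m with
  | zero => simp
  | succ m ih =>
    have h1 := step_int h m
    refine ⟨ih.1.trans h1.1, ?_⟩
    rw [← intervalIntegral.integral_add_adjacent_intervals ih.1 h1.1, ih.2, h1.2, Finset.sum_range_succ]

/-- a sum up to `L * N` -/
lemma step_scale (h : ℕ → ℝ) {N : ℕ} (hN : 1 ≤ N) (L : ℕ) :
    ∫ x in (0 : ℝ)..(L : ℝ), h ⌊x * (N : ℝ)⌋₊ = (N : ℝ)⁻¹ * ∑ n ∈ Finset.range (L * N), h n := by
  have hN0 : (N : ℝ) ≠ 0 := by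
    have : (0 : ℝ) < N := by exact_mod_cast hN
    exact this.ne'
  have h1 := intervalIntegral.integral_comp_mul_right (a := (0 : ℝ)) (b := (L : ℝ)) (fun y => h ⌊y⌋₊) hN0
  rw [h1, zero_mul, smul_eq_mul]
  congr 1
  have h2 := (step_sum h (L * N)).2
  push_cast at h2
  exact h2

/-! ### the sum over the numbers of steps -/

lemma aN_nonneg (n : ℕ) : 0 ≤ aN n := by
  unfold aN fug
  positivity

lemma aN_pos (n : ℕ) : 0 < aN n := by
  unfold aN fug
  have h := NTSF.saw_card_pos n
  positivity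

lemma chi_eq (R : ℝ) (V : Set ℂ) : chi R V = ∑' n : ℕ, aN n * gV R V n := by
  classical
  unfold chi
  refine tsum_congr fun n => ?_
  have h := NTSF.saw_card_pos n
  unfold aN gV
  rw [mul_comm ((saw n).card : ℝ) (fug ^ n), mul_assoc, mul_div_cancel₀ _ h.ne', mul_comm]

/-- the ball -/
lemma gV_ball {n : ℕ} (hn : 1 ≤ n) {R : ℝ} (hR : 0 < R) : aN n * gV R (Metric.ball 0 1) n = wR R n := by
  classical
  unfold wR
  congr 1
  have h0 : (law n (inB R n)).toReal = (law n).real (inB R n) := rfl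
  rw [h0, law_real']
  unfold gV
  congr 3
  have hs := NTSF.size_pos hn
  have hn0 : (0 : ℝ) < n := by exact_mod_cast hn
  ext s
  rw [Finset.mem_filter, Finset.mem_filter]
  refine and_congr_right fun _ => ?_
  constructor
  · intro h
    show ‖curve s‖ * size n < R
    rw [← lt_div_iff₀ hs, ContinuousMap.norm_lt_iff _ (by positivity)]
    intro u
    obtain ⟨i, a, hi, ha0, ha1, -, -, he⟩ := NTSF.curve_apply hn s u
    have e1 : ∀ k : ℕ, k ≤ n → ‖pos s k‖ < R := by
      intro k hk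
      have := h k hk
      rw [mem_ball_zero_iff, norm_div, Complex.norm_of_nonneg hR.le, div_lt_one hR] at this
      exact this
    rw [he, norm_div, Complex.norm_of_nonneg hs.le]
    refine div_lt_div_of_pos_right ?_ hs
    have h1 := norm_add_le (((1 - a : ℝ) : ℂ) * pos s i) ((a : ℂ) * pos s (i + 1))
    rw [norm_mul, norm_mul, Complex.norm_of_nonneg (by linarith : (0 : ℝ) ≤ 1 - a), Complex.norm_of_nonneg ha0] at h1
    have h2 := e1 i hi.le
    have h3 := e1 (i + 1) hi
    refine lt_of_le_of_lt h1 ?_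
    rcases ha0.eq_or_lt with h4 | h4
    · rw [← h4]
      linarith
    · nlinarith [mul_lt_mul_of_pos_left h3 h4, mul_le_mul_of_nonneg_left h2.le (by linarith : (0 : ℝ) ≤ 1 - a)]
  · intro h k hk
    have h' : ‖curve s‖ * size n < R := h
    have hk' : (k : ℝ) ≤ n := by exact_mod_cast hk
    obtain ⟨u, hu⟩ : ∃ u : unitInterval, (u : ℝ) = k / n :=
      ⟨⟨k / n, by positivity, by rw [div_le_one hn0]; exact hk'⟩, rfl⟩
    have h1 := curve_int hn s (j := k) (u := u) (by rw [hu]; field_simp)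
    have h2 := ContinuousMap.norm_coe_le_norm (curve s) u
    rw [h1, norm_div, Complex.norm_of_nonneg hs.le, div_le_iff₀ hs] at h2
    rw [mem_ball_zero_iff, norm_div, Complex.norm_of_nonneg hR.le, div_lt_one hR]
    linarith

end Pool.Agent.CRT.K10
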