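import Pool.Agent.CRT.All
import Pool.Agent.CRT.VComA
import Pool.Agent.CRT.VEndH
import Pool.Agent.CRT.VProd
import Pool.Agent.CRT.PosC
import Pool.Agent.CRT.VSl

/-!
# CRT, row 11A, assembly (helper90)

From `VPerfA` and `VBadA`: Q1 gives the regular variation of the numbers of walks, so it is equivalent to the convergence of the
ratios of the critical susceptibilities.
-/

set_option autoImplicit false

open Set Filter Topology MeasureTheory
open scoped ENNReal

namespace Pool.Agent.CRT.V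

open Pool.Agent.NTS.Res
open Pool.Agent.NPR
open Pool.Agent.CRT

/-- V4 in the form of `VEndH` -/
theorem vComA (hP : VPerfA) (hB : VBadA) : VComA := by
  intro hQ a t δ ha _ ht hδ x1 x2 hx1 hx2
  obtain ⟨N0, hN0⟩ := vComA_of hQ hP hB vSl a t δ ha ht hδ x1 x2 hx1 hx2
  refine ⟨N0, fun N N' hN hN' => ?_⟩
  rw [← mul_assoc]
  exact hN0 N N' hN hN'

/-- **11A** -/
theorem rva_of (hP : VPerfA) (hB : VBadA) : Q1 → RVa :=
  E.vend3 vprod (E.vLimA_of (vComA hP hB)) vPos regSz

/-- **the pure equivalence** -/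
theorem crt_of (hP : VPerfA) (hB : VBadA) : (RatC ↔ Q1) ∧ (Q1 →
    (∀ lam : ℝ, 0 < lam → Tendsto (fun n : ℕ => size ⌊lam * n⌋₊ / size n) atTop (𝓝 (lam ^ (3 / 4 : ℝ)))) ∧ RVa) :=
  ⟨crt_q (rva_of hP hB), fun h => ⟨regSz h, rva_of hP hB h⟩⟩

end Pool.Agent.CRT.V
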