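import Pool.Agent.CRT.VDefs

/-!
# CRT, row 11A: the corrected literals of (K) (helper84, helper69; typed by helper90)

`VK` of `VDefs` is false (the right end of a gap of the cut levels). `VK2` is two sided; `VSl` (a theorem in `VSl.lean`): the walk does
not spend a long time in a thin vertical strip.
-/

set_option autoImplicit false

open Set Filter Topology MeasureTheory
open scoped ENNReal

namespace Pool.Agent.CRT.V

open Pool.Agent.NTS.Res
open Pool.Agent.NPR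

open Classical in
/-- **K2**: near every approximate cut `(k, x)` there is a cut -/
def VK2 : Prop := ∀ ε : ℝ, 0 < ε → ∃ τ : ℝ, 0 < τ ∧ τ < ε ∧ ∃ n0 : ℕ, ∀ n : ℕ, n0 ≤ n →
  (((saw n).filter fun s => ∃ (k : ℕ) (x : ℝ), ε * n ≤ k ∧ (k : ℝ) ≤ (1 - ε) * n ∧ ε * size n ≤ x ∧ x ≤ size n / ε ∧
    (∀ i : ℕ, i ≤ k → (pos s i).re ≤ x + τ * size n) ∧ (∀ j : ℕ, k ≤ j → j ≤ n → x - τ * size n ≤ (pos s j).re) ∧
    ∀ i : ℕ, Cut s i → ε * size n < |(pos s i).re - x|).card : ℝ) ≤ ε * ((saw n).card : ℝ)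

open Classical in
/-- **Sl**: the walk does not spend `δ * n` steps in a vertical strip of width `ε * size n` -/
def VSl : Prop := ∀ δ : ℝ, 0 < δ → ∃ ε : ℝ, 0 < ε ∧ ∃ n0 : ℕ, ∀ n : ℕ, n0 ≤ n →
  (((saw n).filter fun s => ∃ i j : ℕ, i ≤ j ∧ j ≤ n ∧ δ * n ≤ (j : ℝ) - i ∧
    ∀ l : ℕ, i ≤ l → l ≤ j → |(pos s l).re - (pos s i).re| ≤ ε * size n).card : ℝ) ≤ δ * ((saw n).card : ℝ)

end Pool.Agent.CRT.V
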