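import Pool.Agent.CRT.VDefs2

/-!
# CRT, row 11A: the literals of the form of helper59 / helper84 (typed by helper90)

No non-simple cut levels: `VPerf` (a real cut has a real cut close to it, but not too close), `VBad` (near a simple pinch there is a
real cut), and with `VSl` and Q1 the sandwich `VCom` / `VLimD` of the probabilities `Dn` of the cuts.
-/

set_option autoImplicit false

open Set Filter Topology MeasureTheory
open scoped ENNReal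

namespace Pool.Agent.CRT.V

open Pool.Agent.NTS.Res
open Pool.Agent.NPR

/-- a simple pinch at the level `y`: the walk is below `y - 3/4 W` before the time `k0`, above `y + 3/4 W` after the time `k1`, and
at a distance at most `5/4 W` from `y` in between -/
def Pch {n : ℕ} (s : Fin n → Fin 3) (k0 k1 : ℕ) (y W : ℝ) : Prop :=
  k0 ≤ k1 ∧ k1 ≤ n ∧ (∀ i : ℕ, i ≤ k0 → (pos s i).re ≤ y - 3 / 4 * W) ∧
    (∀ i : ℕ, k0 ≤ i → i ≤ k1 → |(pos s i).re - y| ≤ 5 / 4 * W) ∧ ∀ i : ℕ, k1 ≤ i → i ≤ n → y + 3 / 4 * W ≤ (pos s i).re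

open Classical in
/-- **VPerf**: no real cut is isolated -/
def VPerf : Prop := ∀ ε e : ℝ, 0 < ε → 0 < e → ∃ t : ℝ, 0 < t ∧ ∃ n0 : ℕ, ∀ n : ℕ, n0 ≤ n →
  (((saw n).filter fun s => ∃ k : ℕ, Cut s k ∧ ε * n ≤ k ∧ (k : ℝ) ≤ (1 - ε) * n ∧ ε * size n ≤ (pos s k).re ∧
    (pos s k).re ≤ size n / ε ∧
    ∀ i : ℕ, Cut s i → |(pos s i).re - (pos s k).re| < t * size n ∨ e * size n < |(pos s i).re - (pos s k).re|).card : ℝ) ≤
    ε * ((saw n).card : ℝ)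

open Classical in
/-- **VBad**: near every simple pinch there is a real cut -/
def VBad : Prop := ∀ ε : ℝ, 0 < ε → ∃ w0 : ℝ, 0 < w0 ∧ ∀ w w' : ℝ, 0 < w → w ≤ w' → w' ≤ w0 → ∃ n0 : ℕ, ∀ n : ℕ, n0 ≤ n →
  (((saw n).filter fun s => ∃ (k0 k1 : ℕ) (y W : ℝ), ε * n ≤ k0 ∧ (k1 : ℝ) ≤ (1 - ε) * n ∧ ε * size n ≤ y ∧
    y ≤ size n / ε ∧ w * size n ≤ W ∧ W ≤ w' * size n ∧ Pch s k0 k1 y W ∧
    ∀ i : ℕ, Cut s i → ε * size n < |(pos s i).re - y|).card : ℝ) ≤ ε * ((saw n).card : ℝ)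

/-- **VCom**: the probabilities of the cuts for all large numbers of steps -/
def VCom : Prop := ∀ a t δ : ℝ, 0 < a → t < 1 → 0 < δ → ∃ n0 : ℕ, ∀ n n' : ℕ, n0 ≤ n → n0 ≤ n' →
  Dn n (a + δ) (t - δ) ≤ Dn n' a t + δ

/-- **VLimD**: the sandwich, with a function `D` which is antitone in the level and monotone in the time -/
def VLimD : Prop := ∃ D : ℝ → ℝ → ℝ, (∀ a a' t t' : ℝ, a ≤ a' → t' ≤ t → D a' t' ≤ D a t) ∧ (∀ a t, 0 ≤ D a t ∧ D a t ≤ 1) ∧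
  ∀ a t δ : ℝ, 0 < a → t < 1 → 0 < δ → ∀ᶠ n : ℕ in atTop, D (a + δ) (t - δ) - δ ≤ Dn n a t ∧ Dn n a t ≤ D a t + δ

end Pool.Agent.CRT.V
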