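import Pool.Agent.CRT.VDefs3

/-!
# CRT, row 11A K: the frozen literals (form of helper59, read by helpers 5, 11, 16, 42, 66, 84, 86; pen: helper45)

Everything in the mean over `n` in `[x1 N, x2 N]`. `VPerfA`: no real cut is isolated. `VBadA`: near a simple pinch with an outer
margin there is a real cut. The margin is chosen before the width of the pinch.
-/

set_option autoImplicit false

open Set Filter Topology MeasureTheory
open scoped ENNReal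

namespace Pool.Agent.CRT.V

open Pool.Agent.NTS.Res
open Pool.Agent.NPR

open Classical in
/-- sum of the probabilities of the events `B n` over the `n` in `[x1 N, x2 N]` -/
noncomputable def msum (B : ∀ n : ℕ, (Fin n → Fin 3) → Prop) (x1 x2 : ℝ) (N : ℕ) : ℝ :=
  ∑ n ∈ (Finset.range (⌊x2 * N⌋₊ + 1)).filter (fun n : ℕ => x1 * N ≤ n),
    (((saw n).filter fun s => B n s).card : ℝ) / ((saw n).card : ℝ)

/-- a real cut in the bulk without another real cut at a distance between `t * size n` and `e * size n` -/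
def Iso (ε e t : ℝ) (n : ℕ) (s : Fin n → Fin 3) : Prop :=
  ∃ k : ℕ, Cut s k ∧ ε * n ≤ k ∧ (k : ℝ) ≤ (1 - ε) * n ∧ ε * size n ≤ (pos s k).re ∧ (pos s k).re ≤ size n / ε ∧
    ∀ i : ℕ, Cut s i → |(pos s i).re - (pos s k).re| < t * size n ∨ e * size n < |(pos s i).re - (pos s k).re|

/-- **VPerfA**: in the mean no real cut is isolated -/
def VPerfA : Prop := ∀ ε e x1 x2 : ℝ, 0 < ε → 0 < e → 0 < x1 → x1 < x2 → ∃ t : ℝ, 0 < t ∧ ∃ N0 : ℕ, ∀ N : ℕ, N0 ≤ N →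
  msum (Iso ε e t) x1 x2 N ≤ ε * N

/-- a simple pinch at the level `y` (below `y - h` up to `k0`, in `y ± w` up to `k1`, then above `y + h`) with an outer margin
(below `y - m` up to `p1`, in `y ± E` up to `p2`, then above `y + m`) -/
def Pnm {n : ℕ} (s : Fin n → Fin 3) (p1 k0 k1 p2 : ℕ) (y m E h w : ℝ) : Prop :=
  p1 ≤ k0 ∧ k0 ≤ k1 ∧ k1 ≤ p2 ∧ p2 ≤ n ∧
    (∀ i : ℕ, i ≤ p1 → (pos s i).re ≤ y - m) ∧ (∀ i : ℕ, p1 ≤ i → i ≤ p2 → |(pos s i).re - y| ≤ E) ∧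
    (∀ i : ℕ, p2 ≤ i → i ≤ n → y + m ≤ (pos s i).re) ∧
    (∀ i : ℕ, i ≤ k0 → (pos s i).re ≤ y - h) ∧ (∀ i : ℕ, k0 ≤ i → i ≤ k1 → |(pos s i).re - y| ≤ w) ∧
    ∀ i : ℕ, k1 ≤ i → i ≤ n → y + h ≤ (pos s i).re

/-- a pinch with a margin in the bulk, without a real cut at a distance at most `m * size n` from its level -/
def BadM (ε E m h w : ℝ) (n : ℕ) (s : Fin n → Fin 3) : Prop :=
  ∃ (p1 k0 k1 p2 : ℕ) (y : ℝ), Pnm s p1 k0 k1 p2 y (m * size n) (E * size n) (h * size n) (w * size n) ∧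
    (p2 : ℝ) ≤ (1 - ε) * n ∧ ε * size n ≤ y ∧ y ≤ size n / ε ∧ ∀ i : ℕ, Cut s i → m * size n < |(pos s i).re - y|

/-- **VBadA**: in the mean there is a real cut near every pinch with an outer margin -/
def VBadA : Prop := ∀ ε x1 x2 : ℝ, 0 < ε → 0 < x1 → x1 < x2 → ∃ E0 : ℝ, 0 < E0 ∧ ∀ E m : ℝ, 0 < m → m ≤ E → E ≤ E0 →
  ∃ w0 : ℝ, 0 < w0 ∧ ∀ h w : ℝ, 0 < h → h ≤ w → w ≤ w0 → ∃ N0 : ℕ, ∀ N : ℕ, N0 ≤ N →
    msum (BadM ε E m h w) x1 x2 N ≤ ε * N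

end Pool.Agent.CRT.V
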