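import Mathlib

/-!
# CRT, row 11A, VEnd, part A (helper66): the cross ratios decide

`conv_of`: a sequence `a` of the order `n ^ ρ`, slowly changing, such that all the cross ratios
`a ((κ₁ + y₁) N) a ((κ₂ + y₂) N) / (a ((κ₁ + y₂) N) a ((κ₂ + y₁) N))` converge as `N → ∞`, is regularly varying:
`a (x N) / a N → x ^ ρ`.
-/

set_option autoImplicit false

open Filter Topology

namespace Pool.Agent.CRT.V.E

section

variable {a : ℕ → ℝ} (ha : ∀ n, 0 < a n) {ρ c C : ℝ} (hc : 0 < c) (hC : 0 < C)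
  (hb : ∀ n : ℕ, 1 ≤ n → c * (n : ℝ) ^ ρ ≤ a n ∧ a n ≤ C * (n : ℝ) ^ ρ)

include ha hc hC hb

/-- the logarithm up to a bounded error -/
lemma log_bd : ∃ B : ℝ, 0 < B ∧ ∀ x : ℝ, 0 < x → ∀ᶠ N : ℕ in atTop, |Real.log (a ⌊x * N⌋₊) - ρ * Real.log (x * N)| ≤ B := by
  refine ⟨|Real.log c| + |Real.log C| + |ρ| * Real.log 2 + 1, by positivity, fun x hx => ?_⟩
  have h1 : ∀ᶠ N : ℕ in atTop, (2 : ℝ) ≤ x * N := by
    have : Tendsto (fun N : ℕ => x * (N : ℝ)) atTop atTop := tendsto_natCast_atTop_atTop.const_mul_atTop hx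
    exact this.eventually_ge_atTop 2
  filter_upwards [h1] with N hN
  set m : ℕ := ⌊x * N⌋₊ with hm
  have hm1 : (m : ℝ) ≤ x * N := Nat.floor_le (by linarith)
  have hm2 : x * N < m + 1 := Nat.lt_floor_add_one _
  have hm3 : x * N / 2 ≤ m := by linarith
  have hm0 : (0 : ℝ) < m := by linarith
  have hm1' : 1 ≤ m := by
    have : (0 : ℝ) < m := hm0
    exact_mod_cast this
  obtain ⟨h2, h3⟩ := hb m hm1'
  have hxN : 0 < x * N := by linarith
  have l1 : Real.log c + ρ * Real.log m ≤ Real.log (a m) := by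
    have := Real.log_le_log (by positivity) h2
    rwa [Real.log_mul hc.ne' (by positivity), Real.log_rpow hm0] at this
  have l2 : Real.log (a m) ≤ Real.log C + ρ * Real.log m := by
    have := Real.log_le_log (ha m) h3
    rwa [Real.log_mul hC.ne' (by positivity), Real.log_rpow hm0] at this
  have l3 : |Real.log m - Real.log (x * N)| ≤ Real.log 2 := by
    have e1 : Real.log m ≤ Real.log (x * N) := Real.log_le_log hm0 hm1
    have e2 : Real.log (x * N) - Real.log 2 ≤ Real.log m := by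
      have := Real.log_le_log (by positivity) hm3
      rwa [Real.log_div hxN.ne' (by norm_num)] at this
    rw [abs_le]
    constructor
    · linarith
    · have := Real.log_nonneg (show (1 : ℝ) ≤ 2 by norm_num)
      linarith
  have l4 : |ρ * Real.log m - ρ * Real.log (x * N)| ≤ |ρ| * Real.log 2 := by
    rw [← mul_sub, abs_mul]
    exact mul_le_mul_of_nonneg_left l3 (abs_nonneg _)
  have l5 := abs_le.1 l4
  have l6 := neg_abs_le (Real.log c)
  have l7 := le_abs_self (Real.log C)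
  have l8 := abs_nonneg (Real.log c)
  have l9 := abs_nonneg (Real.log C)
  rw [abs_le]
  constructor <;> linarith [l5.1, l5.2]

variable (hQ : ∀ κ₁ κ₂ y₁ y₂ : ℝ, 0 < κ₁ → 0 < κ₂ → 0 < y₁ → 0 < y₂ → ∃ q : ℝ, 0 < q ∧
    Tendsto (fun N : ℕ => a ⌊(κ₁ + y₁) * N⌋₊ * a ⌊(κ₂ + y₂) * N⌋₊ / (a ⌊(κ₁ + y₂) * N⌋₊ * a ⌊(κ₂ + y₁) * N⌋₊)) atTop (𝓝 q))

omit hc hC hb in
include hQ in
lemma cross (s t t' : ℝ) (hs : 0 < s) (ht : 0 < t) (ht' : 0 < t') : ∃ l : ℝ,
    Tendsto (fun N : ℕ => (Real.log (a ⌊(t + s) * N⌋₊) - Real.log (a ⌊t * N⌋₊)) -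
      (Real.log (a ⌊(t' + s) * N⌋₊) - Real.log (a ⌊t' * N⌋₊))) atTop (𝓝 l) := by
  obtain ⟨κ, hκ, h1, h2⟩ : ∃ κ : ℝ, 0 < κ ∧ κ < t ∧ κ < t' :=
    ⟨min t t' / 2, by positivity, by linarith [min_le_left t t', lt_min ht ht'], by
      linarith [min_le_right t t', lt_min ht ht']⟩
  obtain ⟨q, hq, h⟩ := hQ (κ + s) κ (t - κ) (t' - κ) (by linarith) hκ (by linarith) (by linarith)
  refine ⟨Real.log q, ?_⟩
  have h3 := (Real.continuousAt_log hq.ne').tendsto.comp h
  refine h3.congr fun N => ?_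
  simp only [Function.comp_apply]
  rw [show κ + s + (t - κ) = t + s by ring, show κ + (t' - κ) = t' by ring, show κ + s + (t' - κ) = t' + s by ring,
    show κ + (t - κ) = t by ring, Real.log_div (mul_pos (ha _) (ha _)).ne' (mul_pos (ha _) (ha _)).ne',
    Real.log_mul (ha _).ne' (ha _).ne', Real.log_mul (ha _).ne' (ha _).ne']
  ring

include hQ in
/-- the increments converge -/
lemma incr (s t : ℝ) (hs : 0 < s) (ht : 0 < t) : ∃ l : ℝ,
    Tendsto (fun N : ℕ => Real.log (a ⌊(t + s) * N⌋₊) - Real.log (a ⌊t * N⌋₊)) atTop (𝓝 l) := by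
  obtain ⟨B, hB, hbd⟩ := log_bd ha hc hC hb
  set D : ℝ → ℕ → ℝ := fun t N => Real.log (a ⌊(t + s) * N⌋₊) - Real.log (a ⌊t * N⌋₊) with hD
  refine cauchySeq_tendsto_of_complete ?_
  rw [Metric.cauchySeq_iff]
  intro ε hε
  -- the number of steps
  have hlim : Tendsto (fun m : ℕ => (|ρ| * Real.log ((t + m * s) / t) + 2 * B) / m) atTop (𝓝 0) := by
    have e1 : Tendsto (fun m : ℕ => 1 + (m : ℝ) * (s / t)) atTop atTop :=
      tendsto_atTop_add_const_left _ _ (tendsto_natCast_atTop_atTop.atTop_mul_const (by positivity))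
    have e2 : Tendsto (fun x : ℝ => Real.log x / x) atTop (𝓝 0) := by
      have := Real.isLittleO_log_id_atTop.tendsto_div_nhds_zero
      simpa using this
    have e3 := e2.comp e1
    have e4 : Tendsto (fun m : ℕ => (1 + (m : ℝ) * (s / t)) / m) atTop (𝓝 (s / t)) := by
      have e5 : Tendsto (fun m : ℕ => 1 / (m : ℝ) + s / t) atTop (𝓝 (0 + s / t)) :=
        tendsto_one_div_atTop_nhds_zero_nat.add_const _
      rw [zero_add] at e5
      refine e5.congr' ?_
      filter_upwards [eventually_gt_atTop 0] with m hm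
      have : (m : ℝ) ≠ 0 := by exact_mod_cast hm.ne'
      field_simp
    have e6 : Tendsto (fun m : ℕ => |ρ| * (Real.log (1 + (m : ℝ) * (s / t)) / (1 + (m : ℝ) * (s / t)) *
        ((1 + (m : ℝ) * (s / t)) / m)) + 2 * B * (1 / (m : ℝ))) atTop (𝓝 (|ρ| * (0 * (s / t)) + 2 * B * 0)) :=
      ((e3.mul e4).const_mul _).add (tendsto_one_div_atTop_nhds_zero_nat.const_mul _)
    rw [zero_mul, mul_zero, mul_zero, add_zero] at e6
    refine e6.congr' ?_
    filter_upwards [eventually_gt_atTop 0] with m hm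
    have hm' : (m : ℝ) ≠ 0 := by exact_mod_cast hm.ne'
    have hpos : (1 + (m : ℝ) * (s / t)) ≠ 0 := by positivity
    rw [show (t + m * s) / t = 1 + (m : ℝ) * (s / t) by field_simp]
    field_simp
  obtain ⟨m, hm0, hm⟩ := ((eventually_gt_atTop 0).and (hlim.eventually (gt_mem_nhds (show (0 : ℝ) < ε / 8 by positivity)))).exists
  have hm0' : (0 : ℝ) < m := by exact_mod_cast hm0
  -- the convergent part
  have hconv : ∃ l : ℝ, Tendsto (fun N : ℕ => (1 / (m : ℝ)) * ∑ j ∈ Finset.range m, (D t N - D (t + j * s) N)) atTop (𝓝 l) := by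
    choose l hl using fun j : ℕ => cross ha hQ s t (t + j * s) hs ht (by positivity)
    exact ⟨_, (tendsto_finsetSum _ fun j _ => hl j).const_mul _⟩
  obtain ⟨l, hl⟩ := hconv
  obtain ⟨N1, hN1⟩ := (Metric.cauchySeq_iff.1 hl.cauchySeq) (ε / 4) (by positivity)
  have hid : ∀ N : ℕ, D t N = (1 / (m : ℝ)) * ∑ j ∈ Finset.range m, (D t N - D (t + j * s) N) +
      (1 / (m : ℝ)) * (Real.log (a ⌊(t + m * s) * N⌋₊) - Real.log (a ⌊t * N⌋₊)) := by
    intro N
    have e1 : ∑ j ∈ Finset.range m, D (t + j * s) N = Real.log (a ⌊(t + m * s) * N⌋₊) - Real.log (a ⌊t * N⌋₊) := by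
      have e2 := Finset.sum_range_sub (fun j : ℕ => Real.log (a ⌊(t + j * s) * N⌋₊)) m
      rw [Nat.cast_zero, zero_mul, add_zero] at e2
      rw [← e2]
      refine Finset.sum_congr rfl fun j _ => ?_
      show Real.log (a ⌊(t + j * s + s) * N⌋₊) - _ = Real.log (a ⌊(t + ((j + 1 : ℕ) : ℝ) * s) * N⌋₊) - _
      rw [show t + j * s + s = t + ((j + 1 : ℕ) : ℝ) * s by push_cast; ring]
    rw [Finset.sum_sub_distrib, e1, Finset.sum_const, Finset.card_range, nsmul_eq_mul]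
    field_simp
    ring
  have hsm : ∀ᶠ N : ℕ in atTop, |(1 / (m : ℝ)) * (Real.log (a ⌊(t + m * s) * N⌋₊) - Real.log (a ⌊t * N⌋₊))| ≤ ε / 8 := by
    filter_upwards [hbd (t + m * s) (by positivity), hbd t ht, eventually_gt_atTop 0] with N h1 h2 h0
    have hN0 : (0 : ℝ) < N := by exact_mod_cast h0
    rw [abs_mul, abs_of_pos (by positivity : (0 : ℝ) < 1 / m)]
    have e1 : |Real.log (a ⌊(t + m * s) * N⌋₊) - Real.log (a ⌊t * N⌋₊)| ≤ |ρ| * Real.log ((t + m * s) / t) + 2 * B := by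
      have e2 : Real.log ((t + m * s) / t) = Real.log ((t + m * s) * N) - Real.log (t * N) := by
        rw [Real.log_mul (by positivity) hN0.ne', Real.log_mul ht.ne' hN0.ne', Real.log_div (by positivity) ht.ne']
        ring
      have e0 : 0 ≤ Real.log ((t + m * s) / t) := Real.log_nonneg (by
        rw [le_div_iff₀ ht]
        nlinarith)
      have e3 : |ρ * Real.log ((t + m * s) * N) - ρ * Real.log (t * N)| ≤ |ρ| * Real.log ((t + m * s) / t) := by
        rw [← mul_sub, ← e2, abs_mul, abs_of_nonneg e0]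
      have h1' := abs_le.1 h1
      have h2' := abs_le.1 h2
      have h3' := abs_le.1 e3
      rw [abs_le]
      constructor <;> linarith [h1'.1, h1'.2, h2'.1, h2'.2, h3'.1, h3'.2]
    calc 1 / (m : ℝ) * |Real.log (a ⌊(t + m * s) * N⌋₊) - Real.log (a ⌊t * N⌋₊)|
        ≤ 1 / (m : ℝ) * (|ρ| * Real.log ((t + m * s) / t) + 2 * B) := mul_le_mul_of_nonneg_left e1 (by positivity)
      _ = (|ρ| * Real.log ((t + m * s) / t) + 2 * B) / m := by ring
      _ ≤ ε / 8 := hm.le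
  obtain ⟨N2, hN2⟩ := eventually_atTop.1 hsm
  refine ⟨max N1 N2, fun p hp q hq => ?_⟩
  have h1 := hN1 p ((le_max_left _ _).trans hp) q ((le_max_left _ _).trans hq)
  have h2 := hN2 p ((le_max_right _ _).trans hp)
  have h3 := hN2 q ((le_max_right _ _).trans hq)
  have e1 := hid p
  have e2 := hid q
  show dist (D t p) (D t q) < ε
  rw [Real.dist_eq] at h1 ⊢
  have h1' := abs_lt.1 h1
  have h2' := abs_le.1 h2
  have h3' := abs_le.1 h3
  rw [abs_lt]
  constructor <;> linarith [h1'.1, h1'.2, h2'.1, h2'.2, h3'.1, h3'.2]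

include hQ in
/-- the ratios converge -/
lemma ratio (x : ℝ) (hx : 0 < x) : ∃ l : ℝ, 0 < l ∧ Tendsto (fun N : ℕ => a ⌊x * N⌋₊ / a N) atTop (𝓝 l) := by
  have key : ∃ l : ℝ, Tendsto (fun N : ℕ => Real.log (a ⌊x * N⌋₊) - Real.log (a N)) atTop (𝓝 l) := by
    rcases lt_trichotomy x 1 with h | h | h
    · obtain ⟨l, hl⟩ := incr ha hc hC hb hQ (1 - x) x (by linarith) hx
      refine ⟨-l, hl.neg.congr fun N => ?_⟩
      rw [show x + (1 - x) = 1 by ring, one_mul, Nat.floor_natCast]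
      ring
    · refine ⟨0, ?_⟩
      subst h
      simp only [one_mul, Nat.floor_natCast, sub_self]
      exact tendsto_const_nhds
    · obtain ⟨l, hl⟩ := incr ha hc hC hb hQ (x - 1) 1 (by linarith) one_pos
      refine ⟨l, hl.congr fun N => ?_⟩
      rw [show 1 + (x - 1) = x by ring, one_mul, Nat.floor_natCast]
  obtain ⟨l, hl⟩ := key
  refine ⟨Real.exp l, Real.exp_pos _, (Real.continuous_exp.tendsto l).comp hl |>.congr fun N => ?_⟩
  simp only [Function.comp_apply]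
  rw [Real.exp_sub, Real.exp_log (ha _), Real.exp_log (ha _)]

variable (hsl : ∀ ε : ℝ, 0 < ε → ∃ δ : ℝ, 0 < δ ∧ ∀ n m : ℕ, 1 / δ ≤ n → n ≤ m → (m : ℝ) ≤ (1 + δ) * n → |a m / a n - 1| ≤ ε)

omit ha hc hC hb in
include ha hsl in
/-- slow change, two sequences -/
lemma near (f g : ℕ → ℕ) (K : ℝ) (hf : Tendsto f atTop atTop) (hg : Tendsto g atTop atTop)
    (h : ∀ N, |(f N : ℝ) - g N| ≤ K) : Tendsto (fun N => a (f N) / a (g N)) atTop (𝓝 1) := by
  rw [Metric.tendsto_atTop]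
  intro ε hε
  obtain ⟨e, he, he1, he2⟩ : ∃ e : ℝ, 0 < e ∧ e ≤ 1 / 2 ∧ 4 * e ≤ ε := ⟨min (1 / 2) (ε / 4), lt_min (by norm_num) (by positivity),
    min_le_left _ _, by linarith [min_le_right (1 / 2) (ε / 4)]⟩
  obtain ⟨δ, hδ, hd⟩ := hsl e he
  have h1 := (tendsto_natCast_atTop_atTop (R := ℝ)).comp hf
  have h2 := (tendsto_natCast_atTop_atTop (R := ℝ)).comp hg
  obtain ⟨N0, hN0⟩ := eventually_atTop.1 ((h1.eventually_ge_atTop (max (1 / δ) (K / δ))).and
    (h2.eventually_ge_atTop (max (1 / δ) (K / δ))))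
  refine ⟨N0, fun N hN => ?_⟩
  obtain ⟨k1, k2⟩ := hN0 N hN
  simp only [Function.comp_apply] at k1 k2
  have a1 := (le_max_left _ _).trans k1
  have a2 := (le_max_right _ _).trans k1
  have b1 := (le_max_left _ _).trans k2
  have b2 := (le_max_right _ _).trans k2
  rw [div_le_iff₀ hδ] at a2 b2
  have h3 := abs_le.1 (h N)
  rw [Real.dist_eq]
  rcases le_total (g N) (f N) with hfg | hfg
  · have := hd (g N) (f N) b1 hfg (by linarith [h3.2])
    linarith
  · have h4 := hd (f N) (g N) a1 hfg (by linarith [h3.1])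
    have hr : 0 < a (g N) / a (f N) := div_pos (ha _) (ha _)
    have h5 := abs_le.1 h4
    have h6 : a (f N) / a (g N) = (a (g N) / a (f N))⁻¹ := by rw [inv_div]
    rw [h6]
    set r := a (g N) / a (f N)
    have h7 : |r⁻¹ - 1| = |1 - r| / r := by
      rw [show r⁻¹ - 1 = (1 - r) / r by field_simp, abs_div, abs_of_pos hr]
    rw [h7, div_lt_iff₀ hr]
    have h8 : |1 - r| ≤ e := by rw [abs_sub_comm]; exact h4
    nlinarith [h5.1]

include hQ hsl in
/-- **the cross ratios decide** -/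
theorem conv_of (x : ℝ) (hx : 0 < x) : Tendsto (fun N : ℕ => a ⌊x * N⌋₊ / a N) atTop (𝓝 (x ^ ρ)) := by
  choose! al hal hlim using ratio ha hc hC hb hQ
  have hfl : ∀ y : ℝ, 0 < y → Tendsto (fun N : ℕ => ⌊y * N⌋₊) atTop atTop := fun y hy =>
    tendsto_nat_floor_atTop.comp (tendsto_natCast_atTop_atTop.const_mul_atTop hy)
  -- multiplicative
  have hmul : ∀ y z : ℝ, 0 < y → 0 < z → al (y * z) = al y * al z := by
    intro y z hy hz
    have h1 := hlim (y * z) (by positivity)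
    have h2 := (hlim y hy).comp (hfl z hz)
    have h3 := hlim z hz
    have h4 : Tendsto (fun N : ℕ => a ⌊y * z * N⌋₊ / a ⌊y * (⌊z * N⌋₊ : ℕ)⌋₊) atTop (𝓝 1) := by
      refine near ha hsl _ _ (y + 1) (hfl _ (by positivity)) ((hfl y hy).comp (hfl z hz)) fun N => ?_
      have hzN : 0 ≤ z * N := by positivity
      have e1 : (⌊z * N⌋₊ : ℝ) ≤ z * N := Nat.floor_le hzN
      have e2 : z * N < ⌊z * N⌋₊ + 1 := Nat.lt_floor_add_one _
      have e3 : (⌊y * z * N⌋₊ : ℝ) ≤ y * z * N := Nat.floor_le (by positivity)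
      have e4 : y * z * N < ⌊y * z * N⌋₊ + 1 := Nat.lt_floor_add_one _
      have e5 : (⌊y * (⌊z * N⌋₊ : ℕ)⌋₊ : ℝ) ≤ y * ⌊z * N⌋₊ := Nat.floor_le (by positivity)
      have e6 : y * (⌊z * N⌋₊ : ℕ) < ⌊y * (⌊z * N⌋₊ : ℕ)⌋₊ + 1 := Nat.lt_floor_add_one _
      have e7 : y * (⌊z * N⌋₊ : ℝ) ≤ y * (z * N) := mul_le_mul_of_nonneg_left e1 hy.le
      have e8 : y * (z * N) < y * (⌊z * N⌋₊ + 1) := mul_lt_mul_of_pos_left e2 hy
      rw [abs_le]
      constructor <;> nlinarith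
    have h5 := (h4.mul h2).mul h3
    rw [one_mul] at h5
    refine tendsto_nhds_unique h1 (h5.congr fun N => ?_)
    simp only [Function.comp_apply]
    have := (ha ⌊y * (⌊z * N⌋₊ : ℕ)⌋₊).ne'
    have := (ha ⌊z * N⌋₊).ne'
    field_simp
  -- powers
  have hpow : ∀ (y : ℝ), 0 < y → ∀ m : ℕ, al (y ^ m) = al y ^ m := by
    intro y hy m
    induction m with
    | zero =>
      rw [pow_zero, pow_zero]
      have := hmul 1 1 one_pos one_pos
      rw [one_mul] at this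
      have h0 := hal 1 one_pos
      nlinarith
    | succ m ih => rw [pow_succ, hmul _ _ (by positivity) hy, ih, pow_succ]
  -- bounds
  have hbd : ∀ y : ℝ, 0 < y → c / C * y ^ ρ ≤ al y ∧ al y ≤ C / c * y ^ ρ := by
    intro y hy
    have h0 : Tendsto (fun N : ℕ => (⌊y * N⌋₊ : ℝ) / N) atTop (𝓝 y) :=
      (tendsto_nat_floor_mul_div_atTop hy.le).comp tendsto_natCast_atTop_atTop
    have h1 : Tendsto (fun N : ℕ => ((⌊y * N⌋₊ : ℝ) / N) ^ ρ) atTop (𝓝 (y ^ ρ)) :=
      h0.rpow_const (Or.inl hy.ne')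
    constructor
    · refine le_of_tendsto_of_tendsto (h1.const_mul (c / C)) (hlim y hy) ?_
      filter_upwards [eventually_ge_atTop 1, (hfl y hy).eventually_ge_atTop 1] with N hN hm
      have hN0 : (0 : ℝ) < N := by exact_mod_cast hN
      have hm0 : (0 : ℝ) < (⌊y * N⌋₊ : ℕ) := by exact_mod_cast hm
      rw [Real.div_rpow hm0.le hN0.le, le_div_iff₀ (ha _)]
      have e1 := (hb _ hm).1
      have e2 := (hb _ hN).2
      have e3 : (0 : ℝ) < (N : ℝ) ^ ρ := by positivity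
      calc c / C * ((⌊y * N⌋₊ : ℝ) ^ ρ / (N : ℝ) ^ ρ) * a N ≤ c / C * ((⌊y * N⌋₊ : ℝ) ^ ρ / (N : ℝ) ^ ρ) * (C * (N : ℝ) ^ ρ) := by
            gcongr
        _ = c * (⌊y * N⌋₊ : ℝ) ^ ρ := by field_simp
        _ ≤ a ⌊y * N⌋₊ := e1
    · refine le_of_tendsto_of_tendsto (hlim y hy) (h1.const_mul (C / c)) ?_
      filter_upwards [eventually_ge_atTop 1, (hfl y hy).eventually_ge_atTop 1] with N hN hm
      have hN0 : (0 : ℝ) < N := by exact_mod_cast hN
      have hm0 : (0 : ℝ) < (⌊y * N⌋₊ : ℕ) := by exact_mod_cast hm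
      rw [Real.div_rpow hm0.le hN0.le, div_le_iff₀ (ha _)]
      have e1 := (hb _ hm).2
      have e2 := (hb _ hN).1
      have e3 : (0 : ℝ) < (N : ℝ) ^ ρ := by positivity
      calc a ⌊y * N⌋₊ ≤ C * (⌊y * N⌋₊ : ℝ) ^ ρ := e1
        _ = C / c * ((⌊y * N⌋₊ : ℝ) ^ ρ / (N : ℝ) ^ ρ) * (c * (N : ℝ) ^ ρ) := by field_simp
        _ ≤ C / c * ((⌊y * N⌋₊ : ℝ) ^ ρ / (N : ℝ) ^ ρ) * a N := by gcongr
  -- conclusion
  have hfin : al x = x ^ ρ := by
    have hxr : (0 : ℝ) < x ^ ρ := by positivity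
    obtain ⟨r, hr⟩ : ∃ r : ℝ, r = al x / x ^ ρ := ⟨_, rfl⟩
    have hr0 : 0 < r := by rw [hr]; exact div_pos (hal x hx) hxr
    have hpb : ∀ m : ℕ, c / C ≤ r ^ m ∧ r ^ m ≤ C / c := by
      intro m
      have h1 := hbd (x ^ m) (by positivity)
      have e1 : (x ^ m) ^ ρ = (x ^ ρ) ^ m := by
        rw [← Real.rpow_natCast, ← Real.rpow_natCast, ← Real.rpow_mul hx.le, ← Real.rpow_mul hx.le, mul_comm]
      rw [hpow x hx, e1] at h1
      have e2 : 0 < (x ^ ρ) ^ m := by positivity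
      rw [hr, div_pow, le_div_iff₀ e2, div_le_iff₀ e2]
      exact h1
    have hr1 : r = 1 := by
      rcases lt_trichotomy r 1 with h | h | h
      · exfalso
        obtain ⟨m, hm⟩ := exists_pow_lt_of_lt_one (show (0 : ℝ) < c / C by positivity) h
        exact absurd (hpb m).1 (not_le.2 hm)
      · exact h
      · exfalso
        obtain ⟨m, hm⟩ := pow_unbounded_of_one_lt (C / c) h
        exact absurd (hpb m).2 (not_le.2 hm)
    rw [hr, div_eq_one_iff_eq hxr.ne'] at hr1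
    exact hr1
  rw [← hfin]
  exact hlim x hx

end

end Pool.Agent.CRT.V.E
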