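import Pool.Agent.CRT.ToRatB

/-!
# CRT, row 11A, VEnd, part B (helper66): the limit of the masses of the boxes

Abstract: `F n b K` is the probability that the first cut to the right of `b` is not later than `K`, `G a t` its macroscopic
limit. `box_lim`: the mass of a box, averaged over the start of the zone, converges.
-/

set_option autoImplicit false

open Set Filter Topology MeasureTheory

namespace Pool.Agent.CRT.V.E

/-- the limits of the probabilities along a sequence, up to a shift of the (rational) parameters -/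
def LimAt (F : ℕ → ℝ → ℕ → ℝ) (sz : ℕ → ℝ) (G : ℝ → ℝ → ℝ) (n : ℕ → ℕ) : Prop :=
  ∀ a t δ : ℚ, (0 : ℝ) < a → (0 : ℝ) < t → (t : ℝ) < 1 → (0 : ℝ) < δ → ∀ᶠ j : ℕ in atTop,
    G ((a : ℝ) + δ) ((t : ℝ) - δ) - δ ≤ F (n j) ((a : ℝ) * sz (n j)) ⌊(t : ℝ) * n j⌋₊ ∧
      F (n j) ((a : ℝ) * sz (n j)) ⌊(t : ℝ) * n j⌋₊ ≤ G a t + δ

/-- the data: probabilities and their limits -/
structure Dat where
  F : ℕ → ℝ → ℕ → ℝ
  sz : ℕ → ℝ
  G : ℝ → ℝ → ℝ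
  F0 : ∀ n b K, 0 ≤ F n b K
  F1 : ∀ n b K, F n b K ≤ 1
  Fa : ∀ n K, Antitone fun b => F n b K
  Fm : ∀ n b, Monotone (F n b)
  G0 : ∀ a t, 0 ≤ G a t
  G1 : ∀ a t, G a t ≤ 1
  Ga : ∀ t, Antitone fun a => G a t
  Gm : ∀ a, Monotone (G a)
  szp : ∀ n, 1 ≤ n → 0 < sz n
  szn : ∀ n, 0 ≤ sz n
  szv : ∀ x : ℝ, 0 < x → Tendsto (fun N : ℕ => sz ⌊x * N⌋₊ / sz N) atTop (𝓝 (x ^ (3 / 4 : ℝ)))
  lim : ∀ (L : ℕ) (φ : ℕ → ℕ), Tendsto φ atTop atTop → ∃ ms : ℕ → ℕ, Tendsto (fun j => φ (ms j)) atTop atTop ∧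
    ∀ᵐ x : ℝ, 0 < x → x ≤ L → LimAt F sz G (fun j => ⌊x * φ (ms j)⌋₊)

lemma fl_top {x : ℝ} (hx : 0 < x) : Tendsto (fun N : ℕ => ⌊x * N⌋₊) atTop atTop :=
  tendsto_nat_floor_atTop.comp (tendsto_natCast_atTop_atTop.const_mul_atTop hx)

/-- from the limits for all the numbers of steps -/
lemma lim_of_ptw {F : ℕ → ℝ → ℕ → ℝ} {sz : ℕ → ℝ} {G : ℝ → ℝ → ℝ} (h : ∀ a t : ℝ, 0 < a → 0 < t → t < 1 → ∀ δ : ℝ, 0 < δ →
    ∀ᶠ n : ℕ in atTop, G (a + δ) (t - δ) - δ ≤ F n (a * sz n) ⌊t * n⌋₊ ∧ F n (a * sz n) ⌊t * n⌋₊ ≤ G a t + δ)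
    (L : ℕ) (φ : ℕ → ℕ) (hφ : Tendsto φ atTop atTop) : ∃ ms : ℕ → ℕ, Tendsto (fun j => φ (ms j)) atTop atTop ∧
    ∀ᵐ x : ℝ, 0 < x → x ≤ L → LimAt F sz G (fun j => ⌊x * φ (ms j)⌋₊) :=
  ⟨id, hφ, ae_of_all _ fun _ hx _ a t δ ha ht ht1 hδ => ((fl_top hx).comp hφ).eventually (h a t ha ht ht1 δ hδ)⟩

namespace Dat

variable (D : Dat)

/-- the times without atoms -/
def Gd (t : ℝ) : Prop := ∀ q : ℚ, ContinuousAt (D.G q) t

lemma gd_count : {t : ℝ | ¬ D.Gd t}.Countable := by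
  have h : {t : ℝ | ¬ D.Gd t} = ⋃ q : ℚ, {t : ℝ | ¬ ContinuousAt (D.G q) t} := by
    ext t
    simp [Gd]
  rw [h]
  exact countable_iUnion fun q => (D.Gm q).countable_not_continuousAt

/-- moving parameters -/
lemma point_lim {a t : ℝ} (ha : 0 < a) (ht : 0 < t) (ht1 : t < 1) (hg : D.Gd t) (hc : ContinuousAt (fun a => D.G a t) a)
    {n K : ℕ → ℕ} {b : ℕ → ℝ} (hn : Tendsto n atTop atTop) (hL : LimAt D.F D.sz D.G n)
    (hb : Tendsto (fun j => b j / D.sz (n j)) atTop (𝓝 a))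
    (hK : Tendsto (fun j => (K j : ℝ) / n j) atTop (𝓝 t)) : Tendsto (fun j => D.F (n j) (b j) (K j)) atTop (𝓝 (D.G a t)) := by
  rw [Metric.tendsto_atTop]
  intro ε hε
  -- the rational points
  obtain ⟨r, hr, hr2⟩ := Metric.continuousAt_iff.1 hc (ε / 4) (by positivity)
  obtain ⟨q1, hq1, hq1'⟩ := exists_rat_btwn (show max (a - r) (a / 2) < a from max_lt (by linarith) (by linarith))
  obtain ⟨q3, hq3, hq3'⟩ := exists_rat_btwn (show a < a + r by linarith)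
  obtain ⟨q2, hq2, hq2'⟩ := exists_rat_btwn hq3
  have h1r : a - r < q1 := (le_max_left _ _).trans_lt hq1
  have h1p : 0 < (q1 : ℝ) := lt_of_lt_of_le (by positivity) ((le_max_right (a - r) (a / 2)).trans hq1.le)
  have e1 : D.G q1 t < D.G a t + ε / 4 := by
    have := hr2 (show dist (q1 : ℝ) a < r by rw [Real.dist_eq, abs_lt]; constructor <;> linarith)
    rw [Real.dist_eq, abs_lt] at this
    linarith [this.2]
  have e3 : D.G a t - ε / 4 < D.G q3 t := by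
    have := hr2 (show dist (q3 : ℝ) a < r by rw [Real.dist_eq, abs_lt]; constructor <;> linarith)
    rw [Real.dist_eq, abs_lt] at this
    linarith [this.1]
  obtain ⟨r1, hr1, hr1'⟩ := Metric.continuousAt_iff.1 (hg q1) (ε / 4) (by positivity)
  obtain ⟨r3, hr3, hr3'⟩ := Metric.continuousAt_iff.1 (hg q3) (ε / 4) (by positivity)
  -- the times
  obtain ⟨t1, ht1a, ht1b, ht1c⟩ : ∃ t1 : ℚ, t < t1 ∧ (t1 : ℝ) < 1 ∧ (t1 : ℝ) < t + r1 := by
    obtain ⟨t1, h1, h2⟩ := exists_rat_btwn (show t < min 1 (t + r1) from lt_min ht1 (by linarith))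
    exact ⟨t1, h1, h2.trans_le (min_le_left _ _), h2.trans_le (min_le_right _ _)⟩
  obtain ⟨t2, ht2a, ht2b, ht2c⟩ : ∃ t2 : ℚ, (t2 : ℝ) < t ∧ (0 : ℝ) < t2 ∧ t - r3 < t2 := by
    obtain ⟨t1, h1, h2⟩ := exists_rat_btwn (show max 0 (t - r3) < t from max_lt ht (by linarith))
    exact ⟨t1, h2, (le_max_left _ _).trans_lt h1, (le_max_right _ _).trans_lt h1⟩
  have f1 : D.G q1 t1 < D.G q1 t + ε / 4 := by
    have := hr1' (show dist (t1 : ℝ) t < r1 by rw [Real.dist_eq, abs_lt]; constructor <;> linarith)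
    rw [Real.dist_eq, abs_lt] at this
    linarith [this.2]
  obtain ⟨d, hd, hd1, hd2, hd3⟩ : ∃ d : ℚ, (0 : ℝ) < d ∧ (d : ℝ) ≤ ε / 4 ∧ (d : ℝ) ≤ q3 - q2 ∧ (d : ℝ) < t2 - (t - r3) := by
    obtain ⟨d, h1, h2⟩ := exists_rat_btwn (show (0 : ℝ) < min (ε / 4) (min ((q3 : ℝ) - q2) (t2 - (t - r3))) from
      lt_min (by positivity) (lt_min (by linarith) (by linarith)))
    exact ⟨d, h1, (h2.trans_le (min_le_left _ _)).le, (h2.trans_le ((min_le_right _ _).trans (min_le_left _ _))).le,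
      h2.trans_le ((min_le_right _ _).trans (min_le_right _ _))⟩
  have h2p : 0 < (q2 : ℝ) := ha.trans hq2
  have f3 : D.G q3 t - ε / 4 < D.G q3 (t2 - d) := by
    have := hr3' (show dist ((t2 : ℝ) - d) t < r3 by rw [Real.dist_eq, abs_lt]; constructor <;> linarith)
    rw [Real.dist_eq, abs_lt] at this
    linarith [this.1]
  have g3 : D.G q3 (t2 - d) ≤ D.G (q2 + d) (t2 - d) := D.Ga _ (by linarith)
  have k1 := hL q1 t1 d h1p (ht.trans ht1a) ht1b hd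
  have k2 := hL q2 t2 d h2p ht2b (ht2a.trans ht1) hd
  have k3 := hb.eventually (lt_mem_nhds hq1')
  have k4 := hb.eventually (gt_mem_nhds hq2)
  have k5 := hK.eventually (gt_mem_nhds ht1a)
  have k6 := hK.eventually (lt_mem_nhds ht2a)
  have k7 := hn.eventually_ge_atTop 1
  obtain ⟨j0, hj0⟩ := eventually_atTop.1 (k1.and (k2.and (k3.and (k4.and (k5.and (k6.and k7))))))
  refine ⟨j0, fun j hj => ?_⟩
  obtain ⟨m1, m2, m3, m4, m5, m6, m7⟩ := hj0 j hj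
  have hs := D.szp _ m7
  have hn0 : (0 : ℝ) < n j := by exact_mod_cast m7
  rw [lt_div_iff₀ hs] at m3
  rw [div_lt_iff₀ hs] at m4
  rw [div_lt_iff₀ hn0] at m5
  rw [lt_div_iff₀ hn0] at m6
  have u1 : D.F (n j) (b j) (K j) ≤ D.F (n j) (q1 * D.sz (n j)) ⌊t1 * (n j : ℝ)⌋₊ :=
    (D.Fa _ _ m3.le).trans (D.Fm _ _ (Nat.le_floor m5.le))
  have u2 : D.F (n j) (q2 * D.sz (n j)) ⌊t2 * (n j : ℝ)⌋₊ ≤ D.F (n j) (b j) (K j) := by
    refine (D.Fa _ _ m4.le).trans (D.Fm _ _ ?_)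
    exact_mod_cast ((Nat.floor_le (by positivity)).trans m6.le : (⌊t2 * (n j : ℝ)⌋₊ : ℝ) ≤ K j)
  rw [Real.dist_eq, abs_lt]
  constructor <;> linarith [m1.2, m2.1]

/-- the averages over the zone -/
lemma zone_lim {σ : ℝ} (hσ : 0 < σ) {t1 t2 : ℝ} (ht1 : 0 < t1) (ht1' : t1 < 1) (hg1 : D.Gd t1)
    (ht2 : 0 < t2) (ht2' : t2 < 1) (hg2 : D.Gd t2) {β0 β1 : ℝ} (h0 : 0 < β0) (h1 : β0 ≤ β1)
    {n K1 K2 : ℕ → ℕ} {s : ℕ → ℝ} (hn : Tendsto n atTop atTop) (hL : LimAt D.F D.sz D.G n) (hs0 : ∀ j, 0 ≤ s j)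
    (hs : Tendsto (fun j => s j / D.sz (n j)) atTop (𝓝 σ))
    (hK1 : Tendsto (fun j => (K1 j : ℝ) / n j) atTop (𝓝 t1)) (hK2 : Tendsto (fun j => (K2 j : ℝ) / n j) atTop (𝓝 t2)) :
    Tendsto (fun j => ∫ β in β0..β1, max 0 (D.F (n j) (β * s j) (K2 j) - D.F (n j) (β * s j) (K1 j))) atTop
      (𝓝 (∫ β in β0..β1, max 0 (D.G (β * σ) t2 - D.G (β * σ) t1))) := by
  refine intervalIntegral.tendsto_integral_filter_of_dominated_convergence (fun _ => 1) ?_ ?_ intervalIntegrable_const ?_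
  · refine Eventually.of_forall fun j => Measurable.aestronglyMeasurable ?_
    have hm : ∀ K : ℕ, Measurable fun β : ℝ => D.F (n j) (β * s j) K := by
      intro K
      refine Antitone.measurable fun β β' h => D.Fa _ _ (mul_le_mul_of_nonneg_right h (hs0 j))
    exact measurable_const.max ((hm _).sub (hm _))
  · refine Eventually.of_forall fun j => Eventually.of_forall fun β _ => ?_
    rw [Real.norm_of_nonneg (le_max_left _ _)]
    exact max_le zero_le_one (by linarith [D.F1 (n j) (β * s j) (K2 j), D.F0 (n j) (β * s j) (K1 j)])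
  · have hcount : ∀ t : ℝ, {β : ℝ | ¬ ContinuousAt (fun a => D.G a t) (β * σ)}.Countable := fun t =>
      ((D.Ga t).countable_not_continuousAt).preimage_of_injOn (f := fun β : ℝ => β * σ)
        (fun x _ y _ h => mul_right_cancel₀ hσ.ne' h)
    have hae : ∀ t : ℝ, ∀ᵐ β : ℝ, ContinuousAt (fun a => D.G a t) (β * σ) := by
      intro t
      have := (hcount t).ae_notMem volume
      filter_upwards [this] with β hβ
      exact not_not.1 hβ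
    filter_upwards [hae t1, hae t2] with β hβ1 hβ2 hβ
    rw [uIoc_of_le h1] at hβ
    have hβ0 : 0 < β := h0.trans hβ.1
    have hb : Tendsto (fun j => β * s j / D.sz (n j)) atTop (𝓝 (β * σ)) := by
      refine (hs.const_mul β).congr fun j => ?_
      rw [mul_div_assoc]
    exact tendsto_const_nhds.max ((D.point_lim (by positivity) ht2 ht2' hg2 hβ2 hn hL hb hK2).sub
      (D.point_lim (by positivity) ht1 ht1' hg1 hβ1 hn hL hb hK1))

/-! ### boxes -/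

/-- last time of the box, for the walks with `n` steps -/
def hi (k2 m1 n : ℕ) : ℕ := min k2 (n - m1 - 1)

/-- the time before the box, for the walks with `n` steps -/
def lo (k1 m2 n : ℕ) : ℕ := max k1 (n - m2 - 1)

/-- macroscopic version -/
noncomputable def hiL (κ2 y1 x : ℝ) : ℝ := min (κ2 / x) (max 0 (1 - y1 / x))

/-- macroscopic version -/
noncomputable def loL (κ1 y2 x : ℝ) : ℝ := max (κ1 / x) (max 0 (1 - y2 / x))

/-- the averaged mass of the box, walks with `n` steps -/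
noncomputable def psi (β0 β1 κ1 κ2 y1 y2 : ℝ) (N n : ℕ) : ℝ :=
  ∫ β in β0..β1, max 0 (D.F n (β * D.sz N) (hi ⌊κ2 * N⌋₊ ⌊y1 * N⌋₊ n) - D.F n (β * D.sz N) (lo ⌊κ1 * N⌋₊ ⌊y2 * N⌋₊ n))

/-- its limit -/
noncomputable def gl (β0 β1 κ1 κ2 y1 y2 x : ℝ) : ℝ :=
  ∫ β in β0..β1, max 0 (D.G (β * x ^ (-(3 / 4) : ℝ)) (hiL κ2 y1 x) - D.G (β * x ^ (-(3 / 4) : ℝ)) (loL κ1 y2 x))

lemma cast_sub' (n m : ℕ) : ((n - m - 1 : ℕ) : ℝ) = max 0 ((n : ℝ) - m - 1) := by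
  rcases le_or_gt (m + 1) n with h | h
  · obtain ⟨c, rfl⟩ := Nat.exists_eq_add_of_le h
    rw [show m + 1 + c - m - 1 = c by omega]
    push_cast
    rw [show (m : ℝ) + 1 + c - m - 1 = c by ring, max_eq_right (Nat.cast_nonneg c)]
  · rw [show n - m - 1 = 0 by omega, Nat.cast_zero]
    have : (n : ℝ) < m + 1 := by exact_mod_cast h
    rw [max_eq_left (by linarith)]

lemma fl_div {κ x : ℝ} (hκ : 0 ≤ κ) (hx : 0 < x) : Tendsto (fun N : ℕ => (⌊κ * N⌋₊ : ℝ) / (⌊x * N⌋₊ : ℕ)) atTop (𝓝 (κ / x)) := by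
  have h1 : Tendsto (fun N : ℕ => (⌊κ * N⌋₊ : ℝ) / N) atTop (𝓝 κ) :=
    (tendsto_nat_floor_mul_div_atTop hκ).comp tendsto_natCast_atTop_atTop
  have h2 : Tendsto (fun N : ℕ => (⌊x * N⌋₊ : ℝ) / N) atTop (𝓝 x) :=
    (tendsto_nat_floor_mul_div_atTop hx.le).comp tendsto_natCast_atTop_atTop
  refine (h1.div h2 hx.ne').congr' ?_
  filter_upwards [eventually_gt_atTop 0] with N hN
  have : (N : ℝ) ≠ 0 := by exact_mod_cast hN.ne'
  simp only [Pi.div_apply]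
  rw [div_div_div_cancel_right₀ this]

lemma subdiv {y x : ℝ} (hy : 0 ≤ y) (hx : 0 < x) :
    Tendsto (fun N : ℕ => ((⌊x * N⌋₊ - ⌊y * N⌋₊ - 1 : ℕ) : ℝ) / (⌊x * N⌋₊ : ℕ)) atTop (𝓝 (max 0 (1 - y / x))) := by
  have h1 : Tendsto (fun N : ℕ => max 0 (1 - (⌊y * N⌋₊ : ℝ) / (⌊x * N⌋₊ : ℕ) - 1 / (⌊x * N⌋₊ : ℕ))) atTop
      (𝓝 (max 0 (1 - y / x - 0))) :=
    tendsto_const_nhds.max (((fl_div hy hx).const_sub 1).sub (tendsto_one_div_atTop_nhds_zero_nat.comp (fl_top hx)))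
  rw [sub_zero] at h1
  refine h1.congr' ?_
  filter_upwards [(fl_top hx).eventually_ge_atTop 1] with N hN
  have h0 : (0 : ℝ) < (⌊x * N⌋₊ : ℕ) := by exact_mod_cast hN
  rw [cast_sub', ← max_div_div_right h0.le, zero_div, _root_.sub_div, _root_.sub_div, div_self h0.ne']

section box

variable {β0 β1 κ1 κ2 y1 y2 : ℝ} (hβ0 : 0 < β0) (hβ : β0 ≤ β1) (hκ1 : 0 < κ1) (hκ : κ1 < κ2) (hy1 : 0 < y1) (hy : y1 < y2)

lemma hi_lim (hκ1 : 0 < κ1) (hκ : κ1 < κ2) (hy1 : 0 < y1) {x : ℝ} (hx : 0 < x) :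
    Tendsto (fun N : ℕ => (hi ⌊κ2 * N⌋₊ ⌊y1 * N⌋₊ ⌊x * N⌋₊ : ℝ) / (⌊x * N⌋₊ : ℕ)) atTop (𝓝 (hiL κ2 y1 x)) := by
  refine ((fl_div (hκ1.trans hκ).le hx).min (subdiv hy1.le hx)).congr fun N => ?_
  rw [hi, Nat.cast_min, min_div_div_right (Nat.cast_nonneg _)]

lemma lo_lim (hκ1 : 0 < κ1) (hy1 : 0 < y1) (hy : y1 < y2) {x : ℝ} (hx : 0 < x) :
    Tendsto (fun N : ℕ => (lo ⌊κ1 * N⌋₊ ⌊y2 * N⌋₊ ⌊x * N⌋₊ : ℝ) / (⌊x * N⌋₊ : ℕ)) atTop (𝓝 (loL κ1 y2 x)) := by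
  refine ((fl_div hκ1.le hx).max (subdiv (hy1.trans hy).le hx)).congr fun N => ?_
  rw [lo, Nat.cast_max, max_div_div_right (Nat.cast_nonneg _)]

include hβ0 hβ hκ1 hκ hy1 hy

lemma psi_lim {φ : ℕ → ℕ} (hφ : Tendsto φ atTop atTop) {x : ℝ} (hL : LimAt D.F D.sz D.G (fun j => ⌊x * φ j⌋₊))
    (hx1 : κ1 + y1 < x) (hg1 : D.Gd (hiL κ2 y1 x)) (hg2 : D.Gd (loL κ1 y2 x)) :
    Tendsto (fun j : ℕ => D.psi β0 β1 κ1 κ2 y1 y2 (φ j) ⌊x * φ j⌋₊) atTop (𝓝 (D.gl β0 β1 κ1 κ2 y1 y2 x)) := by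
  have hx : 0 < x := by linarith
  have hσ : 0 < x ^ (-(3 / 4) : ℝ) := by positivity
  have e1 : 0 < κ1 / x := by positivity
  have e2 : κ1 / x < 1 := (div_lt_one hx).2 (by linarith)
  have e3 : 0 < κ2 / x := div_pos (hκ1.trans hκ) hx
  have e4 : 0 < 1 - y1 / x := by
    have := (div_lt_one hx).2 (show y1 < x by linarith)
    linarith
  have e5 : 1 - y1 / x < 1 := by
    have : 0 < y1 / x := by positivity
    linarith
  have e6 : 1 - y2 / x < 1 := by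
    have : 0 < y2 / x := div_pos (hy1.trans hy) hx
    linarith
  have hs : Tendsto (fun N : ℕ => D.sz N / D.sz ⌊x * N⌋₊) atTop (𝓝 (x ^ (-(3 / 4) : ℝ))) := by
    rw [Real.rpow_neg hx.le]
    refine ((D.szv x hx).inv₀ (by positivity)).congr fun N => ?_
    rw [inv_div]
  refine D.zone_lim hσ ?_ ?_ hg2 ?_ ?_ hg1 hβ0 hβ ((fl_top hx).comp hφ) hL (fun j => D.szn (φ j)) (hs.comp hφ)
    ((lo_lim hκ1 hy1 hy hx).comp hφ) ((hi_lim hκ1 hκ hy1 hx).comp hφ)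
  · exact e1.trans_le (le_max_left _ _)
  · exact max_lt e2 (max_lt one_pos e6)
  · exact lt_min e3 (e4.trans_le (le_max_right _ _))
  · exact (min_le_right _ _).trans_lt (max_lt one_pos e5)

omit hβ0 hβ hκ1 hκ hy1 hy in
lemma psi_out {N n : ℕ} (h : hi ⌊κ2 * N⌋₊ ⌊y1 * N⌋₊ n ≤ lo ⌊κ1 * N⌋₊ ⌊y2 * N⌋₊ n) : D.psi β0 β1 κ1 κ2 y1 y2 N n = 0 := by
  unfold psi
  rw [intervalIntegral.integral_congr (g := fun _ => 0), intervalIntegral.integral_zero]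
  intro β _
  show max 0 _ = 0
  exact max_eq_left (by linarith [D.Fm n (β * D.sz N) h])

omit hβ0 hβ hκ1 hκ hy1 hy in
lemma gl_out {x : ℝ} (h : hiL κ2 y1 x ≤ loL κ1 y2 x) : D.gl β0 β1 κ1 κ2 y1 y2 x = 0 := by
  unfold gl
  rw [intervalIntegral.integral_congr (g := fun _ => 0), intervalIntegral.integral_zero]
  intro β _
  show max 0 _ = 0
  exact max_eq_left (by linarith [D.Gm (β * x ^ (-(3 / 4) : ℝ)) h])

omit hβ0 hβ in
lemma psi_lim' {x : ℝ} (hx : 0 < x) (h : x < κ1 + y1 ∨ κ2 + y2 < x) :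
    Tendsto (fun N : ℕ => D.psi β0 β1 κ1 κ2 y1 y2 N ⌊x * N⌋₊) atTop (𝓝 (D.gl β0 β1 κ1 κ2 y1 y2 x)) := by
  have hκ2 : 0 < κ2 := hκ1.trans hκ
  have hy2 : 0 < y2 := hy1.trans hy
  rcases h with h | h
  · have h0 : hiL κ2 y1 x ≤ loL κ1 y2 x := by
      refine (min_le_right _ _).trans ((max_le (by positivity) ?_).trans (le_max_left _ _))
      rw [sub_le_iff_le_add, ← add_div, le_div_iff₀ hx]
      linarith
    rw [D.gl_out h0]
    refine tendsto_const_nhds.congr' ?_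
    have h1 : ∀ᶠ N : ℕ in atTop, (2 : ℝ) ≤ (κ1 + y1 - x) * N :=
      (tendsto_natCast_atTop_atTop.const_mul_atTop (by linarith)).eventually_ge_atTop _
    filter_upwards [h1] with N hN
    refine (D.psi_out ?_).symm
    refine (min_le_right _ _).trans (le_trans ?_ (le_max_left _ _))
    have a1 : (⌊x * N⌋₊ : ℝ) ≤ x * N := Nat.floor_le (by positivity)
    have a2 : κ1 * N < ⌊κ1 * N⌋₊ + 1 := Nat.lt_floor_add_one _
    have a3 : y1 * N < ⌊y1 * N⌋₊ + 1 := Nat.lt_floor_add_one _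
    have a4 : (⌊x * N⌋₊ : ℝ) ≤ ⌊κ1 * N⌋₊ + ⌊y1 * N⌋₊ := by nlinarith
    have a5 : ⌊x * N⌋₊ ≤ ⌊κ1 * N⌋₊ + ⌊y1 * N⌋₊ := by exact_mod_cast a4
    omega
  · have h0 : hiL κ2 y1 x ≤ loL κ1 y2 x := by
      refine (min_le_left _ _).trans (le_trans ?_ ((le_max_right _ _).trans (le_max_right _ _)))
      rw [le_sub_iff_add_le, ← add_div, div_le_one hx]
      linarith
    rw [D.gl_out h0]
    refine tendsto_const_nhds.congr' ?_
    have h1 : ∀ᶠ N : ℕ in atTop, (3 : ℝ) ≤ (x - κ2 - y2) * N :=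
      (tendsto_natCast_atTop_atTop.const_mul_atTop (by linarith)).eventually_ge_atTop _
    filter_upwards [h1] with N hN
    refine (D.psi_out ?_).symm
    refine (min_le_left _ _).trans (le_trans ?_ (le_max_right _ _))
    have a1 : x * N < ⌊x * N⌋₊ + 1 := Nat.lt_floor_add_one _
    have a2 : (⌊κ2 * N⌋₊ : ℝ) ≤ κ2 * N := Nat.floor_le (by positivity)
    have a3 : (⌊y2 * N⌋₊ : ℝ) ≤ y2 * N := Nat.floor_le (by positivity)
    have a4 : (⌊κ2 * N⌋₊ : ℝ) + ⌊y2 * N⌋₊ + 1 ≤ ⌊x * N⌋₊ := by nlinarith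
    have a5 : ⌊κ2 * N⌋₊ + ⌊y2 * N⌋₊ + 1 ≤ ⌊x * N⌋₊ := by exact_mod_cast a4
    omega

/-- convergence at almost every point, along a subsequence -/
theorem ae_lim (L : ℕ) (φ : ℕ → ℕ) (hφ : Tendsto φ atTop atTop) : ∃ ms : ℕ → ℕ, Tendsto (fun j => φ (ms j)) atTop atTop ∧
    ∀ᵐ x : ℝ, 0 < x → x ≤ L →
    Tendsto (fun j : ℕ => D.psi β0 β1 κ1 κ2 y1 y2 (φ (ms j)) ⌊x * φ (ms j)⌋₊) atTop (𝓝 (D.gl β0 β1 κ1 κ2 y1 y2 x)) := by
  obtain ⟨ms, hms, hlim⟩ := D.lim L φ hφ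
  refine ⟨ms, hms, ?_⟩
  have hcd : ∀ y : ℝ, 0 < y → ∀ᵐ x : ℝ, 0 < x → D.Gd (y / x) := by
    intro y hy
    have hc : ({x : ℝ | 0 < x ∧ ¬ D.Gd (y / x)}).Countable := by
      refine ((D.gd_count).image (fun t : ℝ => y / t)).mono ?_
      rintro x ⟨hx, hx'⟩
      exact ⟨y / x, hx', by show y / (y / x) = x; field_simp⟩
    filter_upwards [hc.ae_notMem volume] with x hx hx0
    by_contra hcc
    exact hx ⟨hx0, hcc⟩
  have hcd' : ∀ y : ℝ, 0 < y → ∀ᵐ x : ℝ, 0 < x → D.Gd (1 - y / x) := by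
    intro y hy
    have hc : ({x : ℝ | 0 < x ∧ ¬ D.Gd (1 - y / x)}).Countable := by
      refine ((D.gd_count).image (fun t : ℝ => y / (1 - t))).mono ?_
      rintro x ⟨hx, hx'⟩
      exact ⟨1 - y / x, hx', by show y / (1 - (1 - y / x)) = x; rw [sub_sub_cancel]; field_simp⟩
    filter_upwards [hc.ae_notMem volume] with x hx hx0
    by_contra hcc
    exact hx ⟨hx0, hcc⟩
  have hpt : ∀ y : ℝ, ∀ᵐ x : ℝ, x ≠ y := fun y => by simp [ae_iff]
  filter_upwards [hcd κ1 hκ1, hcd κ2 (hκ1.trans hκ), hcd' y1 hy1, hcd' y2 (hy1.trans hy), hpt (κ1 + y1), hpt (κ2 + y2), hlim]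
    with x c1 c2 c3 c4 p1 p2 hlx hx0 hxL
  rcases lt_or_gt_of_ne p1 with h | h
  · exact (D.psi_lim' hκ1 hκ hy1 hy hx0 (Or.inl h)).comp hms
  rcases lt_or_gt_of_ne p2 with h' | h'
  swap
  · exact (D.psi_lim' hκ1 hκ hy1 hy hx0 (Or.inr h')).comp hms
  refine D.psi_lim hβ0 hβ hκ1 hκ hy1 hy hms (hlx hx0 hxL) h ?_ ?_
  · have e4 : 0 < 1 - y1 / x := by
      have := (div_lt_one hx0).2 (show y1 < x by linarith)
      linarith
    rw [hiL, max_eq_right e4.le]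
    rcases min_choice (κ2 / x) (1 - y1 / x) with e | e
    · rw [e]
      exact c2 hx0
    · rw [e]
      exact c3 hx0
  · rw [loL]
    have e1 : 0 < κ1 / x := by positivity
    rcases max_choice (κ1 / x) (max 0 (1 - y2 / x)) with e | e
    · rw [e]
      exact c1 hx0
    · have e5 : 0 < max 0 (1 - y2 / x) := e1.trans_le (by rw [← e]; exact le_max_left _ _)
      rw [e]
      rcases max_choice 0 (1 - y2 / x) with e' | e'
      · rw [e'] at e5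
        exact absurd e5 (lt_irrefl _)
      · rw [e']
        exact c4 hx0

omit hβ0 hκ1 hκ hy1 hy in
lemma psi_bd (N n : ℕ) : 0 ≤ D.psi β0 β1 κ1 κ2 y1 y2 N n ∧ D.psi β0 β1 κ1 κ2 y1 y2 N n ≤ β1 - β0 := by
  refine ⟨intervalIntegral.integral_nonneg hβ fun β _ => le_max_left _ _, ?_⟩
  have h2 := intervalIntegral.norm_integral_le_of_norm_le_const (a := β0) (b := β1) (C := 1)
    (f := fun β => max 0 (D.F n (β * D.sz N) (hi ⌊κ2 * N⌋₊ ⌊y1 * N⌋₊ n) - D.F n (β * D.sz N) (lo ⌊κ1 * N⌋₊ ⌊y2 * N⌋₊ n)))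
    (fun β _ => by
      rw [Real.norm_of_nonneg (le_max_left _ _)]
      exact max_le zero_le_one (by
        linarith [D.F1 n (β * D.sz N) (hi ⌊κ2 * N⌋₊ ⌊y1 * N⌋₊ n), D.F0 n (β * D.sz N) (lo ⌊κ1 * N⌋₊ ⌊y2 * N⌋₊ n)]))
  rw [one_mul, abs_of_nonneg (by linarith)] at h2
  exact (le_abs_self _).trans h2

omit hβ0 hκ1 hκ hy1 hy in
lemma gl_nonneg (x : ℝ) : 0 ≤ D.gl β0 β1 κ1 κ2 y1 y2 x :=
  intervalIntegral.integral_nonneg hβ fun β _ => le_max_left _ _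

lemma gl_int (L : ℕ) : IntervalIntegrable (fun x => D.gl β0 β1 κ1 κ2 y1 y2 x) volume 0 L := by
  have hL0 : (0 : ℝ) ≤ L := Nat.cast_nonneg L
  rw [intervalIntegrable_iff_integrableOn_Ioc_of_le hL0]
  obtain ⟨ms, -, hae⟩ := D.ae_lim hβ0 hβ hκ1 hκ hy1 hy L id tendsto_id
  have h1 : ∀ᵐ x : ℝ ∂(volume.restrict (Ioc (0 : ℝ) L)),
      Tendsto (fun j : ℕ => D.psi β0 β1 κ1 κ2 y1 y2 (id (ms j)) ⌊x * (id (ms j) : ℕ)⌋₊) atTop
        (𝓝 (D.gl β0 β1 κ1 κ2 y1 y2 x)) := by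
    rw [ae_restrict_iff' measurableSet_Ioc]
    filter_upwards [hae] with x hx hx'
    exact hx hx'.1 hx'.2
  have hm : AEStronglyMeasurable (fun x => D.gl β0 β1 κ1 κ2 y1 y2 x) (volume.restrict (Ioc (0 : ℝ) L)) := by
    refine aestronglyMeasurable_of_tendsto_ae atTop
      (f := fun (j : ℕ) (x : ℝ) => D.psi β0 β1 κ1 κ2 y1 y2 (id (ms j)) ⌊x * (id (ms j) : ℕ)⌋₊)
      (fun j => Measurable.aestronglyMeasurable ?_) h1
    exact (measurable_of_countable (D.psi β0 β1 κ1 κ2 y1 y2 (id (ms j)))).comp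
      (Nat.measurable_floor.comp (measurable_id.mul_const _))
  refine Integrable.of_bound hm (β1 - β0) ?_
  filter_upwards [h1] with x hx
  rw [Real.norm_of_nonneg (D.gl_nonneg hβ x)]
  exact le_of_tendsto hx (Eventually.of_forall fun _ => (D.psi_bd hβ _ _).2)

/-- **the averaged masses of the boxes converge** -/
theorem box_lim (L : ℕ) : Tendsto (fun N : ℕ => (N : ℝ)⁻¹ * ∑ n ∈ Finset.range (L * N), D.psi β0 β1 κ1 κ2 y1 y2 N n) atTop
    (𝓝 (∫ x in (0 : ℝ)..(L : ℝ), D.gl β0 β1 κ1 κ2 y1 y2 x)) := by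
  have hL0 : (0 : ℝ) ≤ L := Nat.cast_nonneg L
  have h1 : Tendsto (fun N : ℕ => ∫ x in (0 : ℝ)..(L : ℝ), D.psi β0 β1 κ1 κ2 y1 y2 N ⌊x * (N : ℝ)⌋₊) atTop
      (𝓝 (∫ x in (0 : ℝ)..(L : ℝ), D.gl β0 β1 κ1 κ2 y1 y2 x)) := by
    refine tendsto_of_subseq_tendsto fun φ hφ => ?_
    obtain ⟨ms, hms, hae⟩ := D.ae_lim hβ0 hβ hκ1 hκ hy1 hy L φ hφ
    refine ⟨ms, ?_⟩
    refine intervalIntegral.tendsto_integral_filter_of_dominated_convergence (fun _ => β1 - β0) ?_ ?_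
      intervalIntegrable_const ?_
    · refine Eventually.of_forall fun j => Measurable.aestronglyMeasurable ?_
      exact (measurable_of_countable (D.psi β0 β1 κ1 κ2 y1 y2 (φ (ms j)))).comp
        (Nat.measurable_floor.comp (measurable_id.mul_const _))
    · refine Eventually.of_forall fun j => Eventually.of_forall fun x _ => ?_
      rw [Real.norm_of_nonneg (D.psi_bd hβ _ _).1]
      exact (D.psi_bd hβ _ _).2
    · filter_upwards [hae] with x hx hx'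
      rw [uIoc_of_le hL0] at hx'
      exact hx hx'.1 hx'.2
  refine h1.congr' ?_
  filter_upwards [eventually_ge_atTop 1] with N hN
  exact K10.step_scale _ hN L

end box

end Dat

end Pool.Agent.CRT.V.E
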