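import Pool.Agent.CRT.VEndB

/-!
# CRT, row 11A, VEnd, part C (helper66): sums over boxes
-/

set_option autoImplicit false

open Set Filter Topology MeasureTheory

namespace Pool.Agent.CRT.V.E

lemma tele {f : ℕ → ℝ} (hf : Monotone f) (l h : ℕ) :
    ∑ k ∈ Finset.Ioc l h, (f k - f (k - 1)) = max 0 (f h - f l) := by
  rcases le_total l h with hl | hl
  · rw [max_eq_right (sub_nonneg.2 (hf hl))]
    induction h, hl using Nat.le_induction with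
    | base => simp
    | succ h hl ih =>
      rw [Finset.sum_Ioc_succ_top hl, ih, Nat.add_sub_cancel]
      ring
  · rw [Finset.Ioc_eq_empty_of_le hl, Finset.sum_empty, max_eq_left (sub_nonpos.2 (hf hl))]

lemma reindex (φ : ℕ → ℕ → ℝ) (k1 k2 m1 m2 M : ℕ) (hM : k2 + m2 < M) :
    ∑ k ∈ Finset.Ioc k1 k2, ∑ m ∈ Finset.Ioc m1 m2, φ (k + m) k =
      ∑ n ∈ Finset.range M, ∑ k ∈ Finset.Ioc (Dat.lo k1 m2 n) (Dat.hi k2 m1 n), φ n k := by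
  rw [Finset.sum_sigma', Finset.sum_sigma']
  refine Finset.sum_bij' (fun x _ => ⟨x.1 + x.2, x.1⟩) (fun x _ => ⟨x.2, x.1 - x.2⟩) ?_ ?_ ?_ ?_ ?_
  · rintro ⟨k, m⟩ h
    simp only [Finset.mem_sigma, Finset.mem_Ioc, Finset.mem_range, Dat.lo, Dat.hi] at h ⊢
    omega
  · rintro ⟨n, k⟩ h
    simp only [Finset.mem_sigma, Finset.mem_Ioc, Finset.mem_range, Dat.lo, Dat.hi] at h ⊢
    omega
  · rintro ⟨k, m⟩ h
    simp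
  · rintro ⟨n, k⟩ h
    simp only [Finset.mem_sigma, Finset.mem_Ioc, Finset.mem_range, Dat.lo, Dat.hi] at h
    have : k + (n - k) = n := by omega
    simp [this]
  · rintro ⟨k, m⟩ h
    rfl

namespace Dat

variable (D : Dat) (a : ℕ → ℝ)

/-- the averaged weight of a box -/
noncomputable def W (β0 β1 κ1 κ2 y1 y2 : ℝ) (N : ℕ) : ℝ :=
  ∫ β in β0..β1, ∑ k ∈ Finset.Ioc ⌊κ1 * N⌋₊ ⌊κ2 * N⌋₊, ∑ m ∈ Finset.Ioc ⌊y1 * N⌋₊ ⌊y2 * N⌋₊,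
    a (k + m) * (D.F (k + m) (β * D.sz N) k - D.F (k + m) (β * D.sz N) (k - 1))

/-- the weight as a sum over the numbers of steps -/
lemma W_eq (β0 β1 κ1 κ2 y1 y2 : ℝ) {N M : ℕ} (hM : ⌊κ2 * N⌋₊ + ⌊y2 * N⌋₊ < M) :
    D.W a β0 β1 κ1 κ2 y1 y2 N = ∑ n ∈ Finset.range M, a n * D.psi β0 β1 κ1 κ2 y1 y2 N n := by
  have h1 : ∀ b : ℝ, (∑ k ∈ Finset.Ioc ⌊κ1 * N⌋₊ ⌊κ2 * N⌋₊, ∑ m ∈ Finset.Ioc ⌊y1 * N⌋₊ ⌊y2 * N⌋₊,
      a (k + m) * (D.F (k + m) b k - D.F (k + m) b (k - 1))) =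
      ∑ n ∈ Finset.range M, a n * max 0 (D.F n b (hi ⌊κ2 * N⌋₊ ⌊y1 * N⌋₊ n) - D.F n b (lo ⌊κ1 * N⌋₊ ⌊y2 * N⌋₊ n)) := by
    intro b
    rw [reindex (fun n k => a n * (D.F n b k - D.F n b (k - 1))) _ _ _ _ M hM]
    refine Finset.sum_congr rfl fun n _ => ?_
    rw [← Finset.mul_sum, tele (D.Fm n b)]
  unfold W
  simp only [h1]
  rw [intervalIntegral.integral_finsetSum]
  · refine Finset.sum_congr rfl fun n _ => ?_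
    rw [intervalIntegral.integral_const_mul]
    rfl
  · intro n _
    refine IntervalIntegrable.const_mul ?_ _
    have hm : ∀ K : ℕ, Measurable fun β : ℝ => D.F n (β * D.sz N) K := fun K =>
      Antitone.measurable fun β β' h => D.Fa _ _ (mul_le_mul_of_nonneg_right h (D.szn N))
    refine (intervalIntegrable_const (c := (1 : ℝ))).mono_fun'
      (measurable_const.max ((hm _).sub (hm _))).aestronglyMeasurable (Eventually.of_forall fun β => ?_)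
    show ‖max 0 (D.F n (β * D.sz N) (hi ⌊κ2 * N⌋₊ ⌊y1 * N⌋₊ n) - D.F n (β * D.sz N) (lo ⌊κ1 * N⌋₊ ⌊y2 * N⌋₊ n))‖ ≤ 1
    rw [Real.norm_of_nonneg (le_max_left _ _)]
    have e1 := D.F1 n (β * D.sz N) (hi ⌊κ2 * N⌋₊ ⌊y1 * N⌋₊ n)
    have e2 := D.F0 n (β * D.sz N) (lo ⌊κ1 * N⌋₊ ⌊y2 * N⌋₊ n)
    exact max_le zero_le_one (by linarith)

/-- exact factorisation -/
def Fact : Prop := ∃ (C : ℝ → ℕ → ℝ) (h : ℕ → ℝ), ∀ (b : ℝ) (n k : ℕ), k + 1 ≤ n →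
  a n * (D.F n b (k + 1) - D.F n b k) = C b (k + 1) * h (n - (k + 1))

variable {a}

/-- **exchange** -/
theorem exch (hP : D.Fact a) (β0 β1 β0' β1' κ1 κ2 κ1' κ2' y1 y2 y1' y2' : ℝ) (N : ℕ) :
    D.W a β0 β1 κ1 κ2 y1 y2 N * D.W a β0' β1' κ1' κ2' y1' y2' N =
      D.W a β0 β1 κ1 κ2 y1' y2' N * D.W a β0' β1' κ1' κ2' y1 y2 N := by
  obtain ⟨C, h, hP⟩ := hP
  have key : ∀ β0 β1 κ1 κ2 y1 y2 : ℝ, D.W a β0 β1 κ1 κ2 y1 y2 N =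
      (∫ β in β0..β1, ∑ k ∈ Finset.Ioc ⌊κ1 * N⌋₊ ⌊κ2 * N⌋₊, C (β * D.sz N) k) * ∑ m ∈ Finset.Ioc ⌊y1 * N⌋₊ ⌊y2 * N⌋₊, h m := by
    intro β0 β1 κ1 κ2 y1 y2
    rw [← intervalIntegral.integral_mul_const]
    unfold W
    refine intervalIntegral.integral_congr fun β _ => ?_
    show _ = (∑ k ∈ Finset.Ioc ⌊κ1 * N⌋₊ ⌊κ2 * N⌋₊, C (β * D.sz N) k) * ∑ m ∈ Finset.Ioc ⌊y1 * N⌋₊ ⌊y2 * N⌋₊, h m
    rw [Finset.sum_mul]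
    refine Finset.sum_congr rfl fun k hk => ?_
    rw [Finset.mul_sum]
    refine Finset.sum_congr rfl fun m hm => ?_
    rw [Finset.mem_Ioc] at hk
    obtain ⟨k', rfl⟩ : ∃ k', k = k' + 1 := ⟨k - 1, by omega⟩
    have := hP (β * D.sz N) (k' + 1 + m) k' (by omega)
    rw [show k' + 1 + m - (k' + 1) = m by omega] at this
    rw [Nat.add_sub_cancel]
    exact this
  rw [key, key, key, key]
  ring

/-! ### the range of the numbers of steps -/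

section box

variable {β0 β1 κ1 κ2 y1 y2 : ℝ}

lemma psi_range {N n : ℕ} (h : D.psi β0 β1 κ1 κ2 y1 y2 N n ≠ 0) :
    ⌊κ1 * N⌋₊ + ⌊y1 * N⌋₊ < n ∧ n ≤ ⌊κ2 * N⌋₊ + ⌊y2 * N⌋₊ := by
  by_contra hc
  refine h (D.psi_out ?_)
  simp only [hi, lo]
  omega

lemma psi_range' (hκ2 : 0 ≤ κ2) (hy2 : 0 ≤ y2) {N n : ℕ}
    (h : D.psi β0 β1 κ1 κ2 y1 y2 N n ≠ 0) : (κ1 + y1) * N - 1 ≤ n ∧ (n : ℝ) ≤ (κ2 + y2) * N := by
  obtain ⟨h1, h2⟩ := D.psi_range h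
  have a1 : κ1 * N < ⌊κ1 * N⌋₊ + 1 := Nat.lt_floor_add_one _
  have a2 : y1 * N < ⌊y1 * N⌋₊ + 1 := Nat.lt_floor_add_one _
  have a3 : (⌊κ2 * N⌋₊ : ℝ) ≤ κ2 * N := Nat.floor_le (by positivity)
  have a4 : (⌊y2 * N⌋₊ : ℝ) ≤ y2 * N := Nat.floor_le (by positivity)
  have b1 : (⌊κ1 * N⌋₊ : ℝ) + ⌊y1 * N⌋₊ + 1 ≤ n := by exact_mod_cast h1
  have b2 : (n : ℝ) ≤ ⌊κ2 * N⌋₊ + ⌊y2 * N⌋₊ := by exact_mod_cast h2
  constructor <;> nlinarith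

lemma L_big (hκ2 : 0 ≤ κ2) (hy2 : 0 ≤ y2) {L : ℕ} (hL : κ2 + y2 + 1 ≤ L) {N : ℕ} (hN : 1 ≤ N) :
    ⌊κ2 * N⌋₊ + ⌊y2 * N⌋₊ < L * N := by
  have a3 : (⌊κ2 * N⌋₊ : ℝ) ≤ κ2 * N := Nat.floor_le (by positivity)
  have a4 : (⌊y2 * N⌋₊ : ℝ) ≤ y2 * N := Nat.floor_le (by positivity)
  have hN' : (1 : ℝ) ≤ N := by exact_mod_cast hN
  have : ((⌊κ2 * N⌋₊ + ⌊y2 * N⌋₊ : ℕ) : ℝ) < ((L * N : ℕ) : ℝ) := by
    push_cast
    nlinarith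
  exact_mod_cast this

/-- comparison with a constant -/
lemma W_near (hκ2 : 0 ≤ κ2) (hy2 : 0 ≤ y2) (hβ : β0 ≤ β1) {L : ℕ} (hL : κ2 + y2 + 1 ≤ L) {N : ℕ} (hN : 1 ≤ N) {u v : ℝ}
    (h : ∀ n : ℕ, D.psi β0 β1 κ1 κ2 y1 y2 N n ≠ 0 → u ≤ a n ∧ a n ≤ v) :
    u * ∑ n ∈ Finset.range (L * N), D.psi β0 β1 κ1 κ2 y1 y2 N n ≤ D.W a β0 β1 κ1 κ2 y1 y2 N ∧
    D.W a β0 β1 κ1 κ2 y1 y2 N ≤ v * ∑ n ∈ Finset.range (L * N), D.psi β0 β1 κ1 κ2 y1 y2 N n := by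
  rw [D.W_eq a _ _ _ _ _ _ (L_big hκ2 hy2 hL hN), Finset.mul_sum, Finset.mul_sum]
  constructor
  · refine Finset.sum_le_sum fun n _ => ?_
    by_cases h0 : D.psi β0 β1 κ1 κ2 y1 y2 N n = 0
    · rw [h0, mul_zero, mul_zero]
    · exact mul_le_mul_of_nonneg_right (h n h0).1 (D.psi_bd hβ N n).1
  · refine Finset.sum_le_sum fun n _ => ?_
    by_cases h0 : D.psi β0 β1 κ1 κ2 y1 y2 N n = 0
    · rw [h0, mul_zero, mul_zero]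
    · exact mul_le_mul_of_nonneg_right (h n h0).2 (D.psi_bd hβ N n).1

end box

end Dat

end Pool.Agent.CRT.V.E
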