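import Pool.Agent.CRT.VEndA
import Pool.Agent.CRT.VEndC

/-!
# CRT, row 11A, VEnd, part D (helper66): positivity of the boxes, sandwich, conclusion
-/

set_option autoImplicit false

open Set Filter Topology MeasureTheory

namespace Pool.Agent.CRT.V.E

namespace Dat

variable (D : Dat)

/-! ### positivity -/

lemma G_int (t x y : ℝ) : IntervalIntegrable (fun β => D.G β t) volume x y :=
  (D.Ga t).intervalIntegrable

/-- a time at which the first cut has mass -/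
lemma base (hpos : ∃ ε : ℝ, 0 < ε ∧ ε < 1 ∧ ε ≤ D.G ε (1 - ε))
    (hzero : ∀ b : ℝ, 0 < b → ∀ η : ℝ, 0 < η → ∃ t : ℝ, 0 < t ∧ D.G b t ≤ η) :
    ∃ ts b0 b1 : ℝ, 0 < ts ∧ ts < 1 ∧ 0 < b0 ∧ b0 < b1 ∧ ∀ d : ℝ, 0 < d →
      0 < ∫ β in b0..b1, (D.G β (ts + d) - D.G β (ts - d)) := by
  obtain ⟨ε, hε, hε1, hG⟩ := hpos
  obtain ⟨t0, ht0, hG0⟩ := hzero (ε / 2) (by positivity) (ε / 2) (by positivity)
  set Ψ : ℝ → ℝ := fun t => ∫ β in (ε / 2)..ε, D.G β t with hΨ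
  have hle : ε / 2 ≤ ε := by linarith
  have hmono : Monotone Ψ := fun t t' h =>
    intervalIntegral.integral_mono_on hle (D.G_int t _ _) (D.G_int t' _ _) fun β _ => D.Gm β h
  have hlow : Ψ t0 ≤ ε / 2 * (ε / 2) := by
    have h1 : Ψ t0 ≤ ∫ _β in (ε / 2)..ε, (ε / 2) :=
      intervalIntegral.integral_mono_on hle (D.G_int t0 _ _) intervalIntegrable_const fun β hβ => (D.Ga t0 hβ.1).trans hG0
    rw [intervalIntegral.integral_const, smul_eq_mul] at h1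
    linarith
  have hhigh : ε / 2 * ε ≤ Ψ (1 - ε) := by
    have h1 : ∫ _β in (ε / 2)..ε, ε ≤ Ψ (1 - ε) :=
      intervalIntegral.integral_mono_on hle intervalIntegrable_const (D.G_int _ _ _) fun β hβ => hG.trans (D.Ga (1 - ε) hβ.2)
    rw [intervalIntegral.integral_const, smul_eq_mul] at h1
    linarith
  have hlt : Ψ t0 < Ψ (1 - ε) := by nlinarith
  set S : Set ℝ := {t | Ψ t ≤ Ψ t0} with hS
  have hbdd : ∀ t ∈ S, t ≤ 1 - ε := by
    intro t ht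
    by_contra hc
    have := hmono (not_le.1 hc).le
    have h2 : Ψ t ≤ Ψ t0 := ht
    linarith
  have hne : t0 ∈ S := le_refl (Ψ t0)
  have hbd : BddAbove S := ⟨1 - ε, hbdd⟩
  refine ⟨sSup S, ε / 2, ε, ht0.trans_le (le_csSup hbd hne), ?_, by positivity, by linarith, fun d hd => ?_⟩
  · have := csSup_le ⟨t0, hne⟩ hbdd
    linarith
  · rw [intervalIntegral.integral_sub (D.G_int _ _ _) (D.G_int _ _ _)]
    have h1 : Ψ t0 < Ψ (sSup S + d) := by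
      by_contra hc
      have : sSup S + d ∈ S := not_lt.1 hc
      linarith [le_csSup hbd this]
    have h2 : Ψ (sSup S - d) ≤ Ψ t0 := by
      obtain ⟨t, ht, ht'⟩ := exists_lt_of_lt_csSup ⟨t0, hne⟩ (show sSup S - d < sSup S by linarith)
      exact (hmono ht'.le).trans ht
    show 0 < Ψ (sSup S + d) - Ψ (sSup S - d)
    linarith

lemma pos_box {ts b0 b1 : ℝ} (hts : 0 < ts) (hts1 : ts < 1) (hb0 : 0 < b0) (hb : b0 < b1)
    (hJ : ∀ d : ℝ, 0 < d → 0 < ∫ β in b0..b1, (D.G β (ts + d) - D.G β (ts - d)))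
    {x0 δ : ℝ} (hx0 : 0 < x0) (hδ : 0 < δ) (hδ1 : δ < x0 * ts) (hδ2 : δ < x0 * (1 - ts)) {L : ℕ} (hL : x0 + 2 * δ + 1 ≤ L) :
    0 < ∫ x in (0 : ℝ)..(L : ℝ), D.gl (x0 ^ (3 / 4 : ℝ) * b0 / 2) (2 * (x0 ^ (3 / 4 : ℝ) * b1))
      (x0 * ts - δ) (x0 * ts + δ) (x0 * (1 - ts) - δ) (x0 * (1 - ts) + δ) x := by
  have hX : 0 < x0 ^ (3 / 4 : ℝ) := by positivity
  have hz0 : 0 < x0 ^ (3 / 4 : ℝ) * b0 / 2 := by positivity
  have hz : x0 ^ (3 / 4 : ℝ) * b0 / 2 ≤ 2 * (x0 ^ (3 / 4 : ℝ) * b1) := by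
    have : x0 ^ (3 / 4 : ℝ) * b0 ≤ x0 ^ (3 / 4 : ℝ) * b1 := mul_le_mul_of_nonneg_left hb.le hX.le
    have : 0 < x0 ^ (3 / 4 : ℝ) * b0 := by positivity
    linarith
  obtain ⟨r, hr, hr1, hr2⟩ : ∃ r : ℝ, 0 < r ∧ r ≤ δ / 2 ∧ r ≤ x0 / 2 :=
    ⟨min (δ / 2) (x0 / 2), by positivity, min_le_left _ _, min_le_right _ _⟩
  obtain ⟨d, hd, hd1, hd2⟩ : ∃ d : ℝ, 0 < d ∧ 2 * x0 * d ≤ δ / 2 ∧ d ≤ ts :=
    ⟨min (δ / (4 * x0)) ts, by positivity, by
      calc 2 * x0 * min (δ / (4 * x0)) ts ≤ 2 * x0 * (δ / (4 * x0)) := by gcongr; exact min_le_left _ _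
        _ = δ / 2 := by field_simp; ring, min_le_right _ _⟩
  have hJd := hJ d hd
  set J := ∫ β in b0..b1, (D.G β (ts + d) - D.G β (ts - d)) with hJdef
  have hkey : ∀ x : ℝ, x0 - r ≤ x → x ≤ x0 + r → (x0 / 2) ^ (3 / 4 : ℝ) * J ≤
      D.gl (x0 ^ (3 / 4 : ℝ) * b0 / 2) (2 * (x0 ^ (3 / 4 : ℝ) * b1))
      (x0 * ts - δ) (x0 * ts + δ) (x0 * (1 - ts) - δ) (x0 * (1 - ts) + δ) x := by
    intro x hx1 hx2
    have hx : 0 < x := by linarith
    have hxl : x0 / 2 ≤ x := by linarith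
    have hxh : x ≤ 2 * x0 := by linarith
    have hxd : x * d ≤ δ / 2 := by nlinarith
    have q1 : ts + d ≤ hiL (x0 * ts + δ) (x0 * (1 - ts) - δ) x := by
      refine le_min ?_ (le_trans ?_ (le_max_right _ _))
      · rw [le_div_iff₀ hx]
        nlinarith
      · rw [le_sub_iff_add_le, ← le_sub_iff_add_le', div_le_iff₀ hx]
        nlinarith
    have q2 : loL (x0 * ts - δ) (x0 * (1 - ts) + δ) x ≤ ts - d := by
      refine max_le ?_ (max_le (by linarith) ?_)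
      · rw [div_le_iff₀ hx]
        nlinarith
      · rw [sub_le_iff_le_add, ← sub_le_iff_le_add', le_div_iff₀ hx]
        nlinarith
    have hσ : 0 < x ^ (-(3 / 4) : ℝ) := by positivity
    set σ := x ^ (-(3 / 4) : ℝ) with hσd
    have hσx : σ⁻¹ = x ^ (3 / 4 : ℝ) := by rw [hσd, Real.rpow_neg hx.le, inv_inv]
    set f : ℝ → ℝ := fun u => max 0 (D.G u (hiL (x0 * ts + δ) (x0 * (1 - ts) - δ) x) -
      D.G u (loL (x0 * ts - δ) (x0 * (1 - ts) + δ) x)) with hf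
    have hfi : ∀ p q : ℝ, IntervalIntegrable f volume p q := by
      intro p q
      have h1 : Measurable f := measurable_const.max ((D.Ga _).measurable.sub (D.Ga _).measurable)
      refine (intervalIntegrable_const (c := (1 : ℝ))).mono_fun' h1.aestronglyMeasurable (Eventually.of_forall fun u => ?_)
      show ‖f u‖ ≤ 1
      rw [Real.norm_of_nonneg (le_max_left _ _)]
      have e1 := D.G1 u (hiL (x0 * ts + δ) (x0 * (1 - ts) - δ) x)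
      have e2 := D.G0 u (loL (x0 * ts - δ) (x0 * (1 - ts) + δ) x)
      exact max_le zero_le_one (by linarith)
    have h1 : D.gl (x0 ^ (3 / 4 : ℝ) * b0 / 2) (2 * (x0 ^ (3 / 4 : ℝ) * b1)) (x0 * ts - δ) (x0 * ts + δ)
        (x0 * (1 - ts) - δ) (x0 * (1 - ts) + δ) x =
        σ⁻¹ * ∫ u in (x0 ^ (3 / 4 : ℝ) * b0 / 2 * σ)..(2 * (x0 ^ (3 / 4 : ℝ) * b1) * σ), f u :=
      intervalIntegral.integral_comp_mul_right f hσ.ne'
    have hratio : (1 / 2 : ℝ) ≤ x0 ^ (3 / 4 : ℝ) * σ ∧ x0 ^ (3 / 4 : ℝ) * σ ≤ 2 := by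
      have e1 : x0 ^ (3 / 4 : ℝ) * σ = (x0 / x) ^ (3 / 4 : ℝ) := by
        rw [hσd, Real.rpow_neg hx.le, Real.div_rpow hx0.le hx.le]
        exact (div_eq_mul_inv _ _).symm
      rw [e1]
      have e2 : (1 / 2 : ℝ) ≤ x0 / x := by
        rw [le_div_iff₀ hx]
        linarith
      have e3 : x0 / x ≤ 2 := by
        rw [div_le_iff₀ hx]
        linarith
      constructor
      · calc (1 / 2 : ℝ) = (1 / 2 : ℝ) ^ (1 : ℝ) := (Real.rpow_one _).symm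
          _ ≤ (1 / 2 : ℝ) ^ (3 / 4 : ℝ) := Real.rpow_le_rpow_of_exponent_ge (by norm_num) (by norm_num) (by norm_num)
          _ ≤ (x0 / x) ^ (3 / 4 : ℝ) := Real.rpow_le_rpow (by norm_num) e2 (by norm_num)
      · calc (x0 / x) ^ (3 / 4 : ℝ) ≤ 2 ^ (3 / 4 : ℝ) := Real.rpow_le_rpow (by positivity) e3 (by norm_num)
          _ ≤ 2 ^ (1 : ℝ) := Real.rpow_le_rpow_of_exponent_le (by norm_num) (by norm_num)
          _ = 2 := Real.rpow_one _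
    have h2 : ∫ u in b0..b1, f u ≤ ∫ u in (x0 ^ (3 / 4 : ℝ) * b0 / 2 * σ)..(2 * (x0 ^ (3 / 4 : ℝ) * b1) * σ), f u := by
      refine intervalIntegral.integral_mono_interval ?_ hb.le ?_ (Eventually.of_forall fun u => le_max_left _ _) (hfi _ _)
      · nlinarith [hratio.2]
      · nlinarith [hratio.1]
    have h3 : J ≤ ∫ u in b0..b1, f u := by
      refine intervalIntegral.integral_mono_on hb.le ((D.G_int _ _ _).sub (D.G_int _ _ _)) (hfi _ _) fun u _ => ?_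
      refine le_trans ?_ (le_max_right _ _)
      linarith [D.Gm u q1, D.Gm u q2]
    rw [h1, hσx]
    have h4 : (x0 / 2) ^ (3 / 4 : ℝ) ≤ x ^ (3 / 4 : ℝ) := Real.rpow_le_rpow (by positivity) hxl (by norm_num)
    exact mul_le_mul h4 (h3.trans h2) hJd.le (by positivity)
  have hint := D.gl_int hz0 hz (show 0 < x0 * ts - δ by linarith) (show x0 * ts - δ < x0 * ts + δ by linarith)
    (show 0 < x0 * (1 - ts) - δ by linarith) (show x0 * (1 - ts) - δ < x0 * (1 - ts) + δ by linarith) L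
  have h5 : ∫ x in (x0 - r)..(x0 + r), (x0 / 2) ^ (3 / 4 : ℝ) * J ≤ ∫ x in (x0 - r)..(x0 + r),
      D.gl (x0 ^ (3 / 4 : ℝ) * b0 / 2) (2 * (x0 ^ (3 / 4 : ℝ) * b1))
      (x0 * ts - δ) (x0 * ts + δ) (x0 * (1 - ts) - δ) (x0 * (1 - ts) + δ) x := by
    refine intervalIntegral.integral_mono_on (by linarith) intervalIntegrable_const (hint.mono_set ?_)
      fun x hx => hkey x hx.1 hx.2
    rw [uIcc_of_le (by linarith), uIcc_of_le (Nat.cast_nonneg L)]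
    exact Icc_subset_Icc (by linarith) (by linarith)
  have h6 := intervalIntegral.integral_mono_interval (μ := volume) (c := 0) (d := (L : ℝ)) (show (0 : ℝ) ≤ x0 - r by linarith)
    (show x0 - r ≤ x0 + r by linarith) (show x0 + r ≤ L by linarith) (Eventually.of_forall fun x => D.gl_nonneg hz x) hint
  rw [intervalIntegral.integral_const, smul_eq_mul] at h5
  have h7 : 0 < (x0 + r - (x0 - r)) * ((x0 / 2) ^ (3 / 4 : ℝ) * J) := by
    have : 0 < (x0 / 2) ^ (3 / 4 : ℝ) := by positivity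
    have : 0 < x0 + r - (x0 - r) := by linarith
    positivity
  linarith

/-! ### weights -/

section weights

variable {a : ℕ → ℝ} (ha : ∀ n, 0 < a n) {ρ c C : ℝ} (hρ : 0 ≤ ρ) (hc : 0 < c) (hC : 0 < C)
  (hb : ∀ n : ℕ, 1 ≤ n → c * (n : ℝ) ^ ρ ≤ a n ∧ a n ≤ C * (n : ℝ) ^ ρ)

include ha hρ hc hC hb

omit ha in
lemma cmp {x1 x2 : ℝ} (hx1 : 0 < x1) (hx2 : 0 < x2) : ∃ c' C' : ℝ, 0 < c' ∧ 0 < C' ∧ ∀ᶠ N : ℕ in atTop, ∀ n : ℕ,
    x1 * N - 1 ≤ n → (n : ℝ) ≤ x2 * N → c' * a N ≤ a n ∧ a n ≤ C' * a N := by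
  refine ⟨c * (x1 / 2) ^ ρ / C, C * x2 ^ ρ / c, by positivity, by positivity, ?_⟩
  have h1 : ∀ᶠ N : ℕ in atTop, (4 : ℝ) ≤ x1 * N :=
    (tendsto_natCast_atTop_atTop.const_mul_atTop hx1).eventually_ge_atTop _
  filter_upwards [h1, eventually_ge_atTop 1] with N hN hN1 n hn1 hn2
  have hN0 : (0 : ℝ) < N := by exact_mod_cast hN1
  have hn0 : x1 / 2 * N ≤ n := by linarith
  have hnp : (0 : ℝ) < n := by linarith
  have hn' : 1 ≤ n := by exact_mod_cast hnp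
  obtain ⟨a1, a2⟩ := hb n hn'
  obtain ⟨b1, b2⟩ := hb N hN1
  constructor
  · have e1 : (x1 / 2) ^ ρ * (N : ℝ) ^ ρ ≤ (n : ℝ) ^ ρ := by
      rw [← Real.mul_rpow (by positivity) hN0.le]
      exact Real.rpow_le_rpow (by positivity) hn0 hρ
    calc c * (x1 / 2) ^ ρ / C * a N ≤ c * (x1 / 2) ^ ρ / C * (C * (N : ℝ) ^ ρ) := by gcongr
      _ = c * ((x1 / 2) ^ ρ * (N : ℝ) ^ ρ) := by field_simp
      _ ≤ c * (n : ℝ) ^ ρ := by gcongr
      _ ≤ a n := a1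
  · have e1 : (n : ℝ) ^ ρ ≤ x2 ^ ρ * (N : ℝ) ^ ρ := by
      rw [← Real.mul_rpow hx2.le hN0.le]
      exact Real.rpow_le_rpow hnp.le hn2 hρ
    calc a n ≤ C * (n : ℝ) ^ ρ := a2
      _ ≤ C * (x2 ^ ρ * (N : ℝ) ^ ρ) := by gcongr
      _ = C * x2 ^ ρ / c * (c * (N : ℝ) ^ ρ) := by field_simp
      _ ≤ C * x2 ^ ρ / c * a N := by gcongr

/-- lower bound of the weight of a box -/
def PosW (a : ℕ → ℝ) (β0 β1 κ1 κ2 y1 y2 : ℝ) : Prop :=
  ∃ e : ℝ, 0 < e ∧ ∀ᶠ N : ℕ in atTop, e * (N * a N) ≤ D.W a β0 β1 κ1 κ2 y1 y2 N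

variable {β0 β1 κ1 κ2 y1 y2 : ℝ} (hβ0 : 0 < β0) (hβ : β0 ≤ β1) (hκ1 : 0 < κ1) (hκ : κ1 < κ2) (hy1 : 0 < y1) (hy : y1 < y2)

include hβ0 hβ hκ1 hκ hy1 hy

lemma W_up : ∃ E : ℝ, 0 < E ∧ ∀ᶠ N : ℕ in atTop, 0 ≤ D.W a β0 β1 κ1 κ2 y1 y2 N ∧ D.W a β0 β1 κ1 κ2 y1 y2 N ≤ E * (N * a N) := by
  obtain ⟨c', C', hc', hC', h⟩ := cmp hρ hc hC hb (x1 := κ1 + y1) (x2 := κ2 + y2) (by linarith) (by linarith)
  obtain ⟨L, hL⟩ := exists_nat_ge (κ2 + y2 + 1)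
  refine ⟨C' * (L * (β1 - β0) + 1), by nlinarith [mul_nonneg (Nat.cast_nonneg (α := ℝ) L) (sub_nonneg.2 hβ)], ?_⟩
  filter_upwards [h, eventually_ge_atTop 1] with N h1 hN
  have h2 := D.W_near (a := a) (κ1 := κ1) (y1 := y1) (by linarith) (by linarith) hβ hL hN (u := 0) (v := C' * a N) (fun n hn => by
    obtain ⟨k1, k2⟩ := D.psi_range' (by linarith) (by linarith) hn
    exact ⟨(ha n).le, (h1 n k1 k2).2⟩)
  rw [zero_mul] at h2
  refine ⟨h2.1, h2.2.trans ?_⟩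
  have h3 : ∑ n ∈ Finset.range (L * N), D.psi β0 β1 κ1 κ2 y1 y2 N n ≤ (L * N : ℕ) * (β1 - β0) := by
    have := Finset.sum_le_card_nsmul (Finset.range (L * N)) (fun n => D.psi β0 β1 κ1 κ2 y1 y2 N n) (β1 - β0)
      fun n _ => (D.psi_bd hβ N n).2
    rwa [Finset.card_range, nsmul_eq_mul] at this
  have hN0 : (0 : ℝ) < N := by exact_mod_cast hN
  have h4 : 0 ≤ C' * a N := (mul_pos hC' (ha N)).le
  push_cast at h3
  calc C' * a N * ∑ n ∈ Finset.range (L * N), D.psi β0 β1 κ1 κ2 y1 y2 N n ≤ C' * a N * (L * N * (β1 - β0)) := by gcongr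
    _ ≤ C' * (L * (β1 - β0) + 1) * (N * a N) := by
        have : 0 ≤ C' * a N * N := mul_nonneg h4 hN0.le
        nlinarith

lemma posW_of {L : ℕ} (hL : κ2 + y2 + 1 ≤ L) (h : 0 < ∫ x in (0 : ℝ)..(L : ℝ), D.gl β0 β1 κ1 κ2 y1 y2 x) :
    D.PosW a β0 β1 κ1 κ2 y1 y2 := by
  obtain ⟨c', C', hc', hC', h0⟩ := cmp hρ hc hC hb (x1 := κ1 + y1) (x2 := κ2 + y2) (by linarith) (by linarith)
  set I := ∫ x in (0 : ℝ)..(L : ℝ), D.gl β0 β1 κ1 κ2 y1 y2 x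
  refine ⟨c' * (I / 2), by positivity, ?_⟩
  have hlim := D.box_lim hβ0 hβ hκ1 hκ hy1 hy L
  filter_upwards [h0, eventually_ge_atTop 1, hlim.eventually (lt_mem_nhds (show I / 2 < I by linarith))] with N h1 hN h3
  have h2 := D.W_near (a := a) (κ1 := κ1) (y1 := y1) (by linarith) (by linarith) hβ hL hN (u := c' * a N) (v := C' * a N)
    (fun n hn => by
      obtain ⟨k1, k2⟩ := D.psi_range' (by linarith) (by linarith) hn
      exact h1 n k1 k2)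
  refine le_trans ?_ h2.1
  have hN0 : (0 : ℝ) < N := by exact_mod_cast hN
  have h4 : 0 < c' * a N := mul_pos hc' (ha N)
  have h5 : I / 2 * N < ∑ n ∈ Finset.range (L * N), D.psi β0 β1 κ1 κ2 y1 y2 N n := by
    rw [inv_mul_eq_div, lt_div_iff₀ hN0] at h3
    exact h3
  calc c' * (I / 2) * (N * a N) = c' * a N * (I / 2 * N) := by ring
    _ ≤ _ := by gcongr

lemma pos_ofW {L : ℕ} (hL : κ2 + y2 + 1 ≤ L) (h : D.PosW a β0 β1 κ1 κ2 y1 y2) :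
    0 < ∫ x in (0 : ℝ)..(L : ℝ), D.gl β0 β1 κ1 κ2 y1 y2 x := by
  obtain ⟨c', C', hc', hC', h0⟩ := cmp hρ hc hC hb (x1 := κ1 + y1) (x2 := κ2 + y2) (by linarith) (by linarith)
  obtain ⟨e, he, h⟩ := h
  have hlim := D.box_lim hβ0 hβ hκ1 hκ hy1 hy L
  have h6 : e / C' ≤ ∫ x in (0 : ℝ)..(L : ℝ), D.gl β0 β1 κ1 κ2 y1 y2 x := by
    refine ge_of_tendsto hlim ?_
    filter_upwards [h0, eventually_ge_atTop 1, h] with N h1 hN h3
    have h2 := D.W_near (a := a) (κ1 := κ1) (y1 := y1) (by linarith) (by linarith) hβ hL hN (u := c' * a N) (v := C' * a N)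
      (fun n hn => by
        obtain ⟨k1, k2⟩ := D.psi_range' (by linarith) (by linarith) hn
        exact h1 n k1 k2)
    have hN0 : (0 : ℝ) < N := by exact_mod_cast hN
    have h4 := h3.trans h2.2
    rw [div_le_iff₀ hC', inv_mul_eq_div, div_mul_eq_mul_div, le_div_iff₀ hN0]
    have h5 := ha N
    have h7 : a N * (e * N) ≤ a N * ((∑ n ∈ Finset.range (L * N), D.psi β0 β1 κ1 κ2 y1 y2 N n) * C') := by linarith
    exact le_of_mul_le_mul_left h7 h5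
  exact lt_of_lt_of_le (by positivity) h6

/-- **exchange of the boxes** -/
lemma posW_exch (hP : D.Fact a) {β0' β1' κ1' κ2' y1' y2' : ℝ} (hβ0' : 0 < β0') (hβ' : β0' ≤ β1') (hκ1' : 0 < κ1')
    (hκ' : κ1' < κ2') (hy1' : 0 < y1') (hy' : y1' < y2') (h : D.PosW a β0 β1 κ1 κ2 y1 y2)
    (h' : D.PosW a β0' β1' κ1' κ2' y1' y2') : D.PosW a β0 β1 κ1 κ2 y1' y2' := by
  obtain ⟨e, he, h⟩ := h
  obtain ⟨e', he', h'⟩ := h'
  obtain ⟨E, hE, hu⟩ := D.W_up ha hρ hc hC hb hβ0' hβ' hκ1' hκ' hy1 hy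
  obtain ⟨E2, -, hu2⟩ := D.W_up ha hρ hc hC hb hβ0 hβ hκ1 hκ hy1' hy'
  refine ⟨e * e' / E, by positivity, ?_⟩
  filter_upwards [h, h', hu, hu2, eventually_ge_atTop 1] with N k1 k2 k3 k4 hN
  have hN0 : (0 : ℝ) < N := by exact_mod_cast hN
  have hNa : 0 < N * a N := mul_pos hN0 (ha N)
  have hex := D.exch hP β0 β1 β0' β1' κ1 κ2 κ1' κ2' y1 y2 y1' y2' N
  set X := D.W a β0 β1 κ1 κ2 y1' y2' N
  have h1 : e * (N * a N) * (e' * (N * a N)) ≤ X * (E * (N * a N)) :=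
    calc e * (N * a N) * (e' * (N * a N)) ≤ D.W a β0 β1 κ1 κ2 y1 y2 N * D.W a β0' β1' κ1' κ2' y1' y2' N := by
          gcongr
          exact le_trans (by positivity) k1
      _ = X * D.W a β0' β1' κ1' κ2' y1 y2 N := hex
      _ ≤ X * (E * (N * a N)) := mul_le_mul_of_nonneg_left k3.2 k4.1
  have h2 : (N * a N) * (e * e' * (N * a N)) ≤ (N * a N) * (X * E) := by nlinarith
  have h3 := le_of_mul_le_mul_left h2 hNa
  rw [div_mul_eq_mul_div, div_le_iff₀ hE]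
  exact h3

end weights

end Dat

end Pool.Agent.CRT.V.E
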