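import Pool.Agent.CRT.VEndD

/-!
# CRT, row 11A, VEnd, part E (helper66): the abstract theorem

`Dat.main`: exact factorisation, macroscopic limits of the first cut, one positive value: the sequence `a` is regularly varying.
-/

set_option autoImplicit false

open Set Filter Topology MeasureTheory

namespace Pool.Agent.CRT.V.E

lemma conv_of_near {f : ℕ → ℝ} (h : ∀ ε : ℝ, 0 < ε → ∃ l : ℝ, ∀ᶠ N in atTop, |f N - l| ≤ ε) :
    ∃ l : ℝ, Tendsto f atTop (𝓝 l) := by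
  refine cauchySeq_tendsto_of_complete ?_
  rw [Metric.cauchySeq_iff]
  intro ε hε
  obtain ⟨l, hl⟩ := h (ε / 4) (by positivity)
  obtain ⟨N0, hN0⟩ := eventually_atTop.1 hl
  refine ⟨N0, fun m hm n hn => ?_⟩
  have h1 := abs_le.1 (hN0 m hm)
  have h2 := abs_le.1 (hN0 n hn)
  rw [Real.dist_eq, abs_lt]
  constructor <;> linarith [h1.1, h1.2, h2.1, h2.2]

namespace Dat

variable (D : Dat) {a : ℕ → ℝ} (ha : ∀ n, 0 < a n)

section slow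

variable (hsl : ∀ ε : ℝ, 0 < ε → ∃ δ : ℝ, 0 < δ ∧ ∀ n m : ℕ, 1 / δ ≤ n → n ≤ m → (m : ℝ) ≤ (1 + δ) * n → |a m / a n - 1| ≤ ε)

include ha hsl

lemma slow2 {x η : ℝ} (hx : 0 < x) (hη : 0 < η) : ∃ δ0 : ℝ, 0 < δ0 ∧ ∀ δ : ℝ, 0 < δ → δ ≤ δ0 → ∀ᶠ N : ℕ in atTop, ∀ n : ℕ,
    (x - 2 * δ) * N - 1 ≤ n → (n : ℝ) ≤ (x + 2 * δ) * N → (1 - η) * a ⌊x * N⌋₊ ≤ a n ∧ a n ≤ (1 + η) * a ⌊x * N⌋₊ := by
  obtain ⟨e, he, he1, he2⟩ : ∃ e : ℝ, 0 < e ∧ e ≤ 1 / 2 ∧ 2 * e ≤ η := ⟨min (1 / 2) (η / 2), by positivity,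
    min_le_left _ _, by linarith [min_le_right (1 / 2) (η / 2)]⟩
  obtain ⟨d', hd', h⟩ := hsl e he
  obtain ⟨d, hd, hd1, hdd⟩ : ∃ d : ℝ, 0 < d ∧ d ≤ 1 ∧ d ≤ d' := ⟨min 1 d', by positivity, min_le_left _ _, min_le_right _ _⟩
  refine ⟨d * x / 16, by positivity, fun δ hδ hδ0 => ?_⟩
  have h1 : ∀ᶠ N : ℕ in atTop, (8 : ℝ) ≤ d * x * N :=
    (tendsto_natCast_atTop_atTop.const_mul_atTop (by positivity)).eventually_ge_atTop _
  have h2 : ∀ᶠ N : ℕ in atTop, 2 / d' ≤ x / 2 * N :=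
    (tendsto_natCast_atTop_atTop.const_mul_atTop (by positivity)).eventually_ge_atTop _
  filter_upwards [h1, h2] with N k1 k2 n hn1 hn2
  have hNn : (0 : ℝ) ≤ N := Nat.cast_nonneg N
  have f1 : (⌊x * N⌋₊ : ℝ) ≤ x * N := Nat.floor_le (by positivity)
  have f2 : x * N < ⌊x * N⌋₊ + 1 := Nat.lt_floor_add_one _
  have hxN : 8 ≤ x * N := by nlinarith
  have hδN : 2 * δ * N ≤ d * x * N / 8 := by nlinarith
  have hdx : d * x * N ≤ x * N := by nlinarith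
  have hdd' : 1 / d' ≤ x / 2 * N := by
    have : 1 / d' ≤ 2 / d' := by gcongr; norm_num
    linarith
  set m := ⌊x * N⌋₊ with hm
  rcases le_total m n with hmn | hmn
  · have h3 := h m n (by linarith) hmn (by nlinarith)
    have h4 := abs_le.1 h3
    rw [div_sub_one (ha m).ne', div_le_iff₀ (ha m), le_div_iff₀ (ha m)] at h4
    constructor <;> nlinarith [h4.1, h4.2, ha m]
  · have h3 := h n m (by nlinarith) hmn (by nlinarith)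
    have h4 := abs_le.1 h3
    rw [div_sub_one (ha n).ne', div_le_iff₀ (ha n), le_div_iff₀ (ha n)] at h4
    have hm0 := ha m
    have hn0 := ha n
    constructor
    · by_contra hcon
      push Not at hcon
      nlinarith [h4.1, h4.2]
    · have h5 : (1 - e) * a n ≤ a m := by linarith [h4.1]
      have h6 : a n ≤ (1 + 2 * e) * a m := by nlinarith
      nlinarith

variable {ρ c C : ℝ}

/-- the logarithm of the weight of a small box -/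
lemma logW {κ y η : ℝ} (hκ : 0 < κ) (hy : 0 < y) (hη : 0 < η) : ∃ δ0 : ℝ, 0 < δ0 ∧ ∀ δ : ℝ, 0 < δ → δ ≤ δ0 → δ < κ → δ < y →
    ∀ z0 z1 : ℝ, 0 < z0 → z0 ≤ z1 → ∀ L : ℕ, κ + y + 2 * δ + 1 ≤ L →
    0 < ∫ x in (0 : ℝ)..(L : ℝ), D.gl z0 z1 (κ - δ) (κ + δ) (y - δ) (y + δ) x → ∀ᶠ N : ℕ in atTop,
      0 < D.W a z0 z1 (κ - δ) (κ + δ) (y - δ) (y + δ) N ∧
      |Real.log (D.W a z0 z1 (κ - δ) (κ + δ) (y - δ) (y + δ) N) - (Real.log N + Real.log (a ⌊(κ + y) * N⌋₊) +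
        Real.log (∫ x in (0 : ℝ)..(L : ℝ), D.gl z0 z1 (κ - δ) (κ + δ) (y - δ) (y + δ) x))| ≤ η := by
  obtain ⟨e, he, he1, he2⟩ : ∃ e : ℝ, 0 < e ∧ e ≤ 1 / 2 ∧ 4 * e ≤ η := ⟨min (1 / 2) (η / 4), by positivity,
    min_le_left _ _, by linarith [min_le_right (1 / 2) (η / 4)]⟩
  obtain ⟨δ0, hδ0, h⟩ := slow2 ha hsl (show 0 < κ + y by positivity) he
  refine ⟨δ0, hδ0, fun δ hδ hδδ hδκ hδy z0 z1 hz0 hz L hL hI => ?_⟩
  set I := ∫ x in (0 : ℝ)..(L : ℝ), D.gl z0 z1 (κ - δ) (κ + δ) (y - δ) (y + δ) x with hIdef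
  have hlim := D.box_lim hz0 hz (show 0 < κ - δ by linarith) (show κ - δ < κ + δ by linarith) (show 0 < y - δ by linarith)
    (show y - δ < y + δ by linarith) L
  have hlog := ((Real.continuousAt_log hI.ne').tendsto.comp hlim).eventually (Metric.ball_mem_nhds _ (show 0 < η / 2 by positivity))
  filter_upwards [h δ hδ hδδ, eventually_ge_atTop 1, hlim.eventually (lt_mem_nhds hI), hlog] with N h1 hN h3 h4
  have h2 := D.W_near (a := a) (κ1 := κ - δ) (κ2 := κ + δ) (y1 := y - δ) (y2 := y + δ) (by linarith) (by linarith) hz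
    (L := L) (by linarith) hN (u := (1 - e) * a ⌊(κ + y) * N⌋₊) (v := (1 + e) * a ⌊(κ + y) * N⌋₊)
    (fun n hn => by
      obtain ⟨k1, k2⟩ := D.psi_range' (by linarith) (by linarith) hn
      exact h1 n (by nlinarith) (by nlinarith))
  have hN0 : (0 : ℝ) < N := by exact_mod_cast hN
  set S := ∑ n ∈ Finset.range (L * N), D.psi z0 z1 (κ - δ) (κ + δ) (y - δ) (y + δ) N n with hS
  have hSpos : 0 < S := by
    by_contra hcon
    have : (N : ℝ)⁻¹ * S ≤ 0 := mul_nonpos_of_nonneg_of_nonpos (by positivity) (not_lt.1 hcon)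
    linarith
  have hlS : Real.log ((N : ℝ)⁻¹ * S) = Real.log S - Real.log N := by
    rw [Real.log_mul (by positivity) hSpos.ne', Real.log_inv]
    ring
  simp only [Function.comp_apply] at h4
  rw [hlS, Real.dist_eq] at h4
  have h4' := abs_lt.1 h4
  have haN := ha ⌊(κ + y) * N⌋₊
  have hWpos : 0 < D.W a z0 z1 (κ - δ) (κ + δ) (y - δ) (y + δ) N := by
    refine lt_of_lt_of_le ?_ h2.1
    have : 0 < 1 - e := by linarith
    positivity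
  refine ⟨hWpos, ?_⟩
  have hlo : Real.log (1 - e) + Real.log (a ⌊(κ + y) * N⌋₊) + Real.log S ≤ Real.log (D.W a z0 z1 (κ - δ) (κ + δ) (y - δ) (y + δ) N) := by
    rw [← Real.log_mul (by linarith) haN.ne', ← Real.log_mul (mul_pos (by linarith) haN).ne' hSpos.ne']
    exact Real.log_le_log (mul_pos (mul_pos (by linarith) haN) hSpos) h2.1
  have hhi : Real.log (D.W a z0 z1 (κ - δ) (κ + δ) (y - δ) (y + δ) N) ≤ Real.log (1 + e) + Real.log (a ⌊(κ + y) * N⌋₊) + Real.log S := by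
    rw [← Real.log_mul (by linarith) haN.ne', ← Real.log_mul (mul_pos (by linarith) haN).ne' hSpos.ne']
    exact Real.log_le_log hWpos h2.2
  have hl1 : -(2 * e) ≤ Real.log (1 - e) := by
    have := Real.one_sub_inv_le_log_of_pos (show 0 < 1 - e by linarith)
    refine le_trans ?_ this
    have h5 : (1 - e)⁻¹ ≤ 1 + 2 * e := by
      rw [inv_le_comm₀ (by linarith) (by linarith), inv_le_iff_one_le_mul₀ (by linarith)]
      nlinarith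
    linarith
  have hl2 : Real.log (1 + e) ≤ e := by
    have := Real.log_le_sub_one_of_pos (show 0 < 1 + e by linarith)
    linarith
  rw [abs_le]
  constructor <;> linarith [h4'.1, h4'.2]

variable (hρ : 0 ≤ ρ) (hc : 0 < c) (hC : 0 < C) (hb : ∀ n : ℕ, 1 ≤ n → c * (n : ℝ) ^ ρ ≤ a n ∧ a n ≤ C * (n : ℝ) ^ ρ)
  (hP : D.Fact a)

omit hsl in
include hρ hc hC hb hP in
/-- all the small boxes have mass, the zone depends on the first coordinate only -/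
lemma full {ts b0 b1 : ℝ} (hts : 0 < ts) (hts1 : ts < 1) (hb0 : 0 < b0) (hbb : b0 < b1)
    (hJ : ∀ d : ℝ, 0 < d → 0 < ∫ β in b0..b1, (D.G β (ts + d) - D.G β (ts - d))) {κ y : ℝ} (hκ : 0 < κ) (hy : 0 < y) :
    ∃ δ1 : ℝ, 0 < δ1 ∧ ∀ δ : ℝ, 0 < δ → δ < δ1 → ∀ L : ℕ, κ + y + 2 * δ + 1 ≤ L →
    0 < ∫ x in (0 : ℝ)..(L : ℝ), D.gl ((κ / ts) ^ (3 / 4 : ℝ) * b0 / 2) (2 * ((κ / ts) ^ (3 / 4 : ℝ) * b1))
      (κ - δ) (κ + δ) (y - δ) (y + δ) x := by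
  have h1t : 0 < 1 - ts := by linarith
  obtain ⟨x0, hx0⟩ : ∃ x0 : ℝ, x0 = κ / ts := ⟨_, rfl⟩
  obtain ⟨x1, hx1⟩ : ∃ x1 : ℝ, x1 = y / (1 - ts) := ⟨_, rfl⟩
  have hx0p : 0 < x0 := by rw [hx0]; positivity
  have hx1p : 0 < x1 := by rw [hx1]; positivity
  have e0 : x0 * ts = κ := by rw [hx0]; field_simp
  have e1 : x1 * (1 - ts) = y := by rw [hx1]; field_simp
  obtain ⟨δ1, hδ1, d1, d2, d3, d4⟩ : ∃ δ1 : ℝ, 0 < δ1 ∧ δ1 ≤ κ ∧ δ1 ≤ y ∧ δ1 ≤ x0 * (1 - ts) ∧ δ1 ≤ x1 * ts :=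
    ⟨min (min κ y) (min (x0 * (1 - ts)) (x1 * ts)), by positivity, (min_le_left _ _).trans (min_le_left _ _),
      (min_le_left _ _).trans (min_le_right _ _), (min_le_right _ _).trans (min_le_left _ _),
      (min_le_right _ _).trans (min_le_right _ _)⟩
  refine ⟨δ1, hδ1, fun δ hδ hδδ L hL => ?_⟩
  rw [← hx0]
  have zone : ∀ x : ℝ, 0 < x → 0 < x ^ (3 / 4 : ℝ) * b0 / 2 ∧ x ^ (3 / 4 : ℝ) * b0 / 2 ≤ 2 * (x ^ (3 / 4 : ℝ) * b1) := by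
    intro x hx
    have hX : 0 < x ^ (3 / 4 : ℝ) := by positivity
    have : x ^ (3 / 4 : ℝ) * b0 ≤ x ^ (3 / 4 : ℝ) * b1 := mul_le_mul_of_nonneg_left hbb.le hX.le
    have : 0 < x ^ (3 / 4 : ℝ) * b0 := by positivity
    constructor <;> linarith
  -- the diagonal boxes
  have diag : ∀ x : ℝ, 0 < x → δ < x * ts → δ < x * (1 - ts) → D.PosW a (x ^ (3 / 4 : ℝ) * b0 / 2) (2 * (x ^ (3 / 4 : ℝ) * b1))
      (x * ts - δ) (x * ts + δ) (x * (1 - ts) - δ) (x * (1 - ts) + δ) := by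
    intro x hx k1 k2
    obtain ⟨L', hL'⟩ := exists_nat_ge (x + 2 * δ + 1)
    exact D.posW_of ha hρ hc hC hb (zone x hx).1 (zone x hx).2 (by linarith) (by linarith) (by linarith) (by linarith)
      (L := L') (by nlinarith) (D.pos_box hts hts1 hb0 hbb hJ hx hδ k1 k2 hL')
  have k0 := diag x0 hx0p (by rw [e0]; linarith) (by linarith)
  have k1 := diag x1 hx1p (by linarith) (by rw [e1]; linarith)
  rw [e0] at k0
  rw [e1] at k1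
  have k2 := D.posW_exch ha hρ hc hC hb (zone x0 hx0p).1 (zone x0 hx0p).2 (by linarith) (by linarith) (by linarith) (by linarith) hP
    (zone x1 hx1p).1 (zone x1 hx1p).2 (by linarith) (by linarith) (by linarith) (by linarith) k0 k1
  exact D.pos_ofW ha hρ hc hC hb (zone x0 hx0p).1 (zone x0 hx0p).2 (by linarith) (by linarith) (by linarith) (by linarith)
    (by linarith) k2

include hρ hc hC hb hP

/-- **the abstract theorem** -/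
theorem main (hpos : ∃ ε : ℝ, 0 < ε ∧ ε < 1 ∧ ε ≤ D.G ε (1 - ε))
    (hzero : ∀ b : ℝ, 0 < b → ∀ η : ℝ, 0 < η → ∃ t : ℝ, 0 < t ∧ D.G b t ≤ η) (x : ℝ) (hx : 0 < x) :
    Tendsto (fun N : ℕ => a ⌊x * N⌋₊ / a N) atTop (𝓝 (x ^ ρ)) := by
  obtain ⟨ts, b0, b1, hts, hts1, hb0, hbb, hJ⟩ := D.base hpos hzero
  refine conv_of ha hc hC hb ?_ hsl x hx
  intro κ₁ κ₂ y₁ y₂ hκ1 hκ2 hy1 hy2
  have key : ∃ l : ℝ, Tendsto (fun N : ℕ => Real.log (a ⌊(κ₁ + y₁) * N⌋₊) + Real.log (a ⌊(κ₂ + y₂) * N⌋₊) -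
      Real.log (a ⌊(κ₁ + y₂) * N⌋₊) - Real.log (a ⌊(κ₂ + y₁) * N⌋₊)) atTop (𝓝 l) := by
    refine conv_of_near fun ε hε => ?_
    have hε4 : 0 < ε / 4 := by positivity
    obtain ⟨p11, hp11, w11⟩ := D.logW ha hsl hκ1 hy1 hε4
    obtain ⟨p22, hp22, w22⟩ := D.logW ha hsl hκ2 hy2 hε4
    obtain ⟨p12, hp12, w12⟩ := D.logW ha hsl hκ1 hy2 hε4
    obtain ⟨p21, hp21, w21⟩ := D.logW ha hsl hκ2 hy1 hε4
    obtain ⟨q11, hq11, v11⟩ := D.full ha hρ hc hC hb hP hts hts1 hb0 hbb hJ hκ1 hy1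
    obtain ⟨q22, hq22, v22⟩ := D.full ha hρ hc hC hb hP hts hts1 hb0 hbb hJ hκ2 hy2
    obtain ⟨q12, hq12, v12⟩ := D.full ha hρ hc hC hb hP hts hts1 hb0 hbb hJ hκ1 hy2
    obtain ⟨q21, hq21, v21⟩ := D.full ha hρ hc hC hb hP hts hts1 hb0 hbb hJ hκ2 hy1
    obtain ⟨δ, hδ, r1, r2, r3, r4, r5, r6, r7, r8, r9, r10, r11, r12⟩ : ∃ δ : ℝ, 0 < δ ∧ δ ≤ p11 ∧ δ ≤ p22 ∧ δ ≤ p12 ∧ δ ≤ p21 ∧
        δ < q11 ∧ δ < q22 ∧ δ < q12 ∧ δ < q21 ∧ δ < κ₁ ∧ δ < κ₂ ∧ δ < y₁ ∧ δ < y₂ := by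
      have hev : ∀ p : ℝ, 0 < p → ∀ᶠ δ : ℝ in 𝓝[>] 0, δ < p := fun p hp =>
        (Filter.Tendsto.eventually_lt_const hp tendsto_id).filter_mono nhdsWithin_le_nhds
      obtain ⟨δ, h⟩ := ((hev _ hp11).and ((hev _ hp22).and ((hev _ hp12).and ((hev _ hp21).and ((hev _ hq11).and
        ((hev _ hq22).and ((hev _ hq12).and ((hev _ hq21).and ((hev _ hκ1).and ((hev _ hκ2).and ((hev _ hy1).and
          ((hev _ hy2).and self_mem_nhdsWithin)))))))))))).exists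
      obtain ⟨s1, s2, s3, s4, s5, s6, s7, s8, s9, s10, s11, s12, s13⟩ := h
      exact ⟨δ, s13, s1.le, s2.le, s3.le, s4.le, s5, s6, s7, s8, s9, s10, s11, s12⟩
    obtain ⟨L, hL⟩ := exists_nat_ge (κ₁ + κ₂ + y₁ + y₂ + 2 * δ + 1)
    obtain ⟨I11, hI11⟩ : ∃ I : ℝ, I = ∫ x in (0 : ℝ)..(L : ℝ), D.gl ((κ₁ / ts) ^ (3 / 4 : ℝ) * b0 / 2)
      (2 * ((κ₁ / ts) ^ (3 / 4 : ℝ) * b1)) (κ₁ - δ) (κ₁ + δ) (y₁ - δ) (y₁ + δ) x := ⟨_, rfl⟩
    obtain ⟨I22, hI22⟩ : ∃ I : ℝ, I = ∫ x in (0 : ℝ)..(L : ℝ), D.gl ((κ₂ / ts) ^ (3 / 4 : ℝ) * b0 / 2)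
      (2 * ((κ₂ / ts) ^ (3 / 4 : ℝ) * b1)) (κ₂ - δ) (κ₂ + δ) (y₂ - δ) (y₂ + δ) x := ⟨_, rfl⟩
    obtain ⟨I12, hI12⟩ : ∃ I : ℝ, I = ∫ x in (0 : ℝ)..(L : ℝ), D.gl ((κ₁ / ts) ^ (3 / 4 : ℝ) * b0 / 2)
      (2 * ((κ₁ / ts) ^ (3 / 4 : ℝ) * b1)) (κ₁ - δ) (κ₁ + δ) (y₂ - δ) (y₂ + δ) x := ⟨_, rfl⟩
    obtain ⟨I21, hI21⟩ : ∃ I : ℝ, I = ∫ x in (0 : ℝ)..(L : ℝ), D.gl ((κ₂ / ts) ^ (3 / 4 : ℝ) * b0 / 2)
      (2 * ((κ₂ / ts) ^ (3 / 4 : ℝ) * b1)) (κ₂ - δ) (κ₂ + δ) (y₁ - δ) (y₁ + δ) x := ⟨_, rfl⟩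
    have zone : ∀ κ : ℝ, 0 < κ → 0 < (κ / ts) ^ (3 / 4 : ℝ) * b0 / 2 ∧
        (κ / ts) ^ (3 / 4 : ℝ) * b0 / 2 ≤ 2 * ((κ / ts) ^ (3 / 4 : ℝ) * b1) := by
      intro κ hκ
      have hX : 0 < (κ / ts) ^ (3 / 4 : ℝ) := by positivity
      have : (κ / ts) ^ (3 / 4 : ℝ) * b0 ≤ (κ / ts) ^ (3 / 4 : ℝ) * b1 := mul_le_mul_of_nonneg_left hbb.le hX.le
      have : 0 < (κ / ts) ^ (3 / 4 : ℝ) * b0 := by positivity
      constructor <;> linarith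
    have u11 := w11 δ hδ r1 r9 r11 _ _ (zone κ₁ hκ1).1 (zone κ₁ hκ1).2 L (by linarith) (v11 δ hδ r5 L (by linarith))
    have u22 := w22 δ hδ r2 r10 r12 _ _ (zone κ₂ hκ2).1 (zone κ₂ hκ2).2 L (by linarith) (v22 δ hδ r6 L (by linarith))
    have u12 := w12 δ hδ r3 r9 r12 _ _ (zone κ₁ hκ1).1 (zone κ₁ hκ1).2 L (by linarith) (v12 δ hδ r7 L (by linarith))
    have u21 := w21 δ hδ r4 r10 r11 _ _ (zone κ₂ hκ2).1 (zone κ₂ hκ2).2 L (by linarith) (v21 δ hδ r8 L (by linarith))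
    rw [← hI11] at u11
    rw [← hI22] at u22
    rw [← hI12] at u12
    rw [← hI21] at u21
    refine ⟨-(Real.log I11 + Real.log I22 - Real.log I12 - Real.log I21), ?_⟩
    filter_upwards [u11, u22, u12, u21] with N t11 t22 t12 t21
    have hex := D.exch hP ((κ₁ / ts) ^ (3 / 4 : ℝ) * b0 / 2) (2 * ((κ₁ / ts) ^ (3 / 4 : ℝ) * b1))
      ((κ₂ / ts) ^ (3 / 4 : ℝ) * b0 / 2) (2 * ((κ₂ / ts) ^ (3 / 4 : ℝ) * b1)) (κ₁ - δ) (κ₁ + δ) (κ₂ - δ) (κ₂ + δ)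
      (y₁ - δ) (y₁ + δ) (y₂ - δ) (y₂ + δ) N
    have hlog := congrArg Real.log hex
    rw [Real.log_mul t11.1.ne' t22.1.ne', Real.log_mul t12.1.ne' t21.1.ne'] at hlog
    have g11 := abs_le.1 t11.2
    have g22 := abs_le.1 t22.2
    have g12 := abs_le.1 t12.2
    have g21 := abs_le.1 t21.2
    rw [abs_le]
    constructor <;> linarith [g11.1, g11.2, g22.1, g22.2, g12.1, g12.2, g21.1, g21.2]
  obtain ⟨l, hl⟩ := key
  refine ⟨Real.exp l, Real.exp_pos _, ((Real.continuous_exp.tendsto l).comp hl).congr fun N => ?_⟩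
  simp only [Function.comp_apply]
  rw [Real.exp_sub, Real.exp_sub, Real.exp_add, Real.exp_log (ha _), Real.exp_log (ha _), Real.exp_log (ha _),
    Real.exp_log (ha _), div_div]

end slow

end Dat

end Pool.Agent.CRT.V.E
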