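import Pool.Agent.CRT.VEndE
import Pool.Agent.CRT.VLim
import Pool.Agent.CRT.WinK
import Pool.Agent.CRT.Mass

/-!
# CRT, row 11A E (helper66): Q1 gives the regular variation of the numbers of walks

**`vend (hP : VProd) (hL : VLim) (hV : VPos) (hR : RegSz) : Q1 → RVa`**.
-/

set_option autoImplicit false

open Set Filter Topology MeasureTheory
open scoped ENNReal

namespace Pool.Agent.CRT.V.E

open Pool.Agent.NTS.Res
open Pool.Agent.NPR

open Classical in
/-- the probability that there is a cut to the right of `b`, not later than `K` -/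
noncomputable def Fp (n : ℕ) (b : ℝ) (K : ℕ) : ℝ :=
  (((saw n).filter fun s => ∃ k : ℕ, k ≤ K ∧ Cut s k ∧ b ≤ (pos s k).re).card : ℝ) / ((saw n).card : ℝ)

lemma card_pos (n : ℕ) : (0 : ℝ) < (saw n).card := by exact_mod_cast (NTSF.saw_nonempty n).card_pos

lemma Fp_nonneg (n : ℕ) (b : ℝ) (K : ℕ) : 0 ≤ Fp n b K := by
  unfold Fp
  positivity

lemma Fp_le_one (n : ℕ) (b : ℝ) (K : ℕ) : Fp n b K ≤ 1 := by
  classical
  unfold Fp
  rw [div_le_one (card_pos n)]
  exact_mod_cast Finset.card_le_card (Finset.filter_subset _ _)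

lemma Fp_anti (n K : ℕ) : Antitone fun b => Fp n b K := by
  classical
  intro b b' h
  refine div_le_div_of_nonneg_right ?_ (card_pos n).le
  refine Nat.cast_le.2 (Finset.card_le_card fun s hs => ?_)
  rw [Finset.mem_filter] at hs ⊢
  obtain ⟨h1, k, h2, h3, h4⟩ := hs
  exact ⟨h1, k, h2, h3, h.trans h4⟩

lemma Fp_mono (n : ℕ) (b : ℝ) : Monotone (Fp n b) := by
  classical
  intro K K' h
  refine div_le_div_of_nonneg_right ?_ (card_pos n).le
  refine Nat.cast_le.2 (Finset.card_le_card fun s hs => ?_)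
  rw [Finset.mem_filter] at hs ⊢
  obtain ⟨h1, k, h2, h3, h4⟩ := hs
  exact ⟨h1, k, h2.trans h, h3, h4⟩

lemma Fp_Dn (n : ℕ) (a t : ℝ) (ht : 0 ≤ t) : Fp n (a * size n) ⌊t * n⌋₊ = Dn n a t := by
  classical
  unfold Fp Dn
  congr 2
  refine congrArg Finset.card (Finset.filter_congr fun s _ => ?_)
  constructor
  · rintro ⟨k, h1, h2, h3⟩
    exact ⟨k, (Nat.le_floor_iff (by positivity)).1 h1, h2, h3⟩
  · rintro ⟨k, h1, h2, h3⟩
    exact ⟨k, (Nat.le_floor_iff (by positivity)).2 h1, h2, h3⟩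

/-- the first cut -/
lemma Fp_fst (n : ℕ) (b : ℝ) (k : ℕ) : aN n * (Fp n b (k + 1) - Fp n b k) = wF b n (k + 1) := by
  classical
  have h1 : (((saw n).filter fun s => ∃ j : ℕ, j ≤ k + 1 ∧ Cut s j ∧ b ≤ (pos s j).re).card : ℝ) =
      (((saw n).filter fun s => ∃ j : ℕ, j ≤ k ∧ Cut s j ∧ b ≤ (pos s j).re).card : ℝ) +
        (((saw n).filter fun s => Fst b s (k + 1)).card : ℝ) := by
    rw [← Nat.cast_add, ← Finset.card_union_of_disjoint]
    · congr 2
      ext s
      simp only [Finset.mem_union, Finset.mem_filter]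
      constructor
      · rintro ⟨h1, j, h2, h3, h4⟩
        by_cases hex : ∃ j : ℕ, j ≤ k ∧ Cut s j ∧ b ≤ (pos s j).re
        · exact Or.inl ⟨h1, hex⟩
        · push Not at hex
          have hj : j = k + 1 := by
            by_contra hne
            exact absurd (hex j (by omega) h3) (not_lt.2 h4)
          subst hj
          exact Or.inr ⟨h1, h3, h4, fun i hi hc => hex i (by omega) hc⟩
      · rintro (⟨h1, j, h2, h3, h4⟩ | ⟨h1, h2, h3, h4⟩)
        · exact ⟨h1, j, by omega, h3, h4⟩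
        · exact ⟨h1, k + 1, le_rfl, h2, h3⟩
    · rw [Finset.disjoint_filter]
      rintro s _ ⟨j, h1, h2, h3⟩ ⟨_, _, h4⟩
      exact absurd (h4 j (by omega) h2) (not_lt.2 h3)
  have hc := (card_pos n).ne'
  unfold Fp wF aN
  rw [h1]
  field_simp
  ring

/-- the data of the walks -/
noncomputable def dat (hL : VLim) (hR : RegSz) {ν : Measure CI} (hν : IsProbabilityMeasure ν) (hl : LawTo (fun n => n) ν) :
    Dat where
  F := Fp
  sz := size
  G := fun a t => (ν (FC a t)).toReal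
  F0 := Fp_nonneg
  F1 := Fp_le_one
  Fa := Fp_anti
  Fm := Fp_mono
  G0 := fun _ _ => ENNReal.toReal_nonneg
  G1 := fun a t => by
    have h1 : ν (FC a t) ≤ 1 := prob_le_one
    have := ENNReal.toReal_mono ENNReal.one_ne_top h1
    rwa [ENNReal.toReal_one] at this
  Ga := fun t a a' h => ENNReal.toReal_mono (measure_ne_top ν _) (measure_mono fun γ hγ => by
    obtain ⟨u, h1, h2, h3⟩ := hγ
    exact ⟨u, h1, h.trans h2, h3⟩)
  Gm := fun a t t' h => ENNReal.toReal_mono (measure_ne_top ν _) (measure_mono fun γ hγ => by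
    obtain ⟨u, h1, h2, h3⟩ := hγ
    exact ⟨u, h1.trans h, h2, h3⟩)
  szp := fun n hn => NTSF.size_pos hn
  szn := fun n => NTSF.size_nonneg n
  szv := fun x hx => hR ⟨ν, hν, hl⟩ x hx
  lim := lim_of_ptw fun a t ha ht ht1 δ hδ => by
    filter_upwards [hL ν hν hl a t ha ht ht1 δ hδ] with n hn
    rw [Fp_Dn n a t ht.le]
    exact hn

/-- slow change -/
lemma slow_a (ε : ℝ) (hε : 0 < ε) : ∃ δ : ℝ, 0 < δ ∧ ∀ n m : ℕ, 1 / δ ≤ n → n ≤ m → (m : ℝ) ≤ (1 + δ) * n →
    |aN m / aN n - 1| ≤ ε := by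
  obtain ⟨δ, hδ, h⟩ := slow_lip hε
  exact ⟨δ, hδ, fun n m h1 h2 h3 => (h n m h1 h2 h3).1⟩

/-- **row E** -/
theorem vend (hP : VProd) (hL : VLim) (hV : VPos) (hR : RegSz) : Q1 → RVa := by
  classical
  rintro ⟨ν, hν, hl⟩ lam hlam
  obtain ⟨c, C, hc, hC, hb⟩ := _root_.CRT.Mass.aN_bounds
  set D := dat hL hR hν hl with hD
  have hfact : D.Fact aN := by
    obtain ⟨h, hh⟩ := hP
    choose C hC using hh
    exact ⟨C, h, fun b n k hk => (Fp_fst n b k).trans (hC b n (k + 1) hk)⟩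
  have hpos : ∃ ε : ℝ, 0 < ε ∧ ε < 1 ∧ ε ≤ D.G ε (1 - ε) := by
    obtain ⟨ε, hε, n0, hn⟩ := hV
    have hε1 : ε < 1 := by
      by_contra hcon
      push Not at hcon
      obtain ⟨n, hn1, hn2⟩ : ∃ n : ℕ, n0 ≤ n ∧ 1 ≤ n := ⟨max n0 1, le_max_left _ _, le_max_right _ _⟩
      have h1 := hn n hn1
      have h2 : ((saw n).filter fun s => ∃ k : ℕ, (k : ℝ) ≤ (1 - ε) * n ∧ Cut s k ∧ ε * size n ≤ (pos s k).re) = ∅ := by
        rw [Finset.filter_eq_empty_iff]
        rintro s _ ⟨k, h3, _, h4⟩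
        have h5 : (k : ℝ) ≤ 0 := h3.trans (mul_nonpos_of_nonpos_of_nonneg (by linarith) (Nat.cast_nonneg n))
        have h6 : k = 0 := by
          have : (k : ℝ) = 0 := le_antisymm h5 (Nat.cast_nonneg k)
          exact_mod_cast this
        subst h6
        have h7 : pos s 0 = 0 := by
          unfold pos
          simp
        rw [h7, Complex.zero_re] at h4
        have := mul_pos hε (NTSF.size_pos hn2)
        linarith
      rw [h2, Finset.card_empty, Nat.cast_zero] at h1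
      have := mul_pos hε (card_pos n)
      linarith
    refine ⟨ε, hε, hε1, ?_⟩
    refine le_of_forall_pos_le_add fun δ hδ => ?_
    obtain ⟨n, ⟨_, h2⟩, h3⟩ := ((hL ν hν hl ε (1 - ε) hε (by linarith) (by linarith) δ hδ).and (eventually_ge_atTop n0)).exists
    have h4 := hn n h3
    refine le_trans ?_ h2
    unfold Dn
    rw [le_div_iff₀ (card_pos n)]
    exact h4
  have hzero : ∀ b : ℝ, 0 < b → ∀ η : ℝ, 0 < η → ∃ t : ℝ, 0 < t ∧ D.G b t ≤ η := by
    intro b hb η hη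
    obtain ⟨e, he, h⟩ := VL.ea_small hl hb hη
    refine ⟨e, he, le_trans ?_ h.le⟩
    refine ENNReal.toReal_mono (measure_ne_top ν _) (measure_mono fun γ hγ => ?_)
    obtain ⟨u, h1, h2, h3⟩ := hγ
    exact ⟨u, h1, h2⟩
  exact D.main K10.aN_pos slow_a (by norm_num) hc hC hb hfact hpos hzero lam hlam

end Pool.Agent.CRT.V.E
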