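import Pool.Agent.CRT.VEndF

/-!
# CRT, row 11A E (helper66), second form: from the comparison of two numbers of steps (idea of helper59 and helper84)

`VSt`: the probabilities of the cuts for two large numbers of steps are comparable, up to a shift of the parameters.
**`vend2 (hP : VProd) (hS : VSt) (hV : VPos) (hR : RegSz) : Q1 → RVa`**.
-/

set_option autoImplicit false

open Set Filter Topology MeasureTheory
open scoped ENNReal

namespace Pool.Agent.CRT.V

/-- **(*)** the probabilities of the cuts for two numbers of steps -/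
def VSt : Prop := Q1 → ∀ a t δ : ℝ, 0 < a → 0 < t → t < 1 → 0 < δ → ∃ n0 : ℕ, ∀ n n' : ℕ, n0 ≤ n → n0 ≤ n' →
  Dn n (a + δ) (t - δ) ≤ Dn n' a t + δ

namespace E

open Pool.Agent.NTS.Res
open Pool.Agent.NPR

lemma Dn_nonneg (n : ℕ) (a t : ℝ) : 0 ≤ Dn n a t := by
  unfold Dn
  positivity

lemma Dn_le_one (n : ℕ) (a t : ℝ) : Dn n a t ≤ 1 := by
  classical
  unfold Dn
  rw [div_le_one (card_pos n)]
  exact_mod_cast Finset.card_le_card (Finset.filter_subset _ _)

lemma Dn_anti (n : ℕ) (t : ℝ) : Antitone fun a => Dn n a t := by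
  classical
  intro a a' h
  refine div_le_div_of_nonneg_right ?_ (card_pos n).le
  refine Nat.cast_le.2 (Finset.card_le_card fun s hs => ?_)
  rw [Finset.mem_filter] at hs ⊢
  obtain ⟨h1, k, h2, h3, h4⟩ := hs
  exact ⟨h1, k, h2, h3, (mul_le_mul_of_nonneg_right h (NTSF.size_nonneg n)).trans h4⟩

lemma Dn_mono (n : ℕ) (a : ℝ) : Monotone (Dn n a) := by
  classical
  intro t t' h
  refine div_le_div_of_nonneg_right ?_ (card_pos n).le
  refine Nat.cast_le.2 (Finset.card_le_card fun s hs => ?_)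
  rw [Finset.mem_filter] at hs ⊢
  obtain ⟨h1, k, h2, h3, h4⟩ := hs
  exact ⟨h1, k, h2.trans (mul_le_mul_of_nonneg_right h (Nat.cast_nonneg n)), h3, h4⟩

/-- upper limit -/
noncomputable def Dl (a t : ℝ) : ℝ := sInf {c : ℝ | ∀ᶠ n : ℕ in atTop, Dn n a t ≤ c}

lemma Dl_bdd (a t : ℝ) : BddBelow {c : ℝ | ∀ᶠ n : ℕ in atTop, Dn n a t ≤ c} := by
  refine ⟨0, fun c hc => ?_⟩
  obtain ⟨n, hn⟩ := (show ∀ᶠ n : ℕ in atTop, Dn n a t ≤ c from hc).exists
  exact (Dn_nonneg n a t).trans hn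

lemma Dl_ne (a t : ℝ) : ({c : ℝ | ∀ᶠ n : ℕ in atTop, Dn n a t ≤ c}).Nonempty :=
  ⟨1, Eventually.of_forall fun n => Dn_le_one n a t⟩

lemma Dl_ge {a t c : ℝ} (h : ∃ᶠ n : ℕ in atTop, c ≤ Dn n a t) : c ≤ Dl a t := by
  refine le_csInf (Dl_ne a t) fun c' hc' => ?_
  obtain ⟨n, h1, h2⟩ := (h.and_eventually (show ∀ᶠ n : ℕ in atTop, Dn n a t ≤ c' from hc')).exists
  exact h1.trans h2

lemma Dl_le {a t c : ℝ} (h : ∀ᶠ n : ℕ in atTop, Dn n a t ≤ c) : Dl a t ≤ c := csInf_le (Dl_bdd a t) h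

/-- the data of the walks, second form -/
noncomputable def dat2 (hS : VSt) (hR : RegSz) (hQ : Q1) : Dat where
  F := Fp
  sz := size
  G := Dl
  F0 := Fp_nonneg
  F1 := Fp_le_one
  Fa := Fp_anti
  Fm := Fp_mono
  G0 := fun a t => Dl_ge (Frequently.of_forall fun n => Dn_nonneg n a t)
  G1 := fun a t => Dl_le (Eventually.of_forall fun n => Dn_le_one n a t)
  Ga := fun t a a' h => csInf_le_csInf (Dl_bdd a' t) (Dl_ne a t) fun c hc =>
    (show ∀ᶠ n : ℕ in atTop, Dn n a t ≤ c from hc).mono fun n hn => (Dn_anti n t h).trans hn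
  Gm := fun a t t' h => csInf_le_csInf (Dl_bdd a t) (Dl_ne a t') fun c hc =>
    (show ∀ᶠ n : ℕ in atTop, Dn n a t' ≤ c from hc).mono fun n hn => (Dn_mono n a h).trans hn
  szp := fun n hn => NTSF.size_pos hn
  szn := fun n => NTSF.size_nonneg n
  szv := fun x hx => hR hQ x hx
  lim := lim_of_ptw fun a t ha ht ht1 δ hδ => by
    obtain ⟨n0, h0⟩ := hS hQ a t δ ha ht ht1 hδ
    obtain ⟨c, hc, hc2⟩ := exists_lt_of_csInf_lt (Dl_ne a t) (show Dl a t < Dl a t + δ by linarith)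
    filter_upwards [eventually_ge_atTop n0, (show ∀ᶠ n : ℕ in atTop, Dn n a t ≤ c from hc)] with n hn hn2
    rw [Fp_Dn n a t ht.le]
    refine ⟨?_, hn2.trans hc2.le⟩
    have h1 : Dl (a + δ) (t - δ) ≤ Dn n a t + δ := Dl_le (by
      filter_upwards [eventually_ge_atTop n0] with m hm
      exact h0 m n hm hn)
    linarith

/-- **row E, second form** -/
theorem vend2 (hP : VProd) (hS : VSt) (hV : VPos) (hR : RegSz) : Q1 → RVa := by
  classical
  rintro hQ lam hlam
  obtain ⟨c, C, hc, hC, hb⟩ := _root_.CRT.Mass.aN_bounds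
  set D := dat2 hS hR hQ with hD
  have hfact : D.Fact aN := by
    obtain ⟨h, hh⟩ := hP
    choose C hC using hh
    exact ⟨C, h, fun b n k hk => (Fp_fst n b k).trans (hC b n (k + 1) hk)⟩
  have hpos : ∃ ε : ℝ, 0 < ε ∧ ε < 1 ∧ ε ≤ D.G ε (1 - ε) := by
    obtain ⟨ε, hε, n0, hn⟩ := hV
    have hε1 : ε < 1 := by
      by_contra hcon
      push Not at hcon
      obtain ⟨n, hn1, hn2⟩ : ∃ n : ℕ, n0 ≤ n ∧ 1 ≤ n := ⟨max n0 1, le_max_left _ _, le_max_right _ _⟩
      have h1 := hn n hn1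
      have h2 : ((saw n).filter fun s => ∃ k : ℕ, (k : ℝ) ≤ (1 - ε) * n ∧ Cut s k ∧ ε * size n ≤ (pos s k).re) = ∅ := by
        rw [Finset.filter_eq_empty_iff]
        rintro s _ ⟨k, h3, _, h4⟩
        have h5 : (k : ℝ) ≤ 0 := h3.trans (mul_nonpos_of_nonpos_of_nonneg (by linarith) (Nat.cast_nonneg n))
        have h6 : k = 0 := by
          have : (k : ℝ) = 0 := le_antisymm h5 (Nat.cast_nonneg k)
          exact_mod_cast this
        subst h6
        have h7 : pos s 0 = 0 := by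
          unfold pos
          simp
        rw [h7, Complex.zero_re] at h4
        have := mul_pos hε (NTSF.size_pos hn2)
        linarith
      rw [h2, Finset.card_empty, Nat.cast_zero] at h1
      have := mul_pos hε (card_pos n)
      linarith
    refine ⟨ε, hε, hε1, Dl_ge (Eventually.frequently ?_)⟩
    filter_upwards [eventually_ge_atTop n0] with n h3
    unfold Dn
    rw [le_div_iff₀ (card_pos n)]
    exact hn n h3
  have hzero : ∀ b : ℝ, 0 < b → ∀ η : ℝ, 0 < η → ∃ t : ℝ, 0 < t ∧ D.G b t ≤ η := by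
    intro b hb η hη
    obtain ⟨ν, hν, hl⟩ := hQ
    obtain ⟨e, he, h⟩ := VL.ea_small hl hb (show 0 < η / 2 by positivity)
    refine ⟨e, he, Dl_le ?_⟩
    filter_upwards [VL.ev_closed (VL.wto hl) (VL.ea_closed b e) (show 0 < η / 2 by positivity), eventually_ge_atTop 1] with n h1 hn
    have h2 : Dn n b e ≤ (law n (VL.Ea b e)).toReal := by
      have hlr : (law n (VL.Ea b e)).toReal = (((saw n).filter fun s => curve s ∈ VL.Ea b e).card : ℝ) / ((saw n).card : ℝ) := by
        rw [NTSF.law_apply, ENNReal.toReal_mul, ENNReal.toReal_inv, ENNReal.toReal_natCast, ENNReal.toReal_natCast]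
        rw [div_eq_mul_inv, mul_comm]
      rw [hlr]
      refine div_le_div_of_nonneg_right ?_ (card_pos n).le
      refine Nat.cast_le.2 (Finset.card_le_card fun s hs => ?_)
      rw [Finset.mem_filter] at hs ⊢
      obtain ⟨h3, k, h4, h5, h6⟩ := hs
      obtain ⟨u, h7, h8, -⟩ := VL.cut_fc hn h4 h5 h6
      exact ⟨h3, u, h7, h8⟩
    linarith
  exact D.main K10.aN_pos slow_a (by norm_num) hc hC hb hfact hpos hzero lam hlam

end E

end Pool.Agent.CRT.V
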