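import Pool.Agent.CRT.VAll
import Pool.Agent.CRT.VPfN
import Pool.Agent.CRT.VBadZ

/-!
# CRT, row 11A: closed (helpers 11, 66, 59, 84, 86, 42, 28, 16, 69, 45, 90)
-/

set_option autoImplicit false

open Set Filter Topology MeasureTheory
open scoped ENNReal

namespace Pool.Agent.CRT

open Pool.Agent.NTS.Res
open Pool.Agent.NPR

/-- **11A**: if the laws of the walks converge then the numbers of walks vary regularly -/
theorem q1_rva : Q1 → RVa := V.rva_of V.vPerfA V.vBadA

/-- **the pure equivalence**, with the regular variation of the sizes and of the numbers of walks -/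
theorem crt_full : (RatC ↔ Q1) ∧ (Q1 →
    (∀ lam : ℝ, 0 < lam → Tendsto (fun n : ℕ => size ⌊lam * n⌋₊ / size n) atTop (𝓝 (lam ^ (3 / 4 : ℝ)))) ∧ RVa) :=
  V.crt_of V.vPerfA V.vBadA

end Pool.Agent.CRT
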