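import Pool.Agent.CRT.VDefs2
import Pool.Agent.CRT.Weak
import Pool.Agent.PW.WindN

/-!
# CRT, row 11A, VSl (helper84): the walk does not stay in a thin vertical slab

`VSl` (literal: VDefs2): off a small probability there is no window of `δ n` steps in a vertical slab of width `ε s_n`. From the dimension 4/3 of all
the pieces of all the weak limits (`DIM.dim_final`): a piece in a vertical line has dimension at most 1.
-/

set_option autoImplicit false

open Set Filter Topology MeasureTheory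
open scoped ENNReal

namespace Pool.Agent.CRT.V

open Pool.Agent.NTS.Res
open Pool.Agent.NPR
open Pool.Agent.CRT

/-- the curves that stay in a vertical slab of width `τ` for a time `δ` -/
def Sl (δ τ : ℝ) : Set CI := {γ | ∃ u v : unitInterval, δ ≤ (v : ℝ) - u ∧
  ∀ l : unitInterval, u ≤ l → l ≤ v → |(γ l).re - (γ u).re| ≤ τ}

/-- the curves with a vertical piece of duration `δ` -/
def Vt (δ : ℝ) : Set CI := {γ | ∃ u v : unitInterval, δ ≤ (v : ℝ) - u ∧
  ∀ l : unitInterval, u ≤ l → l ≤ v → (γ l).re = (γ u).re}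

namespace SL

/-- clamp to `[u, v]` -/
def cl (x : unitInterval × unitInterval) (l : unitInterval) : unitInterval := max x.1 (min l x.2)

lemma cl_mem {x : unitInterval × unitInterval} (h : x.1 ≤ x.2) (l : unitInterval) : x.1 ≤ cl x l ∧ cl x l ≤ x.2 :=
  ⟨le_max_left _ _, max_le h (min_le_right _ _)⟩

lemma cl_of {x : unitInterval × unitInterval} {l : unitInterval} (h1 : x.1 ≤ l) (h2 : l ≤ x.2) : cl x l = l := by
  unfold cl
  rw [min_eq_left h2, max_eq_right h1]

lemma slab_iff {γ : CI} {x : unitInterval × unitInterval} (h : x.1 ≤ x.2) (τ : ℝ) :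
    (∀ l : unitInterval, x.1 ≤ l → l ≤ x.2 → |(γ l).re - (γ x.1).re| ≤ τ) ↔
      ∀ l, |(γ (cl x l)).re - (γ x.1).re| ≤ τ := by
  constructor
  · intro h1 l
    exact h1 _ (cl_mem h l).1 (cl_mem h l).2
  · intro h1 l h2 h3
    have := h1 l
    rwa [cl_of h2 h3] at this

lemma le_of_sub {δ : ℝ} (hδ : 0 < δ) {u v : unitInterval} (h : δ ≤ (v : ℝ) - u) : u ≤ v := by
  rw [← Subtype.coe_le_coe]
  linarith

lemma cl_cont (l : unitInterval) : Continuous fun x : unitInterval × unitInterval => cl x l :=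
  continuous_fst.max (continuous_const.min continuous_snd)

theorem sl_closed {δ : ℝ} (hδ : 0 < δ) (τ : ℝ) : IsClosed (Sl δ τ) := by
  have e : Sl δ τ = Prod.fst '' {x : CI × (unitInterval × unitInterval) | δ ≤ (x.2.2 : ℝ) - x.2.1 ∧
      ∀ l, |(x.1 (cl x.2 l)).re - (x.1 x.2.1).re| ≤ τ} := by
    ext γ
    constructor
    · rintro ⟨u, v, h1, h2⟩
      exact ⟨(γ, (u, v)), ⟨h1, (slab_iff (x := (u, v)) (le_of_sub hδ h1) τ).1 h2⟩, rfl⟩
    · rintro ⟨⟨γ', x⟩, ⟨h1, h2⟩, rfl⟩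
      exact ⟨x.1, x.2, h1, (slab_iff (le_of_sub hδ h1) τ).2 h2⟩
  rw [e]
  refine isClosedMap_fst_of_compactSpace _ (IsClosed.inter ?_ ?_)
  · exact isClosed_le continuous_const
      ((continuous_subtype_val.comp (continuous_snd.comp continuous_snd)).sub
        (continuous_subtype_val.comp (continuous_fst.comp continuous_snd)))
  · have : {x : CI × (unitInterval × unitInterval) | ∀ l, |(x.1 (cl x.2 l)).re - (x.1 x.2.1).re| ≤ τ} =
        ⋂ l, {x : CI × (unitInterval × unitInterval) | |(x.1 (cl x.2 l)).re - (x.1 x.2.1).re| ≤ τ} := by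
      ext x
      simp
    show IsClosed {x : CI × (unitInterval × unitInterval) | ∀ l, |(x.1 (cl x.2 l)).re - (x.1 x.2.1).re| ≤ τ}
    rw [this]
    refine isClosed_iInter fun l => isClosed_le ?_ continuous_const
    have h1 : Continuous fun x : CI × (unitInterval × unitInterval) => x.1 (cl x.2 l) :=
      continuous_eval.comp (continuous_fst.prodMk ((cl_cont l).comp continuous_snd))
    have h2 : Continuous fun x : CI × (unitInterval × unitInterval) => x.1 x.2.1 :=
      continuous_eval.comp (continuous_fst.prodMk (continuous_fst.comp continuous_snd))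
    exact ((Complex.continuous_re.comp h1).sub (Complex.continuous_re.comp h2)).abs

lemma sl_inter {δ : ℝ} (hδ : 0 < δ) {γ : CI} (h : ∀ i : ℕ, γ ∈ Sl δ (1 / ((i : ℝ) + 1))) : γ ∈ Vt δ := by
  choose u v h1 h2 using h
  obtain ⟨x, φ, hφ, hx⟩ := CompactSpace.tendsto_subseq fun i => ((u i, v i) : unitInterval × unitInterval)
  have hle : ∀ i, (u i, v i).1 ≤ (u i, v i).2 := fun i => le_of_sub hδ (h1 i)
  have hd : δ ≤ (x.2 : ℝ) - x.1 := by
    have hc : Continuous fun y : unitInterval × unitInterval => (y.2 : ℝ) - y.1 :=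
      (continuous_subtype_val.comp continuous_snd).sub (continuous_subtype_val.comp continuous_fst)
    exact ge_of_tendsto' ((hc.tendsto x).comp hx) fun i => h1 (φ i)
  have hxx : x.1 ≤ x.2 := le_of_sub hδ hd
  have h3 : ∀ l, |(γ (cl x l)).re - (γ x.1).re| ≤ 0 := by
    intro l
    have hc : Continuous fun y : unitInterval × unitInterval => |(γ (cl y l)).re - (γ y.1).re| :=
      ((Complex.continuous_re.comp (γ.continuous.comp (cl_cont l))).sub
        (Complex.continuous_re.comp (γ.continuous.comp continuous_fst))).abs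
    have h4 : Tendsto (fun i : ℕ => 1 / (((φ i : ℕ) : ℝ) + 1)) atTop (𝓝 0) :=
      tendsto_one_div_add_atTop_nhds_zero_nat.comp hφ.tendsto_atTop
    refine le_of_tendsto_of_tendsto' ((hc.tendsto x).comp hx) h4 fun i => ?_
    exact (slab_iff (x := (u (φ i), v (φ i))) (hle (φ i)) _).1 (h2 (φ i)) l
  refine ⟨x.1, x.2, hd, fun l h5 h6 => ?_⟩
  have h7 := h3 l
  rw [cl_of h5 h6] at h7
  have h8 := abs_nonpos_iff.1 h7
  linarith

/-- a curve with a vertical piece has a piece of dimension at most 1 -/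
lemma dim_vert {γ : CI} {u v : unitInterval} (h : ∀ l : unitInterval, u ≤ l → l ≤ v → (γ l).re = (γ u).re) :
    dimH (γ '' Icc u v) ≤ 1 := by
  have hL : LipschitzWith 1 fun y : ℝ => (((γ u).re : ℂ) + (y : ℂ) * Complex.I) := by
    refine LipschitzWith.of_dist_le_mul fun a b => ?_
    rw [dist_add_left, dist_eq_norm, ← sub_mul, norm_mul, Complex.norm_I, mul_one, ← Complex.ofReal_sub,
      Complex.norm_real, Real.dist_eq, Real.norm_eq_abs, NNReal.coe_one, one_mul]
  refine le_trans (dimH_mono ?_) (hL.dimH_range_le.trans Real.dimH_univ.le)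
  rintro _ ⟨l, hl, rfl⟩
  refine ⟨(γ l).im, ?_⟩
  have h1 := h l hl.1 hl.2
  show ((γ u).re : ℂ) + ((γ l).im : ℂ) * Complex.I = γ l
  rw [← h1]
  exact Complex.re_add_im _

lemma four_thirds : ¬ ((4 : ℝ≥0∞) / 3 ≤ 1) := by
  intro h
  rw [ENNReal.div_le_iff (by norm_num) (by norm_num), one_mul] at h
  norm_num at h

/-- **almost surely no piece is vertical** -/
theorem vert_of {ν : Measure CI} (hD : ∀ᵐ γ : CI ∂ν, ∀ u v : unitInterval, u < v → dimH (γ '' Set.Icc u v) = 4 / 3) :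
    ∀ᵐ γ : CI ∂ν, ∀ u v : unitInterval, u < v → ∃ l : unitInterval, u ≤ l ∧ l ≤ v ∧ (γ l).re ≠ (γ u).re := by
  filter_upwards [hD] with γ h u v huv
  by_contra hc
  push Not at hc
  have h1 := dim_vert hc
  rw [h u v huv] at h1
  exact four_thirds h1

theorem vt_null {ν : Measure CI} (hD : ∀ᵐ γ : CI ∂ν, ∀ u v : unitInterval, u < v → dimH (γ '' Set.Icc u v) = 4 / 3)
    {δ : ℝ} (hδ : 0 < δ) : ν (Vt δ) = 0 := by
  have h1 := vert_of hD
  rw [ae_iff] at h1
  refine measure_mono_null ?_ h1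
  rintro γ ⟨u, v, h2, h3⟩ hc
  have huv : u < v := by
    rw [← Subtype.coe_lt_coe]
    linarith
  obtain ⟨l, h4, h5, h6⟩ := hc u v huv
  exact h6 (h3 l h4 h5)

/-- a lower bound for all slabs is absurd -/
theorem slab_lim {ν : Measure CI} [IsProbabilityMeasure ν]
    (hD : ∀ᵐ γ : CI ∂ν, ∀ u v : unitInterval, u < v → dimH (γ '' Set.Icc u v) = 4 / 3)
    {δ : ℝ} (hδ : 0 < δ) : Tendsto (fun i : ℕ => ν (Sl δ (1 / ((i : ℝ) + 1)))) atTop (𝓝 0) := by
  have h1 : Tendsto (fun i : ℕ => ν (Sl δ (1 / ((i : ℝ) + 1)))) atTop (𝓝 (ν (⋂ i : ℕ, Sl δ (1 / ((i : ℝ) + 1))))) := by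
    refine tendsto_measure_iInter_atTop (fun i => (sl_closed hδ _).measurableSet.nullMeasurableSet) ?_ ⟨0, measure_ne_top _ _⟩
    intro i j hij γ hγ
    obtain ⟨u, v, h2, h3⟩ := hγ
    refine ⟨u, v, h2, fun l h4 h5 => (h3 l h4 h5).trans ?_⟩
    have h6 : (i : ℝ) ≤ j := by exact_mod_cast hij
    exact one_div_le_one_div_of_le (by positivity) (by linarith)
  have h2 : ν (⋂ i : ℕ, Sl δ (1 / ((i : ℝ) + 1))) = 0 :=
    measure_mono_null (fun γ hγ => sl_inter hδ fun i => mem_iInter.1 hγ i) (vt_null hD hδ)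
  rwa [h2] at h1

theorem slab_nu_of {ν : Measure CI} [IsProbabilityMeasure ν]
    (hD : ∀ᵐ γ : CI ∂ν, ∀ u v : unitInterval, u < v → dimH (γ '' Set.Icc u v) = 4 / 3)
    {δ η : ℝ} (hδ : 0 < δ) (hη : 0 < η) : ∃ τ : ℝ, 0 < τ ∧ (ν (Sl δ τ)).toReal < η := by
  have h1 := (ENNReal.tendsto_toReal ENNReal.zero_ne_top).comp (slab_lim hD hδ)
  rw [ENNReal.toReal_zero] at h1
  obtain ⟨i, hi⟩ := (h1.eventually (gt_mem_nhds hη)).exists
  exact ⟨1 / ((i : ℝ) + 1), by positivity, hi⟩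

/-! ### walks -/

lemma near {n : ℕ} (hn : 1 ≤ n) (s : Fin n → Fin 3) (u : unitInterval) : ∃ (i : ℕ) (a : ℝ), i < n ∧ 0 ≤ a ∧ a ≤ 1 ∧
    (i : ℝ) ≤ u * n ∧ (u : ℝ) * n ≤ i + 1 ∧ (curve s u).re * size n = (1 - a) * (pos s i).re + a * (pos s (i + 1)).re := by
  obtain ⟨i, a, hi, h0, h1, h2, h3, h4⟩ := NTSF.curve_apply hn s u
  refine ⟨i, a, hi, h0, h1, h2, h3, ?_⟩
  have hs := NTSF.size_pos hn
  rw [h4, Complex.div_ofReal_re, div_mul_cancel₀ _ hs.ne', Complex.add_re, Complex.re_ofReal_mul, Complex.re_ofReal_mul]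

/-- the curve of a walk with a window in a slab -/
theorem curve_slab {n : ℕ} (hn : 1 ≤ n) {s : Fin n → Fin 3} {δ τ : ℝ} (hδ : 0 < δ) {i j : ℕ} (hj : j ≤ n)
    (hij : δ * n ≤ (j : ℝ) - i)
    (h : ∀ l : ℕ, i ≤ l → l ≤ j → |(pos s l).re - (pos s i).re| ≤ τ * size n) : curve s ∈ Sl δ τ := by
  have hn0 : (0 : ℝ) < n := by exact_mod_cast hn
  have hs := NTSF.size_pos hn
  have hijn : i < j := by
    have h1 : (0 : ℝ) < (j : ℝ) - i := lt_of_lt_of_le (by positivity) hij
    have h2 : (i : ℝ) < j := by linarith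
    exact_mod_cast h2
  have hin : i ≤ n := hijn.le.trans hj
  have htm : ∀ k : ℕ, k ≤ n → ((NTSF.Wd.tm n k : unitInterval) : ℝ) * n = k := by
    intro k hk
    rw [NTSF.Wd.tm_coe hk]
    field_simp
  have hu : (curve s (NTSF.Wd.tm n i)).re * size n = (pos s i).re := by
    rw [NTSF.Wd.curve_tm hn hin, Complex.div_ofReal_re, div_mul_cancel₀ _ hs.ne']
  refine ⟨NTSF.Wd.tm n i, NTSF.Wd.tm n j, ?_, fun l h1 h2 => ?_⟩
  · rw [NTSF.Wd.tm_coe hin, NTSF.Wd.tm_coe hj, ← sub_div, le_div_iff₀ hn0]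
    exact hij
  · have g1 : (i : ℝ) ≤ l * n := by
      rw [← htm i hin]
      exact mul_le_mul_of_nonneg_right h1 hn0.le
    have g2 : (l : ℝ) * n ≤ j := by
      rw [← htm j hj]
      exact mul_le_mul_of_nonneg_right h2 hn0.le
    obtain ⟨k, a, hk, a0, a1, b1, b2, b3⟩ := near hn s l
    have key : |(curve s l).re * size n - (pos s i).re| ≤ τ * size n := by
      rcases Nat.lt_or_ge k i with h3 | h3
      · -- then `l` is the time of `i`
        have h4 : ((k + 1 : ℕ) : ℝ) ≤ i := by exact_mod_cast h3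
        push_cast at h4
        have h5 : (l : ℝ) = NTSF.Wd.tm n i := by
          have : (l : ℝ) * n = ((NTSF.Wd.tm n i : unitInterval) : ℝ) * n := by
            rw [htm i hin]
            linarith
          exact mul_right_cancel₀ hn0.ne' this
        rw [Subtype.ext h5, hu]
        exact h i le_rfl hijn.le
      · rcases Nat.lt_or_ge k j with h6 | h6
        · have c1 := abs_le.1 (h k h3 h6.le)
          have c2 := abs_le.1 (h (k + 1) (by omega) h6)
          rw [b3, abs_le]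
          constructor <;> nlinarith [c1.1, c1.2, c2.1, c2.2]
        · have h4 : (j : ℝ) ≤ k := by exact_mod_cast h6
          have h5 : (l : ℝ) = NTSF.Wd.tm n j := by
            have : (l : ℝ) * n = ((NTSF.Wd.tm n j : unitInterval) : ℝ) * n := by
              rw [htm j hj]
              linarith
            exact mul_right_cancel₀ hn0.ne' this
          rw [Subtype.ext h5, NTSF.Wd.curve_tm hn hj, Complex.div_ofReal_re, div_mul_cancel₀ _ hs.ne']
          exact h j hijn.le le_rfl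
    rw [← hu, ← sub_mul, abs_mul, abs_of_pos hs] at key
    exact le_of_mul_le_mul_right key hs

/-- **VSl from the dimension of the limits and tightness** -/
theorem vSl_of
    (hsub : ∀ φ : ℕ → ℕ, StrictMono φ → ∃ ψ : ℕ → ℕ, StrictMono ψ ∧ ∃ ν : Measure CI,
      IsProbabilityMeasure ν ∧ LawTo (fun k => φ (ψ k)) ν)
    (hD : ∀ (φ : ℕ → ℕ) (ν : Measure CI), Tendsto φ atTop atTop → IsProbabilityMeasure ν → LawTo φ ν →
      ∀ᵐ γ : CI ∂ν, ∀ u v : unitInterval, u < v → dimH (γ '' Set.Icc u v) = 4 / 3) : VSl := by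
  classical
  by_contra hcon
  unfold VSl at hcon
  push Not at hcon
  obtain ⟨ε, hε, hcon⟩ := hcon
  have hfr : ∀ i : ℕ, ∃ᶠ n : ℕ in atTop, ε * ((saw n).card : ℝ) <
      (((saw n).filter fun s => ∃ i' j : ℕ, i' ≤ j ∧ j ≤ n ∧ ε * n ≤ (j : ℝ) - i' ∧
        ∀ l : ℕ, i' ≤ l → l ≤ j → |(pos s l).re - (pos s i').re| ≤ 1 / ((i : ℝ) + 1) * size n).card : ℝ) := by
    intro i
    rw [frequently_atTop]
    intro n0
    obtain ⟨n, hn, h⟩ := hcon (1 / ((i : ℝ) + 1)) (by positivity) n0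
    exact ⟨n, hn, h⟩
  obtain ⟨φ, hφ, hP⟩ := extraction_forall_of_frequently hfr
  obtain ⟨ψ, hψ, ν, hν, hlim⟩ := hsub φ hφ
  have hto : Tendsto (fun k => φ (ψ k)) atTop atTop := hφ.tendsto_atTop.comp hψ.tendsto_atTop
  have hDν := hD _ ν hto hν hlim
  haveI : ∀ k, IsProbabilityMeasure (law (φ (ψ k))) := fun k => NTSF.law_prob _
  have hw : WTo (fun k => law (φ (ψ k))) ν := hlim
  have hlow : ∀ i : ℕ, ENNReal.ofReal ε ≤ ν (Sl ε (1 / ((i : ℝ) + 1))) := by
    intro i
    refine hw.le_closed (sl_closed hε _) (Eventually.frequently ?_)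
    have h1 : ∀ᶠ k in atTop, i ≤ ψ k := hψ.tendsto_atTop.eventually_ge_atTop i
    have h2 : ∀ᶠ k in atTop, 1 ≤ φ (ψ k) := hto.eventually_ge_atTop 1
    filter_upwards [h1, h2] with k h1 h2
    have h3 := hP (ψ k)
    have h4 : ((saw (φ (ψ k))).filter fun s => ∃ i' j : ℕ, i' ≤ j ∧ j ≤ φ (ψ k) ∧
        ε * ((φ (ψ k) : ℕ) : ℝ) ≤ (j : ℝ) - i' ∧ ∀ l : ℕ, i' ≤ l → l ≤ j →
          |(pos s l).re - (pos s i').re| ≤ 1 / (((ψ k : ℕ) : ℝ) + 1) * size (φ (ψ k))) ⊆
        (saw (φ (ψ k))).filter fun s => curve s ∈ Sl ε (1 / ((i : ℝ) + 1)) := by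
      intro s hs
      rw [Finset.mem_filter] at hs ⊢
      obtain ⟨hs1, i', j, hij, hj, hd, hl⟩ := hs
      refine ⟨hs1, curve_slab h2 hε hj hd fun l l1 l2 => (hl l l1 l2).trans ?_⟩
      refine mul_le_mul_of_nonneg_right ?_ (NTSF.size_pos h2).le
      have h6 : (i : ℝ) ≤ ((ψ k : ℕ) : ℝ) := by exact_mod_cast h1
      exact one_div_le_one_div_of_le (by positivity) (by linarith)
    have h5 : (0 : ℝ) < ((saw (φ (ψ k))).card : ℝ) := NTSF.saw_card_pos _
    have h6 : ε * ((saw (φ (ψ k))).card : ℝ) ≤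
        (((saw (φ (ψ k))).filter fun s => curve s ∈ Sl ε (1 / ((i : ℝ) + 1))).card : ℝ) := by
      refine h3.le.trans ?_
      exact_mod_cast Finset.card_le_card h4
    rw [NTSF.law_apply, ← ENNReal.ofReal_natCast, ← ENNReal.ofReal_natCast, ← ENNReal.ofReal_inv_of_pos h5,
      ← ENNReal.ofReal_mul (by positivity)]
    refine ENNReal.ofReal_le_ofReal ?_
    rw [inv_mul_eq_div, le_div_iff₀ h5]
    convert h6
  have h1 := ge_of_tendsto' (slab_lim hDν hε) hlow
  have h2 : 0 < ENNReal.ofReal ε := ENNReal.ofReal_pos.2 hε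
  exact absurd (le_antisymm h1 zero_le) h2.ne'

end SL

end Pool.Agent.CRT.V
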